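import Pool.Agent.H470.FE

set_option autoImplicit false

/-!
# An approximate functional equation with sharp cutoffs, up to a small multiple of zeta itself
-/

open Complex MeasureTheory Set Filter Topology

namespace Pool.Agent.H470

open Pool.Agent.W188.QS Pool.Agent.W188.GP

theorem UU_sub (h R ν : ℝ) (K : ℕ) (f g : ℝ → ℂ) (t : ℝ) :
    UU h R ν K (fun s => f s - g s) t = UU h R ν K f t - UU h R ν K g t := by
  unfold UU HH
  simp only [sub_mul, Finset.sum_sub_distrib]
  ring

theorem UU_pt {h R ν : ℝ} {K : ℕ} {f : ℝ → ℂ} {t : ℝ} :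
    ‖UU h R ν K f t‖ ≤ ‖f t‖ + ∑ k ∈ Finset.Icc (1 - (K : ℤ)) K,
      ‖f (t + h * ((k : ℝ) - 1 / 2))‖ / ‖((k : ℂ) - 1 / 2)‖ := by
  unfold UU
  have hI : ‖I / (2 * Real.pi : ℂ)‖ ≤ 1 := by
    rw [norm_div, Complex.norm_I, norm_mul, Complex.norm_real, Real.norm_eq_abs,
      abs_of_pos Real.pi_pos, Complex.norm_ofNat, div_le_one (by positivity)]
    linarith [Real.pi_gt_three]
  refine (norm_sub_le _ _).trans (add_le_add ?_ ?_)
  · rw [norm_div, Complex.norm_ofNat]
    linarith [norm_nonneg (f t)]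
  · rw [norm_mul]
    refine (mul_le_of_le_one_left (norm_nonneg _) hI).trans ?_
    unfold HH
    refine (norm_sum_le _ _).trans (Finset.sum_le_sum fun k _ => ?_)
    rw [norm_mul, norm_div, gs_norm, mul_div_assoc']
    apply div_le_div_of_nonneg_right _ (norm_nonneg _)
    apply mul_le_of_le_one_right (norm_nonneg _)
    rw [Real.exp_le_one_iff]
    linarith [sq_nonneg (h / R * ((k : ℝ) - 1 / 2))]

theorem card_Icc (K : ℕ) : ((Finset.Icc (1 - (K : ℤ)) K).card : ℝ) = 2 * K := by
  rw [Int.card_Icc]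
  have : ((K : ℤ) + 1 - (1 - (K : ℤ))).toNat = 2 * K := by omega
  rw [this]; push_cast; ring

theorem half_abs {K : ℕ} {k : ℤ} (hk : k ∈ Finset.Icc (1 - (K : ℤ)) K) :
    |(k : ℝ) - 1 / 2| ≤ K := by
  rw [Finset.mem_Icc] at hk
  have h1 : (1 : ℝ) - K ≤ k := by exact_mod_cast hk.1
  have h2 : (k : ℝ) ≤ K := by exact_mod_cast hk.2
  rw [abs_le]; constructor <;> linarith

theorem half_norm' (k : ℤ) : ‖((k : ℂ) - 1 / 2)‖ = |(k : ℝ) - 1 / 2| := by
  have h : ((k : ℂ) - 1 / 2) = (((k : ℝ) - 1 / 2 : ℝ) : ℂ) := by push_cast; ring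
  rw [h, Complex.norm_real, Real.norm_eq_abs]

theorem afe : ∃ C : ℝ, 0 < C ∧ ∀ T R : ℝ, 5 ≤ Real.log T → Real.sqrt T ≤ R ^ 2 → 1 ≤ R →
    R * Real.log T ^ 2 ≤ Real.sqrt T → 2 * R * Real.log T + 1 ≤ T / 4 →
    ∀ N : ℕ, Real.sqrt T ≤ N → (N : ℝ) ≤ R ^ 2 → ∀ t : ℝ, 3 * T / 4 ≤ t → t ≤ 3 * T →
    ‖zz t‖ ≤ ‖AA N t‖ + ‖AA ⌊t / (2 * Real.pi * (N + 1 / 2))⌋₊ t‖ + C +
      8 * R / T * ∑ k ∈ Finset.Icc (1 - (KT T R : ℤ)) (KT T R),
        ‖zz (t + hT T * ((k : ℝ) - 1 / 2))‖ := by
  obtain ⟨C₀, hC₀, hproj⟩ := proj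
  obtain ⟨C₁, hC₁, h₁⟩ := UU_poly
  obtain ⟨C₂, hC₂, h₂⟩ := near_sum
  refine ⟨C₀ + C₁ * (C₂ * 6 + 16) + 1000, by positivity, ?_⟩
  intro T R hL5 hRT hR hRL hW N hN hNR t ht1 ht2
  have hL : 4 ≤ Real.log T := by linarith
  have hL0 : 0 < Real.log T := by linarith
  set p := Real.sqrt T with hp
  have hTpos : 0 < T := by nlinarith
  have hp0 : 0 < p := Real.sqrt_pos.2 hTpos
  have hp2 : p ^ 2 = T := Real.sq_sqrt hTpos.le
  have hL16 : 16 ≤ Real.log T ^ 2 := by nlinarith
  have hRp : 16 * R ≤ p := by nlinarith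
  have hp16 : 16 ≤ p := by linarith
  have hpT : p ≤ T := by nlinarith
  have hRT1 : R ≤ T := by linarith
  have hT600 : 600 ≤ T := by
    have h0 : (5 : ℝ) ^ 2 ≤ Real.log T ^ 2 := pow_le_pow_left₀ (by norm_num) hL5 2
    have h1 : R * 5 ^ 2 ≤ R * Real.log T ^ 2 := mul_le_mul_of_nonneg_left h0 (by linarith)
    have h2 : 25 ≤ p := by linarith
    have h3 : (25 : ℝ) ^ 2 ≤ p ^ 2 := pow_le_pow_left₀ (by norm_num) h2 2
    linarith
  have hT256 : 256 ≤ T := by linarith
  have hT1 : 1 ≤ T := by linarith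
  obtain ⟨k1, k2, k3, k4, k5, k6⟩ := par hL hR
  set h := hT T with hh
  set K := KT T R with hK
  have hK0 : (0 : ℝ) ≤ K := Nat.cast_nonneg K
  have hKle : (K : ℝ) ≤ 4 * p + 1 := by
    have := Nat.ceil_lt_add_one (by positivity : 0 ≤ 4 * R * Real.log T ^ 2)
    have h2 : (K : ℝ) < 4 * R * Real.log T ^ 2 + 1 := this
    linarith
  -- the long partial sum
  set X := ⌊16 * T⌋₊ with hX
  have hX2 : (X : ℝ) ≤ 16 * T := Nat.floor_le (by linarith)
  have hX1 : 8 * T ≤ X := by
    have := (Nat.lt_floor_add_one (16 * T)).le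
    linarith
  have hN1 : 1 ≤ N := by
    have : (1 : ℝ) ≤ N := by linarith
    exact_mod_cast this
  have hN0 : (0 : ℝ) ≤ N := Nat.cast_nonneg N
  have hR256 : 256 * R ^ 2 ≤ T := by
    have h1 : (16 * R) ^ 2 ≤ p ^ 2 := pow_le_pow_left₀ (by linarith) hRp 2
    linarith
  have hR21 : 1 ≤ R ^ 2 := one_le_pow₀ hR
  have hR2T : R ^ 2 ≤ T := by linarith
  have hTT : 256 * T ≤ T * T := mul_le_mul_of_nonneg_right hT256 hTpos.le
  have hRL4 : 4 ≤ R * Real.log T := by
    calc (4 : ℝ) = 1 * 4 := by norm_num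
      _ ≤ R * Real.log T := mul_le_mul hR hL (by norm_num) (by linarith)
  have hNX : N ≤ X := by
    have : (N : ℝ) ≤ X := by linarith
    exact_mod_cast this
  set ν := Real.log (N + 1 / 2) with hν
  set S := Finset.Icc (1 - (K : ℤ)) K with hS
  have hlow : 3 * T / 4 > 0 := by positivity
  have ht0 : 0 < t := by linarith
  -- windows
  have hwin : ∀ k ∈ S, |h * ((k : ℝ) - 1 / 2)| ≤ T / 4 ∧
      |h * ((k : ℝ) - 1 / 2)| ≤ 2 * R * Real.log T + 1 := by
    intro k hk
    have h1 : |h * ((k : ℝ) - 1 / 2)| ≤ h * K := by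
      rw [abs_mul, abs_of_pos k1]
      exact mul_le_mul_of_nonneg_left (half_abs hk) k1.le
    exact ⟨h1.trans (k6.trans hW), h1.trans k6⟩
  have hzA : ∀ s, |s - t| ≤ T / 4 → ‖zz s - AA X s‖ ≤ 25 / p := by
    intro s hs
    have := abs_le.1 hs
    exact zA hT1 hX1 hX2 (by linarith) (by linarith)
  have h25 : 25 / p * (1 + 4 * K) ≤ 450 := by
    rw [div_mul_eq_mul_div, div_le_iff₀ hp0]
    linarith
  have hsum4 : ∑ k ∈ S, 25 / p / ‖((k : ℂ) - 1 / 2)‖ ≤ 25 / p * (4 * K) := by
    calc ∑ k ∈ S, 25 / p / ‖((k : ℂ) - 1 / 2)‖ ≤ ∑ k ∈ S, 25 / p * 2 := by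
          refine Finset.sum_le_sum fun k _ => ?_
          rw [div_le_iff₀ (by linarith [half_norm k])]
          have h0 : 0 < 25 / p := by positivity
          have h1 : 25 / p * 2 * (1 / 2) ≤ 25 / p * 2 * ‖((k : ℂ) - 1 / 2)‖ :=
            mul_le_mul_of_nonneg_left (half_norm k) (by positivity)
          linarith
      _ = 25 / p * (4 * K) := by
          rw [Finset.sum_const, nsmul_eq_mul, hS, card_Icc]; ring
  -- step A
  have hA : ‖UU h R ν K zz t - AA N t‖ ≤ 450 + C₀ := by
    have e1 : UU h R ν K zz t - AA N t = UU h R ν K (fun s => zz s - AA X s) t +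
        (UU h R ν K (AA X) t - AA N t) := by
      rw [UU_sub]; ring
    rw [e1]
    refine (norm_add_le _ _).trans (add_le_add ?_ ?_)
    · refine UU_pt.trans ?_
      have a1 : ‖zz t - AA X t‖ ≤ 25 / p := hzA t (by rw [sub_self, abs_zero]; positivity)
      have a2 : ∑ k ∈ S, ‖zz (t + h * ((k : ℝ) - 1 / 2)) - AA X (t + h * ((k : ℝ) - 1 / 2))‖ /
          ‖((k : ℂ) - 1 / 2)‖ ≤ ∑ k ∈ S, 25 / p / ‖((k : ℂ) - 1 / 2)‖ := by
        refine Finset.sum_le_sum fun k hk => ?_
        apply div_le_div_of_nonneg_right _ (norm_nonneg _)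
        apply hzA
        rw [add_sub_cancel_left]
        exact (hwin k hk).1
      calc _ ≤ 25 / p + 25 / p * (4 * K) := add_le_add a1 (a2.trans hsum4)
        _ = 25 / p * (1 + 4 * K) := by ring
        _ ≤ 450 := h25
    · exact hproj T R hL hRT hR hRT1 N X hN1 hNX hX2 hNR t
  -- step B
  set L := Real.log (t / (2 * Real.pi)) with hLdef
  set G : ℝ → ℂ := fun s => chi t * cexp (((-((s - t) * L) : ℝ) : ℂ) * I) *
    (starRingEnd ℂ) (AA X s) with hG
  have hzG : ∀ s, |s - t| ≤ T / 4 → ‖zz s - G s‖ ≤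
      |s - t| * (28 + 2 * |s - t|) / t * ‖zz s‖ + 25 / p := by
    intro s hs
    have hs' := abs_le.1 hs
    have h1 := fe (t := s) (by linarith)
    have h2 := chi_lin (t := t) (u := s - t) (by linarith) (by linarith)
    rw [add_sub_cancel] at h2
    have e1 : zz s - G s = (chi s - chi t * cexp (((-((s - t) * L) : ℝ) : ℂ) * I)) *
        (starRingEnd ℂ) (zz s) + chi t * cexp (((-((s - t) * L) : ℝ) : ℂ) * I) *
        (starRingEnd ℂ) (zz s - AA X s) := by
      simp only [hG]
      rw [map_sub]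
      linear_combination h1
    rw [e1]
    refine (norm_add_le _ _).trans (add_le_add ?_ ?_)
    · rw [norm_mul, RCLike.norm_conj]
      exact mul_le_mul_of_nonneg_right h2 (norm_nonneg _)
    · rw [norm_mul, RCLike.norm_conj, norm_mul, chi_norm, one_mul,
        Complex.norm_exp_ofReal_mul_I, one_mul]
      exact hzA s hs
  set y := t / (2 * Real.pi * (N + 1 / 2)) with hy
  have hpi := Real.pi_gt_three
  have hpi4 := Real.pi_lt_d2
  have hNh : (0 : ℝ) < N + 1 / 2 := by linarith
  have hy0 : 0 < y := by rw [hy]; positivity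
  have hlogy : Real.log y = L - ν := by
    rw [hy, hLdef, hν, ← Real.log_div (by positivity) (by positivity)]
    congr 1
    field_simp
  have hy1 : 1 ≤ y := by
    rw [hy, le_div_iff₀ (by positivity)]
    have hN2 : (N : ℝ) + 1 / 2 ≤ 2 * R ^ 2 := by linarith
    calc 1 * (2 * Real.pi * (N + 1 / 2)) ≤ 1 * (2 * 3.15 * (2 * R ^ 2)) := by gcongr
      _ ≤ t := by linarith
  have hyR : y ≤ R ^ 2 := by
    rw [hy, div_le_iff₀ (by positivity)]
    have h1 : T = p * p := by rw [← hp2]; ring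
    have h3 : p * p ≤ R ^ 2 * (N + 1 / 2) :=
      mul_le_mul hRT (by linarith) hp0.le (by linarith)
    have h4 : 0 < R ^ 2 * (N + 1 / 2) := by positivity
    calc t ≤ 3 * (R ^ 2 * (N + 1 / 2)) := by linarith
      _ ≤ (2 * Real.pi) * (R ^ 2 * (N + 1 / 2)) :=
        mul_le_mul_of_nonneg_right (by linarith) h4.le
      _ = R ^ 2 * (2 * Real.pi * (N + 1 / 2)) := by ring
  have hGU : ‖G t - UU h R ν K G t‖ ≤ ‖AA ⌊y⌋₊ t‖ + C₁ * (C₂ * 6 + 16) := by
    have hGe : G = fun s => ∑ n ∈ Finset.Icc 1 X, (chi t * cexp (((t * L : ℝ) : ℂ) * I) *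
        ((1 / Real.sqrt n : ℝ) : ℂ)) * cexp (((-((L - Real.log n) * s) : ℝ) : ℂ) * I) := by
      funext s
      simp only [hG]
      rw [AA_eq, map_sum, Finset.mul_sum]
      refine Finset.sum_congr rfl fun n _ => ?_
      rw [map_mul, Complex.conj_ofReal, ← Complex.exp_conj, map_mul, Complex.conj_ofReal,
        Complex.conj_I]
      have : cexp (((-((s - t) * L) : ℝ) : ℂ) * I) *
          cexp (((-(Real.log n * s) : ℝ) : ℂ) * -I) = cexp (((t * L : ℝ) : ℂ) * I) *
          cexp (((-((L - Real.log n) * s) : ℝ) : ℂ) * I) := by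
        rw [← Complex.exp_add, ← Complex.exp_add]
        congr 1
        push_cast
        ring
      linear_combination (chi t * ((1 / Real.sqrt n : ℝ) : ℂ)) * this
    have hpoly := h₁ ℕ (Finset.Icc 1 X)
      (fun n => chi t * cexp (((t * L : ℝ) : ℂ) * I) * ((1 / Real.sqrt n : ℝ) : ℂ))
      (fun n => L - Real.log n) h R ν K t k1 k2 ?_
    · rw [← hGe] at hpoly
      have hfil : ∑ n ∈ Finset.Icc 1 X, (if L - Real.log n < ν then
          (chi t * cexp (((t * L : ℝ) : ℂ) * I) * ((1 / Real.sqrt n : ℝ) : ℂ)) *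
          cexp (((-((L - Real.log n) * t) : ℝ) : ℂ) * I) else 0) =
          G t - chi t * (starRingEnd ℂ) (AA ⌊y⌋₊ t) := by
        have hXy : ⌊y⌋₊ ≤ X := by
          apply Nat.floor_le_of_le
          have : y ≤ T := hyR.trans hR2T
          linarith
        have e2 : chi t * (starRingEnd ℂ) (AA ⌊y⌋₊ t) = ∑ n ∈ Finset.Icc 1 X,
            (if L - Real.log n < ν then 0 else
            (chi t * cexp (((t * L : ℝ) : ℂ) * I) * ((1 / Real.sqrt n : ℝ) : ℂ)) *
            cexp (((-((L - Real.log n) * t) : ℝ) : ℂ) * I)) := by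
          rw [AA_eq, map_sum, Finset.mul_sum]
          have e3 : ∀ n ∈ Finset.Icc 1 X, (if L - Real.log n < ν then 0 else
              (chi t * cexp (((t * L : ℝ) : ℂ) * I) * ((1 / Real.sqrt n : ℝ) : ℂ)) *
              cexp (((-((L - Real.log n) * t) : ℝ) : ℂ) * I)) =
              (if n ≤ ⌊y⌋₊ then
              (chi t * cexp (((t * L : ℝ) : ℂ) * I) * ((1 / Real.sqrt n : ℝ) : ℂ)) *
              cexp (((-((L - Real.log n) * t) : ℝ) : ℂ) * I) else 0) := by
            intro n hn
            have hn1 : 1 ≤ n := (Finset.mem_Icc.1 hn).1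
            have hn0 : (0 : ℝ) < n := by exact_mod_cast hn1
            have : n ≤ ⌊y⌋₊ ↔ ¬ (L - Real.log n < ν) := by
              rw [Nat.le_floor_iff hy0.le, ← Real.log_le_log_iff hn0 hy0, hlogy, not_lt]
              constructor <;> intro hh <;> linarith
            by_cases hc : L - Real.log n < ν
            · rw [if_pos hc, if_neg (fun h => this.1 h hc)]
            · rw [if_neg hc, if_pos (this.2 hc)]
          rw [Finset.sum_congr rfl e3, ← Finset.sum_filter]
          have e4 : (Finset.Icc 1 X).filter (fun n => n ≤ ⌊y⌋₊) = Finset.Icc 1 ⌊y⌋₊ := by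
            ext n; simp only [Finset.mem_filter, Finset.mem_Icc]; omega
          rw [e4]
          refine Finset.sum_congr rfl fun n _ => ?_
          rw [map_mul, Complex.conj_ofReal, ← Complex.exp_conj, map_mul, Complex.conj_ofReal,
            Complex.conj_I]
          have : cexp (((-(Real.log n * t) : ℝ) : ℂ) * -I) = cexp (((t * L : ℝ) : ℂ) * I) *
              cexp (((-((L - Real.log n) * t) : ℝ) : ℂ) * I) := by
            rw [← Complex.exp_add]
            congr 1
            push_cast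
            ring
          linear_combination (chi t * ((1 / Real.sqrt n : ℝ) : ℂ)) * this
        rw [e2, hGe, ← Finset.sum_sub_distrib]
        refine Finset.sum_congr rfl fun n _ => ?_
        split_ifs <;> ring
      rw [hfil] at hpoly
      have e5 : G t - UU h R ν K G t = chi t * (starRingEnd ℂ) (AA ⌊y⌋₊ t) -
          (UU h R ν K G t - (G t - chi t * (starRingEnd ℂ) (AA ⌊y⌋₊ t))) := by ring
      rw [e5]
      refine (norm_sub_le _ _).trans (add_le_add ?_ (hpoly.trans ?_))
      · rw [norm_mul, chi_norm, one_mul, RCLike.norm_conj]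
      · apply mul_le_mul_of_nonneg_left _ hC₁.le
        have e6 : ∀ n : ℕ, ‖chi t * cexp (((t * L : ℝ) : ℂ) * I) * ((1 / Real.sqrt n : ℝ) : ℂ)‖ =
            1 / Real.sqrt n := fun n => by
          rw [norm_mul, norm_mul, chi_norm, one_mul, Complex.norm_exp_ofReal_mul_I, one_mul,
            Complex.norm_real, Real.norm_eq_abs, abs_of_nonneg (by positivity)]
        have e7 : ∀ n : ℕ, -(R * (ν - (L - Real.log n))) ^ 2 / 8 =
            -(R * (Real.log y - Real.log n)) ^ 2 / 8 := fun n => by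
          rw [hlogy]; ring
        simp_rw [e6, e7, mul_add]
        rw [Finset.sum_add_distrib, ← Finset.sum_mul]
        apply add_le_add
        · refine (h₂ y R X hy0 hR).trans ?_
          apply mul_le_mul_of_nonneg_left _ hC₂.le
          have hs0 : 0 < Real.sqrt y := Real.sqrt_pos.2 hy0
          have hsy : Real.sqrt y ≤ R := by
            rw [show (R : ℝ) = Real.sqrt (R ^ 2) by rw [Real.sqrt_sq (by positivity)]]
            exact Real.sqrt_le_sqrt hyR
          have hs1 : 1 ≤ Real.sqrt y := by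
            rw [Real.one_le_sqrt]; exact hy1
          have hsX : Real.sqrt X ≤ 4 * R ^ 2 := by
            calc Real.sqrt X ≤ Real.sqrt (16 * T) := Real.sqrt_le_sqrt hX2
              _ = 4 * p := by
                rw [Real.sqrt_mul (by norm_num), show (16 : ℝ) = 4 ^ 2 by norm_num,
                  Real.sqrt_sq (by norm_num)]
              _ ≤ _ := by linarith
          have a1 : 1 / Real.sqrt y ≤ 1 := (div_le_one hs0).2 hs1
          have a2 : 1 / Real.sqrt y * (y / R) ≤ 1 := by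
            have : 1 / Real.sqrt y * (y / R) = Real.sqrt y / R := by
              rw [one_div_mul_eq_div, div_right_comm, Real.div_sqrt]
            rw [this, div_le_iff₀ (by linarith)]
            linarith
          have a3 : Real.sqrt X / R ^ 2 ≤ 4 := by
            rw [div_le_iff₀ (by positivity)]; exact hsX
          rw [mul_add, mul_one]
          linarith
        · have h4 := sum_inv_sqrt X
          have h5 := tail_small hL hR hRT1
          have h6 : Real.sqrt X ≤ 4 * T := by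
            rw [show (4 * T : ℝ) = Real.sqrt ((4 * T) ^ 2) by rw [Real.sqrt_sq (by positivity)]]
            apply Real.sqrt_le_sqrt
            have : (4 * T) ^ 2 = 16 * (T * T) := by ring
            linarith
          calc (∑ n ∈ Finset.Icc 1 X, 1 / Real.sqrt n) *
                (Real.exp (-(h / R * K) ^ 2 / 2) / (h / R))
              ≤ (8 * T) * (2 / T ^ 6) := by
                apply mul_le_mul (by linarith) h5 (by positivity) (by positivity)
            _ = 16 / T ^ 5 := by field_simp; ring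
            _ ≤ 16 := by
                apply div_le_self (by norm_num)
                exact one_le_pow₀ hT1
    · intro n hn
      have hn1 : 1 ≤ n := (Finset.mem_Icc.1 hn).1
      have hn0 : (1 : ℝ) ≤ n := by exact_mod_cast hn1
      have hnX : (n : ℝ) ≤ X := by exact_mod_cast (Finset.mem_Icc.1 hn).2
      have b1 : 0 ≤ Real.log n := Real.log_nonneg hn0
      have b2 : Real.log n ≤ 2 * Real.log T := by
        rw [show 2 * Real.log T = Real.log (T ^ 2) by rw [Real.log_pow]; norm_num]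
        apply Real.log_le_log (by linarith)
        rw [sq]; linarith
      have b3 : 0 ≤ ν := Real.log_nonneg (by linarith)
      have b4 : ν ≤ 2 * Real.log T := by
        rw [show 2 * Real.log T = Real.log (T ^ 2) by rw [Real.log_pow]; norm_num]
        apply Real.log_le_log hNh
        rw [sq]; linarith
      have b5 : 0 ≤ L := Real.log_nonneg (by rw [le_div_iff₀ (by positivity)]; linarith)
      have b6 : L ≤ 2 * Real.log T := by
        rw [show 2 * Real.log T = Real.log (T ^ 2) by rw [Real.log_pow]; norm_num]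
        apply Real.log_le_log (by positivity)
        rw [div_le_iff₀ (by positivity), sq]
        have h0 : T * T * 1 ≤ T * T * (2 * Real.pi) :=
          mul_le_mul_of_nonneg_left (by linarith) (by positivity)
        linarith
      rw [abs_mul, abs_of_pos k1]
      have b7 : |ν - (L - Real.log n)| ≤ 4 * Real.log T := by
        rw [abs_le]; constructor <;> linarith
      calc |ν - (L - Real.log n)| * h ≤ 4 * Real.log T * h :=
            mul_le_mul_of_nonneg_right b7 k1.le
        _ = 2 := by rw [hh]; unfold hT; field_simp; ring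
        _ ≤ Real.pi := by linarith
  have hB : ‖zz t - UU h R ν K zz t‖ ≤ ‖AA ⌊y⌋₊ t‖ + C₁ * (C₂ * 6 + 16) + 500 +
      8 * R / T * ∑ k ∈ S, ‖zz (t + h * ((k : ℝ) - 1 / 2))‖ := by
    have e1 : zz t - UU h R ν K zz t = (G t - UU h R ν K G t) + (zz t - G t) -
        UU h R ν K (fun s => zz s - G s) t := by
      rw [UU_sub]; ring
    rw [e1]
    have c1 : ‖zz t - G t‖ ≤ 25 / p := by
      have := hzG t (by rw [sub_self, abs_zero]; positivity)
      rw [sub_self, abs_zero] at this
      simpa using this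
    have c2 : ‖UU h R ν K (fun s => zz s - G s) t‖ ≤ 450 +
        8 * R / T * ∑ k ∈ S, ‖zz (t + h * ((k : ℝ) - 1 / 2))‖ := by
      refine UU_pt.trans ?_
      have c3 : ∀ k ∈ S, ‖zz (t + h * ((k : ℝ) - 1 / 2)) - G (t + h * ((k : ℝ) - 1 / 2))‖ /
          ‖((k : ℂ) - 1 / 2)‖ ≤ 8 * R / T * ‖zz (t + h * ((k : ℝ) - 1 / 2))‖ +
            25 / p / ‖((k : ℂ) - 1 / 2)‖ := by
        intro k hk
        set Z := ‖zz (t + h * ((k : ℝ) - 1 / 2))‖ with hZ
        have hZ0 : 0 ≤ Z := norm_nonneg _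
        have hk0 : 0 < ‖((k : ℂ) - 1 / 2)‖ := by linarith [half_norm k]
        have d1 := hzG (t + h * ((k : ℝ) - 1 / 2)) (by
          rw [add_sub_cancel_left]; exact (hwin k hk).1)
        rw [add_sub_cancel_left] at d1
        have d2 := (hwin k hk).2
        have d3 : |h * ((k : ℝ) - 1 / 2)| = h * ‖((k : ℂ) - 1 / 2)‖ := by
          rw [abs_mul, abs_of_pos k1, half_norm']
        rw [div_le_iff₀ hk0, add_mul, div_mul_cancel₀ _ hk0.ne']
        refine d1.trans (add_le_add ?_ le_rfl)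
        have d4 : (28 + 2 * |h * ((k : ℝ) - 1 / 2)|) ≤ 12 * R * Real.log T := by linarith
        have d5 : h * Real.log T = 1 / 2 := by rw [hh]; unfold hT; field_simp
        calc |h * ((k : ℝ) - 1 / 2)| * (28 + 2 * |h * ((k : ℝ) - 1 / 2)|) / t * Z
            ≤ |h * ((k : ℝ) - 1 / 2)| * (12 * R * Real.log T) / (3 * T / 4) * Z := by
              gcongr
          _ = (h * Real.log T) * (16 * R / T * ‖((k : ℂ) - 1 / 2)‖ * Z) := by
              rw [d3]; field_simp; ring
          _ = 8 * R / T * Z * ‖((k : ℂ) - 1 / 2)‖ := by rw [d5]; ring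
      calc ‖zz t - G t‖ + ∑ k ∈ S, ‖zz (t + h * ((k : ℝ) - 1 / 2)) -
            G (t + h * ((k : ℝ) - 1 / 2))‖ / ‖((k : ℂ) - 1 / 2)‖
          ≤ 25 / p + ∑ k ∈ S, (8 * R / T * ‖zz (t + h * ((k : ℝ) - 1 / 2))‖ +
            25 / p / ‖((k : ℂ) - 1 / 2)‖) := add_le_add c1 (Finset.sum_le_sum c3)
        _ ≤ 25 / p + (8 * R / T * ∑ k ∈ S, ‖zz (t + h * ((k : ℝ) - 1 / 2))‖ +
            25 / p * (4 * K)) := by
            rw [Finset.sum_add_distrib, ← Finset.mul_sum]
            gcongr
        _ = 25 / p * (1 + 4 * K) + 8 * R / T * ∑ k ∈ S, ‖zz (t + h * ((k : ℝ) - 1 / 2))‖ := by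
            ring
        _ ≤ _ := by linarith
    have c4 : 25 / p ≤ 50 := by
      rw [div_le_iff₀ hp0]; linarith
    calc ‖(G t - UU h R ν K G t) + (zz t - G t) - UU h R ν K (fun s => zz s - G s) t‖
        ≤ ‖(G t - UU h R ν K G t)‖ + ‖zz t - G t‖ + ‖UU h R ν K (fun s => zz s - G s) t‖ :=
          (norm_sub_le _ _).trans (add_le_add (norm_add_le _ _) le_rfl)
      _ ≤ _ := by linarith
  calc ‖zz t‖ = ‖(UU h R ν K zz t - AA N t) + AA N t + (zz t - UU h R ν K zz t)‖ := by
        congr 1; ring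
    _ ≤ ‖UU h R ν K zz t - AA N t‖ + ‖AA N t‖ + ‖zz t - UU h R ν K zz t‖ :=
        (norm_add_le _ _).trans (add_le_add (norm_add_le _ _) le_rfl)
    _ ≤ _ := by linarith

end Pool.Agent.H470
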