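import Pool.Agent.H470.Fo

set_option autoImplicit false

/-! Bump functions. -/

namespace Pool.Agent.H470

open MeasureTheory Filter Topology Real

/-- a bump -/
noncomputable def g0 (u : ℝ) : ℝ := Real.smoothTransition (2 + 2 * u) * Real.smoothTransition (2 - 2 * u)

/-- the bump near one -/
noncomputable def be (η x : ℝ) : ℝ := g0 ((x - 1) / η)

/-- the plateau -/
noncomputable def fi (η x : ℝ) : ℝ := Real.smoothTransition (1 + x) * (1 - Real.smoothTransition (2 + 2 * ((x - 1) / η)))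

lemma g0_zero {u : ℝ} (h : u ≤ -1 ∨ 1 ≤ u) : g0 u = 0 := by
  unfold g0
  rcases h with h | h
  · rw [Real.smoothTransition.zero_of_nonpos (by linarith), zero_mul]
  · rw [Real.smoothTransition.zero_of_nonpos (x := 2 - 2 * u) (by linarith), mul_zero]

lemma g0_nonneg (u : ℝ) : 0 ≤ g0 u := mul_nonneg (Real.smoothTransition.nonneg _) (Real.smoothTransition.nonneg _)

lemma g0_le (u : ℝ) : g0 u ≤ 1 := mul_le_one₀ (Real.smoothTransition.le_one _) (Real.smoothTransition.nonneg _) (Real.smoothTransition.le_one _)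

lemma Sm.of_zero {φ : ℝ → ℝ} (h : ContDiff ℝ (⊤ : ℕ∞) φ) {B : ℝ} (hB : ∀ x, B < |x| → φ x = 0) : Sm φ := by
  refine ⟨h, HasCompactSupport.intro (isCompact_Icc (a := -B) (b := B)) fun x hx => hB x ?_⟩
  by_contra hcon
  exact hx (abs_le.mp (not_lt.mp hcon))

lemma g0_smooth : ContDiff ℝ (⊤ : ℕ∞) g0 := by
  unfold g0
  refine ContDiff.mul ?_ ?_
  · exact Real.smoothTransition.contDiff.comp (by fun_prop)
  · exact Real.smoothTransition.contDiff.comp (by fun_prop)

lemma g0_Sm : Sm g0 := Sm.of_zero g0_smooth (B := 1) fun x hx => g0_zero (by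
  rcases lt_abs.mp hx with h | h
  · right; exact h.le
  · left; linarith)

lemma be_Sm {η : ℝ} (hη : 0 < η) : Sm (be η) := by
  refine Sm.of_zero (B := 1 + η) ?_ fun x hx => ?_
  · unfold be
    exact g0_smooth.comp (by fun_prop)
  · unfold be
    refine g0_zero ?_
    rcases lt_abs.mp hx with h | h
    · right
      rw [le_div_iff₀ hη]
      linarith
    · left
      rw [div_le_iff₀ hη]
      linarith

lemma be_zero {η x : ℝ} (hη : 0 < η) (h : 1 + η ≤ x) : be η x = 0 := by
  unfold be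
  refine g0_zero (Or.inr ?_)
  rw [le_div_iff₀ hη]
  linarith

lemma fi_zero {η x : ℝ} (hη : 0 < η) (h : 1 - η / 2 ≤ x) : fi η x = 0 := by
  unfold fi
  have h1 : 1 ≤ 2 + 2 * ((x - 1) / η) := by
    have : -1 / 2 ≤ (x - 1) / η := by
      rw [le_div_iff₀ hη]
      linarith
    linarith
  rw [Real.smoothTransition.one_of_one_le h1, sub_self, mul_zero]

lemma fi_Sm {η : ℝ} (hη : 0 < η) : Sm (fi η) := by
  refine Sm.of_zero (B := 1) ?_ fun x hx => ?_
  · unfold fi
    refine ContDiff.mul ?_ (ContDiff.sub contDiff_const ?_)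
    · exact Real.smoothTransition.contDiff.comp (by fun_prop)
    · exact Real.smoothTransition.contDiff.comp (by fun_prop)
  · rcases lt_abs.mp hx with h | h
    · exact fi_zero hη (by linarith)
    · unfold fi
      rw [Real.smoothTransition.zero_of_nonpos (by linarith), zero_mul]

lemma fi_nonneg (η x : ℝ) : 0 ≤ fi η x :=
  mul_nonneg (Real.smoothTransition.nonneg _) (sub_nonneg.mpr (Real.smoothTransition.le_one _))

lemma fi_one {η x : ℝ} (hη : 0 < η) (h0 : 0 ≤ x) (h1 : x ≤ 1 - η) : fi η x = 1 := by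
  unfold fi
  have h2 : 2 + 2 * ((x - 1) / η) ≤ 0 := by
    have : (x - 1) / η ≤ -1 := by
      rw [div_le_iff₀ hη]
      linarith
    linarith
  rw [Real.smoothTransition.one_of_one_le (by linarith), Real.smoothTransition.zero_of_nonpos h2]
  ring

lemma fi_add_be {η x : ℝ} (hη : 0 < η) (h0 : 0 ≤ x) (h1 : x ≤ 1) : fi η x + be η x = 1 := by
  unfold fi be g0
  have h2 : 1 ≤ 2 - 2 * ((x - 1) / η) := by
    have : (x - 1) / η ≤ 0 := div_nonpos_of_nonpos_of_nonneg (by linarith) hη.le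
    linarith
  rw [Real.smoothTransition.one_of_one_le (x := 1 + x) (by linarith), Real.smoothTransition.one_of_one_le h2]
  ring

/-- scaling of the weighted mass -/
lemma sc_mass {f : ℝ → ℝ} (hf : Continuous f) (hf0 : ∀ u, 1 < |u| → f u = 0) {η : ℝ} (hη : 0 < η) (hη1 : η ≤ 1) :
    ∫ x, |f ((x - 1) / η)| * Real.exp x ≤ Real.exp 2 * (η * ∫ u, |f u|) := by
  have hcs : HasCompactSupport f := HasCompactSupport.intro (isCompact_Icc (a := -1) (b := 1)) fun x hx => hf0 x (by
    by_contra hcon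
    exact hx (abs_le.mp (not_lt.mp hcon)))
  have hi : Integrable (fun u => |f u|) := Continuous.integrable_of_hasCompactSupport (by fun_prop) hcs.abs
  have h1 : Integrable (fun x : ℝ => |f ((x - 1) / η)|) := by
    have h2 := hi.comp_div hη.ne'
    exact h2.comp_sub_right 1
  have h3 : ∫ x : ℝ, |f ((x - 1) / η)| = η * ∫ u, |f u| := by
    have h4 := integral_sub_right_eq_self (μ := volume) (fun x : ℝ => |f (x / η)|) (1:ℝ)
    rw [h4, Measure.integral_comp_div (fun u => |f u|) η, smul_eq_mul, abs_of_pos hη]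
  rw [← h3, ← integral_const_mul]
  refine integral_mono_of_nonneg (Eventually.of_forall fun x => by positivity) (h1.const_mul _) (Eventually.of_forall fun x => ?_)
  show |f ((x - 1) / η)| * Real.exp x ≤ Real.exp 2 * |f ((x - 1) / η)|
  rcases le_or_gt |(x - 1) / η| 1 with h | h
  · rw [mul_comm]
    refine mul_le_mul_of_nonneg_right (Real.exp_le_exp.mpr ?_) (abs_nonneg _)
    have h5 := (abs_le.mp h).2
    rw [div_le_iff₀ hη] at h5
    linarith
  · rw [hf0 _ h]
    simp

lemma sc_deriv {f : ℝ → ℝ} (hf : Differentiable ℝ f) (η : ℝ) : deriv (fun x => f ((x - 1) / η)) = fun x => η⁻¹ * deriv f ((x - 1) / η) := by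
  funext x
  have h1 : HasDerivAt (fun x : ℝ => (x - 1) / η) (1 / η) x := ((hasDerivAt_id x).sub_const 1).div_const η
  have h2 := (hf ((x - 1) / η)).hasDerivAt.comp x h1
  have h3 : (f ∘ fun x : ℝ => (x - 1) / η) = fun x => f ((x - 1) / η) := rfl
  rw [h3] at h2
  rw [h2.deriv]
  ring

lemma deriv_zero_out {f : ℝ → ℝ} (hf0 : ∀ u, 1 < |u| → f u = 0) : ∀ u, 1 < |u| → deriv f u = 0 := by
  intro u hu
  have h1 : f =ᶠ[𝓝 u] fun _ => 0 := by
    filter_upwards [(isOpen_lt continuous_const continuous_abs).mem_nhds hu] with v hv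
    exact hf0 v hv
  rw [h1.deriv_eq]
  simp

/-- the transform of the bump -/
theorem be_ps : ∃ A : ℝ, 0 < A ∧ ∀ η : ℝ, 0 < η → η ≤ 1 → ∀ y : ℝ, ‖ps (be η) y‖ ≤ A * η / (1 + η ^ 2 * y ^ 2) := by
  have hg := g0_Sm
  have hg1 := hg.der
  have hg2 := hg1.der
  have z0 : ∀ u, 1 < |u| → g0 u = 0 := fun u hu => g0_zero (by
    rcases lt_abs.mp hu with h | h
    · right; exact h.le
    · left; linarith)
  have z1 := deriv_zero_out z0
  have z2 := deriv_zero_out z1
  obtain ⟨I0, hI0⟩ : ∃ I, I = ∫ u, |g0 u| := ⟨_, rfl⟩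
  obtain ⟨I2, hI2⟩ : ∃ I, I = ∫ u, |deriv (deriv g0) u| := ⟨_, rfl⟩
  have hI0' : 0 ≤ I0 := by rw [hI0]; exact integral_nonneg fun u => abs_nonneg _
  have hI2' : 0 ≤ I2 := by rw [hI2]; exact integral_nonneg fun u => abs_nonneg _
  refine ⟨Real.exp 2 * (I0 + I2) + 1, by positivity, fun η hη hη1 y => ?_⟩
  have hb := be_Sm hη
  have d1 : deriv (be η) = fun x => η⁻¹ * deriv g0 ((x - 1) / η) := sc_deriv (fun u => (hg.hasDeriv u).differentiableAt) η
  have d2 : deriv (deriv (be η)) = fun x => (η⁻¹ * η⁻¹) * deriv (deriv g0) ((x - 1) / η) := by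
    rw [d1]
    funext x
    rw [deriv_const_mul_field]
    have h1 := congrFun (sc_deriv (fun u => (hg1.hasDeriv u).differentiableAt) η) x
    rw [h1]
    ring
  have e1 := ps_deriv hb.der y
  rw [ps_deriv hb y] at e1
  have e2 : ‖ps (deriv (deriv (be η))) y‖ = (1 + y ^ 2) * ‖ps (be η) y‖ := by
    rw [e1, norm_neg, norm_mul, norm_neg, norm_mul, ← mul_assoc]
    congr 1
    rw [← sq, ← Complex.normSq_eq_norm_sq, Complex.normSq_apply]
    simp
    ring
  have b0 : ‖ps (be η) y‖ ≤ Real.exp 2 * (η * I0) := by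
    rw [hI0]
    exact (ps_bd y).trans (sc_mass hg.cont z0 hη hη1)
  have b2 : ‖ps (deriv (deriv (be η))) y‖ ≤ Real.exp 2 * I2 / η := by
    refine (ps_bd y).trans ?_
    rw [d2]
    have h1 : ∫ x, |(η⁻¹ * η⁻¹) * deriv (deriv g0) ((x - 1) / η)| * Real.exp x = (η⁻¹ * η⁻¹) * ∫ x, |deriv (deriv g0) ((x - 1) / η)| * Real.exp x := by
      rw [← integral_const_mul]
      refine integral_congr_ae (Eventually.of_forall fun x => ?_)
      show |(η⁻¹ * η⁻¹) * deriv (deriv g0) ((x - 1) / η)| * Real.exp x = (η⁻¹ * η⁻¹) * (|deriv (deriv g0) ((x - 1) / η)| * Real.exp x)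
      rw [abs_mul, abs_of_pos (by positivity)]
      ring
    rw [h1]
    have h2 := sc_mass hg2.cont z2 hη hη1
    rw [← hI2] at h2
    have h3 := mul_le_mul_of_nonneg_left h2 (show 0 ≤ η⁻¹ * η⁻¹ by positivity)
    refine h3.trans (le_of_eq ?_)
    field_simp
  rw [e2] at b2
  rw [le_div_iff₀ (by positivity)]
  have b3 : y ^ 2 * ‖ps (be η) y‖ ≤ Real.exp 2 * I2 / η := le_trans (by nlinarith [norm_nonneg (ps (be η) y)]) b2
  have b4 : η ^ 2 * (y ^ 2 * ‖ps (be η) y‖) ≤ Real.exp 2 * I2 * η := by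
    have h1 := mul_le_mul_of_nonneg_left b3 (sq_nonneg η)
    refine h1.trans (le_of_eq ?_)
    field_simp
  nlinarith

end Pool.Agent.H470
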