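import Pool.Agent.H470.Op

set_option autoImplicit false

/-!
# The local frequency projection on Dirichlet polynomials
-/

open Complex MeasureTheory Set Filter Topology

namespace Pool.Agent.H470

/-- partial sums of zeta on the critical line -/
noncomputable def AA (N : ℕ) (t : ℝ) : ℂ := ∑ n ∈ Finset.Icc 1 N, (n : ℂ) ^ (-(1 / 2 + I * (t : ℂ)))

theorem term_eq {n : ℕ} (hn : 1 ≤ n) (t : ℝ) : (n : ℂ) ^ (-(1 / 2 + I * (t : ℂ))) =
    ((1 / Real.sqrt n : ℝ) : ℂ) * cexp (((-(Real.log n * t) : ℝ) : ℂ) * I) := by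
  have hn0 : (0 : ℝ) < n := by exact_mod_cast hn
  have hnc : (n : ℂ) ≠ 0 := by exact_mod_cast hn0.ne'
  rw [neg_add, Complex.cpow_add _ _ hnc]
  congr 1
  · rw [Complex.cpow_neg]
    have : (n : ℂ) ^ (1 / 2 : ℂ) = ((Real.sqrt n : ℝ) : ℂ) := by
      rw [Real.sqrt_eq_rpow, Complex.ofReal_cpow hn0.le]
      push_cast; rfl
    rw [this]
    push_cast
    rw [one_div]
  · rw [Complex.cpow_def_of_ne_zero hnc, ← Complex.natCast_log]
    congr 1
    push_cast
    ring

theorem AA_eq (N : ℕ) (t : ℝ) : AA N t = ∑ n ∈ Finset.Icc 1 N,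
    ((1 / Real.sqrt n : ℝ) : ℂ) * cexp (((-(Real.log n * t) : ℝ) : ℂ) * I) := by
  unfold AA
  exact Finset.sum_congr rfl fun n hn => term_eq (Finset.mem_Icc.1 hn).1 t

theorem AA_cont (N : ℕ) : Continuous (AA N) := by
  have : AA N = fun t => ∑ n ∈ Finset.Icc 1 N,
    ((1 / Real.sqrt n : ℝ) : ℂ) * cexp (((-(Real.log n * t) : ℝ) : ℂ) * I) := funext (AA_eq N)
  rw [this]
  fun_prop

theorem UU_exp (h R ν lam : ℝ) (K : ℕ) (c : ℂ) (t : ℝ) :
    UU h R ν K (fun t => c * cexp (((-(lam * t) : ℝ) : ℂ) * I)) t =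
      c * cexp (((-(lam * t) : ℝ) : ℂ) * I) *
        (1 / 2 - I / (2 * Real.pi) * ts (h / R) ((ν - lam) * h) K) := by
  unfold UU HH ts
  have h1 : ∀ k ∈ Finset.Icc (1 - (K : ℤ)) K,
      c * cexp (((-(lam * (t + h * ((k : ℝ) - 1 / 2))) : ℝ) : ℂ) * I) *
        (gs (h / R) (ν * h) k / ((k : ℂ) - 1 / 2)) =
      c * cexp (((-(lam * t) : ℝ) : ℂ) * I) *
        (gs (h / R) ((ν - lam) * h) k / ((k : ℂ) - 1 / 2)) := by
    intro k _
    unfold gs
    have : cexp (((-(lam * (t + h * ((k : ℝ) - 1 / 2))) : ℝ) : ℂ) * I) *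
        cexp (((ν * h * ((k : ℝ) - 1 / 2) : ℝ) : ℂ) * I) =
        cexp (((-(lam * t) : ℝ) : ℂ) * I) *
          cexp ((((ν - lam) * h * ((k : ℝ) - 1 / 2) : ℝ) : ℂ) * I) := by
      rw [← Complex.exp_add, ← Complex.exp_add]
      congr 1
      push_cast
      ring
    linear_combination (c * (Real.exp (-(h / R * ((k : ℝ) - 1 / 2)) ^ 2) : ℂ) /
      ((k : ℂ) - 1 / 2)) * this
  rw [Finset.sum_congr rfl h1, ← Finset.mul_sum]
  ring

theorem UU_sum {ι : Type*} (S : Finset ι) (F : ι → ℝ → ℂ) (h R ν : ℝ) (K : ℕ) (t : ℝ) :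
    UU h R ν K (fun t => ∑ i ∈ S, F i t) t = ∑ i ∈ S, UU h R ν K (F i) t := by
  unfold UU HH
  rw [Finset.sum_sub_distrib, ← Finset.sum_div, ← Finset.mul_sum, Finset.sum_comm]
  congr 2
  exact Finset.sum_congr rfl fun k _ => Finset.sum_mul _ _ _

/-- action of the projection on an exponential polynomial -/
theorem UU_poly : ∃ C : ℝ, 0 < C ∧ ∀ (ι : Type) (S : Finset ι) (c : ι → ℂ) (lam : ι → ℝ)
    (h R ν : ℝ) (K : ℕ) (t : ℝ), 0 < h → h ≤ R → (∀ i ∈ S, |(ν - lam i) * h| ≤ Real.pi) →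
    ‖UU h R ν K (fun t => ∑ i ∈ S, c i * cexp (((-(lam i * t) : ℝ) : ℂ) * I)) t -
      ∑ i ∈ S, (if lam i < ν then c i * cexp (((-(lam i * t) : ℝ) : ℂ) * I) else 0)‖ ≤
    C * ∑ i ∈ S, ‖c i‖ * (Real.exp (-(R * (ν - lam i)) ^ 2 / 8) +
      Real.exp (-(h / R * K) ^ 2 / 2) / (h / R)) := by
  obtain ⟨C, hC, hs⟩ := symb
  refine ⟨C, hC, fun ι S c lam h R ν K t hh hhR hS => ?_⟩
  have hR : 0 < R := hh.trans_le hhR
  rw [UU_sum S (fun i t => c i * cexp (((-(lam i * t) : ℝ) : ℂ) * I)), ← Finset.sum_sub_distrib,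
    Finset.mul_sum]
  refine (norm_sum_le _ _).trans (Finset.sum_le_sum fun i hi => ?_)
  rw [UU_exp]
  have h1 : c i * cexp (((-(lam i * t) : ℝ) : ℂ) * I) *
        (1 / 2 - I / (2 * Real.pi) * ts (h / R) ((ν - lam i) * h) K) -
      (if lam i < ν then c i * cexp (((-(lam i * t) : ℝ) : ℂ) * I) else 0) =
      c i * cexp (((-(lam i * t) : ℝ) : ℂ) * I) *
        (1 / 2 - I / (2 * Real.pi) * ts (h / R) ((ν - lam i) * h) K -
          (if 0 < (ν - lam i) * h then 1 else 0)) := by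
    have : (0 < (ν - lam i) * h) ↔ lam i < ν := by
      rw [mul_pos_iff_of_pos_right hh, sub_pos]
    simp only [this]
    split_ifs <;> ring
  rw [h1, norm_mul, norm_mul, Complex.norm_exp_ofReal_mul_I, mul_one]
  have h2 := hs (h / R) ((ν - lam i) * h) K (by positivity) ((div_le_one hR).2 hhR) (hS i hi)
  have h3 : -((ν - lam i) * h) ^ 2 / (8 * (h / R) ^ 2) = -(R * (ν - lam i)) ^ 2 / 8 := by
    field_simp
  rw [h3] at h2
  calc ‖c i‖ * _ ≤ ‖c i‖ * (C * (Real.exp (-(R * (ν - lam i)) ^ 2 / 8) +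
      Real.exp (-(h / R * K) ^ 2 / 2) / (h / R))) := mul_le_mul_of_nonneg_left h2 (norm_nonneg _)
    _ = _ := by ring

theorem sum_inv_sqrt (X : ℕ) : ∑ n ∈ Finset.Icc 1 X, 1 / Real.sqrt n ≤ 2 * Real.sqrt X := by
  induction X with
  | zero => simp
  | succ X ih =>
    rw [Finset.sum_Icc_succ_top (by omega)]
    have h0 : 0 < Real.sqrt ((X + 1 : ℕ) : ℝ) := Real.sqrt_pos.2 (by positivity)
    have h1 : Real.sqrt ((X + 1 : ℕ) : ℝ) ^ 2 = X + 1 := by
      rw [Real.sq_sqrt (by positivity)]; push_cast; ring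
    have h2 : Real.sqrt (X : ℝ) ^ 2 = X := Real.sq_sqrt (by positivity)
    have h3 : 1 / Real.sqrt ((X + 1 : ℕ) : ℝ) ≤
        2 * Real.sqrt ((X + 1 : ℕ) : ℝ) - 2 * Real.sqrt (X : ℝ) := by
      rw [div_le_iff₀ h0]
      nlinarith [sq_nonneg (Real.sqrt ((X + 1 : ℕ) : ℝ) - Real.sqrt (X : ℝ))]
    linarith

theorem shift_mass : ∃ C : ℝ, 0 < C ∧ ∀ (r y : ℝ) (X : ℕ), 0 < r → r ≤ 1 →
    ∑ n ∈ Finset.Icc 1 X, Real.exp (-(r * ((n : ℝ) - y)) ^ 2) ≤ C / r := by
  obtain ⟨M, hM, hm⟩ := gs_mass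
  refine ⟨4 * M, by positivity, fun r y X hr hr1 => ?_⟩
  have hr2 : 0 < r / 2 := by positivity
  set g : ℤ → ℝ := fun k => Real.exp (-(r / 2 * ((k : ℝ) - 1 / 2)) ^ 2) with hg
  have hgs : Summable g := (gs_summable (r / 2) 0 hr2).norm.congr fun k => gs_norm _ _ _
  have h1 : ∀ n : ℕ, Real.exp (-(r * ((n : ℝ) - y)) ^ 2) ≤ 2 * g ((n : ℤ) - ⌊y⌋) := by
    intro n
    simp only [hg]
    have h2 : 2 * Real.exp (-(r / 2 * (((n : ℤ) - ⌊y⌋ : ℤ) - 1 / 2 : ℝ)) ^ 2) =
        Real.exp (Real.log 2 + -(r / 2 * (((n : ℤ) - ⌊y⌋ : ℤ) - 1 / 2 : ℝ)) ^ 2) := by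
      rw [Real.exp_add, Real.exp_log (by norm_num)]
    rw [h2]
    apply Real.exp_le_exp.2
    have hl2 : 0.6931471803 < Real.log 2 := Real.log_two_gt_d9
    have h3 := Int.floor_le y
    have h4 := Int.lt_floor_add_one y
    push_cast
    set b := 1 / 2 - (y - ⌊y⌋) with hb
    set a := (n : ℝ) - ⌊y⌋ - 1 / 2 with ha
    have e1 : (n : ℝ) - y = a + b := by rw [ha, hb]; ring
    rw [e1]
    have hb2 : b ^ 2 ≤ 1 / 4 := by
      rw [hb]; nlinarith
    have hr3 : r ^ 2 ≤ 1 := by nlinarith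
    have hrb : r ^ 2 * b ^ 2 ≤ 1 / 4 := by nlinarith [sq_nonneg b, sq_nonneg r]
    have hab : r ^ 2 * (a ^ 2 / 2 - b ^ 2) ≤ r ^ 2 * (a + b) ^ 2 := by
      apply mul_le_mul_of_nonneg_left _ (sq_nonneg r)
      nlinarith [sq_nonneg (a + 2 * b)]
    nlinarith [sq_nonneg a, sq_nonneg r, mul_nonneg (sq_nonneg r) (sq_nonneg a)]
  calc ∑ n ∈ Finset.Icc 1 X, Real.exp (-(r * ((n : ℝ) - y)) ^ 2)
      ≤ ∑ n ∈ Finset.Icc 1 X, 2 * g ((n : ℤ) - ⌊y⌋) := Finset.sum_le_sum fun n _ => h1 n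
    _ = 2 * ∑ n ∈ (Finset.Icc 1 X).map Nat.castEmbedding, g (n - ⌊y⌋) := by
        rw [← Finset.mul_sum, Finset.sum_map]; rfl
    _ ≤ 2 * (M / (r / 2)) := by
        apply mul_le_mul_of_nonneg_left _ (by norm_num)
        exact (mass_r hgs (fun k => (Real.exp_pos _).le) _ _).trans (hm _ hr2 (by linarith))
    _ = 4 * M / r := by field_simp; ring

theorem near_sum : ∃ C : ℝ, 0 < C ∧ ∀ (y R : ℝ) (X : ℕ), 0 < y → 1 ≤ R →
    ∑ n ∈ Finset.Icc 1 X, 1 / Real.sqrt n * Real.exp (-(R * (Real.log y - Real.log n)) ^ 2 / 8) ≤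
      C * (1 / Real.sqrt y * (1 + y / R) + Real.sqrt X / R ^ 2) := by
  obtain ⟨M, hM, hm⟩ := shift_mass
  refine ⟨40 + 12 * M, by positivity, fun y R X hy hR => ?_⟩
  have hR0 : 0 < R := by linarith
  set r : ℝ := min 1 (R / (6 * y)) with hr
  have hr0 : 0 < r := lt_min one_pos (by positivity)
  have hr1 : r ≤ 1 := min_le_left _ _
  have hr2 : r ≤ R / (6 * y) := min_le_right _ _
  have hsy : 0 < Real.sqrt y := Real.sqrt_pos.2 hy
  have hl2 : 0.6931471803 < Real.log 2 := Real.log_two_gt_d9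
  have hpt : ∀ n ∈ Finset.Icc 1 X, 1 / Real.sqrt n *
      Real.exp (-(R * (Real.log y - Real.log n)) ^ 2 / 8) ≤
      20 / R ^ 2 * (1 / Real.sqrt n) + 2 / Real.sqrt y * Real.exp (-(r * ((n : ℝ) - y)) ^ 2) := by
    intro n hn
    have hn1 : 1 ≤ n := (Finset.mem_Icc.1 hn).1
    have hn0 : (0 : ℝ) < n := by exact_mod_cast hn1
    have hsn : 0 < Real.sqrt n := Real.sqrt_pos.2 hn0
    by_cases hfar : Real.log 2 ≤ |Real.log y - Real.log n|
    · have h1 : Real.exp (-(R * (Real.log y - Real.log n)) ^ 2 / 8) ≤ 20 / R ^ 2 := by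
        have h2 : R ^ 2 / 20 ≤ (R * (Real.log y - Real.log n)) ^ 2 / 8 := by
          rw [mul_pow, ← sq_abs (Real.log y - Real.log n)]
          have h3 : 0.48 ≤ |Real.log y - Real.log n| ^ 2 := by nlinarith
          nlinarith [sq_nonneg R, mul_le_mul_of_nonneg_left h3 (sq_nonneg R)]
        have h4 : Real.exp (-(R ^ 2 / 20)) ≤ 20 / R ^ 2 := by
          rw [Real.exp_neg, inv_eq_one_div, ← one_div_div (R ^ 2) 20]
          apply one_div_le_one_div_of_le (by positivity)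
          linarith [Real.add_one_le_exp (R ^ 2 / 20)]
        refine le_trans (Real.exp_le_exp.2 ?_) h4
        rw [neg_div]
        linarith
      have h5 : 0 ≤ 2 / Real.sqrt y * Real.exp (-(r * ((n : ℝ) - y)) ^ 2) := by positivity
      calc 1 / Real.sqrt n * Real.exp (-(R * (Real.log y - Real.log n)) ^ 2 / 8)
          ≤ 1 / Real.sqrt n * (20 / R ^ 2) := mul_le_mul_of_nonneg_left h1 (by positivity)
        _ ≤ _ := by rw [mul_comm]; linarith
    · push Not at hfar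
      have hlog2 : Real.log (2 * y) = Real.log 2 + Real.log y :=
        Real.log_mul (by norm_num) hy.ne'
      have hlog3 : Real.log (2 * n) = Real.log 2 + Real.log n :=
        Real.log_mul (by norm_num) hn0.ne'
      rw [abs_lt] at hfar
      have hy2 : y < 2 * n := by
        rw [← Real.log_lt_log_iff hy (by positivity), hlog3]; linarith
      have hn2 : (n : ℝ) < 2 * y := by
        rw [← Real.log_lt_log_iff hn0 (by positivity), hlog2]; linarith
      have h1 : 1 / Real.sqrt n ≤ 2 / Real.sqrt y := by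
        rw [div_le_div_iff₀ hsn hsy]
        have : Real.sqrt y ≤ Real.sqrt (4 * n) := Real.sqrt_le_sqrt (by linarith)
        rw [Real.sqrt_mul (by norm_num), show (4 : ℝ) = 2 ^ 2 by norm_num,
          Real.sqrt_sq (by norm_num)] at this
        linarith
      have h2 : ((n : ℝ) - y) ^ 2 / (4 * y ^ 2) ≤ (Real.log y - Real.log n) ^ 2 := by
        have h3 : |(n : ℝ) - y| / (2 * y) ≤ |Real.log y - Real.log n| := by
          rcases le_total y n with h | h
          · have h4 := Real.one_sub_inv_le_log_of_pos (div_pos hn0 hy)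
            rw [Real.log_div hn0.ne' hy.ne', inv_div] at h4
            have h5 : (n : ℝ) - y ≤ (n : ℝ) * (Real.log n - Real.log y) := by
              have h6 : (n : ℝ) * (1 - y / n) = n - y := by field_simp
              rw [← h6]
              exact mul_le_mul_of_nonneg_left h4 hn0.le
            have h7 : 0 ≤ Real.log n - Real.log y := sub_nonneg.2 (Real.log_le_log hy h)
            rw [abs_of_nonneg (sub_nonneg.2 h), abs_sub_comm, abs_of_nonneg h7,
              div_le_iff₀ (by positivity)]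
            nlinarith
          · have h4 := Real.one_sub_inv_le_log_of_pos (div_pos hy hn0)
            rw [Real.log_div hy.ne' hn0.ne', inv_div] at h4
            have h5 : y - n ≤ y * (Real.log y - Real.log n) := by
              have h6 : y * (1 - n / y) = y - n := by field_simp
              rw [← h6]
              exact mul_le_mul_of_nonneg_left h4 hy.le
            have h7 : 0 ≤ Real.log y - Real.log n := sub_nonneg.2 (Real.log_le_log hn0 h)
            rw [abs_sub_comm, abs_of_nonneg (sub_nonneg.2 h), abs_of_nonneg h7,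
              div_le_iff₀ (by positivity)]
            nlinarith
        have h8 := pow_le_pow_left₀ (by positivity) h3 2
        rw [div_pow, sq_abs, sq_abs] at h8
        calc _ = ((n : ℝ) - y) ^ 2 / (2 * y) ^ 2 := by ring
          _ ≤ _ := h8
      have h9 : Real.exp (-(R * (Real.log y - Real.log n)) ^ 2 / 8) ≤
          Real.exp (-(r * ((n : ℝ) - y)) ^ 2) := by
        apply Real.exp_le_exp.2
        rw [neg_div, neg_le_neg_iff, mul_pow, mul_pow]
        have h10 : r ^ 2 ≤ (R / (6 * y)) ^ 2 := pow_le_pow_left₀ hr0.le hr2 2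
        calc r ^ 2 * ((n : ℝ) - y) ^ 2 ≤ (R / (6 * y)) ^ 2 * ((n : ℝ) - y) ^ 2 := by gcongr
          _ = R ^ 2 / 9 * (((n : ℝ) - y) ^ 2 / (4 * y ^ 2)) := by field_simp; ring
          _ ≤ R ^ 2 / 8 * (((n : ℝ) - y) ^ 2 / (4 * y ^ 2)) := by gcongr; norm_num
          _ ≤ R ^ 2 / 8 * (Real.log y - Real.log n) ^ 2 := by gcongr
          _ = _ := by ring
      have h11 : 0 ≤ 20 / R ^ 2 * (1 / Real.sqrt n) := by positivity
      calc 1 / Real.sqrt n * Real.exp (-(R * (Real.log y - Real.log n)) ^ 2 / 8)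
          ≤ 2 / Real.sqrt y * Real.exp (-(r * ((n : ℝ) - y)) ^ 2) := by gcongr
        _ ≤ _ := by linarith
  calc ∑ n ∈ Finset.Icc 1 X, 1 / Real.sqrt n *
        Real.exp (-(R * (Real.log y - Real.log n)) ^ 2 / 8)
      ≤ ∑ n ∈ Finset.Icc 1 X, (20 / R ^ 2 * (1 / Real.sqrt n) +
          2 / Real.sqrt y * Real.exp (-(r * ((n : ℝ) - y)) ^ 2)) := Finset.sum_le_sum hpt
    _ = 20 / R ^ 2 * (∑ n ∈ Finset.Icc 1 X, 1 / Real.sqrt n) + 2 / Real.sqrt y *
          ∑ n ∈ Finset.Icc 1 X, Real.exp (-(r * ((n : ℝ) - y)) ^ 2) := by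
        rw [Finset.sum_add_distrib, ← Finset.mul_sum, ← Finset.mul_sum]
    _ ≤ 20 / R ^ 2 * (2 * Real.sqrt X) + 2 / Real.sqrt y * (M / r) := by
        gcongr
        · exact sum_inv_sqrt X
        · exact hm r y X hr0 hr1
    _ ≤ (40 + 12 * M) * (1 / Real.sqrt y * (1 + y / R) + Real.sqrt X / R ^ 2) := by
        have h1 : 1 / r ≤ 6 * (1 + y / R) := by
          rw [hr]
          rcases min_cases 1 (R / (6 * y)) with ⟨h, _⟩ | ⟨h, _⟩ <;> rw [h]
          · have : 0 ≤ y / R := by positivity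
            linarith
          · rw [one_div_div]
            have : 6 * y / R = 6 * (y / R) := by ring
            rw [this]; linarith
        have h2 : 2 / Real.sqrt y * (M / r) ≤ 12 * M * (1 / Real.sqrt y * (1 + y / R)) := by
          calc 2 / Real.sqrt y * (M / r) = 2 * M * (1 / Real.sqrt y) * (1 / r) := by ring
            _ ≤ 2 * M * (1 / Real.sqrt y) * (6 * (1 + y / R)) := by gcongr
            _ = _ := by ring
        have h3 : 20 / R ^ 2 * (2 * Real.sqrt X) = 40 * (Real.sqrt X / R ^ 2) := by ring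
        have h4 : 0 ≤ 1 / Real.sqrt y * (1 + y / R) := by positivity
        have h5 : 0 ≤ Real.sqrt X / R ^ 2 := by positivity
        nlinarith [mul_nonneg hM.le h4, mul_nonneg hM.le h5]

end Pool.Agent.H470
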