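import Pool.Agent.H470.Pr
import Pool.Graph.R_seed8.W338.QS.Line
import Pool.Graph.R_seed8.TH321.GF.AQ

set_option autoImplicit false

/-!
# The functional equation on the critical line, linearised
-/

open Complex MeasureTheory Set Filter Topology

namespace Pool.Agent.H470

open Pool.Agent.W188.QS Pool.Agent.W188.GP

/-- zeta on the critical line -/
noncomputable def zz (t : ℝ) : ℂ := riemannZeta (1 / 2 + I * (t : ℂ))

theorem cp_eq (t : ℝ) : cp t = 1 / 2 + I * (t : ℂ) := by unfold cp; ring

theorem zz_cont : Continuous zz := by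
  rw [continuous_iff_continuousAt]
  intro t
  unfold zz
  have h1 : (1 / 2 + I * (t : ℂ)) ≠ 1 := by
    intro h
    have := congrArg Complex.re h
    simp at this
  have h2 : ContinuousAt riemannZeta (1 / 2 + I * (t : ℂ)) :=
    (differentiableAt_riemannZeta h1).continuousAt
  exact ContinuousAt.comp (f := fun t : ℝ => (1 / 2 + I * (t : ℂ))) h2 (by fun_prop)

/-- the unimodular factor of the functional equation on the critical line -/
noncomputable def chi (t : ℝ) : ℂ := (starRingEnd ℂ) (XX (cp t))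

theorem chi_norm (t : ℝ) : ‖chi t‖ = 1 := by
  unfold chi
  rw [RCLike.norm_conj]
  exact Pool.Agent.W338.QS.qs_line.2.1 t

theorem fe {t : ℝ} (ht : 1 ≤ t) : zz t = chi t * (starRingEnd ℂ) (zz t) := by
  have h := Pool.Agent.W338.QS.qs_line.2.2.1 t ht
  rw [cp_eq] at h
  unfold zz chi
  rw [cp_eq, ← map_mul, ← h]
  simp

theorem chi_lin {t u : ℝ} (ht : 200 ≤ t) (hu : |u| ≤ t / 2) :
    ‖chi (t + u) - chi t * cexp (((-(u * Real.log (t / (2 * Real.pi))) : ℝ) : ℂ) * I)‖ ≤
      |u| * (28 + 2 * |u|) / t := by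
  obtain ⟨-, -, -, -, hder, -, -, -, -, -, hX, hl, -⟩ := a_tau
  have hlam := Pool.Agent.W338.QS.qs_line.1
  have hpi := Real.pi_pos
  set L := Real.log (t / (2 * Real.pi)) with hL
  set φ : ℝ → ℝ := fun s => 2 * Real.pi * vv s - s * L with hφ
  have hu' := abs_le.1 hu
  have hφd : ∀ s ∈ uIcc t (t + u), HasDerivWithinAt φ (lamE s - L) (uIcc t (t + u)) s := by
    intro s _
    have h1 := ((hder s).const_mul (2 * Real.pi)).sub ((hasDerivAt_id s).mul_const L)
    have h2 : 2 * Real.pi * (lamE s / (2 * Real.pi)) - 1 * L = lamE s - L := by field_simp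
    rw [h2] at h1
    exact h1.hasDerivWithinAt
  have hb : ∀ s ∈ uIcc t (t + u), ‖lamE s - L‖ ≤ (28 + 2 * |u|) / t := by
    intro s hs
    have hs1 : |s - t| ≤ |u| := by
      have := abs_sub_left_of_mem_uIcc hs
      simpa using this
    have hs2 : t / 2 ≤ s := by
      have := abs_le.1 hs1
      linarith
    have hs100 : 100 ≤ s := by linarith
    have hs0 : 0 < s := by linarith
    have ht0 : 0 < t := by linarith
    have h1 := (hlam s (by linarith)).2.1
    rw [(hl s hs100).1, Real.norm_eq_abs]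
    have h2 : |Real.log (s / (2 * Real.pi)) - L| ≤ 2 * |u| / t := by
      rw [hL, Real.log_div hs0.ne' (by positivity), Real.log_div ht0.ne' (by positivity),
        sub_sub_sub_cancel_right]
      have h3 := Real.log_le_sub_one_of_pos (div_pos hs0 ht0)
      have h4 := Real.log_le_sub_one_of_pos (div_pos ht0 hs0)
      rw [Real.log_div hs0.ne' ht0.ne'] at h3
      rw [Real.log_div ht0.ne' hs0.ne'] at h4
      have e3 : s / t - 1 = (s - t) / t := by field_simp
      have e4 : t / s - 1 = (t - s) / s := by field_simp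
      rw [e3] at h3
      rw [e4] at h4
      have hab := abs_le.1 hs1
      have h5 : (s - t) / t ≤ 2 * |u| / t := by
        apply div_le_div_of_nonneg_right _ ht0.le
        have := abs_nonneg u; linarith
      have h6 : (t - s) / s ≤ 2 * |u| / t := by
        rw [div_le_div_iff₀ hs0 ht0]
        have := abs_nonneg u
        nlinarith
      rw [abs_le]
      constructor <;> linarith
    have h7 : 14 / s ≤ 28 / t := by
      rw [div_le_div_iff₀ hs0 ht0]; linarith
    calc |lam s - L| = |(lam s - Real.log (s / (2 * Real.pi))) +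
          (Real.log (s / (2 * Real.pi)) - L)| := by congr 1; ring
      _ ≤ 14 / s + 2 * |u| / t := (abs_add_le _ _).trans (add_le_add h1 h2)
      _ ≤ (28 + 2 * |u|) / t := by rw [add_div]; linarith
  have hmv := (convex_uIcc t (t + u)).norm_image_sub_le_of_norm_hasDerivWithin_le hφd hb
    left_mem_uIcc right_mem_uIcc
  rw [Real.norm_eq_abs, Real.norm_eq_abs, add_sub_cancel_left] at hmv
  have e1 : chi (t + u) = (starRingEnd ℂ) (XX (cp 100)) *
      cexp (((-(2 * Real.pi * vv (t + u)) : ℝ) : ℂ) * I) := by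
    unfold chi
    rw [hX (t + u) (by linarith), map_mul, ← Complex.exp_conj]
    congr 2
    simp only [map_mul, Complex.conj_I, Complex.conj_ofReal, map_ofNat]
    push_cast
    ring
  have e2 : chi t = (starRingEnd ℂ) (XX (cp 100)) *
      cexp (((-(2 * Real.pi * vv t) : ℝ) : ℂ) * I) := by
    unfold chi
    rw [hX t (by linarith), map_mul, ← Complex.exp_conj]
    congr 2
    simp only [map_mul, Complex.conj_I, Complex.conj_ofReal, map_ofNat]
    push_cast
    ring
  have e3 : chi (t + u) - chi t * cexp (((-(u * L) : ℝ) : ℂ) * I) =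
      chi t * cexp (((-(u * L) : ℝ) : ℂ) * I) *
        (cexp (I * ((-(φ (t + u) - φ t) : ℝ) : ℂ)) - 1) := by
    rw [mul_sub, mul_one]
    congr 1
    rw [e1, e2, mul_assoc, mul_assoc, mul_assoc, ← Complex.exp_add, ← Complex.exp_add,]
    congr 2
    simp only [hφ]
    push_cast
    ring
  rw [e3, norm_mul, norm_mul, chi_norm, one_mul, Complex.norm_exp_ofReal_mul_I, one_mul]
  refine Real.norm_exp_I_mul_ofReal_sub_one_le.trans ?_
  rw [Real.norm_eq_abs, abs_neg]
  calc |φ (t + u) - φ t| ≤ (28 + 2 * |u|) / t * |u| := hmv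
    _ = _ := by ring

/-- zeta and long partial sums -/
theorem zA {T u : ℝ} {X : ℕ} (hT : 1 ≤ T) (hX : 8 * T ≤ X) (hX2 : (X : ℝ) ≤ 16 * T)
    (hu : T / 2 ≤ u) (hu2 : u ≤ 8 * T) : ‖zz u - AA X u‖ ≤ 25 / Real.sqrt T := by
  have hT0 : 0 < T := by linarith
  have hX1 : 1 ≤ X := by
    have : (1 : ℝ) ≤ X := by linarith
    exact_mod_cast this
  have h := Pool.Agent.TH321.GF.AQ_pw u X hX1 (by linarith) (by linarith)
  have e : Pool.Agent.TH612.GS.z u - Pool.Agent.TH612.GS.PN X u = zz u - AA X u := rfl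
  rw [e] at h
  refine h.trans ?_
  set p := Real.sqrt T with hp
  have hp0 : 0 < p := Real.sqrt_pos.2 hT0
  have hp2 : p ^ 2 = T := Real.sq_sqrt hT0.le
  have h1 : Real.sqrt X ≤ 4 * p := by
    calc Real.sqrt X ≤ Real.sqrt (16 * T) := Real.sqrt_le_sqrt hX2
      _ = 4 * p := by
        rw [Real.sqrt_mul (by norm_num), show (16 : ℝ) = 4 ^ 2 by norm_num,
          Real.sqrt_sq (by norm_num)]
  have h2 : 2 * p ≤ Real.sqrt X := by
    calc 2 * p = Real.sqrt (4 * T) := by
          rw [Real.sqrt_mul (by norm_num), show (4 : ℝ) = 2 ^ 2 by norm_num,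
            Real.sqrt_sq (by norm_num)]
      _ ≤ Real.sqrt X := Real.sqrt_le_sqrt (by linarith)
  have h3 : 3 * Real.sqrt X / (1 + u) ≤ 24 / p := by
    rw [div_le_div_iff₀ (by linarith) hp0]
    nlinarith
  have h4 : 3 / (2 * Real.sqrt X) ≤ 1 / p := by
    rw [div_le_div_iff₀ (by positivity) hp0]
    nlinarith
  have : 25 / p = 24 / p + 1 / p := by ring
  rw [this]
  linarith

end Pool.Agent.H470
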