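import Mathlib

set_option autoImplicit false

/-! The transform of smooth functions of compact support. -/

namespace Pool.Agent.H470

open MeasureTheory Filter Topology Real

/-- the transform -/
noncomputable def ps (φ : ℝ → ℝ) (y : ℝ) : ℂ := ∫ x : ℝ, (φ x : ℂ) * Complex.exp ((x:ℂ) * (1 + y * Complex.I))

/-- smooth functions of compact support -/
def Sm (φ : ℝ → ℝ) : Prop := ContDiff ℝ (⊤ : ℕ∞) φ ∧ HasCompactSupport φ

lemma Sm.cont {φ : ℝ → ℝ} (h : Sm φ) : Continuous φ := h.1.continuous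

lemma Sm.der {φ : ℝ → ℝ} (h : Sm φ) : Sm (deriv φ) := by
  refine ⟨?_, h.2.deriv⟩
  have h1 : ContDiff ℝ ((⊤ : ℕ∞) : WithTop ℕ∞) φ := h.1
  exact (contDiff_infty_iff_deriv.mp h1).2

lemma Sm.hasDeriv {φ : ℝ → ℝ} (h : Sm φ) (x : ℝ) : HasDerivAt φ (deriv φ x) x := by
  have h1 : Differentiable ℝ φ := h.1.differentiable (by simp)
  exact (h1 x).hasDerivAt

lemma ker_norm (x y : ℝ) : ‖Complex.exp ((x:ℂ) * (1 + y * Complex.I))‖ = Real.exp x := by
  rw [Complex.norm_exp]
  simp

/-- continuity and integrability of the integrand -/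
lemma ps_int {φ : ℝ → ℝ} (hc : Continuous φ) (hs : HasCompactSupport φ) (y : ℝ) :
    Integrable (fun x : ℝ => (φ x : ℂ) * Complex.exp ((x:ℂ) * (1 + y * Complex.I))) := by
  refine Continuous.integrable_of_hasCompactSupport (by fun_prop) ?_
  refine HasCompactSupport.mul_right ?_
  exact hs.comp_left (g := fun x : ℝ => (x:ℂ)) (by simp)

lemma ps_abs_int {φ : ℝ → ℝ} (hc : Continuous φ) (hs : HasCompactSupport φ) : Integrable (fun x : ℝ => |φ x| * Real.exp x) := by
  refine Continuous.integrable_of_hasCompactSupport (by fun_prop) ?_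
  refine HasCompactSupport.mul_right ?_
  exact hs.abs

lemma ps_bd {φ : ℝ → ℝ} (y : ℝ) : ‖ps φ y‖ ≤ ∫ x, |φ x| * Real.exp x := by
  unfold ps
  refine (norm_integral_le_integral_norm _).trans (le_of_eq ?_)
  refine integral_congr_ae (Eventually.of_forall fun x => ?_)
  show ‖(φ x : ℂ) * Complex.exp ((x:ℂ) * (1 + y * Complex.I))‖ = |φ x| * Real.exp x
  rw [norm_mul, ker_norm, Complex.norm_real, Real.norm_eq_abs]

lemma ps_deriv {φ : ℝ → ℝ} (h : Sm φ) (y : ℝ) : ps (deriv φ) y = -((1 + y * Complex.I) * ps φ y) := by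
  unfold ps
  have hu : ∀ x : ℝ, HasDerivAt (fun x : ℝ => Complex.exp ((x:ℂ) * (1 + y * Complex.I))) (Complex.exp ((x:ℂ) * (1 + y * Complex.I)) * (1 + y * Complex.I)) x := by
    intro x
    have h1 : HasDerivAt (fun x : ℝ => (x:ℂ) * (1 + y * Complex.I)) (1 * (1 + y * Complex.I)) x := (Complex.ofRealCLM.hasDerivAt (x := x)).mul_const _
    rw [one_mul] at h1
    exact h1.cexp
  have hv : ∀ x : ℝ, HasDerivAt (fun x : ℝ => (φ x : ℂ)) ((deriv φ x : ℝ) : ℂ) x := fun x => (h.hasDeriv x).ofReal_comp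
  have hcs : HasCompactSupport (fun x : ℝ => (φ x : ℂ)) := h.2.comp_left (g := fun x : ℝ => (x:ℂ)) (by simp)
  have hcs' : HasCompactSupport (fun x : ℝ => ((deriv φ x : ℝ) : ℂ)) := h.2.deriv.comp_left (g := fun x : ℝ => (x:ℂ)) (by simp)
  have hc := h.cont
  have hc' := h.der.cont
  have key := integral_mul_deriv_eq_deriv_mul_of_integrable (u := fun x : ℝ => Complex.exp ((x:ℂ) * (1 + y * Complex.I)))
    (v := fun x : ℝ => (φ x : ℂ)) (fun x _ => hu x) (fun x _ => hv x) ?_ ?_ ?_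
  · have e1 : ∫ x : ℝ, ((deriv φ x : ℝ) : ℂ) * Complex.exp ((x:ℂ) * (1 + y * Complex.I)) = ∫ x : ℝ, Complex.exp ((x:ℂ) * (1 + y * Complex.I)) * ((deriv φ x : ℝ) : ℂ) :=
      integral_congr_ae (Eventually.of_forall fun x => mul_comm _ _)
    rw [e1, key, ← integral_const_mul]
    congr 1
    refine integral_congr_ae (Eventually.of_forall fun x => ?_)
    show Complex.exp ((x:ℂ) * (1 + y * Complex.I)) * (1 + y * Complex.I) * (φ x : ℂ) = (1 + y * Complex.I) * ((φ x : ℂ) * Complex.exp ((x:ℂ) * (1 + y * Complex.I)))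
    ring
  · exact Continuous.integrable_of_hasCompactSupport (Continuous.mul (by fun_prop) (by fun_prop)) hcs'.mul_left
  · exact Continuous.integrable_of_hasCompactSupport (Continuous.mul (by fun_prop) (by fun_prop)) hcs.mul_left
  · exact Continuous.integrable_of_hasCompactSupport (Continuous.mul (by fun_prop) (by fun_prop)) hcs.mul_left

lemma one_add_norm (y : ℝ) : (1 + |y|) / 2 ≤ ‖(1:ℂ) + y * Complex.I‖ := by
  have h1 := Complex.abs_re_le_norm (1 + (y:ℂ) * Complex.I)
  have h2 := Complex.abs_im_le_norm (1 + (y:ℂ) * Complex.I)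
  simp at h1 h2
  linarith

lemma ps_decay (m : ℕ) : ∀ {φ : ℝ → ℝ}, Sm φ → ∃ C : ℝ, 0 ≤ C ∧ ∀ y : ℝ, (1 + |y|) ^ m * ‖ps φ y‖ ≤ C := by
  induction m with
  | zero =>
    intro φ _
    refine ⟨∫ x, |φ x| * Real.exp x, integral_nonneg fun x => by positivity, fun y => ?_⟩
    rw [pow_zero, one_mul]
    exact ps_bd y
  | succ m ih =>
    intro φ h
    obtain ⟨C, hC, hb⟩ := ih h.der
    refine ⟨2 * C, by positivity, fun y => ?_⟩
    have h1 := hb y
    rw [ps_deriv h, norm_neg, norm_mul] at h1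
    have h2 := one_add_norm y
    have h3 : 0 ≤ (1 + |y|) ^ m * ‖ps φ y‖ := by positivity
    have h4 := mul_le_mul_of_nonneg_left h2 h3
    rw [pow_succ]
    nlinarith

lemma ps_cont {φ : ℝ → ℝ} (h : Sm φ) : Continuous (ps φ) := by
  unfold ps
  refine continuous_of_dominated (bound := fun x => |φ x| * Real.exp x) ?_ ?_ (ps_abs_int h.cont h.2) ?_
  · intro y
    exact (ps_int h.cont h.2 y).aestronglyMeasurable
  · intro y
    refine Eventually.of_forall fun x => ?_
    rw [norm_mul, ker_norm, Complex.norm_real, Real.norm_eq_abs]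
  · exact Eventually.of_forall fun x => by fun_prop

/-- the weighted integrability -/
lemma ps_wint {φ : ℝ → ℝ} (h : Sm φ) (m : ℕ) : Integrable (fun y : ℝ => (1 + |y|) ^ m * ‖ps φ y‖) := by
  obtain ⟨C, hC, hb⟩ := ps_decay (m + 2) h
  have h1 : Integrable (fun y : ℝ => C * (1 + y ^ 2)⁻¹) := (integrable_inv_one_add_sq).const_mul C
  have hc := ps_cont h
  refine h1.mono' (by fun_prop) (Eventually.of_forall fun y => ?_)
  rw [Real.norm_of_nonneg (by positivity)]
  have h2 := hb y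
  rw [pow_add] at h2
  rw [← div_eq_mul_inv, le_div_iff₀ (by positivity)]
  have h3 : (1 + y ^ 2) ≤ (1 + |y|) ^ 2 := by
    rw [← sq_abs y]
    nlinarith [abs_nonneg y]
  have h4 : 0 ≤ (1 + |y|) ^ m * ‖ps φ y‖ := by positivity
  nlinarith [mul_le_mul_of_nonneg_left h3 h4]

lemma ps_integrable {φ : ℝ → ℝ} (h : Sm φ) : Integrable (ps φ) := by
  have h1 := ps_wint h 0
  simp only [pow_zero, one_mul] at h1
  exact (integrable_norm_iff (ps_cont h).aestronglyMeasurable).mp h1

/-- the inversion formula -/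
lemma ps_inv {φ : ℝ → ℝ} (h : Sm φ) (x : ℝ) :
    (φ x : ℂ) = ((1 / (2 * π) : ℝ) : ℂ) * ∫ y : ℝ, ps φ y * Complex.exp (-((x:ℂ) * (1 + y * Complex.I))) := by
  obtain ⟨f, hf⟩ : ∃ f : ℝ → ℂ, f = fun x : ℝ => (φ x : ℂ) * Complex.exp (x:ℂ) := ⟨_, rfl⟩
  have hc := h.cont
  have hfc : Continuous f := by rw [hf]; fun_prop
  have hfi : Integrable f := by
    refine Continuous.integrable_of_hasCompactSupport hfc ?_
    rw [hf]
    refine HasCompactSupport.mul_right ?_
    exact h.2.comp_left (g := fun x : ℝ => (x:ℂ)) (by simp)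
  have hF : ∀ w : ℝ, FourierTransform.fourier f w = ps φ (-(2 * π) * w) := by
    intro w
    rw [Real.fourier_real_eq_integral_exp_smul]
    unfold ps
    refine integral_congr_ae (Eventually.of_forall fun v => ?_)
    show Complex.exp (((-2 * π * v * w : ℝ) : ℂ) * Complex.I) • f v = (φ v : ℂ) * Complex.exp ((v:ℂ) * (1 + ((-(2 * π) * w : ℝ) : ℂ) * Complex.I))
    rw [hf, smul_eq_mul]
    have e1 : Complex.exp ((v:ℂ) * (1 + ((-(2 * π) * w : ℝ) : ℂ) * Complex.I)) = Complex.exp (v:ℂ) * Complex.exp (((-2 * π * v * w : ℝ) : ℂ) * Complex.I) := by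
      rw [← Complex.exp_add]
      congr 1
      push_cast
      ring
    rw [e1]
    ring
  have hF' : FourierTransform.fourier f = fun w : ℝ => ps φ (-(2 * π) * w) := funext hF
  have hpi : (-(2 * π)) ≠ 0 := by
    have := Real.pi_pos
    linarith
  have hFi : Integrable (FourierTransform.fourier f) := by
    rw [hF']
    exact (ps_integrable h).comp_mul_left' hpi
  have h1 := congrFun (hfc.fourierInv_fourier_eq hfi hFi) x
  rw [Real.fourierInv_eq', hF'] at h1
  have h2 : ∫ v : ℝ, Complex.exp (((2 * π * inner ℝ v x : ℝ) : ℂ) * Complex.I) • ps φ (-(2 * π) * v) =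
      ∫ v : ℝ, (fun y : ℝ => Complex.exp (-((x:ℂ) * (y * Complex.I))) * ps φ y) (-(2 * π) * v) := by
    refine integral_congr_ae (Eventually.of_forall fun v => ?_)
    show Complex.exp (((2 * π * inner ℝ v x : ℝ) : ℂ) * Complex.I) • ps φ (-(2 * π) * v) = Complex.exp (-((x:ℂ) * (((-(2 * π) * v : ℝ) : ℂ) * Complex.I))) * ps φ (-(2 * π) * v)
    rw [smul_eq_mul]
    congr 2
    simp only [RCLike.inner_apply, conj_trivial]
    push_cast
    ring
  rw [h2, Measure.integral_comp_mul_left (fun y : ℝ => Complex.exp (-((x:ℂ) * (y * Complex.I))) * ps φ y) (-(2 * π))] at h1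
  have h3 : |(-(2 * π))⁻¹| = 1 / (2 * π) := by
    rw [abs_inv, abs_neg, abs_of_pos (by positivity), one_div]
  rw [h3] at h1
  have h4 : (φ x : ℂ) = f x * Complex.exp (-(x:ℂ)) := by
    rw [hf]
    show (φ x : ℂ) = (φ x : ℂ) * Complex.exp (x:ℂ) * Complex.exp (-(x:ℂ))
    rw [mul_assoc, ← Complex.exp_add, add_neg_cancel, Complex.exp_zero, mul_one]
  rw [h4, ← h1, Complex.real_smul, mul_assoc, ← integral_mul_const]
  congr 1
  refine integral_congr_ae (Eventually.of_forall fun y => ?_)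
  show Complex.exp (-((x:ℂ) * (y * Complex.I))) * ps φ y * Complex.exp (-(x:ℂ)) = ps φ y * Complex.exp (-((x:ℂ) * (1 + y * Complex.I)))
  have e1 : Complex.exp (-((x:ℂ) * (1 + y * Complex.I))) = Complex.exp (-((x:ℂ) * (y * Complex.I))) * Complex.exp (-(x:ℂ)) := by
    rw [← Complex.exp_add]
    congr 1
    ring
  rw [e1]
  ring

end Pool.Agent.H470
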