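import Mathlib

set_option autoImplicit false

/-! The Laplace transform of a power at a complex point. -/

namespace Pool.Agent.H470.GL

open Complex MeasureTheory Filter Topology

open Set in
/-- a step of the Laplace transform of a power -/
lemma int_rpow_exp {s b : ℝ} (hs : -1 < s) (hb : 0 < b) :
    IntegrableOn (fun x : ℝ => x ^ s * Real.exp (-(b * x))) (Ioi 0) := by
  have h := integrableOn_rpow_mul_exp_neg_mul_rpow hs one_pos hb
  refine h.congr_fun (fun x _ => ?_) measurableSet_Ioi
  simp only [Real.rpow_one, neg_mul]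

open Set in
/-- a step of the Laplace transform of a power -/
lemma cpow_exp_meas (a r : ℂ) :
    AEStronglyMeasurable (fun t : ℝ => (t : ℂ) ^ (a - 1) * Complex.exp (-(r * t)))
      (volume.restrict (Ioi 0)) := by
  refine ContinuousOn.aestronglyMeasurable ?_ measurableSet_Ioi
  refine ContinuousOn.mul ?_ (by fun_prop)
  intro t ht
  exact (Complex.continuousAt_ofReal_cpow_const t (a - 1) (Or.inr (ne_of_gt ht))).continuousWithinAt

open Set in
/-- a step of the Laplace transform of a power -/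
lemma rot_deriv {a r : ℂ} (ha : 0 < a.re) (hr : 0 < r.re) :
    HasDerivAt (fun r : ℂ => ∫ t : ℝ in Ioi 0, (t : ℂ) ^ (a - 1) * Complex.exp (-(r * t)))
      (∫ t : ℝ in Ioi 0, (t : ℂ) ^ (a - 1) * (Complex.exp (-(r * t)) * (-(1 * t)))) r := by
  have hpos : 0 < r.re / 2 := by positivity
  refine (hasDerivAt_integral_of_dominated_loc_of_deriv_le (μ := volume.restrict (Ioi (0:ℝ)))
    (F := fun (r : ℂ) (t : ℝ) => (t : ℂ) ^ (a - 1) * Complex.exp (-(r * t)))
    (F' := fun (r : ℂ) (t : ℝ) => (t : ℂ) ^ (a - 1) * (Complex.exp (-(r * t)) * (-(1 * t))))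
    (s := Metric.ball r (r.re / 2)) (bound := fun t : ℝ => t ^ a.re * Real.exp (-(r.re / 2 * t)))
    (Metric.ball_mem_nhds r hpos) ?_ ?_ ?_ ?_ ?_ ?_).2
  · exact Eventually.of_forall fun r => cpow_exp_meas a r
  · refine Integrable.mono' (int_rpow_exp (s := a.re - 1) (b := r.re) (by linarith) hr)
      (cpow_exp_meas a r) ?_
    refine (ae_restrict_iff' measurableSet_Ioi).2 (Eventually.of_forall fun t ht => ?_)
    have ht0 : (0:ℝ) < t := ht
    rw [norm_mul, Complex.norm_cpow_eq_rpow_re_of_pos ht0, Complex.norm_exp]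
    simp
  · have h := (cpow_exp_meas a r).mul (f := fun t : ℝ => (t : ℂ) ^ (a - 1) * Complex.exp (-(r * t)))
      (g := fun t : ℝ => (-(1 * (t : ℂ)))) (by fun_prop)
    refine h.congr (Eventually.of_forall fun t => ?_)
    simp only [Pi.mul_apply]
    ring
  · refine (ae_restrict_iff' measurableSet_Ioi).2 (Eventually.of_forall fun t ht z hz => ?_)
    have ht0 : (0:ℝ) < t := ht
    have hz' : r.re / 2 ≤ z.re := by
      have h1 : ‖z - r‖ < r.re / 2 := by simpa [dist_eq_norm] using hz
      have h2 := (abs_le.1 ((Complex.abs_re_le_norm (z - r)).trans h1.le)).1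
      rw [Complex.sub_re] at h2
      linarith
    rw [norm_mul, Complex.norm_cpow_eq_rpow_re_of_pos ht0, norm_mul, Complex.norm_exp]
    have e1 : ‖(-(1 * (t : ℂ)))‖ = t := by
      rw [one_mul, norm_neg, Complex.norm_real, Real.norm_of_nonneg ht0.le]
    have e2 : (a - 1).re = a.re - 1 := by simp
    have e3 : (-(z * (t : ℂ))).re = -(z.re * t) := by simp
    rw [e1, e2, e3]
    have e4 : t ^ a.re = t ^ (a.re - 1) * t := by
      rw [← Real.rpow_add_one ht0.ne']; congr 1; ring
    rw [e4]
    have h5 : Real.exp (-(z.re * t)) ≤ Real.exp (-(r.re / 2 * t)) :=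
      Real.exp_le_exp.2 (neg_le_neg (mul_le_mul_of_nonneg_right hz' ht0.le))
    have h6 : 0 ≤ t ^ (a.re - 1) * t := by positivity
    calc t ^ (a.re - 1) * (Real.exp (-(z.re * t)) * t) =
        t ^ (a.re - 1) * t * Real.exp (-(z.re * t)) := by ring
      _ ≤ _ := mul_le_mul_of_nonneg_left h5 h6
  · exact int_rpow_exp (by linarith) hpos
  · refine Eventually.of_forall fun t z _ => ?_
    exact ((((hasDerivAt_id z).mul_const (t : ℂ)).neg).cexp).const_mul _

open Set in
/-- a step of the Laplace transform of a power -/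
lemma rot_formula {a r : ℂ} (ha : 0 < a.re) (hr : 0 < r.re) :
    ∫ t : ℝ in Ioi 0, (t : ℂ) ^ (a - 1) * Complex.exp (-(r * t)) = (1 / r) ^ a * Complex.Gamma a := by
  have hU : IsOpen {z : ℂ | 0 < z.re} := isOpen_lt continuous_const Complex.continuous_re
  have hpre : IsPreconnected {z : ℂ | 0 < z.re} := (convex_halfSpace_re_gt 0).isPreconnected
  have h1 : AnalyticOnNhd ℂ (fun r : ℂ => ∫ t : ℝ in Ioi 0, (t : ℂ) ^ (a - 1) * Complex.exp (-(r * t)))
      {z : ℂ | 0 < z.re} := by
    refine DifferentiableOn.analyticOnNhd (fun z hz => ?_) hU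
    exact (rot_deriv ha hz).differentiableAt.differentiableWithinAt
  have h2 : AnalyticOnNhd ℂ (fun r : ℂ => (1 / r) ^ a * Complex.Gamma a) {z : ℂ | 0 < z.re} := by
    refine DifferentiableOn.analyticOnNhd (fun z hz => ?_) hU
    have hz0 : z ≠ 0 := by
      rintro rfl
      simp at hz
    have hz1 : 0 < (1 / z).re := by
      rw [one_div, Complex.inv_re]
      exact div_pos hz (Complex.normSq_pos.2 hz0)
    have h3 : DifferentiableAt ℂ (fun r : ℂ => 1 / r) z := by
      simp only [one_div]
      exact differentiableAt_inv hz0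
    exact ((h3.cpow_const (Or.inl hz1)).mul_const _).differentiableWithinAt
  refine h1.eqOn_of_preconnected_of_frequently_eq h2 hpre (z₀ := 1) (by simp) ?_ hr
  have ht : Tendsto (fun x : ℝ => (x : ℂ)) (𝓝[≠] 1) (𝓝[≠] (1 : ℂ)) := by
    refine tendsto_nhdsWithin_iff.2 ⟨?_, ?_⟩
    · exact (Complex.continuous_ofReal.tendsto' (1:ℝ) (1:ℂ) (by simp)).mono_left nhdsWithin_le_nhds
    · filter_upwards [self_mem_nhdsWithin] with x hx
      simp only [mem_compl_iff, mem_singleton_iff] at hx ⊢
      exact_mod_cast hx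
  refine ht.frequently (Eventually.frequently ?_)
  have h0 : ∀ᶠ x : ℝ in 𝓝[≠] 1, 0 < x := nhdsWithin_le_nhds (lt_mem_nhds one_pos)
  filter_upwards [h0] with x hx
  exact Complex.integral_cpow_mul_exp_neg_mul_Ioi ha hx

end Pool.Agent.H470.GL
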