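import Pool.Agent.H470.St

set_option autoImplicit false

/-!
# Moments of zeta are bounded by moments of its partial sums
-/

open Complex MeasureTheory Set Filter Topology

namespace Pool.Agent.H470

theorem iter_p {p B q T w D2 : ℝ} {N : ℕ} (hp0 : 0 ≤ p) (hB : 0 ≤ B) (hq0 : 0 ≤ q)
    (hq : q ≤ 1 / 2) (hw : 0 ≤ w) (hD2 : 0 ≤ D2)
    (hstep : ∀ a b : ℝ, 3 * T / 4 ≤ a → a ≤ b → b ≤ 3 * T →
      ∫ t in a..b, ‖zz t‖ ^ p ≤ B * (∫ t in (a - D2)..(b + D2), ‖AA N t‖ ^ p) +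
        q * ∫ t in (a - w)..(b + w), ‖zz t‖ ^ p) (j : ℕ) :
    ∀ a b : ℝ, 3 * T / 4 ≤ a - j * w → a ≤ b → b + j * w ≤ 3 * T →
      ∫ t in a..b, ‖zz t‖ ^ p ≤ 2 * B * (∫ t in (a - D2 - j * w)..(b + D2 + j * w), ‖AA N t‖ ^ p) +
        q ^ j * ∫ t in (a - j * w)..(b + j * w), ‖zz t‖ ^ p := by
  have hc : Continuous fun t => ‖AA N t‖ ^ p := normp_cont (AA_cont N) hp0
  have hc0 : ∀ t, 0 ≤ ‖AA N t‖ ^ p := fun t => Real.rpow_nonneg (norm_nonneg _) _
  induction j with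
  | zero =>
    intro a b _ hab _
    simp only [Nat.cast_zero, zero_mul, sub_zero, add_zero, pow_zero, one_mul]
    have : 0 ≤ ∫ t in (a - D2)..(b + D2), ‖AA N t‖ ^ p := by
      apply intervalIntegral.integral_nonneg (by linarith)
      intro t _; positivity
    have : 0 ≤ 2 * B * ∫ t in (a - D2)..(b + D2), ‖AA N t‖ ^ p := by positivity
    linarith
  | succ j ih =>
    intro a b ha hab hb
    have hjw : 0 ≤ (j : ℝ) * w := by positivity
    push_cast at ha hb ⊢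
    have h1 := hstep a b (by nlinarith) hab (by nlinarith)
    have h2 := ih (a - w) (b + w) (by linarith) (by linarith) (by linarith)
    have e1 : a - w - D2 - j * w = a - D2 - (j + 1) * w := by ring
    have e2 : b + w + D2 + j * w = b + D2 + (j + 1) * w := by ring
    have e3 : a - w - j * w = a - (j + 1) * w := by ring
    have e4 : b + w + j * w = b + (j + 1) * w := by ring
    rw [e1, e2, e3, e4] at h2
    have h3 : ∫ t in (a - D2)..(b + D2), ‖AA N t‖ ^ p ≤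
        ∫ t in (a - D2 - (j + 1) * w)..(b + D2 + (j + 1) * w), ‖AA N t‖ ^ p :=
      int_mono_set hc hc0 (by nlinarith) (by linarith) (by nlinarith)
    set F := ∫ t in (a - D2 - (j + 1) * w)..(b + D2 + (j + 1) * w), ‖AA N t‖ ^ p with hF
    set Φ := ∫ t in (a - (j + 1) * w)..(b + (j + 1) * w), ‖zz t‖ ^ p with hΦ
    have hF0 : 0 ≤ F := by
      apply intervalIntegral.integral_nonneg (by nlinarith)
      intro t _; positivity
    have hBF : 0 ≤ B * F := by positivity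
    calc ∫ t in a..b, ‖zz t‖ ^ p ≤ B * F + q * (2 * B * F + q ^ j * Φ) := by
          refine h1.trans ?_
          gcongr
      _ = (1 + 2 * q) * (B * F) + q ^ (j + 1) * Φ := by ring
      _ ≤ 2 * (B * F) + q ^ (j + 1) * Φ := by
          have : (1 + 2 * q) * (B * F) ≤ 2 * (B * F) :=
            mul_le_mul_of_nonneg_right (by linarith) hBF
          linarith
      _ = _ := by ring

theorem AA_bd (X : ℕ) (t : ℝ) : ‖AA X t‖ ≤ 2 * Real.sqrt X := by
  rw [AA_eq]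
  refine (norm_sum_le _ _).trans (le_trans (le_of_eq ?_) (sum_inv_sqrt X))
  refine Finset.sum_congr rfl fun n _ => ?_
  rw [norm_mul, Complex.norm_exp_ofReal_mul_I, mul_one, Complex.norm_real, Real.norm_eq_abs,
    abs_of_nonneg (by positivity)]

theorem zz_bd {T t : ℝ} (hT : 25 ≤ T) (h1 : T / 2 ≤ t) (h2 : t ≤ 8 * T) :
    ‖zz t‖ ≤ 9 * Real.sqrt T := by
  set X := ⌊16 * T⌋₊ with hX
  have hX2 : (X : ℝ) ≤ 16 * T := Nat.floor_le (by linarith)
  have hX1 : 8 * T ≤ X := by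
    have := (Nat.lt_floor_add_one (16 * T)).le
    linarith
  have h3 := zA (by linarith) hX1 hX2 h1 h2
  have h4 := AA_bd X t
  have hT0 : 0 < T := by linarith
  set p := Real.sqrt T with hp
  have hp5 : 5 ≤ p := by
    rw [hp, show (5 : ℝ) = Real.sqrt (5 ^ 2) by rw [Real.sqrt_sq (by norm_num)]]
    apply Real.sqrt_le_sqrt; linarith
  have h5 : Real.sqrt X ≤ 4 * p := by
    calc Real.sqrt X ≤ Real.sqrt (16 * T) := Real.sqrt_le_sqrt hX2
      _ = 4 * p := by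
        rw [Real.sqrt_mul (by norm_num), show (16 : ℝ) = 4 ^ 2 by norm_num,
          Real.sqrt_sq (by norm_num)]
  have h6 : 25 / p ≤ p := by
    rw [div_le_iff₀ (by linarith)]; nlinarith
  calc ‖zz t‖ = ‖AA X t + (zz t - AA X t)‖ := by congr 1; ring
    _ ≤ ‖AA X t‖ + ‖zz t - AA X t‖ := norm_add_le _ _
    _ ≤ 9 * p := by linarith

/-- parameters of the iteration -/
theorem params {p B : ℝ} (hp : 1 < p) (hB : 1 ≤ B) : ∀ᶠ T : ℝ in atTop,
    10 ≤ Real.log T ∧ 10 ^ 4 ≤ T ∧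
    Real.sqrt T ≤ (T ^ (3 / 8 : ℝ)) ^ 2 ∧ 1 ≤ T ^ (3 / 8 : ℝ) ∧
    T ^ (3 / 8 : ℝ) * Real.log T ^ 2 ≤ Real.sqrt T ∧
    2 * T ^ (3 / 8 : ℝ) * Real.log T + 1 ≤ T / 4 ∧
    Real.sqrt T + 1 ≤ (T ^ (3 / 8 : ℝ)) ^ 2 ∧
    B * (80 * (T ^ (3 / 8 : ℝ)) ^ 2 * Real.log T ^ 2 / T) ^ p ≤ 1 / 2 ∧
    (B * (80 * (T ^ (3 / 8 : ℝ)) ^ 2 * Real.log T ^ 2 / T) ^ p) ^ 16 *
      (3 * T * (9 * Real.sqrt T) ^ p) ≤ 1 := by
  have e1 : ∀ᶠ T : ℝ in atTop, 10 ≤ Real.log T :=
    Real.tendsto_log_atTop.eventually_ge_atTop 10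
  have e2 : ∀ᶠ T : ℝ in atTop, 80 * Real.log T ^ 2 ≤ T ^ (1 / 16 : ℝ) := by
    have h := (isLittleO_log_rpow_rpow_atTop (s := 1 / 16) 2 (by norm_num)).bound
      (show (0 : ℝ) < 1 / 80 by norm_num)
    filter_upwards [h, e1, eventually_gt_atTop 0] with T hT hL hT0
    have h2 : Real.log T ^ (2 : ℝ) = Real.log T ^ 2 := by
      rw [← Real.rpow_natCast]; norm_num
    rw [h2, Real.norm_of_nonneg (by positivity), Real.norm_of_nonneg (by positivity)] at hT
    linarith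
  have e3 : ∀ᶠ T : ℝ in atTop, 3 * 9 ^ p * B ^ 16 ≤ T := eventually_ge_atTop _
  have e4 : ∀ᶠ T : ℝ in atTop, 2 * B ≤ T ^ (3 / 16 : ℝ) :=
    (tendsto_rpow_atTop (by norm_num : (0 : ℝ) < 3 / 16)).eventually_ge_atTop _
  filter_upwards [e1, e2, e3, e4, eventually_ge_atTop ((10 : ℝ) ^ 4)] with T h1 h2 h3 h4 h5
  have hT0 : 0 < T := by linarith
  have hT1 : 1 ≤ T := by linarith
  have hp0 : 0 ≤ p := by linarith
  have hsq : Real.sqrt T = T ^ (1 / 2 : ℝ) := Real.sqrt_eq_rpow T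
  have hR2 : (T ^ (3 / 8 : ℝ)) ^ 2 = T ^ (3 / 4 : ℝ) := by
    rw [← Real.rpow_natCast, ← Real.rpow_mul hT0.le]; norm_num
  have hR1 : 1 ≤ T ^ (3 / 8 : ℝ) := Real.one_le_rpow hT1 (by norm_num)
  have hL2 : Real.log T ^ 2 ≤ T ^ (1 / 8 : ℝ) := by
    have : T ^ (1 / 16 : ℝ) ≤ T ^ (1 / 8 : ℝ) := Real.rpow_le_rpow_of_exponent_le hT1 (by norm_num)
    have h0 : 0 ≤ Real.log T ^ 2 := by positivity
    linarith
  have hRL : T ^ (3 / 8 : ℝ) * Real.log T ^ 2 ≤ Real.sqrt T := by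
    calc T ^ (3 / 8 : ℝ) * Real.log T ^ 2 ≤ T ^ (3 / 8 : ℝ) * T ^ (1 / 8 : ℝ) := by gcongr
      _ = Real.sqrt T := by rw [← Real.rpow_add hT0, hsq]; norm_num
  have hs100 : 100 ≤ Real.sqrt T := by
    rw [show (100 : ℝ) = Real.sqrt (100 ^ 2) by rw [Real.sqrt_sq (by norm_num)]]
    apply Real.sqrt_le_sqrt; linarith
  have hss : Real.sqrt T * Real.sqrt T = T := Real.mul_self_sqrt hT0.le
  have hε : 80 * (T ^ (3 / 8 : ℝ)) ^ 2 * Real.log T ^ 2 / T ≤ T ^ (-(3 / 16) : ℝ) := by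
    rw [div_le_iff₀ hT0, hR2]
    calc 80 * T ^ (3 / 4 : ℝ) * Real.log T ^ 2 = T ^ (3 / 4 : ℝ) * (80 * Real.log T ^ 2) := by ring
      _ ≤ T ^ (3 / 4 : ℝ) * T ^ (1 / 16 : ℝ) := by gcongr
      _ = T ^ (-(3 / 16) : ℝ) * T := by
        rw [← Real.rpow_add hT0]
        nth_rewrite 3 [← Real.rpow_one T]
        rw [← Real.rpow_add hT0]
        norm_num
  have hε0 : 0 ≤ 80 * (T ^ (3 / 8 : ℝ)) ^ 2 * Real.log T ^ 2 / T := by positivity
  have hεp : (80 * (T ^ (3 / 8 : ℝ)) ^ 2 * Real.log T ^ 2 / T) ^ p ≤ T ^ (-(3 * p / 16) : ℝ) := by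
    calc _ ≤ (T ^ (-(3 / 16) : ℝ)) ^ p := Real.rpow_le_rpow hε0 hε hp0
      _ = T ^ (-(3 * p / 16) : ℝ) := by
        rw [← Real.rpow_mul hT0.le]; congr 1; ring
  refine ⟨h1, h5, ?_, hR1, hRL, ?_, ?_, ?_, ?_⟩
  · rw [hR2, hsq]
    exact Real.rpow_le_rpow_of_exponent_le hT1 (by norm_num)
  · have h6 : 10 * (T ^ (3 / 8 : ℝ) * Real.log T) ≤ Real.sqrt T := by
      refine le_trans ?_ hRL
      have : 0 ≤ T ^ (3 / 8 : ℝ) * Real.log T := by positivity
      calc 10 * (T ^ (3 / 8 : ℝ) * Real.log T) ≤ Real.log T * (T ^ (3 / 8 : ℝ) * Real.log T) := by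
            gcongr
        _ = _ := by ring
    nlinarith
  · rw [hR2]
    have h6 : T ^ (3 / 4 : ℝ) = Real.sqrt T * T ^ (1 / 4 : ℝ) := by
      rw [hsq, ← Real.rpow_add hT0]; norm_num
    have h7 : 2 ≤ T ^ (1 / 4 : ℝ) := by
      calc (2 : ℝ) = (2 ^ (4 : ℝ)) ^ (1 / 4 : ℝ) := by
            rw [← Real.rpow_mul (by norm_num)]; norm_num
        _ ≤ T ^ (1 / 4 : ℝ) := by
            apply Real.rpow_le_rpow (by positivity) _ (by norm_num)
            norm_num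
            linarith
    rw [h6]
    nlinarith
  · calc B * (80 * (T ^ (3 / 8 : ℝ)) ^ 2 * Real.log T ^ 2 / T) ^ p
        ≤ B * T ^ (-(3 * p / 16) : ℝ) := by gcongr
      _ ≤ B * T ^ (-(3 / 16) : ℝ) := by
          apply mul_le_mul_of_nonneg_left _ (by linarith)
          exact Real.rpow_le_rpow_of_exponent_le hT1 (by linarith)
      _ ≤ 1 / 2 := by
          rw [Real.rpow_neg hT0.le, ← div_eq_mul_inv, div_le_iff₀ (by positivity)]
          linarith
  · have h6 : (B * (80 * (T ^ (3 / 8 : ℝ)) ^ 2 * Real.log T ^ 2 / T) ^ p) ^ 16 ≤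
        B ^ 16 * T ^ (-(3 * p) : ℝ) := by
      calc _ ≤ (B * T ^ (-(3 * p / 16) : ℝ)) ^ 16 := by gcongr
        _ = B ^ 16 * T ^ (-(3 * p) : ℝ) := by
          rw [mul_pow, ← Real.rpow_natCast (T ^ (-(3 * p / 16) : ℝ)), ← Real.rpow_mul hT0.le]
          congr 2
          push_cast; ring
    have h7 : (9 * Real.sqrt T) ^ p = 9 ^ p * T ^ (p / 2) := by
      rw [Real.mul_rpow (by norm_num) (Real.sqrt_nonneg _), hsq, ← Real.rpow_mul hT0.le]
      congr 2; ring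
    rw [h7]
    calc _ ≤ (B ^ 16 * T ^ (-(3 * p) : ℝ)) * (3 * T * (9 ^ p * T ^ (p / 2))) := by gcongr
      _ = (3 * 9 ^ p * B ^ 16) * T ^ (1 - 5 * p / 2) := by
        have : T ^ (1 - 5 * p / 2) = T ^ (-(3 * p) : ℝ) * T * T ^ (p / 2) := by
          nth_rewrite 3 [← Real.rpow_one T]
          rw [← Real.rpow_add hT0, ← Real.rpow_add hT0]
          congr 1; ring
        rw [this]; ring
      _ ≤ T * T ^ (1 - 5 * p / 2) := by gcongr
      _ = T ^ (2 - 5 * p / 2) := by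
        nth_rewrite 1 [← Real.rpow_one T]
        rw [← Real.rpow_add hT0]; congr 1; ring
      _ ≤ 1 := Real.rpow_le_one_of_one_le_of_nonpos hT1 (by linarith)

/-- the window -/
noncomputable def win (T : ℝ) : ℝ := Real.sqrt T * Real.log T ^ 2

theorem zeta_le (p : ℝ) (hp : 1 < p) : ∃ C T₀ : ℝ, 0 < C ∧ ∀ T : ℝ, T₀ ≤ T → ∀ a b : ℝ, T ≤ a →
    b ≤ 2 * T → a + win T ≤ b → ∀ N : ℕ, Real.sqrt T ≤ N → (N : ℝ) ≤ T →
    ∫ t in a..b, ‖zz t‖ ^ p ≤ C * ∫ t in (a - win T)..(b + win T), ‖AA N t‖ ^ p := by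
  obtain ⟨B, hB, hstep⟩ := step p hp
  obtain ⟨C₂, hC₂, hmono⟩ := mono_p p hp
  have hp0 : 0 ≤ p := by linarith
  obtain ⟨T₀, hT₀⟩ := (eventually_atTop.1 (params hp hB))
  refine ⟨2 * B * (C₂ * (1 + 2 ^ p)) + 2 ^ p, T₀, by positivity, ?_⟩
  intro T hT a b ha hb hab N hN hNT
  obtain ⟨hL, hT4, hR1, hR2, hR3, hR4, hR5, hq, hq16⟩ := hT₀ T hT
  set R := T ^ (3 / 8 : ℝ) with hR
  have hT0 : 0 < T := by linarith
  set s := Real.sqrt T with hs
  have hs100 : 100 ≤ s := by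
    rw [hs, show (100 : ℝ) = Real.sqrt (100 ^ 2) by rw [Real.sqrt_sq (by norm_num)]]
    apply Real.sqrt_le_sqrt; linarith
  have hss : s * s = T := Real.mul_self_sqrt hT0.le
  have hL2 : 100 ≤ Real.log T ^ 2 := by nlinarith
  set W := win T with hW
  have hWs : 100 * s ≤ W := by
    rw [hW]; unfold win; rw [← hs]; nlinarith
  have hRL10 : 10 * (R * Real.log T) ≤ s := by
    refine le_trans ?_ hR3
    have : 0 ≤ R * Real.log T := by positivity
    calc 10 * (R * Real.log T) ≤ Real.log T * (R * Real.log T) := by gcongr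
      _ = _ := by ring
  have hsL : 10 * (s * Real.log T) ≤ W := by
    rw [hW]; unfold win; rw [← hs]
    have : 0 ≤ s * Real.log T := by positivity
    calc 10 * (s * Real.log T) ≤ Real.log T * (s * Real.log T) := by gcongr
      _ = _ := by ring
  set N' := ⌈s⌉₊ with hN'
  have hN'1 : s ≤ N' := Nat.le_ceil _
  have hN'2 : (N' : ℝ) ≤ s + 1 := (Nat.ceil_lt_add_one (by linarith)).le
  have hN'N : N' ≤ N := Nat.ceil_le.2 hN
  have hN'one : 1 ≤ N' := by
    have : (1 : ℝ) ≤ N' := by linarith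
    exact_mod_cast this
  set w := 2 * R * Real.log T + 2 with hw
  set D2 := 2 * (2 * Real.pi * ((N' : ℝ) + 1 / 2)) with hD2
  have hD2le : D2 ≤ 13 * s + 20 := by
    rw [hD2]
    have hpi4 := Real.pi_lt_d2
    have : 2 * (2 * Real.pi * ((N' : ℝ) + 1 / 2)) ≤ 2 * (2 * 3.15 * ((s + 1) + 1 / 2)) := by
      gcongr
    linarith
  have hD20 : 0 ≤ D2 := by rw [hD2]; positivity
  have hw0 : 0 ≤ w := by rw [hw]; positivity
  have hwle : 16 * w ≤ 4 * s + 32 := by rw [hw]; linarith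
  have hsT : 100 * s ≤ T := by nlinarith
  set q := B * (80 * R ^ 2 * Real.log T ^ 2 / T) ^ p with hqd
  have hq0 : 0 ≤ q := by rw [hqd]; positivity
  have hst : ∀ a b : ℝ, 3 * T / 4 ≤ a → a ≤ b → b ≤ 3 * T →
      ∫ t in a..b, ‖zz t‖ ^ p ≤ B * (∫ t in (a - D2)..(b + D2), ‖AA N' t‖ ^ p) +
        q * ∫ t in (a - w)..(b + w), ‖zz t‖ ^ p := by
    intro a b h1 h2 h3
    exact hstep T R (by linarith) hR1 hR2 hR3 hR4 N' hN'1 (by linarith) a b h1 h2 h3
  have hab' : a ≤ b := by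
    have : 0 ≤ W := by linarith
    linarith
  have h16 := iter_p hp0 (by linarith) hq0 hq hw0 hD20 hst 16 a b (by push_cast; linarith) hab'
    (by push_cast; linarith)
  push_cast at h16
  -- the last term
  have hlast : q ^ 16 * ∫ t in (a - 16 * w)..(b + 16 * w), ‖zz t‖ ^ p ≤ 1 := by
    have h1 : ∫ t in (a - 16 * w)..(b + 16 * w), ‖zz t‖ ^ p ≤ 3 * T * (9 * s) ^ p := by
      calc ∫ t in (a - 16 * w)..(b + 16 * w), ‖zz t‖ ^ p
          ≤ ∫ t in (a - 16 * w)..(b + 16 * w), (9 * s) ^ p := by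
            apply intervalIntegral.integral_mono_on (by linarith)
              ((normp_cont zz_cont hp0).intervalIntegrable _ _) intervalIntegrable_const
            intro t ht
            apply Real.rpow_le_rpow (norm_nonneg _) _ hp0
            exact zz_bd (T := T) (by linarith) (by linarith [ht.1]) (by linarith [ht.2])
        _ = (b + 16 * w - (a - 16 * w)) * (9 * s) ^ p := by
            rw [intervalIntegral.integral_const, smul_eq_mul]
        _ ≤ 3 * T * (9 * s) ^ p := by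
            apply mul_le_mul_of_nonneg_right (by linarith) (by positivity)
    calc q ^ 16 * ∫ t in (a - 16 * w)..(b + 16 * w), ‖zz t‖ ^ p
        ≤ q ^ 16 * (3 * T * (9 * s) ^ p) := by gcongr
      _ ≤ 1 := hq16
  -- from `N'` to `N`
  set a' := a - D2 - 16 * w with ha'
  set b' := b + D2 + 16 * w with hb'
  have hRs : s ≤ s ^ 2 := by nlinarith
  have hN1 : 1 ≤ N := hN'one.trans hN'N
  have hm := hmono T s (by linarith) hRs (by linarith) (by linarith) N' N hN'one hN'N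
    (by linarith) (by nlinarith) a' b' (by linarith)
  have hc : Continuous fun t => ‖AA N t‖ ^ p := normp_cont (AA_cont N) hp0
  have hc0 : ∀ t, 0 ≤ ‖AA N t‖ ^ p := fun t => Real.rpow_nonneg (norm_nonneg _) _
  have hsN : Real.sqrt N ≤ s := Real.sqrt_le_sqrt hNT
  have hlow := low_p hp.le hN1 (a := a') (b := b') (by linarith)
  set G := ∫ t in (a - W)..(b + W), ‖AA N t‖ ^ p with hG
  have g1 : ∫ t in (a' - (2 * s * Real.log T + 2))..(b' + (2 * s * Real.log T + 2)),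
      ‖AA N t‖ ^ p ≤ G := int_mono_set hc hc0 (by linarith) (by
        have : 0 ≤ s * Real.log T := by positivity
        linarith) (by linarith)
  have g2 : ∫ t in a'..b', ‖AA N t‖ ^ p ≤ G :=
    int_mono_set hc hc0 (by
        have : 0 ≤ s * Real.log T := by positivity
        linarith) (by linarith) (by
        have : 0 ≤ s * Real.log T := by positivity
        linarith)
  have hG0 : 0 ≤ G := by
    apply intervalIntegral.integral_nonneg (by linarith)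
    intro t _; positivity
  have h2p : (0 : ℝ) ≤ 2 ^ p := by positivity
  have g3 : b' - a' ≤ 2 ^ p * G := hlow.trans (mul_le_mul_of_nonneg_left g2 h2p)
  have g4 : ∫ t in a'..b', ‖AA N' t‖ ^ p ≤ C₂ * (1 + 2 ^ p) * G := by
    refine hm.trans ?_
    rw [mul_assoc C₂]
    apply mul_le_mul_of_nonneg_left _ hC₂.le
    linarith
  calc ∫ t in a..b, ‖zz t‖ ^ p ≤ 2 * B * (∫ t in a'..b', ‖AA N' t‖ ^ p) + 1 :=
        h16.trans (add_le_add le_rfl hlast)
    _ ≤ 2 * B * (C₂ * (1 + 2 ^ p) * G) + 2 ^ p * G := by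
        have : 1 ≤ b' - a' := by linarith
        have hB0 : 0 ≤ 2 * B := by linarith
        exact add_le_add (mul_le_mul_of_nonneg_left g4 hB0) (this.trans g3)
    _ = _ := by ring

end Pool.Agent.H470
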