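import Pool.Agent.H470.Md

set_option autoImplicit false

/-! Moments of averages of the Gaussian field. -/

namespace Pool.Agent.H470

open MeasureTheory Filter Topology Set
open scoped ENNReal
open Pool.Agent.R313.CX

/-- the weighted power mean inequality -/
theorem jen {α : Type*} [MeasurableSpace α] (μ : Measure α) {p : ℝ} (hp : 1 ≤ p) {w f : α → ℝ≥0∞}
    (hw : AEMeasurable w μ) (hf : AEMeasurable f μ) :
    (∫⁻ x, w x * f x ∂μ) ^ p ≤ (∫⁻ x, w x ∂μ) ^ (p - 1) * ∫⁻ x, w x * f x ^ p ∂μ := by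
  rcases eq_or_lt_of_le hp with h1 | h1
  · rw [← h1]
    simp
  · have hpq : p.HolderConjugate (p / (p - 1)) := Real.HolderConjugate.conjExponent h1
    have hp0 : 0 < p := by linarith
    have hq0 : 0 < p / (p - 1) := div_pos hp0 (by linarith)
    have h2 := ENNReal.lintegral_mul_le_Lp_mul_Lq μ hpq (f := fun x => w x ^ (1 / p) * f x) (g := fun x => w x ^ (1 / (p / (p - 1))))
      ((hw.pow_const _).mul hf) (hw.pow_const _)
    have e1 : ∫⁻ x, w x * f x ∂μ = ∫⁻ x, ((fun x => w x ^ (1 / p) * f x) * fun x => w x ^ (1 / (p / (p - 1)))) x ∂μ := by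
      refine lintegral_congr fun x => ?_
      show w x * f x = w x ^ (1 / p) * f x * w x ^ (1 / (p / (p - 1)))
      have h3 : w x = w x ^ (1 / p) * w x ^ (1 / (p / (p - 1))) := by
        rw [← ENNReal.rpow_add_of_nonneg _ _ (by positivity) (by positivity)]
        have h4 : 1 / p + 1 / (p / (p - 1)) = 1 := by
          have : p ≠ 0 := hp0.ne'
          have : p - 1 ≠ 0 := by linarith
          field_simp
          ring
        rw [h4, ENNReal.rpow_one]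
      calc w x * f x = (w x ^ (1 / p) * w x ^ (1 / (p / (p - 1)))) * f x := by rw [← h3]
        _ = _ := by ring
    have e2 : ∀ x, (w x ^ (1 / p) * f x) ^ p = w x * f x ^ p := by
      intro x
      rw [ENNReal.mul_rpow_of_nonneg _ _ hp0.le, ← ENNReal.rpow_mul, one_div_mul_cancel hp0.ne', ENNReal.rpow_one]
    have e3 : ∀ x, (w x ^ (1 / (p / (p - 1)))) ^ (p / (p - 1)) = w x := by
      intro x
      rw [← ENNReal.rpow_mul, one_div_mul_cancel hq0.ne', ENNReal.rpow_one]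
    simp only [e2, e3] at h2
    rw [e1]
    refine (ENNReal.rpow_le_rpow h2 hp0.le).trans (le_of_eq ?_)
    rw [ENNReal.mul_rpow_of_nonneg _ _ hp0.le, ← ENNReal.rpow_mul, ← ENNReal.rpow_mul, one_div_mul_cancel hp0.ne', ENNReal.rpow_one, mul_comm]
    congr 2
    have : p ≠ 0 := hp0.ne'
    have : p - 1 ≠ 0 := by linarith
    field_simp

/-- the truncated average of the field -/
noncomputable def xq (k : ℝ) (φ : ℝ → ℝ) (Q : ℝ) (ω : ℕ → ℝ × ℝ) : ℂ :=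
  ((1 / (2 * Real.pi) : ℝ) : ℂ) * ∫ y in Icc (-Q) Q, ps φ y * Complex.exp (gm k ω y)

/-- the weights -/
noncomputable def pe (φ : ℝ → ℝ) (y : ℝ) : ℝ≥0∞ := ENNReal.ofReal (1 / (2 * Real.pi) * ‖ps φ y‖)

lemma pe_meas {φ : ℝ → ℝ} (h : Sm φ) : Measurable (pe φ) := by
  unfold pe
  have := (ps_cont h).measurable
  fun_prop

lemma eg_meas (k : ℝ) : Measurable (fun p : (ℕ → ℝ × ℝ) × ℝ => Complex.exp (gm k p.1 p.2)) :=
  Complex.measurable_exp.comp (gm_meas k)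

lemma xq_meas (k : ℝ) {φ : ℝ → ℝ} (h : Sm φ) (Q : ℝ) : StronglyMeasurable (xq k φ Q) := by
  unfold xq
  have h1 : StronglyMeasurable (fun p : (ℕ → ℝ × ℝ) × ℝ => ps φ p.2 * Complex.exp (gm k p.1 p.2)) :=
    (((ps_cont h).measurable.comp measurable_snd).mul (eg_meas k)).stronglyMeasurable
  exact (h1.integral_prod_right' (ν := volume.restrict (Icc (-Q) Q))).const_mul _

lemma xq_le (k : ℝ) {φ : ℝ → ℝ} (Q : ℝ) (ω : ℕ → ℝ × ℝ) :
    ‖xq k φ Q ω‖ₑ ≤ ∫⁻ y in Icc (-Q) Q, pe φ y * ‖Complex.exp (gm k ω y)‖ₑ := by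
  unfold xq
  rw [← integral_const_mul]
  refine (enorm_integral_le_lintegral_enorm _).trans (le_of_eq ?_)
  refine lintegral_congr fun y => ?_
  unfold pe
  rw [enorm_mul, enorm_mul, ← mul_assoc]
  congr 1
  rw [← ofReal_norm, ← ofReal_norm, ← ENNReal.ofReal_mul (norm_nonneg _), Complex.norm_real, Real.norm_of_nonneg (by positivity)]

lemma ee_int (k s y1 y2 : ℝ) : ∫⁻ ω, (‖Complex.exp (gm k ω y1)‖ₑ * ‖Complex.exp (gm k ω y2)‖ₑ) ^ s ∂gp =
    ENNReal.ofReal (Real.exp (-(k * (s / 2 * vr y1 + s / 2 * vr y2)) + (s / 2) ^ 2 * vr y1 + (s / 2) ^ 2 * vr y2 + s / 2 * (s / 2) * (vr y1 + vr y2 - vr (y1 - y2)))) := by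
  obtain ⟨h1, h2⟩ := law2 k (s / 2) (s / 2) y1 y2
  rw [← h2, ofReal_integral_eq_lintegral_ofReal h1 (Eventually.of_forall fun ω => (Real.exp_pos _).le)]
  refine lintegral_congr fun ω => ?_
  rw [← ofReal_norm, ← ofReal_norm, ← ENNReal.ofReal_mul (norm_nonneg _), Complex.norm_exp, Complex.norm_exp, ← Real.exp_add,
    ENNReal.ofReal_rpow_of_pos (Real.exp_pos _), ← Real.exp_mul]
  congr 2
  ring

lemma sq_prod {μ : Measure ℝ} [SFinite μ] {f : ℝ → ℝ≥0∞} (hf : Measurable f) :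
    (∫⁻ y, f y ∂μ) ^ 2 = ∫⁻ z, f z.1 * f z.2 ∂(μ.prod μ) := by
  rw [lintegral_prod_mul hf.aemeasurable hf.aemeasurable, sq]

/-- moments with exponent at least two -/
theorem model_hi {k : ℝ} (hk : 1 ≤ k) {φ : ℝ → ℝ} (h : Sm φ) (Q : ℝ) :
    ∫⁻ ω, ‖xq k φ Q ω‖ₑ ^ (2 * k) ∂gp ≤
      (∫⁻ z, pe φ z.1 * pe φ z.2 * ENNReal.ofReal (Real.exp (-(k / 4 * vr (z.1 - z.2)))) ∂((volume.restrict (Icc (-Q) Q)).prod (volume.restrict (Icc (-Q) Q)))) ^ k := by
  obtain ⟨μ, hμ⟩ : ∃ μ : Measure ℝ, μ = volume.restrict (Icc (-Q) Q) := ⟨_, rfl⟩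
  have : SFinite μ := by rw [hμ]; infer_instance
  rw [← hμ]
  have hk0 : 0 < k := by linarith
  obtain ⟨r, hr⟩ : ∃ r : ℝ × ℝ → ℝ≥0∞, ∀ z, r z = ENNReal.ofReal (Real.exp (-(k / 4 * vr (z.1 - z.2)))) := ⟨fun z => _, fun _ => rfl⟩
  have hvr : Continuous vr := by
    unfold vr
    refine Continuous.log (by fun_prop) fun y => ?_
    positivity
  have hrm : Measurable r := by
    have : r = fun z => ENNReal.ofReal (Real.exp (-(k / 4 * vr (z.1 - z.2)))) := funext hr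
    rw [this]
    exact ENNReal.measurable_ofReal.comp (by fun_prop : Continuous fun z : ℝ × ℝ => Real.exp (-(k / 4 * vr (z.1 - z.2)))).measurable
  have hr0 : ∀ z, r z ≠ 0 := by
    intro z
    rw [hr]
    exact (ENNReal.ofReal_pos.mpr (Real.exp_pos _)).ne'
  have hrt : ∀ z, r z ≠ ⊤ := by
    intro z
    rw [hr]
    exact ENNReal.ofReal_ne_top
  have hpm := pe_meas h
  have hem : Measurable (fun p : (ℕ → ℝ × ℝ) × ℝ => ‖Complex.exp (gm k p.1 p.2)‖ₑ) := (eg_meas k).enorm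
  have hemω : ∀ ω, Measurable (fun y : ℝ => ‖Complex.exp (gm k ω y)‖ₑ) := fun ω => hem.comp (measurable_const.prodMk measurable_id)
  simp_rw [← hr]
  obtain ⟨W, hW⟩ : ∃ W : ℝ≥0∞, W = ∫⁻ z, pe φ z.1 * pe φ z.2 * r z ∂(μ.prod μ) := ⟨_, rfl⟩
  rw [← hW]
  have hwm : Measurable (fun z : ℝ × ℝ => pe φ z.1 * pe φ z.2 * r z) :=
    ((hpm.comp measurable_fst).mul (hpm.comp measurable_snd)).mul hrm
  have key : ∀ ω, ‖xq k φ Q ω‖ₑ ^ (2 * k) ≤ W ^ (k - 1) * ∫⁻ z, (pe φ z.1 * pe φ z.2 * r z) * ((‖Complex.exp (gm k ω z.1)‖ₑ * ‖Complex.exp (gm k ω z.2)‖ₑ) ^ k * (r z)⁻¹ ^ k) ∂(μ.prod μ) := by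
    intro ω
    have h1 := xq_le k (φ := φ) Q ω
    rw [← hμ] at h1
    have h2 : ‖xq k φ Q ω‖ₑ ^ 2 ≤ ∫⁻ z, (pe φ z.1 * pe φ z.2 * r z) * ((‖Complex.exp (gm k ω z.1)‖ₑ * ‖Complex.exp (gm k ω z.2)‖ₑ) * (r z)⁻¹) ∂(μ.prod μ) := by
      refine (pow_le_pow_left' h1 2).trans (le_of_eq ?_)
      rw [sq_prod (f := fun y => pe φ y * ‖Complex.exp (gm k ω y)‖ₑ) (hpm.mul (hemω ω))]
      refine lintegral_congr fun z => ?_
      have h3 : r z * (r z)⁻¹ = 1 := ENNReal.mul_inv_cancel (hr0 z) (hrt z)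
      calc pe φ z.1 * ‖Complex.exp (gm k ω z.1)‖ₑ * (pe φ z.2 * ‖Complex.exp (gm k ω z.2)‖ₑ) =
            (pe φ z.1 * pe φ z.2) * (‖Complex.exp (gm k ω z.1)‖ₑ * ‖Complex.exp (gm k ω z.2)‖ₑ) * 1 := by ring
        _ = (pe φ z.1 * pe φ z.2) * (‖Complex.exp (gm k ω z.1)‖ₑ * ‖Complex.exp (gm k ω z.2)‖ₑ) * (r z * (r z)⁻¹) := by rw [h3]
        _ = _ := by ring
    have h4 : ‖xq k φ Q ω‖ₑ ^ (2 * k) = (‖xq k φ Q ω‖ₑ ^ 2) ^ k := by
      rw [ENNReal.rpow_mul]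
      norm_num
    rw [h4]
    refine (ENNReal.rpow_le_rpow h2 hk0.le).trans ?_
    have h5 : Measurable fun z : ℝ × ℝ => (‖Complex.exp (gm k ω z.1)‖ₑ * ‖Complex.exp (gm k ω z.2)‖ₑ) * (r z)⁻¹ :=
      (((hemω ω).comp measurable_fst).mul ((hemω ω).comp measurable_snd)).mul hrm.inv
    refine (jen (μ.prod μ) hk hwm.aemeasurable h5.aemeasurable).trans (le_of_eq ?_)
    rw [← hW]
    congr 1
    refine lintegral_congr fun z => ?_
    rw [ENNReal.mul_rpow_of_nonneg _ _ hk0.le]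
  refine (lintegral_mono key).trans ?_
  have hjoint : Measurable (fun p : (ℕ → ℝ × ℝ) × (ℝ × ℝ) => (pe φ p.2.1 * pe φ p.2.2 * r p.2) * ((‖Complex.exp (gm k p.1 p.2.1)‖ₑ * ‖Complex.exp (gm k p.1 p.2.2)‖ₑ) ^ k * (r p.2)⁻¹ ^ k)) := by
    refine (hwm.comp measurable_snd).mul (Measurable.mul (Measurable.pow_const ?_ _) ((hrm.comp measurable_snd).inv.pow_const _))
    exact (hem.comp (measurable_fst.prodMk (measurable_fst.comp measurable_snd))).mul (hem.comp (measurable_fst.prodMk (measurable_snd.comp measurable_snd)))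
  rw [lintegral_const_mul _ hjoint.lintegral_prod_right', lintegral_lintegral_swap hjoint.aemeasurable]
  have hin : ∀ z : ℝ × ℝ, ∫⁻ ω, (pe φ z.1 * pe φ z.2 * r z) * ((‖Complex.exp (gm k ω z.1)‖ₑ * ‖Complex.exp (gm k ω z.2)‖ₑ) ^ k * (r z)⁻¹ ^ k) ∂gp = pe φ z.1 * pe φ z.2 * r z := by
    intro z
    have hm1 : Measurable fun ω => (‖Complex.exp (gm k ω z.1)‖ₑ * ‖Complex.exp (gm k ω z.2)‖ₑ) ^ k :=
      ((hem.comp (measurable_id.prodMk measurable_const)).mul (hem.comp (measurable_id.prodMk measurable_const))).pow_const _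
    rw [lintegral_const_mul _ (hm1.mul_const _), lintegral_mul_const _ hm1, ee_int]
    have e1 : Real.exp (-(k * (k / 2 * vr z.1 + k / 2 * vr z.2)) + (k / 2) ^ 2 * vr z.1 + (k / 2) ^ 2 * vr z.2 + k / 2 * (k / 2) * (vr z.1 + vr z.2 - vr (z.1 - z.2))) =
        Real.exp (-(k / 4 * vr (z.1 - z.2))) ^ k := by
      rw [← Real.exp_mul]
      congr 1
      ring
    rw [e1, ← ENNReal.ofReal_rpow_of_pos (Real.exp_pos _), ← hr, ← ENNReal.mul_rpow_of_nonneg _ _ hk0.le, ENNReal.mul_inv_cancel (hr0 z) (hrt z), ENNReal.one_rpow, mul_one]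
  simp_rw [hin]
  rw [← hW]
  rcases eq_or_lt_of_le hk with h1 | h1
  · rw [← h1]
    simp
  · refine le_of_eq ?_
    nth_rewrite 2 [← ENNReal.rpow_one W]
    rw [← ENNReal.rpow_add_of_nonneg _ _ (by linarith) (by linarith)]
    congr 1
    ring

/-- the covariance weight -/
noncomputable def kap (k : ℝ) (z : ℝ × ℝ) : ℝ := Real.exp ((1 - k) / 2 * (vr z.1 + vr z.2) - 1 / 2 * vr (z.1 - z.2))

lemma vr_cont : Continuous vr := by
  unfold vr
  refine Continuous.log (by fun_prop) fun y => ?_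
  positivity

/-- the second moment -/
theorem model_sq (k : ℝ) {φ : ℝ → ℝ} (h : Sm φ) (Q : ℝ) :
    ∫⁻ ω, ‖xq k φ Q ω‖ₑ ^ 2 ∂gp ≤
      ∫⁻ z, pe φ z.1 * pe φ z.2 * ENNReal.ofReal (kap k z) ∂((volume.restrict (Icc (-Q) Q)).prod (volume.restrict (Icc (-Q) Q))) := by
  obtain ⟨μ, hμ⟩ : ∃ μ : Measure ℝ, μ = volume.restrict (Icc (-Q) Q) := ⟨_, rfl⟩
  have : IsFiniteMeasure μ := by rw [hμ]; infer_instance
  rw [← hμ]
  obtain ⟨c, hc⟩ : ∃ c : ℂ, c = ((1 / (2 * Real.pi) : ℝ) : ℂ) := ⟨_, rfl⟩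
  have hcc : (starRingEnd ℂ) c = c := by rw [hc, Complex.conj_ofReal]
  obtain ⟨F, hF⟩ : ∃ F : (ℕ → ℝ × ℝ) → ℝ × ℝ → ℂ, ∀ ω z, F ω z = (c * ps φ z.1) * (c * (starRingEnd ℂ) (ps φ z.2)) * (Complex.exp (gm k ω z.1) * (starRingEnd ℂ) (Complex.exp (gm k ω z.2))) := ⟨fun ω z => _, fun _ _ => rfl⟩
  have hpc := ps_cont h
  have hXX : ∀ ω, xq k φ Q ω * (starRingEnd ℂ) (xq k φ Q ω) = ∫ z, F ω z ∂(μ.prod μ) := by
    intro ω
    have e1 : xq k φ Q ω = ∫ y, c * (ps φ y * Complex.exp (gm k ω y)) ∂μ := by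
      unfold xq
      rw [hμ, integral_const_mul, hc]
    have e2 : (starRingEnd ℂ) (xq k φ Q ω) = ∫ y, (starRingEnd ℂ) (c * (ps φ y * Complex.exp (gm k ω y))) ∂μ := by
      rw [e1, ← integral_conj]
    rw [e2, e1, ← integral_prod_mul]
    refine integral_congr_ae (Eventually.of_forall fun z => ?_)
    show c * (ps φ z.1 * Complex.exp (gm k ω z.1)) * (starRingEnd ℂ) (c * (ps φ z.2 * Complex.exp (gm k ω z.2))) = F ω z
    rw [hF, map_mul, map_mul, hcc]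
    ring
  have hFm : Measurable (fun p : (ℕ → ℝ × ℝ) × (ℝ × ℝ) => F p.1 p.2) := by
    have e1 : (fun p : (ℕ → ℝ × ℝ) × (ℝ × ℝ) => F p.1 p.2) = fun p => (c * ps φ p.2.1) * (c * (starRingEnd ℂ) (ps φ p.2.2)) * (Complex.exp (gm k p.1 p.2.1) * (starRingEnd ℂ) (Complex.exp (gm k p.1 p.2.2))) := by
      funext p
      exact hF _ _
    rw [e1]
    have m1 : Measurable (fun p : (ℕ → ℝ × ℝ) × (ℝ × ℝ) => Complex.exp (gm k p.1 p.2.1)) :=
      (eg_meas k).comp (measurable_fst.prodMk (measurable_fst.comp measurable_snd))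
    have m2 : Measurable (fun p : (ℕ → ℝ × ℝ) × (ℝ × ℝ) => Complex.exp (gm k p.1 p.2.2)) :=
      (eg_meas k).comp (measurable_fst.prodMk (measurable_snd.comp measurable_snd))
    have m3 : Measurable (fun p : (ℕ → ℝ × ℝ) × (ℝ × ℝ) => (c * ps φ p.2.1) * (c * (starRingEnd ℂ) (ps φ p.2.2))) := by
      refine Continuous.measurable ?_
      have := Complex.continuous_conj
      fun_prop
    exact m3.mul (m1.mul (Complex.continuous_conj.measurable.comp m2))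
  have hFn : ∀ ω z, ‖F ω z‖ = ‖(c * ps φ z.1) * (c * (starRingEnd ℂ) (ps φ z.2))‖ * Real.exp (2 * (1 / 2) * (gm k ω z.1).re + 2 * (1 / 2) * (gm k ω z.2).re) := by
    intro ω z
    rw [hF, norm_mul]
    congr 1
    rw [norm_mul, Complex.norm_conj, Complex.norm_exp, Complex.norm_exp, ← Real.exp_add]
    congr 1
    ring
  have hFi : Integrable (fun p : (ℕ → ℝ × ℝ) × (ℝ × ℝ) => F p.1 p.2) (gp.prod (μ.prod μ)) := by
    rw [integrable_prod_iff' hFm.aestronglyMeasurable]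
    constructor
    · refine Eventually.of_forall fun z => ?_
      have h1 := (law2 k (1 / 2) (1 / 2) z.1 z.2).1.const_mul ‖(c * ps φ z.1) * (c * (starRingEnd ℂ) (ps φ z.2))‖
      refine h1.mono' ?_ (Eventually.of_forall fun ω => (hFn ω z).le)
      exact (hFm.comp (measurable_id.prodMk measurable_const)).aestronglyMeasurable
    · have e1 : ∀ z : ℝ × ℝ, ∫ ω, ‖F ω z‖ ∂gp = ‖(c * ps φ z.1) * (c * (starRingEnd ℂ) (ps φ z.2))‖ *
          Real.exp (-(k * (1 / 2 * vr z.1 + 1 / 2 * vr z.2)) + (1 / 2) ^ 2 * vr z.1 + (1 / 2) ^ 2 * vr z.2 + 1 / 2 * (1 / 2) * (vr z.1 + vr z.2 - vr (z.1 - z.2))) := by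
        intro z
        simp_rw [hFn]
        rw [integral_const_mul, (law2 k (1 / 2) (1 / 2) z.1 z.2).2]
      show Integrable (fun z : ℝ × ℝ => ∫ ω, ‖F ω z‖ ∂gp) (μ.prod μ)
      simp_rw [e1]
      have hvc := vr_cont
      have hcj := Complex.continuous_conj
      have hcont : Continuous fun z : ℝ × ℝ => ‖(c * ps φ z.1) * (c * (starRingEnd ℂ) (ps φ z.2))‖ *
          Real.exp (-(k * (1 / 2 * vr z.1 + 1 / 2 * vr z.2)) + (1 / 2) ^ 2 * vr z.1 + (1 / 2) ^ 2 * vr z.2 + 1 / 2 * (1 / 2) * (vr z.1 + vr z.2 - vr (z.1 - z.2))) := by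
        fun_prop
      rw [hμ, Measure.prod_restrict]
      exact hcont.continuousOn.integrableOn_compact (isCompact_Icc.prod isCompact_Icc)
  have hXi : Integrable (fun ω => xq k φ Q ω * (starRingEnd ℂ) (xq k φ Q ω)) gp := by
    have h1 := hFi.integral_prod_left
    exact h1.congr (Eventually.of_forall fun ω => (hXX ω).symm)
  have hsw : ∫ ω, xq k φ Q ω * (starRingEnd ℂ) (xq k φ Q ω) ∂gp = ∫ z, ∫ ω, F ω z ∂gp ∂(μ.prod μ) := by
    simp_rw [hXX]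
    exact integral_integral_swap hFi
  have hsq : ∀ ω, xq k φ Q ω * (starRingEnd ℂ) (xq k φ Q ω) = ((‖xq k φ Q ω‖ ^ 2 : ℝ) : ℂ) := by
    intro ω
    rw [Complex.mul_conj, Complex.normSq_eq_norm_sq]
  have hri : Integrable (fun ω => ‖xq k φ Q ω‖ ^ 2) gp := by
    have h1 := hXi.norm
    refine h1.congr (Eventually.of_forall fun ω => ?_)
    show ‖xq k φ Q ω * (starRingEnd ℂ) (xq k φ Q ω)‖ = ‖xq k φ Q ω‖ ^ 2
    rw [norm_mul, Complex.norm_conj, sq]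
  have e3 : ∫⁻ ω, ‖xq k φ Q ω‖ₑ ^ 2 ∂gp = ‖∫ z, ∫ ω, F ω z ∂gp ∂(μ.prod μ)‖ₑ := by
    rw [← hsw]
    simp_rw [hsq]
    rw [integral_complex_ofReal, ← ofReal_norm, Complex.norm_real, Real.norm_of_nonneg (integral_nonneg fun ω => by positivity),
      ofReal_integral_eq_lintegral_ofReal hri (Eventually.of_forall fun ω => by positivity)]
    refine lintegral_congr fun ω => ?_
    rw [← ofReal_norm, ENNReal.ofReal_pow (norm_nonneg _)]
  rw [e3]
  refine (enorm_integral_le_lintegral_enorm _).trans (le_of_eq ?_)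
  refine lintegral_congr fun z => ?_
  simp_rw [hF]
  rw [integral_const_mul, ← ofReal_norm, norm_mul, lawx_norm]
  unfold pe kap
  rw [← ENNReal.ofReal_mul (by positivity), ← ENNReal.ofReal_mul (by positivity)]
  congr 2
  rw [norm_mul, norm_mul, norm_mul, Complex.norm_conj, hc, Complex.norm_real, Real.norm_of_nonneg (by positivity)]

/-- moments with exponent at most two -/
theorem model_lo {k : ℝ} (hk0 : 0 < k) (hk : k ≤ 1) {φ : ℝ → ℝ} (h : Sm φ) (Q : ℝ) :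
    ∫⁻ ω, ‖xq k φ Q ω‖ₑ ^ (2 * k) ∂gp ≤
      (∫⁻ z, pe φ z.1 * pe φ z.2 * ENNReal.ofReal (kap k z) ∂((volume.restrict (Icc (-Q) Q)).prod (volume.restrict (Icc (-Q) Q)))) ^ k := by
  have h1 := jen gp (p := 1 / k) (w := fun _ => 1) (f := fun ω => ‖xq k φ Q ω‖ₑ ^ (2 * k)) (by rw [le_div_iff₀ hk0]; linarith) aemeasurable_const
    ((xq_meas k h Q).measurable.enorm.pow_const _).aemeasurable
  simp only [one_mul, lintegral_const, measure_univ, mul_one, ENNReal.one_rpow] at h1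
  have e1 : ∀ ω, (‖xq k φ Q ω‖ₑ ^ (2 * k)) ^ (1 / k) = ‖xq k φ Q ω‖ₑ ^ 2 := by
    intro ω
    rw [← ENNReal.rpow_mul, mul_assoc, mul_one_div_cancel hk0.ne', mul_one]
    norm_num
  simp_rw [e1] at h1
  have h2 := ENNReal.rpow_le_rpow (h1.trans (model_sq k h Q)) hk0.le
  rwa [← ENNReal.rpow_mul, one_div_mul_cancel hk0.ne', ENNReal.rpow_one] at h2

end Pool.Agent.H470
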