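import Pool.Agent.H470.Rp
import Pool.Agent.H470.Mj

set_option autoImplicit false

/-! The limit theorem for truncated averages. -/

namespace Pool.Agent.H470

open MeasureTheory Filter Topology Set
open Pool.Agent.R313.CX
open Pool.Agent.R313.FN (gz)
open Pool.Agent.H306R2 (aF aF_pos)

/-- the truncated average of zeta -/
noncomputable def iq (φ : ℝ → ℝ) (Q δ t : ℝ) : ℂ :=
  ((1 / (2 * Real.pi) : ℝ) : ℂ) * ∫ y in Icc (-Q) Q, ps φ y * gz δ t (1 + (y:ℂ) * Complex.I)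

/-- the segment -/
def sg (Q : ℝ) : Set ℂ := (fun y : ℝ => 1 + (y:ℂ) * Complex.I) '' Icc (-Q) Q

lemma sg_compact (Q : ℝ) : IsCompact (sg Q) := isCompact_Icc.image (by fun_prop)

lemma sg_re (Q : ℝ) : ∀ w ∈ sg Q, 0 < w.re := by
  rintro w ⟨y, _, rfl⟩
  simp

/-- the parametrization -/
noncomputable def pm {Q : ℝ} (hQ : 0 ≤ Q) : C(ℝ, sg Q) :=
  ⟨fun y => ⟨1 + ((projIcc (-Q) Q (by linarith) y : ℝ) : ℂ) * Complex.I, ⟨_, (projIcc (-Q) Q (by linarith) y).2, rfl⟩⟩, by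
    refine Continuous.subtype_mk ?_ _
    have h1 : Continuous fun y : ℝ => ((projIcc (-Q) Q (by linarith) y : Icc (-Q) Q) : ℝ) := continuous_subtype_val.comp continuous_projIcc
    fun_prop⟩

lemma pm_val {Q : ℝ} (hQ : 0 ≤ Q) {y : ℝ} (hy : y ∈ Icc (-Q) Q) : ((pm hQ y : sg Q) : ℂ) = 1 + (y:ℂ) * Complex.I := by
  unfold pm
  simp only [ContinuousMap.coe_mk]
  rw [projIcc_of_mem _ hy]

/-- the functional -/
noncomputable def lq (φ : ℝ → ℝ) {Q : ℝ} (hQ : 0 ≤ Q) (f : C(sg Q, ℂ)) : ℂ :=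
  ((1 / (2 * Real.pi) : ℝ) : ℂ) * ∫ y in Icc (-Q) Q, ps φ y * f (pm hQ y)

lemma lq_smul {φ : ℝ → ℝ} {Q : ℝ} (hQ : 0 ≤ Q) (u : ℂ) (f : C(sg Q, ℂ)) : lq φ hQ (u • f) = u * lq φ hQ f := by
  unfold lq
  have e1 : ∀ y, ps φ y * (u • f) (pm hQ y) = u * (ps φ y * f (pm hQ y)) := by
    intro y
    rw [ContinuousMap.smul_apply, smul_eq_mul]
    ring
  simp_rw [e1]
  rw [integral_const_mul]
  ring

lemma lq_cont {φ : ℝ → ℝ} (h : Sm φ) {Q : ℝ} (hQ : 0 ≤ Q) : Continuous (lq φ hQ) := by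
  unfold lq
  refine continuous_const.mul ?_
  have : CompactSpace (sg Q) := isCompact_iff_compactSpace.mp (sg_compact Q)
  have hc := ps_cont h
  refine continuous_iff_continuousAt.mpr fun f => ?_
  refine continuousAt_of_dominated (bound := fun y => ‖ps φ y‖ * (‖f‖ + 1)) ?_ ?_ ?_ ?_
  · exact Eventually.of_forall fun g => (hc.mul (g.continuous.comp (pm hQ).continuous)).aestronglyMeasurable
  · filter_upwards [Metric.ball_mem_nhds f one_pos] with g hg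
    refine Eventually.of_forall fun y => ?_
    rw [norm_mul]
    refine mul_le_mul_of_nonneg_left ?_ (norm_nonneg _)
    rw [mem_ball_iff_norm] at hg
    have h1 := ContinuousMap.norm_coe_le_norm g (pm hQ y)
    have h2 : ‖g‖ ≤ ‖f‖ + ‖g - f‖ := norm_le_norm_add_norm_sub' g f
    linarith
  · exact (Continuous.continuousOn (by fun_prop)).integrableOn_compact isCompact_Icc
  · refine Eventually.of_forall fun y => ?_
    exact (continuous_const.mul (continuous_eval_const (pm hQ y))).continuousAt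

lemma lq_rs {φ : ℝ → ℝ} {Q : ℝ} (hQ : 0 ≤ Q) {F : ℂ → ℂ} (hF : ContinuousOn F (sg Q)) :
    lq φ hQ (rs (sg Q) F) = ((1 / (2 * Real.pi) : ℝ) : ℂ) * ∫ y in Icc (-Q) Q, ps φ y * F (1 + (y:ℂ) * Complex.I) := by
  unfold lq
  congr 1
  refine setIntegral_congr_fun measurableSet_Icc fun y hy => ?_
  show ps φ y * (rs (sg Q) F) (pm hQ y) = ps φ y * F (1 + (y:ℂ) * Complex.I)
  rw [rs_apply hF, pm_val hQ hy]

/-- the limit theorem -/
theorem iq_lim {δ : ℝ → ℝ} (hδ : Tendsto δ atTop (𝓝 0))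
    (hδL : Tendsto (fun T : ℝ => δ T * Real.log T) atTop atTop) {k : ℝ} (hk : 0 < k) (hk2 : k ≤ 2)
    {φ : ℝ → ℝ} (h : Sm φ) {Q : ℝ} (hQ : 0 ≤ Q) :
    Integrable (fun ω => ‖xq k φ Q ω‖ ^ (2 * k)) gp ∧
    Tendsto (fun T : ℝ => (2 * δ T) ^ (k ^ 2) / T * ∫ t in Icc 0 T, ‖iq φ Q (δ T) t‖ ^ (2 * k)) atTop
      (𝓝 (aF k * ∫ ω, ‖xq k φ Q ω‖ ^ (2 * k) ∂gp)) := by
  obtain ⟨hc, hlim⟩ := comp_lim hδ hδL hk hk2 (sg_compact Q) (sg_re Q)
  obtain ⟨h1, h2⟩ := hlim (fun f => ((‖lq φ hQ f‖ ^ (2 * k) : ℝ) : ℂ)) (by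
    refine Complex.continuous_ofReal.comp ?_
    exact (lq_cont h hQ).norm.rpow_const fun _ => Or.inr (by positivity)) (fun u f => by
    rw [lq_smul, norm_mul, Real.mul_rpow (norm_nonneg _) (norm_nonneg _), Complex.ofReal_mul])
  have e1 : (fun ω => ((‖lq φ hQ (rs (sg Q) (fun w => Complex.exp (fld k ω w)))‖ ^ (2 * k) : ℝ) : ℂ)) =ᵐ[gp] fun ω => ((‖xq k φ Q ω‖ ^ (2 * k) : ℝ) : ℂ) := by
    filter_upwards [gm_ae k, fld_good k] with ω hω hg
    have hF : ContinuousOn (fun w => Complex.exp (fld k ω w)) (sg Q) := fun w hw =>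
      ((hg w (sg_re Q w hw)).2.continuousAt.cexp).continuousWithinAt
    rw [lq_rs hQ hF]
    unfold xq
    simp_rw [hω.1]
  have h1' := h1.congr e1
  have hint : Integrable (fun ω => ‖xq k φ Q ω‖ ^ (2 * k)) gp := by
    have := h1'.re
    refine this.congr (Eventually.of_forall fun ω => ?_)
    simp
  refine ⟨hint, ?_⟩
  rw [integral_congr_ae e1, integral_complex_ofReal, ← Complex.ofReal_mul] at h2
  have h3 : Tendsto (fun T : ℝ => (((2 * δ T) ^ (k ^ 2) / T * ∫ t in Icc 0 T, ‖iq φ Q (δ T) t‖ ^ (2 * k) : ℝ) : ℂ)) atTop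
      (𝓝 ((aF k * ∫ ω, ‖xq k φ Q ω‖ ^ (2 * k) ∂gp : ℝ) : ℂ)) := by
    refine h2.congr' ?_
    filter_upwards [hc] with T hT
    rw [Complex.ofReal_mul ((2 * δ T) ^ (k ^ 2) / T), ← integral_complex_ofReal]
    congr 1
    refine integral_congr_ae (Eventually.of_forall fun t => ?_)
    show ((‖lq φ hQ (rs (sg Q) (gz (δ T) t))‖ ^ (2 * k) : ℝ) : ℂ) = ((‖iq φ Q (δ T) t‖ ^ (2 * k) : ℝ) : ℂ)
    rw [lq_rs hQ (hT t)]
    rfl
  exact (Complex.continuous_re.tendsto _).comp h3 |>.congr fun T => by simp [Function.comp]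

end Pool.Agent.H470
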