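import Pool.Agent.H470.AF

set_option autoImplicit false

/-!
# `L^p` comparison of partial sums
-/

open Complex MeasureTheory Set Filter Topology

namespace Pool.Agent.H470

theorem normp_cont {f : ℝ → ℂ} (hf : Continuous f) {p : ℝ} (hp : 0 ≤ p) :
    Continuous fun t => ‖f t‖ ^ p := hf.norm.rpow_const fun _ => Or.inr hp

theorem int_mono_set {g : ℝ → ℝ} (hg : Continuous g) (h0 : ∀ t, 0 ≤ g t) {a b c d : ℝ}
    (h1 : c ≤ a) (h2 : a ≤ b) (h3 : b ≤ d) : ∫ t in a..b, g t ≤ ∫ t in c..d, g t :=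
  intervalIntegral.integral_mono_interval h1 h2 h3 (Eventually.of_forall h0)
    (hg.intervalIntegrable _ _)

theorem mono_p (p : ℝ) (hp : 1 < p) : ∃ C : ℝ, 0 < C ∧ ∀ T R : ℝ, 4 ≤ Real.log T →
    Real.sqrt T ≤ R ^ 2 → 1 ≤ R → R ≤ T → ∀ N X : ℕ, 1 ≤ N → N ≤ X → (X : ℝ) ≤ 16 * T →
    (N : ℝ) ≤ R ^ 2 → ∀ a b : ℝ, a ≤ b →
    ∫ t in a..b, ‖AA N t‖ ^ p ≤
      C * ((∫ t in (a - (2 * R * Real.log T + 2))..(b + (2 * R * Real.log T + 2)), ‖AA X t‖ ^ p) +
        (b - a)) := by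
  obtain ⟨C₀, hC₀, hproj⟩ := proj
  obtain ⟨C₁, hC₁, hU⟩ := UU_Lp p hp
  have hp0 : 0 ≤ p := by linarith
  refine ⟨2 ^ p * (C₁ + C₀ ^ p), by positivity, ?_⟩
  intro T R hL hRT hR hRT1 N X hN hNX hX hNR a b hab
  obtain ⟨k1, k2, k3, k4, k5, k6⟩ := par hL hR
  have hX0 := AA_cont X
  have hpt : ∀ t, ‖AA N t‖ ^ p ≤ 2 ^ p *
      (‖UU (hT T) R (Real.log (N + 1 / 2)) (KT T R) (AA X) t‖ ^ p + C₀ ^ p) := by
    intro t
    refine le_trans ?_ (add_rpow2 (norm_nonneg _) hC₀.le hp0)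
    apply Real.rpow_le_rpow (norm_nonneg _) _ hp0
    have h1 := hproj T R hL hRT hR hRT1 N X hN hNX hX hNR t
    calc ‖AA N t‖ = ‖UU (hT T) R (Real.log (N + 1 / 2)) (KT T R) (AA X) t -
          (UU (hT T) R (Real.log (N + 1 / 2)) (KT T R) (AA X) t - AA N t)‖ := by congr 1; ring
      _ ≤ _ := (norm_sub_le _ _).trans (add_le_add le_rfl h1)
  have hUc : Continuous fun t =>
      ‖UU (hT T) R (Real.log (N + 1 / 2)) (KT T R) (AA X) t‖ ^ p := normp_cont (UU_cont hX0) hp0
  have h2 := hU (hT T) R (Real.log (N + 1 / 2)) (KT T R) k1 k2 k4 (AA X) hX0 a b hab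
  have hK0 : 0 ≤ hT T * KT T R := by positivity
  have h3 : ∫ t in (a - hT T * KT T R)..(b + hT T * KT T R + hT T), ‖AA X t‖ ^ p ≤
      ∫ t in (a - (2 * R * Real.log T + 2))..(b + (2 * R * Real.log T + 2)), ‖AA X t‖ ^ p :=
    int_mono_set (normp_cont hX0 hp0) (fun t => Real.rpow_nonneg (norm_nonneg _) _)
      (by linarith) (by linarith) (by linarith)
  set F := ∫ t in (a - (2 * R * Real.log T + 2))..(b + (2 * R * Real.log T + 2)), ‖AA X t‖ ^ p
    with hF
  have hF0 : 0 ≤ F := by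
    apply intervalIntegral.integral_nonneg (by linarith)
    intro t _; positivity
  calc ∫ t in a..b, ‖AA N t‖ ^ p
      ≤ ∫ t in a..b, 2 ^ p *
      (‖UU (hT T) R (Real.log (N + 1 / 2)) (KT T R) (AA X) t‖ ^ p + C₀ ^ p) :=
        intervalIntegral.integral_mono_on hab ((normp_cont (AA_cont N) hp0).intervalIntegrable _ _)
          ((continuous_const.mul (hUc.add continuous_const)).intervalIntegrable _ _)
          fun t _ => hpt t
    _ = 2 ^ p * ((∫ t in a..b,
          ‖UU (hT T) R (Real.log (N + 1 / 2)) (KT T R) (AA X) t‖ ^ p) + C₀ ^ p * (b - a)) := by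
        rw [intervalIntegral.integral_const_mul, intervalIntegral.integral_add
          (hUc.intervalIntegrable _ _) (continuous_const.intervalIntegrable _ _),
          intervalIntegral.integral_const, smul_eq_mul, mul_comm (b - a)]
    _ ≤ 2 ^ p * (C₁ * F + C₀ ^ p * (b - a)) := by
        have h4 := h2.trans (mul_le_mul_of_nonneg_left h3 hC₁.le)
        gcongr
    _ ≤ 2 ^ p * (C₁ + C₀ ^ p) * (F + (b - a)) := by
        rw [mul_assoc]
        apply mul_le_mul_of_nonneg_left _ (by positivity)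
        have h5 : 0 ≤ C₀ ^ p * F := by positivity
        have h6 : 0 ≤ C₁ * (b - a) := mul_nonneg hC₁.le (by linarith)
        nlinarith

/-- the mean of a partial sum is `1` -/
theorem mean_AA {N : ℕ} (hN : 1 ≤ N) {a b : ℝ} :
    ‖(∫ t in a..b, AA N t) - ((b - a : ℝ) : ℂ)‖ ≤ 6 * Real.sqrt N := by
  have h1 : ∀ t, AA N t = 1 + ∑ n ∈ Finset.Icc 2 N,
      ((1 / Real.sqrt n : ℝ) : ℂ) * cexp (((-(Real.log n : ℂ)) * I) * (t : ℂ)) := by
    intro t
    rw [AA_eq]
    have : Finset.Icc 1 N = insert 1 (Finset.Icc 2 N) := by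
      ext n; simp only [Finset.mem_Icc, Finset.mem_insert]; omega
    rw [this, Finset.sum_insert (by simp)]
    congr 1
    · simp
    · refine Finset.sum_congr rfl fun n _ => ?_
      congr 2
      push_cast
      ring
  simp_rw [h1]
  rw [intervalIntegral.integral_add (continuous_const.intervalIntegrable _ _)
    ((by fun_prop : Continuous fun t : ℝ => ∑ n ∈ Finset.Icc 2 N,
      ((1 / Real.sqrt n : ℝ) : ℂ) * cexp (((-(Real.log n : ℂ)) * I) * (t : ℂ))).intervalIntegrable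
      _ _),
    intervalIntegral.integral_const, intervalIntegral.integral_finsetSum
      (fun (n : ℕ) _ => (by fun_prop : Continuous fun t : ℝ => ((1 / Real.sqrt n : ℝ) : ℂ) *
        cexp (((-(Real.log n : ℂ)) * I) * (t : ℂ))).intervalIntegrable _ _)]
  have h2 : (b - a) • (1 : ℂ) = ((b - a : ℝ) : ℂ) := by simp
  rw [h2, add_sub_cancel_left]
  refine (norm_sum_le _ _).trans ?_
  have h3 : ∀ n ∈ Finset.Icc 2 N, ‖∫ t in a..b, ((1 / Real.sqrt n : ℝ) : ℂ) *
      cexp (((-(Real.log n : ℂ)) * I) * (t : ℂ))‖ ≤ 3 * (1 / Real.sqrt n) := by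
    intro n hn
    have hn2 : 2 ≤ n := (Finset.mem_Icc.1 hn).1
    have hn2r : (2 : ℝ) ≤ n := by exact_mod_cast hn2
    have hlog : 0.69 < Real.log n := by
      have := Real.log_two_gt_d9
      have h4 := Real.log_le_log (by norm_num) hn2r
      linarith
    have hne : ((-(Real.log n : ℂ)) * I) ≠ 0 := by
      apply mul_ne_zero _ Complex.I_ne_zero
      rw [neg_ne_zero]
      exact_mod_cast (by linarith : Real.log n ≠ 0)
    rw [intervalIntegral.integral_const_mul, integral_exp_mul_complex hne, norm_mul,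
      Complex.norm_real, Real.norm_eq_abs, abs_of_nonneg (by positivity), mul_comm]
    apply mul_le_mul_of_nonneg_right _ (by positivity)
    rw [norm_div, norm_mul, Complex.norm_I, mul_one, norm_neg, Complex.norm_real,
      Real.norm_eq_abs, abs_of_pos (by linarith), div_le_iff₀ (by linarith)]
    have h5 : ∀ x : ℝ, ‖cexp (((-(Real.log n : ℂ)) * I) * (x : ℂ))‖ = 1 := by
      intro x
      have : ((-(Real.log n : ℂ)) * I) * (x : ℂ) = ((-(Real.log n * x) : ℝ) : ℂ) * I := by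
        push_cast; ring
      rw [this, Complex.norm_exp_ofReal_mul_I]
    refine (norm_sub_le _ _).trans ?_
    rw [h5, h5]
    linarith
  calc ∑ n ∈ Finset.Icc 2 N, ‖∫ t in a..b, ((1 / Real.sqrt n : ℝ) : ℂ) *
        cexp (((-(Real.log n : ℂ)) * I) * (t : ℂ))‖
      ≤ ∑ n ∈ Finset.Icc 2 N, 3 * (1 / Real.sqrt n) := Finset.sum_le_sum h3
    _ ≤ ∑ n ∈ Finset.Icc 1 N, 3 * (1 / Real.sqrt n) := by
        apply Finset.sum_le_sum_of_subset_of_nonneg
        · intro n; simp only [Finset.mem_Icc]; omega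
        · intro n _ _; positivity
    _ = 3 * ∑ n ∈ Finset.Icc 1 N, 1 / Real.sqrt n := by rw [Finset.mul_sum]
    _ ≤ 3 * (2 * Real.sqrt N) := mul_le_mul_of_nonneg_left (sum_inv_sqrt N) (by norm_num)
    _ = 6 * Real.sqrt N := by ring

/-- lower bound for the moments -/
theorem low_p {p : ℝ} (hp : 1 ≤ p) {N : ℕ} (hN : 1 ≤ N) {a b : ℝ}
    (hab : 12 * Real.sqrt N ≤ b - a) : b - a ≤ 2 ^ p * ∫ t in a..b, ‖AA N t‖ ^ p := by
  have hp0 : 0 ≤ p := by linarith
  have hs0 : 0 ≤ Real.sqrt N := Real.sqrt_nonneg _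
  have hab' : a ≤ b := by linarith
  have h1 : (b - a) / 2 ≤ ∫ t in a..b, ‖AA N t‖ := by
    have h2 := mean_AA hN (a := a) (b := b)
    have h3 : ‖∫ t in a..b, AA N t‖ ≤ ∫ t in a..b, ‖AA N t‖ :=
      intervalIntegral.norm_integral_le_integral_norm hab'
    have h4 : ‖((b - a : ℝ) : ℂ)‖ = b - a := by
      rw [Complex.norm_real, Real.norm_eq_abs, abs_of_nonneg (by linarith)]
    have h5 := norm_sub_norm_le (((b - a : ℝ) : ℂ)) (∫ t in a..b, AA N t)
    rw [norm_sub_rev, h4] at h5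
    linarith
  have hpt : ∀ t, 1 + p * (2 * ‖AA N t‖ - 1) ≤ 2 ^ p * ‖AA N t‖ ^ p := by
    intro t
    rw [← Real.mul_rpow (by norm_num) (norm_nonneg _)]
    have := one_add_mul_self_le_rpow_one_add (s := 2 * ‖AA N t‖ - 1)
      (by linarith [norm_nonneg (AA N t)]) hp
    rwa [add_sub_cancel] at this
  have hc := (AA_cont N).norm
  have h6 : ∫ t in a..b, (1 + p * (2 * ‖AA N t‖ - 1)) ≤ ∫ t in a..b, 2 ^ p * ‖AA N t‖ ^ p :=
    intervalIntegral.integral_mono_on hab'
      ((by fun_prop : Continuous fun t => (1 + p * (2 * ‖AA N t‖ - 1))).intervalIntegrable _ _)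
      ((continuous_const.mul (normp_cont (AA_cont N) hp0)).intervalIntegrable _ _) fun t _ => hpt t
  have h7 : ∫ t in a..b, (1 + p * (2 * ‖AA N t‖ - 1)) =
      (1 - p) * (b - a) + 2 * p * ∫ t in a..b, ‖AA N t‖ := by
    have : ∀ t, (1 + p * (2 * ‖AA N t‖ - 1)) = (1 - p) + 2 * p * ‖AA N t‖ := fun t => by ring
    simp_rw [this]
    have hc2 : Continuous fun t => 2 * p * ‖AA N t‖ := by fun_prop
    rw [intervalIntegral.integral_add (continuous_const.intervalIntegrable _ _)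
      (hc2.intervalIntegrable _ _), intervalIntegral.integral_const,
      intervalIntegral.integral_const_mul, smul_eq_mul]
    ring
  rw [h7, intervalIntegral.integral_const_mul] at h6
  nlinarith

end Pool.Agent.H470
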