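import Pool.Graph.R_seed8.R313.CX.X
import Pool.Agent.H470.Fo

set_option autoImplicit false

/-! The Gaussian field: joint measurability and two point functions. -/

namespace Pool.Agent.H470

open MeasureTheory Filter Topology Set
open Pool.Agent.R313.CX

lemma mu_cont (k : ℝ) : Continuous (mu k) := by
  unfold mu
  refine Continuous.neg (Continuous.mul continuous_const ?_)
  refine Continuous.clog (by fun_prop) fun y => ?_
  left
  simp

lemma zp_cont : Continuous zp := by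
  unfold zp
  exact Continuous.div (by fun_prop) (by fun_prop) fun y => base_ne y

/-- a jointly measurable version of the field on the line -/
theorem gm_ex (k : ℝ) : ∃ gm : (ℕ → ℝ × ℝ) → ℝ → ℂ, Measurable (fun p : (ℕ → ℝ × ℝ) × ℝ => gm p.1 p.2) ∧
    ∀ᵐ ω ∂gp, (∀ y : ℝ, gm ω y = fld k ω (1 + (y:ℂ) * Complex.I)) ∧ Continuous (gm ω) := by
  have hgood := fld_good k
  obtain ⟨N, hNsub, hNm, hN0⟩ := exists_measurable_superset_of_null (ae_iff.mp hgood)
  classical
  refine ⟨fun ω y => if ω ∈ N then 0 else mu k y + fs ω (zp y), ?_, ?_⟩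
  · have hpart : ∀ m : ℕ, Measurable (fun p : (ℕ → ℝ × ℝ) × ℝ => if p.1 ∈ N then (0:ℂ) else mu k p.2 + ∑ j ∈ Finset.range m, ft p.1 (zp p.2) j) := by
      intro m
      refine Measurable.ite (measurable_fst hNm) measurable_const ?_
      refine Continuous.measurable ?_
      refine ((mu_cont k).comp continuous_snd).add (continuous_finsetSum _ fun j _ => ?_)
      unfold ft
      have h1 : Continuous fun p : (ℕ → ℝ × ℝ) × ℝ => zp p.2 ^ (j + 1) := (zp_cont.comp continuous_snd).pow _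
      have h2 : Continuous fun p : (ℕ → ℝ × ℝ) × ℝ => gs (p.1 j) := gs_cont.comp ((continuous_apply j).comp continuous_fst)
      exact (h1.mul h2).div_const _
    refine measurable_of_tendsto_metrizable hpart ?_
    rw [tendsto_pi_nhds]
    intro p
    by_cases hp : p.1 ∈ N
    · simp only [hp, if_true]
      exact tendsto_const_nhds
    · simp only [hp, if_false]
      refine tendsto_const_nhds.add ?_
      have hg : ∀ w : ℂ, 0 < w.re → Summable (fun m => ‖ft p.1 ((w - 1) / (w + 1)) m‖) ∧ DifferentiableAt ℂ (fld k p.1) w := by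
        by_contra hcon
        exact hp (hNsub hcon)
      have h1 := (hg (1 + (p.2:ℂ) * Complex.I) (by simp)).1
      rw [node_zp] at h1
      exact h1.of_norm.hasSum.tendsto_sum_nat
  · have hae : ∀ᵐ ω ∂gp, ω ∉ N := by
      rw [ae_iff]
      simpa using hN0
    filter_upwards [hae, hgood] with ω hω hg
    have e1 : ∀ y : ℝ, (if ω ∈ N then (0:ℂ) else mu k y + fs ω (zp y)) = fld k ω (1 + (y:ℂ) * Complex.I) := by
      intro y
      rw [if_neg hω, fld_node]
    refine ⟨e1, ?_⟩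
    have e2 : (fun y : ℝ => if ω ∈ N then (0:ℂ) else mu k y + fs ω (zp y)) = fun y : ℝ => fld k ω (1 + (y:ℂ) * Complex.I) := funext e1
    show Continuous (fun y : ℝ => if ω ∈ N then (0:ℂ) else mu k y + fs ω (zp y))
    rw [e2, continuous_iff_continuousAt]
    intro y
    have h1 := (hg (1 + (y:ℂ) * Complex.I) (by simp)).2.continuousAt
    exact ContinuousAt.comp (f := fun y : ℝ => (1 + (y:ℂ) * Complex.I)) h1 (by fun_prop)

/-- the field -/
noncomputable def gm (k : ℝ) : (ℕ → ℝ × ℝ) → ℝ → ℂ := (gm_ex k).choose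

lemma gm_meas (k : ℝ) : Measurable (fun p : (ℕ → ℝ × ℝ) × ℝ => gm k p.1 p.2) := (gm_ex k).choose_spec.1

lemma gm_ae (k : ℝ) : ∀ᵐ ω ∂gp, (∀ y : ℝ, gm k ω y = fld k ω (1 + (y:ℂ) * Complex.I)) ∧ Continuous (gm k ω) := (gm_ex k).choose_spec.2

lemma mu_conj_add (k y : ℝ) : mu k y + (starRingEnd ℂ) (mu k y) = ((-(k * vr y) : ℝ) : ℂ) := by
  rw [conj_mu, mu_eq, Complex.ofReal_neg, Complex.ofReal_mul, ← le1_add]
  ring

/-- real two point function -/
theorem law2 (k a b y1 y2 : ℝ) :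
    Integrable (fun ω => Real.exp (2 * a * (gm k ω y1).re + 2 * b * (gm k ω y2).re)) gp ∧
    ∫ ω, Real.exp (2 * a * (gm k ω y1).re + 2 * b * (gm k ω y2).re) ∂gp =
      Real.exp (-(k * (a * vr y1 + b * vr y2)) + a ^ 2 * vr y1 + b ^ 2 * vr y2 + a * b * (vr y1 + vr y2 - vr (y1 - y2))) := by
  have h := fv_law k (n := 2) ![y1, y2] ![(a:ℂ), (b:ℂ)] ![(a:ℂ), (b:ℂ)]
  have hexp := fv_exp k (n := 2) ![y1, y2] (2 * |a| + 2 * |b|)
  have e0 : ∀ᵐ ω ∂gp, Real.exp (2 * a * (gm k ω y1).re + 2 * b * (gm k ω y2).re) =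
      Real.exp (2 * a * (fv k ![y1, y2] ω 0).re + 2 * b * (fv k ![y1, y2] ω 1).re) := by
    filter_upwards [gm_ae k] with ω hω
    rw [hω.1 y1, hω.1 y2]
    rfl
  have hint : Integrable (fun ω => Real.exp (2 * a * (fv k ![y1, y2] ω 0).re + 2 * b * (fv k ![y1, y2] ω 1).re)) gp := by
    refine hexp.mono' ?_ (Eventually.of_forall fun ω => ?_)
    · exact (by fun_prop : Continuous fun z : Fin 2 → ℂ => Real.exp (2 * a * (z 0).re + 2 * b * (z 1).re)).comp_aestronglyMeasurable (fv_meas k _).aestronglyMeasurable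
    · rw [Real.norm_of_nonneg (Real.exp_pos _).le]
      refine Real.exp_le_exp.mpr ?_
      have h0 : |(fv k ![y1, y2] ω 0).re| ≤ ‖fv k ![y1, y2] ω‖ := (Complex.abs_re_le_norm _).trans (norm_le_pi_norm _ 0)
      have h1 : |(fv k ![y1, y2] ω 1).re| ≤ ‖fv k ![y1, y2] ω‖ := (Complex.abs_re_le_norm _).trans (norm_le_pi_norm _ 1)
      have h2 : a * (fv k ![y1, y2] ω 0).re ≤ |a| * ‖fv k ![y1, y2] ω‖ := by
        refine (le_abs_self _).trans ?_
        rw [abs_mul]
        exact mul_le_mul_of_nonneg_left h0 (abs_nonneg a)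
      have h3 : b * (fv k ![y1, y2] ω 1).re ≤ |b| * ‖fv k ![y1, y2] ω‖ := by
        refine (le_abs_self _).trans ?_
        rw [abs_mul]
        exact mul_le_mul_of_nonneg_left h1 (abs_nonneg b)
      linarith
  refine ⟨hint.congr (e0.mono fun ω h => h.symm), ?_⟩
  rw [integral_congr_ae e0]
  have e1 : ∀ ω, Complex.exp (∑ j, (![(a:ℂ), (b:ℂ)] j * fv k ![y1, y2] ω j + ![(a:ℂ), (b:ℂ)] j * (starRingEnd ℂ) (fv k ![y1, y2] ω j))) =
      ((Real.exp (2 * a * (fv k ![y1, y2] ω 0).re + 2 * b * (fv k ![y1, y2] ω 1).re) : ℝ) : ℂ) := by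
    intro ω
    rw [Fin.sum_univ_two, Complex.ofReal_exp]
    congr 1
    simp only [Matrix.cons_val_zero, Matrix.cons_val_one, Matrix.cons_val_fin_one]
    have h1 := Complex.add_conj (fv k ![y1, y2] ω 0)
    have h2 := Complex.add_conj (fv k ![y1, y2] ω 1)
    push_cast at h1 h2 ⊢
    linear_combination (a:ℂ) * h1 + (b:ℂ) * h2
  simp_rw [e1] at h
  rw [integral_complex_ofReal] at h
  have e2 : (∑ j, (![(a:ℂ), (b:ℂ)] j * mu k (![y1, y2] j) + ![(a:ℂ), (b:ℂ)] j * (starRingEnd ℂ) (mu k (![y1, y2] j))) +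
      ∑ i, ∑ j, ![(a:ℂ), (b:ℂ)] i * ![(a:ℂ), (b:ℂ)] j * Cv (![y1, y2] i) (![y1, y2] j)) =
      ((-(k * (a * vr y1 + b * vr y2)) + a ^ 2 * vr y1 + b ^ 2 * vr y2 + a * b * (vr y1 + vr y2 - vr (y1 - y2)) : ℝ) : ℂ) := by
    simp only [Fin.sum_univ_two, Matrix.cons_val_zero, Matrix.cons_val_one, Matrix.cons_val_fin_one]
    have h1 := mu_conj_add k y1
    have h2 := mu_conj_add k y2
    have h3 := le1_add y1
    have h4 := le1_add y2
    have h5 := le1_add (y1 - y2)
    rw [neg_sub] at h5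
    simp only [Cv_eq, sub_self, le1_zero]
    push_cast at h1 h2 ⊢
    linear_combination (a:ℂ) * h1 + (b:ℂ) * h2 + ((a:ℂ) ^ 2 + a * b) * h3 + ((b:ℂ) ^ 2 + a * b) * h4 - (a:ℂ) * b * h5
  rw [e2, ← Complex.ofReal_exp] at h
  exact_mod_cast h

/-- complex two point function -/
theorem lawx (k y1 y2 : ℝ) :
    ∫ ω, Complex.exp (gm k ω y1) * (starRingEnd ℂ) (Complex.exp (gm k ω y2)) ∂gp =
      Complex.exp (mu k y1 + (starRingEnd ℂ) (mu k y2) + Cv y1 y2) := by
  have h := fv_law k (n := 2) ![y1, y2] ![1, 0] ![0, 1]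
  simp only [Fin.sum_univ_two, Matrix.cons_val_zero, Matrix.cons_val_one, Matrix.cons_val_fin_one, one_mul, zero_mul, mul_zero, add_zero, zero_add, mul_one] at h
  rw [← h]
  refine integral_congr_ae ?_
  filter_upwards [gm_ae k] with ω hω
  rw [hω.1 y1, hω.1 y2, ← Complex.exp_conj, ← Complex.exp_add]
  rfl

theorem lawx_norm (k y1 y2 : ℝ) :
    ‖∫ ω, Complex.exp (gm k ω y1) * (starRingEnd ℂ) (Complex.exp (gm k ω y2)) ∂gp‖ =
      Real.exp ((1 - k) / 2 * (vr y1 + vr y2) - 1 / 2 * vr (y1 - y2)) := by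
  rw [lawx, Complex.norm_exp]
  congr 1
  have hre : ∀ y : ℝ, (le1 y).re = 1 / 2 * vr y := by
    intro y
    have h1 := congrArg Complex.re (le1_add y)
    have h2 : (le1 (-y)).re = (le1 y).re := by
      have h3 := conj_mu 1 y
      rw [mu_eq] at h3
      have h4 := congrArg Complex.re h3
      simp at h4
      linarith
    rw [Complex.add_re, h2, Complex.ofReal_re] at h1
    linarith
  have hvn : ∀ y : ℝ, vr (-y) = vr y := by
    intro y
    unfold vr
    congr 2
    ring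
  rw [Complex.add_re, Complex.add_re, Complex.conj_re, mu_eq, mu_eq, Cv_eq]
  simp only [Complex.neg_re, Complex.re_ofReal_mul, Complex.sub_re, Complex.add_re, hre, hvn]
  ring

/-- one point function -/
theorem law1 (k y : ℝ) : ∫ ω, Complex.exp (gm k ω y) ∂gp = Complex.exp (mu k y) := by
  have h := fv_law k (n := 1) ![y] ![1] ![0]
  simp only [Fin.sum_univ_one, Matrix.cons_val_fin_one, one_mul, zero_mul, mul_zero, add_zero] at h
  rw [← h]
  refine integral_congr_ae ?_
  filter_upwards [gm_ae k] with ω hω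
  rw [hω.1 y]
  rfl

end Pool.Agent.H470
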