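import Pool.Agent.H470.Mj
import Pool.Agent.H470.Bu

set_option autoImplicit false

/-! The average of the field against the narrow bump is small. -/

namespace Pool.Agent.H470

open MeasureTheory Filter Topology Set
open scoped ENNReal
open Pool.Agent.R313.CX

lemma ker_split {τ s η : ℝ} (hτ : 0 < τ) (hτ1 : τ ≤ 1) (hs : 1 < s) (hs2 : s ≤ 2) (hη : 0 < η) (hη1 : η ≤ 1) (u : ℝ) :
    (1 + (u / 2) ^ 2) ^ (-(τ / 2)) ≤ 4 * η ^ (τ - s) * (1 + (u / 2) ^ 2) ^ (-(s / 2)) + 2 * η ^ τ := by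
  have hX : 0 < 1 + (u / 2) ^ 2 := by positivity
  rcases le_or_gt |u| (1 / η) with h | h
  · have h1 : 1 + (u / 2) ^ 2 ≤ 5 / 4 * η ^ (-2 : ℝ) := by
      have h2 : u ^ 2 ≤ (1 / η) ^ 2 := by
        rw [← sq_abs u]
        exact pow_le_pow_left₀ (abs_nonneg u) h 2
      have h3 : η ^ (-2 : ℝ) = (1 / η) ^ 2 := by
        rw [Real.rpow_neg hη.le, one_div, inv_pow]
        norm_num
      rw [h3]
      have h4 : 1 ≤ (1 / η) ^ 2 := one_le_pow₀ (by rw [le_div_iff₀ hη]; linarith)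
      nlinarith
    have h2 : (1 + (u / 2) ^ 2) ^ (-(τ / 2)) = (1 + (u / 2) ^ 2) ^ (-(s / 2)) * (1 + (u / 2) ^ 2) ^ ((s - τ) / 2) := by
      rw [← Real.rpow_add hX]
      congr 1
      ring
    have h3 : (1 + (u / 2) ^ 2) ^ ((s - τ) / 2) ≤ 4 * η ^ (τ - s) := by
      refine (Real.rpow_le_rpow hX.le h1 (by linarith)).trans ?_
      rw [Real.mul_rpow (by norm_num) (by positivity), ← Real.rpow_mul hη.le]
      have e1 : -2 * ((s - τ) / 2) = τ - s := by ring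
      rw [e1]
      refine mul_le_mul_of_nonneg_right ?_ (by positivity)
      have h4 : (5 / 4 : ℝ) ^ ((s - τ) / 2) ≤ (5 / 4 : ℝ) ^ (1:ℝ) := Real.rpow_le_rpow_of_exponent_le (by norm_num) (by linarith)
      rw [Real.rpow_one] at h4
      linarith
    rw [h2]
    have h5 : 0 ≤ (1 + (u / 2) ^ 2) ^ (-(s / 2)) := by positivity
    have h6 : 0 ≤ 2 * η ^ τ := by positivity
    have h7 := mul_le_mul_of_nonneg_left h3 h5
    linarith
  · have h1 : (2 * η) ^ (-2 : ℝ) ≤ 1 + (u / 2) ^ 2 := by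
      have h2 : (1 / η) ^ 2 ≤ u ^ 2 := by
        rw [← sq_abs u]
        exact pow_le_pow_left₀ (by positivity) h.le 2
      have h3 : (2 * η) ^ (-2 : ℝ) = (1 / η) ^ 2 / 4 := by
        rw [Real.rpow_neg (by positivity)]
        have : (2 * η) ^ (2:ℝ) = (2 * η) ^ 2 := by norm_num
        rw [this]
        field_simp
        norm_num
      rw [h3]
      nlinarith
    have h2 : (1 + (u / 2) ^ 2) ^ (-(τ / 2)) ≤ ((2 * η) ^ (-2 : ℝ)) ^ (-(τ / 2)) :=
      Real.rpow_le_rpow_of_nonpos (by positivity) h1 (by linarith)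
    rw [← Real.rpow_mul (by positivity)] at h2
    have e1 : -2 * -(τ / 2) = τ := by ring
    rw [e1, Real.mul_rpow (by norm_num) hη.le] at h2
    have h3 : (2:ℝ) ^ τ ≤ 2 := by
      have h4 : (2 : ℝ) ^ τ ≤ (2 : ℝ) ^ (1:ℝ) := Real.rpow_le_rpow_of_exponent_le (by norm_num) hτ1
      rwa [Real.rpow_one] at h4
    have h5 : 0 ≤ 4 * η ^ (τ - s) * (1 + (u / 2) ^ 2) ^ (-(s / 2)) := by positivity
    have h6 := mul_le_mul_of_nonneg_right h3 (show 0 ≤ η ^ τ by positivity)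
    linarith

lemma int2 {g b : ℝ → ℝ≥0∞} (hg : Measurable g) (hb : Measurable b) :
    ∫⁻ z : ℝ × ℝ, g z.1 * b (z.1 - z.2) ∂(volume.prod volume) = (∫⁻ y, g y) * ∫⁻ u, b u := by
  have hm : Measurable (fun z : ℝ × ℝ => g z.1 * b (z.1 - z.2)) := (hg.comp measurable_fst).mul (hb.comp (measurable_fst.sub measurable_snd))
  rw [lintegral_prod _ hm.aemeasurable]
  have e1 : ∀ x : ℝ, ∫⁻ y, g x * b (x - y) = g x * ∫⁻ u, b u := by
    intro x
    have hbx : Measurable fun y : ℝ => b (x - y) := hb.comp (by fun_prop)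
    rw [lintegral_const_mul _ hbx]
    congr 1
    exact lintegral_sub_left_eq_self b x
  show ∫⁻ x, ∫⁻ y, g x * b (x - y) = _
  simp_rw [e1]
  rw [lintegral_mul_const _ hg]

lemma base_int {e : ℝ} (he : 1 < 2 * e) : Integrable (fun x : ℝ => (1 + x ^ 2) ^ (-e)) := by
  have h1 := integrable_rpow_neg_one_add_norm_sq (E := ℝ) (μ := volume) (r := 2 * e) (by simpa using he)
  refine h1.congr (Eventually.of_forall fun x => ?_)
  show (1 + ‖x‖ ^ 2) ^ (-(2 * e) / 2) = (1 + x ^ 2) ^ (-e)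
  rw [Real.norm_eq_abs, sq_abs]
  congr 1
  ring

lemma mass_g {κ : ℝ} (hκ : 0 < κ) : ∃ c : ℝ, 0 ≤ c ∧ ∀ η : ℝ, 0 < η → ∫⁻ y : ℝ, ENNReal.ofReal ((1 + η ^ 2 * y ^ 2) ^ (-((1 + κ) / 2))) = ENNReal.ofReal (c / η) := by
  refine ⟨∫ x : ℝ, (1 + x ^ 2) ^ (-((1 + κ) / 2)), integral_nonneg fun x => by positivity, fun η hη => ?_⟩
  have h1 := base_int (e := (1 + κ) / 2) (by linarith)
  have h2 := h1.comp_mul_left' hη.ne'
  have h3 := Measure.integral_comp_mul_left (fun x : ℝ => (1 + x ^ 2) ^ (-((1 + κ) / 2))) η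
  have e1 : ∀ y : ℝ, (1 + (η * y) ^ 2) ^ (-((1 + κ) / 2)) = (1 + η ^ 2 * y ^ 2) ^ (-((1 + κ) / 2)) := by
    intro y
    rw [mul_pow]
  simp only [e1] at h2 h3
  rw [← ofReal_integral_eq_lintegral_ofReal h2 (Eventually.of_forall fun x => by positivity), h3, smul_eq_mul, abs_of_pos (by positivity)]
  congr 1
  field_simp

lemma mass_b {s : ℝ} (hs : 1 < s) : ∃ c : ℝ, 0 ≤ c ∧ ∫⁻ u : ℝ, ENNReal.ofReal ((1 + (u / 2) ^ 2) ^ (-(s / 2))) = ENNReal.ofReal c := by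
  have h1 := base_int (e := s / 2) (by linarith)
  have h2 := h1.comp_div (R := 2) (by norm_num)
  exact ⟨∫ u : ℝ, (1 + (u / 2) ^ 2) ^ (-(s / 2)), integral_nonneg fun x => by positivity,
    (ofReal_integral_eq_lintegral_ofReal h2 (Eventually.of_forall fun x => by positivity)).symm⟩

/-- the quadratic form -/
theorem quad {κ τ s : ℝ} (hκ : 0 < κ) (hτ : 0 < τ) (hτ1 : τ ≤ 1) (hs : 1 < s) (hs2 : s ≤ 2) : ∃ C : ℝ, 0 ≤ C ∧
    ∀ (A η : ℝ) (g : ℝ → ℝ≥0∞) (r : ℝ × ℝ → ℝ≥0∞), 0 ≤ A → 0 < η → η ≤ 1 → Measurable g →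
      (∀ y, g y ≤ ENNReal.ofReal (A * η ^ κ * (1 + η ^ 2 * y ^ 2) ^ (-((1 + κ) / 2)))) →
      (∀ z, r z ≤ ENNReal.ofReal ((1 + ((z.1 - z.2) / 2) ^ 2) ^ (-(τ / 2)))) →
      ∫⁻ z, g z.1 * g z.2 * r z ∂(volume.prod volume) ≤ ENNReal.ofReal (C * A ^ 2 * η ^ (2 * κ - 1 + τ - s)) := by
  obtain ⟨c1, hc1, hm1⟩ := mass_g hκ
  obtain ⟨c2, hc2, hm2⟩ := mass_b hs
  refine ⟨4 * c1 * c2 + 2 * c1 ^ 2, by positivity, fun A η g r hA hη hη1 hgm hg hr => ?_⟩
  obtain ⟨b, hb⟩ : ∃ b : ℝ → ℝ≥0∞, b = fun u => ENNReal.ofReal ((1 + (u / 2) ^ 2) ^ (-(s / 2))) := ⟨_, rfl⟩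
  have hbm : Measurable b := by rw [hb]; fun_prop
  have hgs : ∀ y, g y ≤ ENNReal.ofReal (A * η ^ κ) := by
    intro y
    refine (hg y).trans (ENNReal.ofReal_le_ofReal ?_)
    have h1 : (1 + η ^ 2 * y ^ 2) ^ (-((1 + κ) / 2)) ≤ 1 := Real.rpow_le_one_of_one_le_of_nonpos (by nlinarith [sq_nonneg (η * y)]) (by linarith)
    exact mul_le_of_le_one_right (by positivity) h1
  have hgi : ∫⁻ y, g y ≤ ENNReal.ofReal (A * η ^ κ * (c1 / η)) := by
    refine (lintegral_mono hg).trans (le_of_eq ?_)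
    have e1 : ∀ y : ℝ, ENNReal.ofReal (A * η ^ κ * (1 + η ^ 2 * y ^ 2) ^ (-((1 + κ) / 2))) = ENNReal.ofReal (A * η ^ κ) * ENNReal.ofReal ((1 + η ^ 2 * y ^ 2) ^ (-((1 + κ) / 2))) :=
      fun y => ENNReal.ofReal_mul (by positivity)
    simp_rw [e1]
    rw [lintegral_const_mul _ (by fun_prop), hm1 η hη, ← ENNReal.ofReal_mul (by positivity)]
  have hpt : ∀ z : ℝ × ℝ, g z.1 * g z.2 * r z ≤ ENNReal.ofReal (4 * A * η ^ κ * η ^ (τ - s)) * (g z.1 * b (z.1 - z.2)) + ENNReal.ofReal (2 * η ^ τ) * (g z.1 * g z.2) := by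
    intro z
    have h1 : r z ≤ ENNReal.ofReal (4 * η ^ (τ - s)) * b (z.1 - z.2) + ENNReal.ofReal (2 * η ^ τ) := by
      refine (hr z).trans ?_
      refine (ENNReal.ofReal_le_ofReal (ker_split hτ hτ1 hs hs2 hη hη1 (z.1 - z.2))).trans (le_of_eq ?_)
      rw [hb, ENNReal.ofReal_add (by positivity) (by positivity), ENNReal.ofReal_mul (by positivity)]
    calc g z.1 * g z.2 * r z ≤ g z.1 * g z.2 * (ENNReal.ofReal (4 * η ^ (τ - s)) * b (z.1 - z.2) + ENNReal.ofReal (2 * η ^ τ)) := by gcongr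
      _ = g z.1 * g z.2 * (ENNReal.ofReal (4 * η ^ (τ - s)) * b (z.1 - z.2)) + ENNReal.ofReal (2 * η ^ τ) * (g z.1 * g z.2) := by ring
      _ ≤ g z.1 * ENNReal.ofReal (A * η ^ κ) * (ENNReal.ofReal (4 * η ^ (τ - s)) * b (z.1 - z.2)) + ENNReal.ofReal (2 * η ^ τ) * (g z.1 * g z.2) := by
          gcongr
          exact hgs z.2
      _ = _ := by
          have e1 : ENNReal.ofReal (4 * A * η ^ κ * η ^ (τ - s)) = ENNReal.ofReal (A * η ^ κ) * ENNReal.ofReal (4 * η ^ (τ - s)) := by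
            rw [← ENNReal.ofReal_mul (by positivity)]
            congr 1
            ring
          rw [e1]
          ring
  refine (lintegral_mono hpt).trans ?_
  have hm3 : Measurable (fun z : ℝ × ℝ => g z.1 * b (z.1 - z.2)) := (hgm.comp measurable_fst).mul (hbm.comp (measurable_fst.sub measurable_snd))
  have hm4 : Measurable (fun z : ℝ × ℝ => g z.1 * g z.2) := (hgm.comp measurable_fst).mul (hgm.comp measurable_snd)
  rw [lintegral_add_left (hm3.const_mul _), lintegral_const_mul _ hm3, lintegral_const_mul _ hm4, int2 hgm hbm, lintegral_prod_mul hgm.aemeasurable hgm.aemeasurable]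
  have e2 : ∫⁻ u, b u = ENNReal.ofReal c2 := by rw [hb]; exact hm2
  rw [e2]
  have hsum : ENNReal.ofReal (4 * A * η ^ κ * η ^ (τ - s)) * ((∫⁻ y, g y) * ENNReal.ofReal c2) + ENNReal.ofReal (2 * η ^ τ) * ((∫⁻ y, g y) * ∫⁻ y, g y) ≤
      ENNReal.ofReal (4 * A * η ^ κ * η ^ (τ - s)) * (ENNReal.ofReal (A * η ^ κ * (c1 / η)) * ENNReal.ofReal c2) +
        ENNReal.ofReal (2 * η ^ τ) * (ENNReal.ofReal (A * η ^ κ * (c1 / η)) * ENNReal.ofReal (A * η ^ κ * (c1 / η))) := by gcongr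
  refine hsum.trans ?_
  rw [← ENNReal.ofReal_mul (by positivity), ← ENNReal.ofReal_mul (by positivity), ← ENNReal.ofReal_mul (by positivity), ← ENNReal.ofReal_mul (by positivity),
    ← ENNReal.ofReal_add (by positivity) (by positivity)]
  refine ENNReal.ofReal_le_ofReal ?_
  have p1 : η ^ κ * η ^ (τ - s) * (η ^ κ * (1 / η)) = η ^ (2 * κ - 1 + τ - s) := by
    rw [one_div, ← Real.rpow_neg_one, ← Real.rpow_add hη, ← Real.rpow_add hη, ← Real.rpow_add hη]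
    congr 1
    ring
  have p2 : η ^ τ * (η ^ κ * (1 / η)) * (η ^ κ * (1 / η)) ≤ η ^ (2 * κ - 1 + τ - s) := by
    have e3 : η ^ τ * (η ^ κ * (1 / η)) * (η ^ κ * (1 / η)) = η ^ (2 * κ + τ - 2) := by
      rw [one_div, ← Real.rpow_neg_one, ← Real.rpow_add hη, ← Real.rpow_add hη, ← Real.rpow_add hη]
      congr 1
      ring
    rw [e3]
    exact Real.rpow_le_rpow_of_exponent_ge hη hη1 (by linarith)
  have e4 : 4 * A * η ^ κ * η ^ (τ - s) * (A * η ^ κ * (c1 / η) * c2) = 4 * c1 * c2 * A ^ 2 * (η ^ κ * η ^ (τ - s) * (η ^ κ * (1 / η))) := by ring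
  have e5 : 2 * η ^ τ * (A * η ^ κ * (c1 / η) * (A * η ^ κ * (c1 / η))) = 2 * c1 ^ 2 * A ^ 2 * (η ^ τ * (η ^ κ * (1 / η)) * (η ^ κ * (1 / η))) := by ring
  rw [e4, e5, p1]
  have := mul_le_mul_of_nonneg_left p2 (show 0 ≤ 2 * c1 ^ 2 * A ^ 2 by positivity)
  linarith

lemma exp_vr (a u : ℝ) : Real.exp (a * vr u) = (1 + (u / 2) ^ 2) ^ a := by
  unfold vr
  rw [Real.rpow_def_of_pos (by positivity), mul_comm]

lemma restrict_le {f : ℝ × ℝ → ℝ≥0∞} (Q : ℝ) :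
    ∫⁻ z, f z ∂((volume.restrict (Icc (-Q) Q)).prod (volume.restrict (Icc (-Q) Q))) ≤ ∫⁻ z, f z ∂(volume.prod volume) := by
  rw [Measure.prod_restrict]
  exact setLIntegral_le_lintegral _ _

lemma ofReal_tend {C A e : ℝ} (he : 0 < e) {k ε : ℝ} (hk : 0 < k) (hε : 0 < ε) :
    ∃ η0 : ℝ, 0 < η0 ∧ η0 ≤ 1 ∧ ∀ η : ℝ, 0 < η → η ≤ η0 → (ENNReal.ofReal (C * A ^ 2 * η ^ e)) ^ k ≤ ENNReal.ofReal ε := by
  have h1 : Tendsto (fun η : ℝ => (C * A ^ 2 * η ^ e)) (𝓝 0) (𝓝 (C * A ^ 2 * 0 ^ e)) :=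
    ((Real.continuousAt_rpow_const 0 e (Or.inr he.le)).tendsto).const_mul _
  rw [Real.zero_rpow he.ne', mul_zero] at h1
  have h2 : ∀ᶠ η : ℝ in 𝓝 0, C * A ^ 2 * η ^ e < ε ^ (1 / k) := h1.eventually (gt_mem_nhds (by positivity))
  obtain ⟨η0, hη0, hb⟩ := Metric.eventually_nhds_iff.mp h2
  refine ⟨min (η0 / 2) 1, by positivity, min_le_right _ _, fun η hη hη1 => ?_⟩
  have h3 := hb (y := η) (by
    rw [Real.dist_eq, sub_zero, abs_of_pos hη]
    have := hη1.trans (min_le_left _ _)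
    linarith)
  refine (ENNReal.rpow_le_rpow (ENNReal.ofReal_le_ofReal h3.le) hk.le).trans (le_of_eq ?_)
  rw [ENNReal.ofReal_rpow_of_nonneg (by positivity) hk.le, ← Real.rpow_mul hε.le, one_div_mul_cancel hk.ne', Real.rpow_one]

/-- the narrow average is small -/
theorem small_model {k : ℝ} (hk : 1 / 2 < k) {ε : ℝ} (hε : 0 < ε) : ∃ η0 : ℝ, 0 < η0 ∧ η0 ≤ 1 ∧ ∀ η : ℝ, 0 < η → η ≤ η0 → ∀ Q : ℝ,
    ∫⁻ ω, ‖xq k (be η) Q ω‖ₑ ^ (2 * k) ∂gp ≤ ENNReal.ofReal ε := by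
  have hk0 : 0 < k := by linarith
  obtain ⟨A, hA, hps⟩ := be_ps
  rcases le_or_gt 1 k with h | h
  · obtain ⟨C, hC, hq⟩ := quad (κ := 1) (τ := 1 / 2) (s := 5 / 4) one_pos (by norm_num) (by norm_num) (by norm_num) (by norm_num)
    obtain ⟨η0, hη0, hη01, hsm⟩ := ofReal_tend (C := C) (A := A) (e := 2 * 1 - 1 + 1 / 2 - 5 / 4) (by norm_num) hk0 hε
    refine ⟨η0, hη0, hη01, fun η hη hη1 Q => ?_⟩
    refine (model_hi h (be_Sm hη) Q).trans (le_trans ?_ (hsm η hη hη1))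
    refine ENNReal.rpow_le_rpow ((restrict_le Q).trans ?_) hk0.le
    refine hq A η (pe (be η)) (fun z => ENNReal.ofReal (Real.exp (-(k / 4 * vr (z.1 - z.2))))) hA.le hη (hη1.trans hη01) (pe_meas (be_Sm hη)) (fun y => ?_) (fun z => ?_)
    · unfold pe
      refine ENNReal.ofReal_le_ofReal ?_
      have h1 := hps η hη (hη1.trans hη01) y
      have h2 : 1 / (2 * Real.pi) ≤ 1 := by
        rw [div_le_one (by positivity)]
        linarith [Real.pi_gt_three]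
      have h3 : A * η ^ (1:ℝ) * (1 + η ^ 2 * y ^ 2) ^ (-((1 + 1) / 2 : ℝ)) = A * η / (1 + η ^ 2 * y ^ 2) := by
        rw [Real.rpow_one, show (-((1 + 1) / 2 : ℝ)) = -1 by norm_num, Real.rpow_neg_one, div_eq_mul_inv]
      rw [h3]
      exact le_trans (mul_le_of_le_one_left (norm_nonneg _) h2) h1
    · refine ENNReal.ofReal_le_ofReal ?_
      rw [← neg_mul, exp_vr]
      exact Real.rpow_le_rpow_of_exponent_le (by nlinarith [sq_nonneg ((z.1 - z.2) / 2)]) (by linarith)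
  · have hd : 0 < 2 * k - 1 := by linarith
    obtain ⟨C, hC, hq⟩ := quad (κ := k) (τ := 1) (s := 1 + (2 * k - 1) / 2) hk0 (by norm_num) le_rfl (by linarith) (by linarith)
    obtain ⟨η0, hη0, hη01, hsm⟩ := ofReal_tend (C := C) (A := A) (e := 2 * k - 1 + 1 - (1 + (2 * k - 1) / 2)) (by linarith) hk0 hε
    refine ⟨η0, hη0, hη01, fun η hη hη1 Q => ?_⟩
    have hηle : η ≤ 1 := hη1.trans hη01
    refine (model_lo hk0 h.le (be_Sm hη) Q).trans (le_trans ?_ (hsm η hη hη1))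
    refine ENNReal.rpow_le_rpow ((restrict_le Q).trans ?_) hk0.le
    have hpm := pe_meas (be_Sm hη)
    have hvc := vr_cont
    have h0 := hq A η (fun y => pe (be η) y * ENNReal.ofReal (Real.exp ((1 - k) / 2 * vr y))) (fun z => ENNReal.ofReal (Real.exp (-(1 / 2) * vr (z.1 - z.2)))) hA.le hη hηle
      (hpm.mul (by fun_prop)) (fun y => ?_) (fun z => ?_)
    · refine le_trans (le_of_eq (lintegral_congr fun z => ?_)) h0
      have e1 : ENNReal.ofReal (kap k z) = ENNReal.ofReal (Real.exp ((1 - k) / 2 * vr z.1)) * ENNReal.ofReal (Real.exp ((1 - k) / 2 * vr z.2)) * ENNReal.ofReal (Real.exp (-(1 / 2) * vr (z.1 - z.2))) := by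
        rw [← ENNReal.ofReal_mul (Real.exp_pos _).le, ← ENNReal.ofReal_mul (by positivity), ← Real.exp_add, ← Real.exp_add]
        unfold kap
        congr 2
        ring
      rw [e1]
      ring
    · unfold pe
      rw [← ENNReal.ofReal_mul (by positivity)]
      refine ENNReal.ofReal_le_ofReal ?_
      rw [exp_vr]
      have h1 := hps η hη hηle y
      have h2 : 1 / (2 * Real.pi) ≤ 1 := by
        rw [div_le_one (by positivity)]
        linarith [Real.pi_gt_three]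
      have h3 : 1 / (2 * Real.pi) * ‖ps (be η) y‖ ≤ A * η / (1 + η ^ 2 * y ^ 2) := le_trans (mul_le_of_le_one_left (norm_nonneg _) h2) h1
      have hpos : 0 < 1 + η ^ 2 * y ^ 2 := by positivity
      have h4 : (1 + (y / 2) ^ 2) ^ ((1 - k) / 2) ≤ η ^ (k - 1) * (1 + η ^ 2 * y ^ 2) ^ ((1 - k) / 2) := by
        have h5 : 1 + (y / 2) ^ 2 ≤ η ^ (-2:ℝ) * (1 + η ^ 2 * y ^ 2) := by
          have h6 : η ^ (-2 : ℝ) = 1 / η ^ 2 := by
            rw [Real.rpow_neg hη.le]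
            norm_num
          rw [h6, one_div_mul_eq_div, le_div_iff₀ (by positivity)]
          have h7 : η ^ 2 ≤ 1 := pow_le_one₀ hη.le hηle
          nlinarith [sq_nonneg y, mul_nonneg (sq_nonneg η) (sq_nonneg y)]
        refine (Real.rpow_le_rpow (by positivity) h5 (by linarith)).trans (le_of_eq ?_)
        rw [Real.mul_rpow (by positivity) hpos.le, ← Real.rpow_mul hη.le]
        congr 2
        ring
      have h5 : 0 ≤ (1 + (y / 2) ^ 2) ^ ((1 - k) / 2) := by positivity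
      calc 1 / (2 * Real.pi) * ‖ps (be η) y‖ * (1 + (y / 2) ^ 2) ^ ((1 - k) / 2) ≤ A * η / (1 + η ^ 2 * y ^ 2) * (η ^ (k - 1) * (1 + η ^ 2 * y ^ 2) ^ ((1 - k) / 2)) :=
            mul_le_mul h3 h4 h5 (by positivity)
        _ = A * η ^ k * (1 + η ^ 2 * y ^ 2) ^ (-((1 + k) / 2)) := by
            have e1 : η ^ k = η * η ^ (k - 1) := by
              rw [← Real.rpow_one_add' hη.le (by linarith)]
              congr 1
              ring
            have e2 : (1 + η ^ 2 * y ^ 2) ^ (-((1 + k) / 2)) = (1 + η ^ 2 * y ^ 2) ^ ((1 - k) / 2) / (1 + η ^ 2 * y ^ 2) := by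
              rw [← Real.rpow_sub_one hpos.ne']
              congr 1
              ring
            rw [e1, e2]
            ring
    · refine ENNReal.ofReal_le_ofReal ?_
      rw [exp_vr]

end Pool.Agent.H470
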