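import Pool.Graph.R_seed8.R313.CX.X
import Pool.Agent.H470.Fo

set_option autoImplicit false

/-! Moments of zeta near the critical line with shifts. -/

namespace Pool.Agent.H470

open MeasureTheory Filter Topology Set
open Pool.Agent.Y755 hiding gz
open Pool.Agent.Y753.NL
open Pool.Agent.Y753.SHR
open Pool.Agent.W184 (zn zn_nonneg zn_cont zn_le')
open Pool.Agent.R313.FN (gz)

lemma zn_neg (σ t : ℝ) : zn σ (-t) = zn σ t := by
  unfold zn
  have h1 : ((σ:ℂ) + ((-t : ℝ) : ℂ) * Complex.I) = (starRingEnd ℂ) ((σ:ℂ) + (t:ℂ) * Complex.I) := by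
    rw [map_add, map_mul, Complex.conj_I, Complex.conj_ofReal, Complex.conj_ofReal]
    push_cast
    ring
  rw [h1, riemannZeta_conj, Complex.norm_conj]

lemma gz_zn (δ t y : ℝ) : ‖gz δ t (1 + (y:ℂ) * Complex.I)‖ = zn (1 / 2 + δ) (t + δ * y) := by
  unfold gz zn
  congr 2
  push_cast
  ring

/-- the mass on a symmetric interval -/
theorem nl_mass {β : ℝ} (hβ : 0 < β) (hβ4 : β ≤ 4) : ∃ lam C T0 δ1 : ℝ, 0 < lam ∧ 0 < C ∧ 3 ≤ T0 ∧ 0 < δ1 ∧ δ1 ≤ 1 / 16 ∧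
    ∀ T : ℝ, T0 ≤ T → ∀ δ : ℝ, lam / Real.log T ≤ δ → δ ≤ δ1 →
      ∫ t in (-T)..T, zn (1 / 2 + δ) t ^ β ≤ C * T * δ ^ (-((β / 2) ^ 2)) := by
  have hs0 : 0 < β / 2 := by positivity
  obtain ⟨lam, hlam, hup⟩ := up_full hs0 (by linarith) (ε := 1) one_pos
  obtain ⟨δ0, C0, hδ0, hC0, hDD⟩ := DD_up hs0
  obtain ⟨T0, hT0⟩ := eventually_atTop.mp (hup 0)
  refine ⟨lam, 4 * C0, max T0 3, min δ0 (1 / 16), by linarith, by positivity, le_max_right _ _, by positivity, min_le_right _ _, fun T hT δ h1 h2 => ?_⟩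
  have hT3 : 3 ≤ T := (le_max_right _ _).trans hT
  have hTpos : 0 < T := by linarith
  have hlog : 0 < Real.log T := Real.log_pos (by linarith)
  have hδ : 0 < δ := lt_of_lt_of_le (by positivity) h1
  have h3 := hT0 T ((le_max_left _ _).trans hT) δ h1 (h2.trans (min_le_right _ _))
  have h4 := hDD δ hδ (h2.trans (min_le_left _ _))
  have e1 : 2 * (β / 2) = β := by ring
  rw [e1, mom_eq β _ 0 hTpos, add_zero] at h3
  have hc : Continuous fun t => zn (1 / 2 + δ) t ^ β :=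
    (zn_cont (by have := h2.trans (min_le_right _ _); linarith)).rpow_const fun t => Or.inr hβ.le
  have h5 : ∫ t in (-T)..T, zn (1 / 2 + δ) t ^ β = 2 * ∫ t in (0:ℝ)..T, zn (1 / 2 + δ) t ^ β := by
    rw [← intervalIntegral.integral_add_adjacent_intervals (hc.intervalIntegrable (-T) 0) (hc.intervalIntegrable 0 T)]
    have h6 : ∫ t in (-T)..0, zn (1 / 2 + δ) t ^ β = ∫ t in (0:ℝ)..T, zn (1 / 2 + δ) t ^ β := by
      have h7 := intervalIntegral.integral_comp_neg (a := 0) (b := T) (fun t => zn (1 / 2 + δ) t ^ β)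
      rw [neg_zero] at h7
      rw [← h7]
      refine intervalIntegral.integral_congr fun t _ => ?_
      show zn (1 / 2 + δ) (-t) ^ β = _
      rw [zn_neg]
    rw [h6]
    ring
  rw [h5]
  rw [inv_mul_eq_div, div_le_iff₀ hTpos] at h3
  have h8 : (1 + 1) * DD (β / 2) δ * T ≤ (1 + 1) * (C0 * δ ^ (-((β / 2) ^ 2))) * T := by gcongr
  linarith

/-- the mass with a shift -/
theorem nl_shift {β : ℝ} (hβ : 0 < β) (hβ4 : β ≤ 4) : ∃ lam C T0 δ1 : ℝ, 0 < lam ∧ 0 < C ∧ 3 ≤ T0 ∧ 0 < δ1 ∧ δ1 ≤ 1 / 16 ∧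
    ∀ T : ℝ, T0 ≤ T → ∀ δ : ℝ, lam / Real.log T ≤ δ → δ ≤ δ1 → ∀ y : ℝ,
      ∫ t in (0:ℝ)..T, ‖gz δ t (1 + (y:ℂ) * Complex.I)‖ ^ β ≤ C * T * δ ^ (-((β / 2) ^ 2)) * (1 + |y|) ^ 4 := by
  obtain ⟨lam, C, T0, δ1, hlam, hC, hT0, hδ1, hδ16, h⟩ := nl_mass hβ hβ4
  refine ⟨lam, 2 * C + 24 ^ 4, T0, δ1, hlam, by positivity, hT0, hδ1, hδ16, fun T hT δ h1 h2 y => ?_⟩
  have hT3 : 3 ≤ T := hT0.trans hT
  have hTpos : 0 < T := by linarith
  have hlog : 0 < Real.log T := Real.log_pos (by linarith)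
  have hδ : 0 < δ := lt_of_lt_of_le (by positivity) h1
  have hδ' : δ ≤ 1 / 16 := h2.trans hδ16
  have hpow : 1 ≤ δ ^ (-((β / 2) ^ 2)) := by
    rw [Real.rpow_neg hδ.le]
    exact (one_le_inv₀ (by positivity)).mpr (Real.rpow_le_one hδ.le (by linarith) (sq_nonneg _))
  have hy1 : 1 ≤ (1 + |y|) ^ 4 := one_le_pow₀ (by linarith [abs_nonneg y])
  have hc : Continuous fun t => zn (1 / 2 + δ) t ^ β :=
    (zn_cont (by linarith)).rpow_const fun t => Or.inr hβ.le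
  simp_rw [gz_zn]
  rw [intervalIntegral.integral_comp_add_right (fun t => zn (1 / 2 + δ) t ^ β)]
  rcases le_or_gt |δ * y| T with hcase | hcase
  · have h3 := h (2 * T) (by linarith) δ (by
      refine le_trans ?_ h1
      gcongr
      linarith) h2
    have h4 := abs_le.mp hcase
    have h5 : ∫ t in (0 + δ * y)..(T + δ * y), zn (1 / 2 + δ) t ^ β ≤ ∫ t in (-(2 * T))..(2 * T), zn (1 / 2 + δ) t ^ β :=
      intervalIntegral.integral_mono_interval (by linarith) (by linarith) (by linarith)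
        (Eventually.of_forall fun t => Real.rpow_nonneg (zn_nonneg _ _) _) (hc.intervalIntegrable _ _)
    refine (h5.trans h3).trans ?_
    have h6 : 0 ≤ T * δ ^ (-((β / 2) ^ 2)) := by positivity
    nlinarith [mul_nonneg h6 (show (0:ℝ) ≤ (1 + |y|) ^ 4 - 1 by linarith), mul_nonneg hC.le (mul_nonneg h6 (show (0:ℝ) ≤ (1 + |y|) ^ 4 - 1 by linarith)),
      mul_nonneg (show (0:ℝ) ≤ 24 ^ 4 by norm_num) (mul_nonneg h6 (show (0:ℝ) ≤ (1 + |y|) ^ 4 by linarith))]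
  · have hδy : |δ * y| ≤ |y| := by
      rw [abs_mul, abs_of_pos hδ]
      nlinarith [abs_nonneg y]
    have h3 : ∀ t ∈ Set.uIoc (0 + δ * y) (T + δ * y), ‖zn (1 / 2 + δ) t ^ β‖ ≤ 24 ^ 4 * (1 + |y|) ^ 4 := by
      intro t ht
      rw [Set.uIoc_of_le (by linarith)] at ht
      rw [Real.norm_of_nonneg (Real.rpow_nonneg (zn_nonneg _ _) _)]
      have hz := zn_le' (σ := 1 / 2 + δ) (t := t) (by linarith) (by linarith)
      have ht2 : |t| ≤ 2 * |y| := by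
        have h5 := le_abs_self (δ * y)
        have h6 := neg_abs_le (δ * y)
        rw [abs_le]
        constructor
        · linarith [ht.1, abs_nonneg y]
        · linarith [ht.2]
      have h4 : zn (1 / 2 + δ) t ≤ 24 * (1 + |y|) := by linarith
      have h5 : (1:ℝ) ≤ 24 * (1 + |y|) := by linarith [abs_nonneg y]
      calc zn (1 / 2 + δ) t ^ β ≤ (24 * (1 + |y|)) ^ β := Real.rpow_le_rpow (zn_nonneg _ _) h4 hβ.le
        _ ≤ (24 * (1 + |y|)) ^ (4:ℝ) := Real.rpow_le_rpow_of_exponent_le h5 hβ4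
        _ = 24 ^ 4 * (1 + |y|) ^ 4 := by
          rw [show (4:ℝ) = ((4:ℕ):ℝ) by norm_num, Real.rpow_natCast, mul_pow]
    have h4 := intervalIntegral.norm_integral_le_of_norm_le_const h3
    have h5 : |T + δ * y - (0 + δ * y)| = T := by
      rw [show T + δ * y - (0 + δ * y) = T by ring, abs_of_pos hTpos]
    rw [h5] at h4
    refine (le_abs_self _).trans (h4.trans ?_)
    have h6 : 0 ≤ T * (1 + |y|) ^ 4 := by positivity
    nlinarith [mul_nonneg h6 (show (0:ℝ) ≤ δ ^ (-((β / 2) ^ 2)) - 1 by linarith), mul_nonneg hC.le (mul_nonneg h6 (show (0:ℝ) ≤ δ ^ (-((β / 2) ^ 2)) by linarith))]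

end Pool.Agent.H470
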