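import Pool.Agent.H470.Tl

set_option autoImplicit false

/-! Normalised norms and the limit theorem for smoothed partial sums. -/

namespace Pool.Agent.H470

open MeasureTheory Filter Topology Set
open scoped ENNReal
open Pool.Agent.R313.CX
open Pool.Agent.R313.FN (gz)
open Pool.Agent.H306R2 (aF aF_pos)

/-- the normalised mass -/
noncomputable def ms' (β δ T : ℝ) (F : ℝ → ℂ) : ℝ := (2 * δ) ^ ((β / 2) ^ 2) / T * ∫ t in Icc 0 T, ‖F t‖ ^ β

/-- the normalised norm -/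
noncomputable def nm (β δ T : ℝ) (F : ℝ → ℂ) : ℝ := ms' β δ T F ^ (1 / β)

lemma ms_nonneg {β δ T : ℝ} (hδ : 0 ≤ δ) (hT : 0 ≤ T) (F : ℝ → ℂ) : 0 ≤ ms' β δ T F := by
  unfold ms'
  have : 0 ≤ ∫ t in Icc 0 T, ‖F t‖ ^ β := integral_nonneg fun t => by positivity
  positivity

lemma nm_nonneg {β δ T : ℝ} (hδ : 0 ≤ δ) (hT : 0 ≤ T) (F : ℝ → ℂ) : 0 ≤ nm β δ T F := Real.rpow_nonneg (ms_nonneg hδ hT F) _

lemma rn_eq {β T : ℝ} (hβ : 0 < β) {F : ℝ → ℂ} (hF : Continuous F) :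
    eLpNorm' F β (volume.restrict (Icc 0 T)) = ENNReal.ofReal ((∫ t in Icc 0 T, ‖F t‖ ^ β) ^ (1 / β)) := by
  have hc : Continuous fun t : ℝ => ‖F t‖ ^ β := hF.norm.rpow_const fun _ => Or.inr hβ.le
  rw [eLpNorm'_eq_lintegral_enorm, ← ENNReal.ofReal_rpow_of_nonneg (integral_nonneg fun t => by positivity) (by positivity),
    ofReal_integral_eq_lintegral_ofReal (hc.continuousOn.integrableOn_compact isCompact_Icc) (Eventually.of_forall fun t => by positivity)]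
  congr 1
  refine lintegral_congr fun t => ?_
  rw [← ofReal_norm, ENNReal.ofReal_rpow_of_nonneg (norm_nonneg _) hβ.le]

lemma rn_add {β T : ℝ} (hβ : 1 ≤ β) {F G : ℝ → ℂ} (hF : Continuous F) (hG : Continuous G) :
    (∫ t in Icc 0 T, ‖F t + G t‖ ^ β) ^ (1 / β) ≤ (∫ t in Icc 0 T, ‖F t‖ ^ β) ^ (1 / β) + (∫ t in Icc 0 T, ‖G t‖ ^ β) ^ (1 / β) := by
  have hβ0 : 0 < β := by linarith
  have h1 := eLpNorm'_add_le (μ := volume.restrict (Icc 0 T)) (f := F) (g := G) hF.aestronglyMeasurable hG.aestronglyMeasurable hβ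
  have e1 : F + G = fun t => F t + G t := rfl
  rw [e1, rn_eq (F := fun t => F t + G t) hβ0 (hF.add hG), rn_eq hβ0 hF, rn_eq hβ0 hG, ← ENNReal.ofReal_add (Real.rpow_nonneg (integral_nonneg fun t => by positivity) _) (Real.rpow_nonneg (integral_nonneg fun t => by positivity) _)] at h1
  exact (ENNReal.ofReal_le_ofReal_iff (add_nonneg (Real.rpow_nonneg (integral_nonneg fun t => by positivity) _) (Real.rpow_nonneg (integral_nonneg fun t => by positivity) _))).mp h1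

lemma nm_eq {β δ T : ℝ} (hδ : 0 ≤ δ) (hT : 0 ≤ T) (F : ℝ → ℂ) :
    nm β δ T F = ((2 * δ) ^ ((β / 2) ^ 2) / T) ^ (1 / β) * (∫ t in Icc 0 T, ‖F t‖ ^ β) ^ (1 / β) := by
  unfold nm ms'
  rw [Real.mul_rpow (by positivity) (integral_nonneg fun t => by positivity)]

lemma nm_add {β δ T : ℝ} (hβ : 1 ≤ β) (hδ : 0 ≤ δ) (hT : 0 ≤ T) {F G : ℝ → ℂ} (hF : Continuous F) (hG : Continuous G) :
    nm β δ T (fun t => F t + G t) ≤ nm β δ T F + nm β δ T G := by
  rw [nm_eq hδ hT, nm_eq hδ hT, nm_eq hδ hT, ← mul_add]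
  exact mul_le_mul_of_nonneg_left (rn_add hβ hF hG) (by positivity)

lemma nm_neg {β δ T : ℝ} (F : ℝ → ℂ) : nm β δ T (fun t => -F t) = nm β δ T F := by
  unfold nm ms'
  simp_rw [norm_neg]

lemma nm_sub {β δ T : ℝ} (hβ : 1 ≤ β) (hδ : 0 ≤ δ) (hT : 0 ≤ T) {F G : ℝ → ℂ} (hF : Continuous F) (hG : Continuous G) :
    |nm β δ T F - nm β δ T G| ≤ nm β δ T (fun t => F t - G t) := by
  have h1 := nm_add (F := fun t => F t - G t) (G := G) hβ hδ hT (hF.sub hG) hG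
  have h2 := nm_add (F := fun t => G t - F t) (G := F) hβ hδ hT (hG.sub hF) hF
  simp only [sub_add_cancel] at h1 h2
  have h3 : nm β δ T (fun t => G t - F t) = nm β δ T (fun t => F t - G t) := by
    rw [← nm_neg (fun t => F t - G t)]
    simp only [neg_sub]
  rw [h3] at h2
  rw [abs_le]
  constructor <;> linarith

lemma nm_le_of {β δ T : ℝ} (hβ : 0 < β) (hδ : 0 ≤ δ) (hT : 0 ≤ T) {F : ℝ → ℂ} {M : ℝ} (hM : 0 ≤ M) (h : ms' β δ T F ≤ M ^ β) : nm β δ T F ≤ M := by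
  unfold nm
  refine (Real.rpow_le_rpow (ms_nonneg hδ hT F) h (by positivity)).trans (le_of_eq ?_)
  rw [← Real.rpow_mul hM, mul_one_div_cancel hβ.ne', Real.rpow_one]

lemma sf_cont (φ : ℝ → ℝ) (δ : ℝ) (X : ℕ) : Continuous (sf φ δ X) := by
  unfold sf
  refine continuous_finsetSum _ fun n hn => continuous_const.mul ?_
  rw [Finset.mem_Icc] at hn
  refine Continuous.const_cpow (by fun_prop) (Or.inl ?_)
  exact_mod_cast (by omega : n ≠ 0)

lemma sf_norm {φ : ℝ → ℝ} {M : ℝ} (hM : ∀ x, |φ x| ≤ M) (δ : ℝ) (X : ℕ) (t : ℝ) : ‖sf φ δ X t‖ ≤ M * (2 * Real.sqrt X) := by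
  have hM0 : 0 ≤ M := (abs_nonneg _).trans (hM 0)
  unfold sf
  refine (norm_sum_le _ _).trans ?_
  refine le_trans ?_ (mul_le_mul_of_nonneg_left (sum_inv_sqrt X) hM0)
  rw [Finset.mul_sum]
  refine Finset.sum_le_sum fun n hn => ?_
  rw [norm_mul, term_eq (Finset.mem_Icc.1 hn).1, norm_mul, Complex.norm_exp_ofReal_mul_I, mul_one, Complex.norm_real, Complex.norm_real,
    Real.norm_eq_abs, Real.norm_of_nonneg (by positivity)]
  exact mul_le_mul_of_nonneg_right (hM _) (by positivity)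

/-- the approximation in mean -/
theorem sf_ia_mean {β : ℝ} (hβ : 1 ≤ β) (hβ4 : β ≤ 4) {φ : ℝ → ℝ} (h : Sm φ) {B : ℝ} (hB : ∀ x, B ≤ x → φ x = 0)
    {δ : ℝ → ℝ} (hδ : Tendsto δ atTop (𝓝 0)) (hδL : Tendsto (fun T : ℝ => δ T * Real.log T) atTop atTop)
    {X : ℝ → ℕ} (hX : ∀ᶠ T in atTop, Real.exp (B / δ T) ≤ X T) :
    Tendsto (fun T : ℝ => ms' β (δ T) T (fun t => sf φ (δ T) (X T) t - ia φ (δ T) t)) atTop (𝓝 0) := by
  have hβ0 : 0 < β := by linarith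
  obtain ⟨lam, C, T0, δ1, hlam, hC, hT0, hδ1, hδ16, haS⟩ := aS_bd hβ hβ4
  obtain ⟨C2, hC2, hpt⟩ := sf_ia h
  obtain ⟨M, hM⟩ := h.cont.bounded_above_of_compact_support h.2
  have hM' : ∀ x, |φ x| ≤ M := hM
  have hM0 : 0 ≤ M := (abs_nonneg _).trans (hM' 0)
  have hpos : ∀ᶠ T in atTop, 0 < δ T := by
    filter_upwards [hδL.eventually_gt_atTop 0, eventually_gt_atTop 1] with T hT hT1
    exact (pos_iff_pos_of_mul_pos hT).mpr (Real.log_pos hT1)
  -- the bound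
  have hbd : ∀ᶠ T in atTop, ms' β (δ T) T (fun t => sf φ (δ T) (X T) t - ia φ (δ T) t) ≤
      2 ^ β * (4 * M) ^ β * T ^ (-(1 / 4 : ℝ)) + 2 ^ β * (C * ws φ univ ^ β) * T ^ (-(1 / 2 : ℝ)) + C2 ^ β * (2 * δ T) ^ ((β / 2) ^ 2) := by
    filter_upwards [hpos, hX, hδ.eventually (gt_mem_nhds hδ1), hδL.eventually_ge_atTop (8 * B), hδL.eventually_ge_atTop (2 * lam), eventually_ge_atTop 16,
      (eventually_ge_atTop (T0 ^ 2))] with T h1 h2 h3 h4 h5 h6 h7
    have hTpos : 0 < T := by linarith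
    have hlog : 0 < Real.log T := Real.log_pos (by linarith)
    have hδ' : δ T ≤ 1 / 16 := h3.le.trans hδ16
    have hT1 : 1 ≤ T := by linarith
    obtain ⟨U, hU⟩ : ∃ U : ℝ, U = Real.sqrt T := ⟨_, rfl⟩
    have hUU : U ^ 2 = T := by rw [hU]; exact Real.sq_sqrt hTpos.le
    have hU0 : 0 < U := by rw [hU]; exact Real.sqrt_pos.mpr hTpos
    have hU1 : 1 ≤ U := by rw [hU, Real.one_le_sqrt]; exact hT1
    have hUT : U ≤ T := by nlinarith
    have hUT0 : T0 ≤ U := by rw [hU]; exact Real.le_sqrt_of_sq_le h7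
    have hUlog : Real.log U = Real.log T / 2 := by rw [hU, Real.log_sqrt hTpos.le]
    have hlamU : lam / Real.log U ≤ δ T := by
      rw [hUlog, div_le_iff₀ (by positivity)]
      linarith
    have hexp : Real.exp (B / δ T) ≤ T ^ (1 / 8 : ℝ) := by
      rw [Real.rpow_def_of_pos hTpos]
      refine Real.exp_le_exp.mpr ?_
      rw [div_le_iff₀ h1]
      linarith
    have hT8 : T ^ (1 / 8 : ℝ) ≤ T := by
      have := Real.rpow_le_rpow_of_exponent_le hT1 (show (1 / 8 : ℝ) ≤ 1 by norm_num)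
      rwa [Real.rpow_one] at this
    have hsfc := sf_cont φ (δ T) (X T)
    have hiac : Continuous (ia φ (δ T)) := by
      have := aS_cont h h1 hδ' univ
      rwa [show aS φ univ (δ T) = ia φ (δ T) from funext (aS_univ φ (δ T))] at this
    have hFc : Continuous fun t => ‖sf φ (δ T) (X T) t - ia φ (δ T) t‖ ^ β := (hsfc.sub hiac).norm.rpow_const fun _ => Or.inr hβ0.le
    have hsplit : ∫ t in Icc 0 T, ‖sf φ (δ T) (X T) t - ia φ (δ T) t‖ ^ β =
        (∫ t in (0:ℝ)..U, ‖sf φ (δ T) (X T) t - ia φ (δ T) t‖ ^ β) + ∫ t in U..T, ‖sf φ (δ T) (X T) t - ia φ (δ T) t‖ ^ β := by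
      rw [integral_Icc_eq_integral_Ioc, ← intervalIntegral.integral_of_le hTpos.le,
        intervalIntegral.integral_add_adjacent_intervals (hFc.intervalIntegrable _ _) (hFc.intervalIntegrable _ _)]
    -- high range
    have hhigh : ∫ t in U..T, ‖sf φ (δ T) (X T) t - ia φ (δ T) t‖ ^ β ≤ C2 ^ β * T := by
      have h8 : ∀ t ∈ Set.uIoc U T, ‖‖sf φ (δ T) (X T) t - ia φ (δ T) t‖ ^ β‖ ≤ C2 ^ β := by
        intro t ht
        rw [Set.uIoc_of_le hUT] at ht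
        rw [Real.norm_of_nonneg (by positivity)]
        refine Real.rpow_le_rpow (norm_nonneg _) (hpt B (δ T) h1 hδ' hB (X T) t h2 (by linarith [ht.1]) ?_) hβ0.le
        refine hexp.trans (hT8.trans ?_)
        rw [← hUU]
        exact pow_le_pow_left₀ hU0.le ht.1.le 2
      have h9 := intervalIntegral.norm_integral_le_of_norm_le_const h8
      refine (le_abs_self _).trans (h9.trans ?_)
      have h10 : |T - U| ≤ T := by rw [abs_of_nonneg (by linarith)]; linarith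
      exact mul_le_mul_of_nonneg_left h10 (by positivity)
    -- low range
    have hX0 : ∀ t, ‖sf φ (δ T) (X T) t‖ ≤ 4 * M * T ^ (1 / 16 : ℝ) := by
      intro t
      have e1 : sf φ (δ T) (X T) t = sf φ (δ T) ⌈Real.exp (B / δ T)⌉₊ t := by
        refine sf_len h1 hB (Nat.le_ceil _) ?_ t
        exact Nat.ceil_le.mpr h2
      rw [e1]
      refine (sf_norm hM' _ _ t).trans ?_
      have h8 : (⌈Real.exp (B / δ T)⌉₊ : ℝ) ≤ 4 * T ^ (1 / 8 : ℝ) := by
        have h9 := Nat.ceil_lt_add_one (Real.exp_pos (B / δ T)).le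
        have h10 : 1 ≤ T ^ (1 / 8 : ℝ) := Real.one_le_rpow hT1 (by norm_num)
        linarith
      have h9 : Real.sqrt (⌈Real.exp (B / δ T)⌉₊ : ℝ) ≤ 2 * T ^ (1 / 16 : ℝ) := by
        rw [Real.sqrt_le_left (by positivity)]
        refine h8.trans (le_of_eq ?_)
        rw [mul_pow, ← Real.rpow_natCast (T ^ (1 / 16 : ℝ)), ← Real.rpow_mul hTpos.le]
        norm_num
      have := mul_le_mul_of_nonneg_left h9 hM0
      linarith
    have hlow : ∫ t in (0:ℝ)..U, ‖sf φ (δ T) (X T) t - ia φ (δ T) t‖ ^ β ≤ 2 ^ β * ((4 * M * T ^ (1 / 16 : ℝ)) ^ β * U + ∫ t in Icc 0 U, ‖aS φ univ (δ T) t‖ ^ β) := by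
      have hic : Continuous fun t => ‖aS φ univ (δ T) t‖ ^ β := (aS_cont h h1 hδ' univ).norm.rpow_const fun _ => Or.inr hβ0.le
      have h8 : ∫ t in (0:ℝ)..U, ‖sf φ (δ T) (X T) t - ia φ (δ T) t‖ ^ β ≤ ∫ t in (0:ℝ)..U, 2 ^ β * ((4 * M * T ^ (1 / 16 : ℝ)) ^ β + ‖aS φ univ (δ T) t‖ ^ β) := by
        refine intervalIntegral.integral_mono_on hU0.le (hFc.intervalIntegrable _ _) ((continuous_const.mul (continuous_const.add hic)).intervalIntegrable _ _) fun t _ => ?_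
        rw [aS_univ]
        refine (Real.rpow_le_rpow (norm_nonneg _) (norm_sub_le _ _) hβ0.le).trans ?_
        refine (add_rpow2 (norm_nonneg _) (norm_nonneg _) hβ0.le).trans ?_
        refine mul_le_mul_of_nonneg_left (add_le_add ?_ le_rfl) (by positivity)
        exact Real.rpow_le_rpow (norm_nonneg _) (hX0 t) hβ0.le
      refine h8.trans (le_of_eq ?_)
      rw [intervalIntegral.integral_const_mul, intervalIntegral.integral_add (continuous_const.intervalIntegrable _ _) (hic.intervalIntegrable _ _),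
        intervalIntegral.integral_const, sub_zero, smul_eq_mul, integral_Icc_eq_integral_Ioc, ← intervalIntegral.integral_of_le hU0.le, mul_comm U]
    have hia := haS U hUT0 (δ T) hlamU h3.le φ h univ
    have hp1 : (2 * δ T) ^ ((β / 2) ^ 2) ≤ 1 := Real.rpow_le_one (by positivity) (by linarith) (sq_nonneg _)
    have hp0 : 0 ≤ (2 * δ T) ^ ((β / 2) ^ 2) := by positivity
    unfold ms'
    rw [hsplit]
    have hU2 : U / T = T ^ (-(1 / 2 : ℝ)) := by
      rw [hU, Real.sqrt_eq_rpow, Real.rpow_neg hTpos.le]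
      rw [div_eq_iff hTpos.ne', inv_mul_eq_div, eq_div_iff (by positivity), ← Real.rpow_add hTpos]
      norm_num
    have t1 : (2 * δ T) ^ ((β / 2) ^ 2) / T * (2 ^ β * ((4 * M * T ^ (1 / 16 : ℝ)) ^ β * U)) ≤ 2 ^ β * (4 * M) ^ β * T ^ (-(1 / 4 : ℝ)) := by
      have e1 : (2 * δ T) ^ ((β / 2) ^ 2) / T * (2 ^ β * ((4 * M * T ^ (1 / 16 : ℝ)) ^ β * U)) =
          (2 * δ T) ^ ((β / 2) ^ 2) * (2 ^ β * (4 * M) ^ β * (T ^ (β / 16) * (U / T))) := by
        rw [Real.mul_rpow (show 0 ≤ 4 * M by positivity) (show 0 ≤ T ^ (1 / 16 : ℝ) by positivity), ← Real.rpow_mul hTpos.le]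
        have : 1 / 16 * β = β / 16 := by ring
        rw [this]
        ring
      rw [e1, hU2, ← Real.rpow_add hTpos]
      have h8 : T ^ (β / 16 + -(1 / 2 : ℝ)) ≤ T ^ (-(1 / 4 : ℝ)) := Real.rpow_le_rpow_of_exponent_le hT1 (by linarith)
      calc (2 * δ T) ^ ((β / 2) ^ 2) * (2 ^ β * (4 * M) ^ β * T ^ (β / 16 + -(1 / 2 : ℝ))) ≤ 1 * (2 ^ β * (4 * M) ^ β * T ^ (-(1 / 4 : ℝ))) := by
            refine mul_le_mul hp1 (mul_le_mul_of_nonneg_left h8 (by positivity)) (by positivity) zero_le_one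
        _ = _ := one_mul _
    have t2 : (2 * δ T) ^ ((β / 2) ^ 2) / T * (2 ^ β * ∫ t in Icc 0 U, ‖aS φ univ (δ T) t‖ ^ β) ≤ 2 ^ β * (C * ws φ univ ^ β) * T ^ (-(1 / 2 : ℝ)) := by
      rw [← hU2]
      have e1 : (2 * δ T) ^ ((β / 2) ^ 2) / T * (2 ^ β * ∫ t in Icc 0 U, ‖aS φ univ (δ T) t‖ ^ β) =
          2 ^ β * ((2 * δ T) ^ ((β / 2) ^ 2) / U * ∫ t in Icc 0 U, ‖aS φ univ (δ T) t‖ ^ β) * (U / T) := by
        field_simp
      rw [e1]
      exact mul_le_mul_of_nonneg_right (mul_le_mul_of_nonneg_left hia (by positivity)) (by positivity)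
    have t3 : (2 * δ T) ^ ((β / 2) ^ 2) / T * (C2 ^ β * T) = C2 ^ β * (2 * δ T) ^ ((β / 2) ^ 2) := by
      field_simp
    have hw : 0 ≤ (2 * δ T) ^ ((β / 2) ^ 2) / T := by positivity
    have hs := mul_le_mul_of_nonneg_left (add_le_add hlow hhigh) hw
    refine hs.trans ?_
    rw [← t3]
    have e2 : (2 * δ T) ^ ((β / 2) ^ 2) / T * (2 ^ β * ((4 * M * T ^ (1 / 16 : ℝ)) ^ β * U + ∫ t in Icc 0 U, ‖aS φ univ (δ T) t‖ ^ β) + C2 ^ β * T) =
        (2 * δ T) ^ ((β / 2) ^ 2) / T * (2 ^ β * ((4 * M * T ^ (1 / 16 : ℝ)) ^ β * U)) + (2 * δ T) ^ ((β / 2) ^ 2) / T * (2 ^ β * ∫ t in Icc 0 U, ‖aS φ univ (δ T) t‖ ^ β) +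
          (2 * δ T) ^ ((β / 2) ^ 2) / T * (C2 ^ β * T) := by ring
    rw [e2]
    linarith
  have hlim : Tendsto (fun T : ℝ => 2 ^ β * (4 * M) ^ β * T ^ (-(1 / 4 : ℝ)) + 2 ^ β * (C * ws φ univ ^ β) * T ^ (-(1 / 2 : ℝ)) + C2 ^ β * (2 * δ T) ^ ((β / 2) ^ 2)) atTop (𝓝 0) := by
    have l1 := (tendsto_rpow_neg_atTop (show (0:ℝ) < 1 / 4 by norm_num)).const_mul (2 ^ β * (4 * M) ^ β)
    have l2 := (tendsto_rpow_neg_atTop (show (0:ℝ) < 1 / 2 by norm_num)).const_mul (2 ^ β * (C * ws φ univ ^ β))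
    have l3 : Tendsto (fun T : ℝ => (2 * δ T) ^ ((β / 2) ^ 2)) atTop (𝓝 ((2 * 0) ^ ((β / 2) ^ 2))) :=
      (Real.continuousAt_rpow_const _ _ (Or.inr (sq_nonneg _))).tendsto.comp (hδ.const_mul 2)
    rw [mul_zero, Real.zero_rpow (by positivity)] at l3
    have l4 := (l1.add l2).add (l3.const_mul (C2 ^ β))
    simpa using l4
  refine squeeze_zero' ?_ hbd hlim
  filter_upwards [hpos, eventually_gt_atTop 0] with T h1 h2
  exact ms_nonneg h1.le h2.le _

end Pool.Agent.H470
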