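import Mathlib

set_option autoImplicit false

/-!
# The symbol of the truncated Gaussian discrete Hilbert kernel
-/

open Complex MeasureTheory Set Filter Topology

namespace Pool.Agent.H470

/-- `e^{is(k-1/2)} e^{-(r(k-1/2))^2}` -/
noncomputable def gs (r s : ℝ) (k : ℤ) : ℂ :=
  cexp (((s * ((k : ℝ) - 1 / 2) : ℝ) : ℂ) * I) * (Real.exp (-(r * ((k : ℝ) - 1 / 2)) ^ 2) : ℂ)

theorem gs_norm (r s : ℝ) (k : ℤ) : ‖gs r s k‖ = Real.exp (-(r * ((k : ℝ) - 1 / 2)) ^ 2) := by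
  unfold gs
  rw [norm_mul, Complex.norm_exp_ofReal_mul_I, one_mul, Complex.norm_real, Real.norm_eq_abs,
    abs_of_pos (Real.exp_pos _)]

theorem gs_eq_theta (r s : ℝ) (k : ℤ) :
    gs r s k = cexp (-(s / 2 : ℝ) * I - (r ^ 2 / 4 : ℝ)) *
      cexp (-(Real.pi : ℂ) * ((r ^ 2 / Real.pi : ℝ) : ℂ) * (k : ℂ) ^ 2 +
        2 * (Real.pi : ℂ) * (((s : ℂ) * I + (r : ℂ) ^ 2) / (2 * Real.pi)) * (k : ℂ)) := by
  unfold gs
  rw [Complex.ofReal_exp, ← Complex.exp_add, ← Complex.exp_add]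
  congr 1
  have hpi : (Real.pi : ℂ) ≠ 0 := by exact_mod_cast Real.pi_ne_zero
  push_cast
  field_simp
  ring

theorem gs_summable (r s : ℝ) (hr : 0 < r) : Summable (gs r s) := by
  have hpi : (Real.pi : ℂ) ≠ 0 := by exact_mod_cast Real.pi_ne_zero
  have h := (summable_jacobiTheta₂_term_iff (((s : ℂ) * I + (r : ℂ) ^ 2) / (2 * Real.pi * I))
    (((r ^ 2 / Real.pi : ℝ) : ℂ) * I)).2 (by
      simp only [Complex.mul_im, Complex.ofReal_re, Complex.I_im, mul_one, Complex.ofReal_im,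
        Complex.I_re, mul_zero, add_zero]
      positivity)
  refine (h.mul_left (cexp (-(s / 2 : ℝ) * I - (r ^ 2 / 4 : ℝ)))).congr ?_
  intro k
  rw [gs_eq_theta]
  congr 1
  unfold jacobiTheta₂_term
  congr 1
  push_cast
  field_simp
  rw [Complex.I_sq]
  ring

theorem gs_tsum (r s : ℝ) (hr : 0 < r) :
    ∑' k : ℤ, gs r s k = ((Real.sqrt Real.pi / r : ℝ) : ℂ) *
      ∑' n : ℤ, (Real.exp (-(2 * Real.pi * n - s) ^ 2 / (4 * r ^ 2)) : ℂ) *
        cexp (-((Real.pi * n : ℝ) : ℂ) * I) := by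
  have hpi : (Real.pi : ℂ) ≠ 0 := by exact_mod_cast Real.pi_ne_zero
  have hrc : (r : ℂ) ≠ 0 := by exact_mod_cast hr.ne'
  have ha : 0 < (((r ^ 2 / Real.pi : ℝ) : ℂ)).re := by
    rw [Complex.ofReal_re]; positivity
  have h := Complex.tsum_exp_neg_quadratic ha (((s : ℂ) * I + (r : ℂ) ^ 2) / (2 * Real.pi))
  simp_rw [gs_eq_theta]
  rw [tsum_mul_left, h, ← mul_assoc]
  have hsq : (1 : ℂ) / (((r ^ 2 / Real.pi : ℝ) : ℂ)) ^ (1 / 2 : ℂ) =
      ((Real.sqrt Real.pi / r : ℝ) : ℂ) := by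
    have h1 : (1 / 2 : ℂ) = ((1 / 2 : ℝ) : ℂ) := by push_cast; ring
    rw [h1, ← Complex.ofReal_cpow (by positivity), ← Real.sqrt_eq_rpow,
      Real.sqrt_div (by positivity), Real.sqrt_sq hr.le]
    push_cast
    rw [one_div, inv_div]
  rw [hsq, mul_comm (cexp _), mul_assoc, ← tsum_mul_left]
  congr 1
  refine tsum_congr fun n => ?_
  rw [Complex.ofReal_exp, ← Complex.exp_add, ← Complex.exp_add]
  congr 1
  push_cast
  field_simp
  ring_nf
  simp only [Complex.I_sq, Complex.I_pow_three, Complex.I_pow_four]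
  ring_nf

/-- the symbol -/
noncomputable def ms (r θ : ℝ) : ℂ := ∑' k : ℤ, gs r θ k / ((k : ℂ) - 1 / 2)

theorem half_ne (k : ℤ) : ((k : ℂ) - 1 / 2) ≠ 0 := by
  intro h
  have h2 : ((2 * k - 1 : ℤ) : ℂ) = 0 := by push_cast; linear_combination 2 * h
  have h3 : (2 * k - 1 : ℤ) = 0 := by exact_mod_cast h2
  omega

theorem half_norm (k : ℤ) : 1 / 2 ≤ ‖((k : ℂ) - 1 / 2)‖ := by
  have h : ((k : ℂ) - 1 / 2) = (((k : ℝ) - 1 / 2 : ℝ) : ℂ) := by push_cast; ring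
  rw [h, Complex.norm_real, Real.norm_eq_abs]
  rcases le_or_gt k 0 with hk | hk
  · have : (k : ℝ) ≤ 0 := by exact_mod_cast hk
    rw [abs_of_nonpos (by linarith)]; linarith
  · have : (1 : ℝ) ≤ k := by exact_mod_cast hk
    rw [abs_of_nonneg (by linarith)]; linarith

theorem gsd_norm_le (r s : ℝ) (k : ℤ) : ‖gs r s k / ((k : ℂ) - 1 / 2)‖ ≤ 2 * ‖gs r s k‖ := by
  rw [norm_div, div_le_iff₀ (by linarith [half_norm k])]
  nlinarith [half_norm k, norm_nonneg (gs r s k)]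

theorem gsd_summable (r s : ℝ) (hr : 0 < r) :
    Summable fun k : ℤ => gs r s k / ((k : ℂ) - 1 / 2) :=
  Summable.of_norm_bounded ((gs_summable r s hr).norm.mul_left 2) (gsd_norm_le r s)

theorem gs_refl (r s : ℝ) (k : ℤ) : gs r s (1 - k) = gs r (-s) k := by
  unfold gs
  congr 3
  · push_cast; ring
  · push_cast; ring

theorem ms_neg (r θ : ℝ) : ms r (-θ) = -ms r θ := by
  unfold ms
  rw [← (Equiv.subLeft (1 : ℤ)).tsum_eq fun k : ℤ => gs r θ k / ((k : ℂ) - 1 / 2), ← tsum_neg]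
  refine tsum_congr fun k => ?_
  rw [Equiv.subLeft_apply, gs_refl]
  have : (((1 - k : ℤ) : ℂ) - 1 / 2) = -((k : ℂ) - 1 / 2) := by push_cast; ring
  rw [this, div_neg, neg_neg]

theorem ms_zero (r : ℝ) : ms r 0 = 0 := by
  have := ms_neg r 0
  rw [neg_zero] at this
  have h2 : 2 * ms r 0 = 0 := by linear_combination this
  simpa using h2

theorem gs_int (r θ : ℝ) (k : ℤ) :
    ∫ s in (0 : ℝ)..θ, gs r s k = (gs r θ k - gs r 0 k) / (I * ((k : ℂ) - 1 / 2)) := by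
  unfold gs
  rw [intervalIntegral.integral_mul_const]
  have hne : I * ((k : ℂ) - 1 / 2) ≠ 0 := mul_ne_zero Complex.I_ne_zero (half_ne k)
  have h := integral_exp_mul_complex (a := 0) (b := θ) hne
  have h1 : ∀ s : ℝ, cexp (((s * ((k : ℝ) - 1 / 2) : ℝ) : ℂ) * I) =
      cexp (I * ((k : ℂ) - 1 / 2) * (s : ℂ)) := by
    intro s; congr 1; push_cast; ring
  simp_rw [h1]
  rw [h, ← sub_mul, div_mul_eq_mul_div]

theorem gs_cont (r : ℝ) (k : ℤ) : Continuous fun s : ℝ => gs r s k := by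
  unfold gs; fun_prop

theorem ms_eq (r θ : ℝ) (hr : 0 < r) : ms r θ = I * ∫ s in (0 : ℝ)..θ, ∑' k : ℤ, gs r s k := by
  have hbs : Summable fun k : ℤ => ‖gs r 0 k‖ := (gs_summable r 0 hr).norm
  have h := intervalIntegral.hasSum_integral_of_dominated_convergence (μ := volume)
    (a := 0) (b := θ) (F := fun (k : ℤ) (s : ℝ) => gs r s k) (f := fun s => ∑' k : ℤ, gs r s k)
    (fun k _ => ‖gs r 0 k‖) (fun k => (gs_cont r k).aestronglyMeasurable)
    (fun k => Eventually.of_forall fun s _ => by rw [gs_norm, gs_norm])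
    (Eventually.of_forall fun s _ => hbs)
    (by simp)
    (Eventually.of_forall fun s _ => (gs_summable r s hr).hasSum)
  rw [← h.tsum_eq, ← tsum_mul_left]
  have h2 : ∀ k : ℤ, I * ∫ s in (0 : ℝ)..θ, gs r s k =
      gs r θ k / ((k : ℂ) - 1 / 2) - gs r 0 k / ((k : ℂ) - 1 / 2) := by
    intro k
    rw [gs_int, mul_div_assoc', mul_div_mul_left _ _ Complex.I_ne_zero, sub_div]
  simp_rw [h2]
  rw [(gsd_summable r θ hr).tsum_sub (gsd_summable r 0 hr)]
  have h3 := ms_zero r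
  unfold ms at h3
  rw [h3, sub_zero]
  rfl

theorem gauss_sum : Summable fun n : ℤ => Real.exp (-(n : ℝ) ^ 2 / 2) := by
  have h := (summable_jacobiTheta₂_term_iff 0 (((1 / (2 * Real.pi) : ℝ) : ℂ) * I)).2 (by
      simp only [Complex.mul_im, Complex.ofReal_re, Complex.I_im, mul_one, Complex.ofReal_im,
        Complex.I_re, mul_zero, add_zero]
      positivity)
  refine h.norm.congr ?_
  intro k
  rw [norm_jacobiTheta₂_term]
  congr 1
  simp only [Complex.mul_im, Complex.ofReal_re, Complex.I_im, mul_one, Complex.ofReal_im,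
        Complex.I_re, mul_zero, add_zero, Complex.zero_im]
  have := Real.pi_ne_zero
  field_simp
  ring

theorem gauss_tail {r θ : ℝ} (hr : 0 < r) (hθ : 0 ≤ θ) :
    |(Real.sqrt Real.pi / r) * (∫ s in (0 : ℝ)..θ, Real.exp (-(1 / (4 * r ^ 2)) * s ^ 2)) -
      Real.pi| ≤ 5 * Real.exp (-θ ^ 2 / (8 * r ^ 2)) := by
  have hb : 0 < 1 / (4 * r ^ 2) := by positivity
  have hb2 : 0 < 1 / (8 * r ^ 2) := by positivity
  have hI : IntegrableOn (fun s : ℝ => Real.exp (-(1 / (4 * r ^ 2)) * s ^ 2)) (Ioi 0) :=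
    (integrable_exp_neg_mul_sq hb).integrableOn
  have hI2 : ∀ a : ℝ, IntegrableOn (fun s : ℝ => Real.exp (-(1 / (8 * r ^ 2)) * s ^ 2)) (Ioi a) :=
    fun a => (integrable_exp_neg_mul_sq hb2).integrableOn
  have h1 := intervalIntegral.integral_Ioi_sub_Ioi hI hθ
  rw [← h1, integral_gaussian_Ioi]
  have h2 : Real.sqrt Real.pi / r * (Real.sqrt (Real.pi / (1 / (4 * r ^ 2))) / 2) = Real.pi := by
    have : Real.pi / (1 / (4 * r ^ 2)) = Real.pi * (2 * r) ^ 2 := by field_simp; ring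
    rw [this, Real.sqrt_mul Real.pi_pos.le, Real.sqrt_sq (by positivity)]
    have h3 := Real.mul_self_sqrt Real.pi_pos.le
    field_simp
    nlinarith
  have h4 : ∫ s in Ioi θ, Real.exp (-(1 / (4 * r ^ 2)) * s ^ 2) ≤
      Real.exp (-θ ^ 2 / (8 * r ^ 2)) * (Real.sqrt (Real.pi / (1 / (8 * r ^ 2))) / 2) := by
    rw [← integral_gaussian_Ioi, ← integral_const_mul]
    calc ∫ s in Ioi θ, Real.exp (-(1 / (4 * r ^ 2)) * s ^ 2)
        ≤ ∫ s in Ioi θ, Real.exp (-θ ^ 2 / (8 * r ^ 2)) *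
            Real.exp (-(1 / (8 * r ^ 2)) * s ^ 2) := by
          refine setIntegral_mono_on (hI.mono_set (Ioi_subset_Ioi hθ)) ((hI2 θ).const_mul _)
            measurableSet_Ioi fun s hs => ?_
          rw [← Real.exp_add]
          apply Real.exp_le_exp.2
          have hs' : θ < s := hs
          have : θ ^ 2 ≤ s ^ 2 := by nlinarith
          have h5 : -(1 / (4 * r ^ 2)) * s ^ 2 = -(1 / (8 * r ^ 2)) * s ^ 2 -
              (1 / (8 * r ^ 2)) * s ^ 2 := by field_simp; ring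
          have h6 : -θ ^ 2 / (8 * r ^ 2) = -((1 / (8 * r ^ 2)) * θ ^ 2) := by field_simp
          rw [h5, h6]
          nlinarith [mul_le_mul_of_nonneg_left this hb2.le]
      _ ≤ ∫ s in Ioi 0, Real.exp (-θ ^ 2 / (8 * r ^ 2)) *
            Real.exp (-(1 / (8 * r ^ 2)) * s ^ 2) := by
          refine setIntegral_mono_set ((hI2 0).const_mul _)
            (Eventually.of_forall fun s => by positivity) (Ioi_subset_Ioi hθ).eventuallyLE
  have h5 : 0 ≤ ∫ s in Ioi θ, Real.exp (-(1 / (4 * r ^ 2)) * s ^ 2) :=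
    setIntegral_nonneg measurableSet_Ioi fun s _ => (Real.exp_pos _).le
  have h6 : Real.sqrt Real.pi / r * (Real.sqrt (Real.pi / (1 / (8 * r ^ 2))) / 2) ≤ 5 := by
    have : Real.pi / (1 / (8 * r ^ 2)) = (8 * Real.pi) * r ^ 2 := by field_simp
    rw [this, Real.sqrt_mul (by positivity), Real.sqrt_sq hr.le]
    have h7 : Real.sqrt Real.pi / r * (Real.sqrt (8 * Real.pi) * r / 2) =
      Real.sqrt Real.pi * Real.sqrt (8 * Real.pi) / 2 := by field_simp
    rw [h7, ← Real.sqrt_mul Real.pi_pos.le]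
    have h8 : Real.sqrt (Real.pi * (8 * Real.pi)) ≤ 10 := by
      rw [show (10 : ℝ) = Real.sqrt (10 ^ 2) by rw [Real.sqrt_sq (by norm_num)]]
      apply Real.sqrt_le_sqrt
      nlinarith [Real.pi_lt_d2, Real.pi_pos]
    linarith
  have hc : 0 ≤ Real.sqrt Real.pi / r := by positivity
  rw [mul_sub, h2, sub_sub_cancel_left, abs_neg, abs_of_nonneg (mul_nonneg hc h5)]
  calc Real.sqrt Real.pi / r * ∫ s in Ioi θ, Real.exp (-(1 / (4 * r ^ 2)) * s ^ 2)
      ≤ Real.sqrt Real.pi / r * (Real.exp (-θ ^ 2 / (8 * r ^ 2)) *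
          (Real.sqrt (Real.pi / (1 / (8 * r ^ 2))) / 2)) := mul_le_mul_of_nonneg_left h4 hc
    _ = (Real.sqrt Real.pi / r * (Real.sqrt (Real.pi / (1 / (8 * r ^ 2))) / 2)) *
          Real.exp (-θ ^ 2 / (8 * r ^ 2)) := by ring
    _ ≤ 5 * Real.exp (-θ ^ 2 / (8 * r ^ 2)) := mul_le_mul_of_nonneg_right h6 (Real.exp_pos _).le


theorem per_le {r s : ℝ} (hr : 0 < r) (hr1 : r ≤ 1) (hs0 : 0 ≤ s) (hs : s ≤ Real.pi) {n : ℤ}
    (hn : n ≠ 0) : Real.exp (-(2 * Real.pi * n - s) ^ 2 / (4 * r ^ 2)) ≤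
      Real.exp (-3 * Real.pi ^ 2 / (16 * r ^ 2)) * Real.exp (-(n : ℝ) ^ 2 / 2) := by
  have hpi := Real.pi_pos
  have h1 : Real.pi ^ 2 * (n : ℝ) ^ 2 ≤ (2 * Real.pi * n - s) ^ 2 := by
    rcases lt_or_gt_of_ne hn with h | h
    · have : (n : ℝ) ≤ -1 := by exact_mod_cast (by omega : n ≤ -1)
      have h2 : Real.pi * n < 0 := by nlinarith
      nlinarith
    · have : (1 : ℝ) ≤ n := by exact_mod_cast (by omega : 1 ≤ n)
      have h2 : Real.pi ≤ Real.pi * n := by nlinarith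
      have h3 : Real.pi * n ≤ 2 * Real.pi * n - s := by nlinarith
      have h4 : 0 ≤ Real.pi * n := by nlinarith
      nlinarith
  have hn1 : (1 : ℝ) ≤ (n : ℝ) ^ 2 := by
    have : (1 : ℤ) ≤ n ^ 2 := by
      rcases lt_or_gt_of_ne hn with h | h <;> nlinarith
    exact_mod_cast this
  rw [← Real.exp_add]
  apply Real.exp_le_exp.2
  have hr2 : 0 < r ^ 2 := by positivity
  have hr3 : r ^ 2 ≤ 1 := by nlinarith
  rw [div_add_div _ _ (by positivity) (by norm_num), div_le_div_iff₀ (by positivity)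
    (by positivity)]
  have h5 : (3 : ℝ) < Real.pi := Real.pi_gt_three
  have h6 : 9 < Real.pi ^ 2 := by nlinarith
  have h7 : 3 * Real.pi ^ 2 + 8 * (r ^ 2 * (n : ℝ) ^ 2) ≤ 4 * (2 * Real.pi * n - s) ^ 2 := by
    have h8 : r ^ 2 * (n : ℝ) ^ 2 ≤ (n : ℝ) ^ 2 := by nlinarith
    have h9 : 8 * (n : ℝ) ^ 2 ≤ Real.pi ^ 2 * (n : ℝ) ^ 2 := by nlinarith
    have h10 : 3 * Real.pi ^ 2 ≤ 3 * (Real.pi ^ 2 * (n : ℝ) ^ 2) := by nlinarith
    nlinarith
  nlinarith [mul_le_mul_of_nonneg_left h7 hr2.le]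

theorem gs_near : ∃ C : ℝ, 0 < C ∧ ∀ r s : ℝ, 0 < r → r ≤ 1 → 0 ≤ s → s ≤ Real.pi →
    ‖(∑' k : ℤ, gs r s k) - ((Real.sqrt Real.pi / r * Real.exp (-(1 / (4 * r ^ 2)) * s ^ 2) : ℝ) : ℂ)‖
      ≤ C * Real.exp (-Real.pi ^ 2 / (8 * r ^ 2)) := by
  set S : ℝ := ∑' n : ℤ, Real.exp (-(n : ℝ) ^ 2 / 2) with hS
  have hS0 : 0 < S := gauss_sum.tsum_pos (fun n => (Real.exp_pos _).le) 0 (Real.exp_pos _)
  refine ⟨2 * Real.sqrt Real.pi * S, by positivity, fun r s hr hr1 hs0 hs => ?_⟩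
  rw [gs_tsum r s hr]
  set g : ℤ → ℂ := fun n => (Real.exp (-(2 * Real.pi * n - s) ^ 2 / (4 * r ^ 2)) : ℂ) *
        cexp (-((Real.pi * n : ℝ) : ℂ) * I) with hg
  have hgn : ∀ n, ‖g n‖ = Real.exp (-(2 * Real.pi * n - s) ^ 2 / (4 * r ^ 2)) := by
    intro n
    simp only [hg]
    rw [norm_mul, ← Complex.ofReal_neg, Complex.norm_exp_ofReal_mul_I, mul_one,
      Complex.norm_real, Real.norm_eq_abs, abs_of_pos (Real.exp_pos _)]
  have hite : ∀ n, ‖(if n = 0 then 0 else g n)‖ ≤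
      Real.exp (-3 * Real.pi ^ 2 / (16 * r ^ 2)) * Real.exp (-(n : ℝ) ^ 2 / 2) := by
    intro n
    split_ifs with h
    · rw [norm_zero]; positivity
    · rw [hgn]; exact per_le hr hr1 hs0 hs h
  have hsum2 : Summable fun n : ℤ => Real.exp (-3 * Real.pi ^ 2 / (16 * r ^ 2)) *
      Real.exp (-(n : ℝ) ^ 2 / 2) := gauss_sum.mul_left _
  have hitesum : Summable fun n : ℤ => (if n = 0 then 0 else g n) :=
    Summable.of_norm_bounded hsum2 hite
  have hgsum : Summable g := by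
    have := hitesum.add (hasSum_ite_eq (0 : ℤ) (g 0)).summable
    refine this.congr fun n => ?_
    by_cases h : n = 0
    · simp [h]
    · simp [h]
  rw [hgsum.tsum_eq_add_tsum_ite 0, mul_add]
  have hg0 : g 0 = (Real.exp (-(1 / (4 * r ^ 2)) * s ^ 2) : ℂ) := by
    simp only [hg]
    push_cast
    rw [show (-(Real.pi * 0 : ℂ)) * I = 0 by ring, Complex.exp_zero, mul_one]
    congr 1
    ring
  rw [hg0, ← Complex.ofReal_mul, add_sub_cancel_left, norm_mul, Complex.norm_real,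
    Real.norm_eq_abs, abs_of_nonneg (by positivity : 0 ≤ Real.sqrt Real.pi / r)]
  have hb := tsum_of_norm_bounded hsum2.hasSum hite
  rw [tsum_mul_left, ← hS] at hb
  have hr4 : Real.exp (-3 * Real.pi ^ 2 / (16 * r ^ 2)) / r ≤
      2 * Real.exp (-Real.pi ^ 2 / (8 * r ^ 2)) := by
    have h1 : -3 * Real.pi ^ 2 / (16 * r ^ 2) = -(Real.pi ^ 2 / (16 * r ^ 2)) +
      -Real.pi ^ 2 / (8 * r ^ 2) := by field_simp; ring
    rw [h1, Real.exp_add]
    have h2 : Real.exp (-(Real.pi ^ 2 / (16 * r ^ 2))) ≤ 2 * r := by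
      have hx : 0 < Real.pi ^ 2 / (16 * r ^ 2) := by positivity
      have h3 : Real.exp (-(Real.pi ^ 2 / (16 * r ^ 2))) ≤ 1 / (Real.pi ^ 2 / (16 * r ^ 2)) := by
        rw [Real.exp_neg, inv_eq_one_div]
        apply one_div_le_one_div_of_le hx
        linarith [Real.add_one_le_exp (Real.pi ^ 2 / (16 * r ^ 2))]
      refine h3.trans ?_
      rw [one_div_div, div_le_iff₀ (by positivity)]
      have h5 : (3 : ℝ) < Real.pi := Real.pi_gt_three
      have h6 : 9 < Real.pi ^ 2 := by nlinarith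
      nlinarith
    rw [mul_div_right_comm]
    apply mul_le_mul_of_nonneg_right _ (Real.exp_pos _).le
    rw [div_le_iff₀ hr]; linarith
  calc Real.sqrt Real.pi / r * ‖∑' n, (if n = 0 then 0 else g n)‖
      ≤ Real.sqrt Real.pi / r * (Real.exp (-3 * Real.pi ^ 2 / (16 * r ^ 2)) * S) :=
        mul_le_mul_of_nonneg_left hb (by positivity)
    _ = Real.sqrt Real.pi * S * (Real.exp (-3 * Real.pi ^ 2 / (16 * r ^ 2)) / r) := by ring
    _ ≤ Real.sqrt Real.pi * S * (2 * Real.exp (-Real.pi ^ 2 / (8 * r ^ 2))) :=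
        mul_le_mul_of_nonneg_left hr4 (by positivity)
    _ = 2 * Real.sqrt Real.pi * S * Real.exp (-Real.pi ^ 2 / (8 * r ^ 2)) := by ring


theorem ms_pos : ∃ C : ℝ, 0 < C ∧ ∀ r θ : ℝ, 0 < r → r ≤ 1 → 0 < θ → θ ≤ Real.pi →
    ‖ms r θ - Real.pi * I‖ ≤ C * Real.exp (-θ ^ 2 / (8 * r ^ 2)) := by
  obtain ⟨C, hC, hG⟩ := gs_near
  refine ⟨C * Real.pi + 5, by positivity, fun r θ hr hr1 hθ hθπ => ?_⟩
  set g0 : ℝ → ℂ := fun s => ((Real.sqrt Real.pi / r * Real.exp (-(1 / (4 * r ^ 2)) * s ^ 2) : ℝ) : ℂ)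
    with hg0
  set G : ℝ → ℂ := fun s => ∑' k : ℤ, gs r s k with hGdef
  have hbs : Summable fun k : ℤ => ‖gs r 0 k‖ := (gs_summable r 0 hr).norm
  have hGc : Continuous G := continuous_tsum (gs_cont r) hbs fun k s => by rw [gs_norm, gs_norm]
  have hg0c : Continuous g0 := by simp only [hg0]; fun_prop
  have h1 : ∫ s in (0 : ℝ)..θ, G s = (∫ s in (0 : ℝ)..θ, (G s - g0 s)) + ∫ s in (0 : ℝ)..θ, g0 s := by
    rw [intervalIntegral.integral_sub (hGc.intervalIntegrable _ _) (hg0c.intervalIntegrable _ _)]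
    ring
  have h2 : ‖∫ s in (0 : ℝ)..θ, (G s - g0 s)‖ ≤ C * Real.exp (-Real.pi ^ 2 / (8 * r ^ 2)) * |θ - 0| := by
    apply intervalIntegral.norm_integral_le_of_norm_le_const
    intro s hs
    rw [uIoc_of_le hθ.le] at hs
    exact hG r s hr hr1 hs.1.le (hs.2.trans hθπ)
  have h3 : ‖(∫ s in (0 : ℝ)..θ, g0 s) - Real.pi‖ ≤ 5 * Real.exp (-θ ^ 2 / (8 * r ^ 2)) := by
    have h4 : ∫ s in (0 : ℝ)..θ, g0 s = ((Real.sqrt Real.pi / r *
        (∫ s in (0 : ℝ)..θ, Real.exp (-(1 / (4 * r ^ 2)) * s ^ 2)) : ℝ) : ℂ) := by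
      simp only [hg0]
      rw [intervalIntegral.integral_ofReal, intervalIntegral.integral_const_mul]
    rw [h4, ← Complex.ofReal_sub, Complex.norm_real, Real.norm_eq_abs]
    exact gauss_tail hr hθ.le
  have h5 : Real.exp (-Real.pi ^ 2 / (8 * r ^ 2)) ≤ Real.exp (-θ ^ 2 / (8 * r ^ 2)) := by
    apply Real.exp_le_exp.2
    rw [neg_div, neg_div, neg_le_neg_iff]
    apply div_le_div_of_nonneg_right _ (by positivity)
    nlinarith
  rw [ms_eq r θ hr]
  have h6 : I * (∫ s in (0 : ℝ)..θ, G s) - Real.pi * I =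
      I * ((∫ s in (0 : ℝ)..θ, (G s - g0 s)) + ((∫ s in (0 : ℝ)..θ, g0 s) - Real.pi)) := by
    rw [h1]; ring
  rw [h6, norm_mul, Complex.norm_I, one_mul]
  refine (norm_add_le _ _).trans ?_
  rw [sub_zero, abs_of_pos hθ] at h2
  have h7 : C * Real.exp (-Real.pi ^ 2 / (8 * r ^ 2)) * θ ≤
      C * Real.pi * Real.exp (-θ ^ 2 / (8 * r ^ 2)) := by
    calc C * Real.exp (-Real.pi ^ 2 / (8 * r ^ 2)) * θ
        ≤ C * Real.exp (-θ ^ 2 / (8 * r ^ 2)) * Real.pi := by gcongr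
      _ = _ := by ring
  linarith

theorem ms_bd : ∃ C : ℝ, 0 < C ∧ ∀ r θ : ℝ, 0 < r → r ≤ 1 → |θ| ≤ Real.pi →
    ‖ms r θ - Real.pi * I * Real.sign θ‖ ≤ C * Real.exp (-θ ^ 2 / (8 * r ^ 2)) := by
  obtain ⟨C, hC, h⟩ := ms_pos
  refine ⟨C, hC, fun r θ hr hr1 hθ => ?_⟩
  rcases lt_trichotomy θ 0 with h0 | h0 | h0
  · rw [Real.sign_of_neg h0]
    have h1 := h r (-θ) hr hr1 (by linarith) (by rw [abs_of_neg h0] at hθ; exact hθ)
    rw [ms_neg] at h1
    have h2 : ms r θ - Real.pi * I * ((-1 : ℝ) : ℂ) = -(-ms r θ - Real.pi * I) := by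
      push_cast; ring
    rw [h2, norm_neg]
    simpa using h1
  · rw [h0, Real.sign_zero, ms_zero]
    simp only [Complex.ofReal_zero, mul_zero, sub_zero, norm_zero]
    positivity
  · rw [Real.sign_of_pos h0]
    have h1 := h r θ hr hr1 h0 (by rw [abs_of_pos h0] at hθ; exact hθ)
    simpa using h1

/-- total mass -/
theorem gs_mass : ∃ C : ℝ, 0 < C ∧ ∀ r : ℝ, 0 < r → r ≤ 1 →
    ∑' k : ℤ, Real.exp (-(r * ((k : ℝ) - 1 / 2)) ^ 2) ≤ C / r := by
  obtain ⟨C, hC, h⟩ := gs_near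
  refine ⟨C + 2, by positivity, fun r hr hr1 => ?_⟩
  have h1 := h r 0 hr hr1 le_rfl Real.pi_pos.le
  have h2 : (∑' k : ℤ, gs r 0 k) =
      ((∑' k : ℤ, Real.exp (-(r * ((k : ℝ) - 1 / 2)) ^ 2) : ℝ) : ℂ) := by
    rw [Complex.ofReal_tsum]
    refine tsum_congr fun k => ?_
    unfold gs
    simp
  rw [h2, ← Complex.ofReal_sub, Complex.norm_real, Real.norm_eq_abs] at h1
  have h3 := (le_abs_self _).trans h1
  have h4 : Real.exp (-Real.pi ^ 2 / (8 * r ^ 2)) ≤ 1 := by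
    apply Real.exp_le_one_iff.2
    rw [neg_div]
    have : 0 ≤ Real.pi ^ 2 / (8 * r ^ 2) := by positivity
    linarith
  have h5 : Real.sqrt Real.pi ≤ 2 := by
    rw [show (2 : ℝ) = Real.sqrt (2 ^ 2) by rw [Real.sqrt_sq (by norm_num)]]
    apply Real.sqrt_le_sqrt
    linarith [Real.pi_lt_d2]
  simp only [ne_eq, OfNat.ofNat_ne_zero, not_false_eq_true, zero_pow, mul_zero, Real.exp_zero,
    mul_one] at h3
  have h6 : Real.sqrt Real.pi / r ≤ 2 / r := div_le_div_of_nonneg_right h5 hr.le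
  have h7 : C ≤ C / r := by
    rw [le_div_iff₀ hr]; nlinarith
  rw [add_div]
  nlinarith


/-- the truncated symbol -/
noncomputable def ts (r θ : ℝ) (K : ℕ) : ℂ :=
  ∑ k ∈ Finset.Icc (1 - (K : ℤ)) K, gs r θ k / ((k : ℂ) - 1 / 2)

theorem ts_tail : ∃ C : ℝ, 0 < C ∧ ∀ (r θ : ℝ) (K : ℕ), 0 < r → r ≤ 1 →
    ‖ms r θ - ts r θ K‖ ≤ C * (Real.exp (-(r * K) ^ 2 / 2) / r) := by
  obtain ⟨C, hC, h⟩ := gs_mass
  refine ⟨4 * C, by positivity, fun r θ K hr hr1 => ?_⟩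
  set f : ℤ → ℂ := fun k => gs r θ k / ((k : ℂ) - 1 / 2) with hf
  have hfs : Summable f := gsd_summable r θ hr
  set S : Finset ℤ := Finset.Icc (1 - (K : ℤ)) K with hS
  have h1 : ms r θ - ts r θ K = ∑' k : ℤ, (if k ∈ S then 0 else f k) := by
    have h2 : HasSum (fun k : ℤ => if k ∈ S then f k else 0) (∑ k ∈ S, f k) := by
      have h0 : ∀ b : ℤ, b ∉ S → (if b ∈ S then f b else 0) = 0 := fun b hb => by simp [hb]
      have := (hasSum_sum_of_ne_finset_zero h0 : HasSum (fun k : ℤ => if k ∈ S then f k else 0)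
        (∑ k ∈ S, (if k ∈ S then f k else 0)))
      rwa [Finset.sum_congr rfl (fun k hk => if_pos hk)] at this
    have h3 := (hfs.hasSum.sub h2).tsum_eq
    unfold ms ts
    rw [← h3]
    refine tsum_congr fun k => ?_
    by_cases hk : k ∈ S <;> simp [hk]
  rw [h1]
  have hr2 : 0 < r / 2 := by positivity
  have hgs2 : Summable fun k : ℤ => Real.exp (-(r / 2 * ((k : ℝ) - 1 / 2)) ^ 2) :=
    (gs_summable (r / 2) 0 hr2).norm.congr fun k => gs_norm _ _ _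
  have hb : ∀ k : ℤ, ‖(if k ∈ S then 0 else f k)‖ ≤ 2 * Real.exp (-(r * K) ^ 2 / 2) *
      Real.exp (-(r / 2 * ((k : ℝ) - 1 / 2)) ^ 2) := by
    intro k
    split_ifs with hk
    · rw [norm_zero]; positivity
    · refine (gsd_norm_le r θ k).trans ?_
      rw [gs_norm, mul_assoc, ← Real.exp_add]
      apply mul_le_mul_of_nonneg_left _ (by norm_num)
      apply Real.exp_le_exp.2
      have hK : ((K : ℝ)) ^ 2 ≤ ((k : ℝ) - 1 / 2) ^ 2 := by
        simp only [hS, Finset.mem_Icc, not_and_or, not_le] at hk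
        rcases hk with hk | hk
        · have : (k : ℝ) ≤ -K := by
            have : k ≤ -(K : ℤ) := by omega
            exact_mod_cast this
          have hK0 : (0 : ℝ) ≤ K := Nat.cast_nonneg K
          nlinarith
        · have : (K : ℝ) + 1 ≤ k := by
            have : (K : ℤ) + 1 ≤ k := by omega
            exact_mod_cast this
          have hK0 : (0 : ℝ) ≤ K := Nat.cast_nonneg K
          nlinarith
      have : r ^ 2 * (K : ℝ) ^ 2 ≤ r ^ 2 * ((k : ℝ) - 1 / 2) ^ 2 :=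
        mul_le_mul_of_nonneg_left hK (by positivity)
      nlinarith [sq_nonneg (r * (K : ℝ))]
  refine (tsum_of_norm_bounded (hgs2.hasSum.mul_left (2 * Real.exp (-(r * K) ^ 2 / 2))) hb).trans ?_
  have h5 := h (r / 2) hr2 (by linarith)
  calc 2 * Real.exp (-(r * K) ^ 2 / 2) * ∑' k : ℤ, Real.exp (-(r / 2 * ((k : ℝ) - 1 / 2)) ^ 2)
      ≤ 2 * Real.exp (-(r * K) ^ 2 / 2) * (C / (r / 2)) :=
        mul_le_mul_of_nonneg_left h5 (by positivity)
    _ = 4 * C * (Real.exp (-(r * K) ^ 2 / 2) / r) := by field_simp; ring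

/-- **The symbol of the local frequency projection.** -/
theorem symb : ∃ C : ℝ, 0 < C ∧ ∀ (r θ : ℝ) (K : ℕ), 0 < r → r ≤ 1 → |θ| ≤ Real.pi →
    ‖1 / 2 - I / (2 * Real.pi) * ts r θ K - (if 0 < θ then 1 else 0)‖ ≤
      C * (Real.exp (-θ ^ 2 / (8 * r ^ 2)) + Real.exp (-(r * K) ^ 2 / 2) / r) := by
  obtain ⟨C₁, hC₁, h₁⟩ := ms_bd
  obtain ⟨C₂, hC₂, h₂⟩ := ts_tail
  refine ⟨C₁ + C₂ + 1, by positivity, fun r θ K hr hr1 hθ => ?_⟩
  have hpi : (Real.pi : ℂ) ≠ 0 := by exact_mod_cast Real.pi_ne_zero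
  have ha := h₁ r θ hr hr1 hθ
  have hb := h₂ r θ K hr hr1
  have hI : ‖I / (2 * Real.pi : ℂ)‖ ≤ 1 := by
    rw [norm_div, Complex.norm_I, norm_mul, Complex.norm_real, Real.norm_eq_abs,
      abs_of_pos Real.pi_pos, Complex.norm_ofNat, div_le_one (by positivity)]
    linarith [Real.pi_gt_three]
  have e1 : 0 < Real.exp (-θ ^ 2 / (8 * r ^ 2)) := Real.exp_pos _
  have e2 : 0 < Real.exp (-(r * K) ^ 2 / 2) / r := by positivity
  set E1 := Real.exp (-θ ^ 2 / (8 * r ^ 2)) with hE1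
  set E2 := Real.exp (-(r * K) ^ 2 / 2) / r with hE2
  have key : 1 / 2 - I / (2 * Real.pi) * ts r θ K - (if 0 < θ then 1 else 0) =
      I / (2 * Real.pi) * (ms r θ - ts r θ K) -
        I / (2 * Real.pi) * (ms r θ - Real.pi * I * Real.sign θ) +
        (if θ = 0 then 1 / 2 else 0) := by
    rcases lt_trichotomy θ 0 with h0 | h0 | h0
    · rw [Real.sign_of_neg h0, if_neg (not_lt.2 h0.le), if_neg h0.ne]
      push_cast
      field_simp
      ring_nf
      simp only [Complex.I_sq]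
      ring
    · rw [h0, Real.sign_zero, if_neg (lt_irrefl _), if_pos rfl]
      push_cast
      ring
    · rw [Real.sign_of_pos h0, if_pos h0, if_neg h0.ne']
      push_cast
      field_simp
      ring_nf
      simp only [Complex.I_sq]
      ring
  rw [key]
  have h3 : ‖I / (2 * Real.pi) * (ms r θ - ts r θ K)‖ ≤ C₂ * E2 := by
    rw [norm_mul]
    calc _ ≤ 1 * (C₂ * E2) := by gcongr
      _ = _ := one_mul _
  have h4 : ‖I / (2 * Real.pi) * (ms r θ - Real.pi * I * Real.sign θ)‖ ≤ C₁ * E1 := by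
    rw [norm_mul]
    calc _ ≤ 1 * (C₁ * E1) := by gcongr
      _ = _ := one_mul _
  have h5 : ‖(if θ = 0 then (1 / 2 : ℂ) else 0)‖ ≤ E1 := by
    split_ifs with h0
    · rw [hE1, h0]
      norm_num
    · rw [norm_zero]; exact e1.le
  refine (norm_add_le _ _).trans ?_
  refine (add_le_add (norm_sub_le _ _) le_rfl).trans ?_
  nlinarith

end Pool.Agent.H470
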