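import Pool.Graph.R_seed8.W188.GP.All
import Pool.Agent.H470.Sq

set_option autoImplicit false

/-!
# The local frequency projection: `L^p` bound
-/

open Complex MeasureTheory Set Filter Topology

namespace Pool.Agent.H470

theorem add_rpow2 {x y p : ℝ} (hx : 0 ≤ x) (hy : 0 ≤ y) (hp : 0 ≤ p) :
    (x + y) ^ p ≤ 2 ^ p * (x ^ p + y ^ p) := by
  have h1 : x + y ≤ 2 * max x y := by
    have := le_max_left x y; have := le_max_right x y; linarith
  calc (x + y) ^ p ≤ (2 * max x y) ^ p := Real.rpow_le_rpow (by positivity) h1 hp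
    _ = 2 ^ p * (max x y) ^ p := Real.mul_rpow (by norm_num) (le_max_of_le_left hx)
    _ ≤ 2 ^ p * (x ^ p + y ^ p) := by
      apply mul_le_mul_of_nonneg_left _ (by positivity)
      rcases max_choice x y with h | h <;> rw [h]
      · linarith [Real.rpow_nonneg hy p]
      · linarith [Real.rpow_nonneg hx p]

/-- weighted Jensen inequality -/
theorem jensen_w {ι : Type*} (s : Finset ι) {p : ℝ} (hp : 1 < p) (w f : ι → ℝ) (hw : ∀ i, 0 ≤ w i)
    (hf : ∀ i, 0 ≤ f i) :
    (∑ i ∈ s, w i * f i) ^ p ≤ (∑ i ∈ s, w i) ^ (p - 1) * ∑ i ∈ s, w i * f i ^ p := by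
  have h := Real.inner_le_weight_mul_Lp_of_nonneg s hp.le w f hw hf
  have hW : 0 ≤ ∑ i ∈ s, w i := Finset.sum_nonneg fun i _ => hw i
  have hF : 0 ≤ ∑ i ∈ s, w i * f i ^ p :=
    Finset.sum_nonneg fun i _ => mul_nonneg (hw i) (Real.rpow_nonneg (hf i) p)
  have hL : 0 ≤ ∑ i ∈ s, w i * f i := Finset.sum_nonneg fun i _ => mul_nonneg (hw i) (hf i)
  have hp0 : 0 < p := by linarith
  calc (∑ i ∈ s, w i * f i) ^ p
      ≤ ((∑ i ∈ s, w i) ^ (1 - p⁻¹) * (∑ i ∈ s, w i * f i ^ p) ^ p⁻¹) ^ p :=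
        Real.rpow_le_rpow hL h hp0.le
    _ = (∑ i ∈ s, w i) ^ (p - 1) * ∑ i ∈ s, w i * f i ^ p := by
        rw [Real.mul_rpow (Real.rpow_nonneg hW _) (Real.rpow_nonneg hF _), ← Real.rpow_mul hW,
          ← Real.rpow_mul hF, inv_mul_cancel₀ hp0.ne', Real.rpow_one]
        congr 2
        field_simp

/-- Young's inequality for a finite convolution-type matrix -/
theorem young_fin {p W : ℝ} (hp : 1 < p) (hW : 0 ≤ W) (S S' : Finset ℤ) (w : ℤ → ℤ → ℝ)
    (hw : ∀ i j, 0 ≤ w i j) (h1 : ∀ j, ∑ n ∈ S, w n j ≤ W) (h2 : ∀ n, ∑ j ∈ S', w n j ≤ W)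
    (x : ℤ → ℝ) (hx : ∀ n, 0 ≤ x n) :
    ∑ j ∈ S', (∑ n ∈ S, w n j * x n) ^ p ≤ W ^ p * ∑ n ∈ S, x n ^ p := by
  calc ∑ j ∈ S', (∑ n ∈ S, w n j * x n) ^ p
      ≤ ∑ j ∈ S', W ^ (p - 1) * ∑ n ∈ S, w n j * x n ^ p := by
        refine Finset.sum_le_sum fun j _ => ?_
        refine (jensen_w S hp (fun n => w n j) x (fun n => hw n j) hx).trans ?_
        apply mul_le_mul_of_nonneg_right _
          (Finset.sum_nonneg fun i _ => mul_nonneg (hw _ _) (Real.rpow_nonneg (hx i) p))
        exact Real.rpow_le_rpow (Finset.sum_nonneg fun i _ => hw _ _) (h1 j) (by linarith)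
    _ = W ^ (p - 1) * ∑ n ∈ S, (∑ j ∈ S', w n j) * x n ^ p := by
        rw [← Finset.mul_sum, Finset.sum_comm]
        congr 1
        exact Finset.sum_congr rfl fun n _ => (Finset.sum_mul _ _ _).symm
    _ ≤ W ^ (p - 1) * ∑ n ∈ S, W * x n ^ p := by
        apply mul_le_mul_of_nonneg_left _ (Real.rpow_nonneg hW _)
        exact Finset.sum_le_sum fun n _ =>
          mul_le_mul_of_nonneg_right (h2 n) (Real.rpow_nonneg (hx n) p)
    _ = W ^ p * ∑ n ∈ S, x n ^ p := by
        rw [← Finset.mul_sum, ← mul_assoc]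
        congr 1
        rcases hW.eq_or_lt with h | h
        · rw [← h, mul_zero, Real.zero_rpow (by linarith)]
        · rw [← Real.rpow_add_one h.ne', sub_add_cancel]

theorem mass_r {g : ℤ → ℝ} (hg : Summable g) (h0 : ∀ k, 0 ≤ g k) (S : Finset ℤ) (j : ℤ) :
    ∑ n ∈ S, g (n - j) ≤ ∑' k, g k := by
  have h := Summable.sum_le_tsum S (fun i _ => h0 (i - j)) ((Equiv.subRight j).summable_iff.2 hg)
  exact h.trans (le_of_eq ((Equiv.subRight j).tsum_eq g))

theorem mass_l {g : ℤ → ℝ} (hg : Summable g) (h0 : ∀ k, 0 ≤ g k) (S : Finset ℤ) (n : ℤ) :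
    ∑ j ∈ S, g (n - j) ≤ ∑' k, g k := by
  have h := Summable.sum_le_tsum S (fun i _ => h0 (n - i)) ((Equiv.subLeft n).summable_iff.2 hg)
  exact h.trans (le_of_eq ((Equiv.subLeft n).tsum_eq g))

theorem disc1 (p : ℝ) (hp : 1 < p) : ∃ C : ℝ, 0 < C ∧ ∀ (r : ℝ) (K : ℕ), 0 < r → r ≤ 1 →
    1 ≤ r * K → ∀ (J : ℤ) (a : ℤ → ℂ),
    ∑ j ∈ Finset.Icc (0 : ℤ) J, ‖∑ k ∈ Finset.Icc (1 - (K : ℤ)) K,
      a (j + k) * (Real.exp (-(r * ((k : ℝ) - 1 / 2)) ^ 2) : ℂ) / ((k : ℂ) - 1 / 2)‖ ^ p ≤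
    C * ∑ n ∈ Finset.Icc (1 - (K : ℤ)) (J + K), ‖a n‖ ^ p := by
  obtain ⟨h, hh, hg⟩ := Pool.Agent.W188.GP.a_gau p hp
  obtain ⟨M, hM, hm⟩ := gs_mass
  have hp0 : 0 < p := by linarith
  refine ⟨2 ^ p * (h + M ^ p) + 1, by positivity, fun r K hr hr1 hrK J a => ?_⟩
  set S : Finset ℤ := Finset.Icc (1 - (K : ℤ)) (J + K) with hS
  set S' : Finset ℤ := Finset.Icc (0 : ℤ) J with hS'
  set F : ℤ → ℤ → ℂ := fun n j => a n * (Real.exp (-(r * ((n - j : ℤ) - 1 / 2 : ℝ)) ^ 2) : ℂ) /
    (((n - j : ℤ) : ℂ) - 1 / 2) with hF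
  have hKpos : (0 : ℝ) < K := by
    by_contra hc
    push Not at hc
    nlinarith
  have hfull := hg (1 / 2) (by norm_num) (by norm_num) S S' a (fun n => r * ((n : ℝ) - 1 / 2))
    (fun j => r * (j : ℝ))
  have hfull2 : ∑ j ∈ S', ‖∑ n ∈ S, F n j‖ ^ p ≤ h * ∑ n ∈ S, ‖a n‖ ^ p := by
    refine le_trans (le_of_eq ?_) hfull
    refine Finset.sum_congr rfl fun j _ => ?_
    have hsin : Real.sin (Real.pi * (1 / 2)) = 1 := by
      rw [show Real.pi * (1 / 2) = Real.pi / 2 by ring, Real.sin_pi_div_two]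
    rw [hsin, Complex.ofReal_one, one_mul]
    congr 2
    refine Finset.sum_congr rfl fun n _ => ?_
    simp only [hF]
    congr 1
    · congr 3
      push_cast
      ring
    · push_cast
      ring
  -- the truncated sum
  have htr : ∀ j ∈ S', ∑ k ∈ Finset.Icc (1 - (K : ℤ)) K,
      a (j + k) * (Real.exp (-(r * ((k : ℝ) - 1 / 2)) ^ 2) : ℂ) / ((k : ℂ) - 1 / 2) =
      ∑ n ∈ S, if n - j ∈ Finset.Icc (1 - (K : ℤ)) K then F n j else 0 := by
    intro j hj
    rw [← Finset.sum_filter]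
    refine Finset.sum_nbij' (fun k => j + k) (fun n => n - j) ?_ ?_ ?_ ?_ ?_
    · intro k hk
      simp only [hS', Finset.mem_Icc] at hj
      simp only [Finset.mem_filter, hS, Finset.mem_Icc] at hk ⊢
      omega
    · intro n hn
      simp only [Finset.mem_filter] at hn
      exact hn.2
    · intro k _; simp
    · intro n _; simp
    · intro k _
      simp only [hF]
      rw [add_sub_cancel_left]
  have hrest : ∀ j, ‖∑ n ∈ S, (F n j - if n - j ∈ Finset.Icc (1 - (K : ℤ)) K then F n j else 0)‖ ≤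
      ∑ n ∈ S, (1 / K * Real.exp (-(r * ((n - j : ℤ) - 1 / 2 : ℝ)) ^ 2)) * ‖a n‖ := by
    intro j
    refine (norm_sum_le _ _).trans (Finset.sum_le_sum fun n _ => ?_)
    split_ifs with hnj
    · rw [sub_self, norm_zero]; positivity
    · rw [sub_zero]
      simp only [hF]
      rw [norm_div, norm_mul, Complex.norm_real, Real.norm_eq_abs, abs_of_pos (Real.exp_pos _)]
      have hK : (K : ℝ) ≤ ‖(((n - j : ℤ) : ℂ) - 1 / 2)‖ := by
        have h1 : (((n - j : ℤ) : ℂ) - 1 / 2) = ((((n - j : ℤ) : ℝ) - 1 / 2 : ℝ) : ℂ) := by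
          push_cast; ring
        rw [h1, Complex.norm_real, Real.norm_eq_abs]
        simp only [Finset.mem_Icc, not_and_or, not_le] at hnj
        rcases hnj with hk | hk
        · have : (((n - j : ℤ)) : ℝ) ≤ -K := by
            have : n - j ≤ -(K : ℤ) := by omega
            exact_mod_cast this
          rw [abs_of_nonpos (by linarith)]; linarith
        · have : (K : ℝ) + 1 ≤ ((n - j : ℤ) : ℝ) := by
            have : (K : ℤ) + 1 ≤ n - j := by omega
            exact_mod_cast this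
          rw [abs_of_nonneg (by linarith)]; linarith
      rw [div_le_iff₀ (by linarith)]
      have e1 := Real.exp_pos (-(r * ((n - j : ℤ) - 1 / 2 : ℝ)) ^ 2)
      have h2 : 1 ≤ 1 / (K : ℝ) * ‖(((n - j : ℤ) : ℂ) - 1 / 2)‖ := by
        rw [one_div, ← div_eq_inv_mul, le_div_iff₀ hKpos]; linarith
      calc ‖a n‖ * Real.exp (-(r * ((n - j : ℤ) - 1 / 2 : ℝ)) ^ 2)
          = (Real.exp (-(r * ((n - j : ℤ) - 1 / 2 : ℝ)) ^ 2) * ‖a n‖) * 1 := by ring
        _ ≤ (Real.exp (-(r * ((n - j : ℤ) - 1 / 2 : ℝ)) ^ 2) * ‖a n‖) *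
            (1 / (K : ℝ) * ‖(((n - j : ℤ) : ℂ) - 1 / 2)‖) := by gcongr
        _ = _ := by ring
  have hsm : Summable fun k : ℤ => Real.exp (-(r * ((k : ℝ) - 1 / 2)) ^ 2) :=
    (gs_summable r 0 hr).norm.congr fun k => gs_norm _ _ _
  have hMK : 1 / (K : ℝ) * (M / r) ≤ M := by
    have h1 : 1 / (K : ℝ) * (M / r) = M / (r * K) := by field_simp
    rw [h1]
    exact div_le_self hM.le hrK
  have hyoung := young_fin hp hM.le S S'
    (fun n j => 1 / K * Real.exp (-(r * ((n - j : ℤ) - 1 / 2 : ℝ)) ^ 2))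
    (fun i j => by positivity)
    (fun j => by
      rw [← Finset.mul_sum]
      refine le_trans (mul_le_mul_of_nonneg_left ?_ (by positivity)) hMK
      exact (mass_r hsm (fun k => (Real.exp_pos _).le) S j).trans (hm r hr hr1))
    (fun n => by
      rw [← Finset.mul_sum]
      refine le_trans (mul_le_mul_of_nonneg_left ?_ (by positivity)) hMK
      exact (mass_l hsm (fun k => (Real.exp_pos _).le) S' n).trans (hm r hr hr1))
    (fun n => ‖a n‖) (fun n => norm_nonneg _)
  have hA0 : 0 ≤ ∑ n ∈ S, ‖a n‖ ^ p :=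
    Finset.sum_nonneg fun n _ => Real.rpow_nonneg (norm_nonneg _) _
  calc ∑ j ∈ S', ‖∑ k ∈ Finset.Icc (1 - (K : ℤ)) K,
        a (j + k) * (Real.exp (-(r * ((k : ℝ) - 1 / 2)) ^ 2) : ℂ) / ((k : ℂ) - 1 / 2)‖ ^ p
      ≤ ∑ j ∈ S', 2 ^ p * (‖∑ n ∈ S, F n j‖ ^ p +
          (∑ n ∈ S, (1 / K * Real.exp (-(r * ((n - j : ℤ) - 1 / 2 : ℝ)) ^ 2)) * ‖a n‖) ^ p) := by
        refine Finset.sum_le_sum fun j hj => ?_
        rw [htr j hj]
        refine le_trans ?_ (add_rpow2 (norm_nonneg _)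
          (Finset.sum_nonneg fun n _ => by positivity) hp0.le)
        apply Real.rpow_le_rpow (norm_nonneg _) _ hp0.le
        refine le_trans ?_ (add_le_add le_rfl (hrest j))
        rw [Finset.sum_sub_distrib]
        have : ∀ x y : ℂ, ‖y‖ ≤ ‖x‖ + ‖x - y‖ := fun x y => by
          calc ‖y‖ = ‖x - (x - y)‖ := by congr 1; ring
            _ ≤ _ := norm_sub_le _ _
        exact this _ _
    _ = 2 ^ p * (∑ j ∈ S', ‖∑ n ∈ S, F n j‖ ^ p + ∑ j ∈ S',
          (∑ n ∈ S, (1 / K * Real.exp (-(r * ((n - j : ℤ) - 1 / 2 : ℝ)) ^ 2)) * ‖a n‖) ^ p) := by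
        rw [← Finset.mul_sum, Finset.sum_add_distrib]
    _ ≤ 2 ^ p * (h * ∑ n ∈ S, ‖a n‖ ^ p + M ^ p * ∑ n ∈ S, ‖a n‖ ^ p) := by
        gcongr
    _ ≤ (2 ^ p * (h + M ^ p) + 1) * ∑ n ∈ S, ‖a n‖ ^ p := by nlinarith


/-- the singular part of the local frequency projection -/
noncomputable def HH (h R ν : ℝ) (K : ℕ) (f : ℝ → ℂ) (t : ℝ) : ℂ :=
  ∑ k ∈ Finset.Icc (1 - (K : ℤ)) K, f (t + h * ((k : ℝ) - 1 / 2)) *
    (gs (h / R) (ν * h) k / ((k : ℂ) - 1 / 2))

/-- the local frequency projection: it keeps the frequencies below `ν` -/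
noncomputable def UU (h R ν : ℝ) (K : ℕ) (f : ℝ → ℂ) (t : ℝ) : ℂ :=
  f t / 2 - I / (2 * Real.pi) * HH h R ν K f t

theorem HH_cont {h R ν : ℝ} {K : ℕ} {f : ℝ → ℂ} (hf : Continuous f) : Continuous (HH h R ν K f) := by
  unfold HH
  refine continuous_finsetSum _ fun k _ => ?_
  exact (hf.comp (continuous_id.add continuous_const)).mul continuous_const

theorem UU_cont {h R ν : ℝ} {K : ℕ} {f : ℝ → ℂ} (hf : Continuous f) : Continuous (UU h R ν K f) := by
  unfold UU
  exact (hf.div_const _).sub (continuous_const.mul (HH_cont hf))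

theorem sum_adj {g : ℝ → ℝ} (hg : Continuous g) (h c : ℝ) (m : ℤ) (N : ℕ) :
    ∑ n ∈ Finset.Icc m (m + N), ∫ u in (0 : ℝ)..h, g (c + u + h * n) =
      ∫ t in (c + h * m)..(c + h * (m + N + 1)), g t := by
  induction N with
  | zero =>
    simp only [Nat.cast_zero, add_zero, Finset.Icc_self, Finset.sum_singleton]
    have h1 : ∀ u : ℝ, g (c + u + h * m) = g (u + (c + h * m)) := fun u => by congr 1; ring
    simp_rw [h1]
    rw [intervalIntegral.integral_comp_add_right]
    congr 1 <;> ring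
  | succ N ih =>
    have h1 : Finset.Icc m (m + ((N + 1 : ℕ) : ℤ)) =
        insert (m + ((N + 1 : ℕ) : ℤ)) (Finset.Icc m (m + N)) := by
      ext x
      simp only [Finset.mem_Icc, Finset.mem_insert]
      push_cast
      omega
    rw [h1, Finset.sum_insert (by simp), ih]
    have h2 : ∀ u : ℝ, g (c + u + h * ((m + ((N + 1 : ℕ) : ℤ) : ℤ) : ℝ)) =
        g (u + (c + h * (m + N + 1))) := fun u => by
      congr 1; push_cast; ring
    simp_rw [h2]
    rw [intervalIntegral.integral_comp_add_right, add_comm,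
      show h + (c + h * (m + N + 1)) = c + h * (m + ((N + 1 : ℕ) : ℝ) + 1) by push_cast; ring,
      zero_add]
    exact intervalIntegral.integral_add_adjacent_intervals (hg.intervalIntegrable _ _)
      (hg.intervalIntegrable _ _)

theorem HH_Lp (p : ℝ) (hp : 1 < p) : ∃ C : ℝ, 0 < C ∧ ∀ (h R ν : ℝ) (K : ℕ), 0 < h → h ≤ R →
    R ≤ h * K → ∀ f : ℝ → ℂ, Continuous f → ∀ a b : ℝ, a ≤ b →
    ∫ t in a..b, ‖HH h R ν K f t‖ ^ p ≤ C * ∫ t in (a - h * K)..(b + h * K + h), ‖f t‖ ^ p := by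
  obtain ⟨C, hC, hd⟩ := disc1 p hp
  have hp0 : 0 ≤ p := by linarith
  refine ⟨C, hC, fun h R ν K hh hhR hRK f hf a b hab => ?_⟩
  have hR : 0 < R := hh.trans_le hhR
  set J : ℕ := ⌊(b - a) / h⌋₊ with hJ
  have hJ1 : h * J ≤ b - a := by
    have := Nat.floor_le (by positivity [sub_nonneg.2 hab] : 0 ≤ (b - a) / h)
    rw [le_div_iff₀ hh] at this
    linarith
  have hJ2 : b - a ≤ h * (J + 1) := by
    have := (Nat.lt_floor_add_one ((b - a) / h)).le
    rw [div_le_iff₀ hh] at this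
    linarith
  have hfc : Continuous fun t => ‖f t‖ ^ p := hf.norm.rpow_const fun _ => Or.inr hp0
  have hHc : Continuous fun t => ‖HH h R ν K f t‖ ^ p :=
    (HH_cont hf).norm.rpow_const fun _ => Or.inr hp0
  have hr : 0 < h / R := by positivity
  have hr1 : h / R ≤ 1 := (div_le_one hR).2 hhR
  have hrK : 1 ≤ h / R * K := by
    rw [div_mul_eq_mul_div, le_div_iff₀ hR]; linarith
  calc ∫ t in a..b, ‖HH h R ν K f t‖ ^ p
      ≤ ∫ t in a..(a + h * (J + 1)), ‖HH h R ν K f t‖ ^ p := by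
        refine intervalIntegral.integral_mono_interval le_rfl hab (by linarith)
          (Eventually.of_forall fun t => Real.rpow_nonneg (norm_nonneg _) _)
          (hHc.intervalIntegrable _ _)
    _ = ∑ j ∈ Finset.Icc (0 : ℤ) J, ∫ u in (0 : ℝ)..h, ‖HH h R ν K f (a + u + h * j)‖ ^ p := by
        have := sum_adj hHc h a 0 J
        simp only [zero_add, Int.cast_zero, mul_zero, add_zero] at this
        exact this.symm
    _ = ∫ u in (0 : ℝ)..h, ∑ j ∈ Finset.Icc (0 : ℤ) J, ‖HH h R ν K f (a + u + h * j)‖ ^ p := by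
        rw [intervalIntegral.integral_finsetSum]
        intro j _
        exact (hHc.comp ((continuous_const.add continuous_id).add
          continuous_const)).intervalIntegrable _ _
    _ ≤ ∫ u in (0 : ℝ)..h, C * ∑ n ∈ Finset.Icc (1 - (K : ℤ)) (J + K),
          ‖f ((a - h / 2) + u + h * n)‖ ^ p := by
        apply intervalIntegral.integral_mono_on hh.le
        · exact (continuous_finsetSum _ fun j _ => hHc.comp ((continuous_const.add
            continuous_id).add continuous_const)).intervalIntegrable _ _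
        · exact (continuous_const.mul (continuous_finsetSum _ fun j _ => hfc.comp
            ((continuous_const.add continuous_id).add continuous_const))).intervalIntegrable _ _
        · intro u _
          have h1 := hd (h / R) K hr hr1 hrK J
            (fun n => f ((a - h / 2) + u + h * n) * cexp (((ν * h * n : ℝ) : ℂ) * I))
          refine le_trans (le_of_eq ?_) (h1.trans (le_of_eq ?_))
          · refine Finset.sum_congr rfl fun j _ => ?_
            congr 1
            have h2 : cexp (((ν * h * (j + 1 / 2) : ℝ) : ℂ) * I) * HH h R ν K f (a + u + h * j) =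
                ∑ k ∈ Finset.Icc (1 - (K : ℤ)) K,
                  (f ((a - h / 2) + u + h * ((j + k : ℤ) : ℝ)) *
                    cexp (((ν * h * ((j + k : ℤ) : ℝ) : ℝ) : ℂ) * I)) *
                  (Real.exp (-(h / R * ((k : ℝ) - 1 / 2)) ^ 2) : ℂ) / ((k : ℂ) - 1 / 2) := by
              unfold HH
              rw [Finset.mul_sum]
              refine Finset.sum_congr rfl fun k _ => ?_
              have e1 : a + u + h * (j : ℝ) + h * ((k : ℝ) - 1 / 2) =
                  (a - h / 2) + u + h * ((j + k : ℤ) : ℝ) := by push_cast; ring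
              have e2 : cexp (((ν * h * (j + 1 / 2) : ℝ) : ℂ) * I) *
                  cexp (((ν * h * ((k : ℝ) - 1 / 2) : ℝ) : ℂ) * I) =
                  cexp (((ν * h * ((j + k : ℤ) : ℝ) : ℝ) : ℂ) * I) := by
                rw [← Complex.exp_add]; congr 1; push_cast; ring
              rw [e1, ← e2]
              unfold gs
              ring
            rw [← h2, norm_mul, Complex.norm_exp_ofReal_mul_I, one_mul]
          · congr 1
            refine Finset.sum_congr rfl fun n _ => ?_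
            rw [norm_mul, Complex.norm_exp_ofReal_mul_I, mul_one]
    _ = C * ∑ n ∈ Finset.Icc (1 - (K : ℤ)) (J + K), ∫ u in (0 : ℝ)..h,
          ‖f ((a - h / 2) + u + h * n)‖ ^ p := by
        rw [intervalIntegral.integral_const_mul, intervalIntegral.integral_finsetSum]
        intro j _
        exact (hfc.comp ((continuous_const.add continuous_id).add
          continuous_const)).intervalIntegrable _ _
    _ = C * ∫ t in ((a - h / 2) + h * (1 - K))..((a - h / 2) + h * (J + K + 1)), ‖f t‖ ^ p := by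
        rcases Nat.eq_zero_or_pos (J + 2 * K) with h0 | h0
        · exfalso
          have : K = 0 := by omega
          rw [this] at hRK
          simp at hRK
          linarith
        · have h1 : (J : ℤ) + K = (1 - (K : ℤ)) + ((J + 2 * K - 1 : ℕ) : ℤ) := by omega
          rw [h1, sum_adj hfc h (a - h / 2) (1 - (K : ℤ)) (J + 2 * K - 1)]
          have h2 : ((J + 2 * K - 1 : ℕ) : ℝ) = J + 2 * K - 1 := by
            rw [Nat.cast_sub h0]; push_cast; ring
          rw [h2]
          congr 2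
          · push_cast; ring
          · push_cast; ring
    _ ≤ C * ∫ t in (a - h * K)..(b + h * K + h), ‖f t‖ ^ p := by
        apply mul_le_mul_of_nonneg_left _ hC.le
        have hK0 : (0 : ℝ) ≤ K := Nat.cast_nonneg K
        have hJ0 : (0 : ℝ) ≤ J := Nat.cast_nonneg J
        refine intervalIntegral.integral_mono_interval (by linarith) ?_ ?_
          (Eventually.of_forall fun t => Real.rpow_nonneg (norm_nonneg _) _)
          (hfc.intervalIntegrable _ _)
        · nlinarith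
        · nlinarith

theorem UU_Lp (p : ℝ) (hp : 1 < p) : ∃ C : ℝ, 0 < C ∧ ∀ (h R ν : ℝ) (K : ℕ), 0 < h → h ≤ R →
    R ≤ h * K → ∀ f : ℝ → ℂ, Continuous f → ∀ a b : ℝ, a ≤ b →
    ∫ t in a..b, ‖UU h R ν K f t‖ ^ p ≤ C * ∫ t in (a - h * K)..(b + h * K + h), ‖f t‖ ^ p := by
  obtain ⟨C, hC, hH⟩ := HH_Lp p hp
  have hp0 : 0 ≤ p := by linarith
  refine ⟨2 ^ p * (1 + C), by positivity, fun h R ν K hh hhR hRK f hf a b hab => ?_⟩
  have hfc : Continuous fun t => ‖f t‖ ^ p := hf.norm.rpow_const fun _ => Or.inr hp0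
  have hHc : Continuous fun t => ‖HH h R ν K f t‖ ^ p :=
    (HH_cont hf).norm.rpow_const fun _ => Or.inr hp0
  have hUc : Continuous fun t => ‖UU h R ν K f t‖ ^ p :=
    (UU_cont hf).norm.rpow_const fun _ => Or.inr hp0
  have hpt : ∀ t, ‖UU h R ν K f t‖ ^ p ≤ 2 ^ p * (‖f t‖ ^ p + ‖HH h R ν K f t‖ ^ p) := by
    intro t
    refine le_trans ?_ (add_rpow2 (norm_nonneg _) (norm_nonneg _) hp0)
    apply Real.rpow_le_rpow (norm_nonneg _) _ hp0
    unfold UU
    refine (norm_sub_le _ _).trans ?_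
    rw [norm_div, norm_mul, Complex.norm_ofNat]
    have hI : ‖I / (2 * Real.pi : ℂ)‖ ≤ 1 := by
      rw [norm_div, Complex.norm_I, norm_mul, Complex.norm_real, Real.norm_eq_abs,
        abs_of_pos Real.pi_pos, Complex.norm_ofNat, div_le_one (by positivity)]
      linarith [Real.pi_gt_three]
    have h1 := norm_nonneg (f t)
    have h2 := norm_nonneg (HH h R ν K f t)
    nlinarith
  have hK0 : (0 : ℝ) ≤ h * K := by positivity
  calc ∫ t in a..b, ‖UU h R ν K f t‖ ^ p
      ≤ ∫ t in a..b, 2 ^ p * (‖f t‖ ^ p + ‖HH h R ν K f t‖ ^ p) :=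
        intervalIntegral.integral_mono_on hab (hUc.intervalIntegrable _ _)
          ((continuous_const.mul (hfc.add hHc)).intervalIntegrable _ _) fun t _ => hpt t
    _ = 2 ^ p * ((∫ t in a..b, ‖f t‖ ^ p) + ∫ t in a..b, ‖HH h R ν K f t‖ ^ p) := by
        rw [intervalIntegral.integral_const_mul, intervalIntegral.integral_add
          (hfc.intervalIntegrable _ _) (hHc.intervalIntegrable _ _)]
    _ ≤ 2 ^ p * ((∫ t in (a - h * K)..(b + h * K + h), ‖f t‖ ^ p) +
          C * ∫ t in (a - h * K)..(b + h * K + h), ‖f t‖ ^ p) := by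
        apply mul_le_mul_of_nonneg_left _ (by positivity)
        apply add_le_add _ (hH h R ν K hh hhR hRK f hf a b hab)
        exact intervalIntegral.integral_mono_interval (by linarith) hab (by linarith)
          (Eventually.of_forall fun t => Real.rpow_nonneg (norm_nonneg _) _)
          (hfc.intervalIntegrable _ _)
    _ = _ := by ring

end Pool.Agent.H470
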