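import Pool.Agent.H470.Mj
import Pool.Agent.H470.Gl

set_option autoImplicit false

/-! The mean of the average of the field. -/

namespace Pool.Agent.H470

open MeasureTheory Filter Topology Set
open scoped ENNReal
open Pool.Agent.R313.CX

lemma mu_exp_norm (k : ℝ) (hk : 0 ≤ k) (y : ℝ) : ‖Complex.exp (mu k y)‖ ≤ 1 := by
  rw [Complex.norm_exp]
  refine Real.exp_le_one_iff.mpr ?_
  have h1 := congrArg Complex.re (mu_conj_add k y)
  rw [Complex.add_re, Complex.conj_re, Complex.ofReal_re] at h1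
  nlinarith [vr_nonneg y, mul_nonneg hk (vr_nonneg y)]

/-- the mean -/
theorem mean_xq (k : ℝ) {φ : ℝ → ℝ} (h : Sm φ) (Q : ℝ) :
    ∫ ω, xq k φ Q ω ∂gp = ((1 / (2 * Real.pi) : ℝ) : ℂ) * ∫ y in Icc (-Q) Q, ps φ y * Complex.exp (mu k y) := by
  obtain ⟨μ, hμ⟩ : ∃ μ : Measure ℝ, μ = volume.restrict (Icc (-Q) Q) := ⟨_, rfl⟩
  have : IsFiniteMeasure μ := by rw [hμ]; infer_instance
  have hpc := ps_cont h
  unfold xq
  rw [integral_const_mul, ← hμ]
  congr 1
  have hFm : Measurable (fun p : (ℕ → ℝ × ℝ) × ℝ => ps φ p.2 * Complex.exp (gm k p.1 p.2)) :=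
    (hpc.measurable.comp measurable_snd).mul (eg_meas k)
  have hn : ∀ ω y, ‖ps φ y * Complex.exp (gm k ω y)‖ = ‖ps φ y‖ * Real.exp (2 * (1 / 2) * (gm k ω y).re + 2 * 0 * (gm k ω 0).re) := by
    intro ω y
    rw [norm_mul, Complex.norm_exp]
    congr 2
    ring
  have hi : Integrable (fun p : (ℕ → ℝ × ℝ) × ℝ => ps φ p.2 * Complex.exp (gm k p.1 p.2)) (gp.prod μ) := by
    rw [integrable_prod_iff' hFm.aestronglyMeasurable]
    constructor
    · refine Eventually.of_forall fun y => ?_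
      have h1 := (law2 k (1 / 2) 0 y 0).1.const_mul ‖ps φ y‖
      refine h1.mono' ?_ (Eventually.of_forall fun ω => (hn ω y).le)
      exact (hFm.comp (measurable_id.prodMk measurable_const)).aestronglyMeasurable
    · have e1 : ∀ y : ℝ, ∫ ω, ‖ps φ y * Complex.exp (gm k ω y)‖ ∂gp = ‖ps φ y‖ *
          Real.exp (-(k * (1 / 2 * vr y + 0 * vr 0)) + (1 / 2) ^ 2 * vr y + 0 ^ 2 * vr 0 + 1 / 2 * 0 * (vr y + vr 0 - vr (y - 0))) := by
        intro y
        simp_rw [hn]
        rw [integral_const_mul, (law2 k (1 / 2) 0 y 0).2]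
      show Integrable (fun y : ℝ => ∫ ω, ‖ps φ y * Complex.exp (gm k ω y)‖ ∂gp) μ
      simp_rw [e1]
      have hvc := vr_cont
      rw [hμ]
      exact (Continuous.continuousOn (by fun_prop)).integrableOn_compact isCompact_Icc
  rw [integral_integral_swap hi]
  refine integral_congr_ae (Eventually.of_forall fun y => ?_)
  show ∫ ω, ps φ y * Complex.exp (gm k ω y) ∂gp = _
  rw [integral_const_mul, law1]

/-- the limit of the mean -/
theorem mean_lim {k : ℝ} (hk : 0 < k) {φ : ℝ → ℝ} (h : Sm φ) :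
    Tendsto (fun Q : ℝ => ∫ ω, xq k φ Q ω ∂gp) atTop
      (𝓝 (((1 / Real.Gamma k * ∫ v in Ioi (0:ℝ), v ^ (k - 1) * Real.exp (-(v / 2)) * φ (v / 2) : ℝ)) : ℂ)) := by
  have hpc := ps_cont h
  have hmc := mu_cont k
  have hi1 : Integrable (fun y : ℝ => ps φ y * Complex.exp (mu k y)) := by
    refine (ps_integrable h).mul_bdd (c := 1) (Complex.continuous_exp.comp hmc).aestronglyMeasurable (Eventually.of_forall fun y => mu_exp_norm k hk.le y)
  have h1 : Tendsto (fun Q : ℝ => ∫ y in Icc (-Q) Q, ps φ y * Complex.exp (mu k y)) atTop (𝓝 (∫ y : ℝ, ps φ y * Complex.exp (mu k y))) :=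
    (aecover_Icc tendsto_neg_atTop_atBot tendsto_id).integral_tendsto_of_countably_generated hi1
  have h2 := h1.const_mul ((1 / (2 * Real.pi) : ℝ) : ℂ)
  simp_rw [mean_xq k h]
  have hΓ : 0 < Real.Gamma k := Real.Gamma_pos_of_pos hk
  have key : ((1 / (2 * Real.pi) : ℝ) : ℂ) * ∫ y : ℝ, ps φ y * Complex.exp (mu k y) =
      (((1 / Real.Gamma k * ∫ v in Ioi (0:ℝ), v ^ (k - 1) * Real.exp (-(v / 2)) * φ (v / 2) : ℝ)) : ℂ) := by
    have hg : ∀ y : ℝ, Complex.exp (mu k y) = ((1 / Real.Gamma k : ℝ) : ℂ) * ∫ v in Ioi (0:ℝ), (v:ℂ) ^ ((k:ℂ) - 1) * Complex.exp (-((1 + Complex.I * (y:ℂ) / 2) * v)) := by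
      intro y
      have h3 := GL.rot_formula (a := (k:ℂ)) (r := 1 + Complex.I * (y:ℂ) / 2) (by simpa using hk) (by simp)
      rw [h3, Complex.Gamma_ofReal]
      have h4 : (1 / (1 + Complex.I * (y:ℂ) / 2)) ^ (k:ℂ) = Complex.exp (mu k y) := by
        rw [one_div, Complex.cpow_def_of_ne_zero (inv_ne_zero (base_ne y)), Complex.log_inv _ (by
          intro h5
          have h6 := (Complex.arg_eq_pi_iff.mp h5).1
          simp at h6
          linarith)]
        unfold mu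
        congr 1
        ring
      rw [h4, Complex.ofReal_div, Complex.ofReal_one]
      have h5 : ((Real.Gamma k : ℝ) : ℂ) ≠ 0 := by exact_mod_cast hΓ.ne'
      field_simp
    simp_rw [hg]
    have e1 : ∫ y : ℝ, ps φ y * (((1 / Real.Gamma k : ℝ) : ℂ) * ∫ v in Ioi (0:ℝ), (v:ℂ) ^ ((k:ℂ) - 1) * Complex.exp (-((1 + Complex.I * (y:ℂ) / 2) * v))) =
        ((1 / Real.Gamma k : ℝ) : ℂ) * ∫ y : ℝ, ∫ v in Ioi (0:ℝ), ps φ y * ((v:ℂ) ^ ((k:ℂ) - 1) * Complex.exp (-((1 + Complex.I * (y:ℂ) / 2) * v))) := by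
      rw [← integral_const_mul]
      refine integral_congr_ae (Eventually.of_forall fun y => ?_)
      show ps φ y * (((1 / Real.Gamma k : ℝ) : ℂ) * ∫ v in Ioi (0:ℝ), (v:ℂ) ^ ((k:ℂ) - 1) * Complex.exp (-((1 + Complex.I * (y:ℂ) / 2) * v))) = ((1 / Real.Gamma k : ℝ) : ℂ) * ∫ v in Ioi (0:ℝ), ps φ y * ((v:ℂ) ^ ((k:ℂ) - 1) * Complex.exp (-((1 + Complex.I * (y:ℂ) / 2) * v)))
      rw [integral_const_mul]
      ring
    rw [e1]
    have hR : IntegrableOn (fun v : ℝ => v ^ (k - 1) * Real.exp (-v)) (Ioi 0) := by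
      have h3 := Real.GammaIntegral_convergent hk
      refine h3.congr_fun (fun v _ => mul_comm _ _) measurableSet_Ioi
    have hprod : Integrable (fun p : ℝ × ℝ => ‖ps φ p.1‖ * (p.2 ^ (k - 1) * Real.exp (-p.2))) (volume.prod (volume.restrict (Ioi 0))) :=
      (ps_integrable h).norm.mul_prod hR
    have hnorm : ∀ y v : ℝ, 0 < v → ‖(v:ℂ) ^ ((k:ℂ) - 1) * Complex.exp (-((1 + Complex.I * (y:ℂ) / 2) * v))‖ = v ^ (k - 1) * Real.exp (-v) := by
      intro y v hv
      rw [norm_mul, Complex.norm_cpow_eq_rpow_re_of_pos hv, Complex.norm_exp]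
      congr 2
      simp
    have hpi : Integrable (fun p : ℝ × ℝ => ps φ p.1 * ((p.2:ℂ) ^ ((k:ℂ) - 1) * Complex.exp (-((1 + Complex.I * (p.1:ℂ) / 2) * p.2)))) (volume.prod (volume.restrict (Ioi 0))) := by
      refine hprod.mono' ?_ ?_
      · have hm : Measurable (fun p : ℝ × ℝ => (p.2:ℂ) ^ ((k:ℂ) - 1)) := (Complex.measurable_ofReal.comp measurable_snd).pow_const _
        have hm2 : Continuous (fun p : ℝ × ℝ => Complex.exp (-((1 + Complex.I * (p.1:ℂ) / 2) * p.2))) := by fun_prop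
        exact ((hpc.measurable.comp measurable_fst).mul (hm.mul hm2.measurable)).aestronglyMeasurable
      · have h3 : ∀ᵐ p : ℝ × ℝ ∂(volume.prod (volume.restrict (Ioi 0))), p.2 ∈ Ioi (0:ℝ) := by
          have h4 : ∀ᵐ v : ℝ ∂(volume.restrict (Ioi 0)), v ∈ Ioi (0:ℝ) := ae_restrict_mem measurableSet_Ioi
          exact (Measure.quasiMeasurePreserving_snd (μ := volume) (ν := volume.restrict (Ioi (0:ℝ)))).ae h4
        filter_upwards [h3] with p hp
        rw [norm_mul, hnorm _ _ hp]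
    rw [integral_integral_swap hpi]
    have e2 : ∀ v ∈ Ioi (0:ℝ), ∫ y : ℝ, ps φ y * ((v:ℂ) ^ ((k:ℂ) - 1) * Complex.exp (-((1 + Complex.I * (y:ℂ) / 2) * v))) =
        ((2 * Real.pi * (v ^ (k - 1) * Real.exp (-(v / 2)) * φ (v / 2)) : ℝ) : ℂ) := by
      intro v hv
      have hv' : 0 < v := hv
      have h3 := ps_inv h (v / 2)
      have h4 : ∫ y : ℝ, ps φ y * ((v:ℂ) ^ ((k:ℂ) - 1) * Complex.exp (-((1 + Complex.I * (y:ℂ) / 2) * v))) =
          ((v ^ (k - 1) * Real.exp (-(v / 2)) : ℝ) : ℂ) * ∫ y : ℝ, ps φ y * Complex.exp (-(((v / 2 : ℝ) : ℂ) * (1 + y * Complex.I))) := by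
        rw [← integral_const_mul]
        refine integral_congr_ae (Eventually.of_forall fun y => ?_)
        show ps φ y * ((v:ℂ) ^ ((k:ℂ) - 1) * Complex.exp (-((1 + Complex.I * (y:ℂ) / 2) * v))) = ((v ^ (k - 1) * Real.exp (-(v / 2)) : ℝ) : ℂ) * (ps φ y * Complex.exp (-(((v / 2 : ℝ) : ℂ) * (1 + y * Complex.I))))
        have h5 : (v:ℂ) ^ ((k:ℂ) - 1) = ((v ^ (k - 1) : ℝ) : ℂ) := by
          rw [Complex.ofReal_cpow hv'.le]
          push_cast
          rfl
        have h6 : Complex.exp (-((1 + Complex.I * (y:ℂ) / 2) * v)) = ((Real.exp (-(v / 2)) : ℝ) : ℂ) * Complex.exp (-(((v / 2 : ℝ) : ℂ) * (1 + y * Complex.I))) := by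
          rw [Complex.ofReal_exp, ← Complex.exp_add]
          congr 1
          push_cast
          ring
        rw [h5, h6, Complex.ofReal_mul]
        ring
      rw [h4]
      have h7 : (2 * Real.pi : ℂ) ≠ 0 := by
        have := Real.pi_pos
        exact_mod_cast (by positivity : (2 * Real.pi : ℝ) ≠ 0)
      have h8 : ∫ y : ℝ, ps φ y * Complex.exp (-(((v / 2 : ℝ) : ℂ) * (1 + y * Complex.I))) = (2 * Real.pi : ℂ) * (φ (v / 2) : ℂ) := by
        obtain ⟨J, hJ⟩ : ∃ J : ℂ, J = ∫ y : ℝ, ps φ y * Complex.exp (-(((v / 2 : ℝ) : ℂ) * (1 + y * Complex.I))) := ⟨_, rfl⟩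
        rw [h3, ← hJ]
        push_cast
        field_simp
      rw [h8]
      push_cast
      ring
    rw [setIntegral_congr_fun measurableSet_Ioi e2, integral_complex_ofReal, integral_const_mul, ← Complex.ofReal_mul, ← Complex.ofReal_mul]
    congr 1
    have := Real.pi_pos
    field_simp
  rw [key] at h2
  exact h2

/-- positivity -/
theorem pos_model {k : ℝ} (hk : 1 / 2 ≤ k) : ∃ c : ℝ, 0 < c ∧ ∀ φ : ℝ → ℝ, Sm φ → (∀ x, 0 ≤ φ x) → (∀ x, 0 ≤ x → x ≤ 1 / 2 → φ x = 1) →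
    ∀ᶠ Q : ℝ in atTop, ENNReal.ofReal c ≤ ∫⁻ ω, ‖xq k φ Q ω‖ₑ ^ (2 * k) ∂gp := by
  have hk0 : 0 < k := by linarith
  have hΓ : 0 < Real.Gamma k := Real.Gamma_pos_of_pos hk0
  obtain ⟨m, hm⟩ : ∃ m : ℝ, m = 1 / Real.Gamma k * (Real.exp (-(1 / 2)) / k) := ⟨_, rfl⟩
  have hm0 : 0 < m := by rw [hm]; positivity
  refine ⟨(m / 2) ^ (2 * k), by positivity, fun φ h h0 h1 => ?_⟩
  have hlow : m ≤ 1 / Real.Gamma k * ∫ v in Ioi (0:ℝ), v ^ (k - 1) * Real.exp (-(v / 2)) * φ (v / 2) := by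
    rw [hm]
    refine mul_le_mul_of_nonneg_left ?_ (by positivity)
    have hint : IntegrableOn (fun v : ℝ => v ^ (k - 1) * Real.exp (-(v / 2)) * φ (v / 2)) (Ioi 0) := by
      obtain ⟨M, hM⟩ := h.cont.bounded_above_of_compact_support h.2
      obtain ⟨M', hM'⟩ : ∃ M' : ℝ, ∀ x, ‖Real.exp x * φ x‖ ≤ M' :=
        (Continuous.mul Real.continuous_exp h.cont).bounded_above_of_compact_support h.2.mul_left
      have h3 := (Real.GammaIntegral_convergent hk0).const_mul M'
      refine h3.mono' ?_ ?_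
      · have hc := h.cont
        refine Measurable.aestronglyMeasurable ?_
        have m1 : Measurable fun v : ℝ => v ^ (k - 1) := measurable_id.pow_const _
        exact (m1.mul (by fun_prop)).mul (by fun_prop)
      · refine (ae_restrict_mem measurableSet_Ioi).mono fun v hv => ?_
        have hv' : 0 < v := hv
        have h5 : v ^ (k - 1) * Real.exp (-(v / 2)) * φ (v / 2) = v ^ (k - 1) * Real.exp (-v) * (Real.exp (v / 2) * φ (v / 2)) := by
          have h6 : Real.exp (-(v / 2)) = Real.exp (-v) * Real.exp (v / 2) := by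
            rw [← Real.exp_add]
            congr 1
            ring
          rw [h6]
          ring
        rw [h5, norm_mul, Real.norm_of_nonneg (by positivity)]
        have h7 : 0 ≤ v ^ (k - 1) * Real.exp (-v) := by positivity
        have h8 := mul_le_mul_of_nonneg_left (hM' (v / 2)) h7
        linarith
    have hsub : ∫ v in Ioc (0:ℝ) 1, v ^ (k - 1) * Real.exp (-(v / 2)) * φ (v / 2) ≤ ∫ v in Ioi (0:ℝ), v ^ (k - 1) * Real.exp (-(v / 2)) * φ (v / 2) := by
      refine setIntegral_mono_set hint ?_ (Ioc_subset_Ioi_self).eventuallyLE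
      refine (ae_restrict_mem measurableSet_Ioi).mono fun v hv => ?_
      have hv' : 0 < v := hv
      have := h0 (v / 2)
      positivity
    refine le_trans ?_ hsub
    have h2 : ∫ v in Ioc (0:ℝ) 1, v ^ (k - 1) * Real.exp (-(1 / 2)) = Real.exp (-(1 / 2)) / k := by
      rw [← intervalIntegral.integral_of_le zero_le_one, intervalIntegral.integral_mul_const, integral_rpow (Or.inl (by linarith))]
      rw [Real.one_rpow, Real.zero_rpow (by linarith)]
      have : k - 1 + 1 = k := by ring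
      rw [this]
      ring
    rw [← h2]
    refine setIntegral_mono_on ?_ (hint.mono_set Ioc_subset_Ioi_self) measurableSet_Ioc fun v hv => ?_
    · have h9 : IntervalIntegrable (fun v : ℝ => v ^ (k - 1)) volume 0 1 := intervalIntegral.intervalIntegrable_rpow' (by linarith)
      rw [intervalIntegrable_iff_integrableOn_Ioc_of_le zero_le_one] at h9
      exact h9.mul_const _
    · rw [h1 (v / 2) (by linarith [hv.1]) (by linarith [hv.2]), mul_one]
      have := hv.1
      refine mul_le_mul_of_nonneg_left (Real.exp_le_exp.mpr (by linarith [hv.2])) (by positivity)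
  have hlim := mean_lim hk0 h
  have h2 := hlim.norm
  rw [Complex.norm_real] at h2
  have h3 : m / 2 < ‖1 / Real.Gamma k * ∫ v in Ioi (0:ℝ), v ^ (k - 1) * Real.exp (-(v / 2)) * φ (v / 2)‖ := by
    refine lt_of_lt_of_le (by linarith) (hlow.trans (le_abs_self _))
  filter_upwards [h2.eventually (lt_mem_nhds h3)] with Q hQ
  have h4 := jen gp (p := 2 * k) (w := fun _ => 1) (f := fun ω => ‖xq k φ Q ω‖ₑ) (by linarith) aemeasurable_const
    (xq_meas k h Q).measurable.enorm.aemeasurable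
  simp only [one_mul, lintegral_const, measure_univ, mul_one, ENNReal.one_rpow] at h4
  refine le_trans ?_ h4
  rw [← ENNReal.ofReal_rpow_of_nonneg (by positivity) (by positivity)]
  refine ENNReal.rpow_le_rpow ?_ (by positivity)
  refine le_trans ?_ (enorm_integral_le_lintegral_enorm _)
  rw [← ofReal_norm]
  exact ENNReal.ofReal_le_ofReal hQ.le

end Pool.Agent.H470
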