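import Pool.Agent.H470.DP

set_option autoImplicit false

/-!
# Partial sums as projections of longer partial sums
-/

open Complex MeasureTheory Set Filter Topology

namespace Pool.Agent.H470

/-- the step -/
noncomputable def hT (T : ℝ) : ℝ := 1 / (2 * Real.log T)

/-- the number of steps -/
noncomputable def KT (T R : ℝ) : ℕ := ⌈4 * R * Real.log T ^ 2⌉₊

theorem par {T R : ℝ} (hL : 4 ≤ Real.log T) (hR : 1 ≤ R) :
    0 < hT T ∧ hT T ≤ R ∧ hT T ≤ 1 ∧ R ≤ hT T * KT T R ∧ 2 * Real.log T ≤ hT T / R * KT T R ∧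
      hT T * KT T R ≤ 2 * R * Real.log T + 1 := by
  have hL0 : 0 < Real.log T := by linarith
  have h1 : 0 < hT T := by unfold hT; positivity
  have h2 : hT T ≤ 1 := by
    unfold hT
    rw [div_le_one (by positivity)]
    linarith
  have h3 : 4 * R * Real.log T ^ 2 ≤ KT T R := Nat.le_ceil _
  have h4 : (KT T R : ℝ) ≤ 4 * R * Real.log T ^ 2 + 1 := by
    have := Nat.ceil_lt_add_one (by positivity : 0 ≤ 4 * R * Real.log T ^ 2)
    exact this.le
  have h5 : hT T * (4 * R * Real.log T ^ 2) = 2 * R * Real.log T := by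
    unfold hT; field_simp; ring
  have h6 : 2 * R * Real.log T ≤ hT T * KT T R := by
    rw [← h5]; exact mul_le_mul_of_nonneg_left h3 h1.le
  refine ⟨h1, h2.trans hR, h2, ?_, ?_, ?_⟩
  · refine le_trans ?_ h6
    nlinarith
  · rw [div_mul_eq_mul_div, le_div_iff₀ (by linarith)]
    linarith
  · calc hT T * KT T R ≤ hT T * (4 * R * Real.log T ^ 2 + 1) :=
        mul_le_mul_of_nonneg_left h4 h1.le
      _ = 2 * R * Real.log T + hT T := by rw [mul_add, h5, mul_one]
      _ ≤ _ := by linarith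

/-- the tail factor is very small -/
theorem tail_small {T R : ℝ} (hL : 4 ≤ Real.log T) (hR : 1 ≤ R) (hRT : R ≤ T) :
    Real.exp (-(hT T / R * KT T R) ^ 2 / 2) / (hT T / R) ≤ 2 / T ^ 6 := by
  have hT0 : 0 < T := by
    by_contra h
    push Not at h
    have : 1 ≤ T := by linarith
    linarith
  have hT1 : 1 ≤ T := hR.trans hRT
  obtain ⟨h1, h2, h3, h4, h5, h6⟩ := par hL hR
  have h7 : Real.exp (-(hT T / R * KT T R) ^ 2 / 2) ≤ 1 / T ^ 8 := by
    have h8 : (1 : ℝ) / T ^ 8 = Real.exp (-(8 * Real.log T)) := by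
      rw [Real.exp_neg, show 8 * Real.log T = Real.log (T ^ 8) by rw [Real.log_pow]; norm_num,
        Real.exp_log (by positivity), one_div]
    rw [h8]
    apply Real.exp_le_exp.2
    have h9 : (2 * Real.log T) ^ 2 ≤ (hT T / R * KT T R) ^ 2 :=
      pow_le_pow_left₀ (by linarith) h5 2
    nlinarith
  have h10 : hT T / R = 1 / (2 * R * Real.log T) := by
    unfold hT; field_simp
  rw [h10, div_div_eq_mul_div, div_one]
  have h11 : Real.log T ≤ T := (Real.log_le_sub_one_of_pos hT0).trans (by linarith)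
  calc Real.exp (-(1 / (2 * R * Real.log T) * KT T R) ^ 2 / 2) * (2 * R * Real.log T)
      ≤ 1 / T ^ 8 * (2 * T * T) := by
        rw [← h10]
        gcongr
    _ = 2 / T ^ 6 := by field_simp

/-- **Partial sums are projections of longer partial sums.** -/
theorem proj : ∃ C : ℝ, 0 < C ∧ ∀ T R : ℝ, 4 ≤ Real.log T → Real.sqrt T ≤ R ^ 2 → 1 ≤ R → R ≤ T →
    ∀ N X : ℕ, 1 ≤ N → N ≤ X → (X : ℝ) ≤ 16 * T → (N : ℝ) ≤ R ^ 2 → ∀ t : ℝ,
    ‖UU (hT T) R (Real.log (N + 1 / 2)) (KT T R) (AA X) t - AA N t‖ ≤ C := by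
  obtain ⟨C₁, hC₁, h₁⟩ := UU_poly
  obtain ⟨C₂, hC₂, h₂⟩ := near_sum
  refine ⟨C₁ * (C₂ * 7 + 16), by positivity, ?_⟩
  intro T R hL hRT hR hRT1 N X hN hNX hX hNR t
  have hT1 : 1 ≤ T := hR.trans hRT1
  have hT0 : 0 < T := by linarith
  have hT5 : 54 ≤ T := by
    have h := Real.exp_one_gt_d9
    have h2 : Real.exp 4 ≤ T := by
      rw [← Real.log_le_log_iff (Real.exp_pos _) hT0, Real.log_exp]; exact hL
    have h3 : Real.exp 4 = Real.exp 1 ^ 4 := by rw [← Real.exp_nat_mul]; norm_num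
    rw [h3] at h2
    have h4 : (2.7182818283 : ℝ) ^ 4 ≤ Real.exp 1 ^ 4 := pow_le_pow_left₀ (by norm_num) h.le 4
    have : (54 : ℝ) ≤ 2.7182818283 ^ 4 := by norm_num
    linarith
  obtain ⟨k1, k2, k3, k4, k5, k6⟩ := par hL hR
  have hL0 : 0 < Real.log T := by linarith
  set y : ℝ := N + 1 / 2 with hy
  have hN0 : (1 : ℝ) ≤ N := by exact_mod_cast hN
  have hX0 : (N : ℝ) ≤ X := by exact_mod_cast hNX
  have hy0 : 0 < y := by rw [hy]; linarith
  have h3 := h₁ ℕ (Finset.Icc 1 X) (fun n => ((1 / Real.sqrt n : ℝ) : ℂ)) (fun n => Real.log n)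
    (hT T) R (Real.log y) (KT T R) t k1 k2 ?_
  · have e1 : (fun t => ∑ n ∈ Finset.Icc 1 X,
        ((1 / Real.sqrt n : ℝ) : ℂ) * cexp (((-(Real.log n * t) : ℝ) : ℂ) * I)) = AA X :=
      (funext (AA_eq X)).symm
    have e2 : ∑ n ∈ Finset.Icc 1 X, (if Real.log n < Real.log y then
        ((1 / Real.sqrt n : ℝ) : ℂ) * cexp (((-(Real.log n * t) : ℝ) : ℂ) * I) else 0) = AA N t := by
      rw [AA_eq, ← Finset.sum_filter]
      refine Finset.sum_congr ?_ fun _ _ => rfl
      ext n
      simp only [Finset.mem_filter, Finset.mem_Icc]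
      constructor
      · rintro ⟨⟨h1, h2⟩, h3⟩
        have hn0 : (0 : ℝ) < n := by exact_mod_cast h1
        rw [Real.log_lt_log_iff hn0 hy0, hy] at h3
        refine ⟨h1, ?_⟩
        by_contra hc
        push Not at hc
        have : (N : ℝ) + 1 ≤ n := by exact_mod_cast hc
        linarith
      · rintro ⟨h1, h2⟩
        have hn0 : (0 : ℝ) < n := by exact_mod_cast h1
        have : (n : ℝ) ≤ N := by exact_mod_cast h2
        refine ⟨⟨h1, h2.trans hNX⟩, ?_⟩
        rw [Real.log_lt_log_iff hn0 hy0, hy]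
        linarith
    rw [e1, e2] at h3
    refine h3.trans ?_
    apply mul_le_mul_of_nonneg_left _ hC₁.le
    have e3 : ∀ n : ℕ, ‖((1 / Real.sqrt n : ℝ) : ℂ)‖ = 1 / Real.sqrt n := fun n => by
      rw [Complex.norm_real, Real.norm_eq_abs, abs_of_nonneg (by positivity)]
    simp_rw [e3, mul_add]
    rw [Finset.sum_add_distrib, ← Finset.sum_mul]
    apply add_le_add
    · refine (h₂ y R X hy0 hR).trans ?_
      apply mul_le_mul_of_nonneg_left _ hC₂.le
      have hs0 : 0 < Real.sqrt y := Real.sqrt_pos.2 hy0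
      have hsy : Real.sqrt y ≤ 2 * R := by
        rw [show (2 * R : ℝ) = Real.sqrt ((2 * R) ^ 2) by rw [Real.sqrt_sq (by positivity)]]
        apply Real.sqrt_le_sqrt
        rw [hy]; nlinarith
      have hs1 : 1 ≤ Real.sqrt y := by
        rw [Real.one_le_sqrt, hy]; linarith
      have hsX : Real.sqrt X ≤ 4 * R ^ 2 := by
        calc Real.sqrt X ≤ Real.sqrt (16 * T) := Real.sqrt_le_sqrt hX
          _ = 4 * Real.sqrt T := by
            rw [Real.sqrt_mul (by norm_num), show (16 : ℝ) = 4 ^ 2 by norm_num,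
              Real.sqrt_sq (by norm_num)]
          _ ≤ _ := by linarith
      have a1 : 1 / Real.sqrt y ≤ 1 := (div_le_one hs0).2 hs1
      have a2 : 1 / Real.sqrt y * (y / R) ≤ 2 := by
        have : 1 / Real.sqrt y * (y / R) = Real.sqrt y / R := by
          rw [one_div_mul_eq_div, div_right_comm, Real.div_sqrt]
        rw [this, div_le_iff₀ (by linarith)]
        exact hsy
      have a3 : Real.sqrt X / R ^ 2 ≤ 4 := by
        rw [div_le_iff₀ (by positivity)]; exact hsX
      rw [mul_add, mul_one]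
      linarith
    · have h4 := sum_inv_sqrt X
      have h5 := tail_small hL hR hRT1
      have h6 : Real.sqrt X ≤ 4 * T := by
        rw [show (4 * T : ℝ) = Real.sqrt ((4 * T) ^ 2) by rw [Real.sqrt_sq (by positivity)]]
        apply Real.sqrt_le_sqrt
        nlinarith
      calc (∑ n ∈ Finset.Icc 1 X, 1 / Real.sqrt n) *
            (Real.exp (-(hT T / R * KT T R) ^ 2 / 2) / (hT T / R))
          ≤ (8 * T) * (2 / T ^ 6) := by
            apply mul_le_mul (by linarith) h5 (by positivity) (by positivity)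
        _ = 16 / T ^ 5 := by field_simp; ring
        _ ≤ 16 := by
            apply div_le_self (by norm_num)
            exact one_le_pow₀ hT1
  · intro n hn
    have hn1 : 1 ≤ n := (Finset.mem_Icc.1 hn).1
    have hn0 : (1 : ℝ) ≤ n := by exact_mod_cast hn1
    have hnX : (n : ℝ) ≤ X := by exact_mod_cast (Finset.mem_Icc.1 hn).2
    have b1 : 0 ≤ Real.log n := Real.log_nonneg hn0
    have b2 : Real.log n ≤ 2 * Real.log T := by
      rw [show 2 * Real.log T = Real.log (T ^ 2) by rw [Real.log_pow]; norm_num]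
      apply Real.log_le_log (by linarith)
      nlinarith
    have b3 : 0 ≤ Real.log y := Real.log_nonneg (by rw [hy]; linarith)
    have b4 : Real.log y ≤ 2 * Real.log T := by
      rw [show 2 * Real.log T = Real.log (T ^ 2) by rw [Real.log_pow]; norm_num]
      apply Real.log_le_log hy0
      rw [hy]; nlinarith
    rw [abs_mul, abs_of_pos k1]
    have b5 : |Real.log y - Real.log n| ≤ 2 * Real.log T := by
      rw [abs_le]; constructor <;> linarith
    calc |Real.log y - Real.log n| * hT T ≤ 2 * Real.log T * hT T :=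
          mul_le_mul_of_nonneg_right b5 k1.le
      _ = 1 := by unfold hT; field_simp
      _ ≤ Real.pi := by linarith [Real.pi_gt_three]

end Pool.Agent.H470
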