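import Pool.Graph.R_seed8.TH572.Saw4846
import Pool.Agent.H470.Nl
import Pool.Agent.H470.DP

set_option autoImplicit false

/-! Smoothed partial sums as averages of zeta. -/

namespace Pool.Agent.H470

open MeasureTheory Filter Topology Set
open Pool.Agent.W184 (zn zn_nonneg zn_cont zn_le')
open Pool.Agent.R313.FN (gz)

/-- the smoothed partial sum -/
noncomputable def sf (φ : ℝ → ℝ) (δ : ℝ) (X : ℕ) (t : ℝ) : ℂ :=
  ∑ n ∈ Finset.Icc 1 X, (φ (δ * Real.log n) : ℂ) * (n:ℂ) ^ (-(1 / 2 + Complex.I * (t:ℂ)))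

lemma em_bd {s : ℂ} (h0 : 0 < s.re) (h1 : s ≠ 1) {M : ℕ} (hM : 1 ≤ M) :
    ‖riemannZeta s - ∑ n ∈ Finset.Icc 1 M, (n:ℂ) ^ (-s)‖ ≤
      (M:ℝ) ^ (1 - s.re) / ‖1 - s‖ + 1 / 2 * (M:ℝ) ^ (-s.re) + ‖s‖ * ((M:ℝ) ^ (-s.re) / (2 * s.re)) := by
  have hM0 : (0:ℝ) < M := by exact_mod_cast hM
  have h := Pool.Agent.TH572.Saw.em h0 h1 hM0
  rw [Nat.floor_natCast, Int.fract_natCast] at h
  have e1 : riemannZeta s - ∑ n ∈ Finset.Icc 1 M, (n:ℂ) ^ (-s) =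
      -(s * ∫ u in Ioi (M:ℝ), ((Int.fract u - 1 / 2 : ℝ) : ℂ) * (u : ℂ) ^ (-s - 1)) - ((M:ℝ):ℂ) ^ (1 - s) / (1 - s) + (((0 - 1 / 2 : ℝ)) : ℂ) * ((M:ℝ):ℂ) ^ (-s) := by
    rw [h]
    ring
  rw [e1]
  have h2 : ‖∫ u in Ioi (M:ℝ), ((Int.fract u - 1 / 2 : ℝ) : ℂ) * (u : ℂ) ^ (-s - 1)‖ ≤ (M:ℝ) ^ (-s.re) / (2 * s.re) := by
    have h3 : IntegrableOn (fun u : ℝ => u ^ (-s.re - 1)) (Ioi (M:ℝ)) := integrableOn_Ioi_rpow_of_lt (by linarith) hM0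
    refine (norm_integral_le_of_norm_le (g := fun u : ℝ => 1 / 2 * u ^ (-s.re - 1)) (h3.const_mul _) ?_).trans (le_of_eq ?_)
    · refine (ae_restrict_mem measurableSet_Ioi).mono fun u hu => ?_
      have hu0 : 0 < u := hM0.trans hu
      rw [norm_mul, Complex.norm_real, Complex.norm_cpow_eq_rpow_re_of_pos hu0]
      have e2 : (-s - 1).re = -s.re - 1 := by simp
      rw [e2]
      refine mul_le_mul_of_nonneg_right ?_ (by positivity)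
      rw [Real.norm_eq_abs, abs_le]
      constructor
      · linarith [Int.fract_nonneg u]
      · linarith [Int.fract_lt_one u]
    · rw [integral_const_mul, integral_Ioi_rpow_of_lt (by linarith) hM0]
      have e3 : -s.re - 1 + 1 = -s.re := by ring
      rw [e3]
      have h4 : s.re ≠ 0 := h0.ne'
      field_simp
  have n1 : ‖((M:ℝ):ℂ) ^ (1 - s) / (1 - s)‖ = (M:ℝ) ^ (1 - s.re) / ‖1 - s‖ := by
    rw [norm_div, Complex.norm_cpow_eq_rpow_re_of_pos hM0]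
    simp
  have n2 : ‖(((0 - 1 / 2 : ℝ)) : ℂ) * ((M:ℝ):ℂ) ^ (-s)‖ = 1 / 2 * (M:ℝ) ^ (-s.re) := by
    rw [norm_mul, Complex.norm_cpow_eq_rpow_re_of_pos hM0, Complex.norm_real]
    norm_num
  have n3 : ‖-(s * ∫ u in Ioi (M:ℝ), ((Int.fract u - 1 / 2 : ℝ) : ℂ) * (u : ℂ) ^ (-s - 1))‖ ≤ ‖s‖ * ((M:ℝ) ^ (-s.re) / (2 * s.re)) := by
    rw [norm_neg, norm_mul]
    exact mul_le_mul_of_nonneg_left h2 (norm_nonneg _)
  refine (norm_add_le _ _).trans ?_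
  refine (add_le_add_left (norm_sub_le _ _) _).trans ?_
  rw [n1, n2]
  linarith

/-- the local bound -/
lemma em_loc {δ t : ℝ} (hδ : 0 < δ) (hδ1 : δ ≤ 1 / 16) (ht : 1 ≤ t) (y : ℝ) :
    ‖gz δ t (1 + (y:ℂ) * Complex.I) - ∑ n ∈ Finset.Icc 1 ⌈t ^ 2⌉₊, (n:ℂ) ^ (-(1 / 2 + (t:ℂ) * Complex.I + δ * (1 + (y:ℂ) * Complex.I)))‖ ≤ 7 * (1 + |y|) := by
  obtain ⟨s, hs⟩ : ∃ s : ℂ, s = 1 / 2 + (t:ℂ) * Complex.I + δ * (1 + (y:ℂ) * Complex.I) := ⟨_, rfl⟩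
  obtain ⟨M, hM⟩ : ∃ M : ℕ, M = ⌈t ^ 2⌉₊ := ⟨_, rfl⟩
  have hre : s.re = 1 / 2 + δ := by rw [hs]; simp
  have him : s.im = t + δ * y := by rw [hs]; simp
  have e0 : gz δ t (1 + (y:ℂ) * Complex.I) = riemannZeta s := by unfold gz; rw [hs]
  rw [e0, ← hs, ← hM]
  have ht2 : 1 ≤ t ^ 2 := one_le_pow₀ ht
  have hMl : t ^ 2 ≤ M := by rw [hM]; exact Nat.le_ceil _
  have hMu : (M:ℝ) < t ^ 2 + 1 := by rw [hM]; exact Nat.ceil_lt_add_one (by positivity)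
  have hM1 : 1 ≤ M := by
    have : (1:ℝ) ≤ M := ht2.trans hMl
    exact_mod_cast this
  have hs1 : s ≠ 1 := by
    intro h
    rw [h] at hre
    simp at hre
    linarith
  refine (em_bd (by rw [hre]; linarith) hs1 hM1).trans ?_
  rw [hre]
  have hM0 : (1:ℝ) ≤ M := by exact_mod_cast hM1
  have hsq : Real.sqrt M ≤ 3 / 2 * t := by
    rw [Real.sqrt_le_left (by linarith)]
    nlinarith
  have hsq2 : t ≤ Real.sqrt M := Real.le_sqrt_of_sq_le hMl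
  have p1 : (M:ℝ) ^ (1 - (1 / 2 + δ)) ≤ 3 / 2 * t := by
    refine le_trans ?_ hsq
    rw [Real.sqrt_eq_rpow]
    exact Real.rpow_le_rpow_of_exponent_le hM0 (by linarith)
  have p2 : (M:ℝ) ^ (-(1 / 2 + δ)) ≤ 1 / t := by
    have h1 : (M:ℝ) ^ (-(1 / 2 + δ)) ≤ (M:ℝ) ^ (-(1 / 2 : ℝ)) := Real.rpow_le_rpow_of_exponent_le hM0 (by linarith)
    refine h1.trans ?_
    rw [Real.rpow_neg (by linarith), ← Real.sqrt_eq_rpow, one_div]
    exact inv_anti₀ (by linarith) hsq2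
  have p0 : 0 ≤ (M:ℝ) ^ (-(1 / 2 + δ)) := by positivity
  have hns : ‖s‖ ≤ 1 + t + |y| := by
    refine (Complex.norm_le_abs_re_add_abs_im s).trans ?_
    rw [hre, him, abs_of_pos (by linarith)]
    have h1 := abs_add_le t (δ * y)
    rw [abs_of_pos (by linarith : 0 < t), abs_mul, abs_of_pos hδ] at h1
    nlinarith [abs_nonneg y]
  have hay := abs_nonneg y
  have q1 : (M:ℝ) ^ (1 - (1 / 2 + δ)) / ‖1 - s‖ ≤ 4 * (1 + |y|) := by
    have hr : 7 / 16 ≤ ‖1 - s‖ := by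
      have h1 := Complex.abs_re_le_norm (1 - s)
      have h2 : (1 - s).re = 1 / 2 - δ := by rw [Complex.sub_re, hre, Complex.one_re]; ring
      rw [h2] at h1
      linarith [le_abs_self (1 / 2 - δ)]
    have hi : |t + δ * y| ≤ ‖1 - s‖ := by
      have h1 := Complex.abs_im_le_norm (1 - s)
      have h2 : (1 - s).im = -(t + δ * y) := by rw [Complex.sub_im, him, Complex.one_im]; ring
      rw [h2, abs_neg] at h1
      exact h1
    rw [div_le_iff₀ (by linarith)]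
    refine p1.trans ?_
    rcases le_or_gt |y| t with h | h
    · have h1 : |δ * y| ≤ t / 16 := by
        rw [abs_mul, abs_of_pos hδ]
        nlinarith
      have h2 : t * (15 / 16) ≤ ‖1 - s‖ := by
        refine le_trans ?_ hi
        have h3 := neg_abs_le (δ * y)
        have h4 := le_abs_self (t + δ * y)
        linarith
      nlinarith
    · nlinarith
  have q2 : 1 / 2 * (M:ℝ) ^ (-(1 / 2 + δ)) ≤ 1 / 2 := by
    have h1 : 1 / t ≤ 1 := by rw [div_le_one (by linarith)]; exact ht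
    linarith
  have q3 : ‖s‖ * ((M:ℝ) ^ (-(1 / 2 + δ)) / (2 * (1 / 2 + δ))) ≤ 2 + |y| := by
    have h1 : (M:ℝ) ^ (-(1 / 2 + δ)) / (2 * (1 / 2 + δ)) ≤ 1 / t := by
      rw [div_le_iff₀ (by linarith)]
      have h2 : 0 ≤ 1 / t := by positivity
      nlinarith
    calc ‖s‖ * ((M:ℝ) ^ (-(1 / 2 + δ)) / (2 * (1 / 2 + δ))) ≤ (1 + t + |y|) * (1 / t) := by
          apply mul_le_mul hns h1 (by positivity) (by positivity)
      _ ≤ 2 + |y| := by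
          rw [mul_one_div, div_le_iff₀ (by linarith)]
          nlinarith
  linarith

/-- the exact representation -/
lemma rep {φ : ℝ → ℝ} (h : Sm φ) (δ : ℝ) (X : ℕ) (t : ℝ) :
    sf φ δ X t = ((1 / (2 * Real.pi) : ℝ) : ℂ) * ∫ y : ℝ, ps φ y * ∑ n ∈ Finset.Icc 1 X, (n:ℂ) ^ (-(1 / 2 + (t:ℂ) * Complex.I + δ * (1 + (y:ℂ) * Complex.I))) := by
  have hterm : ∀ n ∈ Finset.Icc 1 X, ∀ y : ℝ, (n:ℂ) ^ (-(1 / 2 + (t:ℂ) * Complex.I + δ * (1 + (y:ℂ) * Complex.I))) =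
      Complex.exp (-(((δ * Real.log n : ℝ) : ℂ) * (1 + y * Complex.I))) * (n:ℂ) ^ (-(1 / 2 + Complex.I * (t:ℂ))) := by
    intro n hn y
    have hn0 : (n:ℂ) ≠ 0 := by
      rw [Finset.mem_Icc] at hn
      exact_mod_cast (by omega : n ≠ 0)
    have e1 : -(1 / 2 + (t:ℂ) * Complex.I + δ * (1 + (y:ℂ) * Complex.I)) = -(δ * (1 + (y:ℂ) * Complex.I)) + -(1 / 2 + Complex.I * (t:ℂ)) := by ring
    rw [e1, Complex.cpow_add _ _ hn0]
    congr 1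
    rw [Complex.cpow_def_of_ne_zero hn0, ← Complex.natCast_log]
    congr 1
    push_cast
    ring
  have hint : ∀ c : ℂ, ∀ x : ℝ, Integrable (fun y : ℝ => ps φ y * Complex.exp (-((x:ℂ) * (1 + y * Complex.I))) * c) := by
    intro c x
    refine Integrable.mul_const ?_ c
    have hb : ∀ y : ℝ, ‖Complex.exp (-((x:ℂ) * (1 + y * Complex.I)))‖ ≤ Real.exp (-x) := by
      intro y
      rw [Complex.norm_exp]
      simp
    exact (ps_integrable h).mul_bdd (c := Real.exp (-x)) (by fun_prop) (Eventually.of_forall hb)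
  have e2 : ∀ y : ℝ, ps φ y * ∑ n ∈ Finset.Icc 1 X, (n:ℂ) ^ (-(1 / 2 + (t:ℂ) * Complex.I + δ * (1 + (y:ℂ) * Complex.I))) =
      ∑ n ∈ Finset.Icc 1 X, ps φ y * Complex.exp (-(((δ * Real.log n : ℝ) : ℂ) * (1 + y * Complex.I))) * (n:ℂ) ^ (-(1 / 2 + Complex.I * (t:ℂ))) := by
    intro y
    rw [Finset.mul_sum]
    refine Finset.sum_congr rfl fun n hn => ?_
    rw [hterm n hn y, mul_assoc]
  simp_rw [e2]
  rw [integral_finsetSum _ fun n _ => hint _ _, Finset.mul_sum]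
  unfold sf
  refine Finset.sum_congr rfl fun n _ => ?_
  rw [integral_mul_const, ← mul_assoc, ← ps_inv h]

/-- independence of the length -/
lemma sf_len {φ : ℝ → ℝ} {B δ : ℝ} (hδ : 0 < δ) (hB : ∀ x, B ≤ x → φ x = 0) {X Y : ℕ} (hX : Real.exp (B / δ) ≤ X) (hXY : X ≤ Y) (t : ℝ) :
    sf φ δ Y t = sf φ δ X t := by
  unfold sf
  symm
  refine Finset.sum_subset (Finset.Icc_subset_Icc le_rfl hXY) fun n hn hn' => ?_
  rw [Finset.mem_Icc] at hn hn'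
  have hnX : X < n := by
    by_contra hcon
    exact hn' ⟨hn.1, by omega⟩
  have hn0 : (0:ℝ) < n := by exact_mod_cast (by omega : 0 < n)
  have h1 : B / δ ≤ Real.log n := by
    rw [Real.le_log_iff_exp_le hn0]
    refine hX.trans ?_
    exact_mod_cast hnX.le
  have h2 : B ≤ δ * Real.log n := by
    rw [div_le_iff₀ hδ] at h1
    linarith
  rw [hB _ h2]
  simp

lemma gz_c {δ : ℝ} (hδ : 0 < δ) (hδ1 : δ ≤ 1 / 16) : Continuous fun p : ℝ × ℝ => gz δ p.1 (1 + (p.2:ℂ) * Complex.I) := by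
  rw [continuous_iff_continuousAt]
  intro p
  unfold gz
  refine ContinuousAt.comp (f := fun p : ℝ × ℝ => (1 / 2 + (p.1:ℂ) * Complex.I + δ * (1 + (p.2:ℂ) * Complex.I) : ℂ)) ?_ (by fun_prop)
  refine (differentiableAt_riemannZeta ?_).continuousAt
  intro h
  have := congrArg Complex.re h
  simp at this
  linarith

lemma gz_bd {δ : ℝ} (hδ : 0 < δ) (hδ1 : δ ≤ 1 / 16) (t y : ℝ) : ‖gz δ t (1 + (y:ℂ) * Complex.I)‖ ≤ 12 * (1 + |t|) * (1 + |y|) := by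
  rw [gz_zn]
  refine (zn_le' (by linarith) (by linarith)).trans ?_
  have h1 := abs_add_le t (δ * y)
  rw [abs_mul, abs_of_pos hδ] at h1
  nlinarith [abs_nonneg t, abs_nonneg y]

lemma psg_int {φ : ℝ → ℝ} (h : Sm φ) {δ : ℝ} (hδ : 0 < δ) (hδ1 : δ ≤ 1 / 16) (t : ℝ) :
    Integrable fun y : ℝ => ps φ y * gz δ t (1 + (y:ℂ) * Complex.I) := by
  have h1 : Integrable fun y : ℝ => 12 * (1 + |t|) * ((1 + |y|) ^ 1 * ‖ps φ y‖) := (ps_wint h 1).const_mul _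
  have hc : Continuous fun y : ℝ => gz δ t (1 + (y:ℂ) * Complex.I) := (gz_c hδ hδ1).comp (by fun_prop : Continuous fun y : ℝ => (t, y))
  refine h1.mono' ((ps_cont h).mul hc).aestronglyMeasurable (Eventually.of_forall fun y => ?_)
  rw [norm_mul]
  have h2 := gz_bd hδ hδ1 t y
  have h3 := norm_nonneg (ps φ y)
  rw [pow_one]
  nlinarith [mul_le_mul_of_nonneg_left h2 h3]

/-- the whole average of zeta -/
noncomputable def ia (φ : ℝ → ℝ) (δ t : ℝ) : ℂ := ((1 / (2 * Real.pi) : ℝ) : ℂ) * ∫ y : ℝ, ps φ y * gz δ t (1 + (y:ℂ) * Complex.I)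

/-- the pointwise approximation -/
theorem sf_ia {φ : ℝ → ℝ} (h : Sm φ) : ∃ C : ℝ, 0 ≤ C ∧ ∀ (B δ : ℝ), 0 < δ → δ ≤ 1 / 16 → (∀ x, B ≤ x → φ x = 0) → ∀ (X : ℕ) (t : ℝ),
    Real.exp (B / δ) ≤ X → 1 ≤ t → Real.exp (B / δ) ≤ t ^ 2 → ‖sf φ δ X t - ia φ δ t‖ ≤ C := by
  refine ⟨1 / (2 * Real.pi) * ∫ y : ℝ, 7 * ((1 + |y|) ^ 1 * ‖ps φ y‖), by positivity, fun B δ hδ hδ1 hB X t hX ht ht2 => ?_⟩
  have e1 : sf φ δ X t = sf φ δ ⌈t ^ 2⌉₊ t := by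
    have hce : Real.exp (B / δ) ≤ (⌈t ^ 2⌉₊ : ℕ) := ht2.trans (Nat.le_ceil _)
    rcases le_total X ⌈t ^ 2⌉₊ with hle | hle
    · exact (sf_len hδ hB hX hle t).symm
    · exact sf_len hδ hB hce hle t
  rw [e1, rep h]
  unfold ia
  have hi1 := psg_int h hδ hδ1 t
  have hw := (ps_wint h 1).const_mul 7
  have hcA : Continuous fun y : ℝ => ps φ y * ∑ n ∈ Finset.Icc 1 ⌈t ^ 2⌉₊, (n:ℂ) ^ (-(1 / 2 + (t:ℂ) * Complex.I + δ * (1 + (y:ℂ) * Complex.I))) := by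
    refine (ps_cont h).mul (continuous_finsetSum _ fun n hn => ?_)
    rw [Finset.mem_Icc] at hn
    refine Continuous.const_cpow (by fun_prop) (Or.inl ?_)
    exact_mod_cast (by omega : n ≠ 0)
  have hdiff : ∀ y : ℝ, ‖ps φ y * (∑ n ∈ Finset.Icc 1 ⌈t ^ 2⌉₊, (n:ℂ) ^ (-(1 / 2 + (t:ℂ) * Complex.I + δ * (1 + (y:ℂ) * Complex.I)))) - ps φ y * gz δ t (1 + (y:ℂ) * Complex.I)‖ ≤
      7 * ((1 + |y|) ^ 1 * ‖ps φ y‖) := by
    intro y
    rw [← mul_sub, norm_mul, norm_sub_rev, pow_one]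
    have h2 := mul_le_mul_of_nonneg_left (em_loc hδ hδ1 ht y) (norm_nonneg (ps φ y))
    linarith
  have hi2 : Integrable fun y : ℝ => ps φ y * (∑ n ∈ Finset.Icc 1 ⌈t ^ 2⌉₊, (n:ℂ) ^ (-(1 / 2 + (t:ℂ) * Complex.I + δ * (1 + (y:ℂ) * Complex.I)))) - ps φ y * gz δ t (1 + (y:ℂ) * Complex.I) :=
    hw.mono' (hcA.aestronglyMeasurable.sub hi1.aestronglyMeasurable) (Eventually.of_forall hdiff)
  have hi3 : Integrable fun y : ℝ => ps φ y * (∑ n ∈ Finset.Icc 1 ⌈t ^ 2⌉₊, (n:ℂ) ^ (-(1 / 2 + (t:ℂ) * Complex.I + δ * (1 + (y:ℂ) * Complex.I)))) := by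
    have := hi2.add hi1
    refine this.congr (Eventually.of_forall fun y => ?_)
    simp
  rw [← mul_sub, ← integral_sub hi3 hi1, norm_mul, Complex.norm_real, Real.norm_of_nonneg (by positivity)]
  refine mul_le_mul_of_nonneg_left ?_ (by positivity)
  exact norm_integral_le_of_norm_le hw (Eventually.of_forall hdiff)

end Pool.Agent.H470
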