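import Pool.Agent.H470.Pr
import Pool.Agent.H470.Lp

set_option autoImplicit false

/-!
# Weighted partial sums as projections of longer ones
-/

open Complex MeasureTheory Set Filter Topology

namespace Pool.Agent.H470

/-- weighted partial sums -/
noncomputable def WW (w : ℕ → ℝ) (N : ℕ) (t : ℝ) : ℂ := ∑ n ∈ Finset.Icc 1 N, (w n : ℂ) * (n : ℂ) ^ (-(1 / 2 + I * (t : ℂ)))

theorem WW_eq (w : ℕ → ℝ) (N : ℕ) (t : ℝ) : WW w N t = ∑ n ∈ Finset.Icc 1 N,
    ((w n * (1 / Real.sqrt n) : ℝ) : ℂ) * cexp (((-(Real.log n * t) : ℝ) : ℂ) * I) := by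
  unfold WW
  refine Finset.sum_congr rfl fun n hn => ?_
  rw [term_eq (Finset.mem_Icc.1 hn).1 t]
  push_cast
  ring

theorem WW_cont (w : ℕ → ℝ) (N : ℕ) : Continuous (WW w N) := by
  have : WW w N = fun t => ∑ n ∈ Finset.Icc 1 N,
    ((w n * (1 / Real.sqrt n) : ℝ) : ℂ) * cexp (((-(Real.log n * t) : ℝ) : ℂ) * I) := funext (WW_eq w N)
  rw [this]
  fun_prop

theorem WW_neg (w : ℕ → ℝ) (N : ℕ) (t : ℝ) : ‖WW w N (-t)‖ = ‖WW w N t‖ := by
  have h1 : WW w N (-t) = (starRingEnd ℂ) (WW w N t) := by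
    rw [WW_eq, WW_eq, map_sum]
    refine Finset.sum_congr rfl fun n _ => ?_
    rw [map_mul, Complex.conj_ofReal, ← Complex.exp_conj, map_mul, Complex.conj_ofReal, Complex.conj_I]
    congr 2
    push_cast
    ring
  rw [h1, Complex.norm_conj]

/-- weighted partial sums are projections of longer ones -/
theorem projw : ∃ C : ℝ, 0 < C ∧ ∀ T R : ℝ, 4 ≤ Real.log T → Real.sqrt T ≤ R ^ 2 → 1 ≤ R → R ≤ T →
    ∀ N X : ℕ, 1 ≤ N → N ≤ X → (X : ℝ) ≤ 16 * T → (N : ℝ) ≤ R ^ 2 → ∀ w : ℕ → ℝ, (∀ n, |w n| ≤ 1) → ∀ t : ℝ,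
    ‖UU (hT T) R (Real.log (N + 1 / 2)) (KT T R) (WW w X) t - WW w N t‖ ≤ C := by
  obtain ⟨C₁, hC₁, h₁⟩ := UU_poly
  obtain ⟨C₂, hC₂, h₂⟩ := near_sum
  refine ⟨C₁ * (C₂ * 7 + 16), by positivity, ?_⟩
  intro T R hL hRT hR hRT1 N X hN hNX hX hNR w hw t
  have hT1 : 1 ≤ T := hR.trans hRT1
  have hT0 : 0 < T := by linarith
  have hT5 : 54 ≤ T := by
    have h := Real.exp_one_gt_d9
    have h2 : Real.exp 4 ≤ T := by
      rw [← Real.log_le_log_iff (Real.exp_pos _) hT0, Real.log_exp]; exact hL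
    have h3 : Real.exp 4 = Real.exp 1 ^ 4 := by rw [← Real.exp_nat_mul]; norm_num
    rw [h3] at h2
    have h4 : (2.7182818283 : ℝ) ^ 4 ≤ Real.exp 1 ^ 4 := pow_le_pow_left₀ (by norm_num) h.le 4
    have : (54 : ℝ) ≤ 2.7182818283 ^ 4 := by norm_num
    linarith
  obtain ⟨k1, k2, k3, k4, k5, k6⟩ := par hL hR
  have hL0 : 0 < Real.log T := by linarith
  set y : ℝ := N + 1 / 2 with hy
  have hN0 : (1 : ℝ) ≤ N := by exact_mod_cast hN
  have hX0 : (N : ℝ) ≤ X := by exact_mod_cast hNX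
  have hy0 : 0 < y := by rw [hy]; linarith
  have h3 := h₁ ℕ (Finset.Icc 1 X) (fun n => ((w n * (1 / Real.sqrt n) : ℝ) : ℂ)) (fun n => Real.log n)
    (hT T) R (Real.log y) (KT T R) t k1 k2 ?_
  · have e1 : (fun t => ∑ n ∈ Finset.Icc 1 X,
        ((w n * (1 / Real.sqrt n) : ℝ) : ℂ) * cexp (((-(Real.log n * t) : ℝ) : ℂ) * I)) = WW w X :=
      (funext (WW_eq w X)).symm
    have e2 : ∑ n ∈ Finset.Icc 1 X, (if Real.log n < Real.log y then
        ((w n * (1 / Real.sqrt n) : ℝ) : ℂ) * cexp (((-(Real.log n * t) : ℝ) : ℂ) * I) else 0) = WW w N t := by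
      rw [WW_eq, ← Finset.sum_filter]
      refine Finset.sum_congr ?_ fun _ _ => rfl
      ext n
      simp only [Finset.mem_filter, Finset.mem_Icc]
      constructor
      · rintro ⟨⟨h1, h2⟩, h3⟩
        have hn0 : (0 : ℝ) < n := by exact_mod_cast h1
        rw [Real.log_lt_log_iff hn0 hy0, hy] at h3
        refine ⟨h1, ?_⟩
        by_contra hc
        push Not at hc
        have : (N : ℝ) + 1 ≤ n := by exact_mod_cast hc
        linarith
      · rintro ⟨h1, h2⟩
        have hn0 : (0 : ℝ) < n := by exact_mod_cast h1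
        have : (n : ℝ) ≤ N := by exact_mod_cast h2
        refine ⟨⟨h1, h2.trans hNX⟩, ?_⟩
        rw [Real.log_lt_log_iff hn0 hy0, hy]
        linarith
    rw [e1, e2] at h3
    refine h3.trans ?_
    apply mul_le_mul_of_nonneg_left _ hC₁.le
    have e3 : ∀ n : ℕ, ‖((w n * (1 / Real.sqrt n) : ℝ) : ℂ)‖ ≤ 1 / Real.sqrt n := fun n => by
      rw [Complex.norm_real, Real.norm_eq_abs, abs_mul, abs_of_nonneg (show 0 ≤ 1 / Real.sqrt n by positivity)]
      exact mul_le_of_le_one_left (by positivity) (hw n)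
    have hpos : 0 < hT T / R := div_pos k1 (by linarith)
    refine le_trans (Finset.sum_le_sum fun n _ => mul_le_mul_of_nonneg_right (e3 n) (by positivity)) ?_
    simp_rw [mul_add]
    rw [Finset.sum_add_distrib, ← Finset.sum_mul]
    apply add_le_add
    · refine (h₂ y R X hy0 hR).trans ?_
      apply mul_le_mul_of_nonneg_left _ hC₂.le
      have hs0 : 0 < Real.sqrt y := Real.sqrt_pos.2 hy0
      have hsy : Real.sqrt y ≤ 2 * R := by
        rw [show (2 * R : ℝ) = Real.sqrt ((2 * R) ^ 2) by rw [Real.sqrt_sq (by positivity)]]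
        apply Real.sqrt_le_sqrt
        rw [hy]; nlinarith
      have hs1 : 1 ≤ Real.sqrt y := by
        rw [Real.one_le_sqrt, hy]; linarith
      have hsX : Real.sqrt X ≤ 4 * R ^ 2 := by
        calc Real.sqrt X ≤ Real.sqrt (16 * T) := Real.sqrt_le_sqrt hX
          _ = 4 * Real.sqrt T := by
            rw [Real.sqrt_mul (by norm_num), show (16 : ℝ) = 4 ^ 2 by norm_num,
              Real.sqrt_sq (by norm_num)]
          _ ≤ _ := by linarith
      have a1 : 1 / Real.sqrt y ≤ 1 := (div_le_one hs0).2 hs1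
      have a2 : 1 / Real.sqrt y * (y / R) ≤ 2 := by
        have : 1 / Real.sqrt y * (y / R) = Real.sqrt y / R := by
          rw [one_div_mul_eq_div, div_right_comm, Real.div_sqrt]
        rw [this, div_le_iff₀ (by linarith)]
        exact hsy
      have a3 : Real.sqrt X / R ^ 2 ≤ 4 := by
        rw [div_le_iff₀ (by positivity)]; exact hsX
      rw [mul_add, mul_one]
      linarith
    · have h4 := sum_inv_sqrt X
      have h5 := tail_small hL hR hRT1
      have h6 : Real.sqrt X ≤ 4 * T := by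
        rw [show (4 * T : ℝ) = Real.sqrt ((4 * T) ^ 2) by rw [Real.sqrt_sq (by positivity)]]
        apply Real.sqrt_le_sqrt
        nlinarith
      calc (∑ n ∈ Finset.Icc 1 X, 1 / Real.sqrt n) *
            (Real.exp (-(hT T / R * KT T R) ^ 2 / 2) / (hT T / R))
          ≤ (8 * T) * (2 / T ^ 6) := by
            apply mul_le_mul (by linarith) h5 (by positivity) (by positivity)
        _ = 16 / T ^ 5 := by field_simp; ring
        _ ≤ 16 := by
            apply div_le_self (by norm_num)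
            exact one_le_pow₀ hT1
  · intro n hn
    have hn1 : 1 ≤ n := (Finset.mem_Icc.1 hn).1
    have hn0 : (1 : ℝ) ≤ n := by exact_mod_cast hn1
    have hnX : (n : ℝ) ≤ X := by exact_mod_cast (Finset.mem_Icc.1 hn).2
    have b1 : 0 ≤ Real.log n := Real.log_nonneg hn0
    have b2 : Real.log n ≤ 2 * Real.log T := by
      rw [show 2 * Real.log T = Real.log (T ^ 2) by rw [Real.log_pow]; norm_num]
      apply Real.log_le_log (by linarith)
      nlinarith
    have b3 : 0 ≤ Real.log y := Real.log_nonneg (by rw [hy]; linarith)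
    have b4 : Real.log y ≤ 2 * Real.log T := by
      rw [show 2 * Real.log T = Real.log (T ^ 2) by rw [Real.log_pow]; norm_num]
      apply Real.log_le_log hy0
      rw [hy]; nlinarith
    rw [abs_mul, abs_of_pos k1]
    have b5 : |Real.log y - Real.log n| ≤ 2 * Real.log T := by
      rw [abs_le]; constructor <;> linarith
    calc |Real.log y - Real.log n| * hT T ≤ 2 * Real.log T * hT T :=
          mul_le_mul_of_nonneg_right b5 k1.le
      _ = 1 := by unfold hT; field_simp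
      _ ≤ Real.pi := by linarith [Real.pi_gt_three]

/-- the bound in mean -/
theorem mono_w (p : ℝ) (hp : 1 < p) : ∃ C : ℝ, 0 < C ∧ ∀ T R : ℝ, 4 ≤ Real.log T →
    Real.sqrt T ≤ R ^ 2 → 1 ≤ R → R ≤ T → ∀ N X : ℕ, 1 ≤ N → N ≤ X → (X : ℝ) ≤ 16 * T →
    (N : ℝ) ≤ R ^ 2 → ∀ w : ℕ → ℝ, (∀ n, |w n| ≤ 1) → ∀ a b : ℝ, a ≤ b →
    ∫ t in a..b, ‖WW w N t‖ ^ p ≤
      C * ((∫ t in (a - (2 * R * Real.log T + 2))..(b + (2 * R * Real.log T + 2)), ‖WW w X t‖ ^ p) +
        (b - a)) := by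
  obtain ⟨C₀, hC₀, hproj⟩ := projw
  obtain ⟨C₁, hC₁, hU⟩ := UU_Lp p hp
  have hp0 : 0 ≤ p := by linarith
  refine ⟨2 ^ p * (C₁ + C₀ ^ p), by positivity, ?_⟩
  intro T R hL hRT hR hRT1 N X hN hNX hX hNR w hw a b hab
  obtain ⟨k1, k2, k3, k4, k5, k6⟩ := par hL hR
  have hX0 := WW_cont w X
  have hpt : ∀ t, ‖WW w N t‖ ^ p ≤ 2 ^ p *
      (‖UU (hT T) R (Real.log (N + 1 / 2)) (KT T R) (WW w X) t‖ ^ p + C₀ ^ p) := by
    intro t
    refine le_trans ?_ (add_rpow2 (norm_nonneg _) hC₀.le hp0)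
    apply Real.rpow_le_rpow (norm_nonneg _) _ hp0
    have h1 := hproj T R hL hRT hR hRT1 N X hN hNX hX hNR w hw t
    calc ‖WW w N t‖ = ‖UU (hT T) R (Real.log (N + 1 / 2)) (KT T R) (WW w X) t -
          (UU (hT T) R (Real.log (N + 1 / 2)) (KT T R) (WW w X) t - WW w N t)‖ := by congr 1; ring
      _ ≤ _ := (norm_sub_le _ _).trans (add_le_add le_rfl h1)
  have hUc : Continuous fun t =>
      ‖UU (hT T) R (Real.log (N + 1 / 2)) (KT T R) (WW w X) t‖ ^ p := normp_cont (UU_cont hX0) hp0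
  have h2 := hU (hT T) R (Real.log (N + 1 / 2)) (KT T R) k1 k2 k4 (WW w X) hX0 a b hab
  have hK0 : 0 ≤ hT T * KT T R := by positivity
  have h3 : ∫ t in (a - hT T * KT T R)..(b + hT T * KT T R + hT T), ‖WW w X t‖ ^ p ≤
      ∫ t in (a - (2 * R * Real.log T + 2))..(b + (2 * R * Real.log T + 2)), ‖WW w X t‖ ^ p :=
    int_mono_set (normp_cont hX0 hp0) (fun t => Real.rpow_nonneg (norm_nonneg _) _)
      (by linarith) (by linarith) (by linarith)
  set F := ∫ t in (a - (2 * R * Real.log T + 2))..(b + (2 * R * Real.log T + 2)), ‖WW w X t‖ ^ p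
    with hF
  have hF0 : 0 ≤ F := by
    apply intervalIntegral.integral_nonneg (by linarith)
    intro t _; positivity
  calc ∫ t in a..b, ‖WW w N t‖ ^ p
      ≤ ∫ t in a..b, 2 ^ p *
      (‖UU (hT T) R (Real.log (N + 1 / 2)) (KT T R) (WW w X) t‖ ^ p + C₀ ^ p) :=
        intervalIntegral.integral_mono_on hab ((normp_cont (WW_cont w N) hp0).intervalIntegrable _ _)
          ((continuous_const.mul (hUc.add continuous_const)).intervalIntegrable _ _)
          fun t _ => hpt t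
    _ = 2 ^ p * ((∫ t in a..b,
          ‖UU (hT T) R (Real.log (N + 1 / 2)) (KT T R) (WW w X) t‖ ^ p) + C₀ ^ p * (b - a)) := by
        rw [intervalIntegral.integral_const_mul, intervalIntegral.integral_add
          (hUc.intervalIntegrable _ _) (continuous_const.intervalIntegrable _ _),
          intervalIntegral.integral_const, smul_eq_mul, mul_comm (b - a)]
    _ ≤ 2 ^ p * (C₁ * F + C₀ ^ p * (b - a)) := by
        have h4 := h2.trans (mul_le_mul_of_nonneg_left h3 hC₁.le)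
        gcongr
    _ ≤ 2 ^ p * (C₁ + C₀ ^ p) * (F + (b - a)) := by
        rw [mul_assoc]
        apply mul_le_mul_of_nonneg_left _ (by positivity)
        have h5 : 0 ≤ C₀ ^ p * F := by positivity
        have h6 : 0 ≤ C₁ * (b - a) := mul_nonneg hC₁.le (by linarith)
        nlinarith

end Pool.Agent.H470
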