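import Pool.Agent.H470.Sl
import Pool.Agent.H470.Wp

set_option autoImplicit false

/-! The limit theorem for sharply cut partial sums. -/

namespace Pool.Agent.H470

open MeasureTheory Filter Topology Set

/-- admissible lengths -/
def Ok (N : ℝ → ℕ) : Prop := Tendsto N atTop atTop ∧ Tendsto (fun T : ℝ => Real.log (N T) / Real.log T) atTop (𝓝 0)

lemma Ok.log {N : ℝ → ℕ} (h : Ok N) : Tendsto (fun T : ℝ => Real.log (N T)) atTop atTop :=
  Real.tendsto_log_atTop.comp (tendsto_natCast_atTop_atTop.comp h.1)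

lemma Ok.del {N : ℝ → ℕ} (h : Ok N) : Tendsto (fun T : ℝ => 1 / Real.log (N T)) atTop (𝓝 0) := by
  simp_rw [one_div]
  exact h.log.inv_tendsto_atTop

lemma Ok.delL {N : ℝ → ℕ} (h : Ok N) : Tendsto (fun T : ℝ => 1 / Real.log (N T) * Real.log T) atTop atTop := by
  have h1 : Tendsto (fun T : ℝ => Real.log (N T) / Real.log T) atTop (𝓝[>] 0) := by
    refine tendsto_nhdsWithin_iff.mpr ⟨h.2, ?_⟩
    filter_upwards [h.log.eventually_gt_atTop 0, eventually_gt_atTop 1] with T h2 h3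
    exact div_pos h2 (Real.log_pos h3)
  have h2 := h1.inv_tendsto_nhdsGT_zero
  refine h2.congr fun T => ?_
  show (Real.log (N T) / Real.log T)⁻¹ = _
  rw [inv_div]
  ring

lemma sf_WW (φ : ℝ → ℝ) (δ : ℝ) (X : ℕ) : sf φ δ X = WW (fun n => φ (δ * Real.log n)) X := rfl

lemma be_nonneg (η x : ℝ) : 0 ≤ be η x := g0_nonneg _

lemma be_le (η x : ℝ) : be η x ≤ 1 := g0_le _

lemma be_abs (η x : ℝ) : |be η x| ≤ 1 := by
  rw [abs_of_nonneg (be_nonneg η x)]
  exact be_le η x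

/-- the sharply cut narrow sum is bounded by the narrow sum -/
theorem cut_bd {β : ℝ} (hβ : 1 < β) : ∃ C : ℝ, 0 < C ∧ ∀ {N : ℝ → ℕ}, Ok N → ∀ᶠ T in atTop, ∀ w : ℕ → ℝ, (∀ n, |w n| ≤ 1) →
    ms' β (1 / Real.log (N T)) T (WW w (N T)) ≤ C * (4 * ms' β (1 / Real.log (N T)) (2 * T) (WW w (N T ^ 2)) + (2 * (1 / Real.log (N T))) ^ ((β / 2) ^ 2)) := by
  obtain ⟨C, hC, hm⟩ := mono_w β hβ
  have hβ0 : 0 < β := by linarith
  refine ⟨C, hC, fun {N} hN => ?_⟩
  have hD : ∀ᶠ T : ℝ in atTop, 2 * Real.sqrt T * Real.log T + 2 ≤ T := by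
    have h1 : Tendsto (fun T : ℝ => Real.log T / T ^ (1 / 2 : ℝ)) atTop (𝓝 0) := by
      have := (isLittleO_log_rpow_atTop (show (0:ℝ) < 1 / 2 by norm_num)).tendsto_div_nhds_zero
      exact this
    filter_upwards [h1.eventually (gt_mem_nhds (show (0:ℝ) < 1 / 4 by norm_num)), eventually_ge_atTop 4] with T h2 h3
    have hT : 0 < T := by linarith
    rw [← Real.sqrt_eq_rpow, div_lt_iff₀ (Real.sqrt_pos.mpr hT)] at h2
    have h4 : Real.sqrt T ^ 2 = T := Real.sq_sqrt hT.le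
    have h5 := Real.sqrt_nonneg T
    nlinarith
  filter_upwards [hD, hN.log.eventually_ge_atTop 1, hN.2.eventually (gt_mem_nhds (show (0:ℝ) < 1 / 2 by norm_num)),
    Real.tendsto_log_atTop.eventually_ge_atTop 4, eventually_ge_atTop 16] with T h1 h2 h3 h4 h5 w hw
  have hT : 0 < T := by linarith
  have hsq : Real.sqrt T ^ 2 = T := Real.sq_sqrt hT.le
  have hs1 : 1 ≤ Real.sqrt T := by rw [Real.one_le_sqrt]; linarith
  have hsT : Real.sqrt T ≤ T := by nlinarith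
  have hN0 : (0:ℝ) < N T := by
    by_contra hcon
    have : (N T : ℝ) = 0 := le_antisymm (not_lt.mp hcon) (Nat.cast_nonneg _)
    rw [this, Real.log_zero] at h2
    linarith
  have hN1 : 1 ≤ N T := by exact_mod_cast hN0
  have hNT : (N T : ℝ) ^ 2 ≤ T := by
    rw [div_lt_iff₀ (by linarith)] at h3
    rw [← Real.log_le_log_iff (by positivity) hT, Real.log_pow]
    push_cast
    linarith
  have hN1' : (1:ℝ) ≤ N T := by exact_mod_cast hN1
  have hm1 := hm T (Real.sqrt T) h4 (by rw [hsq]; exact hsT) hs1 hsT (N T) (N T ^ 2) hN1 (by nlinarith) (by push_cast; linarith)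
    (by rw [hsq]; nlinarith) w hw 0 T hT.le
  have hc := normp_cont (WW_cont w (N T ^ 2)) hβ0.le
  have hwin : ∫ t in (0 - (2 * Real.sqrt T * Real.log T + 2))..(T + (2 * Real.sqrt T * Real.log T + 2)), ‖WW w (N T ^ 2) t‖ ^ β ≤
      ∫ t in (-(2 * T))..(2 * T), ‖WW w (N T ^ 2) t‖ ^ β := by
    have hs0 : 0 ≤ 2 * Real.sqrt T * Real.log T := by positivity
    exact int_mono_set hc (fun t => Real.rpow_nonneg (norm_nonneg _) _) (by linarith) (by linarith) (by linarith)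
  have hsym : ∫ t in (-(2 * T))..(2 * T), ‖WW w (N T ^ 2) t‖ ^ β = 2 * ∫ t in (0:ℝ)..(2 * T), ‖WW w (N T ^ 2) t‖ ^ β := by
    rw [← intervalIntegral.integral_add_adjacent_intervals (hc.intervalIntegrable (-(2 * T)) 0) (hc.intervalIntegrable 0 (2 * T))]
    have h6 : ∫ t in (-(2 * T))..0, ‖WW w (N T ^ 2) t‖ ^ β = ∫ t in (0:ℝ)..(2 * T), ‖WW w (N T ^ 2) t‖ ^ β := by
      have h7 := intervalIntegral.integral_comp_neg (a := 0) (b := 2 * T) (fun t => ‖WW w (N T ^ 2) t‖ ^ β)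
      rw [neg_zero] at h7
      rw [← h7]
      refine intervalIntegral.integral_congr fun t _ => ?_
      show ‖WW w (N T ^ 2) (-t)‖ ^ β = _
      rw [WW_neg]
    rw [h6]
    ring
  rw [hsym] at hwin
  have e1 : ∫ t in Icc 0 T, ‖WW w (N T) t‖ ^ β = ∫ t in (0:ℝ)..T, ‖WW w (N T) t‖ ^ β := by
    rw [integral_Icc_eq_integral_Ioc, ← intervalIntegral.integral_of_le hT.le]
  have e2 : ∫ t in Icc 0 (2 * T), ‖WW w (N T ^ 2) t‖ ^ β = ∫ t in (0:ℝ)..(2 * T), ‖WW w (N T ^ 2) t‖ ^ β := by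
    rw [integral_Icc_eq_integral_Ioc, ← intervalIntegral.integral_of_le (by linarith)]
  unfold ms'
  rw [e1, e2]
  have hlog : 0 < Real.log (N T) := by linarith
  have h8 : ∫ t in (0:ℝ)..T, ‖WW w (N T) t‖ ^ β ≤ C * (2 * (∫ t in (0:ℝ)..(2 * T), ‖WW w (N T ^ 2) t‖ ^ β) + T) := by
    refine hm1.trans (mul_le_mul_of_nonneg_left ?_ hC.le)
    linarith
  have hw0 : 0 ≤ (2 * (1 / Real.log (N T))) ^ ((β / 2) ^ 2) / T := by positivity
  refine (mul_le_mul_of_nonneg_left h8 hw0).trans (le_of_eq ?_)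
  field_simp
  ring

/-- the sharply cut narrow sum is small -/
theorem cut_small {β : ℝ} (hβ : 1 < β) (hβ4 : β ≤ 4) {ε : ℝ} (hε : 0 < ε) : ∃ η : ℝ, 0 < η ∧ η ≤ 1 / 2 ∧ ∀ {N : ℝ → ℕ}, Ok N →
    ∀ᶠ T in atTop, nm β (1 / Real.log (N T)) T (sf (be η) (1 / Real.log (N T)) (N T)) ≤ ε := by
  obtain ⟨C, hC, hcut⟩ := cut_bd hβ
  have hβ0 : 0 < β := by linarith
  obtain ⟨e, he⟩ : ∃ e : ℝ, e = (ε ^ β / (C * (4 * 2 ^ β + 1))) ^ (1 / β) := ⟨_, rfl⟩
  have he0 : 0 < e := by rw [he]; positivity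
  have heβ : C * (4 * (2 * e) ^ β + e ^ β) = ε ^ β := by
    rw [Real.mul_rpow (by norm_num) he0.le]
    have : e ^ β = ε ^ β / (C * (4 * 2 ^ β + 1)) := by
      rw [he, ← Real.rpow_mul (by positivity), one_div_mul_cancel hβ0.ne', Real.rpow_one]
    rw [this]
    field_simp
  obtain ⟨η, hη, hη1, hv⟩ := vv_small hβ hβ4 he0
  obtain ⟨Q0, hQ0, hs⟩ := smooth_lim hβ.le hβ4 (be_Sm hη) (B := 2) (fun x hx => be_zero hη (by linarith)) he0
  refine ⟨η, hη, hη1, fun {N} hN => ?_⟩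
  have hhalf : Tendsto (fun T : ℝ => T / 2) atTop atTop := tendsto_id.atTop_div_const (by norm_num)
  have hs1 := hs Q0 le_rfl (fun T => 1 / Real.log (N (T / 2))) (fun T => N (T / 2) ^ 2) (hN.del.comp hhalf) (by
    have h1 := hN.delL.comp hhalf
    refine tendsto_atTop_mono' _ ?_ h1
    filter_upwards [(hN.log.comp hhalf).eventually_gt_atTop 0, eventually_gt_atTop 2] with T h2 h3
    show 1 / Real.log (N (T / 2)) * Real.log (T / 2) ≤ 1 / Real.log (N (T / 2)) * Real.log T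
    have h4 : 0 < Real.log (N (T / 2)) := h2
    exact mul_le_mul_of_nonneg_left (Real.log_le_log (by linarith) (by linarith)) (by positivity)) (by
    filter_upwards [(hN.log.comp hhalf).eventually_gt_atTop 0] with T h2
    have h4 : 0 < Real.log (N (T / 2)) := h2
    have h5 : (0:ℝ) < N (T / 2) := by
      by_contra hcon
      have : (N (T / 2) : ℝ) = 0 := le_antisymm (not_lt.mp hcon) (Nat.cast_nonneg _)
      rw [this, Real.log_zero] at h4
      exact lt_irrefl _ h4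
    have e1 : (2:ℝ) / (1 / Real.log (N (T / 2))) = Real.log ((N (T / 2) : ℝ) ^ 2) := by
      rw [Real.log_pow]
      push_cast
      field_simp
    rw [e1, Real.exp_log (by positivity)]
    push_cast
    exact le_rfl)
  have htwo : Tendsto (fun T : ℝ => 2 * T) atTop atTop := tendsto_id.const_mul_atTop (by norm_num)
  have hs2 := htwo.eventually hs1
  have hδ2 : Tendsto (fun T : ℝ => (2 * (1 / Real.log (N T))) ^ ((β / 2) ^ 2)) atTop (𝓝 0) := by
    have h1 : Tendsto (fun T : ℝ => (2 * (1 / Real.log (N T))) ^ ((β / 2) ^ 2)) atTop (𝓝 ((2 * 0) ^ ((β / 2) ^ 2))) :=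
      (Real.continuousAt_rpow_const _ _ (Or.inr (sq_nonneg _))).tendsto.comp (hN.del.const_mul 2)
    rwa [mul_zero, Real.zero_rpow (by positivity)] at h1
  filter_upwards [hcut hN, hs2, hδ2.eventually (gt_mem_nhds (show 0 < e ^ β by positivity)), hN.log.eventually_gt_atTop 0, eventually_gt_atTop 0] with T h1 h2 h3 h4 h5
  have e2 : (2 * T) / 2 = T := by ring
  rw [e2] at h2
  have h6 := (abs_le.mp h2).2
  have h7 := hv Q0 hQ0
  have h8 : nm β (1 / Real.log (N T)) (2 * T) (sf (be η) (1 / Real.log (N T)) (N T ^ 2)) ≤ 2 * e := by linarith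
  have hδ0 : 0 ≤ 1 / Real.log (N T) := by positivity
  have h9 : ms' β (1 / Real.log (N T)) (2 * T) (sf (be η) (1 / Real.log (N T)) (N T ^ 2)) ≤ (2 * e) ^ β := by
    have h10 := Real.rpow_le_rpow (nm_nonneg hδ0 (by linarith) _) h8 hβ0.le
    unfold nm at h10
    rwa [← Real.rpow_mul (ms_nonneg hδ0 (by linarith) _), one_div_mul_cancel hβ0.ne', Real.rpow_one] at h10
  refine nm_le_of hβ0 hδ0 h5.le hε.le ?_
  rw [sf_WW] at h9 ⊢
  refine (h1 _ (fun n => be_abs η _)).trans ?_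
  rw [← heβ]
  refine mul_le_mul_of_nonneg_left ?_ hC.le
  linarith

/-- approximation of the norm of the partial sum -/
theorem near_v {β : ℝ} (hβ : 1 < β) (hβ4 : β ≤ 4) : ∃ c0 : ℝ, 0 < c0 ∧ ∀ ε : ℝ, 0 < ε → ∃ v : ℝ, c0 ≤ v ∧ ∀ {N : ℝ → ℕ}, Ok N →
    ∀ᶠ T in atTop, |nm β (1 / Real.log (N T)) T (AA (N T)) - v| ≤ ε := by
  obtain ⟨c0, hc0, hvp⟩ := vv_pos hβ.le hβ4
  refine ⟨c0, hc0, fun ε hε => ?_⟩
  obtain ⟨η, hη, hη1, hcut⟩ := cut_small hβ hβ4 (show 0 < ε / 2 by positivity)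
  obtain ⟨Q0, hQ0, hs⟩ := smooth_lim hβ.le hβ4 (fi_Sm hη) (B := 1) (fun x hx => fi_zero hη (by linarith)) (show 0 < ε / 2 by positivity)
  obtain ⟨Q, hQv, hQ⟩ := ((hvp η hη hη1).and (eventually_ge_atTop Q0)).exists
  refine ⟨vv β (fi η) Q, hQv, fun {N} hN => ?_⟩
  have hexp : ∀ᶠ T in atTop, Real.exp (1 / (1 / Real.log (N T))) ≤ N T := by
    filter_upwards [hN.log.eventually_gt_atTop 0] with T h4
    have h5 : (0:ℝ) < N T := by
      by_contra hcon
      have : (N T : ℝ) = 0 := le_antisymm (not_lt.mp hcon) (Nat.cast_nonneg _)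
      rw [this, Real.log_zero] at h4
      exact lt_irrefl _ h4
    rw [one_div_one_div, Real.exp_log h5]
  have hs1 := hs Q hQ (fun T => 1 / Real.log (N T)) N hN.del hN.delL hexp
  filter_upwards [hs1, hcut hN, hN.log.eventually_gt_atTop 0, eventually_gt_atTop 0] with T h1 h2 h3 h4
  have hδ0 : 0 ≤ 1 / Real.log (N T) := by positivity
  have hsplit : ∀ t, AA (N T) t - sf (fi η) (1 / Real.log (N T)) (N T) t = sf (be η) (1 / Real.log (N T)) (N T) t := by
    intro t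
    unfold AA sf
    rw [← Finset.sum_sub_distrib]
    refine Finset.sum_congr rfl fun n hn => ?_
    rw [Finset.mem_Icc] at hn
    have hn1 : (1:ℝ) ≤ n := by exact_mod_cast hn.1
    have hnN : (n:ℝ) ≤ N T := by exact_mod_cast hn.2
    have hl0 : 0 ≤ Real.log n := Real.log_nonneg hn1
    have hl1 : Real.log n ≤ Real.log (N T) := Real.log_le_log (by linarith) hnN
    have h6 := fi_add_be hη (x := 1 / Real.log (N T) * Real.log n) (by positivity) (by
      rw [one_div_mul_eq_div, div_le_one h3]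
      exact hl1)
    have h7 : ((fi η (1 / Real.log (N T) * Real.log n) : ℝ) : ℂ) + ((be η (1 / Real.log (N T) * Real.log n) : ℝ) : ℂ) = 1 := by exact_mod_cast h6
    linear_combination (-(n:ℂ) ^ (-(1 / 2 + Complex.I * (t:ℂ)))) * h7
  have h5 := nm_sub (T := T) hβ.le hδ0 h4.le (AA_cont (N T)) (sf_cont (fi η) (1 / Real.log (N T)) (N T))
  have h6 : (fun t => AA (N T) t - sf (fi η) (1 / Real.log (N T)) (N T) t) = sf (be η) (1 / Real.log (N T)) (N T) := funext hsplit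
  rw [h6] at h5
  have h7 := abs_sub_le (nm β (1 / Real.log (N T)) T (AA (N T))) (nm β (1 / Real.log (N T)) T (sf (fi η) (1 / Real.log (N T)) (N T))) (vv β (fi η) Q)
  linarith

/-- the limit of the norms -/
theorem nm_lim {β : ℝ} (hβ : 1 < β) (hβ4 : β ≤ 4) : ∃ c : ℝ, 0 < c ∧ ∀ {N : ℝ → ℕ}, Ok N →
    Tendsto (fun T : ℝ => nm β (1 / Real.log (N T)) T (AA (N T))) atTop (𝓝 c) := by
  obtain ⟨c0, hc0, hnv⟩ := near_v hβ hβ4
  by_cases hex : ∃ N : ℝ → ℕ, Ok N
  · obtain ⟨N0, hN0⟩ := hex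
    choose v hv0 hv using fun j : ℕ => hnv (1 / ((j:ℝ) + 1)) (by positivity)
    have hdiff : ∀ i j : ℕ, |v i - v j| ≤ 1 / ((i:ℝ) + 1) + 1 / ((j:ℝ) + 1) := by
      intro i j
      obtain ⟨T, h1, h2⟩ := ((hv i hN0).and (hv j hN0)).exists
      have h3 := abs_sub_le (v i) (nm β (1 / Real.log (N0 T)) T (AA (N0 T))) (v j)
      have h4 := abs_sub_comm (v i) (nm β (1 / Real.log (N0 T)) T (AA (N0 T)))
      linarith
    have hcau : CauchySeq v := by
      rw [Metric.cauchySeq_iff']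
      intro ε hε
      obtain ⟨n, hn⟩ := exists_nat_one_div_lt (show (0:ℝ) < ε / 2 by positivity)
      refine ⟨n, fun m hm => ?_⟩
      rw [Real.dist_eq]
      have h1 := hdiff m n
      have h2 : 1 / ((m:ℝ) + 1) ≤ 1 / ((n:ℝ) + 1) := by
        apply one_div_le_one_div_of_le (by positivity)
        have : (n:ℝ) ≤ m := by exact_mod_cast hm
        linarith
      linarith
    obtain ⟨c, hc⟩ := cauchySeq_tendsto_of_complete hcau
    have hcc : c0 ≤ c := ge_of_tendsto' hc hv0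
    refine ⟨c, by linarith, fun {N} hN => ?_⟩
    rw [Metric.tendsto_nhds]
    intro ε hε
    have h1 : Tendsto (fun j : ℕ => 1 / ((j:ℝ) + 1)) atTop (𝓝 0) := tendsto_one_div_add_atTop_nhds_zero_nat
    obtain ⟨j, h2, h3⟩ := ((h1.eventually (gt_mem_nhds (show (0:ℝ) < ε / 3 by positivity))).and ((Metric.tendsto_nhds.mp hc) (ε / 3) (by positivity))).exists
    filter_upwards [hv j hN] with T h4
    rw [Real.dist_eq] at h3 ⊢
    have h5 := abs_sub_le (nm β (1 / Real.log (N T)) T (AA (N T))) (v j) c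
    linarith
  · exact ⟨1, one_pos, fun {N} hN => (hex ⟨N, hN⟩).elim⟩

end Pool.Agent.H470
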