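import Pool.Agent.H470.Nr
import Pool.Agent.H470.Mk
import Pool.Agent.H470.Po

set_option autoImplicit false

/-! The limit theorem for smoothed partial sums. -/

namespace Pool.Agent.H470

open MeasureTheory Filter Topology Set
open scoped ENNReal
open Pool.Agent.R313.CX
open Pool.Agent.R313.FN (gz)
open Pool.Agent.H306R2 (aF aF_pos)

/-- the limiting norm -/
noncomputable def vv (β : ℝ) (φ : ℝ → ℝ) (Q : ℝ) : ℝ := (aF (β / 2) * ∫ ω, ‖xq (β / 2) φ Q ω‖ ^ β ∂gp) ^ (1 / β)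

/-- the limit theorem for smoothed sums -/
theorem smooth_lim {β : ℝ} (hβ : 1 ≤ β) (hβ4 : β ≤ 4) {φ : ℝ → ℝ} (h : Sm φ) {B : ℝ} (hB : ∀ x, B ≤ x → φ x = 0)
    {ε : ℝ} (hε : 0 < ε) : ∃ Q0 : ℝ, 0 ≤ Q0 ∧ ∀ Q : ℝ, Q0 ≤ Q → ∀ (δ : ℝ → ℝ) (X : ℝ → ℕ), Tendsto δ atTop (𝓝 0) →
      Tendsto (fun T : ℝ => δ T * Real.log T) atTop atTop → (∀ᶠ T in atTop, Real.exp (B / δ T) ≤ X T) →
      ∀ᶠ T in atTop, |nm β (δ T) T (sf φ (δ T) (X T)) - vv β φ Q| ≤ ε := by
  have hβ0 : 0 < β := by linarith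
  obtain ⟨lam, C, T0, δ1, hlam, hC, hT0, hδ1, hδ16, haS⟩ := aS_bd hβ hβ4
  have hw := ws_tail h
  have hw2 : ∀ᶠ Q : ℝ in atTop, ws φ (Icc (-Q) Q)ᶜ < ε / (3 * (C ^ (1 / β))) := hw.eventually (gt_mem_nhds (by positivity))
  obtain ⟨Q1, hQ1⟩ := eventually_atTop.mp hw2
  refine ⟨max Q1 0, le_max_right _ _, fun Q hQ δ X hδ hδL hX => ?_⟩
  have hQ0 : 0 ≤ Q := (le_max_right _ _).trans hQ
  have hwQ := hQ1 Q ((le_max_left _ _).trans hQ)
  have hpos : ∀ᶠ T in atTop, 0 < δ T := by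
    filter_upwards [hδL.eventually_gt_atTop 0, eventually_gt_atTop 1] with T hT hT1
    exact (pos_iff_pos_of_mul_pos hT).mpr (Real.log_pos hT1)
  have e2 : 2 * (β / 2) = β := by ring
  obtain ⟨-, hiq⟩ := iq_lim hδ hδL (k := β / 2) (by positivity) (by linarith) h hQ0
  rw [e2] at hiq
  have hiq2 : Tendsto (fun T : ℝ => nm β (δ T) T (iq φ Q (δ T))) atTop (𝓝 (vv β φ Q)) := by
    unfold nm vv ms'
    exact hiq.rpow_const (Or.inr (by positivity))
  have hsi := sf_ia_mean hβ hβ4 h hB hδ hδL hX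
  have hsi2 : Tendsto (fun T : ℝ => nm β (δ T) T (fun t => sf φ (δ T) (X T) t - ia φ (δ T) t)) atTop (𝓝 0) := by
    have h1 := hsi.rpow_const (p := 1 / β) (Or.inr (by positivity))
    rw [Real.zero_rpow (by positivity)] at h1
    exact h1
  filter_upwards [hpos, hδ.eventually (gt_mem_nhds hδ1), hδL.eventually_ge_atTop lam, eventually_ge_atTop (max T0 3),
    hsi2.eventually (gt_mem_nhds (show (0:ℝ) < ε / 3 by positivity)),
    (Metric.tendsto_nhds.mp hiq2) (ε / 3) (by positivity)] with T h1 h2 h3 h4 h5 h6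
  have hT3 : 3 ≤ T := (le_max_right _ _).trans h4
  have hTpos : 0 < T := by linarith
  have hlog : 0 < Real.log T := Real.log_pos (by linarith)
  have hδ' : δ T ≤ 1 / 16 := h2.le.trans hδ16
  have hlamT : lam / Real.log T ≤ δ T := by rwa [div_le_iff₀ hlog]
  have hsc := sf_cont φ (δ T) (X T)
  have hia : Continuous (ia φ (δ T)) := by
    have := aS_cont h h1 hδ' univ
    rwa [show aS φ univ (δ T) = ia φ (δ T) from funext (aS_univ φ (δ T))] at this
  have hiqc : Continuous (iq φ Q (δ T)) := by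
    have := aS_cont h h1 hδ' (Icc (-Q) Q)
    exact this
  have hwn := ws_nonneg φ (Icc (-Q) Q)ᶜ
  have h7 : nm β (δ T) T (fun t => ia φ (δ T) t - iq φ Q (δ T) t) ≤ ε / 3 := by
    have h8 := haS T ((le_max_left _ _).trans h4) (δ T) hlamT h2.le φ h (Icc (-Q) Q)ᶜ
    have h9 : nm β (δ T) T (fun t => ia φ (δ T) t - iq φ Q (δ T) t) ≤ C ^ (1 / β) * ws φ (Icc (-Q) Q)ᶜ := by
      refine nm_le_of hβ0 h1.le hTpos.le (by positivity) ?_
      unfold ms'
      simp_rw [aS_compl h h1 hδ' Q]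
      refine h8.trans (le_of_eq ?_)
      rw [Real.mul_rpow (by positivity) hwn, ← Real.rpow_mul hC.le, one_div_mul_cancel hβ0.ne', Real.rpow_one]
    refine h9.trans ?_
    have h10 := mul_le_mul_of_nonneg_left hwQ.le (show 0 ≤ C ^ (1 / β) by positivity)
    refine h10.trans (le_of_eq ?_)
    have : C ^ (1 / β) ≠ 0 := (Real.rpow_pos_of_pos hC _).ne'
    field_simp
  have h8 := nm_sub (T := T) hβ h1.le hTpos.le hsc hiqc
  have h9 := nm_add (T := T) hβ h1.le hTpos.le (F := fun t => sf φ (δ T) (X T) t - ia φ (δ T) t) (G := fun t => ia φ (δ T) t - iq φ Q (δ T) t) (hsc.sub hia) (hia.sub hiqc)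
  simp only [sub_add_sub_cancel] at h9
  rw [Real.dist_eq] at h6
  have h10 := abs_sub_le (nm β (δ T) T (sf φ (δ T) (X T))) (nm β (δ T) T (iq φ Q (δ T))) (vv β φ Q)
  linarith

/-- the limiting norm of the narrow bump -/
theorem vv_small {β : ℝ} (hβ : 1 < β) (hβ4 : β ≤ 4) {ε : ℝ} (hε : 0 < ε) : ∃ η : ℝ, 0 < η ∧ η ≤ 1 / 2 ∧ ∀ Q : ℝ, 0 ≤ Q → vv β (be η) Q ≤ ε := by
  have hβ0 : 0 < β := by linarith
  have haF : 0 < aF (β / 2) := aF_pos (by positivity)
  obtain ⟨η0, hη0, hη01, hs⟩ := small_model (k := β / 2) (by linarith) (ε := ε ^ β / aF (β / 2)) (by positivity)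
  have hη : 0 < min η0 (1 / 2) := by positivity
  refine ⟨min η0 (1 / 2), hη, min_le_right _ _, fun Q hQ => ?_⟩
  have h1 := hs _ hη (min_le_left _ _) Q
  have e2 : 2 * (β / 2) = β := by ring
  rw [e2] at h1
  have hδ : Tendsto (fun T : ℝ => (Real.log T) ^ (-(1 / 2 : ℝ))) atTop (𝓝 0) := (tendsto_rpow_neg_atTop (by norm_num)).comp Real.tendsto_log_atTop
  have hδL : Tendsto (fun T : ℝ => (Real.log T) ^ (-(1 / 2 : ℝ)) * Real.log T) atTop atTop := by
    have h3 : Tendsto (fun T : ℝ => (Real.log T) ^ (1 / 2 : ℝ)) atTop atTop := (tendsto_rpow_atTop (by norm_num)).comp Real.tendsto_log_atTop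
    refine h3.congr' ?_
    filter_upwards [eventually_gt_atTop 1] with T hT
    have hl := Real.log_pos hT
    nth_rewrite 3 [← Real.rpow_one (Real.log T)]
    rw [← Real.rpow_add hl]
    norm_num
  obtain ⟨hint, -⟩ := iq_lim hδ hδL (k := β / 2) (by positivity) (by linarith) (be_Sm hη) hQ
  rw [e2] at hint
  have h2 : ∫ ω, ‖xq (β / 2) (be (min η0 (1 / 2))) Q ω‖ ^ β ∂gp ≤ ε ^ β / aF (β / 2) := by
    rw [← ENNReal.ofReal_le_ofReal_iff (by positivity), ofReal_integral_eq_lintegral_ofReal hint (Eventually.of_forall fun ω => by positivity)]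
    refine le_trans (le_of_eq (lintegral_congr fun ω => ?_)) h1
    rw [← ofReal_norm, ENNReal.ofReal_rpow_of_nonneg (norm_nonneg _) hβ0.le]
  unfold vv
  have h3 : aF (β / 2) * ∫ ω, ‖xq (β / 2) (be (min η0 (1 / 2))) Q ω‖ ^ β ∂gp ≤ ε ^ β := by
    have := mul_le_mul_of_nonneg_left h2 haF.le
    rwa [mul_div_cancel₀ _ haF.ne'] at this
  refine (Real.rpow_le_rpow (mul_nonneg haF.le (integral_nonneg fun ω => by positivity)) h3 (by positivity)).trans (le_of_eq ?_)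
  rw [← Real.rpow_mul hε.le, mul_one_div_cancel hβ0.ne', Real.rpow_one]

/-- the limiting norm of the plateau -/
theorem vv_pos {β : ℝ} (hβ : 1 ≤ β) (hβ4 : β ≤ 4) : ∃ c : ℝ, 0 < c ∧ ∀ η : ℝ, 0 < η → η ≤ 1 / 2 → ∀ᶠ Q : ℝ in atTop, c ≤ vv β (fi η) Q := by
  have hβ0 : 0 < β := by linarith
  have haF : 0 < aF (β / 2) := aF_pos (by positivity)
  obtain ⟨c, hc, hp⟩ := pos_model (k := β / 2) (by linarith)
  refine ⟨(aF (β / 2) * c) ^ (1 / β), by positivity, fun η hη hη1 => ?_⟩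
  have h0 := hp (fi η) (fi_Sm hη) (fi_nonneg η) (fun x hx hx1 => fi_one hη hx (by linarith))
  filter_upwards [h0, eventually_ge_atTop 0] with Q h1 hQ
  have e2 : 2 * (β / 2) = β := by ring
  rw [e2] at h1
  have hδ : Tendsto (fun T : ℝ => (Real.log T) ^ (-(1 / 2 : ℝ))) atTop (𝓝 0) := (tendsto_rpow_neg_atTop (by norm_num)).comp Real.tendsto_log_atTop
  have hδL : Tendsto (fun T : ℝ => (Real.log T) ^ (-(1 / 2 : ℝ)) * Real.log T) atTop atTop := by
    have h3 : Tendsto (fun T : ℝ => (Real.log T) ^ (1 / 2 : ℝ)) atTop atTop := (tendsto_rpow_atTop (by norm_num)).comp Real.tendsto_log_atTop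
    refine h3.congr' ?_
    filter_upwards [eventually_gt_atTop 1] with T hT
    have hl := Real.log_pos hT
    nth_rewrite 3 [← Real.rpow_one (Real.log T)]
    rw [← Real.rpow_add hl]
    norm_num
  obtain ⟨hint, -⟩ := iq_lim hδ hδL (k := β / 2) (by positivity) (by linarith) (fi_Sm hη) hQ
  rw [e2] at hint
  have h2 : c ≤ ∫ ω, ‖xq (β / 2) (fi η) Q ω‖ ^ β ∂gp := by
    rw [← ENNReal.ofReal_le_ofReal_iff (integral_nonneg fun ω => by positivity), ofReal_integral_eq_lintegral_ofReal hint (Eventually.of_forall fun ω => by positivity)]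
    refine h1.trans (le_of_eq (lintegral_congr fun ω => ?_))
    rw [← ofReal_norm, ENNReal.ofReal_rpow_of_nonneg (norm_nonneg _) hβ0.le]
  unfold vv
  exact Real.rpow_le_rpow (by positivity) (mul_le_mul_of_nonneg_left h2 haF.le) (by positivity)

end Pool.Agent.H470
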