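import Pool.Agent.H470.Zt

set_option autoImplicit false

/-!
# Moments of zeta and moments of partial sums: one step of the iteration
-/

open Complex MeasureTheory Set Filter Topology

namespace Pool.Agent.H470

theorem pow4 {x y z w p : ℝ} (hx : 0 ≤ x) (hy : 0 ≤ y) (hz : 0 ≤ z) (hw : 0 ≤ w) (hp : 0 ≤ p) :
    (x + y + z + w) ^ p ≤ 4 ^ p * (x ^ p + y ^ p + z ^ p + w ^ p) := by
  have h1 := add_rpow2 (add_nonneg hx hy) (add_nonneg hz hw) hp
  have h2 := add_rpow2 hx hy hp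
  have h3 := add_rpow2 hz hw hp
  have h4 : (4 : ℝ) ^ p = 2 ^ p * 2 ^ p := by
    rw [← Real.mul_rpow (by norm_num) (by norm_num)]; norm_num
  have h5 : (0 : ℝ) ≤ 2 ^ p := by positivity
  calc (x + y + z + w) ^ p = (x + y + (z + w)) ^ p := by rw [add_assoc (x + y)]
    _ ≤ 2 ^ p * ((x + y) ^ p + (z + w) ^ p) := h1
    _ ≤ 2 ^ p * (2 ^ p * (x ^ p + y ^ p) + 2 ^ p * (z ^ p + w ^ p)) := by gcongr
    _ = 4 ^ p * (x ^ p + y ^ p + z ^ p + w ^ p) := by rw [h4]; ring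

/-- the integral of the partial sum of variable length -/
theorem ind_int {p : ℝ} (hp0 : 0 ≤ p) {D a b : ℝ} (hD : 0 < D) (hab : a ≤ b) (m : ℕ) :
    IntervalIntegrable ((Set.Ico (D * (m : ℝ)) (D * (m : ℝ) + D)).indicator
      fun t => ‖AA m t‖ ^ p) volume a b ∧
    ∫ t in a..b, (Set.Ico (D * (m : ℝ)) (D * (m : ℝ) + D)).indicator (fun t => ‖AA m t‖ ^ p) t ≤
      ∫ t in (D * (m : ℝ))..(D * (m : ℝ) + D), ‖AA m t‖ ^ p := by
  have hc : Continuous fun t => ‖AA m t‖ ^ p := normp_cont (AA_cont m) hp0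
  constructor
  · rw [intervalIntegrable_iff_integrableOn_Ioc_of_le hab]
    exact ((hc.intervalIntegrable a b).1).indicator measurableSet_Ico
  · rw [intervalIntegral.integral_of_le hab, setIntegral_indicator measurableSet_Ico,
      intervalIntegral.integral_of_le (by linarith), ← integral_Ico_eq_integral_Ioc]
    apply setIntegral_mono_set
    · exact (hc.integrableOn_Icc).mono_set Ico_subset_Icc_self
    · exact Eventually.of_forall fun t => Real.rpow_nonneg (norm_nonneg _) _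
    · exact inter_subset_right.eventuallyLE

theorem step (p : ℝ) (hp : 1 < p) : ∃ B : ℝ, 1 ≤ B ∧ ∀ T R : ℝ, 5 ≤ Real.log T →
    Real.sqrt T ≤ R ^ 2 → 1 ≤ R → R * Real.log T ^ 2 ≤ Real.sqrt T →
    2 * R * Real.log T + 1 ≤ T / 4 → ∀ N : ℕ, Real.sqrt T ≤ N → (N : ℝ) ≤ R ^ 2 →
    ∀ a b : ℝ, 3 * T / 4 ≤ a → a ≤ b → b ≤ 3 * T →
    ∫ t in a..b, ‖zz t‖ ^ p ≤
      B * (∫ t in (a - 2 * (2 * Real.pi * (N + 1 / 2)))..(b + 2 * (2 * Real.pi * (N + 1 / 2))),
        ‖AA N t‖ ^ p) +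
      B * (80 * R ^ 2 * Real.log T ^ 2 / T) ^ p *
        ∫ t in (a - (2 * R * Real.log T + 2))..(b + (2 * R * Real.log T + 2)), ‖zz t‖ ^ p := by
  obtain ⟨C₀, hC₀, hafe⟩ := afe
  obtain ⟨C₁, hC₁, hbl⟩ := blocks_p p hp
  have hp0 : 0 ≤ p := by linarith
  have h4p : (1 : ℝ) ≤ 4 ^ p := Real.one_le_rpow (by norm_num) hp0
  refine ⟨4 ^ p * (1 + C₁ * (1 + 2 ^ p) + C₀ ^ p * 2 ^ p), ?_, ?_⟩
  · have h1 : 0 ≤ C₁ * (1 + 2 ^ p) := by positivity
    have h2 : 0 ≤ C₀ ^ p * 2 ^ p := by positivity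
    nlinarith
  intro T R hL5 hRT hR hRL hW N hN hNR a b ha hab hb
  have hL : 4 ≤ Real.log T := by linarith
  have hL0 : 0 < Real.log T := by linarith
  set q := Real.sqrt T with hq
  have hTpos : 0 < T := by
    have : 0 < R * Real.log T := by positivity
    linarith
  have hq0 : 0 < q := Real.sqrt_pos.2 hTpos
  have hq2 : q ^ 2 = T := Real.sq_sqrt hTpos.le
  have hL25 : 25 ≤ Real.log T ^ 2 := by
    have := pow_le_pow_left₀ (by norm_num) hL5 2
    linarith
  have hRq : 25 * R ≤ q := by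
    have := mul_le_mul_of_nonneg_left hL25 (by linarith : 0 ≤ R)
    linarith
  have hq25 : 25 ≤ q := by linarith
  have hqq : 25 * q ≤ T := by
    rw [← hq2, sq]; exact mul_le_mul_of_nonneg_right hq25 hq0.le
  have hRT1 : R ≤ T := by linarith
  have hR625 : 625 * R ^ 2 ≤ T := by
    have h1 : (25 * R) ^ 2 ≤ q ^ 2 := pow_le_pow_left₀ (by linarith) hRq 2
    linarith
  have hN0 : (0 : ℝ) ≤ N := Nat.cast_nonneg N
  have hR21 : 1 ≤ R ^ 2 := one_le_pow₀ hR
  obtain ⟨k1, k2, k3, k4, k5, k6⟩ := par hL hR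
  set D : ℝ := 2 * Real.pi * (N + 1 / 2) with hD
  have hpi := Real.pi_gt_three
  have hpi4 := Real.pi_lt_d2
  have hD0 : 0 < D := by rw [hD]; positivity
  have hD6 : 6 * (N : ℝ) + 3 ≤ D := by
    rw [hD]
    have : 6 * ((N : ℝ) + 1 / 2) ≤ 2 * Real.pi * (N + 1 / 2) :=
      mul_le_mul_of_nonneg_right (by linarith) (by linarith)
    linarith
  have hDT : D ≤ 13 * R ^ 2 := by
    rw [hD]
    calc 2 * Real.pi * ((N : ℝ) + 1 / 2) ≤ 2 * 3.15 * (2 * R ^ 2) := by
          gcongr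
          linarith
      _ ≤ _ := by linarith
  have hDa : D ≤ a := by linarith
  have hwD : 2 * R * Real.log T + 2 ≤ D := by
    have h1 : 5 * (R * Real.log T) ≤ R * Real.log T ^ 2 := by
      have := mul_le_mul_of_nonneg_left hL5 (by positivity : 0 ≤ R * Real.log T)
      calc 5 * (R * Real.log T) = R * Real.log T * 5 := by ring
        _ ≤ R * Real.log T * Real.log T := this
        _ = _ := by ring
    linarith
  have hbN : ⌊b / D⌋₊ ≤ N := by
    apply Nat.floor_le_of_le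
    rw [div_le_iff₀ hD0]
    have h1 : q * q ≤ N * N := mul_le_mul hN hN hq0.le hN0
    have h2 : (N : ℝ) * (6 * N + 3) ≤ N * D := mul_le_mul_of_nonneg_left hD6 hN0
    have h3 : T = q * q := by rw [← hq2]; ring
    nlinarith
  have hN16 : (N : ℝ) ≤ 16 * T := by linarith
  have hN1 : 1 ≤ N := by
    have : (1 : ℝ) ≤ N := by linarith
    exact_mod_cast this
  have h1 := hbl T R hL hRT hR hRT1 N hN16 hNR D a b hD0 hwD hDa hab hbN
  set K := KT T R with hK
  set h := hT T with hh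
  set m0 := ⌊a / D⌋₊ with hm0
  set m1 := ⌊b / D⌋₊ + 1 with hm1
  set κ : ℝ := 8 * R / T with hκ
  have hκ0 : 0 ≤ κ := by rw [hκ]; positivity
  set Ef : ℝ → ℝ := fun t => κ * ∑ k ∈ Finset.Icc (1 - (K : ℤ)) K,
    ‖zz (t + h * ((k : ℝ) - 1 / 2))‖ with hEf
  have hEf0 : ∀ t, 0 ≤ Ef t := fun t => by
    simp only [hEf]; positivity
  set J : ℝ → ℝ := fun t => ∑ m ∈ Finset.Ico m0 m1,
    (Set.Ico (D * (m : ℝ)) (D * (m : ℝ) + D)).indicator (fun t => ‖AA m t‖ ^ p) t with hJ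
  have hpt : ∀ t ∈ Icc a b, ‖zz t‖ ^ p ≤ 4 ^ p * (‖AA N t‖ ^ p + J t + C₀ ^ p + Ef t ^ p) := by
    intro t ht
    have h2 := hafe T R hL5 hRT hR hRL hW N hN hNR t (ha.trans ht.1) (ht.2.trans hb)
    have h3 : ‖AA ⌊t / D⌋₊ t‖ ^ p ≤ J t := by
      have ht0 : 0 ≤ t := by linarith [ht.1]
      have hmem : ⌊t / D⌋₊ ∈ Finset.Ico m0 m1 := by
        rw [Finset.mem_Ico]
        have e1 : m0 ≤ ⌊t / D⌋₊ := Nat.floor_le_floor (div_le_div_of_nonneg_right ht.1 hD0.le)
        have e2 : ⌊t / D⌋₊ ≤ ⌊b / D⌋₊ :=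
          Nat.floor_le_floor (div_le_div_of_nonneg_right ht.2 hD0.le)
        omega
      have e3 : t ∈ Set.Ico (D * ((⌊t / D⌋₊ : ℕ) : ℝ)) (D * ((⌊t / D⌋₊ : ℕ) : ℝ) + D) := by
        constructor
        · have := Nat.floor_le (div_nonneg ht0 hD0.le)
          rw [le_div_iff₀ hD0] at this
          linarith
        · have := Nat.lt_floor_add_one (t / D)
          rw [div_lt_iff₀ hD0] at this
          linarith
      have e4 : ‖AA ⌊t / D⌋₊ t‖ ^ p = (Set.Ico (D * ((⌊t / D⌋₊ : ℕ) : ℝ))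
          (D * ((⌊t / D⌋₊ : ℕ) : ℝ) + D)).indicator (fun t => ‖AA ⌊t / D⌋₊ t‖ ^ p) t := by
        rw [Set.indicator_of_mem e3]
      rw [e4]
      simp only [hJ]
      exact Finset.single_le_sum (f := fun m : ℕ => (Set.Ico (D * (m : ℝ))
        (D * (m : ℝ) + D)).indicator (fun t => ‖AA m t‖ ^ p) t)
        (fun m _ => Set.indicator_nonneg (fun _ _ => Real.rpow_nonneg (norm_nonneg _) _) _) hmem
    calc ‖zz t‖ ^ p ≤ (‖AA N t‖ + ‖AA ⌊t / D⌋₊ t‖ + C₀ + Ef t) ^ p :=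
          Real.rpow_le_rpow (norm_nonneg _) h2 hp0
      _ ≤ 4 ^ p * (‖AA N t‖ ^ p + ‖AA ⌊t / D⌋₊ t‖ ^ p + C₀ ^ p + Ef t ^ p) :=
          pow4 (norm_nonneg _) (norm_nonneg _) hC₀.le (hEf0 t) hp0
      _ ≤ _ := by gcongr
  have hzc := zz_cont
  have hNc : Continuous fun t => ‖AA N t‖ ^ p := normp_cont (AA_cont N) hp0
  have hEc : Continuous fun t => Ef t ^ p := by
    apply Continuous.rpow_const _ fun _ => Or.inr hp0
    exact continuous_const.mul (continuous_finsetSum _ fun k _ =>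
      (hzc.comp (continuous_id.add continuous_const)).norm)
  have hJi : IntervalIntegrable J volume a b := by
    have : J = ∑ m ∈ Finset.Ico m0 m1, (Set.Ico (D * (m : ℝ)) (D * (m : ℝ) + D)).indicator
        (fun t => ‖AA m t‖ ^ p) := by
      funext t; simp only [hJ, Finset.sum_apply]
    rw [this]
    exact IntervalIntegrable.sum _ fun m _ => (ind_int hp0 hD0 hab m).1
  have hJint : ∫ t in a..b, J t ≤ ∑ m ∈ Finset.Ico m0 m1,
      ∫ t in (D * (m : ℝ))..(D * (m : ℝ) + D), ‖AA m t‖ ^ p := by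
    simp only [hJ]
    rw [intervalIntegral.integral_finsetSum fun m _ => (ind_int hp0 hD0 hab m).1]
    exact Finset.sum_le_sum fun m _ => (ind_int hp0 hD0 hab m).2
  have hNi := hNc.intervalIntegrable (μ := volume) a b
  have hEi := hEc.intervalIntegrable (μ := volume) a b
  have hCi : IntervalIntegrable (fun _ : ℝ => C₀ ^ p) volume a b := intervalIntegrable_const
  have hmain : ∫ t in a..b, ‖zz t‖ ^ p ≤ 4 ^ p * ((∫ t in a..b, ‖AA N t‖ ^ p) +
      (∫ t in a..b, J t) + C₀ ^ p * (b - a) + ∫ t in a..b, Ef t ^ p) := by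
    calc ∫ t in a..b, ‖zz t‖ ^ p
        ≤ ∫ t in a..b, 4 ^ p * (‖AA N t‖ ^ p + J t + C₀ ^ p + Ef t ^ p) :=
          intervalIntegral.integral_mono_on hab ((normp_cont hzc hp0).intervalIntegrable _ _)
            ((((hNi.add hJi).add hCi).add hEi).const_mul _) hpt
      _ = _ := by
          rw [intervalIntegral.integral_const_mul, intervalIntegral.integral_add
            ((hNi.add hJi).add hCi) hEi, intervalIntegral.integral_add (hNi.add hJi) hCi,
            intervalIntegral.integral_add hNi hJi, intervalIntegral.integral_const, smul_eq_mul]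
          ring
  set F := ∫ t in (a - 2 * D)..(b + 2 * D), ‖AA N t‖ ^ p with hF
  have hF1 : ∫ t in a..b, ‖AA N t‖ ^ p ≤ F :=
    int_mono_set hNc (fun t => Real.rpow_nonneg (norm_nonneg _) _) (by linarith) hab (by linarith)
  have hF0 : 0 ≤ F := by
    apply intervalIntegral.integral_nonneg (by linarith)
    intro t _; positivity
  have hlen : b - a + 2 * D ≤ 2 ^ p * F := by
    have hsN : Real.sqrt N ≤ N := by
      rw [Real.sqrt_le_left hN0]
      have : (1 : ℝ) ≤ N := by exact_mod_cast hN1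
      nlinarith
    have := low_p hp.le hN1 (a := a - 2 * D) (b := b + 2 * D) (by linarith)
    linarith
  have hE := E_Lp hp (h := h) (κ := κ) (K := K) k1 hκ0 hzc hab
  have hE2 : ∫ t in (a - h * K)..(b + h * K), ‖zz t‖ ^ p ≤
      ∫ t in (a - (2 * R * Real.log T + 2))..(b + (2 * R * Real.log T + 2)), ‖zz t‖ ^ p := by
    have hK0 : 0 ≤ h * K := by positivity
    exact int_mono_set (normp_cont hzc hp0) (fun t => Real.rpow_nonneg (norm_nonneg _) _)
      (by linarith) (by linarith) (by linarith)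
  set Φ := ∫ t in (a - (2 * R * Real.log T + 2))..(b + (2 * R * Real.log T + 2)), ‖zz t‖ ^ p
    with hΦ
  have hΦ0 : 0 ≤ Φ := by
    have : 0 ≤ R * Real.log T := by positivity
    apply intervalIntegral.integral_nonneg (by linarith)
    intro t _; positivity
  have hκK : κ * (2 * K) ≤ 80 * R ^ 2 * Real.log T ^ 2 / T := by
    have h5 := Nat.ceil_lt_add_one (by positivity : 0 ≤ 4 * R * Real.log T ^ 2)
    have h6 : (K : ℝ) ≤ 5 * (R * Real.log T ^ 2) := by
      have h7 : (K : ℝ) < 4 * R * Real.log T ^ 2 + 1 := h5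
      have h8 : 1 ≤ R * Real.log T ^ 2 := by
        calc (1 : ℝ) = 1 * 1 := by norm_num
          _ ≤ R * Real.log T ^ 2 := mul_le_mul hR (by linarith) (by norm_num) (by linarith)
      linarith
    rw [hκ, div_mul_eq_mul_div]
    apply div_le_div_of_nonneg_right _ hTpos.le
    calc 8 * R * (2 * (K : ℝ)) ≤ 8 * R * (2 * (5 * (R * Real.log T ^ 2))) := by gcongr
      _ = _ := by ring
  have hEfin : ∫ t in a..b, Ef t ^ p ≤ (80 * R ^ 2 * Real.log T ^ 2 / T) ^ p * Φ := by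
    calc ∫ t in a..b, Ef t ^ p ≤ (κ * (2 * K)) ^ p *
          ∫ t in (a - h * K)..(b + h * K), ‖zz t‖ ^ p := hE
      _ ≤ _ := by
        have hI0 : 0 ≤ ∫ t in (a - h * K)..(b + h * K), ‖zz t‖ ^ p := by
          have hK0 : 0 ≤ h * K := by positivity
          apply intervalIntegral.integral_nonneg (by linarith)
          intro t _; positivity
        exact mul_le_mul (Real.rpow_le_rpow (by positivity) hκK hp0) hE2 hI0 (by positivity)
  have hCp : 0 ≤ C₀ ^ p := by positivity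
  have e1 : C₀ ^ p * (b - a) ≤ C₀ ^ p * 2 ^ p * F := by
    rw [mul_assoc]
    exact mul_le_mul_of_nonneg_left (by linarith) hCp
  have e2 : ∫ t in a..b, J t ≤ C₁ * (1 + 2 ^ p) * F := by
    refine hJint.trans (h1.trans ?_)
    rw [mul_assoc]
    apply mul_le_mul_of_nonneg_left _ hC₁.le
    linarith
  set ε := (80 * R ^ 2 * Real.log T ^ 2 / T) ^ p with hε
  have hε0 : 0 ≤ ε := by positivity
  have h4p0 : (0 : ℝ) ≤ 4 ^ p := by positivity
  calc ∫ t in a..b, ‖zz t‖ ^ p ≤ 4 ^ p * ((∫ t in a..b, ‖AA N t‖ ^ p) +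
        (∫ t in a..b, J t) + C₀ ^ p * (b - a) + ∫ t in a..b, Ef t ^ p) := hmain
    _ ≤ 4 ^ p * (F + C₁ * (1 + 2 ^ p) * F + C₀ ^ p * 2 ^ p * F + ε * Φ) := by gcongr
    _ = 4 ^ p * (1 + C₁ * (1 + 2 ^ p) + C₀ ^ p * 2 ^ p) * F + 4 ^ p * 1 * ε * Φ := by ring
    _ ≤ 4 ^ p * (1 + C₁ * (1 + 2 ^ p) + C₀ ^ p * 2 ^ p) * F +
        4 ^ p * (1 + C₁ * (1 + 2 ^ p) + C₀ ^ p * 2 ^ p) * ε * Φ := by
        have h9 : (1 : ℝ) ≤ 1 + C₁ * (1 + 2 ^ p) + C₀ ^ p * 2 ^ p := by
          have : 0 ≤ C₁ * (1 + 2 ^ p) := by positivity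
          have : 0 ≤ C₀ ^ p * 2 ^ p := by positivity
          linarith
        gcongr

end Pool.Agent.H470
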