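import Pool.Agent.H470.Lm

set_option autoImplicit false

/-! Mean values of averages of zeta over general sets. -/

namespace Pool.Agent.H470

open MeasureTheory Filter Topology Set
open scoped ENNReal
open Pool.Agent.R313.FN (gz)

/-- the average over a set -/
noncomputable def aS (φ : ℝ → ℝ) (S : Set ℝ) (δ t : ℝ) : ℂ :=
  ((1 / (2 * Real.pi) : ℝ) : ℂ) * ∫ y in S, ps φ y * gz δ t (1 + (y:ℂ) * Complex.I)

lemma aS_univ (φ : ℝ → ℝ) (δ t : ℝ) : aS φ univ δ t = ia φ δ t := by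
  unfold aS ia
  rw [Measure.restrict_univ]

lemma aS_Icc (φ : ℝ → ℝ) (Q δ t : ℝ) : aS φ (Icc (-Q) Q) δ t = iq φ Q δ t := rfl

lemma aS_compl {φ : ℝ → ℝ} (h : Sm φ) {δ : ℝ} (hδ : 0 < δ) (hδ1 : δ ≤ 1 / 16) (Q t : ℝ) :
    ia φ δ t - iq φ Q δ t = aS φ (Icc (-Q) Q)ᶜ δ t := by
  unfold ia iq aS
  rw [← integral_add_compl (measurableSet_Icc (a := -Q) (b := Q)) (psg_int h hδ hδ1 t)]
  ring

lemma aS_cont {φ : ℝ → ℝ} (h : Sm φ) {δ : ℝ} (hδ : 0 < δ) (hδ1 : δ ≤ 1 / 16) (S : Set ℝ) : Continuous (aS φ S δ) := by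
  unfold aS
  refine continuous_const.mul ?_
  have hg := gz_c hδ hδ1
  refine continuous_iff_continuousAt.mpr fun t0 => ?_
  refine continuousAt_of_dominated (bound := fun y => 12 * (2 + |t0|) * ((1 + |y|) ^ 1 * ‖ps φ y‖)) ?_ ?_ ?_ ?_
  · exact Eventually.of_forall fun t => ((ps_cont h).mul (hg.comp (by fun_prop : Continuous fun y : ℝ => (t, y)))).aestronglyMeasurable
  · filter_upwards [Metric.ball_mem_nhds t0 one_pos] with t ht
    refine Eventually.of_forall fun y => ?_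
    rw [norm_mul, pow_one]
    have h1 := gz_bd hδ hδ1 t y
    rw [mem_ball_iff_norm, Real.norm_eq_abs] at ht
    have h2 : |t| ≤ |t0| + |t - t0| := by
      have := abs_add_le t0 (t - t0)
      rwa [add_sub_cancel] at this
    have h3 : ‖gz δ t (1 + (y:ℂ) * Complex.I)‖ ≤ 12 * (2 + |t0|) * (1 + |y|) := by
      refine h1.trans ?_
      have h5 : 0 ≤ 1 + |y| := by linarith [abs_nonneg y]
      exact mul_le_mul_of_nonneg_right (by linarith) h5
    have h4 := mul_le_mul_of_nonneg_left h3 (norm_nonneg (ps φ y))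
    linarith
  · exact ((ps_wint h 1).const_mul _).restrict
  · refine Eventually.of_forall fun y => ?_
    exact (continuous_const.mul (hg.comp (by fun_prop : Continuous fun t : ℝ => (t, y)))).continuousAt

/-- the mass of the weights -/
noncomputable def ws (φ : ℝ → ℝ) (S : Set ℝ) : ℝ := ∫ y in S, 1 / (2 * Real.pi) * ((1 + |y|) ^ 4 * ‖ps φ y‖)

lemma ws_nonneg (φ : ℝ → ℝ) (S : Set ℝ) : 0 ≤ ws φ S := by
  unfold ws
  exact integral_nonneg fun y => by positivity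

lemma ws_tail {φ : ℝ → ℝ} (h : Sm φ) : Tendsto (fun Q : ℝ => ws φ (Icc (-Q) Q)ᶜ) atTop (𝓝 0) := by
  have hi : Integrable (fun y : ℝ => 1 / (2 * Real.pi) * ((1 + |y|) ^ 4 * ‖ps φ y‖)) := (ps_wint h 4).const_mul _
  have h1 : Tendsto (fun Q : ℝ => ∫ y in Icc (-Q) Q, 1 / (2 * Real.pi) * ((1 + |y|) ^ 4 * ‖ps φ y‖)) atTop
      (𝓝 (∫ y : ℝ, 1 / (2 * Real.pi) * ((1 + |y|) ^ 4 * ‖ps φ y‖))) :=
    (aecover_Icc tendsto_neg_atTop_atBot tendsto_id).integral_tendsto_of_countably_generated hi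
  have h2 : ∀ Q : ℝ, ws φ (Icc (-Q) Q)ᶜ = (∫ y : ℝ, 1 / (2 * Real.pi) * ((1 + |y|) ^ 4 * ‖ps φ y‖)) - ∫ y in Icc (-Q) Q, 1 / (2 * Real.pi) * ((1 + |y|) ^ 4 * ‖ps φ y‖) := by
    intro Q
    unfold ws
    rw [← integral_add_compl (measurableSet_Icc (a := -Q) (b := Q)) hi]
    ring
  simp_rw [h2]
  have h3 := h1.const_sub (∫ y : ℝ, 1 / (2 * Real.pi) * ((1 + |y|) ^ 4 * ‖ps φ y‖))
  rwa [sub_self] at h3

/-- the mean value bound -/
theorem aS_bd {β : ℝ} (hβ : 1 ≤ β) (hβ4 : β ≤ 4) : ∃ lam C T0 δ1 : ℝ, 0 < lam ∧ 0 < C ∧ 3 ≤ T0 ∧ 0 < δ1 ∧ δ1 ≤ 1 / 16 ∧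
    ∀ T : ℝ, T0 ≤ T → ∀ δ : ℝ, lam / Real.log T ≤ δ → δ ≤ δ1 → ∀ φ : ℝ → ℝ, Sm φ → ∀ S : Set ℝ,
      (2 * δ) ^ ((β / 2) ^ 2) / T * ∫ t in Icc 0 T, ‖aS φ S δ t‖ ^ β ≤ C * ws φ S ^ β := by
  have hβ0 : 0 < β := by linarith
  obtain ⟨lam, C, T0, δ1, hlam, hC, hT0, hδ1, hδ16, hns⟩ := nl_shift hβ0 hβ4
  refine ⟨lam, 2 ^ ((β / 2) ^ 2) * C, T0, δ1, hlam, by positivity, hT0, hδ1, hδ16, fun T hT δ h1 h2 φ h S => ?_⟩
  have hT3 : 3 ≤ T := hT0.trans hT
  have hTpos : 0 < T := by linarith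
  have hlog : 0 < Real.log T := Real.log_pos (by linarith)
  have hδ : 0 < δ := lt_of_lt_of_le (by positivity) h1
  have hδ' : δ ≤ 1 / 16 := h2.trans hδ16
  have hns' := hns T hT δ h1 h2
  have hg := gz_c hδ hδ'
  have hpm := pe_meas h
  obtain ⟨D, hD⟩ : ∃ D : ℝ, D = C * T * δ ^ (-((β / 2) ^ 2)) := ⟨_, rfl⟩
  have hD0 : 0 ≤ D := by rw [hD]; positivity
  have hgc : ∀ y : ℝ, Continuous fun t : ℝ => gz δ t (1 + (y:ℂ) * Complex.I) := fun y => hg.comp (by fun_prop : Continuous fun t : ℝ => (t, y))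
  -- the inner integral
  have hinner : ∀ y : ℝ, ∫⁻ t in Icc 0 T, ‖gz δ t (1 + (y:ℂ) * Complex.I)‖ₑ ^ β ≤ ENNReal.ofReal (D * (1 + |y|) ^ 4) := by
    intro y
    have hc : Continuous fun t : ℝ => ‖gz δ t (1 + (y:ℂ) * Complex.I)‖ ^ β := (hgc y).norm.rpow_const fun _ => Or.inr hβ0.le
    have e1 : ∫⁻ t in Icc 0 T, ‖gz δ t (1 + (y:ℂ) * Complex.I)‖ₑ ^ β = ENNReal.ofReal (∫ t in Icc 0 T, ‖gz δ t (1 + (y:ℂ) * Complex.I)‖ ^ β) := by
      rw [ofReal_integral_eq_lintegral_ofReal (hc.continuousOn.integrableOn_compact isCompact_Icc) (Eventually.of_forall fun t => by positivity)]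
      refine lintegral_congr fun t => ?_
      rw [← ofReal_norm, ENNReal.ofReal_rpow_of_nonneg (norm_nonneg _) hβ0.le]
    rw [e1]
    refine ENNReal.ofReal_le_ofReal ?_
    rw [integral_Icc_eq_integral_Ioc, ← intervalIntegral.integral_of_le hTpos.le, hD]
    exact hns' y
  have hjm : Measurable (fun p : ℝ × ℝ => pe φ p.2 * ‖gz δ p.1 (1 + (p.2:ℂ) * Complex.I)‖ₑ ^ β) :=
    (hpm.comp measurable_snd).mul (hg.measurable.enorm.pow_const _)
  obtain ⟨W, hW⟩ : ∃ W : ℝ≥0∞, W = ∫⁻ y in S, pe φ y * ENNReal.ofReal ((1 + |y|) ^ 4) := ⟨_, rfl⟩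
  have hWreal : W = ENNReal.ofReal (ws φ S) := by
    rw [hW]
    unfold ws
    rw [ofReal_integral_eq_lintegral_ofReal (((ps_wint h 4).const_mul _).restrict) (Eventually.of_forall fun y => by positivity)]
    refine lintegral_congr fun y => ?_
    unfold pe
    rw [← ENNReal.ofReal_mul (by positivity)]
    congr 1
    ring
  have hP : ∫⁻ y in S, pe φ y ≤ W := by
    rw [hW]
    refine lintegral_mono fun y => ?_
    show pe φ y ≤ pe φ y * ENNReal.ofReal ((1 + |y|) ^ 4)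
    refine le_mul_of_one_le_right (zero_le) ?_
    rw [ENNReal.one_le_ofReal]
    exact one_le_pow₀ (by linarith [abs_nonneg y])
  have hmain : ∫⁻ t in Icc 0 T, ‖aS φ S δ t‖ₑ ^ β ≤ ENNReal.ofReal D * W ^ β := by
    have hpt : ∀ t : ℝ, ‖aS φ S δ t‖ₑ ^ β ≤ (∫⁻ y in S, pe φ y) ^ (β - 1) * ∫⁻ y in S, pe φ y * ‖gz δ t (1 + (y:ℂ) * Complex.I)‖ₑ ^ β := by
      intro t
      have hgt : Measurable fun y : ℝ => ‖gz δ t (1 + (y:ℂ) * Complex.I)‖ₑ := (hg.comp (by fun_prop : Continuous fun y : ℝ => (t, y))).measurable.enorm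
      refine le_trans (ENNReal.rpow_le_rpow ?_ hβ0.le) (jen (volume.restrict S) hβ (w := pe φ) (f := fun y => ‖gz δ t (1 + (y:ℂ) * Complex.I)‖ₑ) hpm.aemeasurable hgt.aemeasurable)
      unfold aS
      rw [← integral_const_mul]
      refine (enorm_integral_le_lintegral_enorm _).trans (le_of_eq ?_)
      refine lintegral_congr fun y => ?_
      unfold pe
      rw [enorm_mul, enorm_mul, ← mul_assoc]
      congr 1
      rw [← ofReal_norm, ← ofReal_norm, ← ENNReal.ofReal_mul (norm_nonneg _), Complex.norm_real, Real.norm_of_nonneg (by positivity)]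
    refine (lintegral_mono hpt).trans ?_
    rw [lintegral_const_mul _ hjm.lintegral_prod_right', lintegral_lintegral_swap hjm.aemeasurable]
    have h3 : ∫⁻ y in S, ∫⁻ t in Icc 0 T, pe φ y * ‖gz δ t (1 + (y:ℂ) * Complex.I)‖ₑ ^ β ≤ ENNReal.ofReal D * W := by
      have hm4 : Measurable fun y : ℝ => pe φ y * ENNReal.ofReal ((1 + |y|) ^ 4) := hpm.mul (by fun_prop)
      rw [hW, ← lintegral_const_mul _ hm4]
      refine lintegral_mono fun y => ?_
      show ∫⁻ t in Icc 0 T, pe φ y * ‖gz δ t (1 + (y:ℂ) * Complex.I)‖ₑ ^ β ≤ ENNReal.ofReal D * (pe φ y * ENNReal.ofReal ((1 + |y|) ^ 4))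
      rw [lintegral_const_mul _ ((hgc y).measurable.enorm.pow_const _)]
      refine (mul_le_mul_right (hinner y) _).trans (le_of_eq ?_)
      rw [ENNReal.ofReal_mul hD0]
      ring
    calc (∫⁻ y in S, pe φ y) ^ (β - 1) * ∫⁻ y in S, ∫⁻ t in Icc 0 T, pe φ y * ‖gz δ t (1 + (y:ℂ) * Complex.I)‖ₑ ^ β ≤ W ^ (β - 1) * (ENNReal.ofReal D * W) :=
          mul_le_mul' (ENNReal.rpow_le_rpow hP (by linarith)) h3
      _ = ENNReal.ofReal D * (W ^ (β - 1) * W ^ (1:ℝ)) := by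
          rw [ENNReal.rpow_one]
          ring
      _ = ENNReal.ofReal D * W ^ β := by
          rw [← ENNReal.rpow_add_of_nonneg _ _ (by linarith) zero_le_one]
          congr 2
          ring
  have hc : Continuous fun t : ℝ => ‖aS φ S δ t‖ ^ β := (aS_cont h hδ hδ' S).norm.rpow_const fun _ => Or.inr hβ0.le
  have e2 : ∫⁻ t in Icc 0 T, ‖aS φ S δ t‖ₑ ^ β = ENNReal.ofReal (∫ t in Icc 0 T, ‖aS φ S δ t‖ ^ β) := by
    rw [ofReal_integral_eq_lintegral_ofReal (hc.continuousOn.integrableOn_compact isCompact_Icc) (Eventually.of_forall fun t => by positivity)]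
    refine lintegral_congr fun t => ?_
    rw [← ofReal_norm, ENNReal.ofReal_rpow_of_nonneg (norm_nonneg _) hβ0.le]
  have hws := ws_nonneg φ S
  rw [e2, hWreal, ENNReal.ofReal_rpow_of_nonneg hws hβ0.le, ← ENNReal.ofReal_mul hD0, ENNReal.ofReal_le_ofReal_iff (by positivity)] at hmain
  have hpos : 0 ≤ (2 * δ) ^ ((β / 2) ^ 2) / T := by positivity
  refine (mul_le_mul_of_nonneg_left hmain hpos).trans (le_of_eq ?_)
  rw [hD, Real.mul_rpow (by norm_num) hδ.le, Real.rpow_neg hδ.le]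
  have h9 : δ ^ ((β / 2) ^ 2) ≠ 0 := (Real.rpow_pos_of_pos hδ _).ne'
  field_simp

end Pool.Agent.H470
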