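import Pool.Graph.R_seed8.TH806.Tor1

set_option autoImplicit false

/-! The local factors of the random Euler product. -/

namespace Pool.Agent.H470

open MeasureTheory Filter Topology Set Complex
open Pool.Agent.TH806 (ec ec_norm ec_cont ec_nat ec_conj uu int_ec integrable_uu)

/-- the logarithm of the geometric series -/
noncomputable def el (z : ℂ) : ℂ := -Complex.log (1 - z)

lemma el_zero : el 0 = 0 := by simp [el]

lemma el_exp {z : ℂ} (hz : ‖z‖ < 1) : Complex.exp (el z) = (1 - z)⁻¹ := by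
  unfold el
  rw [Complex.exp_neg, Complex.exp_log]
  intro h
  have h1 : z = 1 := by linear_combination -h
  rw [h1] at hz
  simp at hz

lemma slit_el {z : ℂ} (hz : ‖z‖ < 1) : 1 - z ∈ Complex.slitPlane := by
  have h := Complex.mem_slitPlane_of_norm_lt_one (z := -z) (by rwa [norm_neg])
  rwa [← sub_eq_add_neg] at h

lemma el_analytic {z : ℂ} (hz : ‖z‖ < 1) : DifferentiableAt ℂ el z := by
  unfold el
  exact ((differentiableAt_const _).sub differentiableAt_id).clog (slit_el hz) |>.neg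

lemma el_cont {z : ℂ} (hz : ‖z‖ < 1) : ContinuousAt el z := (el_analytic hz).continuousAt

lemma el_bd {z : ℂ} (hz : ‖z‖ ≤ 3 / 4) : ‖el z‖ ≤ 5 / 2 * ‖z‖ := by
  have h := Complex.norm_log_one_add_le (z := -z) (by rw [norm_neg]; linarith)
  rw [norm_neg, ← sub_eq_add_neg] at h
  unfold el
  rw [norm_neg]
  refine h.trans ?_
  have h1 : (1 - ‖z‖)⁻¹ ≤ 4 := by
    rw [inv_le_comm₀ (by linarith) (by norm_num)]
    linarith
  have h0 := norm_nonneg z
  have h2 : ‖z‖ ^ 2 * (1 - ‖z‖)⁻¹ ≤ ‖z‖ ^ 2 * 4 := mul_le_mul_of_nonneg_left h1 (by positivity)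
  nlinarith

lemma el_tay {z : ℂ} (hz : ‖z‖ ≤ 3 / 4) : ‖el z - (z + z ^ 2 / 2)‖ ≤ 4 / 3 * ‖z‖ ^ 3 := by
  have h := Complex.norm_log_sub_logTaylor_le 2 (z := -z) (by rw [norm_neg]; linarith)
  rw [norm_neg, ← sub_eq_add_neg] at h
  have e1 : Complex.logTaylor (2 + 1) (-z) = -(z + z ^ 2 / 2) := by
    rw [Complex.logTaylor_succ, Complex.logTaylor_succ, Complex.logTaylor_succ, Complex.logTaylor_zero]
    simp only [Pi.add_apply]
    push_cast
    ring
  rw [e1] at h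
  have e2 : el z - (z + z ^ 2 / 2) = -(Complex.log (1 - z) - -(z + z ^ 2 / 2)) := by unfold el; ring
  rw [e2, norm_neg]
  refine h.trans ?_
  have h1 : (1 - ‖z‖)⁻¹ ≤ 4 := by
    rw [inv_le_comm₀ (by linarith) (by norm_num)]
    linarith
  have h0 := norm_nonneg z
  have h2 : ‖z‖ ^ (2 + 1) * (1 - ‖z‖)⁻¹ ≤ ‖z‖ ^ (2 + 1) * 4 := mul_le_mul_of_nonneg_left h1 (by positivity)
  push_cast
  have h3 : ‖z‖ ^ (2 + 1) * (1 - ‖z‖)⁻¹ / (2 + 1) ≤ ‖z‖ ^ (2 + 1) * 4 / (2 + 1) := div_le_div_of_nonneg_right h2 (by norm_num)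
  refine h3.trans (le_of_eq ?_)
  ring

variable {n : ℕ}

/-- the exponent at one prime -/
noncomputable def lu (α β z : Fin n → ℂ) (x : ℝ) : ℂ :=
  ∑ j, (α j * el (z j * ec x) + β j * (starRingEnd ℂ) (el (z j * ec x)))

/-- the local factor -/
noncomputable def lf (α β z : Fin n → ℂ) : ℂ := ∫ x, Complex.exp (lu α β z x) ∂uu

lemma lu_cont {α β z : Fin n → ℂ} (hz : ∀ j, ‖z j‖ < 1) : Continuous (lu α β z) := by
  unfold lu
  refine continuous_finsetSum _ fun j _ => ?_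
  have h1 : Continuous fun x => el (z j * ec x) := by
    refine continuous_iff_continuousAt.mpr fun x => ?_
    have h2 : ‖z j * ec x‖ < 1 := by rw [norm_mul, ec_norm, mul_one]; exact hz j
    exact ContinuousAt.comp (f := fun x => z j * ec x) (el_cont h2) (by have := ec_cont; fun_prop)
  exact (h1.const_mul _).add ((Complex.continuous_conj.comp h1).const_mul _)

/-- integrals of the powers -/
lemma int_e1 : ∫ x, ec x ∂uu = 0 := by
  have h := int_ec 1
  simp only [Int.cast_one, one_mul, one_ne_zero, if_false] at h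
  exact h

lemma int_e1' : ∫ x, (starRingEnd ℂ) (ec x) ∂uu = 0 := by
  have h := int_ec (-1)
  simp only [Int.cast_neg, Int.cast_one, neg_mul, one_mul] at h
  simp_rw [ec_conj]
  simpa using h

lemma int_e2 : ∫ x, ec x ^ 2 ∂uu = 0 := by
  have h := int_ec 2
  simp only [Int.cast_ofNat, OfNat.ofNat_ne_zero, if_false] at h
  rw [← h]
  refine integral_congr_ae (Eventually.of_forall fun x => ?_)
  have := ec_nat 2 x
  push_cast at this
  exact this.symm

lemma int_e2' : ∫ x, ((starRingEnd ℂ) (ec x)) ^ 2 ∂uu = 0 := by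
  have h := int_e2
  have h2 : ∫ x, (starRingEnd ℂ) (ec x ^ 2) ∂uu = (starRingEnd ℂ) (∫ x, ec x ^ 2 ∂uu) := integral_conj
  rw [h, map_zero] at h2
  simpa using h2

/-- the constant -/
noncomputable def CL (A : ℝ) : ℝ := 3 * A + 11 * A ^ 2 + 125 * A ^ 3 * Real.exp (5 * A)

/-- the expansion of the local factor -/
theorem lf_exp {α β z : Fin n → ℂ} {A r : ℝ} (hr : r ≤ 3 / 4) (hz : ∀ j, ‖z j‖ ≤ r) (hr0 : 0 ≤ r)
    (hα : ∑ j, ‖α j‖ ≤ A) (hβ : ∑ j, ‖β j‖ ≤ A) :
    ‖lf α β z - (1 + (∑ j, α j * z j) * ∑ j, β j * (starRingEnd ℂ) (z j))‖ ≤ CL A * r ^ 3 := by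
  have hA : 0 ≤ A := (Finset.sum_nonneg fun j _ => norm_nonneg _).trans hα
  obtain ⟨a, ha⟩ : ∃ a : ℂ, a = ∑ j, α j * z j := ⟨_, rfl⟩
  obtain ⟨b, hb⟩ : ∃ b : ℂ, b = ∑ j, β j * (starRingEnd ℂ) (z j) := ⟨_, rfl⟩
  obtain ⟨a2, ha2⟩ : ∃ a : ℂ, a = ∑ j, α j * (z j ^ 2 / 2) := ⟨_, rfl⟩
  obtain ⟨b2, hb2⟩ : ∃ b : ℂ, b = ∑ j, β j * ((starRingEnd ℂ) (z j) ^ 2 / 2) := ⟨_, rfl⟩
  rw [← ha, ← hb]
  have na : ‖a‖ ≤ A * r := by
    rw [ha]
    refine (norm_sum_le _ _).trans (le_trans (Finset.sum_le_sum fun j _ => ?_) (le_of_eq_of_le (Finset.sum_mul _ _ r).symm (mul_le_mul_of_nonneg_right hα hr0)))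
    rw [norm_mul]
    exact mul_le_mul_of_nonneg_left (hz j) (norm_nonneg _)
  have nb : ‖b‖ ≤ A * r := by
    rw [hb]
    refine (norm_sum_le _ _).trans (le_trans (Finset.sum_le_sum fun j _ => ?_) (le_of_eq_of_le (Finset.sum_mul _ _ r).symm (mul_le_mul_of_nonneg_right hβ hr0)))
    rw [norm_mul, RCLike.norm_conj]
    exact mul_le_mul_of_nonneg_left (hz j) (norm_nonneg _)
  have na2 : ‖a2‖ ≤ A * (r ^ 2 / 2) := by
    rw [ha2]
    refine (norm_sum_le _ _).trans (le_trans (Finset.sum_le_sum fun j _ => ?_) (le_of_eq_of_le (Finset.sum_mul _ _ (r ^ 2 / 2)).symm (mul_le_mul_of_nonneg_right hα (by positivity))))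
    rw [norm_mul, norm_div, norm_pow, Complex.norm_two]
    exact mul_le_mul_of_nonneg_left (div_le_div_of_nonneg_right (pow_le_pow_left₀ (norm_nonneg _) (hz j) 2) (by norm_num)) (norm_nonneg _)
  have nb2 : ‖b2‖ ≤ A * (r ^ 2 / 2) := by
    rw [hb2]
    refine (norm_sum_le _ _).trans (le_trans (Finset.sum_le_sum fun j _ => ?_) (le_of_eq_of_le (Finset.sum_mul _ _ (r ^ 2 / 2)).symm (mul_le_mul_of_nonneg_right hβ (by positivity))))
    rw [norm_mul, norm_div, norm_pow, Complex.norm_two, RCLike.norm_conj]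
    exact mul_le_mul_of_nonneg_left (div_le_div_of_nonneg_right (pow_le_pow_left₀ (norm_nonneg _) (hz j) 2) (by norm_num)) (norm_nonneg _)
  obtain ⟨u1, hu1⟩ : ∃ u1 : ℝ → ℂ, ∀ x, u1 x = a * ec x + b * (starRingEnd ℂ) (ec x) := ⟨fun x => _, fun _ => rfl⟩
  obtain ⟨u2, hu2⟩ : ∃ u2 : ℝ → ℂ, ∀ x, u2 x = a2 * ec x ^ 2 + b2 * (starRingEnd ℂ) (ec x) ^ 2 := ⟨fun x => _, fun _ => rfl⟩
  have hu1n : ∀ x, ‖u1 x‖ ≤ 2 * A * r := fun x => by
    rw [hu1]
    refine (norm_add_le _ _).trans ?_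
    rw [norm_mul, norm_mul, RCLike.norm_conj, ec_norm]
    linarith
  have hu2n : ∀ x, ‖u2 x‖ ≤ A * r ^ 2 := fun x => by
    rw [hu2]
    refine (norm_add_le _ _).trans ?_
    rw [norm_mul, norm_mul, norm_pow, norm_pow, RCLike.norm_conj, ec_norm]
    linarith
  have hzn : ∀ j x, ‖z j * ec x‖ ≤ r := fun j x => by rw [norm_mul, ec_norm, mul_one]; exact hz j
  -- the third order remainder
  have hE3 : ∀ x, ‖lu α β z x - u1 x - u2 x‖ ≤ 8 / 3 * A * r ^ 3 := by
    intro x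
    have e1 : lu α β z x - u1 x - u2 x = ∑ j, (α j * (el (z j * ec x) - (z j * ec x + (z j * ec x) ^ 2 / 2)) +
        β j * (starRingEnd ℂ) (el (z j * ec x) - (z j * ec x + (z j * ec x) ^ 2 / 2))) := by
      unfold lu
      rw [hu1, hu2, ha, hb, ha2, hb2, Finset.sum_mul, Finset.sum_mul, Finset.sum_mul, Finset.sum_mul, ← Finset.sum_add_distrib, ← Finset.sum_add_distrib,
        ← Finset.sum_sub_distrib, ← Finset.sum_sub_distrib]
      refine Finset.sum_congr rfl fun j _ => ?_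
      simp only [map_sub, map_add, map_mul, map_div₀, map_pow, map_ofNat]
      ring
    rw [e1]
    have h1 : ∀ j, ‖el (z j * ec x) - (z j * ec x + (z j * ec x) ^ 2 / 2)‖ ≤ 4 / 3 * r ^ 3 := by
      intro j
      refine (el_tay ((hzn j x).trans hr)).trans ?_
      have := pow_le_pow_left₀ (norm_nonneg _) (hzn j x) 3
      linarith
    refine (norm_sum_le _ _).trans ?_
    have h2 : ∀ j, ‖α j * (el (z j * ec x) - (z j * ec x + (z j * ec x) ^ 2 / 2)) +
        β j * (starRingEnd ℂ) (el (z j * ec x) - (z j * ec x + (z j * ec x) ^ 2 / 2))‖ ≤ (‖α j‖ + ‖β j‖) * (4 / 3 * r ^ 3) := by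
      intro j
      refine (norm_add_le _ _).trans ?_
      rw [norm_mul, norm_mul, RCLike.norm_conj, add_mul]
      exact add_le_add (mul_le_mul_of_nonneg_left (h1 j) (norm_nonneg _)) (mul_le_mul_of_nonneg_left (h1 j) (norm_nonneg _))
    refine (Finset.sum_le_sum fun j _ => h2 j).trans ?_
    rw [← Finset.sum_mul, Finset.sum_add_distrib]
    have h3 : (∑ j, ‖α j‖ + ∑ j, ‖β j‖) * (4 / 3 * r ^ 3) ≤ (A + A) * (4 / 3 * r ^ 3) := mul_le_mul_of_nonneg_right (add_le_add hα hβ) (by positivity)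
    linarith
  have hUn : ∀ x, ‖lu α β z x‖ ≤ 5 * A * r := by
    intro x
    unfold lu
    have h1 : ∀ j, ‖el (z j * ec x)‖ ≤ 5 / 2 * r := fun j => by
      refine (el_bd ((hzn j x).trans hr)).trans ?_
      have := hzn j x
      linarith
    refine (norm_sum_le _ _).trans ?_
    have h2 : ∀ j, ‖α j * el (z j * ec x) + β j * (starRingEnd ℂ) (el (z j * ec x))‖ ≤ (‖α j‖ + ‖β j‖) * (5 / 2 * r) := by
      intro j
      refine (norm_add_le _ _).trans ?_
      rw [norm_mul, norm_mul, RCLike.norm_conj, add_mul]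
      exact add_le_add (mul_le_mul_of_nonneg_left (h1 j) (norm_nonneg _)) (mul_le_mul_of_nonneg_left (h1 j) (norm_nonneg _))
    refine (Finset.sum_le_sum fun j _ => h2 j).trans ?_
    rw [← Finset.sum_mul, Finset.sum_add_distrib]
    have h3 : (∑ j, ‖α j‖ + ∑ j, ‖β j‖) * (5 / 2 * r) ≤ (A + A) * (5 / 2 * r) := mul_le_mul_of_nonneg_right (add_le_add hα hβ) (by positivity)
    linarith
  have hrr : r ^ 3 ≤ 3 / 4 * r ^ 2 := by
    have : r ^ 3 = r * r ^ 2 := by ring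
    rw [this]
    exact mul_le_mul_of_nonneg_right hr (by positivity)
  -- the pointwise bound
  obtain ⟨m, hm⟩ : ∃ m : ℝ → ℂ, ∀ x, m x = 1 + u1 x + u2 x + u1 x ^ 2 / 2 := ⟨fun x => _, fun _ => rfl⟩
  have hpt : ∀ x, ‖Complex.exp (lu α β z x) - m x‖ ≤ CL A * r ^ 3 := by
    intro x
    have h1 := Complex.norm_exp_sub_sum_le_norm_mul_exp (lu α β z x) 3
    simp only [Finset.sum_range_succ, Finset.sum_range_zero, pow_zero, pow_one, Nat.factorial] at h1
    push_cast at h1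
    have e1 : Complex.exp (lu α β z x) - m x = (Complex.exp (lu α β z x) - (0 + 1 / 1 + lu α β z x / (1 * 1) + lu α β z x ^ 2 / (2 * (1 * 1)))) +
        (lu α β z x - u1 x - u2 x) + (lu α β z x - u1 x) * (lu α β z x + u1 x) / 2 := by
      rw [hm]
      ring
    have h2 : ‖lu α β z x‖ ^ 3 * Real.exp ‖lu α β z x‖ ≤ (5 * A * r) ^ 3 * Real.exp (5 * A) := by
      refine mul_le_mul (pow_le_pow_left₀ (norm_nonneg _) (hUn x) 3) (Real.exp_le_exp.mpr ((hUn x).trans ?_)) (Real.exp_pos _).le (by positivity)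
      have : 5 * A * r ≤ 5 * A * 1 := mul_le_mul_of_nonneg_left (by linarith) (by positivity)
      linarith
    have h3 : ‖lu α β z x - u1 x‖ ≤ 3 * A * r ^ 2 := by
      have e2 : lu α β z x - u1 x = (lu α β z x - u1 x - u2 x) + u2 x := by ring
      rw [e2]
      refine (norm_add_le _ _).trans ?_
      have := hE3 x
      have := hu2n x
      have h5 := mul_le_mul_of_nonneg_left hrr (show 0 ≤ 8 / 3 * A by positivity)
      linarith
    have h4 : ‖lu α β z x + u1 x‖ ≤ 7 * A * r := by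
      refine (norm_add_le _ _).trans ?_
      have := hUn x
      have := hu1n x
      linarith
    have h5 : ‖(lu α β z x - u1 x) * (lu α β z x + u1 x) / 2‖ ≤ (3 * A * r ^ 2) * (7 * A * r) / 2 := by
      rw [norm_div, norm_mul, Complex.norm_two]
      exact div_le_div_of_nonneg_right (mul_le_mul h3 h4 (norm_nonneg _) (by positivity)) (by norm_num)
    rw [e1]
    refine (norm_add₃_le).trans ?_
    have h6 := h1.trans h2
    have h7 := hE3 x
    unfold CL
    have h8 : 0 ≤ A * r ^ 3 := by positivity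
    have h9 : 0 ≤ A ^ 2 * r ^ 3 := by positivity
    nlinarith
  have hec := ec_cont
  have hmc : Continuous m := by
    have e : m = fun x => 1 + (a * ec x + b * (starRingEnd ℂ) (ec x)) + (a2 * ec x ^ 2 + b2 * (starRingEnd ℂ) (ec x) ^ 2) +
        (a * ec x + b * (starRingEnd ℂ) (ec x)) ^ 2 / 2 := by
      funext x
      rw [hm, hu1, hu2]
    rw [e]
    have hcc : Continuous fun x => (starRingEnd ℂ) (ec x) := Complex.continuous_conj.comp hec
    fun_prop
  have hmb : ∀ x, ‖m x‖ ≤ 1 + 2 * A * r + A * r ^ 2 + (2 * A * r) ^ 2 / 2 := by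
    intro x
    rw [hm]
    refine (norm_add_le _ _).trans (add_le_add ((norm_add_le _ _).trans (add_le_add ((norm_add_le _ _).trans (add_le_add (by simp) (hu1n x))) (hu2n x))) ?_)
    rw [norm_div, norm_pow, Complex.norm_two]
    exact div_le_div_of_nonneg_right (pow_le_pow_left₀ (norm_nonneg _) (hu1n x) 2) (by norm_num)
  have hmi : Integrable m uu := integrable_uu hmc hmb
  have hei : Integrable (fun x => Complex.exp (lu α β z x)) uu := by
    refine integrable_uu (Complex.continuous_exp.comp (lu_cont fun j => (hz j).trans_lt (by linarith))) (B := Real.exp (5 * A * r)) fun x => ?_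
    rw [Complex.norm_exp]
    exact Real.exp_le_exp.mpr ((Complex.re_le_norm _).trans (hUn x))
  have hint : ∫ x, m x ∂uu = 1 + a * b := by
    have e1 : ∀ x, m x = (1 + a * b) + (a * ec x + (b * (starRingEnd ℂ) (ec x) + ((a2 + a ^ 2 / 2) * ec x ^ 2 + (b2 + b ^ 2 / 2) * (starRingEnd ℂ) (ec x) ^ 2))) := by
      intro x
      rw [hm, hu1, hu2]
      have h := Pool.Agent.TH806.ec_mul_conj x
      linear_combination a * b * h
    simp_rw [e1]
    have hcc : Continuous fun x => (starRingEnd ℂ) (ec x) := Complex.continuous_conj.comp hec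
    have i1 : Integrable (fun x => a * ec x) uu := integrable_uu (by fun_prop) (B := ‖a‖) fun x => by rw [norm_mul, ec_norm, mul_one]
    have i2 : Integrable (fun x => b * (starRingEnd ℂ) (ec x)) uu := integrable_uu (by fun_prop) (B := ‖b‖) fun x => by rw [norm_mul, RCLike.norm_conj, ec_norm, mul_one]
    have i3 : Integrable (fun x => (a2 + a ^ 2 / 2) * ec x ^ 2) uu := integrable_uu (by fun_prop) (B := ‖a2 + a ^ 2 / 2‖) fun x => by
      rw [norm_mul, norm_pow, ec_norm, one_pow, mul_one]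
    have i4 : Integrable (fun x => (b2 + b ^ 2 / 2) * (starRingEnd ℂ) (ec x) ^ 2) uu := integrable_uu (by fun_prop) (B := ‖b2 + b ^ 2 / 2‖) fun x => by
      rw [norm_mul, norm_pow, RCLike.norm_conj, ec_norm, one_pow, mul_one]
    have i34 : Integrable (fun x => (a2 + a ^ 2 / 2) * ec x ^ 2 + (b2 + b ^ 2 / 2) * (starRingEnd ℂ) (ec x) ^ 2) uu := i3.add i4
    have i234 : Integrable (fun x => b * (starRingEnd ℂ) (ec x) + ((a2 + a ^ 2 / 2) * ec x ^ 2 + (b2 + b ^ 2 / 2) * (starRingEnd ℂ) (ec x) ^ 2)) uu := i2.add i34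
    have i1234 : Integrable (fun x => a * ec x + (b * (starRingEnd ℂ) (ec x) + ((a2 + a ^ 2 / 2) * ec x ^ 2 + (b2 + b ^ 2 / 2) * (starRingEnd ℂ) (ec x) ^ 2))) uu := i1.add i234
    rw [integral_add (integrable_const _) i1234, integral_add i1 i234, integral_add i2 i34,
      integral_add i3 i4, integral_const_mul, integral_const_mul, integral_const_mul, integral_const_mul, int_e1, int_e1', int_e2, int_e2']
    simp
  unfold lf
  rw [← hint, ← integral_sub hei hmi]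
  refine (norm_integral_le_of_norm_le_const (Eventually.of_forall hpt)).trans (le_of_eq ?_)
  simp

/-- the constant for the norm -/
noncomputable def CN (A : ℝ) : ℝ := A ^ 4 / 2 + CL A * Real.exp (A ^ 2)

lemma CL_nonneg {A : ℝ} (hA : 0 ≤ A) : 0 ≤ CL A := by unfold CL; positivity

lemma CN_nonneg {A : ℝ} (hA : 0 ≤ A) : 0 ≤ CN A := by
  unfold CN
  have := CL_nonneg hA
  positivity

lemma one_add_norm_le (w : ℂ) : ‖1 + w‖ ≤ Real.exp (w.re + ‖w‖ ^ 2 / 2) := by
  have h1 : ‖1 + w‖ ^ 2 ≤ Real.exp (w.re + ‖w‖ ^ 2 / 2) ^ 2 := by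
    rw [← Real.exp_nat_mul, ← Complex.normSq_eq_norm_sq, Complex.normSq_add]
    have h2 := Real.add_one_le_exp ((2:ℕ) * (w.re + ‖w‖ ^ 2 / 2))
    rw [Complex.normSq_eq_norm_sq w]
    simp only [map_one, one_mul, Complex.conj_re]
    push_cast at h2 ⊢
    linarith
  exact le_of_sq_le_sq h1 (Real.exp_pos _).le

/-- the norm of the local factor -/
theorem lf_norm {α β z : Fin n → ℂ} {A r : ℝ} (hr : r ≤ 3 / 4) (hz : ∀ j, ‖z j‖ ≤ r) (hr0 : 0 ≤ r)
    (hα : ∑ j, ‖α j‖ ≤ A) (hβ : ∑ j, ‖β j‖ ≤ A) :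
    ‖lf α β z‖ ≤ Real.exp (((∑ j, α j * z j) * ∑ j, β j * (starRingEnd ℂ) (z j)).re + CN A * r ^ 3) := by
  have hA : 0 ≤ A := (Finset.sum_nonneg fun j _ => norm_nonneg _).trans hα
  have h1 := lf_exp hr hz hr0 hα hβ
  obtain ⟨w, hw⟩ : ∃ w : ℂ, w = (∑ j, α j * z j) * ∑ j, β j * (starRingEnd ℂ) (z j) := ⟨_, rfl⟩
  rw [← hw] at h1 ⊢
  have na : ‖∑ j, α j * z j‖ ≤ A * r := by
    refine (norm_sum_le _ _).trans (le_trans (Finset.sum_le_sum fun j _ => ?_) (le_of_eq_of_le (Finset.sum_mul _ _ r).symm (mul_le_mul_of_nonneg_right hα hr0)))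
    rw [norm_mul]
    exact mul_le_mul_of_nonneg_left (hz j) (norm_nonneg _)
  have nb : ‖∑ j, β j * (starRingEnd ℂ) (z j)‖ ≤ A * r := by
    refine (norm_sum_le _ _).trans (le_trans (Finset.sum_le_sum fun j _ => ?_) (le_of_eq_of_le (Finset.sum_mul _ _ r).symm (mul_le_mul_of_nonneg_right hβ hr0)))
    rw [norm_mul, RCLike.norm_conj]
    exact mul_le_mul_of_nonneg_left (hz j) (norm_nonneg _)
  have nw : ‖w‖ ≤ A ^ 2 * r ^ 2 := by
    rw [hw, norm_mul]
    refine (mul_le_mul na nb (norm_nonneg _) (by positivity)).trans (le_of_eq (by ring))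
  have hr1 : r ≤ 1 := by linarith
  have hr2 : r ^ 2 ≤ 1 := pow_le_one₀ hr0 hr1
  have nw1 : ‖w‖ ≤ A ^ 2 := nw.trans (mul_le_of_le_one_right (by positivity) hr2)
  have nw2 : ‖w‖ ^ 2 ≤ A ^ 4 * r ^ 3 := by
    calc ‖w‖ ^ 2 ≤ (A ^ 2 * r ^ 2) ^ 2 := pow_le_pow_left₀ (norm_nonneg _) nw 2
      _ = A ^ 4 * (r ^ 3 * r) := by ring
      _ ≤ A ^ 4 * (r ^ 3 * 1) := by gcongr
      _ = A ^ 4 * r ^ 3 := by ring
  have hre : -w.re ≤ A ^ 2 := by
    have := (abs_le.mp (Complex.abs_re_le_norm w)).1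
    linarith
  have hCL := CL_nonneg hA
  have h2 : ‖lf α β z‖ ≤ ‖1 + w‖ + CL A * r ^ 3 := by
    have e : lf α β z = (lf α β z - (1 + w)) + (1 + w) := by ring
    rw [e]
    refine (norm_add_le _ _).trans ?_
    linarith
  have h3 := one_add_norm_le w
  have h4 : CL A * r ^ 3 ≤ Real.exp (w.re + ‖w‖ ^ 2 / 2) * (CL A * Real.exp (A ^ 2) * r ^ 3) := by
    have h5 : 1 ≤ Real.exp (w.re + ‖w‖ ^ 2 / 2) * Real.exp (A ^ 2) := by
      rw [← Real.exp_add]
      refine Real.one_le_exp ?_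
      have : 0 ≤ ‖w‖ ^ 2 / 2 := by positivity
      linarith
    have h6 : 0 ≤ CL A * r ^ 3 := by positivity
    calc CL A * r ^ 3 = CL A * r ^ 3 * 1 := by ring
      _ ≤ CL A * r ^ 3 * (Real.exp (w.re + ‖w‖ ^ 2 / 2) * Real.exp (A ^ 2)) := mul_le_mul_of_nonneg_left h5 h6
      _ = _ := by ring
  calc ‖lf α β z‖ ≤ Real.exp (w.re + ‖w‖ ^ 2 / 2) * (1 + CL A * Real.exp (A ^ 2) * r ^ 3) := by linarith
    _ ≤ Real.exp (w.re + ‖w‖ ^ 2 / 2) * Real.exp (CL A * Real.exp (A ^ 2) * r ^ 3) := by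
        refine mul_le_mul_of_nonneg_left ?_ (Real.exp_pos _).le
        have := Real.add_one_le_exp (CL A * Real.exp (A ^ 2) * r ^ 3)
        linarith
    _ = Real.exp (w.re + ‖w‖ ^ 2 / 2 + CL A * Real.exp (A ^ 2) * r ^ 3) := (Real.exp_add _ _).symm
    _ ≤ _ := by
        refine Real.exp_le_exp.mpr ?_
        unfold CN
        linarith

end Pool.Agent.H470
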