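import Pool.Agent.H470.To9
import Pool.Agent.H470.Fo
import Pool.Agent.H470.Po

set_option autoImplicit false

/-! Riemann sums for the averages of the random Euler product. -/

namespace Pool.Agent.H470

open MeasureTheory Filter Topology ProbabilityTheory Set
open scoped ENNReal
open Pool.Agent.R313.CX (mu)

/-- Riemann sums -/
lemma riem {g : ℝ → ℂ} (hg : Continuous g) {Q : ℝ} (hQ : 0 ≤ Q) {m : ℕ} (hm : 0 < m) {e : ℝ}
    (he : ∀ y ∈ Icc (-Q) Q, ∀ y' ∈ Icc (-Q) Q, |y - y'| ≤ 2 * Q / m → ‖g y - g y'‖ ≤ e) :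
    ‖(∫ y in Icc (-Q) Q, g y) - ∑ j ∈ Finset.range m, ((2 * Q / m : ℝ) : ℂ) * g (-Q + 2 * Q / m * j)‖ ≤ 2 * Q * e := by
  have hm0 : (0:ℝ) < m := by exact_mod_cast hm
  obtain ⟨h, hh⟩ : ∃ h : ℝ, h = 2 * Q / m := ⟨_, rfl⟩
  have hh0 : 0 ≤ h := by rw [hh]; positivity
  rw [← hh] at he ⊢
  obtain ⟨a, ha⟩ : ∃ a : ℕ → ℝ, ∀ j, a j = -Q + h * j := ⟨fun j => -Q + h * j, fun _ => rfl⟩
  have hend : a m = Q := by
    rw [ha, hh]
    field_simp
    ring
  have h0 : a 0 = -Q := by rw [ha]; simp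
  have hstep : ∀ j, a (j + 1) = a j + h := by
    intro j
    rw [ha, ha]
    push_cast
    ring
  have hin : ∀ j, j ≤ m → a j ∈ Icc (-Q) Q := by
    intro j hj
    have hj' : (j:ℝ) ≤ m := by exact_mod_cast hj
    constructor
    · have : 0 ≤ h * j := by positivity
      rw [ha]
      linarith
    · have := mul_le_mul_of_nonneg_left hj' hh0
      rw [← hend, ha, ha]
      linarith
  have e1 : ∫ y in Icc (-Q) Q, g y = ∑ j ∈ Finset.range m, ∫ y in (a j)..(a (j + 1)), g y := by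
    rw [intervalIntegral.sum_integral_adjacent_intervals (fun j _ => hg.intervalIntegrable _ _), h0, hend, integral_Icc_eq_integral_Ioc,
      ← intervalIntegral.integral_of_le (by linarith)]
  rw [e1, ← Finset.sum_sub_distrib]
  refine (norm_sum_le _ _).trans ?_
  have h2 : ∀ j ∈ Finset.range m, ‖(∫ y in (a j)..(a (j + 1)), g y) - (h : ℂ) * g (-Q + h * j)‖ ≤ e * h := by
    intro j hj
    rw [Finset.mem_range] at hj
    have e2 : (h : ℂ) * g (-Q + h * j) = ∫ _y in (a j)..(a (j + 1)), g (a j) := by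
      rw [intervalIntegral.integral_const, hstep, ha j]
      simp
    rw [e2, ← intervalIntegral.integral_sub (hg.intervalIntegrable _ _) (continuous_const.intervalIntegrable _ _)]
    have h3 := intervalIntegral.norm_integral_le_of_norm_le_const (f := fun y => g y - g (a j)) (a := a j) (b := a (j + 1)) (C := e) (by
      intro y hy
      rw [uIoc_of_le (by rw [hstep]; linarith)] at hy
      have hj1 := hin j hj.le
      have hj2 := hin (j + 1) hj
      refine he y ⟨by linarith [hj1.1, hy.1], by linarith [hj2.2, hy.2]⟩ (a j) hj1 ?_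
      rw [abs_of_nonneg (by linarith [hy.1])]
      have := hy.2
      rw [hstep] at this
      linarith)
    refine h3.trans (le_of_eq ?_)
    rw [hstep, add_sub_cancel_left, abs_of_nonneg hh0]
  refine (Finset.sum_le_sum h2).trans (le_of_eq ?_)
  rw [Finset.sum_const, Finset.card_range, nsmul_eq_mul, hh]
  field_simp

/-- the average of the random Euler product -/
noncomputable def Ig (φ : ℝ → ℝ) (x : ℝ) (ω : ℕ → ℝ) : ℂ := ((1 / (2 * Real.pi) : ℝ) : ℂ) * ∫ y : ℝ, ps φ y * Fp x y ω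

/-- the nodes -/
noncomputable def nd (Q : ℝ) (m : ℕ) (j : Fin m) : ℝ := -Q + 2 * Q / m * (j:ℕ)

/-- the weights -/
noncomputable def wt (φ : ℝ → ℝ) (Q : ℝ) (m : ℕ) (j : Fin m) : ℂ := ((1 / (2 * Real.pi) : ℝ) : ℂ) * (((2 * Q / m : ℝ) : ℂ) * ps φ (nd Q m j))

lemma wt_sum (φ : ℝ → ℝ) (Q : ℝ) (m : ℕ) (F : ℝ → ℂ) :
    ∑ j, wt φ Q m j * F (nd Q m j) = ((1 / (2 * Real.pi) : ℝ) : ℂ) * ∑ j ∈ Finset.range m, ((2 * Q / m : ℝ) : ℂ) * (ps φ (-Q + 2 * Q / m * j) * F (-Q + 2 * Q / m * j)) := by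
  rw [← Fin.sum_univ_eq_sum_range (fun j => ((2 * Q / m : ℝ) : ℂ) * (ps φ (-Q + 2 * Q / m * j) * F (-Q + 2 * Q / m * j))) m, Finset.mul_sum]
  refine Finset.sum_congr rfl fun j _ => ?_
  unfold wt nd
  ring

lemma Fp_contY {x : ℝ} (hx : 0 < x) (ω : ℕ → ℝ) : Continuous fun y => Fp x y ω := by
  unfold Fp Xp
  refine Complex.continuous_exp.comp (Xs_cont2 (fun p hp => pr_two hp) ?_ (fun y => by rw [sp_re]; linarith) continuous_const)
  unfold sp
  fun_prop

/-- the Lipschitz bound -/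
lemma Fp_lip {A : ℕ} {x : ℝ} (hx : 0 < x) {ω : ℕ → ℝ} {M : ℝ} (hM : 0 ≤ M)
    (h : ∀ w : ℂ, 3 / 4 ≤ w.re → w.re ≤ 5 / 4 → ‖Fw x w ω‖ ≤ (1 + |w.im|) ^ A * M) {Q : ℝ} {y y' : ℝ}
    (hy : y ∈ Icc (-Q) Q) (hy' : y' ∈ Icc (-Q) Q) : ‖Fp x y ω - Fp x y' ω‖ ≤ |y - y'| * (4 * (2 + Q) ^ A * M) := by
  have hU : IsOpen {w : ℂ | 0 < w.re} := isOpen_lt continuous_const Complex.continuous_re
  have hdiff := Fw_diff x hx ω
  have hd : ∀ t ∈ Icc (-Q) Q, HasDerivWithinAt (fun t : ℝ => Fp x t ω) (deriv (fun w => Fw x w ω) (1 + (t:ℂ) * Complex.I) * Complex.I) (Icc (-Q) Q) t := by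
    intro t ht
    have h1 : DifferentiableAt ℂ (fun w => Fw x w ω) (1 + (t:ℂ) * Complex.I) :=
      hdiff.differentiableAt (hU.mem_nhds (by show 0 < (1 + (t:ℂ) * Complex.I).re; simp))
    have h2 : HasDerivAt (fun t : ℝ => 1 + (t:ℂ) * Complex.I) Complex.I t := by
      have h3 : HasDerivAt (fun t : ℝ => (t:ℂ) * Complex.I) (1 * Complex.I) t := (Complex.ofRealCLM.hasDerivAt (x := t)).mul_const _
      rw [one_mul] at h3
      exact h3.const_add 1
    exact (HasDerivAt.comp t (h₂ := fun w => Fw x w ω) (h := fun t : ℝ => 1 + (t:ℂ) * Complex.I) h1.hasDerivAt h2).hasDerivWithinAt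
  have hb : ∀ t ∈ Icc (-Q) Q, ‖deriv (fun w => Fw x w ω) (1 + (t:ℂ) * Complex.I) * Complex.I‖ ≤ 4 * (2 + Q) ^ A * M := by
    intro t ht
    rw [norm_mul, Complex.norm_I, mul_one]
    have h1 := Complex.norm_deriv_le_of_forall_mem_sphere_norm_le (f := fun w => Fw x w ω) (c := 1 + (t:ℂ) * Complex.I) (R := 1 / 4) (C := (2 + Q) ^ A * M) (by norm_num) (by
      refine DifferentiableOn.diffContOnCl ?_
      refine hdiff.mono fun w hw => ?_
      have h2 := Metric.closure_ball_subset_closedBall hw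
      rw [Metric.mem_closedBall, dist_eq_norm] at h2
      have h3 := (Complex.abs_re_le_norm _).trans h2
      rw [Complex.sub_re, abs_le] at h3
      simp at h3
      show 0 < w.re
      linarith [h3.1]) (by
      intro w hw
      rw [mem_sphere_iff_norm] at hw
      have h3 := (Complex.abs_re_le_norm _).trans hw.le
      have h4 := (Complex.abs_im_le_norm _).trans hw.le
      rw [Complex.sub_re, abs_le] at h3
      rw [Complex.sub_im] at h4
      simp at h3 h4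
      refine (h w (by linarith [h3.1]) (by linarith [h3.2])).trans ?_
      refine mul_le_mul_of_nonneg_right (pow_le_pow_left₀ (by positivity) ?_ A) hM
      have h5 : |t| ≤ Q := abs_le.mpr ht
      have h6 := abs_sub_abs_le_abs_sub w.im t
      linarith)
    refine h1.trans (le_of_eq ?_)
    ring
  have h1 := Convex.norm_image_sub_le_of_norm_hasDerivWithin_le hd hb (convex_Icc (-Q) Q) hy' hy
  rw [Real.norm_eq_abs] at h1
  rw [mul_comm]
  exact h1

/-- the pointwise approximation -/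
theorem pw_app {φ : ℝ → ℝ} (h : Sm φ) (A : ℕ) {c : ℝ} (hc : 0 < c) : ∃ Q0 : ℝ, 0 ≤ Q0 ∧ ∀ Q : ℝ, Q0 ≤ Q → ∃ m0 : ℕ, 0 < m0 ∧ ∀ m : ℕ, m0 ≤ m →
    ∀ x : ℝ, 0 < x → ∀ ω : ℕ → ℝ, ∀ M : ℝ, 0 ≤ M → (∀ w : ℂ, 3 / 4 ≤ w.re → w.re ≤ 5 / 4 → ‖Fw x w ω‖ ≤ (1 + |w.im|) ^ A * M) →
    ‖Ig φ x ω - ∑ j, wt φ Q m j * Fp x (nd Q m j) ω‖ ≤ c * M := by
  have hpc := ps_cont h
  have hwi := ps_wint h A
  obtain ⟨K, hK0, hK⟩ := ps_decay 0 h
  simp only [pow_zero, one_mul] at hK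
  -- the tail
  have htail : Tendsto (fun Q : ℝ => ∫ y in (Icc (-Q) Q)ᶜ, (1 + |y|) ^ A * ‖ps φ y‖) atTop (𝓝 0) := by
    have h1 := (aecover_Icc tendsto_neg_atTop_atBot tendsto_id).integral_tendsto_of_countably_generated hwi
    have h2 := h1.const_sub (∫ y : ℝ, (1 + |y|) ^ A * ‖ps φ y‖)
    rw [sub_self] at h2
    refine h2.congr fun Q => ?_
    have h3 := integral_add_compl (measurableSet_Icc (a := -Q) (b := Q)) hwi
    simp only [id]
    linarith
  obtain ⟨Q1, hQ1⟩ := eventually_atTop.mp (htail.eventually (gt_mem_nhds (show (0:ℝ) < c / 2 by positivity)))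
  refine ⟨max Q1 0, le_max_right _ _, fun Q hQ => ?_⟩
  have hQ0 : 0 ≤ Q := (le_max_right _ _).trans hQ
  have hQt := hQ1 Q ((le_max_left _ _).trans hQ)
  -- the modulus of continuity
  obtain ⟨θ, hθ⟩ : ∃ θ : ℝ, θ = c / (4 * (Q + 1) * (1 + Q) ^ A) := ⟨_, rfl⟩
  have hθ0 : 0 < θ := by rw [hθ]; positivity
  have huc := (isCompact_Icc (a := -Q) (b := Q)).uniformContinuousOn_of_continuous hpc.continuousOn
  obtain ⟨d, hd, hdc⟩ := Metric.uniformContinuousOn_iff.mp huc θ hθ0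
  have hlim : Tendsto (fun m : ℕ => 2 * Q / (m:ℝ)) atTop (𝓝 0) := tendsto_const_div_atTop_nhds_zero_nat _
  have hlim2 : Tendsto (fun m : ℕ => K * (2 * Q / (m:ℝ)) * (4 * (2 + Q) ^ A)) atTop (𝓝 0) := by
    have := (hlim.const_mul K).mul_const (4 * (2 + Q) ^ A)
    simpa using this
  obtain ⟨m1, hm1⟩ := eventually_atTop.mp ((hlim.eventually (gt_mem_nhds hd)).and (hlim2.eventually (gt_mem_nhds (show (0:ℝ) < c / (4 * (Q + 1)) by positivity))))
  refine ⟨max m1 1, by positivity, fun m hm x hx ω M hM hb => ?_⟩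
  obtain ⟨hd1, hd2⟩ := hm1 m ((le_max_left _ _).trans hm)
  have hm0 : 0 < m := lt_of_lt_of_le one_pos ((le_max_right _ _).trans hm)
  have hFc := Fp_contY hx ω
  have hFn : ∀ y : ℝ, ‖Fp x y ω‖ ≤ (1 + |y|) ^ A * M := by
    intro y
    have h1 := hb (1 + (y:ℂ) * Complex.I) (by norm_num) (by norm_num)
    rw [Fw_line] at h1
    simpa using h1
  have hgi : Integrable (fun y => ps φ y * Fp x y ω) := by
    refine (hwi.mul_const M).mono' (hpc.mul hFc).aestronglyMeasurable (Eventually.of_forall fun y => ?_)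
    rw [norm_mul]
    have := mul_le_mul_of_nonneg_left (hFn y) (norm_nonneg (ps φ y))
    linarith
  have hsplit := integral_add_compl (measurableSet_Icc (a := -Q) (b := Q)) hgi
  have ht : ‖∫ y in (Icc (-Q) Q)ᶜ, ps φ y * Fp x y ω‖ ≤ c / 2 * M := by
    refine (norm_integral_le_of_norm_le (hwi.mul_const M).integrableOn (Eventually.of_forall fun y => ?_)).trans ?_
    · rw [norm_mul]
      have := mul_le_mul_of_nonneg_left (hFn y) (norm_nonneg (ps φ y))
      linarith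
    · rw [integral_mul_const]
      exact mul_le_mul_of_nonneg_right hQt.le hM
  have hr := riem (g := fun y => ps φ y * Fp x y ω) (hpc.mul hFc) hQ0 hm0 (e := c / (2 * (Q + 1)) * M) (by
    intro y hy y' hy' hyy
    have e1 : ps φ y * Fp x y ω - ps φ y' * Fp x y' ω = (ps φ y - ps φ y') * Fp x y ω + ps φ y' * (Fp x y ω - Fp x y' ω) := by ring
    rw [e1]
    refine (norm_add_le _ _).trans ?_
    rw [norm_mul, norm_mul]
    have h1 : ‖ps φ y - ps φ y'‖ ≤ θ := by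
      have := hdc y hy y' hy' (by rw [Real.dist_eq]; linarith)
      rw [dist_eq_norm] at this
      exact this.le
    have h2 : ‖Fp x y ω‖ ≤ (1 + Q) ^ A * M := by
      refine (hFn y).trans (mul_le_mul_of_nonneg_right (pow_le_pow_left₀ (by positivity) ?_ A) hM)
      have := abs_le.mpr hy
      linarith
    have h3 := Fp_lip hx hM hb hy hy'
    have h4 : ‖ps φ y - ps φ y'‖ * ‖Fp x y ω‖ ≤ c / (4 * (Q + 1)) * M := by
      refine (mul_le_mul h1 h2 (norm_nonneg _) hθ0.le).trans (le_of_eq ?_)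
      rw [hθ]
      have : (1 + Q) ^ A ≠ 0 := by positivity
      field_simp
    have h5 : ‖ps φ y'‖ * ‖Fp x y ω - Fp x y' ω‖ ≤ c / (4 * (Q + 1)) * M := by
      have h6 : ‖ps φ y'‖ * ‖Fp x y ω - Fp x y' ω‖ ≤ K * (2 * Q / (m:ℝ) * (4 * (2 + Q) ^ A * M)) := by
        refine mul_le_mul (hK y') (h3.trans ?_) (norm_nonneg _) hK0
        exact mul_le_mul_of_nonneg_right hyy (by positivity)
      refine h6.trans ?_
      have h7 := mul_le_mul_of_nonneg_right hd2.le hM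
      linarith
    refine (add_le_add h4 h5).trans (le_of_eq ?_)
    field_simp
    ring)
  have e2 : Ig φ x ω - ∑ j, wt φ Q m j * Fp x (nd Q m j) ω = ((1 / (2 * Real.pi) : ℝ) : ℂ) *
      (((∫ y in Icc (-Q) Q, ps φ y * Fp x y ω) - ∑ j ∈ Finset.range m, ((2 * Q / m : ℝ) : ℂ) * (ps φ (-Q + 2 * Q / m * j) * Fp x (-Q + 2 * Q / m * j) ω)) +
        ∫ y in (Icc (-Q) Q)ᶜ, ps φ y * Fp x y ω) := by
    unfold Ig
    rw [wt_sum φ Q m (fun y => Fp x y ω), ← hsplit]
    ring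
  rw [e2, norm_mul]
  have hpi : ‖((1 / (2 * Real.pi) : ℝ) : ℂ)‖ ≤ 1 := by
    rw [Complex.norm_real, Real.norm_of_nonneg (by positivity), div_le_one (by positivity)]
    linarith [Real.pi_gt_three]
  have h8 : 2 * Q * (c / (2 * (Q + 1)) * M) ≤ c / 2 * M + c / 2 * M := by
    have h9 : 2 * Q * (c / (2 * (Q + 1))) ≤ c := by
      rw [mul_div_assoc', div_le_iff₀ (by positivity)]
      nlinarith
    have := mul_le_mul_of_nonneg_right h9 hM
    linarith
  have hpi2 : ‖((1 / (2 * Real.pi) : ℝ) : ℂ)‖ ≤ 1 / 2 := by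
    rw [Complex.norm_real, Real.norm_of_nonneg (by positivity), div_le_div_iff₀ (by positivity) (by norm_num)]
    linarith [Real.pi_gt_three]
  have h10 := norm_add_le ((∫ y in Icc (-Q) Q, ps φ y * Fp x y ω) - ∑ j ∈ Finset.range m, ((2 * Q / m : ℝ) : ℂ) * (ps φ (-Q + 2 * Q / m * j) * Fp x (-Q + 2 * Q / m * j) ω))
    (∫ y in (Icc (-Q) Q)ᶜ, ps φ y * Fp x y ω)
  have h11 : ‖((∫ y in Icc (-Q) Q, ps φ y * Fp x y ω) - ∑ j ∈ Finset.range m, ((2 * Q / m : ℝ) : ℂ) * (ps φ (-Q + 2 * Q / m * j) * Fp x (-Q + 2 * Q / m * j) ω)) +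
    (∫ y in (Icc (-Q) Q)ᶜ, ps φ y * Fp x y ω)‖ ≤ 2 * (c * M) := by
    have : 0 ≤ c * M := by positivity
    linarith
  refine (mul_le_mul hpi2 h11 (norm_nonneg _) (by norm_num)).trans (le_of_eq (by ring))

/-- the approximation of the mean -/
theorem mn_app {φ : ℝ → ℝ} (h : Sm φ) {k : ℝ} (hk : 0 ≤ k) {c : ℝ} (hc : 0 < c) : ∃ Q0 : ℝ, 0 ≤ Q0 ∧ ∀ Q : ℝ, Q0 ≤ Q → ∃ m0 : ℕ, 0 < m0 ∧ ∀ m : ℕ, m0 ≤ m →
    ‖((1 / (2 * Real.pi) : ℝ) : ℂ) * (∫ y : ℝ, ps φ y * Complex.exp (mu k y)) - ∑ j, wt φ Q m j * Complex.exp (mu k (nd Q m j))‖ ≤ c := by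
  have hpc := ps_cont h
  have hmc := mu_cont k
  have hFc : Continuous fun y => ps φ y * Complex.exp (mu k y) := hpc.mul (Complex.continuous_exp.comp hmc)
  have hi1 : Integrable (fun y : ℝ => ps φ y * Complex.exp (mu k y)) := by
    refine (ps_integrable h).mul_bdd (c := 1) (Complex.continuous_exp.comp hmc).aestronglyMeasurable (Eventually.of_forall fun y => mu_exp_norm k hk y)
  have h1 : Tendsto (fun Q : ℝ => ∫ y in Icc (-Q) Q, ps φ y * Complex.exp (mu k y)) atTop (𝓝 (∫ y : ℝ, ps φ y * Complex.exp (mu k y))) :=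
    (aecover_Icc tendsto_neg_atTop_atBot tendsto_id).integral_tendsto_of_countably_generated hi1
  obtain ⟨Q1, hQ1⟩ := eventually_atTop.mp (Metric.tendsto_nhds.mp h1 c hc)
  refine ⟨max Q1 0, le_max_right _ _, fun Q hQ => ?_⟩
  have hQ0 : 0 ≤ Q := (le_max_right _ _).trans hQ
  have hQt := hQ1 Q ((le_max_left _ _).trans hQ)
  have huc := (isCompact_Icc (a := -Q) (b := Q)).uniformContinuousOn_of_continuous hFc.continuousOn
  obtain ⟨d, hd, hdc⟩ := Metric.uniformContinuousOn_iff.mp huc (c / (2 * (Q + 1))) (by positivity)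
  have hlim : Tendsto (fun m : ℕ => 2 * Q / (m:ℝ)) atTop (𝓝 0) := tendsto_const_div_atTop_nhds_zero_nat _
  obtain ⟨m1, hm1⟩ := eventually_atTop.mp (hlim.eventually (gt_mem_nhds hd))
  refine ⟨max m1 1, by positivity, fun m hm => ?_⟩
  have hd1 := hm1 m ((le_max_left _ _).trans hm)
  have hm0 : 0 < m := lt_of_lt_of_le one_pos ((le_max_right _ _).trans hm)
  have hr := riem hFc hQ0 hm0 (e := c / (2 * (Q + 1))) (by
    intro y hy y' hy' hyy
    have := hdc y hy y' hy' (by rw [Real.dist_eq]; linarith)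
    rw [dist_eq_norm] at this
    exact this.le)
  rw [wt_sum φ Q m (fun y => Complex.exp (mu k y)), ← mul_sub, norm_mul]
  have hpi2 : ‖((1 / (2 * Real.pi) : ℝ) : ℂ)‖ ≤ 1 / 2 := by
    rw [Complex.norm_real, Real.norm_of_nonneg (by positivity), div_le_div_iff₀ (by positivity) (by norm_num)]
    linarith [Real.pi_gt_three]
  rw [dist_eq_norm, norm_sub_rev] at hQt
  have h2 := norm_add_le ((∫ y : ℝ, ps φ y * Complex.exp (mu k y)) - ∫ y in Icc (-Q) Q, ps φ y * Complex.exp (mu k y))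
    ((∫ y in Icc (-Q) Q, ps φ y * Complex.exp (mu k y)) - ∑ j ∈ Finset.range m, ((2 * Q / m : ℝ) : ℂ) * (ps φ (-Q + 2 * Q / m * j) * Complex.exp (mu k (-Q + 2 * Q / m * j))))
  rw [sub_add_sub_cancel] at h2
  have h8 : 2 * Q * (c / (2 * (Q + 1))) ≤ c := by
    rw [mul_div_assoc', div_le_iff₀ (by positivity)]
    nlinarith
  refine (mul_le_mul hpi2 (h2.trans (add_le_add hQt.le (hr.trans h8))) (norm_nonneg _) (by norm_num)).trans (le_of_eq (by ring))

end Pool.Agent.H470
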