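import Pool.Agent.H470.To10

set_option autoImplicit false

/-! Weighted averages of the random Euler product. -/

namespace Pool.Agent.H470

open MeasureTheory Filter Topology ProbabilityTheory Set
open scoped ENNReal

/-- the weighted average -/
noncomputable def Iw (w : ℝ → ℂ) (x : ℝ) (ω : ℕ → ℝ) : ℂ := ∫ y : ℝ, w y * Fp x y ω

lemma Fp_meas2 (x : ℝ) : Measurable fun q : (ℕ → ℝ) × ℝ => Fp x q.2 q.1 := by
  unfold Fp Xp
  refine Complex.measurable_exp.comp (Xs_meas2 (fun p hp => pr_two hp) ?_ measurable_fst)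
  unfold sp
  fun_prop

lemma Fp_bd {x : ℝ} (hx : 0 < x) : ∃ B : ℝ, 0 < B ∧ ∀ y ω, ‖Fp x y ω‖ ≤ B := by
  obtain ⟨B, hB, hb⟩ := Xp_bd hx
  refine ⟨Real.exp B, Real.exp_pos _, fun y ω => ?_⟩
  unfold Fp
  rw [Complex.norm_exp]
  exact Real.exp_le_exp.mpr ((Complex.re_le_norm _).trans (hb y ω))

lemma wF_int {w : ℝ → ℂ} (hi : Integrable w) {x : ℝ} (hx : 0 < x) (ω : ℕ → ℝ) : Integrable fun y => w y * Fp x y ω := by
  obtain ⟨B, hB, hb⟩ := Fp_bd hx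
  exact hi.mul_bdd (c := B) (Fp_contY hx ω).aestronglyMeasurable (Eventually.of_forall fun y => hb y ω)

lemma Iw_gd {w : ℝ → ℂ} (hw : Measurable w) (hi : Integrable w) {x : ℝ} (hx : 0 < x) : Gd (Iw w x) := by
  obtain ⟨B, hB, hb⟩ := Fp_bd hx
  constructor
  · unfold Iw
    have h1 : Measurable fun q : (ℕ → ℝ) × ℝ => w q.2 * Fp x q.2 q.1 := (hw.comp measurable_snd).mul (Fp_meas2 x)
    exact (h1.stronglyMeasurable.integral_prod_right').measurable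
  · refine ⟨(∫ y, ‖w y‖) * B, fun ω => ?_⟩
    unfold Iw
    rw [← integral_mul_const]
    refine norm_integral_le_of_norm_le (hi.norm.mul_const B) (Eventually.of_forall fun y => ?_)
    rw [norm_mul]
    exact mul_le_mul_of_nonneg_left (hb y ω) (norm_nonneg _)

lemma Iw_add {w v : ℝ → ℂ} (hw : Integrable w) (hv : Integrable v) {x : ℝ} (hx : 0 < x) (ω : ℕ → ℝ) :
    Iw (fun y => w y + v y) x ω = Iw w x ω + Iw v x ω := by
  unfold Iw
  rw [← integral_add (wF_int hw hx ω) (wF_int hv hx ω)]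
  simp_rw [add_mul]

lemma Ig_Iw (φ : ℝ → ℝ) (x : ℝ) (ω : ℕ → ℝ) : Ig φ x ω = Iw (fun y => ((1 / (2 * Real.pi) : ℝ) : ℂ) * ps φ y) x ω := by
  unfold Ig Iw
  rw [← integral_const_mul]
  simp_rw [mul_assoc]

lemma Ig_gd {φ : ℝ → ℝ} (h : Sm φ) {x : ℝ} (hx : 0 < x) : Gd (Ig φ x) := by
  have h1 := Iw_gd (w := fun y => ((1 / (2 * Real.pi) : ℝ) : ℂ) * ps φ y) ((ps_cont h).measurable.const_mul _) ((ps_integrable h).const_mul _) hx
  have h2 : Iw (fun y => ((1 / (2 * Real.pi) : ℝ) : ℂ) * ps φ y) x = Ig φ x := by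
    funext ω
    exact (Ig_Iw φ x ω).symm
  rwa [h2] at h1

lemma Fp_gd {x : ℝ} (hx : 0 < x) (y : ℝ) : Gd (Fp x y) := by
  obtain ⟨B, hB, hb⟩ := Fp_bd hx
  exact ⟨(Fp_cont hx y).measurable, B, hb y⟩

lemma sum_gd {x : ℝ} (hx : 0 < x) {m : ℕ} (c : Fin m → ℂ) (y : Fin m → ℝ) : Gd (fun ω => ∑ j, c j * Fp x (y j) ω) :=
  Gd.sum _ fun j _ => (Fp_gd hx (y j)).const_mul _

/-- the approximation by finite combinations -/
theorem app {k : ℝ} (hk : 0 < k) {φ : ℝ → ℝ} (h : Sm φ) {e : ℝ} (he : 0 < e) : ∃ Q0 : ℝ, 0 ≤ Q0 ∧ ∀ Q : ℝ, Q0 ≤ Q → ∃ m0 : ℕ, 0 < m0 ∧ ∀ m : ℕ, m0 ≤ m →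
    ∀ x : ℝ, 0 < x → x ≤ 1 → nr k x (fun ω => Ig φ x ω - ∑ j, wt φ Q m j * Fp x (nd Q m j) ω) ≤ e := by
  obtain ⟨C, hC, hmaj⟩ := maj hk
  have hkp := kp_pos hk
  -- the constant
  obtain ⟨c, hc⟩ : ∃ c : ℝ, c = (e ^ (1 / kp k) / (2 ^ (k ^ 2) * C)) ^ (1 / (2 * k)) := ⟨_, rfl⟩
  have hc0 : 0 < c := by rw [hc]; positivity
  have hce : (2 ^ (k ^ 2) * (c ^ (2 * k) * C)) ^ kp k = e := by
    have h1 : c ^ (2 * k) = e ^ (1 / kp k) / (2 ^ (k ^ 2) * C) := by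
      rw [hc, ← Real.rpow_mul (by positivity), one_div_mul_cancel (by positivity), Real.rpow_one]
    have h2 : 2 ^ (k ^ 2) * (c ^ (2 * k) * C) = e ^ (1 / kp k) := by
      rw [h1]
      field_simp
    rw [h2, ← Real.rpow_mul he.le, one_div_mul_cancel hkp.ne', Real.rpow_one]
  obtain ⟨Q0, hQ0, hpw⟩ := pw_app h ⌈1 / k⌉₊ hc0
  refine ⟨Q0, hQ0, fun Q hQ => ?_⟩
  obtain ⟨m0, hm0, hpw2⟩ := hpw Q hQ
  refine ⟨m0, hm0, fun m hm x hx hx1 => ?_⟩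
  obtain ⟨Γ, hΓ1, hΓ2⟩ := hmaj x hx hx1
  have hgd : Gd (fun ω => Ig φ x ω - ∑ j, wt φ Q m j * Fp x (nd Q m j) ω) := (Ig_gd h hx).sub (sum_gd hx _ _)
  refine (nr_maj hk hC hx hΓ1 hgd hc0 fun ω hω => ?_).trans hce.le
  refine hpw2 m hm x hx ω _ (by positivity) fun w hw1 hw2 => ?_
  have h1 := hΓ2 ω w hw1 hw2
  have hG : 0 ≤ (Γ ω).toReal := ENNReal.toReal_nonneg
  rw [← ENNReal.ofReal_toReal hω, ← ENNReal.ofReal_mul (by positivity), ← ofReal_norm, ENNReal.ofReal_rpow_of_nonneg (norm_nonneg _) (by positivity),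
    ENNReal.ofReal_le_ofReal_iff (by positivity)] at h1
  have h2 := Real.rpow_le_rpow (z := 1 / (2 * k)) (by positivity) h1 (by positivity)
  rw [← Real.rpow_mul (norm_nonneg _), mul_one_div_cancel (by positivity), Real.rpow_one, Real.mul_rpow (by positivity) hG] at h2
  refine h2.trans (mul_le_mul_of_nonneg_right ?_ (by positivity))
  rw [← Real.rpow_natCast (1 + |w.im|) 2, ← Real.rpow_mul (by positivity), ← Real.rpow_natCast (1 + |w.im|) ⌈1 / k⌉₊]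
  refine Real.rpow_le_rpow_of_exponent_le (by linarith [abs_nonneg w.im]) ?_
  refine le_trans (le_of_eq ?_) (Nat.le_ceil _)
  push_cast
  field_simp

end Pool.Agent.H470
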