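import Pool.Agent.H470.To11

set_option autoImplicit false

/-! Representation of smoothed sums over the torus. -/

namespace Pool.Agent.H470

open MeasureTheory Filter Topology ProbabilityTheory Set
open Pool.Agent.TH806 (ec ec_norm ec_cont uu integrable_uu)

/-- the random multiplicative function -/
noncomputable def ch (n : ℕ) (ω : ℕ → ℝ) : ℂ := n.factorization.prod fun p a => ec (ω p) ^ a

lemma ch_mul {m n : ℕ} (hm : m ≠ 0) (hn : n ≠ 0) (ω : ℕ → ℝ) : ch (m * n) ω = ch m ω * ch n ω := by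
  unfold ch
  rw [Nat.factorization_mul hm hn]
  exact Finsupp.prod_add_index' (fun _ => pow_zero _) fun _ _ _ => pow_add _ _ _

lemma ch_one (ω : ℕ → ℝ) : ch 1 ω = 1 := by
  unfold ch
  simp

lemma ch_prime {p : ℕ} (hp : p.Prime) (ω : ℕ → ℝ) : ch p ω = ec (ω p) := by
  unfold ch
  rw [hp.factorization, Finsupp.prod_single_index (h := fun p a => ec (ω p) ^ a) (pow_zero _), pow_one]

lemma ch_norm (n : ℕ) (ω : ℕ → ℝ) : ‖ch n ω‖ = 1 := by
  unfold ch Finsupp.prod
  rw [norm_prod]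
  refine Finset.prod_eq_one fun p hp => ?_
  rw [norm_pow, ec_norm, one_pow]

lemma ch_cont (n : ℕ) : Continuous (ch n) := by
  unfold ch Finsupp.prod
  refine continuous_finsetProd _ fun p hp => ?_
  exact (ec_cont.comp (continuous_apply p)).pow _

/-- the multiplicative homomorphism -/
noncomputable def cch (s : ℂ) (ω : ℕ → ℝ) : ℕ →* ℂ where
  toFun n := if n = 0 then 0 else (n:ℂ) ^ (-s) * ch n ω
  map_one' := by simp [ch_one]
  map_mul' m n := by
    by_cases hm : m = 0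
    · simp [hm]
    by_cases hn : n = 0
    · simp [hn]
    rw [if_neg hm, if_neg hn, if_neg (mul_ne_zero hm hn), ch_mul hm hn]
    push_cast
    rw [Complex.natCast_mul_natCast_cpow]
    ring

lemma cch_apply {s : ℂ} {ω : ℕ → ℝ} {n : ℕ} (hn : n ≠ 0) : cch s ω n = (n:ℂ) ^ (-s) * ch n ω := by
  show (if n = 0 then 0 else (n:ℂ) ^ (-s) * ch n ω) = _
  rw [if_neg hn]

lemma pr_below (N : ℕ) : pr N = (N + 1).primesBelow := by
  ext p
  unfold pr
  rw [Finset.mem_filter, Finset.mem_Icc, Nat.mem_primesBelow]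
  constructor
  · rintro ⟨⟨-, h2⟩, h3⟩
    exact ⟨by omega, h3⟩
  · rintro ⟨h2, h3⟩
    exact ⟨⟨h3.one_le, by omega⟩, h3⟩

/-- the Euler product -/
lemma euler {s : ℂ} (hs : 0 < s.re) (N : ℕ) (ω : ℕ → ℝ) :
    Summable (fun m : (N + 1).smoothNumbers => ‖cch s ω m‖) ∧ HasSum (fun m : (N + 1).smoothNumbers => cch s ω m) (Complex.exp (Xs (pr N) s ω)) := by
  have hlt : ∀ {p : ℕ}, p.Prime → ‖cch s ω p‖ < 1 := by
    intro p hp
    rw [cch_apply hp.ne_zero, norm_mul, ch_norm, mul_one]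
    exact pw_lt hp.two_le hs
  have h := EulerProduct.summable_and_hasSum_smoothNumbers_prod_primesBelow_geometric (f := cch s ω) hlt (N + 1)
  refine ⟨h.1, ?_⟩
  have e1 : Complex.exp (Xs (pr N) s ω) = ∏ p ∈ (N + 1).primesBelow, (1 - cch s ω p)⁻¹ := by
    unfold Xs
    rw [Complex.exp_sum, pr_below]
    refine Finset.prod_congr rfl fun p hp => ?_
    have hp' := (Nat.mem_primesBelow.mp hp).2
    rw [el_exp (arg_lt hp'.two_le hs _), cch_apply hp'.ne_zero, ch_prime hp']
  rw [e1]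
  exact h.2

/-- weighted sums -/
noncomputable def WS (w : ℕ → ℝ) (N : ℕ) (ω : ℕ → ℝ) : ℂ := ∑ n ∈ Finset.Icc 1 N, (w n : ℂ) * (n:ℂ) ^ (-(1 / 2) : ℂ) * ch n ω

lemma WS_gd (w : ℕ → ℝ) (N : ℕ) : Gd (WS w N) := by
  unfold WS
  refine Gd.sum _ fun n _ => Gd.const_mul ⟨(ch_cont n).measurable, 1, fun ω => (ch_norm n ω).le⟩ _

lemma PX_ge {B x : ℝ} (hx : 0 < x) (hB : B * x ≤ 1) : Real.exp (B / x) ≤ PX x := by
  refine le_trans (Real.exp_le_exp.mpr ?_) (PX_exp hx)
  rw [div_le_div_iff₀ hx (by positivity)]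
  nlinarith

/-- the representation -/
theorem Ig_WS {φ : ℝ → ℝ} (h : Sm φ) {B x : ℝ} (hx : 0 < x) (hBx : B * x ≤ 1) (hB : ∀ u, B ≤ u → φ u = 0) {X : ℕ}
    (hX : Real.exp (B / x) ≤ X) (ω : ℕ → ℝ) : Ig φ x ω = WS (fun n => φ (x * Real.log n)) X ω := by
  obtain ⟨P, hP⟩ : ∃ P : ℕ, P = PX x := ⟨_, rfl⟩
  have hPB : Real.exp (B / x) ≤ P := by rw [hP]; exact PX_ge hx hBx
  have hre : ∀ y, 0 < (sp x y).re := fun y => by rw [sp_re]; linarith
  have hsm : ∀ m : (P + 1).smoothNumbers, (m:ℕ) ≠ 0 := fun m => Nat.ne_zero_of_mem_smoothNumbers m.2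
  obtain ⟨F, hF⟩ : ∃ F : (P + 1).smoothNumbers → ℝ → ℂ, ∀ m y, F m y = ((1 / (2 * Real.pi) : ℝ) : ℂ) * ps φ y * cch (sp x y) ω m := ⟨fun m y => _, fun _ _ => rfl⟩
  have hnorm : ∀ m : (P + 1).smoothNumbers, ∀ y, ‖cch (sp x y) ω m‖ = ‖cch (sp x 0) ω m‖ := by
    intro m y
    rw [cch_apply (hsm m), cch_apply (hsm m), norm_mul, norm_mul, Complex.norm_natCast_cpow_of_pos (Nat.pos_of_ne_zero (hsm m)),
      Complex.norm_natCast_cpow_of_pos (Nat.pos_of_ne_zero (hsm m))]
    simp only [Complex.neg_re, sp_re]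
  have hpi := (ps_integrable h).const_mul ((1 / (2 * Real.pi) : ℝ) : ℂ)
  have hcc : ∀ m : (P + 1).smoothNumbers, Continuous fun y => cch (sp x y) ω m := by
    intro m
    have : (fun y => cch (sp x y) ω m) = fun y => ((m:ℕ):ℂ) ^ (-sp x y) * ch m ω := by
      funext y
      rw [cch_apply (hsm m)]
    rw [this]
    refine Continuous.mul ?_ continuous_const
    unfold sp
    exact Continuous.const_cpow (by fun_prop) (Or.inl (by exact_mod_cast hsm m))
  have hFi : ∀ m, Integrable (F m) := by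
    intro m
    have e1 : F m = fun y => ((1 / (2 * Real.pi) : ℝ) : ℂ) * ps φ y * cch (sp x y) ω m := funext (hF m)
    rw [e1]
    exact hpi.mul_bdd (c := ‖cch (sp x 0) ω m‖) (hcc m).aestronglyMeasurable (Eventually.of_forall fun y => (hnorm m y).le)
  have hFs : Summable fun m => ∫ y, ‖F m y‖ := by
    have e1 : ∀ m, ∫ y, ‖F m y‖ = (∫ y, ‖((1 / (2 * Real.pi) : ℝ) : ℂ) * ps φ y‖) * ‖cch (sp x 0) ω m‖ := by
      intro m
      rw [← integral_mul_const]
      refine integral_congr_ae (Eventually.of_forall fun y => ?_)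
      show ‖F m y‖ = _
      rw [hF, norm_mul, hnorm]
    simp_rw [e1]
    exact (euler (hre 0) P ω).1.mul_left _
  have hsum := hasSum_integral_of_summable_integral_norm hFi hFs
  have e2 : ∫ y, ∑' m, F m y = Ig φ x ω := by
    rw [Ig_Iw]
    unfold Iw
    refine integral_congr_ae (Eventually.of_forall fun y => ?_)
    show ∑' m, F m y = ((1 / (2 * Real.pi) : ℝ) : ℂ) * ps φ y * Fp x y ω
    simp_rw [hF]
    rw [tsum_mul_left, (euler (hre y) P ω).2.tsum_eq, hP]
    rfl
  obtain ⟨g, hg⟩ : ∃ g : ℕ → ℂ, ∀ n, g n = if n = 0 then 0 else (φ (x * Real.log n) : ℂ) * (n:ℂ) ^ (-(1 / 2) : ℂ) * ch n ω := ⟨fun n => _, fun _ => rfl⟩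
  have e3 : ∀ m : (P + 1).smoothNumbers, ∫ y, F m y = g m := by
    intro m
    have hm0 : ((m:ℕ):ℂ) ≠ 0 := by exact_mod_cast hsm m
    have h1 := ps_inv h (x * Real.log (m:ℕ))
    rw [hg, if_neg (hsm m), h1, ← integral_const_mul, mul_assoc, ← integral_mul_const]
    refine integral_congr_ae (Eventually.of_forall fun y => ?_)
    show F m y = _
    rw [hF, cch_apply (hsm m)]
    have e4 : ((m:ℕ):ℂ) ^ (-sp x y) = Complex.exp (-(((x * Real.log (m:ℕ) : ℝ) : ℂ) * (1 + (y:ℂ) * Complex.I))) * ((m:ℕ):ℂ) ^ (-(1 / 2) : ℂ) := by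
      unfold sp
      rw [Complex.cpow_def_of_ne_zero hm0, Complex.cpow_def_of_ne_zero hm0, ← Complex.exp_add]
      congr 1
      push_cast
      ring
    rw [e4]
    ring
  rw [e2] at hsum
  simp_rw [e3] at hsum
  have hsupp : Function.support g ⊆ (P + 1).smoothNumbers := by
    intro n hn
    rw [Function.mem_support, hg] at hn
    by_cases hn0 : n = 0
    · rw [if_pos hn0] at hn
      exact absurd rfl hn
    · rw [if_neg hn0] at hn
      have hφ : φ (x * Real.log n) ≠ 0 := by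
        intro hcon
        rw [hcon] at hn
        simp at hn
      have hlt : x * Real.log n < B := by
        by_contra hcon
        exact hφ (hB _ (not_lt.mp hcon))
      have hnpos : (0:ℝ) < n := by exact_mod_cast Nat.pos_of_ne_zero hn0
      have h2 : Real.log n < B / x := by
        rw [lt_div_iff₀ hx]
        linarith
      have h3 : (n:ℝ) < P := by
        rw [Real.log_lt_iff_lt_exp hnpos] at h2
        linarith
      have h4 : n < P := by exact_mod_cast h3
      exact Nat.mem_smoothNumbers_of_lt (Nat.pos_of_ne_zero hn0) (by omega)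
  have hsum2 : HasSum g (Ig φ x ω) := (hasSum_subtype_iff_of_support_subset hsupp).mp hsum
  have hfin : HasSum g (∑ n ∈ Finset.Icc 1 X, g n) := by
    refine hasSum_sum_of_ne_finset_zero fun n hn => ?_
    rw [hg]
    by_cases hn0 : n = 0
    · rw [if_pos hn0]
    · rw [if_neg hn0]
      have hnX : X < n := by
        by_contra hcon
        exact hn (Finset.mem_Icc.mpr ⟨Nat.pos_of_ne_zero hn0, not_lt.mp hcon⟩)
      have hnX' : (X:ℝ) ≤ n := by exact_mod_cast hnX.le
      have hnpos : (0:ℝ) < n := by exact_mod_cast Nat.pos_of_ne_zero hn0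
      have h2 : B / x ≤ Real.log n := by
        rw [Real.le_log_iff_exp_le hnpos]
        linarith
      rw [div_le_iff₀ hx] at h2
      rw [hB (x * Real.log n) (by linarith)]
      simp
  rw [hsum2.unique hfin]
  unfold WS
  refine Finset.sum_congr rfl fun n hn => ?_
  rw [hg, if_neg]
  rw [Finset.mem_Icc] at hn
  omega

end Pool.Agent.H470
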