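import Pool.Agent.H470.To12

set_option autoImplicit false

/-! The two point function with a tilt by the small primes. -/

namespace Pool.Agent.H470

open MeasureTheory Filter Topology ProbabilityTheory Set
open Pool.Agent.TH806 (ec ec_norm ec_cont uu integrable_uu)

/-- the factorization over disjoint sets of primes -/
theorem mgf_two {I J : Finset ℕ} (hIJ : Disjoint I J) (hI : ∀ p ∈ I, 2 ≤ p) (hJ : ∀ p ∈ J, 2 ≤ p) {n m : ℕ} {s : Fin n → ℂ} {t : Fin m → ℂ}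
    (hs : ∀ j, 0 < (s j).re) (ht : ∀ j, 0 < (t j).re) (α β : Fin n → ℂ) (γ δ : Fin m → ℂ) :
    ∫ ω, Complex.exp (∑ j, (α j * Xs I (s j) ω + β j * (starRingEnd ℂ) (Xs I (s j) ω))) *
      Complex.exp (∑ j, (γ j * Xs J (t j) ω + δ j * (starRingEnd ℂ) (Xs J (t j) ω))) ∂tm =
    (∫ ω, Complex.exp (∑ j, (α j * Xs I (s j) ω + β j * (starRingEnd ℂ) (Xs I (s j) ω))) ∂tm) *
      ∫ ω, Complex.exp (∑ j, (γ j * Xs J (t j) ω + δ j * (starRingEnd ℂ) (Xs J (t j) ω))) ∂tm := by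
  classical
  rw [mgf hI hs, mgf hJ ht]
  simp_rw [lu_sum, Complex.exp_sum]
  obtain ⟨g, hg⟩ : ∃ g : ℕ → ℝ → ℂ, ∀ p x, g p x = if p ∈ I then Complex.exp (lu α β (fun j => (p:ℂ) ^ (-s j)) x) else
      if p ∈ J then Complex.exp (lu γ δ (fun j => (p:ℂ) ^ (-t j)) x) else 1 := ⟨fun p x => _, fun _ _ => rfl⟩
  have hJI : ∀ p ∈ J, p ∉ I := fun p hp hpI => (Finset.disjoint_left.mp hIJ hpI) hp
  have gI : ∀ p ∈ I, ∀ x, g p x = Complex.exp (lu α β (fun j => (p:ℂ) ^ (-s j)) x) := fun p hp x => by rw [hg, if_pos hp]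
  have gJ : ∀ p ∈ J, ∀ x, g p x = Complex.exp (lu γ δ (fun j => (p:ℂ) ^ (-t j)) x) := fun p hp x => by rw [hg, if_neg (hJI p hp), if_pos hp]
  have hgm : ∀ p, Measurable (g p) := by
    intro p
    by_cases hp : p ∈ I
    · rw [funext (gI p hp)]
      exact (Complex.continuous_exp.comp (lu_cont fun j => pw_lt (hI p hp) (hs j))).measurable
    · by_cases hp2 : p ∈ J
      · rw [funext (gJ p hp2)]
        exact (Complex.continuous_exp.comp (lu_cont fun j => pw_lt (hJ p hp2) (ht j))).measurable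
      · have e : g p = fun x => 1 := by
          funext x
          rw [hg, if_neg hp, if_neg hp2]
        rw [e]
        exact measurable_const
  have h := prod_int (I ∪ J) hgm
  simp_rw [Finset.prod_union hIJ] at h
  have e1 : ∀ ω : ℕ → ℝ, (∏ p ∈ I, g p (ω p)) * ∏ p ∈ J, g p (ω p) = (∏ p ∈ I, Complex.exp (lu α β (fun j => (p:ℂ) ^ (-s j)) (ω p))) *
      ∏ p ∈ J, Complex.exp (lu γ δ (fun j => (p:ℂ) ^ (-t j)) (ω p)) := by
    intro ω
    congr 1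
    · exact Finset.prod_congr rfl fun p hp => gI p hp _
    · exact Finset.prod_congr rfl fun p hp => gJ p hp _
  have e2 : (∏ p ∈ I, ∫ x, g p x ∂uu) = ∏ p ∈ I, lf α β (fun j => (p:ℂ) ^ (-s j)) :=
    Finset.prod_congr rfl fun p hp => by
      unfold lf
      simp_rw [gI p hp]
  have e3 : (∏ p ∈ J, ∫ x, g p x ∂uu) = ∏ p ∈ J, lf γ δ (fun j => (p:ℂ) ^ (-t j)) :=
    Finset.prod_congr rfl fun p hp => by
      unfold lf
      simp_rw [gJ p hp]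
  simp_rw [e1] at h
  rw [h, e2, e3]

lemma log_N {N : ℕ} (hN : 3 ≤ N) : 1 ≤ Real.log N := by
  rw [Real.le_log_iff_exp_le (by positivity)]
  have h1 := Real.exp_one_lt_d9
  have h2 : (3:ℝ) ≤ N := by exact_mod_cast hN
  linarith

/-- the sum over the small primes near the line -/
theorem S_nr (K : ℝ) : ∃ C : ℝ, 0 ≤ C ∧ ∀ N : ℕ, 3 ≤ N → ∀ x : ℝ, 0 < x → ∀ u : ℝ,
    x * ‖2 + (u:ℂ) * Complex.I‖ * Real.log N ≤ K →
    |(∑ p ∈ pr N, wv x u p).re - Real.log (Real.log N)| ≤ C := by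
  obtain ⟨C1, h1⟩ := Pool.Agent.Helper256.KM.mertens_inv
  obtain ⟨C2, hC2, h2⟩ := S_lo
  have hC1 : 0 ≤ C1 := (abs_nonneg _).trans (h1 3 le_rfl)
  refine ⟨C1 + C2 + 2 * |K| * (1 + C2), by positivity, fun N hN x hx u hu => ?_⟩
  have hl := log_N hN
  have hre : ((x:ℂ) * (2 + (u:ℂ) * Complex.I)).re = 2 * x := by simp; ring
  have hn : ‖(x:ℂ) * (2 + (u:ℂ) * Complex.I)‖ = x * ‖2 + (u:ℂ) * Complex.I‖ := by
    rw [norm_mul, Complex.norm_real, Real.norm_of_nonneg hx.le]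
  have hlo := h2 N hN ((x:ℂ) * (2 + (u:ℂ) * Complex.I)) (by rw [hre]; linarith)
  rw [hn] at hlo
  have e1 : ∑ p ∈ pr N, (p:ℂ) ^ (-(1 + (x:ℂ) * (2 + (u:ℂ) * Complex.I))) = ∑ p ∈ pr N, wv x u p := rfl
  rw [e1] at hlo
  have hup : (∑ p ∈ pr N, wv x u p).re ≤ Real.log (Real.log N) + C1 := by
    have h3 := (abs_le.mp (h1 N hN)).2
    have h4 : (∑ p ∈ pr N, wv x u p).re ≤ ∑ p ∈ pr N, (1:ℝ) / p := by
      rw [Complex.re_sum]
      refine Finset.sum_le_sum fun p hp => (Complex.re_le_norm _).trans ?_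
      exact npw_le (pr_prime hp) (by rw [hre]; linarith)
    have h5 : ∑ p ∈ pr N, (1:ℝ) / p = ∑ p ∈ (Finset.Icc 1 N).filter Nat.Prime, (1:ℝ) / p := rfl
    linarith
  have hxu : 0 ≤ x * ‖2 + (u:ℂ) * Complex.I‖ := by positivity
  have hKa := le_abs_self K
  have h6 : x * ‖2 + (u:ℂ) * Complex.I‖ ≤ |K| := by nlinarith
  have h7 : 2 * (x * ‖2 + (u:ℂ) * Complex.I‖) * (Real.log N + C2) ≤ 2 * |K| * (1 + C2) := by
    have : x * ‖2 + (u:ℂ) * Complex.I‖ * C2 ≤ |K| * C2 := mul_le_mul_of_nonneg_right h6 hC2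
    nlinarith
  have h8 : 0 ≤ 2 * |K| * (1 + C2) := by positivity
  rw [abs_le]
  constructor <;> linarith

/-- the small primes -/
noncomputable def Fs (x : ℝ) (N : ℕ) (ω : ℕ → ℝ) : ℂ := Complex.exp (Xs (pr N) (sp x 0) ω)

lemma Xs_split {I J : Finset ℕ} (hIJ : I ⊆ J) (s : ℂ) (ω : ℕ → ℝ) : Xs J s ω = Xs I s ω + Xs (J \ I) s ω := by
  unfold Xs
  rw [add_comm, Finset.sum_sdiff hIJ]

/-- the tilted two point function -/
theorem tp_bd (k : ℝ) : ∃ C : ℝ, 0 < C ∧ ∀ x : ℝ, 0 < x → x ≤ 1 → ∀ N : ℕ, 3 ≤ N → N ≤ PX x → ∀ Y : ℝ, 1 ≤ Y → x * Y * Real.log N ≤ 1 →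
    ∀ y z : ℝ, |y| ≤ Y → |z| ≤ Y →
    ‖∫ ω, ((‖Fs x N ω‖ ^ (2 * (k - 1)) : ℝ) : ℂ) * (Fp x y ω * (starRingEnd ℂ) (Fp x z ω)) ∂tm‖ ≤
      C * (Real.log N) ^ (k ^ 2) * (x * ‖2 + ((y - z : ℝ):ℂ) * Complex.I‖ * Real.log N)⁻¹ := by
  obtain ⟨C1, hC1, h1⟩ := S_nr 4
  obtain ⟨C2, hC2, h2⟩ := S_big 4 (by norm_num)
  obtain ⟨A, hA⟩ : ∃ A : ℝ, A = |k - 1| + 1 := ⟨_, rfl⟩
  have hA0 : 0 ≤ A := by rw [hA]; positivity
  refine ⟨Real.exp (((k - 1) ^ 2 + 2 * |k - 1| + 1) * C1 + CN A * KS + (C2 + CN A * KS)), Real.exp_pos _, fun x hx hx1 N hN hNP Y hY hxY y z hy hz => ?_⟩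
  have hl := log_N hN
  have hll : 0 < Real.log N := by linarith
  have hK : ∀ u : ℝ, |u| ≤ 2 * Y → x * ‖2 + (u:ℂ) * Complex.I‖ * Real.log N ≤ 4 := by
    intro u hu
    have h3 : ‖2 + (u:ℂ) * Complex.I‖ ≤ 4 * Y := by
      refine (norm_add_le _ _).trans ?_
      rw [norm_mul, Complex.norm_I, mul_one, Complex.norm_real, Real.norm_eq_abs]
      simp only [Complex.norm_ofNat]
      linarith
    calc x * ‖2 + (u:ℂ) * Complex.I‖ * Real.log N ≤ x * (4 * Y) * Real.log N := by gcongr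
      _ = 4 * (x * Y * Real.log N) := by ring
      _ ≤ 4 := by linarith
  obtain ⟨I, hI⟩ : ∃ I : Finset ℕ, I = pr N := ⟨_, rfl⟩
  obtain ⟨J, hJ⟩ : ∃ J : Finset ℕ, J = pr (PX x) \ pr N := ⟨_, rfl⟩
  have hI2 : ∀ p ∈ I, 2 ≤ p := fun p hp => by rw [hI] at hp; exact pr_two hp
  have hJ2 : ∀ p ∈ J, 2 ≤ p := fun p hp => by rw [hJ] at hp; exact pr_two (Finset.mem_sdiff.mp hp).1
  have hIp : ∀ p ∈ I, p.Prime := fun p hp => by rw [hI] at hp; exact pr_prime hp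
  have hIJ : Disjoint I J := by
    rw [hI, hJ]
    exact Finset.disjoint_sdiff
  have hre : ∀ u : ℝ, 0 < (sp x u).re := fun u => by rw [sp_re]; linarith
  have hre9 : ∀ u : ℝ, 9 / 20 ≤ (sp x u).re := fun u => by rw [sp_re]; linarith
  -- the integrand
  have e1 : ∀ ω, ((‖Fs x N ω‖ ^ (2 * (k - 1)) : ℝ) : ℂ) * (Fp x y ω * (starRingEnd ℂ) (Fp x z ω)) =
      Complex.exp (∑ j : Fin 3, ((![((k - 1 : ℝ) : ℂ), 1, 0] : Fin 3 → ℂ) j * Xs I ((fun j => sp x ((![0, y, z] : Fin 3 → ℝ) j)) j) ω +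
        (![((k - 1 : ℝ) : ℂ), 0, 1] : Fin 3 → ℂ) j * (starRingEnd ℂ) (Xs I ((fun j => sp x ((![0, y, z] : Fin 3 → ℝ) j)) j) ω))) *
      Complex.exp (∑ j : Fin 2, ((![1, 0] : Fin 2 → ℂ) j * Xs J ((fun j => sp x ((![y, z] : Fin 2 → ℝ) j)) j) ω +
        (![0, 1] : Fin 2 → ℂ) j * (starRingEnd ℂ) (Xs J ((fun j => sp x ((![y, z] : Fin 2 → ℝ) j)) j) ω))) := by
    intro ω
    have hs : ‖Fs x N ω‖ ^ (2 * (k - 1)) = Real.exp (2 * (k - 1) * (Xs I (sp x 0) ω).re) := by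
      unfold Fs
      rw [Complex.norm_exp, ← Real.exp_mul, hI]
      congr 1
      ring
    have hsub : I ⊆ pr (PX x) := by rw [hI]; exact pr_mono hNP
    have hX : ∀ u, Xp x u ω = Xs I (sp x u) ω + Xs J (sp x u) ω := by
      intro u
      unfold Xp
      rw [Xs_split hsub, hJ, hI]
    rw [hs]
    unfold Fp
    rw [hX, hX, Complex.ofReal_exp, ← Complex.exp_conj, ← Complex.exp_add, ← Complex.exp_add, ← Complex.exp_add]
    congr 1
    simp only [Fin.sum_univ_three, Fin.sum_univ_two, Matrix.cons_val_zero, Matrix.cons_val_one, Matrix.cons_val, map_add]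
    have h3 := Complex.add_conj (Xs I (sp x 0) ω)
    push_cast at h3 ⊢
    linear_combination -((k:ℂ) - 1) * h3
  simp_rw [e1]
  rw [mgf_two hIJ hI2 hJ2 (s := fun j => sp x ((![0, y, z] : Fin 3 → ℝ) j)) (t := fun j => sp x ((![y, z] : Fin 2 → ℝ) j)) (fun j => hre _) (fun j => hre _), norm_mul]
  have n0 : ‖((k - 1 : ℝ) : ℂ)‖ = |k - 1| := by rw [Complex.norm_real, Real.norm_eq_abs]
  have hz1 : ∀ p ∈ I, ∀ a b : ℝ, (p:ℂ) ^ (-sp x a) * (starRingEnd ℂ) ((p:ℂ) ^ (-sp x b)) = wv x (a - b) p := by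
    intro p hp a b
    exact zv_mul (y := ![a, b]) (hI2 p hp) 0 1
  have hz2 : ∀ p ∈ J, ∀ a b : ℝ, (p:ℂ) ^ (-sp x a) * (starRingEnd ℂ) ((p:ℂ) ^ (-sp x b)) = wv x (a - b) p := by
    intro p hp a b
    exact zv_mul (y := ![a, b]) (hJ2 p hp) 0 1
  -- the small primes
  have b1 := mgf_norm (n := 3) hI2 (s := fun j => sp x ((![0, y, z] : Fin 3 → ℝ) j)) (fun j => hre9 _) (α := ![((k - 1 : ℝ) : ℂ), 1, 0]) (β := ![((k - 1 : ℝ) : ℂ), 0, 1]) (A := A)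
    (by simp only [Fin.sum_univ_three, Matrix.cons_val_zero, Matrix.cons_val_one, Matrix.cons_val, norm_one, norm_zero, n0, add_zero]; exact hA.ge)
    (by simp only [Fin.sum_univ_three, Matrix.cons_val_zero, Matrix.cons_val_one, Matrix.cons_val, norm_one, norm_zero, n0, add_zero]; exact hA.ge)
  have b2 := mgf_norm (n := 2) hJ2 (s := fun j => sp x ((![y, z] : Fin 2 → ℝ) j)) (fun j => hre9 _) (α := ![1, 0]) (β := ![0, 1]) (A := A)
    (by simp only [Fin.sum_univ_two, Matrix.cons_val_zero, Matrix.cons_val_one, Matrix.cons_val_fin_one, norm_one, norm_zero, add_zero]; rw [hA]; linarith [abs_nonneg (k - 1)])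
    (by simp only [Fin.sum_univ_two, Matrix.cons_val_zero, Matrix.cons_val_one, Matrix.cons_val_fin_one, norm_one, norm_zero, zero_add]; rw [hA]; linarith [abs_nonneg (k - 1)])
  have e2 : ∀ p ∈ I, ((∑ j : Fin 3, (![((k - 1 : ℝ) : ℂ), 1, 0] : Fin 3 → ℂ) j * (p:ℂ) ^ (-(fun j => sp x ((![0, y, z] : Fin 3 → ℝ) j)) j)) *
      ∑ j : Fin 3, (![((k - 1 : ℝ) : ℂ), 0, 1] : Fin 3 → ℂ) j * (starRingEnd ℂ) ((p:ℂ) ^ (-(fun j => sp x ((![0, y, z] : Fin 3 → ℝ) j)) j))).re =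
      (k - 1) ^ 2 * (wv x 0 p).re + (k - 1) * (wv x (-z) p).re + (k - 1) * (wv x y p).re + (wv x (y - z) p).re := by
    intro p hp
    have h00 := hz1 p hp 0 0
    have h0z := hz1 p hp 0 z
    have hy0 := hz1 p hp y 0
    have hyz := hz1 p hp y z
    rw [sub_self] at h00
    rw [zero_sub] at h0z
    rw [sub_zero] at hy0
    have e3 : (∑ j : Fin 3, (![((k - 1 : ℝ) : ℂ), 1, 0] : Fin 3 → ℂ) j * (p:ℂ) ^ (-(fun j => sp x ((![0, y, z] : Fin 3 → ℝ) j)) j)) *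
      (∑ j : Fin 3, (![((k - 1 : ℝ) : ℂ), 0, 1] : Fin 3 → ℂ) j * (starRingEnd ℂ) ((p:ℂ) ^ (-(fun j => sp x ((![0, y, z] : Fin 3 → ℝ) j)) j))) =
      (((k - 1) ^ 2 : ℝ) : ℂ) * wv x 0 p + ((k - 1 : ℝ) : ℂ) * wv x (-z) p + ((k - 1 : ℝ) : ℂ) * wv x y p + wv x (y - z) p := by
      simp only [Fin.sum_univ_three, Matrix.cons_val_zero, Matrix.cons_val_one, Matrix.cons_val]
      rw [← h00, ← h0z, ← hy0, ← hyz]
      push_cast
      ring
    rw [e3]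
    simp only [Complex.add_re, Complex.re_ofReal_mul]
  have e4 : ∀ p ∈ J, ((∑ j : Fin 2, (![1, 0] : Fin 2 → ℂ) j * (p:ℂ) ^ (-(fun j => sp x ((![y, z] : Fin 2 → ℝ) j)) j)) *
      ∑ j : Fin 2, (![0, 1] : Fin 2 → ℂ) j * (starRingEnd ℂ) ((p:ℂ) ^ (-(fun j => sp x ((![y, z] : Fin 2 → ℝ) j)) j))).re = (wv x (y - z) p).re := by
    intro p hp
    have hyz := hz2 p hp y z
    simp only [Fin.sum_univ_two, Matrix.cons_val_zero, Matrix.cons_val_one, Matrix.cons_val_fin_one, one_mul, zero_mul, add_zero, zero_add]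
    rw [hyz]
  rw [Finset.sum_congr rfl e2] at b1
  rw [Finset.sum_congr rfl e4] at b2
  have hyzb : |y - z| ≤ 2 * Y := by
    have := abs_sub y z
    linarith
  have r1 : ∑ p ∈ I, ((k - 1) ^ 2 * (wv x 0 p).re + (k - 1) * (wv x (-z) p).re + (k - 1) * (wv x y p).re + (wv x (y - z) p).re) ≤
      k ^ 2 * Real.log (Real.log N) + ((k - 1) ^ 2 + 2 * |k - 1| + 1) * C1 := by
    rw [Finset.sum_add_distrib, Finset.sum_add_distrib, Finset.sum_add_distrib, ← Finset.mul_sum, ← Finset.mul_sum, ← Finset.mul_sum,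
      ← Complex.re_sum, ← Complex.re_sum, ← Complex.re_sum, ← Complex.re_sum, hI]
    have g0 := abs_le.mp (h1 N hN x hx 0 (hK 0 (by rw [abs_zero]; linarith)))
    have gz := h1 N hN x hx (-z) (hK (-z) (by rw [abs_neg]; linarith))
    have gy := h1 N hN x hx y (hK y (by linarith))
    have gyz := abs_le.mp (h1 N hN x hx (y - z) (hK _ hyzb))
    have k1 : (k - 1) * ((∑ p ∈ pr N, wv x (-z) p).re - Real.log (Real.log N)) ≤ |k - 1| * C1 := by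
      refine (le_abs_self _).trans ?_
      rw [abs_mul]
      exact mul_le_mul_of_nonneg_left gz (abs_nonneg _)
    have k2 : (k - 1) * ((∑ p ∈ pr N, wv x y p).re - Real.log (Real.log N)) ≤ |k - 1| * C1 := by
      refine (le_abs_self _).trans ?_
      rw [abs_mul]
      exact mul_le_mul_of_nonneg_left gy (abs_nonneg _)
    have k3 : (k - 1) ^ 2 * ((∑ p ∈ pr N, wv x 0 p).re - Real.log (Real.log N)) ≤ (k - 1) ^ 2 * C1 := mul_le_mul_of_nonneg_left g0.2 (sq_nonneg _)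
    nlinarith [gyz.2]
  have r2 : ∑ p ∈ J, (wv x (y - z) p).re ≤ -Real.log (x * ‖2 + ((y - z : ℝ):ℂ) * Complex.I‖ * Real.log N) + C2 := by
    rw [← Complex.re_sum, hJ]
    exact h2 x hx hx1 N hN hNP (y - z) (hK _ hyzb)
  have hQ : 0 < x * ‖2 + ((y - z : ℝ):ℂ) * Complex.I‖ * Real.log N := by
    have : 0 < ‖2 + ((y - z : ℝ):ℂ) * Complex.I‖ := by
      rw [norm_pos_iff]
      intro hcon
      have := congrArg Complex.re hcon
      simp at this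
    positivity
  refine (mul_le_mul b1 b2 (norm_nonneg _) (Real.exp_pos _).le).trans ?_
  rw [← Real.exp_add]
  have e5 : Real.exp (((k - 1) ^ 2 + 2 * |k - 1| + 1) * C1 + CN A * KS + (C2 + CN A * KS)) * (Real.log N) ^ (k ^ 2) * (x * ‖2 + ((y - z : ℝ):ℂ) * Complex.I‖ * Real.log N)⁻¹ =
      Real.exp ((((k - 1) ^ 2 + 2 * |k - 1| + 1) * C1 + CN A * KS + (C2 + CN A * KS)) + Real.log (Real.log N) * k ^ 2 + -Real.log (x * ‖2 + ((y - z : ℝ):ℂ) * Complex.I‖ * Real.log N)) := by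
    have e6 : (x * ‖2 + ((y - z : ℝ):ℂ) * Complex.I‖ * Real.log N)⁻¹ = Real.exp (-Real.log (x * ‖2 + ((y - z : ℝ):ℂ) * Complex.I‖ * Real.log N)) := by
      rw [Real.exp_neg, Real.exp_log hQ]
    rw [e6, Real.rpow_def_of_pos hll, ← Real.exp_add, ← Real.exp_add]
  rw [e5]
  refine Real.exp_le_exp.mpr ?_
  linarith

end Pool.Agent.H470
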