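import Pool.Agent.H470.To13
import Pool.Agent.H470.Mk

set_option autoImplicit false

/-! The block estimate. -/

namespace Pool.Agent.H470

open MeasureTheory Filter Topology ProbabilityTheory Set
open scoped ENNReal

/-- the quadratic form -/
theorem quadf {w : ℝ → ℂ} (hw : Measurable w) (hi : Integrable w) {x : ℝ} (hx : 0 < x) {h : (ℕ → ℝ) → ℝ} (hm : Measurable h)
    (h0 : ∀ ω, 0 ≤ h ω) {H : ℝ} (hH : ∀ ω, h ω ≤ H) :
    ENNReal.ofReal (∫ ω, h ω * ‖Iw w x ω‖ ^ 2 ∂tm) ≤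
      ∫⁻ z : ℝ × ℝ, ‖w z.1‖ₑ * ‖w z.2‖ₑ * ‖∫ ω, ((h ω : ℝ) : ℂ) * (Fp x z.1 ω * (starRingEnd ℂ) (Fp x z.2 ω)) ∂tm‖ₑ ∂(volume.prod volume) := by
  obtain ⟨B, hB, hb⟩ := Fp_bd hx
  have hH0 : 0 ≤ H := (h0 fun _ => 0).trans (hH _)
  obtain ⟨F, hF⟩ : ∃ F : (ℕ → ℝ) → ℝ × ℝ → ℂ, ∀ ω z, F ω z = (w z.1 * (starRingEnd ℂ) (w z.2)) * (((h ω : ℝ) : ℂ) * (Fp x z.1 ω * (starRingEnd ℂ) (Fp x z.2 ω))) := ⟨fun ω z => _, fun _ _ => rfl⟩
  have hFm : Measurable (fun p : (ℕ → ℝ) × (ℝ × ℝ) => F p.1 p.2) := by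
    have e1 : (fun p : (ℕ → ℝ) × (ℝ × ℝ) => F p.1 p.2) = fun p => (w p.2.1 * (starRingEnd ℂ) (w p.2.2)) * (((h p.1 : ℝ) : ℂ) * (Fp x p.2.1 p.1 * (starRingEnd ℂ) (Fp x p.2.2 p.1))) := by
      funext p
      exact hF _ _
    rw [e1]
    have m1 : Measurable (fun p : (ℕ → ℝ) × (ℝ × ℝ) => Fp x p.2.1 p.1) := (Fp_meas2 x).comp (f := fun p : (ℕ → ℝ) × (ℝ × ℝ) => (p.1, p.2.1)) (by fun_prop)
    have m2 : Measurable (fun p : (ℕ → ℝ) × (ℝ × ℝ) => Fp x p.2.2 p.1) := (Fp_meas2 x).comp (f := fun p : (ℕ → ℝ) × (ℝ × ℝ) => (p.1, p.2.2)) (by fun_prop)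
    have m3 : Measurable (fun p : (ℕ → ℝ) × (ℝ × ℝ) => w p.2.1) := hw.comp (f := fun p : (ℕ → ℝ) × (ℝ × ℝ) => p.2.1) (by fun_prop)
    have m4 : Measurable (fun p : (ℕ → ℝ) × (ℝ × ℝ) => w p.2.2) := hw.comp (f := fun p : (ℕ → ℝ) × (ℝ × ℝ) => p.2.2) (by fun_prop)
    have m5 : Measurable (fun p : (ℕ → ℝ) × (ℝ × ℝ) => ((h p.1 : ℝ) : ℂ)) := Complex.measurable_ofReal.comp (hm.comp measurable_fst)
    have mc := Complex.continuous_conj.measurable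
    exact (m3.mul (mc.comp m4)).mul (m5.mul (m1.mul (mc.comp m2)))
  have hFn : ∀ ω z, ‖F ω z‖ ≤ ‖w z.1‖ * ‖w z.2‖ * (H * (B * B)) := by
    intro ω z
    rw [hF, norm_mul, norm_mul, Complex.norm_conj, norm_mul, norm_mul, Complex.norm_conj, Complex.norm_real, Real.norm_of_nonneg (h0 ω)]
    refine mul_le_mul_of_nonneg_left ?_ (by positivity)
    exact mul_le_mul (hH ω) (mul_le_mul (hb _ _) (hb _ _) (norm_nonneg _) hB.le) (by positivity) hH0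
  have hwi : Integrable (fun z : ℝ × ℝ => ‖w z.1‖ * ‖w z.2‖ * (H * (B * B))) (volume.prod volume) := (hi.norm.mul_prod hi.norm).mul_const _
  have hFi : Integrable (fun p : (ℕ → ℝ) × (ℝ × ℝ) => F p.1 p.2) (tm.prod (volume.prod volume)) := by
    have h1 : Integrable (fun p : (ℕ → ℝ) × (ℝ × ℝ) => (1:ℝ) * (‖w p.2.1‖ * ‖w p.2.2‖ * (H * (B * B)))) (tm.prod (volume.prod volume)) :=
      (integrable_const (1:ℝ)).mul_prod hwi
    refine h1.mono' hFm.aestronglyMeasurable (Eventually.of_forall fun p => ?_)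
    rw [one_mul]
    exact hFn _ _
  have hXX : ∀ ω, ((h ω * ‖Iw w x ω‖ ^ 2 : ℝ) : ℂ) = ∫ z, F ω z ∂(volume.prod volume) := by
    intro ω
    have e0 : ((‖Iw w x ω‖ ^ 2 : ℝ) : ℂ) = Iw w x ω * (starRingEnd ℂ) (Iw w x ω) := by
      rw [Complex.mul_conj, Complex.normSq_eq_norm_sq]
    have e2 : (starRingEnd ℂ) (Iw w x ω) = ∫ y, (starRingEnd ℂ) (w y * Fp x y ω) := by
      unfold Iw
      rw [← integral_conj]
    rw [Complex.ofReal_mul, e0, e2]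
    unfold Iw
    rw [← integral_prod_mul, ← integral_const_mul]
    refine integral_congr_ae (Eventually.of_forall fun z => ?_)
    show ((h ω : ℝ) : ℂ) * (w z.1 * Fp x z.1 ω * (starRingEnd ℂ) (w z.2 * Fp x z.2 ω)) = F ω z
    rw [hF, map_mul]
    ring
  have hsw : ((∫ ω, h ω * ‖Iw w x ω‖ ^ 2 ∂tm : ℝ) : ℂ) = ∫ z, ∫ ω, F ω z ∂tm ∂(volume.prod volume) := by
    rw [← integral_complex_ofReal]
    simp_rw [hXX]
    exact integral_integral_swap hFi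
  have hnn : 0 ≤ ∫ ω, h ω * ‖Iw w x ω‖ ^ 2 ∂tm := integral_nonneg fun ω => mul_nonneg (h0 ω) (by positivity)
  have e3 : ENNReal.ofReal (∫ ω, h ω * ‖Iw w x ω‖ ^ 2 ∂tm) = ‖((∫ ω, h ω * ‖Iw w x ω‖ ^ 2 ∂tm : ℝ) : ℂ)‖ₑ := by
    rw [← ofReal_norm, Complex.norm_real, Real.norm_of_nonneg hnn]
  rw [e3, hsw]
  refine (enorm_integral_le_lintegral_enorm _).trans (le_of_eq (lintegral_congr fun z => ?_))
  simp_rw [hF]
  rw [integral_const_mul, enorm_mul, enorm_mul]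
  congr 2
  rw [← ofReal_norm, Complex.norm_conj, ofReal_norm]

/-- the quadratic form with a kernel -/
theorem quad_ker {w : ℝ → ℂ} (hw : Measurable w) {b Y : ℝ} (hb : 0 ≤ b) (hY : 0 ≤ Y) (hwb : ∀ y, ‖w y‖ ≤ b) (hw0 : ∀ y, Y < |y| → w y = 0)
    {x : ℝ} (hx : 0 < x) {h : (ℕ → ℝ) → ℝ} (hm : Measurable h)
    (h0 : ∀ ω, 0 ≤ h ω) {H : ℝ} (hH : ∀ ω, h ω ≤ H) {K τ : ℝ} (hK : 0 ≤ K) (hτ : 0 < τ)
    (hk : ∀ y z : ℝ, |y| ≤ Y → |z| ≤ Y → ‖∫ ω, ((h ω : ℝ) : ℂ) * (Fp x y ω * (starRingEnd ℂ) (Fp x z ω)) ∂tm‖ ≤ K * (1 + (y - z) ^ 2) ^ (-((1 + τ) / 2))) :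
    ∫ ω, h ω * ‖Iw w x ω‖ ^ 2 ∂tm ≤ b ^ 2 * K * (2 * Y) * ∫ u : ℝ, (1 + u ^ 2) ^ (-((1 + τ) / 2)) := by
  have hbi := base_int (e := (1 + τ) / 2) (by linarith)
  have hc0 : 0 ≤ ∫ u : ℝ, (1 + u ^ 2) ^ (-((1 + τ) / 2)) := integral_nonneg fun u => by positivity
  have hi : Integrable w := by
    have h1 : Integrable (indicator (Icc (-Y) Y) fun _ : ℝ => b) := by
      rw [integrable_indicator_iff measurableSet_Icc]
      exact integrableOn_const (by simp) (by simp)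
    refine h1.mono' hw.aestronglyMeasurable (Eventually.of_forall fun y => ?_)
    by_cases hy : y ∈ Icc (-Y) Y
    · rw [indicator_of_mem hy]
      exact hwb y
    · rw [indicator_of_notMem hy, hw0 y, norm_zero]
      by_contra hcon
      exact hy (abs_le.mp (not_lt.mp hcon))
  have hq := quadf hw hi hx hm h0 hH
  rw [← ENNReal.ofReal_le_ofReal_iff (by positivity)]
  refine hq.trans ?_
  obtain ⟨g, hg⟩ : ∃ g : ℝ → ℝ≥0∞, g = indicator (Icc (-Y) Y) fun _ => ENNReal.ofReal (b ^ 2 * K) := ⟨_, rfl⟩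
  have hgm : Measurable g := by rw [hg]; exact measurable_const.indicator measurableSet_Icc
  obtain ⟨q, hq'⟩ : ∃ q : ℝ → ℝ≥0∞, q = fun u => ENNReal.ofReal ((1 + u ^ 2) ^ (-((1 + τ) / 2))) := ⟨_, rfl⟩
  have hqm : Measurable q := by rw [hq']; fun_prop
  have hle : ∀ z : ℝ × ℝ, ‖w z.1‖ₑ * ‖w z.2‖ₑ * ‖∫ ω, ((h ω : ℝ) : ℂ) * (Fp x z.1 ω * (starRingEnd ℂ) (Fp x z.2 ω)) ∂tm‖ₑ ≤ g z.1 * q (z.1 - z.2) := by
    intro z
    by_cases hz1 : |z.1| ≤ Y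
    · by_cases hz2 : |z.2| ≤ Y
      · have hz1' : z.1 ∈ Icc (-Y) Y := abs_le.mp hz1
        rw [hg, hq', indicator_of_mem hz1', ← ofReal_norm, ← ofReal_norm, ← ofReal_norm, ← ENNReal.ofReal_mul (norm_nonneg _), ← ENNReal.ofReal_mul (by positivity), ← ENNReal.ofReal_mul (by positivity)]
        refine ENNReal.ofReal_le_ofReal ?_
        have h1 := hk z.1 z.2 hz1 hz2
        have h2 : ‖w z.1‖ * ‖w z.2‖ ≤ b ^ 2 := by
          rw [pow_two]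
          exact mul_le_mul (hwb _) (hwb _) (norm_nonneg _) hb
        refine (mul_le_mul h2 h1 (norm_nonneg _) (by positivity)).trans (le_of_eq (by ring))
      · rw [hw0 z.2 (not_le.mp hz2)]
        simp
    · rw [hw0 z.1 (not_le.mp hz1)]
      simp
  refine (lintegral_mono hle).trans (le_of_eq ?_)
  rw [int2 hgm hqm, hg, hq', lintegral_indicator measurableSet_Icc, setLIntegral_const, Real.volume_Icc,
    ← ofReal_integral_eq_lintegral_ofReal hbi (Eventually.of_forall fun u => by positivity), ← ENNReal.ofReal_mul (by positivity), ← ENNReal.ofReal_mul (by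
      have : 0 ≤ Y - -Y := by linarith
      positivity)]
  congr 2
  ring

lemma Fs_gd {x : ℝ} (hx : 0 < x) (N : ℕ) : Gd (Fs x N) := by
  obtain ⟨B, hB, hb⟩ := Xs_bd (I := pr N) (fun p hp => pr_two hp) (σ := 1 / 2) (by norm_num)
  refine ⟨?_, Real.exp B, fun ω => ?_⟩
  · exact (Complex.continuous_exp.comp (Xs_cont (fun p hp => pr_two hp) (by rw [sp_re]; linarith))).measurable
  · unfold Fs
    rw [Complex.norm_exp]
    exact Real.exp_le_exp.mpr ((Complex.re_le_norm _).trans (hb _ (by rw [sp_re]; linarith) ω))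

lemma Fs_lo {x : ℝ} (hx : 0 < x) (N : ℕ) : ∃ c : ℝ, 0 < c ∧ ∀ ω, c ≤ ‖Fs x N ω‖ := by
  obtain ⟨B, hB, hb⟩ := Xs_bd (I := pr N) (fun p hp => pr_two hp) (σ := 1 / 2) (by norm_num)
  refine ⟨Real.exp (-B), Real.exp_pos _, fun ω => ?_⟩
  unfold Fs
  rw [Complex.norm_exp]
  have h1 := hb (sp x 0) (by rw [sp_re]; linarith) ω
  exact Real.exp_le_exp.mpr (by linarith [(abs_le.mp ((Complex.abs_re_le_norm _).trans h1)).1])

/-- the moments of the small primes -/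
lemma Fs_mk {k : ℝ} (hk : 0 < k) : ∃ C : ℝ, 0 < C ∧ ∀ x : ℝ, 0 < x → ∀ N : ℕ, 3 ≤ N → mk k (Fs x N) ≤ C * (Real.log N) ^ (k ^ 2) := by
  obtain ⟨C1, h1⟩ := Pool.Agent.Helper256.KM.mertens_inv
  refine ⟨Real.exp (k ^ 2 * C1 + CN |k| * KS), Real.exp_pos _, fun x hx N hN => ?_⟩
  have hl := log_N hN
  have hll : 0 < Real.log N := by linarith
  refine mk_le hk (Fs_gd hx N) (by positivity) ?_
  refine (EF (I := pr N) (fun p hp => pr_two hp) (s := sp x 0) (by rw [sp_re]; linarith) k).trans (ENNReal.ofReal_le_ofReal ?_)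
  have h3 := (abs_le.mp (h1 N hN)).2
  have h4 : ∑ p ∈ pr N, (p:ℝ) ^ (-(2 * (sp x 0).re)) ≤ ∑ p ∈ pr N, (1:ℝ) / p := by
    refine Finset.sum_le_sum fun p hp => ?_
    have hpp := pr_prime hp
    rw [one_div, ← Real.rpow_neg_one, sp_re]
    exact Real.rpow_le_rpow_of_exponent_le (by exact_mod_cast hpp.one_le) (by linarith)
  have h5 : ∑ p ∈ pr N, (1:ℝ) / p = ∑ p ∈ (Finset.Icc 1 N).filter Nat.Prime, (1:ℝ) / p := rfl
  have h6 : k ^ 2 * ∑ p ∈ pr N, (p:ℝ) ^ (-(2 * (sp x 0).re)) ≤ k ^ 2 * (Real.log (Real.log N) + C1) := mul_le_mul_of_nonneg_left (by linarith) (sq_nonneg _)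
  rw [Real.rpow_def_of_pos hll, ← Real.exp_add]
  refine Real.exp_le_exp.mpr ?_
  linarith

/-- conditioning by tilting -/
lemma mk_tilt {k : ℝ} (hk : 0 < k) (hk1 : k < 1) {x : ℝ} (hx : 0 < x) (N : ℕ) {f : (ℕ → ℝ) → ℂ} (hf : Gd f) :
    mk k f ≤ mk k (Fs x N) ^ (1 - k) * (∫ ω, ‖Fs x N ω‖ ^ (2 * (k - 1)) * ‖f ω‖ ^ 2 ∂tm) ^ k := by
  obtain ⟨c, hc, hcl⟩ := Fs_lo hx N
  obtain ⟨hFm, B1, hB1⟩ := Fs_gd hx N
  obtain ⟨hfm, B2, hB2⟩ := hf
  have hB10 : 0 < B1 := lt_of_lt_of_le hc ((hcl fun _ => 0).trans (hB1 _))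
  have hB20 : 0 ≤ B2 := (norm_nonneg _).trans (hB2 fun _ => 0)
  have hpq : (1 / (1 - k)).HolderConjugate (1 / k) := by
    rw [Real.holderConjugate_iff]
    constructor
    · rw [lt_div_iff₀ (by linarith)]
      linarith
    · field_simp
      ring
  have hpos : ∀ ω, 0 < ‖Fs x N ω‖ := fun ω => lt_of_lt_of_le hc (hcl ω)
  have hneg : ∀ ω, ‖Fs x N ω‖ ^ (2 * (k - 1)) ≤ c ^ (2 * (k - 1)) := fun ω => Real.rpow_le_rpow_of_nonpos hc (hcl ω) (by linarith)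
  have m1 : Measurable fun ω => (‖Fs x N ω‖ ^ (2 * k)) ^ (1 - k) := (hFm.norm.pow_const _).pow_const _
  have m2 : Measurable fun ω => (‖Fs x N ω‖ ^ (2 * (k - 1)) * ‖f ω‖ ^ 2) ^ k := ((hFm.norm.pow_const _).mul (hfm.norm.pow_const _)).pow_const _
  have L1 : MemLp (fun ω => (‖Fs x N ω‖ ^ (2 * k)) ^ (1 - k)) (ENNReal.ofReal (1 / (1 - k))) tm := by
    refine MemLp.of_bound m1.aestronglyMeasurable ((B1 ^ (2 * k)) ^ (1 - k)) (Eventually.of_forall fun ω => ?_)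
    rw [Real.norm_of_nonneg (by positivity)]
    exact Real.rpow_le_rpow (by positivity) (Real.rpow_le_rpow (norm_nonneg _) (hB1 ω) (by positivity)) (by linarith)
  have L2 : MemLp (fun ω => (‖Fs x N ω‖ ^ (2 * (k - 1)) * ‖f ω‖ ^ 2) ^ k) (ENNReal.ofReal (1 / k)) tm := by
    refine MemLp.of_bound m2.aestronglyMeasurable ((c ^ (2 * (k - 1)) * B2 ^ 2) ^ k) (Eventually.of_forall fun ω => ?_)
    rw [Real.norm_of_nonneg (by positivity)]
    exact Real.rpow_le_rpow (by positivity) (mul_le_mul (hneg ω) (pow_le_pow_left₀ (norm_nonneg _) (hB2 ω) 2) (by positivity) (by positivity)) hk.le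
  have h1 := integral_mul_le_Lp_mul_Lq_of_nonneg (μ := tm) hpq (Eventually.of_forall fun ω => by positivity) (Eventually.of_forall fun ω => by positivity) L1 L2
  have e1 : ∀ ω, (‖Fs x N ω‖ ^ (2 * k)) ^ (1 - k) * (‖Fs x N ω‖ ^ (2 * (k - 1)) * ‖f ω‖ ^ 2) ^ k = ‖f ω‖ ^ (2 * k) := by
    intro ω
    rw [Real.mul_rpow (by positivity) (by positivity), ← Real.rpow_mul (norm_nonneg _), ← Real.rpow_mul (norm_nonneg _), ← mul_assoc, ← Real.rpow_add (hpos ω),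
      ← Real.rpow_natCast (‖f ω‖) 2, ← Real.rpow_mul (norm_nonneg _)]
    have e2 : 2 * k * (1 - k) + 2 * (k - 1) * k = 0 := by ring
    rw [e2, Real.rpow_zero, one_mul]
    norm_num
  have e2 : ∀ ω, ((‖Fs x N ω‖ ^ (2 * k)) ^ (1 - k)) ^ (1 / (1 - k)) = ‖Fs x N ω‖ ^ (2 * k) := by
    intro ω
    rw [← Real.rpow_mul (by positivity), mul_one_div_cancel (by linarith), Real.rpow_one]
  have e3 : ∀ ω, ((‖Fs x N ω‖ ^ (2 * (k - 1)) * ‖f ω‖ ^ 2) ^ k) ^ (1 / k) = ‖Fs x N ω‖ ^ (2 * (k - 1)) * ‖f ω‖ ^ 2 := by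
    intro ω
    rw [← Real.rpow_mul (by positivity), mul_one_div_cancel hk.ne', Real.rpow_one]
  simp_rw [e1, e2, e3] at h1
  rw [one_div_one_div, one_div_one_div] at h1
  exact h1

end Pool.Agent.H470
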