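import Pool.Agent.H470.To14

set_option autoImplicit false

/-! The block estimate for low exponents. -/

namespace Pool.Agent.H470

open MeasureTheory Filter Topology ProbabilityTheory Set
open scoped ENNReal

/-- the choice of the cut -/
lemma cutN {t : ℝ} (ht : 2 ≤ t) : ∃ N : ℕ, 3 ≤ N ∧ (N:ℝ) ≤ Real.exp t ∧ t / 2 ≤ Real.log N ∧ Real.log N ≤ t := by
  refine ⟨⌊Real.exp t⌋₊, ?_, Nat.floor_le (Real.exp_pos _).le, ?_, ?_⟩
  · refine Nat.le_floor ?_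
    have h1 := Real.add_one_le_exp t
    push_cast
    linarith
  · have h1 : Real.exp (t / 2) ≤ ⌊Real.exp t⌋₊ := by
      have h2 := Nat.lt_floor_add_one (Real.exp t)
      have h3 : Real.exp t = Real.exp (t / 2) * Real.exp (t / 2) := by
        rw [← Real.exp_add]
        congr 1
        ring
      have h4 : 2 ≤ Real.exp (t / 2) := by
        have := Real.add_one_le_exp (t / 2)
        linarith
      nlinarith
    have h0 : (0:ℝ) < ⌊Real.exp t⌋₊ := lt_of_lt_of_le (Real.exp_pos _) h1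
    rw [Real.le_log_iff_exp_le h0]
    exact h1
  · have h0 : (0:ℝ) < ⌊Real.exp t⌋₊ := by
      have : 3 ≤ ⌊Real.exp t⌋₊ := by
        refine Nat.le_floor ?_
        have h1 := Real.add_one_le_exp t
        push_cast
        linarith
      exact_mod_cast (by omega : 0 < ⌊Real.exp t⌋₊)
    have := Real.log_le_log h0 (Nat.floor_le (Real.exp_pos t).le)
    rwa [Real.log_exp] at this

lemma two_add_norm (u : ℝ) : (1 + u ^ 2) ^ (1 / 2 : ℝ) ≤ ‖2 + (u:ℂ) * Complex.I‖ := by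
  rw [← Real.sqrt_eq_rpow]
  refine Real.sqrt_le_iff.mpr ⟨norm_nonneg _, ?_⟩
  rw [← Complex.normSq_eq_norm_sq, Complex.normSq_apply]
  simp
  nlinarith

/-- the block estimate -/
theorem blk {k : ℝ} (hk : 0 < k) (hk1 : k < 1) : ∃ C : ℝ, 0 < C ∧ ∀ x : ℝ, 0 < x → x ≤ 1 → ∀ Y : ℝ, 1 ≤ Y → x * Y ≤ 1 / 2 →
    ∀ b : ℝ, 0 ≤ b → ∀ w : ℝ → ℂ, Measurable w → (∀ y, ‖w y‖ ≤ b) → (∀ y, Y < |y| → w y = 0) →
    mk k (Iw w x) ≤ C * x ^ (-k ^ 2) * (b * Y) ^ (2 * k) * Y ^ (-(k ^ 2 / 2)) := by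
  obtain ⟨C1, hC1, h1⟩ := tp_bd k
  obtain ⟨C2, hC2, h2⟩ := Fs_mk hk
  obtain ⟨c0, hc0⟩ : ∃ c0 : ℝ, c0 = ∫ u : ℝ, (1 + u ^ 2) ^ (-((1 + k / 2) / 2)) := ⟨_, rfl⟩
  have hc00 : 0 ≤ c0 := by rw [hc0]; exact integral_nonneg fun u => by positivity
  obtain ⟨c1, hc1⟩ : ∃ c1 : ℝ, c1 = 5 ^ (k / 4) := ⟨_, rfl⟩
  have hc10 : 0 < c1 := by rw [hc1]; positivity
  refine ⟨C2 ^ (1 - k) * (C1 * (2 * c1) * 2 * (c0 + 1)) ^ k, by positivity, fun x hx hx1 Y hY hxY b hb w hw hwb hw0 => ?_⟩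
  have hY0 : 0 < Y := by linarith
  have hxY0 : 0 < x * Y := by positivity
  obtain ⟨N, hN3, hNe, hNlo, hNup⟩ := cutN (t := 1 / (x * Y)) (by rw [le_div_iff₀ hxY0]; linarith)
  have hl := log_N hN3
  have hll : 0 < Real.log N := by linarith
  have hNP : N ≤ PX x := by
    have h3 : (N:ℝ) ≤ PX x := by
      refine hNe.trans (le_trans (Real.exp_le_exp.mpr ?_) (PX_exp hx))
      refine one_div_le_one_div_of_le (by positivity) ?_
      nlinarith
    exact_mod_cast h3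
  have hxYN : x * Y * Real.log N ≤ 1 := by
    rw [le_div_iff₀ hxY0] at hNup
    linarith
  have hiv : (x * Real.log N)⁻¹ ≤ 2 * Y := by
    rw [inv_le_iff_one_le_mul₀ (by positivity)]
    rw [div_div, div_le_iff₀ (by positivity)] at hNlo
    linarith
  obtain ⟨c, hc, hcl⟩ := Fs_lo hx N
  have hFg := Fs_gd hx N
  -- the tilt
  have ht := mk_tilt hk hk1 hx N (Iw_gd (w := w) hw (by
    have h1 : Integrable (indicator (Icc (-Y) Y) fun _ : ℝ => b) := by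
      rw [integrable_indicator_iff measurableSet_Icc]
      exact integrableOn_const (by simp) (by simp)
    refine h1.mono' hw.aestronglyMeasurable (Eventually.of_forall fun y => ?_)
    by_cases hy : y ∈ Icc (-Y) Y
    · rw [indicator_of_mem hy]
      exact hwb y
    · rw [indicator_of_notMem hy, hw0 y, norm_zero]
      by_contra hcon
      exact hy (abs_le.mp (not_lt.mp hcon))) hx)
  have hq := quad_ker hw hb hY0.le hwb hw0 hx (h := fun ω => ‖Fs x N ω‖ ^ (2 * (k - 1))) (hFg.1.norm.pow_const _) (fun ω => by positivity)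
    (H := c ^ (2 * (k - 1))) (fun ω => Real.rpow_le_rpow_of_nonpos hc (hcl ω) (by linarith)) (K := C1 * (Real.log N) ^ (k ^ 2) * (2 * Y) * (c1 * Y ^ (k / 2))) (τ := k / 2)
    (by positivity) (by positivity) (by
      intro y z hy hz
      refine (h1 x hx hx1 N hN3 hNP Y hY hxYN y z hy hz).trans ?_
      have hu : |y - z| ≤ 2 * Y := by
        have := abs_sub y z
        linarith
      have h3 : ‖2 + ((y - z : ℝ):ℂ) * Complex.I‖⁻¹ ≤ c1 * Y ^ (k / 2) * (1 + (y - z) ^ 2) ^ (-((1 + k / 2) / 2)) := by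
        have h4 := two_add_norm (y - z)
        have h5 : (1 + (y - z) ^ 2) ≤ 5 * Y ^ 2 := by
          have : (y - z) ^ 2 ≤ (2 * Y) ^ 2 := by
            rw [← sq_abs]
            exact pow_le_pow_left₀ (abs_nonneg _) hu 2
          nlinarith
        have hp : 0 < 1 + (y - z) ^ 2 := by positivity
        have h6 : (1 + (y - z) ^ 2) ^ (k / 4) ≤ c1 * Y ^ (k / 2) := by
          refine (Real.rpow_le_rpow hp.le h5 (by positivity)).trans (le_of_eq ?_)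
          rw [Real.mul_rpow (by norm_num) (by positivity), ← Real.rpow_natCast Y 2, ← Real.rpow_mul hY0.le, hc1]
          congr 2
          push_cast
          ring
        calc ‖2 + ((y - z : ℝ):ℂ) * Complex.I‖⁻¹ ≤ ((1 + (y - z) ^ 2) ^ (1 / 2 : ℝ))⁻¹ := inv_anti₀ (by positivity) h4
          _ = (1 + (y - z) ^ 2) ^ (k / 4) * (1 + (y - z) ^ 2) ^ (-((1 + k / 2) / 2)) := by
            rw [← Real.rpow_add hp, ← Real.rpow_neg hp.le]
            congr 1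
            ring
          _ ≤ _ := mul_le_mul_of_nonneg_right h6 (by positivity)
      have e1 : (x * ‖2 + ((y - z : ℝ):ℂ) * Complex.I‖ * Real.log N)⁻¹ = (x * Real.log N)⁻¹ * ‖2 + ((y - z : ℝ):ℂ) * Complex.I‖⁻¹ := by
        rw [← mul_inv]
        congr 1
        ring
      rw [e1]
      have h7 := mul_le_mul hiv h3 (by positivity) (by positivity)
      have h8 := mul_le_mul_of_nonneg_left h7 (show 0 ≤ C1 * (Real.log N) ^ (k ^ 2) by positivity)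
      refine h8.trans (le_of_eq (by ring)))
  rw [← hc0] at hq
  have hmkF := h2 x hx N hN3
  have hll2 : Real.log N ≤ (x * Y)⁻¹ := by
    rw [← one_div]
    exact hNup
  have hq0 : 0 ≤ ∫ ω, ‖Fs x N ω‖ ^ (2 * (k - 1)) * ‖Iw w x ω‖ ^ 2 ∂tm := integral_nonneg fun ω => by positivity
  refine ht.trans ?_
  have h9 : mk k (Fs x N) ^ (1 - k) ≤ (C2 * (Real.log N) ^ (k ^ 2)) ^ (1 - k) := Real.rpow_le_rpow (mk_nonneg _ _) hmkF (by linarith)
  have h10 : b ^ 2 * (C1 * (Real.log N) ^ (k ^ 2) * (2 * Y) * (c1 * Y ^ (k / 2))) * (2 * Y) * c0 ≤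
      (Real.log N) ^ (k ^ 2) * ((C1 * (2 * c1) * 2 * (c0 + 1)) * ((b * Y) ^ 2 * Y ^ (k / 2))) := by
    have h11 : 0 ≤ b ^ 2 * (C1 * (Real.log N) ^ (k ^ 2) * (2 * Y) * (c1 * Y ^ (k / 2))) * (2 * Y) := by positivity
    calc b ^ 2 * (C1 * (Real.log N) ^ (k ^ 2) * (2 * Y) * (c1 * Y ^ (k / 2))) * (2 * Y) * c0
        ≤ b ^ 2 * (C1 * (Real.log N) ^ (k ^ 2) * (2 * Y) * (c1 * Y ^ (k / 2))) * (2 * Y) * (c0 + 1) := mul_le_mul_of_nonneg_left (by linarith) h11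
      _ = _ := by ring
  have h12 : (∫ ω, ‖Fs x N ω‖ ^ (2 * (k - 1)) * ‖Iw w x ω‖ ^ 2 ∂tm) ^ k ≤
      ((Real.log N) ^ (k ^ 2)) ^ k * ((C1 * (2 * c1) * 2 * (c0 + 1)) ^ k * ((b * Y) ^ (2 * k) * Y ^ (k ^ 2 / 2))) := by
    have e4 : ((b * Y) ^ 2 * Y ^ (k / 2)) ^ k = (b * Y) ^ (2 * k) * Y ^ (k ^ 2 / 2) := by
      rw [Real.mul_rpow (by positivity) (by positivity), ← Real.rpow_natCast (b * Y) 2, ← Real.rpow_mul (by positivity), ← Real.rpow_mul hY0.le]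
      congr 2
      ring
    refine (Real.rpow_le_rpow hq0 (hq.trans h10) hk.le).trans (le_of_eq ?_)
    rw [Real.mul_rpow (x := (Real.log N) ^ (k ^ 2)) (by positivity) (by positivity), Real.mul_rpow (x := C1 * (2 * c1) * 2 * (c0 + 1)) (by positivity) (by positivity), e4]
  refine (mul_le_mul h9 h12 (Real.rpow_nonneg hq0 _) (by positivity)).trans ?_
  rw [Real.mul_rpow (by positivity) (by positivity)]
  have e5 : ((Real.log N) ^ (k ^ 2)) ^ (1 - k) * ((Real.log N) ^ (k ^ 2)) ^ k = (Real.log N) ^ (k ^ 2) := by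
    rw [← Real.rpow_add (by positivity)]
    norm_num
  have h13 : (Real.log N) ^ (k ^ 2) ≤ x ^ (-k ^ 2) * Y ^ (-k ^ 2) := by
    refine (Real.rpow_le_rpow hll.le hll2 (by positivity)).trans (le_of_eq ?_)
    rw [Real.inv_rpow hxY0.le, ← Real.rpow_neg hxY0.le, Real.mul_rpow hx.le hY0.le]
  have e6 : Y ^ (-k ^ 2) * Y ^ (k ^ 2 / 2) = Y ^ (-(k ^ 2 / 2)) := by
    rw [← Real.rpow_add hY0]
    congr 1
    ring
  calc C2 ^ (1 - k) * ((Real.log N) ^ (k ^ 2)) ^ (1 - k) * (((Real.log N) ^ (k ^ 2)) ^ k * ((C1 * (2 * c1) * 2 * (c0 + 1)) ^ k * ((b * Y) ^ (2 * k) * Y ^ (k ^ 2 / 2))))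
      = C2 ^ (1 - k) * (C1 * (2 * c1) * 2 * (c0 + 1)) ^ k * (b * Y) ^ (2 * k) * Y ^ (k ^ 2 / 2) * (((Real.log N) ^ (k ^ 2)) ^ (1 - k) * ((Real.log N) ^ (k ^ 2)) ^ k) := by ring
    _ ≤ C2 ^ (1 - k) * (C1 * (2 * c1) * 2 * (c0 + 1)) ^ k * (b * Y) ^ (2 * k) * Y ^ (k ^ 2 / 2) * (x ^ (-k ^ 2) * Y ^ (-k ^ 2)) := by
        rw [e5]
        exact mul_le_mul_of_nonneg_left h13 (by positivity)
    _ = C2 ^ (1 - k) * (C1 * (2 * c1) * 2 * (c0 + 1)) ^ k * x ^ (-k ^ 2) * (b * Y) ^ (2 * k) * (Y ^ (-k ^ 2) * Y ^ (k ^ 2 / 2)) := by ring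
    _ = _ := by rw [e6]

end Pool.Agent.H470
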