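import Pool.Agent.H470.To15

set_option autoImplicit false

/-! Transforms of the differences of plateaus. -/

namespace Pool.Agent.H470

open MeasureTheory Filter Topology Set

lemma sc_Sm {f : ℝ → ℝ} (hf : Sm f) (hf0 : ∀ u, 1 < |u| → f u = 0) {η : ℝ} (hη : 0 < η) : Sm (fun x => f ((x - 1) / η)) := by
  refine Sm.of_zero (B := 1 + η) (hf.1.comp (by fun_prop)) fun x hx => ?_
  refine hf0 _ ?_
  rcases lt_abs.mp hx with h | h
  · rw [lt_abs]
    left
    rw [lt_div_iff₀ hη]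
    linarith
  · rw [lt_abs]
    right
    rw [← neg_div, lt_div_iff₀ hη]
    linarith

lemma ps_cmul (c : ℝ) (φ : ℝ → ℝ) (y : ℝ) : ps (fun x => c * φ x) y = (c : ℂ) * ps φ y := by
  unfold ps
  rw [← integral_const_mul]
  refine integral_congr_ae (Eventually.of_forall fun x => ?_)
  show ((c * φ x : ℝ) : ℂ) * _ = (c : ℂ) * ((φ x : ℂ) * _)
  push_cast
  ring

lemma ps_sub {φ ψ : ℝ → ℝ} (h : Sm φ) (h' : Sm ψ) (y : ℝ) : ps (fun x => φ x - ψ x) y = ps φ y - ps ψ y := by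
  unfold ps
  rw [← integral_sub (ps_int h.cont h.2 y) (ps_int h'.cont h'.2 y)]
  refine integral_congr_ae (Eventually.of_forall fun x => ?_)
  show ((φ x - ψ x : ℝ) : ℂ) * _ = _
  push_cast
  ring

/-- the decay of scaled bumps -/
theorem sc_dec (m : ℕ) : ∀ {f : ℝ → ℝ}, Sm f → (∀ u, 1 < |u| → f u = 0) → ∃ C : ℝ, 0 ≤ C ∧ ∀ η : ℝ, 0 < η → η ≤ 1 → ∀ y : ℝ,
    (η * (1 + |y|)) ^ m * ‖ps (fun x => f ((x - 1) / η)) y‖ ≤ C * η := by
  induction m with
  | zero =>
    intro f hf hf0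
    refine ⟨Real.exp 2 * ∫ u, |f u|, by positivity, fun η hη hη1 y => ?_⟩
    rw [pow_zero, one_mul]
    refine (ps_bd y).trans ((sc_mass hf.cont hf0 hη hη1).trans (le_of_eq (by ring)))
  | succ m ih =>
    intro f hf hf0
    obtain ⟨C, hC, hb⟩ := ih hf.der (deriv_zero_out hf0)
    refine ⟨2 * C, by positivity, fun η hη hη1 y => ?_⟩
    have h1 := hb η hη hη1 y
    have h2 := ps_deriv (sc_Sm hf hf0 hη) y
    rw [sc_deriv (fun u => (hf.hasDeriv u).differentiableAt) η, ps_cmul] at h2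
    have h3 := congrArg norm h2
    rw [norm_mul, norm_neg, norm_mul, Complex.norm_real, Real.norm_of_nonneg (by positivity)] at h3
    have h4 := one_add_norm y
    have h5 : η * (1 + |y|) * ‖ps (fun x => f ((x - 1) / η)) y‖ ≤ 2 * ‖ps (fun x => deriv f ((x - 1) / η)) y‖ := by
      have h6 : ‖ps (fun x => deriv f ((x - 1) / η)) y‖ = η * (‖(1:ℂ) + y * Complex.I‖ * ‖ps (fun x => f ((x - 1) / η)) y‖) := by
        rw [← h3]
        field_simp
      rw [h6]
      have h7 := mul_le_mul_of_nonneg_right h4 (norm_nonneg (ps (fun x => f ((x - 1) / η)) y))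
      have h8 := mul_le_mul_of_nonneg_left h7 hη.le
      linarith
    calc (η * (1 + |y|)) ^ (m + 1) * ‖ps (fun x => f ((x - 1) / η)) y‖ = (η * (1 + |y|)) ^ m * (η * (1 + |y|) * ‖ps (fun x => f ((x - 1) / η)) y‖) := by ring
      _ ≤ (η * (1 + |y|)) ^ m * (2 * ‖ps (fun x => deriv f ((x - 1) / η)) y‖) := mul_le_mul_of_nonneg_left h5 (by positivity)
      _ = 2 * ((η * (1 + |y|)) ^ m * ‖ps (fun x => deriv f ((x - 1) / η)) y‖) := by ring
      _ ≤ 2 * C * η := by linarith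

/-- the step -/
noncomputable def G0 (u : ℝ) : ℝ := Real.smoothTransition (2 + 2 * u)

lemma G0_smooth : ContDiff ℝ (⊤ : ℕ∞) G0 := by
  unfold G0
  exact Real.smoothTransition.contDiff.comp (by fun_prop)

lemma G0_zero {u : ℝ} (h : u ≤ -1) : G0 u = 0 := by
  unfold G0
  exact Real.smoothTransition.zero_of_nonpos (by linarith)

lemma G0_one {u : ℝ} (h : -1 / 2 ≤ u) : G0 u = 1 := by
  unfold G0
  exact Real.smoothTransition.one_of_one_le (by linarith)

lemma dG_zero {u : ℝ} (h : 1 < |u|) : deriv G0 u = 0 := by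
  rcases lt_abs.mp h with h1 | h1
  · have h2 : G0 =ᶠ[𝓝 u] fun _ => 1 := by
      filter_upwards [lt_mem_nhds h1] with v hv
      exact G0_one (by linarith)
    rw [h2.deriv_eq]
    simp
  · have h2 : G0 =ᶠ[𝓝 u] fun _ => 0 := by
      filter_upwards [gt_mem_nhds (show u < -1 by linarith)] with v hv
      exact G0_zero hv.le
    rw [h2.deriv_eq]
    simp

lemma dG_Sm : Sm (deriv G0) := by
  have h1 : ContDiff ℝ ((⊤ : ℕ∞) : WithTop ℕ∞) G0 := G0_smooth
  exact Sm.of_zero (contDiff_infty_iff_deriv.mp h1).2 (B := 1) fun x hx => dG_zero hx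

/-- the difference of plateaus -/
noncomputable def dd (a η x : ℝ) : ℝ := fi a x - fi η x

lemma dd_eq {a η : ℝ} (ha : 0 < a) (haη : a ≤ η) (hη1 : η ≤ 1) (x : ℝ) : dd a η x = G0 ((x - 1) / η) - G0 ((x - 1) / a) := by
  have hη : 0 < η := by linarith
  unfold dd fi
  rcases le_or_gt 0 x with h | h
  · rw [Real.smoothTransition.one_of_one_le (x := 1 + x) (by linarith)]
    unfold G0
    ring
  · have h1 : (x - 1) / η ≤ -1 := by
      rw [div_le_iff₀ hη]
      linarith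
    have h2 : (x - 1) / a ≤ -1 := by
      rw [div_le_iff₀ ha]
      linarith
    have h3 := G0_zero h1
    have h4 := G0_zero h2
    rw [h3, h4]
    unfold G0 at h3 h4
    rw [h3, h4]
    ring

lemma dd_Sm {a η : ℝ} (ha : 0 < a) (hη : 0 < η) : Sm (dd a η) := by
  have h1 := fi_Sm ha
  have h2 := fi_Sm hη
  refine ⟨h1.1.sub h2.1, ?_⟩
  exact h1.2.sub h2.2

lemma dd_out {a η x : ℝ} (ha : 0 < a) (haη : a ≤ η) (hη1 : η ≤ 1) (h : x ≤ 1 - η ∨ 1 ≤ x) : dd a η x = 0 := by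
  have hη : 0 < η := by linarith
  rw [dd_eq ha haη hη1]
  rcases h with h | h
  · rw [G0_zero (by rw [div_le_iff₀ hη]; linarith), G0_zero (by rw [div_le_iff₀ ha]; linarith), sub_zero]
  · rw [G0_one, G0_one, sub_self]
    · have : 0 ≤ (x - 1) / a := div_nonneg (by linarith) ha.le
      linarith
    · have : 0 ≤ (x - 1) / η := div_nonneg (by linarith) hη.le
      linarith

lemma dd_abs (a η : ℝ) (ha : 0 < a) (haη : a ≤ η) (hη1 : η ≤ 1) (x : ℝ) : |dd a η x| ≤ 1 := by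
  rw [dd_eq ha haη hη1, abs_le]
  unfold G0
  have h1 := Real.smoothTransition.nonneg (2 + 2 * ((x - 1) / η))
  have h2 := Real.smoothTransition.le_one (2 + 2 * ((x - 1) / η))
  have h3 := Real.smoothTransition.nonneg (2 + 2 * ((x - 1) / a))
  have h4 := Real.smoothTransition.le_one (2 + 2 * ((x - 1) / a))
  constructor <;> linarith

/-- the first bound -/
lemma dd_small {a η : ℝ} (ha : 0 < a) (haη : a ≤ η) (hη1 : η ≤ 1) (y : ℝ) : ‖ps (dd a η) y‖ ≤ Real.exp 1 * η := by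
  have hη : 0 < η := by linarith
  refine (ps_bd y).trans ?_
  have h1 : ∀ x : ℝ, |dd a η x| * Real.exp x ≤ indicator (Icc (1 - η) 1) (fun _ => Real.exp 1) x := by
    intro x
    by_cases hx : x ∈ Icc (1 - η) 1
    · rw [indicator_of_mem hx]
      have h2 := dd_abs a η ha haη hη1 x
      have h3 := Real.exp_le_exp.mpr hx.2
      nlinarith [Real.exp_pos x, Real.exp_pos 1, abs_nonneg (dd a η x)]
    · rw [indicator_of_notMem hx, dd_out ha haη hη1, abs_zero, zero_mul]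
      by_contra hcon
      push Not at hcon
      exact hx ⟨hcon.1.le, hcon.2.le⟩
  have h4 : Integrable (indicator (Icc (1 - η) 1) fun _ : ℝ => Real.exp 1) := by
    rw [integrable_indicator_iff measurableSet_Icc]
    exact integrableOn_const (by simp) (by simp)
  refine (integral_mono (ps_abs_int (dd_Sm ha hη).cont (dd_Sm ha hη).2) h4 h1).trans (le_of_eq ?_)
  rw [integral_indicator measurableSet_Icc, setIntegral_const, smul_eq_mul, Measure.real, Real.volume_Icc, ENNReal.toReal_ofReal (by linarith)]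
  ring

/-- the decay -/
theorem dd_dec (m : ℕ) : ∃ C : ℝ, 0 ≤ C ∧ ∀ a η : ℝ, 0 < a → a ≤ η → η ≤ 1 → ∀ y : ℝ,
    (1 + |y|) * ((a * (1 + |y|)) ^ m * ‖ps (dd a η) y‖) ≤ C := by
  obtain ⟨C, hC, hb⟩ := sc_dec m dG_Sm (fun u hu => dG_zero hu)
  refine ⟨4 * C, by positivity, fun a η ha haη hη1 y => ?_⟩
  have hη : 0 < η := by linarith
  have hd := dd_Sm ha hη
  have e1 : deriv (dd a η) = fun x => η⁻¹ * deriv G0 ((x - 1) / η) - a⁻¹ * deriv G0 ((x - 1) / a) := by
    have e2 : dd a η = fun x => G0 ((x - 1) / η) - G0 ((x - 1) / a) := funext fun x => dd_eq ha haη hη1 x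
    have hG : Differentiable ℝ G0 := G0_smooth.differentiable (by simp)
    have e3 := sc_deriv hG η
    have e4 := sc_deriv hG a
    funext x
    rw [e2, deriv_fun_sub, congrFun e3 x, congrFun e4 x]
    · exact (hG _).comp (f := fun x : ℝ => (x - 1) / η) x (by fun_prop)
    · exact (hG _).comp (f := fun x : ℝ => (x - 1) / a) x (by fun_prop)
  have hs1 := sc_Sm dG_Sm (fun u hu => dG_zero hu) hη
  have hs2 := sc_Sm dG_Sm (fun u hu => dG_zero hu) ha
  have hs1' : Sm fun x => η⁻¹ * deriv G0 ((x - 1) / η) := ⟨contDiff_const.mul hs1.1, hs1.2.mul_left⟩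
  have hs2' : Sm fun x => a⁻¹ * deriv G0 ((x - 1) / a) := ⟨contDiff_const.mul hs2.1, hs2.2.mul_left⟩
  have e5 := ps_deriv hd y
  rw [e1, ps_sub hs1' hs2', ps_cmul, ps_cmul] at e5
  have h1 := hb η hη hη1 y
  have h2 := hb a ha (haη.trans hη1) y
  have hy : 0 ≤ a * (1 + |y|) := by positivity
  have h3 : (a * (1 + |y|)) ^ m * ‖ps (fun x => deriv G0 ((x - 1) / η)) y‖ ≤ C * η := by
    refine le_trans (mul_le_mul_of_nonneg_right (pow_le_pow_left₀ hy ?_ m) (norm_nonneg _)) h1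
    exact mul_le_mul_of_nonneg_right haη (by positivity)
  have h4 : ‖(1:ℂ) + y * Complex.I‖ * ‖ps (dd a η) y‖ ≤ η⁻¹ * ‖ps (fun x => deriv G0 ((x - 1) / η)) y‖ + a⁻¹ * ‖ps (fun x => deriv G0 ((x - 1) / a)) y‖ := by
    have h5 := congrArg norm e5
    rw [norm_neg, norm_mul] at h5
    rw [← h5]
    refine (norm_sub_le _ _).trans (le_of_eq ?_)
    rw [norm_mul, norm_mul, Complex.norm_real, Complex.norm_real, Real.norm_of_nonneg (by positivity), Real.norm_of_nonneg (by positivity)]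
  have h5 := one_add_norm y
  have h6 : (1 + |y|) * ‖ps (dd a η) y‖ ≤ 2 * (η⁻¹ * ‖ps (fun x => deriv G0 ((x - 1) / η)) y‖ + a⁻¹ * ‖ps (fun x => deriv G0 ((x - 1) / a)) y‖) := by
    have h7 := mul_le_mul_of_nonneg_right h5 (norm_nonneg (ps (dd a η) y))
    linarith
  have h8 := mul_le_mul_of_nonneg_left h6 (pow_nonneg hy m)
  have h9 : η⁻¹ * ((a * (1 + |y|)) ^ m * ‖ps (fun x => deriv G0 ((x - 1) / η)) y‖) ≤ C := by
    have := mul_le_mul_of_nonneg_left h3 (inv_nonneg.mpr hη.le)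
    refine this.trans (le_of_eq ?_)
    field_simp
  have h10 : a⁻¹ * ((a * (1 + |y|)) ^ m * ‖ps (fun x => deriv G0 ((x - 1) / a)) y‖) ≤ C := by
    have := mul_le_mul_of_nonneg_left h2 (inv_nonneg.mpr ha.le)
    refine this.trans (le_of_eq ?_)
    field_simp
  calc (1 + |y|) * ((a * (1 + |y|)) ^ m * ‖ps (dd a η) y‖) = (a * (1 + |y|)) ^ m * ((1 + |y|) * ‖ps (dd a η) y‖) := by ring
    _ ≤ _ := h8
    _ = 2 * (η⁻¹ * ((a * (1 + |y|)) ^ m * ‖ps (fun x => deriv G0 ((x - 1) / η)) y‖)) + 2 * (a⁻¹ * ((a * (1 + |y|)) ^ m * ‖ps (fun x => deriv G0 ((x - 1) / a)) y‖)) := by ring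
    _ ≤ 4 * C := by linarith

end Pool.Agent.H470
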