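import Pool.Agent.H470.To16

set_option autoImplicit false

/-! The sum over the blocks. -/

namespace Pool.Agent.H470

open MeasureTheory Filter Topology ProbabilityTheory Set
open scoped ENNReal

/-- the one point bound -/
theorem Iw_jen {k : ℝ} (hk : 1 / 2 ≤ k) : ∃ C : ℝ, 0 < C ∧ ∀ x : ℝ, 0 < x → x ≤ 1 → ∀ w : ℝ → ℂ, Measurable w → Integrable w →
    mk k (Iw w x) ≤ (∫ y, ‖w y‖) ^ (2 * k) * (C * x ^ (-k ^ 2)) := by
  obtain ⟨C, hC, h⟩ := EFw k
  have hk0 : 0 < k := by linarith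
  refine ⟨C, hC, fun x hx hx1 w hw hi => ?_⟩
  refine mk_le hk0 (Iw_gd hw hi hx) (by positivity) ?_
  have h1 : ∀ ω, ‖Iw w x ω‖ₑ ^ (2 * k) ≤ (∫⁻ y, ‖w y‖ₑ) ^ (2 * k - 1) * ∫⁻ y, ‖w y‖ₑ * ‖Fp x y ω‖ₑ ^ (2 * k) := by
    intro ω
    have h2 := jen volume (p := 2 * k) (w := fun y => ‖w y‖ₑ) (f := fun y => ‖Fp x y ω‖ₑ) (by linarith) hw.enorm.aemeasurable (Fp_contY hx ω).measurable.enorm.aemeasurable
    refine le_trans (ENNReal.rpow_le_rpow ?_ (by linarith)) h2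
    unfold Iw
    refine (enorm_integral_le_lintegral_enorm _).trans (le_of_eq (lintegral_congr fun y => ?_))
    rw [enorm_mul]
  refine (lintegral_mono h1).trans ?_
  have hA : ∫⁻ y, ‖w y‖ₑ = ENNReal.ofReal (∫ y, ‖w y‖) := by
    rw [ofReal_integral_eq_lintegral_ofReal hi.norm (Eventually.of_forall fun y => norm_nonneg _)]
    refine lintegral_congr fun y => ?_
    rw [ofReal_norm]
  have hAt : ∫⁻ y, ‖w y‖ₑ ≠ ∞ := by rw [hA]; exact ENNReal.ofReal_ne_top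
  rw [lintegral_const_mul' _ _ (ENNReal.rpow_ne_top_of_nonneg (by linarith) hAt)]
  have hm : Measurable fun q : (ℕ → ℝ) × ℝ => ‖w q.2‖ₑ * ‖Fp x q.2 q.1‖ₑ ^ (2 * k) :=
    (hw.comp (f := fun q : (ℕ → ℝ) × ℝ => q.2) measurable_snd).enorm.mul ((Fp_meas2 x).enorm.pow_const _)
  rw [lintegral_lintegral_swap (μ := tm) (ν := volume) (f := fun ω y => ‖w y‖ₑ * ‖Fp x y ω‖ₑ ^ (2 * k)) hm.aemeasurable]
  have h3 : ∫⁻ y, ∫⁻ ω, ‖w y‖ₑ * ‖Fp x y ω‖ₑ ^ (2 * k) ∂tm ≤ ∫⁻ y, ‖w y‖ₑ * ENNReal.ofReal (C * x ^ (-k ^ 2)) := by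
    refine lintegral_mono fun y => ?_
    rw [lintegral_const_mul' _ _ enorm_ne_top]
    refine mul_le_mul_right ?_ _
    have h4 := h x hx hx1 (1 + (y:ℂ) * Complex.I) (by norm_num) (by norm_num)
    simp_rw [Fw_line] at h4
    exact h4
  refine (mul_le_mul_right h3 _).trans (le_of_eq ?_)
  rw [lintegral_mul_const' _ _ ENNReal.ofReal_ne_top, ← mul_assoc]
  have hA0 : 0 ≤ ∫ y, ‖w y‖ := integral_nonneg fun y => norm_nonneg _
  rw [hA, ENNReal.ofReal_rpow_of_nonneg hA0 (by linarith), ← ENNReal.ofReal_mul (by positivity), ← ENNReal.ofReal_mul (by positivity)]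
  congr 1
  congr 1
  rcases eq_or_lt_of_le hA0 with h5 | h5
  · rw [← h5, mul_zero, Real.zero_rpow (by positivity)]
  · nth_rewrite 2 [← Real.rpow_one (∫ y, ‖w y‖)]
    rw [← Real.rpow_add h5]
    congr 1
    ring

/-- low moments from the second moment -/
lemma mk_two {k : ℝ} (hk : 0 < k) (hk1 : k ≤ 1) {f : (ℕ → ℝ) → ℂ} (hf : Gd f) : mk k f ≤ mk 1 f ^ k := by
  have h1 := jen tm (p := 1 / k) (w := fun _ => 1) (f := fun ω => ‖f ω‖ₑ ^ (2 * k)) (by rw [le_div_iff₀ hk]; linarith) aemeasurable_const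
    (hf.1.enorm.pow_const _).aemeasurable
  simp only [one_mul, lintegral_const, measure_univ, mul_one, ENNReal.one_rpow] at h1
  have e1 : ∀ ω, (‖f ω‖ₑ ^ (2 * k)) ^ (1 / k) = ‖f ω‖ₑ ^ (2 * (1:ℝ)) := by
    intro ω
    rw [← ENNReal.rpow_mul]
    congr 1
    field_simp
  simp_rw [e1] at h1
  rw [mk_lint hk hf, mk_lint one_pos hf, ENNReal.ofReal_rpow_of_nonneg (mk_nonneg _ _) (by positivity), ENNReal.ofReal_le_ofReal_iff (mk_nonneg _ _)] at h1
  have h2 := Real.rpow_le_rpow (Real.rpow_nonneg (mk_nonneg _ _) _) h1 hk.le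
  rwa [← Real.rpow_mul (mk_nonneg _ _), one_div_mul_cancel hk.ne', Real.rpow_one] at h2

lemma nr_le {k x : ℝ} (hk : 0 < k) (hx : 0 ≤ x) {f : (ℕ → ℝ) → ℂ} {m : ℝ} (h : mk k f ≤ m) : nr k x f ≤ ((2 * x) ^ (k ^ 2) * m) ^ kp k := by
  unfold nr
  exact Real.rpow_le_rpow (mul_nonneg (by positivity) (mk_nonneg _ _)) (mul_le_mul_of_nonneg_left h (by positivity)) (kp_pos hk).le

lemma ind_meas (S : Set ℝ) (hS : MeasurableSet S) {w : ℝ → ℂ} (hw : Measurable w) : Measurable (indicator S w) := hw.indicator hS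

/-- the inner region -/
def Bl (R : ℝ) : Set ℝ := {y | |y| ≤ R}

lemma Bl_meas (R : ℝ) : MeasurableSet (Bl R) := (isClosed_le continuous_abs continuous_const).measurableSet

/-- the sum over the blocks -/
theorem blk_sum {k : ℝ} (hk : 0 < k) (hk1 : k < 1) (K : ℝ) : ∃ M : ℝ, 0 < M ∧ ∀ x : ℝ, 0 < x → x ≤ 1 → ∀ Y : ℝ, 1 ≤ Y →
    ∀ w : ℝ → ℂ, Measurable w → Integrable w → (∀ y, ‖w y‖ ≤ K / Y) → (∀ y, ‖w y‖ * |y| ≤ K) → ∀ J : ℕ, x * (2 ^ J * Y) ≤ 1 / 2 →
    nr k x (Iw (indicator (Bl (2 ^ J * Y)) w) x) ≤ M * Y ^ (-(k ^ 2 / 2 * kp k)) := by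
  obtain ⟨C, hC, hb⟩ := blk hk hk1
  have hkp := kp_pos hk
  obtain ⟨θ, hθ⟩ : ∃ θ : ℝ, θ = k ^ 2 / 2 * kp k := ⟨_, rfl⟩
  have hθ0 : 0 < θ := by rw [hθ]; positivity
  obtain ⟨M0, hM0⟩ : ∃ M0 : ℝ, M0 = (2 ^ (k ^ 2) * C * (2 * |K|) ^ (2 * k)) ^ kp k := ⟨_, rfl⟩
  have hM00 : 0 ≤ M0 := by rw [hM0]; positivity
  obtain ⟨q, hq⟩ : ∃ q : ℝ, q = 2 ^ (-θ) := ⟨_, rfl⟩
  have hq0 : 0 < q := by rw [hq]; positivity
  have hq1 : q < 1 := by rw [hq]; exact Real.rpow_lt_one_of_one_lt_of_neg (by norm_num) (by linarith)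
  refine ⟨M0 * (1 - q)⁻¹ + 1, by have : 0 < 1 - q := by linarith
                                 positivity, fun x hx hx1 Y hY w hw hi hw1 hw2 J hJ => ?_⟩
  have hY0 : 0 < Y := by linarith
  have hK0 : 0 ≤ K := by
    have h1 := (norm_nonneg _).trans (hw1 0)
    rw [div_nonneg_iff] at h1
    rcases h1 with h1 | h1
    · exact h1.1
    · linarith [h1.2]
  rw [← hθ]
  -- one block
  have hone : ∀ R : ℝ, 1 ≤ R → x * R ≤ 1 / 2 → ∀ v : ℝ → ℂ, Measurable v → (∀ y, ‖v y‖ ≤ 2 * K / R) → (∀ y, R < |y| → v y = 0) →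
      nr k x (Iw v x) ≤ M0 * R ^ (-θ) := by
    intro R hR hxR v hv hv1 hv2
    have hR0 : 0 < R := by linarith
    have h1 := hb x hx hx1 R hR hxR (2 * K / R) (by positivity) v hv hv1 hv2
    refine (nr_le hk hx.le h1).trans (le_of_eq ?_)
    have e1 : 2 * K / R * R = 2 * K := by field_simp
    have e2 : x ^ (k ^ 2) * x ^ (-k ^ 2) = 1 := by
      rw [← Real.rpow_add hx, add_neg_cancel, Real.rpow_zero]
    rw [e1, Real.mul_rpow (by norm_num) hx.le]
    have e3 : 2 ^ (k ^ 2) * x ^ (k ^ 2) * (C * x ^ (-k ^ 2) * (2 * K) ^ (2 * k) * R ^ (-(k ^ 2 / 2))) = 2 ^ (k ^ 2) * C * (2 * |K|) ^ (2 * k) * R ^ (-(k ^ 2 / 2)) := by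
      rw [abs_of_nonneg hK0]
      linear_combination 2 ^ (k ^ 2) * C * (2 * K) ^ (2 * k) * R ^ (-(k ^ 2 / 2)) * e2
    rw [e3, Real.mul_rpow (by positivity) (by positivity), ← hM0, ← Real.rpow_mul hR0.le, hθ]
    congr 2
    ring
  have hind : ∀ J : ℕ, x * (2 ^ J * Y) ≤ 1 / 2 → nr k x (Iw (indicator (Bl (2 ^ J * Y)) w) x) ≤ ∑ j ∈ Finset.range (J + 1), M0 * (Y ^ (-θ) * q ^ j) := by
    intro J
    induction J with
    | zero =>
      intro hJ
      rw [pow_zero, one_mul] at hJ ⊢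
      simp only [zero_add, Finset.range_one, Finset.sum_singleton, pow_zero, mul_one]
      refine hone Y hY hJ _ (ind_meas _ (Bl_meas _) hw) (fun y => ?_) (fun y hy => ?_)
      · refine (norm_indicator_le_norm_self _ _).trans ((hw1 y).trans ?_)
        rw [div_le_div_iff_of_pos_right hY0]
        linarith
      · rw [indicator_of_notMem]
        exact not_le.mpr hy
    | succ J ih =>
      intro hJ
      have h2J : (0:ℝ) < 2 ^ J := by positivity
      have hRR : 2 ^ J * Y ≤ 2 ^ (J + 1) * Y := by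
        rw [pow_succ]
        nlinarith
      have hJ' : x * (2 ^ J * Y) ≤ 1 / 2 := (mul_le_mul_of_nonneg_left hRR hx.le).trans hJ
      have h1 := ih hJ'
      have hR1 : 1 ≤ 2 ^ (J + 1) * Y := by
        have : (1:ℝ) ≤ 2 ^ (J + 1) := one_le_pow₀ (by norm_num)
        nlinarith
      obtain ⟨S, hS⟩ : ∃ S : Set ℝ, S = Bl (2 ^ (J + 1) * Y) \ Bl (2 ^ J * Y) := ⟨_, rfl⟩
      have hSm : MeasurableSet S := by rw [hS]; exact (Bl_meas _).diff (Bl_meas _)
      have h2 := hone (2 ^ (J + 1) * Y) hR1 hJ (indicator S w) (ind_meas _ hSm hw) (fun y => ?_) (fun y hy => ?_)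
      · have e1 : ∀ y, indicator (Bl (2 ^ (J + 1) * Y)) w y = indicator (Bl (2 ^ J * Y)) w y + indicator S w y := by
          intro y
          rw [hS]
          by_cases hy1 : y ∈ Bl (2 ^ J * Y)
          · have hy2 : y ∈ Bl (2 ^ (J + 1) * Y) := le_trans hy1 hRR
            rw [indicator_of_mem hy1, indicator_of_mem hy2, indicator_of_notMem (fun h => h.2 hy1), add_zero]
          · by_cases hy2 : y ∈ Bl (2 ^ (J + 1) * Y)
            · rw [indicator_of_notMem hy1, indicator_of_mem hy2, indicator_of_mem (show y ∈ Bl (2 ^ (J + 1) * Y) \ Bl (2 ^ J * Y) from ⟨hy2, hy1⟩), zero_add]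
            · rw [indicator_of_notMem hy1, indicator_of_notMem hy2, indicator_of_notMem (fun h => hy2 h.1), add_zero]
        have e2 : Iw (indicator (Bl (2 ^ (J + 1) * Y)) w) x = fun ω => Iw (indicator (Bl (2 ^ J * Y)) w) x ω + Iw (indicator S w) x ω := by
          funext ω
          rw [← Iw_add (hi.indicator (Bl_meas _)) (hi.indicator hSm) hx]
          congr 1
          funext y
          exact e1 y
        rw [e2, Finset.sum_range_succ]
        refine (nr_add hk hx.le (Iw_gd (ind_meas _ (Bl_meas _) hw) (hi.indicator (Bl_meas _)) hx) (Iw_gd (ind_meas _ hSm hw) (hi.indicator hSm) hx)).trans (add_le_add h1 (h2.trans (le_of_eq ?_)))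
        have e3 : (2 ^ (J + 1) * Y) ^ (-θ) = Y ^ (-θ) * q ^ (J + 1) := by
          rw [Real.mul_rpow (by positivity) hY0.le, hq, ← Real.rpow_natCast (2:ℝ) (J + 1), ← Real.rpow_natCast ((2:ℝ) ^ (-θ)) (J + 1), ← Real.rpow_mul (by norm_num),
            ← Real.rpow_mul (by norm_num), mul_comm]
          congr 2
          ring
        rw [e3]
      · by_cases hy : y ∈ S
        · rw [indicator_of_mem hy, le_div_iff₀ (by positivity)]
          rw [hS] at hy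
          have h3 : 2 ^ J * Y < |y| := not_le.mp hy.2
          have h4 := mul_le_mul_of_nonneg_left h3.le (norm_nonneg (w y))
          have h5 := hw2 y
          rw [pow_succ]
          linarith
        · rw [indicator_of_notMem hy, norm_zero]
          positivity
      · rw [indicator_of_notMem]
        rw [hS]
        exact fun h => (not_le.mpr hy) h.1
  refine (hind J hJ).trans ?_
  rw [← Finset.mul_sum, ← Finset.mul_sum]
  have hs : ∑ j ∈ Finset.range (J + 1), q ^ j ≤ (1 - q)⁻¹ := by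
    rw [← tsum_geometric_of_lt_one hq0.le hq1]
    exact (summable_geometric_of_lt_one hq0.le hq1).sum_le_tsum _ fun j _ => by positivity
  have hYθ : 0 < Y ^ (-θ) := by positivity
  calc M0 * (Y ^ (-θ) * ∑ j ∈ Finset.range (J + 1), q ^ j) ≤ M0 * (Y ^ (-θ) * (1 - q)⁻¹) := by gcongr
    _ = M0 * (1 - q)⁻¹ * Y ^ (-θ) := by ring
    _ ≤ (M0 * (1 - q)⁻¹ + 1) * Y ^ (-θ) := mul_le_mul_of_nonneg_right (by linarith) hYθ.le

end Pool.Agent.H470
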