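import Pool.Agent.H470.To17

set_option autoImplicit false

/-! The difference of plateaus for low exponents. -/

namespace Pool.Agent.H470

open MeasureTheory Filter Topology ProbabilityTheory Set
open scoped ENNReal

/-- the weight -/
noncomputable def dw (a η y : ℝ) : ℂ := ((1 / (2 * Real.pi) : ℝ) : ℂ) * ps (dd a η) y

lemma two_pi_le : ‖((1 / (2 * Real.pi) : ℝ) : ℂ)‖ ≤ 1 / 6 := by
  rw [Complex.norm_real, Real.norm_of_nonneg (by positivity), div_le_div_iff₀ (by positivity) (by norm_num)]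
  linarith [Real.pi_gt_three]

lemma dw_norm (a η y : ℝ) : ‖dw a η y‖ ≤ ‖ps (dd a η) y‖ / 6 := by
  unfold dw
  rw [norm_mul]
  have := mul_le_mul_of_nonneg_right two_pi_le (norm_nonneg (ps (dd a η) y))
  linarith

lemma dw_meas {a η : ℝ} (ha : 0 < a) (hη : 0 < η) : Measurable (dw a η) := by
  unfold dw
  exact (ps_cont (dd_Sm ha hη)).measurable.const_mul _

lemma dw_int {a η : ℝ} (ha : 0 < a) (hη : 0 < η) : Integrable (dw a η) := by
  unfold dw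
  exact (ps_integrable (dd_Sm ha hη)).const_mul _

/-- the tail -/
theorem dw_tail {k : ℝ} (hk : 0 < k) (hk1 : k < 1) : ∃ D : ℝ, 0 < D ∧ ∀ x : ℝ, 0 < x → x ≤ 1 → ∀ η : ℝ, x ^ (1 - k / 2) ≤ η → η ≤ 1 → ∀ R : ℝ, 1 / (4 * x) ≤ R →
    mk k (Iw (indicator (Bl R)ᶜ (dw (x ^ (1 - k / 2)) η)) x) ≤ D := by
  obtain ⟨n, hn⟩ : ∃ n : ℕ, 3 ≤ (n + 1 : ℝ) * k := by
    refine ⟨⌈3 / k⌉₊, ?_⟩
    have h1 := Nat.le_ceil (3 / k)
    rw [div_le_iff₀ hk] at h1
    nlinarith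
  obtain ⟨C, hC, hd⟩ := dd_dec (n + 1)
  obtain ⟨C2, hC2, h2⟩ := Iw_jen (k := 1) (by norm_num)
  refine ⟨((C * Real.pi * 4 ^ n) ^ 2 * C2) ^ k + 1, by positivity, fun x hx hx1 η haη hη1 R hR => ?_⟩
  obtain ⟨a, ha⟩ : ∃ a : ℝ, a = x ^ (1 - k / 2) := ⟨_, rfl⟩
  rw [← ha] at haη ⊢
  have ha0 : 0 < a := by rw [ha]; positivity
  have hη : 0 < η := by linarith
  have hR0 : 0 < R := lt_of_lt_of_le (by positivity) hR
  obtain ⟨v, hv⟩ : ∃ v : ℝ → ℂ, v = indicator (Bl R)ᶜ (dw a η) := ⟨_, rfl⟩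
  have hvm : Measurable v := by rw [hv]; exact (dw_meas ha0 hη).indicator (Bl_meas R).compl
  have hvi : Integrable v := by rw [hv]; exact (dw_int ha0 hη).indicator (Bl_meas R).compl
  obtain ⟨E, hE⟩ : ∃ E : ℝ, E = C * (a⁻¹) ^ (n + 1) * (R⁻¹) ^ n := ⟨_, rfl⟩
  have hE0 : 0 ≤ E := by rw [hE]; positivity
  have hvb : ∀ y, ‖v y‖ ≤ E * (1 + y ^ 2)⁻¹ := by
    intro y
    rw [hv]
    by_cases hy : y ∈ (Bl R)ᶜ
    · rw [indicator_of_mem hy]
      have hyR : R < |y| := not_le.mp hy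
      have h1 := hd a η ha0 haη hη1 y
      have h3 := dw_norm a η y
      have hy0 : 0 < 1 + |y| := by positivity
      have h4 : (1 + y ^ 2) * (a ^ (n + 1) * R ^ n) * ‖ps (dd a η) y‖ ≤ C := by
        refine le_trans (mul_le_mul_of_nonneg_right ?_ (norm_nonneg _)) (le_of_eq_of_le (by ring) h1 : (1 + |y|) * (a * (1 + |y|)) ^ (n + 1) * ‖ps (dd a η) y‖ ≤ C)
        have h5 : (1 + y ^ 2) ≤ (1 + |y|) ^ 2 := by
          have := sq_abs y
          nlinarith [abs_nonneg y]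
        have h6 : R ^ n ≤ (1 + |y|) ^ n := pow_le_pow_left₀ hR0.le (by linarith) n
        calc (1 + y ^ 2) * (a ^ (n + 1) * R ^ n) ≤ (1 + |y|) ^ 2 * (a ^ (n + 1) * (1 + |y|) ^ n) := by gcongr
          _ = (1 + |y|) * (a * (1 + |y|)) ^ (n + 1) := by rw [mul_pow]; ring
      have h7 : ‖ps (dd a η) y‖ ≤ E * (1 + y ^ 2)⁻¹ := by
        rw [hE, ← div_eq_mul_inv, le_div_iff₀ (by positivity)]
        have h8 : ‖ps (dd a η) y‖ * (1 + y ^ 2) = ((1 + y ^ 2) * (a ^ (n + 1) * R ^ n) * ‖ps (dd a η) y‖) * ((a⁻¹) ^ (n + 1) * (R⁻¹) ^ n) := by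
          rw [inv_pow, inv_pow]
          field_simp
        rw [h8, mul_assoc C]
        exact mul_le_mul_of_nonneg_right h4 (by positivity)
      have := norm_nonneg (ps (dd a η) y)
      linarith
    · rw [indicator_of_notMem hy, norm_zero]
      positivity
  have hint : ∫ y, ‖v y‖ ≤ E * Real.pi := by
    refine (integral_mono hvi.norm (integrable_inv_one_add_sq.const_mul E) hvb).trans (le_of_eq ?_)
    rw [integral_const_mul, integral_univ_inv_one_add_sq]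
  have hEx : E ≤ C * 4 ^ n * x ^ ((n + 1 : ℝ) * k / 2 - 1) := by
    have h1 : R⁻¹ ≤ 4 * x := by
      rw [inv_le_comm₀ hR0 (by positivity), ← one_div]
      exact hR
    have h3 : (R⁻¹) ^ n ≤ (4 * x) ^ n := pow_le_pow_left₀ (by positivity) h1 n
    have h4 : (a⁻¹) ^ (n + 1) * x ^ n = x ^ ((n + 1 : ℝ) * k / 2 - 1) := by
      rw [ha, ← Real.rpow_neg hx.le, ← Real.rpow_natCast (x ^ (-(1 - k / 2))) (n + 1), ← Real.rpow_mul hx.le, ← Real.rpow_natCast x n, ← Real.rpow_add hx]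
      congr 1
      push_cast
      ring
    calc E ≤ C * (a⁻¹) ^ (n + 1) * (4 * x) ^ n := by rw [hE]; gcongr
      _ = C * 4 ^ n * ((a⁻¹) ^ (n + 1) * x ^ n) := by ring
      _ = _ := by rw [h4]
  have h5 := h2 x hx hx1 v hvm hvi
  have hv0 : 0 ≤ ∫ y, ‖v y‖ := integral_nonneg fun y => norm_nonneg _
  have h6 : mk 1 (Iw v x) ≤ (C * Real.pi * 4 ^ n) ^ 2 * C2 := by
    refine h5.trans ?_
    have h7 : (∫ y, ‖v y‖) ^ (2 * (1:ℝ)) = (∫ y, ‖v y‖) ^ 2 := by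
      rw [← Real.rpow_natCast]
      norm_num
    have h8 : x ^ (-(1:ℝ) ^ 2) = x⁻¹ := by
      rw [one_pow, Real.rpow_neg_one]
    rw [h7, h8]
    have h9 : ∫ y, ‖v y‖ ≤ C * Real.pi * 4 ^ n * x ^ ((n + 1 : ℝ) * k / 2 - 1) := by
      refine hint.trans ((mul_le_mul_of_nonneg_right hEx Real.pi_pos.le).trans (le_of_eq (by ring)))
    have h10 := pow_le_pow_left₀ hv0 h9 2
    have h11 : (x ^ ((n + 1 : ℝ) * k / 2 - 1)) ^ 2 * x⁻¹ ≤ 1 := by
      rw [← Real.rpow_natCast, ← Real.rpow_mul hx.le, ← Real.rpow_neg_one x, ← Real.rpow_add hx]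
      refine Real.rpow_le_one hx.le hx1 ?_
      push_cast
      linarith
    calc (∫ y, ‖v y‖) ^ 2 * (C2 * x⁻¹) ≤ (C * Real.pi * 4 ^ n * x ^ ((n + 1 : ℝ) * k / 2 - 1)) ^ 2 * (C2 * x⁻¹) := mul_le_mul_of_nonneg_right h10 (by positivity)
      _ = (C * Real.pi * 4 ^ n) ^ 2 * C2 * ((x ^ ((n + 1 : ℝ) * k / 2 - 1)) ^ 2 * x⁻¹) := by ring
      _ ≤ (C * Real.pi * 4 ^ n) ^ 2 * C2 * 1 := mul_le_mul_of_nonneg_left h11 (by positivity)
      _ = _ := mul_one _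
  rw [← hv]
  refine (mk_two hk hk1.le (Iw_gd hvm hvi hx)).trans ?_
  have := Real.rpow_le_rpow (mk_nonneg _ _) h6 hk.le
  linarith

lemma nr_tail {k : ℝ} (hk : 0 < k) (D : ℝ) : Tendsto (fun x : ℝ => ((2 * x) ^ (k ^ 2) * D) ^ kp k) (𝓝[>] 0) (𝓝 0) := by
  have hkp := kp_pos hk
  have h1 : Tendsto (fun x : ℝ => ((2 * x) ^ (k ^ 2) * D) ^ kp k) (𝓝 0) (𝓝 (((2 * 0) ^ (k ^ 2) * D) ^ kp k)) := by
    have h2 : Tendsto (fun x : ℝ => (2 * x) ^ (k ^ 2)) (𝓝 0) (𝓝 ((2 * 0) ^ (k ^ 2))) :=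
      Tendsto.rpow_const (tendsto_id.const_mul 2) (Or.inr (by positivity))
    exact (h2.mul_const D).rpow_const (Or.inr hkp.le)
  rw [mul_zero, Real.zero_rpow (by positivity), zero_mul, Real.zero_rpow hkp.ne'] at h1
  exact h1.mono_left nhdsWithin_le_nhds

/-- the difference of plateaus is small -/
theorem dd_nr {k : ℝ} (hk : 0 < k) (hk1 : k < 1) {e : ℝ} (he : 0 < e) : ∃ η : ℝ, 0 < η ∧ η ≤ 1 / 2 ∧
    ∀ᶠ x : ℝ in 𝓝[>] 0, nr k x (Ig (dd (x ^ (1 - k / 2)) η) x) ≤ e := by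
  obtain ⟨D, hD, htail⟩ := dw_tail hk hk1
  obtain ⟨C, hC, hd⟩ := dd_dec 0
  obtain ⟨M, hM, hs⟩ := blk_sum hk hk1 (C + 1)
  have hkp := kp_pos hk
  obtain ⟨θ, hθ⟩ : ∃ θ : ℝ, θ = k ^ 2 / 2 * kp k := ⟨_, rfl⟩
  have hθ0 : 0 < θ := by rw [hθ]; positivity
  rw [← hθ] at hs
  obtain ⟨η, hη⟩ : ∃ η : ℝ, η = min (1 / 2) ((e / (2 * M)) ^ (1 / θ)) := ⟨_, rfl⟩
  have hη0 : 0 < η := by rw [hη]; positivity
  have hη1 : η ≤ 1 / 2 := by rw [hη]; exact min_le_left _ _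
  have hMη : M * η ^ θ ≤ e / 2 := by
    have h1 : η ^ θ ≤ e / (2 * M) := by
      refine (Real.rpow_le_rpow hη0.le (show η ≤ (e / (2 * M)) ^ (1 / θ) by rw [hη]; exact min_le_right _ _) hθ0.le).trans (le_of_eq ?_)
      rw [← Real.rpow_mul (by positivity), one_div_mul_cancel hθ0.ne', Real.rpow_one]
    have h2 := mul_le_mul_of_nonneg_left h1 hM.le
    refine h2.trans (le_of_eq ?_)
    field_simp
  refine ⟨η, hη0, hη1, ?_⟩
  have hlim1 : Tendsto (fun x : ℝ => x ^ (1 - k / 2)) (𝓝[>] 0) (𝓝 0) := by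
    have h1 : Tendsto (fun x : ℝ => x ^ (1 - k / 2)) (𝓝 0) (𝓝 (0 ^ (1 - k / 2))) := tendsto_id.rpow_const (Or.inr (by linarith))
    rw [Real.zero_rpow (by linarith)] at h1
    exact h1.mono_left nhdsWithin_le_nhds
  have hid : Tendsto (fun x : ℝ => x) (𝓝[>] 0) (𝓝 0) := tendsto_id.mono_left nhdsWithin_le_nhds
  filter_upwards [self_mem_nhdsWithin, hlim1.eventually (gt_mem_nhds hη0), (nr_tail hk D).eventually (gt_mem_nhds (show 0 < e / 2 by positivity)),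
    hid.eventually (gt_mem_nhds (show 0 < η / 2 by positivity))] with x hx0 hxa hxt hxη
  have hx : 0 < x := hx0
  have hx1 : x ≤ 1 := by linarith
  obtain ⟨a, ha⟩ : ∃ a : ℝ, a = x ^ (1 - k / 2) := ⟨_, rfl⟩
  have ha0 : 0 < a := by rw [ha]; positivity
  rw [← ha] at hxa ⊢
  -- the number of blocks
  have hxY : x * (1 / η) ≤ 1 / 2 := by
    rw [mul_one_div, div_le_iff₀ hη0]
    linarith
  obtain ⟨J, hJ1, hJ2⟩ := exists_nat_pow_near (x := 1 / (2 * (x * (1 / η)))) (y := 2) (by rw [le_div_iff₀ (by positivity)]; linarith) (by norm_num)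
  rw [le_div_iff₀ (by positivity)] at hJ1
  rw [div_lt_iff₀ (by positivity), pow_succ] at hJ2
  have hblk := hs x hx hx1 (1 / η) (by rw [le_div_iff₀ hη0]; linarith) (dw a η) (dw_meas ha0 hη0) (dw_int ha0 hη0) (fun y => by
      refine (dw_norm a η y).trans ?_
      have h1 := dd_small ha0 hxa.le (by linarith) y
      have h2 : (C + 1) / (1 / η) = (C + 1) * η := by field_simp
      rw [h2]
      have h3 := Real.exp_one_lt_d9
      nlinarith) (fun y => by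
      have h1 := hd a η ha0 hxa.le (by linarith) y
      rw [pow_zero, one_mul] at h1
      have h2 := dw_norm a η y
      have h3 := norm_nonneg (ps (dd a η) y)
      have h4 := mul_le_mul_of_nonneg_right h2 (abs_nonneg y)
      nlinarith [abs_nonneg y]) J (by linarith)
  have hR : 1 / (4 * x) ≤ 2 ^ J * (1 / η) := by
    rw [div_le_iff₀ (by positivity)]
    linarith
  have ht := htail x hx hx1 η (by rw [← ha]; exact hxa.le) (by linarith) _ hR
  rw [← ha] at ht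
  have e1 : Ig (dd a η) x = fun ω => Iw (indicator (Bl (2 ^ J * (1 / η))) (dw a η)) x ω + Iw (indicator (Bl (2 ^ J * (1 / η)))ᶜ (dw a η)) x ω := by
    funext ω
    rw [← Iw_add ((dw_int ha0 hη0).indicator (Bl_meas _)) ((dw_int ha0 hη0).indicator (Bl_meas _).compl) hx, Ig_Iw]
    congr 1
    funext y
    exact (indicator_self_add_compl_apply _ (dw a η) y).symm
  rw [e1]
  refine (nr_add hk hx.le (Iw_gd ((dw_meas ha0 hη0).indicator (Bl_meas _)) ((dw_int ha0 hη0).indicator (Bl_meas _)) hx)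
    (Iw_gd ((dw_meas ha0 hη0).indicator (Bl_meas _).compl) ((dw_int ha0 hη0).indicator (Bl_meas _).compl) hx)).trans ?_
  have h4 := nr_le hk hx.le ht
  have h5 : (1 / η) ^ (-θ) = η ^ θ := by
    rw [one_div, Real.inv_rpow hη0.le, Real.rpow_neg hη0.le, inv_inv]
  rw [h5] at hblk
  linarith

end Pool.Agent.H470
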