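import Pool.Agent.H470.To12

set_option autoImplicit false

/-! Orthogonality and the correspondence with time averages. -/

namespace Pool.Agent.H470

open MeasureTheory Filter Topology ProbabilityTheory Set Complex
open Pool.Agent.TH806 (ec ec_norm ec_cont uu integrable_uu ec_add ec_conj ec_nat int_ec)

lemma ch_set {n : ℕ} {I : Finset ℕ} (hI : n.factorization.support ⊆ I) (ω : ℕ → ℝ) : ch n ω = ∏ p ∈ I, ec ((n.factorization p : ℝ) * ω p) := by
  unfold ch
  rw [Finsupp.prod_of_support_subset _ hI _ fun p _ => pow_zero _]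
  exact Finset.prod_congr rfl fun p _ => (ec_nat _ _).symm

/-- orthogonality -/
theorem ch_orth {m n : ℕ} (hm : m ≠ 0) (hn : n ≠ 0) : ∫ ω, ch m ω * (starRingEnd ℂ) (ch n ω) ∂tm = if m = n then 1 else 0 := by
  classical
  obtain ⟨I, hI⟩ : ∃ I : Finset ℕ, I = m.factorization.support ∪ n.factorization.support := ⟨_, rfl⟩
  have h1 : m.factorization.support ⊆ I := by rw [hI]; exact Finset.subset_union_left
  have h2 : n.factorization.support ⊆ I := by rw [hI]; exact Finset.subset_union_right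
  have e1 : ∀ ω, ch m ω * (starRingEnd ℂ) (ch n ω) = ∏ p ∈ I, ec ((((m.factorization p : ℤ) - (n.factorization p : ℤ) : ℤ) : ℝ) * ω p) := by
    intro ω
    rw [ch_set h1, ch_set h2, map_prod, ← Finset.prod_mul_distrib]
    refine Finset.prod_congr rfl fun p _ => ?_
    rw [ec_conj, ← ec_add]
    congr 1
    push_cast
    ring
  simp_rw [e1]
  rw [prod_int I (g := fun p x => ec ((((m.factorization p : ℤ) - (n.factorization p : ℤ) : ℤ) : ℝ) * x)) (fun p => (ec_cont.comp (by fun_prop)).measurable)]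
  simp_rw [int_ec]
  split_ifs with h
  · refine Finset.prod_eq_one fun p _ => ?_
    rw [h, sub_self, if_pos rfl]
  · have h3 : m.factorization ≠ n.factorization := fun hc => h (Nat.eq_of_factorization_eq hm hn fun p => by rw [hc])
    obtain ⟨p, hp⟩ : ∃ p, m.factorization p ≠ n.factorization p := by
      by_contra hcon
      push Not at hcon
      exact h3 (Finsupp.ext hcon)
    have hpI : p ∈ I := by
      rw [hI, Finset.mem_union, Finsupp.mem_support_iff, Finsupp.mem_support_iff]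
      by_contra hcon
      push Not at hcon
      exact hp (by rw [hcon.1, hcon.2])
    refine Finset.prod_eq_zero hpI ?_
    rw [if_neg]
    intro hc
    exact hp (by omega)

lemma ch_int {m n : ℕ} (c : ℂ) : Integrable (fun ω => c * (ch m ω * (starRingEnd ℂ) (ch n ω))) tm := by
  have hc : Continuous fun ω => c * (ch m ω * (starRingEnd ℂ) (ch n ω)) := continuous_const.mul ((ch_cont m).mul (continuous_conj.comp (ch_cont n)))
  refine tm_int hc (B := ‖c‖) fun ω => ?_
  rw [norm_mul, norm_mul, Complex.norm_conj, ch_norm, ch_norm]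
  simp

/-- the second moment -/
theorem WS_sq (w : ℕ → ℝ) (N : ℕ) : mk 1 (WS w N) = ∑ n ∈ Finset.Icc 1 N, w n ^ 2 / n := by
  unfold mk
  have e1 : ∀ ω, ((‖WS w N ω‖ ^ (2 * (1:ℝ)) : ℝ) : ℂ) = ∑ m ∈ Finset.Icc 1 N, ∑ n ∈ Finset.Icc 1 N,
      (((w m : ℂ) * (m:ℂ) ^ (-(1 / 2) : ℂ)) * (starRingEnd ℂ) ((w n : ℂ) * (n:ℂ) ^ (-(1 / 2) : ℂ))) * (ch m ω * (starRingEnd ℂ) (ch n ω)) := by
    intro ω
    have e2 : ((‖WS w N ω‖ ^ (2 * (1:ℝ)) : ℝ) : ℂ) = WS w N ω * (starRingEnd ℂ) (WS w N ω) := by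
      rw [Complex.mul_conj, Complex.normSq_eq_norm_sq]
      norm_num
    rw [e2]
    unfold WS
    rw [map_sum, Finset.sum_mul_sum]
    refine Finset.sum_congr rfl fun m _ => Finset.sum_congr rfl fun n _ => ?_
    simp only [map_mul]
    ring
  have e3 : ((∫ ω, ‖WS w N ω‖ ^ (2 * (1:ℝ)) ∂tm : ℝ) : ℂ) = ((∑ n ∈ Finset.Icc 1 N, w n ^ 2 / n : ℝ) : ℂ) := by
    rw [← integral_complex_ofReal]
    simp_rw [e1]
    rw [integral_finsetSum _ fun m _ => integrable_finsetSum _ fun n _ => ch_int _, Complex.ofReal_sum]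
    refine Finset.sum_congr rfl fun m hm => ?_
    rw [Finset.mem_Icc] at hm
    rw [integral_finsetSum _ fun n _ => ch_int _]
    have e4 : ∀ n ∈ Finset.Icc 1 N, ∫ ω, (((w m : ℂ) * (m:ℂ) ^ (-(1 / 2) : ℂ)) * (starRingEnd ℂ) ((w n : ℂ) * (n:ℂ) ^ (-(1 / 2) : ℂ))) * (ch m ω * (starRingEnd ℂ) (ch n ω)) ∂tm =
        if m = n then ((w m ^ 2 / m : ℝ) : ℂ) else 0 := by
      intro n hn
      rw [Finset.mem_Icc] at hn
      rw [integral_const_mul, ch_orth (by omega) (by omega)]
      split_ifs with h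
      · rw [mul_one, ← h, Complex.mul_conj, Complex.normSq_eq_norm_sq, norm_mul, Complex.norm_real, Complex.norm_natCast_cpow_of_pos (by omega)]
        congr 1
        rw [mul_pow, Real.norm_eq_abs, sq_abs, div_eq_mul_inv]
        congr 1
        rw [← Real.rpow_natCast, ← Real.rpow_mul (Nat.cast_nonneg _), ← Real.rpow_neg_one]
        congr 1
        norm_num
      · rw [mul_zero]
    rw [Finset.sum_congr rfl e4, Finset.sum_ite_eq, if_pos (Finset.mem_Icc.mpr hm)]
  exact_mod_cast e3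

/-- the unimodular powers -/
noncomputable def tn (n : ℕ) (t : ℝ) : ℂ := (n:ℂ) ^ (-(I * (t:ℂ)))

lemma tn_eq {n : ℕ} (hn : n ≠ 0) (t : ℝ) : tn n t = cexp (((-(Real.log n * t) : ℝ) : ℂ) * I) := by
  unfold tn
  rw [Complex.cpow_def_of_ne_zero (by exact_mod_cast hn), ← Complex.natCast_log]
  congr 1
  push_cast
  ring

lemma tn_mul {m n : ℕ} (t : ℝ) : tn (m * n) t = tn m t * tn n t := by
  unfold tn
  push_cast
  rw [Complex.natCast_mul_natCast_cpow]

lemma tn_one (t : ℝ) : tn 1 t = 1 := by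
  unfold tn
  simp

lemma tn_norm {n : ℕ} (hn : n ≠ 0) (t : ℝ) : ‖tn n t‖ = 1 := by
  rw [tn_eq hn]
  exact Complex.norm_exp_ofReal_mul_I _

lemma tn_cont {n : ℕ} (hn : n ≠ 0) : Continuous (tn n) := by
  rw [funext (tn_eq hn)]
  fun_prop

/-- the mean of a frequency -/
lemma tn_mean {m n : ℕ} (hm : m ≠ 0) (hn : n ≠ 0) : Tendsto (fun T : ℝ => ((1 / T : ℝ) : ℂ) * ∫ t in (0:ℝ)..T, tn m t * (starRingEnd ℂ) (tn n t)) atTop
    (𝓝 (if m = n then 1 else 0)) := by
  obtain ⟨d, hd⟩ : ∃ d : ℝ, d = Real.log n - Real.log m := ⟨_, rfl⟩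
  have e1 : ∀ t : ℝ, tn m t * (starRingEnd ℂ) (tn n t) = cexp (((d:ℂ) * I) * (t:ℂ)) := by
    intro t
    rw [tn_eq hm, tn_eq hn, ← Complex.exp_conj, ← Complex.exp_add, map_mul, Complex.conj_ofReal, Complex.conj_I, hd]
    congr 1
    push_cast
    ring
  simp_rw [e1]
  split_ifs with h
  · have hd0 : d = 0 := by rw [hd, h, sub_self]
    refine tendsto_const_nhds.congr' ?_
    filter_upwards [eventually_gt_atTop 0] with T hT
    have hTc : (T:ℂ) ≠ 0 := by exact_mod_cast hT.ne'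
    rw [hd0]
    simp
    field_simp
  · have hd0 : d ≠ 0 := by
      rw [hd]
      intro hc
      have hm0 : (0:ℝ) < m := by exact_mod_cast Nat.pos_of_ne_zero hm
      have hn0 : (0:ℝ) < n := by exact_mod_cast Nat.pos_of_ne_zero hn
      have h1 : Real.log m = Real.log n := by linarith
      have h2 := Real.log_injOn_pos (Set.mem_Ioi.mpr hm0) (Set.mem_Ioi.mpr hn0) h1
      exact h (by exact_mod_cast h2)
    have hdc : (d:ℂ) * I ≠ 0 := mul_ne_zero (by exact_mod_cast hd0) I_ne_zero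
    have hb : ∀ T : ℝ, 0 < T → ‖((1 / T : ℝ) : ℂ) * ∫ t in (0:ℝ)..T, cexp (((d:ℂ) * I) * (t:ℂ))‖ ≤ 2 / |d| * (1 / T) := by
      intro T hT
      rw [integral_exp_mul_complex hdc, norm_mul, norm_div, Complex.norm_real, Real.norm_of_nonneg (by positivity)]
      have h1 : ‖(d:ℂ) * I‖ = |d| := by rw [norm_mul, Complex.norm_I, mul_one, Complex.norm_real, Real.norm_eq_abs]
      rw [h1]
      have h2 : ‖cexp ((d:ℂ) * I * (T:ℂ)) - cexp ((d:ℂ) * I * ((0:ℝ):ℂ))‖ ≤ 2 := by
        refine (norm_sub_le _ _).trans ?_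
        have h3 : ‖cexp ((d:ℂ) * I * (T:ℂ))‖ = 1 := by
          rw [Complex.norm_exp]
          simp
        have h4 : ‖cexp ((d:ℂ) * I * ((0:ℝ):ℂ))‖ = 1 := by simp
        rw [h3, h4]
        norm_num
      have hd1 : 0 < |d| := abs_pos.mpr hd0
      have h5 : ‖cexp ((d:ℂ) * I * (T:ℂ)) - cexp ((d:ℂ) * I * ((0:ℝ):ℂ))‖ / |d| ≤ 2 / |d| := div_le_div_of_nonneg_right h2 hd1.le
      have h6 := mul_le_mul_of_nonneg_left h5 (show 0 ≤ 1 / T by positivity)
      linarith
    have hlim : Tendsto (fun T : ℝ => 2 / |d| * (1 / T)) atTop (𝓝 0) := by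
      have h1 : Tendsto (fun T : ℝ => 1 / T) atTop (𝓝 0) := by
        simp_rw [one_div]
        exact tendsto_inv_atTop_zero
      have := h1.const_mul (2 / |d|)
      rwa [mul_zero] at this
    exact squeeze_zero_norm' ((eventually_gt_atTop 0).mono fun T hT => hb T hT) hlim

end Pool.Agent.H470
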