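import Pool.Agent.H470.To1

set_option autoImplicit false

/-! The random Euler product. -/

namespace Pool.Agent.H470

open MeasureTheory Filter Topology Set Complex ProbabilityTheory
open Pool.Agent.TH806 (ec ec_norm ec_cont ec_nat ec_conj uu int_ec integrable_uu)

/-- the uniform measure on the torus -/
noncomputable def tm : Measure (ℕ → ℝ) := Measure.infinitePi fun _ => uu

instance : IsProbabilityMeasure tm := by unfold tm; infer_instance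

/-- integrals of products -/
theorem prod_int (I : Finset ℕ) {g : ℕ → ℝ → ℂ} (hg : ∀ p, Measurable (g p)) :
    ∫ ω, ∏ p ∈ I, g p (ω p) ∂tm = ∏ p ∈ I, ∫ x, g p x ∂uu := by
  have h1 : iIndepFun (fun (i : ℕ) (ω : ℕ → ℝ) => ω i) tm := by
    unfold tm
    exact iIndepFun_infinitePi (X := fun _ x => x) (by fun_prop)
  have h2 : iIndepFun (fun (i : I) (ω : ℕ → ℝ) => ω i) tm := h1.precomp Subtype.val_injective
  have h3 := h2.integral_fun_prod_comp (f := fun i : I => g i) (fun i => (measurable_pi_apply _).aemeasurable)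
    (fun i => (hg i).aestronglyMeasurable)
  have e1 : ∀ ω : ℕ → ℝ, ∏ i : I, g i (ω i) = ∏ p ∈ I, g p (ω p) := fun ω => Finset.prod_coe_sort I (fun p => g p (ω p))
  simp_rw [e1] at h3
  rw [h3, ← Finset.prod_coe_sort I (fun p => ∫ x, g p x ∂uu)]
  refine Finset.prod_congr rfl fun i _ => ?_
  have h4 := measurePreserving_eval_infinitePi (fun _ : ℕ => uu) (i : ℕ)
  have h6 : ∫ ω, g i (ω (i : ℕ)) ∂tm = ∫ x, g i x ∂(tm.map (Function.eval (i:ℕ))) :=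
    (integral_map (measurable_pi_apply _).aemeasurable (hg i).aestronglyMeasurable).symm
  rw [h6]
  unfold tm
  rw [h4.map_eq]

/-- the logarithm of the random Euler product -/
noncomputable def Xs (I : Finset ℕ) (s : ℂ) (ω : ℕ → ℝ) : ℂ := ∑ p ∈ I, el ((p:ℂ) ^ (-s) * ec (ω p))

lemma pw_norm {p : ℕ} (hp : 2 ≤ p) (s : ℂ) : ‖(p:ℂ) ^ (-s)‖ = (p:ℝ) ^ (-s.re) := by
  rw [Complex.norm_natCast_cpow_of_pos (by omega)]
  simp

lemma pw_lt {p : ℕ} (hp : 2 ≤ p) {s : ℂ} (hs : 0 < s.re) : ‖(p:ℂ) ^ (-s)‖ < 1 := by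
  rw [pw_norm hp]
  exact Real.rpow_lt_one_of_one_lt_of_neg (by exact_mod_cast hp) (by linarith)

lemma arg_lt {p : ℕ} (hp : 2 ≤ p) {s : ℂ} (hs : 0 < s.re) (x : ℝ) : ‖(p:ℂ) ^ (-s) * ec x‖ < 1 := by
  rw [norm_mul, ec_norm, mul_one]
  exact pw_lt hp hs

lemma el_bd' {z : ℂ} {r : ℝ} (hz : ‖z‖ ≤ r) (hr : r < 1) : ‖el z‖ ≤ r ^ 2 * (1 - r)⁻¹ / 2 + r := by
  have h0 := norm_nonneg z
  have h := Complex.norm_log_one_add_le (z := -z) (by rw [norm_neg]; linarith)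
  rw [norm_neg, ← sub_eq_add_neg] at h
  unfold el
  rw [norm_neg]
  refine h.trans ?_
  have h1 : (1 - ‖z‖)⁻¹ ≤ (1 - r)⁻¹ := inv_anti₀ (by linarith) (by linarith)
  have h2 : ‖z‖ ^ 2 * (1 - ‖z‖)⁻¹ ≤ r ^ 2 * (1 - r)⁻¹ := mul_le_mul (pow_le_pow_left₀ h0 hz 2) h1 (inv_nonneg.mpr (by linarith)) (by positivity)
  linarith

/-- joint continuity -/
lemma Xs_cont2 {I : Finset ℕ} (hI : ∀ p ∈ I, 2 ≤ p) {α : Type*} [TopologicalSpace α] {s : α → ℂ} (hs : Continuous s) (hs0 : ∀ a, 0 < (s a).re)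
    {v : α → ℕ → ℝ} (hv : Continuous v) : Continuous fun a => Xs I (s a) (v a) := by
  unfold Xs
  refine continuous_finsetSum _ fun p hp => ?_
  refine continuous_iff_continuousAt.mpr fun a => ?_
  refine ContinuousAt.comp (f := fun a => (p:ℂ) ^ (-s a) * ec (v a p)) (el_cont (arg_lt (hI p hp) (hs0 a) _)) ?_
  have hp0 : (p:ℂ) ≠ 0 := by
    have := hI p hp
    exact_mod_cast (by omega : p ≠ 0)
  have h1 : Continuous fun a => (p:ℂ) ^ (-s a) := Continuous.const_cpow hs.neg (Or.inl hp0)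
  have h2 : Continuous fun a => ec (v a p) := ec_cont.comp ((continuous_apply p).comp hv)
  exact (h1.mul h2).continuousAt

lemma Xs_cont {I : Finset ℕ} (hI : ∀ p ∈ I, 2 ≤ p) {s : ℂ} (hs : 0 < s.re) : Continuous (Xs I s) :=
  Xs_cont2 hI continuous_const (fun _ => hs) continuous_id

/-- a uniform bound -/
lemma Xs_bd {I : Finset ℕ} (hI : ∀ p ∈ I, 2 ≤ p) {σ : ℝ} (hσ : 0 < σ) : ∃ B : ℝ, 0 ≤ B ∧ ∀ s : ℂ, σ ≤ s.re → ∀ ω, ‖Xs I s ω‖ ≤ B := by
  refine ⟨∑ p ∈ I, (((p:ℝ) ^ (-σ)) ^ 2 * (1 - (p:ℝ) ^ (-σ))⁻¹ / 2 + (p:ℝ) ^ (-σ)), Finset.sum_nonneg fun p hp => ?_, fun s hs ω => ?_⟩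
  · have h1 : (p:ℝ) ^ (-σ) < 1 := Real.rpow_lt_one_of_one_lt_of_neg (by have := hI p hp; exact_mod_cast this) (by linarith)
    have h2 : 0 ≤ (1 - (p:ℝ) ^ (-σ))⁻¹ := inv_nonneg.mpr (by linarith)
    positivity
  · unfold Xs
    refine (norm_sum_le _ _).trans (Finset.sum_le_sum fun p hp => ?_)
    have h1 : (1:ℝ) < p := by have := hI p hp; exact_mod_cast this
    refine el_bd' ?_ (Real.rpow_lt_one_of_one_lt_of_neg h1 (by linarith))
    rw [norm_mul, ec_norm, mul_one, pw_norm (hI p hp)]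
    exact Real.rpow_le_rpow_of_exponent_le h1.le (by linarith)

variable {n : ℕ}

lemma lu_sum {I : Finset ℕ} (s α β : Fin n → ℂ) (ω : ℕ → ℝ) :
    ∑ j, (α j * Xs I (s j) ω + β j * (starRingEnd ℂ) (Xs I (s j) ω)) = ∑ p ∈ I, lu α β (fun j => (p:ℂ) ^ (-s j)) (ω p) := by
  unfold Xs lu
  rw [Finset.sum_comm]
  refine Finset.sum_congr rfl fun j _ => ?_
  rw [Finset.mul_sum, map_sum, Finset.mul_sum, ← Finset.sum_add_distrib]

/-- the moment generating function -/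
theorem mgf {I : Finset ℕ} (hI : ∀ p ∈ I, 2 ≤ p) {s : Fin n → ℂ} (hs : ∀ j, 0 < (s j).re) (α β : Fin n → ℂ) :
    ∫ ω, Complex.exp (∑ j, (α j * Xs I (s j) ω + β j * (starRingEnd ℂ) (Xs I (s j) ω))) ∂tm =
      ∏ p ∈ I, lf α β (fun j => (p:ℂ) ^ (-s j)) := by
  simp_rw [lu_sum, Complex.exp_sum]
  obtain ⟨g, hg⟩ : ∃ g : ℕ → ℝ → ℂ, ∀ p x, g p x = if p ∈ I then Complex.exp (lu α β (fun j => (p:ℂ) ^ (-s j)) x) else 1 := ⟨fun p x => _, fun _ _ => rfl⟩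
  have hgm : ∀ p, Measurable (g p) := by
    intro p
    by_cases hp : p ∈ I
    · have e : g p = fun x => Complex.exp (lu α β (fun j => (p:ℂ) ^ (-s j)) x) := by
        funext x
        rw [hg, if_pos hp]
      rw [e]
      exact (Complex.continuous_exp.comp (lu_cont fun j => pw_lt (hI p hp) (hs j))).measurable
    · have e : g p = fun x => 1 := by
        funext x
        rw [hg, if_neg hp]
      rw [e]
      exact measurable_const
  have h := prod_int I hgm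
  have e1 : ∀ ω : ℕ → ℝ, ∏ p ∈ I, g p (ω p) = ∏ p ∈ I, Complex.exp (lu α β (fun j => (p:ℂ) ^ (-s j)) (ω p)) := fun ω =>
    Finset.prod_congr rfl fun p hp => by rw [hg, if_pos hp]
  have e2 : ∏ p ∈ I, ∫ x, g p x ∂uu = ∏ p ∈ I, lf α β (fun j => (p:ℂ) ^ (-s j)) :=
    Finset.prod_congr rfl fun p hp => by
      unfold lf
      simp_rw [hg, if_pos hp]
  simp_rw [e1] at h
  rw [h, e2]

/-- the sum of the small terms -/
noncomputable def KS : ℝ := ∑' m : ℕ, (m:ℝ) ^ (-(27 / 20) : ℝ)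

lemma KS_sum (I : Finset ℕ) : ∑ p ∈ I, (p:ℝ) ^ (-(27 / 20) : ℝ) ≤ KS :=
  (Real.summable_nat_rpow.mpr (by norm_num)).sum_le_tsum I fun _ _ => by positivity

lemma KS_nonneg : 0 ≤ KS := tsum_nonneg fun _ => by positivity

lemma two_pow_le : (2:ℝ) ^ (-(9 / 20) : ℝ) ≤ 3 / 4 := by
  have h1 : (2:ℝ) ^ (-(9 / 20) : ℝ) = ((2:ℝ) ^ (-9 : ℝ)) ^ (1 / 20 : ℝ) := by
    rw [← Real.rpow_mul (by norm_num)]
    norm_num
  have h2 : (2:ℝ) ^ (-9 : ℝ) ≤ (3 / 4) ^ (20:ℝ) := by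
    rw [Real.rpow_neg (by norm_num)]
    norm_num
  rw [h1]
  refine (Real.rpow_le_rpow (by positivity) h2 (by norm_num)).trans (le_of_eq ?_)
  rw [← Real.rpow_mul (by norm_num)]
  norm_num

lemma pw_le {p : ℕ} (hp : 2 ≤ p) {s : ℂ} (hs : 9 / 20 ≤ s.re) : ‖(p:ℂ) ^ (-s)‖ ≤ (p:ℝ) ^ (-(9 / 20) : ℝ) := by
  rw [pw_norm hp]
  exact Real.rpow_le_rpow_of_exponent_le (by have : 1 ≤ p := by omega
                                             exact_mod_cast this) (by linarith)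

lemma p_pow_le {p : ℕ} (hp : 2 ≤ p) : (p:ℝ) ^ (-(9 / 20) : ℝ) ≤ 3 / 4 := by
  refine le_trans ?_ two_pow_le
  exact Real.rpow_le_rpow_of_nonpos (by norm_num) (by exact_mod_cast hp) (by norm_num)

/-- the norm of the moment generating function -/
theorem mgf_norm {I : Finset ℕ} (hI : ∀ p ∈ I, 2 ≤ p) {s : Fin n → ℂ} (hs : ∀ j, 9 / 20 ≤ (s j).re) {α β : Fin n → ℂ} {A : ℝ}
    (hα : ∑ j, ‖α j‖ ≤ A) (hβ : ∑ j, ‖β j‖ ≤ A) :
    ‖∫ ω, Complex.exp (∑ j, (α j * Xs I (s j) ω + β j * (starRingEnd ℂ) (Xs I (s j) ω))) ∂tm‖ ≤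
      Real.exp (∑ p ∈ I, ((∑ j, α j * (p:ℂ) ^ (-s j)) * ∑ j, β j * (starRingEnd ℂ) ((p:ℂ) ^ (-s j))).re + CN A * KS) := by
  have hA : 0 ≤ A := (Finset.sum_nonneg fun j _ => norm_nonneg _).trans hα
  have hCN := CN_nonneg hA
  rw [mgf hI (fun j => lt_of_lt_of_le (by norm_num) (hs j)), norm_prod]
  calc ∏ p ∈ I, ‖lf α β (fun j => (p:ℂ) ^ (-s j))‖
      ≤ ∏ p ∈ I, Real.exp (((∑ j, α j * (p:ℂ) ^ (-s j)) * ∑ j, β j * (starRingEnd ℂ) ((p:ℂ) ^ (-s j))).re + CN A * (p:ℝ) ^ (-(27 / 20) : ℝ)) := by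
        refine Finset.prod_le_prod (fun p _ => norm_nonneg _) fun p hp => ?_
        have h1 := lf_norm (α := α) (β := β) (z := fun j => (p:ℂ) ^ (-s j)) (A := A) (p_pow_le (hI p hp)) (fun j => pw_le (hI p hp) (hs j)) (by positivity) hα hβ
        have e1 : ((p:ℝ) ^ (-(9 / 20) : ℝ)) ^ 3 = (p:ℝ) ^ (-(27 / 20) : ℝ) := by
          rw [← Real.rpow_natCast, ← Real.rpow_mul (by positivity)]
          norm_num
        rwa [e1] at h1
    _ = Real.exp (∑ p ∈ I, (((∑ j, α j * (p:ℂ) ^ (-s j)) * ∑ j, β j * (starRingEnd ℂ) ((p:ℂ) ^ (-s j))).re + CN A * (p:ℝ) ^ (-(27 / 20) : ℝ))) :=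
        (Real.exp_sum _ _).symm
    _ ≤ _ := by
        refine Real.exp_le_exp.mpr ?_
        rw [Finset.sum_add_distrib, ← Finset.mul_sum]
        have := mul_le_mul_of_nonneg_left (KS_sum I) hCN
        linarith

end Pool.Agent.H470
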