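import Pool.Agent.H470.To19
import Pool.Agent.H470.Wp

set_option autoImplicit false

/-! Time averages of Dirichlet polynomials. -/

namespace Pool.Agent.H470

open MeasureTheory Filter Topology ProbabilityTheory Set Complex

/-- corresponding trigonometric polynomials -/
def Bp (f : ℝ → ℂ) (F : (ℕ → ℝ) → ℂ) : Prop :=
  ∃ (ι : Type) (_ : Fintype ι) (c : ι → ℂ) (a b : ι → ℕ), (∀ i, a i ≠ 0) ∧ (∀ i, b i ≠ 0) ∧
    (∀ t, f t = ∑ i, c i * (tn (a i) t * (starRingEnd ℂ) (tn (b i) t))) ∧ ∀ ω, F ω = ∑ i, c i * (ch (a i) ω * (starRingEnd ℂ) (ch (b i) ω))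

lemma Bp.const (c : ℂ) : Bp (fun _ => c) (fun _ => c) := by
  refine ⟨Unit, inferInstance, fun _ => c, fun _ => 1, fun _ => 1, fun _ => one_ne_zero, fun _ => one_ne_zero, fun t => ?_, fun ω => ?_⟩
  · simp [tn_one]
  · simp [ch_one]

lemma Bp.add {f g : ℝ → ℂ} {F G : (ℕ → ℝ) → ℂ} (h : Bp f F) (h' : Bp g G) : Bp (fun t => f t + g t) (fun ω => F ω + G ω) := by
  obtain ⟨ι, _, c, a, b, ha, hb, h1, h2⟩ := h
  obtain ⟨κ, _, c', a', b', ha', hb', h1', h2'⟩ := h'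
  refine ⟨ι ⊕ κ, inferInstance, Sum.elim c c', Sum.elim a a', Sum.elim b b', ?_, ?_, fun t => ?_, fun ω => ?_⟩
  · rintro (i | i)
    · exact ha i
    · exact ha' i
  · rintro (i | i)
    · exact hb i
    · exact hb' i
  · show f t + g t = _
    rw [Fintype.sum_sum_type, h1, h1']
    simp only [Sum.elim_inl, Sum.elim_inr]
  · show F ω + G ω = _
    rw [Fintype.sum_sum_type, h2, h2']
    simp only [Sum.elim_inl, Sum.elim_inr]

lemma Bp.mul {f g : ℝ → ℂ} {F G : (ℕ → ℝ) → ℂ} (h : Bp f F) (h' : Bp g G) : Bp (fun t => f t * g t) (fun ω => F ω * G ω) := by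
  obtain ⟨ι, _, c, a, b, ha, hb, h1, h2⟩ := h
  obtain ⟨κ, _, c', a', b', ha', hb', h1', h2'⟩ := h'
  refine ⟨ι × κ, inferInstance, fun p => c p.1 * c' p.2, fun p => a p.1 * a' p.2, fun p => b p.1 * b' p.2, fun p => mul_ne_zero (ha _) (ha' _),
    fun p => mul_ne_zero (hb _) (hb' _), fun t => ?_, fun ω => ?_⟩
  · show f t * g t = _
    rw [Fintype.sum_prod_type, h1, h1', Finset.sum_mul_sum]
    refine Finset.sum_congr rfl fun i _ => Finset.sum_congr rfl fun j _ => ?_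
    show _ = c i * c' j * (tn (a i * a' j) t * (starRingEnd ℂ) (tn (b i * b' j) t))
    rw [tn_mul, tn_mul, map_mul]
    ring
  · show F ω * G ω = _
    rw [Fintype.sum_prod_type, h2, h2', Finset.sum_mul_sum]
    refine Finset.sum_congr rfl fun i _ => Finset.sum_congr rfl fun j _ => ?_
    show _ = c i * c' j * (ch (a i * a' j) ω * (starRingEnd ℂ) (ch (b i * b' j) ω))
    rw [ch_mul (ha _) (ha' _), ch_mul (hb _) (hb' _), map_mul]
    ring

lemma Bp.conj {f : ℝ → ℂ} {F : (ℕ → ℝ) → ℂ} (h : Bp f F) : Bp (fun t => (starRingEnd ℂ) (f t)) (fun ω => (starRingEnd ℂ) (F ω)) := by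
  obtain ⟨ι, _, c, a, b, ha, hb, h1, h2⟩ := h
  refine ⟨ι, inferInstance, fun i => (starRingEnd ℂ) (c i), b, a, hb, ha, fun t => ?_, fun ω => ?_⟩
  · show (starRingEnd ℂ) (f t) = _
    rw [h1, map_sum]
    refine Finset.sum_congr rfl fun i _ => ?_
    rw [map_mul, map_mul, Complex.conj_conj]
    ring
  · show (starRingEnd ℂ) (F ω) = _
    rw [h2, map_sum]
    refine Finset.sum_congr rfl fun i _ => ?_
    rw [map_mul, map_mul, Complex.conj_conj]
    ring

lemma Bp.poly {f : ℝ → ℂ} {F : (ℕ → ℝ) → ℂ} (h : Bp f F) (p : Polynomial ℂ) : Bp (fun t => p.eval (f t)) (fun ω => p.eval (F ω)) := by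
  induction p using Polynomial.induction_on' with
  | add p q hp hq =>
    simp only [Polynomial.eval_add]
    exact hp.add hq
  | monomial n a =>
    simp only [Polynomial.eval_monomial]
    refine (Bp.const a).mul ?_
    induction n with
    | zero =>
      simp only [pow_zero]
      exact Bp.const 1
    | succ n ih =>
      simp only [pow_succ]
      exact ih.mul h

lemma Bp.cont {f : ℝ → ℂ} {F : (ℕ → ℝ) → ℂ} (h : Bp f F) : Continuous f := by
  obtain ⟨ι, _, c, a, b, ha, hb, h1, h2⟩ := h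
  rw [funext h1]
  refine continuous_finsetSum _ fun i _ => continuous_const.mul ((tn_cont (ha i)).mul (continuous_conj.comp (tn_cont (hb i))))

lemma Bp.contF {f : ℝ → ℂ} {F : (ℕ → ℝ) → ℂ} (h : Bp f F) : Continuous F := by
  obtain ⟨ι, _, c, a, b, ha, hb, h1, h2⟩ := h
  rw [funext h2]
  refine continuous_finsetSum _ fun i _ => continuous_const.mul ((ch_cont _).mul (continuous_conj.comp (ch_cont _)))

lemma Bp.bd {f : ℝ → ℂ} {F : (ℕ → ℝ) → ℂ} (h : Bp f F) : ∃ M : ℝ, 0 ≤ M ∧ (∀ t, ‖f t‖ ≤ M) ∧ ∀ ω, ‖F ω‖ ≤ M := by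
  obtain ⟨ι, _, c, a, b, ha, hb, h1, h2⟩ := h
  refine ⟨∑ i, ‖c i‖, Finset.sum_nonneg fun i _ => norm_nonneg _, fun t => ?_, fun ω => ?_⟩
  · rw [h1]
    refine (norm_sum_le _ _).trans (Finset.sum_le_sum fun i _ => ?_)
    rw [norm_mul, norm_mul, Complex.norm_conj, tn_norm (ha i), tn_norm (hb i)]
    simp
  · rw [h2]
    refine (norm_sum_le _ _).trans (Finset.sum_le_sum fun i _ => ?_)
    rw [norm_mul, norm_mul, Complex.norm_conj, ch_norm, ch_norm]
    simp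

lemma Bp.lim {f : ℝ → ℂ} {F : (ℕ → ℝ) → ℂ} (h : Bp f F) : Tendsto (fun T : ℝ => ((1 / T : ℝ) : ℂ) * ∫ t in (0:ℝ)..T, f t) atTop (𝓝 (∫ ω, F ω ∂tm)) := by
  obtain ⟨ι, _, c, a, b, ha, hb, h1, h2⟩ := h
  have e1 : ∀ T : ℝ, ((1 / T : ℝ) : ℂ) * ∫ t in (0:ℝ)..T, f t = ∑ i, c i * (((1 / T : ℝ) : ℂ) * ∫ t in (0:ℝ)..T, tn (a i) t * (starRingEnd ℂ) (tn (b i) t)) := by
    intro T
    have e2 : ∫ t in (0:ℝ)..T, f t = ∑ i, c i * ∫ t in (0:ℝ)..T, tn (a i) t * (starRingEnd ℂ) (tn (b i) t) := by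
      simp_rw [h1]
      rw [intervalIntegral.integral_finsetSum]
      · refine Finset.sum_congr rfl fun i _ => ?_
        rw [intervalIntegral.integral_const_mul]
      · intro i _
        exact (continuous_const.mul ((tn_cont (ha i)).mul (continuous_conj.comp (tn_cont (hb i))))).intervalIntegrable _ _
    rw [e2, Finset.mul_sum]
    refine Finset.sum_congr rfl fun i _ => ?_
    ring
  have e3 : ∫ ω, F ω ∂tm = ∑ i, c i * (if a i = b i then 1 else 0) := by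
    simp_rw [h2]
    rw [integral_finsetSum _ fun i _ => ch_int _]
    refine Finset.sum_congr rfl fun i _ => ?_
    rw [integral_const_mul, ch_orth (ha i) (hb i)]
  simp_rw [e1]
  rw [e3]
  exact tendsto_finsetSum _ fun i _ => (tn_mean (ha i) (hb i)).const_mul _

/-- time averages of powers -/
theorem Bp.pow {f : ℝ → ℂ} {F : (ℕ → ℝ) → ℂ} (h : Bp f F) {β : ℝ} (hβ : 0 < β) :
    Tendsto (fun T : ℝ => 1 / T * ∫ t in (0:ℝ)..T, ‖f t‖ ^ β) atTop (𝓝 (∫ ω, ‖F ω‖ ^ β ∂tm)) := by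
  obtain ⟨M, hM, hf, hF⟩ := h.bd
  have hfc := h.cont
  have hFc := h.contF
  rw [Metric.tendsto_nhds]
  intro e he
  obtain ⟨p, hp⟩ := exists_polynomial_near_of_continuousOn 0 (M ^ 2) (fun s => s ^ (β / 2)) (Continuous.continuousOn (Real.continuous_rpow_const (by positivity))) (e / 4) (by positivity)
  have hsq : ∀ z : ℂ, ‖z‖ ≤ M → |p.eval (‖z‖ ^ 2) - ‖z‖ ^ β| < e / 4 := by
    intro z hz
    have h1 := hp (‖z‖ ^ 2) ⟨by positivity, pow_le_pow_left₀ (norm_nonneg _) hz 2⟩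
    have h2 : (‖z‖ ^ 2) ^ (β / 2) = ‖z‖ ^ β := by
      rw [← Real.rpow_natCast, ← Real.rpow_mul (norm_nonneg _)]
      congr 1
      push_cast
      ring
    rwa [h2] at h1
  -- the polynomial
  have hB := (h.mul h.conj).poly (p.map (algebraMap ℝ ℂ))
  have ev : ∀ z : ℂ, (p.map (algebraMap ℝ ℂ)).eval (z * (starRingEnd ℂ) z) = ((p.eval (‖z‖ ^ 2) : ℝ) : ℂ) := by
    intro z
    have e1 : z * (starRingEnd ℂ) z = (algebraMap ℝ ℂ) (‖z‖ ^ 2) := by
      rw [Complex.mul_conj, Complex.normSq_eq_norm_sq]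
      rfl
    rw [e1, Polynomial.eval_map_algebraMap, Polynomial.aeval_algebraMap_apply]
    rfl
  have hl := hB.lim
  simp_rw [ev] at hl
  have hl2 : Tendsto (fun T : ℝ => 1 / T * ∫ t in (0:ℝ)..T, p.eval (‖f t‖ ^ 2)) atTop (𝓝 (∫ ω, p.eval (‖F ω‖ ^ 2) ∂tm)) := by
    have h3 := (Complex.continuous_re.tendsto _).comp hl
    have e4 : (∫ ω, ((p.eval (‖F ω‖ ^ 2) : ℝ) : ℂ) ∂tm).re = ∫ ω, p.eval (‖F ω‖ ^ 2) ∂tm := by
      rw [integral_complex_ofReal, Complex.ofReal_re]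
    rw [e4] at h3
    refine h3.congr fun T => ?_
    show (((1 / T : ℝ) : ℂ) * ∫ t in (0:ℝ)..T, ((p.eval (‖f t‖ ^ 2) : ℝ) : ℂ)).re = _
    rw [intervalIntegral.integral_ofReal, ← Complex.ofReal_mul, Complex.ofReal_re]
  have hpc1 : Continuous fun t => p.eval (‖f t‖ ^ 2) := p.continuous.comp (hfc.norm.pow 2)
  have hpc2 : Continuous fun ω => p.eval (‖F ω‖ ^ 2) := p.continuous.comp (hFc.norm.pow 2)
  have hqc1 : Continuous fun t => ‖f t‖ ^ β := hfc.norm.rpow_const fun _ => Or.inr hβ.le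
  have hqc2 : Continuous fun ω => ‖F ω‖ ^ β := hFc.norm.rpow_const fun _ => Or.inr hβ.le
  have hi2 : Integrable (fun ω => ‖F ω‖ ^ β) tm := tm_int hqc2 (B := M ^ β) fun ω => by
    rw [Real.norm_of_nonneg (by positivity)]
    exact Real.rpow_le_rpow (norm_nonneg _) (hF ω) hβ.le
  have hi1 : Integrable (fun ω => p.eval (‖F ω‖ ^ 2)) tm := tm_int hpc2 (B := M ^ β + e / 4) fun ω => by
    have h3 := hsq (F ω) (hF ω)
    have h4 : ‖F ω‖ ^ β ≤ M ^ β := Real.rpow_le_rpow (norm_nonneg _) (hF ω) hβ.le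
    have h5 : 0 ≤ ‖F ω‖ ^ β := by positivity
    rw [Real.norm_eq_abs, abs_le]
    rw [abs_lt] at h3
    constructor <;> linarith [h3.1, h3.2]
  have hT2 : |(∫ ω, p.eval (‖F ω‖ ^ 2) ∂tm) - ∫ ω, ‖F ω‖ ^ β ∂tm| ≤ e / 4 := by
    rw [← integral_sub hi1 hi2, ← Real.norm_eq_abs]
    refine (norm_integral_le_of_norm_le_const (C := e / 4) (Eventually.of_forall fun ω => ?_)).trans (by simp)
    exact (hsq (F ω) (hF ω)).le
  filter_upwards [Metric.tendsto_nhds.mp hl2 (e / 4) (by positivity), eventually_gt_atTop 0] with T hT hT0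
  have hT1 : |1 / T * (∫ t in (0:ℝ)..T, p.eval (‖f t‖ ^ 2)) - 1 / T * ∫ t in (0:ℝ)..T, ‖f t‖ ^ β| ≤ e / 4 := by
    rw [← mul_sub, ← intervalIntegral.integral_sub (hpc1.intervalIntegrable _ _) (hqc1.intervalIntegrable _ _), abs_mul, abs_of_nonneg (by positivity), ← Real.norm_eq_abs]
    have h3 := intervalIntegral.norm_integral_le_of_norm_le_const (f := fun t => p.eval (‖f t‖ ^ 2) - ‖f t‖ ^ β) (a := 0) (b := T) (C := e / 4) (fun t _ => (hsq (f t) (hf t)).le)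
    rw [sub_zero, abs_of_pos hT0] at h3
    have h4 := mul_le_mul_of_nonneg_left h3 (show 0 ≤ 1 / T by positivity)
    refine h4.trans (le_of_eq ?_)
    field_simp
  rw [Real.dist_eq] at hT ⊢
  rw [abs_lt] at hT ⊢
  rw [abs_le] at hT1 hT2
  constructor <;> linarith [hT.1, hT.2, hT1.1, hT1.2, hT2.1, hT2.2]

/-- weighted sums correspond -/
theorem WW_WS (w : ℕ → ℝ) (N : ℕ) : Bp (WW w N) (WS w N) := by
  refine ⟨Finset.Icc 1 N, inferInstance, fun n => (w n : ℂ) * ((n:ℕ):ℂ) ^ (-(1 / 2) : ℂ), fun n => n, fun _ => 1, fun n => ?_, fun _ => one_ne_zero, fun t => ?_, fun ω => ?_⟩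
  · have := n.2
    rw [Finset.mem_Icc] at this
    show (n:ℕ) ≠ 0
    omega
  · unfold WW
    rw [← Finset.sum_coe_sort]
    refine Finset.sum_congr rfl fun n _ => ?_
    have hn : ((n:ℕ):ℂ) ≠ 0 := by
      have := n.2
      rw [Finset.mem_Icc] at this
      exact_mod_cast (by omega : (n:ℕ) ≠ 0)
    rw [tn_one, map_one, mul_one]
    unfold tn
    rw [mul_assoc, ← Complex.cpow_add _ _ hn]
    congr 2
    ring
  · unfold WS
    rw [← Finset.sum_coe_sort]
    refine Finset.sum_congr rfl fun n _ => ?_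
    rw [ch_one, map_one, mul_one]

end Pool.Agent.H470
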