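import Pool.Agent.H470.To20

set_option autoImplicit false

/-! Projections on the torus. -/

namespace Pool.Agent.H470

open MeasureTheory Filter Topology ProbabilityTheory Set

lemma D_lim : Tendsto (fun T : ℝ => (2 * Real.sqrt T * Real.log T + 2) / T) atTop (𝓝 0) := by
  have h1 : Tendsto (fun T : ℝ => Real.log T / T ^ (1 / 2 : ℝ)) atTop (𝓝 0) :=
    (isLittleO_log_rpow_atTop (show (0:ℝ) < 1 / 2 by norm_num)).tendsto_div_nhds_zero
  have h2 : Tendsto (fun T : ℝ => 2 * (Real.log T / T ^ (1 / 2 : ℝ)) + 2 * T⁻¹) atTop (𝓝 (2 * 0 + 2 * 0)) := (h1.const_mul 2).add (tendsto_inv_atTop_zero.const_mul 2)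
  rw [mul_zero, add_zero] at h2
  refine h2.congr' ?_
  filter_upwards [eventually_gt_atTop 0] with T hT
  rw [← Real.sqrt_eq_rpow]
  have h3 := Real.mul_self_sqrt hT.le
  have h4 : 0 < Real.sqrt T := Real.sqrt_pos.mpr hT
  rw [eq_div_iff hT.ne', add_mul]
  have e1 : 2 * (Real.log T / Real.sqrt T) * T = 2 * Real.sqrt T * Real.log T := by
    have e3 : 2 * (Real.log T / Real.sqrt T) * T = 2 * (T / Real.sqrt T) * Real.log T := by ring
    rw [e3, Real.div_sqrt]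
  have e2 : 2 * T⁻¹ * T = 2 := by field_simp
  rw [e1, e2]

/-- the projection on the torus -/
theorem trf {p : ℝ} (hp : 1 < p) : ∃ C : ℝ, 0 < C ∧ ∀ N X : ℕ, 1 ≤ N → N ≤ X → ∀ w : ℕ → ℝ, (∀ n, |w n| ≤ 1) →
    ∫ ω, ‖WS w N ω‖ ^ p ∂tm ≤ C * ((∫ ω, ‖WS w X ω‖ ^ p ∂tm) + 1) := by
  obtain ⟨C, hC, hm⟩ := mono_w p hp
  have hp0 : 0 < p := by linarith
  refine ⟨C, hC, fun N X hN hNX w hw => ?_⟩
  have l1 := (WW_WS w N).pow hp0
  have l2 := (WW_WS w X).pow hp0
  obtain ⟨D, hD⟩ : ∃ D : ℝ → ℝ, ∀ T, D T = 2 * Real.sqrt T * Real.log T + 2 := ⟨fun T => _, fun _ => rfl⟩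
  have hDT : Tendsto (fun T => D T / T) atTop (𝓝 0) := by
    simp_rw [hD]
    exact D_lim
  have hD2 : ∀ᶠ T in atTop, 2 ≤ D T := by
    filter_upwards [eventually_ge_atTop 1] with T hT
    rw [hD]
    have := Real.log_nonneg hT
    have := Real.sqrt_nonneg T
    nlinarith [mul_nonneg (Real.sqrt_nonneg T) (Real.log_nonneg hT)]
  have hDi : Tendsto D atTop atTop := by
    have h1 : Tendsto (fun T : ℝ => Real.log T) atTop atTop := Real.tendsto_log_atTop
    refine tendsto_atTop_mono' _ ?_ h1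
    filter_upwards [eventually_ge_atTop 1] with T hT
    rw [hD]
    have h2 := Real.log_nonneg hT
    have h3 : 1 ≤ Real.sqrt T := Real.one_le_sqrt.mpr hT
    nlinarith
  obtain ⟨A, hA⟩ : ∃ A : ℝ → ℝ, ∀ T, A T = 1 / T * ∫ t in (0:ℝ)..T, ‖WW w X t‖ ^ p := ⟨fun T => _, fun _ => rfl⟩
  obtain ⟨E, hE⟩ : ∃ E : ℝ, E = ∫ ω, ‖WS w X ω‖ ^ p ∂tm := ⟨_, rfl⟩
  have lA : Tendsto A atTop (𝓝 E) := by
    rw [hE, funext hA]
    exact l2
  have hc : Continuous fun t => ‖WW w X t‖ ^ p := (WW_cont w X).norm.rpow_const fun _ => Or.inr hp0.le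
  have hneg : ∀ B : ℝ, ∫ t in (-B)..0, ‖WW w X t‖ ^ p = ∫ t in (0:ℝ)..B, ‖WW w X t‖ ^ p := by
    intro B
    have h1 := intervalIntegral.integral_comp_neg (f := fun t => ‖WW w X t‖ ^ p) (a := 0) (b := B)
    rw [neg_zero] at h1
    rw [← h1]
    simp_rw [WW_neg]
  have l3 : Tendsto (fun T => C * ((D T / T * A (D T) + (1 + D T / T) * A (T + D T)) + 1)) atTop (𝓝 (C * ((0 * E + (1 + 0) * E) + 1))) := by
    refine Tendsto.const_mul C (Tendsto.add_const 1 (Tendsto.add (hDT.mul (lA.comp hDi)) (((hDT.const_add 1)).mul (lA.comp ?_))))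
    exact tendsto_atTop_mono' _ (hD2.mono fun T h => show T ≤ T + D T by linarith) tendsto_id
  rw [zero_mul, zero_add, add_zero, one_mul] at l3
  rw [← hE]
  refine le_of_tendsto_of_tendsto l1 l3 ?_
  filter_upwards [hD2, eventually_ge_atTop (Real.exp 4), eventually_ge_atTop (X:ℝ)] with T h2 hT4 hTX
  have hT1 : 1 ≤ T := by
    have := Real.add_one_le_exp (4:ℝ)
    linarith
  have hT0 : 0 < T := by linarith
  have hs := Real.mul_self_sqrt hT0.le
  have hs1 : 1 ≤ Real.sqrt T := Real.one_le_sqrt.mpr hT1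
  have hsT : Real.sqrt T ≤ T := by nlinarith
  have hNT : (N:ℝ) ≤ T := by
    have : (N:ℝ) ≤ X := by exact_mod_cast hNX
    linarith
  have h3 := hm T (Real.sqrt T) (by rw [Real.le_log_iff_exp_le hT0]; exact hT4) (by rw [sq, hs]; exact hsT) hs1 hsT N X hN hNX (by linarith) (by rw [sq, hs]; exact hNT) w hw 0 T hT0.le
  rw [← hD, zero_sub, sub_zero] at h3
  have h4 : ∫ t in (-D T)..(T + D T), ‖WW w X t‖ ^ p = (∫ t in (0:ℝ)..(D T), ‖WW w X t‖ ^ p) + ∫ t in (0:ℝ)..(T + D T), ‖WW w X t‖ ^ p := by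
    rw [← hneg (D T)]
    exact (intervalIntegral.integral_add_adjacent_intervals (hc.intervalIntegrable _ _) (hc.intervalIntegrable _ _)).symm
  rw [h4] at h3
  have h5 := mul_le_mul_of_nonneg_left h3 (show 0 ≤ 1 / T by positivity)
  refine h5.trans (le_of_eq ?_)
  rw [hA, hA]
  have hDp : 0 < D T := by linarith
  field_simp

end Pool.Agent.H470
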