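import Pool.Agent.H470.To18
import Pool.Agent.H470.To21

set_option autoImplicit false

/-! Narrow bumps for high exponents. -/

namespace Pool.Agent.H470

open MeasureTheory Filter Topology ProbabilityTheory Set
open scoped ENNReal

lemma two_norm_pos (u : ℝ) : 0 < ‖2 + (u:ℂ) * Complex.I‖ := by
  rw [norm_pos_iff]
  intro hcon
  have := congrArg Complex.re hcon
  simp at this

/-- the two point function -/
theorem tp_k {k : ℝ} (hk : 0 < k) : ∃ C : ℝ, 0 < C ∧ ∀ x : ℝ, 0 < x → x ≤ 1 → ∀ y z : ℝ, x * |y| ≤ 1 → x * |z| ≤ 1 →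
    ∫⁻ ω, ‖Fp x y ω‖ₑ ^ k * ‖Fp x z ω‖ₑ ^ k ∂tm ≤ ENNReal.ofReal (C * x ^ (-k ^ 2) * (1 + (y - z) ^ 2) ^ (-(k ^ 2 / 4))) := by
  obtain ⟨C1, hC1, h1⟩ := S_up 4
  refine ⟨Real.exp (k ^ 2 * C1 + CN k * KS), Real.exp_pos _, fun x hx hx1 y z hy hz => ?_⟩
  have hre : ∀ u : ℝ, 9 / 20 ≤ (sp x u).re := fun u => by rw [sp_re]; linarith
  have hint : Integrable (fun ω => Real.exp (k * (Xp x y ω).re + k * (Xp x z ω).re)) tm := by
    obtain ⟨B, hB, hb⟩ := Xp_bd hx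
    have c1 := Xp_cont hx y
    have c2 := Xp_cont hx z
    refine tm_int (by fun_prop) (B := Real.exp (k * B + k * B)) fun ω => ?_
    rw [Real.norm_of_nonneg (Real.exp_pos _).le]
    refine Real.exp_le_exp.mpr ?_
    have h2 := (Complex.re_le_norm _).trans (hb y ω)
    have h3 := (Complex.re_le_norm _).trans (hb z ω)
    nlinarith
  have e1 : ∀ ω, ‖Fp x y ω‖ₑ ^ k * ‖Fp x z ω‖ₑ ^ k = ENNReal.ofReal (Real.exp (k * (Xp x y ω).re + k * (Xp x z ω).re)) := by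
    intro ω
    unfold Fp
    rw [← ofReal_norm, ← ofReal_norm, Complex.norm_exp, Complex.norm_exp, ENNReal.ofReal_rpow_of_pos (Real.exp_pos _), ENNReal.ofReal_rpow_of_pos (Real.exp_pos _),
      ← ENNReal.ofReal_mul (by positivity), ← Real.exp_mul, ← Real.exp_mul, ← Real.exp_add]
    congr 2
    ring
  simp_rw [e1]
  rw [← ofReal_integral_eq_lintegral_ofReal hint (Eventually.of_forall fun ω => (Real.exp_pos _).le)]
  refine ENNReal.ofReal_le_ofReal ?_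
  have h := mgf_norm (n := 2) (I := pr (PX x)) (fun p hp => pr_two hp) (s := fun j => sp x ((![y, z] : Fin 2 → ℝ) j)) (fun j => hre _)
    (α := fun _ => ((k / 2 : ℝ) : ℂ)) (β := fun _ => ((k / 2 : ℝ) : ℂ)) (A := k)
    (by simp only [Fin.sum_univ_two, Complex.norm_real, Real.norm_eq_abs]; rw [abs_of_pos (by positivity)]; linarith)
    (by simp only [Fin.sum_univ_two, Complex.norm_real, Real.norm_eq_abs]; rw [abs_of_pos (by positivity)]; linarith)
  have e2 : ∀ ω, Complex.exp (∑ j : Fin 2, (((k / 2 : ℝ) : ℂ) * Xs (pr (PX x)) ((fun j => sp x ((![y, z] : Fin 2 → ℝ) j)) j) ω +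
      ((k / 2 : ℝ) : ℂ) * (starRingEnd ℂ) (Xs (pr (PX x)) ((fun j => sp x ((![y, z] : Fin 2 → ℝ) j)) j) ω))) =
      ((Real.exp (k * (Xp x y ω).re + k * (Xp x z ω).re) : ℝ) : ℂ) := by
    intro ω
    rw [Complex.ofReal_exp]
    congr 1
    simp only [Fin.sum_univ_two, Matrix.cons_val_zero, Matrix.cons_val_one, Matrix.cons_val_fin_one]
    have h2 := Complex.add_conj (Xs (pr (PX x)) (sp x y) ω)
    have h3 := Complex.add_conj (Xs (pr (PX x)) (sp x z) ω)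
    unfold Xp
    push_cast at h2 h3 ⊢
    linear_combination ((k:ℂ) / 2) * h2 + ((k:ℂ) / 2) * h3
  simp_rw [e2] at h
  rw [integral_complex_ofReal, Complex.norm_real, Real.norm_of_nonneg (integral_nonneg fun ω => (Real.exp_pos _).le)] at h
  refine h.trans ?_
  have e3 : ∀ p ∈ pr (PX x), ((∑ j : Fin 2, ((k / 2 : ℝ) : ℂ) * (p:ℂ) ^ (-(fun j => sp x ((![y, z] : Fin 2 → ℝ) j)) j)) *
      ∑ j : Fin 2, ((k / 2 : ℝ) : ℂ) * (starRingEnd ℂ) ((p:ℂ) ^ (-(fun j => sp x ((![y, z] : Fin 2 → ℝ) j)) j))).re =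
      k ^ 2 / 4 * (2 * (wv x 0 p).re + (wv x (y - z) p).re + (wv x (z - y) p).re) := by
    intro p hp
    have hyy := zv_mul (x := x) (y := ![y, z]) (pr_two hp) 0 0
    have hyz := zv_mul (x := x) (y := ![y, z]) (pr_two hp) 0 1
    have hzy := zv_mul (x := x) (y := ![y, z]) (pr_two hp) 1 0
    have hzz := zv_mul (x := x) (y := ![y, z]) (pr_two hp) 1 1
    unfold zv at hyy hyz hzy hzz
    simp only [Matrix.cons_val_zero, Matrix.cons_val_one, Matrix.cons_val_fin_one, sub_self] at hyy hyz hzy hzz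
    have e4 : (∑ j : Fin 2, ((k / 2 : ℝ) : ℂ) * (p:ℂ) ^ (-(fun j => sp x ((![y, z] : Fin 2 → ℝ) j)) j)) *
      (∑ j : Fin 2, ((k / 2 : ℝ) : ℂ) * (starRingEnd ℂ) ((p:ℂ) ^ (-(fun j => sp x ((![y, z] : Fin 2 → ℝ) j)) j))) =
      ((k ^ 2 / 4 : ℝ) : ℂ) * (2 * wv x 0 p + wv x (y - z) p + wv x (z - y) p) := by
      simp only [Fin.sum_univ_two, Matrix.cons_val_zero, Matrix.cons_val_one, Matrix.cons_val_fin_one]
      push_cast
      linear_combination (k:ℂ) ^ 2 / 4 * hyy + (k:ℂ) ^ 2 / 4 * hyz + (k:ℂ) ^ 2 / 4 * hzy + (k:ℂ) ^ 2 / 4 * hzz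
    rw [e4, Complex.re_ofReal_mul, Complex.add_re, Complex.add_re]
    congr 2
    simp
  rw [Finset.sum_congr rfl e3, ← Finset.mul_sum, Finset.sum_add_distrib, Finset.sum_add_distrib, ← Finset.mul_sum, ← Complex.re_sum, ← Complex.re_sum, ← Complex.re_sum]
  have hb : ∀ u : ℝ, x * |u| ≤ 2 → x * ‖2 + (u:ℂ) * Complex.I‖ ≤ 4 := by
    intro u hu
    have h3 : ‖2 + (u:ℂ) * Complex.I‖ ≤ 2 + |u| := by
      refine (norm_add_le _ _).trans ?_
      rw [norm_mul, Complex.norm_I, mul_one, Complex.norm_real, Real.norm_eq_abs]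
      simp only [Complex.norm_ofNat]
      linarith
    have := mul_le_mul_of_nonneg_left h3 hx.le
    linarith
  have hu : x * |y - z| ≤ 2 := by
    have := mul_le_mul_of_nonneg_left (abs_sub y z) hx.le
    linarith
  have g0 := h1 x hx hx1 0 (hb 0 (by rw [abs_zero]; linarith))
  have g1 := h1 x hx hx1 (y - z) (hb _ hu)
  have g2 := h1 x hx hx1 (z - y) (hb _ (by rw [abs_sub_comm]; exact hu))
  have n0 : ‖2 + ((0:ℝ):ℂ) * Complex.I‖ = 2 := by simp
  have n1 : ‖2 + ((z - y : ℝ):ℂ) * Complex.I‖ = ‖2 + ((y - z : ℝ):ℂ) * Complex.I‖ := by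
    rw [← Complex.norm_conj (2 + ((z - y : ℝ):ℂ) * Complex.I)]
    congr 1
    simp only [map_add, map_mul, Complex.conj_ofReal, Complex.conj_I]
    have : (starRingEnd ℂ) 2 = 2 := Complex.conj_ofReal 2
    rw [this]
    push_cast
    ring
  rw [n0] at g0
  rw [n1] at g2
  have f0 : (∑ p ∈ pr (PX x), wv x 0 p).re ≤ -Real.log x + C1 := by
    have h5 := Real.log_le_log hx (show x ≤ x * 2 by linarith)
    have : (∑ p ∈ pr (PX x), wv x 0 p).re ≤ -Real.log (x * 2) + C1 := g0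
    linarith
  have hq : 0 < 1 + (y - z) ^ 2 := by positivity
  have f1 : -Real.log (x * ‖2 + ((y - z : ℝ):ℂ) * Complex.I‖) ≤ -Real.log x - 1 / 2 * Real.log (1 + (y - z) ^ 2) := by
    rw [Real.log_mul hx.ne' (two_norm_pos _).ne']
    have h5 := Real.log_le_log (by positivity) (two_add_norm (y - z))
    rw [Real.log_rpow hq] at h5
    linarith
  have f2 : (∑ p ∈ pr (PX x), wv x (y - z) p).re ≤ -Real.log x - 1 / 2 * Real.log (1 + (y - z) ^ 2) + C1 := by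
    have : (∑ p ∈ pr (PX x), wv x (y - z) p).re ≤ -Real.log (x * ‖2 + ((y - z : ℝ):ℂ) * Complex.I‖) + C1 := g1
    linarith
  have f3 : (∑ p ∈ pr (PX x), wv x (z - y) p).re ≤ -Real.log x - 1 / 2 * Real.log (1 + (y - z) ^ 2) + C1 := by
    have : (∑ p ∈ pr (PX x), wv x (z - y) p).re ≤ -Real.log (x * ‖2 + ((y - z : ℝ):ℂ) * Complex.I‖) + C1 := g2
    linarith
  rw [Real.rpow_def_of_pos hx, Real.rpow_def_of_pos hq, ← Real.exp_add, ← Real.exp_add]
  refine Real.exp_le_exp.mpr ?_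
  have h6 : k ^ 2 / 4 * (2 * (∑ p ∈ pr (PX x), wv x 0 p).re + (∑ p ∈ pr (PX x), wv x (y - z) p).re + (∑ p ∈ pr (PX x), wv x (z - y) p).re) ≤
      k ^ 2 / 4 * (2 * (-Real.log x + C1) + (-Real.log x - 1 / 2 * Real.log (1 + (y - z) ^ 2) + C1) + (-Real.log x - 1 / 2 * Real.log (1 + (y - z) ^ 2) + C1)) :=
    mul_le_mul_of_nonneg_left (by linarith) (by positivity)
  linarith

end Pool.Agent.H470
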