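import Pool.Agent.H470.To22

set_option autoImplicit false

/-! Narrow bumps for high exponents, continued. -/

namespace Pool.Agent.H470

open MeasureTheory Filter Topology ProbabilityTheory Set
open scoped ENNReal

lemma ker_two {k : ℝ} (hk : 1 ≤ k) {M : ℝ} (hM : 0 < M) (u : ℝ) : (1 + u ^ 2) ^ (-(k ^ 2 / 4)) ≤ M * (1 + u ^ 2)⁻¹ + M ^ (-(1 / 3) : ℝ) := by
  have hq : 0 < 1 + u ^ 2 := by positivity
  have hq1 : 1 ≤ 1 + u ^ 2 := by nlinarith [sq_nonneg u]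
  have h1 : (1 + u ^ 2) ^ (-(k ^ 2 / 4)) ≤ (1 + u ^ 2) ^ (-(1 / 4) : ℝ) := Real.rpow_le_rpow_of_exponent_le hq1 (by nlinarith)
  refine h1.trans ?_
  rcases le_or_gt ((1 + u ^ 2) ^ (3 / 4 : ℝ)) M with h | h
  · have e1 : (1 + u ^ 2) ^ (-(1 / 4) : ℝ) = (1 + u ^ 2) ^ (3 / 4 : ℝ) * (1 + u ^ 2)⁻¹ := by
      rw [← Real.rpow_neg_one, ← Real.rpow_add hq]
      norm_num
    rw [e1]
    have h2 := mul_le_mul_of_nonneg_right h (show 0 ≤ (1 + u ^ 2)⁻¹ by positivity)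
    have h3 : 0 ≤ M ^ (-(1 / 3) : ℝ) := by positivity
    linarith
  · have h2 : (1 + u ^ 2) ^ (-(1 / 4) : ℝ) ≤ M ^ (-(1 / 3) : ℝ) := by
      have e1 : (1 + u ^ 2) ^ (-(1 / 4) : ℝ) = ((1 + u ^ 2) ^ (3 / 4 : ℝ)) ^ (-(1 / 3) : ℝ) := by
        rw [← Real.rpow_mul hq.le]
        norm_num
      rw [e1]
      exact Real.rpow_le_rpow_of_nonpos hM h.le (by norm_num)
    have h3 : 0 ≤ M * (1 + u ^ 2)⁻¹ := by positivity
    linarith

/-- the inner part -/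
theorem inn {k : ℝ} (hk : 1 ≤ k) : ∃ C : ℝ, 0 < C ∧ ∀ x : ℝ, 0 < x → x ≤ 1 → ∀ w : ℝ → ℂ, Measurable w → Integrable w →
    (∀ y, 1 < x * |y| → w y = 0) → ∀ b : ℝ, 0 ≤ b → (∀ y, ‖w y‖ ≤ b) → ∀ M : ℝ, 0 < M →
    mk k (Iw w x) ≤ C * x ^ (-k ^ 2) * ((∫ y, ‖w y‖) ^ (2 * k - 2) * (M * b * Real.pi * (∫ y, ‖w y‖) + M ^ (-(1 / 3) : ℝ) * (∫ y, ‖w y‖) ^ 2)) := by
  have hk0 : 0 < k := by linarith
  obtain ⟨C, hC, h⟩ := tp_k hk0
  refine ⟨C, hC, fun x hx hx1 w hw hi hw0 b hb hwb M hM => ?_⟩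
  obtain ⟨W, hW⟩ : ∃ W : ℝ, W = ∫ y, ‖w y‖ := ⟨_, rfl⟩
  have hW0 : 0 ≤ W := by rw [hW]; exact integral_nonneg fun y => norm_nonneg _
  have hA : ∫⁻ y, ‖w y‖ₑ = ENNReal.ofReal W := by
    rw [hW, ofReal_integral_eq_lintegral_ofReal hi.norm (Eventually.of_forall fun y => norm_nonneg _)]
    refine lintegral_congr fun y => ?_
    rw [ofReal_norm]
  rw [← hW]
  refine mk_le hk0 (Iw_gd hw hi hx) (by positivity) ?_
  -- Jensen
  have h1 : ∀ ω, ‖Iw w x ω‖ₑ ^ (2 * k) ≤ ENNReal.ofReal W ^ (2 * k - 2) *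
      ∫⁻ z : ℝ × ℝ, (‖w z.1‖ₑ * ‖w z.2‖ₑ) * (‖Fp x z.1 ω‖ₑ ^ k * ‖Fp x z.2 ω‖ₑ ^ k) ∂(volume.prod volume) := by
    intro ω
    have h2 := jen volume (p := k) (w := fun y => ‖w y‖ₑ) (f := fun y => ‖Fp x y ω‖ₑ) hk hw.enorm.aemeasurable (Fp_contY hx ω).measurable.enorm.aemeasurable
    rw [hA] at h2
    have h3 : ‖Iw w x ω‖ₑ ≤ ∫⁻ y, ‖w y‖ₑ * ‖Fp x y ω‖ₑ := by
      unfold Iw
      refine (enorm_integral_le_lintegral_enorm _).trans (le_of_eq (lintegral_congr fun y => ?_))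
      rw [enorm_mul]
    have h4 := (ENNReal.rpow_le_rpow h3 hk0.le).trans h2
    have h5 := pow_le_pow_left₀ zero_le h4 2
    have e1 : (‖Iw w x ω‖ₑ ^ k) ^ 2 = ‖Iw w x ω‖ₑ ^ (2 * k) := by
      rw [← ENNReal.rpow_natCast, ← ENNReal.rpow_mul]
      congr 1
      push_cast
      ring
    rw [e1, mul_pow] at h5
    refine h5.trans (le_of_eq ?_)
    have e2 : (ENNReal.ofReal W ^ (k - 1)) ^ 2 = ENNReal.ofReal W ^ (2 * k - 2) := by
      rw [← ENNReal.rpow_natCast, ← ENNReal.rpow_mul]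
      congr 1
      push_cast
      ring
    have hm : Measurable fun y => ‖w y‖ₑ * ‖Fp x y ω‖ₑ ^ k := hw.enorm.mul ((Fp_contY hx ω).measurable.enorm.pow_const _)
    rw [e2, sq, ← lintegral_prod_mul hm.aemeasurable hm.aemeasurable]
    congr 1
    refine lintegral_congr fun z => ?_
    ring
  refine (lintegral_mono h1).trans ?_
  rw [lintegral_const_mul' _ _ (ENNReal.rpow_ne_top_of_nonneg (by linarith) ENNReal.ofReal_ne_top)]
  have m1 : Measurable (fun p : (ℕ → ℝ) × (ℝ × ℝ) => Fp x p.2.1 p.1) := (Fp_meas2 x).comp (f := fun p : (ℕ → ℝ) × (ℝ × ℝ) => (p.1, p.2.1)) (by fun_prop)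
  have m2 : Measurable (fun p : (ℕ → ℝ) × (ℝ × ℝ) => Fp x p.2.2 p.1) := (Fp_meas2 x).comp (f := fun p : (ℕ → ℝ) × (ℝ × ℝ) => (p.1, p.2.2)) (by fun_prop)
  have m3 : Measurable (fun p : (ℕ → ℝ) × (ℝ × ℝ) => w p.2.1) := hw.comp (f := fun p : (ℕ → ℝ) × (ℝ × ℝ) => p.2.1) (by fun_prop)
  have m4 : Measurable (fun p : (ℕ → ℝ) × (ℝ × ℝ) => w p.2.2) := hw.comp (f := fun p : (ℕ → ℝ) × (ℝ × ℝ) => p.2.2) (by fun_prop)
  have hm : Measurable (fun p : (ℕ → ℝ) × (ℝ × ℝ) => (‖w p.2.1‖ₑ * ‖w p.2.2‖ₑ) * (‖Fp x p.2.1 p.1‖ₑ ^ k * ‖Fp x p.2.2 p.1‖ₑ ^ k)) :=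
    (m3.enorm.mul m4.enorm).mul ((m1.enorm.pow_const _).mul (m2.enorm.pow_const _))
  rw [lintegral_lintegral_swap (μ := tm) (ν := volume.prod volume) (f := fun ω z => (‖w z.1‖ₑ * ‖w z.2‖ₑ) * (‖Fp x z.1 ω‖ₑ ^ k * ‖Fp x z.2 ω‖ₑ ^ k)) hm.aemeasurable]
  obtain ⟨c, hc⟩ : ∃ c : ℝ, c = C * x ^ (-k ^ 2) := ⟨_, rfl⟩
  have hc0 : 0 < c := by rw [hc]; positivity
  have h2 : ∀ z : ℝ × ℝ, ∫⁻ ω, (‖w z.1‖ₑ * ‖w z.2‖ₑ) * (‖Fp x z.1 ω‖ₑ ^ k * ‖Fp x z.2 ω‖ₑ ^ k) ∂tm ≤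
      ‖w z.1‖ₑ * ENNReal.ofReal (b * (c * M) * (1 + (z.1 - z.2) ^ 2)⁻¹) + ‖w z.1‖ₑ * ‖w z.2‖ₑ * ENNReal.ofReal (c * M ^ (-(1 / 3) : ℝ)) := by
    intro z
    by_cases h1 : 1 < x * |z.1|
    · rw [hw0 _ h1]
      simp
    by_cases h2 : 1 < x * |z.2|
    · rw [hw0 _ h2]
      simp
    rw [lintegral_const_mul' _ _ (ENNReal.mul_ne_top enorm_ne_top enorm_ne_top)]
    refine (mul_le_mul_right (h x hx hx1 z.1 z.2 (not_lt.mp h1) (not_lt.mp h2)) _).trans ?_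
    rw [← hc]
    have h3 : ENNReal.ofReal (c * (1 + (z.1 - z.2) ^ 2) ^ (-(k ^ 2 / 4))) ≤ ENNReal.ofReal (c * M * (1 + (z.1 - z.2) ^ 2)⁻¹) + ENNReal.ofReal (c * M ^ (-(1 / 3) : ℝ)) := by
      rw [← ENNReal.ofReal_add (by positivity) (by positivity)]
      refine ENNReal.ofReal_le_ofReal ?_
      have := mul_le_mul_of_nonneg_left (ker_two hk hM (z.1 - z.2)) hc0.le
      linarith
    refine (mul_le_mul_right h3 _).trans ?_
    rw [mul_add]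
    refine add_le_add ?_ le_rfl
    rw [mul_assoc]
    refine mul_le_mul_right ?_ _
    rw [← ofReal_norm, ← ENNReal.ofReal_mul (norm_nonneg _)]
    refine ENNReal.ofReal_le_ofReal ?_
    have := mul_le_mul_of_nonneg_right (hwb z.2) (show 0 ≤ c * M * (1 + (z.1 - z.2) ^ 2)⁻¹ by positivity)
    linarith
  have h3 := lintegral_mono (μ := (volume : Measure ℝ).prod (volume : Measure ℝ)) h2
  refine (mul_le_mul_right h3 _).trans ?_
  have m5 : Measurable fun z : ℝ × ℝ => ‖w z.1‖ₑ * ENNReal.ofReal (b * (c * M) * (1 + (z.1 - z.2) ^ 2)⁻¹) := by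
    refine (hw.comp measurable_fst).enorm.mul ?_
    fun_prop
  rw [lintegral_add_left m5, int2 (g := fun y => ‖w y‖ₑ) (b := fun u => ENNReal.ofReal (b * (c * M) * (1 + u ^ 2)⁻¹)) hw.enorm (by fun_prop),
    lintegral_mul_const' _ _ ENNReal.ofReal_ne_top, lintegral_prod_mul hw.enorm.aemeasurable hw.enorm.aemeasurable, hA,
    ← ofReal_integral_eq_lintegral_ofReal (integrable_inv_one_add_sq.const_mul _) (Eventually.of_forall fun u => by positivity), integral_const_mul, integral_univ_inv_one_add_sq,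
    ENNReal.ofReal_rpow_of_nonneg hW0 (by linarith), ← ENNReal.ofReal_mul hW0, ← ENNReal.ofReal_mul hW0, ← ENNReal.ofReal_mul (by positivity),
    ← ENNReal.ofReal_add (by positivity) (by positivity), ← ENNReal.ofReal_mul (by positivity)]
  refine ENNReal.ofReal_le_ofReal (le_of_eq ?_)
  rw [← hc]
  ring

/-- the narrow bump is small -/
theorem be_nr {k : ℝ} (hk : 1 ≤ k) {e : ℝ} (he : 0 < e) : ∃ η : ℝ, 0 < η ∧ η ≤ 1 / 2 ∧
    ∀ᶠ x : ℝ in 𝓝[>] 0, nr k x (Ig (be η) x) ≤ e := by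
  have hk0 : 0 < k := by linarith
  obtain ⟨A, hA, hps⟩ := be_ps
  obtain ⟨C, hC, hin⟩ := inn hk
  obtain ⟨C', hC', hj⟩ := Iw_jen (k := k) (by linarith)
  have hkp := kp_pos hk0
  obtain ⟨P, hP⟩ : ∃ P : ℝ, P = A * Real.pi := ⟨_, rfl⟩
  have hP0 : 0 < P := by rw [hP]; positivity
  -- the choice of the width
  obtain ⟨D, hD⟩ : ∃ D : ℝ, D = 2 ^ (k ^ 2) * (C * (P ^ (2 * k - 2) * (A * Real.pi * P + P ^ 2))) := ⟨_, rfl⟩
  have hD0 : 0 < D := by rw [hD]; positivity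
  have hlim : Tendsto (fun η : ℝ => (D * η ^ (1 / 6 : ℝ)) ^ kp k) (𝓝[>] 0) (𝓝 0) := by
    have h1 : Tendsto (fun η : ℝ => η ^ (1 / 6 : ℝ)) (𝓝 0) (𝓝 (0 ^ (1 / 6 : ℝ))) := tendsto_id.rpow_const (Or.inr (by norm_num))
    have h2 := (h1.const_mul D).rpow_const (p := kp k) (Or.inr hkp.le)
    rw [Real.zero_rpow (by norm_num), mul_zero, Real.zero_rpow hkp.ne'] at h2
    exact h2.mono_left nhdsWithin_le_nhds
  have hhalf : ∀ᶠ η : ℝ in 𝓝[>] 0, η ≤ 1 / 2 := by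
    filter_upwards [Ioo_mem_nhdsGT (show (0:ℝ) < 1 / 2 by norm_num)] with η hη
    exact hη.2.le
  obtain ⟨η, hη1, hη2, hη3⟩ := ((hlim.eventually (gt_mem_nhds (show 0 < e / 2 by positivity))).and (hhalf.and self_mem_nhdsWithin)).exists
  have hη : 0 < η := hη3
  refine ⟨η, hη, hη2, ?_⟩
  have hSm := be_Sm hη
  obtain ⟨w, hw⟩ : ∃ w : ℝ → ℂ, ∀ y, w y = ((1 / (2 * Real.pi) : ℝ) : ℂ) * ps (be η) y := ⟨_, fun _ => rfl⟩
  have hwm : Measurable w := by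
    rw [funext hw]
    exact (ps_cont hSm).measurable.const_mul _
  have hwi : Integrable w := by
    rw [funext hw]
    exact (ps_integrable hSm).const_mul _
  have hIg : ∀ x, Ig (be η) x = Iw w x := by
    intro x
    funext ω
    rw [Ig_Iw]
    congr 1
    funext y
    exact (hw y).symm
  have hwb : ∀ y, ‖w y‖ ≤ A * η * (1 + (η * y) ^ 2)⁻¹ := by
    intro y
    rw [hw, norm_mul]
    have h1 := hps η hη (by linarith) y
    have h2 := mul_le_mul_of_nonneg_right two_pi_le (norm_nonneg (ps (be η) y))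
    have h3 : A * η / (1 + η ^ 2 * y ^ 2) = A * η * (1 + (η * y) ^ 2)⁻¹ := by rw [mul_pow, div_eq_mul_inv]
    rw [h3] at h1
    have := norm_nonneg (ps (be η) y)
    linarith
  have hmass : ∫ y, ‖w y‖ ≤ P := by
    have hi := (integrable_inv_one_add_sq.comp_mul_left' hη.ne').const_mul (A * η)
    refine (integral_mono hwi.norm hi hwb).trans (le_of_eq ?_)
    have h4 := Measure.integral_comp_mul_left (fun x : ℝ => (1 + x ^ 2)⁻¹) η
    rw [integral_const_mul, h4, integral_univ_inv_one_add_sq, smul_eq_mul, abs_of_pos (by positivity), hP]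
    field_simp
  -- the tail
  have htail : Tendsto (fun Q : ℝ => ∫ y in (Icc (-Q) Q)ᶜ, ‖w y‖) atTop (𝓝 0) := by
    have h1 := (aecover_Icc tendsto_neg_atTop_atBot tendsto_id).integral_tendsto_of_countably_generated hwi.norm
    have h2 := h1.const_sub (∫ y : ℝ, ‖w y‖)
    rw [sub_self] at h2
    refine h2.congr fun Q => ?_
    have h3 := integral_add_compl (measurableSet_Icc (a := -Q) (b := Q)) hwi.norm
    simp only [id]
    linarith
  have htl : Tendsto (fun x : ℝ => (2 ^ (k ^ 2) * ((∫ y in (Icc (-(1 / x)) (1 / x))ᶜ, ‖w y‖) ^ (2 * k) * C')) ^ kp k) (𝓝[>] 0) (𝓝 0) := by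
    have h1 : Tendsto (fun x : ℝ => 1 / x) (𝓝[>] 0) atTop := by
      simp_rw [one_div]
      exact tendsto_inv_nhdsGT_zero
    have h2 := (htail.comp h1).rpow_const (p := 2 * k) (Or.inr (by positivity))
    rw [Real.zero_rpow (by positivity)] at h2
    have h3 := ((h2.mul_const C').const_mul (2 ^ (k ^ 2))).rpow_const (p := kp k) (Or.inr hkp.le)
    rw [zero_mul, mul_zero, Real.zero_rpow hkp.ne'] at h3
    exact h3
  filter_upwards [self_mem_nhdsWithin, htl.eventually (gt_mem_nhds (show 0 < e / 2 by positivity)), Ioo_mem_nhdsGT (show (0:ℝ) < 1 by norm_num)] with x hx0 ht hx01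
  have hx : 0 < x := hx0
  have hx1 : x ≤ 1 := hx01.2.le
  have hBl : Bl (1 / x) = Icc (-(1 / x)) (1 / x) := by
    ext y
    rw [Set.mem_Icc]
    exact (abs_le (a := y) (b := 1 / x))
  obtain ⟨w1, hw1⟩ : ∃ w1 : ℝ → ℂ, w1 = indicator (Bl (1 / x)) w := ⟨_, rfl⟩
  obtain ⟨w2, hw2⟩ : ∃ w2 : ℝ → ℂ, w2 = indicator (Bl (1 / x))ᶜ w := ⟨_, rfl⟩
  have w1m : Measurable w1 := by rw [hw1]; exact hwm.indicator (Bl_meas _)
  have w2m : Measurable w2 := by rw [hw2]; exact hwm.indicator (Bl_meas _).compl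
  have w1i : Integrable w1 := by rw [hw1]; exact hwi.indicator (Bl_meas _)
  have w2i : Integrable w2 := by rw [hw2]; exact hwi.indicator (Bl_meas _).compl
  have hxx : x ^ (k ^ 2) * x ^ (-k ^ 2) = 1 := by
    rw [← Real.rpow_add hx, add_neg_cancel, Real.rpow_zero]
  have w1n : ∀ y, ‖w1 y‖ ≤ ‖w y‖ := fun y => by rw [hw1]; exact norm_indicator_le_norm_self _ _
  have w1mass : ∫ y, ‖w1 y‖ ≤ P := (integral_mono w1i.norm hwi.norm w1n).trans hmass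
  have w1mass0 : 0 ≤ ∫ y, ‖w1 y‖ := integral_nonneg fun y => norm_nonneg _
  have b1 := hin x hx hx1 w1 w1m w1i (fun y hy => by
    rw [hw1, indicator_of_notMem]
    intro hcon
    have h4 : |y| ≤ 1 / x := hcon
    rw [le_div_iff₀ hx] at h4
    linarith) (A * η) (by positivity) (fun y => by
    refine (w1n y).trans ((hwb y).trans ?_)
    have h4 : (1 + (η * y) ^ 2)⁻¹ ≤ 1 := inv_le_one_of_one_le₀ (by nlinarith [sq_nonneg (η * y)])
    nlinarith [show 0 < A * η by positivity]) (η ^ (-(1 / 2) : ℝ)) (by positivity)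
  have b1' : (2 * x) ^ (k ^ 2) * mk k (Iw w1 x) ≤ D * η ^ (1 / 6 : ℝ) := by
    have hη6 : 0 < η ^ (1 / 6 : ℝ) := by positivity
    have h5 : η ^ (-(1 / 2) : ℝ) * (A * η) * Real.pi * (∫ y, ‖w1 y‖) + (η ^ (-(1 / 2) : ℝ)) ^ (-(1 / 3) : ℝ) * (∫ y, ‖w1 y‖) ^ 2 ≤ η ^ (1 / 6 : ℝ) * (A * Real.pi * P + P ^ 2) := by
      have e1 : (η ^ (-(1 / 2) : ℝ)) ^ (-(1 / 3) : ℝ) = η ^ (1 / 6 : ℝ) := by
        rw [← Real.rpow_mul hη.le]
        norm_num
      have e2 : η ^ (-(1 / 2) : ℝ) * η ≤ η ^ (1 / 6 : ℝ) := by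
        have : η ^ (-(1 / 2) : ℝ) * η = η ^ (1 / 2 : ℝ) := by
          nth_rewrite 2 [← Real.rpow_one η]
          rw [← Real.rpow_add hη]
          norm_num
        rw [this]
        exact Real.rpow_le_rpow_of_exponent_ge hη (by linarith) (by norm_num)
      have h6 : (∫ y, ‖w1 y‖) ^ 2 ≤ P ^ 2 := pow_le_pow_left₀ w1mass0 w1mass 2
      rw [e1]
      have h7 : η ^ (-(1 / 2) : ℝ) * (A * η) * Real.pi * (∫ y, ‖w1 y‖) ≤ η ^ (1 / 6 : ℝ) * (A * Real.pi * P) := by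
        calc η ^ (-(1 / 2) : ℝ) * (A * η) * Real.pi * (∫ y, ‖w1 y‖) = (η ^ (-(1 / 2) : ℝ) * η) * (A * Real.pi * ∫ y, ‖w1 y‖) := by ring
          _ ≤ η ^ (1 / 6 : ℝ) * (A * Real.pi * P) := by
            refine mul_le_mul e2 (mul_le_mul_of_nonneg_left w1mass (by positivity)) (by positivity) hη6.le
      have h8 := mul_le_mul_of_nonneg_left h6 hη6.le
      linarith
    have h9 : (∫ y, ‖w1 y‖) ^ (2 * k - 2) ≤ P ^ (2 * k - 2) := Real.rpow_le_rpow w1mass0 w1mass (by linarith)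
    have h10 := mul_le_mul h9 h5 (by positivity) (by positivity)
    have h11 := b1.trans (mul_le_mul_of_nonneg_left h10 (by positivity))
    have h12 := mul_le_mul_of_nonneg_left h11 (show 0 ≤ (2 * x) ^ (k ^ 2) by positivity)
    refine h12.trans (le_of_eq ?_)
    rw [Real.mul_rpow (by norm_num) hx.le, hD]
    linear_combination 2 ^ (k ^ 2) * (C * (P ^ (2 * k - 2) * (A * Real.pi * P + P ^ 2))) * η ^ (1 / 6 : ℝ) * hxx
  have n1 : nr k x (Iw w1 x) ≤ e / 2 := by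
    unfold nr
    exact (Real.rpow_le_rpow (mul_nonneg (by positivity) (mk_nonneg _ _)) b1' hkp.le).trans hη1.le
  have b2 := hj x hx hx1 w2 w2m w2i
  have n2 : nr k x (Iw w2 x) ≤ e / 2 := by
    refine (nr_le hk0 hx.le b2).trans (le_trans (le_of_eq ?_) ht.le)
    have e3 : ∫ y, ‖w2 y‖ = ∫ y in (Icc (-(1 / x)) (1 / x))ᶜ, ‖w y‖ := by
      rw [← hBl, ← integral_indicator (Bl_meas _).compl]
      refine integral_congr_ae (Eventually.of_forall fun y => ?_)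
      show ‖w2 y‖ = _
      rw [hw2, norm_indicator_eq_indicator_norm]
    rw [e3, Real.mul_rpow (by norm_num) hx.le]
    congr 1
    linear_combination 2 ^ (k ^ 2) * ((∫ y in (Icc (-(1 / x)) (1 / x))ᶜ, ‖w y‖) ^ (2 * k) * C') * hxx
  have e1 : Ig (be η) x = fun ω => Iw w1 x ω + Iw w2 x ω := by
    funext ω
    rw [← Iw_add w1i w2i hx, hIg]
    congr 1
    funext y
    rw [hw1, hw2]
    exact (indicator_self_add_compl_apply _ w y).symm
  rw [e1]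
  refine (nr_add hk0 hx.le (Iw_gd w1m w1i hx) (Iw_gd w2m w2i hx)).trans ?_
  linarith

end Pool.Agent.H470
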