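import Pool.Agent.H470.To23
import Pool.Agent.H470.Sh

set_option autoImplicit false

/-! The sharp cutoff. -/

namespace Pool.Agent.H470

open MeasureTheory Filter Topology ProbabilityTheory Set

/-- the partial sum -/
noncomputable def SS (N : ℕ) (ω : ℕ → ℝ) : ℂ := WS (fun _ => 1) N ω

/-- the scale -/
noncomputable def xN (N : ℕ) : ℝ := 1 / Real.log N

lemma SS_gd (N : ℕ) : Gd (SS N) := WS_gd _ N

lemma xN_pos {N : ℕ} (hN : 3 ≤ N) : 0 < xN N := by
  unfold xN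
  have := log_N hN
  positivity

lemma xN_le {N : ℕ} (hN : 3 ≤ N) : xN N ≤ 1 := by
  unfold xN
  have := log_N hN
  rw [div_le_one (by linarith)]
  exact this

lemma xN_lim : Tendsto xN atTop (𝓝[>] 0) := by
  rw [tendsto_nhdsWithin_iff]
  constructor
  · unfold xN
    simp_rw [one_div]
    exact (Real.tendsto_log_atTop.comp tendsto_natCast_atTop_atTop).inv_tendsto_atTop
  · filter_upwards [eventually_ge_atTop 3] with N hN
    exact xN_pos hN

lemma exp_xN {N : ℕ} (hN : 3 ≤ N) : Real.exp (1 / xN N) = N := by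
  unfold xN
  rw [one_div_one_div, Real.exp_log (by positivity)]

/-- the smooth part -/
lemma Ig_fi {N : ℕ} (hN : 3 ≤ N) {a : ℝ} (ha : 0 < a) (ω : ℕ → ℝ) : Ig (fi a) (xN N) ω = WS (fun n => fi a (xN N * Real.log n)) N ω :=
  Ig_WS (fi_Sm ha) (B := 1) (xN_pos hN) (by rw [one_mul]; exact xN_le hN) (fun u hu => fi_zero ha (by linarith)) (exp_xN hN).le ω

/-- the remainder -/
lemma SS_sub {N : ℕ} (hN : 3 ≤ N) {a : ℝ} (ha : 0 < a) (ω : ℕ → ℝ) : SS N ω - Ig (fi a) (xN N) ω = WS (fun n => be a (xN N * Real.log n)) N ω := by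
  rw [Ig_fi hN ha]
  unfold SS WS
  rw [← Finset.sum_sub_distrib]
  refine Finset.sum_congr rfl fun n hn => ?_
  rw [Finset.mem_Icc] at hn
  have hn1 : (1:ℝ) ≤ n := by exact_mod_cast hn.1
  have hl := log_N hN
  have h1 : 0 ≤ xN N * Real.log n := mul_nonneg (xN_pos hN).le (Real.log_nonneg hn1)
  have h2 : xN N * Real.log n ≤ 1 := by
    unfold xN
    rw [one_div_mul_eq_div, div_le_one (by linarith)]
    exact Real.log_le_log (by linarith) (by exact_mod_cast hn.2)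
  have h3 := fi_add_be ha h1 h2
  have h4 : ((1:ℝ):ℂ) = ((fi a (xN N * Real.log n) : ℝ) : ℂ) + ((be a (xN N * Real.log n) : ℝ) : ℂ) := by
    rw [← Complex.ofReal_add, h3]
  rw [h4]
  ring

/-- high exponents -/
theorem near_hi {k : ℝ} (hk : 1 ≤ k) {e : ℝ} (he : 0 < e) : ∃ η : ℝ, 0 < η ∧ η ≤ 1 / 2 ∧
    ∀ᶠ N : ℕ in atTop, nr k (xN N) (fun ω => SS N ω - Ig (fi η) (xN N) ω) ≤ e := by
  have hk0 : 0 < k := by linarith
  obtain ⟨C, hC, htr⟩ := trf (p := 2 * k) (by linarith)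
  have hkp := kp_pos hk0
  obtain ⟨e1, he1⟩ : ∃ e1 : ℝ, e1 = (e ^ (1 / kp k) / (2 * C)) ^ kp k := ⟨_, rfl⟩
  have he10 : 0 < e1 := by rw [he1]; positivity
  obtain ⟨η, hη, hη2, hbe⟩ := be_nr hk he10
  refine ⟨η, hη, hη2, ?_⟩
  have hlim2 : Tendsto (fun x : ℝ => (2 * x) ^ (k ^ 2)) (𝓝[>] 0) (𝓝 0) := by
    have h2 : Tendsto (fun x : ℝ => (2 * x) ^ (k ^ 2)) (𝓝 0) (𝓝 ((2 * 0) ^ (k ^ 2))) :=
      Tendsto.rpow_const (tendsto_id.const_mul 2) (Or.inr (by positivity))
    rw [mul_zero, Real.zero_rpow (by positivity)] at h2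
    exact h2.mono_left nhdsWithin_le_nhds
  have hpos : 0 < e ^ (1 / kp k) / (2 * C) := by positivity
  have hsm : ∀ᶠ x : ℝ in 𝓝[>] 0, x < 1 / 2 := by
    filter_upwards [Ioo_mem_nhdsGT (show (0:ℝ) < 1 / 2 by norm_num)] with x hx
    exact hx.2
  filter_upwards [xN_lim.eventually hbe, xN_lim.eventually (hlim2.eventually (gt_mem_nhds hpos)), xN_lim.eventually hsm, eventually_ge_atTop 3] with N h1 h2 h3 hN
  have hx := xN_pos hN
  have e2 : (fun ω => SS N ω - Ig (fi η) (xN N) ω) = WS (fun n => be η (xN N * Real.log n)) N := funext fun ω => SS_sub hN hη ω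
  have e3 : Ig (be η) (xN N) = WS (fun n => be η (xN N * Real.log n)) (N ^ 2) := by
    funext ω
    refine Ig_WS (be_Sm hη) (B := 1 + η) hx (by nlinarith) (fun u hu => be_zero hη hu) ?_ ω
    have h4 : Real.exp ((1 + η) / xN N) ≤ Real.exp (1 / xN N) ^ 2 := by
      rw [← Real.exp_nat_mul]
      refine Real.exp_le_exp.mpr ?_
      rw [div_le_iff₀ hx]
      push_cast
      field_simp
      linarith
    rw [exp_xN hN] at h4
    push_cast
    exact h4
  rw [e3] at h1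
  rw [e2]
  have h5 := htr N (N ^ 2) (by omega) (Nat.le_self_pow (by norm_num) N) (fun n => be η (xN N * Real.log n)) (fun n => be_abs _ _)
  have h6 : (2 * xN N) ^ (k ^ 2) * mk k (WS (fun n => be η (xN N * Real.log n)) (N ^ 2)) ≤ e ^ (1 / kp k) / (2 * C) := by
    have h7 := Real.rpow_le_rpow (nr_nonneg hx.le _) h1 (show 0 ≤ 1 / kp k by positivity)
    unfold nr at h7
    rw [← Real.rpow_mul (mul_nonneg (by positivity) (mk_nonneg _ _)), mul_one_div_cancel hkp.ne', Real.rpow_one, he1, ← Real.rpow_mul hpos.le, mul_one_div_cancel hkp.ne', Real.rpow_one] at h7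
    exact h7
  have h8 : (2 * xN N) ^ (k ^ 2) * mk k (WS (fun n => be η (xN N * Real.log n)) N) ≤ e ^ (1 / kp k) := by
    have h9 : mk k (WS (fun n => be η (xN N * Real.log n)) N) ≤ C * (mk k (WS (fun n => be η (xN N * Real.log n)) (N ^ 2)) + 1) := h5
    have h10 := mul_le_mul_of_nonneg_left h9 (show 0 ≤ (2 * xN N) ^ (k ^ 2) by positivity)
    refine h10.trans ?_
    have h11 : C * ((2 * xN N) ^ (k ^ 2) * mk k (WS (fun n => be η (xN N * Real.log n)) (N ^ 2)) + (2 * xN N) ^ (k ^ 2)) ≤ C * (e ^ (1 / kp k) / (2 * C) + e ^ (1 / kp k) / (2 * C)) :=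
      mul_le_mul_of_nonneg_left (add_le_add h6 h2.le) hC.le
    refine le_trans (le_of_eq (by ring)) (h11.trans (le_of_eq ?_))
    field_simp
    norm_num
  unfold nr
  refine (Real.rpow_le_rpow (mul_nonneg (by positivity) (mk_nonneg _ _)) h8 hkp.le).trans (le_of_eq ?_)
  rw [← Real.rpow_mul he.le, one_div_mul_cancel hkp.ne', Real.rpow_one]

/-- a harmonic sum -/
lemma harm {N : ℕ} {A : ℝ} (hA : 1 ≤ A) (hAN : A ≤ N) : ∑ n ∈ (Finset.Icc 1 N).filter (fun n : ℕ => A < n), (1:ℝ) / n ≤ 1 + Real.log N - Real.log A := by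
  obtain ⟨m, hm⟩ : ∃ m : ℕ, m = ⌊A⌋₊ := ⟨_, rfl⟩
  have hmA : (m:ℝ) ≤ A := by rw [hm]; exact Nat.floor_le (by linarith)
  have hAm : A < m + 1 := by rw [hm]; exact Nat.lt_floor_add_one A
  have hmN : m ≤ N := by
    have : (m:ℝ) ≤ N := hmA.trans hAN
    exact_mod_cast this
  have e1 : ∀ M : ℕ, ((harmonic M : ℚ) : ℝ) = ∑ n ∈ Finset.Icc 1 M, (1:ℝ) / n := by
    intro M
    rw [harmonic_eq_sum_Icc]
    push_cast
    exact Finset.sum_congr rfl fun n _ => by rw [one_div]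
  have h1 := harmonic_le_one_add_log N
  have h2 := log_add_one_le_harmonic m
  rw [e1] at h1 h2
  have h3 : ∑ n ∈ Finset.Icc 1 m, (1:ℝ) / n + ∑ n ∈ (Finset.Icc 1 N).filter (fun n : ℕ => A < n), (1:ℝ) / n ≤ ∑ n ∈ Finset.Icc 1 N, (1:ℝ) / n := by
    rw [← Finset.sum_union]
    · refine Finset.sum_le_sum_of_subset_of_nonneg ?_ fun n _ _ => by positivity
      refine Finset.union_subset (Finset.Icc_subset_Icc le_rfl hmN) (Finset.filter_subset _ _)
    · rw [Finset.disjoint_left]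
      intro n hn hn2
      rw [Finset.mem_Icc] at hn
      rw [Finset.mem_filter] at hn2
      have : (n:ℝ) ≤ m := by exact_mod_cast hn.2
      linarith [hn2.2]
  have h4 : Real.log A ≤ Real.log (m + 1) := Real.log_le_log (by linarith) hAm.le
  have h5 : Real.log (m + 1) ≤ ∑ n ∈ Finset.Icc 1 m, (1:ℝ) / n := by exact_mod_cast h2
  linarith

/-- low exponents -/
theorem near_lo {k : ℝ} (hk : 0 < k) (hk1 : k < 1) {e : ℝ} (he : 0 < e) : ∃ η : ℝ, 0 < η ∧ η ≤ 1 / 2 ∧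
    ∀ᶠ N : ℕ in atTop, nr k (xN N) (fun ω => SS N ω - Ig (fi η) (xN N) ω) ≤ e := by
  obtain ⟨η, hη, hη2, hdd⟩ := dd_nr hk hk1 (show 0 < e / 2 by positivity)
  refine ⟨η, hη, hη2, ?_⟩
  have hkp := kp_pos hk
  have hlim : Tendsto (fun x : ℝ => ((2 * x) ^ (k ^ 2) * (2 * x ^ (-(k / 2))) ^ k) ^ kp k) (𝓝[>] 0) (𝓝 0) := by
    have h1 : Tendsto (fun x : ℝ => (2 ^ (k ^ 2) * 2 ^ k * x ^ (k ^ 2 / 2)) ^ kp k) (𝓝 0) (𝓝 ((2 ^ (k ^ 2) * 2 ^ k * 0 ^ (k ^ 2 / 2)) ^ kp k)) := by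
      have h2 : Tendsto (fun x : ℝ => x ^ (k ^ 2 / 2)) (𝓝 0) (𝓝 (0 ^ (k ^ 2 / 2))) := tendsto_id.rpow_const (Or.inr (by positivity))
      exact (h2.const_mul _).rpow_const (Or.inr hkp.le)
    rw [Real.zero_rpow (by positivity), mul_zero, Real.zero_rpow hkp.ne'] at h1
    refine (h1.mono_left nhdsWithin_le_nhds).congr' ?_
    filter_upwards [self_mem_nhdsWithin] with x hx
    have hx0 : (0:ℝ) < x := hx
    congr 1
    rw [Real.mul_rpow (by norm_num) hx0.le, Real.mul_rpow (by norm_num) (by positivity), ← Real.rpow_mul hx0.le]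
    have e1 : x ^ (k ^ 2 / 2) = x ^ (k ^ 2) * x ^ (-(k / 2) * k) := by
      rw [← Real.rpow_add hx0]
      congr 1
      ring
    rw [e1]
    ring
  filter_upwards [xN_lim.eventually hdd, xN_lim.eventually (hlim.eventually (gt_mem_nhds (show 0 < e / 2 by positivity))), eventually_ge_atTop 3] with N h1 h2 hN
  have hx := xN_pos hN
  have hx1 := xN_le hN
  obtain ⟨x, hxx⟩ : ∃ x : ℝ, x = xN N := ⟨_, rfl⟩
  rw [← hxx] at h1 h2 hx hx1 ⊢
  obtain ⟨a, ha⟩ : ∃ a : ℝ, a = x ^ (1 - k / 2) := ⟨_, rfl⟩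
  have ha0 : 0 < a := by rw [ha]; positivity
  have ha1 : a ≤ 1 := by rw [ha]; exact Real.rpow_le_one hx.le hx1 (by linarith)
  rw [← ha] at h1
  -- the remainder
  have hr := SS_sub hN ha0
  rw [← hxx] at hr
  obtain ⟨f, hf⟩ : ∃ f : (ℕ → ℝ) → ℂ, f = WS (fun n => be a (x * Real.log n)) N := ⟨_, rfl⟩
  have hfg : Gd f := by rw [hf]; exact WS_gd _ _
  have hexpx : Real.exp (1 / x) = N := by rw [hxx]; exact exp_xN hN
  have hm1 : mk 1 f ≤ 2 * x ^ (-(k / 2)) := by
    rw [hf, WS_sq]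
    have h3 : ∑ n ∈ Finset.Icc 1 N, be a (x * Real.log n) ^ 2 / n ≤ ∑ n ∈ (Finset.Icc 1 N).filter (fun n : ℕ => Real.exp ((1 - a) / x) < n), (1:ℝ) / n := by
      rw [Finset.sum_filter]
      refine Finset.sum_le_sum fun n hn => ?_
      rw [Finset.mem_Icc] at hn
      have hn0 : (0:ℝ) < n := by exact_mod_cast (by omega : 0 < n)
      split_ifs with h
      · refine div_le_div_of_nonneg_right ?_ hn0.le
        have := be_nonneg a (x * Real.log n)
        have := be_le a (x * Real.log n)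
        nlinarith
      · have h4 : Real.log n ≤ (1 - a) / x := by
          rw [Real.log_le_iff_le_exp hn0]
          exact not_lt.mp h
        rw [le_div_iff₀ hx] at h4
        have h5 : be a (x * Real.log n) = 0 := by
          unfold be
          refine g0_zero (Or.inl ?_)
          rw [div_le_iff₀ ha0]
          linarith
        rw [h5]
        simp
    refine h3.trans ((harm (Real.one_le_exp (div_nonneg (by linarith) hx.le)) ?_).trans ?_)
    · rw [← hexpx]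
      refine Real.exp_le_exp.mpr (div_le_div_of_nonneg_right (by linarith) hx.le)
    · rw [Real.log_exp, ← hexpx, Real.log_exp]
      have e1 : 1 + 1 / x - (1 - a) / x = 1 + a / x := by
        field_simp
        ring
      have e2 : a / x = x ^ (-(k / 2)) := by
        rw [ha, ← Real.rpow_sub_one hx.ne']
        congr 1
        ring
      rw [e1, e2]
      have h4 : 1 ≤ x ^ (-(k / 2)) := Real.one_le_rpow_of_pos_of_le_one_of_nonpos hx hx1 (by linarith)
      linarith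
  have hm2 : mk k f ≤ (2 * x ^ (-(k / 2))) ^ k := (mk_two hk hk1.le hfg).trans (Real.rpow_le_rpow (mk_nonneg _ _) hm1 hk.le)
  have n1 : nr k x f ≤ e / 2 := (nr_le hk hx.le hm2).trans h2.le
  have e3 : (fun ω => SS N ω - Ig (fi η) x ω) = fun ω => f ω + Ig (dd a η) x ω := by
    funext ω
    have h4 : Ig (dd a η) x ω = Ig (fi a) x ω - Ig (fi η) x ω := by
      rw [Ig_Iw, Ig_Iw, Ig_Iw]
      unfold Iw
      rw [← integral_sub (wF_int ((ps_integrable (fi_Sm ha0)).const_mul _) hx ω) (wF_int ((ps_integrable (fi_Sm hη)).const_mul _) hx ω)]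
      refine integral_congr_ae (Eventually.of_forall fun y => ?_)
      show ((1 / (2 * Real.pi) : ℝ) : ℂ) * ps (dd a η) y * Fp x y ω = _
      have h5 : ps (dd a η) y = ps (fi a) y - ps (fi η) y := ps_sub (fi_Sm ha0) (fi_Sm hη) y
      rw [h5]
      ring
    rw [h4, hf, ← hr ω]
    ring
  rw [e3]
  refine (nr_add hk hx.le hfg (Ig_gd (dd_Sm ha0 hη) hx)).trans ?_
  linarith

/-- all exponents -/
theorem near {k : ℝ} (hk : 0 < k) {e : ℝ} (he : 0 < e) : ∃ η : ℝ, 0 < η ∧ η ≤ 1 / 2 ∧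
    ∀ᶠ N : ℕ in atTop, nr k (xN N) (fun ω => SS N ω - Ig (fi η) (xN N) ω) ≤ e := by
  rcases le_or_gt 1 k with h | h
  · exact near_hi h he
  · exact near_lo hk h he

end Pool.Agent.H470
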