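import Pool.Agent.H470.To24

set_option autoImplicit false

/-! Positivity of the limit. -/

namespace Pool.Agent.H470

open MeasureTheory Filter Topology ProbabilityTheory Set
open scoped ENNReal
open Pool.Agent.R313.CX (mu Cv)
open Pool.Agent.R313.FN (sla_mean)

/-- the mean of the model -/
theorem key_mean {k : ℝ} (hk : 0 < k) {φ : ℝ → ℝ} (h : Sm φ) :
    ((1 / (2 * Real.pi) : ℝ) : ℂ) * (∫ y : ℝ, ps φ y * Complex.exp (mu k y)) =
      (((1 / Real.Gamma k * ∫ v in Ioi (0:ℝ), v ^ (k - 1) * Real.exp (-(v / 2)) * φ (v / 2) : ℝ)) : ℂ) := by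
  have h1 := mean_lim hk h
  simp_rw [mean_xq k h] at h1
  have hi1 : Integrable (fun y : ℝ => ps φ y * Complex.exp (mu k y)) := by
    refine (ps_integrable h).mul_bdd (c := 1) (Complex.continuous_exp.comp (mu_cont k)).aestronglyMeasurable (Eventually.of_forall fun y => mu_exp_norm k hk.le y)
  have h2 : Tendsto (fun Q : ℝ => ∫ y in Icc (-Q) Q, ps φ y * Complex.exp (mu k y)) atTop (𝓝 (∫ y : ℝ, ps φ y * Complex.exp (mu k y))) :=
    (aecover_Icc tendsto_neg_atTop_atBot tendsto_id).integral_tendsto_of_countably_generated hi1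
  exact tendsto_nhds_unique (h2.const_mul _) h1

/-- the lower bound for the mean -/
theorem mean_low {k : ℝ} (hk0 : 0 < k) : ∃ m : ℝ, 0 < m ∧ ∀ φ : ℝ → ℝ, Sm φ → (∀ x, 0 ≤ φ x) → (∀ x, 0 ≤ x → x ≤ 1 / 2 → φ x = 1) →
    m ≤ ‖((1 / (2 * Real.pi) : ℝ) : ℂ) * (∫ y : ℝ, ps φ y * Complex.exp (mu k y))‖ := by
  have hΓ : 0 < Real.Gamma k := Real.Gamma_pos_of_pos hk0
  obtain ⟨m, hm⟩ : ∃ m : ℝ, m = 1 / Real.Gamma k * (Real.exp (-(1 / 2)) / k) := ⟨_, rfl⟩
  have hm0 : 0 < m := by rw [hm]; positivity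
  refine ⟨m, hm0, fun φ h h0 h1 => ?_⟩
  have hlow : m ≤ 1 / Real.Gamma k * ∫ v in Ioi (0:ℝ), v ^ (k - 1) * Real.exp (-(v / 2)) * φ (v / 2) := by
    rw [hm]
    refine mul_le_mul_of_nonneg_left ?_ (by positivity)
    have hint : IntegrableOn (fun v : ℝ => v ^ (k - 1) * Real.exp (-(v / 2)) * φ (v / 2)) (Ioi 0) := by
      obtain ⟨M', hM'⟩ : ∃ M' : ℝ, ∀ x, ‖Real.exp x * φ x‖ ≤ M' :=
        (Continuous.mul Real.continuous_exp h.cont).bounded_above_of_compact_support h.2.mul_left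
      have h3 := (Real.GammaIntegral_convergent hk0).const_mul M'
      refine h3.mono' ?_ ?_
      · have hc := h.cont
        refine Measurable.aestronglyMeasurable ?_
        have m1 : Measurable fun v : ℝ => v ^ (k - 1) := measurable_id.pow_const _
        exact (m1.mul (by fun_prop)).mul (by fun_prop)
      · refine (ae_restrict_mem measurableSet_Ioi).mono fun v hv => ?_
        have hv' : 0 < v := hv
        have h5 : v ^ (k - 1) * Real.exp (-(v / 2)) * φ (v / 2) = v ^ (k - 1) * Real.exp (-v) * (Real.exp (v / 2) * φ (v / 2)) := by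
          have h6 : Real.exp (-(v / 2)) = Real.exp (-v) * Real.exp (v / 2) := by
            rw [← Real.exp_add]
            congr 1
            ring
          rw [h6]
          ring
        rw [h5, norm_mul, Real.norm_of_nonneg (by positivity)]
        have h7 : 0 ≤ v ^ (k - 1) * Real.exp (-v) := by positivity
        have h8 := mul_le_mul_of_nonneg_left (hM' (v / 2)) h7
        linarith
    have hsub : ∫ v in Ioc (0:ℝ) 1, v ^ (k - 1) * Real.exp (-(v / 2)) * φ (v / 2) ≤ ∫ v in Ioi (0:ℝ), v ^ (k - 1) * Real.exp (-(v / 2)) * φ (v / 2) := by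
      refine setIntegral_mono_set hint ?_ (Ioc_subset_Ioi_self).eventuallyLE
      refine (ae_restrict_mem measurableSet_Ioi).mono fun v hv => ?_
      have hv' : 0 < v := hv
      have := h0 (v / 2)
      positivity
    refine le_trans ?_ hsub
    have h2 : ∫ v in Ioc (0:ℝ) 1, v ^ (k - 1) * Real.exp (-(1 / 2)) = Real.exp (-(1 / 2)) / k := by
      rw [← intervalIntegral.integral_of_le zero_le_one, intervalIntegral.integral_mul_const, integral_rpow (Or.inl (by linarith))]
      rw [Real.one_rpow, Real.zero_rpow (by linarith)]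
      have : k - 1 + 1 = k := by ring
      rw [this]
      ring
    rw [← h2]
    refine setIntegral_mono_on ?_ (hint.mono_set Ioc_subset_Ioi_self) measurableSet_Ioc fun v hv => ?_
    · have h9 : IntervalIntegrable (fun v : ℝ => v ^ (k - 1)) volume 0 1 := intervalIntegral.intervalIntegrable_rpow' (by linarith)
      rw [intervalIntegrable_iff_integrableOn_Ioc_of_le zero_le_one] at h9
      exact h9.mul_const _
    · rw [h1 (v / 2) (by linarith [hv.1]) (by linarith [hv.2]), mul_one]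
      have := hv.1
      refine mul_le_mul_of_nonneg_left (Real.exp_le_exp.mpr (by linarith [hv.2])) (by positivity)
  rw [key_mean hk0 h, Complex.norm_real]
  exact hlow.trans (le_abs_self _)

variable {n : ℕ}

/-- real linear functionals -/
lemma lin_form (L : StrongDual ℝ (Fin n → ℂ)) : ∃ a b : Fin n → ℂ, ∀ z : Fin n → ℂ, (L z : ℂ) * Complex.I = ∑ j, (a j * z j + b j * (starRingEnd ℂ) (z j)) := by
  classical
  refine ⟨fun j => (Complex.I * (L (Pi.single j 1) : ℂ) + (L (Pi.single j Complex.I) : ℂ)) / 2,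
    fun j => (Complex.I * (L (Pi.single j 1) : ℂ) - (L (Pi.single j Complex.I) : ℂ)) / 2, fun z => ?_⟩
  have hz : z = ∑ j, ((z j).re • (Pi.single j (1:ℂ) : Fin n → ℂ) + (z j).im • (Pi.single j Complex.I : Fin n → ℂ)) := by
    have h1 := Finset.univ_sum_single z
    nth_rewrite 1 [← h1]
    refine Finset.sum_congr rfl fun j _ => ?_
    rw [← Pi.single_smul, ← Pi.single_smul, ← Pi.single_add]
    congr 1
    rw [Complex.real_smul, Complex.real_smul, mul_one]
    exact (Complex.re_add_im (z j)).symm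
  have hL : L z = ∑ j, ((z j).re * L (Pi.single j 1) + (z j).im * L (Pi.single j Complex.I)) := by
    nth_rewrite 1 [hz]
    rw [map_sum]
    refine Finset.sum_congr rfl fun j _ => ?_
    rw [map_add, map_smul, map_smul, smul_eq_mul, smul_eq_mul]
  rw [hL, Complex.ofReal_sum, Finset.sum_mul]
  refine Finset.sum_congr rfl fun j _ => ?_
  have h1 := Complex.add_conj (z j)
  have h2 := Complex.sub_conj (z j)
  push_cast at h1 h2 ⊢
  have hI : Complex.I * Complex.I = -1 := Complex.I_mul_I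
  linear_combination -(Complex.I * (L (Pi.single j 1) : ℂ) / 2) * h1 - ((L (Pi.single j Complex.I) : ℂ) / 2) * h2

/-- uniqueness of the law -/
theorem law_unique {μ ν : Measure (Fin n → ℂ)} [IsProbabilityMeasure μ] [IsProbabilityMeasure ν]
    (h : ∀ a b : Fin n → ℂ, ∫ z, Complex.exp (∑ j, (a j * z j + b j * (starRingEnd ℂ) (z j))) ∂μ = ∫ z, Complex.exp (∑ j, (a j * z j + b j * (starRingEnd ℂ) (z j))) ∂ν) :
    μ = ν := by
  refine Measure.ext_of_charFunDual (funext fun L => ?_)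
  rw [charFunDual_apply, charFunDual_apply]
  obtain ⟨a, b, hab⟩ := lin_form L
  simp_rw [hab]
  exact h a b

/-- the rotation -/
noncomputable def Rt (m : Fin n → ℂ) (u : ℂ) (z : Fin n → ℂ) : Fin n → ℂ := fun j => m j + u * (z j - m j)

lemma Rt_cont (m : Fin n → ℂ) (u : ℂ) : Continuous (Rt m u) := by
  unfold Rt
  fun_prop

/-- rotation invariance -/
theorem rot_inv {k : ℝ} {y : Fin n → ℝ} {ρ : ProbabilityMeasure (Fin n → ℂ)}
    (hρ : ∀ α β : Fin n → ℂ, ∫ z, Complex.exp (∑ j, (α j * z j + β j * (starRingEnd ℂ) (z j))) ∂(ρ : Measure (Fin n → ℂ)) =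
      Complex.exp (∑ j, (α j * mu k (y j) + β j * (starRingEnd ℂ) (mu k (y j))) + ∑ i, ∑ j, α i * β j * Cv (y i) (y j)))
    {u : ℂ} (hu : u * (starRingEnd ℂ) u = 1) : (ρ : Measure (Fin n → ℂ)).map (Rt (fun j => mu k (y j)) u) = ρ := by
  have hc := Rt_cont (fun j => mu k (y j)) u
  have : IsProbabilityMeasure ((ρ : Measure (Fin n → ℂ)).map (Rt (fun j => mu k (y j)) u)) := Measure.isProbabilityMeasure_map hc.measurable.aemeasurable
  refine law_unique fun a b => ?_
  have hcj := Complex.continuous_conj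
  rw [integral_map hc.measurable.aemeasurable (Continuous.aestronglyMeasurable (by fun_prop))]
  have e1 : ∀ z : Fin n → ℂ, Complex.exp (∑ j, (a j * Rt (fun j => mu k (y j)) u z j + b j * (starRingEnd ℂ) (Rt (fun j => mu k (y j)) u z j))) =
      Complex.exp (∑ j, (a j * ((1 - u) * mu k (y j)) + b j * ((1 - (starRingEnd ℂ) u) * (starRingEnd ℂ) (mu k (y j))))) *
      Complex.exp (∑ j, ((u * a j) * z j + ((starRingEnd ℂ) u * b j) * (starRingEnd ℂ) (z j))) := by
    intro z
    rw [← Complex.exp_add, ← Finset.sum_add_distrib]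
    congr 1
    refine Finset.sum_congr rfl fun j _ => ?_
    unfold Rt
    simp only [map_add, map_mul, map_sub]
    ring
  simp_rw [e1]
  rw [integral_const_mul, hρ (fun j => u * a j) (fun j => (starRingEnd ℂ) u * b j), hρ a b, ← Complex.exp_add]
  congr 1
  have e2 : ∑ i, ∑ j, u * a i * ((starRingEnd ℂ) u * b j) * Cv (y i) (y j) = ∑ i, ∑ j, a i * b j * Cv (y i) (y j) := by
    refine Finset.sum_congr rfl fun i _ => Finset.sum_congr rfl fun j _ => ?_
    linear_combination (a i * b j * Cv (y i) (y j)) * hu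
  rw [e2, ← add_assoc, ← Finset.sum_add_distrib]
  congr 1
  refine Finset.sum_congr rfl fun j _ => ?_
  ring

/-- the lower bound in the model -/
theorem mod_low {k : ℝ} {y : Fin n → ℝ} {ρ : ProbabilityMeasure (Fin n → ℂ)}
    (hρ : ∀ α β : Fin n → ℂ, ∫ z, Complex.exp (∑ j, (α j * z j + β j * (starRingEnd ℂ) (z j))) ∂(ρ : Measure (Fin n → ℂ)) =
      Complex.exp (∑ j, (α j * mu k (y j) + β j * (starRingEnd ℂ) (mu k (y j))) + ∑ i, ∑ j, α i * β j * Cv (y i) (y j)))
    (c : Fin n → ℂ) {p : ℝ} (hp : 0 < p) :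
    ENNReal.ofReal (‖∑ j, c j * Complex.exp (mu k (y j))‖ ^ p) ≤ ∫⁻ z, ENNReal.ofReal (‖∑ j, c j * Complex.exp (z j)‖ ^ p) ∂(ρ : Measure (Fin n → ℂ)) := by
  obtain ⟨g, hg⟩ : ∃ g : (Fin n → ℂ) → ℂ → ℂ, ∀ z u, g z u = ∑ j, c j * Complex.exp (Rt (fun j => mu k (y j)) u z j) := ⟨fun z u => _, fun _ _ => rfl⟩
  have hgc : Continuous fun q : (Fin n → ℂ) × ℂ => g q.1 q.2 := by
    simp_rw [hg]
    unfold Rt
    fun_prop
  obtain ⟨v, hv⟩ : ∃ v : ℝ, v = ‖∑ j, c j * Complex.exp (mu k (y j))‖ ^ p := ⟨_, rfl⟩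
  have hv0 : 0 ≤ v := by rw [hv]; positivity
  obtain ⟨E, hE⟩ : ∃ E : ℝ≥0∞, E = ∫⁻ z, ENNReal.ofReal (‖∑ j, c j * Complex.exp (z j)‖ ^ p) ∂(ρ : Measure (Fin n → ℂ)) := ⟨_, rfl⟩
  rw [← hv, ← hE]
  -- one rotation
  have hrot : ∀ θ : ℝ, ∫⁻ z, ENNReal.ofReal (‖g z (circleMap 0 1 θ)‖ ^ p) ∂(ρ : Measure (Fin n → ℂ)) = E := by
    intro θ
    have hu : circleMap 0 1 θ * (starRingEnd ℂ) (circleMap 0 1 θ) = 1 := by
      rw [Complex.mul_conj, Complex.normSq_eq_norm_sq]
      simp [circleMap, Complex.norm_exp_ofReal_mul_I]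
    have h1 := rot_inv hρ hu
    rw [hE]
    nth_rewrite 2 [← h1]
    rw [lintegral_map (Continuous.measurable (by
      refine ENNReal.continuous_ofReal.comp (Continuous.rpow_const (by fun_prop) fun _ => Or.inr hp.le))) (Rt_cont _ _).measurable]
    simp_rw [hg]
  -- subharmonicity
  have hsub : ∀ z, ENNReal.ofReal (2 * Real.pi * v) ≤ ∫⁻ θ in Ioo (-Real.pi) Real.pi, ENNReal.ofReal (‖g z (circleMap 0 1 θ)‖ ^ p) := by
    intro z
    have hgd : Differentiable ℂ (g z) := by
      have e0 : g z = fun u => ∑ j, c j * Complex.exp (Rt (fun j => mu k (y j)) u z j) := funext (hg z)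
      rw [e0]
      unfold Rt
      fun_prop
    have h1 := sla_mean hp (g z) univ isOpen_univ hgd.differentiableOn 0 1 one_pos (subset_univ _)
    have e1 : ‖g z 0‖ ^ p = v := by
      rw [hg, hv]
      unfold Rt
      simp
    rw [e1] at h1
    refine (ENNReal.ofReal_le_ofReal h1).trans (le_of_eq ?_)
    have hcc : Continuous fun θ : ℝ => ‖g z (circleMap 0 1 θ)‖ ^ p := by
      refine Continuous.rpow_const ?_ fun _ => Or.inr hp.le
      exact (hgd.continuous.comp (continuous_circleMap 0 1)).norm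
    rw [ofReal_integral_eq_lintegral_ofReal ((hcc.integrableOn_Icc (a := -Real.pi) (b := Real.pi)).mono_set Ioo_subset_Icc_self) (Eventually.of_forall fun θ => by positivity)]
  have h2 : ENNReal.ofReal (2 * Real.pi * v) ≤ ∫⁻ z, (∫⁻ θ in Ioo (-Real.pi) Real.pi, ENNReal.ofReal (‖g z (circleMap 0 1 θ)‖ ^ p)) ∂(ρ : Measure (Fin n → ℂ)) := by
    have h3 := lintegral_mono (μ := (ρ : Measure (Fin n → ℂ))) hsub
    simpa using h3
  have hm : Measurable fun q : (Fin n → ℂ) × ℝ => ENNReal.ofReal (‖g q.1 (circleMap 0 1 q.2)‖ ^ p) := by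
    refine Continuous.measurable (ENNReal.continuous_ofReal.comp (Continuous.rpow_const ?_ fun _ => Or.inr hp.le))
    exact (hgc.comp (f := fun q : (Fin n → ℂ) × ℝ => (q.1, circleMap 0 1 q.2)) (continuous_fst.prodMk ((continuous_circleMap 0 1).comp continuous_snd))).norm
  rw [lintegral_lintegral_swap hm.aemeasurable] at h2
  simp_rw [hrot] at h2
  rw [setLIntegral_const, Real.volume_Ioo, mul_comm, ENNReal.ofReal_mul (by positivity)] at h2
  have e3 : Real.pi - -Real.pi = 2 * Real.pi := by ring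
  rw [e3] at h2
  have h4 : ENNReal.ofReal (2 * Real.pi) ≠ 0 := by
    rw [Ne, ENNReal.ofReal_eq_zero, not_le]
    positivity
  exact (ENNReal.mul_le_mul_iff_left h4 ENNReal.ofReal_ne_top).mp h2

end Pool.Agent.H470
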