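import Pool.Agent.H470.To25

set_option autoImplicit false

/-! The limit. -/

namespace Pool.Agent.H470

open MeasureTheory Filter Topology ProbabilityTheory Set
open scoped ENNReal
open Pool.Agent.R313.CX (mu Cv)

/-- the limit of the norm of a finite combination, with a lower bound -/
theorem nr_lim2 {k : ℝ} (hk : 0 < k) {n : ℕ} (y : Fin n → ℝ) (c : Fin n → ℂ) :
    ∃ v : ℝ, (aK k * ‖∑ j, c j * Complex.exp (mu k (y j))‖ ^ (2 * k)) ^ kp k ≤ v ∧
      Tendsto (fun x : ℝ => nr k x (fun ω => ∑ j, c j * Fp x (y j) ω)) (𝓝[>] 0) (𝓝 v) := by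
  obtain ⟨ρ, hρ1, hρ2, h⟩ := fld_lim hk y
  have hkp := kp_pos hk
  have haK := (mass_lim k).2.1
  have h1 := h (fun z => ‖∑ j, c j * z j‖ ^ (2 * k)) (by
    refine Continuous.rpow_const (by fun_prop) fun _ => Or.inr (by positivity)) (fun u z => by
    rw [← Real.mul_rpow (norm_nonneg _) (norm_nonneg _), ← norm_mul, Finset.mul_sum]
    congr 2
    refine Finset.sum_congr rfl fun j _ => ?_
    rw [Pi.smul_apply, smul_eq_mul]
    ring)
  refine ⟨_, ?_, h1.rpow_const (Or.inr hkp.le)⟩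
  refine Real.rpow_le_rpow (by positivity) (mul_le_mul_of_nonneg_left ?_ haK.le) hkp.le
  have h2 := mod_low hρ2 c (p := 2 * k) (by positivity)
  have hi : Integrable (fun z : Fin n → ℂ => ‖∑ j, c j * Complex.exp (z j)‖ ^ (2 * k)) (ρ : Measure (Fin n → ℂ)) := by
    obtain ⟨M, hM⟩ : ∃ M : ℝ, M = ∑ j, ‖c j‖ := ⟨_, rfl⟩
    have hM0 : 0 ≤ M := by rw [hM]; exact Finset.sum_nonneg fun j _ => norm_nonneg _
    have h3 := (hρ1 (2 * k)).const_mul (M ^ (2 * k))
    refine h3.mono' ?_ (Eventually.of_forall fun z => ?_)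
    · refine Continuous.aestronglyMeasurable ?_
      exact Continuous.rpow_const (by fun_prop) fun _ => Or.inr (by positivity)
    · rw [Real.norm_of_nonneg (by positivity)]
      have h4 : ‖∑ j, c j * Complex.exp (z j)‖ ≤ M * Real.exp ‖z‖ := by
        refine (norm_sum_le _ _).trans ?_
        rw [hM, Finset.sum_mul]
        refine Finset.sum_le_sum fun j _ => ?_
        rw [norm_mul, Complex.norm_exp]
        refine mul_le_mul_of_nonneg_left (Real.exp_le_exp.mpr ((Complex.re_le_norm _).trans (norm_le_pi_norm z j))) (norm_nonneg _)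
      refine (Real.rpow_le_rpow (norm_nonneg _) h4 (by positivity)).trans (le_of_eq ?_)
      rw [Real.mul_rpow hM0 (Real.exp_pos _).le, ← Real.exp_mul]
      congr 2
      ring
  rw [← ofReal_integral_eq_lintegral_ofReal hi (Eventually.of_forall fun z => by positivity)] at h2
  exact (ENNReal.ofReal_le_ofReal_iff (integral_nonneg fun z => by positivity)).mp h2

/-- the approximate limit -/
theorem ap_lim {k : ℝ} (hk : 0 < k) : ∃ c0 : ℝ, 0 < c0 ∧ ∀ e : ℝ, 0 < e → ∃ v : ℝ, c0 ≤ v ∧ ∀ᶠ N : ℕ in atTop, |nr k (xN N) (SS N) - v| ≤ e := by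
  obtain ⟨m, hm, hmean⟩ := mean_low hk
  have haK := (mass_lim k).2.1
  have hkp := kp_pos hk
  refine ⟨(aK k * (m / 2) ^ (2 * k)) ^ kp k, by positivity, fun e he => ?_⟩
  obtain ⟨η, hη, hη2, hnear⟩ := near hk (show 0 < e / 3 by positivity)
  have hSm := fi_Sm hη
  obtain ⟨Q1, hQ1, happ⟩ := app hk hSm (show 0 < e / 3 by positivity)
  obtain ⟨Q2, hQ2, hmn⟩ := mn_app hSm hk.le (show 0 < m / 2 by positivity)
  obtain ⟨Q, hQ⟩ : ∃ Q : ℝ, Q = max Q1 Q2 := ⟨_, rfl⟩
  obtain ⟨m1, hm1, happ2⟩ := happ Q (by rw [hQ]; exact le_max_left _ _)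
  obtain ⟨m2, hm2, hmn2⟩ := hmn Q (by rw [hQ]; exact le_max_right _ _)
  obtain ⟨M, hM⟩ : ∃ M : ℕ, M = max m1 m2 := ⟨_, rfl⟩
  have ha := happ2 M (by rw [hM]; exact le_max_left _ _)
  have hb := hmn2 M (by rw [hM]; exact le_max_right _ _)
  obtain ⟨v, hv1, hv2⟩ := nr_lim2 hk (nd Q M) (wt (fi η) Q M)
  have hml := hmean (fi η) hSm (fi_nonneg η) (fun x hx hx1 => fi_one hη hx (by linarith))
  have hlow : m / 2 ≤ ‖∑ j, wt (fi η) Q M j * Complex.exp (mu k (nd Q M j))‖ := by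
    have h1 := norm_sub_norm_le (((1 / (2 * Real.pi) : ℝ) : ℂ) * (∫ y : ℝ, ps (fi η) y * Complex.exp (mu k y))) (∑ j, wt (fi η) Q M j * Complex.exp (mu k (nd Q M j)))
    linarith
  refine ⟨v, ?_, ?_⟩
  · refine le_trans ?_ hv1
    refine Real.rpow_le_rpow (by positivity) (mul_le_mul_of_nonneg_left ?_ haK.le) hkp.le
    exact Real.rpow_le_rpow (by positivity) hlow (by positivity)
  · have hv3 := (hv2.comp xN_lim)
    filter_upwards [hnear, Metric.tendsto_nhds.mp hv3 (e / 3) (by positivity), eventually_ge_atTop 3] with N h1 h2 hN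
    have hx := xN_pos hN
    have hx1 := xN_le hN
    have h3 := nr_sub hk hx.le (SS_gd N) (Ig_gd hSm hx)
    have h4 := nr_sub hk hx.le (Ig_gd hSm hx) (sum_gd hx (wt (fi η) Q M) (nd Q M))
    have h5 := ha (xN N) hx hx1
    rw [Real.dist_eq] at h2
    have h6 : |nr k (xN N) (fun ω => ∑ j, wt (fi η) Q M j * Fp (xN N) (nd Q M j) ω) - v| < e / 3 := h2
    have a1 := abs_le.mp (h3.trans h1)
    have a2 := abs_le.mp (h4.trans h5)
    have a3 := abs_lt.mp h6
    rw [abs_le]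
    constructor <;> linarith [a1.1, a1.2, a2.1, a2.2, a3.1, a3.2]

/-- the limit -/
theorem nr_SS {k : ℝ} (hk : 0 < k) : ∃ v : ℝ, 0 < v ∧ Tendsto (fun N : ℕ => nr k (xN N) (SS N)) atTop (𝓝 v) := by
  obtain ⟨c0, hc0, h⟩ := ap_lim hk
  have hcs : CauchySeq (fun N : ℕ => nr k (xN N) (SS N)) := by
    rw [Metric.cauchySeq_iff']
    intro e he
    obtain ⟨v, -, hv⟩ := h (e / 3) (by positivity)
    obtain ⟨N0, hN0⟩ := eventually_atTop.mp hv
    refine ⟨N0, fun N hN => ?_⟩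
    have h1 := abs_le.mp (hN0 N hN)
    have h2 := abs_le.mp (hN0 N0 le_rfl)
    rw [Real.dist_eq, abs_lt]
    constructor <;> linarith [h1.1, h1.2, h2.1, h2.2]
  obtain ⟨v, hv⟩ := cauchySeq_tendsto_of_complete hcs
  refine ⟨v, ?_, hv⟩
  obtain ⟨u, hu0, hu⟩ := h (c0 / 2) (by positivity)
  have h1 : c0 / 2 ≤ v := by
    refine ge_of_tendsto hv ?_
    filter_upwards [hu] with N hN
    have := (abs_le.mp hN).1
    linarith
  linarith

/-- the moments on the torus -/
theorem mk_SS {k : ℝ} (hk : 0 < k) : ∃ c : ℝ, 0 < c ∧ Tendsto (fun N : ℕ => mk k (SS N) / Real.log N ^ (k ^ 2)) atTop (𝓝 c) := by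
  obtain ⟨v, hv, h⟩ := nr_SS hk
  have hkp := kp_pos hk
  have h1 := (h.rpow_const (p := 1 / kp k) (Or.inr (by positivity))).div_const (2 ^ (k ^ 2))
  refine ⟨_, by positivity, h1.congr' ?_⟩
  filter_upwards [eventually_ge_atTop 3] with N hN
  have hx := xN_pos hN
  have hl := log_N hN
  have hmk := mk_nonneg k (SS N)
  unfold nr
  rw [← Real.rpow_mul (mul_nonneg (by positivity) hmk), mul_one_div_cancel hkp.ne', Real.rpow_one, Real.mul_rpow (by norm_num) hx.le]
  unfold xN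
  rw [Real.div_rpow (by norm_num) (by linarith), Real.one_rpow]
  have h2 : (0:ℝ) < Real.log N ^ (k ^ 2) := by positivity
  field_simp

end Pool.Agent.H470
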