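import Pool.Agent.H470.To20

set_option autoImplicit false

/-! Time averages of continuous functions of several Dirichlet polynomials. -/

namespace Pool.Agent.H470

open MeasureTheory Filter Topology ProbabilityTheory Set Complex

variable {ι : Type} [Fintype ι]

/-- the algebra of good functions -/
noncomputable def alg (f : ι → ℝ → ℂ) (F : ι → (ℕ → ℝ) → ℂ) : Subalgebra ℝ C(ι → ℂ, ℝ) where
  carrier := {g | Bp (fun t => ((g (fun i => f i t) : ℝ) : ℂ)) (fun ω => ((g (fun i => F i ω) : ℝ) : ℂ))}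
  mul_mem' := by
    intro a b ha hb
    have h := Bp.mul ha hb
    show Bp _ _
    simpa only [ContinuousMap.mul_apply, Complex.ofReal_mul] using h
  add_mem' := by
    intro a b ha hb
    have h := Bp.add ha hb
    show Bp _ _
    simpa only [ContinuousMap.add_apply, Complex.ofReal_add] using h
  algebraMap_mem' := by
    intro r
    exact Bp.const (r : ℂ)

lemma re_bp {f : ℝ → ℂ} {F : (ℕ → ℝ) → ℂ} (h : Bp f F) : Bp (fun t => (((f t).re : ℝ) : ℂ)) (fun ω => (((F ω).re : ℝ) : ℂ)) := by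
  have h1 := (Bp.const (1 / 2)).mul (h.add h.conj)
  have e : ∀ z : ℂ, ((z.re : ℝ) : ℂ) = 1 / 2 * (z + (starRingEnd ℂ) z) := by
    intro z
    rw [Complex.add_conj]
    push_cast
    ring
  simp_rw [e]
  exact h1

lemma im_bp {f : ℝ → ℂ} {F : (ℕ → ℝ) → ℂ} (h : Bp f F) : Bp (fun t => (((f t).im : ℝ) : ℂ)) (fun ω => (((F ω).im : ℝ) : ℂ)) := by
  have h1 := re_bp ((Bp.const (-I)).mul h)
  have e : ∀ z : ℂ, (-I * z).re = z.im := by
    intro z
    simp
  simp_rw [e] at h1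
  exact h1

lemma alg_sep {f : ι → ℝ → ℂ} {F : ι → (ℕ → ℝ) → ℂ} (h : ∀ i, Bp (f i) (F i)) : (alg f F).SeparatesPoints := by
  intro z w hzw
  obtain ⟨i, hi⟩ : ∃ i, z i ≠ w i := by
    by_contra hcon
    push Not at hcon
    exact hzw (funext hcon)
  by_cases hre : (z i).re = (w i).re
  · have him : (z i).im ≠ (w i).im := fun hc => hi (Complex.ext hre hc)
    refine ⟨fun v : ι → ℂ => (v i).im, ⟨⟨fun v => (v i).im, by fun_prop⟩, ?_, rfl⟩, him⟩
    exact im_bp (h i)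
  · refine ⟨fun v : ι → ℂ => (v i).re, ⟨⟨fun v => (v i).re, by fun_prop⟩, ?_, rfl⟩, hre⟩
    exact re_bp (h i)

/-- time averages -/
theorem Bp.fn {f : ι → ℝ → ℂ} {F : ι → (ℕ → ℝ) → ℂ} (h : ∀ i, Bp (f i) (F i)) {H : (ι → ℂ) → ℝ} (hH : Continuous H) :
    Tendsto (fun T : ℝ => 1 / T * ∫ t in (0:ℝ)..T, H (fun i => f i t)) atTop (𝓝 (∫ ω, H (fun i => F i ω) ∂tm)) := by
  choose M hM0 hMf hMF using fun i => (h i).bd
  obtain ⟨B, hB⟩ : ∃ B : ℝ, B = ∑ i, M i := ⟨_, rfl⟩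
  have hB0 : 0 ≤ B := by rw [hB]; exact Finset.sum_nonneg fun i _ => hM0 i
  have hMB : ∀ i, M i ≤ B := fun i => by rw [hB]; exact Finset.single_le_sum (fun i _ => hM0 i) (Finset.mem_univ i)
  obtain ⟨K, hK⟩ : ∃ K : Set (ι → ℂ), K = Metric.closedBall 0 B := ⟨_, rfl⟩
  have hKc : IsCompact K := by rw [hK]; exact isCompact_closedBall 0 B
  have hfK : ∀ t, (fun i => f i t) ∈ K := fun t => by
    rw [hK, mem_closedBall_zero_iff, pi_norm_le_iff_of_nonneg hB0]
    exact fun i => (hMf i t).trans (hMB i)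
  have hFK : ∀ ω, (fun i => F i ω) ∈ K := fun ω => by
    rw [hK, mem_closedBall_zero_iff, pi_norm_le_iff_of_nonneg hB0]
    exact fun i => (hMF i ω).trans (hMB i)
  have hfc : Continuous fun t => (fun i => f i t) := continuous_pi fun i => (h i).cont
  have hFc : Continuous fun ω => (fun i => F i ω) := continuous_pi fun i => (h i).contF
  rw [Metric.tendsto_nhds]
  intro e he
  obtain ⟨g, hgA, hg⟩ := ContinuousMap.exists_mem_subalgebra_near_continuous_of_isCompact_of_separatesPoints (alg_sep h) ⟨H, hH⟩ hKc (ε := e / 4) (by positivity)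
  have hgl : Tendsto (fun T : ℝ => 1 / T * ∫ t in (0:ℝ)..T, g (fun i => f i t)) atTop (𝓝 (∫ ω, g (fun i => F i ω) ∂tm)) := by
    have h3 := (Complex.continuous_re.tendsto _).comp (Bp.lim hgA)
    have e4 : (∫ ω, ((g (fun i => F i ω) : ℝ) : ℂ) ∂tm).re = ∫ ω, g (fun i => F i ω) ∂tm := by
      rw [integral_complex_ofReal, Complex.ofReal_re]
    rw [e4] at h3
    refine h3.congr fun T => ?_
    show (((1 / T : ℝ) : ℂ) * ∫ t in (0:ℝ)..T, ((g (fun i => f i t) : ℝ) : ℂ)).re = _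
    rw [intervalIntegral.integral_ofReal, ← Complex.ofReal_mul, Complex.ofReal_re]
  obtain ⟨b, hb⟩ : ∃ b : ℝ, ∀ z ∈ K, ‖H z‖ ≤ b := by
    obtain ⟨b, hb⟩ := hKc.exists_bound_of_continuousOn hH.continuousOn
    exact ⟨b, hb⟩
  have hc1 : Continuous fun t => g (fun i => f i t) := g.continuous.comp hfc
  have hc2 : Continuous fun t => H (fun i => f i t) := hH.comp hfc
  have hi2 : Integrable (fun ω => H (fun i => F i ω)) tm := tm_int (hH.comp hFc) (B := b) fun ω => hb _ (hFK ω)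
  have hi1 : Integrable (fun ω => g (fun i => F i ω)) tm := tm_int (g.continuous.comp hFc) (B := b + e / 4) fun ω => by
    have h3 := hg _ (hFK ω)
    have h4 := hb _ (hFK ω)
    have h5 := norm_sub_norm_le (g (fun i => F i ω)) (H (fun i => F i ω))
    have h6 : ‖g (fun i => F i ω) - H (fun i => F i ω)‖ < e / 4 := h3
    linarith
  have hT2 : |(∫ ω, g (fun i => F i ω) ∂tm) - ∫ ω, H (fun i => F i ω) ∂tm| ≤ e / 4 := by
    rw [← integral_sub hi1 hi2, ← Real.norm_eq_abs]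
    refine (norm_integral_le_of_norm_le_const (C := e / 4) (Eventually.of_forall fun ω => ?_)).trans (by simp)
    exact (hg _ (hFK ω)).le
  filter_upwards [Metric.tendsto_nhds.mp hgl (e / 4) (by positivity), eventually_gt_atTop 0] with T hT hT0
  have hT1 : |1 / T * (∫ t in (0:ℝ)..T, g (fun i => f i t)) - 1 / T * ∫ t in (0:ℝ)..T, H (fun i => f i t)| ≤ e / 4 := by
    rw [← mul_sub, ← intervalIntegral.integral_sub (hc1.intervalIntegrable _ _) (hc2.intervalIntegrable _ _), abs_mul, abs_of_nonneg (by positivity), ← Real.norm_eq_abs]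
    have h3 := intervalIntegral.norm_integral_le_of_norm_le_const (f := fun t => g (fun i => f i t) - H (fun i => f i t)) (a := 0) (b := T) (C := e / 4) (fun t _ => (hg _ (hfK t)).le)
    rw [sub_zero, abs_of_pos hT0] at h3
    have h4 := mul_le_mul_of_nonneg_left h3 (show 0 ≤ 1 / T by positivity)
    refine h4.trans (le_of_eq ?_)
    field_simp
  rw [Real.dist_eq] at hT ⊢
  rw [abs_lt] at hT ⊢
  rw [abs_le] at hT1 hT2
  constructor <;> linarith [hT.1, hT.2, hT1.1, hT1.2, hT2.1, hT2.2]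

/-- the twisted sums -/
noncomputable def Tw (w : ℕ → ℝ) (N : ℕ) (a : ℝ) (ω : ℕ → ℝ) : ℂ :=
  ∑ n ∈ Finset.Icc 1 N, (w n : ℂ) * (n:ℂ) ^ (-(1 / 2) : ℂ) * tn n a * ch n ω

/-- shifted sums correspond to twisted sums -/
theorem WW_Tw (w : ℕ → ℝ) (N : ℕ) (a : ℝ) : Bp (fun t => WW w N (t + a)) (Tw w N a) := by
  refine ⟨Finset.Icc 1 N, inferInstance, fun n => (w n : ℂ) * ((n:ℕ):ℂ) ^ (-(1 / 2) : ℂ) * tn n a, fun n => n, fun _ => 1, fun n => ?_, fun _ => one_ne_zero, fun t => ?_, fun ω => ?_⟩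
  · have := n.2
    rw [Finset.mem_Icc] at this
    show (n:ℕ) ≠ 0
    omega
  · show WW w N (t + a) = _
    unfold WW
    rw [← Finset.sum_coe_sort]
    refine Finset.sum_congr rfl fun n _ => ?_
    have hn : ((n:ℕ):ℂ) ≠ 0 := by
      have := n.2
      rw [Finset.mem_Icc] at this
      exact_mod_cast (by omega : (n:ℕ) ≠ 0)
    rw [tn_one, map_one, mul_one]
    unfold tn
    rw [mul_assoc, mul_assoc, ← Complex.cpow_add _ _ hn, ← Complex.cpow_add _ _ hn]
    congr 2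
    push_cast
    ring
  · unfold Tw
    rw [← Finset.sum_coe_sort]
    refine Finset.sum_congr rfl fun n _ => ?_
    rw [ch_one, map_one, mul_one]

lemma Tw_gd (w : ℕ → ℝ) (N : ℕ) (a : ℝ) : Gd (Tw w N a) := by
  unfold Tw
  refine Gd.sum _ fun n _ => ?_
  exact Gd.const_mul ⟨(ch_cont n).measurable, 1, fun ω => (ch_norm n ω).le⟩ _

/-- the mass does not change -/
theorem Tw_mk {k : ℝ} (hk : 0 < k) (w : ℕ → ℝ) (N : ℕ) (a : ℝ) : mk k (Tw w N a) = mk k (WS w N) := by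
  have h1 := (WW_Tw w N a).pow (β := 2 * k) (by positivity)
  have h2 := (WW_WS w N).pow (β := 2 * k) (by positivity)
  obtain ⟨M, hM0, hM, -⟩ := (WW_WS w N).bd
  have hc := (WW_WS w N).cont
  have hcp : Continuous fun t => ‖WW w N t‖ ^ (2 * k) := hc.norm.rpow_const fun _ => Or.inr (by positivity)
  have e1 : ∀ T : ℝ, 0 < T → |1 / T * (∫ t in (0:ℝ)..T, ‖WW w N (t + a)‖ ^ (2 * k)) - 1 / T * ∫ t in (0:ℝ)..T, ‖WW w N t‖ ^ (2 * k)| ≤ 2 * |a| * M ^ (2 * k) * (1 / T) := by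
    intro T hT
    rw [intervalIntegral.integral_comp_add_right (fun t => ‖WW w N t‖ ^ (2 * k)), ← mul_sub, abs_mul, abs_of_nonneg (show 0 ≤ 1 / T by positivity), zero_add]
    have hi : ∀ x y : ℝ, IntervalIntegrable (fun t => ‖WW w N t‖ ^ (2 * k)) volume x y := fun x y => hcp.intervalIntegrable _ _
    have e2 : (∫ t in a..(T + a), ‖WW w N t‖ ^ (2 * k)) - ∫ t in (0:ℝ)..T, ‖WW w N t‖ ^ (2 * k) = (∫ t in T..(T + a), ‖WW w N t‖ ^ (2 * k)) - ∫ t in (0:ℝ)..a, ‖WW w N t‖ ^ (2 * k) := by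
      have h3 := intervalIntegral.integral_add_adjacent_intervals (hi 0 a) (hi a (T + a))
      have h4 := intervalIntegral.integral_add_adjacent_intervals (hi 0 T) (hi T (T + a))
      linarith
    rw [e2]
    have hb : ∀ x y : ℝ, ‖∫ t in x..y, ‖WW w N t‖ ^ (2 * k)‖ ≤ M ^ (2 * k) * |y - x| := fun x y =>
      intervalIntegral.norm_integral_le_of_norm_le_const fun t _ => by
        rw [Real.norm_of_nonneg (by positivity)]
        exact Real.rpow_le_rpow (norm_nonneg _) (hM t) (by positivity)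
    have h5 := hb T (T + a)
    have h6 := hb 0 a
    rw [add_sub_cancel_left, Real.norm_eq_abs] at h5
    rw [sub_zero, Real.norm_eq_abs] at h6
    have h7 := abs_sub (∫ t in T..(T + a), ‖WW w N t‖ ^ (2 * k)) (∫ t in (0:ℝ)..a, ‖WW w N t‖ ^ (2 * k))
    have h8 : |(∫ t in T..(T + a), ‖WW w N t‖ ^ (2 * k)) - ∫ t in (0:ℝ)..a, ‖WW w N t‖ ^ (2 * k)| ≤ 2 * |a| * M ^ (2 * k) := by linarith
    have h9 := mul_le_mul_of_nonneg_left h8 (show 0 ≤ 1 / T by positivity)
    linarith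
  have hlim : Tendsto (fun T : ℝ => 2 * |a| * M ^ (2 * k) * (1 / T)) atTop (𝓝 0) := by
    have h1 : Tendsto (fun T : ℝ => 1 / T) atTop (𝓝 0) := by
      simp_rw [one_div]
      exact tendsto_inv_atTop_zero
    have := h1.const_mul (2 * |a| * M ^ (2 * k))
    rwa [mul_zero] at this
  have h3 := h1.sub h2
  have h4 : Tendsto (fun T : ℝ => 1 / T * (∫ t in (0:ℝ)..T, ‖WW w N (t + a)‖ ^ (2 * k)) - 1 / T * ∫ t in (0:ℝ)..T, ‖WW w N t‖ ^ (2 * k)) atTop (𝓝 0) :=
    squeeze_zero_norm' ((eventually_gt_atTop 0).mono fun T hT => e1 T hT) hlim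
  have h5 := tendsto_nhds_unique h3 h4
  unfold mk
  linarith

end Pool.Agent.H470
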