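import Pool.Agent.H470.To26
import Pool.Agent.H470.To27

set_option autoImplicit false

/-! Homogeneous functionals and the phases of the small primes. -/

namespace Pool.Agent.H470

open MeasureTheory Filter Topology ProbabilityTheory Set
open Pool.Agent.TH806 (ec ec_norm ec_cont uu integrable_uu)

/-- functions of finitely many coordinates -/
def Dep (I : Finset ℕ) (A : (ℕ → ℝ) → ℝ) : Prop := ∀ ω ω', (∀ p ∈ I, ω p = ω' p) → A ω = A ω'

/-- extension by zero -/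
noncomputable def ext0 (I : Finset ℕ) (v : I → ℝ) (p : ℕ) : ℝ := if h : p ∈ I then v ⟨p, h⟩ else 0

lemma ext0_meas (I : Finset ℕ) : Measurable (ext0 I) := by
  refine measurable_pi_lambda _ fun p => ?_
  unfold ext0
  by_cases h : p ∈ I
  · simp only [h, dif_pos]
    exact measurable_pi_apply _
  · simp only [h, dif_neg, not_false_eq_true]
    exact measurable_const

lemma ext0_eq {I : Finset ℕ} {A : (ℕ → ℝ) → ℝ} (h : Dep I A) (ω : ℕ → ℝ) : A ω = A (ext0 I (fun i : I => ω i)) := by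
  refine h _ _ fun p hp => ?_
  unfold ext0
  rw [dif_pos hp]

/-- independence -/
lemma dep_int {I J : Finset ℕ} (hd : Disjoint I J) {A B : (ℕ → ℝ) → ℝ} (hA : Measurable A) (hB : Measurable B) (hAI : Dep I A) (hBJ : Dep J B) :
    ∫ ω, A ω * B ω ∂tm = (∫ ω, A ω ∂tm) * ∫ ω, B ω ∂tm := by
  have h1 : iIndepFun (fun (i : ℕ) (ω : ℕ → ℝ) => ω i) tm := by
    unfold tm
    exact iIndepFun_infinitePi (X := fun _ x => x) (by fun_prop)
  have h2 := h1.indepFun_finset I J hd fun i => measurable_pi_apply i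
  have h3 := h2.comp (hA.comp (ext0_meas I)) (hB.comp (ext0_meas J))
  have h4 := h3.integral_fun_mul_eq_mul_integral (hA.comp ((ext0_meas I).comp (by fun_prop))).aestronglyMeasurable (hB.comp ((ext0_meas J).comp (by fun_prop))).aestronglyMeasurable
  have e1 : ∀ ω : ℕ → ℝ, A (ext0 I (fun i : I => ω i)) = A ω := fun ω => (ext0_eq hAI ω).symm
  have e2 : ∀ ω : ℕ → ℝ, B (ext0 J (fun i : J => ω i)) = B ω := fun ω => (ext0_eq hBJ ω).symm
  simp only [Function.comp_apply, e1, e2] at h4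
  exact h4

variable {n : ℕ}

/-- homogeneity -/
def Hom (p : ℝ) (Φ : (Fin n → ℂ) → ℝ) : Prop := ∀ (c : ℂ) (z : Fin n → ℂ), Φ (c • z) = ‖c‖ ^ p * Φ z

lemma hom_bd {Φ : (Fin n → ℂ) → ℝ} (hc : Continuous Φ) {p : ℝ} (hp : 0 < p) (hom : Hom p Φ) : ∃ M : ℝ, 0 ≤ M ∧ ∀ z, |Φ z| ≤ M * ‖z‖ ^ p := by
  obtain ⟨M, hM⟩ := (isCompact_closedBall (0 : Fin n → ℂ) 1).exists_bound_of_continuousOn hc.continuousOn
  have hM0 : 0 ≤ M := (norm_nonneg _).trans (hM 0 (by simp))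
  refine ⟨M, hM0, fun z => ?_⟩
  by_cases hz : z = 0
  · rw [hz]
    have h0 := hom 0 0
    rw [smul_zero, norm_zero, Real.zero_rpow hp.ne', zero_mul] at h0
    rw [h0, abs_zero]
    positivity
  · have hz0 : 0 < ‖z‖ := norm_pos_iff.mpr hz
    obtain ⟨w, hw⟩ : ∃ w : Fin n → ℂ, w = (((‖z‖⁻¹ : ℝ)) : ℂ) • z := ⟨_, rfl⟩
    have hw1 : ‖w‖ = 1 := by
      rw [hw, norm_smul, Complex.norm_real, norm_inv, norm_norm, inv_mul_cancel₀ hz0.ne']
    have hzw : z = ((‖z‖ : ℝ) : ℂ) • w := by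
      rw [hw, smul_smul, ← Complex.ofReal_mul, mul_inv_cancel₀ hz0.ne', Complex.ofReal_one, one_smul]
    have h1 := hM w (by rw [mem_closedBall_zero_iff, hw1])
    have h2 := hom ((‖z‖ : ℝ) : ℂ) w
    rw [← hzw, Complex.norm_real, norm_norm] at h2
    rw [h2, abs_mul, abs_of_nonneg (by positivity), mul_comm]
    exact mul_le_mul_of_nonneg_right h1 (by positivity)

lemma hom_mod {Φ : (Fin n → ℂ) → ℝ} (hc : Continuous Φ) {p : ℝ} (hp : 0 < p) (hom : Hom p Φ) {e : ℝ} (he : 0 < e) :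
    ∃ C : ℝ, 0 ≤ C ∧ ∀ z w, |Φ z - Φ w| ≤ e * ‖w‖ ^ p + C * ‖z - w‖ ^ p := by
  obtain ⟨M, hM0, hM⟩ := hom_bd hc hp hom
  have huc := (isCompact_closedBall (0 : Fin n → ℂ) 2).uniformContinuousOn_of_continuous hc.continuousOn
  rw [Metric.uniformContinuousOn_iff] at huc
  obtain ⟨d', hd', huc⟩ := huc e he
  obtain ⟨d, hd⟩ : ∃ d : ℝ, d = min (d' / 2) 1 := ⟨_, rfl⟩
  have hd0 : 0 < d := by rw [hd]; positivity
  have hd1 : d ≤ 1 := by rw [hd]; exact min_le_right _ _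
  have hdd : d < d' := by rw [hd]; exact (min_le_left _ _).trans_lt (by linarith)
  refine ⟨2 * M * (1 + 1 / d) ^ p, by positivity, fun z w => ?_⟩
  rcases le_or_gt ‖z - w‖ (d * ‖w‖) with h | h
  · by_cases hw : w = 0
    · rw [hw, norm_zero, mul_zero, sub_zero] at h
      have hz : z = 0 := norm_le_zero_iff.mp h
      rw [hw, hz, sub_self, abs_zero]
      positivity
    · have hw0 : 0 < ‖w‖ := norm_pos_iff.mpr hw
      obtain ⟨z', hz'⟩ : ∃ v : Fin n → ℂ, v = (((‖w‖⁻¹ : ℝ)) : ℂ) • z := ⟨_, rfl⟩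
      obtain ⟨w', hw'⟩ : ∃ v : Fin n → ℂ, v = (((‖w‖⁻¹ : ℝ)) : ℂ) • w := ⟨_, rfl⟩
      have ez : z = ((‖w‖ : ℝ) : ℂ) • z' := by
        rw [hz', smul_smul, ← Complex.ofReal_mul, mul_inv_cancel₀ hw0.ne', Complex.ofReal_one, one_smul]
      have ew : w = ((‖w‖ : ℝ) : ℂ) • w' := by
        rw [hw', smul_smul, ← Complex.ofReal_mul, mul_inv_cancel₀ hw0.ne', Complex.ofReal_one, one_smul]
      have nw : ‖w'‖ = 1 := by
        rw [hw', norm_smul, Complex.norm_real, norm_inv, norm_norm, inv_mul_cancel₀ hw0.ne']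
      have nd : ‖z' - w'‖ ≤ d := by
        rw [hz', hw', ← smul_sub, norm_smul, Complex.norm_real, norm_inv, norm_norm, inv_mul_le_iff₀ hw0, mul_comm]
        exact h
      have nz : ‖z'‖ ≤ 2 := by
        have h3 : ‖z'‖ ≤ ‖z' - w'‖ + ‖w'‖ := by
          have := norm_add_le (z' - w') w'
          rwa [sub_add_cancel] at this
        linarith
      have h3 := huc z' (by rwa [mem_closedBall_zero_iff]) w' (by rw [mem_closedBall_zero_iff, nw]; norm_num) (by rw [dist_eq_norm]; linarith)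
      rw [Real.dist_eq] at h3
      have h4 := hom ((‖w‖ : ℝ) : ℂ) z'
      have h5 := hom ((‖w‖ : ℝ) : ℂ) w'
      rw [← ez, Complex.norm_real, norm_norm] at h4
      rw [← ew, Complex.norm_real, norm_norm] at h5
      rw [h4, h5, ← mul_sub, abs_mul, abs_of_nonneg (show 0 ≤ ‖w‖ ^ p by positivity)]
      have h6 : ‖w‖ ^ p * |Φ z' - Φ w'| ≤ ‖w‖ ^ p * e := mul_le_mul_of_nonneg_left h3.le (by positivity)
      have h7 : 0 ≤ 2 * M * (1 + 1 / d) ^ p * ‖z - w‖ ^ p := by positivity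
      linarith
  · have h1 : ‖w‖ ≤ (1 + 1 / d) * ‖z - w‖ := by
      have h2 : ‖w‖ ≤ 1 / d * ‖z - w‖ := by
        rw [div_mul_eq_mul_div, one_mul, le_div_iff₀ hd0, mul_comm]
        exact h.le
      nlinarith [norm_nonneg (z - w)]
    have h2 : ‖z‖ ≤ (1 + 1 / d) * ‖z - w‖ := by
      have h3 : ‖z‖ ≤ ‖z - w‖ + ‖w‖ := by
        have := norm_add_le (z - w) w
        rwa [sub_add_cancel] at this
      have h4 : ‖w‖ ≤ 1 / d * ‖z - w‖ := by
        rw [div_mul_eq_mul_div, one_mul, le_div_iff₀ hd0, mul_comm]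
        exact h.le
      linarith
    have h3 : ∀ v : Fin n → ℂ, ‖v‖ ≤ (1 + 1 / d) * ‖z - w‖ → |Φ v| ≤ M * (1 + 1 / d) ^ p * ‖z - w‖ ^ p := by
      intro v hv
      refine (hM v).trans ?_
      have h4 := Real.rpow_le_rpow (norm_nonneg _) hv hp.le
      rw [Real.mul_rpow (by positivity) (norm_nonneg _)] at h4
      have h5 := mul_le_mul_of_nonneg_left h4 hM0
      linarith
    have h4 := abs_sub (Φ z) (Φ w)
    have h5 : 0 ≤ e * ‖w‖ ^ p := by positivity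
    have h6 := h3 z h2
    have h7 := h3 w h1
    linarith

lemma pi_rpow {p : ℝ} (hp : 0 < p) (z : Fin n → ℂ) : ‖z‖ ^ p ≤ ∑ j, ‖z j‖ ^ p := by
  by_cases hn : Nonempty (Fin n)
  · obtain ⟨j, hj⟩ : ∃ j, ‖z‖ = ‖z j‖ := by
      obtain ⟨j, -, hj⟩ := Finset.exists_mem_eq_sup' (Finset.univ_nonempty (α := Fin n)) fun j => ‖z j‖
      refine ⟨j, le_antisymm ?_ (norm_le_pi_norm z j)⟩
      rw [pi_norm_le_iff_of_nonneg (norm_nonneg _)]
      intro i
      rw [← hj]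
      exact Finset.le_sup' (fun j => ‖z j‖) (Finset.mem_univ i)
    rw [hj]
    exact Finset.single_le_sum (f := fun j => ‖z j‖ ^ p) (fun _ _ => by positivity) (Finset.mem_univ j)
  · have hz : z = 0 := funext fun j => absurd ⟨j⟩ hn
    rw [hz, norm_zero, Real.zero_rpow hp.ne']
    exact Finset.sum_nonneg fun j _ => by positivity

/-- the Euler factors of the small primes at one half -/
noncomputable def La (P : ℕ) (ω : ℕ → ℝ) : ℂ := Complex.exp (Xs (pr P) (1 / 2) ω)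

/-- the rest of the random Euler product -/
noncomputable def Re' (P : ℕ) (x y : ℝ) (ω : ℕ → ℝ) : ℂ := Complex.exp (Xs (pr (PX x) \ pr P) (sp x y) ω)

lemma Xs_dep (I : Finset ℕ) (s : ℂ) {ω ω' : ℕ → ℝ} (h : ∀ p ∈ I, ω p = ω' p) : Xs I s ω = Xs I s ω' := by
  unfold Xs
  exact Finset.sum_congr rfl fun p hp => by rw [h p hp]

lemma half_re : (0:ℝ) < ((1 / 2 : ℂ)).re := by norm_num

lemma La_cont (P : ℕ) : Continuous (La P) := Complex.continuous_exp.comp (Xs_cont (fun p hp => pr_two hp) half_re)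

lemma Re'_cont (P : ℕ) {x : ℝ} (hx : 0 < x) (y : ℝ) : Continuous (Re' P x y) :=
  Complex.continuous_exp.comp (Xs_cont (fun p hp => pr_two (Finset.mem_sdiff.mp hp).1) (by rw [sp_re]; linarith))

lemma La_bd (P : ℕ) : ∃ B : ℝ, 1 ≤ B ∧ ∀ ω, ‖La P ω‖ ≤ B ∧ B⁻¹ ≤ ‖La P ω‖ := by
  obtain ⟨B, hB, h⟩ := Xs_bd (I := pr P) (fun p hp => pr_two hp) (σ := 1 / 2) (by norm_num)
  refine ⟨Real.exp B, Real.one_le_exp hB, fun ω => ?_⟩
  have h1 := (Complex.abs_re_le_norm _).trans (h (1 / 2) (by norm_num) ω)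
  rw [abs_le] at h1
  unfold La
  rw [Complex.norm_exp, ← Real.exp_neg]
  exact ⟨Real.exp_le_exp.mpr h1.2, Real.exp_le_exp.mpr h1.1⟩

lemma Re'_bd (P : ℕ) {x : ℝ} (hx : 0 < x) : ∃ B : ℝ, 0 ≤ B ∧ ∀ y ω, ‖Re' P x y ω‖ ≤ B := by
  obtain ⟨B, hB, h⟩ := Xs_bd (I := pr (PX x) \ pr P) (fun p hp => pr_two (Finset.mem_sdiff.mp hp).1) (σ := 1 / 2) (by norm_num)
  refine ⟨Real.exp B, (Real.exp_pos _).le, fun y ω => ?_⟩
  unfold Re'
  rw [Complex.norm_exp]
  exact Real.exp_le_exp.mpr ((Complex.re_le_norm _).trans (h _ (by rw [sp_re]; linarith) ω))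

/-- Lipschitz bound of the logarithm -/
lemma el_lip {z w : ℂ} (hz : ‖z‖ ≤ 3 / 4) (hw : ‖w‖ ≤ 3 / 4) : ‖el z - el w‖ ≤ 4 * ‖z - w‖ := by
  have hdf : ∀ v ∈ Metric.closedBall (0:ℂ) (3 / 4), DifferentiableAt ℂ el v := fun v hv => by
    rw [mem_closedBall_zero_iff] at hv
    exact el_analytic (by linarith)
  have hder : ∀ v ∈ Metric.closedBall (0:ℂ) (3 / 4), ‖deriv el v‖ ≤ 4 := fun v hv => by
    rw [mem_closedBall_zero_iff] at hv
    have h1 : HasDerivAt el (-(-1 / (1 - v))) v := by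
      unfold el
      exact (((hasDerivAt_id v).const_sub 1).clog (slit_el (z := v) (by linarith))).neg
    rw [h1.deriv, norm_neg, norm_div, norm_neg, norm_one]
    have h2 : 1 / 4 ≤ ‖1 - v‖ := by
      have := norm_sub_norm_le (1:ℂ) v
      rw [norm_one] at this
      linarith
    rw [div_le_iff₀ (by linarith)]
    linarith
  exact Convex.norm_image_sub_le_of_norm_deriv_le hdf hder (convex_closedBall 0 _) (by rwa [mem_closedBall_zero_iff]) (by rwa [mem_closedBall_zero_iff])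

/-- the small primes, uniformly -/
lemma La_unif (P : ℕ) (y : ℝ) {e : ℝ} (he : 0 < e) : ∀ᶠ x : ℝ in 𝓝[>] 0, ∀ ω, ‖Complex.exp (Xs (pr P) (sp x y) ω) - La P ω‖ ≤ e := by
  obtain ⟨B, hB, hb⟩ := Xs_bd (I := pr P) (fun p hp => pr_two hp) (σ := 1 / 2) (by norm_num)
  -- the exponents
  have h1 : ∀ p ∈ pr P, Tendsto (fun x : ℝ => ‖(p:ℂ) ^ (-(sp x y)) - (p:ℂ) ^ (-(1 / 2 : ℂ))‖) (𝓝[>] 0) (𝓝 0) := by
    intro p hp
    have hp0 : (p:ℂ) ≠ 0 := by
      have := pr_two hp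
      exact_mod_cast (by omega : p ≠ 0)
    have hc : Continuous fun x : ℝ => ‖(p:ℂ) ^ (-(sp x y)) - (p:ℂ) ^ (-(1 / 2 : ℂ))‖ := by
      refine Continuous.norm (Continuous.sub (Continuous.const_cpow ?_ (Or.inl hp0)) continuous_const)
      unfold sp
      fun_prop
    have h2 := hc.tendsto 0
    have e1 : sp 0 y = 1 / 2 := by unfold sp; simp
    rw [e1, sub_self, norm_zero] at h2
    exact h2.mono_left nhdsWithin_le_nhds
  have h2 : Tendsto (fun x : ℝ => ∑ p ∈ pr P, 4 * ‖(p:ℂ) ^ (-(sp x y)) - (p:ℂ) ^ (-(1 / 2 : ℂ))‖) (𝓝[>] 0) (𝓝 0) := by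
    have h3 := tendsto_finsetSum (pr P) fun p hp => (h1 p hp).const_mul 4
    simpa using h3
  obtain ⟨d, hd0, hd⟩ : ∃ d : ℝ, 0 < d ∧ Real.exp B * (2 * d) ≤ e ∧ d ≤ 1 := by
    refine ⟨min (e / (2 * Real.exp B)) 1, by positivity, ?_, min_le_right _ _⟩
    have h3 : min (e / (2 * Real.exp B)) 1 ≤ e / (2 * Real.exp B) := min_le_left _ _
    rw [le_div_iff₀ (by positivity)] at h3
    linarith
  filter_upwards [h2.eventually (gt_mem_nhds hd0), self_mem_nhdsWithin] with x hx hx0 ω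
  have hx0' : (0:ℝ) < x := hx0
  have h3 : ‖Xs (pr P) (sp x y) ω - Xs (pr P) (1 / 2) ω‖ ≤ d := by
    unfold Xs
    rw [← Finset.sum_sub_distrib]
    refine (norm_sum_le _ _).trans (le_trans (Finset.sum_le_sum fun p hp => ?_) hx.le)
    have hp2 := pr_two hp
    have hn : ∀ s : ℂ, 1 / 2 ≤ s.re → ‖(p:ℂ) ^ (-s) * ec (ω p)‖ ≤ 3 / 4 := by
      intro s hs
      rw [norm_mul, ec_norm, mul_one]
      exact (pw_le hp2 (by linarith)).trans (p_pow_le hp2)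
    have h4 := el_lip (hn (sp x y) (by rw [sp_re]; linarith)) (hn (1 / 2) (by norm_num))
    rw [← sub_mul, norm_mul, ec_norm, mul_one] at h4
    exact h4
  have h4 : La P ω = Complex.exp (Xs (pr P) (1 / 2) ω) := rfl
  have h5 : Complex.exp (Xs (pr P) (sp x y) ω) - La P ω = La P ω * (Complex.exp (Xs (pr P) (sp x y) ω - Xs (pr P) (1 / 2) ω) - 1) := by
    rw [h4, mul_sub, ← Complex.exp_add, mul_one]
    congr 2
    ring
  rw [h5, norm_mul]
  have h6 : ‖La P ω‖ ≤ Real.exp B := by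
    rw [h4, Complex.norm_exp]
    exact Real.exp_le_exp.mpr ((Complex.re_le_norm _).trans (hb _ (by norm_num) ω))
  have h7 := Complex.norm_exp_sub_one_le (x := Xs (pr P) (sp x y) ω - Xs (pr P) (1 / 2) ω) (h3.trans hd.2)
  have h8 : ‖Complex.exp (Xs (pr P) (sp x y) ω - Xs (pr P) (1 / 2) ω) - 1‖ ≤ 2 * d := by linarith
  exact (mul_le_mul h6 h8 (norm_nonneg _) (by positivity)).trans hd.1

/-- the splitting -/
lemma Fp_split {P : ℕ} {x : ℝ} (h : P ≤ PX x) (y : ℝ) (ω : ℕ → ℝ) : Fp x y ω = Complex.exp (Xs (pr P) (sp x y) ω) * Re' P x y ω := by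
  unfold Fp Xp Re'
  rw [Xs_split (pr_mono h), Complex.exp_add]

lemma PX_large (P : ℕ) : ∀ᶠ x : ℝ in 𝓝[>] 0, P ≤ PX x := by
  have h1 : Tendsto (fun x : ℝ => x⁻¹) (𝓝[>] 0) atTop := tendsto_inv_nhdsGT_zero
  filter_upwards [h1.eventually_ge_atTop (P + 1 : ℝ), self_mem_nhdsWithin] with x hx hx0
  have hx0' : (0:ℝ) < x := hx0
  have h2 := PX_exp hx0'
  have h3 : (1:ℝ) / x ^ 2 = x⁻¹ ^ 2 := by rw [one_div, inv_pow]
  have h4 := Real.add_one_le_exp (1 / x ^ 2)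
  have hP : (0:ℝ) ≤ P := Nat.cast_nonneg _
  have h5 : (P:ℝ) ≤ PX x := by nlinarith
  exact_mod_cast h5

/-- the weight of the phases -/
noncomputable def nuG (k : ℝ) (P : ℕ) (G : (ℕ → ℝ) → ℝ) : ℝ := (∫ ω, ‖La P ω‖ ^ (2 * k) * G ω ∂tm) / ∫ ω, ‖La P ω‖ ^ (2 * k) ∂tm

lemma La_mass (k : ℝ) (P : ℕ) : 0 < ∫ ω, ‖La P ω‖ ^ (2 * k) ∂tm := by
  obtain ⟨B, hB, hb⟩ := La_bd P
  have hc : Continuous fun ω => ‖La P ω‖ ^ (2 * k) := (La_cont P).norm.rpow_const fun ω => Or.inl (by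
    have h1 := (hb ω).2
    have h2 : 0 < B⁻¹ := by positivity
    exact (h2.trans_le h1).ne')
  obtain ⟨c, hc0, hcl⟩ : ∃ c : ℝ, 0 < c ∧ ∀ ω, c ≤ ‖La P ω‖ ^ (2 * k) := by
    rcases le_or_gt 0 (2 * k) with h | h
    · exact ⟨(B⁻¹) ^ (2 * k), by positivity, fun ω => Real.rpow_le_rpow (by positivity) (hb ω).2 h⟩
    · refine ⟨B ^ (2 * k), by positivity, fun ω => ?_⟩
      exact Real.rpow_le_rpow_of_nonpos (lt_of_lt_of_le (by positivity) (hb ω).2) (hb ω).1 h.le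
  obtain ⟨b, hbb⟩ : ∃ b : ℝ, ∀ ω, ‖La P ω‖ ^ (2 * k) ≤ b := by
    rcases le_or_gt 0 (2 * k) with h | h
    · exact ⟨B ^ (2 * k), fun ω => Real.rpow_le_rpow (norm_nonneg _) (hb ω).1 h⟩
    · exact ⟨(B⁻¹) ^ (2 * k), fun ω => Real.rpow_le_rpow_of_nonpos (by positivity) (hb ω).2 h.le⟩
  have hi : Integrable (fun ω => ‖La P ω‖ ^ (2 * k)) tm := tm_int hc (B := b) fun ω => by
    rw [Real.norm_of_nonneg (by positivity)]
    exact hbb ω
  have h1 : ∫ _ω : ℕ → ℝ, c ∂tm ≤ ∫ ω, ‖La P ω‖ ^ (2 * k) ∂tm := integral_mono (integrable_const _) hi hcl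
  simp only [integral_const, probReal_univ, one_smul] at h1
  linarith

/-- the masses -/
lemma Fp_mass {k : ℝ} (hk : 0 < k) : ∃ K : ℝ, 0 < K ∧ ∀ x : ℝ, 0 < x → x ≤ 1 → ∀ y : ℝ, (2 * x) ^ (k ^ 2) * mk k (Fp x y) ≤ K := by
  obtain ⟨C, hC, h⟩ := EFw k
  refine ⟨2 ^ (k ^ 2) * C, by positivity, fun x hx hx1 y => ?_⟩
  have h1 : mk k (Fp x y) ≤ C * x ^ (-k ^ 2) := by
    refine mk_le hk (Fp_gd hx y) (by positivity) ?_
    have h2 := h x hx hx1 (1 + (y:ℂ) * Complex.I) (by simp; norm_num) (by simp; norm_num)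
    simp_rw [Fw_line] at h2
    exact h2
  refine (mul_le_mul_of_nonneg_left h1 (by positivity)).trans (le_of_eq ?_)
  have e1 : x ^ (k ^ 2) * x ^ (-k ^ 2) = 1 := by
    rw [← Real.rpow_add hx, add_neg_cancel, Real.rpow_zero]
  rw [Real.mul_rpow (by norm_num) hx.le]
  linear_combination (2:ℝ) ^ (k ^ 2) * C * e1

/-- integrability of functionals -/
lemma hom_int {Φ : (Fin n → ℂ) → ℝ} (hc : Continuous Φ) {f : Fin n → (ℕ → ℝ) → ℂ} (hf : ∀ j, Gd (f j)) {G : (ℕ → ℝ) → ℝ} (hG : Measurable G) {B : ℝ}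
    (hGb : ∀ ω, |G ω| ≤ B) : Integrable (fun ω => Φ (fun j => f j ω) * G ω) tm := by
  choose M hM using fun j => (hf j).2
  obtain ⟨b, hb⟩ := (isCompact_closedBall (0 : Fin n → ℂ) (∑ j, |M j|)).exists_bound_of_continuousOn hc.continuousOn
  have hm : Measurable fun ω => (fun j => f j ω) := measurable_pi_lambda _ fun j => (hf j).1
  refine Integrable.of_bound ((hc.measurable.comp hm).mul hG).aestronglyMeasurable (b * B) (Eventually.of_forall fun ω => ?_)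
  have h1 : (fun j => f j ω) ∈ Metric.closedBall (0 : Fin n → ℂ) (∑ j, |M j|) := by
    rw [mem_closedBall_zero_iff, pi_norm_le_iff_of_nonneg (Finset.sum_nonneg fun _ _ => abs_nonneg _)]
    intro j
    exact (hM j ω).trans ((le_abs_self _).trans (Finset.single_le_sum (f := fun j => |M j|) (fun _ _ => abs_nonneg _) (Finset.mem_univ j)))
  rw [norm_mul]
  exact mul_le_mul (hb _ h1) (hGb ω) (norm_nonneg _) ((norm_nonneg _).trans (hb _ h1))

/-- the difference of two functionals -/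
lemma hom_diff {k : ℝ} (hk : 0 < k) {Φ : (Fin n → ℂ) → ℝ} (hc : Continuous Φ) (hom : Hom (2 * k) Φ) {e : ℝ} (he : 0 < e) :
    ∃ C : ℝ, 0 ≤ C ∧ ∀ (f g : Fin n → (ℕ → ℝ) → ℂ), (∀ j, Gd (f j)) → (∀ j, Gd (g j)) → ∀ (G : (ℕ → ℝ) → ℝ), Measurable G → ∀ B : ℝ, (∀ ω, |G ω| ≤ B) →
      |(∫ ω, Φ (fun j => f j ω) * G ω ∂tm) - ∫ ω, Φ (fun j => g j ω) * G ω ∂tm| ≤
        B * (e * ∑ j, mk k (g j) + C * ∑ j, mk k (fun ω => f j ω - g j ω)) := by
  obtain ⟨C, hC, h⟩ := hom_mod hc (by positivity) hom he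
  refine ⟨C, hC, fun f g hf hg G hG B hGb => ?_⟩
  have hB : 0 ≤ B := (abs_nonneg _).trans (hGb 0)
  rw [← integral_sub (hom_int hc hf hG hGb) (hom_int hc hg hG hGb), ← Real.norm_eq_abs]
  have h1 : ∀ ω, ‖Φ (fun j => f j ω) * G ω - Φ (fun j => g j ω) * G ω‖ ≤ B * (e * ∑ j, ‖g j ω‖ ^ (2 * k) + C * ∑ j, ‖f j ω - g j ω‖ ^ (2 * k)) := by
    intro ω
    rw [← sub_mul, norm_mul, mul_comm]
    refine mul_le_mul (hGb ω) ?_ (norm_nonneg _) hB
    refine (h _ _).trans (add_le_add (mul_le_mul_of_nonneg_left (pi_rpow (by positivity) _) he.le) (mul_le_mul_of_nonneg_left ?_ hC))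
    exact pi_rpow (by positivity) ((fun j => f j ω) - fun j => g j ω)
  have hi1 : Integrable (fun ω => ∑ j, ‖g j ω‖ ^ (2 * k)) tm := integrable_finsetSum _ fun j _ => (hg j).intp (by positivity)
  have hi2 : Integrable (fun ω => ∑ j, ‖f j ω - g j ω‖ ^ (2 * k)) tm := integrable_finsetSum _ fun j _ => ((hf j).sub (hg j)).intp (by positivity)
  refine (norm_integral_le_of_norm_le (((hi1.const_mul e).add (hi2.const_mul C)).const_mul B) (Eventually.of_forall h1)).trans (le_of_eq ?_)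
  rw [integral_const_mul]
  congr 1
  have e1 : ∫ ω, (e * ∑ j, ‖g j ω‖ ^ (2 * k) + C * ∑ j, ‖f j ω - g j ω‖ ^ (2 * k)) ∂tm = e * (∫ ω, ∑ j, ‖g j ω‖ ^ (2 * k) ∂tm) + C * ∫ ω, ∑ j, ‖f j ω - g j ω‖ ^ (2 * k) ∂tm := by
    rw [integral_add (hi1.const_mul e) (hi2.const_mul C), integral_const_mul, integral_const_mul]
  refine e1.trans ?_
  rw [integral_finsetSum _ fun j _ => (hg j).intp (by positivity), integral_finsetSum _ fun j _ => ((hf j).sub (hg j)).intp (by positivity)]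
  rfl

/-- the limit with the phases of the small primes -/
theorem fld_G {k : ℝ} (hk : 0 < k) (y : Fin n → ℝ) {Φ : (Fin n → ℂ) → ℝ} (hc : Continuous Φ) (hom : Hom (2 * k) Φ) :
    ∃ L : ℝ, ∀ (P : ℕ) (G : (ℕ → ℝ) → ℝ), Measurable G → (∃ B : ℝ, ∀ ω, |G ω| ≤ B) → Dep (pr P) G →
      Tendsto (fun x : ℝ => (2 * x) ^ (k ^ 2) * ∫ ω, Φ (fun j => Fp x (y j) ω) * G ω ∂tm) (𝓝[>] 0) (𝓝 (L * nuG k P G)) := by
  obtain ⟨ρ, -, -, h⟩ := fld_lim hk y
  obtain ⟨L, hL⟩ : ∃ L : ℝ, L = aK k * ∫ z, Φ (fun j => Complex.exp (z j)) ∂(ρ : Measure (Fin n → ℂ)) := ⟨_, rfl⟩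
  have h0 := h Φ hc hom
  rw [← hL] at h0
  refine ⟨L, fun P G hG hGb hGd => ?_⟩
  obtain ⟨K, hK, hmass⟩ := Fp_mass hk
  obtain ⟨B0, hB0, hLa⟩ := La_bd P
  have hB00 : 0 < B0 := by linarith
  obtain ⟨I, hI⟩ : ∃ I : ℝ → ℝ, ∀ x, I x = (2 * x) ^ (k ^ 2) * ∫ ω, Φ (fun j => Re' P x (y j) ω) ∂tm := ⟨fun x => _, fun _ => rfl⟩
  -- the comparison
  have key : ∀ G : (ℕ → ℝ) → ℝ, Measurable G → (∃ B : ℝ, ∀ ω, |G ω| ≤ B) → Dep (pr P) G →
      Tendsto (fun x : ℝ => (2 * x) ^ (k ^ 2) * (∫ ω, Φ (fun j => Fp x (y j) ω) * G ω ∂tm) - (∫ ω, ‖La P ω‖ ^ (2 * k) * G ω ∂tm) * I x) (𝓝[>] 0) (𝓝 0) := by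
    intro G hG hGb hGd
    obtain ⟨B', hB'⟩ := hGb
    obtain ⟨B, hBB, hB, hGb⟩ : ∃ B : ℝ, B' ≤ B ∧ 0 < B ∧ ∀ ω, |G ω| ≤ B := ⟨max B' 1, le_max_left _ _, by positivity, fun ω => (hB' ω).trans (le_max_left _ _)⟩
    rw [Metric.tendsto_nhds]
    intro ε hε
    obtain ⟨e, he, hee⟩ : ∃ e : ℝ, 0 < e ∧ B * (e * (n * K)) ≤ ε / 4 := by
      refine ⟨ε / (4 * B * (n * K + 1)), by positivity, ?_⟩
      have : B * (ε / (4 * B * (n * K + 1)) * (n * K)) = ε / 4 * ((n * K) / (n * K + 1)) := by field_simp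
      rw [this]
      have h2 : (n * K) / (n * K + 1) ≤ 1 := by
        rw [div_le_one (by positivity)]
        linarith
      have h3 := mul_le_mul_of_nonneg_left h2 (show 0 ≤ ε / 4 by positivity)
      linarith
    obtain ⟨C, hC, hdiff⟩ := hom_diff hk hc hom he
    obtain ⟨e2, he2, hee2, he2B⟩ : ∃ e2 : ℝ, 0 < e2 ∧ B * (C * ((2 * B0 * e2) ^ (2 * k) * (n * K))) ≤ ε / 4 ∧ e2 ≤ 1 / (2 * B0) := by
      have hl : Tendsto (fun t : ℝ => B * (C * ((2 * B0 * t) ^ (2 * k) * (n * K)))) (𝓝[>] 0) (𝓝 0) := by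
        have h2 : Tendsto (fun t : ℝ => B * (C * ((2 * B0 * t) ^ (2 * k) * (n * K)))) (𝓝 0) (𝓝 (B * (C * ((2 * B0 * 0) ^ (2 * k) * (n * K))))) := by
          refine Tendsto.const_mul _ (Tendsto.const_mul _ (Tendsto.mul_const _ ?_))
          exact (tendsto_id.const_mul (2 * B0)).rpow_const (Or.inr (by positivity))
        rw [mul_zero, Real.zero_rpow (by positivity), zero_mul, mul_zero, mul_zero] at h2
        exact h2.mono_left nhdsWithin_le_nhds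
      have h3 := (hl.eventually (gt_mem_nhds (show (0:ℝ) < ε / 4 by positivity))).and (Ioo_mem_nhdsGT (show (0:ℝ) < 1 / (2 * B0) by positivity))
      obtain ⟨t, ht1, ht2⟩ := h3.exists
      exact ⟨t, ht2.1, ht1.le, ht2.2.le⟩
    have hun : ∀ᶠ x : ℝ in 𝓝[>] 0, ∀ j, ∀ ω, ‖Complex.exp (Xs (pr P) (sp x (y j)) ω) - La P ω‖ ≤ e2 := by
      rw [eventually_all]
      exact fun j => La_unif P (y j) he2
    filter_upwards [hun, PX_large P, self_mem_nhdsWithin, Ioo_mem_nhdsGT (show (0:ℝ) < 1 by norm_num)] with x hx1 hx2 hx0 hx3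
    have hx : (0:ℝ) < x := hx0
    have hR : ∀ j, Gd (Re' P x (y j)) := fun j => by
      obtain ⟨b, hb, hbb⟩ := Re'_bd P hx
      exact ⟨(Re'_cont P hx _).measurable, b, fun ω => hbb _ ω⟩
    have hLR : ∀ j, Gd (fun ω => La P ω * Re' P x (y j) ω) := fun j => by
      obtain ⟨b, hb, hbb⟩ := Re'_bd P hx
      refine ⟨((La_cont P).mul (Re'_cont P hx _)).measurable, B0 * b, fun ω => ?_⟩
      rw [norm_mul]
      exact mul_le_mul (hLa ω).1 (hbb _ ω) (norm_nonneg _) (by linarith)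
    -- the product
    have e1 : (∫ ω, ‖La P ω‖ ^ (2 * k) * G ω ∂tm) * (∫ ω, Φ (fun j => Re' P x (y j) ω) ∂tm) = ∫ ω, Φ (fun j => La P ω * Re' P x (y j) ω) * G ω ∂tm := by
      have hA : Measurable fun ω => ‖La P ω‖ ^ (2 * k) * G ω := ((La_cont P).measurable.norm.pow_const _).mul hG
      have hBm : Measurable fun ω => Φ (fun j => Re' P x (y j) ω) := hc.measurable.comp (measurable_pi_lambda _ fun j => (hR j).1)
      rw [← dep_int (I := pr P) (J := pr (PX x) \ pr P) Finset.disjoint_sdiff hA hBm]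
      · refine integral_congr_ae (Eventually.of_forall fun ω => ?_)
        have h2 := hom (La P ω) (fun j => Re' P x (y j) ω)
        have h3 : La P ω • (fun j => Re' P x (y j) ω) = fun j => La P ω * Re' P x (y j) ω := rfl
        rw [h3] at h2
        show ‖La P ω‖ ^ (2 * k) * G ω * Φ (fun j => Re' P x (y j) ω) = Φ (fun j => La P ω * Re' P x (y j) ω) * G ω
        rw [h2]
        ring
      · intro ω ω' hω
        show ‖La P ω‖ ^ (2 * k) * G ω = ‖La P ω'‖ ^ (2 * k) * G ω'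
        rw [hGd ω ω' hω]
        unfold La
        rw [Xs_dep (pr P) (1 / 2) hω]
      · intro ω ω' hω
        show Φ (fun j => Re' P x (y j) ω) = Φ (fun j => Re' P x (y j) ω')
        congr 1
        funext j
        unfold Re'
        rw [Xs_dep _ _ hω]
    have hd := hdiff (fun j ω => La P ω * Re' P x (y j) ω) (fun j => Fp x (y j)) hLR (fun j => Fp_gd hx _) G hG B hGb
    rw [← e1] at hd
    have hs1 : ∑ j, mk k (Fp x (y j)) ≤ n * (K / (2 * x) ^ (k ^ 2)) := by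
      refine (Finset.sum_le_card_nsmul _ _ (K / (2 * x) ^ (k ^ 2)) fun j _ => ?_).trans (by simp)
      rw [le_div_iff₀ (by positivity), mul_comm]
      exact hmass x hx hx3.2.le (y j)
    have hs2 : ∀ j, mk k (fun ω => La P ω * Re' P x (y j) ω - Fp x (y j) ω) ≤ (2 * B0 * e2) ^ (2 * k) * mk k (Fp x (y j)) := by
      intro j
      unfold mk
      rw [← integral_const_mul]
      refine integral_mono (((hLR j).sub (Fp_gd hx _)).intp (by positivity)) (((Fp_gd hx _).intp (by positivity)).const_mul _) fun ω => ?_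
      show ‖La P ω * Re' P x (y j) ω - Fp x (y j) ω‖ ^ (2 * k) ≤ (2 * B0 * e2) ^ (2 * k) * ‖Fp x (y j) ω‖ ^ (2 * k)
      rw [← Real.mul_rpow (by positivity) (norm_nonneg _)]
      refine Real.rpow_le_rpow (norm_nonneg _) ?_ (by positivity)
      rw [Fp_split hx2, ← sub_mul, norm_mul, norm_mul, ← norm_neg (La P ω - _), neg_sub]
      have h2 := hx1 j ω
      have h3 := (hLa ω).2
      have h4 : 1 / (2 * B0) ≤ ‖Complex.exp (Xs (pr P) (sp x (y j)) ω)‖ := by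
        have h5 := norm_sub_norm_le (La P ω) (La P ω - Complex.exp (Xs (pr P) (sp x (y j)) ω))
        rw [sub_sub_cancel] at h5
        rw [← norm_neg, neg_sub] at h2
        have h6 : B0⁻¹ = 2 * (1 / (2 * B0)) := by field_simp
        linarith
      have h5 : ‖Complex.exp (Xs (pr P) (sp x (y j)) ω) - La P ω‖ ≤ 2 * B0 * e2 * ‖Complex.exp (Xs (pr P) (sp x (y j)) ω)‖ := by
        have h6 : (2 * B0 * e2) * (1 / (2 * B0)) ≤ 2 * B0 * e2 * ‖Complex.exp (Xs (pr P) (sp x (y j)) ω)‖ := mul_le_mul_of_nonneg_left h4 (by positivity)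
        have h7 : (2 * B0 * e2) * (1 / (2 * B0)) = e2 := by field_simp
        linarith
      have h6 := mul_le_mul_of_nonneg_right h5 (norm_nonneg (Re' P x (y j) ω))
      linarith
    have hs3 : ∑ j, mk k (fun ω => La P ω * Re' P x (y j) ω - Fp x (y j) ω) ≤ (2 * B0 * e2) ^ (2 * k) * (n * (K / (2 * x) ^ (k ^ 2))) := by
      refine (Finset.sum_le_sum fun j _ => hs2 j).trans ?_
      rw [← Finset.mul_sum]
      exact mul_le_mul_of_nonneg_left hs1 (by positivity)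
    have hX : 0 < (2 * x) ^ (k ^ 2) := by positivity
    have hd2 : |(∫ ω, ‖La P ω‖ ^ (2 * k) * G ω ∂tm) * (∫ ω, Φ (fun j => Re' P x (y j) ω) ∂tm) - ∫ ω, Φ (fun j => Fp x (y j) ω) * G ω ∂tm| ≤
        B * (e * (n * (K / (2 * x) ^ (k ^ 2))) + C * ((2 * B0 * e2) ^ (2 * k) * (n * (K / (2 * x) ^ (k ^ 2))))) := by
      refine hd.trans (mul_le_mul_of_nonneg_left (add_le_add (mul_le_mul_of_nonneg_left hs1 he.le) (mul_le_mul_of_nonneg_left hs3 hC)) hB.le)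
    have hd3 := mul_le_mul_of_nonneg_left hd2 hX.le
    rw [Real.dist_eq, sub_zero, hI]
    have e3 : (2 * x) ^ (k ^ 2) * (∫ ω, Φ (fun j => Fp x (y j) ω) * G ω ∂tm) - (∫ ω, ‖La P ω‖ ^ (2 * k) * G ω ∂tm) * ((2 * x) ^ (k ^ 2) * ∫ ω, Φ (fun j => Re' P x (y j) ω) ∂tm) =
        -((2 * x) ^ (k ^ 2) * ((∫ ω, ‖La P ω‖ ^ (2 * k) * G ω ∂tm) * (∫ ω, Φ (fun j => Re' P x (y j) ω) ∂tm) - ∫ ω, Φ (fun j => Fp x (y j) ω) * G ω ∂tm)) := by ring
    rw [e3, abs_neg, abs_mul, abs_of_pos hX]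
    refine lt_of_le_of_lt hd3 ?_
    have e4 : (2 * x) ^ (k ^ 2) * (B * (e * (n * (K / (2 * x) ^ (k ^ 2))) + C * ((2 * B0 * e2) ^ (2 * k) * (n * (K / (2 * x) ^ (k ^ 2)))))) =
        B * (e * (n * K)) + B * (C * ((2 * B0 * e2) ^ (2 * k) * (n * K))) := by
      field_simp
    rw [e4]
    linarith
  -- conclusion
  obtain ⟨m, hm⟩ : ∃ m : ℝ, m = ∫ ω, ‖La P ω‖ ^ (2 * k) ∂tm := ⟨_, rfl⟩
  have hm0 : 0 < m := by rw [hm]; exact La_mass k P
  have k1 := key (fun _ => 1) measurable_const ⟨1, fun _ => by simp⟩ (fun _ _ _ => rfl)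
  simp only [mul_one] at k1
  rw [← hm] at k1
  have k2 : Tendsto I (𝓝[>] 0) (𝓝 (L / m)) := by
    have h1 := (h0.sub k1).div_const m
    rw [sub_zero] at h1
    refine h1.congr fun x => ?_
    rw [sub_sub_cancel]
    field_simp
  have k3 := (key G hG hGb hGd).add (k2.const_mul (∫ ω, ‖La P ω‖ ^ (2 * k) * G ω ∂tm))
  simp only [sub_add_cancel, zero_add] at k3
  unfold nuG
  rw [← hm]
  have e5 : L * ((∫ ω, ‖La P ω‖ ^ (2 * k) * G ω ∂tm) / m) = (∫ ω, ‖La P ω‖ ^ (2 * k) * G ω ∂tm) * (L / m) := by ring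
  rw [e5]
  exact k3

end Pool.Agent.H470
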