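import Pool.Agent.H470.To28

set_option autoImplicit false

/-! Shifted partial sums of several lengths. -/

namespace Pool.Agent.H470

open MeasureTheory Filter Topology ProbabilityTheory Set

/-- the cosine part of the plateau -/
noncomputable def pc (η : ℝ) (r : ℕ) (u v : ℝ) : ℝ := fi η (v / r) * Real.cos (u * v)

/-- the sine part of the plateau -/
noncomputable def sn (η : ℝ) (r : ℕ) (u v : ℝ) : ℝ := -(fi η (v / r) * Real.sin (u * v))

lemma fi_out {η x : ℝ} (hη : 0 < η) (h : 1 < |x|) : fi η x = 0 := by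
  rcases lt_abs.mp h with h | h
  · exact fi_zero hη (by linarith)
  · unfold fi
    rw [Real.smoothTransition.zero_of_nonpos (by linarith), zero_mul]

lemma fi_div_out {η : ℝ} (hη : 0 < η) {r : ℕ} (hr : 1 ≤ r) {v : ℝ} (h : (r:ℝ) < |v|) : fi η (v / r) = 0 := by
  refine fi_out hη ?_
  have hr0 : (0:ℝ) < r := by exact_mod_cast (by omega : 0 < r)
  rw [abs_div, abs_of_pos hr0, lt_div_iff₀ hr0, one_mul]
  exact h

lemma pc_Sm {η : ℝ} (hη : 0 < η) {r : ℕ} (hr : 1 ≤ r) (u : ℝ) : Sm (pc η r u) := by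
  refine Sm.of_zero (B := r) ?_ fun x hx => ?_
  · unfold pc
    exact ((fi_Sm hη).1.comp (by fun_prop)).mul (by fun_prop)
  · unfold pc
    rw [fi_div_out hη hr hx, zero_mul]

lemma sn_Sm {η : ℝ} (hη : 0 < η) {r : ℕ} (hr : 1 ≤ r) (u : ℝ) : Sm (sn η r u) := by
  refine Sm.of_zero (B := r) ?_ fun x hx => ?_
  · unfold sn
    exact (((fi_Sm hη).1.comp (by fun_prop)).mul (by fun_prop)).neg
  · unfold sn
    rw [fi_div_out hη hr hx, zero_mul, neg_zero]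

lemma pow_three {N r : ℕ} (hN : 3 ≤ N) (hr : 1 ≤ r) : 3 ≤ N ^ r := hN.trans (Nat.le_self_pow (by omega) N)

lemma xN_pow {N r : ℕ} : xN (N ^ r) = xN N / r := by
  unfold xN
  push_cast
  rw [Real.log_pow, div_div, mul_comm]

/-- the shifted smooth part -/
lemma Tw_Ig {N r : ℕ} (hN : 3 ≤ N) (hr : 1 ≤ r) {η : ℝ} (hη : 0 < η) (hrx : r * xN N ≤ 1) (u : ℝ) (ω : ℕ → ℝ) :
    Ig (pc η r u) (xN N) ω + Complex.I * Ig (sn η r u) (xN N) ω = Tw (fun n => fi η (xN (N ^ r) * Real.log n)) (N ^ r) (u * xN N) ω := by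
  have hr0 : (0:ℝ) < r := by exact_mod_cast (by omega : 0 < r)
  have hx := xN_pos hN
  have hX : Real.exp (r / xN N) ≤ ((N ^ r : ℕ) : ℝ) := by
    have h1 : (r:ℝ) / xN N = r * (1 / xN N) := by ring
    rw [h1, Real.exp_nat_mul, exp_xN hN]
    push_cast
    exact le_rfl
  have h1 := Ig_WS (pc_Sm hη hr u) (B := r) hx hrx (fun v hv => by
    unfold pc
    rw [fi_zero hη, zero_mul]
    have : 1 ≤ v / r := by rwa [le_div_iff₀ hr0, one_mul]
    linarith) hX ω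
  have h2 := Ig_WS (sn_Sm hη hr u) (B := r) hx hrx (fun v hv => by
    unfold sn
    rw [fi_zero hη, zero_mul, neg_zero]
    have : 1 ≤ v / r := by rwa [le_div_iff₀ hr0, one_mul]
    linarith) hX ω
  rw [h1, h2]
  unfold WS Tw
  rw [Finset.mul_sum, ← Finset.sum_add_distrib]
  refine Finset.sum_congr rfl fun n hn => ?_
  rw [Finset.mem_Icc] at hn
  have hn0 : n ≠ 0 := by omega
  have e1 : xN N * Real.log n / r = xN (N ^ r) * Real.log n := by
    rw [xN_pow]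
    ring
  have e2 : tn n (u * xN N) = ((Real.cos (u * (xN N * Real.log n)) : ℝ) : ℂ) - Complex.I * ((Real.sin (u * (xN N * Real.log n)) : ℝ) : ℂ) := by
    rw [tn_eq hn0, Complex.exp_mul_I, ← Complex.ofReal_cos, ← Complex.ofReal_sin, Real.cos_neg, Real.sin_neg]
    have e3 : Real.log n * (u * xN N) = u * (xN N * Real.log n) := by ring
    rw [e3]
    push_cast
    ring
  rw [e2]
  unfold pc sn
  beta_reduce
  rw [e1]
  push_cast
  ring

lemma Tw_sub (w v : ℕ → ℝ) (N : ℕ) (a : ℝ) (ω : ℕ → ℝ) : Tw w N a ω - Tw v N a ω = Tw (fun n => w n - v n) N a ω := by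
  unfold Tw
  rw [← Finset.sum_sub_distrib]
  refine Finset.sum_congr rfl fun n _ => ?_
  push_cast
  ring

/-- the shifted sum -/
noncomputable def Ts (N r : ℕ) (u : ℝ) : (ℕ → ℝ) → ℂ := Tw (fun _ => 1) (N ^ r) (u * xN N)

lemma Ts_gd (N r : ℕ) (u : ℝ) : Gd (Ts N r u) := Tw_gd _ _ _

lemma Ts_sub {N r : ℕ} (hN : 3 ≤ N) (hr : 1 ≤ r) {η : ℝ} (hη : 0 < η) (hrx : r * xN N ≤ 1) (u : ℝ) :
    (fun ω => Ts N r u ω - (Ig (pc η r u) (xN N) ω + Complex.I * Ig (sn η r u) (xN N) ω)) = Tw (fun n => 1 - fi η (xN (N ^ r) * Real.log n)) (N ^ r) (u * xN N) := by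
  funext ω
  rw [Tw_Ig hN hr hη hrx]
  exact Tw_sub _ _ _ _ _

lemma SS_sub' {N : ℕ} (hN : 3 ≤ N) {η : ℝ} (hη : 0 < η) :
    (fun ω => SS N ω - Ig (fi η) (xN N) ω) = WS (fun n => 1 - fi η (xN N * Real.log n)) N := by
  funext ω
  rw [Ig_fi hN hη]
  unfold SS WS
  rw [← Finset.sum_sub_distrib]
  refine Finset.sum_congr rfl fun n _ => ?_
  push_cast
  ring

lemma Ts_mass {k : ℝ} (hk : 0 < k) {N r : ℕ} (hN : 3 ≤ N) (hr : 1 ≤ r) {η : ℝ} (hη : 0 < η) (hrx : r * xN N ≤ 1) (u : ℝ) :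
    (2 * xN N) ^ (k ^ 2) * mk k (fun ω => Ts N r u ω - (Ig (pc η r u) (xN N) ω + Complex.I * Ig (sn η r u) (xN N) ω)) =
      (r:ℝ) ^ (k ^ 2) * ((2 * xN (N ^ r)) ^ (k ^ 2) * mk k (fun ω => SS (N ^ r) ω - Ig (fi η) (xN (N ^ r)) ω)) := by
  have hr0 : (0:ℝ) < r := by exact_mod_cast (by omega : 0 < r)
  have hx := xN_pos hN
  rw [Ts_sub hN hr hη hrx, Tw_mk hk, SS_sub' (pow_three hN hr) hη, ← mul_assoc]
  congr 1
  rw [xN_pow, ← Real.mul_rpow (by positivity) (by positivity)]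
  congr 1
  field_simp

lemma Ts_full {k : ℝ} (hk : 0 < k) {N r : ℕ} (hN : 3 ≤ N) (hr : 1 ≤ r) (u : ℝ) :
    (2 * xN N) ^ (k ^ 2) * mk k (Ts N r u) = (r:ℝ) ^ (k ^ 2) * ((2 * xN (N ^ r)) ^ (k ^ 2) * mk k (SS (N ^ r))) := by
  have hr0 : (0:ℝ) < r := by exact_mod_cast (by omega : 0 < r)
  have hx := xN_pos hN
  unfold Ts SS
  rw [Tw_mk hk, ← mul_assoc]
  congr 1
  rw [xN_pow, ← Real.mul_rpow (by positivity) (by positivity)]
  congr 1
  field_simp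

lemma pow_lim {r : ℕ} (hr : 1 ≤ r) : Tendsto (fun N : ℕ => N ^ r) atTop atTop :=
  tendsto_atTop_mono (fun N => Nat.le_self_pow (by omega) N) tendsto_id

lemma nr_inv {k x : ℝ} (hk : 0 < k) (hx : 0 ≤ x) {f : (ℕ → ℝ) → ℂ} {e : ℝ} (he : 0 ≤ e) (h : nr k x f ≤ e ^ kp k) : (2 * x) ^ (k ^ 2) * mk k f ≤ e := by
  have hkp := kp_pos hk
  have h7 := Real.rpow_le_rpow (nr_nonneg hx _) h (show 0 ≤ 1 / kp k by positivity)
  unfold nr at h7
  rw [← Real.rpow_mul (mul_nonneg (by positivity) (mk_nonneg _ _)), mul_one_div_cancel hkp.ne', Real.rpow_one, ← Real.rpow_mul he,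
    mul_one_div_cancel hkp.ne', Real.rpow_one] at h7
  exact h7

variable {m : ℕ}

/-- the masses of the shifted sums -/
lemma Ts_bd {k : ℝ} (hk : 0 < k) {r : Fin m → ℕ} (hr : ∀ j, 1 ≤ r j) (u : Fin m → ℝ) : ∃ K : ℝ, 0 < K ∧
    ∀ᶠ N : ℕ in atTop, ∑ j, (2 * xN N) ^ (k ^ 2) * mk k (Ts N (r j) (u j)) ≤ K := by
  obtain ⟨c, hc, h⟩ := mk_SS hk
  have h1 : ∀ j, ∀ᶠ N : ℕ in atTop, (2 * xN N) ^ (k ^ 2) * mk k (Ts N (r j) (u j)) ≤ (r j : ℝ) ^ (k ^ 2) * (2 ^ (k ^ 2) * (c + 1)) := by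
    intro j
    filter_upwards [(pow_lim (hr j)).eventually (h.eventually (gt_mem_nhds (show c < c + 1 by linarith))), eventually_ge_atTop 3] with N h2 hN
    rw [Ts_full hk hN (hr j)]
    refine mul_le_mul_of_nonneg_left ?_ (by positivity)
    have h3 := pow_three hN (hr j)
    have hx := xN_pos h3
    have hl := log_N h3
    rw [Real.mul_rpow (by norm_num) hx.le, mul_assoc]
    refine mul_le_mul_of_nonneg_left ?_ (by positivity)
    refine le_trans (le_of_eq ?_) h2.le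
    unfold xN
    rw [Real.div_rpow (by norm_num) (by linarith), Real.one_rpow]
    ring
  refine ⟨(∑ j, (r j : ℝ) ^ (k ^ 2) * (2 ^ (k ^ 2) * (c + 1))) + 1, by positivity, ?_⟩
  filter_upwards [eventually_all.mpr h1] with N hN
  exact (Finset.sum_le_sum fun j _ => hN j).trans (by linarith)

/-- approximation of all the shifted sums by finite combinations -/
theorem Ts_app {k : ℝ} (hk : 0 < k) {r : Fin m → ℕ} (hr : ∀ j, 1 ≤ r j) (u : Fin m → ℝ) {e : ℝ} (he : 0 < e) :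
    ∃ (M : ℕ) (y : Fin M → ℝ) (c : Fin m → Fin M → ℂ), ∀ᶠ N : ℕ in atTop, ∀ j,
      (2 * xN N) ^ (k ^ 2) * mk k (fun ω => Ts N (r j) (u j) ω - ∑ i, c j i * Fp (xN N) (y i) ω) ≤ e := by
  have hkp := kp_pos hk
  obtain ⟨e1, he1⟩ : ∃ e1 : ℝ, e1 = e ^ kp k / 3 := ⟨_, rfl⟩
  have he10 : 0 < e1 := by rw [he1]; positivity
  -- the sharp cutoff
  obtain ⟨R, hR⟩ : ∃ R : ℝ, R = 1 + ∑ j, (r j : ℝ) ^ (k ^ 2) := ⟨_, rfl⟩
  have hR1 : 1 ≤ R := by
    rw [hR]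
    have : 0 ≤ ∑ j, (r j : ℝ) ^ (k ^ 2) := Finset.sum_nonneg fun j _ => by positivity
    linarith
  have hRj : ∀ j, (r j : ℝ) ^ (k ^ 2) ≤ R := fun j => by
    rw [hR]
    have := Finset.single_le_sum (f := fun j => (r j : ℝ) ^ (k ^ 2)) (fun j _ => by positivity) (Finset.mem_univ j)
    linarith
  obtain ⟨η, hη, hη2, hnear⟩ := near hk (show 0 < (e1 ^ (1 / kp k) / R) ^ kp k by positivity)
  -- the finite combinations
  choose Qc hQc0 hQc using fun j => app hk (pc_Sm hη (hr j) (u j)) he10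
  choose Qs hQs0 hQs using fun j => app hk (sn_Sm hη (hr j) (u j)) he10
  obtain ⟨Q, hQ⟩ : ∃ Q : ℝ, Q = ∑ j, Qc j + ∑ j, Qs j := ⟨_, rfl⟩
  have hQ1 : ∀ j, Qc j ≤ Q := fun j => by
    rw [hQ]
    have h1 := Finset.single_le_sum (f := Qc) (fun j _ => hQc0 j) (Finset.mem_univ j)
    have h2 : 0 ≤ ∑ j, Qs j := Finset.sum_nonneg fun j _ => hQs0 j
    linarith
  have hQ2 : ∀ j, Qs j ≤ Q := fun j => by
    rw [hQ]
    have h1 := Finset.single_le_sum (f := Qs) (fun j _ => hQs0 j) (Finset.mem_univ j)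
    have h2 : 0 ≤ ∑ j, Qc j := Finset.sum_nonneg fun j _ => hQc0 j
    linarith
  choose mc hmc0 hmc using fun j => hQc j Q (hQ1 j)
  choose ms hms0 hms using fun j => hQs j Q (hQ2 j)
  obtain ⟨M, hM⟩ : ∃ M : ℕ, M = ∑ j, mc j + ∑ j, ms j := ⟨_, rfl⟩
  have hM1 : ∀ j, mc j ≤ M := fun j => by
    rw [hM]
    have h1 := Finset.single_le_sum (f := mc) (fun j _ => Nat.zero_le _) (Finset.mem_univ j)
    omega
  have hM2 : ∀ j, ms j ≤ M := fun j => by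
    rw [hM]
    have h1 := Finset.single_le_sum (f := ms) (fun j _ => Nat.zero_le _) (Finset.mem_univ j)
    omega
  refine ⟨M, nd Q M, fun j i => wt (pc η (r j) (u j)) Q M i + Complex.I * wt (sn η (r j) (u j)) Q M i, ?_⟩
  rw [eventually_all]
  intro j
  have hrx : ∀ᶠ N : ℕ in atTop, (r j : ℝ) * xN N ≤ 1 := by
    have h1 : Tendsto (fun N : ℕ => (r j : ℝ) * xN N) atTop (𝓝 ((r j : ℝ) * 0)) := (tendsto_nhdsWithin_iff.mp xN_lim).1.const_mul _
    rw [mul_zero] at h1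
    exact (h1.eventually (gt_mem_nhds one_pos)).mono fun N h => h.le
  filter_upwards [(pow_lim (hr j)).eventually hnear, hrx, eventually_ge_atTop 3] with N h1 h2 hN
  have hx := xN_pos hN
  have hx1 := xN_le hN
  have h3 := pow_three hN (hr j)
  have hx3 := xN_pos h3
  have gc := Ig_gd (pc_Sm hη (hr j) (u j)) hx
  have gs := Ig_gd (sn_Sm hη (hr j) (u j)) hx
  have gw := sum_gd hx (wt (pc η (r j) (u j)) Q M) (nd Q M)
  have gv := sum_gd hx (wt (sn η (r j) (u j)) Q M) (nd Q M)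
  -- first part
  have p1 : nr k (xN N) (fun ω => Ts N (r j) (u j) ω - (Ig (pc η (r j) (u j)) (xN N) ω + Complex.I * Ig (sn η (r j) (u j)) (xN N) ω)) ≤ e1 := by
    have h4 := nr_inv hk hx3.le (by positivity) h1
    have h5 := mul_le_mul (hRj j) h4 (mul_nonneg (by positivity) (mk_nonneg _ _)) (by linarith)
    rw [← Ts_mass hk hN (hr j) hη h2 (u j), mul_div_cancel₀ _ (by linarith : R ≠ 0)] at h5
    unfold nr
    refine (Real.rpow_le_rpow (mul_nonneg (by positivity) (mk_nonneg _ _)) h5 hkp.le).trans (le_of_eq ?_)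
    rw [← Real.rpow_mul he10.le, one_div_mul_cancel hkp.ne', Real.rpow_one]
  have p2 := hmc j M (hM1 j) (xN N) hx hx1
  have p3 := hms j M (hM2 j) (xN N) hx hx1
  have p4 : nr k (xN N) (fun ω => Complex.I * (Ig (sn η (r j) (u j)) (xN N) ω - ∑ i, wt (sn η (r j) (u j)) Q M i * Fp (xN N) (nd Q M i) ω)) ≤ e1 := by
    rw [nr_mul _ hx.le, Complex.norm_I, Real.one_rpow, Real.one_rpow, one_mul]
    exact p3
  refine nr_inv hk hx.le he.le ?_
  have e2 : (fun ω => Ts N (r j) (u j) ω - ∑ i, (wt (pc η (r j) (u j)) Q M i + Complex.I * wt (sn η (r j) (u j)) Q M i) * Fp (xN N) (nd Q M i) ω) =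
      fun ω => (Ts N (r j) (u j) ω - (Ig (pc η (r j) (u j)) (xN N) ω + Complex.I * Ig (sn η (r j) (u j)) (xN N) ω)) +
        ((Ig (pc η (r j) (u j)) (xN N) ω - ∑ i, wt (pc η (r j) (u j)) Q M i * Fp (xN N) (nd Q M i) ω) +
          Complex.I * (Ig (sn η (r j) (u j)) (xN N) ω - ∑ i, wt (sn η (r j) (u j)) Q M i * Fp (xN N) (nd Q M i) ω)) := by
    funext ω
    simp_rw [add_mul]
    rw [Finset.sum_add_distrib, mul_sub, Finset.mul_sum]
    simp_rw [mul_assoc]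
    ring
  rw [e2]
  have g1 := (Ts_gd N (r j) (u j)).sub (gc.add (gs.const_mul Complex.I))
  have g2 := gc.sub gw
  have g3 := (gs.sub gv).const_mul Complex.I
  have q1 := nr_add hk hx.le g1 (g2.add g3)
  have q2 := nr_add hk hx.le g2 g3
  have e3 : e ^ kp k = e1 + (e1 + e1) := by rw [he1]; ring
  rw [e3]
  exact q1.trans (add_le_add p1 (q2.trans (add_le_add p2 p4)))

/-- approximate limits -/
theorem TG_app {k : ℝ} (hk : 0 < k) {r : Fin m → ℕ} (hr : ∀ j, 1 ≤ r j) (u : Fin m → ℝ) {Φ : (Fin m → ℂ) → ℝ} (hc : Continuous Φ) (hom : Hom (2 * k) Φ) {e : ℝ} (he : 0 < e) :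
    ∃ L : ℝ, ∀ (P : ℕ) (G : (ℕ → ℝ) → ℝ), Measurable G → ∀ B : ℝ, (∀ ω, |G ω| ≤ B) → Dep (pr P) G →
      ∀ᶠ N : ℕ in atTop, |(2 * xN N) ^ (k ^ 2) * (∫ ω, Φ (fun j => Ts N (r j) (u j) ω) * G ω ∂tm) - L * nuG k P G| ≤ (B + 1) * e := by
  obtain ⟨K, hK, hmass⟩ := Ts_bd hk hr u
  obtain ⟨C, hC, hdiff⟩ := hom_diff hk hc hom (show 0 < e / (2 * K) by positivity)
  obtain ⟨M, y, c, happ⟩ := Ts_app hk hr u (show 0 < e / (2 * ((C + 1) * (m + 1))) by positivity)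
  obtain ⟨Ψ, hΨ⟩ : ∃ Ψ : (Fin M → ℂ) → ℝ, ∀ z, Ψ z = Φ (fun j => ∑ i, c j i * z i) := ⟨fun z => _, fun _ => rfl⟩
  have hΨc : Continuous Ψ := by
    rw [funext hΨ]
    exact hc.comp (by fun_prop)
  have hΨh : Hom (2 * k) Ψ := by
    intro a z
    rw [hΨ, hΨ, ← hom]
    congr 1
    funext j
    rw [Pi.smul_apply, smul_eq_mul, Finset.mul_sum]
    refine Finset.sum_congr rfl fun i _ => ?_
    rw [Pi.smul_apply, smul_eq_mul]
    ring
  obtain ⟨L, hL⟩ := fld_G hk y hΨc hΨh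
  refine ⟨L, fun P G hG B hGb hGd => ?_⟩
  have hB : 0 ≤ B := (abs_nonneg _).trans (hGb 0)
  have h1 := (hL P G hG ⟨B, hGb⟩ hGd).comp xN_lim
  filter_upwards [hmass, happ, Metric.tendsto_nhds.mp h1 e he, eventually_ge_atTop 3] with N h2 h3 h4 hN
  have hx := xN_pos hN
  rw [Real.dist_eq] at h4
  have h5 : |(2 * xN N) ^ (k ^ 2) * (∫ ω, Ψ (fun i => Fp (xN N) (y i) ω) * G ω ∂tm) - L * nuG k P G| < e := h4
  simp_rw [hΨ] at h5
  have h6 := hdiff (fun j ω => ∑ i, c j i * Fp (xN N) (y i) ω) (fun j => Ts N (r j) (u j)) (fun j => sum_gd hx (c j) y) (fun j => Ts_gd _ _ _) G hG B hGb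
  have hX : 0 < (2 * xN N) ^ (k ^ 2) := by positivity
  have h7 := mul_le_mul_of_nonneg_left h6 hX.le
  rw [← abs_of_pos hX, ← abs_mul, abs_of_pos hX, mul_sub] at h7
  have h8 : (2 * xN N) ^ (k ^ 2) * (B * (e / (2 * K) * ∑ j, mk k (Ts N (r j) (u j)) + C * ∑ j, mk k (fun ω => (∑ i, c j i * Fp (xN N) (y i) ω) - Ts N (r j) (u j) ω))) ≤ B * e := by
    have e1 : ∀ j, mk k (fun ω => (∑ i, c j i * Fp (xN N) (y i) ω) - Ts N (r j) (u j) ω) = mk k (fun ω => Ts N (r j) (u j) ω - ∑ i, c j i * Fp (xN N) (y i) ω) := by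
      intro j
      unfold mk
      refine integral_congr_ae (Eventually.of_forall fun ω => ?_)
      show ‖_‖ ^ (2 * k) = ‖_‖ ^ (2 * k)
      rw [norm_sub_rev]
    simp_rw [e1]
    have e2 : (2 * xN N) ^ (k ^ 2) * (B * (e / (2 * K) * ∑ j, mk k (Ts N (r j) (u j)) + C * ∑ j, mk k (fun ω => Ts N (r j) (u j) ω - ∑ i, c j i * Fp (xN N) (y i) ω))) =
        B * (e / (2 * K) * (∑ j, (2 * xN N) ^ (k ^ 2) * mk k (Ts N (r j) (u j))) + C * ∑ j, (2 * xN N) ^ (k ^ 2) * mk k (fun ω => Ts N (r j) (u j) ω - ∑ i, c j i * Fp (xN N) (y i) ω)) := by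
      rw [← Finset.mul_sum, ← Finset.mul_sum]
      ring
    rw [e2]
    refine mul_le_mul_of_nonneg_left ?_ hB
    have e3 : e / (2 * K) * (∑ j, (2 * xN N) ^ (k ^ 2) * mk k (Ts N (r j) (u j))) ≤ e / 2 := by
      refine (mul_le_mul_of_nonneg_left h2 (by positivity)).trans (le_of_eq ?_)
      field_simp
    have e4 : C * ∑ j, (2 * xN N) ^ (k ^ 2) * mk k (fun ω => Ts N (r j) (u j) ω - ∑ i, c j i * Fp (xN N) (y i) ω) ≤ e / 2 := by
      have e5 : ∑ j, (2 * xN N) ^ (k ^ 2) * mk k (fun ω => Ts N (r j) (u j) ω - ∑ i, c j i * Fp (xN N) (y i) ω) ≤ (m + 1) * (e / (2 * ((C + 1) * (m + 1)))) := by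
        refine (Finset.sum_le_card_nsmul _ _ _ fun j _ => h3 j).trans ?_
        rw [Finset.card_univ, Fintype.card_fin, nsmul_eq_mul]
        refine mul_le_mul_of_nonneg_right (by linarith) (by positivity)
      refine (mul_le_mul_of_nonneg_left e5 hC).trans ?_
      have e6 : C * ((m + 1) * (e / (2 * ((C + 1) * (m + 1))))) = C / (C + 1) * (e / 2) := by field_simp
      rw [e6]
      have e7 : C / (C + 1) ≤ 1 := by
        rw [div_le_one (by linarith)]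
        linarith
      have := mul_le_mul_of_nonneg_right e7 (show 0 ≤ e / 2 by positivity)
      linarith
    linarith
  have h9 := h7.trans h8
  have h10 := abs_le.mp h9
  have h11 := abs_lt.mp h5
  rw [abs_le]
  constructor <;> linarith [h10.1, h10.2, h11.1, h11.2]

/-- the limit on the torus -/
theorem TG_lim {k : ℝ} (hk : 0 < k) {r : Fin m → ℕ} (hr : ∀ j, 1 ≤ r j) (u : Fin m → ℝ) {Φ : (Fin m → ℂ) → ℝ} (hc : Continuous Φ) (hom : Hom (2 * k) Φ) :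
    ∃ L : ℝ, ∀ (P : ℕ) (G : (ℕ → ℝ) → ℝ), Measurable G → (∃ B : ℝ, ∀ ω, |G ω| ≤ B) → Dep (pr P) G →
      Tendsto (fun N : ℕ => (2 * xN N) ^ (k ^ 2) * ∫ ω, Φ (fun j => Ts N (r j) (u j) ω) * G ω ∂tm) atTop (𝓝 (L * nuG k P G)) := by
  -- the mass
  obtain ⟨I, hI⟩ : ∃ I : ℕ → ℝ, ∀ N, I N = (2 * xN N) ^ (k ^ 2) * ∫ ω, Φ (fun j => Ts N (r j) (u j) ω) * 1 ∂tm := ⟨fun N => _, fun _ => rfl⟩
  have n1 : nuG k 0 (fun _ => 1) = 1 := by
    unfold nuG
    simp only [mul_one]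
    exact div_self (La_mass k 0).ne'
  have hI1 : ∀ e : ℝ, 0 < e → ∃ L : ℝ, (∀ᶠ N : ℕ in atTop, |I N - L| ≤ 2 * e) ∧ ∀ (P : ℕ) (G : (ℕ → ℝ) → ℝ), Measurable G → ∀ B : ℝ, (∀ ω, |G ω| ≤ B) → Dep (pr P) G →
      ∀ᶠ N : ℕ in atTop, |(2 * xN N) ^ (k ^ 2) * (∫ ω, Φ (fun j => Ts N (r j) (u j) ω) * G ω ∂tm) - L * nuG k P G| ≤ (B + 1) * e := by
    intro e he
    obtain ⟨L, hL⟩ := TG_app hk hr u hc hom he
    refine ⟨L, ?_, hL⟩
    have h1 := hL 0 (fun _ => 1) measurable_const 1 (fun _ => by simp) (fun _ _ _ => rfl)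
    rw [n1, mul_one] at h1
    filter_upwards [h1] with N h2
    rw [hI]
    linarith
  have hcs : CauchySeq I := by
    rw [Metric.cauchySeq_iff']
    intro e he
    obtain ⟨L, hL, -⟩ := hI1 (e / 6) (by positivity)
    obtain ⟨N0, hN0⟩ := eventually_atTop.mp hL
    refine ⟨N0, fun N hN => ?_⟩
    have h1 := abs_le.mp (hN0 N hN)
    have h2 := abs_le.mp (hN0 N0 le_rfl)
    rw [Real.dist_eq, abs_lt]
    constructor <;> linarith [h1.1, h1.2, h2.1, h2.2]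
  obtain ⟨L, hL⟩ := cauchySeq_tendsto_of_complete hcs
  refine ⟨L, fun P G hG hGb hGd => ?_⟩
  obtain ⟨B, hB⟩ := hGb
  have hB0 : 0 ≤ B := (abs_nonneg _).trans (hB 0)
  rw [Metric.tendsto_nhds]
  intro e he
  obtain ⟨q, hq⟩ : ∃ q : ℝ, q = |nuG k P G| := ⟨_, rfl⟩
  have hq0 : 0 ≤ q := by rw [hq]; exact abs_nonneg _
  obtain ⟨L', hL', hG'⟩ := hI1 (e / (2 * (B + 1 + 2 * q))) (by positivity)
  have h1 : |L - L'| ≤ 2 * (e / (2 * (B + 1 + 2 * q))) := by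
    have h2 : Tendsto (fun N => |I N - L'|) atTop (𝓝 |L - L'|) := (hL.sub_const L').abs
    exact le_of_tendsto h2 hL'
  filter_upwards [hG' P G hG B hB hGd] with N h2
  rw [Real.dist_eq]
  have h3 : |L' * nuG k P G - L * nuG k P G| ≤ 2 * (e / (2 * (B + 1 + 2 * q))) * q := by
    rw [← sub_mul, abs_mul, ← hq, abs_sub_comm]
    exact mul_le_mul_of_nonneg_right h1 hq0
  have h4 := abs_add_le ((2 * xN N) ^ (k ^ 2) * (∫ ω, Φ (fun j => Ts N (r j) (u j) ω) * G ω ∂tm) - L' * nuG k P G) (L' * nuG k P G - L * nuG k P G)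
  rw [sub_add_sub_cancel] at h4
  refine lt_of_le_of_lt (h4.trans (add_le_add h2 h3)) ?_
  have h5 : (B + 1) * (e / (2 * (B + 1 + 2 * q))) + 2 * (e / (2 * (B + 1 + 2 * q))) * q = e / 2 := by
    field_simp
  rw [h5]
  linarith

end Pool.Agent.H470
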