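import Pool.Agent.H470.To2
import Pool.Agent.H470.Rp
import Pool.Graph.R_seed8.Helper256.KM.Mertens
import Pool.Graph.R_seed8.Y901.SHR.LogZ

set_option autoImplicit false

/-! Sums over primes. -/

namespace Pool.Agent.H470

open MeasureTheory Filter Topology Set
open Pool.Agent.Y901.SHR (Lz exp_Lz Lz_summable Lz_tendsto pw_summable log_le)

/-- the primes up to `N` -/
def pr (N : ℕ) : Finset ℕ := (Finset.Icc 1 N).filter Nat.Prime

lemma pr_prime {N p : ℕ} (h : p ∈ pr N) : p.Prime := (Finset.mem_filter.mp h).2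

lemma pr_two {N p : ℕ} (h : p ∈ pr N) : 2 ≤ p := (pr_prime h).two_le

lemma pr_le {N p : ℕ} (h : p ∈ pr N) : p ≤ N := (Finset.mem_Icc.mp (Finset.mem_filter.mp h).1).2

lemma pr_mono {M N : ℕ} (h : M ≤ N) : pr M ⊆ pr N := by
  intro p hp
  unfold pr
  rw [Finset.mem_filter, Finset.mem_Icc]
  exact ⟨⟨(pr_prime hp).one_le, (pr_le hp).trans h⟩, pr_prime hp⟩

/-- the tail of a sum over the primes -/
lemma tail_pr {f : ℕ → ℂ} {g : ℕ → ℝ} (hg : Summable g) (hg0 : ∀ m, 0 ≤ g m) (hf : ∀ p, p.Prime → ‖f p‖ ≤ g p) (P : ℕ) :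
    ‖∑' p : Nat.Primes, f p - ∑ p ∈ pr P, f p‖ ≤ ∑' m, g (m + (P + 1)) := by
  obtain ⟨h, hh⟩ : ∃ h : ℕ → ℂ, h = Set.indicator {p : ℕ | p.Prime} f := ⟨_, rfl⟩
  have hhn : ∀ m, ‖h m‖ ≤ g m := by
    intro m
    rw [hh]
    by_cases hm : m.Prime
    · rw [Set.indicator_of_mem (show m ∈ {p : ℕ | p.Prime} from hm)]
      exact hf m hm
    · rw [Set.indicator_of_notMem (show m ∉ {p : ℕ | p.Prime} from hm), norm_zero]
      exact hg0 m
  have hs : Summable h := Summable.of_norm_bounded hg hhn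
  have e1 : ∑' p : Nat.Primes, f p = ∑' m, h m := by
    rw [hh]
    exact tsum_subtype {p : ℕ | p.Prime} f
  have e2 : ∑ p ∈ pr P, f p = ∑ m ∈ Finset.range (P + 1), h m := by
    have e3 : ∀ m, h m = if m.Prime then f m else 0 := by
      intro m
      rw [hh, Set.indicator_apply]
      rfl
    simp_rw [e3]
    rw [← Finset.sum_filter]
    refine Finset.sum_congr ?_ fun _ _ => rfl
    ext p
    unfold pr
    rw [Finset.mem_filter, Finset.mem_filter, Finset.mem_Icc, Finset.mem_range]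
    constructor
    · rintro ⟨⟨_, h2⟩, h3⟩
      exact ⟨by omega, h3⟩
    · rintro ⟨h1, h2⟩
      exact ⟨⟨h2.one_le, by omega⟩, h2⟩
  rw [e1, e2, ← hs.sum_add_tsum_nat_add (P + 1), add_sub_cancel_left]
  refine tsum_of_norm_bounded ((summable_nat_add_iff (P + 1)).mpr hg).hasSum fun m => hhn _

/-- the choice of the number of primes -/
lemma PX_ex (x : ℝ) : ∃ P : ℕ, 0 < x → Real.exp (1 / x ^ 2) ≤ P ∧ ∑' m : ℕ, ((m + (P + 1) : ℕ) : ℝ) ^ (-(1 + 2 * x)) ≤ x := by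
  by_cases hx : 0 < x
  · have hs : Summable fun m : ℕ => (m:ℝ) ^ (-(1 + 2 * x)) := Real.summable_nat_rpow.mpr (by linarith)
    have h1 := tendsto_sum_nat_add fun m : ℕ => (m:ℝ) ^ (-(1 + 2 * x))
    have h2 := h1.eventually (gt_mem_nhds hx)
    obtain ⟨P, hP1, hP2⟩ := ((h2.and (tendsto_natCast_atTop_atTop.eventually_ge_atTop (Real.exp (1 / x ^ 2) + 1))).and (eventually_ge_atTop 1)).exists
    refine ⟨P - 1, fun _ => ⟨?_, ?_⟩⟩
    · have : ((P - 1 : ℕ) : ℝ) = P - 1 := by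
        rw [Nat.cast_sub hP2]
        simp
      rw [this]
      have := hP1.2
      linarith
    · have e : P - 1 + 1 = P := by omega
      rw [e]
      exact hP1.1.le
  · exact ⟨0, fun h => absurd h hx⟩

/-- the number of primes -/
noncomputable def PX (x : ℝ) : ℕ := (PX_ex x).choose

lemma PX_exp {x : ℝ} (hx : 0 < x) : Real.exp (1 / x ^ 2) ≤ PX x := ((PX_ex x).choose_spec hx).1

lemma PX_tail {x : ℝ} (hx : 0 < x) : ∑' m : ℕ, ((m + (PX x + 1) : ℕ) : ℝ) ^ (-(1 + 2 * x)) ≤ x := ((PX_ex x).choose_spec hx).2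

/-- the upper bound for the logarithm of zeta -/
theorem z_up (K : ℝ) : ∃ C : ℝ, 0 ≤ C ∧ ∀ w : ℂ, 0 < w.re → ‖w‖ ≤ K → (Lz (1 + w)).re ≤ -Real.log ‖w‖ + C := by
  obtain ⟨B, hB⟩ : ∃ B : ℝ, B = 1 + |K| * (2 + |K|) := ⟨_, rfl⟩
  have hB1 : 1 ≤ B := by
    rw [hB]
    have : 0 ≤ |K| * (2 + |K|) := by positivity
    linarith
  refine ⟨Real.log B, Real.log_nonneg hB1, fun w hw hK => ?_⟩
  have hw0 : 0 < ‖w‖ := by
    refine norm_pos_iff.mpr ?_
    rintro rfl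
    simp at hw
  have hK' : ‖w‖ ≤ |K| := hK.trans (le_abs_self K)
  have h1 := em_bd (s := 1 + w) (by simp; linarith) (by
    intro h
    have : w = 0 := by linear_combination h
    rw [this, norm_zero] at hw0
    exact lt_irrefl _ hw0) (M := 1) le_rfl
  simp only [Nat.cast_one, Real.one_rpow, Finset.Icc_self, Finset.sum_singleton, Complex.one_cpow, mul_one] at h1
  have h2 : ‖(1:ℂ) - (1 + w)‖ = ‖w‖ := by
    rw [← norm_neg]
    congr 1
    ring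
  have h3 : ‖1 + w‖ ≤ 1 + ‖w‖ := (norm_add_le _ _).trans (by rw [norm_one])
  have h4 : 1 ≤ (1 + w).re := by simp; linarith
  have h5 : ‖1 + w‖ * (1 / (2 * (1 + w).re)) ≤ (1 + ‖w‖) * (1 / 2) := by
    refine mul_le_mul h3 ?_ (by positivity) (by positivity)
    exact one_div_le_one_div_of_le (by norm_num) (by linarith)
  have h6 : ‖riemannZeta (1 + w)‖ ≤ B / ‖w‖ := by
    have e1 : riemannZeta (1 + w) = (riemannZeta (1 + w) - 1) + 1 := by ring
    rw [h2] at h1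
    have h7 : ‖riemannZeta (1 + w)‖ ≤ 1 / ‖w‖ + 1 / 2 + (1 + ‖w‖) * (1 / 2) + 1 := by
      rw [e1]
      refine (norm_add_le _ _).trans ?_
      rw [norm_one]
      linarith
    refine h7.trans ?_
    rw [le_div_iff₀ hw0, hB]
    have h8 : 1 / ‖w‖ * ‖w‖ = 1 := one_div_mul_cancel hw0.ne'
    have h9 : ‖w‖ * (2 + ‖w‖) ≤ |K| * (2 + |K|) := mul_le_mul hK' (by linarith) (by positivity) (by positivity)
    nlinarith
  have h7 : Real.exp (Lz (1 + w)).re = ‖riemannZeta (1 + w)‖ := by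
    rw [← exp_Lz (by simpa using hw), Complex.norm_exp]
  have h8 : (Lz (1 + w)).re = Real.log ‖riemannZeta (1 + w)‖ := by
    rw [← h7, Real.log_exp]
  rw [h8]
  have h9 : 0 < ‖riemannZeta (1 + w)‖ := by rw [← h7]; exact Real.exp_pos _
  refine (Real.log_le_log h9 h6).trans ?_
  rw [Real.log_div (by positivity) hw0.ne']
  linarith

lemma one_sub_log {z : ℂ} (hz : ‖z‖ ≤ 1 / 2) : ‖-Complex.log (1 - z) - z‖ ≤ ‖z‖ ^ 2 := by
  have h := Complex.norm_log_one_add_sub_self_le (z := -z) (by rw [norm_neg]; linarith)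
  rw [norm_neg, ← sub_eq_add_neg] at h
  have e : -Complex.log (1 - z) - z = -(Complex.log (1 - z) - -z) := by ring
  rw [e, norm_neg]
  refine h.trans ?_
  have h1 : (1 - ‖z‖)⁻¹ ≤ 2 := by
    rw [inv_le_comm₀ (by linarith) (by norm_num)]
    linarith
  have h2 := mul_le_mul_of_nonneg_left h1 (show 0 ≤ ‖z‖ ^ 2 by positivity)
  linarith

lemma npw {p : ℕ} (hp : p.Prime) {v : ℂ} : ‖(p:ℂ) ^ (-(1 + v))‖ = (p:ℝ) ^ (-(1 + v.re)) := by
  rw [Complex.norm_natCast_cpow_of_pos hp.pos]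
  simp

lemma npw_le {p : ℕ} (hp : p.Prime) {v : ℂ} (hv : 0 ≤ v.re) : ‖(p:ℂ) ^ (-(1 + v))‖ ≤ 1 / p := by
  rw [npw hp, one_div, ← Real.rpow_neg_one]
  exact Real.rpow_le_rpow_of_exponent_le (by exact_mod_cast hp.one_le) (by linarith)

lemma inv_le_half {p : ℕ} (hp : p.Prime) : (1:ℝ) / p ≤ 1 / 2 := by
  refine one_div_le_one_div_of_le (by norm_num) ?_
  exact_mod_cast hp.two_le

/-- the sum of inverse squares -/
noncomputable def K2 : ℝ := ∑' m : ℕ, (m:ℝ) ^ (-2 : ℝ)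

lemma K2_nonneg : 0 ≤ K2 := tsum_nonneg fun _ => by positivity

lemma K2_sum (I : Finset ℕ) : ∑ p ∈ I, ((1:ℝ) / p) ^ 2 ≤ K2 := by
  have e : ∀ p : ℕ, ((1:ℝ) / p) ^ 2 = (p:ℝ) ^ (-2 : ℝ) := by
    intro p
    rw [Real.rpow_neg (Nat.cast_nonneg _), one_div, inv_pow]
    norm_num
  simp_rw [e]
  exact (Real.summable_nat_rpow.mpr (by norm_num)).sum_le_tsum I fun _ _ => by positivity

/-- sums over finite sets of primes for the logarithms -/
lemma log_sum {I : Finset ℕ} (hI : ∀ p ∈ I, p.Prime) {v : ℂ} (hv : 0 ≤ v.re) :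
    ‖∑ p ∈ I, (p:ℂ) ^ (-(1 + v)) - ∑ p ∈ I, -Complex.log (1 - (p:ℂ) ^ (-(1 + v)))‖ ≤ K2 := by
  rw [← Finset.sum_sub_distrib]
  refine (norm_sum_le _ _).trans (le_trans (Finset.sum_le_sum fun p hp => ?_) (K2_sum I))
  have h1 := npw_le (hI p hp) hv
  rw [norm_sub_rev]
  refine (one_sub_log (h1.trans (inv_le_half (hI p hp)))).trans ?_
  exact pow_le_pow_left₀ (norm_nonneg _) h1 2

/-- the truncation -/
lemma Lz_trunc {x : ℝ} (hx : 0 < x) (u : ℝ) :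
    ‖Lz (1 + (x:ℂ) * (2 + (u:ℂ) * Complex.I)) - ∑ p ∈ pr (PX x), -Complex.log (1 - (p:ℂ) ^ (-(1 + (x:ℂ) * (2 + (u:ℂ) * Complex.I))))‖ ≤ 3 / 2 * x := by
  have hre : ((x:ℂ) * (2 + (u:ℂ) * Complex.I)).re = 2 * x := by simp; ring
  have hs : Summable fun m : ℕ => (m:ℝ) ^ (-(1 + 2 * x)) := Real.summable_nat_rpow.mpr (by linarith)
  have h1 := tail_pr (f := fun p => -Complex.log (1 - (p:ℂ) ^ (-(1 + (x:ℂ) * (2 + (u:ℂ) * Complex.I)))))
    (g := fun m => 3 / 2 * (m:ℝ) ^ (-(1 + 2 * x))) (hs.mul_left _) (fun m => by positivity) (fun p hp => by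
      have h2 := npw_le hp (v := (x:ℂ) * (2 + (u:ℂ) * Complex.I)) (by rw [hre]; linarith)
      refine (log_le (h2.trans (inv_le_half hp))).trans (le_of_eq ?_)
      rw [npw hp, hre]) (PX x)
  refine h1.trans ?_
  rw [tsum_mul_left]
  exact mul_le_mul_of_nonneg_left (PX_tail hx) (by norm_num)

/-- the upper bound for the full sum -/
theorem S_up (K : ℝ) : ∃ C : ℝ, 0 ≤ C ∧ ∀ x : ℝ, 0 < x → x ≤ 1 → ∀ u : ℝ, x * ‖2 + (u:ℂ) * Complex.I‖ ≤ K →
    (∑ p ∈ pr (PX x), (p:ℂ) ^ (-(1 + (x:ℂ) * (2 + (u:ℂ) * Complex.I)))).re ≤ -Real.log (x * ‖2 + (u:ℂ) * Complex.I‖) + C := by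
  obtain ⟨C, hC, h⟩ := z_up K
  refine ⟨C + K2 + 3 / 2, by have := K2_nonneg; positivity, fun x hx hx1 u hu => ?_⟩
  have hre : ((x:ℂ) * (2 + (u:ℂ) * Complex.I)).re = 2 * x := by simp; ring
  have hn : ‖(x:ℂ) * (2 + (u:ℂ) * Complex.I)‖ = x * ‖2 + (u:ℂ) * Complex.I‖ := by
    rw [norm_mul, Complex.norm_real, Real.norm_of_nonneg hx.le]
  have h1 := h ((x:ℂ) * (2 + (u:ℂ) * Complex.I)) (by rw [hre]; linarith) (by rw [hn]; exact hu)
  rw [hn] at h1
  have h2 := Lz_trunc hx u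
  have h3 := log_sum (I := pr (PX x)) (fun p hp => pr_prime hp) (v := (x:ℂ) * (2 + (u:ℂ) * Complex.I)) (by rw [hre]; linarith)
  have h4 := (Complex.re_le_norm _).trans h3
  have h5 := (abs_le.mp ((Complex.abs_re_le_norm _).trans h2)).1
  rw [Complex.sub_re] at h4 h5
  linarith

/-- the upper bound for real arguments -/
theorem S_real : ∃ C : ℝ, 0 ≤ C ∧ ∀ y : ℝ, 0 < y → y ≤ 2 → ∀ I : Finset ℕ, (∀ p ∈ I, p.Prime) →
    ∑ p ∈ I, (p:ℝ) ^ (-(1 + 2 * y)) ≤ -Real.log (2 * y) + C := by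
  obtain ⟨C, hC, h⟩ := z_up 4
  refine ⟨C + K2, by have := K2_nonneg; positivity, fun y hy hy2 I hI => ?_⟩
  have h1 := h ((2 * y : ℝ) : ℂ) (by rw [Complex.ofReal_re]; linarith) (by
    rw [Complex.norm_real, Real.norm_of_nonneg (by linarith)]
    linarith)
  rw [Complex.norm_real, Real.norm_of_nonneg (by linarith)] at h1
  have hpc : ∀ p : ℕ, (p:ℂ) ^ (-(1 + ((2 * y : ℝ) : ℂ))) = (((p:ℝ) ^ (-(1 + 2 * y)) : ℝ) : ℂ) := by
    intro p
    rw [Complex.ofReal_cpow (Nat.cast_nonneg _)]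
    push_cast
    rfl
  have hlt : ∀ p : ℕ, p.Prime → (p:ℝ) ^ (-(1 + 2 * y)) ≤ 1 / 2 := by
    intro p hp
    have h2 := npw_le hp (v := ((2 * y : ℝ) : ℂ)) (by rw [Complex.ofReal_re]; linarith)
    rw [npw hp, Complex.ofReal_re] at h2
    exact h2.trans (inv_le_half hp)
  have hlog : ∀ p : ℕ, p.Prime → -Complex.log (1 - (p:ℂ) ^ (-(1 + ((2 * y : ℝ) : ℂ)))) = ((-Real.log (1 - (p:ℝ) ^ (-(1 + 2 * y))) : ℝ) : ℂ) := by
    intro p hp
    rw [hpc]
    have h2 := hlt p hp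
    push_cast
    rw [Complex.ofReal_log (by linarith)]
    push_cast
    rfl
  have hnn : ∀ p : ℕ, p.Prime → (p:ℝ) ^ (-(1 + 2 * y)) ≤ -Real.log (1 - (p:ℝ) ^ (-(1 + 2 * y))) := by
    intro p hp
    have h2 := hlt p hp
    have h3 := Real.log_le_sub_one_of_pos (show 0 < 1 - (p:ℝ) ^ (-(1 + 2 * y)) by linarith)
    linarith
  have hsum := Lz_summable (s := 1 + ((2 * y : ℝ) : ℂ)) (by simp; linarith)
  have hLz : (Lz (1 + ((2 * y : ℝ) : ℂ))).re = ∑' p : Nat.Primes, -Real.log (1 - ((p:ℕ):ℝ) ^ (-(1 + 2 * y))) := by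
    have e1 : Lz (1 + ((2 * y : ℝ) : ℂ)) = ((∑' p : Nat.Primes, -Real.log (1 - ((p:ℕ):ℝ) ^ (-(1 + 2 * y))) : ℝ) : ℂ) := by
      rw [Complex.ofReal_tsum]
      unfold Lz
      exact tsum_congr fun p : Nat.Primes => hlog (p:ℕ) p.2
    rw [e1, Complex.ofReal_re]
  have hsr : Summable fun p : Nat.Primes => -Real.log (1 - ((p:ℕ):ℝ) ^ (-(1 + 2 * y))) := by
    have h2 := hsum.mapL Complex.reCLM
    refine h2.congr fun p => ?_
    have := hlog p p.2
    show (-Complex.log (1 - ((p:ℕ):ℂ) ^ (-(1 + ((2 * y : ℝ) : ℂ))))).re = _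
    rw [this, Complex.ofReal_re]
  have h2 : ∑ p ∈ I, (p:ℝ) ^ (-(1 + 2 * y)) ≤ ∑' p : Nat.Primes, -Real.log (1 - ((p:ℕ):ℝ) ^ (-(1 + 2 * y))) := by
    have h3 : ∑ p ∈ I, (p:ℝ) ^ (-(1 + 2 * y)) ≤ ∑ p ∈ I, -Real.log (1 - (p:ℝ) ^ (-(1 + 2 * y))) := Finset.sum_le_sum fun p hp => hnn p (hI p hp)
    refine h3.trans ?_
    obtain ⟨J, hJ⟩ : ∃ J : Finset Nat.Primes, J = Finset.subtype Nat.Prime I := ⟨_, rfl⟩
    have h4 : ∑ p ∈ I, -Real.log (1 - (p:ℝ) ^ (-(1 + 2 * y))) = ∑ q ∈ J, -Real.log (1 - ((q:ℕ):ℝ) ^ (-(1 + 2 * y))) := by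
      rw [hJ]
      exact (Finset.sum_subtype_of_mem (fun p : ℕ => -Real.log (1 - (p:ℝ) ^ (-(1 + 2 * y)))) hI).symm
    rw [h4]
    refine Summable.sum_le_tsum J (fun p _ => ?_) hsr
    have h5 := hnn p p.2
    have h6 : 0 ≤ ((p:ℕ):ℝ) ^ (-(1 + 2 * y)) := by positivity
    linarith
  have := K2_nonneg
  rw [← hLz] at h2
  linarith

lemma exp_sub_one_re {z : ℂ} (hz : z.re ≤ 0) : ‖Complex.exp z - 1‖ ≤ 2 * ‖z‖ := by
  rcases le_or_gt ‖z‖ 1 with h | h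
  · exact Complex.norm_exp_sub_one_le h
  · refine (norm_sub_le _ _).trans ?_
    rw [norm_one, Complex.norm_exp]
    have := Real.exp_le_one_iff.mpr hz
    linarith

/-- the primes up to `N` -/
theorem S_lo : ∃ C : ℝ, 0 ≤ C ∧ ∀ N : ℕ, 3 ≤ N → ∀ v : ℂ, 0 ≤ v.re →
    Real.log (Real.log N) - (C + 2 * ‖v‖ * (Real.log N + C)) ≤ (∑ p ∈ pr N, (p:ℂ) ^ (-(1 + v))).re := by
  obtain ⟨C1, h1⟩ := Pool.Agent.Helper256.KM.mertens_inv
  obtain ⟨C2, h2⟩ := Pool.Agent.Helper256.KM.mertens_log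
  have hC1 : 0 ≤ C1 := (abs_nonneg _).trans (h1 3 le_rfl)
  have hC2 : 0 ≤ C2 := (abs_nonneg _).trans (h2 1 le_rfl)
  refine ⟨C1 + C2, by positivity, fun N hN v hv => ?_⟩
  have h3 := (abs_le.mp (h1 N hN)).1
  have h4 := (abs_le.mp (h2 N (by omega))).2
  have hpt : ∀ p ∈ pr N, (1:ℝ) / p - 2 * ‖v‖ * (Real.log p / p) ≤ ((p:ℂ) ^ (-(1 + v))).re := by
    intro p hp
    have hpp := pr_prime hp
    have hp0 : (0:ℝ) < p := by exact_mod_cast hpp.pos
    have hpc : (p:ℂ) ≠ 0 := by exact_mod_cast hpp.ne_zero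
    have hl : 0 ≤ Real.log p := Real.log_nonneg (by exact_mod_cast hpp.one_le)
    have e1 : (p:ℂ) ^ (-(1 + v)) = ((1 / p : ℝ) : ℂ) * Complex.exp (-(v * (Real.log p : ℝ))) := by
      have e2 : -(1 + v) = -1 + -v := by ring
      rw [e2, Complex.cpow_add _ _ hpc, Complex.cpow_neg_one, Complex.cpow_def_of_ne_zero hpc, Complex.ofReal_log hp0.le]
      push_cast
      rw [one_div]
      congr 2
      ring
    have h5 : ‖Complex.exp (-(v * (Real.log p : ℝ))) - 1‖ ≤ 2 * (‖v‖ * Real.log p) := by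
      have h6 := exp_sub_one_re (z := -(v * (Real.log p : ℝ))) (by
        rw [Complex.neg_re, Complex.re_mul_ofReal]
        have := mul_nonneg hv hl
        linarith)
      rw [norm_neg, norm_mul, Complex.norm_real, Real.norm_of_nonneg hl] at h6
      exact h6
    have h7 := (abs_le.mp ((Complex.abs_re_le_norm _).trans h5)).1
    rw [Complex.sub_re, Complex.one_re] at h7
    rw [e1, Complex.re_ofReal_mul]
    have h8 := mul_le_mul_of_nonneg_left h7 (show 0 ≤ 1 / (p:ℝ) by positivity)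
    have e3 : 2 * ‖v‖ * (Real.log p / p) = 1 / p * (2 * (‖v‖ * Real.log p)) := by ring
    rw [e3]
    linarith
  have h5 := Finset.sum_le_sum hpt
  rw [Finset.sum_sub_distrib, ← Finset.mul_sum] at h5
  rw [Complex.re_sum]
  have h6 : 2 * ‖v‖ * ∑ p ∈ pr N, Real.log p / p ≤ 2 * ‖v‖ * (Real.log N + C2) := by
    refine mul_le_mul_of_nonneg_left ?_ (by positivity)
    unfold pr
    linarith
  have h7 : Real.log (Real.log N) - C1 ≤ ∑ p ∈ pr N, (1:ℝ) / p := by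
    unfold pr
    linarith
  have h8 : 2 * ‖v‖ * (Real.log N + C2) ≤ 2 * ‖v‖ * (Real.log N + (C1 + C2)) := mul_le_mul_of_nonneg_left (by linarith) (by positivity)
  linarith

/-- the primes up to `N`, close to the line -/
theorem S_cl : ∃ C : ℝ, 0 ≤ C ∧ ∀ N : ℕ, 3 ≤ N → ∀ σ : ℝ, 1 / 2 - 1 / (20 * Real.log N) ≤ σ →
    ∑ p ∈ pr N, (p:ℝ) ^ (-(2 * σ)) ≤ Real.log (Real.log N) + C := by
  obtain ⟨C1, h1⟩ := Pool.Agent.Helper256.KM.mertens_inv
  obtain ⟨C2, h2⟩ := Pool.Agent.Helper256.KM.mertens_log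
  have hC1 : 0 ≤ C1 := (abs_nonneg _).trans (h1 3 le_rfl)
  have hC2 : 0 ≤ C2 := (abs_nonneg _).trans (h2 1 le_rfl)
  refine ⟨C1 + 1 + C2, by positivity, fun N hN σ hσ => ?_⟩
  have h3 := (abs_le.mp (h1 N hN)).2
  have h4 := (abs_le.mp (h2 N (by omega))).2
  have hlN : 1 ≤ Real.log N := by
    rw [Real.le_log_iff_exp_le (by positivity)]
    have h5 := Real.exp_one_lt_d9
    have h6 : (3:ℝ) ≤ N := by exact_mod_cast hN
    linarith
  have hpt : ∀ p ∈ pr N, (p:ℝ) ^ (-(2 * σ)) ≤ (1:ℝ) / p + (1 / Real.log N) * (Real.log p / p) := by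
    intro p hp
    have hpp := pr_prime hp
    have hp0 : (0:ℝ) < p := by exact_mod_cast hpp.pos
    have hp1 : (1:ℝ) ≤ p := by exact_mod_cast hpp.one_le
    have hl : 0 ≤ Real.log p := Real.log_nonneg hp1
    have hlN2 : Real.log p ≤ Real.log N := Real.log_le_log hp0 (by exact_mod_cast pr_le hp)
    have h5 : (p:ℝ) ^ (-(2 * σ)) ≤ (p:ℝ) ^ (-1 + 1 / (10 * Real.log N)) := by
      refine Real.rpow_le_rpow_of_exponent_le hp1 ?_
      have e : 1 / (10 * Real.log N) = 2 * (1 / (20 * Real.log N)) := by field_simp; ring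
      rw [e]
      linarith
    refine h5.trans ?_
    rw [Real.rpow_add hp0, Real.rpow_neg_one, Real.rpow_def_of_pos hp0]
    obtain ⟨t, ht⟩ : ∃ t : ℝ, t = Real.log p * (1 / (10 * Real.log N)) := ⟨_, rfl⟩
    have ht0 : 0 ≤ t := by rw [ht]; positivity
    have ht1 : t ≤ 1 / 10 := by
      rw [ht, mul_one_div, div_le_div_iff₀ (by positivity) (by norm_num)]
      linarith
    have h6 : Real.exp t ≤ 1 + 2 * t := by
      have h7 := Real.exp_bound_div_one_sub_of_interval ht0 (by linarith : t < 1)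
      refine h7.trans ?_
      rw [div_le_iff₀ (by linarith)]
      nlinarith
    rw [← ht]
    have e4 : 1 / Real.log N * (Real.log p / p) = (p:ℝ)⁻¹ * (10 * t) := by
      rw [ht]
      field_simp
    rw [e4, one_div]
    have h8 : (p:ℝ)⁻¹ * Real.exp t ≤ (p:ℝ)⁻¹ * (1 + 10 * t) := mul_le_mul_of_nonneg_left (by linarith) (by positivity)
    linarith
  have h5 := Finset.sum_le_sum hpt
  rw [Finset.sum_add_distrib, ← Finset.mul_sum] at h5
  refine h5.trans ?_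
  have h6 : 1 / Real.log N * ∑ p ∈ pr N, Real.log p / p ≤ 1 / Real.log N * (Real.log N + C2) := by
    refine mul_le_mul_of_nonneg_left ?_ (by positivity)
    unfold pr
    linarith
  have h7 : 1 / Real.log N * (Real.log N + C2) ≤ 1 + C2 := by
    rw [mul_add, one_div_mul_cancel (by linarith)]
    have h8 : 1 / Real.log N ≤ 1 := by
      rw [div_le_one (by linarith)]
      exact hlN
    have := mul_le_mul_of_nonneg_right h8 hC2
    linarith
  have h8 : ∑ p ∈ pr N, (1:ℝ) / p ≤ Real.log (Real.log N) + C1 := by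
    unfold pr
    linarith
  linarith

/-- the large primes -/
theorem S_big (K : ℝ) (hK : 0 ≤ K) : ∃ C : ℝ, 0 ≤ C ∧ ∀ x : ℝ, 0 < x → x ≤ 1 → ∀ N : ℕ, 3 ≤ N → N ≤ PX x → ∀ u : ℝ,
    x * ‖2 + (u:ℂ) * Complex.I‖ * Real.log N ≤ K →
    (∑ p ∈ pr (PX x) \ pr N, (p:ℂ) ^ (-(1 + (x:ℂ) * (2 + (u:ℂ) * Complex.I)))).re ≤ -Real.log (x * ‖2 + (u:ℂ) * Complex.I‖ * Real.log N) + C := by
  obtain ⟨C1, hC1, h1⟩ := S_up K
  obtain ⟨C2, hC2, h2⟩ := S_lo
  refine ⟨C1 + C2 + 2 * (K * (1 + C2)), by positivity, fun x hx hx1 N hN hNP u hu => ?_⟩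
  have hlN : 1 ≤ Real.log N := by
    rw [Real.le_log_iff_exp_le (by positivity)]
    have h5 := Real.exp_one_lt_d9
    have h6 : (3:ℝ) ≤ N := by exact_mod_cast hN
    linarith
  have hn0 : 0 < ‖2 + (u:ℂ) * Complex.I‖ := by
    refine norm_pos_iff.mpr fun h => ?_
    have := congrArg Complex.re h
    simp at this
  have hxn : 0 < x * ‖2 + (u:ℂ) * Complex.I‖ := by positivity
  have hxK : x * ‖2 + (u:ℂ) * Complex.I‖ ≤ K := by
    refine le_trans ?_ hu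
    nlinarith
  have h3 := h1 x hx hx1 u hxK
  have hre : ((x:ℂ) * (2 + (u:ℂ) * Complex.I)).re = 2 * x := by simp; ring
  have hn : ‖(x:ℂ) * (2 + (u:ℂ) * Complex.I)‖ = x * ‖2 + (u:ℂ) * Complex.I‖ := by
    rw [norm_mul, Complex.norm_real, Real.norm_of_nonneg hx.le]
  have h4 := h2 N hN ((x:ℂ) * (2 + (u:ℂ) * Complex.I)) (by rw [hre]; linarith)
  rw [hn] at h4
  have h5 := Finset.sum_sdiff (f := fun p : ℕ => (p:ℂ) ^ (-(1 + (x:ℂ) * (2 + (u:ℂ) * Complex.I)))) (pr_mono hNP)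
  have h6 := congrArg Complex.re h5
  rw [Complex.add_re] at h6
  rw [Real.log_mul hxn.ne' (by linarith)]
  have h7 : x * ‖2 + (u:ℂ) * Complex.I‖ * (Real.log N + C2) ≤ K * (1 + C2) := by
    rw [mul_add, mul_add, mul_one]
    exact add_le_add hu (mul_le_mul_of_nonneg_right hxK hC2)
  linarith

end Pool.Agent.H470
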