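import Pool.Agent.H470.To29

set_option autoImplicit false

/-! The phases of the first primes, and the time averages. -/

namespace Pool.Agent.H470

open MeasureTheory Filter Topology ProbabilityTheory Set
open Pool.Agent.TH806 (ec ec_norm ec_cont uu integrable_uu)

lemma pr_nth (P : ℕ) : pr (Nat.nth Nat.Prime P - 1) = (Finset.range P).image (Nat.nth Nat.Prime) := by
  have hinf := Nat.infinite_setOfPred_prime
  have hP := (Nat.prime_nth_prime P).two_le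
  ext q
  unfold pr
  rw [Finset.mem_filter, Finset.mem_Icc, Finset.mem_image]
  constructor
  · rintro ⟨⟨h1, h2⟩, h3⟩
    refine ⟨Nat.count Nat.Prime q, ?_, Nat.nth_count h3⟩
    rw [Finset.mem_range, ← (Nat.nth_strictMono hinf).lt_iff_lt, Nat.nth_count h3]
    show q < Nat.nth Nat.Prime P
    omega
  · rintro ⟨i, hi, rfl⟩
    rw [Finset.mem_range] at hi
    have h1 : Nat.nth Nat.Prime i < Nat.nth Nat.Prime P := Nat.nth_strictMono hinf hi
    have h2 := (Nat.prime_nth_prime i)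
    have h3 := h2.two_le
    exact ⟨⟨by omega, by omega⟩, h2⟩

/-- the box -/
def bx (P : ℕ) : Set (Fin P → ℝ) := Set.univ.pi fun _ => Set.Ioc (0:ℝ) 1

/-- the phases of the first primes -/
noncomputable def phs (P : ℕ) (ω : ℕ → ℝ) : Fin P → ℂ := fun i => ec (ω (Nat.nth Nat.Prime i))

/-- the density of the phases -/
noncomputable def wth (β : ℝ) (P : ℕ) (θ : Fin P → ℝ) : ℝ := ∏ i : Fin P, ‖1 - ((Nat.nth Nat.Prime i : ℕ) : ℂ) ^ (-(1 / 2) : ℂ) * ec (θ i)‖ ^ (-β)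

lemma tm_map (P : ℕ) : tm.map (fun ω (i : Fin P) => ω (Nat.nth Nat.Prime i)) = volume.restrict (bx P) := by
  have h1 : iIndepFun (fun (i : ℕ) (ω : ℕ → ℝ) => ω i) tm := by
    unfold tm
    exact iIndepFun_infinitePi (X := fun _ x => x) (by fun_prop)
  have hinj : Function.Injective fun i : Fin P => Nat.nth Nat.Prime i := fun i j hij =>
    Fin.ext (Nat.nth_injective Nat.infinite_setOfPred_prime hij)
  have h2 : iIndepFun (fun (i : Fin P) (ω : ℕ → ℝ) => ω (Nat.nth Nat.Prime i)) tm := h1.precomp hinj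
  have h3 := h2.map_fun_eq_pi_map fun i : Fin P => (measurable_pi_apply (Nat.nth Nat.Prime i)).aemeasurable
  rw [h3]
  have h4 : ∀ i : Fin P, tm.map (fun ω => ω (Nat.nth Nat.Prime i)) = volume.restrict (Set.Ioc (0:ℝ) 1) := by
    intro i
    have h5 := (measurePreserving_eval_infinitePi (fun _ : ℕ => uu) (Nat.nth Nat.Prime i)).map_eq
    unfold tm
    exact h5
  simp_rw [h4]
  unfold bx
  rw [← Measure.restrict_pi_pi]
  rfl

lemma La_phs (k : ℝ) (P : ℕ) (ω : ℕ → ℝ) : ‖La (Nat.nth Nat.Prime P - 1) ω‖ ^ (2 * k) = wth (2 * k) P (fun i => ω (Nat.nth Nat.Prime i)) := by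
  have hinj : Function.Injective (Nat.nth Nat.Prime) := Nat.nth_injective Nat.infinite_setOfPred_prime
  have e1 : La (Nat.nth Nat.Prime P - 1) ω = ∏ p ∈ pr (Nat.nth Nat.Prime P - 1), (1 - (p:ℂ) ^ (-(1 / 2) : ℂ) * ec (ω p))⁻¹ := by
    unfold La Xs
    rw [Complex.exp_sum]
    refine Finset.prod_congr rfl fun p hp => ?_
    rw [el_exp (arg_lt (pr_two hp) half_re _)]
  rw [e1, pr_nth, Finset.prod_image fun a _ b _ h => hinj h, Finset.prod_range]
  unfold wth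
  rw [norm_prod, ← Real.finsetProd_rpow _ _ fun i _ => norm_nonneg _]
  refine Finset.prod_congr rfl fun i _ => ?_
  rw [norm_inv, Real.inv_rpow (norm_nonneg _), Real.rpow_neg (norm_nonneg _)]

lemma wth_meas (β : ℝ) (P : ℕ) : Measurable (wth β P) := by
  unfold wth
  refine Finset.measurable_prod _ fun i _ => ?_
  have h1 : Measurable fun θ : Fin P → ℝ => ec (θ i) := ec_cont.measurable.comp (measurable_pi_apply i)
  exact ((measurable_const.sub (h1.const_mul _)).norm).pow_const _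

/-- the law of the phases -/
theorem nuG_eq (k : ℝ) (P : ℕ) {G : (Fin P → ℂ) → ℝ} (hG : Continuous G) :
    nuG k (Nat.nth Nat.Prime P - 1) (fun ω => G (phs P ω)) = (∫ θ in bx P, wth (2 * k) P θ * G (fun i => ec (θ i))) / ∫ θ in bx P, wth (2 * k) P θ := by
  have hm : Measurable fun (ω : ℕ → ℝ) (i : Fin P) => ω (Nat.nth Nat.Prime i) := measurable_pi_lambda _ fun i => measurable_pi_apply _
  have hw := wth_meas (2 * k) P
  have hGm : Measurable fun θ : Fin P → ℝ => G (fun i => ec (θ i)) :=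
    hG.measurable.comp (measurable_pi_lambda _ fun i => ec_cont.measurable.comp (measurable_pi_apply i))
  unfold nuG
  simp_rw [La_phs]
  have h1 : ∫ θ in bx P, wth (2 * k) P θ * G (fun i => ec (θ i)) = ∫ ω, wth (2 * k) P (fun i => ω (Nat.nth Nat.Prime i)) * G (phs P ω) ∂tm := by
    rw [← tm_map P]
    exact integral_map hm.aemeasurable (hw.mul hGm).aestronglyMeasurable
  have h2 : ∫ θ in bx P, wth (2 * k) P θ = ∫ ω, wth (2 * k) P (fun i => ω (Nat.nth Nat.Prime i)) ∂tm := by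
    rw [← tm_map P]
    exact integral_map hm.aemeasurable hw.aestronglyMeasurable
  rw [h1, h2]

lemma phs_cont (P : ℕ) : Continuous (phs P) := continuous_pi fun i => ec_cont.comp (continuous_apply _)

lemma G_meas {P : ℕ} {G : (Fin P → ℂ) → ℝ} (hG : Continuous G) : Measurable fun ω => G (phs P ω) := (hG.comp (phs_cont P)).measurable

lemma G_bd {P : ℕ} {G : (Fin P → ℂ) → ℝ} (hG : Continuous G) : ∃ B : ℝ, ∀ ω, |G (phs P ω)| ≤ B := by
  obtain ⟨B, hB⟩ := (isCompact_closedBall (0 : Fin P → ℂ) 1).exists_bound_of_continuousOn hG.continuousOn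
  refine ⟨B, fun ω => hB _ ?_⟩
  rw [mem_closedBall_zero_iff, pi_norm_le_iff_of_nonneg zero_le_one]
  intro i
  unfold phs
  rw [ec_norm]

lemma G_dep {P : ℕ} (G : (Fin P → ℂ) → ℝ) : Dep (pr (Nat.nth Nat.Prime P - 1)) fun ω => G (phs P ω) := by
  intro ω ω' h
  show G (phs P ω) = G (phs P ω')
  congr 1
  funext i
  unfold phs
  rw [h]
  rw [pr_nth, Finset.mem_image]
  exact ⟨i, Finset.mem_range.mpr i.2, rfl⟩

lemma Bp_tn {p : ℕ} (hp : p ≠ 0) : Bp (tn p) (ch p) := by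
  refine ⟨Unit, inferInstance, fun _ => 1, fun _ => p, fun _ => 1, fun _ => hp, fun _ => one_ne_zero, fun t => ?_, fun ω => ?_⟩
  · simp [tn_one]
  · simp [ch_one]

/-- the time averages -/
theorem num_lim {m : ℕ} {Φ : (Fin m → ℂ) → ℝ} (hc : Continuous Φ) {P : ℕ} {G : (Fin P → ℂ) → ℝ} (hG : Continuous G) (r : Fin m → ℕ) (u : Fin m → ℝ) (N : ℕ) :
    Tendsto (fun T : ℝ => 1 / T * ∫ t in (0:ℝ)..T, Φ (fun j => WW (fun _ => 1) (N ^ r j) (t + u j * xN N)) * G (fun i => tn (Nat.nth Nat.Prime i) t)) atTop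
      (𝓝 (∫ ω, Φ (fun j => Ts N (r j) (u j) ω) * G (phs P ω) ∂tm)) := by
  obtain ⟨f, hf⟩ : ∃ f : Fin m ⊕ Fin P → ℝ → ℂ, f = Sum.elim (fun j t => WW (fun _ => 1) (N ^ r j) (t + u j * xN N)) (fun (i : Fin P) t => tn (Nat.nth Nat.Prime i) t) := ⟨_, rfl⟩
  obtain ⟨F, hF⟩ : ∃ F : Fin m ⊕ Fin P → (ℕ → ℝ) → ℂ, F = Sum.elim (fun j => Ts N (r j) (u j)) (fun i : Fin P => ch (Nat.nth Nat.Prime i)) := ⟨_, rfl⟩
  have h1 : ∀ s, Bp (f s) (F s) := by
    rintro (j | i)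
    · rw [hf, hF]
      exact WW_Tw _ _ _
    · rw [hf, hF]
      exact Bp_tn (Nat.prime_nth_prime i).ne_zero
  have hH : Continuous fun z : Fin m ⊕ Fin P → ℂ => Φ (fun j => z (Sum.inl j)) * G (fun i => z (Sum.inr i)) := by
    refine (hc.comp ?_).mul (hG.comp ?_) <;> fun_prop
  have h2 := Bp.fn h1 hH
  rw [hf, hF] at h2
  simp only [Sum.elim_inl, Sum.elim_inr] at h2
  have e1 : ∀ ω, (fun i : Fin P => ch (Nat.nth Nat.Prime i) ω) = phs P ω := by
    intro ω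
    funext i
    rw [ch_prime (Nat.prime_nth_prime i)]
    rfl
  simp_rw [e1] at h2
  exact h2

/-- positive mass -/
lemma mk_SS_pos {k : ℝ} (hk : 0 < k) {N : ℕ} (hN : 1 ≤ N) : 0 < mk k (SS N) := by
  by_contra hcon
  have h0 : mk k (SS N) = 0 := le_antisymm (not_lt.mp hcon) (mk_nonneg _ _)
  have h1 : (fun ω => ‖SS N ω‖ ^ (2 * k)) =ᵐ[tm] 0 := (integral_eq_zero_iff_of_nonneg (fun ω => by positivity) ((SS_gd N).intp (by positivity))).mp h0
  have h2 : mk 1 (SS N) = 0 := by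
    unfold mk
    rw [integral_eq_zero_of_ae]
    filter_upwards [h1] with ω hω
    have h3 : ‖SS N ω‖ ^ (2 * k) = 0 := hω
    rw [Real.rpow_eq_zero (norm_nonneg _) (by positivity)] at h3
    show ‖SS N ω‖ ^ ((2:ℝ) * 1) = 0
    rw [h3, Real.zero_rpow (by norm_num)]
  have h3 : 0 < mk 1 (SS N) := by
    unfold SS
    rw [WS_sq]
    refine Finset.sum_pos (fun n hn => ?_) ⟨1, Finset.mem_Icc.mpr ⟨le_rfl, hN⟩⟩
    rw [Finset.mem_Icc] at hn
    have : (0:ℝ) < n := by exact_mod_cast (by omega : 0 < n)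
    positivity
  linarith

lemma den_lim {k : ℝ} (hk : 0 < k) (N : ℕ) : Tendsto (fun T : ℝ => 1 / T * ∫ t in (0:ℝ)..T, ‖WW (fun _ => 1) N t‖ ^ (2 * k)) atTop (𝓝 (mk k (SS N))) :=
  (WW_WS (fun _ => 1) N).pow (β := 2 * k) (by positivity)

/-- the ratio -/
theorem rat_lim {k : ℝ} (hk : 0 < k) {m : ℕ} {Φ : (Fin m → ℂ) → ℝ} (hc : Continuous Φ) {P : ℕ} {G : (Fin P → ℂ) → ℝ} (hG : Continuous G) (r : Fin m → ℕ) (u : Fin m → ℝ)
    {N : ℕ} (hN : 1 ≤ N) :
    Tendsto (fun T : ℝ => (∫ t in (0:ℝ)..T, Φ (fun j => WW (fun _ => 1) (N ^ r j) (t + u j * xN N)) * G (fun i => tn (Nat.nth Nat.Prime i) t)) /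
      ∫ t in (0:ℝ)..T, ‖WW (fun _ => 1) N t‖ ^ (2 * k)) atTop (𝓝 ((∫ ω, Φ (fun j => Ts N (r j) (u j) ω) * G (phs P ω) ∂tm) / mk k (SS N))) := by
  refine ((num_lim hc hG r u N).div (den_lim hk N) (mk_SS_pos hk hN).ne').congr' ?_
  filter_upwards [eventually_gt_atTop 0] with T hT
  exact mul_div_mul_left _ _ (by positivity)

/-- the main limit -/
theorem main_lim {k : ℝ} (hk : 0 < k) {m : ℕ} {r : Fin m → ℕ} (hr : ∀ j, 1 ≤ r j) (u : Fin m → ℝ) {Φ : (Fin m → ℂ) → ℝ} (hc : Continuous Φ) (hom : Hom (2 * k) Φ) :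
    ∃ κ : ℝ, ∀ (P : ℕ) (G : (Fin P → ℂ) → ℝ), Continuous G →
      Tendsto (fun N : ℕ => (∫ ω, Φ (fun j => Ts N (r j) (u j) ω) * G (phs P ω) ∂tm) / mk k (SS N)) atTop
        (𝓝 (κ * ((∫ θ in bx P, wth (2 * k) P θ * G (fun i => ec (θ i))) / ∫ θ in bx P, wth (2 * k) P θ))) := by
  obtain ⟨c, hc0, hcl⟩ := mk_SS hk
  obtain ⟨L, hL⟩ := TG_lim hk hr u hc hom
  refine ⟨L / (2 ^ (k ^ 2) * c), fun P G hG => ?_⟩
  have h1 := hL (Nat.nth Nat.Prime P - 1) _ (G_meas hG) (G_bd hG) (G_dep G)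
  have h2 := h1.div (hcl.const_mul (2 ^ (k ^ 2))) (by positivity)
  rw [nuG_eq k P hG] at h2
  have e1 : ∀ a b d : ℝ, L * a / (b * c) = L / (b * c) * a := fun a b _ => by ring
  rw [e1 _ _ 0] at h2
  refine h2.congr' ?_
  filter_upwards [eventually_ge_atTop 3] with N hN
  have hx := xN_pos hN
  have hl := log_N hN
  have e2 : (2 * xN N) ^ (k ^ 2) = 2 ^ (k ^ 2) / Real.log N ^ (k ^ 2) := by
    rw [Real.mul_rpow (by norm_num) hx.le]
    unfold xN
    rw [Real.div_rpow (by norm_num) (by linarith), Real.one_rpow]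
    ring
  have h3 : 0 < Real.log N ^ (k ^ 2) := by positivity
  have h4 := mk_SS_pos hk (show 1 ≤ N by omega)
  show ((2 * xN N) ^ (k ^ 2) * ∫ ω, Φ (fun j => Ts N (r j) (u j) ω) * G (phs P ω) ∂tm) / (2 ^ (k ^ 2) * (mk k (SS N) / Real.log N ^ (k ^ 2))) = _
  rw [e2]
  field_simp

end Pool.Agent.H470
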