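import Pool.Agent.H470.To30

set_option autoImplicit false

/-! The limit law of the local landscape. -/

namespace Pool.Agent.H470

open MeasureTheory Filter Topology ProbabilityTheory Set
open scoped BoundedContinuousFunction
open Pool.Agent.TH806 (ec ec_norm ec_cont uu integrable_uu)

variable {m : ℕ}

/-- the functional of the ratios -/
noncomputable def rf (p : ℝ) (F : (Fin m → ℂ) → ℝ) (z : Fin (m + 1) → ℂ) : ℝ := ‖z 0‖ ^ p * F (fun j => z j.succ / z 0)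

lemma rf_cont {p : ℝ} (hp : 0 < p) (F : (Fin m → ℂ) →ᵇ ℝ) : Continuous (rf p F) := by
  rw [continuous_iff_continuousAt]
  intro z
  by_cases h : z 0 = 0
  · have e0 : rf p F z = 0 := by
      unfold rf
      rw [h, norm_zero, Real.zero_rpow hp.ne', zero_mul]
    unfold ContinuousAt
    rw [e0]
    have h1 : Tendsto (fun w : Fin (m + 1) → ℂ => ‖w 0‖ ^ p * ‖F‖) (𝓝 z) (𝓝 0) := by
      have h3 : Continuous fun w : Fin (m + 1) → ℂ => ‖w 0‖ ^ p * ‖F‖ :=
        (Continuous.rpow_const (by fun_prop) fun _ => Or.inr hp.le).mul_const _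
      have h2 := h3.tendsto z
      rwa [h, norm_zero, Real.zero_rpow hp.ne', zero_mul] at h2
    refine squeeze_zero_norm (fun w => ?_) h1
    unfold rf
    rw [norm_mul, Real.norm_of_nonneg (by positivity)]
    exact mul_le_mul_of_nonneg_left (F.norm_coe_le_norm _) (by positivity)
  · have h1 : ContinuousAt (fun w : Fin (m + 1) → ℂ => (fun j : Fin m => w j.succ / w 0)) z :=
      continuousAt_pi.mpr fun j => (continuous_apply j.succ).continuousAt.div (continuous_apply 0).continuousAt h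
    have h2 : ContinuousAt (fun w : Fin (m + 1) → ℂ => F (fun j : Fin m => w j.succ / w 0)) z :=
      ContinuousAt.comp (f := fun w : Fin (m + 1) → ℂ => (fun j : Fin m => w j.succ / w 0)) F.continuous.continuousAt h1
    exact ((continuous_norm.comp (continuous_apply 0)).rpow_const fun _ => Or.inr hp.le).continuousAt.mul h2

lemma rf_hom {p : ℝ} (hp : 0 < p) (F : (Fin m → ℂ) → ℝ) : Hom p (rf p F) := by
  intro c z
  unfold rf
  by_cases h : c = 0
  · rw [h, zero_smul, Pi.zero_apply, norm_zero, Real.zero_rpow hp.ne', zero_mul, zero_mul]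
  · rw [Pi.smul_apply, smul_eq_mul, norm_mul, Real.mul_rpow (norm_nonneg _) (norm_nonneg _), mul_assoc]
    congr 3
    funext j
    rw [Pi.smul_apply, smul_eq_mul, mul_div_mul_left _ _ h]

lemma Ts_one (N : ℕ) : Ts N 1 0 = SS N := by
  funext ω
  unfold Ts Tw SS WS
  rw [pow_one, zero_mul]
  refine Finset.sum_congr rfl fun n hn => ?_
  rw [Finset.mem_Icc] at hn
  rw [tn_eq (by omega), mul_zero, neg_zero, Complex.ofReal_zero, zero_mul, Complex.exp_zero, mul_one]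

/-- the ratios -/
noncomputable def rat (r : Fin m → ℕ) (u : Fin m → ℝ) (N : ℕ) (ω : ℕ → ℝ) : Fin m → ℂ := fun j => Ts N (r j) (u j) ω / SS N ω

lemma rat_meas (r : Fin m → ℕ) (u : Fin m → ℝ) (N : ℕ) : Measurable (rat r u N) :=
  measurable_pi_lambda _ fun j => (Ts_gd N (r j) (u j)).1.div (SS_gd N).1

lemma rf_Ts (k : ℝ) (F : (Fin m → ℂ) → ℝ) (r : Fin m → ℕ) (u : Fin m → ℝ) (N : ℕ) (ω : ℕ → ℝ) :
    rf (2 * k) F (fun j => Ts N ((Fin.cons 1 r : Fin (m + 1) → ℕ) j) ((Fin.cons 0 u : Fin (m + 1) → ℝ) j) ω) = ‖SS N ω‖ ^ (2 * k) * F (rat r u N ω) := by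
  unfold rf rat
  simp only [Fin.cons_zero, Fin.cons_succ, Ts_one]

lemma amgm {p : ℝ} (hp : 0 < p) (a b : ℂ) : ‖a‖ ^ (2 * p) * ‖b / a‖ ^ p ≤ ‖a‖ ^ (2 * p) + ‖b‖ ^ (2 * p) := by
  by_cases h : a = 0
  · rw [h, norm_zero, Real.zero_rpow (by positivity), zero_mul, zero_add]
    positivity
  · have ha : 0 < ‖a‖ := norm_pos_iff.mpr h
    rw [norm_div, Real.div_rpow (norm_nonneg _) (norm_nonneg _)]
    have e1 : ∀ c : ℂ, ‖c‖ ^ (2 * p) = (‖c‖ ^ p) ^ 2 := fun c => by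
      rw [← Real.rpow_natCast, ← Real.rpow_mul (norm_nonneg _)]
      congr 1
      push_cast
      ring
    rw [e1, e1]
    have h1 : 0 < ‖a‖ ^ p := by positivity
    have e2 : (‖a‖ ^ p) ^ 2 * (‖b‖ ^ p / ‖a‖ ^ p) = ‖a‖ ^ p * ‖b‖ ^ p := by
      field_simp
    rw [e2]
    nlinarith [sq_nonneg (‖a‖ ^ p - ‖b‖ ^ p), sq_nonneg (‖a‖ ^ p), sq_nonneg (‖b‖ ^ p)]

/-- the moment of the ratios -/
lemma rat_bd {k : ℝ} (hk : 0 < k) {r : Fin m → ℕ} (hr : ∀ j, 1 ≤ r j) (u : Fin m → ℝ) : ∃ C : ℝ, 0 < C ∧ ∀ᶠ N : ℕ in atTop,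
    Integrable (fun ω => ‖SS N ω‖ ^ (2 * k) / mk k (SS N) * ‖rat r u N ω‖ ^ k) tm ∧
    ∫ ω, ‖SS N ω‖ ^ (2 * k) / mk k (SS N) * ‖rat r u N ω‖ ^ k ∂tm ≤ C := by
  obtain ⟨K, hK, hmass⟩ := Ts_bd hk hr u
  obtain ⟨c, hc0, hcl⟩ := mk_SS hk
  refine ⟨m + K / (2 ^ (k ^ 2) * (c / 2)), by positivity, ?_⟩
  filter_upwards [hmass, hcl.eventually (lt_mem_nhds (show c / 2 < c by linarith)), eventually_ge_atTop 3] with N h1 h2 hN
  have hx := xN_pos hN
  have hl := log_N hN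
  have hM := mk_SS_pos hk (show 1 ≤ N by omega)
  have hle : ∀ ω, ‖SS N ω‖ ^ (2 * k) / mk k (SS N) * ‖rat r u N ω‖ ^ k ≤ 1 / mk k (SS N) * ∑ j, (‖SS N ω‖ ^ (2 * k) + ‖Ts N (r j) (u j) ω‖ ^ (2 * k)) := by
    intro ω
    have h3 := pi_rpow hk (rat r u N ω)
    have h4 := mul_le_mul_of_nonneg_left h3 (show 0 ≤ ‖SS N ω‖ ^ (2 * k) by positivity)
    rw [Finset.mul_sum] at h4
    have h5 := h4.trans (Finset.sum_le_sum fun j _ => amgm hk (SS N ω) (Ts N (r j) (u j) ω))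
    have h6 := mul_le_mul_of_nonneg_left h5 (show 0 ≤ 1 / mk k (SS N) by positivity)
    refine le_trans (le_of_eq ?_) h6
    ring
  have hi1 : Integrable (fun ω => 1 / mk k (SS N) * ∑ j, (‖SS N ω‖ ^ (2 * k) + ‖Ts N (r j) (u j) ω‖ ^ (2 * k))) tm := by
    refine Integrable.const_mul (integrable_finsetSum _ fun j _ => ?_) _
    exact ((SS_gd N).intp (by positivity)).add ((Ts_gd N (r j) (u j)).intp (by positivity))
  have hi2 : Integrable (fun ω => ‖SS N ω‖ ^ (2 * k) / mk k (SS N) * ‖rat r u N ω‖ ^ k) tm := by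
    refine hi1.mono' ?_ (Eventually.of_forall fun ω => ?_)
    · exact ((((SS_gd N).1.norm.pow_const _).div_const _).mul ((rat_meas r u N).norm.pow_const _)).aestronglyMeasurable
    · rw [Real.norm_of_nonneg (by positivity)]
      exact hle ω
  refine ⟨hi2, ?_⟩
  refine (integral_mono hi2 hi1 hle).trans ?_
  have hij : ∀ j, Integrable (fun ω => ‖SS N ω‖ ^ (2 * k) + ‖Ts N (r j) (u j) ω‖ ^ (2 * k)) tm := fun j =>
    ((SS_gd N).intp (by positivity)).add ((Ts_gd N (r j) (u j)).intp (by positivity))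
  rw [integral_const_mul, integral_finsetSum _ fun j _ => hij j]
  have e1 : ∀ j, ∫ ω, (‖SS N ω‖ ^ (2 * k) + ‖Ts N (r j) (u j) ω‖ ^ (2 * k)) ∂tm = mk k (SS N) + mk k (Ts N (r j) (u j)) := by
    intro j
    exact integral_add ((SS_gd N).intp (by positivity)) ((Ts_gd N (r j) (u j)).intp (by positivity))
  simp_rw [e1]
  rw [Finset.sum_add_distrib, Finset.sum_const, Finset.card_univ, Fintype.card_fin, nsmul_eq_mul, mul_add]
  refine add_le_add (le_of_eq (by field_simp)) ?_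
  rw [← Finset.mul_sum] at h1
  have hX : 0 < (2 * xN N) ^ (k ^ 2) := by positivity
  have e2 : (2 * xN N) ^ (k ^ 2) = 2 ^ (k ^ 2) / Real.log N ^ (k ^ 2) := by
    rw [Real.mul_rpow (by norm_num) hx.le]
    unfold xN
    rw [Real.div_rpow (by norm_num) (by linarith), Real.one_rpow]
    ring
  have h3 : 2 ^ (k ^ 2) * (c / 2) ≤ (2 * xN N) ^ (k ^ 2) * mk k (SS N) := by
    rw [e2]
    have h4 := mul_le_mul_of_nonneg_left h2.le (show (0:ℝ) ≤ 2 ^ (k ^ 2) by positivity)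
    refine h4.trans (le_of_eq ?_)
    ring
  have h5 : ∑ j, mk k (Ts N (r j) (u j)) ≤ K / (2 * xN N) ^ (k ^ 2) := by
    rw [le_div_iff₀ hX, mul_comm]
    exact h1
  have h6 : 1 / mk k (SS N) ≤ (2 * xN N) ^ (k ^ 2) / (2 ^ (k ^ 2) * (c / 2)) := by
    rw [div_le_div_iff₀ hM (by positivity), one_mul]
    exact h3
  have h7 : 0 ≤ ∑ j, mk k (Ts N (r j) (u j)) := Finset.sum_nonneg fun j _ => mk_nonneg _ _
  refine (mul_le_mul h6 h5 h7 (by positivity)).trans (le_of_eq ?_)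
  field_simp

/-- the limit law -/
theorem law {k : ℝ} (hk : 0 < k) {r : Fin m → ℕ} (hr : ∀ j, 1 ≤ r j) (u : Fin m → ℝ) :
    ∃ ρ : ProbabilityMeasure (Fin m → ℂ), ∀ (F : (Fin m → ℂ) →ᵇ ℝ) (P : ℕ) (G : (Fin P → ℂ) → ℝ), Continuous G →
      Tendsto (fun N : ℕ => (∫ ω, rf (2 * k) F (fun j => Ts N ((Fin.cons 1 r : Fin (m + 1) → ℕ) j) ((Fin.cons 0 u : Fin (m + 1) → ℝ) j) ω) * G (phs P ω) ∂tm) / mk k (SS N)) atTop
        (𝓝 ((∫ z, F z ∂(ρ : Measure (Fin m → ℂ))) * ((∫ θ in bx P, wth (2 * k) P θ * G (fun i => ec (θ i))) / ∫ θ in bx P, wth (2 * k) P θ))) := by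
  have hr' : ∀ j, 1 ≤ (Fin.cons 1 r : Fin (m + 1) → ℕ) j := fun j => by
    refine Fin.cases ?_ (fun i => ?_) j
    · simp
    · simpa using hr i
  choose κ hκ using fun F : (Fin m → ℂ) →ᵇ ℝ => main_lim hk hr' (Fin.cons 0 u : Fin (m + 1) → ℝ) (rf_cont (p := 2 * k) (by positivity) F) (rf_hom (by positivity) F)
  -- the laws
  obtain ⟨q, hq⟩ : ∃ q : ℕ → (ℕ → ℝ) → ℝ, ∀ N ω, q N ω = ‖SS N ω‖ ^ (2 * k) / mk k (SS N) := ⟨fun N ω => _, fun _ _ => rfl⟩
  have hqm : ∀ N, Measurable (q N) := fun N => by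
    rw [funext (hq N)]
    exact ((SS_gd N).1.norm.pow_const _).div_const _
  have hq0 : ∀ N ω, 0 ≤ q N ω := fun N ω => by
    rw [hq]
    exact div_nonneg (by positivity) (mk_nonneg _ _)
  have hqi : ∀ N, Integrable (q N) tm := fun N => by
    rw [funext (hq N)]
    exact ((SS_gd N).intp (by positivity)).div_const _
  have hq1 : ∀ N, 1 ≤ N → ∫ ω, q N ω ∂tm = 1 := fun N hN => by
    simp_rw [hq]
    rw [integral_div]
    exact div_self (mk_SS_pos hk hN).ne'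
  have hex : ∀ N : ℕ, ∃ μN : ProbabilityMeasure (Fin m → ℂ), 1 ≤ N → (μN : Measure (Fin m → ℂ)) = wc (q N) (rat r u N) tm := by
    intro N
    by_cases h : 1 ≤ N
    · exact ⟨⟨_, wc_prob (hq0 N) (hqi N) (rat_meas r u N) (hq1 N h)⟩, fun _ => rfl⟩
    · exact ⟨⟨Measure.dirac 0, inferInstance⟩, fun h1 => absurd h1 h⟩
  choose μ hμ using hex
  have hint : ∀ (F : (Fin m → ℂ) →ᵇ ℝ) (N : ℕ), 1 ≤ N → ∫ z, F z ∂(μ N : Measure (Fin m → ℂ)) =
      (∫ ω, rf (2 * k) F (fun j => Ts N ((Fin.cons 1 r : Fin (m + 1) → ℕ) j) ((Fin.cons 0 u : Fin (m + 1) → ℝ) j) ω) * 1 ∂tm) / mk k (SS N) := by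
    intro F N hN
    rw [hμ N hN, wc_integral (hqm N) (hq0 N) (rat_meas r u N) F.continuous, ← integral_div]
    refine integral_congr_ae (Eventually.of_forall fun ω => ?_)
    beta_reduce
    rw [hq, rf_Ts, smul_eq_mul]
    ring
  have hone : (∫ θ in bx 0, wth (2 * k) 0 θ * (fun _ : Fin 0 → ℂ => (1:ℝ)) (fun i => ec (θ i))) / ∫ θ in bx 0, wth (2 * k) 0 θ = 1 := by
    rw [← nuG_eq k 0 (G := fun _ => 1) continuous_const]
    unfold nuG
    simp only [mul_one]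
    exact div_self (La_mass k _).ne'
  have hlim : ∀ F : (Fin m → ℂ) →ᵇ ℝ, Tendsto (fun N => ∫ z, F z ∂(μ N : Measure (Fin m → ℂ))) atTop (𝓝 (κ F)) := by
    intro F
    have h1 := hκ F 0 (fun _ => 1) continuous_const
    rw [hone, mul_one] at h1
    refine h1.congr' ?_
    filter_upwards [eventually_ge_atTop 1] with N hN
    exact (hint F N hN).symm
  -- tightness
  obtain ⟨C, hC, hbd⟩ := rat_bd hk hr u
  obtain ⟨N0, hN0⟩ := eventually_atTop.mp (hbd.and (eventually_ge_atTop 1))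
  have htight : IsTightMeasureSet {((ν : ProbabilityMeasure (Fin m → ℂ)) : Measure (Fin m → ℂ)) | ν ∈ {ν | ∃ N, N0 ≤ N ∧ ν = μ N}} := by
    rw [isTightMeasureSet_iff_exists_isCompact_measure_compl_le]
    intro ε hε
    obtain ⟨δ, hδ0, hδε⟩ : ∃ δ : ℝ, 0 < δ ∧ ENNReal.ofReal δ ≤ ε := by
      obtain ⟨d, hd1, hd2⟩ := ENNReal.lt_iff_exists_real_btwn.mp hε
      refine ⟨d, ?_, hd2.2.le⟩
      exact ENNReal.ofReal_pos.mp hd2.1
    obtain ⟨B, hB⟩ : ∃ B : ℝ, B = (C / δ) ^ (1 / k) := ⟨_, rfl⟩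
    refine ⟨Metric.closedBall 0 B, isCompact_closedBall 0 B, ?_⟩
    rintro ν ⟨ν', ⟨N, hN, rfl⟩, rfl⟩
    obtain ⟨⟨h1, h2⟩, h3⟩ := hN0 N hN
    have hcont : Continuous fun z : Fin m → ℂ => ‖z‖ ^ k := Continuous.rpow_const (by fun_prop) fun _ => Or.inr hk.le
    have hi : Integrable (fun z : Fin m → ℂ => ‖z‖ ^ k) (μ N : Measure (Fin m → ℂ)) := by
      rw [hμ N h3]
      refine wc_integrable (hqm N) (hq0 N) (rat_meas r u N) hcont ?_
      simp_rw [hq]
      exact h1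
    have he : ∫ z, ‖z‖ ^ k ∂(μ N : Measure (Fin m → ℂ)) ≤ C := by
      rw [hμ N h3, wc_integral (hqm N) (hq0 N) (rat_meas r u N) hcont]
      simp_rw [hq]
      exact h2
    have h4 := mul_meas_ge_le_integral_of_nonneg (Eventually.of_forall fun z => by positivity) hi (C / δ)
    have h5 : (μ N : Measure (Fin m → ℂ)).real (Metric.closedBall 0 B)ᶜ ≤ (μ N : Measure (Fin m → ℂ)).real {z | C / δ ≤ ‖z‖ ^ k} := by
      refine measureReal_mono fun z hz => ?_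
      rw [mem_compl_iff, mem_closedBall_zero_iff, not_le] at hz
      show C / δ ≤ ‖z‖ ^ k
      have h6 := Real.rpow_le_rpow (by rw [hB]; positivity) hz.le hk.le
      rw [hB, ← Real.rpow_mul (by positivity), one_div_mul_cancel hk.ne', Real.rpow_one] at h6
      exact h6
    have h7 : (μ N : Measure (Fin m → ℂ)).real (Metric.closedBall 0 B)ᶜ ≤ δ := by
      refine h5.trans ?_
      have h8 := h4.trans he
      rw [← le_div_iff₀' (by positivity)] at h8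
      refine h8.trans (le_of_eq ?_)
      field_simp
    refine le_trans ?_ hδε
    have h9 : (μ N : Measure (Fin m → ℂ)) (Metric.closedBall 0 B)ᶜ = ENNReal.ofReal ((μ N : Measure (Fin m → ℂ)).real (Metric.closedBall 0 B)ᶜ) :=
      (ofReal_measureReal (measure_ne_top _ _)).symm
    rw [h9]
    exact ENNReal.ofReal_le_ofReal h7
  obtain ⟨ρ, -, hρ⟩ := (isCompact_closure_of_isTightMeasureSet htight).exists_mapClusterPt (f := atTop) (u := μ) (tendsto_principal.mpr (by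
    filter_upwards [eventually_ge_atTop N0] with N hN
    exact subset_closure ⟨N, hN, rfl⟩))
  have hid : ∀ F : (Fin m → ℂ) →ᵇ ℝ, ∫ z, F z ∂(ρ : Measure (Fin m → ℂ)) = κ F := by
    intro F
    have h1 : Tendsto (fun ν : ProbabilityMeasure (Fin m → ℂ) => ∫ z, F z ∂(ν : Measure (Fin m → ℂ))) (𝓝 ρ) (𝓝 (∫ z, F z ∂(ρ : Measure (Fin m → ℂ)))) :=
      ProbabilityMeasure.tendsto_iff_forall_integral_tendsto.mp tendsto_id F
    have h2 := hρ.tendsto_comp h1
    have h3 : Tendsto ((fun ν : ProbabilityMeasure (Fin m → ℂ) => ∫ z, F z ∂(ν : Measure (Fin m → ℂ))) ∘ μ) atTop (𝓝 (κ F)) := hlim F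
    have h4 : (𝓝 (∫ z, F z ∂(ρ : Measure (Fin m → ℂ))) ⊓ 𝓝 (κ F)).NeBot := by
      refine NeBot.mono h2 (inf_le_inf_left _ h3)
    exact eq_of_nhds_neBot h4
  refine ⟨ρ, fun F P G hG => ?_⟩
  rw [hid]
  exact hκ F P G hG

end Pool.Agent.H470
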