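import Pool.Agent.H470.To3

set_option autoImplicit false

/-! The limit of the moment generating function of the random Euler product. -/

namespace Pool.Agent.H470

open MeasureTheory Filter Topology Set
open Pool.Agent.TH806 (ec ec_norm ec_cont uu integrable_uu)
open Pool.Agent.Y901.SHR (Lz exp_Lz Lz_summable Lz_tendsto pw_summable log_le)

/-- the points -/
noncomputable def sp (x y : ℝ) : ℂ := 1 / 2 + (x:ℂ) * (1 + (y:ℂ) * Complex.I)

lemma sp_re (x y : ℝ) : (sp x y).re = 1 / 2 + x := by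
  unfold sp
  simp

variable {n : ℕ}

/-- the values at a prime -/
noncomputable def zv (x : ℝ) (y : Fin n → ℝ) (p : ℕ) : Fin n → ℂ := fun j => (p:ℂ) ^ (-sp x (y j))

/-- the products of the values -/
noncomputable def wv (x u : ℝ) (p : ℕ) : ℂ := (p:ℂ) ^ (-(1 + (x:ℂ) * (2 + (u:ℂ) * Complex.I)))

lemma zv_mul {x : ℝ} {y : Fin n → ℝ} {p : ℕ} (hp : 2 ≤ p) (i j : Fin n) :
    zv x y p i * (starRingEnd ℂ) (zv x y p j) = wv x (y i - y j) p := by
  have hp0 : (p:ℂ) ≠ 0 := by exact_mod_cast (by omega : p ≠ 0)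
  have harg : Complex.arg (p:ℂ) ≠ Real.pi := by
    rw [Complex.natCast_arg]
    exact Real.pi_pos.ne
  unfold zv wv
  have e1 : (starRingEnd ℂ) ((p:ℂ) ^ (-sp x (y j))) = (p:ℂ) ^ ((starRingEnd ℂ) (-sp x (y j))) := by
    have h := Complex.conj_cpow (p:ℂ) ((starRingEnd ℂ) (-sp x (y j))) harg
    rw [Complex.conj_natCast, Complex.conj_conj] at h
    exact h.symm
  rw [e1, ← Complex.cpow_add _ _ hp0]
  congr 1
  unfold sp
  simp only [map_neg, map_add, map_mul, map_div₀, map_one, map_ofNat, Complex.conj_ofReal, Complex.conj_I]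
  push_cast
  ring

/-- the correction -/
noncomputable def ze (α β : Fin n → ℂ) (y : Fin n → ℝ) (x : ℝ) (p : ℕ) : ℂ :=
  ∑ i, ∑ j, α i * β j * Complex.log (1 - wv x (y i - y j) p)

/-- the corrected factor -/
noncomputable def gx (α β : Fin n → ℂ) (y : Fin n → ℝ) (x : ℝ) (p : ℕ) : ℂ :=
  lf α β (zv x y p) * Complex.exp (ze α β y x p)

lemma sum_mul_le {m : ℕ} {a b : Fin m → ℂ} {A B : ℝ} (ha : ∑ j, ‖a j‖ ≤ A) (hb : ∀ j, ‖b j‖ ≤ B) (hB : 0 ≤ B) :
    ‖∑ j, a j * b j‖ ≤ A * B := by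
  refine (norm_sum_le _ _).trans (le_trans (Finset.sum_le_sum fun j _ => ?_) (le_of_eq_of_le (Finset.sum_mul _ _ B).symm (mul_le_mul_of_nonneg_right ha hB)))
  rw [norm_mul]
  exact mul_le_mul_of_nonneg_left (hb j) (norm_nonneg _)

/-- a constant -/
noncomputable def CB (A : ℝ) : ℝ := A ^ 2 + 4 * A ^ 4 * Real.exp (2 * A ^ 2)

/-- a constant -/
noncomputable def CG (A : ℝ) : ℝ := A ^ 4 + A ^ 2 * CB A + CB A + CL A * (1 + A ^ 2 + CB A)

/-- the corrected factor is close to one -/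
theorem gx_bd {α β : Fin n → ℂ} {A : ℝ} (hα : ∑ j, ‖α j‖ ≤ A) (hβ : ∑ j, ‖β j‖ ≤ A) (y : Fin n → ℝ) {x : ℝ} (hx : 0 ≤ x) {p : ℕ} (hp : p.Prime) :
    ‖gx α β y x p - 1‖ ≤ CG A * (p:ℝ) ^ (-(27 / 20) : ℝ) := by
  have hA : 0 ≤ A := (Finset.sum_nonneg fun j _ => norm_nonneg _).trans hα
  obtain ⟨r, hr⟩ : ∃ r : ℝ, r = (p:ℝ) ^ (-(9 / 20) : ℝ) := ⟨_, rfl⟩
  have hr0 : 0 ≤ r := by rw [hr]; positivity
  have hr34 : r ≤ 3 / 4 := by rw [hr]; exact p_pow_le hp.two_le
  have hr3 : r ^ 3 = (p:ℝ) ^ (-(27 / 20) : ℝ) := by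
    rw [hr, ← Real.rpow_natCast, ← Real.rpow_mul (by positivity)]
    norm_num
  rw [← hr3]
  have hz : ∀ j, ‖zv x y p j‖ ≤ r := fun j => by
    rw [hr]
    exact pw_le hp.two_le (by rw [sp_re]; linarith)
  have h1 := lf_exp hr34 hz hr0 hα hβ
  obtain ⟨q, hq⟩ : ∃ q : ℂ, q = (∑ j, α j * zv x y p j) * ∑ j, β j * (starRingEnd ℂ) (zv x y p j) := ⟨_, rfl⟩
  rw [← hq] at h1
  have na := sum_mul_le hα hz hr0
  have nb := sum_mul_le (b := fun j => (starRingEnd ℂ) (zv x y p j)) hβ (fun j => by rw [RCLike.norm_conj]; exact hz j) hr0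
  have nq : ‖q‖ ≤ A ^ 2 * r ^ 2 := by
    rw [hq, norm_mul]
    refine (mul_le_mul na nb (norm_nonneg _) (by positivity)).trans (le_of_eq (by ring))
  have hqs : q = ∑ i, ∑ j, α i * β j * wv x (y i - y j) p := by
    rw [hq, Finset.sum_mul_sum]
    refine Finset.sum_congr rfl fun i _ => Finset.sum_congr rfl fun j _ => ?_
    rw [← zv_mul hp.two_le i j]
    ring
  have hw : ∀ u : ℝ, ‖wv x u p‖ ≤ 1 / p := fun u => npw_le hp (by
    have : ((x:ℂ) * (2 + (u:ℂ) * Complex.I)).re = 2 * x := by simp; ring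
    rw [this]; linarith)
  have hpr : (1:ℝ) / p ≤ r ^ 2 := by
    rw [hr, ← Real.rpow_natCast, ← Real.rpow_mul (by positivity), one_div, ← Real.rpow_neg_one]
    exact Real.rpow_le_rpow_of_exponent_le (by exact_mod_cast hp.one_le) (by norm_num)
  have hr1 : r ≤ 1 := by linarith
  have hr43 : r ^ 4 ≤ r ^ 3 := pow_le_pow_of_le_one hr0 hr1 (by norm_num)
  have hr32 : r ^ 3 ≤ 1 := pow_le_one₀ hr0 hr1
  have hr21 : r ^ 2 ≤ 1 := pow_le_one₀ hr0 hr1
  -- the exponent
  have hE2 : ‖ze α β y x p + q‖ ≤ A ^ 2 * r ^ 3 := by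
    rw [hqs]
    unfold ze
    rw [← Finset.sum_add_distrib]
    have h2 : ∀ i, ‖(∑ j, α i * β j * Complex.log (1 - wv x (y i - y j) p)) + ∑ j, α i * β j * wv x (y i - y j) p‖ ≤ ‖α i‖ * (A * r ^ 3) := by
      intro i
      rw [← Finset.sum_add_distrib]
      have e1 : ∀ j, α i * β j * Complex.log (1 - wv x (y i - y j) p) + α i * β j * wv x (y i - y j) p =
          α i * (β j * (Complex.log (1 - wv x (y i - y j) p) + wv x (y i - y j) p)) := fun j => by ring
      simp_rw [e1]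
      rw [← Finset.mul_sum, norm_mul]
      refine mul_le_mul_of_nonneg_left (sum_mul_le hβ (fun j => ?_) (by positivity)) (norm_nonneg _)
      have h3 := one_sub_log ((hw (y i - y j)).trans (inv_le_half hp))
      have e2 : Complex.log (1 - wv x (y i - y j) p) + wv x (y i - y j) p = -(-Complex.log (1 - wv x (y i - y j) p) - wv x (y i - y j) p) := by ring
      rw [e2, norm_neg]
      refine h3.trans ?_
      calc ‖wv x (y i - y j) p‖ ^ 2 ≤ (r ^ 2) ^ 2 := pow_le_pow_left₀ (norm_nonneg _) ((hw _).trans hpr) 2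
        _ = r ^ 4 := by ring
        _ ≤ r ^ 3 := hr43
    refine (norm_sum_le _ _).trans ((Finset.sum_le_sum fun i _ => h2 i).trans ?_)
    rw [← Finset.sum_mul]
    refine (mul_le_mul_of_nonneg_right hα (by positivity)).trans (le_of_eq (by ring))
  have nv : ‖ze α β y x p‖ ≤ 2 * A ^ 2 * r ^ 2 := by
    have e1 : ze α β y x p = (ze α β y x p + q) - q := by ring
    rw [e1]
    refine (norm_sub_le _ _).trans ?_
    have : A ^ 2 * r ^ 3 ≤ A ^ 2 * r ^ 2 := mul_le_mul_of_nonneg_left (pow_le_pow_of_le_one hr0 hr1 (by norm_num)) (by positivity)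
    linarith
  have nv1 : ‖ze α β y x p‖ ≤ 2 * A ^ 2 := nv.trans (mul_le_of_le_one_right (by positivity) hr21)
  have h2 := Complex.norm_exp_sub_sum_le_norm_mul_exp (ze α β y x p) 2
  simp only [Finset.sum_range_succ, Finset.sum_range_zero, pow_zero, Nat.factorial_zero,
    Nat.cast_one, div_one, zero_add, pow_one, Nat.factorial_one] at h2
  have hE4 : ‖Complex.exp (ze α β y x p) - (1 + ze α β y x p)‖ ≤ 4 * A ^ 4 * Real.exp (2 * A ^ 2) * r ^ 3 := by
    refine h2.trans ?_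
    calc ‖ze α β y x p‖ ^ 2 * Real.exp ‖ze α β y x p‖ ≤ (2 * A ^ 2 * r ^ 2) ^ 2 * Real.exp (2 * A ^ 2) :=
          mul_le_mul (pow_le_pow_left₀ (norm_nonneg _) nv 2) (Real.exp_le_exp.mpr nv1) (Real.exp_pos _).le (by positivity)
      _ = 4 * A ^ 4 * Real.exp (2 * A ^ 2) * r ^ 4 := by ring
      _ ≤ 4 * A ^ 4 * Real.exp (2 * A ^ 2) * r ^ 3 := by gcongr
  obtain ⟨F, hF⟩ : ∃ F : ℂ, F = (ze α β y x p + q) + (Complex.exp (ze α β y x p) - (1 + ze α β y x p)) := ⟨_, rfl⟩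
  have nF : ‖F‖ ≤ CB A * r ^ 3 := by
    rw [hF]
    refine (norm_add_le _ _).trans ?_
    unfold CB
    linarith
  have hCB : 0 ≤ CB A := by unfold CB; positivity
  have hCL := CL_nonneg hA
  have nF1 : ‖F‖ ≤ CB A := nF.trans (mul_le_of_le_one_right hCB hr32)
  have nq1 : ‖q‖ ≤ A ^ 2 := nq.trans (mul_le_of_le_one_right (by positivity) hr21)
  obtain ⟨E, hE⟩ : ∃ E : ℂ, E = lf α β (zv x y p) - (1 + q) := ⟨_, rfl⟩
  rw [← hE] at h1
  have e : gx α β y x p - 1 = -(q * q) + q * F + F + E * (1 - q + F) := by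
    unfold gx
    have e1 : lf α β (zv x y p) = 1 + q + E := by rw [hE]; ring
    have e2 : Complex.exp (ze α β y x p) = 1 - q + F := by rw [hF]; ring
    rw [e1, e2]
    ring
  rw [e]
  have b1 : ‖-(q * q)‖ ≤ A ^ 4 * r ^ 3 := by
    rw [norm_neg, norm_mul]
    calc ‖q‖ * ‖q‖ ≤ (A ^ 2 * r ^ 2) * (A ^ 2 * r ^ 2) := mul_le_mul nq nq (norm_nonneg _) (by positivity)
      _ = A ^ 4 * r ^ 4 := by ring
      _ ≤ _ := mul_le_mul_of_nonneg_left hr43 (by positivity)
  have b2 : ‖q * F‖ ≤ A ^ 2 * (CB A * r ^ 3) := by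
    rw [norm_mul]
    exact mul_le_mul nq1 nF (norm_nonneg _) (by positivity)
  have b3 : ‖1 - q + F‖ ≤ 1 + A ^ 2 + CB A := by
    calc ‖1 - q + F‖ ≤ ‖1 - q‖ + ‖F‖ := norm_add_le _ _
      _ ≤ (‖(1 : ℂ)‖ + ‖q‖) + ‖F‖ := by gcongr; exact norm_sub_le _ _
      _ ≤ (1 + A ^ 2) + CB A := by
          rw [norm_one]
          gcongr
  have b4 : ‖E * (1 - q + F)‖ ≤ (CL A * r ^ 3) * (1 + A ^ 2 + CB A) := by
    rw [norm_mul]
    exact mul_le_mul h1 b3 (norm_nonneg _) (by positivity)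
  calc ‖-(q * q) + q * F + F + E * (1 - q + F)‖
      ≤ ‖-(q * q)‖ + ‖q * F‖ + ‖F‖ + ‖E * (1 - q + F)‖ := by
        refine (norm_add_le _ _).trans ?_
        gcongr
        refine (norm_add_le _ _).trans ?_
        gcongr
        exact norm_add_le _ _
    _ ≤ A ^ 4 * r ^ 3 + A ^ 2 * (CB A * r ^ 3) + CB A * r ^ 3 + (CL A * r ^ 3) * (1 + A ^ 2 + CB A) := by gcongr
    _ = CG A * r ^ 3 := by
        unfold CG
        ring

/-- continuity -/
lemma zv_tend (y : Fin n → ℝ) {p : ℕ} (hp : p.Prime) (j : Fin n) : Tendsto (fun x : ℝ => zv x y p j) (𝓝[>] 0) (𝓝 (zv 0 y p j)) := by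
  have hc : Continuous fun x : ℝ => zv x y p j := by
    unfold zv sp
    exact Continuous.const_cpow (by fun_prop) (Or.inl (by exact_mod_cast hp.ne_zero))
  exact (hc.tendsto 0).mono_left nhdsWithin_le_nhds

lemma wv_tend (u : ℝ) {p : ℕ} (hp : p.Prime) : Tendsto (fun x : ℝ => wv x u p) (𝓝[>] 0) (𝓝 (wv 0 u p)) := by
  have hc : Continuous fun x : ℝ => wv x u p := by
    unfold wv
    exact Continuous.const_cpow (by fun_prop) (Or.inl (by exact_mod_cast hp.ne_zero))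
  exact (hc.tendsto 0).mono_left nhdsWithin_le_nhds

lemma wv_zero (u : ℝ) (p : ℕ) : wv 0 u p = 1 / (p:ℂ) := by
  unfold wv
  rw [Complex.ofReal_zero, zero_mul, add_zero, Complex.cpow_neg_one, one_div]

lemma gx_tend (α β : Fin n → ℂ) (y : Fin n → ℝ) {p : ℕ} (hp : p.Prime) :
    Tendsto (fun x : ℝ => gx α β y x p) (𝓝[>] 0) (𝓝 (gx α β y 0 p)) := by
  have hz : ∀ x : ℝ, 0 ≤ x → ∀ j, ‖zv x y p j‖ ≤ 3 / 4 := fun x hx j =>
    (pw_le hp.two_le (by rw [sp_re]; linarith)).trans (p_pow_le hp.two_le)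
  unfold gx
  refine Tendsto.mul ?_ (Tendsto.cexp ?_)
  · unfold lf
    refine tendsto_integral_filter_of_dominated_convergence (bound := fun _ => Real.exp ((∑ j, ‖α j‖ + ∑ j, ‖β j‖) * 2)) ?_ ?_ (integrable_const _) ?_
    · filter_upwards [self_mem_nhdsWithin] with x hx
      exact (Complex.continuous_exp.comp (lu_cont fun j => (hz x (le_of_lt hx) j).trans_lt (by norm_num))).aestronglyMeasurable
    · filter_upwards [self_mem_nhdsWithin] with x hx
      refine Eventually.of_forall fun t => ?_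
      rw [Complex.norm_exp]
      refine Real.exp_le_exp.mpr ((Complex.re_le_norm _).trans ?_)
      unfold lu
      refine (norm_sum_le _ _).trans ?_
      rw [← Finset.sum_add_distrib, Finset.sum_mul]
      refine Finset.sum_le_sum fun j _ => ?_
      have h1 : ‖el (zv x y p j * ec t)‖ ≤ 2 := by
        have h2 : ‖zv x y p j * ec t‖ ≤ 3 / 4 := by rw [norm_mul, ec_norm, mul_one]; exact hz x (le_of_lt hx) j
        refine (el_bd h2).trans ?_
        linarith
      refine (norm_add_le _ _).trans ?_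
      rw [norm_mul, norm_mul, RCLike.norm_conj, add_mul]
      exact add_le_add (mul_le_mul_of_nonneg_left h1 (norm_nonneg _)) (mul_le_mul_of_nonneg_left h1 (norm_nonneg _))
    · refine Eventually.of_forall fun t => ?_
      refine Tendsto.cexp ?_
      unfold lu
      refine tendsto_finsetSum _ fun j _ => ?_
      have h0 : ‖zv 0 y p j * ec t‖ < 1 := by
        rw [norm_mul, ec_norm, mul_one]
        have := hz 0 le_rfl j
        linarith
      have h1 : Tendsto (fun x : ℝ => el (zv x y p j * ec t)) (𝓝[>] 0) (𝓝 (el (zv 0 y p j * ec t))) :=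
        (el_cont h0).tendsto.comp ((zv_tend y hp j).mul_const _)
      exact (h1.const_mul _).add (((Complex.continuous_conj.tendsto _).comp h1).const_mul _)
  · unfold ze
    refine tendsto_finsetSum _ fun i _ => tendsto_finsetSum _ fun j _ => ?_
    refine Tendsto.const_mul _ ?_
    refine ((wv_tend _ hp).const_sub 1).clog ?_
    refine slit_el ?_
    rw [wv_zero, norm_div, norm_one, Complex.norm_natCast]
    have := inv_le_half hp
    linarith

/-- the limiting factor -/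
noncomputable def gl (s t : ℂ) (p : ℕ) : ℂ :=
  (∫ x, Complex.exp (s * el ((p:ℂ) ^ (-(1 / 2) : ℂ) * ec x) + t * (starRingEnd ℂ) (el ((p:ℂ) ^ (-(1 / 2) : ℂ) * ec x))) ∂uu) *
    Complex.exp (s * t * Complex.log (1 - 1 / (p:ℂ)))

lemma gx_zero (α β : Fin n → ℂ) (y : Fin n → ℝ) (p : ℕ) : gx α β y 0 p = gl (∑ j, α j) (∑ j, β j) p := by
  unfold gx gl lf lu ze zv sp
  simp_rw [wv_zero, Complex.ofReal_zero, zero_mul, add_zero]
  congr 2
  · funext x
    rw [Finset.sum_mul, Finset.sum_mul, ← Finset.sum_add_distrib]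
  · rw [Finset.sum_mul_sum, Finset.sum_mul]
    exact Finset.sum_congr rfl fun i _ => by rw [Finset.sum_mul]

/-- the constant -/
noncomputable def DD (s t : ℂ) : ℂ := ∏' p : Nat.Primes, gl s t p

lemma pow_sum_primes : Summable fun p : Nat.Primes => ((p:ℕ):ℝ) ^ (-(27 / 20) : ℝ) :=
  pw_summable (σ := 27 / 20) (by norm_num)

lemma PX_atTop : Tendsto (fun x : ℝ => (PX x : ℝ)) (𝓝[>] 0) atTop := by
  have h1 : Tendsto (fun x : ℝ => 1 / x ^ 2) (𝓝[>] 0) atTop := by
    have h2 : Tendsto (fun x : ℝ => x ^ 2) (𝓝[>] 0) (𝓝[>] 0) := by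
      rw [tendsto_nhdsWithin_iff]
      constructor
      · have h3 : Tendsto (fun x : ℝ => x ^ 2) (𝓝 0) (𝓝 (0 ^ 2)) := (continuous_pow 2).tendsto 0
        rw [zero_pow (by norm_num)] at h3
        exact h3.mono_left nhdsWithin_le_nhds
      · filter_upwards [self_mem_nhdsWithin] with x hx
        have : 0 < x := hx
        show 0 < x ^ 2
        positivity
    have h3 := tendsto_inv_nhdsGT_zero.comp h2
    refine h3.congr fun x => ?_
    simp [Function.comp]
  refine tendsto_atTop_mono' _ ?_ (Real.tendsto_exp_atTop.comp h1)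
  filter_upwards [self_mem_nhdsWithin] with x hx
  exact PX_exp hx

/-- the limit of the product of the corrected factors -/
theorem prod_tend (α β : Fin n → ℂ) (y : Fin n → ℝ) :
    Tendsto (fun x : ℝ => ∏ p ∈ pr (PX x), gx α β y x p) (𝓝[>] 0) (𝓝 (DD (∑ j, α j) (∑ j, β j))) := by
  classical
  obtain ⟨A, hA⟩ : ∃ A : ℝ, A = ∑ j, ‖α j‖ + ∑ j, ‖β j‖ := ⟨_, rfl⟩
  have n1 : 0 ≤ ∑ j, ‖α j‖ := Finset.sum_nonneg fun j _ => norm_nonneg _
  have n2 : 0 ≤ ∑ j, ‖β j‖ := Finset.sum_nonneg fun j _ => norm_nonneg _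
  have hα : ∑ j, ‖α j‖ ≤ A := by linarith
  have hβ : ∑ j, ‖β j‖ ≤ A := by linarith
  have hCG : 0 ≤ CG A := by
    have := CL_nonneg (A := A) (by linarith)
    unfold CG CB
    positivity
  have h := tendsto_tprod_one_add_of_dominated_convergence (𝓕 := 𝓝[>] (0:ℝ))
    (f := fun (x : ℝ) (p : Nat.Primes) => if (p:ℕ) ≤ PX x then gx α β y x p - 1 else 0)
    (g := fun p : Nat.Primes => gx α β y 0 p - 1)
    (bound := fun p : Nat.Primes => CG A * ((p:ℕ):ℝ) ^ (-(27 / 20) : ℝ))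
    (pow_sum_primes.mul_left _) (fun p => by
      refine ((gx_tend α β y p.2).sub_const 1).congr' ?_
      filter_upwards [PX_atTop.eventually_ge_atTop ((p:ℕ):ℝ)] with x hx
      rw [if_pos (by exact_mod_cast hx)]) (by
      filter_upwards [self_mem_nhdsWithin] with x hx p
      split_ifs with hp
      · exact gx_bd hα hβ y (le_of_lt hx) p.2
      · rw [norm_zero]
        positivity)
  have e1 : ∏' p : Nat.Primes, (1 + (gx α β y 0 p - 1)) = DD (∑ j, α j) (∑ j, β j) := by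
    unfold DD
    refine tprod_congr fun p => ?_
    rw [gx_zero]
    ring
  rw [e1] at h
  refine h.congr fun x => ?_
  have hinj : Set.InjOn (fun p : Nat.Primes => (p:ℕ)) ((fun p : Nat.Primes => (p:ℕ)) ⁻¹' (pr (PX x) : Set ℕ)) := fun a _ b _ hab => Nat.Primes.coe_nat_injective hab
  obtain ⟨J, hJ⟩ : ∃ J : Finset Nat.Primes, J = (pr (PX x)).preimage (fun p : Nat.Primes => (p:ℕ)) hinj := ⟨_, rfl⟩
  have hmem : ∀ p : Nat.Primes, p ∈ J ↔ (p:ℕ) ≤ PX x := by
    intro p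
    rw [hJ, Finset.mem_preimage]
    constructor
    · intro h2
      exact pr_le h2
    · intro h2
      unfold pr
      rw [Finset.mem_filter, Finset.mem_Icc]
      exact ⟨⟨p.2.one_le, h2⟩, p.2⟩
  rw [tprod_eq_prod (s := J) (fun p hp => by rw [if_neg (fun h => hp ((hmem p).mpr h)), add_zero])]
  have e2 : ∏ p ∈ J, (1 + if (p:ℕ) ≤ PX x then gx α β y x p - 1 else 0) = ∏ p ∈ J, gx α β y x p := by
    refine Finset.prod_congr rfl fun p hp => ?_
    rw [if_pos ((hmem p).mp hp)]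
    ring
  rw [e2, hJ]
  exact Finset.prod_preimage (fun p : Nat.Primes => (p:ℕ)) (pr (PX x)) hinj (fun p : ℕ => gx α β y x p) fun p hp hp2 =>
    absurd ⟨(⟨p, pr_prime hp⟩ : Nat.Primes), rfl⟩ hp2

/-- the limit of the moment generating function -/
theorem mg_lim (α β : Fin n → ℂ) (y : Fin n → ℝ) :
    Tendsto (fun x : ℝ => Complex.exp ((∑ j, α j) * (∑ j, β j) * (Real.log (2 * x) : ℝ)) *
      ∫ ω, Complex.exp (∑ j, (α j * Xs (pr (PX x)) (sp x (y j)) ω + β j * (starRingEnd ℂ) (Xs (pr (PX x)) (sp x (y j)) ω))) ∂tm) (𝓝[>] 0)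
      (𝓝 (DD (∑ j, α j) (∑ j, β j) * Complex.exp (∑ i, ∑ j, α i * β j * -Complex.log (1 + Complex.I * ((y i - y j : ℝ) : ℂ) / 2)))) := by
  have hS : ∀ u : ℝ, Tendsto (fun x : ℝ => ((Real.log (2 * x) : ℝ) : ℂ) + ∑ p ∈ pr (PX x), -Complex.log (1 - wv x u p)) (𝓝[>] 0)
      (𝓝 (-Complex.log (1 + Complex.I * (u : ℂ) / 2))) := by
    intro u
    have h1 := Lz_tendsto u
    have h2 : Tendsto (fun x : ℝ => Lz (1 + (x:ℂ) * (2 + (u:ℂ) * Complex.I)) - ∑ p ∈ pr (PX x), -Complex.log (1 - wv x u p)) (𝓝[>] 0) (𝓝 0) := by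
      rw [tendsto_zero_iff_norm_tendsto_zero]
      have h3 : Tendsto (fun x : ℝ => 3 / 2 * x) (𝓝[>] 0) (𝓝 0) := by
        have h4 : Tendsto (fun x : ℝ => 3 / 2 * x) (𝓝 0) (𝓝 (3 / 2 * 0)) := (continuous_const.mul continuous_id).tendsto 0
        rw [mul_zero] at h4
        exact h4.mono_left nhdsWithin_le_nhds
      refine squeeze_zero' (Eventually.of_forall fun x => norm_nonneg _) ?_ h3
      filter_upwards [self_mem_nhdsWithin] with x hx
      exact Lz_trunc hx u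
    have h3 := h1.sub h2
    rw [sub_zero] at h3
    refine h3.congr fun x => ?_
    have e1 : (1:ℂ) + (2 + Complex.I * (u:ℂ)) * x = 1 + (x:ℂ) * (2 + (u:ℂ) * Complex.I) := by ring
    rw [e1]
    ring
  have hE : Tendsto (fun x : ℝ => ∑ i, ∑ j, α i * β j * (((Real.log (2 * x) : ℝ) : ℂ) + ∑ p ∈ pr (PX x), -Complex.log (1 - wv x (y i - y j) p))) (𝓝[>] 0)
      (𝓝 (∑ i, ∑ j, α i * β j * -Complex.log (1 + Complex.I * ((y i - y j : ℝ) : ℂ) / 2))) :=
    tendsto_finsetSum _ fun i _ => tendsto_finsetSum _ fun j _ => (hS (y i - y j)).const_mul _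
  have h := (prod_tend α β y).mul hE.cexp
  refine h.congr' ?_
  filter_upwards [self_mem_nhdsWithin] with x hx
  have hx0 : 0 < x := hx
  rw [mgf (fun p hp => pr_two hp) (fun j => by rw [sp_re]; linarith)]
  have e1 : ∏ p ∈ pr (PX x), gx α β y x p = (∏ p ∈ pr (PX x), lf α β (fun j => (p:ℂ) ^ (-sp x (y j)))) * Complex.exp (∑ p ∈ pr (PX x), ze α β y x p) := by
    unfold gx
    rw [Finset.prod_mul_distrib, Complex.exp_sum]
    rfl
  rw [e1]
  have e2 : ∑ i, ∑ j, α i * β j * (((Real.log (2 * x) : ℝ) : ℂ) + ∑ p ∈ pr (PX x), -Complex.log (1 - wv x (y i - y j) p)) =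
      (∑ j, α j) * (∑ j, β j) * (Real.log (2 * x) : ℝ) - ∑ p ∈ pr (PX x), ze α β y x p := by
    have e3 : ∑ p ∈ pr (PX x), ze α β y x p = ∑ i, ∑ j, α i * β j * ∑ p ∈ pr (PX x), Complex.log (1 - wv x (y i - y j) p) := by
      unfold ze
      rw [Finset.sum_comm]
      refine Finset.sum_congr rfl fun i _ => ?_
      rw [Finset.sum_comm]
      refine Finset.sum_congr rfl fun j _ => ?_
      rw [Finset.mul_sum]
    rw [e3, Finset.sum_mul_sum, Finset.sum_mul, ← Finset.sum_sub_distrib]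
    refine Finset.sum_congr rfl fun i _ => ?_
    rw [Finset.sum_mul, ← Finset.sum_sub_distrib]
    refine Finset.sum_congr rfl fun j _ => ?_
    rw [Finset.sum_neg_distrib]
    ring
  rw [e2, sub_eq_add_neg, Complex.exp_add, Complex.exp_neg]
  have h3 : Complex.exp (∑ p ∈ pr (PX x), ze α β y x p) ≠ 0 := Complex.exp_ne_zero _
  field_simp

end Pool.Agent.H470
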