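import Pool.Graph.R_seed8.R313.CX.X
import Pool.Agent.H470.To4

set_option autoImplicit false

/-! Weighted averages of complex vectors over a probability space; adaptation of the files of R313. -/

namespace Pool.Agent.H470

open MeasureTheory Filter Topology ProbabilityTheory BoundedContinuousFunction
open Pool.Agent.R313.CX (roots Wd Wd_cont)

/-- the law of `Y` under the density `p` with respect to `m` -/
noncomputable def wc {n : ℕ} {Ω : Type*} [MeasurableSpace Ω] (p : Ω → ℝ) (Y : Ω → (Fin n → ℂ)) (m : Measure Ω) : Measure (Fin n → ℂ) :=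
  (m.withDensity fun t => ENNReal.ofReal (p t)).map Y

variable {n : ℕ} {Ω : Type*} [MeasurableSpace Ω]

lemma wc_integral {V : Type*} [NormedAddCommGroup V] [NormedSpace ℝ V] [SecondCountableTopology V] {p : Ω → ℝ} {Y : Ω → (Fin n → ℂ)} {m : Measure Ω}
    (hp : Measurable p) (h0 : ∀ t, 0 ≤ p t) (hY : Measurable Y)
    {g : (Fin n → ℂ) → V} (hg : Continuous g) : ∫ x, g x ∂(wc p Y m) = ∫ t, p t • g (Y t) ∂m := by
  have hz : Measurable fun t => ENNReal.ofReal (p t) := ENNReal.measurable_ofReal.comp hp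
  unfold wc
  rw [integral_map hY.aemeasurable hg.aestronglyMeasurable,
    integral_withDensity_eq_integral_toReal_smul hz
      (Eventually.of_forall fun _ => ENNReal.ofReal_lt_top)]
  refine integral_congr_ae (Eventually.of_forall fun t => ?_)
  show (ENNReal.ofReal (p t)).toReal • g (Y t) = p t • g (Y t)
  rw [ENNReal.toReal_ofReal (h0 t)]

lemma wc_integrable {V : Type*} [NormedAddCommGroup V] [NormedSpace ℝ V] [SecondCountableTopology V] {p : Ω → ℝ} {Y : Ω → (Fin n → ℂ)} {m : Measure Ω}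
    (hp : Measurable p) (h0 : ∀ t, 0 ≤ p t) (hY : Measurable Y)
    {g : (Fin n → ℂ) → V} (hg : Continuous g) (hi : Integrable (fun t => p t • g (Y t)) m) :
    Integrable g (wc p Y m) := by
  have hz : Measurable fun t => ENNReal.ofReal (p t) := ENNReal.measurable_ofReal.comp hp
  unfold wc
  rw [integrable_map_measure hg.aestronglyMeasurable hY.aemeasurable,
    integrable_withDensity_iff_integrable_smul' hz
      (Eventually.of_forall fun _ => ENNReal.ofReal_lt_top)]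
  refine hi.congr (Eventually.of_forall fun t => ?_)
  show p t • g (Y t) = (ENNReal.ofReal (p t)).toReal • (g ∘ Y) t
  rw [ENNReal.toReal_ofReal (h0 t), Function.comp]

lemma wc_prob {p : Ω → ℝ} {Y : Ω → (Fin n → ℂ)} {m : Measure Ω} (h0 : ∀ t, 0 ≤ p t) (hi : Integrable p m) (hY : Measurable Y)
    (h1 : ∫ t, p t ∂m = 1) : IsProbabilityMeasure (wc p Y m) := by
  constructor
  unfold wc
  rw [Measure.map_apply hY MeasurableSet.univ, Set.preimage_univ, withDensity_apply _ MeasurableSet.univ,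
    Measure.restrict_univ, ← ofReal_integral_eq_lintegral_ofReal hi (Eventually.of_forall h0), h1, ENNReal.ofReal_one]

/-- the limit theorem for weighted averages -/
theorem avg {k : ℝ} (hk : 0 < k) {p : ℝ → Ω → ℝ} {Y : ℝ → Ω → (Fin n → ℂ)} {ms : ℝ → Measure Ω}
    (hp : ∀ᶠ T : ℝ in atTop, Measurable (p T) ∧ ∀ t, 0 ≤ p T t) (hY : ∀ᶠ T : ℝ in atTop, Measurable (Y T))
    {c : ℝ} (hc : 0 < c) (hi : ∀ᶠ T : ℝ in atTop, Integrable (p T) (ms T)) (hm0 : Tendsto (fun T : ℝ => ∫ t, p T t ∂(ms T)) atTop (𝓝 c))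
    {ρ : ProbabilityMeasure (Fin n → ℂ)} (hρ : ∀ s : ℝ, Integrable (fun z => Real.exp (s * ‖z‖)) (ρ : Measure (Fin n → ℂ)))
    (hq : ∀ (N P : ℕ), N ≠ 0 → (P:ℝ) < k * N → ∀ σ τ : Fin P → Option (Fin n),
      (∀ᶠ T : ℝ in atTop, Integrable (fun t => (p T t : ℂ) * Wd (N:ℝ) σ τ (Y T t)) (ms T)) ∧
      Tendsto (fun T : ℝ => ∫ t, (p T t : ℂ) * Wd (N:ℝ) σ τ (Y T t) ∂(ms T)) atTop
        (𝓝 ((c : ℂ) * ∫ z, Wd (N:ℝ) σ τ z ∂(ρ : Measure (Fin n → ℂ)))))
    (F : BoundedContinuousFunction (Fin n → ℂ) ℝ) :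
    Tendsto (fun T : ℝ => ∫ t, p T t * F (fun j => Complex.exp (Y T t j)) ∂(ms T)) atTop
      (𝓝 (c * ∫ z, F (fun j => Complex.exp (z j)) ∂(ρ : Measure (Fin n → ℂ)))) := by
  classical
  obtain ⟨M, hMd⟩ : ∃ M : ℝ → ℝ, ∀ T, M T = ∫ t, p T t ∂(ms T) := ⟨_, fun _ => rfl⟩
  simp_rw [← hMd] at hm0
  have hmp : ∀ᶠ T in atTop, 0 < M T := hm0.eventually (lt_mem_nhds hc)
  obtain ⟨q, hqd⟩ : ∃ q : ℝ → Ω → ℝ, ∀ T t, q T t = p T t / M T := ⟨_, fun _ _ => rfl⟩
  have hq1 : ∀ᶠ T : ℝ in atTop, Measurable (q T) ∧ (∀ t, 0 ≤ q T t) ∧ Integrable (q T) (ms T) ∧ ∫ t, q T t ∂(ms T) = 1 := by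
    filter_upwards [hp, hmp, hi] with T h1 h2 h3
    have e : q T = fun t => p T t / M T := funext (hqd T)
    rw [e]
    refine ⟨h1.1.div_const _, fun t => div_nonneg (h1.2 t) h2.le, h3.div_const _, ?_⟩
    rw [integral_div, ← hMd, div_self h2.ne']
  obtain ⟨μ, hμ⟩ : ∃ μ : ℝ → ProbabilityMeasure (Fin n → ℂ), ∀ᶠ T : ℝ in atTop, (μ T : Measure (Fin n → ℂ)) = wc (q T) (Y T) (ms T) := by
    have hex : ∀ T : ℝ, ∃ μT : ProbabilityMeasure (Fin n → ℂ), IsProbabilityMeasure (wc (q T) (Y T) (ms T)) →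
        (μT : Measure (Fin n → ℂ)) = wc (q T) (Y T) (ms T) := by
      intro T
      by_cases h : IsProbabilityMeasure (wc (q T) (Y T) (ms T))
      · exact ⟨⟨wc (q T) (Y T) (ms T), h⟩, fun _ => rfl⟩
      · exact ⟨⟨Measure.dirac 0, inferInstance⟩, fun h1 => absurd h1 h⟩
    choose μ hμ using hex
    refine ⟨μ, ?_⟩
    filter_upwards [hq1, hY] with T h1 h2
    exact hμ T (wc_prob h1.2.1 h1.2.2.1 h2 h1.2.2.2)
  have key := roots hk (Q := μ) (ρ := ρ) hρ (fun N P hN hP σ τ => by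
    obtain ⟨h3, h4⟩ := hq N P hN hP σ τ
    refine ⟨?_, ?_⟩
    · filter_upwards [h3, hq1, hY, hμ] with T g1 g2 g3 g4
      rw [g4]
      refine wc_integrable g2.1 g2.2.1 g3 (Wd_cont _ _ _) ?_
      refine (g1.div_const (M T : ℂ)).congr (Eventually.of_forall fun t => ?_)
      show (p T t : ℂ) * Wd (N:ℝ) σ τ (Y T t) / (M T : ℂ) = q T t • Wd (N:ℝ) σ τ (Y T t)
      rw [hqd, Complex.real_smul]
      push_cast
      ring
    · have hcc : (c : ℂ) ≠ 0 := by exact_mod_cast hc.ne'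
      have g5 := h4.div ((Complex.continuous_ofReal.tendsto _).comp hm0) hcc
      rw [mul_div_cancel_left₀ _ hcc] at g5
      refine g5.congr' ?_
      filter_upwards [hq1, hY, hμ] with T g2 g3 g4
      rw [g4, wc_integral g2.1 g2.2.1 g3 (Wd_cont _ _ _)]
      show (∫ t, (p T t : ℂ) * Wd (N:ℝ) σ τ (Y T t) ∂(ms T)) / (M T : ℂ) = _
      rw [← integral_div]
      refine integral_congr_ae (Eventually.of_forall fun t => ?_)
      show (p T t : ℂ) * Wd (N:ℝ) σ τ (Y T t) / (M T : ℂ) = q T t • Wd (N:ℝ) σ τ (Y T t)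
      rw [hqd, Complex.real_smul]
      push_cast
      ring) F
  have h2 := key.mul hm0
  rw [mul_comm] at h2
  refine h2.congr' ?_
  have hFc : Continuous fun z : Fin n → ℂ => F (fun j => Complex.exp (z j)) :=
    F.continuous.comp (by fun_prop : Continuous fun z : Fin n → ℂ => (fun j => Complex.exp (z j) : Fin n → ℂ))
  filter_upwards [hq1, hY, hμ, hmp] with T h3 h4 h5 h7
  rw [h5, wc_integral h3.1 h3.2.1 h4 hFc, ← integral_mul_const]
  refine integral_congr_ae (Eventually.of_forall fun t => ?_)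
  show q T t • F (fun j => Complex.exp (Y T t j)) * M T = p T t * F (fun j => Complex.exp (Y T t j))
  rw [hqd, smul_eq_mul]
  field_simp

/-- test functions dominated by a function whose integrals converge -/
theorem unb3 {E : Type*} [TopologicalSpace E] [MeasurableSpace E] [BorelSpace E] {Ω' : Type*} [MeasurableSpace Ω'] {p : ℝ → Ω' → ℝ} {Y : ℝ → Ω' → E}
    {ms : ℝ → Measure Ω'} {ρ : Measure E} [IsProbabilityMeasure ρ] {c : ℝ}
    (hp : ∀ᶠ T in atTop, Measurable (p T) ∧ ∀ t, 0 ≤ p T t) (hY : ∀ᶠ T in atTop, Measurable (Y T))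
    {g : E → ℝ} (hg : Continuous g) (hg1 : ∀ y, 1 ≤ g y)
    (hi : ∀ᶠ T in atTop, Integrable (fun t => p T t * g (Y T t)) (ms T)) (hρ : Integrable g ρ)
    (hm : Tendsto (fun T => ∫ t, p T t * g (Y T t) ∂(ms T)) atTop (𝓝 (c * ∫ y, g y ∂ρ)))
    (hF : ∀ F : BoundedContinuousFunction E ℝ, Tendsto (fun T => ∫ t, p T t * F (Y T t) ∂(ms T)) atTop (𝓝 (c * ∫ y, F y ∂ρ)))
    {F : E → ℝ} (hFc : Continuous F) {A : ℝ} (hFA : ∀ y, |F y| ≤ A * g y) :
    Tendsto (fun T => ∫ t, p T t * F (Y T t) ∂(ms T)) atTop (𝓝 (c * ∫ y, F y ∂ρ)) := by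
  have hg0 : ∀ y, 0 < g y := fun y => by have := hg1 y; linarith
  obtain ⟨B, hB⟩ : ∃ B : ℝ, B = max A 0 := ⟨_, rfl⟩
  have hB0 : 0 ≤ B := by rw [hB]; exact le_max_right _ _
  have hFB : ∀ y, |F y| ≤ B * g y := fun y => (hFA y).trans (mul_le_mul_of_nonneg_right (by rw [hB]; exact le_max_left _ _) (hg0 y).le)
  obtain ⟨G, hG⟩ : ∃ G : E → ℝ, ∀ y, G y = F y / g y := ⟨_, fun _ => rfl⟩
  have hGc : Continuous G := by
    have : G = fun y => F y / g y := funext hG
    rw [this]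
    exact hFc.div hg fun y => (hg0 y).ne'
  have hGB : ∀ y, |G y| ≤ B := fun y => by
    rw [hG, abs_div, abs_of_pos (hg0 y), div_le_iff₀ (hg0 y)]
    exact hFB y
  have hFG : ∀ y, F y = G y * g y := fun y => by rw [hG, div_mul_cancel₀ _ (hg0 y).ne']
  obtain ⟨gR, hgR⟩ : ∃ gR : ℕ → BoundedContinuousFunction E ℝ, ∀ k y, gR k y = min (g y) k :=
    ⟨fun k => BoundedContinuousFunction.ofNormedAddCommGroup (fun y => min (g y) k) (hg.min continuous_const) k (fun y => by
      rw [Real.norm_eq_abs, abs_of_nonneg (le_min (hg0 y).le (Nat.cast_nonneg k))]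
      exact min_le_right _ _), fun k y => rfl⟩
  obtain ⟨FR, hFR⟩ : ∃ FR : ℕ → BoundedContinuousFunction E ℝ, ∀ k y, FR k y = G y * min (g y) k :=
    ⟨fun k => BoundedContinuousFunction.ofNormedAddCommGroup (fun y => G y * min (g y) k) (hGc.mul (hg.min continuous_const)) (B * k)
      (fun y => by
        rw [norm_mul, Real.norm_eq_abs, Real.norm_eq_abs, abs_of_nonneg (le_min (hg0 y).le (Nat.cast_nonneg k))]
        exact mul_le_mul (hGB y) (min_le_right _ _) (le_min (hg0 y).le (Nat.cast_nonneg k)) hB0), fun k y => rfl⟩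
  have hle : ∀ k y, gR k y ≤ g y := fun k y => by rw [hgR]; exact min_le_left _ _
  have hge : ∀ k y, 0 ≤ gR k y := fun k y => by rw [hgR]; exact le_min (hg0 y).le (Nat.cast_nonneg k)
  have hdiff : ∀ k y, |F y - FR k y| ≤ B * (g y - gR k y) := fun k y => by
    rw [hFG, hFR, ← mul_sub, abs_mul, ← hgR k y, abs_of_nonneg (sub_nonneg.mpr (hle k y))]
    exact mul_le_mul_of_nonneg_right (hGB y) (sub_nonneg.mpr (hle k y))
  have hFρ : Integrable F ρ := (hρ.const_mul B).mono' hFc.aestronglyMeasurable (Eventually.of_forall fun y => by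
    rw [Real.norm_eq_abs]; exact hFB y)
  have herrρ : ∀ k, |∫ y, F y ∂ρ - ∫ y, FR k y ∂ρ| ≤ B * (∫ y, g y ∂ρ - ∫ y, gR k y ∂ρ) := by
    intro k
    have i2 : Integrable (fun y => gR k y) ρ := (gR k).integrable _
    have i3 : Integrable (fun y => FR k y) ρ := (FR k).integrable _
    rw [← integral_sub hFρ i3, ← integral_sub hρ i2, ← integral_const_mul]
    exact (abs_integral_le_integral_abs).trans (integral_mono (hFρ.sub i3).abs ((hρ.sub i2).const_mul _) fun y => hdiff k y)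
  have herrT : ∀ᶠ T in atTop, ∀ k, |∫ t, p T t * F (Y T t) ∂(ms T) - ∫ t, p T t * FR k (Y T t) ∂(ms T)| ≤
      B * (∫ t, p T t * g (Y T t) ∂(ms T) - ∫ t, p T t * gR k (Y T t) ∂(ms T)) := by
    filter_upwards [hp, hY, hi] with T h1 h2 h3 k
    have i1 : Integrable (fun t => p T t * F (Y T t)) (ms T) :=
      (h3.const_mul B).mono' (h1.1.mul (hFc.measurable.comp h2)).aestronglyMeasurable (Eventually.of_forall fun t => by
        show ‖p T t * F (Y T t)‖ ≤ B * (p T t * g (Y T t))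
        rw [norm_mul, Real.norm_of_nonneg (h1.2 t), Real.norm_eq_abs]
        have := mul_le_mul_of_nonneg_left (hFB (Y T t)) (h1.2 t)
        linarith)
    have i2 : Integrable (fun t => p T t * gR k (Y T t)) (ms T) :=
      h3.mono' (h1.1.mul ((gR k).continuous.measurable.comp h2)).aestronglyMeasurable (Eventually.of_forall fun t => by
        show ‖p T t * gR k (Y T t)‖ ≤ p T t * g (Y T t)
        rw [norm_mul, Real.norm_of_nonneg (h1.2 t), Real.norm_of_nonneg (hge k _)]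
        exact mul_le_mul_of_nonneg_left (hle k _) (h1.2 t))
    have i3 : Integrable (fun t => p T t * FR k (Y T t)) (ms T) :=
      (h3.const_mul B).mono' (h1.1.mul ((FR k).continuous.measurable.comp h2)).aestronglyMeasurable (Eventually.of_forall fun t => by
        show ‖p T t * FR k (Y T t)‖ ≤ B * (p T t * g (Y T t))
        rw [norm_mul, Real.norm_of_nonneg (h1.2 t), Real.norm_eq_abs, hFR, abs_mul, ← hgR k, abs_of_nonneg (hge k _)]
        have h5 : |G (Y T t)| * gR k (Y T t) ≤ B * g (Y T t) := mul_le_mul (hGB _) (hle k _) (hge k _) hB0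
        have := mul_le_mul_of_nonneg_left h5 (h1.2 t)
        linarith)
    rw [← integral_sub i1 i3, ← integral_sub h3 i2, ← integral_const_mul]
    refine (abs_integral_le_integral_abs).trans (integral_mono (i1.sub i3).abs ((h3.sub i2).const_mul _) fun t => ?_)
    show |p T t * F (Y T t) - p T t * FR k (Y T t)| ≤ B * (p T t * g (Y T t) - p T t * gR k (Y T t))
    rw [← mul_sub, ← mul_sub, abs_mul, abs_of_nonneg (h1.2 t)]
    have := mul_le_mul_of_nonneg_left (hdiff k (Y T t)) (h1.2 t)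
    linarith
  have hlim : Tendsto (fun k : ℕ => ∫ y, gR k y ∂ρ) atTop (𝓝 (∫ y, g y ∂ρ)) := by
    refine tendsto_integral_of_dominated_convergence (fun y => g y) (fun k => (gR k).continuous.aestronglyMeasurable) hρ
      (fun k => Eventually.of_forall fun y => ?_) (Eventually.of_forall fun y => ?_)
    · rw [Real.norm_eq_abs, abs_of_nonneg (hge k y)]
      exact hle k y
    · obtain ⟨K, hK⟩ := exists_nat_ge (g y)
      refine tendsto_const_nhds.congr' ?_
      filter_upwards [eventually_ge_atTop K] with k hk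
      rw [hgR, min_eq_left]
      exact hK.trans (by exact_mod_cast hk)
  rw [Metric.tendsto_nhds]
  intro ε hε
  obtain ⟨k, hk⟩ : ∃ k : ℕ, (B * (|c| + 1)) * (∫ y, g y ∂ρ - ∫ y, gR k y ∂ρ) < ε / 4 := by
    have h1 := ((tendsto_const_nhds (x := ∫ y, g y ∂ρ)).sub hlim).const_mul (B * (|c| + 1))
    rw [sub_self, mul_zero] at h1
    exact (h1.eventually (gt_mem_nhds (by positivity))).exists
  obtain ⟨d, hd⟩ : ∃ d : ℝ, d = ∫ y, g y ∂ρ - ∫ y, gR k y ∂ρ := ⟨_, rfl⟩
  have hd0 : 0 ≤ d := by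
    rw [hd, sub_nonneg]
    exact integral_mono ((gR k).integrable _) hρ fun y => hle k y
  rw [← hd] at hk
  have hBd : B * d ≤ (B * (|c| + 1)) * d := by
    have h1 : B * 1 ≤ B * (|c| + 1) := mul_le_mul_of_nonneg_left (by have := abs_nonneg c; linarith) hB0
    rw [mul_one] at h1
    exact mul_le_mul_of_nonneg_right h1 hd0
  have h2 := (hm.sub (hF (gR k))).const_mul B
  have hcd : B * (c * ∫ y, g y ∂ρ - c * ∫ y, gR k y ∂ρ) < ε / 4 := by
    rw [← mul_sub, ← hd]
    have h1 : c ≤ |c| + 1 := by have := le_abs_self c; linarith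
    have h3 : B * (c * d) ≤ B * ((|c| + 1) * d) := mul_le_mul_of_nonneg_left (mul_le_mul_of_nonneg_right h1 hd0) hB0
    linarith
  have h3 := h2.eventually (gt_mem_nhds hcd)
  have h4 := (Metric.tendsto_nhds.mp (hF (FR k))) (ε / 4) (by positivity)
  filter_upwards [herrT, h3, h4] with T a1 a2 a3
  rw [Real.dist_eq] at a3 ⊢
  have b1 := a1 k
  have b2 := herrρ k
  rw [← hd] at b2
  have b2' : |c * ∫ y, F y ∂ρ - c * ∫ y, FR k y ∂ρ| ≤ (B * (|c| + 1)) * d := by
    rw [← mul_sub, abs_mul]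
    have h5 := mul_le_mul_of_nonneg_left b2 (abs_nonneg c)
    have h6 : |c| * (B * d) ≤ (B * (|c| + 1)) * d := by nlinarith [mul_nonneg hB0 hd0]
    linarith
  have b3 : ∫ t, p T t * F (Y T t) ∂(ms T) - c * ∫ y, F y ∂ρ =
      (∫ t, p T t * F (Y T t) ∂(ms T) - ∫ t, p T t * FR k (Y T t) ∂(ms T)) +
      (∫ t, p T t * FR k (Y T t) ∂(ms T) - c * ∫ y, FR k y ∂ρ) - (c * ∫ y, F y ∂ρ - c * ∫ y, FR k y ∂ρ) := by ring
  rw [b3]
  have c1 := abs_sub ((∫ t, p T t * F (Y T t) ∂(ms T) - ∫ t, p T t * FR k (Y T t) ∂(ms T)) +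
      (∫ t, p T t * FR k (Y T t) ∂(ms T) - c * ∫ y, FR k y ∂ρ)) (c * ∫ y, F y ∂ρ - c * ∫ y, FR k y ∂ρ)
  have c2 := abs_add_le (∫ t, p T t * F (Y T t) ∂(ms T) - ∫ t, p T t * FR k (Y T t) ∂(ms T))
      (∫ t, p T t * FR k (Y T t) ∂(ms T) - c * ∫ y, FR k y ∂ρ)
  linarith


end Pool.Agent.H470
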