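import Pool.Agent.H470.To5

set_option autoImplicit false

/-! The field limit for the random Euler product. -/

namespace Pool.Agent.H470

open MeasureTheory Filter Topology ProbabilityTheory
open Pool.Agent.TH806 (ec ec_norm ec_cont uu integrable_uu)
open Pool.Agent.R313.CX (roots Wd Wd_cont Xl mu Cv mu_eq conj_mu Cv_eq le1 le1_zero sum_option normal one_exp gc gc_cont gc_one norm_exp_rpow hom_bound grow_int)

variable {n : ℕ}

/-- the logarithm of the random Euler product at the points of the line -/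
noncomputable def Xp (x y : ℝ) (ω : ℕ → ℝ) : ℂ := Xs (pr (PX x)) (sp x y) ω

/-- the random Euler product -/
noncomputable def Fp (x y : ℝ) (ω : ℕ → ℝ) : ℂ := Complex.exp (Xp x y ω)

/-- the differences -/
noncomputable def Yx (y : Fin n → ℝ) (x : ℝ) (ω : ℕ → ℝ) : Fin n → ℂ := fun j => Xp x (y j) ω - Xp x 0 ω

/-- the density -/
noncomputable def pt (k x : ℝ) (ω : ℕ → ℝ) : ℝ := (2 * x) ^ (k ^ 2) * ‖Fp x 0 ω‖ ^ (2 * k)

lemma Xp_cont {x : ℝ} (hx : 0 < x) (y : ℝ) : Continuous (Xp x y) :=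
  Xs_cont (fun p hp => pr_two hp) (by rw [sp_re]; linarith)

lemma Fp_cont {x : ℝ} (hx : 0 < x) (y : ℝ) : Continuous (Fp x y) := Complex.continuous_exp.comp (Xp_cont hx y)

lemma Xp_bd {x : ℝ} (hx : 0 < x) : ∃ B : ℝ, 0 ≤ B ∧ ∀ y ω, ‖Xp x y ω‖ ≤ B := by
  obtain ⟨B, hB, h⟩ := Xs_bd (I := pr (PX x)) (fun p hp => pr_two hp) (σ := 1 / 2) (by norm_num)
  exact ⟨B, hB, fun y ω => h _ (by rw [sp_re]; linarith) ω⟩

lemma Fp_norm_rpow (x y k : ℝ) (ω : ℕ → ℝ) : ‖Fp x y ω‖ ^ (2 * k) = Real.exp (2 * k * (Xp x y ω).re) := by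
  unfold Fp
  rw [Complex.norm_exp, ← Real.exp_mul]
  congr 1
  ring

/-- bounded continuous functions are integrable -/
lemma tm_int {E : Type*} [NormedAddCommGroup E] {f : (ℕ → ℝ) → E} (hf : Continuous f) {B : ℝ} (hB : ∀ ω, ‖f ω‖ ≤ B)
    [SecondCountableTopology E] : Integrable f tm :=
  Integrable.of_bound hf.aestronglyMeasurable B (Eventually.of_forall hB)

lemma cons_id {a b : Fin n → ℂ} {y : Fin n → ℝ} {s t : ℂ} :
    ∑ i : Fin (n + 1), ∑ j : Fin (n + 1), (Fin.cons (s - ∑ j, a j) a : Fin (n + 1) → ℂ) i * (Fin.cons (t - ∑ j, b j) b : Fin (n + 1) → ℂ) j *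
      -Complex.log (1 + Complex.I * (((Fin.cons 0 y : Fin (n + 1) → ℝ) i - (Fin.cons 0 y : Fin (n + 1) → ℝ) j : ℝ) : ℂ) / 2) =
    ∑ j, (a j * -(t * le1 (y j)) + b j * -(s * le1 (-y j))) + ∑ i, ∑ j, a i * b j * Cv (y i) (y j) := by
  rw [Fin.sum_univ_succ, Fin.sum_univ_succ]
  simp_rw [Fin.sum_univ_succ (n := n)]
  simp only [Fin.cons_zero, Fin.cons_succ, sub_self, zero_sub, sub_zero]
  have h0 : Complex.log (1 + Complex.I * ((0:ℝ):ℂ) / 2) = 0 := by simp
  have hl : ∀ u : ℝ, Complex.log (1 + Complex.I * (u:ℂ) / 2) = le1 u := fun _ => rfl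
  rw [h0]
  simp_rw [hl, Cv_eq]
  have e1 : ∑ i, ∑ j, a i * b j * (le1 (y i) + le1 (-y j) - le1 (y i - y j)) =
      (∑ j, b j) * (∑ i, a i * le1 (y i)) + (∑ i, a i) * (∑ j, b j * le1 (-y j)) - ∑ i, ∑ j, a i * b j * le1 (y i - y j) := by
    rw [mul_comm (∑ j, b j), Finset.sum_mul_sum, Finset.sum_mul_sum, ← Finset.sum_add_distrib, ← Finset.sum_sub_distrib]
    refine Finset.sum_congr rfl fun i _ => ?_
    rw [← Finset.sum_add_distrib, ← Finset.sum_sub_distrib]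
    exact Finset.sum_congr rfl fun j _ => by ring
  rw [e1, Finset.sum_add_distrib, Finset.sum_add_distrib]
  have e2 : ∑ i, a i * (t - ∑ j, b j) * -le1 (y i) = -(t - ∑ j, b j) * ∑ i, a i * le1 (y i) := by
    rw [Finset.mul_sum]
    exact Finset.sum_congr rfl fun i _ => by ring
  have e3 : ∑ j, (s - ∑ j, a j) * b j * -le1 (-y j) = -(s - ∑ j, a j) * ∑ j, b j * le1 (-y j) := by
    rw [Finset.mul_sum]
    exact Finset.sum_congr rfl fun i _ => by ring
  have e4 : ∑ j, a j * -(t * le1 (y j)) = -t * ∑ j, a j * le1 (y j) := by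
    rw [Finset.mul_sum]
    exact Finset.sum_congr rfl fun i _ => by ring
  have e5 : ∑ j, b j * -(s * le1 (-y j)) = -s * ∑ j, b j * le1 (-y j) := by
    rw [Finset.mul_sum]
    exact Finset.sum_congr rfl fun i _ => by ring
  have e6 : ∑ i, ∑ j, a i * b j * -le1 (y i - y j) = -∑ i, ∑ j, a i * b j * le1 (y i - y j) := by
    rw [← Finset.sum_neg_distrib]
    refine Finset.sum_congr rfl fun i _ => ?_
    rw [← Finset.sum_neg_distrib]
    exact Finset.sum_congr rfl fun j _ => by ring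
  rw [e2, e3, e4, e5, e6]
  ring

/-- the tilted moment generating function -/
theorem w_lim (k : ℝ) (y : Fin n → ℝ) (α β : Fin n → ℂ) :
    Tendsto (fun x : ℝ => ∫ ω, ((pt k x ω : ℝ) : ℂ) * Complex.exp (∑ j, (α j * Yx y x ω j + β j * (starRingEnd ℂ) (Yx y x ω j))) ∂tm) (𝓝[>] 0)
      (𝓝 (DD k k * Complex.exp (∑ j, (α j * mu k (y j) + β j * (starRingEnd ℂ) (mu k (y j))) + ∑ i, ∑ j, α i * β j * Cv (y i) (y j)))) := by
  have h := mg_lim (n := n + 1) (Fin.cons ((k:ℂ) - ∑ j, α j) α) (Fin.cons ((k:ℂ) - ∑ j, β j) β) (Fin.cons 0 y)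
  have s1 : ∑ j : Fin (n + 1), (Fin.cons ((k:ℂ) - ∑ j, α j) α : Fin (n + 1) → ℂ) j = k := by
    rw [Fin.sum_univ_succ]
    simp only [Fin.cons_zero, Fin.cons_succ]
    ring
  have s2 : ∑ j : Fin (n + 1), (Fin.cons ((k:ℂ) - ∑ j, β j) β : Fin (n + 1) → ℂ) j = k := by
    rw [Fin.sum_univ_succ]
    simp only [Fin.cons_zero, Fin.cons_succ]
    ring
  rw [s1, s2, cons_id] at h
  have e1 : ∑ j, (α j * -((k:ℂ) * le1 (y j)) + β j * -((k:ℂ) * le1 (-y j))) = ∑ j, (α j * mu k (y j) + β j * (starRingEnd ℂ) (mu k (y j))) := by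
    refine Finset.sum_congr rfl fun j _ => ?_
    rw [mu_eq k (y j), map_neg, map_mul, Complex.conj_ofReal]
    have h1 := conj_mu 1 (y j)
    rw [mu_eq, map_neg, map_mul, Complex.conj_ofReal] at h1
    have h2 : (starRingEnd ℂ) (le1 (y j)) = le1 (-y j) := by
      simpa using h1
    rw [h2]
  rw [e1] at h
  refine h.congr' ?_
  filter_upwards [self_mem_nhdsWithin] with x hx
  have hx0 : 0 < x := hx
  rw [← integral_const_mul]
  refine integral_congr_ae (Eventually.of_forall fun ω => ?_)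
  show Complex.exp ((k:ℂ) * k * (Real.log (2 * x) : ℝ)) * _ = ((pt k x ω : ℝ) : ℂ) * Complex.exp (∑ j, (α j * Yx y x ω j + β j * (starRingEnd ℂ) (Yx y x ω j)))
  unfold pt
  rw [Fp_norm_rpow, Real.rpow_def_of_pos (by positivity), ← Real.exp_add, Complex.ofReal_exp, ← Complex.exp_add, ← Complex.exp_add]
  congr 1
  rw [Fin.sum_univ_succ]
  simp only [Fin.cons_zero, Fin.cons_succ]
  have e2 : ∑ j, (α j * Yx y x ω j + β j * (starRingEnd ℂ) (Yx y x ω j)) =
      ∑ j, (α j * Xs (pr (PX x)) (sp x (y j)) ω + β j * (starRingEnd ℂ) (Xs (pr (PX x)) (sp x (y j)) ω)) -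
        ((∑ j, α j) * Xp x 0 ω + (∑ j, β j) * (starRingEnd ℂ) (Xp x 0 ω)) := by
    rw [Finset.sum_mul, Finset.sum_mul, ← Finset.sum_add_distrib, ← Finset.sum_sub_distrib]
    refine Finset.sum_congr rfl fun j _ => ?_
    unfold Yx Xp
    rw [map_sub]
    ring
  rw [e2]
  have e3 : ((2 * k * (Xp x 0 ω).re : ℝ) : ℂ) = k * Xp x 0 ω + k * (starRingEnd ℂ) (Xp x 0 ω) := by
    have h1 := Complex.add_conj (Xp x 0 ω)
    push_cast at h1 ⊢
    linear_combination -(k:ℂ) * h1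
  rw [Complex.ofReal_add, e3]
  unfold Xp
  push_cast
  ring

/-- positivity of the local factors -/
lemma gl_ne (k : ℝ) {p : ℕ} (hp : p.Prime) : gl k k p ≠ 0 := by
  unfold gl
  refine mul_ne_zero ?_ (Complex.exp_ne_zero _)
  have hz : ‖(p:ℂ) ^ (-(1 / 2) : ℂ)‖ ≤ 3 / 4 := by
    have h1 := pw_le hp.two_le (s := 1 / 2) (by norm_num)
    exact h1.trans (p_pow_le hp.two_le)
  have hza : ∀ t : ℝ, ‖(p:ℂ) ^ (-(1 / 2) : ℂ) * ec t‖ ≤ 3 / 4 := fun t => by rw [norm_mul, ec_norm, mul_one]; exact hz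
  have hc : Continuous fun t : ℝ => el ((p:ℂ) ^ (-(1 / 2) : ℂ) * ec t) := by
    refine continuous_iff_continuousAt.mpr fun t => ?_
    exact ContinuousAt.comp (f := fun t => (p:ℂ) ^ (-(1 / 2) : ℂ) * ec t) (el_cont ((hza t).trans_lt (by norm_num))) (by have := ec_cont; fun_prop)
  have e1 : ∀ t : ℝ, Complex.exp ((k:ℂ) * el ((p:ℂ) ^ (-(1 / 2) : ℂ) * ec t) + (k:ℂ) * (starRingEnd ℂ) (el ((p:ℂ) ^ (-(1 / 2) : ℂ) * ec t))) =
      ((Real.exp (2 * k * (el ((p:ℂ) ^ (-(1 / 2) : ℂ) * ec t)).re) : ℝ) : ℂ) := by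
    intro t
    rw [Complex.ofReal_exp]
    congr 1
    have h1 := Complex.add_conj (el ((p:ℂ) ^ (-(1 / 2) : ℂ) * ec t))
    push_cast at h1 ⊢
    linear_combination (k:ℂ) * h1
  simp_rw [e1]
  rw [integral_complex_ofReal]
  have hb : ∀ t : ℝ, Real.exp (-(4 * |k|)) ≤ Real.exp (2 * k * (el ((p:ℂ) ^ (-(1 / 2) : ℂ) * ec t)).re) := by
    intro t
    refine Real.exp_le_exp.mpr ?_
    have h1 : |(el ((p:ℂ) ^ (-(1 / 2) : ℂ) * ec t)).re| ≤ 2 := by
      refine (Complex.abs_re_le_norm _).trans ((el_bd (hza t)).trans ?_)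
      have := hza t
      linarith
    have h2 : |2 * k * (el ((p:ℂ) ^ (-(1 / 2) : ℂ) * ec t)).re| ≤ 4 * |k| := by
      rw [abs_mul, abs_mul, abs_two]
      have := mul_le_mul_of_nonneg_left h1 (show 0 ≤ 2 * |k| by positivity)
      linarith
    exact (abs_le.mp h2).1
  have hi : Integrable (fun t : ℝ => Real.exp (2 * k * (el ((p:ℂ) ^ (-(1 / 2) : ℂ) * ec t)).re)) uu := by
    refine Integrable.of_bound (Real.continuous_exp.comp ((Complex.continuous_re.comp hc).const_mul (2 * k))).aestronglyMeasurable (Real.exp (4 * |k|)) (Eventually.of_forall fun t => ?_)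
    rw [Real.norm_of_nonneg (Real.exp_pos _).le]
    refine Real.exp_le_exp.mpr ?_
    have h1 : |(el ((p:ℂ) ^ (-(1 / 2) : ℂ) * ec t)).re| ≤ 2 := by
      refine (Complex.abs_re_le_norm _).trans ((el_bd (hza t)).trans ?_)
      have := hza t
      linarith
    have h2 : |2 * k * (el ((p:ℂ) ^ (-(1 / 2) : ℂ) * ec t)).re| ≤ 4 * |k| := by
      rw [abs_mul, abs_mul, abs_two]
      have := mul_le_mul_of_nonneg_left h1 (show 0 ≤ 2 * |k| by positivity)
      linarith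
    exact (abs_le.mp h2).2
  have h1 := integral_mono (integrable_const (Real.exp (-(4 * |k|)))) hi hb
  simp only [integral_const, probReal_univ, one_smul] at h1
  have h2 : 0 < ∫ t, Real.exp (2 * k * (el ((p:ℂ) ^ (-(1 / 2) : ℂ) * ec t)).re) ∂uu := (Real.exp_pos _).trans_le h1
  exact_mod_cast h2.ne'

lemma DD_ne (k : ℝ) : DD k k ≠ 0 := by
  have e1 : DD k k = ∏' p : Nat.Primes, (1 + (gl k k p - 1)) := by
    unfold DD
    exact tprod_congr fun p => by ring
  rw [e1]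
  refine tprod_one_add_ne_zero_of_summable (fun p => ?_) ?_
  · have := gl_ne k p.2
    simpa using this
  · refine Summable.of_nonneg_of_le (fun p => norm_nonneg _) (fun p => ?_) (pow_sum_primes.mul_left (CG |k|))
    have h := gx_bd (n := 1) (α := fun _ => (k:ℂ)) (β := fun _ => (k:ℂ)) (A := |k|) (by simp) (by simp) (fun _ => 0) (x := 0) le_rfl p.2
    rw [gx_zero] at h
    simpa using h

/-- the constant -/
noncomputable def aK (k : ℝ) : ℝ := (DD k k).re

lemma pt_nonneg (k : ℝ) {x : ℝ} (hx : 0 < x) (ω : ℕ → ℝ) : 0 ≤ pt k x ω := by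
  unfold pt
  positivity

lemma pt_cont (k : ℝ) {x : ℝ} (hx : 0 < x) : Continuous (pt k x) := by
  unfold pt
  simp_rw [Fp_norm_rpow]
  have := Xp_cont hx 0
  fun_prop

lemma pt_int (k : ℝ) {x : ℝ} (hx : 0 < x) : Integrable (pt k x) tm := by
  obtain ⟨B, hB, hb⟩ := Xp_bd hx
  refine tm_int (pt_cont k hx) (B := (2 * x) ^ (k ^ 2) * Real.exp (2 * |k| * B)) fun ω => ?_
  rw [Real.norm_of_nonneg (pt_nonneg k hx ω)]
  unfold pt
  rw [Fp_norm_rpow]
  refine mul_le_mul_of_nonneg_left (Real.exp_le_exp.mpr ?_) (by positivity)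
  have h1 : |2 * k * (Xp x 0 ω).re| ≤ 2 * |k| * B := by
    rw [abs_mul, abs_mul, abs_two]
    exact mul_le_mul_of_nonneg_left ((Complex.abs_re_le_norm _).trans (hb 0 ω)) (by positivity)
  exact (abs_le.mp h1).2

/-- the mass -/
theorem mass_lim (k : ℝ) : DD k k = (aK k : ℂ) ∧ 0 < aK k ∧ Tendsto (fun x : ℝ => ∫ ω, pt k x ω ∂tm) (𝓝[>] 0) (𝓝 (aK k)) := by
  have h := w_lim (n := 0) k (fun j => j.elim0) (fun j => j.elim0) (fun j => j.elim0)
  simp only [Finset.univ_eq_empty, Finset.sum_empty, Complex.exp_zero, mul_one, add_zero] at h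
  have h1 : Tendsto (fun x : ℝ => ((∫ ω, pt k x ω ∂tm : ℝ) : ℂ)) (𝓝[>] 0) (𝓝 (DD k k)) := by
    refine h.congr fun x => ?_
    rw [← integral_complex_ofReal]
  have hre := (Complex.continuous_re.tendsto _).comp h1
  have him := (Complex.continuous_im.tendsto _).comp h1
  have him0 : (DD k k).im = 0 := by
    refine tendsto_nhds_unique him ?_
    refine tendsto_const_nhds.congr fun x => ?_
    simp [Function.comp]
  have e1 : DD k k = (aK k : ℂ) := by
    refine Complex.ext ?_ ?_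
    · rw [Complex.ofReal_re]
      rfl
    · rw [Complex.ofReal_im, him0]
  have hT : Tendsto (fun x : ℝ => ∫ ω, pt k x ω ∂tm) (𝓝[>] 0) (𝓝 (aK k)) := by
    refine hre.congr fun x => ?_
    simp [Function.comp]
  refine ⟨e1, ?_, hT⟩
  have h0 : 0 ≤ aK k := by
    refine ge_of_tendsto hT ?_
    filter_upwards [self_mem_nhdsWithin] with x hx
    exact integral_nonneg fun ω => pt_nonneg k hx ω
  refine lt_of_le_of_ne h0 fun h2 => DD_ne k ?_
  rw [e1, ← h2]
  simp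

end Pool.Agent.H470
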