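import Pool.Agent.H470.To6

set_option autoImplicit false

/-! The field limit for homogeneous functions of the random Euler product. -/

namespace Pool.Agent.H470

open MeasureTheory Filter Topology ProbabilityTheory
open Pool.Agent.TH806 (ec ec_norm ec_cont uu integrable_uu)
open Pool.Agent.R313.CX (roots Wd Wd_cont Xl mu Cv mu_eq conj_mu Cv_eq le1 le1_zero sum_option normal one_exp gc gc_cont gc_one norm_exp_rpow hom_bound grow_int)

variable {n : ℕ}

/-- the words are exponentials -/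
lemma Wd_exp {N P : ℕ} (σ τ : Fin P → Option (Fin n)) :
    ∃ α β : Fin n → ℂ, ∀ z : Fin n → ℂ, Wd (N:ℝ) σ τ z = Complex.exp (∑ j, (α j * z j + β j * (starRingEnd ℂ) (z j))) := by
  classical
  obtain ⟨α, hα⟩ : ∃ α : Fin n → ℂ, ∀ j, α j = ∑ i, if σ i = some j then 1 / (N:ℂ) else 0 := ⟨_, fun _ => rfl⟩
  obtain ⟨β, hβ⟩ : ∃ β : Fin n → ℂ, ∀ j, β j = ∑ i, if τ i = some j then 1 / (N:ℂ) else 0 := ⟨_, fun _ => rfl⟩
  refine ⟨α, β, fun z => ?_⟩
  have hX : ∀ s, Xl (N:ℝ) z s = Complex.exp (1 / (N:ℂ) * (match s with | none => 0 | some j => z j)) := by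
    intro s
    cases s with
    | none => simp [Xl]
    | some j =>
      show Complex.exp (z j / ((N:ℝ):ℂ)) = _
      congr 1
      push_cast
      ring
  have hc : ∀ s, (starRingEnd ℂ) (Xl (N:ℝ) z s) = Complex.exp (1 / (N:ℂ) * (match s with | none => 0 | some j => (starRingEnd ℂ) (z j))) := by
    intro s
    cases s with
    | none => simp [Xl]
    | some j =>
      show (starRingEnd ℂ) (Complex.exp (z j / ((N:ℝ):ℂ))) = _
      rw [← Complex.exp_conj, map_div₀, Complex.conj_ofReal]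
      congr 1
      push_cast
      ring
  unfold Wd
  rw [map_prod]
  simp_rw [hX]
  rw [show (∏ x, (starRingEnd ℂ) (Complex.exp (1 / (N:ℂ) * (match τ x with | none => 0 | some j => z j)))) =
    ∏ x, Complex.exp (1 / (N:ℂ) * (match τ x with | none => 0 | some j => (starRingEnd ℂ) (z j))) from
    Finset.prod_congr rfl fun x _ => by rw [← hX, hc]]
  rw [← Complex.exp_sum, ← Complex.exp_sum, ← Complex.exp_add, Finset.sum_add_distrib]
  congr 2
  · rw [← sum_option (1 / (N:ℂ)) σ (fun s => match s with | none => 0 | some j => z j) rfl]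
    simp_rw [hα]
  · rw [← sum_option (1 / (N:ℂ)) τ (fun s => match s with | none => 0 | some j => (starRingEnd ℂ) (z j)) rfl]
    simp_rw [hβ]

/-- the mass at every point -/
theorem mass_y (k y : ℝ) : Tendsto (fun x : ℝ => ∫ ω, (2 * x) ^ (k ^ 2) * ‖Fp x y ω‖ ^ (2 * k) ∂tm) (𝓝[>] 0) (𝓝 (aK k)) := by
  have h := mg_lim (n := 1) (fun _ => (k:ℂ)) (fun _ => (k:ℂ)) (fun _ => y)
  simp only [Fin.sum_univ_one, Finset.univ_unique, Finset.sum_singleton, sub_self, Complex.ofReal_zero, mul_zero, zero_div, add_zero, Complex.log_one, neg_zero, Complex.exp_zero, mul_one] at h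
  rw [(mass_lim k).1] at h
  have hre := (Complex.continuous_re.tendsto _).comp h
  rw [Complex.ofReal_re] at hre
  refine hre.congr' ?_
  filter_upwards [self_mem_nhdsWithin] with x hx
  have hx0 : 0 < x := hx
  rw [Function.comp, ← integral_const_mul]
  have e1 : ∀ ω : ℕ → ℝ, Complex.exp ((k:ℂ) * k * (Real.log (2 * x) : ℝ)) * Complex.exp ((k:ℂ) * Xs (pr (PX x)) (sp x y) ω + k * (starRingEnd ℂ) (Xs (pr (PX x)) (sp x y) ω)) =
      (((2 * x) ^ (k ^ 2) * ‖Fp x y ω‖ ^ (2 * k) : ℝ) : ℂ) := by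
    intro ω
    rw [Fp_norm_rpow, Real.rpow_def_of_pos (by positivity), ← Real.exp_add, ← Complex.exp_add, Complex.ofReal_exp]
    congr 1
    have h1 := Complex.add_conj (Xs (pr (PX x)) (sp x y) ω)
    unfold Xp
    push_cast at h1 ⊢
    linear_combination (k:ℂ) * h1
  simp_rw [e1]
  rw [integral_complex_ofReal, Complex.ofReal_re]

lemma Fp_int (k : ℝ) {x : ℝ} (hx : 0 < x) (y : ℝ) : Integrable (fun ω => ‖Fp x y ω‖ ^ (2 * k)) tm := by
  obtain ⟨B, hB, hb⟩ := Xp_bd hx
  simp_rw [Fp_norm_rpow]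
  have hc := Xp_cont hx y
  refine tm_int (by fun_prop) (B := Real.exp (2 * |k| * B)) fun ω => ?_
  rw [Real.norm_of_nonneg (Real.exp_pos _).le]
  refine Real.exp_le_exp.mpr ?_
  have h1 : |2 * k * (Xp x y ω).re| ≤ 2 * |k| * B := by
    rw [abs_mul, abs_mul, abs_two]
    exact mul_le_mul_of_nonneg_left ((Complex.abs_re_le_norm _).trans (hb y ω)) (by positivity)
  exact (abs_le.mp h1).2

lemma Yx_cont (y : Fin n → ℝ) {x : ℝ} (hx : 0 < x) : Continuous (Yx y x) :=
  continuous_pi fun j => (Xp_cont hx (y j)).sub (Xp_cont hx 0)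

/-- the field limit -/
theorem fld_lim {k : ℝ} (hk : 0 < k) (y : Fin n → ℝ) : ∃ ρ : ProbabilityMeasure (Fin n → ℂ),
    (∀ s : ℝ, Integrable (fun z => Real.exp (s * ‖z‖)) (ρ : Measure (Fin n → ℂ))) ∧
    (∀ α β : Fin n → ℂ, ∫ z, Complex.exp (∑ j, (α j * z j + β j * (starRingEnd ℂ) (z j))) ∂(ρ : Measure (Fin n → ℂ)) =
      Complex.exp (∑ j, (α j * mu k (y j) + β j * (starRingEnd ℂ) (mu k (y j))) + ∑ i, ∑ j, α i * β j * Cv (y i) (y j))) ∧
    ∀ Φ : (Fin n → ℂ) → ℝ, Continuous Φ → (∀ (u : ℂ) (z : Fin n → ℂ), Φ (u • z) = ‖u‖ ^ (2 * k) * Φ z) →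
      Tendsto (fun x : ℝ => (2 * x) ^ (k ^ 2) * ∫ ω, Φ (fun j => Fp x (y j) ω) ∂tm) (𝓝[>] 0)
        (𝓝 (aK k * ∫ z, Φ (fun j => Complex.exp (z j)) ∂(ρ : Measure (Fin n → ℂ)))) := by
  obtain ⟨ρ, hρ, hρ2⟩ := normal k y
  refine ⟨ρ, hρ, hρ2, fun Φ hΦc hΦ => ?_⟩
  obtain ⟨hDD, haK, hmass⟩ := mass_lim k
  have hinv : Tendsto (fun T : ℝ => T⁻¹) atTop (𝓝[>] 0) := tendsto_inv_atTop_nhdsGT_zero
  have hpos : ∀ᶠ T : ℝ in atTop, 0 < T⁻¹ := by
    filter_upwards [eventually_gt_atTop 0] with T hT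
    positivity
  have key : ∀ F : BoundedContinuousFunction (Fin n → ℂ) ℝ, Tendsto (fun T : ℝ => ∫ ω, pt k T⁻¹ ω * F (fun j => Complex.exp (Yx y T⁻¹ ω j)) ∂tm) atTop
      (𝓝 (aK k * ∫ z, F (fun j => Complex.exp (z j)) ∂(ρ : Measure (Fin n → ℂ)))) := by
    intro F
    refine avg hk (p := fun T => pt k T⁻¹) (Y := fun T => Yx y T⁻¹) (ms := fun _ => tm) ?_ ?_ haK ?_ (hmass.comp hinv) hρ ?_ F
    · filter_upwards [hpos] with T hT
      exact ⟨(pt_cont k hT).measurable, fun ω => pt_nonneg k hT ω⟩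
    · filter_upwards [hpos] with T hT
      exact (Yx_cont y hT).measurable
    · filter_upwards [hpos] with T hT
      exact pt_int k hT
    · intro N P hN hP σ τ
      obtain ⟨α, β, hW⟩ := Wd_exp (N := N) σ τ
      constructor
      · filter_upwards [hpos] with T hT
        obtain ⟨B, hB, hb⟩ := Xp_bd hT
        have hYb : ∀ ω j, ‖Yx y T⁻¹ ω j‖ ≤ 2 * B := fun ω j => by
          refine (norm_sub_le _ _).trans ?_
          have := hb (y j) ω
          have := hb 0 ω
          linarith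
        have hWb : ∀ ω, ‖Wd (N:ℝ) σ τ (Yx y T⁻¹ ω)‖ ≤ Real.exp (∑ j, (‖α j‖ + ‖β j‖) * (2 * B)) := by
          intro ω
          rw [hW, Complex.norm_exp]
          refine Real.exp_le_exp.mpr ((Complex.re_le_norm _).trans ((norm_sum_le _ _).trans (Finset.sum_le_sum fun j _ => ?_)))
          refine (norm_add_le _ _).trans ?_
          rw [norm_mul, norm_mul, RCLike.norm_conj, add_mul]
          exact add_le_add (mul_le_mul_of_nonneg_left (hYb ω j) (norm_nonneg _)) (mul_le_mul_of_nonneg_left (hYb ω j) (norm_nonneg _))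
        refine ((pt_int k hT).ofReal (𝕜 := ℂ)).mul_bdd (c := Real.exp (∑ j, (‖α j‖ + ‖β j‖) * (2 * B)))
          ((Wd_cont _ _ _).comp (Yx_cont y hT)).aestronglyMeasurable (Eventually.of_forall hWb)
      · simp_rw [hW]
        rw [hρ2 α β, ← hDD]
        exact (w_lim k y α β).comp hinv
  -- growth
  have hec : Continuous fun z : Fin n → ℂ => (fun j => Complex.exp (z j) : Fin n → ℂ) := by fun_prop
  obtain ⟨ρ', hρ'⟩ : ∃ ρ' : Measure (Fin n → ℂ), ρ' = (ρ : Measure (Fin n → ℂ)).map (fun z => (fun j => Complex.exp (z j) : Fin n → ℂ)) := ⟨_, rfl⟩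
  have hρp : IsProbabilityMeasure ρ' := by rw [hρ']; exact Measure.isProbabilityMeasure_map hec.measurable.aemeasurable
  have hρint : ∀ g : (Fin n → ℂ) → ℝ, Continuous g → ∫ y, g y ∂ρ' = ∫ z, g (fun j => Complex.exp (z j)) ∂(ρ : Measure (Fin n → ℂ)) := by
    intro g hg
    rw [hρ', integral_map hec.measurable.aemeasurable hg.aestronglyMeasurable]
  have hgid : ∀ z : Fin n → ℂ, gc k (fun j => Complex.exp (z j)) = 1 + ∑ j, Real.exp (2 * k * (z j).re) := by
    intro z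
    unfold gc
    simp_rw [norm_exp_rpow]
  have hρi : Integrable (gc k) ρ' := by
    rw [hρ', integrable_map_measure (gc_cont hk).aestronglyMeasurable hec.measurable.aemeasurable]
    have h1 : Integrable (fun z : Fin n → ℂ => 1 + ∑ j, Real.exp (2 * k * (z j).re)) (ρ : Measure (Fin n → ℂ)) :=
      (integrable_const (1:ℝ)).add (integrable_finsetSum _ fun j _ => (one_exp hρ hρ2 j).1)
    refine h1.congr (Eventually.of_forall fun z => ?_)
    exact (hgid z).symm
  have hρv : ∫ y, gc k y ∂ρ' = 1 + n := by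
    rw [hρint _ (gc_cont hk)]
    simp_rw [hgid]
    rw [integral_add (integrable_const _) (integrable_finsetSum _ fun j _ => (one_exp hρ hρ2 j).1),
      integral_finsetSum _ fun j _ => (one_exp hρ hρ2 j).1]
    simp_rw [(one_exp hρ hρ2 _).2]
    simp
  have hrat : ∀ (x : ℝ) (ω : ℕ → ℝ) (j : Fin n), ‖Fp x 0 ω‖ ^ (2 * k) * ‖Complex.exp (Yx y x ω j)‖ ^ (2 * k) = ‖Fp x (y j) ω‖ ^ (2 * k) := by
    intro x ω j
    rw [← Real.mul_rpow (norm_nonneg _) (norm_nonneg _), ← norm_mul]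
    unfold Fp Yx
    rw [← Complex.exp_add]
    congr 3
    ring
  have hgr : ∀ T : ℝ, (fun ω => pt k T⁻¹ ω * gc k (fun j => Complex.exp (Yx y T⁻¹ ω j))) =
      fun ω => pt k T⁻¹ ω + ∑ j, (2 * T⁻¹) ^ (k ^ 2) * ‖Fp T⁻¹ (y j) ω‖ ^ (2 * k) := by
    intro T
    funext ω
    unfold gc
    rw [mul_add, mul_one, Finset.mul_sum]
    congr 1
    refine Finset.sum_congr rfl fun j _ => ?_
    rw [← hrat]
    unfold pt
    ring
  have hFi : ∀ {T : ℝ}, 0 < T⁻¹ → ∀ j, Integrable (fun ω => (2 * T⁻¹) ^ (k ^ 2) * ‖Fp T⁻¹ (y j) ω‖ ^ (2 * k)) tm := fun hT j =>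
    (Fp_int k hT (y j)).const_mul _
  have hgi : ∀ᶠ T : ℝ in atTop, Integrable (fun ω => pt k T⁻¹ ω * gc k (fun j => Complex.exp (Yx y T⁻¹ ω j))) tm := by
    filter_upwards [hpos] with T hT
    rw [hgr]
    exact (pt_int k hT).add (integrable_finsetSum _ fun j _ => hFi hT j)
  have hm : Tendsto (fun T : ℝ => ∫ ω, pt k T⁻¹ ω * gc k (fun j => Complex.exp (Yx y T⁻¹ ω j)) ∂tm) atTop
      (𝓝 (aK k * ∫ y, gc k y ∂ρ')) := by
    rw [hρv]
    have h1 := (hmass.add (tendsto_finsetSum (Finset.univ : Finset (Fin n)) fun j _ => mass_y k (y j))).comp hinv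
    have e1 : aK k * (1 + (n : ℝ)) = aK k + ∑ _j : Fin n, aK k := by
      rw [Finset.sum_const, Finset.card_univ, Fintype.card_fin, nsmul_eq_mul]
      ring
    rw [e1]
    refine h1.congr' ?_
    filter_upwards [hpos] with T hT
    rw [hgr, integral_add (pt_int k hT) (integrable_finsetSum _ fun j _ => hFi hT j), integral_finsetSum _ fun j _ => hFi hT j]
    rfl
  obtain ⟨A, hA0, hA⟩ := hom_bound (Φ := fun z => (Φ z : ℂ)) hk (Complex.continuous_ofReal.comp hΦc) (fun u z => by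
    rw [hΦ, Complex.ofReal_mul])
  have hΦA : ∀ z, |Φ z| ≤ A * gc k z := fun z => by
    have := hA z
    rw [Complex.norm_real, Real.norm_eq_abs] at this
    exact this
  have fin := unb3 (p := fun T => pt k T⁻¹) (Y := fun T ω => (fun j => Complex.exp (Yx y T⁻¹ ω j) : Fin n → ℂ)) (ms := fun _ => tm)
    (ρ := ρ') (c := aK k) (g := gc k) (by
      filter_upwards [hpos] with T hT
      exact ⟨(pt_cont k hT).measurable, fun ω => pt_nonneg k hT ω⟩) (by
      filter_upwards [hpos] with T hT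
      exact (hec.comp (Yx_cont y hT)).measurable)
    (gc_cont hk) (gc_one k) hgi hρi hm (fun G => by
      rw [hρint _ G.continuous]
      exact key G) hΦc (A := A) hΦA
  rw [hρint _ hΦc] at fin
  have h2 := fin.comp tendsto_inv_nhdsGT_zero
  refine h2.congr' ?_
  filter_upwards [self_mem_nhdsWithin] with x hx
  have hx0 : 0 < x := hx
  rw [Function.comp, inv_inv, ← integral_const_mul]
  refine integral_congr_ae (Eventually.of_forall fun ω => ?_)
  show pt k x ω * Φ (fun j => Complex.exp (Yx y x ω j)) = (2 * x) ^ (k ^ 2) * Φ (fun j => Fp x (y j) ω)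
  have e1 : (fun j => Fp x (y j) ω) = Fp x 0 ω • (fun j => Complex.exp (Yx y x ω j)) := by
    funext j
    rw [Pi.smul_apply, smul_eq_mul]
    unfold Fp Yx
    rw [← Complex.exp_add]
    congr 1
    ring
  rw [e1, hΦ]
  unfold pt
  ring

end Pool.Agent.H470
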