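import Pool.Agent.H470.To7
import Pool.Graph.R_seed8.R313.FN.D

set_option autoImplicit false

/-! A majorant for the random Euler product. -/

namespace Pool.Agent.H470

open MeasureTheory Filter Topology ProbabilityTheory Set
open scoped ENNReal
open Pool.Agent.TH806 (ec ec_norm ec_cont uu integrable_uu)
open Pool.Agent.R313.FN (rc rc_compact sup_le_area)

lemma el_meas : Measurable el := by
  unfold el
  exact (Complex.measurable_log.comp (measurable_const.sub measurable_id)).neg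

/-- joint measurability -/
lemma Xs_meas2 {I : Finset ℕ} (hI : ∀ p ∈ I, 2 ≤ p) {α : Type*} [MeasurableSpace α] {s : α → ℂ} (hs : Measurable s)
    {v : α → ℕ → ℝ} (hv : Measurable v) : Measurable fun a => Xs I (s a) (v a) := by
  unfold Xs
  refine Finset.measurable_sum _ fun p hp => ?_
  have hp0 : (p:ℂ) ≠ 0 := by
    have := hI p hp
    exact_mod_cast (by omega : p ≠ 0)
  have h1 : Measurable fun a => (p:ℂ) ^ (-s a) :=
    (Continuous.const_cpow continuous_id (Or.inl hp0)).measurable.comp hs.neg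
  have h2 : Measurable fun a => ec (v a p) := ec_cont.measurable.comp ((measurable_pi_apply p).comp hv)
  exact el_meas.comp (h1.mul h2)

lemma enorm_exp_rpow (z : ℂ) {k : ℝ} : ‖Complex.exp z‖ₑ ^ (2 * k) = ENNReal.ofReal (Real.exp (2 * k * z.re)) := by
  rw [← ofReal_norm, Complex.norm_exp, ENNReal.ofReal_rpow_of_pos (Real.exp_pos _), ← Real.exp_mul]
  congr 2
  ring

lemma re_exp_int {I : Finset ℕ} (hI : ∀ p ∈ I, 2 ≤ p) {s : ℂ} (hs : 0 < s.re) (c : ℝ) : Integrable (fun ω => Real.exp (c * (Xs I s ω).re)) tm := by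
  obtain ⟨B, hB, hb⟩ := Xs_bd hI hs
  have hc := Xs_cont hI hs
  refine tm_int (by fun_prop) (B := Real.exp (|c| * B)) fun ω => ?_
  rw [Real.norm_of_nonneg (Real.exp_pos _).le]
  refine Real.exp_le_exp.mpr ?_
  have h1 : |c * (Xs I s ω).re| ≤ |c| * B := by
    rw [abs_mul]
    exact mul_le_mul_of_nonneg_left ((Complex.abs_re_le_norm _).trans (hb s le_rfl ω)) (by positivity)
  exact (abs_le.mp h1).2

/-- the moments of the random Euler product -/
theorem EF {I : Finset ℕ} (hI : ∀ p ∈ I, 2 ≤ p) {s : ℂ} (hs : 9 / 20 ≤ s.re) (k : ℝ) :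
    ∫⁻ ω, ‖Complex.exp (Xs I s ω)‖ₑ ^ (2 * k) ∂tm ≤ ENNReal.ofReal (Real.exp (k ^ 2 * ∑ p ∈ I, (p:ℝ) ^ (-(2 * s.re)) + CN |k| * KS)) := by
  simp_rw [enorm_exp_rpow]
  rw [← ofReal_integral_eq_lintegral_ofReal (re_exp_int hI (by linarith) _) (Eventually.of_forall fun ω => (Real.exp_pos _).le)]
  refine ENNReal.ofReal_le_ofReal ?_
  have h := mgf_norm (n := 1) hI (s := fun _ => s) (fun _ => hs) (α := fun _ => (k:ℂ)) (β := fun _ => (k:ℂ)) (A := |k|) (by simp) (by simp)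
  simp only [Finset.univ_unique, Finset.sum_singleton] at h
  have e1 : ∀ ω, Complex.exp ((k:ℂ) * Xs I s ω + k * (starRingEnd ℂ) (Xs I s ω)) = ((Real.exp (2 * k * (Xs I s ω).re) : ℝ) : ℂ) := by
    intro ω
    rw [Complex.ofReal_exp]
    congr 1
    have h1 := Complex.add_conj (Xs I s ω)
    push_cast at h1 ⊢
    linear_combination (k:ℂ) * h1
  simp_rw [e1] at h
  rw [integral_complex_ofReal, Complex.norm_real, Real.norm_of_nonneg (integral_nonneg fun ω => (Real.exp_pos _).le)] at h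
  refine h.trans (le_of_eq ?_)
  congr 2
  rw [Finset.mul_sum]
  refine Finset.sum_congr rfl fun p hp => ?_
  have e2 : (k:ℂ) * (p:ℂ) ^ (-s) * ((k:ℂ) * (starRingEnd ℂ) ((p:ℂ) ^ (-s))) = ((k ^ 2 * ‖(p:ℂ) ^ (-s)‖ ^ 2 : ℝ) : ℂ) := by
    have h2 := Complex.mul_conj' ((p:ℂ) ^ (-s))
    push_cast
    linear_combination (k:ℂ) ^ 2 * h2
  have e3 : ((p:ℝ) ^ (-s.re)) ^ 2 = (p:ℝ) ^ (-(2 * s.re)) := by
    rw [← Real.rpow_natCast ((p:ℝ) ^ (-s.re)), ← Real.rpow_mul (Nat.cast_nonneg _)]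
    congr 1
    push_cast
    ring
  rw [e2, Complex.ofReal_re, pw_norm (hI p hp), e3]

/-- the random Euler product in the half plane -/
noncomputable def Fw (x : ℝ) (w : ℂ) (ω : ℕ → ℝ) : ℂ := Complex.exp (Xs (pr (PX x)) (1 / 2 + (x:ℂ) * w) ω)

lemma Fw_line (x y : ℝ) (ω : ℕ → ℝ) : Fw x (1 + (y:ℂ) * Complex.I) ω = Fp x y ω := rfl

lemma Fw_re (x : ℝ) (w : ℂ) : (1 / 2 + (x:ℂ) * w).re = 1 / 2 + x * w.re := by
  simp

/-- the moments in the strip -/
theorem EFw (k : ℝ) : ∃ C : ℝ, 0 < C ∧ ∀ x : ℝ, 0 < x → x ≤ 1 → ∀ w : ℂ, 1 / 2 ≤ w.re → w.re ≤ 3 / 2 →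
    ∫⁻ ω, ‖Fw x w ω‖ₑ ^ (2 * k) ∂tm ≤ ENNReal.ofReal (C * x ^ (-k ^ 2)) := by
  obtain ⟨C, hC, h⟩ := S_real
  refine ⟨Real.exp (k ^ 2 * C + CN |k| * KS), Real.exp_pos _, fun x hx hx1 w h1 h2 => ?_⟩
  have hxw : 0 < x * w.re := by positivity
  have h3 := EF (I := pr (PX x)) (fun p hp => pr_two hp) (s := 1 / 2 + (x:ℂ) * w) (by rw [Fw_re]; linarith) k
  refine h3.trans (ENNReal.ofReal_le_ofReal ?_)
  have h4 := h (x * w.re) hxw (by nlinarith) (pr (PX x)) fun p hp => pr_prime hp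
  have e1 : ∑ p ∈ pr (PX x), (p:ℝ) ^ (-(2 * (1 / 2 + (x:ℂ) * w).re)) = ∑ p ∈ pr (PX x), (p:ℝ) ^ (-(1 + 2 * (x * w.re))) := by
    refine Finset.sum_congr rfl fun p _ => ?_
    rw [Fw_re]
    congr 1
    ring
  rw [e1]
  have h5 : -Real.log (2 * (x * w.re)) ≤ -Real.log x := by
    have := Real.log_le_log hx (show x ≤ 2 * (x * w.re) by nlinarith)
    linarith
  have h6 : k ^ 2 * ∑ p ∈ pr (PX x), (p:ℝ) ^ (-(1 + 2 * (x * w.re))) ≤ k ^ 2 * (-Real.log x + C) := mul_le_mul_of_nonneg_left (by linarith) (sq_nonneg _)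
  have e2 : Real.exp (k ^ 2 * C + CN |k| * KS) * x ^ (-k ^ 2) = Real.exp (k ^ 2 * C + CN |k| * KS + Real.log x * (-k ^ 2)) := by
    rw [Real.rpow_def_of_pos hx, ← Real.exp_add]
  rw [e2]
  refine Real.exp_le_exp.mpr ?_
  linarith

lemma Fw_diff (x : ℝ) (hx : 0 < x) (ω : ℕ → ℝ) : DifferentiableOn ℂ (fun w => Fw x w ω) {w : ℂ | 0 < w.re} := by
  intro w hw
  have hw' : 0 < w.re := hw
  refine DifferentiableAt.differentiableWithinAt ?_
  unfold Fw Xs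
  refine DifferentiableAt.cexp ?_
  refine DifferentiableAt.fun_sum fun p hp => ?_
  have hp2 := pr_two hp
  have hp0 : (p:ℂ) ≠ 0 := by exact_mod_cast (by omega : p ≠ 0)
  have h1 : DifferentiableAt ℂ (fun w : ℂ => (p:ℂ) ^ (-(1 / 2 + (x:ℂ) * w)) * ec (ω p)) w := by
    refine DifferentiableAt.mul_const ?_ _
    exact DifferentiableAt.const_cpow (by fun_prop) (Or.inl hp0)
  have h2 : ‖(p:ℂ) ^ (-(1 / 2 + (x:ℂ) * w)) * ec (ω p)‖ < 1 := arg_lt hp2 (by rw [Fw_re]; positivity) _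
  exact DifferentiableAt.comp (g := el) (f := fun w : ℂ => (p:ℂ) ^ (-(1 / 2 + (x:ℂ) * w)) * ec (ω p)) w (el_analytic h2) h1

lemma Fw_meas (x : ℝ) : Measurable fun q : ℂ × (ℕ → ℝ) => Fw x q.1 q.2 := by
  unfold Fw
  refine Complex.measurable_exp.comp (Xs_meas2 (fun p hp => pr_two hp) ?_ measurable_snd)
  fun_prop

/-- the majorant -/
theorem maj {k : ℝ} (hk : 0 < k) : ∃ C : ℝ, 0 < C ∧ ∀ x : ℝ, 0 < x → x ≤ 1 → ∃ Γ : (ℕ → ℝ) → ℝ≥0∞,
    ∫⁻ ω, Γ ω ∂tm ≤ ENNReal.ofReal (C * x ^ (-k ^ 2)) ∧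
    ∀ ω, ∀ w : ℂ, 3 / 4 ≤ w.re → w.re ≤ 5 / 4 → ‖Fw x w ω‖ₑ ^ (2 * k) ≤ ENNReal.ofReal ((1 + |w.im|) ^ 2) * Γ ω := by
  obtain ⟨C0, hC0, hsup⟩ := sup_le_area (β := 2 * k) (by positivity) (a := 3 / 4) (b := 5 / 4) (a' := 1 / 2) (b' := 3 / 2) (B := 1 / 4) (B' := 1 / 2)
    (by norm_num) (by norm_num) (by norm_num)
  obtain ⟨C1, hC1, hE⟩ := EFw k
  obtain ⟨R, hR⟩ : ∃ R : Set ℂ, R = rc (1 / 2) (3 / 2) (1 / 2) := ⟨_, rfl⟩
  have hRc : IsCompact R := by rw [hR]; exact rc_compact _ _ _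
  have hVf : volume R ≠ ∞ := hRc.measure_lt_top.ne
  obtain ⟨V, hV⟩ : ∃ V : ℝ, V = (volume R).toReal := ⟨_, rfl⟩
  have hV0 : 0 ≤ V := by rw [hV]; exact ENNReal.toReal_nonneg
  have hVe : volume R = ENNReal.ofReal V := by rw [hV, ENNReal.ofReal_toReal hVf]
  refine ⟨4 * C0 * (Real.pi * (V * C1)) + 1, by positivity, fun x hx hx1 => ?_⟩
  obtain ⟨g, hg⟩ : ∃ g : ℝ → ℂ → (ℕ → ℝ) → ℝ≥0∞, ∀ t w ω, g t w ω = ‖Fw x (w + (t:ℂ) * Complex.I) ω‖ₑ ^ (2 * k) := ⟨fun t w ω => _, fun _ _ _ => rfl⟩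
  have hgm : Measurable fun q : (ℝ × ℂ) × (ℕ → ℝ) => g q.1.1 q.1.2 q.2 := by
    simp_rw [hg]
    refine ((Fw_meas x).comp (f := fun q : (ℝ × ℂ) × (ℕ → ℝ) => ((q.1.2 + (q.1.1:ℂ) * Complex.I, q.2) : ℂ × (ℕ → ℝ))) ?_).enorm.pow_const _
    fun_prop
  obtain ⟨Γ, hΓ⟩ : ∃ Γ : (ℕ → ℝ) → ℝ≥0∞, ∀ ω, Γ ω = ENNReal.ofReal (4 * C0) * ∫⁻ t : ℝ, ENNReal.ofReal ((1 + t ^ 2)⁻¹) * ∫⁻ w in R, g t w ω := ⟨fun ω => _, fun _ => rfl⟩
  refine ⟨Γ, ?_, fun ω w h1 h2 => ?_⟩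
  · simp_rw [hΓ]
    have hm1 : Measurable fun q : ℝ × (ℕ → ℝ) => ∫⁻ w in R, g q.1 w q.2 := by
      have h3 : Measurable fun q : (ℝ × (ℕ → ℝ)) × ℂ => g q.1.1 q.2 q.1.2 := hgm.comp (f := fun q : (ℝ × (ℕ → ℝ)) × ℂ => (((q.1.1, q.2), q.1.2) : (ℝ × ℂ) × (ℕ → ℝ))) (by fun_prop)
      exact h3.lintegral_prod_right' (ν := volume.restrict R)
    have hm2 : Measurable fun q : ℝ × (ℕ → ℝ) => ENNReal.ofReal ((1 + q.1 ^ 2)⁻¹) * ∫⁻ w in R, g q.1 w q.2 := by
      refine Measurable.mul ?_ hm1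
      fun_prop
    rw [lintegral_const_mul' _ _ ENNReal.ofReal_ne_top, lintegral_lintegral_swap (μ := tm) (ν := volume) (f := fun ω t => ENNReal.ofReal ((1 + t ^ 2)⁻¹) * ∫⁻ w in R, g t w ω)
      (hm2.comp (f := fun q : (ℕ → ℝ) × ℝ => ((q.2, q.1) : ℝ × (ℕ → ℝ))) (by fun_prop)).aemeasurable]
    have hin : ∀ t : ℝ, ∫⁻ ω, ENNReal.ofReal ((1 + t ^ 2)⁻¹) * (∫⁻ w in R, g t w ω) ∂tm ≤ ENNReal.ofReal ((1 + t ^ 2)⁻¹) * ENNReal.ofReal (V * (C1 * x ^ (-k ^ 2))) := by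
      intro t
      rw [lintegral_const_mul' _ _ ENNReal.ofReal_ne_top]
      refine mul_le_mul_right ?_ _
      have hm3 : Measurable fun q : (ℕ → ℝ) × ℂ => g t q.2 q.1 := hgm.comp (f := fun q : (ℕ → ℝ) × ℂ => (((t, q.2), q.1) : (ℝ × ℂ) × (ℕ → ℝ))) (by fun_prop)
      rw [lintegral_lintegral_swap (μ := tm) (ν := volume.restrict R) (f := fun ω w => g t w ω) hm3.aemeasurable]
      have h5 : ∫⁻ w in R, ∫⁻ ω, g t w ω ∂tm ≤ ∫⁻ w in R, ENNReal.ofReal (C1 * x ^ (-k ^ 2)) := by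
        refine setLIntegral_mono measurable_const fun w hw => ?_
        simp_rw [hg]
        rw [hR] at hw
        obtain ⟨w1, w2, w3⟩ := hw
        exact hE x hx hx1 (w + (t:ℂ) * Complex.I) (by simpa using w1) (by simpa using w2)
      refine h5.trans (le_of_eq ?_)
      rw [setLIntegral_const, hVe, ← ENNReal.ofReal_mul (by positivity)]
      congr 1
      ring
    refine (mul_le_mul_right (lintegral_mono hin) _).trans ?_
    rw [lintegral_mul_const' _ _ ENNReal.ofReal_ne_top]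
    have h6 : ∫⁻ t : ℝ, ENNReal.ofReal ((1 + t ^ 2)⁻¹) = ENNReal.ofReal Real.pi := by
      rw [← ofReal_integral_eq_lintegral_ofReal integrable_inv_one_add_sq (Eventually.of_forall fun t => by positivity), integral_univ_inv_one_add_sq]
    rw [h6, ← ENNReal.ofReal_mul (by positivity), ← ENNReal.ofReal_mul (by positivity)]
    refine ENNReal.ofReal_le_ofReal ?_
    have h7 : 0 ≤ x ^ (-k ^ 2) := by positivity
    nlinarith
  · have hU : IsOpen {w : ℂ | 0 < w.re} := isOpen_lt continuous_const Complex.continuous_re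
    have hpt : ∀ t : ℝ, |w.im - t| ≤ 1 / 4 → ‖Fw x w ω‖ₑ ^ (2 * k) ≤ ENNReal.ofReal C0 * ∫⁻ v in R, g t v ω := by
      intro t ht
      have hd : DifferentiableOn ℂ (fun v => Fw x (v + (t:ℂ) * Complex.I) ω) {w : ℂ | 0 < w.re} := by
        refine (Fw_diff x hx ω).comp (f := fun v : ℂ => v + (t:ℂ) * Complex.I) (by fun_prop) fun v hv => ?_
        have hv' : 0 < v.re := hv
        show 0 < (v + (t:ℂ) * Complex.I).re
        simpa using hv'
      have hsub : rc (1 / 2) (3 / 2) (1 / 2) ⊆ {w : ℂ | 0 < w.re} := by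
        rintro v ⟨v1, -, -⟩
        show 0 < v.re
        linarith
      have h3 := hsup (fun v => Fw x (v + (t:ℂ) * Complex.I) ω) _ hU hsub hd (w - (t:ℂ) * Complex.I) ⟨by simpa using h1, by simpa using h2, by simpa using ht⟩
      rw [sub_add_cancel, ← hR] at h3
      have hint : IntegrableOn (fun v => ‖Fw x (v + (t:ℂ) * Complex.I) ω‖ ^ (2 * k)) R := by
        refine ContinuousOn.integrableOn_compact hRc ?_
        refine ContinuousOn.rpow_const ?_ fun _ _ => Or.inr (by positivity)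
        refine (hd.continuousOn.mono ?_).norm
        rw [hR]
        exact hsub
      have h4 := ENNReal.ofReal_le_ofReal h3
      rw [ENNReal.ofReal_mul hC0.le, ofReal_integral_eq_lintegral_ofReal hint (Eventually.of_forall fun v => by positivity)] at h4
      rw [← ofReal_norm, ENNReal.ofReal_rpow_of_nonneg (norm_nonneg _) (by positivity)]
      refine h4.trans (le_of_eq ?_)
      congr 1
      refine lintegral_congr fun v => ?_
      rw [hg, ← ofReal_norm, ENNReal.ofReal_rpow_of_nonneg (norm_nonneg _) (by positivity)]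
    -- integrate over the short interval
    obtain ⟨J, hJ⟩ : ∃ J : Set ℝ, J = Icc (w.im - 1 / 4) (w.im + 1 / 4) := ⟨_, rfl⟩
    have hJm : MeasurableSet J := by rw [hJ]; exact measurableSet_Icc
    have hvJ : volume J = ENNReal.ofReal (1 / 2) := by
      rw [hJ, Real.volume_Icc]
      congr 1
      ring
    have h8 : ‖Fw x w ω‖ₑ ^ (2 * k) * ENNReal.ofReal (1 / (4 * (1 + |w.im|) ^ 2)) ≤ ENNReal.ofReal C0 * ∫⁻ t : ℝ, ENNReal.ofReal ((1 + t ^ 2)⁻¹) * ∫⁻ v in R, g t v ω := by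
      calc ‖Fw x w ω‖ₑ ^ (2 * k) * ENNReal.ofReal (1 / (4 * (1 + |w.im|) ^ 2))
          = ∫⁻ t in J, ‖Fw x w ω‖ₑ ^ (2 * k) * ENNReal.ofReal (1 / (2 * (1 + |w.im|) ^ 2)) := by
            rw [setLIntegral_const, hvJ, mul_assoc, ← ENNReal.ofReal_mul (by positivity)]
            congr 2
            field_simp
            norm_num
        _ ≤ ∫⁻ t in J, ENNReal.ofReal ((1 + t ^ 2)⁻¹) * (ENNReal.ofReal C0 * ∫⁻ v in R, g t v ω) := by
            refine setLIntegral_mono' hJm fun t ht => ?_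
            rw [hJ] at ht
            have ht2 : |w.im - t| ≤ 1 / 4 := by
              rw [abs_le]
              constructor <;> linarith [ht.1, ht.2]
            rw [mul_comm (ENNReal.ofReal ((1 + t ^ 2)⁻¹))]
            refine mul_le_mul' (hpt t ht2) (ENNReal.ofReal_le_ofReal ?_)
            rw [one_div]
            refine inv_anti₀ (by positivity) ?_
            have h9 : |t| ≤ |w.im| + 1 / 4 := by
              have h10 := abs_sub_abs_le_abs_sub t w.im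
              rw [abs_sub_comm] at h10
              linarith
            have h11 : t ^ 2 ≤ (|w.im| + 1 / 4) ^ 2 := by
              rw [← sq_abs t]
              exact pow_le_pow_left₀ (abs_nonneg _) h9 2
            nlinarith [abs_nonneg w.im]
        _ ≤ ∫⁻ t : ℝ, ENNReal.ofReal ((1 + t ^ 2)⁻¹) * (ENNReal.ofReal C0 * ∫⁻ v in R, g t v ω) := setLIntegral_le_lintegral _ _
        _ = ENNReal.ofReal C0 * ∫⁻ t : ℝ, ENNReal.ofReal ((1 + t ^ 2)⁻¹) * ∫⁻ v in R, g t v ω := by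
            rw [← lintegral_const_mul' _ _ ENNReal.ofReal_ne_top]
            refine lintegral_congr fun t => ?_
            ring
    rw [hΓ]
    have h12 : ‖Fw x w ω‖ₑ ^ (2 * k) = ENNReal.ofReal (4 * (1 + |w.im|) ^ 2) * (‖Fw x w ω‖ₑ ^ (2 * k) * ENNReal.ofReal (1 / (4 * (1 + |w.im|) ^ 2))) := by
      rw [mul_comm (‖Fw x w ω‖ₑ ^ (2 * k)), ← mul_assoc, ← ENNReal.ofReal_mul (by positivity), mul_one_div_cancel (by positivity), ENNReal.ofReal_one, one_mul]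
    rw [h12]
    refine (mul_le_mul_right h8 _).trans (le_of_eq ?_)
    rw [← mul_assoc, ← mul_assoc, ← ENNReal.ofReal_mul (by positivity), ← ENNReal.ofReal_mul (by positivity)]
    congr 2
    ring

end Pool.Agent.H470
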