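import Pool.Agent.H470.To8

set_option autoImplicit false

/-! Normalised norms on the torus. -/

namespace Pool.Agent.H470

open MeasureTheory Filter Topology ProbabilityTheory Set
open scoped ENNReal

/-- the mass -/
noncomputable def mk (k : ℝ) (f : (ℕ → ℝ) → ℂ) : ℝ := ∫ ω, ‖f ω‖ ^ (2 * k) ∂tm

/-- bounded measurable functions -/
def Gd (f : (ℕ → ℝ) → ℂ) : Prop := Measurable f ∧ ∃ B : ℝ, ∀ ω, ‖f ω‖ ≤ B

/-- the exponent -/
noncomputable def kp (k : ℝ) : ℝ := min 1 (1 / (2 * k))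

/-- the normalised norm -/
noncomputable def nr (k x : ℝ) (f : (ℕ → ℝ) → ℂ) : ℝ := ((2 * x) ^ (k ^ 2) * mk k f) ^ kp k

lemma Gd.add {f g : (ℕ → ℝ) → ℂ} (hf : Gd f) (hg : Gd g) : Gd (fun ω => f ω + g ω) := by
  obtain ⟨h1, B1, hB1⟩ := hf
  obtain ⟨h2, B2, hB2⟩ := hg
  exact ⟨h1.add h2, B1 + B2, fun ω => (norm_add_le _ _).trans (add_le_add (hB1 ω) (hB2 ω))⟩

lemma Gd.const_mul {f : (ℕ → ℝ) → ℂ} (hf : Gd f) (c : ℂ) : Gd (fun ω => c * f ω) := by
  obtain ⟨h1, B1, hB1⟩ := hf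
  exact ⟨h1.const_mul c, ‖c‖ * B1, fun ω => by rw [norm_mul]; exact mul_le_mul_of_nonneg_left (hB1 ω) (norm_nonneg _)⟩

lemma Gd.neg {f : (ℕ → ℝ) → ℂ} (hf : Gd f) : Gd (fun ω => -f ω) := by
  obtain ⟨h1, B1, hB1⟩ := hf
  exact ⟨h1.neg, B1, fun ω => by rw [norm_neg]; exact hB1 ω⟩

lemma Gd.sub {f g : (ℕ → ℝ) → ℂ} (hf : Gd f) (hg : Gd g) : Gd (fun ω => f ω - g ω) := by
  have := hf.add hg.neg
  simpa [sub_eq_add_neg] using this

lemma Gd.const (c : ℂ) : Gd (fun _ => c) := ⟨measurable_const, ‖c‖, fun _ => le_rfl⟩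

lemma Gd.sum {ι : Type*} (s : Finset ι) {f : ι → (ℕ → ℝ) → ℂ} (hf : ∀ i ∈ s, Gd (f i)) : Gd (fun ω => ∑ i ∈ s, f i ω) := by
  classical
  induction s using Finset.induction_on with
  | empty =>
    simp only [Finset.sum_empty]
    exact Gd.const 0
  | insert a s ha ih =>
    simp only [Finset.sum_insert ha]
    exact (hf a (Finset.mem_insert_self a s)).add (ih fun i hi => hf i (Finset.mem_insert_of_mem hi))

lemma Gd.intp {f : (ℕ → ℝ) → ℂ} (hf : Gd f) {p : ℝ} (hp : 0 ≤ p) : Integrable (fun ω => ‖f ω‖ ^ p) tm := by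
  obtain ⟨h1, B, hB⟩ := hf
  refine Integrable.of_bound (h1.norm.pow_const p).aestronglyMeasurable (B ^ p) (Eventually.of_forall fun ω => ?_)
  rw [Real.norm_of_nonneg (by positivity)]
  exact Real.rpow_le_rpow (norm_nonneg _) (hB ω) hp

lemma mk_nonneg (k : ℝ) (f : (ℕ → ℝ) → ℂ) : 0 ≤ mk k f := integral_nonneg fun ω => by positivity

lemma mk_eq {k : ℝ} (hk : 0 < k) {f : (ℕ → ℝ) → ℂ} (hf : Gd f) :
    eLpNorm' f (2 * k) tm = ENNReal.ofReal (mk k f ^ (1 / (2 * k))) := by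
  unfold mk
  rw [eLpNorm'_eq_lintegral_enorm, ← ENNReal.ofReal_rpow_of_nonneg (integral_nonneg fun t => by positivity) (by positivity),
    ofReal_integral_eq_lintegral_ofReal (hf.intp (by positivity)) (Eventually.of_forall fun t => by positivity)]
  congr 1
  refine lintegral_congr fun t => ?_
  rw [← ofReal_norm, ENNReal.ofReal_rpow_of_nonneg (norm_nonneg _) (by positivity)]

lemma kp_pos {k : ℝ} (hk : 0 < k) : 0 < kp k := lt_min one_pos (by positivity)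

lemma mk_add {k : ℝ} (hk : 0 < k) {f g : (ℕ → ℝ) → ℂ} (hf : Gd f) (hg : Gd g) :
    mk k (fun ω => f ω + g ω) ^ kp k ≤ mk k f ^ kp k + mk k g ^ kp k := by
  rcases le_total (2 * k) 1 with h | h
  · have e1 : kp k = 1 := by
      unfold kp
      refine min_eq_left ?_
      rw [le_div_iff₀ (by positivity)]
      linarith
    rw [e1, Real.rpow_one, Real.rpow_one, Real.rpow_one]
    unfold mk
    rw [← integral_add (hf.intp (by positivity)) (hg.intp (by positivity))]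
    refine integral_mono ((hf.add hg).intp (by positivity)) ((hf.intp (by positivity)).add (hg.intp (by positivity))) fun ω => ?_
    show ‖f ω + g ω‖ ^ (2 * k) ≤ ‖f ω‖ ^ (2 * k) + ‖g ω‖ ^ (2 * k)
    exact (Real.rpow_le_rpow (norm_nonneg _) (norm_add_le _ _) (by positivity)).trans
      (Real.rpow_add_le_add_rpow (norm_nonneg _) (norm_nonneg _) (by positivity) h)
  · have e1 : kp k = 1 / (2 * k) := by
      unfold kp
      refine min_eq_right ?_
      rw [div_le_one (by positivity)]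
      exact h
    rw [e1]
    have h1 := eLpNorm'_add_le (μ := tm) (f := f) (g := g) hf.1.aestronglyMeasurable hg.1.aestronglyMeasurable h
    have e2 : f + g = fun t => f t + g t := rfl
    have h2 := mk_nonneg k f
    have h3 := mk_nonneg k g
    rw [e2, mk_eq hk (hf.add hg), mk_eq hk hf, mk_eq hk hg, ← ENNReal.ofReal_add (by positivity) (by positivity)] at h1
    exact (ENNReal.ofReal_le_ofReal_iff (by positivity)).mp h1

lemma nr_nonneg {k x : ℝ} (hx : 0 ≤ x) (f : (ℕ → ℝ) → ℂ) : 0 ≤ nr k x f := by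
  unfold nr
  have := mk_nonneg k f
  positivity

lemma nr_eq {k x : ℝ} (hx : 0 ≤ x) (f : (ℕ → ℝ) → ℂ) : nr k x f = ((2 * x) ^ (k ^ 2)) ^ kp k * mk k f ^ kp k := by
  unfold nr
  rw [Real.mul_rpow (by positivity) (mk_nonneg k f)]

lemma nr_add {k x : ℝ} (hk : 0 < k) (hx : 0 ≤ x) {f g : (ℕ → ℝ) → ℂ} (hf : Gd f) (hg : Gd g) :
    nr k x (fun ω => f ω + g ω) ≤ nr k x f + nr k x g := by
  rw [nr_eq hx, nr_eq hx, nr_eq hx, ← mul_add]
  exact mul_le_mul_of_nonneg_left (mk_add hk hf hg) (by positivity)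

lemma nr_neg {k x : ℝ} (f : (ℕ → ℝ) → ℂ) : nr k x (fun ω => -f ω) = nr k x f := by
  unfold nr mk
  simp_rw [norm_neg]

lemma nr_sub {k x : ℝ} (hk : 0 < k) (hx : 0 ≤ x) {f g : (ℕ → ℝ) → ℂ} (hf : Gd f) (hg : Gd g) :
    |nr k x f - nr k x g| ≤ nr k x (fun ω => f ω - g ω) := by
  have h1 := nr_add (f := fun ω => f ω - g ω) (g := g) hk hx (hf.sub hg) hg
  have h2 := nr_add (f := fun ω => g ω - f ω) (g := f) hk hx (hg.sub hf) hf
  simp only [sub_add_cancel] at h1 h2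
  have h3 : nr k x (fun ω => g ω - f ω) = nr k x (fun ω => f ω - g ω) := by
    rw [← nr_neg (fun ω => f ω - g ω)]
    simp only [neg_sub]
  rw [h3] at h2
  rw [abs_le]
  constructor <;> linarith

lemma nr_mono {k x : ℝ} (hk : 0 < k) (hx : 0 ≤ x) {f g : (ℕ → ℝ) → ℂ} (hf : Gd f) (hg : Gd g) (h : ∀ ω, ‖f ω‖ ≤ ‖g ω‖) : nr k x f ≤ nr k x g := by
  unfold nr mk
  refine Real.rpow_le_rpow (mul_nonneg (by positivity) (integral_nonneg fun ω => by positivity)) ?_ (kp_pos hk).le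
  refine mul_le_mul_of_nonneg_left (integral_mono (hf.intp (by positivity)) (hg.intp (by positivity)) fun ω => ?_) (by positivity)
  exact Real.rpow_le_rpow (norm_nonneg _) (h ω) (by positivity)

lemma nr_mul {k x : ℝ} (c : ℂ) (hx : 0 ≤ x) (f : (ℕ → ℝ) → ℂ) : nr k x (fun ω => c * f ω) = (‖c‖ ^ (2 * k)) ^ kp k * nr k x f := by
  unfold nr mk
  simp_rw [norm_mul, Real.mul_rpow (norm_nonneg _) (norm_nonneg _)]
  rw [integral_const_mul, ← Real.mul_rpow (by positivity) (mul_nonneg (by positivity) (integral_nonneg fun ω => by positivity))]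
  congr 1
  ring

/-- the mass from an extended bound -/
lemma mk_le {k : ℝ} (hk : 0 < k) {f : (ℕ → ℝ) → ℂ} (hf : Gd f) {b : ℝ} (hb : 0 ≤ b) (h : ∫⁻ ω, ‖f ω‖ₑ ^ (2 * k) ∂tm ≤ ENNReal.ofReal b) : mk k f ≤ b := by
  unfold mk
  rw [← ENNReal.ofReal_le_ofReal_iff hb, ofReal_integral_eq_lintegral_ofReal (hf.intp (by positivity)) (Eventually.of_forall fun ω => by positivity)]
  refine le_trans (le_of_eq (lintegral_congr fun ω => ?_)) h
  rw [← ofReal_norm, ENNReal.ofReal_rpow_of_nonneg (norm_nonneg _) (by positivity)]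

lemma mk_lint {k : ℝ} (hk : 0 < k) {f : (ℕ → ℝ) → ℂ} (hf : Gd f) : ∫⁻ ω, ‖f ω‖ₑ ^ (2 * k) ∂tm = ENNReal.ofReal (mk k f) := by
  unfold mk
  rw [ofReal_integral_eq_lintegral_ofReal (hf.intp (by positivity)) (Eventually.of_forall fun ω => by positivity)]
  refine lintegral_congr fun ω => ?_
  rw [← ofReal_norm, ENNReal.ofReal_rpow_of_nonneg (norm_nonneg _) (by positivity)]

/-- the norm from the majorant -/
theorem nr_maj {k : ℝ} (hk : 0 < k) {C x : ℝ} (hC : 0 < C) (hx : 0 < x) {Γ : (ℕ → ℝ) → ℝ≥0∞}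
    (hΓ : ∫⁻ ω, Γ ω ∂tm ≤ ENNReal.ofReal (C * x ^ (-k ^ 2))) {f : (ℕ → ℝ) → ℂ} (hf : Gd f) {c : ℝ} (hc : 0 < c)
    (h : ∀ ω, Γ ω ≠ ∞ → ‖f ω‖ ≤ c * (Γ ω).toReal ^ (1 / (2 * k))) :
    nr k x f ≤ (2 ^ (k ^ 2) * (c ^ (2 * k) * C)) ^ kp k := by
  have h1 : mk k f ≤ c ^ (2 * k) * (C * x ^ (-k ^ 2)) := by
    refine mk_le hk hf (by positivity) ?_
    rw [ENNReal.ofReal_mul (by positivity)]
    refine le_trans ?_ (mul_le_mul_right hΓ _)
    rw [← lintegral_const_mul' _ _ ENNReal.ofReal_ne_top]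
    refine lintegral_mono fun ω => ?_
    by_cases hω : Γ ω = ∞
    · rw [hω, ENNReal.mul_top (by rw [Ne, ENNReal.ofReal_eq_zero, not_le]; positivity)]
      exact le_top
    · have h2 := h ω hω
      have h3 : 0 ≤ (Γ ω).toReal := ENNReal.toReal_nonneg
      rw [← ofReal_norm, ENNReal.ofReal_rpow_of_nonneg (norm_nonneg _) (by positivity), ← ENNReal.ofReal_toReal hω, ← ENNReal.ofReal_mul (by positivity)]
      refine ENNReal.ofReal_le_ofReal ?_
      refine (Real.rpow_le_rpow (norm_nonneg _) h2 (by positivity)).trans (le_of_eq ?_)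
      rw [Real.mul_rpow hc.le (by positivity), ← Real.rpow_mul h3, one_div_mul_cancel (by positivity), Real.rpow_one]
  unfold nr
  refine Real.rpow_le_rpow (mul_nonneg (by positivity) (mk_nonneg k f)) ?_ (kp_pos hk).le
  refine (mul_le_mul_of_nonneg_left h1 (by positivity)).trans (le_of_eq ?_)
  have e1 : x ^ (k ^ 2) * x ^ (-k ^ 2) = 1 := by
    rw [← Real.rpow_add hx, add_neg_cancel, Real.rpow_zero]
  rw [Real.mul_rpow (by norm_num) hx.le]
  linear_combination (2:ℝ) ^ (k ^ 2) * c ^ (2 * k) * C * e1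

/-- the limit of the norm of a finite combination -/
theorem nr_lim {k : ℝ} (hk : 0 < k) {n : ℕ} (y : Fin n → ℝ) (c : Fin n → ℂ) :
    ∃ v : ℝ, Tendsto (fun x : ℝ => nr k x (fun ω => ∑ j, c j * Fp x (y j) ω)) (𝓝[>] 0) (𝓝 v) := by
  obtain ⟨ρ, -, -, h⟩ := fld_lim hk y
  have h1 := h (fun z => ‖∑ j, c j * z j‖ ^ (2 * k)) (by
    refine Continuous.rpow_const (by fun_prop) fun _ => Or.inr (by positivity)) (fun u z => by
    rw [← Real.mul_rpow (norm_nonneg _) (norm_nonneg _), ← norm_mul, Finset.mul_sum]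
    congr 2
    refine Finset.sum_congr rfl fun j _ => ?_
    rw [Pi.smul_apply, smul_eq_mul]
    ring)
  exact ⟨_, h1.rpow_const (Or.inr (kp_pos hk).le)⟩

end Pool.Agent.H470
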