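import Pool.Agent.H470.To29

set_option autoImplicit false

/-! Comparing partial sums at `N / m` and at `N`. -/

namespace Pool.Agent.H470

open MeasureTheory Filter Topology ProbabilityTheory Set

lemma Ndiv_ge {N m : ℕ} (hm : 1 ≤ m) (hN : m ≤ N) : 1 ≤ N / m ∧ N / m ≤ N ∧ (N:ℝ) / (2 * m) ≤ ((N / m : ℕ) : ℝ) := by
  have h1 : 1 ≤ N / m := (Nat.one_le_div_iff (by omega)).mpr hN
  have hm0 : (0:ℝ) < m := by exact_mod_cast hm
  refine ⟨h1, Nat.div_le_self _ _, ?_⟩
  have h2 : (N:ℝ) / m < ((N / m : ℕ) : ℝ) + 1 := by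
    rw [div_lt_iff₀ hm0]
    have h3 : N < (N / m + 1) * m := by
      have h4 := Nat.lt_mul_div_succ N (show 0 < m by omega)
      calc N < m * (N / m + 1) := h4
        _ = (N / m + 1) * m := by ring
    exact_mod_cast h3
  have h5 : (1:ℝ) ≤ ((N / m : ℕ) : ℝ) := by exact_mod_cast h1
  have h6 : (N:ℝ) / (2 * m) = (N:ℝ) / m / 2 := by
    field_simp
  rw [h6]
  linarith

/-- the difference as a weighted sum -/
lemma SS_diff {M N : ℕ} (h : M ≤ N) (ω : ℕ → ℝ) : SS N ω - SS M ω = WS (fun n => if M < n then 1 else 0) N ω := by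
  unfold SS WS
  rw [← Finset.sum_sdiff (Finset.Icc_subset_Icc_right h : Finset.Icc 1 M ⊆ Finset.Icc 1 N)]
  rw [← Finset.sum_sdiff (Finset.Icc_subset_Icc_right h : Finset.Icc 1 M ⊆ Finset.Icc 1 N)]
  have e1 : ∑ n ∈ Finset.Icc 1 M, (((if M < n then (1:ℝ) else 0) : ℝ) : ℂ) * (n:ℂ) ^ (-(1 / 2) : ℂ) * ch n ω = 0 := by
    refine Finset.sum_eq_zero fun n hn => ?_
    rw [Finset.mem_Icc] at hn
    rw [if_neg (by omega)]
    simp
  rw [e1, add_zero, add_sub_cancel_right]
  refine Finset.sum_congr rfl fun n hn => ?_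
  rw [Finset.mem_sdiff, Finset.mem_Icc, Finset.mem_Icc] at hn
  simp only
  rw [if_pos (by omega)]

lemma nr_zero_lim {k : ℝ} (hk : 0 < k) {f : ℕ → (ℕ → ℝ) → ℂ} {D : ℝ} (h : ∀ᶠ N in atTop, mk k (f N) ≤ D) :
    Tendsto (fun N => nr k (xN N) (f N)) atTop (𝓝 0) := by
  have h1 := (nr_tail hk D).comp xN_lim
  refine squeeze_zero' ?_ ?_ h1
  · filter_upwards [eventually_ge_atTop 3] with N hN
    exact nr_nonneg (xN_pos hN).le _
  · filter_upwards [h, eventually_ge_atTop 3] with N hN hN3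
    exact nr_le hk (xN_pos hN3).le hN

/-- low exponents -/
lemma div_lo {k : ℝ} (hk : 0 < k) (hk1 : k ≤ 1) {m : ℕ} (hm : 1 ≤ m) :
    Tendsto (fun N : ℕ => nr k (xN N) (fun ω => SS N ω - SS (N / m) ω)) atTop (𝓝 0) := by
  have hm0 : (0:ℝ) < m := by exact_mod_cast hm
  refine nr_zero_lim hk (D := (1 + Real.log (2 * m)) ^ k) ?_
  filter_upwards [eventually_ge_atTop m] with N hN
  obtain ⟨h1, h2, h3⟩ := Ndiv_ge hm hN
  have e1 : (fun ω => SS N ω - SS (N / m) ω) = WS (fun n => if N / m < n then 1 else 0) N := funext fun ω => SS_diff h2 ω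
  rw [e1]
  refine (mk_two hk hk1 (WS_gd _ _)).trans (Real.rpow_le_rpow (mk_nonneg _ _) ?_ hk.le)
  rw [WS_sq]
  have hA : (1:ℝ) ≤ ((N / m : ℕ) : ℝ) := by exact_mod_cast h1
  have hAN : ((N / m : ℕ) : ℝ) ≤ N := by exact_mod_cast h2
  have h4 := harm hA hAN
  have e2 : ∑ n ∈ Finset.Icc 1 N, (if N / m < n then (1:ℝ) else 0) ^ 2 / n = ∑ n ∈ (Finset.Icc 1 N).filter (fun n : ℕ => ((N / m : ℕ) : ℝ) < n), (1:ℝ) / n := by
    rw [Finset.sum_filter]
    refine Finset.sum_congr rfl fun n _ => ?_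
    by_cases h : N / m < n
    · rw [if_pos h, if_pos (by exact_mod_cast h)]; norm_num
    · rw [if_neg h, if_neg (by exact_mod_cast h)]; norm_num
  rw [e2]
  refine h4.trans ?_
  have hN0 : (0:ℝ) < N := by
    have : 0 < N := by omega
    exact_mod_cast this
  have h5 : Real.log N - Real.log ((N / m : ℕ) : ℝ) ≤ Real.log (2 * m) := by
    rw [← Real.log_div hN0.ne' (by linarith)]
    refine Real.log_le_log (by positivity) ?_
    rw [div_le_iff₀ (by linarith)]
    rw [div_le_iff₀ (by positivity)] at h3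
    linarith
  linarith

/-- high exponents -/
lemma div_hi {k : ℝ} (hk : 1 ≤ k) {m : ℕ} (hm : 1 ≤ m) :
    Tendsto (fun N : ℕ => nr k (xN N) (fun ω => SS N ω - SS (N / m) ω)) atTop (𝓝 0) := by
  have hk0 : 0 < k := by linarith
  have hm0 : (0:ℝ) < m := by exact_mod_cast hm
  obtain ⟨C, hC, htr⟩ := trf (p := 2 * k) (by linarith)
  have hkp := kp_pos hk0
  have key : ∀ e : ℝ, 0 < e → ∀ᶠ N : ℕ in atTop, nr k (xN N) (fun ω => SS N ω - SS (N / m) ω) ≤ e + (C * (e ^ (1 / kp k) + e)) ^ kp k := by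
    intro e he
    obtain ⟨η, hη, hη2, hnear⟩ := near_hi hk he
    have hlim2 : Tendsto (fun x : ℝ => (2 * x) ^ (k ^ 2)) (𝓝[>] 0) (𝓝 0) := by
      have h2 : Tendsto (fun x : ℝ => (2 * x) ^ (k ^ 2)) (𝓝 0) (𝓝 ((2 * 0) ^ (k ^ 2))) :=
        Tendsto.rpow_const (tendsto_id.const_mul 2) (Or.inr (by positivity))
      rw [mul_zero, Real.zero_rpow (by positivity)] at h2
      exact h2.mono_left nhdsWithin_le_nhds
    have hll : ∀ᶠ N : ℕ in atTop, Real.log (2 * m) * xN N ≤ η / 2 := by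
      have h1 : Tendsto (fun x : ℝ => Real.log (2 * m) * x) (𝓝[>] 0) (𝓝 (Real.log (2 * m) * 0)) :=
        (tendsto_id.const_mul _).mono_left nhdsWithin_le_nhds
      rw [mul_zero] at h1
      have h2 := (h1.comp xN_lim).eventually (gt_mem_nhds (show (0:ℝ) < η / 2 by positivity))
      filter_upwards [h2] with N hN using hN.le
    filter_upwards [hnear, xN_lim.eventually (hlim2.eventually (gt_mem_nhds he)), hll, eventually_ge_atTop 3, eventually_ge_atTop m] with N h1 h2 h3 hN hNm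
    obtain ⟨g1, g2, g3⟩ := Ndiv_ge hm hNm
    have hx := xN_pos hN
    obtain ⟨w, hw⟩ : ∃ w : ℕ → ℝ, w = fun n : ℕ => 1 - fi η (xN N * Real.log n) := ⟨_, rfl⟩
    have e2 : (fun ω => SS N ω - Ig (fi η) (xN N) ω) = WS w N := by rw [hw]; exact SS_sub' hN hη
    rw [e2] at h1
    have hw1 : ∀ n, |w n| ≤ 1 := by
      intro n
      rw [hw]
      have a1 := fi_nonneg η (xN N * Real.log n)
      have a2 : fi η (xN N * Real.log n) ≤ 1 := by
        unfold fi
        have b1 := Real.smoothTransition.le_one (1 + xN N * Real.log n)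
        have b2 := Real.smoothTransition.nonneg (1 + xN N * Real.log n)
        have b3 := Real.smoothTransition.le_one (2 + 2 * ((xN N * Real.log n - 1) / η))
        have b4 := Real.smoothTransition.nonneg (2 + 2 * ((xN N * Real.log n - 1) / η))
        nlinarith
      rw [abs_le]
      constructor <;> simp only <;> linarith
    have e3 : (fun ω => SS N ω - SS (N / m) ω) = fun ω => WS w N ω - WS w (N / m) ω := by
      funext ω
      unfold SS WS
      rw [← Finset.sum_sdiff (Finset.Icc_subset_Icc_right g2 : Finset.Icc 1 (N / m) ⊆ Finset.Icc 1 N)]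
      rw [← Finset.sum_sdiff (Finset.Icc_subset_Icc_right g2 : Finset.Icc 1 (N / m) ⊆ Finset.Icc 1 N)]
      rw [add_sub_cancel_right, add_sub_cancel_right]
      refine Finset.sum_congr rfl fun n hn => ?_
      rw [Finset.mem_sdiff, Finset.mem_Icc, Finset.mem_Icc] at hn
      have hn1 : N / m < n := by omega
      have hn2 : ((N / m : ℕ) : ℝ) ≤ n := by exact_mod_cast hn1.le
      have hN0 : (0:ℝ) < N := by
        have : 0 < N := by omega
        exact_mod_cast this
      have b1 : Real.log N - Real.log (2 * m) ≤ Real.log n := by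
        rw [← Real.log_div hN0.ne' (by positivity)]
        exact Real.log_le_log (by positivity) (g3.trans hn2)
      have b2 : 1 - η / 2 ≤ xN N * Real.log n := by
        have b3 : xN N * Real.log N = 1 := by
          unfold xN
          have := log_N hN
          field_simp
        have b4 := mul_le_mul_of_nonneg_left b1 hx.le
        rw [mul_sub, b3] at b4
        linarith [mul_comm (xN N) (Real.log (2 * m))]
      rw [hw]
      simp only
      rw [fi_zero hη b2, sub_zero]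
    rw [e3]
    have e4 := nr_add hk0 hx.le (WS_gd w N) (WS_gd w (N / m)).neg
    simp only [← sub_eq_add_neg] at e4
    rw [nr_neg] at e4
    refine e4.trans (add_le_add h1 ?_)
    have h5 := htr (N / m) N g1 g2 w hw1
    have h6 : (2 * xN N) ^ (k ^ 2) * mk k (WS w N) ≤ e ^ (1 / kp k) := by
      have h7 := Real.rpow_le_rpow (nr_nonneg hx.le _) h1 (show 0 ≤ 1 / kp k by positivity)
      unfold nr at h7
      rw [← Real.rpow_mul (mul_nonneg (by positivity) (mk_nonneg _ _)), mul_one_div_cancel hkp.ne', Real.rpow_one] at h7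
      exact h7
    unfold nr
    refine Real.rpow_le_rpow (mul_nonneg (by positivity) (mk_nonneg _ _)) ?_ hkp.le
    have h9 : mk k (WS w (N / m)) ≤ C * (mk k (WS w N) + 1) := h5
    have h10 := mul_le_mul_of_nonneg_left h9 (show 0 ≤ (2 * xN N) ^ (k ^ 2) by positivity)
    refine h10.trans ?_
    have h11 : C * ((2 * xN N) ^ (k ^ 2) * mk k (WS w N) + (2 * xN N) ^ (k ^ 2)) ≤ C * (e ^ (1 / kp k) + e) :=
      mul_le_mul_of_nonneg_left (add_le_add h6 h2.le) hC.le
    exact le_trans (le_of_eq (by ring)) h11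
  have hE : Tendsto (fun e : ℝ => e + (C * (e ^ (1 / kp k) + e)) ^ kp k) (𝓝[>] 0) (𝓝 0) := by
    have h1 : Tendsto (fun e : ℝ => e + (C * (e ^ (1 / kp k) + e)) ^ kp k) (𝓝 0) (𝓝 (0 + (C * ((0:ℝ) ^ (1 / kp k) + 0)) ^ kp k)) := by
      refine tendsto_id.add (Tendsto.rpow_const ?_ (Or.inr hkp.le))
      exact ((Tendsto.rpow_const tendsto_id (Or.inr (by positivity))).add tendsto_id).const_mul C
    rw [Real.zero_rpow (by positivity)] at h1
    simp only [add_zero, mul_zero, Real.zero_rpow hkp.ne'] at h1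
    exact h1.mono_left nhdsWithin_le_nhds
  rw [Metric.tendsto_nhds]
  intro d hd
  obtain ⟨e, he, he2⟩ := ((hE.eventually (gt_mem_nhds hd)).and self_mem_nhdsWithin).exists
  filter_upwards [key e he2, eventually_ge_atTop 3] with N h1 hN
  rw [Real.dist_eq, sub_zero, abs_of_nonneg (nr_nonneg (xN_pos hN).le _)]
  exact h1.trans_lt he

/-- **the partial sums at `N / m` and at `N` agree in the mean** -/
theorem div_lim {k : ℝ} (hk : 0 < k) {m : ℕ} (hm : 1 ≤ m) :
    Tendsto (fun N : ℕ => nr k (xN N) (fun ω => SS N ω - SS (N / m) ω)) atTop (𝓝 0) := by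
  rcases le_total k 1 with h | h
  · exact div_lo hk h hm
  · exact div_hi h hm

/-- uniform bound -/
theorem SS_ubd {k : ℝ} (hk : 0 < k) : ∃ C : ℝ, 0 < C ∧ ∀ N : ℕ, 3 ≤ N → ∀ M : ℕ, M ≤ N → nr k (xN N) (SS M) ≤ C := by
  obtain ⟨c, hc, hlim⟩ := mk_SS hk
  have hkp := kp_pos hk
  have h1 : ∀ᶠ N : ℕ in atTop, mk k (SS N) ≤ (c + 1) * Real.log N ^ (k ^ 2) := by
    filter_upwards [hlim.eventually (gt_mem_nhds (show c < c + 1 by linarith)), eventually_ge_atTop 3] with N h hN
    have := log_N hN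
    rw [div_lt_iff₀ (by positivity)] at h
    exact h.le
  obtain ⟨N0, hN0⟩ := eventually_atTop.mp h1
  obtain ⟨B, hB⟩ : ∃ B : ℝ, ∀ M : ℕ, M ≤ N0 → mk k (SS M) ≤ B := by
    refine ⟨∑ M ∈ Finset.range (N0 + 1), mk k (SS M), fun M hM => ?_⟩
    exact Finset.single_le_sum (f := fun M => mk k (SS M)) (fun i _ => mk_nonneg _ _) (Finset.mem_range.mpr (by omega))
  have hB0 : 0 ≤ B := (mk_nonneg k (SS 0)).trans (hB 0 (Nat.zero_le _))
  refine ⟨(2 ^ (k ^ 2) * (c + 1 + B)) ^ kp k, by positivity, fun N hN M hM => ?_⟩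
  have hl := log_N hN
  have h2 : mk k (SS M) ≤ (c + 1 + B) * Real.log N ^ (k ^ 2) := by
    have h3 : (1:ℝ) ≤ Real.log N ^ (k ^ 2) := Real.one_le_rpow hl (by positivity)
    rcases le_total N0 M with h | h
    · have h4 := hN0 M h
      have h5 : Real.log M ^ (k ^ 2) ≤ Real.log N ^ (k ^ 2) := by
        rcases Nat.eq_zero_or_pos M with h0 | h0
        · rw [h0]
          simp only [Nat.cast_zero, Real.log_zero]
          rw [Real.zero_rpow (by positivity)]
          positivity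
        · refine Real.rpow_le_rpow (Real.log_nonneg (by exact_mod_cast h0)) (Real.log_le_log (by exact_mod_cast h0) (by exact_mod_cast hM)) (by positivity)
      nlinarith
    · have h4 := hB M h
      nlinarith
  unfold nr
  refine Real.rpow_le_rpow (mul_nonneg (by have := xN_pos hN; positivity) (mk_nonneg _ _)) ?_ hkp.le
  have e1 : (2 * xN N) ^ (k ^ 2) * Real.log N ^ (k ^ 2) = 2 ^ (k ^ 2) := by
    rw [← Real.mul_rpow (by have := xN_pos hN; positivity) (by linarith)]
    unfold xN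
    congr 1
    field_simp
  have hx := xN_pos hN
  calc (2 * xN N) ^ (k ^ 2) * mk k (SS M) ≤ (2 * xN N) ^ (k ^ 2) * ((c + 1 + B) * Real.log N ^ (k ^ 2)) := mul_le_mul_of_nonneg_left h2 (by positivity)
    _ = 2 ^ (k ^ 2) * (c + 1 + B) := by rw [← e1]; ring

end Pool.Agent.H470
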