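import Pool.Agent.H470.Ua1

set_option autoImplicit false

/-! Rotations of the torus. -/

namespace Pool.Agent.H470

open MeasureTheory Filter Topology ProbabilityTheory Set
open Pool.Agent.TH806 (ec ec_norm ec_cont uu integrable_uu ec_add ec_int)

/-- the rotation of one coordinate -/
noncomputable def r1 (θ x : ℝ) : ℝ := ((AddCircle.equivIoc (1:ℝ) 0 (((x + θ : ℝ) : AddCircle (1:ℝ))) : Ioc (0:ℝ) (0 + 1)) : ℝ)

lemma r1_coe (θ x : ℝ) : ((r1 θ x : ℝ) : AddCircle (1:ℝ)) = ((x + θ : ℝ) : AddCircle (1:ℝ)) := by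
  unfold r1
  exact AddCircle.coe_equivIoc

lemma ec_coe {a b : ℝ} (h : (a : AddCircle (1:ℝ)) = (b : AddCircle (1:ℝ))) : ec a = ec b := by
  rw [QuotientAddGroup.eq] at h
  obtain ⟨n, hn⟩ := AddSubgroup.mem_zmultiples_iff.mp h
  have h1 : b = a + n := by
    simp only [zsmul_eq_mul, mul_one] at hn
    linarith
  rw [h1, ec_add, ec_int, mul_one]

lemma ec_r1 (θ x : ℝ) : ec (r1 θ x) = ec x * ec θ := by
  rw [ec_coe (r1_coe θ x), ec_add]

lemma r1_mp (θ : ℝ) : MeasurePreserving (r1 θ) uu uu := by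
  have : Fact ((0:ℝ) < 1) := ⟨one_pos⟩
  have h1 : MeasurePreserving (fun x : ℝ => (x : AddCircle (1:ℝ))) (volume.restrict (Ioc (0:ℝ) (0 + 1))) volume := AddCircle.measurePreserving_mk 1 0
  have h2 : MeasurePreserving (fun z : AddCircle (1:ℝ) => z + (θ : AddCircle (1:ℝ))) volume volume := measurePreserving_add_right volume _
  have h3 := AddCircle.measurePreserving_equivIoc (1:ℝ) (a := 0)
  have h4 : MeasurePreserving (Subtype.val : Ioc (0:ℝ) (0 + 1) → ℝ) (Measure.comap Subtype.val volume) (volume.restrict (Ioc (0:ℝ) (0 + 1))) :=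
    ⟨measurable_subtype_coe, map_comap_subtype_coe measurableSet_Ioc _⟩
  have h5 := h4.comp (h3.comp (h2.comp h1))
  have e1 : volume.restrict (Ioc (0:ℝ) (0 + 1)) = uu := by
    rw [zero_add]
    rfl
  rw [e1] at h5
  exact h5

/-- the rotation of the torus -/
noncomputable def rot (θ : ℕ → ℝ) (ω : ℕ → ℝ) : ℕ → ℝ := fun i => r1 (θ i) (ω i)

lemma rot_mp (θ : ℕ → ℝ) : MeasurePreserving (rot θ) tm tm := by
  have hm : ∀ i, Measurable (r1 (θ i)) := fun i => (r1_mp (θ i)).measurable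
  refine ⟨measurable_pi_lambda _ fun i => (hm i).comp (measurable_pi_apply i), ?_⟩
  unfold tm rot
  rw [Measure.infinitePi_map_pi (μ := fun _ : ℕ => uu) (f := fun i => r1 (θ i)) hm]
  congr 1
  funext i
  exact (r1_mp (θ i)).map_eq

lemma ch_rot (n : ℕ) (θ ω : ℕ → ℝ) : ch n (rot θ ω) = ch n ω * ch n θ := by
  unfold ch rot
  unfold Finsupp.prod
  rw [← Finset.prod_mul_distrib]
  refine Finset.prod_congr rfl fun p _ => ?_
  simp only
  rw [ec_r1, mul_pow]

lemma ec_surj {z : ℂ} (h : ‖z‖ = 1) : ∃ x : ℝ, ec x = z := by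
  refine ⟨z.arg / (2 * Real.pi), ?_⟩
  unfold ec
  have h1 : 2 * Real.pi * (z.arg / (2 * Real.pi)) = z.arg := by field_simp
  rw [h1]
  have h2 := Complex.norm_mul_exp_arg_mul_I z
  rw [h] at h2
  simpa using h2

/-- a completely multiplicative function of modulus one is a point of the torus -/
lemma ch_ex {ψ : ℕ → ℂ} (h1 : ∀ n, n ≠ 0 → ‖ψ n‖ = 1) (h2 : ∀ m n, m ≠ 0 → n ≠ 0 → ψ (m * n) = ψ m * ψ n) :
    ∃ θ : ℕ → ℝ, ∀ n, n ≠ 0 → ch n θ = ψ n := by
  have h3 : ∀ p : ℕ, ∃ x : ℝ, p ≠ 0 → ec x = ψ p := by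
    intro p
    by_cases hp : p = 0
    · exact ⟨0, fun h => absurd hp h⟩
    · obtain ⟨x, hx⟩ := ec_surj (h1 p hp)
      exact ⟨x, fun _ => hx⟩
  choose θ hθ using h3
  refine ⟨θ, fun n => ?_⟩
  induction n using Nat.strong_induction_on with
  | _ n ih =>
    intro hn
    by_cases hn1 : n = 1
    · subst hn1
      rw [ch_one]
      have h4 := h2 1 1 one_ne_zero one_ne_zero
      rw [mul_one] at h4
      have h5 : ψ 1 ≠ 0 := by
        intro h
        have := h1 1 one_ne_zero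
        rw [h, norm_zero] at this
        exact zero_ne_one this
      have h6 : ψ 1 * (ψ 1 - 1) = 0 := by linear_combination -h4
      rcases mul_eq_zero.mp h6 with h7 | h7
      · exact absurd h7 h5
      · exact (sub_eq_zero.mp h7).symm
    · obtain ⟨p, hp, hpn⟩ := Nat.exists_prime_and_dvd hn1
      obtain ⟨m, hm⟩ := hpn
      have hm0 : m ≠ 0 := by
        rintro rfl
        exact hn (by rw [hm, mul_zero])
      have hlt : m < n := by
        rw [hm]
        have := hp.two_le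
        have := Nat.pos_of_ne_zero hm0
        nlinarith
      rw [hm, ch_mul hp.ne_zero hm0, ch_prime hp, hθ p hp.ne_zero, ih m hlt hm0, h2 p m hp.ne_zero hm0]

end Pool.Agent.H470
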