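import Pool.Agent.H470.Ua2

set_option autoImplicit false

/-! Removing finitely many Euler factors. -/

namespace Pool.Agent.H470

open MeasureTheory Filter Topology ProbabilityTheory Set
open Pool.Agent.TH806 (ec ec_norm ec_cont uu integrable_uu ec_add ec_int)

open Classical in
/-- the weight of the integers without prime factor in `S` -/
noncomputable def rw' (S : Finset ℕ) (n : ℕ) : ℝ := if ∀ p ∈ S, ¬ p ∣ n then 1 else 0

/-- the sum over these integers -/
noncomputable def RS (S : Finset ℕ) (M : ℕ) : (ℕ → ℝ) → ℂ := WS (rw' S) M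

/-- the product of the inverse Euler factors -/
noncomputable def ES (S : Finset ℕ) (ω : ℕ → ℝ) : ℂ := ∏ p ∈ S, (1 - (p:ℂ) ^ (-(1 / 2) : ℂ) * ch p ω)

lemma RS_gd (S : Finset ℕ) (M : ℕ) : Gd (RS S M) := WS_gd _ _

lemma sum_dvd (f : ℕ → ℂ) {p : ℕ} (hp : 1 ≤ p) (M : ℕ) :
    ∑ n ∈ (Finset.Icc 1 M).filter (fun n => p ∣ n), f n = ∑ n ∈ Finset.Icc 1 (M / p), f (p * n) := by
  symm
  refine Finset.sum_nbij' (fun n => p * n) (fun n => n / p) ?_ ?_ ?_ ?_ ?_
  · intro n hn
    rw [Finset.mem_Icc] at hn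
    rw [Finset.mem_filter, Finset.mem_Icc]
    refine ⟨⟨Nat.mul_pos hp hn.1, ?_⟩, dvd_mul_right _ _⟩
    calc p * n ≤ p * (M / p) := Nat.mul_le_mul_left _ hn.2
      _ ≤ M := Nat.mul_div_le _ _
  · intro n hn
    rw [Finset.mem_filter, Finset.mem_Icc] at hn
    rw [Finset.mem_Icc]
    obtain ⟨m, rfl⟩ := hn.2
    rw [Nat.mul_div_cancel_left _ hp]
    refine ⟨?_, ?_⟩
    · rcases Nat.eq_zero_or_pos m with h | h
      · rw [h] at hn; simp at hn
      · exact h
    · rw [Nat.le_div_iff_mul_le hp]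
      linarith [hn.1.2, mul_comm m p]
  · intro n _
    exact Nat.mul_div_cancel_left _ hp
  · intro n hn
    rw [Finset.mem_filter] at hn
    exact Nat.mul_div_cancel' hn.2
  · intro n _
    rfl

lemma half_mul (m n : ℕ) : ((m * n : ℕ) : ℂ) ^ (-(1 / 2) : ℂ) = (m:ℂ) ^ (-(1 / 2) : ℂ) * (n:ℂ) ^ (-(1 / 2) : ℂ) := by
  push_cast
  exact Complex.natCast_mul_natCast_cpow _ _ _

lemma RS_rec {S : Finset ℕ} (hS : ∀ q ∈ S, q.Prime) {p : ℕ} (hp : p.Prime) (hpS : p ∉ S) (M : ℕ) (ω : ℕ → ℝ) :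
    RS (insert p S) M ω = RS S M ω - (p:ℂ) ^ (-(1 / 2) : ℂ) * ch p ω * RS S (M / p) ω := by
  classical
  obtain ⟨g, hg⟩ : ∃ g : ℕ → ℂ, g = fun n : ℕ => (rw' S n : ℂ) * (n:ℂ) ^ (-(1 / 2) : ℂ) * ch n ω := ⟨_, rfl⟩
  have e1 : (p:ℂ) ^ (-(1 / 2) : ℂ) * ch p ω * RS S (M / p) ω = ∑ n ∈ Finset.Icc 1 (M / p), g (p * n) := by
    unfold RS WS
    rw [Finset.mul_sum, hg]
    refine Finset.sum_congr rfl fun n hn => ?_
    rw [Finset.mem_Icc] at hn
    have h1 : rw' S (p * n) = rw' S n := by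
      unfold rw'
      congr 1
      refine propext ⟨fun h q hq hqn => h q hq (dvd_mul_of_dvd_right hqn _), fun h q hq hqn => ?_⟩
      rcases (Nat.Prime.dvd_mul (hS q hq)).mp hqn with h2 | h2
      · rw [Nat.prime_dvd_prime_iff_eq (hS q hq) hp] at h2
        exact hpS (h2 ▸ hq)
      · exact h q hq h2
    simp only
    rw [h1, half_mul, ch_mul hp.ne_zero (by omega)]
    ring
  rw [e1, ← sum_dvd g hp.one_le, hg]
  unfold RS WS
  rw [Finset.sum_filter, ← Finset.sum_sub_distrib]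
  refine Finset.sum_congr rfl fun n _ => ?_
  by_cases h : p ∣ n
  · rw [if_pos h, sub_self]
    have h1 : rw' (insert p S) n = 0 := by
      unfold rw'
      rw [if_neg]
      intro h2
      exact h2 p (Finset.mem_insert_self _ _) h
    rw [h1]
    simp
  · rw [if_neg h, sub_zero]
    have h1 : rw' (insert p S) n = rw' S n := by
      unfold rw'
      congr 1
      refine propext ⟨fun h2 q hq => h2 q (Finset.mem_insert_of_mem hq), fun h2 q hq => ?_⟩
      rcases Finset.mem_insert.mp hq with h3 | h3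
      · rw [h3]; exact h
      · exact h2 q h3
    simp only [h1]

lemma RS_empty (M : ℕ) : RS ∅ M = SS M := by
  unfold RS SS
  unfold rw'
  simp

lemma half_le_one {p : ℕ} (hp : 1 ≤ p) : ‖(p:ℂ) ^ (-(1 / 2) : ℂ)‖ ≤ 1 := by
  rw [Complex.norm_natCast_cpow_of_pos (by omega)]
  have : (-(1 / 2) : ℂ).re = -(1 / 2) := by norm_num
  rw [this]
  exact Real.rpow_le_one_of_one_le_of_nonpos (by exact_mod_cast hp) (by norm_num)

lemma Gd.mulf {f g : (ℕ → ℝ) → ℂ} (hf : Gd f) (hg : Gd g) : Gd (fun ω => f ω * g ω) := by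
  obtain ⟨h1, B, h2⟩ := hf
  obtain ⟨h3, C, h4⟩ := hg
  refine ⟨h1.mul h3, B * C, fun ω => ?_⟩
  rw [norm_mul]
  exact mul_le_mul (h2 ω) (h4 ω) (norm_nonneg _) ((norm_nonneg _).trans (h2 ω))

lemma ch_gd (n : ℕ) : Gd (ch n) := ⟨(ch_cont n).measurable, 1, fun ω => (ch_norm n ω).le⟩

lemma ES_gd (S : Finset ℕ) : Gd (ES S) := by
  classical
  induction S using Finset.induction_on with
  | empty =>
    unfold ES
    simp only [Finset.prod_empty]
    exact Gd.const 1
  | insert p S hp ih =>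
    have e1 : ES (insert p S) = fun ω => (1 - (p:ℂ) ^ (-(1 / 2) : ℂ) * ch p ω) * ES S ω := by
      funext ω
      unfold ES
      rw [Finset.prod_insert hp]
    rw [e1]
    exact Gd.mulf ((Gd.const 1).sub ((ch_gd p).const_mul _)) ih

/-- **the rough sums are the product of the inverse Euler factors and the full sum** -/
theorem RS_lim {k : ℝ} (hk : 0 < k) (S : Finset ℕ) (hS : ∀ q ∈ S, q.Prime) : ∀ m : ℕ, 1 ≤ m →
    Tendsto (fun N : ℕ => nr k (xN N) (fun ω => RS S (N / m) ω - ES S ω * SS N ω)) atTop (𝓝 0) := by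
  classical
  induction S using Finset.induction_on with
  | empty =>
    intro m hm
    have h1 := div_lim hk hm
    refine h1.congr fun N => ?_
    rw [← nr_neg]
    congr 1
    funext ω
    rw [RS_empty]
    unfold ES
    simp
  | insert p S hp ih =>
    intro m hm
    have hpp : p.Prime := hS p (Finset.mem_insert_self _ _)
    have hS' : ∀ q ∈ S, q.Prime := fun q hq => hS q (Finset.mem_insert_of_mem hq)
    have h1 := ih hS' m hm
    have h2 := ih hS' (m * p) (Nat.mul_pos hm hpp.pos)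
    have h3 := h1.add h2
    rw [add_zero] at h3
    refine squeeze_zero' ?_ ?_ h3
    · filter_upwards [eventually_ge_atTop 3] with N hN
      exact nr_nonneg (xN_pos hN).le _
    · filter_upwards [eventually_ge_atTop 3] with N hN
      have hx := xN_pos hN
      have g1 : Gd (fun ω => RS S (N / m) ω - ES S ω * SS N ω) := (RS_gd _ _).sub ((ES_gd S).mulf (SS_gd N))
      have g2 : Gd (fun ω => RS S (N / (m * p)) ω - ES S ω * SS N ω) := (RS_gd _ _).sub ((ES_gd S).mulf (SS_gd N))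
      have g3 : Gd (fun ω => (p:ℂ) ^ (-(1 / 2) : ℂ) * ch p ω * (RS S (N / (m * p)) ω - ES S ω * SS N ω)) := ((ch_gd p).const_mul _).mulf g2
      have e1 : (fun ω => RS (insert p S) (N / m) ω - ES (insert p S) ω * SS N ω) =
          fun ω => (RS S (N / m) ω - ES S ω * SS N ω) + -((p:ℂ) ^ (-(1 / 2) : ℂ) * ch p ω * (RS S (N / (m * p)) ω - ES S ω * SS N ω)) := by
        funext ω
        rw [RS_rec hS' hpp hp, Nat.div_div_eq_div_mul]
        have e2 : ES (insert p S) ω = (1 - (p:ℂ) ^ (-(1 / 2) : ℂ) * ch p ω) * ES S ω := by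
          unfold ES
          rw [Finset.prod_insert hp]
        rw [e2]
        ring
      rw [e1]
      refine (nr_add hk hx.le g1 g3.neg).trans (add_le_add le_rfl ?_)
      rw [nr_neg]
      refine nr_mono hk hx.le g3 g2 fun ω => ?_
      rw [norm_mul, norm_mul, ch_norm, mul_one]
      exact mul_le_of_le_one_left (norm_nonneg _) (half_le_one hpp.one_le)

/-- uniform bound -/
theorem RS_ubd {k : ℝ} (hk : 0 < k) (S : Finset ℕ) (hS : ∀ q ∈ S, q.Prime) : ∃ C : ℝ, 0 < C ∧ ∀ N : ℕ, 3 ≤ N → ∀ M : ℕ, M ≤ N → nr k (xN N) (RS S M) ≤ C := by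
  classical
  induction S using Finset.induction_on with
  | empty =>
    obtain ⟨C, hC, h⟩ := SS_ubd hk
    exact ⟨C, hC, fun N hN M hM => by rw [RS_empty]; exact h N hN M hM⟩
  | insert p S hp ih =>
    have hpp : p.Prime := hS p (Finset.mem_insert_self _ _)
    have hS' : ∀ q ∈ S, q.Prime := fun q hq => hS q (Finset.mem_insert_of_mem hq)
    obtain ⟨C, hC, h⟩ := ih hS'
    refine ⟨C + C, by positivity, fun N hN M hM => ?_⟩
    have hx := xN_pos hN
    have g3 : Gd (fun ω => (p:ℂ) ^ (-(1 / 2) : ℂ) * ch p ω * RS S (M / p) ω) := ((ch_gd p).const_mul _).mulf (RS_gd _ _)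
    have e1 : RS (insert p S) M = fun ω => RS S M ω + -((p:ℂ) ^ (-(1 / 2) : ℂ) * ch p ω * RS S (M / p) ω) := by
      funext ω
      rw [RS_rec hS' hpp hp]
      ring
    rw [e1]
    refine (nr_add hk hx.le (RS_gd _ _) g3.neg).trans (add_le_add (h N hN M hM) ?_)
    rw [nr_neg]
    refine (nr_mono hk hx.le g3 (RS_gd S (M / p)) fun ω => ?_).trans (h N hN _ ((Nat.div_le_self _ _).trans hM))
    rw [norm_mul, norm_mul, ch_norm, mul_one]
    exact mul_le_of_le_one_left (norm_nonneg _) (half_le_one hpp.one_le)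

end Pool.Agent.H470
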