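import Pool.Agent.H470.Ua3

set_option autoImplicit false

/-! Finitely many modified Euler factors. -/

namespace Pool.Agent.H470

open MeasureTheory Filter Topology ProbabilityTheory Set
open Pool.Agent.TH806 (ec ec_norm ec_cont uu integrable_uu ec_add ec_int)

lemma sm_ne {P m : ℕ} (h : m ∈ (P + 1).smoothNumbers) : m ≠ 0 := Nat.ne_zero_of_mem_smoothNumbers h

lemma sm_iff {P m : ℕ} : m ∈ (P + 1).smoothNumbers ↔ m ≠ 0 ∧ ∀ p : ℕ, p.Prime → p ∣ m → p ≤ P := by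
  constructor
  · intro h
    exact ⟨sm_ne h, fun p hp hpm => Nat.lt_succ_iff.mp (Nat.mem_smoothNumbers'.mp h p hp hpm)⟩
  · rintro ⟨h1, h2⟩
    exact Nat.mem_smoothNumbers'.mpr fun p hp hpm => Nat.lt_succ_iff.mpr (h2 p hp hpm)

lemma dec_ex (P : ℕ) : ∀ n : ℕ, n ≠ 0 → ∃ m r : ℕ, m ∈ (P + 1).smoothNumbers ∧ (∀ p ∈ pr P, ¬ p ∣ r) ∧ n = m * r := by
  intro n
  induction n using Nat.strong_induction_on with
  | _ n ih =>
    intro hn
    by_cases hn1 : n = 1
    · refine ⟨1, 1, sm_iff.mpr ⟨one_ne_zero, fun p hp h => absurd (Nat.dvd_one.mp h) hp.one_lt.ne'⟩, fun p hp h => ?_, by rw [hn1]⟩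
      exact (pr_prime hp).one_lt.ne' (Nat.dvd_one.mp h)
    · obtain ⟨p, hp, n1, hn2⟩ := Nat.exists_prime_and_dvd hn1
      have hn0 : n1 ≠ 0 := by
        rintro rfl
        exact hn (by rw [hn2, mul_zero])
      have hlt : n1 < n := by
        rw [hn2]
        have := hp.two_le
        have := Nat.pos_of_ne_zero hn0
        nlinarith
      obtain ⟨m, r, h1, h2, h3⟩ := ih n1 hlt hn0
      by_cases hpP : p ≤ P
      · refine ⟨p * m, r, ?_, h2, by rw [hn2, h3]; ring⟩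
        rw [sm_iff] at h1 ⊢
        refine ⟨mul_ne_zero hp.ne_zero h1.1, fun q hq hqm => ?_⟩
        rcases (Nat.Prime.dvd_mul hq).mp hqm with h4 | h4
        · rw [(Nat.prime_dvd_prime_iff_eq hq hp).mp h4]; exact hpP
        · exact h1.2 q hq h4
      · refine ⟨m, p * r, h1, fun q hq hqr => ?_, by rw [hn2, h3]; ring⟩
        rcases (Nat.Prime.dvd_mul (pr_prime hq)).mp hqr with h4 | h4
        · rw [Nat.prime_dvd_prime_iff_eq (pr_prime hq) hp] at h4
          exact hpP (h4 ▸ pr_le hq)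
        · exact h2 q hq h4

lemma sr_cop {P m r : ℕ} (hm : m ∈ (P + 1).smoothNumbers) (hr : ∀ p ∈ pr P, ¬ p ∣ r) : Nat.Coprime m r := by
  rw [Nat.coprime_iff_gcd_eq_one]
  by_contra h
  obtain ⟨p, hp, hpg⟩ := Nat.exists_prime_and_dvd h
  have h1 := (Nat.dvd_gcd_iff.mp hpg)
  have h2 := (sm_iff.mp hm).2 p hp h1.1
  exact hr p (Finset.mem_filter.mpr ⟨Finset.mem_Icc.mpr ⟨hp.one_le, h2⟩, hp⟩) h1.2

open Classical in
/-- decomposition of a sum -/
lemma dec_sum (P : ℕ) (f : ℕ → ℂ) (N : ℕ) : ∑ n ∈ Finset.Icc 1 N, f n =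
    ∑ m ∈ (Finset.Icc 1 N).filter (fun m => m ∈ (P + 1).smoothNumbers), ∑ r ∈ (Finset.Icc 1 (N / m)).filter (fun r => ∀ p ∈ pr P, ¬ p ∣ r), f (m * r) := by
  rw [Finset.sum_sigma']
  symm
  refine Finset.sum_nbij (fun x : (_ : ℕ) × ℕ => x.1 * x.2) ?_ ?_ ?_ ?_
  · rintro ⟨m, r⟩ h
    simp only [Finset.mem_sigma, Finset.mem_filter, Finset.mem_Icc] at h ⊢
    obtain ⟨⟨⟨h1, h2⟩, h3⟩, ⟨h4, h5⟩, h6⟩ := h
    refine ⟨Nat.mul_pos h1 h4, ?_⟩
    calc m * r ≤ m * (N / m) := Nat.mul_le_mul_left _ h5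
      _ ≤ N := Nat.mul_div_le _ _
  · rintro ⟨m, r⟩ h ⟨m', r'⟩ h' he
    simp only [Finset.coe_sigma, Set.mem_sigma_iff, Finset.mem_coe, Finset.mem_filter, Finset.mem_Icc] at h h'
    obtain ⟨⟨⟨h1, h2⟩, h3⟩, ⟨h4, h5⟩, h6⟩ := h
    obtain ⟨⟨⟨g1, g2⟩, g3⟩, ⟨g4, g5⟩, g6⟩ := h'
    simp only at he
    have c1 := sr_cop h3 g6
    have c2 := sr_cop g3 h6
    have d1 : m ∣ m' := c1.dvd_of_dvd_mul_right (he ▸ dvd_mul_right m r)
    have d2 : m' ∣ m := c2.dvd_of_dvd_mul_right (he.symm ▸ dvd_mul_right m' r')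
    have d3 : m = m' := Nat.dvd_antisymm d1 d2
    subst d3
    have d4 : r = r' := Nat.eq_of_mul_eq_mul_left (by omega) he
    subst d4
    rfl
  · intro n hn
    simp only [Finset.mem_coe, Finset.mem_Icc] at hn
    obtain ⟨m, r, h1, h2, h3⟩ := dec_ex P n (by omega)
    have hr0 : r ≠ 0 := by
      rintro rfl
      rw [mul_zero] at h3
      omega
    have hm0 := sm_ne h1
    refine ⟨⟨m, r⟩, ?_, h3.symm⟩
    simp only [Finset.coe_sigma, Set.mem_sigma_iff, Finset.mem_coe, Finset.mem_filter, Finset.mem_Icc]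
    refine ⟨⟨⟨Nat.pos_of_ne_zero hm0, ?_⟩, h1⟩, ⟨Nat.pos_of_ne_zero hr0, ?_⟩, h2⟩
    · calc m ≤ m * r := Nat.le_mul_of_pos_right _ (Nat.pos_of_ne_zero hr0)
        _ ≤ N := h3 ▸ hn.2
    · rw [Nat.le_div_iff_mul_le (Nat.pos_of_ne_zero hm0)]
      linarith [mul_comm m r, hn.2, h3.symm.le, h3.le]
  · intro x _
    rfl

/-- the sum with coefficients `a` -/
noncomputable def DA (a : ℕ → ℂ) (N : ℕ) (ω : ℕ → ℝ) : ℂ := ∑ n ∈ Finset.Icc 1 N, a n * (n:ℂ) ^ (-(1 / 2) : ℂ) * ch n ω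

/-- the sum over smooth numbers of rough sums -/
noncomputable def DB (c : ℕ → ℂ) (S : Finset ℕ) (N : ℕ) (ω : ℕ → ℝ) : ℂ := ∑ m ∈ Finset.Icc 1 N, c m * ch m ω * RS S (N / m) ω

lemma DA_gd (a : ℕ → ℂ) (N : ℕ) : Gd (DA a N) := Gd.sum _ fun n _ => (ch_gd n).const_mul _

lemma DB_gd (c : ℕ → ℂ) (S : Finset ℕ) (N : ℕ) : Gd (DB c S N) := Gd.sum _ fun m _ => ((ch_gd m).const_mul _).mulf (RS_gd _ _)

open Classical in
/-- the coefficients -/
noncomputable def cc (P : ℕ) (a : ℕ → ℂ) (m : ℕ) : ℂ := if m ∈ (P + 1).smoothNumbers then a m * (m:ℂ) ^ (-(1 / 2) : ℂ) else 0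

/-- a unimodular completely multiplicative function on the rough numbers is a point of the torus -/
lemma rough_ex (P : ℕ) {χ : ℕ → ℂ} (h1 : ∀ n, n ≠ 0 → (∀ p ∈ pr P, ¬ p ∣ n) → ‖χ n‖ = 1)
    (h2 : ∀ m n, m ≠ 0 → n ≠ 0 → (∀ p ∈ pr P, ¬ p ∣ m) → (∀ p ∈ pr P, ¬ p ∣ n) → χ (m * n) = χ m * χ n) :
    ∃ θ : ℕ → ℝ, (∀ n, n ≠ 0 → (∀ p ∈ pr P, ¬ p ∣ n) → ch n θ = χ n) ∧ ∀ m ∈ (P + 1).smoothNumbers, ch m θ = 1 := by
  have hr : ∀ p : ℕ, p.Prime → P < p → ∀ q ∈ pr P, ¬ q ∣ p := by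
    intro p hp hP q hq hqp
    rw [Nat.prime_dvd_prime_iff_eq (pr_prime hq) hp] at hqp
    have := pr_le hq
    omega
  have h3 : ∀ p : ℕ, ∃ x : ℝ, (p ≤ P → x = 0) ∧ (p.Prime → P < p → ec x = χ p) := by
    intro p
    by_cases hpP : p ≤ P
    · exact ⟨0, fun _ => rfl, fun _ h => by omega⟩
    · by_cases hp : p.Prime
      · obtain ⟨x, hx⟩ := ec_surj (h1 p hp.ne_zero (hr p hp (by omega)))
        exact ⟨x, fun h => absurd h hpP, fun _ _ => hx⟩
      · exact ⟨0, fun _ => rfl, fun h => absurd h hp⟩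
  choose θ hθ0 hθ using h3
  refine ⟨θ, fun n => ?_, fun m => ?_⟩
  · induction n using Nat.strong_induction_on with
    | _ n ih =>
      intro hn hnr
      by_cases hn1 : n = 1
      · subst hn1
        rw [ch_one]
        have h4 := h2 1 1 one_ne_zero one_ne_zero hnr hnr
        rw [mul_one] at h4
        have h5 : χ 1 ≠ 0 := by
          intro h
          have := h1 1 one_ne_zero hnr
          rw [h, norm_zero] at this
          exact zero_ne_one this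
        have h6 : χ 1 * (χ 1 - 1) = 0 := by linear_combination -h4
        rcases mul_eq_zero.mp h6 with h7 | h7
        · exact absurd h7 h5
        · exact (sub_eq_zero.mp h7).symm
      · obtain ⟨p, hp, hpn⟩ := Nat.exists_prime_and_dvd hn1
        have hPp : P < p := by
          by_contra hlt
          exact hnr p (Finset.mem_filter.mpr ⟨Finset.mem_Icc.mpr ⟨hp.one_le, by omega⟩, hp⟩) hpn
        obtain ⟨m, hm⟩ := hpn
        have hm0 : m ≠ 0 := by
          rintro rfl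
          exact hn (by rw [hm, mul_zero])
        have hlt : m < n := by
          rw [hm]
          have := hp.two_le
          have := Nat.pos_of_ne_zero hm0
          nlinarith
        have hmr : ∀ q ∈ pr P, ¬ q ∣ m := fun q hq hqm => hnr q hq (hm ▸ dvd_mul_of_dvd_right hqm _)
        rw [hm, ch_mul hp.ne_zero hm0, ch_prime hp, hθ p hp hPp, ih m hlt hm0 hmr, h2 p m hp.ne_zero hm0 (hr p hp hPp) hmr]
  · induction m using Nat.strong_induction_on with
    | _ n ih =>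
      intro hn
      by_cases hn1 : n = 1
      · subst hn1
        exact ch_one _
      · obtain ⟨p, hp, hpn⟩ := Nat.exists_prime_and_dvd hn1
        have hPp : p ≤ P := (sm_iff.mp hn).2 p hp hpn
        obtain ⟨m, hm⟩ := hpn
        have hm0 : m ≠ 0 := by
          rintro rfl
          exact sm_ne hn (by rw [hm, mul_zero])
        have hlt : m < n := by
          rw [hm]
          have := hp.two_le
          have := Nat.pos_of_ne_zero hm0
          nlinarith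
        have hms : m ∈ (P + 1).smoothNumbers := sm_iff.mpr ⟨hm0, fun q hq hqm => (sm_iff.mp hn).2 q hq (hm ▸ dvd_mul_of_dvd_right hqm _)⟩
        rw [hm, ch_mul hp.ne_zero hm0, ch_prime hp, hθ0 p hPp, ih m hlt hms, mul_one]
        have := ec_int 0
        simpa using this

/-- the sum is a rotation of the model sum -/
theorem DA_rot (P : ℕ) {a χ : ℕ → ℂ} (ha : ∀ m r, m ∈ (P + 1).smoothNumbers → r ≠ 0 → (∀ p ∈ pr P, ¬ p ∣ r) → a (m * r) = a m * χ r)
    {θ : ℕ → ℝ} (h1 : ∀ n, n ≠ 0 → (∀ p ∈ pr P, ¬ p ∣ n) → ch n θ = χ n) (h2 : ∀ m ∈ (P + 1).smoothNumbers, ch m θ = 1) (N : ℕ) (ω : ℕ → ℝ) :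
    DA a N ω = DB (cc P a) (pr P) N (rot θ ω) := by
  classical
  unfold DA DB
  rw [dec_sum P, Finset.sum_filter]
  refine Finset.sum_congr rfl fun m hm => ?_
  by_cases hs : m ∈ (P + 1).smoothNumbers
  · rw [if_pos hs]
    unfold cc RS WS
    rw [if_pos hs, Finset.mul_sum, Finset.sum_filter]
    refine Finset.sum_congr rfl fun r hr => ?_
    rw [Finset.mem_Icc] at hr
    have hr0 : r ≠ 0 := by omega
    by_cases hrr : ∀ p ∈ pr P, ¬ p ∣ r
    · have e1 : rw' (pr P) r = 1 := by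
        unfold rw'
        rw [if_pos hrr]
      rw [if_pos hrr, ha m r hs hr0 hrr, half_mul, ch_mul (sm_ne hs) hr0, ch_rot, ch_rot, h1 r hr0 hrr, h2 m hs, e1]
      push_cast
      ring
    · have e1 : rw' (pr P) r = 0 := by
        unfold rw'
        rw [if_neg hrr]
      rw [if_neg hrr, e1]
      simp
  · rw [if_neg hs]
    unfold cc
    rw [if_neg hs]
    simp

lemma mk_rot (k : ℝ) {f : (ℕ → ℝ) → ℂ} (hf : Gd f) (θ : ℕ → ℝ) : mk k (fun ω => f (rot θ ω)) = mk k f := by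
  unfold mk
  have h1 := (rot_mp θ).map_eq
  conv_rhs => rw [← h1]
  rw [integral_map (rot_mp θ).measurable.aemeasurable]
  exact ((hf.1.norm.pow_const (2 * k)).aestronglyMeasurable)

end Pool.Agent.H470
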