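import Pool.Agent.H470.Ua4
import Pool.Agent.H470.To31

set_option autoImplicit false

/-! The limit of the means with a local factor. -/

namespace Pool.Agent.H470

open MeasureTheory Filter Topology ProbabilityTheory Set
open Pool.Agent.TH806 (ec ec_norm ec_cont uu integrable_uu ec_add ec_int)

lemma xN_log {k : ℝ} {N : ℕ} (hN : 3 ≤ N) (v : ℝ) : (2 * xN N) ^ (k ^ 2) * v = 2 ^ (k ^ 2) * (v / Real.log N ^ (k ^ 2)) := by
  have hl := log_N hN
  unfold xN
  rw [Real.mul_rpow (by norm_num) (by positivity), Real.div_rpow zero_le_one (by linarith), Real.one_rpow]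
  ring

/-- the mean of a power of the partial sum against a local function -/
theorem SS_G {k : ℝ} (hk : 0 < k) : ∃ c : ℝ, 0 < c ∧ ∀ (P : ℕ) (G : (ℕ → ℝ) → ℝ), Measurable G → (∃ B : ℝ, ∀ ω, |G ω| ≤ B) → Dep (pr P) G →
    Tendsto (fun N : ℕ => (∫ ω, ‖SS N ω‖ ^ (2 * k) * G ω ∂tm) / Real.log N ^ (k ^ 2)) atTop (𝓝 (c * nuG k P G)) := by
  obtain ⟨L, hL⟩ := TG_lim (m := 1) hk (r := fun _ => 1) (fun _ => le_rfl) (fun _ => 0) (Φ := fun z => ‖z 0‖ ^ (2 * k))
    ((continuous_apply 0).norm.rpow_const fun _ => Or.inr (by positivity)) (by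
      intro c z
      simp only [Pi.smul_apply, smul_eq_mul, norm_mul]
      exact Real.mul_rpow (norm_nonneg _) (norm_nonneg _))
  simp only [Ts_one] at hL
  have h2 : (0:ℝ) < 2 ^ (k ^ 2) := by positivity
  have h3 : ∀ (P : ℕ) (G : (ℕ → ℝ) → ℝ), Measurable G → (∃ B : ℝ, ∀ ω, |G ω| ≤ B) → Dep (pr P) G →
      Tendsto (fun N : ℕ => (∫ ω, ‖SS N ω‖ ^ (2 * k) * G ω ∂tm) / Real.log N ^ (k ^ 2)) atTop (𝓝 (L / 2 ^ (k ^ 2) * nuG k P G)) := by
    intro P G hG hB hD
    have h4 := (hL P G hG hB hD).div_const (2 ^ (k ^ 2))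
    have e1 : L * nuG k P G / 2 ^ (k ^ 2) = L / 2 ^ (k ^ 2) * nuG k P G := by ring
    rw [e1] at h4
    refine h4.congr' ?_
    filter_upwards [eventually_ge_atTop 3] with N hN
    rw [xN_log hN]
    field_simp
  refine ⟨L / 2 ^ (k ^ 2), ?_, h3⟩
  obtain ⟨c, hc, hlim⟩ := mk_SS hk
  have h5 := h3 0 (fun _ => 1) measurable_const ⟨1, fun _ => by simp⟩ (fun _ _ _ => rfl)
  have n1 : nuG k 0 (fun _ => 1) = 1 := by
    unfold nuG
    simp only [mul_one]
    exact div_self (La_mass k 0).ne'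
  rw [n1, mul_one] at h5
  have h6 : L / 2 ^ (k ^ 2) = c := by
    refine tendsto_nhds_unique h5 (hlim.congr fun N => ?_)
    unfold mk
    simp
  rw [h6]
  exact hc

/-- **functions close to the product of a local factor and the partial sum** -/
theorem near_G {k : ℝ} (hk : 0 < k) {c : ℝ} (hc : 0 < c)
    (hSS : ∀ (P : ℕ) (G : (ℕ → ℝ) → ℝ), Measurable G → (∃ B : ℝ, ∀ ω, |G ω| ≤ B) → Dep (pr P) G →
      Tendsto (fun N : ℕ => (∫ ω, ‖SS N ω‖ ^ (2 * k) * G ω ∂tm) / Real.log N ^ (k ^ 2)) atTop (𝓝 (c * nuG k P G)))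
    {P : ℕ} {H : (ℕ → ℝ) → ℂ} (hH : Gd H) (hD : Dep (pr P) fun ω => ‖H ω‖ ^ (2 * k)) {f : ℕ → (ℕ → ℝ) → ℂ} (hf : ∀ N, Gd (f N))
    (hn : Tendsto (fun N : ℕ => nr k (xN N) (fun ω => f N ω - H ω * SS N ω)) atTop (𝓝 0)) :
    Tendsto (fun N : ℕ => mk k (f N) / Real.log N ^ (k ^ 2)) atTop (𝓝 (c * nuG k P (fun ω => ‖H ω‖ ^ (2 * k)))) := by
  have hkp := kp_pos hk
  obtain ⟨hHm, B, hB⟩ := hH
  have hH : Gd H := ⟨hHm, B, hB⟩
  have h1 := hSS P (fun ω => ‖H ω‖ ^ (2 * k)) (hHm.norm.pow_const _) ⟨|B| ^ (2 * k), fun ω => by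
    rw [abs_of_nonneg (by positivity)]
    exact Real.rpow_le_rpow (norm_nonneg _) ((hB ω).trans (le_abs_self B)) (by positivity)⟩ hD
  have e1 : ∀ N, (∫ ω, ‖SS N ω‖ ^ (2 * k) * ‖H ω‖ ^ (2 * k) ∂tm) = mk k (fun ω => H ω * SS N ω) := by
    intro N
    unfold mk
    refine integral_congr_ae (Eventually.of_forall fun ω => ?_)
    simp only
    rw [norm_mul, Real.mul_rpow (norm_nonneg _) (norm_nonneg _), mul_comm]
  simp_rw [e1] at h1
  obtain ⟨V, hV⟩ : ∃ V : ℝ, V = c * nuG k P (fun ω => ‖H ω‖ ^ (2 * k)) := ⟨_, rfl⟩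
  rw [← hV] at h1 ⊢
  have hV0 : 0 ≤ V := by
    rw [hV]
    refine mul_nonneg hc.le ?_
    unfold nuG
    exact div_nonneg (integral_nonneg fun ω => by positivity) (La_mass k P).le
  have h2 : Tendsto (fun N : ℕ => nr k (xN N) (fun ω => H ω * SS N ω)) atTop (𝓝 ((2 ^ (k ^ 2) * V) ^ kp k)) := by
    have h3 := (h1.const_mul (2 ^ (k ^ 2))).rpow_const (p := kp k) (Or.inr hkp.le)
    refine h3.congr' ?_
    filter_upwards [eventually_ge_atTop 3] with N hN
    unfold nr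
    rw [xN_log hN]
  have h4 : Tendsto (fun N : ℕ => nr k (xN N) (f N)) atTop (𝓝 ((2 ^ (k ^ 2) * V) ^ kp k)) := by
    have h5 : Tendsto (fun N : ℕ => nr k (xN N) (f N) - nr k (xN N) (fun ω => H ω * SS N ω)) atTop (𝓝 0) := by
      refine squeeze_zero_norm' ?_ hn
      filter_upwards [eventually_ge_atTop 3] with N hN
      exact nr_sub hk (xN_pos hN).le (hf N) (hH.mulf (SS_gd N))
    have h6 := h5.add h2
    simpa using h6
  have h7 := (h4.rpow_const (p := 1 / kp k) (Or.inr (by positivity))).const_mul ((2 ^ (k ^ 2))⁻¹ : ℝ)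
  have e2 : ((2:ℝ) ^ (k ^ 2))⁻¹ * ((2 ^ (k ^ 2) * V) ^ kp k) ^ (1 / kp k) = V := by
    rw [← Real.rpow_mul (by positivity), mul_one_div_cancel hkp.ne', Real.rpow_one]
    field_simp
  rw [e2] at h7
  refine h7.congr' ?_
  filter_upwards [eventually_ge_atTop 3] with N hN
  unfold nr
  rw [← Real.rpow_mul (mul_nonneg (by have := xN_pos hN; positivity) (mk_nonneg _ _)), mul_one_div_cancel hkp.ne', Real.rpow_one, xN_log hN]
  field_simp

lemma nr_sum {k x : ℝ} (hk : 0 < k) (hx : 0 ≤ x) {ι : Type*} (s : Finset ι) {f : ι → (ℕ → ℝ) → ℂ} (hf : ∀ i ∈ s, Gd (f i)) :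
    nr k x (fun ω => ∑ i ∈ s, f i ω) ≤ ∑ i ∈ s, nr k x (f i) := by
  classical
  induction s using Finset.induction_on with
  | empty =>
    simp only [Finset.sum_empty]
    unfold nr mk
    simp only [norm_zero]
    rw [Real.zero_rpow (by positivity)]
    simp [Real.zero_rpow (kp_pos hk).ne']
  | insert i s hi ih =>
    simp only [Finset.sum_insert hi]
    have h1 : Gd (fun ω => ∑ i ∈ s, f i ω) := Gd.sum s fun j hj => hf j (Finset.mem_insert_of_mem hj)
    refine (nr_add hk hx (hf i (Finset.mem_insert_self _ _)) h1).trans ?_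
    exact add_le_add le_rfl (ih fun j hj => hf j (Finset.mem_insert_of_mem hj))

/-- multiplication by a bounded function -/
lemma nr_bmul {k x : ℝ} (hk : 0 < k) (hx : 0 ≤ x) {g f : (ℕ → ℝ) → ℂ} (hg : Gd g) (hf : Gd f) {b : ℝ} (hb0 : 0 ≤ b) (hb : ∀ ω, ‖g ω‖ ≤ b) :
    nr k x (fun ω => g ω * f ω) ≤ (b ^ (2 * k)) ^ kp k * nr k x f := by
  have h1 := nr_mono hk hx (hg.mulf hf) (hf.const_mul (b:ℂ)) (fun ω => by
    rw [norm_mul, norm_mul, Complex.norm_real, Real.norm_of_nonneg hb0]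
    exact mul_le_mul_of_nonneg_right (hb ω) (norm_nonneg _))
  refine h1.trans (le_of_eq ?_)
  rw [nr_mul _ hx, Complex.norm_real, Real.norm_of_nonneg hb0]

/-- the local factor -/
noncomputable def BB (c : ℕ → ℂ) (ω : ℕ → ℝ) : ℂ := ∑' m : ℕ, c m * ch m ω

lemma BB_sum {c : ℕ → ℂ} (hc : Summable fun m => ‖c m‖) (ω : ℕ → ℝ) : Summable fun m => c m * ch m ω := by
  refine Summable.of_norm ?_
  simpa only [norm_mul, ch_norm, mul_one] using hc

lemma BB_tail {c : ℕ → ℂ} (hc : Summable fun m => ‖c m‖) (N : ℕ) (ω : ℕ → ℝ) :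
    ‖BB c ω - ∑ m ∈ Finset.range N, c m * ch m ω‖ ≤ ∑' m, ‖c (m + N)‖ := by
  have h1 := (BB_sum hc ω).sum_add_tsum_nat_add N
  have e1 : BB c ω - ∑ m ∈ Finset.range N, c m * ch m ω = ∑' m, c (m + N) * ch (m + N) ω := by
    unfold BB
    rw [← h1]
    ring
  rw [e1]
  have h2 : Summable fun m => ‖c (m + N) * ch (m + N) ω‖ := by
    simp only [norm_mul, ch_norm, mul_one]
    exact (summable_nat_add_iff N).mpr hc
  refine (norm_tsum_le_tsum_norm h2).trans (le_of_eq ?_)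
  simp only [norm_mul, ch_norm, mul_one]

lemma BB_gd {c : ℕ → ℂ} (hc : Summable fun m => ‖c m‖) : Gd (BB c) := by
  refine ⟨?_, ∑' m, ‖c m‖, fun ω => ?_⟩
  · refine measurable_of_tendsto_metrizable (f := fun (N : ℕ) ω => ∑ m ∈ Finset.range N, c m * ch m ω) (fun N => ?_) ?_
    · exact (Gd.sum (Finset.range N) fun m _ => (ch_gd m).const_mul (c m)).1
    · rw [tendsto_pi_nhds]
      intro ω
      exact (BB_sum hc ω).hasSum.tendsto_sum_nat
  · refine (norm_tsum_le_tsum_norm ?_).trans (le_of_eq ?_)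
    · simpa only [norm_mul, ch_norm, mul_one] using hc
    · simp only [norm_mul, ch_norm, mul_one]

/-- **the sum with modified Euler factors is the product of the local factor and the partial sum** -/
theorem DB_lim {k : ℝ} (hk : 0 < k) (S : Finset ℕ) (hS : ∀ q ∈ S, q.Prime) {c : ℕ → ℂ} (hc0 : c 0 = 0) (hc : Summable fun m => ‖c m‖)
    (hc2 : Summable fun m => (‖c m‖ ^ (2 * k)) ^ kp k) :
    Tendsto (fun N : ℕ => nr k (xN N) (fun ω => DB c S N ω - BB c ω * ES S ω * SS N ω)) atTop (𝓝 0) := by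
  have hkp := kp_pos hk
  obtain ⟨C1, hC1, hb1⟩ := RS_ubd hk S hS
  obtain ⟨C2, hC2, hb2⟩ := SS_ubd hk
  obtain ⟨hEm, E0, hE0⟩ := ES_gd S
  obtain ⟨E, hE1, hE⟩ : ∃ E : ℝ, 0 ≤ E ∧ ∀ ω, ‖ES S ω‖ ≤ E := ⟨|E0|, abs_nonneg _, fun ω => (hE0 ω).trans (le_abs_self _)⟩
  obtain ⟨C3, hC3⟩ : ∃ C3 : ℝ, C3 = (E ^ (2 * k)) ^ kp k * C2 := ⟨_, rfl⟩
  have hC30 : 0 ≤ C3 := by rw [hC3]; positivity
  have hES : ∀ N : ℕ, 3 ≤ N → nr k (xN N) (fun ω => ES S ω * SS N ω) ≤ C3 := by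
    intro N hN
    rw [hC3]
    exact (nr_bmul hk (xN_pos hN).le (ES_gd S) (SS_gd N) hE1 hE).trans (mul_le_mul_of_nonneg_left (hb2 N hN N le_rfl) (by positivity))
  obtain ⟨h, hh⟩ : ∃ h : ℕ → ℕ → ℝ, ∀ N m, h N m = nr k (xN N) (fun ω => RS S (N / m) ω - ES S ω * SS N ω) := ⟨fun N m => _, fun _ _ => rfl⟩
  have hhb : ∀ N m, 3 ≤ N → h N m ≤ C1 + C3 := by
    intro N m hN
    rw [hh]
    have h1 := nr_add hk (xN_pos hN).le (RS_gd S (N / m)) ((ES_gd S).mulf (SS_gd N)).neg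
    simp only [← sub_eq_add_neg] at h1
    rw [nr_neg] at h1
    exact h1.trans (add_le_add (hb1 N hN _ (Nat.div_le_self _ _)) (hES N hN))
  have hh0 : ∀ N m, 3 ≤ N → 0 ≤ h N m := fun N m hN => by
    rw [hh]
    exact nr_nonneg (xN_pos hN).le _
  -- dominated convergence
  obtain ⟨g, hg⟩ : ∃ g : ℕ → ℝ, ∀ m, g m = (‖c m‖ ^ (2 * k)) ^ kp k := ⟨fun m => _, fun _ => rfl⟩
  have hg0 : ∀ m, 0 ≤ g m := fun m => by rw [hg]; positivity
  have hgs : Summable g := by
    have : g = fun m => (‖c m‖ ^ (2 * k)) ^ kp k := funext hg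
    rw [this]
    exact hc2
  have hdom : Tendsto (fun N : ℕ => ∑' m : ℕ, (if 1 ≤ m ∧ m ≤ N then g m * h N m else 0)) atTop (𝓝 (∑' _ : ℕ, (0:ℝ))) := by
    refine tendsto_tsum_of_dominated_convergence (bound := fun m => g m * (C1 + C3)) (hgs.mul_right _) (fun m => ?_) ?_
    · by_cases hm : 1 ≤ m
      · have h1 := (RS_lim hk S hS m hm).const_mul (g m)
        rw [mul_zero] at h1
        refine squeeze_zero_norm' ?_ h1
        filter_upwards [eventually_ge_atTop 3] with N hN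
        split_ifs
        · rw [Real.norm_of_nonneg (mul_nonneg (hg0 m) (hh0 N m hN)), hh]
        · rw [norm_zero]
          exact mul_nonneg (hg0 m) (nr_nonneg (xN_pos hN).le _)
      · have : (fun N : ℕ => if 1 ≤ m ∧ m ≤ N then g m * h N m else 0) = fun _ => 0 := by
          funext N
          rw [if_neg (by tauto)]
        rw [this]
        exact tendsto_const_nhds
    · filter_upwards [eventually_ge_atTop 3] with N hN m
      split_ifs
      · rw [Real.norm_of_nonneg (mul_nonneg (hg0 m) (hh0 N m hN))]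
        exact mul_le_mul_of_nonneg_left (hhb N m hN) (hg0 m)
      · rw [norm_zero]
        exact mul_nonneg (hg0 m) (by positivity)
  rw [tsum_zero] at hdom
  have htail : Tendsto (fun N : ℕ => ((∑' m, ‖c (m + (N + 1))‖) ^ (2 * k)) ^ kp k * C3) atTop (𝓝 0) := by
    have h1 : Tendsto (fun N : ℕ => ∑' m, ‖c (m + (N + 1))‖) atTop (𝓝 0) :=
      (tendsto_sum_nat_add (fun m => ‖c m‖)).comp (tendsto_add_atTop_nat 1)
    have h2 := ((h1.rpow_const (p := 2 * k) (Or.inr (by positivity))).rpow_const (p := kp k) (Or.inr hkp.le)).mul_const C3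
    rw [Real.zero_rpow (by positivity), Real.zero_rpow hkp.ne', zero_mul] at h2
    exact h2
  have hsum := hdom.add htail
  rw [add_zero] at hsum
  refine squeeze_zero' ?_ ?_ hsum
  · filter_upwards [eventually_ge_atTop 3] with N hN
    exact nr_nonneg (xN_pos hN).le _
  · filter_upwards [eventually_ge_atTop 3] with N hN
    have hx := xN_pos hN
    have g1 : ∀ m ∈ Finset.Icc 1 N, Gd (fun ω => (c m * ch m ω) * (RS S (N / m) ω - ES S ω * SS N ω)) := fun m _ =>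
      ((ch_gd m).const_mul _).mulf ((RS_gd _ _).sub ((ES_gd S).mulf (SS_gd N)))
    have g2 : Gd (fun ω => BB c ω - ∑ m ∈ Finset.range (N + 1), c m * ch m ω) := (BB_gd hc).sub (Gd.sum _ fun m _ => (ch_gd m).const_mul _)
    have e1 : (fun ω => DB c S N ω - BB c ω * ES S ω * SS N ω) = fun ω =>
        (∑ m ∈ Finset.Icc 1 N, (c m * ch m ω) * (RS S (N / m) ω - ES S ω * SS N ω)) +
          -((BB c ω - ∑ m ∈ Finset.range (N + 1), c m * ch m ω) * (ES S ω * SS N ω)) := by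
      funext ω
      have e2 : ∑ m ∈ Finset.range (N + 1), c m * ch m ω = ∑ m ∈ Finset.Icc 1 N, c m * ch m ω := by
        rw [Finset.range_eq_Ico, Finset.sum_eq_sum_Ico_succ_bot (by omega), hc0, zero_mul, zero_add]
        rfl
      rw [e2]
      unfold DB
      simp only [mul_sub, Finset.sum_sub_distrib, ← Finset.sum_mul]
      ring
    rw [e1]
    refine (nr_add hk hx.le (Gd.sum _ g1) (g2.mulf ((ES_gd S).mulf (SS_gd N))).neg).trans (add_le_add ?_ ?_)
    · refine (nr_sum hk hx.le _ g1).trans ?_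
      have h1 : ∀ m ∈ Finset.Icc 1 N, nr k (xN N) (fun ω => (c m * ch m ω) * (RS S (N / m) ω - ES S ω * SS N ω)) ≤ (if 1 ≤ m ∧ m ≤ N then g m * h N m else 0) := by
        intro m hm
        rw [Finset.mem_Icc] at hm
        rw [if_pos hm, hg, hh]
        exact nr_bmul hk hx.le ((ch_gd m).const_mul _) ((RS_gd _ _).sub ((ES_gd S).mulf (SS_gd N))) (norm_nonneg _) fun ω => by rw [norm_mul, ch_norm, mul_one]
      refine (Finset.sum_le_sum h1).trans (le_of_eq ?_)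
      rw [tsum_eq_sum (s := Finset.Icc 1 N)]
      intro m hm
      rw [Finset.mem_Icc] at hm
      rw [if_neg hm]
    · rw [nr_neg]
      refine (nr_bmul hk hx.le g2 ((ES_gd S).mulf (SS_gd N)) (tsum_nonneg fun _ => norm_nonneg _) (fun ω => BB_tail hc (N + 1) ω)).trans ?_
      exact mul_le_mul_of_nonneg_left (hES N hN) (by
        have : 0 ≤ ∑' m, ‖c (m + (N + 1))‖ := tsum_nonneg fun _ => norm_nonneg _
        positivity)

end Pool.Agent.H470
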