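import Pool.Agent.H470.Ua5

set_option autoImplicit false

/-! Mean values and local constants. -/

namespace Pool.Agent.H470

open MeasureTheory Filter Topology ProbabilityTheory Set
open Pool.Agent.TH806 (ec ec_norm ec_cont uu integrable_uu ec_add ec_int)

open Classical in
lemma sm_sum (P : ℕ) {s : ℝ} (hs : 0 < s) : Summable fun m : ℕ => if m ∈ (P + 1).smoothNumbers then (m:ℝ) ^ (-s) else 0 := by
  have h1 := (euler (s := (s:ℂ)) (by simpa using hs) P (fun _ => 0)).1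
  have h2 := (summable_subtype_iff_indicator (s := ((P + 1).smoothNumbers : Set ℕ)) (f := fun m => ‖cch (s:ℂ) (fun _ => 0) m‖)).mp h1
  refine h2.congr fun m => ?_
  by_cases hm : m ∈ (P + 1).smoothNumbers
  · rw [if_pos hm, Set.indicator_of_mem hm, cch_apply (sm_ne hm), norm_mul, ch_norm, mul_one, Complex.norm_natCast_cpow_of_pos (Nat.pos_of_ne_zero (sm_ne hm))]
    simp
  · rw [if_neg hm, Set.indicator_of_notMem hm]

lemma cc_zero (P : ℕ) (a : ℕ → ℂ) : cc P a 0 = 0 := by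
  unfold cc
  rw [if_neg]
  intro h
  exact sm_ne h rfl

lemma cc_bd {P : ℕ} {a : ℕ → ℂ} {C δ : ℝ} (h : ∀ m ∈ (P + 1).smoothNumbers, ‖a m‖ ≤ C * (m:ℝ) ^ (1 / 2 - δ)) {m : ℕ} (hm : m ∈ (P + 1).smoothNumbers) :
    ‖cc P a m‖ ≤ C * (m:ℝ) ^ (-δ) := by
  have hm0 : (0:ℝ) < m := by exact_mod_cast Nat.pos_of_ne_zero (sm_ne hm)
  unfold cc
  rw [if_pos hm, norm_mul, Complex.norm_natCast_cpow_of_pos (Nat.pos_of_ne_zero (sm_ne hm))]
  have e1 : (-(1 / 2) : ℂ).re = -(1 / 2) := by norm_num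
  rw [e1]
  refine (mul_le_mul_of_nonneg_right (h m hm) (by positivity)).trans (le_of_eq ?_)
  rw [mul_assoc, ← Real.rpow_add hm0]
  congr 2
  ring

lemma cc_sum {P : ℕ} {a : ℕ → ℂ} {C δ : ℝ} (hδ : 0 < δ) (h : ∀ m ∈ (P + 1).smoothNumbers, ‖a m‖ ≤ C * (m:ℝ) ^ (1 / 2 - δ)) :
    Summable fun m => ‖cc P a m‖ := by
  classical
  refine Summable.of_nonneg_of_le (fun _ => norm_nonneg _) (fun m => ?_) ((sm_sum P hδ).mul_left |C|)
  by_cases hm : m ∈ (P + 1).smoothNumbers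
  · rw [if_pos hm]
    exact (cc_bd h hm).trans (mul_le_mul_of_nonneg_right (le_abs_self C) (by positivity))
  · rw [if_neg hm, mul_zero]
    unfold cc
    rw [if_neg hm, norm_zero]

lemma cc_sum2 {P : ℕ} {a : ℕ → ℂ} {C δ k : ℝ} (hk : 0 < k) (hδ : 0 < δ) (h : ∀ m ∈ (P + 1).smoothNumbers, ‖a m‖ ≤ C * (m:ℝ) ^ (1 / 2 - δ)) :
    Summable fun m => (‖cc P a m‖ ^ (2 * k)) ^ kp k := by
  classical
  have hkp := kp_pos hk
  refine Summable.of_nonneg_of_le (fun _ => by positivity) (fun m => ?_) ((sm_sum P (s := δ * (2 * k) * kp k) (by positivity)).mul_left ((|C| ^ (2 * k)) ^ kp k))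
  by_cases hm : m ∈ (P + 1).smoothNumbers
  · rw [if_pos hm]
    have h1 : ‖cc P a m‖ ≤ |C| * (m:ℝ) ^ (-δ) := (cc_bd h hm).trans (mul_le_mul_of_nonneg_right (le_abs_self C) (by positivity))
    have h2 := Real.rpow_le_rpow (by positivity) (Real.rpow_le_rpow (norm_nonneg _) h1 (show 0 ≤ 2 * k by positivity)) hkp.le
    refine h2.trans (le_of_eq ?_)
    have e1 : (((m:ℝ) ^ (-δ)) ^ (2 * k)) ^ kp k = (m:ℝ) ^ (-(δ * (2 * k) * kp k)) := by
      rw [← Real.rpow_mul (by positivity), ← Real.rpow_mul (by positivity)]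
      congr 1
      ring
    rw [Real.mul_rpow (abs_nonneg _) (by positivity), Real.mul_rpow (by positivity) (by positivity), e1]
  · rw [if_neg hm, mul_zero]
    unfold cc
    rw [if_neg hm, norm_zero, Real.zero_rpow (by positivity), Real.zero_rpow hkp.ne']

lemma ch_dep {P m : ℕ} (hm : m ∈ (P + 1).smoothNumbers) {ω ω' : ℕ → ℝ} (h : ∀ p ∈ pr P, ω p = ω' p) : ch m ω = ch m ω' := by
  unfold ch Finsupp.prod
  refine Finset.prod_congr rfl fun p hp => ?_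
  rw [Nat.support_factorization, Nat.mem_primeFactors] at hp
  have h1 := (sm_iff.mp hm).2 p hp.1 hp.2.1
  simp only
  rw [h p (Finset.mem_filter.mpr ⟨Finset.mem_Icc.mpr ⟨hp.1.one_le, h1⟩, hp.1⟩)]

lemma BB_dep (P : ℕ) (a : ℕ → ℂ) {ω ω' : ℕ → ℝ} (h : ∀ p ∈ pr P, ω p = ω' p) : BB (cc P a) ω = BB (cc P a) ω' := by
  unfold BB
  refine tsum_congr fun m => ?_
  by_cases hm : m ∈ (P + 1).smoothNumbers
  · rw [ch_dep hm h]
  · unfold cc
    rw [if_neg hm]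
    simp

lemma ES_dep {P : ℕ} {S : Finset ℕ} (hS : S ⊆ pr P) {ω ω' : ℕ → ℝ} (h : ∀ p ∈ pr P, ω p = ω' p) : ES S ω = ES S ω' := by
  unfold ES
  refine Finset.prod_congr rfl fun p hp => ?_
  have hp' := hS hp
  rw [ch_prime (pr_prime hp'), ch_prime (pr_prime hp'), h p hp']

lemma La_prod (P : ℕ) (ω : ℕ → ℝ) : La P ω = ∏ p ∈ pr P, (1 - (p:ℂ) ^ (-(1 / 2) : ℂ) * ec (ω p))⁻¹ := by
  unfold La Xs
  rw [Complex.exp_sum]
  refine Finset.prod_congr rfl fun p hp => ?_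
  rw [el_exp (arg_lt (pr_two hp) half_re _)]

lemma fac_ne {p : ℕ} (hp : p.Prime) (x : ℝ) : 1 - (p:ℂ) ^ (-(1 / 2) : ℂ) * ec x ≠ 0 := by
  intro h
  have h1 := arg_lt hp.two_le half_re x
  have h2 : (p:ℂ) ^ (-(1 / 2) : ℂ) * ec x = 1 := (sub_eq_zero.mp h).symm
  rw [h2, norm_one] at h1
  exact lt_irrefl _ h1

lemma La_ES (P : ℕ) (ω : ℕ → ℝ) : La P ω * ES (pr P) ω = 1 := by
  rw [La_prod]
  unfold ES
  rw [← Finset.prod_mul_distrib]
  refine Finset.prod_eq_one fun p hp => ?_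
  rw [ch_prime (pr_prime hp)]
  exact inv_mul_cancel₀ (fac_ne (pr_prime hp) _)

/-- the local constant of a series over smooth numbers -/
lemma nuG_BB (k : ℝ) (P : ℕ) (f : (ℕ → ℝ) → ℂ) : nuG k P (fun ω => ‖f ω * ES (pr P) ω‖ ^ (2 * k)) = mk k f / mk k (La P) := by
  unfold nuG
  congr 1
  unfold mk
  refine integral_congr_ae (Eventually.of_forall fun ω => ?_)
  simp only
  rw [← Real.mul_rpow (norm_nonneg _) (norm_nonneg _), ← norm_mul]
  have e1 : La P ω * (f ω * ES (pr P) ω) = f ω := by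
    calc La P ω * (f ω * ES (pr P) ω) = f ω * (La P ω * ES (pr P) ω) := by ring
      _ = f ω := by rw [La_ES, mul_one]
  rw [e1]

/-- the local mean -/
noncomputable def JJ (β : ℝ) (p : ℕ) : ℝ := ∫ x, ‖1 - (p:ℂ) ^ (-(1 / 2) : ℂ) * ec x‖ ^ (-β) ∂uu

lemma prod_intR (I : Finset ℕ) {g : ℕ → ℝ → ℝ} (hg : ∀ p, Measurable (g p)) :
    ∫ ω, ∏ p ∈ I, g p (ω p) ∂tm = ∏ p ∈ I, ∫ x, g p x ∂uu := by
  have h1 := prod_int I (g := fun p x => ((g p x : ℝ) : ℂ)) (fun p => Complex.measurable_ofReal.comp (hg p))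
  have e1 : ∀ ω : ℕ → ℝ, ∏ p ∈ I, ((g p (ω p) : ℝ) : ℂ) = ((∏ p ∈ I, g p (ω p) : ℝ) : ℂ) := fun ω => by push_cast; rfl
  simp only [e1, integral_complex_ofReal] at h1
  rw [← Complex.ofReal_prod] at h1
  exact_mod_cast h1

lemma JJ_meas (β : ℝ) (p : ℕ) : Measurable fun x : ℝ => ‖1 - (p:ℂ) ^ (-(1 / 2) : ℂ) * ec x‖ ^ (-β) := by
  have : Continuous fun x : ℝ => ‖1 - (p:ℂ) ^ (-(1 / 2) : ℂ) * ec x‖ := by
    have := ec_cont
    fun_prop
  exact this.measurable.pow_const _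

lemma mass_JJ (k : ℝ) {P : ℕ} {S : Finset ℕ} (hS : S ⊆ pr P) :
    ∫ ω, ‖La P ω‖ ^ (2 * k) * ‖ES S ω‖ ^ (2 * k) ∂tm = ∏ p ∈ pr P \ S, JJ (2 * k) p := by
  classical
  unfold JJ
  rw [← prod_intR _ fun p => JJ_meas (2 * k) p]
  refine integral_congr_ae (Eventually.of_forall fun ω => ?_)
  simp only
  rw [← Real.mul_rpow (norm_nonneg _) (norm_nonneg _), ← norm_mul, La_prod]
  have e1 : (∏ p ∈ pr P, (1 - (p:ℂ) ^ (-(1 / 2) : ℂ) * ec (ω p))⁻¹) * ES S ω = ∏ p ∈ pr P \ S, (1 - (p:ℂ) ^ (-(1 / 2) : ℂ) * ec (ω p))⁻¹ := by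
    rw [← Finset.prod_sdiff hS, mul_assoc]
    have e2 : (∏ p ∈ S, (1 - (p:ℂ) ^ (-(1 / 2) : ℂ) * ec (ω p))⁻¹) * ES S ω = 1 := by
      unfold ES
      rw [← Finset.prod_mul_distrib]
      refine Finset.prod_eq_one fun p hp => ?_
      rw [ch_prime (pr_prime (hS hp))]
      exact inv_mul_cancel₀ (fac_ne (pr_prime (hS hp)) _)
    rw [e2, mul_one]
  rw [e1, norm_prod, ← Real.finsetProd_rpow _ _ fun i _ => norm_nonneg _]
  refine Finset.prod_congr rfl fun p _ => ?_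
  rw [norm_inv, Real.inv_rpow (norm_nonneg _), Real.rpow_neg (norm_nonneg _)]

lemma mass_La (k : ℝ) (P : ℕ) : mk k (La P) = ∏ p ∈ pr P, JJ (2 * k) p := by
  have h := mass_JJ k (P := P) (S := ∅) (Finset.empty_subset _)
  rw [Finset.sdiff_empty] at h
  rw [← h]
  unfold mk ES
  simp

lemma JJ_pos (k : ℝ) {p : ℕ} (hp : p.Prime) : 0 < JJ (2 * k) p := by
  have h1 := La_mass k p
  have h2 := mass_La k p
  have h3 : 0 < ∏ q ∈ pr p, JJ (2 * k) q := by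
    rw [← h2]
    exact h1
  have h4 : JJ (2 * k) p ≠ 0 := by
    intro h
    rw [Finset.prod_eq_zero (show p ∈ pr p from Finset.mem_filter.mpr ⟨Finset.mem_Icc.mpr ⟨hp.one_le, le_rfl⟩, hp⟩) h] at h3
    exact lt_irrefl _ h3
  exact lt_of_le_of_ne (integral_nonneg fun _ => by positivity) h4.symm

lemma nuG_ES (k : ℝ) {P : ℕ} {S : Finset ℕ} (hS : S ⊆ pr P) : nuG k P (fun ω => ‖ES S ω‖ ^ (2 * k)) = (∏ p ∈ S, JJ (2 * k) p)⁻¹ := by
  classical
  unfold nuG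
  rw [mass_JJ k hS]
  have h1 : ∫ ω, ‖La P ω‖ ^ (2 * k) ∂tm = ∏ p ∈ pr P, JJ (2 * k) p := mass_La k P
  rw [h1, ← Finset.prod_sdiff hS]
  have h2 : ∏ p ∈ pr P \ S, JJ (2 * k) p ≠ 0 := Finset.prod_ne_zero_iff.mpr fun p hp => (JJ_pos k (pr_prime (Finset.mem_sdiff.mp hp).1)).ne'
  have h3 : ∏ p ∈ S, JJ (2 * k) p ≠ 0 := Finset.prod_ne_zero_iff.mpr fun p hp => (JJ_pos k (pr_prime (hS hp))).ne'
  field_simp

/-- the arithmetic factor as a limit -/
theorem aK_lim (k : ℝ) : Tendsto (fun P : ℕ => ∏ p ∈ pr P, ((1 - 1 / (p:ℝ)) ^ (k ^ 2) * JJ (2 * k) p)) atTop (𝓝 (aK k)) := by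
  classical
  have hgl : ∀ p : ℕ, p.Prime → gl k k p = (((1 - 1 / (p:ℝ)) ^ (k ^ 2) * JJ (2 * k) p : ℝ) : ℂ) := by
    intro p hp
    have hp0 : (0:ℝ) < 1 - 1 / (p:ℝ) := by
      have h2 : (1:ℝ) < p := by exact_mod_cast hp.one_lt
      rw [sub_pos, div_lt_one (by linarith)]
      exact h2
    unfold gl JJ
    rw [Complex.ofReal_mul, mul_comm]
    congr 1
    · have e1 : (1:ℂ) - 1 / (p:ℂ) = ((1 - 1 / (p:ℝ) : ℝ) : ℂ) := by push_cast; ring
      rw [e1, ← Complex.ofReal_log hp0.le, Real.rpow_def_of_pos hp0]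
      push_cast
      congr 1
      ring
    · rw [← integral_complex_ofReal]
      refine integral_congr_ae (Eventually.of_forall fun x => ?_)
      simp only
      obtain ⟨z, hz⟩ : ∃ z : ℂ, z = (p:ℂ) ^ (-(1 / 2) : ℂ) * ec x := ⟨_, rfl⟩
      rw [← hz]
      have h1 : ‖z‖ < 1 := by rw [hz]; exact arg_lt hp.two_le half_re x
      have h2 : 0 < ‖1 - z‖ := norm_pos_iff.mpr (by rw [hz]; exact fac_ne hp x)
      have e1 : (k:ℂ) * el z + (k:ℂ) * (starRingEnd ℂ) (el z) = ((2 * k * (el z).re : ℝ) : ℂ) := by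
        rw [← mul_add, Complex.add_conj]
        push_cast
        ring
      have e2 : (el z).re = -Real.log ‖1 - z‖ := by
        unfold el
        rw [Complex.neg_re, Complex.log_re]
      rw [e1, ← Complex.ofReal_exp, e2, Real.rpow_def_of_pos h2]
      congr 2
      ring
  have hA : ∀ p : Nat.Primes, ‖gl k k p - 1‖ ≤ CG |k| * ((p:ℕ):ℝ) ^ (-(27 / 20) : ℝ) := by
    intro p
    have h := gx_bd (n := 1) (α := fun _ => (k:ℂ)) (β := fun _ => (k:ℂ)) (A := |k|) (by simp) (by simp) (fun _ => 0) (x := 0) le_rfl p.2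
    rw [gx_zero] at h
    simpa using h
  have hCG : 0 ≤ CG |k| := by
    have := CL_nonneg (A := |k|) (abs_nonneg _)
    unfold CG CB
    positivity
  have h := tendsto_tprod_one_add_of_dominated_convergence (𝓕 := (atTop : Filter ℕ))
    (f := fun (P : ℕ) (p : Nat.Primes) => if (p:ℕ) ≤ P then gl k k p - 1 else 0)
    (g := fun p : Nat.Primes => gl k k p - 1)
    (bound := fun p : Nat.Primes => CG |k| * ((p:ℕ):ℝ) ^ (-(27 / 20) : ℝ))
    (pow_sum_primes.mul_left _) (fun p => by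
      refine tendsto_const_nhds.congr' ?_
      filter_upwards [eventually_ge_atTop (p:ℕ)] with P hP
      rw [if_pos hP]) (by
      filter_upwards with P p
      split_ifs with hp
      · exact hA p
      · rw [norm_zero]
        positivity)
  have e1 : ∏' p : Nat.Primes, (1 + (gl k k p - 1)) = (aK k : ℂ) := by
    rw [← (mass_lim k).1]
    unfold DD
    exact tprod_congr fun p => by ring
  rw [e1] at h
  have h2 : Tendsto (fun P : ℕ => ((∏ p ∈ pr P, ((1 - 1 / (p:ℝ)) ^ (k ^ 2) * JJ (2 * k) p) : ℝ) : ℂ)) atTop (𝓝 (aK k : ℂ)) := by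
    refine h.congr fun P => ?_
    have hinj : Set.InjOn (fun p : Nat.Primes => (p:ℕ)) ((fun p : Nat.Primes => (p:ℕ)) ⁻¹' (pr P : Set ℕ)) := fun a _ b _ hab => Nat.Primes.coe_nat_injective hab
    obtain ⟨J, hJ⟩ : ∃ J : Finset Nat.Primes, J = (pr P).preimage (fun p : Nat.Primes => (p:ℕ)) hinj := ⟨_, rfl⟩
    have hmem : ∀ p : Nat.Primes, p ∈ J ↔ (p:ℕ) ≤ P := by
      intro p
      rw [hJ, Finset.mem_preimage]
      exact ⟨fun h2 => pr_le h2, fun h2 => Finset.mem_filter.mpr ⟨Finset.mem_Icc.mpr ⟨p.2.one_le, h2⟩, p.2⟩⟩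
    rw [tprod_eq_prod (s := J) (fun p hp => by
      rw [hmem] at hp
      rw [if_neg hp, add_zero])]
    push_cast
    rw [hJ]
    have e3 : ∏ p ∈ pr P, (((1 - 1 / (p:ℝ)) ^ (k ^ 2) * JJ (2 * k) p : ℝ) : ℂ) = ∏ p ∈ (pr P).preimage (fun p : Nat.Primes => (p:ℕ)) hinj, (((1 - 1 / ((p:ℕ):ℝ)) ^ (k ^ 2) * JJ (2 * k) p : ℝ) : ℂ) := by
      symm
      refine Finset.prod_preimage _ _ hinj (fun p : ℕ => (((1 - 1 / (p:ℝ)) ^ (k ^ 2) * JJ (2 * k) p : ℝ) : ℂ)) fun p hp hn => ?_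
      exact absurd ⟨⟨p, pr_prime hp⟩, rfl⟩ hn
    push_cast at e3
    rw [e3]
    refine Finset.prod_congr rfl fun p hp => ?_
    rw [Finset.mem_preimage] at hp
    rw [if_pos (pr_le hp), hgl p p.2]
    push_cast
    ring
  exact_mod_cast (Complex.continuous_re.tendsto _).comp h2

end Pool.Agent.H470
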