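import Pool.Agent.H470.To31

set_option autoImplicit false

/-! Limits of homogeneous functionals of approximable families, at an arbitrary sequence of scales. -/

namespace Pool.Agent.H470

open MeasureTheory Filter Topology ProbabilityTheory Set

variable {n : ℕ}

/-- approximable families at the scales `x` -/
def Apx (k : ℝ) (x : ℕ → ℝ) (f : Fin n → ℕ → (ℕ → ℝ) → ℂ) : Prop :=
  (∀ᶠ N : ℕ in atTop, ∀ j, Gd (f j N)) ∧ (∃ K : ℝ, 0 < K ∧ ∀ᶠ N : ℕ in atTop, ∑ j, (2 * x N) ^ (k ^ 2) * mk k (f j N) ≤ K) ∧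
    ∀ e : ℝ, 0 < e → ∃ (M : ℕ) (y : Fin M → ℝ) (c : Fin n → Fin M → ℂ), ∀ᶠ N : ℕ in atTop, ∀ j,
      (2 * x N) ^ (k ^ 2) * mk k (fun ω => f j N ω - ∑ i, c j i * Fp (x N) (y i) ω) ≤ e

/-- approximate limits -/
theorem Apx_app {k : ℝ} (hk : 0 < k) {x : ℕ → ℝ} (hx : Tendsto x atTop (𝓝[>] 0)) {f : Fin n → ℕ → (ℕ → ℝ) → ℂ} (hf : Apx k x f)
    {Φ : (Fin n → ℂ) → ℝ} (hc : Continuous Φ) (hom : Hom (2 * k) Φ) {e : ℝ} (he : 0 < e) :
    ∃ L : ℝ, ∀ (P : ℕ) (G : (ℕ → ℝ) → ℝ), Measurable G → ∀ B : ℝ, (∀ ω, |G ω| ≤ B) → Dep (pr P) G →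
      ∀ᶠ N : ℕ in atTop, |(2 * x N) ^ (k ^ 2) * (∫ ω, Φ (fun j => f j N ω) * G ω ∂tm) - L * nuG k P G| ≤ (B + 1) * e := by
  obtain ⟨hgd, ⟨K, hK, hmass⟩, happ'⟩ := hf
  obtain ⟨C, hC, hdiff⟩ := hom_diff hk hc hom (show 0 < e / (2 * K) by positivity)
  obtain ⟨M, y, c, happ⟩ := happ' (e / (2 * ((C + 1) * (n + 1)))) (by positivity)
  obtain ⟨Ψ, hΨ⟩ : ∃ Ψ : (Fin M → ℂ) → ℝ, ∀ z, Ψ z = Φ (fun j => ∑ i, c j i * z i) := ⟨fun z => _, fun _ => rfl⟩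
  have hΨc : Continuous Ψ := by
    rw [funext hΨ]
    exact hc.comp (by fun_prop)
  have hΨh : Hom (2 * k) Ψ := by
    intro a z
    rw [hΨ, hΨ, ← hom]
    congr 1
    funext j
    rw [Pi.smul_apply, smul_eq_mul, Finset.mul_sum]
    refine Finset.sum_congr rfl fun i _ => ?_
    rw [Pi.smul_apply, smul_eq_mul]
    ring
  obtain ⟨L, hL⟩ := fld_G hk y hΨc hΨh
  refine ⟨L, fun P G hG B hGb hGd => ?_⟩
  have hB : 0 ≤ B := (abs_nonneg _).trans (hGb 0)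
  have h1 := (hL P G hG ⟨B, hGb⟩ hGd).comp hx
  filter_upwards [hmass, happ, Metric.tendsto_nhds.mp h1 e he, hgd, hx.eventually self_mem_nhdsWithin] with N h2 h3 h4 hgN hxN
  have hxN' : 0 < x N := hxN
  rw [Real.dist_eq] at h4
  have h5 : |(2 * x N) ^ (k ^ 2) * (∫ ω, Ψ (fun i => Fp (x N) (y i) ω) * G ω ∂tm) - L * nuG k P G| < e := h4
  simp_rw [hΨ] at h5
  have h6 := hdiff (fun j ω => ∑ i, c j i * Fp (x N) (y i) ω) (fun j => f j N) (fun j => sum_gd hxN' (c j) y) (fun j => hgN j) G hG B hGb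
  have hX : 0 < (2 * x N) ^ (k ^ 2) := by positivity
  have h7 := mul_le_mul_of_nonneg_left h6 hX.le
  rw [← abs_of_pos hX, ← abs_mul, abs_of_pos hX, mul_sub] at h7
  have h8 : (2 * x N) ^ (k ^ 2) * (B * (e / (2 * K) * ∑ j, mk k (f j N) + C * ∑ j, mk k (fun ω => (∑ i, c j i * Fp (x N) (y i) ω) - f j N ω))) ≤ B * e := by
    have e1 : ∀ j, mk k (fun ω => (∑ i, c j i * Fp (x N) (y i) ω) - f j N ω) = mk k (fun ω => f j N ω - ∑ i, c j i * Fp (x N) (y i) ω) := by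
      intro j
      unfold mk
      refine integral_congr_ae (Eventually.of_forall fun ω => ?_)
      show ‖_‖ ^ (2 * k) = ‖_‖ ^ (2 * k)
      rw [norm_sub_rev]
    simp_rw [e1]
    have e2 : (2 * x N) ^ (k ^ 2) * (B * (e / (2 * K) * ∑ j, mk k (f j N) + C * ∑ j, mk k (fun ω => f j N ω - ∑ i, c j i * Fp (x N) (y i) ω))) =
        B * (e / (2 * K) * (∑ j, (2 * x N) ^ (k ^ 2) * mk k (f j N)) + C * ∑ j, (2 * x N) ^ (k ^ 2) * mk k (fun ω => f j N ω - ∑ i, c j i * Fp (x N) (y i) ω)) := by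
      rw [← Finset.mul_sum, ← Finset.mul_sum]
      ring
    rw [e2]
    refine mul_le_mul_of_nonneg_left ?_ hB
    have e3 : e / (2 * K) * (∑ j, (2 * x N) ^ (k ^ 2) * mk k (f j N)) ≤ e / 2 := by
      refine (mul_le_mul_of_nonneg_left h2 (by positivity)).trans (le_of_eq ?_)
      field_simp
    have e4 : C * ∑ j, (2 * x N) ^ (k ^ 2) * mk k (fun ω => f j N ω - ∑ i, c j i * Fp (x N) (y i) ω) ≤ e / 2 := by
      have e5 : ∑ j, (2 * x N) ^ (k ^ 2) * mk k (fun ω => f j N ω - ∑ i, c j i * Fp (x N) (y i) ω) ≤ (n + 1) * (e / (2 * ((C + 1) * (n + 1)))) := by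
        refine (Finset.sum_le_card_nsmul _ _ _ fun j _ => h3 j).trans ?_
        rw [Finset.card_univ, Fintype.card_fin, nsmul_eq_mul]
        refine mul_le_mul_of_nonneg_right (by linarith) (by positivity)
      refine (mul_le_mul_of_nonneg_left e5 hC).trans ?_
      have e6 : C * ((n + 1) * (e / (2 * ((C + 1) * (n + 1))))) = C / (C + 1) * (e / 2) := by field_simp
      rw [e6]
      have e7 : C / (C + 1) ≤ 1 := by
        rw [div_le_one (by linarith)]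
        linarith
      have := mul_le_mul_of_nonneg_right e7 (show 0 ≤ e / 2 by positivity)
      linarith
    linarith
  have h9 := h7.trans h8
  have h10 := abs_le.mp h9
  have h11 := abs_lt.mp h5
  rw [abs_le]
  constructor <;> linarith [h10.1, h10.2, h11.1, h11.2]

/-- the limit -/
theorem Apx_lim {k : ℝ} (hk : 0 < k) {x : ℕ → ℝ} (hx : Tendsto x atTop (𝓝[>] 0)) {f : Fin n → ℕ → (ℕ → ℝ) → ℂ} (hf : Apx k x f)
    {Φ : (Fin n → ℂ) → ℝ} (hc : Continuous Φ) (hom : Hom (2 * k) Φ) :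
    ∃ L : ℝ, ∀ (P : ℕ) (G : (ℕ → ℝ) → ℝ), Measurable G → (∃ B : ℝ, ∀ ω, |G ω| ≤ B) → Dep (pr P) G →
      Tendsto (fun N : ℕ => (2 * x N) ^ (k ^ 2) * ∫ ω, Φ (fun j => f j N ω) * G ω ∂tm) atTop (𝓝 (L * nuG k P G)) := by
  -- the mass
  obtain ⟨I, hI⟩ : ∃ I : ℕ → ℝ, ∀ N, I N = (2 * x N) ^ (k ^ 2) * ∫ ω, Φ (fun j => f j N ω) * 1 ∂tm := ⟨fun N => _, fun _ => rfl⟩
  have n1 : nuG k 0 (fun _ => 1) = 1 := by
    unfold nuG
    simp only [mul_one]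
    exact div_self (La_mass k 0).ne'
  have hI1 : ∀ e : ℝ, 0 < e → ∃ L : ℝ, (∀ᶠ N : ℕ in atTop, |I N - L| ≤ 2 * e) ∧ ∀ (P : ℕ) (G : (ℕ → ℝ) → ℝ), Measurable G → ∀ B : ℝ, (∀ ω, |G ω| ≤ B) → Dep (pr P) G →
      ∀ᶠ N : ℕ in atTop, |(2 * x N) ^ (k ^ 2) * (∫ ω, Φ (fun j => f j N ω) * G ω ∂tm) - L * nuG k P G| ≤ (B + 1) * e := by
    intro e he
    obtain ⟨L, hL⟩ := Apx_app hk hx hf hc hom he
    refine ⟨L, ?_, hL⟩
    have h1 := hL 0 (fun _ => 1) measurable_const 1 (fun _ => by simp) (fun _ _ _ => rfl)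
    rw [n1, mul_one] at h1
    filter_upwards [h1] with N h2
    rw [hI]
    linarith
  have hcs : CauchySeq I := by
    rw [Metric.cauchySeq_iff']
    intro e he
    obtain ⟨L, hL, -⟩ := hI1 (e / 6) (by positivity)
    obtain ⟨N0, hN0⟩ := eventually_atTop.mp hL
    refine ⟨N0, fun N hN => ?_⟩
    have h1 := abs_le.mp (hN0 N hN)
    have h2 := abs_le.mp (hN0 N0 le_rfl)
    rw [Real.dist_eq, abs_lt]
    constructor <;> linarith [h1.1, h1.2, h2.1, h2.2]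
  obtain ⟨L, hL⟩ := cauchySeq_tendsto_of_complete hcs
  refine ⟨L, fun P G hG hGb hGd => ?_⟩
  obtain ⟨B, hB⟩ := hGb
  have hB0 : 0 ≤ B := (abs_nonneg _).trans (hB 0)
  rw [Metric.tendsto_nhds]
  intro e he
  obtain ⟨q, hq⟩ : ∃ q : ℝ, q = |nuG k P G| := ⟨_, rfl⟩
  have hq0 : 0 ≤ q := by rw [hq]; exact abs_nonneg _
  obtain ⟨L', hL', hG'⟩ := hI1 (e / (2 * (B + 1 + 2 * q))) (by positivity)
  have h1 : |L - L'| ≤ 2 * (e / (2 * (B + 1 + 2 * q))) := by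
    have h2 : Tendsto (fun N => |I N - L'|) atTop (𝓝 |L - L'|) := (hL.sub_const L').abs
    exact le_of_tendsto h2 hL'
  filter_upwards [hG' P G hG B hB hGd] with N h2
  rw [Real.dist_eq]
  have h3 : |L' * nuG k P G - L * nuG k P G| ≤ 2 * (e / (2 * (B + 1 + 2 * q))) * q := by
    rw [← sub_mul, abs_mul, ← hq, abs_sub_comm]
    exact mul_le_mul_of_nonneg_right h1 hq0
  have h4 := abs_add_le ((2 * x N) ^ (k ^ 2) * (∫ ω, Φ (fun j => f j N ω) * G ω ∂tm) - L' * nuG k P G) (L' * nuG k P G - L * nuG k P G)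
  rw [sub_add_sub_cancel] at h4
  refine lt_of_le_of_lt (h4.trans (add_le_add h2 h3)) ?_
  have h5 : (B + 1) * (e / (2 * (B + 1 + 2 * q))) + 2 * (e / (2 * (B + 1 + 2 * q))) * q = e / 2 := by
    field_simp
  rw [h5]
  linarith

/-! ### the sums at a finer scale -/

lemma Sm_scale {φ : ℝ → ℝ} (h : Sm φ) {R : ℝ} (hR : 0 < R) : Sm (fun v => φ (R * v)) := by
  refine ⟨h.1.comp (by fun_prop), ?_⟩
  exact h.2.comp_homeomorph (Homeomorph.mulLeft₀ R hR.ne')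

lemma Ig_scale {φ : ℝ → ℝ} (h : Sm φ) {B x R : ℝ} (hx : 0 < x) (hBx : B * x ≤ 1) (hR : 1 ≤ R) (hB : ∀ u, B ≤ u → φ u = 0) (ω : ℕ → ℝ) :
    Ig φ x ω = Ig (fun v => φ (R * v)) (x / R) ω := by
  have hR0 : 0 < R := by linarith
  obtain ⟨X, hX⟩ := exists_nat_ge (Real.exp (B / x))
  have e1 : B / R / (x / R) = B / x := by field_simp
  rw [Ig_WS h hx hBx hB hX ω, Ig_WS (Sm_scale h hR0) (B := B / R) (x := x / R) (by positivity) ?_ ?_ (by rw [e1]; exact hX) ω]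
  · congr 1
    funext n
    congr 1
    field_simp
  · rw [div_mul_div_comm, div_le_one (by positivity)]
    nlinarith
  · intro u hu
    refine hB _ ?_
    rwa [div_le_iff₀ hR0, mul_comm] at hu

end Pool.Agent.H470
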