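import Pool.Agent.H470.Va9

set_option autoImplicit false

/-! Positivity of the weighted limit. -/

namespace Pool.Agent.H470

open MeasureTheory Filter Topology ProbabilityTheory Set
open scoped ENNReal
open Pool.Agent.TH806 (ec ec_norm ec_cont uu integrable_uu)
open Pool.Agent.R313.CX (mu Cv)

/-- the functional of two variables -/
noncomputable def P2 (k p : ℝ) (z : Fin 2 → ℂ) : ℝ := ‖z 1‖ ^ p * ‖z 0‖ ^ (2 * k - p)

lemma P2_cont {k p : ℝ} (hp : 0 < p) (hp2 : p < 2 * k) : Continuous (P2 k p) := by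
  unfold P2
  refine (Continuous.rpow_const (by fun_prop) fun _ => Or.inr (by positivity)).mul ?_
  exact Continuous.rpow_const (by fun_prop) fun _ => Or.inr (by linarith)

lemma P2_hom {k p : ℝ} (hp : 0 < p) (hp2 : p < 2 * k) : Hom (2 * k) (P2 k p) := by
  intro u z
  unfold P2
  have e2 : ‖u‖ ^ (2 * k) = ‖u‖ ^ p * ‖u‖ ^ (2 * k - p) := by
    rw [← Real.rpow_add_of_nonneg (norm_nonneg _) hp.le (by linarith)]
    congr 1
    ring
  rw [Pi.smul_apply, smul_eq_mul, norm_mul, Real.mul_rpow (norm_nonneg _) (norm_nonneg _), Pi.smul_apply, smul_eq_mul, norm_mul, Real.mul_rpow (norm_nonneg _) (norm_nonneg _), e2]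
  ring

theorem mixlow {k p : ℝ} (hk : 0 < k) (hp : 0 < p) (hp2 : p < 2 * k) : ∃ c : ℝ, 0 < c ∧
    ∀ᶠ N : ℕ in atTop, c ≤ (2 * xN N) ^ (k ^ 2) * ∫ ω, ‖SS N ω‖ ^ p * ‖Fp (xN N) 0 ω‖ ^ (2 * k - p) ∂tm := by
  obtain ⟨m, hm, hmean⟩ := mean_low hk
  have haK := (mass_lim k).2.1
  have hkp := kp_pos hk
  obtain ⟨c0, hc0⟩ : ∃ c0 : ℝ, c0 = aK k * (m / 2) ^ p := ⟨_, rfl⟩
  have hc00 : 0 < c0 := by rw [hc0]; positivity
  obtain ⟨K, hK, hKS⟩ := Ts_bd hk (r := fun _ : Fin 1 => 1) (fun _ => le_rfl) (fun _ => 0)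
  obtain ⟨K', hK', hKF⟩ := Fp_mass hk
  obtain ⟨C, hC, hdiff⟩ := hom_diff hk (P2_cont hp hp2) (P2_hom hp hp2) (show 0 < c0 / (4 * (K + K')) by positivity)
  obtain ⟨e1, he1⟩ : ∃ e1 : ℝ, e1 = (c0 / (4 * (C + 1))) ^ kp k / 2 := ⟨_, rfl⟩
  have he10 : 0 < e1 := by rw [he1]; positivity
  obtain ⟨η, hη, hη2, hnear⟩ := near hk he10
  have hSm := fi_Sm hη
  obtain ⟨Q1, hQ1, happ⟩ := app hk hSm he10
  obtain ⟨Q2, hQ2, hmn⟩ := mn_app hSm hk.le (show 0 < m / 2 by positivity)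
  obtain ⟨Q, hQ⟩ : ∃ Q : ℝ, Q = max Q1 Q2 := ⟨_, rfl⟩
  obtain ⟨m1, hm1, happ2⟩ := happ Q (by rw [hQ]; exact le_max_left _ _)
  obtain ⟨m2, hm2, hmn2⟩ := hmn Q (by rw [hQ]; exact le_max_right _ _)
  obtain ⟨M, hM⟩ : ∃ M : ℕ, M = max m1 m2 := ⟨_, rfl⟩
  have ha := happ2 M (by rw [hM]; exact le_max_left _ _)
  have hb := hmn2 M (by rw [hM]; exact le_max_right _ _)
  obtain ⟨v, hv1, hv2⟩ := two_lim hk hp hp2 (nd Q M) (wt (fi η) Q M)
  have hml := hmean (fi η) hSm (fi_nonneg η) (fun x hx hx1 => fi_one hη hx (by linarith))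
  have hlow : m / 2 ≤ ‖∑ j, wt (fi η) Q M j * Complex.exp (mu k (nd Q M j))‖ := by
    have h1 := norm_sub_norm_le (((1 / (2 * Real.pi) : ℝ) : ℂ) * (∫ y : ℝ, ps (fi η) y * Complex.exp (mu k y))) (∑ j, wt (fi η) Q M j * Complex.exp (mu k (nd Q M j)))
    linarith
  have hv : c0 ≤ v := by
    refine le_trans ?_ hv1
    rw [hc0]
    exact mul_le_mul_of_nonneg_left (Real.rpow_le_rpow (by positivity) hlow hp.le) haK.le
  refine ⟨c0 / 4, by positivity, ?_⟩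
  have hv3 := hv2.comp xN_lim
  filter_upwards [hnear, Metric.tendsto_nhds.mp hv3 (c0 / 4) (by positivity), hKS, eventually_ge_atTop 3] with N h1 h2 h3 hN
  have hx := xN_pos hN
  have hx1 := xN_le hN
  have h5 := ha (xN N) hx hx1
  rw [Real.dist_eq] at h2
  have h6 := (abs_lt.mp h2).1
  have h6' : c0 - c0 / 4 ≤ (2 * xN N) ^ (k ^ 2) * ∫ ω, ‖∑ j, wt (fi η) Q M j * Fp (xN N) (nd Q M j) ω‖ ^ p * ‖Fp (xN N) 0 ω‖ ^ (2 * k - p) ∂tm := by
    have h7 : -(c0 / 4) < (2 * xN N) ^ (k ^ 2) * (∫ ω, ‖∑ j, wt (fi η) Q M j * Fp (xN N) (nd Q M j) ω‖ ^ p * ‖Fp (xN N) 0 ω‖ ^ (2 * k - p) ∂tm) - v := h6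
    linarith
  have gT := sum_gd hx (wt (fi η) Q M) (nd Q M)
  have h7 := nr_add hk hx.le ((SS_gd N).sub (Ig_gd hSm hx)) ((Ig_gd hSm hx).sub gT)
  have h8 : (2 * xN N) ^ (k ^ 2) * mk k (fun ω => (∑ j, wt (fi η) Q M j * Fp (xN N) (nd Q M j) ω) - SS N ω) ≤ c0 / (4 * (C + 1)) := by
    have E1 : mk k (fun ω => (∑ j, wt (fi η) Q M j * Fp (xN N) (nd Q M j) ω) - SS N ω) =
        mk k (fun ω => (SS N ω - Ig (fi η) (xN N) ω) + (Ig (fi η) (xN N) ω - ∑ j, wt (fi η) Q M j * Fp (xN N) (nd Q M j) ω)) := by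
      unfold mk
      refine integral_congr_ae (Eventually.of_forall fun ω => ?_)
      simp only
      rw [norm_sub_rev, sub_add_sub_cancel]
    rw [E1]
    refine nr_inv hk hx.le (by positivity) (h7.trans ?_)
    have e2 : (c0 / (4 * (C + 1))) ^ kp k = e1 + e1 := by rw [he1]; ring
    rw [e2]
    exact add_le_add h1 h5
  have h9 := hdiff ![Fp (xN N) 0, fun ω => ∑ j, wt (fi η) Q M j * Fp (xN N) (nd Q M j) ω] ![Fp (xN N) 0, SS N]
    (fun j => by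
      refine Fin.cases ?_ (fun j => ?_) j
      · exact Fp_gd hx 0
      · have : j = 0 := Subsingleton.elim _ _
        subst this
        exact gT) (fun j => by
      refine Fin.cases ?_ (fun j => ?_) j
      · exact Fp_gd hx 0
      · have : j = 0 := Subsingleton.elim _ _
        subst this
        exact SS_gd N) (fun _ => 1) measurable_const 1 (fun _ => by simp)
  rw [Fin.sum_univ_two, Fin.sum_univ_two] at h9
  simp only [P2, Matrix.cons_val_zero, Matrix.cons_val_one, mul_one, one_mul, sub_self] at h9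
  have e0 : mk k (fun _ => (0:ℂ)) = 0 := by
    unfold mk
    simp [Real.zero_rpow (show 2 * k ≠ 0 by positivity)]
  rw [e0, zero_add] at h9
  have hX : 0 < (2 * xN N) ^ (k ^ 2) := by positivity
  have h10 := mul_le_mul_of_nonneg_left h9 hX.le
  have h11 : (2 * xN N) ^ (k ^ 2) * (c0 / (4 * (K + K')) * (mk k (Fp (xN N) 0) + mk k (SS N)) + C * mk k (fun ω => (∑ j, wt (fi η) Q M j * Fp (xN N) (nd Q M j) ω) - SS N ω)) ≤ c0 / 2 := by
    have a1 := hKF (xN N) hx hx1 0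
    have a2 : (2 * xN N) ^ (k ^ 2) * mk k (SS N) ≤ K := by
      rw [Fin.sum_univ_one, Ts_one] at h3
      exact h3
    have a3 : c0 / (4 * (K + K')) * ((2 * xN N) ^ (k ^ 2) * mk k (Fp (xN N) 0) + (2 * xN N) ^ (k ^ 2) * mk k (SS N)) ≤ c0 / 4 := by
      calc _ ≤ c0 / (4 * (K + K')) * (K + K') := mul_le_mul_of_nonneg_left (by linarith) (by positivity)
        _ = c0 / 4 := by field_simp
    have a4 : C * ((2 * xN N) ^ (k ^ 2) * mk k (fun ω => (∑ j, wt (fi η) Q M j * Fp (xN N) (nd Q M j) ω) - SS N ω)) ≤ c0 / 4 := by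
      have hmk := mk_nonneg k (fun ω => (∑ j, wt (fi η) Q M j * Fp (xN N) (nd Q M j) ω) - SS N ω)
      calc _ ≤ (C + 1) * (c0 / (4 * (C + 1))) := mul_le_mul (by linarith) h8 (by positivity) (by linarith)
        _ = c0 / 4 := by field_simp
    have e3 : (2 * xN N) ^ (k ^ 2) * (c0 / (4 * (K + K')) * (mk k (Fp (xN N) 0) + mk k (SS N)) + C * mk k (fun ω => (∑ j, wt (fi η) Q M j * Fp (xN N) (nd Q M j) ω) - SS N ω)) =
        c0 / (4 * (K + K')) * ((2 * xN N) ^ (k ^ 2) * mk k (Fp (xN N) 0) + (2 * xN N) ^ (k ^ 2) * mk k (SS N)) +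
        C * ((2 * xN N) ^ (k ^ 2) * mk k (fun ω => (∑ j, wt (fi η) Q M j * Fp (xN N) (nd Q M j) ω) - SS N ω)) := by ring
    rw [e3]
    linarith
  have h12 := h10.trans h11
  have h13 := abs_le.mp ((le_of_eq (by rw [← mul_sub, abs_mul, abs_of_pos hX] : |(2 * xN N) ^ (k ^ 2) * (∫ ω, ‖∑ j, wt (fi η) Q M j * Fp (xN N) (nd Q M j) ω‖ ^ p * ‖Fp (xN N) 0 ω‖ ^ (2 * k - p) ∂tm) -
    (2 * xN N) ^ (k ^ 2) * (∫ ω, ‖SS N ω‖ ^ p * ‖Fp (xN N) 0 ω‖ ^ (2 * k - p) ∂tm)| = (2 * xN N) ^ (k ^ 2) *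
    |(∫ ω, ‖∑ j, wt (fi η) Q M j * Fp (xN N) (nd Q M j) ω‖ ^ p * ‖Fp (xN N) 0 ω‖ ^ (2 * k - p) ∂tm) - ∫ ω, ‖SS N ω‖ ^ p * ‖Fp (xN N) 0 ω‖ ^ (2 * k - p) ∂tm|)).trans h12)
  linarith [h13.1, h13.2]

/-- the tail of the Euler product -/
theorem Re_up (κ : ℝ) (hκ : 0 < κ) : ∃ C : ℝ, 0 < C ∧ ∀ᶠ N : ℕ in atTop, ∫ ω, ‖Re' N (xN N) 0 ω‖ ^ (2 * κ) ∂tm ≤ C := by
  obtain ⟨C, hC, h⟩ := S_big 2 (by norm_num)
  refine ⟨Real.exp (κ ^ 2 * C + CN |κ| * KS), Real.exp_pos _, ?_⟩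
  filter_upwards [eventually_ge_atTop 3] with N hN
  have hx := xN_pos hN
  have hx1 := xN_le hN
  have hl := log_N hN
  have hPX : N ≤ PX (xN N) := by
    have h4 := PX_exp hx
    have h5 : (N : ℝ) ≤ PX (xN N) := by
      refine le_trans ?_ h4
      have e1 : (N:ℝ) = Real.exp (Real.log N) := (Real.exp_log (by positivity)).symm
      have e2 : 1 / xN N ^ 2 = (Real.log N) ^ 2 := by
        unfold xN
        field_simp
      rw [e2]
      nth_rw 1 [e1]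
      exact Real.exp_le_exp.mpr (by nlinarith)
    exact_mod_cast h5
  have hxl : xN N * Real.log N = 1 := by
    unfold xN
    field_simp
  have h1 := h (xN N) hx hx1 N hN hPX 0 (by
    simp only [Complex.ofReal_zero, zero_mul, add_zero, Complex.norm_ofNat]
    nlinarith)
  simp only [Complex.ofReal_zero, zero_mul, add_zero, Complex.norm_ofNat] at h1
  have h2 : ∑ p ∈ pr (PX (xN N)) \ pr N, (p:ℝ) ^ (-(2 * (sp (xN N) 0).re)) ≤ C := by
    have e1 : (∑ p ∈ pr (PX (xN N)) \ pr N, (p:ℂ) ^ (-(1 + (xN N : ℂ) * 2))).re = ∑ p ∈ pr (PX (xN N)) \ pr N, (p:ℝ) ^ (-(2 * (sp (xN N) 0).re)) := by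
      rw [Complex.re_sum]
      refine Finset.sum_congr rfl fun p _ => ?_
      have e2 : (p:ℂ) ^ (-(1 + (xN N : ℂ) * 2)) = (((p:ℝ) ^ (-(2 * (sp (xN N) 0).re)) : ℝ) : ℂ) := by
        rw [Complex.ofReal_cpow (by positivity), sp_re]
        push_cast
        congr 1
        ring
      rw [e2, Complex.ofReal_re]
    rw [← e1]
    refine h1.trans ?_
    have e3 : xN N * 2 * Real.log N = 2 := by nlinarith
    rw [e3]
    have := Real.log_pos (show (1:ℝ) < 2 by norm_num)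
    linarith
  have hg : Gd (Re' N (xN N) 0) := by
    obtain ⟨B, hB, hb⟩ := Re'_bd N hx
    exact ⟨(Re'_cont N hx 0).measurable, B, fun ω => hb 0 ω⟩
  have h3 : mk κ (Re' N (xN N) 0) ≤ Real.exp (κ ^ 2 * C + CN |κ| * KS) := by
    refine mk_le hκ hg (Real.exp_pos _).le ?_
    refine (EF (I := pr (PX (xN N)) \ pr N) (fun p hp => pr_two (Finset.mem_sdiff.mp hp).1) (s := sp (xN N) 0) (by rw [sp_re]; linarith) κ).trans (ENNReal.ofReal_le_ofReal ?_)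
    refine Real.exp_le_exp.mpr ?_
    nlinarith [sq_nonneg κ]
  exact h3

lemma Dx_zero (P : ℕ) : Dx P 0 = La P := by
  funext ω
  unfold Dx La sp
  congr 2
  push_cast
  ring

/-- **positivity** -/
theorem mix_low {s β : ℝ} (hs : 0 < s) (hβ : 0 < β) : ∃ c : ℝ, 0 < c ∧
    ∀ᶠ N : ℕ in atTop, c ≤ (2 * xN N) ^ (β * s + β ^ 2 / 4) * nuG s N (fun ω => ‖SS N ω‖ ^ β) := by
  obtain ⟨k, hk'⟩ : ∃ k : ℝ, k = s + β / 2 := ⟨_, rfl⟩
  have hk : 0 < k := by rw [hk']; positivity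
  have hp : 0 < β / 2 := by positivity
  have hp2 : β / 2 < 2 * k := by rw [hk']; linarith
  obtain ⟨c, hc, hlow⟩ := mixlow hk hp hp2
  obtain ⟨κ, hκ⟩ : ∃ κ : ℝ, κ = 2 * k - β / 2 := ⟨_, rfl⟩
  have hκ0 : 0 < κ := by rw [hκ]; linarith
  obtain ⟨C1, hC1, hRe⟩ := Re_up κ hκ0
  obtain ⟨C2, hC2, hJ⟩ := Jd_rat k (-(2 * s))
  obtain ⟨C3, hC3, hD⟩ := Dx_up hk
  obtain ⟨C4, hC4, hL⟩ := Dx_up hs
  obtain ⟨K, hK⟩ : ∃ K : ℝ, K = Real.exp C2 * (C3 * 2 ^ (k ^ 2)) * C1 := ⟨_, rfl⟩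
  have hK0 : 0 < K := by rw [hK]; positivity
  refine ⟨c ^ 2 / K / (C4 * 2 ^ (s ^ 2)), by positivity, ?_⟩
  filter_upwards [hlow, hRe, eventually_ge_atTop 3] with N h1 h2 hN
  have hx := xN_pos hN
  have hx1 := xN_le hN
  have hl := log_N hN
  have hxl : xN N * Real.log N = 1 := by
    unfold xN
    field_simp
  have hX : 0 < (2 * xN N) ^ (k ^ 2) := by positivity
  have hS : 0 < (2 * xN N) ^ (s ^ 2) := by positivity
  have hPX : N ≤ PX (xN N) := by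
    have h4 := PX_exp hx
    have h5 : (N : ℝ) ≤ PX (xN N) := by
      refine le_trans ?_ h4
      have e1 : (N:ℝ) = Real.exp (Real.log N) := (Real.exp_log (by positivity)).symm
      have e2 : 1 / xN N ^ 2 = (Real.log N) ^ 2 := by
        unfold xN
        field_simp
      rw [e2]
      nth_rw 1 [e1]
      exact Real.exp_le_exp.mpr (by nlinarith)
    exact_mod_cast h5
  have hLp : ∀ ω, 0 < ‖La N ω‖ := fun ω => norm_pos_iff.mpr (Complex.exp_ne_zero _)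
  -- the negative moment
  have mLn : Measurable fun ω => ‖La N ω‖ ^ (-(2 * s)) := (La_cont N).measurable.norm.pow_const _
  have dLn : Dep (pr N) fun ω => ‖La N ω‖ ^ (-(2 * s)) := by
    intro ω ω' hω
    simp only
    unfold La
    rw [Xs_dep (pr N) (1 / 2) hω]
  have q1 := Fp_indep κ hx hPX mLn dLn
  have q2 : ∫ ω, ‖Dx N (xN N) ω‖ ^ (2 * κ) * ‖La N ω‖ ^ (-(2 * s)) ∂tm = Jd k (-(2 * s)) (xN N) N := by
    unfold Jd Dx La
    refine integral_congr_ae (Eventually.of_forall fun ω => ?_)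
    simp only
    have e1 : (-(2 * s)) = 2 * (-s) := by ring
    rw [e1, norm_exp_rpow', norm_exp_rpow', ← Real.exp_add]
    congr 1
    rw [hκ, hk']
    ring
  have q3 : Jd k 0 (xN N) N = mk k (Dx N (xN N)) := by
    unfold Jd mk Dx
    refine integral_congr_ae (Eventually.of_forall fun ω => ?_)
    simp only
    rw [norm_exp_rpow', zero_mul, add_zero]
  obtain ⟨hJ0, hJ1⟩ := hJ (xN N) hx N hN
  rw [hxl, mul_one] at hJ1
  have q4 : Jd k (-(2 * s)) (xN N) N ≤ Real.exp C2 * mk k (Dx N (xN N)) := by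
    rw [← q3]
    have := (abs_le.mp hJ1).2
    linarith
  have q5 : (2 * xN N) ^ (k ^ 2) * mk k (Dx N (xN N)) ≤ C3 * 2 ^ (k ^ 2) := by
    refine (mul_le_mul_of_nonneg_left (hD N hN (xN N) hx.le) hX.le).trans (le_of_eq ?_)
    rw [mul_left_comm, ← Real.mul_rpow (by positivity) (by linarith), mul_assoc 2, hxl, mul_one]
  have q6 : (2 * xN N) ^ (k ^ 2) * ∫ ω, ‖Fp (xN N) 0 ω‖ ^ (2 * κ) * ‖La N ω‖ ^ (-(2 * s)) ∂tm ≤ K := by
    rw [q1, q2, ← mul_assoc, hK]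
    have hR0 : 0 ≤ ∫ ω, ‖Re' N (xN N) 0 ω‖ ^ (2 * κ) ∂tm := integral_nonneg fun ω => by positivity
    refine mul_le_mul ?_ h2 hR0 (by positivity)
    calc (2 * xN N) ^ (k ^ 2) * Jd k (-(2 * s)) (xN N) N ≤ (2 * xN N) ^ (k ^ 2) * (Real.exp C2 * mk k (Dx N (xN N))) := mul_le_mul_of_nonneg_left q4 hX.le
      _ = Real.exp C2 * ((2 * xN N) ^ (k ^ 2) * mk k (Dx N (xN N))) := by ring
      _ ≤ _ := mul_le_mul_of_nonneg_left q5 (Real.exp_pos _).le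
  -- integrability
  obtain ⟨B1, hB1⟩ := La_bd N
  obtain ⟨mS, AS, hAS⟩ := gd_pow (SS_gd N) (p := β) hβ.le
  obtain ⟨mS2, AS2, hAS2⟩ := gd_pow (SS_gd N) (p := β / 2) hp.le
  obtain ⟨mF, AF, hAF⟩ := gd_pow (Fp_gd hx 0) (p := 2 * κ) (by positivity)
  obtain ⟨mF2, AF2, hAF2⟩ := gd_pow (Fp_gd hx 0) (p := 2 * k - β / 2) (by rw [← hκ]; exact hκ0.le)
  obtain ⟨mL, AL, hAL⟩ := gd_pow (La_gd N) (p := 2 * s) (by positivity)
  have hLn : ∀ ω, |‖La N ω‖ ^ (-(2 * s))| ≤ B1 ^ (2 * s) := fun ω => by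
    have h3 := (hB1.2 ω).2
    have hB10 : 0 < B1 := by linarith [hB1.1]
    rw [abs_of_nonneg (by positivity), Real.rpow_neg (norm_nonneg _), ← Real.inv_rpow (norm_nonneg _)]
    refine Real.rpow_le_rpow (by positivity) ?_ (by positivity)
    exact inv_le_of_inv_le₀ hB10 h3
  have iA := gd_int mL mS hAL hAS
  have iB := gd_int mF mLn hAF hLn
  have iC := gd_int mS2 mF2 hAS2 hAF2
  -- the inequality of arithmetic and geometric means
  obtain ⟨t, ht⟩ : ∃ t : ℝ, t = K / c := ⟨_, rfl⟩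
  have ht0 : 0 < t := by rw [ht]; positivity
  have hpt : ∀ ω, ‖SS N ω‖ ^ (β / 2) * ‖Fp (xN N) 0 ω‖ ^ (2 * k - β / 2) ≤
      t / 2 * (‖La N ω‖ ^ (2 * s) * ‖SS N ω‖ ^ β) + 1 / (2 * t) * (‖Fp (xN N) 0 ω‖ ^ (2 * κ) * ‖La N ω‖ ^ (-(2 * s))) := by
    intro ω
    obtain ⟨a, ha⟩ : ∃ a : ℝ, a = ‖SS N ω‖ ^ (β / 2) := ⟨_, rfl⟩
    obtain ⟨b, hb⟩ : ∃ b : ℝ, b = ‖Fp (xN N) 0 ω‖ ^ (2 * k - β / 2) := ⟨_, rfl⟩
    obtain ⟨l, hl'⟩ : ∃ l : ℝ, l = ‖La N ω‖ ^ s := ⟨_, rfl⟩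
    have hl0 : 0 < l := by rw [hl']; exact Real.rpow_pos_of_pos (hLp ω) _
    have e1 : ‖SS N ω‖ ^ β = a ^ 2 := by
      rw [ha, ← Real.rpow_natCast, ← Real.rpow_mul (norm_nonneg _)]
      congr 1
      push_cast
      ring
    have e2 : ‖Fp (xN N) 0 ω‖ ^ (2 * κ) = b ^ 2 := by
      rw [hb, hκ, ← Real.rpow_natCast, ← Real.rpow_mul (norm_nonneg _)]
      congr 1
      push_cast
      ring
    have e3 : ‖La N ω‖ ^ (2 * s) = l ^ 2 := by
      rw [hl', ← Real.rpow_natCast, ← Real.rpow_mul (norm_nonneg _)]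
      congr 1
      push_cast
      ring
    have e4 : ‖La N ω‖ ^ (-(2 * s)) = (l ^ 2)⁻¹ := by
      rw [Real.rpow_neg (norm_nonneg _), e3]
    rw [e1, e2, e3, e4, ← ha, ← hb]
    have h4 : t / 2 * (l ^ 2 * a ^ 2) + 1 / (2 * t) * (b ^ 2 * (l ^ 2)⁻¹) - a * b = (t * l * a - b / l) ^ 2 / (2 * t) := by
      field_simp
      ring
    have h5 : 0 ≤ (t * l * a - b / l) ^ 2 / (2 * t) := by positivity
    linarith
  have h5 := integral_mono iC ((iA.const_mul (t / 2)).add (iB.const_mul (1 / (2 * t)))) hpt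
  have e5 : ∫ ω, (t / 2 * (‖La N ω‖ ^ (2 * s) * ‖SS N ω‖ ^ β) + 1 / (2 * t) * (‖Fp (xN N) 0 ω‖ ^ (2 * κ) * ‖La N ω‖ ^ (-(2 * s)))) ∂tm =
      t / 2 * (∫ ω, ‖La N ω‖ ^ (2 * s) * ‖SS N ω‖ ^ β ∂tm) + 1 / (2 * t) * ∫ ω, ‖Fp (xN N) 0 ω‖ ^ (2 * κ) * ‖La N ω‖ ^ (-(2 * s)) ∂tm := by
    rw [integral_add (iA.const_mul _) (iB.const_mul _), integral_const_mul, integral_const_mul]
  have h6 := h5.trans (le_of_eq e5)
  obtain ⟨A, hA⟩ : ∃ A : ℝ, A = ∫ ω, ‖La N ω‖ ^ (2 * s) * ‖SS N ω‖ ^ β ∂tm := ⟨_, rfl⟩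
  rw [← hA] at h6
  have h7 := mul_le_mul_of_nonneg_left h6 hX.le
  have h8 : c ≤ t / 2 * ((2 * xN N) ^ (k ^ 2) * A) + 1 / (2 * t) * K := by
    calc c ≤ _ := h1
      _ ≤ _ := h7
      _ = t / 2 * ((2 * xN N) ^ (k ^ 2) * A) + 1 / (2 * t) * ((2 * xN N) ^ (k ^ 2) * ∫ ω, ‖Fp (xN N) 0 ω‖ ^ (2 * κ) * ‖La N ω‖ ^ (-(2 * s)) ∂tm) := by ring
      _ ≤ _ := by
          have := mul_le_mul_of_nonneg_left q6 (show 0 ≤ 1 / (2 * t) by positivity)
          linarith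
  have h9 : c ^ 2 / K ≤ (2 * xN N) ^ (k ^ 2) * A := by
    have e6 : 1 / (2 * t) * K = c / 2 := by
      rw [ht]
      field_simp
    rw [e6, ht] at h8
    have h10 : c / 2 ≤ K / c / 2 * ((2 * xN N) ^ (k ^ 2) * A) := by linarith
    have h11 := mul_le_mul_of_nonneg_left h10 (show 0 ≤ 2 * c / K by positivity)
    have e7 : 2 * c / K * (K / c / 2 * ((2 * xN N) ^ (k ^ 2) * A)) = (2 * xN N) ^ (k ^ 2) * A := by field_simp
    have e8 : 2 * c / K * (c / 2) = c ^ 2 / K := by field_simp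
    rw [e7, e8] at h11
    exact h11
  -- the normalisation
  have hLm := hL N hN 0 le_rfl
  rw [Dx_zero] at hLm
  have hmp : 0 < mk s (La N) := La_mass s N
  have h12 : (2 * xN N) ^ (s ^ 2) * mk s (La N) ≤ C4 * 2 ^ (s ^ 2) := by
    refine (mul_le_mul_of_nonneg_left hLm hS.le).trans (le_of_eq ?_)
    rw [mul_left_comm, ← Real.mul_rpow (by positivity) (by linarith), mul_assoc 2, hxl, mul_one]
  have e9 : nuG s N (fun ω => ‖SS N ω‖ ^ β) = A / mk s (La N) := by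
    rw [hA]
    rfl
  rw [e9, ex_eq, Real.rpow_sub (by positivity), ← hk']
  have e10 : (2 * xN N) ^ (k ^ 2) / (2 * xN N) ^ (s ^ 2) * (A / mk s (La N)) = (2 * xN N) ^ (k ^ 2) * A / ((2 * xN N) ^ (s ^ 2) * mk s (La N)) := by
    field_simp
  rw [e10]
  exact div_le_div₀ (le_trans (by positivity) h9) h9 (by positivity) h12

end Pool.Agent.H470
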