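import Pool.Agent.H470.Va10
import Pool.Agent.H470.Ua6

set_option autoImplicit false

/-! Weighted time averages: from the characters to all continuous functions. -/

namespace Pool.Agent.H470

open MeasureTheory Filter Topology ProbabilityTheory Set
open Pool.Agent.TH806 (ec ec_norm ec_cont uu integrable_uu)

/-- the complex tilted mean -/
noncomputable def nuC (k : ℝ) (P : ℕ) (F : (ℕ → ℝ) → ℂ) : ℂ :=
  (∫ ω, ((‖La P ω‖ ^ (2 * k) : ℝ) : ℂ) * F ω ∂tm) / ((∫ ω, ‖La P ω‖ ^ (2 * k) ∂tm : ℝ) : ℂ)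

lemma nuC_real (k : ℝ) (P : ℕ) (G : (ℕ → ℝ) → ℝ) : nuC k P (fun ω => ((G ω : ℝ) : ℂ)) = ((nuG k P G : ℝ) : ℂ) := by
  have h1 : ((∫ ω, ‖La P ω‖ ^ (2 * k) * G ω ∂tm : ℝ) : ℂ) = ∫ ω, ((‖La P ω‖ ^ (2 * k) : ℝ) : ℂ) * ((G ω : ℝ) : ℂ) ∂tm := by
    rw [← integral_complex_ofReal]
    refine integral_congr_ae (Eventually.of_forall fun ω => ?_)
    simp only
    rw [Complex.ofReal_mul]
  unfold nuC nuG
  rw [Complex.ofReal_div, h1]

lemma nuC_one (k : ℝ) (P : ℕ) : nuC k P (fun _ => 1) = 1 := by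
  have h := nuC_real k P (fun _ => 1)
  have h1 : nuG k P (fun _ => 1) = 1 := by
    unfold nuG
    simp only [mul_one]
    exact div_self (La_mass k P).ne'
  rw [h1] at h
  simpa using h

/-- the tilted means are consistent -/
theorem nuG_ext (k : ℝ) {P P' : ℕ} (h : P ≤ P') {G : (ℕ → ℝ) → ℝ} (hG : Measurable G) (hd : Dep (pr P) G) : nuG k P' G = nuG k P G := by
  have hsub : pr P ⊆ pr P' := by
    unfold pr
    exact Finset.filter_subset_filter _ (Finset.Icc_subset_Icc_right h)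
  have hdis : Disjoint (pr P) (pr P' \ pr P) := Finset.disjoint_sdiff
  obtain ⟨R, hR⟩ : ∃ R : (ℕ → ℝ) → ℂ, R = fun ω => Complex.exp (Xs (pr P' \ pr P) (1 / 2) ω) := ⟨_, rfl⟩
  have hRc : Continuous R := by
    rw [hR]
    exact Complex.continuous_exp.comp (Xs_cont (fun p hp => pr_two (Finset.sdiff_subset hp)) half_re)
  have e1 : ∀ ω, La P' ω = La P ω * R ω := by
    intro ω
    unfold La Xs
    rw [hR]
    simp only
    unfold Xs
    rw [← Complex.exp_add, ← Finset.sum_sdiff hsub, add_comm]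
  have hRm : Measurable fun ω => ‖R ω‖ ^ (2 * k) := (hRc.norm.measurable).pow_const _
  have hRd : Dep (pr P' \ pr P) fun ω => ‖R ω‖ ^ (2 * k) := by
    intro ω ω' hω
    simp only [hR]
    rw [Xs_dep _ _ hω]
  have hLm : Measurable fun ω => ‖La P ω‖ ^ (2 * k) := ((La_cont P).norm.measurable).pow_const _
  have hLd : Dep (pr P) fun ω => ‖La P ω‖ ^ (2 * k) := by
    intro ω ω' hω
    simp only [La]
    rw [Xs_dep _ _ hω]
  have hfac : ∀ H : (ℕ → ℝ) → ℝ, Measurable H → Dep (pr P) H →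
      ∫ ω, ‖La P' ω‖ ^ (2 * k) * H ω ∂tm = (∫ ω, ‖La P ω‖ ^ (2 * k) * H ω ∂tm) * ∫ ω, ‖R ω‖ ^ (2 * k) ∂tm := by
    intro H hH hHd
    have hm2 : Measurable fun ω => ‖La P ω‖ ^ (2 * k) * H ω := hLm.mul hH
    have hd2 : Dep (pr P) fun ω => ‖La P ω‖ ^ (2 * k) * H ω := by
      intro ω ω' hω
      have h8 := hLd ω ω' hω
      have h9 := hHd ω ω' hω
      simp only at h8 ⊢
      rw [h8, h9]
    rw [← dep_int hdis hm2 hRm hd2 hRd]
    refine integral_congr_ae (Eventually.of_forall fun ω => ?_)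
    simp only
    rw [e1, norm_mul, Real.mul_rpow (norm_nonneg _) (norm_nonneg _)]
    ring
  have h1 := hfac G hG hd
  have h2 := hfac (fun _ => 1) measurable_const (fun _ _ _ => rfl)
  simp only [mul_one] at h2
  have h3 := La_mass k P'
  have h4 := La_mass k P
  have h5 : ∫ ω, ‖R ω‖ ^ (2 * k) ∂tm ≠ 0 := by
    intro h0
    rw [h2, h0, mul_zero] at h3
    exact lt_irrefl _ h3
  unfold nuG
  rw [h1, h2, mul_div_mul_right _ _ h5]

/-- weighted means with a limit -/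
def WM (ν : ℝ → Measure ℝ) (s c : ℝ) : Prop :=
  (∀ᶠ T : ℝ in atTop, IsFiniteMeasure (ν T)) ∧ ∀ m n : ℕ, m ≠ 0 → n ≠ 0 → ∃ P0 : ℕ, ∀ P, P0 ≤ P →
    Tendsto (fun T : ℝ => ∫ t, tn m t * (starRingEnd ℂ) (tn n t) ∂ν T) atTop
      (𝓝 ((c : ℂ) * nuC s P (fun ω => ch m ω * (starRingEnd ℂ) (ch n ω))))

lemma tn_nm {n : ℕ} (hn : n ≠ 0) (t : ℝ) : ‖tn n t‖ = 1 := by
  rw [tn_eq hn, Complex.norm_exp_ofReal_mul_I]

lemma tn_ct {n : ℕ} (hn : n ≠ 0) : Continuous (tn n) := by
  have : tn n = fun t => Complex.exp (((-(Real.log n * t) : ℝ) : ℂ) * Complex.I) := funext fun t => tn_eq hn t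
  rw [this]
  fun_prop

lemma fin_int {μ : Measure ℝ} [IsFiniteMeasure μ] {f : ℝ → ℂ} (hf : Continuous f) {B : ℝ} (hB : ∀ t, ‖f t‖ ≤ B) : Integrable f μ :=
  Integrable.of_bound hf.aestronglyMeasurable B (Eventually.of_forall hB)

lemma fin_intR {μ : Measure ℝ} [IsFiniteMeasure μ] {f : ℝ → ℝ} (hf : Continuous f) {B : ℝ} (hB : ∀ t, ‖f t‖ ≤ B) : Integrable f μ :=
  Integrable.of_bound hf.aestronglyMeasurable B (Eventually.of_forall hB)

/-- linear combinations -/
lemma Bp.limW {ν : ℝ → Measure ℝ} {s c : ℝ} (hν : WM ν s c) {f : ℝ → ℂ} {F : (ℕ → ℝ) → ℂ} (h : Bp f F) :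
    ∃ P0 : ℕ, ∀ P, P0 ≤ P → Tendsto (fun T : ℝ => ∫ t, f t ∂ν T) atTop (𝓝 ((c : ℂ) * nuC s P F)) := by
  classical
  obtain ⟨ι, _, d, a, b, ha, hb, h1, h2⟩ := h
  choose P0 hP0 using fun i => hν.2 (a i) (b i) (ha i) (hb i)
  refine ⟨Finset.univ.sup P0, fun P hP => ?_⟩
  have hlim : Tendsto (fun T : ℝ => ∑ i, d i * ∫ t, tn (a i) t * (starRingEnd ℂ) (tn (b i) t) ∂ν T) atTop
      (𝓝 (∑ i, d i * ((c : ℂ) * nuC s P (fun ω => ch (a i) ω * (starRingEnd ℂ) (ch (b i) ω))))) := by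
    refine tendsto_finsetSum _ fun i _ => ?_
    exact (hP0 i P ((Finset.le_sup (f := P0) (Finset.mem_univ i)).trans hP)).const_mul _
  have e1 : ∑ i, d i * ((c : ℂ) * nuC s P (fun ω => ch (a i) ω * (starRingEnd ℂ) (ch (b i) ω))) = (c : ℂ) * nuC s P F := by
    unfold nuC
    have e2 : ∫ ω, ((‖La P ω‖ ^ (2 * s) : ℝ) : ℂ) * F ω ∂tm =
        ∑ i, d i * ∫ ω, ((‖La P ω‖ ^ (2 * s) : ℝ) : ℂ) * (ch (a i) ω * (starRingEnd ℂ) (ch (b i) ω)) ∂tm := by
      have hint : ∀ i, Integrable (fun ω => ((‖La P ω‖ ^ (2 * s) : ℝ) : ℂ) * (d i * (ch (a i) ω * (starRingEnd ℂ) (ch (b i) ω)))) tm := by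
        intro i
        obtain ⟨B, hB1, hB⟩ := La_bd P
        have hc1 : Continuous fun ω => ((‖La P ω‖ ^ (2 * s) : ℝ) : ℂ) := by
          refine Complex.continuous_ofReal.comp (Continuous.rpow_const (La_cont P).norm fun ω => Or.inl ?_)
          have h3 := (hB ω).2
          have : 0 < B⁻¹ := by positivity
          linarith [h3]
        have hc2 : Continuous fun ω => d i * (ch (a i) ω * (starRingEnd ℂ) (ch (b i) ω)) :=
          continuous_const.mul ((ch_cont _).mul (Complex.continuous_conj.comp (ch_cont _)))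
        refine tm_int (hc1.mul hc2) (B := (B ^ (2 * s) + B⁻¹ ^ (2 * s)) * ‖d i‖) fun ω => ?_
        rw [norm_mul, norm_mul, norm_mul, Complex.norm_conj, ch_norm, ch_norm, mul_one, mul_one, Complex.norm_real, Real.norm_of_nonneg (by positivity)]
        refine mul_le_mul_of_nonneg_right ?_ (norm_nonneg _)
        have hB0 : 0 < B := by linarith
        have hBi : 0 < B⁻¹ := by positivity
        rcases le_total 0 (2 * s) with hs | hs
        · have h5 := Real.rpow_le_rpow (norm_nonneg _) (hB ω).1 hs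
          have : 0 ≤ B⁻¹ ^ (2 * s) := by positivity
          linarith
        · have h5 := Real.rpow_le_rpow_of_nonpos hBi (hB ω).2 hs
          have : 0 ≤ B ^ (2 * s) := by positivity
          linarith
      have e3 : ∀ ω, ((‖La P ω‖ ^ (2 * s) : ℝ) : ℂ) * F ω = ∑ i, ((‖La P ω‖ ^ (2 * s) : ℝ) : ℂ) * (d i * (ch (a i) ω * (starRingEnd ℂ) (ch (b i) ω))) := by
        intro ω
        rw [h2, Finset.mul_sum]
      simp_rw [e3]
      rw [integral_finsetSum _ fun i _ => hint i]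
      refine Finset.sum_congr rfl fun i _ => ?_
      rw [← integral_const_mul]
      refine integral_congr_ae (Eventually.of_forall fun ω => ?_)
      simp only
      ring
    rw [e2, Finset.sum_div, Finset.mul_sum]
    refine Finset.sum_congr rfl fun i _ => ?_
    ring
  rw [e1] at hlim
  refine hlim.congr' ?_
  filter_upwards [hν.1] with T hT
  have e4 : ∀ t, f t = ∑ i, d i * (tn (a i) t * (starRingEnd ℂ) (tn (b i) t)) := h1
  simp_rw [e4]
  rw [integral_finsetSum _ fun i _ => ?_]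
  · refine Finset.sum_congr rfl fun i _ => ?_
    rw [integral_const_mul]
  · refine fin_int (B := ‖d i‖) (continuous_const.mul ((tn_ct (ha i)).mul (Complex.continuous_conj.comp (tn_ct (hb i))))) fun t => ?_
    rw [norm_mul, norm_mul, Complex.norm_conj, tn_nm (ha i), tn_nm (hb i), mul_one, mul_one]

lemma WM.mass {ν : ℝ → Measure ℝ} {s c : ℝ} (hν : WM ν s c) : Tendsto (fun T : ℝ => (ν T).real univ) atTop (𝓝 c) := by
  obtain ⟨P0, hP0⟩ := Bp.limW hν (Bp.const 1)
  have h := (Complex.continuous_re.tendsto _).comp (hP0 P0 le_rfl)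
  rw [nuC_one, mul_one, Complex.ofReal_re] at h
  refine h.congr fun T => ?_
  simp

lemma WM.nonneg {ν : ℝ → Measure ℝ} {s c : ℝ} (hν : WM ν s c) : 0 ≤ c :=
  ge_of_tendsto' hν.mass fun _ => measureReal_nonneg

variable {ι : Type} [Fintype ι]

/-- weighted time averages of continuous functions -/
theorem Bp.fnW {ν : ℝ → Measure ℝ} {s c : ℝ} (hν : WM ν s c) {f : ι → ℝ → ℂ} {F : ι → (ℕ → ℝ) → ℂ} (h : ∀ i, Bp (f i) (F i)) {P : ℕ}
    (hd : ∀ i, ∀ ω ω' : ℕ → ℝ, (∀ p ∈ pr P, ω p = ω' p) → F i ω = F i ω') {H : (ι → ℂ) → ℝ} (hH : Continuous H) :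
    Tendsto (fun T : ℝ => ∫ t, H (fun i => f i t) ∂ν T) atTop (𝓝 (c * nuG s P (fun ω => H (fun i => F i ω)))) := by
  choose M hM0 hMf hMF using fun i => (h i).bd
  obtain ⟨B, hB⟩ : ∃ B : ℝ, B = ∑ i, M i := ⟨_, rfl⟩
  have hB0 : 0 ≤ B := by rw [hB]; exact Finset.sum_nonneg fun i _ => hM0 i
  have hMB : ∀ i, M i ≤ B := fun i => by rw [hB]; exact Finset.single_le_sum (fun i _ => hM0 i) (Finset.mem_univ i)
  obtain ⟨K, hK⟩ : ∃ K : Set (ι → ℂ), K = Metric.closedBall 0 B := ⟨_, rfl⟩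
  have hKc : IsCompact K := by rw [hK]; exact isCompact_closedBall 0 B
  have hfK : ∀ t, (fun i => f i t) ∈ K := fun t => by
    rw [hK, mem_closedBall_zero_iff, pi_norm_le_iff_of_nonneg hB0]
    exact fun i => (hMf i t).trans (hMB i)
  have hFK : ∀ ω, (fun i => F i ω) ∈ K := fun ω => by
    rw [hK, mem_closedBall_zero_iff, pi_norm_le_iff_of_nonneg hB0]
    exact fun i => (hMF i ω).trans (hMB i)
  have hfc : Continuous fun t => (fun i => f i t) := continuous_pi fun i => (h i).cont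
  have hFc : Continuous fun ω => (fun i => F i ω) := continuous_pi fun i => (h i).contF
  have hc0 := hν.nonneg
  rw [Metric.tendsto_nhds]
  intro e he
  obtain ⟨e1, he1⟩ : ∃ e1 : ℝ, e1 = e / (4 * (c + 1)) := ⟨_, rfl⟩
  have he1p : 0 < e1 := by rw [he1]; positivity
  have he1e : e1 * (c + 1) = e / 4 := by
    rw [he1]
    field_simp
  obtain ⟨g, hgA, hg⟩ := ContinuousMap.exists_mem_subalgebra_near_continuous_of_isCompact_of_separatesPoints (alg_sep h) ⟨H, hH⟩ hKc (ε := e1) he1p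
  obtain ⟨b, hb⟩ : ∃ b : ℝ, ∀ z ∈ K, ‖H z‖ ≤ b := hKc.exists_bound_of_continuousOn hH.continuousOn
  have hc1 : Continuous fun t => g (fun i => f i t) := g.continuous.comp hfc
  have hc2 : Continuous fun t => H (fun i => f i t) := hH.comp hfc
  have hgb : ∀ z ∈ K, ‖g z‖ ≤ b + e1 := fun z hz => by
    have h3 : ‖g z - H z‖ < e1 := hg z hz
    have h4 := hb z hz
    have h5 := norm_sub_norm_le (g z) (H z)
    linarith
  have hgl : Tendsto (fun T : ℝ => ∫ t, g (fun i => f i t) ∂ν T) atTop (𝓝 (c * nuG s P (fun ω => g (fun i => F i ω)))) := by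
    obtain ⟨P0, hP0⟩ := Bp.limW hν hgA
    have h3 := (Complex.continuous_re.tendsto _).comp (hP0 (max P0 P) (le_max_left _ _))
    have hdg : Dep (pr P) fun ω => g (fun i => F i ω) := by
      intro ω ω' hω
      have : (fun i => F i ω) = fun i => F i ω' := funext fun i => hd i ω ω' hω
      simp only [this]
    have hmg : Measurable fun ω => g (fun i => F i ω) := (g.continuous.comp hFc).measurable
    rw [nuC_real, ← Complex.ofReal_mul, Complex.ofReal_re, nuG_ext s (le_max_right P0 P) hmg hdg] at h3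
    refine h3.congr fun T => ?_
    show (∫ t, ((g (fun i => f i t) : ℝ) : ℂ) ∂ν T).re = _
    rw [integral_complex_ofReal, Complex.ofReal_re]
  have hmass := La_mass s P
  have hT2 : |c * nuG s P (fun ω => g (fun i => F i ω)) - c * nuG s P (fun ω => H (fun i => F i ω))| ≤ e / 4 := by
    have hLi : Integrable (fun ω => ‖La P ω‖ ^ (2 * s)) tm := by
      by_contra hcon
      rw [integral_undef hcon] at hmass
      exact lt_irrefl _ hmass
    have hi : ∀ G : (ℕ → ℝ) → ℝ, Continuous G → (∃ D, ∀ ω, ‖G ω‖ ≤ D) → Integrable (fun ω => ‖La P ω‖ ^ (2 * s) * G ω) tm := by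
      rintro G hG ⟨D, hD⟩
      exact (hLi.bdd_mul hG.aestronglyMeasurable (Eventually.of_forall hD)).congr (Eventually.of_forall fun ω => mul_comm _ _)
    have hi1 := hi (fun ω => g (fun i => F i ω)) (g.continuous.comp hFc) ⟨_, fun ω => hgb _ (hFK ω)⟩
    have hi2 := hi (fun ω => H (fun i => F i ω)) (hH.comp hFc) ⟨_, fun ω => hb _ (hFK ω)⟩
    unfold nuG
    rw [← mul_sub, ← sub_div, ← integral_sub hi1 hi2, abs_mul, abs_of_nonneg hc0, abs_div, abs_of_pos hmass]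
    have h6 : |∫ ω, ((‖La P ω‖ ^ (2 * s) * g (fun i => F i ω)) - ‖La P ω‖ ^ (2 * s) * H (fun i => F i ω)) ∂tm| ≤ e1 * ∫ ω, ‖La P ω‖ ^ (2 * s) ∂tm := by
      rw [← integral_const_mul]
      refine (abs_integral_le_integral_abs).trans (integral_mono (hi1.sub hi2).abs (hLi.const_mul _) fun ω => ?_)
      simp only
      rw [← mul_sub, abs_mul, abs_of_nonneg (by positivity), mul_comm]
      refine mul_le_mul_of_nonneg_right ?_ (by positivity)
      exact (hg _ (hFK ω)).le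
    have h7 : |∫ ω, ((‖La P ω‖ ^ (2 * s) * g (fun i => F i ω)) - ‖La P ω‖ ^ (2 * s) * H (fun i => F i ω)) ∂tm| / (∫ ω, ‖La P ω‖ ^ (2 * s) ∂tm) ≤ e1 := by
      rw [div_le_iff₀ hmass]
      exact h6
    calc c * _ ≤ c * e1 := mul_le_mul_of_nonneg_left h7 hc0
      _ ≤ e / 4 := by rw [← he1e]; nlinarith
  filter_upwards [Metric.tendsto_nhds.mp hgl (e / 4) (by positivity), hν.1, hν.mass.eventually (gt_mem_nhds (show c < c + 1 by linarith))] with T hT hTf hTm
  have hT1 : |(∫ t, g (fun i => f i t) ∂ν T) - ∫ t, H (fun i => f i t) ∂ν T| ≤ e / 4 := by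
    rw [← integral_sub (fin_intR hc1 fun t => hgb _ (hfK t)) (fin_intR hc2 fun t => hb _ (hfK t)), ← Real.norm_eq_abs]
    refine (norm_integral_le_of_norm_le_const (C := e1) (Eventually.of_forall fun t => (hg _ (hfK t)).le)).trans ?_
    rw [← he1e]
    exact mul_le_mul_of_nonneg_left hTm.le he1p.le
  rw [Real.dist_eq] at hT ⊢
  rw [abs_lt] at hT ⊢
  rw [abs_le] at hT1 hT2
  constructor <;> linarith [hT.1, hT.2, hT1.1, hT1.2, hT2.1, hT2.2]

end Pool.Agent.H470
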