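import Pool.Agent.H470.Va11
import Pool.Graph.R_pool_sql_team_seeded_c8625f6e.K4H95.ZP.Tor

set_option autoImplicit false

/-! The fourth power of zeta on the critical line as a weight. -/

namespace Pool.Agent.H470

open MeasureTheory Filter Topology ProbabilityTheory Set
open Pool.Agent.TH806 (ec ec_norm ec_cont uu integrable_uu ec_add ec_conj ec_nat int_ec)
open Pool.Agent.Y852.SX (qd Aq Bq Aq_eq qd_cont qd_nonneg qd_le rp rp_pos rp_lt rp_sq)
open Pool.Agent.Y969.SM (Xz w2)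

/-- the local integrals -/
noncomputable def EI (k : ℝ) (p : ℕ) (n : ℤ) : ℂ := ∫ x, ((‖1 - (p:ℂ) ^ (-(1 / 2) : ℂ) * ec x‖ ^ (-(2 * k)) : ℝ) : ℂ) * ec (n * x) ∂uu

lemma La_norm (k : ℝ) (P : ℕ) (ω : ℕ → ℝ) : ‖La P ω‖ ^ (2 * k) = ∏ p ∈ pr P, ‖1 - (p:ℂ) ^ (-(1 / 2) : ℂ) * ec (ω p)‖ ^ (-(2 * k)) := by
  rw [La_prod, norm_prod, ← Real.finsetProd_rpow _ _ fun i _ => norm_nonneg _]
  refine Finset.prod_congr rfl fun p _ => ?_
  rw [norm_inv, Real.inv_rpow (norm_nonneg _), Real.rpow_neg (norm_nonneg _)]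

lemma supp_pr {n P : ℕ} (hn : n ≠ 0) (h : n ≤ P) : n.factorization.support ⊆ pr P := by
  intro p hp
  rw [Nat.support_factorization, Nat.mem_primeFactors] at hp
  unfold pr
  rw [Finset.mem_filter, Finset.mem_Icc]
  exact ⟨⟨hp.1.one_le, (Nat.le_of_dvd (Nat.pos_of_ne_zero hn) hp.2.1).trans h⟩, hp.1⟩

lemma ch_two {m n P : ℕ} (hm : m ≠ 0) (hn : n ≠ 0) (hmP : m ≤ P) (hnP : n ≤ P) (ω : ℕ → ℝ) :
    ch m ω * (starRingEnd ℂ) (ch n ω) = ∏ p ∈ pr P, ec ((((m.factorization p : ℤ) - (n.factorization p : ℤ) : ℤ) : ℝ) * ω p) := by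
  rw [ch_set (supp_pr hm hmP), ch_set (supp_pr hn hnP), map_prod, ← Finset.prod_mul_distrib]
  refine Finset.prod_congr rfl fun p _ => ?_
  rw [ec_conj, ← ec_add]
  congr 1
  push_cast
  ring

/-- the tilted mean of a character -/
theorem nuC_ch (k : ℝ) {m n P : ℕ} (hm : m ≠ 0) (hn : n ≠ 0) (hmP : m ≤ P) (hnP : n ≤ P) :
    nuC k P (fun ω => ch m ω * (starRingEnd ℂ) (ch n ω)) = ∏ p ∈ pr P, (EI k p ((m.factorization p : ℤ) - (n.factorization p : ℤ)) / ((JJ (2 * k) p : ℝ) : ℂ)) := by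
  unfold nuC
  have h1 : ∫ ω, ‖La P ω‖ ^ (2 * k) ∂tm = ∏ p ∈ pr P, JJ (2 * k) p := mass_La k P
  rw [h1, Complex.ofReal_prod, Finset.prod_div_distrib]
  congr 1
  have hm1 : ∀ p : ℕ, Measurable fun x : ℝ => ((‖1 - (p:ℂ) ^ (-(1 / 2) : ℂ) * ec x‖ ^ (-(2 * k)) : ℝ) : ℂ) * ec ((((m.factorization p : ℤ) - (n.factorization p : ℤ) : ℤ) : ℝ) * x) := by
    intro p
    exact (Complex.measurable_ofReal.comp (JJ_meas (2 * k) p)).mul (ec_cont.comp (by fun_prop)).measurable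
  have h2 := prod_int (pr P) hm1
  unfold EI
  rw [← h2]
  refine integral_congr_ae (Eventually.of_forall fun ω => ?_)
  simp only
  rw [La_norm, ch_two hm hn hmP hnP, Complex.ofReal_prod, ← Finset.prod_mul_distrib]

/-- the flow -/
noncomputable def fl (t : ℝ) (p : ℕ) : ℝ := -(t * Real.log p / (2 * Real.pi))

lemma fl_tn {p : ℕ} (hp : p ≠ 0) (t : ℝ) : ec (fl t p) = tn p t := by
  rw [tn_eq hp]
  unfold ec fl
  congr 1
  have hpi : (Real.pi : ℂ) ≠ 0 := by exact_mod_cast Real.pi_ne_zero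
  push_cast
  field_simp

lemma ch_fl {n : ℕ} (hn : n ≠ 0) (t : ℝ) : ch n (fl t) = tn n t := by
  induction n using Nat.recOnMul with
  | zero => exact absurd rfl hn
  | one => rw [ch_one, tn_one]
  | prime p hp => rw [ch_prime hp, fl_tn hp.ne_zero]
  | mul a b iha ihb =>
    have ha : a ≠ 0 := left_ne_zero_of_mul hn
    have hb : b ≠ 0 := right_ne_zero_of_mul hn
    rw [ch_mul ha hb, tn_mul, iha ha, ihb hb]

lemma rp_eq {p : ℕ} (hp : p.Prime) : (p:ℂ) ^ (-(1 / 2) : ℂ) = ((rp p : ℝ) : ℂ) := by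
  have hp0 : (p : ℂ) ≠ 0 := by exact_mod_cast hp.ne_zero
  rw [Complex.cpow_def_of_ne_zero hp0, ← Complex.natCast_log]
  unfold rp
  rw [Complex.ofReal_exp]
  congr 1
  push_cast
  ring

lemma qd_rpow {p : ℕ} (hp : p.Prime) (x : ℝ) : ‖1 - (p:ℂ) ^ (-(1 / 2) : ℂ) * ec x‖ ^ (-(2 * (2:ℝ))) = qd (rp p) x := by
  unfold qd
  rw [rp_eq hp, Real.rpow_neg (norm_nonneg _), norm_inv, inv_pow]
  congr 1
  rw [← Real.rpow_natCast]
  congr 1
  norm_num

lemma EI_two {p : ℕ} (hp : p.Prime) (n : ℤ) : EI 2 p n = ((Bq (rp p) n : ℝ) : ℂ) := by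
  rw [← Aq_eq (rp_pos p).le (rp_lt p hp) n]
  unfold EI Aq
  refine integral_congr_ae (Eventually.of_forall fun x => ?_)
  simp only
  rw [qd_rpow hp, mul_comm]

lemma JJ_two {p : ℕ} (hp : p.Prime) : JJ (2 * 2) p = Bq (rp p) 0 := by
  have h := EI_two hp 0
  have h1 : EI 2 p 0 = ((JJ (2 * 2) p : ℝ) : ℂ) := by
    unfold EI JJ
    rw [← integral_complex_ofReal]
    refine integral_congr_ae (Eventually.of_forall fun x => ?_)
    simp [Pool.Agent.TH806.ec_zero]
  rw [h1] at h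
  exact_mod_cast h

lemma Bq_neg (r : ℝ) (n : ℤ) : Bq r (-n) = Bq r n := by
  unfold Bq
  rw [Int.natAbs_neg]

/-- the weight -/
noncomputable def n4 (T : ℝ) : Measure ℝ := (volume.restrict (Set.Ioc 0 T)).withDensity fun t => ENNReal.ofReal (Xz t ^ 4 / (T * Real.log T ^ 4))

lemma Xc : Continuous Xz := Pool.Agent.Y475.SX.Xz_cont

lemma X0 (t : ℝ) : 0 ≤ Xz t := norm_nonneg _

lemma n4_int {T : ℝ} (hT : 1 < T) (f : ℝ → ℂ) :
    ∫ t, f t ∂n4 T = (∫ t in (0:ℝ)..T, ((Xz t ^ 4 : ℝ) : ℂ) * f t) / ((T * Real.log T ^ 4 : ℝ) : ℂ) := by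
  have hl : 0 < Real.log T := Real.log_pos hT
  have hT0 : 0 < T := by linarith
  have hm : Measurable fun t => ENNReal.ofReal (Xz t ^ 4 / (T * Real.log T ^ 4)) := by
    have : Continuous fun t => Xz t ^ 4 / (T * Real.log T ^ 4) := (Xc.pow 4).div_const _
    exact ENNReal.measurable_ofReal.comp this.measurable
  unfold n4
  rw [integral_withDensity_eq_integral_toReal_smul hm (Eventually.of_forall fun t => ENNReal.ofReal_lt_top), intervalIntegral.integral_of_le hT0.le,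
    ← integral_div]
  refine integral_congr_ae (Eventually.of_forall fun t => ?_)
  simp only
  have h1 : 0 ≤ Xz t ^ 4 / (T * Real.log T ^ 4) := div_nonneg (pow_nonneg (X0 t) 4) (by positivity)
  rw [ENNReal.toReal_ofReal h1, Complex.real_smul]
  push_cast
  ring

lemma n4_fin {T : ℝ} (hT : 1 < T) : IsFiniteMeasure (n4 T) := by
  have hl : 0 < Real.log T := Real.log_pos hT
  have hT0 : 0 < T := by linarith
  unfold n4
  refine isFiniteMeasure_withDensity_ofReal ?_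
  have hc : Continuous fun t => Xz t ^ 4 / (T * Real.log T ^ 4) := (Xc.pow 4).div_const _
  have : IntegrableOn (fun t => Xz t ^ 4 / (T * Real.log T ^ 4)) (Set.Ioc 0 T) volume :=
    (hc.integrableOn_Icc (a := 0) (b := T)).mono_set Set.Ioc_subset_Icc_self
  exact this.2

/-- the fourth power of zeta on the critical line -/
theorem WM_four : WM n4 2 (1 / (2 * Real.pi ^ 2)) := by
  refine ⟨(eventually_gt_atTop 1).mono fun T hT => n4_fin hT, fun m n hm hn => ⟨max m n, fun P hP => ?_⟩⟩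
  have hmP : m ≤ P := (le_max_left m n).trans hP
  have hnP : n ≤ P := (le_max_right m n).trans hP
  have h := Pool.Agent.K4H95.ZP.tor (fun p θ => ec ((((n.factorization p : ℤ) - (m.factorization p : ℤ) : ℤ) : ℝ) * θ))
    (fun p => ec_cont.comp (by fun_prop)) (fun p θ => ?_) (pr P) (fun p hp => pr_prime hp) (1, 1) one_ne_zero one_ne_zero (fun p hp hd => ?_)
  · have e1 : (((Pool.Agent.K4H95.ZP.Wx (1, 1) / (2 * Real.pi ^ 2) : ℝ) : ℂ) * ∏ p ∈ pr P, Pool.Agent.K4H95.ZP.E p (fun θ => ec ((((n.factorization p : ℤ) - (m.factorization p : ℤ) : ℤ) : ℝ) * θ))) =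
        ((1 / (2 * Real.pi ^ 2) : ℝ) : ℂ) * nuC 2 P (fun ω => ch m ω * (starRingEnd ℂ) (ch n ω)) := by
      have e2 : Pool.Agent.K4H95.ZP.Wx (1, 1) = 1 := by
        unfold Pool.Agent.K4H95.ZP.Wx w2 Pool.Agent.W184.NZ.w1
        simp
      rw [e2, nuC_ch 2 hm hn hmP hnP]
      congr 1
      refine Finset.prod_congr rfl fun p hp => ?_
      have hpp := pr_prime hp
      rw [Pool.Agent.K4H95.ZP.E_ec hpp, EI_two hpp, JJ_two hpp, ← Bq_neg _ ((m.factorization p : ℤ) - (n.factorization p : ℤ)), neg_sub]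
      push_cast
      rfl
    rw [e1] at h
    refine h.congr' ?_
    filter_upwards [eventually_gt_atTop 1] with T hT
    rw [n4_int hT]
    unfold Pool.Agent.K4H95.ZP.AX
    congr 1
    refine intervalIntegral.integral_congr fun t _ => ?_
    simp only
    congr 1
    rw [← ch_fl hm, ← ch_fl hn, ch_two hm hn hmP hnP]
    have e3 : Pool.Agent.K4H95.ZP.ch (1, 1) t = 1 := by
      rw [Pool.Agent.K4H95.ZP.ch_eq one_ne_zero one_ne_zero]
      unfold Pool.Agent.K4H95.ZP.th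
      simp [Pool.Agent.TH806.ec_zero]
    rw [e3, one_mul]
    refine Finset.prod_congr rfl fun p _ => ?_
    congr 1
    unfold fl Pool.Agent.K4H95.ZP.th
    push_cast
    ring
  · have e4 : (((n.factorization p : ℤ) - (m.factorization p : ℤ) : ℤ) : ℝ) * (θ + 1) = (((n.factorization p : ℤ) - (m.factorization p : ℤ) : ℤ) : ℝ) * θ + (((n.factorization p : ℤ) - (m.factorization p : ℤ) : ℤ) : ℝ) := by ring
    rw [e4, ec_add]
    have e5 : ec (((n.factorization p : ℤ) - (m.factorization p : ℤ) : ℤ) : ℝ) = 1 := by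
      unfold ec
      rw [Complex.exp_eq_one_iff]
      exact ⟨(n.factorization p : ℤ) - (m.factorization p : ℤ), by push_cast; ring⟩
    rw [e5, mul_one]
  · have := (pr_prime hp).two_le
    rw [mul_one, Nat.dvd_one] at hd
    omega

end Pool.Agent.H470
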