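import Pool.Agent.H470.Va12

set_option autoImplicit false

/-! Mixed moments: the two limits. -/

namespace Pool.Agent.H470

open MeasureTheory Filter Topology ProbabilityTheory Set
open scoped ENNReal
open Pool.Agent.TH806 (ec ec_norm ec_cont uu integrable_uu)

variable {m : ℕ}

/-- the limit in `T` -/
theorem numW {ν : ℝ → Measure ℝ} {s c : ℝ} (hν : WM ν s c) {Φ : (Fin m → ℂ) → ℝ} (hc : Continuous Φ) {P : ℕ} {G : (Fin P → ℂ) → ℝ} (hG : Continuous G)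
    (r : Fin m → ℕ) (u : Fin m → ℝ) (N : ℕ) {Q : ℕ} (hQ : ∀ j, N ^ r j ≤ Q) (hP : Nat.nth Nat.Prime P - 1 ≤ Q) :
    Tendsto (fun T : ℝ => ∫ t, Φ (fun j => WW (fun _ => 1) (N ^ r j) (t + u j * xN N)) * G (fun i => tn (Nat.nth Nat.Prime i) t) ∂ν T) atTop
      (𝓝 (c * nuG s Q (fun ω => Φ (fun j => Ts N (r j) (u j) ω) * G (phs P ω)))) := by
  obtain ⟨f, hf⟩ : ∃ f : Fin m ⊕ Fin P → ℝ → ℂ, f = Sum.elim (fun j t => WW (fun _ => 1) (N ^ r j) (t + u j * xN N)) (fun (i : Fin P) t => tn (Nat.nth Nat.Prime i) t) := ⟨_, rfl⟩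
  obtain ⟨F, hF⟩ : ∃ F : Fin m ⊕ Fin P → (ℕ → ℝ) → ℂ, F = Sum.elim (fun j => Ts N (r j) (u j)) (fun i : Fin P => ch (Nat.nth Nat.Prime i)) := ⟨_, rfl⟩
  have h1 : ∀ s, Bp (f s) (F s) := by
    rintro (j | i)
    · rw [hf, hF]
      exact WW_Tw _ _ _
    · rw [hf, hF]
      exact Bp_tn (Nat.prime_nth_prime i).ne_zero
  have hd : ∀ s, ∀ ω ω' : ℕ → ℝ, (∀ p ∈ pr Q, ω p = ω' p) → F s ω = F s ω' := by
    rintro (j | i) ω ω' hω
    · rw [hF]
      exact Ts_dep (hQ j) _ hω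
    · rw [hF]
      simp only [Sum.elim_inr]
      have hpi := Nat.prime_nth_prime i
      rw [ch_prime hpi, ch_prime hpi, hω]
      unfold pr
      rw [Finset.mem_filter, Finset.mem_Icc]
      refine ⟨⟨hpi.one_le, ?_⟩, hpi⟩
      have h3 : Nat.nth Nat.Prime i < Nat.nth Nat.Prime P := Nat.nth_strictMono Nat.infinite_setOfPred_prime i.2
      omega
  have hH : Continuous fun z : Fin m ⊕ Fin P → ℂ => Φ (fun j => z (Sum.inl j)) * G (fun i => z (Sum.inr i)) := by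
    refine (hc.comp ?_).mul (hG.comp ?_) <;> fun_prop
  have h2 := Bp.fnW hν h1 hd hH
  rw [hf, hF] at h2
  simp only [Sum.elim_inl, Sum.elim_inr] at h2
  have e1 : ∀ ω, (fun i : Fin P => ch (Nat.nth Nat.Prime i) ω) = phs P ω := by
    intro ω
    funext i
    rw [ch_prime (Nat.prime_nth_prime i)]
    rfl
  simp_rw [e1] at h2
  exact h2

/-- the mixed moment on the torus -/
noncomputable def mix (s β : ℝ) (N : ℕ) : ℝ := nuG s N (fun ω => ‖SS N ω‖ ^ β)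

lemma nrm_cont {β : ℝ} (hβ : 0 < β) : Continuous fun z : Fin 1 → ℂ => ‖z 0‖ ^ β :=
  (continuous_norm.comp (continuous_apply 0)).rpow_const fun _ => Or.inr hβ.le

lemma nrm_hom {β : ℝ} : Hom β fun z : Fin 1 → ℂ => ‖z 0‖ ^ β := by
  intro c z
  simp only [Pi.smul_apply, smul_eq_mul, norm_mul]
  rw [Real.mul_rpow (norm_nonneg _) (norm_nonneg _)]

/-- the torus asymptotics of the mixed moment -/
theorem mix_asy {s β : ℝ} (hs : 0 < s) (hβ : 0 < β) : ∃ L : ℝ, 0 < L ∧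
    Tendsto (fun N : ℕ => (2 * xN N) ^ (β * s + β ^ 2 / 4) * mix s β N) atTop (𝓝 L) := by
  obtain ⟨L, hL⟩ := mix_lim hs hβ (m := 1) (r := fun _ => 1) (fun _ => le_rfl) (q := 1) le_rfl (fun _ => le_rfl) (fun _ => 0) (nrm_cont hβ) nrm_hom
  have h1 := hL 0 (fun _ => 1) measurable_const ⟨1, fun _ => by simp⟩ (fun _ _ _ => rfl)
  have e1 : nuG (s + β / 2) 0 (fun _ => 1) = 1 := by
    unfold nuG
    simp only [mul_one]
    exact div_self (La_mass _ _).ne'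
  rw [e1, mul_one] at h1
  simp only [Ts_one, mul_one, pow_one] at h1
  obtain ⟨c, hc, hlow⟩ := mix_low hs hβ
  exact ⟨L, lt_of_lt_of_le hc (ge_of_tendsto h1 hlow), h1⟩

/-- the ratio on the torus -/
theorem rat_mix {s β : ℝ} (hs : 0 < s) (hβ : 0 < β) {r : Fin m → ℕ} (hr : ∀ j, 1 ≤ r j) {q : ℕ} (hq : 1 ≤ q) (hrq : ∀ j, r j ≤ q)
    (u : Fin m → ℝ) {Φ : (Fin m → ℂ) → ℝ} (hc : Continuous Φ) (hom : Hom β Φ) :
    ∃ κ : ℝ, ∀ (P : ℕ) (G : (Fin P → ℂ) → ℝ), Continuous G →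
      Tendsto (fun N : ℕ => nuG s (N ^ q) (fun ω => Φ (fun j => Ts N (r j) (u j) ω) * G (phs P ω)) / mix s β N) atTop
        (𝓝 (κ * ((∫ θ in bx P, wth (2 * s + β) P θ * G (fun i => ec (θ i))) / ∫ θ in bx P, wth (2 * s + β) P θ))) := by
  obtain ⟨L, hL⟩ := mix_lim hs hβ hr hq hrq u hc hom
  obtain ⟨L0, hL0, h0⟩ := mix_asy hs hβ
  refine ⟨L / L0, fun P G hG => ?_⟩
  have h1 := hL (Nat.nth Nat.Prime P - 1) _ (G_meas hG) (G_bd hG) (G_dep G)
  have h2 := h1.div h0 hL0.ne'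
  rw [nuG_eq (s + β / 2) P hG] at h2
  have e0 : 2 * (s + β / 2) = 2 * s + β := by ring
  rw [e0] at h2
  have e1 : ∀ a : ℝ, L * a / L0 = L / L0 * a := fun a => by ring
  rw [e1] at h2
  refine h2.congr' ?_
  filter_upwards [eventually_ge_atTop 3] with N hN
  have hx := xN_pos hN
  exact mul_div_mul_left _ _ (by positivity)

lemma x_pow {N : ℕ} (hN : 3 ≤ N) (e : ℝ) : (2 * xN N) ^ e = 2 ^ e / Real.log N ^ e := by
  have hx := xN_pos hN
  have hl := log_N hN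
  rw [Real.mul_rpow (by norm_num) hx.le]
  unfold xN
  rw [Real.div_rpow (by norm_num) (by linarith), Real.one_rpow]
  ring

/-- the asymptotics with the logarithm -/
theorem mix_log {s β : ℝ} (hs : 0 < s) (hβ : 0 < β) : ∃ c : ℝ, 0 < c ∧
    Tendsto (fun N : ℕ => mix s β N / Real.log N ^ (β * s + β ^ 2 / 4)) atTop (𝓝 c) := by
  obtain ⟨L, hL, h⟩ := mix_asy hs hβ
  refine ⟨L / 2 ^ (β * s + β ^ 2 / 4), by positivity, ?_⟩
  refine (h.div_const (2 ^ (β * s + β ^ 2 / 4))).congr' ?_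
  filter_upwards [eventually_ge_atTop 3] with N hN
  rw [x_pow hN]
  have : (2:ℝ) ^ (β * s + β ^ 2 / 4) ≠ 0 := by positivity
  field_simp

lemma mix_pos {s β : ℝ} (hβ : 0 < β) {N : ℕ} (hN : 1 ≤ N) : 0 < mix s β N := by
  have hmass := La_mass s N
  obtain ⟨B, hB1, hB⟩ := La_bd N
  have hB0 : 0 < B⁻¹ := by positivity
  have hLc : Continuous fun ω => ‖La N ω‖ ^ (2 * s) := (La_cont N).norm.rpow_const fun ω => Or.inl (by linarith [(hB ω).2])
  obtain ⟨A, hA⟩ := (SS_gd N).2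
  have hS : Continuous (SS N) := (WW_WS (fun _ => 1) N).contF
  have hSc : Continuous fun ω => ‖SS N ω‖ ^ β := hS.norm.rpow_const fun ω => Or.inr hβ.le
  have hLi : Integrable (fun ω => ‖La N ω‖ ^ (2 * s)) tm := by
    by_contra hcon
    rw [integral_undef hcon] at hmass
    exact lt_irrefl _ hmass
  have hint : Integrable (fun ω => ‖La N ω‖ ^ (2 * s) * ‖SS N ω‖ ^ β) tm := by
    refine (hLi.bdd_mul (c := |A| ^ β) hSc.aestronglyMeasurable (Eventually.of_forall fun ω => ?_)).congr (Eventually.of_forall fun ω => mul_comm _ _)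
    rw [Real.norm_of_nonneg (by positivity)]
    exact Real.rpow_le_rpow (norm_nonneg _) ((hA ω).trans (le_abs_self _)) hβ.le
  unfold mix nuG
  refine div_pos ?_ hmass
  by_contra hcon
  have h0 : ∫ ω, ‖La N ω‖ ^ (2 * s) * ‖SS N ω‖ ^ β ∂tm = 0 := le_antisymm (not_lt.mp hcon) (integral_nonneg fun ω => by positivity)
  have h1 := (integral_eq_zero_iff_of_nonneg (fun ω => by positivity) hint).mp h0
  have h2 : mk 1 (SS N) = 0 := by
    unfold mk
    rw [integral_eq_zero_of_ae]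
    filter_upwards [h1] with ω hω
    have h3 : ‖La N ω‖ ^ (2 * s) * ‖SS N ω‖ ^ β = 0 := hω
    have h5 : 0 < ‖La N ω‖ := hB0.trans_le (hB ω).2
    have h6 : ‖SS N ω‖ ^ β = 0 := by
      rcases mul_eq_zero.mp h3 with h | h
      · have : 0 < ‖La N ω‖ ^ (2 * s) := by positivity
        linarith
      · exact h
    rw [Real.rpow_eq_zero (norm_nonneg _) hβ.ne'] at h6
    show ‖SS N ω‖ ^ ((2:ℝ) * 1) = 0
    rw [h6, Real.zero_rpow (by norm_num)]
  have h3 := mk_SS_pos one_pos hN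
  linarith

end Pool.Agent.H470
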