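import Pool.Agent.H470.Va1

set_option autoImplicit false

/-! The shifted sums and the Euler product at a finer scale. -/

namespace Pool.Agent.H470

open MeasureTheory Filter Topology ProbabilityTheory Set

variable {m : ℕ}

/-- the finer scale -/
noncomputable def xR (R N : ℕ) : ℝ := xN N / R

lemma xR_lim {R : ℕ} (hR : 1 ≤ R) : Tendsto (xR R) atTop (𝓝[>] 0) := by
  have hR0 : (0:ℝ) < R := by exact_mod_cast (by omega : 0 < R)
  have h1 := tendsto_nhdsWithin_iff.mp xN_lim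
  refine tendsto_nhdsWithin_iff.mpr ⟨?_, ?_⟩
  · have := h1.1.div_const (R:ℝ)
    rw [zero_div] at this
    exact this
  · filter_upwards [h1.2] with N hN
    exact div_pos hN hR0

lemma mass_scale {k : ℝ} {R : ℕ} (hR : 1 ≤ R) {x a : ℝ} (hx : 0 < x) (ha : 0 ≤ a) : (2 * (x / R)) ^ (k ^ 2) * a ≤ (2 * x) ^ (k ^ 2) * a := by
  have hR0 : (1:ℝ) ≤ R := by exact_mod_cast hR
  refine mul_le_mul_of_nonneg_right ?_ ha
  refine Real.rpow_le_rpow (by positivity) ?_ (by positivity)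
  have := div_le_self hx.le hR0
  linarith

lemma Sm_pcR {η : ℝ} (hη : 0 < η) {r : ℕ} (hr : 1 ≤ r) (u : ℝ) {R : ℕ} (hR : 1 ≤ R) : Sm (fun v => pc η r u (R * v)) :=
  Sm_scale (pc_Sm hη hr u) (by exact_mod_cast (by omega : 0 < R))

lemma Sm_snR {η : ℝ} (hη : 0 < η) {r : ℕ} (hr : 1 ≤ r) (u : ℝ) {R : ℕ} (hR : 1 ≤ R) : Sm (fun v => sn η r u (R * v)) :=
  Sm_scale (sn_Sm hη hr u) (by exact_mod_cast (by omega : 0 < R))

lemma fi_top {η : ℝ} (hη : 0 < η) {r : ℕ} (hr : 1 ≤ r) {v : ℝ} (hv : (r:ℝ) ≤ v) : fi η (v / r) = 0 := by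
  have hr0 : (0:ℝ) < r := by exact_mod_cast (by omega : 0 < r)
  refine fi_zero hη ?_
  have : 1 ≤ v / r := by rwa [le_div_iff₀ hr0, one_mul]
  linarith

lemma Ig_pcR {η : ℝ} (hη : 0 < η) {r : ℕ} (hr : 1 ≤ r) (u : ℝ) {R : ℕ} (hR : 1 ≤ R) {x : ℝ} (hx : 0 < x) (hrx : r * x ≤ 1) (ω : ℕ → ℝ) :
    Ig (pc η r u) x ω = Ig (fun v => pc η r u (R * v)) (x / R) ω :=
  Ig_scale (pc_Sm hη hr u) (B := r) hx hrx (by exact_mod_cast hR) (fun v hv => by
    unfold pc
    rw [fi_top hη hr hv, zero_mul]) ω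

lemma Ig_snR {η : ℝ} (hη : 0 < η) {r : ℕ} (hr : 1 ≤ r) (u : ℝ) {R : ℕ} (hR : 1 ≤ R) {x : ℝ} (hx : 0 < x) (hrx : r * x ≤ 1) (ω : ℕ → ℝ) :
    Ig (sn η r u) x ω = Ig (fun v => sn η r u (R * v)) (x / R) ω :=
  Ig_scale (sn_Sm hη hr u) (B := r) hx hrx (by exact_mod_cast hR) (fun v hv => by
    unfold sn
    rw [fi_top hη hr hv, zero_mul, neg_zero]) ω

/-- approximation of all the shifted sums by finite combinations, at the finer scale -/
theorem Ts_appR {k : ℝ} (hk : 0 < k) {R : ℕ} (hR : 1 ≤ R) {r : Fin m → ℕ} (hr : ∀ j, 1 ≤ r j) (u : Fin m → ℝ) {e : ℝ} (he : 0 < e) :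
    ∃ (M : ℕ) (y : Fin M → ℝ) (c : Fin m → Fin M → ℂ), ∀ᶠ N : ℕ in atTop, ∀ j,
      (2 * xR R N) ^ (k ^ 2) * mk k (fun ω => Ts N (r j) (u j) ω - ∑ i, c j i * Fp (xR R N) (y i) ω) ≤ e := by
  have hkp := kp_pos hk
  obtain ⟨e1, he1⟩ : ∃ e1 : ℝ, e1 = e ^ kp k / 3 := ⟨_, rfl⟩
  have he10 : 0 < e1 := by rw [he1]; positivity
  have hRR : (1:ℝ) ≤ R := by exact_mod_cast hR
  -- the sharp cutoff
  obtain ⟨A, hA⟩ : ∃ A : ℝ, A = 1 + ∑ j, (r j : ℝ) ^ (k ^ 2) := ⟨_, rfl⟩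
  have hA1 : 1 ≤ A := by
    rw [hA]
    have : 0 ≤ ∑ j, (r j : ℝ) ^ (k ^ 2) := Finset.sum_nonneg fun j _ => by positivity
    linarith
  have hAj : ∀ j, (r j : ℝ) ^ (k ^ 2) ≤ A := fun j => by
    rw [hA]
    have := Finset.single_le_sum (f := fun j => (r j : ℝ) ^ (k ^ 2)) (fun j _ => by positivity) (Finset.mem_univ j)
    linarith
  obtain ⟨η, hη, hη2, hnear⟩ := near hk (show 0 < (e1 ^ (1 / kp k) / A) ^ kp k by positivity)
  -- the finite combinations
  choose Qc hQc0 hQc using fun j => app hk (Sm_pcR hη (hr j) (u j) hR) he10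
  choose Qs hQs0 hQs using fun j => app hk (Sm_snR hη (hr j) (u j) hR) he10
  obtain ⟨Q, hQ⟩ : ∃ Q : ℝ, Q = ∑ j, Qc j + ∑ j, Qs j := ⟨_, rfl⟩
  have hQ1 : ∀ j, Qc j ≤ Q := fun j => by
    rw [hQ]
    have h1 := Finset.single_le_sum (f := Qc) (fun j _ => hQc0 j) (Finset.mem_univ j)
    have h2 : 0 ≤ ∑ j, Qs j := Finset.sum_nonneg fun j _ => hQs0 j
    linarith
  have hQ2 : ∀ j, Qs j ≤ Q := fun j => by
    rw [hQ]
    have h1 := Finset.single_le_sum (f := Qs) (fun j _ => hQs0 j) (Finset.mem_univ j)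
    have h2 : 0 ≤ ∑ j, Qc j := Finset.sum_nonneg fun j _ => hQc0 j
    linarith
  choose mc hmc0 hmc using fun j => hQc j Q (hQ1 j)
  choose ms hms0 hms using fun j => hQs j Q (hQ2 j)
  obtain ⟨M, hM⟩ : ∃ M : ℕ, M = ∑ j, mc j + ∑ j, ms j := ⟨_, rfl⟩
  have hM1 : ∀ j, mc j ≤ M := fun j => by
    rw [hM]
    have h1 := Finset.single_le_sum (f := mc) (fun j _ => Nat.zero_le _) (Finset.mem_univ j)
    omega
  have hM2 : ∀ j, ms j ≤ M := fun j => by
    rw [hM]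
    have h1 := Finset.single_le_sum (f := ms) (fun j _ => Nat.zero_le _) (Finset.mem_univ j)
    omega
  refine ⟨M, nd Q M, fun j i => wt (fun v => pc η (r j) (u j) (R * v)) Q M i + Complex.I * wt (fun v => sn η (r j) (u j) (R * v)) Q M i, ?_⟩
  rw [eventually_all]
  intro j
  have hrx : ∀ᶠ N : ℕ in atTop, (r j : ℝ) * xN N ≤ 1 := by
    have h1 : Tendsto (fun N : ℕ => (r j : ℝ) * xN N) atTop (𝓝 ((r j : ℝ) * 0)) := (tendsto_nhdsWithin_iff.mp xN_lim).1.const_mul _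
    rw [mul_zero] at h1
    exact (h1.eventually (gt_mem_nhds one_pos)).mono fun N h => h.le
  filter_upwards [(pow_lim (hr j)).eventually hnear, hrx, eventually_ge_atTop 3] with N h1 h2 hN
  have hx := xN_pos hN
  have hx1 := xN_le hN
  have h3 := pow_three hN (hr j)
  have hx3 := xN_pos h3
  have hy : 0 < xR R N := div_pos hx (by linarith)
  have hy1 : xR R N ≤ 1 := (div_le_self hx.le hRR).trans hx1
  have gc := Ig_gd (Sm_pcR hη (hr j) (u j) hR) hy
  have gs := Ig_gd (Sm_snR hη (hr j) (u j) hR) hy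
  have gw := sum_gd hy (wt (fun v => pc η (r j) (u j) (R * v)) Q M) (nd Q M)
  have gv := sum_gd hy (wt (fun v => sn η (r j) (u j) (R * v)) Q M) (nd Q M)
  -- first part
  have p1 : nr k (xR R N) (fun ω => Ts N (r j) (u j) ω - (Ig (fun v => pc η (r j) (u j) (R * v)) (xR R N) ω + Complex.I * Ig (fun v => sn η (r j) (u j) (R * v)) (xR R N) ω)) ≤ e1 := by
    have h4 := nr_inv hk hx3.le (by positivity) h1
    have h5 := mul_le_mul (hAj j) h4 (mul_nonneg (by positivity) (mk_nonneg _ _)) (by linarith)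
    rw [← Ts_mass hk hN (hr j) hη h2 (u j), mul_div_cancel₀ _ (by linarith : A ≠ 0)] at h5
    have h6 : (2 * xR R N) ^ (k ^ 2) * mk k (fun ω => Ts N (r j) (u j) ω - (Ig (fun v => pc η (r j) (u j) (R * v)) (xR R N) ω + Complex.I * Ig (fun v => sn η (r j) (u j) (R * v)) (xR R N) ω)) ≤ e1 ^ (1 / kp k) := by
      refine (mass_scale hR hx (mk_nonneg _ _)).trans ?_
      refine le_trans (le_of_eq ?_) h5
      congr 2
      funext ω
      rw [Ig_pcR hη (hr j) (u j) hR hx h2, Ig_snR hη (hr j) (u j) hR hx h2]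
      rfl
    unfold nr
    refine (Real.rpow_le_rpow (mul_nonneg (by positivity) (mk_nonneg _ _)) h6 hkp.le).trans (le_of_eq ?_)
    rw [← Real.rpow_mul he10.le, one_div_mul_cancel hkp.ne', Real.rpow_one]
  have p2 := hmc j M (hM1 j) (xR R N) hy hy1
  have p3 := hms j M (hM2 j) (xR R N) hy hy1
  have p4 : nr k (xR R N) (fun ω => Complex.I * (Ig (fun v => sn η (r j) (u j) (R * v)) (xR R N) ω -
      ∑ i, wt (fun v => sn η (r j) (u j) (R * v)) Q M i * Fp (xR R N) (nd Q M i) ω)) ≤ e1 := by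
    rw [nr_mul _ hy.le, Complex.norm_I, Real.one_rpow, Real.one_rpow, one_mul]
    exact p3
  refine nr_inv hk hy.le he.le ?_
  have e2 : (fun ω => Ts N (r j) (u j) ω - ∑ i, (wt (fun v => pc η (r j) (u j) (R * v)) Q M i + Complex.I * wt (fun v => sn η (r j) (u j) (R * v)) Q M i) * Fp (xR R N) (nd Q M i) ω) =
      fun ω => (Ts N (r j) (u j) ω - (Ig (fun v => pc η (r j) (u j) (R * v)) (xR R N) ω + Complex.I * Ig (fun v => sn η (r j) (u j) (R * v)) (xR R N) ω)) +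
        ((Ig (fun v => pc η (r j) (u j) (R * v)) (xR R N) ω - ∑ i, wt (fun v => pc η (r j) (u j) (R * v)) Q M i * Fp (xR R N) (nd Q M i) ω) +
          Complex.I * (Ig (fun v => sn η (r j) (u j) (R * v)) (xR R N) ω - ∑ i, wt (fun v => sn η (r j) (u j) (R * v)) Q M i * Fp (xR R N) (nd Q M i) ω)) := by
    funext ω
    simp_rw [add_mul]
    rw [Finset.sum_add_distrib, mul_sub, Finset.mul_sum]
    simp_rw [mul_assoc]
    ring
  rw [e2]
  have g1 := (Ts_gd N (r j) (u j)).sub (gc.add (gs.const_mul Complex.I))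
  have g2 := gc.sub gw
  have g3 := (gs.sub gv).const_mul Complex.I
  have q1 := nr_add hk hy.le g1 (g2.add g3)
  have q2 := nr_add hk hy.le g2 g3
  have e3 : e ^ kp k = e1 + (e1 + e1) := by rw [he1]; ring
  rw [e3]
  exact q1.trans (add_le_add p1 (q2.trans (add_le_add p2 p4)))

/-- the weight and the shifted sums -/
noncomputable def fam (R : ℕ) (r : Fin m → ℕ) (u : Fin m → ℝ) : Fin (m + 1) → ℕ → (ℕ → ℝ) → ℂ :=
  Fin.cons (fun N => Fp (xR R N) 0) (fun j N => Ts N (r j) (u j))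

theorem fam_Apx {k : ℝ} (hk : 0 < k) {R : ℕ} (hR : 1 ≤ R) {r : Fin m → ℕ} (hr : ∀ j, 1 ≤ r j) (u : Fin m → ℝ) : Apx k (xR R) (fam R r u) := by
  refine ⟨?_, ?_, ?_⟩
  · filter_upwards [(xR_lim hR).eventually self_mem_nhdsWithin] with N hN j
    refine Fin.cases ?_ (fun j => ?_) j
    · exact Fp_gd hN 0
    · exact Ts_gd _ _ _
  · obtain ⟨K, hK, h1⟩ := Ts_bd hk hr u
    obtain ⟨K', hK', h2⟩ := Fp_mass hk
    refine ⟨K' + K, by positivity, ?_⟩
    filter_upwards [h1, (xR_lim hR).eventually self_mem_nhdsWithin, eventually_ge_atTop 3] with N h3 h4 hN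
    have h4' : 0 < xR R N := h4
    have hx := xN_pos hN
    have hRR : (1:ℝ) ≤ R := by exact_mod_cast hR
    rw [Fin.sum_univ_succ]
    refine add_le_add ?_ ?_
    · exact h2 (xR R N) h4' ((div_le_self hx.le hRR).trans (xN_le hN)) 0
    · refine le_trans (Finset.sum_le_sum fun j _ => ?_) h3
      exact mass_scale hR hx (mk_nonneg _ _)
  · intro e he
    obtain ⟨M, y, c, h⟩ := Ts_appR hk hR hr u he
    refine ⟨M + 1, Fin.cons 0 y, Fin.cons (Fin.cons 1 (fun _ => 0)) (fun j => Fin.cons 0 (c j)), ?_⟩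
    filter_upwards [h] with N hN j
    refine Fin.cases ?_ (fun j => ?_) j
    · have e1 : (fun ω => fam R r u 0 N ω - ∑ i, (Fin.cons (Fin.cons 1 (fun _ => 0)) (fun j => Fin.cons 0 (c j)) : Fin (m + 1) → Fin (M + 1) → ℂ) 0 i *
          Fp (xR R N) ((Fin.cons 0 y : Fin (M + 1) → ℝ) i) ω) = fun _ => 0 := by
        funext ω
        rw [Fin.sum_univ_succ]
        simp [fam]
      rw [e1]
      have e2 : mk k (fun _ => (0:ℂ)) = 0 := by
        unfold mk
        simp [Real.zero_rpow (show 2 * k ≠ 0 by positivity)]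
      rw [e2, mul_zero]
      exact he.le
    · refine le_trans (le_of_eq ?_) (hN j)
      congr 2
      funext ω
      rw [Fin.sum_univ_succ]
      simp [fam]

end Pool.Agent.H470
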