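import Pool.Agent.H470.Va2
import Pool.Agent.H470.Ua6

set_option autoImplicit false

/-! Comparison of the Euler product of the small primes on the line and near the line. -/

namespace Pool.Agent.H470

open MeasureTheory Filter Topology ProbabilityTheory Set
open Pool.Agent.TH806 (ec ec_norm ec_cont uu integrable_uu)

lemma el_mean {w : ℝ} (h0 : 0 ≤ w) (h1 : w < 1) : ∫ x, el ((w:ℂ) * ec x) ∂uu = 0 := by
  have hd : DiffContOnCl ℂ el (Metric.ball 0 |w|) := by
    refine DifferentiableOn.diffContOnCl fun v hv => ?_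
    refine (el_analytic ?_).differentiableWithinAt
    have h2 := Metric.closure_ball_subset_closedBall hv
    rw [mem_closedBall_zero_iff, abs_of_nonneg h0] at h2
    linarith
  have h := hd.circleAverage
  rw [el_zero, Real.circleAverage_def] at h
  have hpi : (2 * Real.pi)⁻¹ ≠ 0 := by positivity
  have h2 : ∫ θ in (0:ℝ)..2 * Real.pi, el (circleMap 0 w θ) = 0 := by
    rcases smul_eq_zero.mp h with h3 | h3
    · exact absurd h3 hpi
    · exact h3
  rw [Pool.Agent.TH806.uu_int]
  have h3 := intervalIntegral.integral_comp_mul_left (a := 0) (b := 1) (fun θ => el (circleMap 0 w θ)) (show 2 * Real.pi ≠ 0 by positivity)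
  rw [mul_zero, mul_one, h2, smul_zero] at h3
  rw [← h3]
  refine intervalIntegral.integral_congr fun x _ => ?_
  simp only [circleMap, zero_add]
  rfl

lemma exp_sub_one_abs (u : ℝ) : |Real.exp u - 1| ≤ |u| * Real.exp |u| := by
  have h := Complex.norm_exp_sub_sum_le_norm_mul_exp (u:ℂ) 1
  simp only [Finset.sum_range_one, pow_zero, Nat.factorial_zero, Nat.cast_one, div_one, pow_one] at h
  rw [← Complex.ofReal_exp, ← Complex.ofReal_one, ← Complex.ofReal_sub, Complex.norm_real, Complex.norm_real, Real.norm_eq_abs, Real.norm_eq_abs] at h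
  exact h

lemma exp_sub_two_abs (u : ℝ) : |Real.exp u - 1 - u| ≤ u ^ 2 * Real.exp |u| := by
  have h := Complex.norm_exp_sub_sum_le_norm_mul_exp (u:ℂ) 2
  rw [Finset.sum_range_succ, Finset.sum_range_one] at h
  simp only [pow_zero, Nat.factorial_zero, Nat.cast_one, div_one, pow_one, Nat.factorial_one] at h
  rw [← Complex.ofReal_exp, ← Complex.ofReal_one, ← Complex.ofReal_add, ← Complex.ofReal_sub, Complex.norm_real, Complex.norm_real, Real.norm_eq_abs, Real.norm_eq_abs, sq_abs] at h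
  rw [sub_sub]
  exact h

lemma el_re_cont {z : ℝ} (h0 : 0 ≤ z) (h1 : z < 1) : Continuous fun t : ℝ => (el ((z:ℂ) * ec t)).re := by
  refine Complex.continuous_re.comp (continuous_iff_continuousAt.mpr fun t => ?_)
  refine ContinuousAt.comp (f := fun t : ℝ => (z:ℂ) * ec t) (g := el) ?_ (continuous_const.mul ec_cont).continuousAt
  refine el_cont ?_
  rw [norm_mul, ec_norm, mul_one, Complex.norm_real, Real.norm_eq_abs, abs_of_nonneg h0]
  exact h1

lemma zec_norm {z : ℝ} (h0 : 0 ≤ z) (t : ℝ) : ‖(z:ℂ) * ec t‖ = z := by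
  rw [norm_mul, ec_norm, mul_one, Complex.norm_real, Real.norm_eq_abs, abs_of_nonneg h0]

/-- the local estimate -/
lemma loc_est (k a : ℝ) : ∃ C : ℝ, 0 ≤ C ∧ ∀ z w : ℝ, 0 ≤ z → z ≤ w → w ≤ 3 / 4 →
    |(∫ t, Real.exp (2 * k * (el ((z:ℂ) * ec t)).re + a * ((el ((w:ℂ) * ec t)).re - (el ((z:ℂ) * ec t)).re)) ∂uu) -
      ∫ t, Real.exp (2 * k * (el ((z:ℂ) * ec t)).re) ∂uu| ≤ C * (w * (w - z)) := by
  obtain ⟨E, hE⟩ : ∃ E : ℝ, E = Real.exp (4 * |k|) * Real.exp (3 * |a|) := ⟨_, rfl⟩
  have hE0 : 0 < E := by rw [hE]; positivity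
  refine ⟨(20 * |k| * |a| + 16 * a ^ 2) * E, by positivity, fun z w hz hzw hw => ?_⟩
  have hw0 : 0 ≤ w := hz.trans hzw
  obtain ⟨U, hU⟩ : ∃ U : ℝ → ℝ, ∀ t, U t = 2 * k * (el ((z:ℂ) * ec t)).re := ⟨fun t => _, fun _ => rfl⟩
  obtain ⟨V, hV⟩ : ∃ V : ℝ → ℝ, ∀ t, V t = a * ((el ((w:ℂ) * ec t)).re - (el ((z:ℂ) * ec t)).re) := ⟨fun t => _, fun _ => rfl⟩
  have hUc : Continuous U := by
    rw [funext hU]
    exact continuous_const.mul (el_re_cont hz (by linarith))
  have hVc : Continuous V := by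
    rw [funext hV]
    exact continuous_const.mul ((el_re_cont hw0 (by linarith)).sub (el_re_cont hz (by linarith)))
  have hUb : ∀ t, |U t| ≤ 5 * |k| * w := fun t => by
    rw [hU, abs_mul, abs_mul, abs_of_pos (show (0:ℝ) < 2 by norm_num)]
    have h1 : |(el ((z:ℂ) * ec t)).re| ≤ 5 / 2 * z := by
      refine (Complex.abs_re_le_norm _).trans ((el_bd ?_).trans (le_of_eq ?_))
      · rw [zec_norm hz]; linarith
      · rw [zec_norm hz]
    calc 2 * |k| * |(el ((z:ℂ) * ec t)).re| ≤ 2 * |k| * (5 / 2 * w) := by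
          refine mul_le_mul_of_nonneg_left (h1.trans ?_) (by positivity)
          linarith
      _ = _ := by ring
  have hVb : ∀ t, |V t| ≤ 4 * |a| * (w - z) := fun t => by
    rw [hV, abs_mul]
    have h1 : |(el ((w:ℂ) * ec t)).re - (el ((z:ℂ) * ec t)).re| ≤ 4 * (w - z) := by
      rw [← Complex.sub_re]
      refine (Complex.abs_re_le_norm _).trans ((el_lip ?_ ?_).trans (le_of_eq ?_))
      · rw [zec_norm hw0]; exact hw
      · rw [zec_norm hz]; linarith
      · rw [← sub_mul, ← Complex.ofReal_sub, zec_norm (by linarith)]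
    calc |a| * |(el ((w:ℂ) * ec t)).re - (el ((z:ℂ) * ec t)).re| ≤ |a| * (4 * (w - z)) := mul_le_mul_of_nonneg_left h1 (abs_nonneg _)
      _ = _ := by ring
  have hU4 : ∀ t, |U t| ≤ 4 * |k| := fun t => (hUb t).trans (by nlinarith [abs_nonneg k])
  have hV3 : ∀ t, |V t| ≤ 3 * |a| := fun t => (hVb t).trans (by nlinarith [abs_nonneg a])
  -- the pointwise bound
  have hpt : ∀ t, |Real.exp (U t + V t) - Real.exp (U t) - V t| ≤ (20 * |k| * |a| + 16 * a ^ 2) * E * (w * (w - z)) := by
    intro t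
    have e1 : Real.exp (U t + V t) - Real.exp (U t) - V t = (Real.exp (U t) - 1) * (Real.exp (V t) - 1) + (Real.exp (V t) - 1 - V t) := by
      rw [Real.exp_add]; ring
    rw [e1]
    refine (abs_add_le _ _).trans ?_
    rw [abs_mul]
    have h1 := exp_sub_one_abs (U t)
    have h2 := exp_sub_one_abs (V t)
    have h3 := exp_sub_two_abs (V t)
    have eU : Real.exp |U t| ≤ Real.exp (4 * |k|) := Real.exp_le_exp.mpr (hU4 t)
    have eV : Real.exp |V t| ≤ Real.exp (3 * |a|) := Real.exp_le_exp.mpr (hV3 t)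
    have h4 : |Real.exp (U t) - 1| ≤ 5 * |k| * w * Real.exp (4 * |k|) := h1.trans (mul_le_mul (hUb t) eU (Real.exp_pos _).le (by positivity))
    have hwz : 0 ≤ w - z := by linarith
    have h5 : |Real.exp (V t) - 1| ≤ 4 * |a| * (w - z) * Real.exp (3 * |a|) := h2.trans (mul_le_mul (hVb t) eV (Real.exp_pos _).le (by positivity))
    have h6 : V t ^ 2 ≤ (4 * |a| * (w - z)) ^ 2 := by
      rw [← sq_abs (V t)]
      exact pow_le_pow_left₀ (abs_nonneg _) (hVb t) 2
    have h7 : |Real.exp (V t) - 1 - V t| ≤ (4 * |a| * (w - z)) ^ 2 * Real.exp (3 * |a|) := h3.trans (mul_le_mul h6 eV (Real.exp_pos _).le (by positivity))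
    have h8 := mul_le_mul h4 h5 (abs_nonneg _) (by positivity)
    have h9 : (4 * |a| * (w - z)) ^ 2 * Real.exp (3 * |a|) ≤ 16 * a ^ 2 * (w * (w - z)) * E := by
      have h10 : Real.exp (3 * |a|) ≤ E := by
        rw [hE]
        exact le_mul_of_one_le_left (Real.exp_pos _).le (Real.one_le_exp (by positivity))
      have h11 : (4 * |a| * (w - z)) ^ 2 ≤ 16 * a ^ 2 * (w * (w - z)) := by
        have h12 : (4 * |a| * (w - z)) ^ 2 = 16 * a ^ 2 * ((w - z) * (w - z)) := by
          rw [mul_pow, mul_pow, sq_abs]; ring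
        rw [h12]
        refine mul_le_mul_of_nonneg_left ?_ (by positivity)
        exact mul_le_mul_of_nonneg_right (by linarith) hwz
      exact mul_le_mul h11 h10 (Real.exp_pos _).le (by positivity)
    calc _ ≤ 5 * |k| * w * Real.exp (4 * |k|) * (4 * |a| * (w - z) * Real.exp (3 * |a|)) + 16 * a ^ 2 * (w * (w - z)) * E := add_le_add h8 (h7.trans h9)
      _ = _ := by rw [hE]; ring
  -- the integrals
  have bI : ∀ {f : ℝ → ℝ} {B : ℝ}, Continuous f → (∀ t, |f t| ≤ B) → Integrable f uu := fun {f B} hf hB => by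
    have h1 : Integrable (fun t => ((f t : ℝ) : ℂ)) uu := integrable_uu (Complex.continuous_ofReal.comp hf) (B := B) fun t => by
      rw [Complex.norm_real]; exact hB t
    exact h1.re
  have i1 : Integrable (fun t => Real.exp (U t + V t)) uu := bI (B := Real.exp (4 * |k| + 3 * |a|)) (Real.continuous_exp.comp (hUc.add hVc)) fun t => by
    rw [Real.abs_exp]
    exact Real.exp_le_exp.mpr (add_le_add ((le_abs_self _).trans (hU4 t)) ((le_abs_self _).trans (hV3 t)))
  have i2 : Integrable (fun t => Real.exp (U t)) uu := bI (B := Real.exp (4 * |k|)) (Real.continuous_exp.comp hUc) fun t => by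
    rw [Real.abs_exp]
    exact Real.exp_le_exp.mpr ((le_abs_self _).trans (hU4 t))
  have i3 : Integrable V uu := bI hVc hV3
  have hV0 : ∫ t, V t ∂uu = 0 := by
    have hi : ∀ {v : ℝ}, 0 ≤ v → v ≤ 3 / 4 → Integrable (fun t => el ((v:ℂ) * ec t)) uu := fun {v} h0 h1 => by
      refine integrable_uu (B := 5 / 2) ?_ fun t => ?_
      · refine continuous_iff_continuousAt.mpr fun t => ?_
        refine ContinuousAt.comp (f := fun t : ℝ => (v:ℂ) * ec t) (g := el) (el_cont ?_) (continuous_const.mul ec_cont).continuousAt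
        rw [zec_norm h0]; linarith
      · refine (el_bd ?_).trans ?_
        · rw [zec_norm h0]; exact h1
        · rw [zec_norm h0]; linarith
    have hre : ∀ {v : ℝ}, 0 ≤ v → v ≤ 3 / 4 → ∫ t, (el ((v:ℂ) * ec t)).re ∂uu = 0 := fun {v} h0 h1 => by
      have h2 := integral_re (hi h0 h1)
      have h3 : ∫ t, (el ((v:ℂ) * ec t)).re ∂uu = (∫ t, el ((v:ℂ) * ec t) ∂uu).re := h2
      rw [h3, el_mean h0 (by linarith), Complex.zero_re]
    have q1 := hre hw0 hw
    have q2 := hre hz (by linarith)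
    have i5 : Integrable (fun t => (el ((w:ℂ) * ec t)).re) uu := (hi hw0 hw).re
    have i6 : Integrable (fun t => (el ((z:ℂ) * ec t)).re) uu := (hi hz (by linarith)).re
    have q3 : ∫ t, ((el ((w:ℂ) * ec t)).re - (el ((z:ℂ) * ec t)).re) ∂uu = 0 := by
      rw [integral_sub i5 i6, q1, q2, sub_zero]
    simp_rw [hV]
    rw [integral_const_mul, q3, mul_zero]
  have i4 : Integrable (fun t => Real.exp (U t + V t) - Real.exp (U t)) uu := i1.sub i2
  have e2 : (∫ t, Real.exp (U t + V t) ∂uu) - ∫ t, Real.exp (U t) ∂uu = ∫ t, (Real.exp (U t + V t) - Real.exp (U t) - V t) ∂uu := by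
    rw [integral_sub i4 i3, integral_sub i1 i2, hV0, sub_zero]
  simp_rw [← hU, ← hV]
  rw [e2, ← Real.norm_eq_abs]
  have h := norm_integral_le_of_norm_le_const (μ := uu) (f := fun t => Real.exp (U t + V t) - Real.exp (U t) - V t)
    (C := (20 * |k| * |a| + 16 * a ^ 2) * E * (w * (w - z))) (Eventually.of_forall fun t => by rw [Real.norm_eq_abs]; exact hpt t)
  refine h.trans (le_of_eq ?_)
  simp

end Pool.Agent.H470
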