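import Pool.Agent.H470.Va3

set_option autoImplicit false

/-! Comparison of the moments of the Euler product of the small primes on the line and near the line. -/

namespace Pool.Agent.H470

open MeasureTheory Filter Topology ProbabilityTheory Set
open Pool.Agent.TH806 (ec ec_norm ec_cont uu integrable_uu)

/-- the Euler product of the small primes near the line -/
noncomputable def Dx (P : ℕ) (x : ℝ) (ω : ℕ → ℝ) : ℂ := Complex.exp (Xs (pr P) (sp x 0) ω)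

/-- the mixed mass -/
noncomputable def Jd (k a x : ℝ) (P : ℕ) : ℝ :=
  ∫ ω, Real.exp (2 * k * (Xs (pr P) (sp x 0) ω).re + a * ((Xs (pr P) (1 / 2) ω).re - (Xs (pr P) (sp x 0) ω).re)) ∂tm

/-- the local mass -/
noncomputable def jl (k a z w : ℝ) : ℝ :=
  ∫ t, Real.exp (2 * k * (el ((z:ℂ) * ec t)).re + a * ((el ((w:ℂ) * ec t)).re - (el ((z:ℂ) * ec t)).re)) ∂uu

lemma pwc {p : ℕ} (x : ℝ) : (p:ℂ) ^ (-(sp x 0)) = (((p:ℝ) ^ (-(1 / 2 + x)) : ℝ) : ℂ) := by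
  rw [Complex.ofReal_cpow (by positivity)]
  unfold sp
  push_cast
  congr 1
  ring

lemma pwh {p : ℕ} : (p:ℂ) ^ (-(1 / 2 : ℂ)) = (((p:ℝ) ^ (-(1 / 2) : ℝ) : ℝ) : ℂ) := by
  rw [Complex.ofReal_cpow (by positivity)]
  push_cast
  congr 1

lemma Jd_prod (k a x : ℝ) (P : ℕ) : Jd k a x P = ∏ p ∈ pr P, jl k a ((p:ℝ) ^ (-(1 / 2 + x))) ((p:ℝ) ^ (-(1 / 2) : ℝ)) := by
  have h := prod_intR (pr P) (g := fun p t => Real.exp (2 * k * (el ((p:ℂ) ^ (-(sp x 0)) * ec t)).re +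
    a * ((el ((p:ℂ) ^ (-(1 / 2 : ℂ)) * ec t)).re - (el ((p:ℂ) ^ (-(sp x 0)) * ec t)).re))) fun p => by
      have h1 : Measurable fun t : ℝ => (el ((p:ℂ) ^ (-(sp x 0)) * ec t)).re :=
        Complex.measurable_re.comp (el_meas.comp (continuous_const.mul ec_cont).measurable)
      have h2 : Measurable fun t : ℝ => (el ((p:ℂ) ^ (-(1 / 2 : ℂ)) * ec t)).re :=
        Complex.measurable_re.comp (el_meas.comp (continuous_const.mul ec_cont).measurable)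
      exact Real.measurable_exp.comp ((h1.const_mul _).add ((h2.sub h1).const_mul _))
  unfold Jd jl
  refine Eq.trans ?_ (h.trans ?_)
  · refine integral_congr_ae (Eventually.of_forall fun ω => ?_)
    simp only
    rw [← Real.exp_sum]
    congr 1
    unfold Xs
    rw [Complex.re_sum, Complex.re_sum, ← Finset.sum_sub_distrib, Finset.mul_sum, Finset.mul_sum, ← Finset.sum_add_distrib]
  · refine Finset.prod_congr rfl fun p _ => ?_
    refine integral_congr_ae (Eventually.of_forall fun t => ?_)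
    simp only
    rw [pwc, pwh]

lemma half_le {p : ℕ} (hp : 2 ≤ p) : (p:ℝ) ^ (-(1 / 2) : ℝ) ≤ 3 / 4 := by
  refine le_trans ?_ two_pow_le
  have h1 : (p:ℝ) ^ (-(1 / 2) : ℝ) ≤ (2:ℝ) ^ (-(1 / 2) : ℝ) := by
    refine Real.rpow_le_rpow_of_nonpos (by norm_num) ?_ (by norm_num)
    exact_mod_cast hp
  refine h1.trans ?_
  exact Real.rpow_le_rpow_of_exponent_le (by norm_num) (by norm_num)

lemma z_le_w {p : ℕ} (hp : 2 ≤ p) {x : ℝ} (hx : 0 ≤ x) : (p:ℝ) ^ (-(1 / 2 + x)) ≤ (p:ℝ) ^ (-(1 / 2) : ℝ) := by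
  refine Real.rpow_le_rpow_of_exponent_le ?_ (by linarith)
  have : (2:ℝ) ≤ p := by exact_mod_cast hp
  linarith

lemma wz_le {p : ℕ} (hp : 2 ≤ p) (x : ℝ) :
    (p:ℝ) ^ (-(1 / 2) : ℝ) * ((p:ℝ) ^ (-(1 / 2) : ℝ) - (p:ℝ) ^ (-(1 / 2 + x))) ≤ x * (Real.log p / p) := by
  have hp0 : (0:ℝ) < p := by
    have : (2:ℝ) ≤ p := by exact_mod_cast hp
    linarith
  have e1 : (p:ℝ) ^ (-(1 / 2) : ℝ) * ((p:ℝ) ^ (-(1 / 2) : ℝ) - (p:ℝ) ^ (-(1 / 2 + x))) = (p:ℝ)⁻¹ * (1 - (p:ℝ) ^ (-x)) := by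
    have e2 : (p:ℝ) ^ (-(1 / 2 + x)) = (p:ℝ) ^ (-(1 / 2) : ℝ) * (p:ℝ) ^ (-x) := by
      rw [← Real.rpow_add hp0]
      congr 1
      ring
    have e3 : (p:ℝ) ^ (-(1 / 2) : ℝ) * (p:ℝ) ^ (-(1 / 2) : ℝ) = (p:ℝ)⁻¹ := by
      rw [← Real.rpow_add hp0, ← Real.rpow_neg_one]
      congr 1
      norm_num
    rw [e2, ← e3]
    ring
  rw [e1]
  have h1 : 1 - (p:ℝ) ^ (-x) ≤ x * Real.log p := by
    rw [Real.rpow_def_of_pos hp0]
    have := Real.add_one_le_exp (Real.log p * (-x))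
    linarith
  calc (p:ℝ)⁻¹ * (1 - (p:ℝ) ^ (-x)) ≤ (p:ℝ)⁻¹ * (x * Real.log p) := mul_le_mul_of_nonneg_left h1 (by positivity)
    _ = _ := by field_simp

lemma jl_low (k : ℝ) {z w : ℝ} (hz : 0 ≤ z) (hz1 : z ≤ 3 / 4) : Real.exp (-(4 * |k|)) ≤ jl k 0 z w := by
  unfold jl
  simp only [zero_mul, add_zero]
  have hc : Continuous fun t : ℝ => Real.exp (2 * k * (el ((z:ℂ) * ec t)).re) :=
    Real.continuous_exp.comp (continuous_const.mul (el_re_cont hz (by linarith)))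
  have hb : ∀ t, |2 * k * (el ((z:ℂ) * ec t)).re| ≤ 4 * |k| := fun t => by
    rw [abs_mul, abs_mul, abs_of_pos (show (0:ℝ) < 2 by norm_num)]
    have h1 : |(el ((z:ℂ) * ec t)).re| ≤ 5 / 2 * z := by
      refine (Complex.abs_re_le_norm _).trans ((el_bd ?_).trans (le_of_eq ?_))
      · rw [zec_norm hz]; linarith
      · rw [zec_norm hz]
    nlinarith [abs_nonneg k]
  have hi : Integrable (fun t : ℝ => Real.exp (2 * k * (el ((z:ℂ) * ec t)).re)) uu := by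
    have h1 : Integrable (fun t => ((Real.exp (2 * k * (el ((z:ℂ) * ec t)).re) : ℝ) : ℂ)) uu :=
      integrable_uu (Complex.continuous_ofReal.comp hc) (B := Real.exp (4 * |k|)) fun t => by
        rw [Complex.norm_real, Real.norm_eq_abs, Real.abs_exp]
        exact Real.exp_le_exp.mpr ((le_abs_self _).trans (hb t))
    exact h1.re
  have h1 : ∫ _t, Real.exp (-(4 * |k|)) ∂uu = Real.exp (-(4 * |k|)) := by simp
  rw [← h1]
  refine integral_mono (integrable_const _) hi fun t => ?_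
  exact Real.exp_le_exp.mpr (by linarith [neg_le_of_abs_le (hb t)])

lemma log_sum_le : ∃ C : ℝ, 0 ≤ C ∧ ∀ P : ℕ, 3 ≤ P → ∑ p ∈ pr P, Real.log p / p ≤ C * Real.log P := by
  obtain ⟨C, hC⟩ := Pool.Agent.Helper256.KM.mertens_log
  refine ⟨|C| + 1, by positivity, fun P hP => ?_⟩
  have h1 := (abs_le.mp (hC P (by omega))).2
  have h2 := log_N hP
  have h3 : ∑ p ∈ pr P, Real.log p / p ≤ Real.log P + C := by
    unfold pr
    linarith
  have h4 := le_abs_self C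
  nlinarith [abs_nonneg C]

/-- the ratio of the mixed masses -/
theorem Jd_rat (k a : ℝ) : ∃ C : ℝ, 0 ≤ C ∧ ∀ x : ℝ, 0 < x → ∀ P : ℕ, 3 ≤ P →
    0 < Jd k 0 x P ∧ |Jd k a x P - Jd k 0 x P| ≤ (Real.exp (C * (x * Real.log P)) - 1) * Jd k 0 x P := by
  obtain ⟨C1, hC1, h1⟩ := loc_est k a
  obtain ⟨C2, hC2, h2⟩ := log_sum_le
  refine ⟨Real.exp (4 * |k|) * C1 * C2, by positivity, fun x hx P hP => ?_⟩
  obtain ⟨A, hA⟩ : ∃ A : ℕ → ℝ, ∀ p, A p = jl k a ((p:ℝ) ^ (-(1 / 2 + x))) ((p:ℝ) ^ (-(1 / 2) : ℝ)) := ⟨fun p => _, fun _ => rfl⟩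
  obtain ⟨B, hB⟩ : ∃ B : ℕ → ℝ, ∀ p, B p = jl k 0 ((p:ℝ) ^ (-(1 / 2 + x))) ((p:ℝ) ^ (-(1 / 2) : ℝ)) := ⟨fun p => _, fun _ => rfl⟩
  have hBlow : ∀ p ∈ pr P, Real.exp (-(4 * |k|)) ≤ B p := fun p hp => by
    rw [hB]
    exact jl_low k (by positivity) ((z_le_w (pr_two hp) hx.le).trans (half_le (pr_two hp)))
  have hB0 : ∀ p ∈ pr P, 0 < B p := fun p hp => (Real.exp_pos _).trans_le (hBlow p hp)
  have hAB : ∀ p ∈ pr P, |A p - B p| ≤ C1 * (x * (Real.log p / p)) := fun p hp => by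
    have h3 := h1 ((p:ℝ) ^ (-(1 / 2 + x))) ((p:ℝ) ^ (-(1 / 2) : ℝ)) (by positivity) (z_le_w (pr_two hp) hx.le) (half_le (pr_two hp))
    have e1 : A p - B p = (∫ t, Real.exp (2 * k * (el ((((p:ℝ) ^ (-(1 / 2 + x)) : ℝ):ℂ) * ec t)).re +
      a * ((el ((((p:ℝ) ^ (-(1 / 2) : ℝ) : ℝ):ℂ) * ec t)).re - (el ((((p:ℝ) ^ (-(1 / 2 + x)) : ℝ):ℂ) * ec t)).re)) ∂uu) -
      ∫ t, Real.exp (2 * k * (el ((((p:ℝ) ^ (-(1 / 2 + x)) : ℝ):ℂ) * ec t)).re) ∂uu := by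
      rw [hA, hB]
      unfold jl
      simp only [zero_mul, add_zero]
    rw [e1]
    exact h3.trans (mul_le_mul_of_nonneg_left (wz_le (pr_two hp) x) hC1)
  have eA : Jd k a x P = ∏ p ∈ pr P, A p := by
    rw [Jd_prod]
    exact Finset.prod_congr rfl fun p _ => (hA p).symm
  have eB : Jd k 0 x P = ∏ p ∈ pr P, B p := by
    rw [Jd_prod]
    exact Finset.prod_congr rfl fun p _ => (hB p).symm
  have hJ : 0 < Jd k 0 x P := by
    rw [eB]
    exact Finset.prod_pos hB0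
  refine ⟨hJ, ?_⟩
  have e2 : ∏ p ∈ pr P, A p = (∏ p ∈ pr P, B p) * ∏ p ∈ pr P, (1 + (A p - B p) / B p) := by
    rw [← Finset.prod_mul_distrib]
    refine Finset.prod_congr rfl fun p hp => ?_
    have := (hB0 p hp).ne'
    field_simp
    ring
  have h4 := Finset.norm_prod_one_add_sub_one_le (pr P) (fun p => (A p - B p) / B p)
  have h5 : ∑ p ∈ pr P, ‖(A p - B p) / B p‖ ≤ Real.exp (4 * |k|) * C1 * C2 * (x * Real.log P) := by
    have h6 : ∀ p ∈ pr P, ‖(A p - B p) / B p‖ ≤ Real.exp (4 * |k|) * C1 * x * (Real.log p / p) := fun p hp => by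
      rw [norm_div, Real.norm_eq_abs, Real.norm_eq_abs, abs_of_pos (hB0 p hp), div_eq_mul_inv]
      have h7 : (B p)⁻¹ ≤ Real.exp (4 * |k|) := by
        rw [show Real.exp (4 * |k|) = (Real.exp (-(4 * |k|)))⁻¹ by rw [Real.exp_neg, inv_inv]]
        exact inv_anti₀ (Real.exp_pos _) (hBlow p hp)
      calc |A p - B p| * (B p)⁻¹ ≤ C1 * (x * (Real.log p / p)) * Real.exp (4 * |k|) := by
            refine mul_le_mul (hAB p hp) h7 (by have := hB0 p hp; positivity) ?_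
            exact (abs_nonneg _).trans (hAB p hp)
        _ = _ := by ring
    refine (Finset.sum_le_sum h6).trans ?_
    rw [← Finset.mul_sum]
    calc Real.exp (4 * |k|) * C1 * x * ∑ p ∈ pr P, Real.log p / p ≤ Real.exp (4 * |k|) * C1 * x * (C2 * Real.log P) :=
          mul_le_mul_of_nonneg_left (h2 P hP) (by positivity)
      _ = _ := by ring
  rw [eA, e2, ← eB, ← mul_sub_one, abs_mul, abs_of_pos hJ, mul_comm]
  refine mul_le_mul_of_nonneg_right ?_ hJ.le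
  rw [← Real.norm_eq_abs]
  exact h4.trans (sub_le_sub_right (Real.exp_le_exp.mpr h5) 1)

end Pool.Agent.H470
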