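import Pool.Agent.H470.Va4

set_option autoImplicit false

/-! Comparison of moments, bounds, independence. -/

namespace Pool.Agent.H470

open MeasureTheory Filter Topology ProbabilityTheory Set
open scoped ENNReal
open Pool.Agent.TH806 (ec ec_norm ec_cont uu integrable_uu)

lemma norm_exp_rpow' (z : ℂ) (k : ℝ) : ‖Complex.exp z‖ ^ (2 * k) = Real.exp (2 * k * z.re) := by
  rw [Complex.norm_exp, ← Real.exp_mul]
  congr 1
  ring

lemma Xs_int (P : ℕ) {x : ℝ} (hx : 0 ≤ x) (a b : ℝ) :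
    Integrable (fun ω => Real.exp (a * (Xs (pr P) (sp x 0) ω).re + b * (Xs (pr P) (1 / 2) ω).re)) tm := by
  have hsp : 0 < (sp x 0).re := by rw [sp_re]; linarith
  have c1 := Xs_cont (I := pr P) (fun p hp => pr_two hp) hsp
  have c2 := Xs_cont (I := pr P) (fun p hp => pr_two hp) half_re
  obtain ⟨B, hB, hb⟩ := Xs_bd (I := pr P) (fun p hp => pr_two hp) (σ := 1 / 2) (by norm_num)
  refine tm_int (B := Real.exp (|a| * B + |b| * B)) ?_ fun ω => ?_
  · exact Real.continuous_exp.comp ((continuous_const.mul (Complex.continuous_re.comp c1)).add (continuous_const.mul (Complex.continuous_re.comp c2)))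
  · rw [Real.norm_eq_abs, Real.abs_exp]
    refine Real.exp_le_exp.mpr (add_le_add ?_ ?_)
    · refine (le_abs_self _).trans ?_
      rw [abs_mul]
      refine mul_le_mul_of_nonneg_left ((Complex.abs_re_le_norm _).trans (hb _ ?_ ω)) (abs_nonneg _)
      rw [sp_re]; linarith
    · refine (le_abs_self _).trans ?_
      rw [abs_mul]
      refine mul_le_mul_of_nonneg_left ((Complex.abs_re_le_norm _).trans (hb _ ?_ ω)) (abs_nonneg _)
      norm_num

/-- the moments of the Euler product on the line and near the line are close -/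
theorem La_near (k : ℝ) {e : ℝ} (he : 0 < e) : ∃ c : ℝ, 0 < c ∧ ∀ x : ℝ, 0 < x → ∀ P : ℕ, 3 ≤ P → x * Real.log P ≤ c →
    ∫ ω, |‖La P ω‖ ^ (2 * k) - ‖Dx P x ω‖ ^ (2 * k)| ∂tm ≤ e * mk k (Dx P x) := by
  obtain ⟨C4, hC4, h4⟩ := Jd_rat k (4 * k)
  obtain ⟨C2, hC2, h2⟩ := Jd_rat k (2 * k)
  have hl : 0 < Real.log (1 + e ^ 2 / 3) := by
    have h0 : 0 < e ^ 2 / 3 := by positivity
    exact Real.log_pos (by linarith)
  refine ⟨Real.log (1 + e ^ 2 / 3) / (C4 + C2 + 1), by positivity, fun x hx P hP hc => ?_⟩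
  obtain ⟨hJ, h4'⟩ := h4 x hx P hP
  obtain ⟨-, h2'⟩ := h2 x hx P hP
  have hlP := log_N hP
  have hxl : 0 ≤ x * Real.log P := by positivity
  have key : ∀ C : ℝ, 0 ≤ C → C ≤ C4 + C2 + 1 → Real.exp (C * (x * Real.log P)) - 1 ≤ e ^ 2 / 3 := by
    intro C hC hCC
    have h5 : C * (x * Real.log P) ≤ Real.log (1 + e ^ 2 / 3) := by
      calc C * (x * Real.log P) ≤ (C4 + C2 + 1) * (Real.log (1 + e ^ 2 / 3) / (C4 + C2 + 1)) := mul_le_mul hCC hc hxl (by positivity)
        _ = _ := by field_simp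
    have h6 := Real.exp_le_exp.mpr h5
    rw [Real.exp_log (by positivity)] at h6
    linarith
  have k4 := h4'.trans (mul_le_mul_of_nonneg_right (key C4 hC4 (by linarith)) hJ.le)
  have k2 := h2'.trans (mul_le_mul_of_nonneg_right (key C2 hC2 (by linarith)) hJ.le)
  obtain ⟨X, hX⟩ : ∃ X : (ℕ → ℝ) → ℝ, ∀ ω, X ω = (Xs (pr P) (sp x 0) ω).re := ⟨fun ω => _, fun _ => rfl⟩
  obtain ⟨Y, hY⟩ : ∃ Y : (ℕ → ℝ) → ℝ, ∀ ω, Y ω = (Xs (pr P) (1 / 2) ω).re := ⟨fun ω => _, fun _ => rfl⟩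
  have eD : ∀ ω, ‖Dx P x ω‖ ^ (2 * k) = Real.exp (2 * k * X ω) := fun ω => by
    unfold Dx
    rw [norm_exp_rpow', hX]
  have eL : ∀ ω, ‖La P ω‖ ^ (2 * k) = Real.exp (2 * k * Y ω) := fun ω => by
    unfold La
    rw [norm_exp_rpow', hY]
  have iJ : ∀ a : ℝ, Integrable (fun ω => Real.exp (2 * k * X ω + a * (Y ω - X ω))) tm := fun a => by
    refine (Xs_int P hx.le (2 * k - a) a).congr (Eventually.of_forall fun ω => ?_)
    simp only
    rw [hX, hY]
    congr 1
    ring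
  have eJ : ∀ a : ℝ, Jd k a x P = ∫ ω, Real.exp (2 * k * X ω + a * (Y ω - X ω)) ∂tm := fun a => by
    unfold Jd
    simp_rw [← hX, ← hY]
  have eM : mk k (Dx P x) = Jd k 0 x P := by
    rw [eJ]
    unfold mk
    simp_rw [eD, zero_mul, add_zero]
  have i0 : Integrable (fun ω => Real.exp (2 * k * X ω)) tm := by
    have := iJ 0
    simpa using this
  have iL : Integrable (fun ω => Real.exp (2 * k * Y ω)) tm := by
    refine (iJ (2 * k)).congr (Eventually.of_forall fun ω => ?_)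
    simp only
    congr 1
    ring
  rw [eM]
  simp_rw [eD, eL]
  -- the pointwise inequality
  have hpt : ∀ ω, |Real.exp (2 * k * Y ω) - Real.exp (2 * k * X ω)| ≤
      e / 2 * Real.exp (2 * k * X ω) + 1 / (2 * e) * (Real.exp (2 * k * X ω + 4 * k * (Y ω - X ω)) - 2 * Real.exp (2 * k * X ω + 2 * k * (Y ω - X ω)) + Real.exp (2 * k * X ω)) := by
    intro ω
    obtain ⟨w, hw⟩ : ∃ w : ℝ, w = Real.exp (2 * k * X ω) := ⟨_, rfl⟩
    obtain ⟨h, hh⟩ : ∃ h : ℝ, h = Real.exp (2 * k * (Y ω - X ω)) := ⟨_, rfl⟩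
    have hw0 : 0 < w := by rw [hw]; exact Real.exp_pos _
    have q1 : Real.exp (2 * k * Y ω) = w * h := by
      rw [hw, hh, ← Real.exp_add]; congr 1; ring
    have q2 : Real.exp (2 * k * X ω + 4 * k * (Y ω - X ω)) = w * (h * h) := by
      rw [hw, hh, ← Real.exp_add, ← Real.exp_add]; congr 1; ring
    have q3 : Real.exp (2 * k * X ω + 2 * k * (Y ω - X ω)) = w * h := by
      rw [hw, hh, ← Real.exp_add]
    rw [q1, q2, q3, ← hw]
    have q4 : w * h - w = w * (h - 1) := by ring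
    rw [q4, abs_mul, abs_of_pos hw0]
    have q5 : |h - 1| ≤ e / 2 + 1 / (2 * e) * (h - 1) ^ 2 := by
      have q6 : 0 ≤ (e - |h - 1|) ^ 2 := sq_nonneg _
      have q7 : |h - 1| ^ 2 = (h - 1) ^ 2 := sq_abs _
      have q8 : e / 2 + 1 / (2 * e) * (h - 1) ^ 2 - |h - 1| = (e - |h - 1|) ^ 2 / (2 * e) := by
        rw [← q7]
        field_simp
        ring
      have q9 : 0 ≤ (e - |h - 1|) ^ 2 / (2 * e) := by positivity
      linarith
    calc w * |h - 1| ≤ w * (e / 2 + 1 / (2 * e) * (h - 1) ^ 2) := mul_le_mul_of_nonneg_left q5 hw0.le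
      _ = _ := by ring
  have i4 := iJ (4 * k)
  have i2 := iJ (2 * k)
  have iR : Integrable (fun ω => Real.exp (2 * k * X ω + 4 * k * (Y ω - X ω)) - 2 * Real.exp (2 * k * X ω + 2 * k * (Y ω - X ω)) + Real.exp (2 * k * X ω)) tm :=
    (i4.sub (i2.const_mul 2)).add i0
  have h5 := integral_mono (iL.sub i0).abs ((i0.const_mul (e / 2)).add (iR.const_mul (1 / (2 * e)))) hpt
  refine h5.trans ?_
  have e1 : ∫ ω, (e / 2 * Real.exp (2 * k * X ω) + 1 / (2 * e) * (Real.exp (2 * k * X ω + 4 * k * (Y ω - X ω)) - 2 * Real.exp (2 * k * X ω + 2 * k * (Y ω - X ω)) + Real.exp (2 * k * X ω))) ∂tm =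
      e / 2 * Jd k 0 x P + 1 / (2 * e) * (Jd k (4 * k) x P - 2 * Jd k (2 * k) x P + Jd k 0 x P) := by
    have e0 : Jd k 0 x P = ∫ ω, Real.exp (2 * k * X ω) ∂tm := by
      rw [eJ]
      simp_rw [zero_mul, add_zero]
    rw [integral_add (i0.const_mul _) (iR.const_mul _), integral_const_mul, integral_const_mul, e0, eJ, eJ]
    congr 2
    have i42 : Integrable (fun ω => Real.exp (2 * k * X ω + 4 * k * (Y ω - X ω)) - 2 * Real.exp (2 * k * X ω + 2 * k * (Y ω - X ω))) tm := i4.sub (i2.const_mul 2)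
    rw [integral_add i42 i0, integral_sub i4 (i2.const_mul 2), integral_const_mul]
  refine (le_of_eq e1).trans ?_
  have h6 : Jd k (4 * k) x P - 2 * Jd k (2 * k) x P + Jd k 0 x P ≤ e ^ 2 * Jd k 0 x P := by
    have q1 := (abs_le.mp k4).2
    have q2 := (abs_le.mp k2).1
    nlinarith
  have h7 : 1 / (2 * e) * (Jd k (4 * k) x P - 2 * Jd k (2 * k) x P + Jd k 0 x P) ≤ e / 2 * Jd k 0 x P := by
    refine (mul_le_mul_of_nonneg_left h6 (by positivity)).trans (le_of_eq ?_)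
    field_simp
  linarith

/-- upper bounds for the moments -/
theorem Dx_up {k : ℝ} (hk : 0 < k) : ∃ C : ℝ, 0 < C ∧ ∀ P : ℕ, 3 ≤ P → ∀ x : ℝ, 0 ≤ x → mk k (Dx P x) ≤ C * Real.log P ^ (k ^ 2) := by
  obtain ⟨C, hC⟩ := Pool.Agent.Helper256.KM.mertens_inv
  refine ⟨Real.exp (k ^ 2 * C + CN |k| * KS), Real.exp_pos _, fun P hP x hx => ?_⟩
  have hl := log_N hP
  have hsp : 0 < (sp x 0).re := by rw [sp_re]; linarith
  have hg : Gd (Dx P x) := by
    obtain ⟨B, hB, hb⟩ := Xs_bd (I := pr P) (fun p hp => pr_two hp) (σ := 1 / 2) (by norm_num)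
    refine ⟨(Complex.continuous_exp.comp (Xs_cont (I := pr P) (fun p hp => pr_two hp) hsp)).measurable, Real.exp B, fun ω => ?_⟩
    unfold Dx
    rw [Complex.norm_exp]
    exact Real.exp_le_exp.mpr ((le_abs_self _).trans ((Complex.abs_re_le_norm _).trans (hb _ (by rw [sp_re]; linarith) ω)))
  refine mk_le hk hg (by positivity) ?_
  refine (EF (I := pr P) (fun p hp => pr_two hp) (s := sp x 0) (by rw [sp_re]; linarith) k).trans (ENNReal.ofReal_le_ofReal ?_)
  have h1 : ∑ p ∈ pr P, (p:ℝ) ^ (-(2 * (sp x 0).re)) ≤ Real.log (Real.log P) + C := by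
    have h2 : ∑ p ∈ pr P, (p:ℝ) ^ (-(2 * (sp x 0).re)) ≤ ∑ p ∈ pr P, (1:ℝ) / p := by
      refine Finset.sum_le_sum fun p hp => ?_
      have hp2 : (2:ℝ) ≤ p := by exact_mod_cast pr_two hp
      rw [one_div, ← Real.rpow_neg_one]
      refine Real.rpow_le_rpow_of_exponent_le (by linarith) ?_
      rw [sp_re]; linarith
    have h3 := (abs_le.mp (hC P hP)).2
    unfold pr at h2 ⊢
    linarith
  have h2 : Real.log P ^ (k ^ 2) = Real.exp (k ^ 2 * Real.log (Real.log P)) := by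
    rw [Real.rpow_def_of_pos (by linarith), mul_comm]
  rw [h2, ← Real.exp_add]
  refine Real.exp_le_exp.mpr ?_
  nlinarith [sq_nonneg k]

/-- lower bounds for the mass on the line -/
theorem La_low (k : ℝ) : ∃ c : ℝ, 0 < c ∧ ∀ᶠ P : ℕ in atTop, c * Real.log P ^ (k ^ 2) ≤ mk k (La P) := by
  obtain ⟨C, hC⟩ := Pool.Agent.Helper256.KM.mertens_inv
  obtain ⟨-, ha, -⟩ := mass_lim k
  refine ⟨aK k / 2 * Real.exp (-(k ^ 2 * C)), by positivity, ?_⟩
  filter_upwards [(aK_lim k).eventually (lt_mem_nhds (show aK k / 2 < aK k by linarith)), eventually_ge_atTop 3] with P h1 hP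
  have hl := log_N hP
  rw [Finset.prod_mul_distrib, ← mass_La] at h1
  have h2 : ∏ p ∈ pr P, (1 - 1 / (p:ℝ)) ^ (k ^ 2) ≤ Real.exp (-(k ^ 2 * (Real.log (Real.log P) - C))) := by
    have h3 : ∀ p ∈ pr P, (1 - 1 / (p:ℝ)) ^ (k ^ 2) ≤ Real.exp (-(k ^ 2 * (1 / (p:ℝ)))) := fun p hp => by
      have hp2 : (2:ℝ) ≤ p := by exact_mod_cast pr_two hp
      have h4 : 0 ≤ 1 - 1 / (p:ℝ) := by
        rw [sub_nonneg, div_le_one (by linarith)]; linarith
      have h5 : 1 - 1 / (p:ℝ) ≤ Real.exp (-(1 / (p:ℝ))) := by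
        have := Real.add_one_le_exp (-(1 / (p:ℝ)))
        linarith
      refine (Real.rpow_le_rpow h4 h5 (by positivity)).trans (le_of_eq ?_)
      rw [← Real.exp_mul]
      congr 1
      ring
    refine (Finset.prod_le_prod (fun p hp => ?_) h3).trans ?_
    · have hp2 : (2:ℝ) ≤ p := by exact_mod_cast pr_two hp
      have h4 : 0 ≤ 1 - 1 / (p:ℝ) := by
        rw [sub_nonneg, div_le_one (by linarith)]; linarith
      positivity
    · rw [← Real.exp_sum]
      refine Real.exp_le_exp.mpr ?_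
      rw [Finset.sum_neg_distrib, ← Finset.mul_sum]
      have h6 := (abs_le.mp (hC P hP)).1
      have h7 : Real.log (Real.log P) - C ≤ ∑ p ∈ pr P, 1 / (p:ℝ) := by
        unfold pr
        linarith
      nlinarith [sq_nonneg k]
  have h3 : aK k / 2 ≤ Real.exp (-(k ^ 2 * (Real.log (Real.log P) - C))) * mk k (La P) :=
    h1.le.trans (mul_le_mul_of_nonneg_right h2 (mk_nonneg _ _))
  have h4 : Real.log P ^ (k ^ 2) = Real.exp (k ^ 2 * Real.log (Real.log P)) := by
    rw [Real.rpow_def_of_pos (by linarith), mul_comm]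
  have h5 := mul_le_mul_of_nonneg_right h3 (Real.exp_pos (k ^ 2 * (Real.log (Real.log P) - C))).le
  have h6 : Real.exp (-(k ^ 2 * (Real.log (Real.log P) - C))) * mk k (La P) * Real.exp (k ^ 2 * (Real.log (Real.log P) - C)) = mk k (La P) := by
    rw [mul_assoc, mul_comm (mk k (La P)), ← mul_assoc, ← Real.exp_add, neg_add_cancel, Real.exp_zero, one_mul]
  rw [h6] at h5
  refine le_trans (le_of_eq ?_) h5
  rw [h4, mul_assoc, ← Real.exp_add]
  congr 2
  ring

end Pool.Agent.H470
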