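import Pool.Agent.H470.Va5

set_option autoImplicit false

/-! Dependence on the small primes; the weight on the line compared with the weight near the line. -/

namespace Pool.Agent.H470

open MeasureTheory Filter Topology ProbabilityTheory Set
open scoped ENNReal
open Pool.Agent.TH806 (ec ec_norm ec_cont uu integrable_uu)

lemma Tw_dep {P N : ℕ} (h : N ≤ P) (w : ℕ → ℝ) (a : ℝ) {ω ω' : ℕ → ℝ} (hω : ∀ p ∈ pr P, ω p = ω' p) : Tw w N a ω = Tw w N a ω' := by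
  unfold Tw
  refine Finset.sum_congr rfl fun n hn => ?_
  rw [Finset.mem_Icc] at hn
  rw [ch_dep (P := P) (Nat.mem_smoothNumbers_of_lt (by omega) (by omega)) hω]

lemma Ts_dep {P N r : ℕ} (h : N ^ r ≤ P) (u : ℝ) {ω ω' : ℕ → ℝ} (hω : ∀ p ∈ pr P, ω p = ω' p) : Ts N r u ω = Ts N r u ω' :=
  Tw_dep h _ _ hω

lemma Dx_dep (P : ℕ) (x : ℝ) {ω ω' : ℕ → ℝ} (hω : ∀ p ∈ pr P, ω p = ω' p) : Dx P x ω = Dx P x ω' := by
  unfold Dx
  rw [Xs_dep (pr P) (sp x 0) hω]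

lemma Re_dep (P : ℕ) (x y : ℝ) {ω ω' : ℕ → ℝ} (hω : ∀ p ∈ pr (PX x) \ pr P, ω p = ω' p) : Re' P x y ω = Re' P x y ω' := by
  unfold Re'
  rw [Xs_dep (pr (PX x) \ pr P) (sp x y) hω]

lemma Dx_cont (P : ℕ) {x : ℝ} (hx : 0 ≤ x) : Continuous (Dx P x) :=
  Complex.continuous_exp.comp (Xs_cont (fun p hp => pr_two hp) (by rw [sp_re]; linarith))

lemma Dx_gd (P : ℕ) {x : ℝ} (hx : 0 ≤ x) : Gd (Dx P x) := by
  obtain ⟨B, hB, hb⟩ := Xs_bd (I := pr P) (fun p hp => pr_two hp) (σ := 1 / 2) (by norm_num)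
  refine ⟨(Dx_cont P hx).measurable, Real.exp B, fun ω => ?_⟩
  unfold Dx
  rw [Complex.norm_exp]
  exact Real.exp_le_exp.mpr ((le_abs_self _).trans ((Complex.abs_re_le_norm _).trans (hb _ (by rw [sp_re]; linarith) ω)))

lemma La_gd (P : ℕ) : Gd (La P) := by
  obtain ⟨B, hB, hb⟩ := La_bd P
  exact ⟨(La_cont P).measurable, B, fun ω => (hb ω).1⟩

/-- independence of the large primes -/
lemma Fp_indep (s : ℝ) {x : ℝ} (hx : 0 < x) {P : ℕ} (h : P ≤ PX x) {H : (ℕ → ℝ) → ℝ} (hH : Measurable H) (hd : Dep (pr P) H) :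
    ∫ ω, ‖Fp x 0 ω‖ ^ (2 * s) * H ω ∂tm = (∫ ω, ‖Dx P x ω‖ ^ (2 * s) * H ω ∂tm) * ∫ ω, ‖Re' P x 0 ω‖ ^ (2 * s) ∂tm := by
  have h1 := dep_int (I := pr P) (J := pr (PX x) \ pr P) Finset.disjoint_sdiff
    (A := fun ω => ‖Dx P x ω‖ ^ (2 * s) * H ω) (B := fun ω => ‖Re' P x 0 ω‖ ^ (2 * s))
    (((Dx_cont P hx.le).measurable.norm.pow_const _).mul hH) ((Re'_cont P hx 0).measurable.norm.pow_const _)
    (fun ω ω' hω => by simp only [Dx_dep P x hω, hd ω ω' hω]) (fun ω ω' hω => by simp only [Re_dep P x 0 hω])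
  rw [← h1]
  refine integral_congr_ae (Eventually.of_forall fun ω => ?_)
  simp only
  have e1 : Fp x 0 ω = Dx P x ω * Re' P x 0 ω := Fp_split h 0 ω
  rw [e1, norm_mul, Real.mul_rpow (norm_nonneg _) (norm_nonneg _)]
  ring

lemma sub_pow_le {a b q : ℝ} (ha : 0 ≤ a) (hb : 0 ≤ b) (hq : 1 ≤ q) : |a - b| ^ q ≤ |a ^ q - b ^ q| := by
  rcases le_total b a with h | h
  · have h1 := Real.add_rpow_le_rpow_add (sub_nonneg.mpr h) hb hq
    rw [sub_add_cancel] at h1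
    rw [abs_of_nonneg (sub_nonneg.mpr h)]
    exact (by linarith : (a - b) ^ q ≤ a ^ q - b ^ q).trans (le_abs_self _)
  · have h1 := Real.add_rpow_le_rpow_add (sub_nonneg.mpr h) ha hq
    rw [sub_add_cancel] at h1
    rw [abs_sub_comm, abs_of_nonneg (sub_nonneg.mpr h), abs_sub_comm]
    exact (by linarith : (b - a) ^ q ≤ b ^ q - a ^ q).trans (le_abs_self _)

/-- Young's inequality in the form which is needed -/
lemma young {s β : ℝ} (hs : 0 < s) (hβ : 0 < β) {lam Z t : ℝ} (hl : 0 < lam) (hZ : 0 ≤ Z) (ht : 0 ≤ t) :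
    Z * t ^ β ≤ lam⁻¹ ^ ((s + β / 2) / s) * Z ^ ((s + β / 2) / s) + lam ^ ((2 * (s + β / 2)) / β) * t ^ (2 * (s + β / 2)) := by
  have hk : 0 < s + β / 2 := by positivity
  have hpq : ((s + β / 2) / s).HolderConjugate ((2 * (s + β / 2)) / β) := by
    rw [Real.holderConjugate_iff]
    constructor
    · rw [lt_div_iff₀ hs]; linarith
    · field_simp
  have h1 := Real.young_inequality_of_nonneg (a := lam⁻¹ * Z) (b := lam * t ^ β) (by positivity) (by positivity) hpq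
  have e1 : lam⁻¹ * Z * (lam * t ^ β) = Z * t ^ β := by field_simp
  rw [e1, Real.mul_rpow (by positivity) hZ, Real.mul_rpow hl.le (by positivity), ← Real.rpow_mul ht] at h1
  have e2 : β * (2 * (s + β / 2) / β) = 2 * (s + β / 2) := by field_simp
  rw [e2] at h1
  refine h1.trans (add_le_add ?_ ?_)
  · refine div_le_self (by positivity) ?_
    rw [le_div_iff₀ hs]; linarith
  · refine div_le_self (by positivity) ?_
    rw [le_div_iff₀ hβ]; linarith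

variable {m : ℕ}

/-- the basic bound -/
lemma mix_bd {s β : ℝ} (hs : 0 < s) (hβ : 0 < β) {Φ : (Fin m → ℂ) → ℝ} {M : ℝ} (hM : 0 ≤ M) (hb : ∀ z, |Φ z| ≤ M * ‖z‖ ^ β)
    {f : Fin m → (ℕ → ℝ) → ℂ} (hf : ∀ j, Gd (f j)) {Z : (ℕ → ℝ) → ℝ} (hZ0 : ∀ ω, 0 ≤ Z ω)
    {W : (ℕ → ℝ) → ℝ} (hW : Integrable W tm) (hZW : ∀ ω, Z ω ^ ((s + β / 2) / s) ≤ W ω)
    {G : (ℕ → ℝ) → ℝ} {B : ℝ} (hGb : ∀ ω, |G ω| ≤ B) {lam : ℝ} (hl : 0 < lam) :
    ∫ ω, Z ω * |Φ (fun j => f j ω) * G ω| ∂tm ≤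
      B * M * (m * lam⁻¹ ^ ((s + β / 2) / s) * (∫ ω, W ω ∂tm) + lam ^ ((2 * (s + β / 2)) / β) * ∑ j, mk (s + β / 2) (f j)) := by
  have hB : 0 ≤ B := (abs_nonneg _).trans (hGb 0)
  have hk : 0 < s + β / 2 := by positivity
  have hint : ∀ j, Integrable (fun ω => ‖f j ω‖ ^ (2 * (s + β / 2))) tm := fun j => (hf j).intp (by positivity)
  have iR : Integrable (fun ω => B * M * (m * lam⁻¹ ^ ((s + β / 2) / s) * W ω + lam ^ ((2 * (s + β / 2)) / β) * ∑ j, ‖f j ω‖ ^ (2 * (s + β / 2)))) tm :=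
    ((hW.const_mul _).add ((integrable_finsetSum _ fun j _ => hint j).const_mul _)).const_mul _
  have h1 : ∀ ω, Z ω * |Φ (fun j => f j ω) * G ω| ≤
      B * M * (m * lam⁻¹ ^ ((s + β / 2) / s) * W ω + lam ^ ((2 * (s + β / 2)) / β) * ∑ j, ‖f j ω‖ ^ (2 * (s + β / 2))) := by
    intro ω
    have h2 : |Φ (fun j => f j ω) * G ω| ≤ M * (∑ j, ‖f j ω‖ ^ β) * B := by
      rw [abs_mul]
      exact mul_le_mul ((hb _).trans (mul_le_mul_of_nonneg_left (pi_rpow hβ _) hM)) (hGb ω) (abs_nonneg _) (by positivity)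
    have h3 : ∀ j, Z ω * ‖f j ω‖ ^ β ≤ lam⁻¹ ^ ((s + β / 2) / s) * W ω + lam ^ ((2 * (s + β / 2)) / β) * ‖f j ω‖ ^ (2 * (s + β / 2)) := fun j =>
      (young hs hβ hl (hZ0 ω) (norm_nonneg _)).trans (add_le_add (mul_le_mul_of_nonneg_left (hZW ω) (by positivity)) le_rfl)
    have h4 : Z ω * ∑ j, ‖f j ω‖ ^ β ≤ m * lam⁻¹ ^ ((s + β / 2) / s) * W ω + lam ^ ((2 * (s + β / 2)) / β) * ∑ j, ‖f j ω‖ ^ (2 * (s + β / 2)) := by
      rw [Finset.mul_sum]
      refine (Finset.sum_le_sum fun j _ => h3 j).trans (le_of_eq ?_)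
      rw [Finset.sum_add_distrib, Finset.sum_const, Finset.card_univ, Fintype.card_fin, nsmul_eq_mul, Finset.mul_sum]
      ring
    calc Z ω * |Φ (fun j => f j ω) * G ω| ≤ Z ω * (M * (∑ j, ‖f j ω‖ ^ β) * B) := mul_le_mul_of_nonneg_left h2 (hZ0 ω)
      _ = B * M * (Z ω * ∑ j, ‖f j ω‖ ^ β) := by ring
      _ ≤ _ := mul_le_mul_of_nonneg_left h4 (by positivity)
  have h5 := integral_mono_of_nonneg (Eventually.of_forall fun ω => mul_nonneg (hZ0 ω) (abs_nonneg _)) iR (Eventually.of_forall h1)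
  refine h5.trans (le_of_eq ?_)
  rw [integral_const_mul, integral_add (hW.const_mul _) ((integrable_finsetSum _ fun j _ => hint j).const_mul _), integral_const_mul, integral_const_mul,
    integral_finsetSum _ fun j _ => hint j]
  rfl

end Pool.Agent.H470
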