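import Pool.Agent.H470.Va6

set_option autoImplicit false

/-! The comparison of the two weights. -/

namespace Pool.Agent.H470

open MeasureTheory Filter Topology ProbabilityTheory Set
open scoped ENNReal
open Pool.Agent.TH806 (ec ec_norm ec_cont uu integrable_uu)

variable {m : ℕ}

lemma Hmeas {Φ : (Fin m → ℂ) → ℝ} (hc : Continuous Φ) {f : Fin m → (ℕ → ℝ) → ℂ} (hf : ∀ j, Gd (f j)) : Measurable fun ω => Φ (fun j => f j ω) :=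
  hc.measurable.comp (measurable_pi_lambda _ fun j => (hf j).1)

lemma x_log {N q : ℕ} (hN : 3 ≤ N) : xN N * Real.log ((N ^ q : ℕ) : ℝ) = q := by
  have hl := log_N hN
  unfold xN
  push_cast
  rw [Real.log_pow]
  field_simp

lemma gd_int {f g : (ℕ → ℝ) → ℝ} (hf : Measurable f) (hg : Measurable g) {A B : ℝ} (hA : ∀ ω, |f ω| ≤ A) (hB : ∀ ω, |g ω| ≤ B) : Integrable (fun ω => f ω * g ω) tm := by
  refine Integrable.of_bound (hf.mul hg).aestronglyMeasurable (A * B) (Eventually.of_forall fun ω => ?_)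
  rw [Real.norm_eq_abs, abs_mul]
  exact mul_le_mul (hA ω) (hB ω) (abs_nonneg _) ((abs_nonneg _).trans (hA ω))

lemma gd_pow {f : (ℕ → ℝ) → ℂ} (hf : Gd f) {p : ℝ} (hp : 0 ≤ p) : Measurable (fun ω => ‖f ω‖ ^ p) ∧ ∃ A : ℝ, ∀ ω, |‖f ω‖ ^ p| ≤ A := by
  obtain ⟨hm, B, hB⟩ := hf
  refine ⟨hm.norm.pow_const _, B ^ p, fun ω => ?_⟩
  rw [abs_of_nonneg (by positivity)]
  exact Real.rpow_le_rpow (norm_nonneg _) (hB ω) hp

lemma phi_bd {Φ : (Fin m → ℂ) → ℝ} {M : ℝ} (hM : 0 ≤ M) {β : ℝ} (hβ : 0 < β) (hb : ∀ z, |Φ z| ≤ M * ‖z‖ ^ β) {f : Fin m → (ℕ → ℝ) → ℂ} (hf : ∀ j, Gd (f j)) :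
    ∃ A : ℝ, ∀ ω, |Φ (fun j => f j ω)| ≤ A := by
  choose hm A hA using hf
  refine ⟨M * ∑ j, (A j) ^ β, fun ω => (hb _).trans (mul_le_mul_of_nonneg_left ((pi_rpow hβ _).trans (Finset.sum_le_sum fun j _ => ?_)) hM)⟩
  exact Real.rpow_le_rpow (norm_nonneg _) (hA j ω) hβ.le

/-- the difference of the two weights -/
theorem cmp1 {s β : ℝ} (hs : 0 < s) (hβ : 0 < β) {r : Fin m → ℕ} (hr : ∀ j, 1 ≤ r j) {q : ℕ} (hq : 1 ≤ q) (u : Fin m → ℝ)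
    {Φ : (Fin m → ℂ) → ℝ} (hc : Continuous Φ) (hom : Hom β Φ) {e : ℝ} (he : 0 < e) :
    ∃ c : ℝ, 0 < c ∧ ∀ᶠ N : ℕ in atTop, ∀ x : ℝ, 0 < x → x * Real.log ((N ^ q : ℕ) : ℝ) ≤ c →
      ∀ (G : (ℕ → ℝ) → ℝ), Measurable G → ∀ B : ℝ, (∀ ω, |G ω| ≤ B) →
      (2 * xN N) ^ ((s + β / 2) ^ 2) * |(∫ ω, ‖La (N ^ q) ω‖ ^ (2 * s) * (Φ (fun j => Ts N (r j) (u j) ω) * G ω) ∂tm) -
        ∫ ω, ‖Dx (N ^ q) x ω‖ ^ (2 * s) * (Φ (fun j => Ts N (r j) (u j) ω) * G ω) ∂tm| ≤ B * e := by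
  obtain ⟨k, hk'⟩ : ∃ k : ℝ, k = s + β / 2 := ⟨_, rfl⟩
  have hk : 0 < k := by rw [hk']; positivity
  obtain ⟨M, hM, hb⟩ := hom_bd hc hβ hom
  obtain ⟨K2, hK2, hmass⟩ := Ts_bd hk hr u
  obtain ⟨C, hC, hup⟩ := Dx_up hk
  obtain ⟨q1, hq1⟩ : ∃ q1 : ℝ, q1 = k / s := ⟨_, rfl⟩
  obtain ⟨q2, hq2⟩ : ∃ q2 : ℝ, q2 = (2 * k) / β := ⟨_, rfl⟩
  have hq10 : 0 < q1 := by rw [hq1]; positivity
  have hq11 : 1 ≤ q1 := by rw [hq1, le_div_iff₀ hs, hk']; linarith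
  have hq20 : 0 < q2 := by rw [hq2]; positivity
  obtain ⟨lam, hlam⟩ : ∃ lam : ℝ, lam = (e / (2 * ((M + 1) * K2))) ^ (1 / q2) := ⟨_, rfl⟩
  have hl : 0 < lam := by rw [hlam]; positivity
  have hl2 : lam ^ q2 = e / (2 * ((M + 1) * K2)) := by
    rw [hlam, ← Real.rpow_mul (by positivity), one_div_mul_cancel hq20.ne', Real.rpow_one]
  obtain ⟨K1, hK1⟩ : ∃ K1 : ℝ, K1 = C * (2 * q) ^ (k ^ 2) := ⟨_, rfl⟩
  have hq0 : (0:ℝ) < q := by exact_mod_cast (by omega : 0 < q)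
  have hK10 : 0 < K1 := by rw [hK1]; positivity
  obtain ⟨e1, he1⟩ : ∃ e1 : ℝ, e1 = e / (2 * ((M + 1) * (m + 1) * lam⁻¹ ^ q1 * K1)) := ⟨_, rfl⟩
  have he10 : 0 < e1 := by rw [he1]; positivity
  obtain ⟨c, hc0, hnear⟩ := La_near k he10
  refine ⟨c, hc0, ?_⟩
  filter_upwards [hmass, eventually_ge_atTop 3] with N h2 hN x hx hxc G hG B hGb
  have hB : 0 ≤ B := (abs_nonneg _).trans (hGb 0)
  have hNq : 3 ≤ N ^ q := pow_three hN hq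
  have hxN := xN_pos hN
  rw [← hk']
  have hX : 0 < (2 * xN N) ^ (k ^ 2) := by positivity
  -- integrability
  have gT : ∀ j, Gd (Ts N (r j) (u j)) := fun j => Ts_gd _ _ _
  obtain ⟨mL, AL, hAL⟩ := gd_pow (La_gd (N ^ q)) (p := 2 * s) (by positivity)
  obtain ⟨mD, AD, hAD⟩ := gd_pow (Dx_gd (N ^ q) hx.le) (p := 2 * s) (by positivity)
  obtain ⟨AΦ, hAΦ⟩ := phi_bd hM hβ hb gT
  have mH : Measurable fun ω => Φ (fun j => Ts N (r j) (u j) ω) * G ω := (Hmeas hc gT).mul hG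
  have hH : ∀ ω, |Φ (fun j => Ts N (r j) (u j) ω) * G ω| ≤ AΦ * B := fun ω => by
    rw [abs_mul]
    exact mul_le_mul (hAΦ ω) (hGb ω) (abs_nonneg _) ((abs_nonneg _).trans (hAΦ ω))
  have iL := gd_int mL mH hAL hH
  have iD := gd_int mD mH hAD hH
  rw [← integral_sub iL iD]
  -- the pointwise bound
  have h3 : |∫ ω, (‖La (N ^ q) ω‖ ^ (2 * s) * (Φ (fun j => Ts N (r j) (u j) ω) * G ω) - ‖Dx (N ^ q) x ω‖ ^ (2 * s) * (Φ (fun j => Ts N (r j) (u j) ω) * G ω)) ∂tm| ≤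
      ∫ ω, |‖La (N ^ q) ω‖ ^ (2 * s) - ‖Dx (N ^ q) x ω‖ ^ (2 * s)| * |Φ (fun j => Ts N (r j) (u j) ω) * G ω| ∂tm := by
    refine (abs_integral_le_integral_abs).trans (le_of_eq ?_)
    refine integral_congr_ae (Eventually.of_forall fun ω => ?_)
    simp only
    rw [← sub_mul, abs_mul]
  have iL2 : Integrable (fun ω => ‖La (N ^ q) ω‖ ^ (2 * k)) tm := (La_gd (N ^ q)).intp (by positivity)
  have iD2 : Integrable (fun ω => ‖Dx (N ^ q) x ω‖ ^ (2 * k)) tm := (Dx_gd (N ^ q) hx.le).intp (by positivity)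
  have hZW : ∀ ω, |‖La (N ^ q) ω‖ ^ (2 * s) - ‖Dx (N ^ q) x ω‖ ^ (2 * s)| ^ ((s + β / 2) / s) ≤ |‖La (N ^ q) ω‖ ^ (2 * k) - ‖Dx (N ^ q) x ω‖ ^ (2 * k)| := by
    intro ω
    rw [← hk', ← hq1]
    refine (sub_pow_le (by positivity) (by positivity) hq11).trans (le_of_eq ?_)
    have e2 : 2 * s * q1 = 2 * k := by rw [hq1]; field_simp
    rw [← Real.rpow_mul (norm_nonneg _), ← Real.rpow_mul (norm_nonneg _), e2]
  have h4 := mix_bd hs hβ hM hb gT (Z := fun ω => |‖La (N ^ q) ω‖ ^ (2 * s) - ‖Dx (N ^ q) x ω‖ ^ (2 * s)|) (fun ω => abs_nonneg _)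
    (W := fun ω => |‖La (N ^ q) ω‖ ^ (2 * k) - ‖Dx (N ^ q) x ω‖ ^ (2 * k)|) (iL2.sub iD2).abs hZW hGb hl
  rw [← hk', ← hq1, ← hq2, hl2] at h4
  have h5 := hnear x hx (N ^ q) hNq hxc
  have h6 := hup (N ^ q) hNq x hx.le
  have h7 : (2 * xN N) ^ (k ^ 2) * mk k (Dx (N ^ q) x) ≤ K1 := by
    refine (mul_le_mul_of_nonneg_left h6 hX.le).trans (le_of_eq ?_)
    have hl3 := log_N hNq
    rw [hK1, mul_left_comm, ← Real.mul_rpow (by positivity) (by linarith), mul_assoc 2, x_log hN]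
  have h8 : (2 * xN N) ^ (k ^ 2) * ∫ ω, |‖La (N ^ q) ω‖ ^ (2 * k) - ‖Dx (N ^ q) x ω‖ ^ (2 * k)| ∂tm ≤ e1 * K1 := by
    calc _ ≤ (2 * xN N) ^ (k ^ 2) * (e1 * mk k (Dx (N ^ q) x)) := mul_le_mul_of_nonneg_left h5 hX.le
      _ = e1 * ((2 * xN N) ^ (k ^ 2) * mk k (Dx (N ^ q) x)) := by ring
      _ ≤ _ := mul_le_mul_of_nonneg_left h7 he10.le
  have h9 : (2 * xN N) ^ (k ^ 2) * ∑ j, mk k (Ts N (r j) (u j)) ≤ K2 := by
    rw [Finset.mul_sum]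
    exact h2
  refine (mul_le_mul_of_nonneg_left (h3.trans h4) hX.le).trans ?_
  have e3 : (2 * xN N) ^ (k ^ 2) * (B * M * (m * lam⁻¹ ^ q1 * (∫ ω, |‖La (N ^ q) ω‖ ^ (2 * k) - ‖Dx (N ^ q) x ω‖ ^ (2 * k)| ∂tm) +
      e / (2 * ((M + 1) * K2)) * ∑ j, mk k (Ts N (r j) (u j)))) =
      B * (M * (m * lam⁻¹ ^ q1 * ((2 * xN N) ^ (k ^ 2) * ∫ ω, |‖La (N ^ q) ω‖ ^ (2 * k) - ‖Dx (N ^ q) x ω‖ ^ (2 * k)| ∂tm)) +
      M * (e / (2 * ((M + 1) * K2)) * ((2 * xN N) ^ (k ^ 2) * ∑ j, mk k (Ts N (r j) (u j))))) := by ring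
  rw [e3]
  refine mul_le_mul_of_nonneg_left ?_ hB
  have hli : 0 < lam⁻¹ ^ q1 := by positivity
  have p1 : M * (m * lam⁻¹ ^ q1 * ((2 * xN N) ^ (k ^ 2) * ∫ ω, |‖La (N ^ q) ω‖ ^ (2 * k) - ‖Dx (N ^ q) x ω‖ ^ (2 * k)| ∂tm)) ≤ e / 2 := by
    calc _ ≤ (M + 1) * ((m + 1) * lam⁻¹ ^ q1 * (e1 * K1)) := by
          refine mul_le_mul (by linarith) ?_ (by positivity) (by linarith)
          refine mul_le_mul ?_ h8 (by positivity) (by positivity)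
          exact mul_le_mul_of_nonneg_right (by linarith) hli.le
      _ = e / 2 := by
          rw [he1]
          field_simp
  have p2 : M * (e / (2 * ((M + 1) * K2)) * ((2 * xN N) ^ (k ^ 2) * ∑ j, mk k (Ts N (r j) (u j)))) ≤ e / 2 := by
    calc _ ≤ (M + 1) * (e / (2 * ((M + 1) * K2)) * K2) := by
          refine mul_le_mul (by linarith) ?_ ?_ (by linarith)
          · exact mul_le_mul_of_nonneg_left h9 (by positivity)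
          · exact mul_nonneg (by positivity) (mul_nonneg hX.le (Finset.sum_nonneg fun j _ => mk_nonneg _ _))
      _ = e / 2 := by field_simp
  linarith

/-- a bound for the weighted integral -/
theorem wbd {s β : ℝ} (hs : 0 < s) (hβ : 0 < β) {r : Fin m → ℕ} (hr : ∀ j, 1 ≤ r j) {q : ℕ} (hq : 1 ≤ q) (u : Fin m → ℝ)
    {Φ : (Fin m → ℂ) → ℝ} (hc : Continuous Φ) (hom : Hom β Φ) :
    ∃ K : ℝ, 0 < K ∧ ∀ᶠ N : ℕ in atTop, ∀ x : ℝ, 0 < x → ∀ (G : (ℕ → ℝ) → ℝ), Measurable G → ∀ B : ℝ, (∀ ω, |G ω| ≤ B) →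
      (2 * xN N) ^ ((s + β / 2) ^ 2) * |∫ ω, ‖Dx (N ^ q) x ω‖ ^ (2 * s) * (Φ (fun j => Ts N (r j) (u j) ω) * G ω) ∂tm| ≤ B * K := by
  obtain ⟨k, hk'⟩ : ∃ k : ℝ, k = s + β / 2 := ⟨_, rfl⟩
  have hk : 0 < k := by rw [hk']; positivity
  obtain ⟨M, hM, hb⟩ := hom_bd hc hβ hom
  obtain ⟨K2, hK2, hmass⟩ := Ts_bd hk hr u
  obtain ⟨C, hC, hup⟩ := Dx_up hk
  have hq0 : (0:ℝ) < q := by exact_mod_cast (by omega : 0 < q)
  refine ⟨(M + 1) * ((m + 1) * (C * (2 * q) ^ (k ^ 2)) + K2), by positivity, ?_⟩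
  filter_upwards [hmass, eventually_ge_atTop 3] with N h2 hN x hx G hG B hGb
  have hB : 0 ≤ B := (abs_nonneg _).trans (hGb 0)
  have hNq : 3 ≤ N ^ q := pow_three hN hq
  have hxN := xN_pos hN
  rw [← hk']
  have hX : 0 < (2 * xN N) ^ (k ^ 2) := by positivity
  have gT : ∀ j, Gd (Ts N (r j) (u j)) := fun j => Ts_gd _ _ _
  have iD2 : Integrable (fun ω => ‖Dx (N ^ q) x ω‖ ^ (2 * k)) tm := (Dx_gd (N ^ q) hx.le).intp (by positivity)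
  have hZW : ∀ ω, (‖Dx (N ^ q) x ω‖ ^ (2 * s)) ^ ((s + β / 2) / s) ≤ ‖Dx (N ^ q) x ω‖ ^ (2 * k) := by
    intro ω
    refine le_of_eq ?_
    have e2 : 2 * s * ((s + β / 2) / s) = 2 * k := by rw [hk']; field_simp
    rw [← Real.rpow_mul (norm_nonneg _), e2]
  have h4 := mix_bd hs hβ hM hb gT (Z := fun ω => ‖Dx (N ^ q) x ω‖ ^ (2 * s)) (fun ω => by positivity)
    (W := fun ω => ‖Dx (N ^ q) x ω‖ ^ (2 * k)) iD2 hZW hGb (lam := 1) one_pos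
  rw [inv_one, Real.one_rpow, Real.one_rpow, one_mul, mul_one, ← hk'] at h4
  have h3 : |∫ ω, ‖Dx (N ^ q) x ω‖ ^ (2 * s) * (Φ (fun j => Ts N (r j) (u j) ω) * G ω) ∂tm| ≤
      ∫ ω, ‖Dx (N ^ q) x ω‖ ^ (2 * s) * |Φ (fun j => Ts N (r j) (u j) ω) * G ω| ∂tm := by
    refine (abs_integral_le_integral_abs).trans (le_of_eq ?_)
    refine integral_congr_ae (Eventually.of_forall fun ω => ?_)
    simp only
    rw [abs_mul, abs_of_nonneg (show 0 ≤ ‖Dx (N ^ q) x ω‖ ^ (2 * s) by positivity)]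
  have h6 := hup (N ^ q) hNq x hx.le
  have h7 : (2 * xN N) ^ (k ^ 2) * mk k (Dx (N ^ q) x) ≤ C * (2 * q) ^ (k ^ 2) := by
    refine (mul_le_mul_of_nonneg_left h6 hX.le).trans (le_of_eq ?_)
    have hl3 := log_N hNq
    rw [mul_left_comm, ← Real.mul_rpow (by positivity) (by linarith), mul_assoc 2, x_log hN]
  have h9 : (2 * xN N) ^ (k ^ 2) * ∑ j, mk k (Ts N (r j) (u j)) ≤ K2 := by
    rw [Finset.mul_sum]
    exact h2
  refine (mul_le_mul_of_nonneg_left (h3.trans h4) hX.le).trans ?_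
  have e3 : (2 * xN N) ^ (k ^ 2) * (B * M * (m * (∫ ω, ‖Dx (N ^ q) x ω‖ ^ (2 * k) ∂tm) + ∑ j, mk k (Ts N (r j) (u j)))) =
      B * (M * (m * ((2 * xN N) ^ (k ^ 2) * mk k (Dx (N ^ q) x)) + (2 * xN N) ^ (k ^ 2) * ∑ j, mk k (Ts N (r j) (u j)))) := by
    unfold mk
    ring
  rw [e3]
  refine mul_le_mul_of_nonneg_left ?_ hB
  have hmD := mk_nonneg k (Dx (N ^ q) x)
  refine mul_le_mul (by linarith) (add_le_add ?_ h9) ?_ (by linarith)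
  · exact mul_le_mul (by linarith) h7 (by positivity) (by positivity)
  · have : 0 ≤ ∑ j, mk k (Ts N (r j) (u j)) := Finset.sum_nonneg fun j _ => mk_nonneg _ _
    positivity

end Pool.Agent.H470
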