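import Pool.Agent.H470.Va7

set_option autoImplicit false

/-! The weighted torus theorem. -/

namespace Pool.Agent.H470

open MeasureTheory Filter Topology ProbabilityTheory Set
open scoped ENNReal
open Pool.Agent.TH806 (ec ec_norm ec_cont uu integrable_uu)

variable {m : ℕ}

lemma ex_eq (s β : ℝ) : β * s + β ^ 2 / 4 = (s + β / 2) ^ 2 - s ^ 2 := by ring

lemma xR_log {R q N : ℕ} (hN : 3 ≤ N) : xR R N * Real.log ((N ^ q : ℕ) : ℝ) = q / R := by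
  unfold xR
  rw [div_mul_eq_mul_div, x_log hN]

/-- the normalised weights -/
theorem cmp2 {s β : ℝ} (hs : 0 < s) (hβ : 0 < β) {r : Fin m → ℕ} (hr : ∀ j, 1 ≤ r j) {q : ℕ} (hq : 1 ≤ q) (u : Fin m → ℝ)
    {Φ : (Fin m → ℂ) → ℝ} (hc : Continuous Φ) (hom : Hom β Φ) {e : ℝ} (he : 0 < e) :
    ∃ R : ℕ, 1 ≤ R ∧ ∀ᶠ N : ℕ in atTop, ∀ (G : (ℕ → ℝ) → ℝ), Measurable G → ∀ B : ℝ, (∀ ω, |G ω| ≤ B) →
      |(2 * xN N) ^ (β * s + β ^ 2 / 4) * nuG s (N ^ q) (fun ω => Φ (fun j => Ts N (r j) (u j) ω) * G ω) -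
        (2 * xN N) ^ (β * s + β ^ 2 / 4) * ((∫ ω, ‖Dx (N ^ q) (xR R N) ω‖ ^ (2 * s) * (Φ (fun j => Ts N (r j) (u j) ω) * G ω) ∂tm) /
          ∫ ω, ‖Dx (N ^ q) (xR R N) ω‖ ^ (2 * s) ∂tm)| ≤ B * e := by
  obtain ⟨K, hK, hw⟩ := wbd hs hβ hr hq u hc hom
  obtain ⟨cl, hcl, hlow⟩ := La_low s
  have hq0 : (0:ℝ) < q := by exact_mod_cast (by omega : 0 < q)
  obtain ⟨c1, hc1⟩ : ∃ c1 : ℝ, c1 = cl * (2 * q) ^ (s ^ 2) := ⟨_, rfl⟩
  have hc10 : 0 < c1 := by rw [hc1]; positivity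
  obtain ⟨ca, hca, h1⟩ := cmp1 hs hβ hr hq u hc hom (show 0 < c1 * e / 2 by positivity)
  obtain ⟨cb, hcb, h2⟩ := La_near s (show 0 < c1 * e / (2 * K) by positivity)
  obtain ⟨R, hR⟩ := exists_nat_ge (q / min ca cb)
  have hmin : 0 < min ca cb := lt_min hca hcb
  have hR0 : (0:ℝ) < R := (by positivity : (0:ℝ) < q / min ca cb).trans_le hR
  have hqR : (q:ℝ) / R ≤ min ca cb := by
    rw [div_le_iff₀ hmin] at hR
    rw [div_le_iff₀ hR0, mul_comm]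
    exact hR
  have hR1 : 1 ≤ R := by
    have : 0 < R := by exact_mod_cast hR0
    omega
  refine ⟨R, hR1, ?_⟩
  filter_upwards [h1, hw, (pow_lim hq).eventually hlow, eventually_ge_atTop 3] with N h1N hwN hlN hN G hG B hGb
  have hB : 0 ≤ B := (abs_nonneg _).trans (hGb 0)
  have hNq : 3 ≤ N ^ q := pow_three hN hq
  have hxN := xN_pos hN
  have hy : 0 < xR R N := div_pos hxN hR0
  have hX : 0 < (2 * xN N) ^ ((s + β / 2) ^ 2) := by positivity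
  have hS : 0 < (2 * xN N) ^ (s ^ 2) := by positivity
  have p1 := h1N (xR R N) hy (by rw [xR_log hN]; exact hqR.trans (min_le_left _ _)) G hG B hGb
  have p2 := h2 (xR R N) hy (N ^ q) hNq (by rw [xR_log hN]; exact hqR.trans (min_le_right _ _))
  have p3 := hwN (xR R N) hy G hG B hGb
  obtain ⟨n1, hn1⟩ : ∃ n1 : ℝ, n1 = ∫ ω, ‖La (N ^ q) ω‖ ^ (2 * s) * (Φ (fun j => Ts N (r j) (u j) ω) * G ω) ∂tm := ⟨_, rfl⟩
  obtain ⟨n2, hn2⟩ : ∃ n2 : ℝ, n2 = ∫ ω, ‖Dx (N ^ q) (xR R N) ω‖ ^ (2 * s) * (Φ (fun j => Ts N (r j) (u j) ω) * G ω) ∂tm := ⟨_, rfl⟩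
  obtain ⟨d1, hd1⟩ : ∃ d1 : ℝ, d1 = ∫ ω, ‖La (N ^ q) ω‖ ^ (2 * s) ∂tm := ⟨_, rfl⟩
  obtain ⟨d2, hd2⟩ : ∃ d2 : ℝ, d2 = ∫ ω, ‖Dx (N ^ q) (xR R N) ω‖ ^ (2 * s) ∂tm := ⟨_, rfl⟩
  have hd2' : mk s (Dx (N ^ q) (xR R N)) = d2 := by rw [hd2]; rfl
  have hd1' : mk s (La (N ^ q)) = d1 := by rw [hd1]; rfl
  rw [← hn1, ← hn2] at p1
  rw [← hn2] at p3
  rw [hd2'] at p2
  rw [hd1'] at hlN
  have hd1c : c1 ≤ (2 * xN N) ^ (s ^ 2) * d1 := by
    refine le_trans (le_of_eq ?_) (mul_le_mul_of_nonneg_left hlN hS.le)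
    have hl3 := log_N hNq
    rw [hc1, mul_left_comm, ← Real.mul_rpow (by positivity) (by linarith), mul_assoc 2, x_log hN]
  have hd1p : 0 < d1 := by
    rw [← hd1']
    exact La_mass s _
  have hd2p : 0 < d2 := by
    rw [← hd2']
    obtain ⟨C, hC, h5⟩ := Jd_rat s 0
    have h6 := (h5 (xR R N) hy (N ^ q) hNq).1
    refine lt_of_lt_of_eq h6 ?_
    unfold Jd mk Dx
    refine integral_congr_ae (Eventually.of_forall fun ω => ?_)
    simp only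
    rw [norm_exp_rpow', zero_mul, add_zero]
  have hdd : |d1 - d2| ≤ c1 * e / (2 * K) * d2 := by
    refine le_trans ?_ p2
    rw [hd1, hd2, ← integral_sub ((La_gd _).intp (by positivity)) ((Dx_gd _ hy.le).intp (by positivity))]
    exact abs_integral_le_integral_abs
  have hnu : nuG s (N ^ q) (fun ω => Φ (fun j => Ts N (r j) (u j) ω) * G ω) = n1 / d1 := by
    rw [hn1, hd1]
    rfl
  rw [hnu, ← hn2, ← hd2, ← mul_sub, abs_mul, ex_eq, Real.rpow_sub (by positivity), abs_of_pos (div_pos hX hS)]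
  have h7 : |n1 / d1 - n2 / d2| ≤ |n1 - n2| / d1 + |n2| * (c1 * e / (2 * K)) / d1 := by
    have e1 : n1 / d1 - n2 / d2 = (n1 - n2) / d1 + n2 * (d2 - d1) / (d1 * d2) := by
      field_simp
      ring
    rw [e1]
    refine (abs_add_le _ _).trans (add_le_add ?_ ?_)
    · rw [abs_div, abs_of_pos hd1p]
    · rw [abs_div, abs_mul, abs_of_pos (mul_pos hd1p hd2p), abs_sub_comm d2, div_le_div_iff₀ (mul_pos hd1p hd2p) hd1p]
      calc |n2| * |d1 - d2| * d1 ≤ |n2| * (c1 * e / (2 * K) * d2) * d1 := by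
            refine mul_le_mul_of_nonneg_right (mul_le_mul_of_nonneg_left hdd (abs_nonneg _)) hd1p.le
        _ = _ := by ring
  refine (mul_le_mul_of_nonneg_left h7 (div_pos hX hS).le).trans ?_
  have e2 : (2 * xN N) ^ ((s + β / 2) ^ 2) / (2 * xN N) ^ (s ^ 2) * (|n1 - n2| / d1 + |n2| * (c1 * e / (2 * K)) / d1) =
      ((2 * xN N) ^ ((s + β / 2) ^ 2) * |n1 - n2| + (2 * xN N) ^ ((s + β / 2) ^ 2) * |n2| * (c1 * e / (2 * K))) / ((2 * xN N) ^ (s ^ 2) * d1) := by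
    field_simp
  rw [e2, div_le_iff₀ (by positivity)]
  have h8 : (2 * xN N) ^ ((s + β / 2) ^ 2) * |n1 - n2| + (2 * xN N) ^ ((s + β / 2) ^ 2) * |n2| * (c1 * e / (2 * K)) ≤ B * e * c1 := by
    calc _ ≤ B * (c1 * e / 2) + B * K * (c1 * e / (2 * K)) := add_le_add p1 (mul_le_mul_of_nonneg_right p3 (by positivity))
      _ = _ := by field_simp; ring
  exact h8.trans (mul_le_mul_of_nonneg_left hd1c (by positivity))

/-- the limit near the line -/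
theorem lim_R {s β : ℝ} (hs : 0 < s) (hβ : 0 < β) {R : ℕ} (hR : 1 ≤ R) {r : Fin m → ℕ} (hr : ∀ j, 1 ≤ r j) {q : ℕ} (hq : 1 ≤ q) (hrq : ∀ j, r j ≤ q)
    (u : Fin m → ℝ) {Φ : (Fin m → ℂ) → ℝ} (hc : Continuous Φ) (hom : Hom β Φ) :
    ∃ L : ℝ, ∀ (P : ℕ) (G : (ℕ → ℝ) → ℝ), Measurable G → (∃ B : ℝ, ∀ ω, |G ω| ≤ B) → Dep (pr P) G →
      Tendsto (fun N : ℕ => (2 * xN N) ^ (β * s + β ^ 2 / 4) * ((∫ ω, ‖Dx (N ^ q) (xR R N) ω‖ ^ (2 * s) * (Φ (fun j => Ts N (r j) (u j) ω) * G ω) ∂tm) /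
          ∫ ω, ‖Dx (N ^ q) (xR R N) ω‖ ^ (2 * s) ∂tm)) atTop (𝓝 (L * nuG (s + β / 2) P G)) := by
  obtain ⟨k, hk'⟩ : ∃ k : ℝ, k = s + β / 2 := ⟨_, rfl⟩
  have hk : 0 < k := by rw [hk']; positivity
  have hR0 : (0:ℝ) < R := by exact_mod_cast (by omega : 0 < R)
  obtain ⟨Ψ, hΨ⟩ : ∃ Ψ : (Fin (m + 1) → ℂ) → ℝ, ∀ z, Ψ z = Φ (fun j => z j.succ) * ‖z 0‖ ^ (2 * s) := ⟨fun z => _, fun _ => rfl⟩
  have hΨc : Continuous Ψ := by
    rw [funext hΨ]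
    refine (hc.comp (by fun_prop)).mul ?_
    exact (continuous_norm.comp (continuous_apply 0)).rpow_const fun _ => Or.inr (by positivity)
  have hΨh : Hom (2 * k) Ψ := by
    intro a z
    have e1 : (fun j : Fin m => (a • z) j.succ) = a • fun j : Fin m => z j.succ := rfl
    rw [hΨ, hΨ, e1, hom, Pi.smul_apply, smul_eq_mul, norm_mul, Real.mul_rpow (norm_nonneg _) (norm_nonneg _)]
    have e2 : ‖a‖ ^ (2 * k) = ‖a‖ ^ β * ‖a‖ ^ (2 * s) := by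
      rw [← Real.rpow_add_of_nonneg (norm_nonneg _) hβ.le (by positivity), hk']
      congr 1
      ring
    rw [e2]
    ring
  obtain ⟨L, hL⟩ := Apx_lim hk (xR_lim hR) (fam_Apx hk hR hr u) hΨc hΨh
  obtain ⟨-, ha, hmass⟩ := mass_lim s
  refine ⟨(R:ℝ) ^ (β * s + β ^ 2 / 4) * L / aK s, fun P G hG hGb hGd => ?_⟩
  have h1 := hL P G hG hGb hGd
  have h2 := hmass.comp (xR_lim hR)
  have h3 := (h1.div h2 ha.ne').const_mul ((R:ℝ) ^ (β * s + β ^ 2 / 4))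
  have e0 : (R:ℝ) ^ (β * s + β ^ 2 / 4) * (L * nuG k P G / aK s) = (R:ℝ) ^ (β * s + β ^ 2 / 4) * L / aK s * nuG (s + β / 2) P G := by
    rw [hk']
    ring
  rw [e0] at h3
  refine h3.congr' ?_
  have hlq : ∀ᶠ N : ℕ in atTop, (q:ℝ) ≤ Real.log N :=
    (Real.tendsto_log_atTop.comp tendsto_natCast_atTop_atTop).eventually (eventually_ge_atTop _)
  filter_upwards [hlq, eventually_ge_atTop 3, (pow_lim hq).eventually (eventually_ge_atTop P)] with N hqN hN hPN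
  have hxN := xN_pos hN
  have hy : 0 < xR R N := div_pos hxN hR0
  have hPX : N ^ q ≤ PX (xR R N) := by
    have h4 := PX_exp hy
    have h5 : ((N ^ q : ℕ) : ℝ) ≤ PX (xR R N) := by
      refine le_trans ?_ h4
      have hN0 : (0:ℝ) < N := by exact_mod_cast (by omega : 0 < N)
      have e1 : ((N ^ q : ℕ) : ℝ) = Real.exp (q * Real.log N) := by
        push_cast
        rw [Real.exp_nat_mul, Real.exp_log hN0]
      rw [e1]
      refine Real.exp_le_exp.mpr ?_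
      have hl := log_N hN
      have e2 : 1 / xR R N ^ 2 = (R:ℝ) ^ 2 * (Real.log N) ^ 2 := by
        unfold xR xN
        field_simp
      rw [e2]
      have hR2 : (1:ℝ) ≤ (R:ℝ) ^ 2 := one_le_pow₀ (by exact_mod_cast hR)
      nlinarith
    exact_mod_cast h5
  have gT : ∀ j, Gd (Ts N (r j) (u j)) := fun j => Ts_gd _ _ _
  have mH : Measurable fun ω => Φ (fun j => Ts N (r j) (u j) ω) * G ω := (Hmeas hc gT).mul hG
  have dH : Dep (pr (N ^ q)) fun ω => Φ (fun j => Ts N (r j) (u j) ω) * G ω := by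
    intro ω ω' hω
    simp only
    rw [hGd ω ω' fun p hp => hω p (pr_mono hPN hp)]
    congr 2
    funext j
    exact Ts_dep (Nat.pow_le_pow_right (by omega) (hrq j)) (u j) hω
  have i1 := Fp_indep s hy hPX mH dH
  have i2 := Fp_indep s hy hPX (H := fun _ => 1) measurable_const (fun _ _ _ => rfl)
  simp only [mul_one] at i2
  obtain ⟨n2, hn2⟩ : ∃ n2 : ℝ, n2 = ∫ ω, ‖Dx (N ^ q) (xR R N) ω‖ ^ (2 * s) * (Φ (fun j => Ts N (r j) (u j) ω) * G ω) ∂tm := ⟨_, rfl⟩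
  obtain ⟨d2, hd2⟩ : ∃ d2 : ℝ, d2 = ∫ ω, ‖Dx (N ^ q) (xR R N) ω‖ ^ (2 * s) ∂tm := ⟨_, rfl⟩
  obtain ⟨rr, hrr⟩ : ∃ rr : ℝ, rr = ∫ ω, ‖Re' (N ^ q) (xR R N) 0 ω‖ ^ (2 * s) ∂tm := ⟨_, rfl⟩
  rw [← hn2, ← hrr] at i1
  rw [← hd2, ← hrr] at i2
  have hF : 0 < ∫ ω, ‖Fp (xR R N) 0 ω‖ ^ (2 * s) ∂tm := by
    refine (integral_pos_iff_support_of_nonneg (fun ω => by positivity) ((Fp_gd hy 0).intp (by positivity))).mpr ?_
    have : Function.support (fun ω => ‖Fp (xR R N) 0 ω‖ ^ (2 * s)) = Set.univ := by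
      ext ω
      simp only [Function.mem_support, Set.mem_univ, iff_true]
      have h5 : 0 < ‖Fp (xR R N) 0 ω‖ := norm_pos_iff.mpr (Complex.exp_ne_zero _)
      positivity
    rw [this, measure_univ]
    exact one_pos
  have hrr0 : rr ≠ 0 := by
    intro h
    rw [i2, h, mul_zero] at hF
    exact lt_irrefl _ hF
  have hd20 : d2 ≠ 0 := by
    intro h
    rw [i2, h, zero_mul] at hF
    exact lt_irrefl _ hF
  have e3 : ∫ ω, Ψ (fun j => fam R r u j N ω) * G ω ∂tm = n2 * rr := by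
    rw [← i1]
    refine integral_congr_ae (Eventually.of_forall fun ω => ?_)
    simp only
    rw [hΨ]
    unfold fam
    simp only [Fin.cons_zero, Fin.cons_succ]
    ring
  have e4 : ∫ ω, pt s (xR R N) ω ∂tm = (2 * xR R N) ^ (s ^ 2) * (d2 * rr) := by
    rw [← i2]
    unfold pt
    rw [integral_const_mul]
  show (R:ℝ) ^ (β * s + β ^ 2 / 4) * (((2 * xR R N) ^ (k ^ 2) * ∫ ω, Ψ (fun j => fam R r u j N ω) * G ω ∂tm) / (∫ ω, pt s (xR R N) ω ∂tm)) = _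
  rw [e3, e4, ← hn2, ← hd2]
  have e5 : (2 * xN N) = R * (2 * xR R N) := by
    unfold xR
    field_simp
  rw [e5, Real.mul_rpow hR0.le (by positivity), ex_eq, hk', Real.rpow_sub (show 0 < 2 * xR R N by positivity)]
  have hS : 0 < (2 * xR R N) ^ (s ^ 2) := by positivity
  field_simp

end Pool.Agent.H470
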