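import Pool.Agent.H470.Va8

set_option autoImplicit false

/-! The weighted torus theorem: the limit and its positivity. -/

namespace Pool.Agent.H470

open MeasureTheory Filter Topology ProbabilityTheory Set
open scoped ENNReal
open Pool.Agent.TH806 (ec ec_norm ec_cont uu integrable_uu)
open Pool.Agent.R313.CX (mu Cv)

variable {m : ℕ}

/-- from approximate limits to limits -/
lemma lim_of_app {k : ℝ} {I : ((ℕ → ℝ) → ℝ) → ℕ → ℝ}
    (h : ∀ e : ℝ, 0 < e → ∃ L : ℝ, ∀ (P : ℕ) (G : (ℕ → ℝ) → ℝ), Measurable G → ∀ B : ℝ, (∀ ω, |G ω| ≤ B) → Dep (pr P) G →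
      ∀ᶠ N : ℕ in atTop, |I G N - L * nuG k P G| ≤ (B + 1) * e) :
    ∃ L : ℝ, ∀ (P : ℕ) (G : (ℕ → ℝ) → ℝ), Measurable G → (∃ B : ℝ, ∀ ω, |G ω| ≤ B) → Dep (pr P) G →
      Tendsto (I G) atTop (𝓝 (L * nuG k P G)) := by
  have n1 : nuG k 0 (fun _ => 1) = 1 := by
    unfold nuG
    simp only [mul_one]
    exact div_self (La_mass k 0).ne'
  have hI1 : ∀ e : ℝ, 0 < e → ∃ L : ℝ, (∀ᶠ N : ℕ in atTop, |I (fun _ => 1) N - L| ≤ 2 * e) ∧
      ∀ (P : ℕ) (G : (ℕ → ℝ) → ℝ), Measurable G → ∀ B : ℝ, (∀ ω, |G ω| ≤ B) → Dep (pr P) G →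
      ∀ᶠ N : ℕ in atTop, |I G N - L * nuG k P G| ≤ (B + 1) * e := by
    intro e he
    obtain ⟨L, hL⟩ := h e he
    refine ⟨L, ?_, hL⟩
    have h1 := hL 0 (fun _ => 1) measurable_const 1 (fun _ => by simp) (fun _ _ _ => rfl)
    rw [n1, mul_one] at h1
    filter_upwards [h1] with N h2
    linarith
  have hcs : CauchySeq (I (fun _ => 1)) := by
    rw [Metric.cauchySeq_iff']
    intro e he
    obtain ⟨L, hL, -⟩ := hI1 (e / 6) (by positivity)
    obtain ⟨N0, hN0⟩ := eventually_atTop.mp hL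
    refine ⟨N0, fun N hN => ?_⟩
    have h1 := abs_le.mp (hN0 N hN)
    have h2 := abs_le.mp (hN0 N0 le_rfl)
    rw [Real.dist_eq, abs_lt]
    constructor <;> linarith [h1.1, h1.2, h2.1, h2.2]
  obtain ⟨L, hL⟩ := cauchySeq_tendsto_of_complete hcs
  refine ⟨L, fun P G hG hGb hGd => ?_⟩
  obtain ⟨B, hB⟩ := hGb
  have hB0 : 0 ≤ B := (abs_nonneg _).trans (hB 0)
  rw [Metric.tendsto_nhds]
  intro e he
  obtain ⟨q, hq⟩ : ∃ q : ℝ, q = |nuG k P G| := ⟨_, rfl⟩
  have hq0 : 0 ≤ q := by rw [hq]; exact abs_nonneg _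
  obtain ⟨L', hL', hG'⟩ := hI1 (e / (2 * (B + 1 + 2 * q))) (by positivity)
  have h1 : |L - L'| ≤ 2 * (e / (2 * (B + 1 + 2 * q))) := by
    have h2 : Tendsto (fun N => |I (fun _ => 1) N - L'|) atTop (𝓝 |L - L'|) := (hL.sub_const L').abs
    exact le_of_tendsto h2 hL'
  filter_upwards [hG' P G hG B hB hGd] with N h2
  rw [Real.dist_eq]
  have h3 : |L' * nuG k P G - L * nuG k P G| ≤ 2 * (e / (2 * (B + 1 + 2 * q))) * q := by
    rw [← sub_mul, abs_mul, ← hq, abs_sub_comm]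
    exact mul_le_mul_of_nonneg_right h1 hq0
  have h4 := abs_add_le (I G N - L' * nuG k P G) (L' * nuG k P G - L * nuG k P G)
  rw [sub_add_sub_cancel] at h4
  refine lt_of_le_of_lt (h4.trans (add_le_add h2 h3)) ?_
  have h5 : (B + 1) * (e / (2 * (B + 1 + 2 * q))) + 2 * (e / (2 * (B + 1 + 2 * q))) * q = e / 2 := by
    field_simp
  rw [h5]
  linarith

/-- **the weighted limit** -/
theorem mix_lim {s β : ℝ} (hs : 0 < s) (hβ : 0 < β) {r : Fin m → ℕ} (hr : ∀ j, 1 ≤ r j) {q : ℕ} (hq : 1 ≤ q) (hrq : ∀ j, r j ≤ q)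
    (u : Fin m → ℝ) {Φ : (Fin m → ℂ) → ℝ} (hc : Continuous Φ) (hom : Hom β Φ) :
    ∃ L : ℝ, ∀ (P : ℕ) (G : (ℕ → ℝ) → ℝ), Measurable G → (∃ B : ℝ, ∀ ω, |G ω| ≤ B) → Dep (pr P) G →
      Tendsto (fun N : ℕ => (2 * xN N) ^ (β * s + β ^ 2 / 4) * nuG s (N ^ q) (fun ω => Φ (fun j => Ts N (r j) (u j) ω) * G ω)) atTop
        (𝓝 (L * nuG (s + β / 2) P G)) := by
  refine lim_of_app (I := fun G N => (2 * xN N) ^ (β * s + β ^ 2 / 4) * nuG s (N ^ q) (fun ω => Φ (fun j => Ts N (r j) (u j) ω) * G ω)) fun e he => ?_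
  obtain ⟨R, hR, h1⟩ := cmp2 hs hβ hr hq u hc hom he
  obtain ⟨L, hL⟩ := lim_R hs hβ hR hr hq hrq u hc hom
  refine ⟨L, fun P G hG B hGb hGd => ?_⟩
  filter_upwards [h1, Metric.tendsto_nhds.mp (hL P G hG ⟨B, hGb⟩ hGd) e he] with N h2 h3
  rw [Real.dist_eq] at h3
  have h4 := h2 G hG B hGb
  have a1 := abs_le.mp h4
  have a2 := abs_lt.mp h3
  rw [abs_le]
  constructor <;> linarith [a1.1, a1.2, a2.1, a2.2]

/-! ### positivity -/

lemma mu_zero (k : ℝ) : mu k 0 = 0 := by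
  unfold mu
  simp

/-- mixed limits of finite combinations -/
theorem two_lim {k p : ℝ} (hk : 0 < k) (hp : 0 < p) (hp2 : p < 2 * k) {n : ℕ} (y : Fin n → ℝ) (c : Fin n → ℂ) :
    ∃ v : ℝ, aK k * ‖∑ j, c j * Complex.exp (mu k (y j))‖ ^ p ≤ v ∧
      Tendsto (fun x : ℝ => (2 * x) ^ (k ^ 2) * ∫ ω, ‖∑ j, c j * Fp x (y j) ω‖ ^ p * ‖Fp x 0 ω‖ ^ (2 * k - p) ∂tm) (𝓝[>] 0) (𝓝 v) := by
  obtain ⟨ρ, hρ1, hρ2, h⟩ := fld_lim hk (Fin.cons 0 y : Fin (n + 1) → ℝ)
  have haK := (mass_lim k).2.1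
  have h1 := h (fun z => ‖∑ j : Fin n, c j * z j.succ‖ ^ p * ‖z 0‖ ^ (2 * k - p)) (by
    refine (Continuous.rpow_const (by fun_prop) fun _ => Or.inr (by positivity)).mul ?_
    exact Continuous.rpow_const (by fun_prop) fun _ => Or.inr (by linarith)) (fun u z => by
    have e1 : ∑ j : Fin n, c j * (u • z) j.succ = u * ∑ j : Fin n, c j * z j.succ := by
      rw [Finset.mul_sum]
      refine Finset.sum_congr rfl fun j _ => ?_
      rw [Pi.smul_apply, smul_eq_mul]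
      ring
    have e2 : ‖u‖ ^ (2 * k) = ‖u‖ ^ p * ‖u‖ ^ (2 * k - p) := by
      rw [← Real.rpow_add_of_nonneg (norm_nonneg _) hp.le (by linarith)]
      congr 1
      ring
    rw [e1, norm_mul, Real.mul_rpow (norm_nonneg _) (norm_nonneg _), Pi.smul_apply, smul_eq_mul, norm_mul, Real.mul_rpow (norm_nonneg _) (norm_nonneg _), e2]
    ring)
  simp only [Fin.cons_zero, Fin.cons_succ] at h1
  refine ⟨_, mul_le_mul_of_nonneg_left ?_ haK.le, h1⟩
  -- the first coordinate vanishes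
  have hexp : ∀ a b : ℂ, ∫ z : Fin (n + 1) → ℂ, Complex.exp (a * z 0 + b * (starRingEnd ℂ) (z 0)) ∂(ρ : Measure (Fin (n + 1) → ℂ)) = 1 := by
    intro a b
    have h2 := hρ2 (Fin.cons a (fun _ => 0)) (Fin.cons b (fun _ => 0))
    simp only [Fin.sum_univ_succ, Fin.cons_zero, Fin.cons_succ, zero_mul, add_zero, Finset.sum_const_zero, mul_zero, mu_zero, map_zero] at h2
    rw [h2]
    have e3 : Cv 0 0 = 0 := by
      rw [Pool.Agent.R313.CX.Cv_eq]
      simp [Pool.Agent.R313.CX.le1]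
    rw [e3, mul_zero, add_zero, Complex.exp_zero]
  have hexi : ∀ a b : ℂ, Integrable (fun z : Fin (n + 1) → ℂ => Complex.exp (a * z 0 + b * (starRingEnd ℂ) (z 0))) (ρ : Measure (Fin (n + 1) → ℂ)) := by
    intro a b
    refine (hρ1 (‖a‖ + ‖b‖)).mono' (by fun_prop) (Eventually.of_forall fun z => ?_)
    rw [Complex.norm_exp]
    refine Real.exp_le_exp.mpr ((Complex.re_le_norm _).trans ((norm_add_le _ _).trans ?_))
    rw [norm_mul, norm_mul, RCLike.norm_conj, add_mul]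
    have := norm_le_pi_norm z 0
    exact add_le_add (mul_le_mul_of_nonneg_left this (norm_nonneg _)) (mul_le_mul_of_nonneg_left this (norm_nonneg _))
  have hone : ∀ᵐ z ∂(ρ : Measure (Fin (n + 1) → ℂ)), ‖Complex.exp (z 0)‖ = 1 := by
    have hsq : ∀ z : Fin (n + 1) → ℂ, ((‖Complex.exp (z 0) - 1‖ ^ 2 : ℝ) : ℂ) =
        Complex.exp (1 * z 0 + 1 * (starRingEnd ℂ) (z 0)) - Complex.exp (1 * z 0 + 0 * (starRingEnd ℂ) (z 0)) -
          Complex.exp (0 * z 0 + 1 * (starRingEnd ℂ) (z 0)) + 1 := by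
      intro z
      rw [← Complex.normSq_eq_norm_sq, Complex.normSq_eq_conj_mul_self, map_sub, map_one, ← Complex.exp_conj]
      simp only [one_mul, zero_mul, add_zero, zero_add]
      rw [Complex.exp_add]
      ring
    have i1 := hexi 1 1
    have i2 := hexi 1 0
    have i3 := hexi 0 1
    have h3 : ∫ z : Fin (n + 1) → ℂ, ((‖Complex.exp (z 0) - 1‖ ^ 2 : ℝ) : ℂ) ∂(ρ : Measure (Fin (n + 1) → ℂ)) = 0 := by
      have i123 : Integrable (fun z : Fin (n + 1) → ℂ => Complex.exp (1 * z 0 + 1 * (starRingEnd ℂ) (z 0)) - Complex.exp (1 * z 0 + 0 * (starRingEnd ℂ) (z 0)) -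
          Complex.exp (0 * z 0 + 1 * (starRingEnd ℂ) (z 0))) (ρ : Measure (Fin (n + 1) → ℂ)) := (i1.sub i2).sub i3
      simp_rw [hsq]
      rw [integral_add i123 (integrable_const _)]
      have e4 : ∫ z : Fin (n + 1) → ℂ, (Complex.exp (1 * z 0 + 1 * (starRingEnd ℂ) (z 0)) - Complex.exp (1 * z 0 + 0 * (starRingEnd ℂ) (z 0)) -
          Complex.exp (0 * z 0 + 1 * (starRingEnd ℂ) (z 0))) ∂(ρ : Measure (Fin (n + 1) → ℂ)) = 1 - 1 - 1 := by
        have i12 : Integrable (fun z : Fin (n + 1) → ℂ => Complex.exp (1 * z 0 + 1 * (starRingEnd ℂ) (z 0)) - Complex.exp (1 * z 0 + 0 * (starRingEnd ℂ) (z 0))) (ρ : Measure (Fin (n + 1) → ℂ)) := i1.sub i2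
        rw [integral_sub i12 i3, integral_sub i1 i2, hexp, hexp, hexp]
      have e5 : ∫ z : Fin (n + 1) → ℂ, (1:ℂ) ∂(ρ : Measure (Fin (n + 1) → ℂ)) = 1 := by simp
      refine Eq.trans (congrArg₂ (· + ·) e4 e5) ?_
      norm_num
    rw [integral_complex_ofReal] at h3
    have h4 : ∫ z : Fin (n + 1) → ℂ, ‖Complex.exp (z 0) - 1‖ ^ 2 ∂(ρ : Measure (Fin (n + 1) → ℂ)) = 0 := by exact_mod_cast h3
    have i4 : Integrable (fun z : Fin (n + 1) → ℂ => ‖Complex.exp (z 0) - 1‖ ^ 2) (ρ : Measure (Fin (n + 1) → ℂ)) := by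
      have i5 : Integrable (fun z : Fin (n + 1) → ℂ => ((‖Complex.exp (z 0) - 1‖ ^ 2 : ℝ) : ℂ)) (ρ : Measure (Fin (n + 1) → ℂ)) := by
        simp_rw [hsq]
        exact ((i1.sub i2).sub i3).add (integrable_const _)
      exact i5.re
    have h5 := (integral_eq_zero_iff_of_nonneg (fun z => by positivity) i4).mp h4
    filter_upwards [h5] with z hz
    have h6 : ‖Complex.exp (z 0) - 1‖ = 0 := by
      have : ‖Complex.exp (z 0) - 1‖ ^ 2 = 0 := hz
      exact pow_eq_zero_iff (two_ne_zero) |>.mp this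
    rw [sub_eq_zero.mp (norm_eq_zero.mp h6), norm_one]
  have h2 := mod_low hρ2 (Fin.cons 0 c : Fin (n + 1) → ℂ) hp
  simp only [Fin.sum_univ_succ, Fin.cons_zero, Fin.cons_succ, zero_mul, zero_add] at h2
  have hi : Integrable (fun z : Fin (n + 1) → ℂ => ‖∑ j : Fin n, c j * Complex.exp (z j.succ)‖ ^ p) (ρ : Measure (Fin (n + 1) → ℂ)) := by
    obtain ⟨M, hM⟩ : ∃ M : ℝ, M = ∑ j, ‖c j‖ := ⟨_, rfl⟩
    have hM0 : 0 ≤ M := by rw [hM]; exact Finset.sum_nonneg fun j _ => norm_nonneg _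
    have h3 := (hρ1 p).const_mul (M ^ p)
    refine h3.mono' ?_ (Eventually.of_forall fun z => ?_)
    · refine Continuous.aestronglyMeasurable ?_
      exact Continuous.rpow_const (by fun_prop) fun _ => Or.inr (by positivity)
    · rw [Real.norm_of_nonneg (by positivity)]
      have h4 : ‖∑ j : Fin n, c j * Complex.exp (z j.succ)‖ ≤ M * Real.exp ‖z‖ := by
        refine (norm_sum_le _ _).trans ?_
        rw [hM, Finset.sum_mul]
        refine Finset.sum_le_sum fun j _ => ?_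
        rw [norm_mul, Complex.norm_exp]
        refine mul_le_mul_of_nonneg_left (Real.exp_le_exp.mpr ((Complex.re_le_norm _).trans (norm_le_pi_norm z j.succ))) (norm_nonneg _)
      refine (Real.rpow_le_rpow (norm_nonneg _) h4 (by positivity)).trans (le_of_eq ?_)
      rw [Real.mul_rpow hM0 (Real.exp_pos _).le, ← Real.exp_mul]
      congr 2
      ring
  rw [← ofReal_integral_eq_lintegral_ofReal hi (Eventually.of_forall fun z => by positivity)] at h2
  have h7 := (ENNReal.ofReal_le_ofReal_iff (integral_nonneg fun z => by positivity)).mp h2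
  refine h7.trans (le_of_eq ?_)
  refine integral_congr_ae ?_
  filter_upwards [hone] with z hz
  rw [hz, Real.one_rpow, mul_one]

end Pool.Agent.H470
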