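import Pool.Agent.H470.Va12

set_option autoImplicit false

/-! Short Dirichlet polynomials and their mean values. -/

namespace Pool.Agent.H470

open MeasureTheory Filter Topology ProbabilityTheory Set
open Pool.Agent.TH806 (ec ec_norm ec_cont uu integrable_uu)

/-- short polynomials; `lam` is the logarithm of the length -/
def Sp (lam : ℝ) (Q : (ℕ → ℝ) → ℂ) : Prop :=
  ∃ (ι : Type) (_ : Fintype ι) (c : ι → ℂ) (n : ι → ℕ), (∀ i, n i ≠ 0 ∧ Real.log (n i) ≤ lam) ∧ ∀ ω, Q ω = ∑ i, c i * ch (n i) ω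

lemma Sp.mono {l l' : ℝ} (h : l ≤ l') {Q : (ℕ → ℝ) → ℂ} (hQ : Sp l Q) : Sp l' Q := by
  obtain ⟨ι, _, c, n, h1, h2⟩ := hQ
  exact ⟨ι, inferInstance, c, n, fun i => ⟨(h1 i).1, (h1 i).2.trans h⟩, h2⟩

lemma Sp.const {l : ℝ} (hl : 0 ≤ l) (c : ℂ) : Sp l (fun _ => c) :=
  ⟨Unit, inferInstance, fun _ => c, fun _ => 1, fun _ => ⟨one_ne_zero, by simpa using hl⟩, fun ω => by simp [ch_one]⟩

lemma Sp.chr {n : ℕ} (hn : n ≠ 0) : Sp (Real.log n) (ch n) :=
  ⟨Unit, inferInstance, fun _ => 1, fun _ => n, fun _ => ⟨hn, le_rfl⟩, fun ω => by simp⟩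

lemma Sp.add {l : ℝ} {Q Q' : (ℕ → ℝ) → ℂ} (h : Sp l Q) (h' : Sp l Q') : Sp l (fun ω => Q ω + Q' ω) := by
  obtain ⟨ι, _, c, n, h1, h2⟩ := h
  obtain ⟨κ, _, d, m, h1', h2'⟩ := h'
  refine ⟨ι ⊕ κ, inferInstance, Sum.elim c d, Sum.elim n m, ?_, fun ω => ?_⟩
  · rintro (i | i)
    · exact h1 i
    · exact h1' i
  · show Q ω + Q' ω = _
    rw [h2, h2', Fintype.sum_sum_type]
    rfl

lemma Sp.mul {l l' : ℝ} {Q Q' : (ℕ → ℝ) → ℂ} (h : Sp l Q) (h' : Sp l' Q') : Sp (l + l') (fun ω => Q ω * Q' ω) := by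
  obtain ⟨ι, _, c, n, h1, h2⟩ := h
  obtain ⟨κ, _, d, m, h1', h2'⟩ := h'
  refine ⟨ι × κ, inferInstance, fun p => c p.1 * d p.2, fun p => n p.1 * m p.2, fun p => ⟨mul_ne_zero (h1 p.1).1 (h1' p.2).1, ?_⟩, fun ω => ?_⟩
  · push_cast
    rw [Real.log_mul (by exact_mod_cast (h1 p.1).1) (by exact_mod_cast (h1' p.2).1)]
    exact add_le_add (h1 p.1).2 (h1' p.2).2
  · show Q ω * Q' ω = _
    rw [h2, h2', Fintype.sum_mul_sum, ← Fintype.sum_prod_type']
    refine Finset.sum_congr rfl fun p _ => ?_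
    rw [ch_mul (h1 p.1).1 (h1' p.2).1]
    ring

lemma Sp.smul {l : ℝ} (c : ℂ) {Q : (ℕ → ℝ) → ℂ} (h : Sp l Q) : Sp l (fun ω => c * Q ω) := by
  obtain ⟨ι, _, d, n, h1, h2⟩ := h
  refine ⟨ι, inferInstance, fun i => c * d i, n, h1, fun ω => ?_⟩
  show c * Q ω = _
  rw [h2, Finset.mul_sum]
  exact Finset.sum_congr rfl fun i _ => by ring

lemma Sp.sub {l : ℝ} {Q Q' : (ℕ → ℝ) → ℂ} (h : Sp l Q) (h' : Sp l Q') : Sp l (fun ω => Q ω - Q' ω) := by
  have h2 := h.add (h'.smul (-1))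
  refine (funext fun ω => ?_ : (fun ω => Q ω - Q' ω) = fun ω => Q ω + -1 * Q' ω) ▸ h2
  ring

lemma Sp.sum {l : ℝ} (hl : 0 ≤ l) {α : Type*} (s : Finset α) {Q : α → (ℕ → ℝ) → ℂ} (h : ∀ i ∈ s, Sp l (Q i)) : Sp l (fun ω => ∑ i ∈ s, Q i ω) := by
  classical
  induction s using Finset.induction_on with
  | empty => simpa using Sp.const hl 0
  | insert a s ha ih =>
    simp only [Finset.sum_insert ha]
    exact (h a (Finset.mem_insert_self _ _)).add (ih fun i hi => h i (Finset.mem_insert_of_mem hi))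

lemma Sp.pow {l : ℝ} {Q : (ℕ → ℝ) → ℂ} (h : Sp l Q) (m : ℕ) : Sp (m * l) (fun ω => Q ω ^ m) := by
  induction m with
  | zero => simpa using Sp.const le_rfl 1
  | succ m ih =>
    have h2 := ih.mul h
    push_cast
    rw [add_mul, one_mul]
    simpa only [pow_succ] using h2

lemma Sp.prod {α : Type*} (s : Finset α) {l : α → ℝ} {Q : α → (ℕ → ℝ) → ℂ} (h : ∀ i ∈ s, Sp (l i) (Q i)) : Sp (∑ i ∈ s, l i) (fun ω => ∏ i ∈ s, Q i ω) := by
  classical
  induction s using Finset.induction_on with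
  | empty => simpa using Sp.const le_rfl 1
  | insert a s ha ih =>
    simp only [Finset.prod_insert ha, Finset.sum_insert ha]
    exact (h a (Finset.mem_insert_self _ _)).mul (ih fun i hi => h i (Finset.mem_insert_of_mem hi))

/-- normal form -/
lemma Sp.nf {l : ℝ} {Q : (ℕ → ℝ) → ℂ} (h : Sp l Q) : ∃ a : ℕ → ℂ, ∀ ω, Q ω = ∑ n ∈ Finset.Icc 1 ⌊Real.exp l⌋₊, a n * ch n ω := by
  classical
  obtain ⟨ι, _, c, n, h1, h2⟩ := h
  refine ⟨fun m => ∑ i ∈ Finset.univ.filter (fun i => n i = m), c i, fun ω => ?_⟩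
  have hmem : ∀ i, n i ∈ Finset.Icc 1 ⌊Real.exp l⌋₊ := by
    intro i
    rw [Finset.mem_Icc]
    refine ⟨Nat.one_le_iff_ne_zero.mpr (h1 i).1, Nat.le_floor ?_⟩
    have h3 : (0:ℝ) < n i := by exact_mod_cast Nat.pos_of_ne_zero (h1 i).1
    rw [← Real.log_le_iff_le_exp h3]
    exact (h1 i).2
  rw [h2, ← Finset.sum_fiberwise_of_maps_to (fun i _ => hmem i)]
  refine Finset.sum_congr rfl fun m _ => ?_
  rw [Finset.sum_mul]
  refine Finset.sum_congr rfl fun i hi => ?_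
  rw [Finset.mem_filter] at hi
  rw [hi.2]

lemma Sp.cont {l : ℝ} {Q : (ℕ → ℝ) → ℂ} (h : Sp l Q) : Continuous Q := by
  obtain ⟨ι, _, c, n, h1, h2⟩ := h
  rw [funext h2]
  exact continuous_finsetSum _ fun i _ => continuous_const.mul (ch_cont _)

lemma Sp.gd {l : ℝ} {Q : (ℕ → ℝ) → ℂ} (h : Sp l Q) : Gd Q := by
  obtain ⟨ι, _, c, n, h1, h2⟩ := h
  rw [funext h2]
  exact Gd.sum _ fun i _ => Gd.const_mul ⟨(ch_cont _).measurable, 1, fun ω => (ch_norm _ ω).le⟩ _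

lemma fl_cont : Continuous fl := by
  refine continuous_pi fun p => ?_
  unfold fl
  fun_prop

/-- off-diagonal integrals -/
lemma tn_off {m n : ℕ} (hm : m ≠ 0) (hn : n ≠ 0) (h : m ≠ n) {l : ℝ} (hml : Real.log m ≤ l) (hnl : Real.log n ≤ l) {T : ℝ} (hT : 0 < T) :
    ‖((1 / T : ℝ) : ℂ) * ∫ t in (0:ℝ)..T, tn m t * (starRingEnd ℂ) (tn n t)‖ ≤ 2 * Real.exp l / T := by
  have hm0 : (0:ℝ) < m := by exact_mod_cast Nat.pos_of_ne_zero hm
  have hn0 : (0:ℝ) < n := by exact_mod_cast Nat.pos_of_ne_zero hn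
  obtain ⟨θ, hθ⟩ : ∃ θ : ℝ, θ = Real.log n - Real.log m := ⟨_, rfl⟩
  have e1 : ∀ t : ℝ, tn m t * (starRingEnd ℂ) (tn n t) = Complex.exp (((θ : ℂ) * Complex.I) * t) := by
    intro t
    rw [tn_eq hm, tn_eq hn, ← Complex.exp_conj, ← Complex.exp_add, hθ]
    congr 1
    rw [map_mul, Complex.conj_ofReal, Complex.conj_I]
    push_cast
    ring
  have hl : Real.exp (-l) ≤ |θ| := by
    have key : ∀ a b : ℕ, a ≠ 0 → a < b → Real.log b ≤ l → Real.exp (-l) ≤ Real.log b - Real.log a := by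
      intro a b ha hab hb
      have ha0 : (0:ℝ) < a := by exact_mod_cast Nat.pos_of_ne_zero ha
      have hab' : (a:ℝ) + 1 ≤ b := by exact_mod_cast hab
      have hb0 : (0:ℝ) < b := by linarith
      have h1 : 1 - (b / a : ℝ)⁻¹ ≤ Real.log (b / a) := Real.one_sub_inv_le_log_of_pos (by positivity)
      rw [Real.log_div hb0.ne' ha0.ne'] at h1
      have h2 : Real.exp (-l) ≤ 1 / b := by
        rw [Real.exp_neg, ← one_div]
        exact one_div_le_one_div_of_le hb0 (by rw [← Real.log_le_iff_le_exp hb0]; exact hb)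
      have h3 : 1 / (b:ℝ) ≤ 1 - (b / a : ℝ)⁻¹ := by
        rw [inv_div, le_sub_iff_add_le, ← add_div, div_le_one hb0]
        linarith
      linarith
    rcases lt_or_gt_of_ne h with h' | h'
    · have := key m n hm h' hnl
      rw [hθ]
      exact this.trans (le_abs_self _)
    · have := key n m hn h' hml
      rw [hθ, abs_sub_comm]
      exact this.trans (le_abs_self _)
  have hθ0 : 0 < |θ| := (Real.exp_pos _).trans_le hl
  have hθc : (θ : ℂ) * Complex.I ≠ 0 := mul_ne_zero (by exact_mod_cast abs_pos.mp hθ0) Complex.I_ne_zero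
  simp_rw [e1]
  rw [integral_exp_mul_complex hθc, norm_mul, norm_div, norm_mul, Complex.norm_I, mul_one, Complex.norm_real, Complex.norm_real,
    Real.norm_of_nonneg (by positivity), Real.norm_eq_abs]
  have h2 : ‖Complex.exp ((θ : ℂ) * Complex.I * (T:ℂ)) - Complex.exp ((θ : ℂ) * Complex.I * ((0:ℝ):ℂ))‖ ≤ 2 := by
    refine (norm_sub_le _ _).trans ?_
    have e2 : ∀ t : ℝ, ‖Complex.exp ((θ : ℂ) * Complex.I * (t:ℂ))‖ = 1 := by
      intro t
      have : (θ : ℂ) * Complex.I * (t:ℂ) = ((θ * t : ℝ) : ℂ) * Complex.I := by push_cast; ring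
      rw [this, Complex.norm_exp_ofReal_mul_I]
    rw [e2, e2]
    norm_num
  have h3 : 1 / |θ| ≤ Real.exp l := by
    rw [div_le_iff₀ hθ0]
    have : Real.exp l * Real.exp (-l) = 1 := by rw [← Real.exp_add]; simp
    nlinarith [Real.exp_pos l]
  calc 1 / T * (_ / |θ|) ≤ 1 / T * (2 / |θ|) := by gcongr
    _ = 2 * (1 / |θ|) / T := by ring
    _ ≤ 2 * Real.exp l / T := by gcongr

/-- the mean value theorem -/
theorem MV {l : ℝ} {Q Q' : (ℕ → ℝ) → ℂ} (h : Sp l Q) (h' : Sp l Q') {T : ℝ} (hT : 0 < T) :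
    ‖((1 / T : ℝ) : ℂ) * (∫ t in (0:ℝ)..T, Q (fl t) * (starRingEnd ℂ) (Q' (fl t))) - ∫ ω, Q ω * (starRingEnd ℂ) (Q' ω) ∂tm‖ ≤
      2 * Real.exp (2 * l) / T * (√(mk 1 Q) * √(mk 1 Q')) := by
  classical
  obtain ⟨a, ha⟩ := h.nf
  obtain ⟨b, hb⟩ := h'.nf
  obtain ⟨s, hs⟩ : ∃ s : Finset ℕ, s = Finset.Icc 1 ⌊Real.exp l⌋₊ := ⟨_, rfl⟩
  rw [← hs] at ha hb
  have hmem : ∀ n ∈ s, n ≠ 0 ∧ Real.log n ≤ l := by
    intro n hn
    rw [hs, Finset.mem_Icc] at hn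
    refine ⟨by omega, ?_⟩
    have h0 : (0:ℝ) < n := by exact_mod_cast (by omega : 0 < n)
    rw [Real.log_le_iff_le_exp h0]
    exact (Nat.le_floor_iff (Real.exp_pos l).le).mp hn.2
  -- the torus side
  have hE : ∀ (c d : ℕ → ℂ), ∫ ω, (∑ n ∈ s, c n * ch n ω) * (starRingEnd ℂ) (∑ n ∈ s, d n * ch n ω) ∂tm = ∑ n ∈ s, c n * (starRingEnd ℂ) (d n) := by
    intro c d
    have e1 : ∀ ω, (∑ n ∈ s, c n * ch n ω) * (starRingEnd ℂ) (∑ n ∈ s, d n * ch n ω) =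
        ∑ m ∈ s, ∑ n ∈ s, (c m * (starRingEnd ℂ) (d n)) * (ch m ω * (starRingEnd ℂ) (ch n ω)) := by
      intro ω
      rw [map_sum, Finset.sum_mul_sum]
      refine Finset.sum_congr rfl fun m _ => Finset.sum_congr rfl fun n _ => ?_
      rw [map_mul]
      ring
    simp_rw [e1]
    rw [integral_finsetSum _ fun m _ => integrable_finsetSum _ fun n _ => ch_int _]
    refine Finset.sum_congr rfl fun m hm => ?_
    rw [integral_finsetSum _ fun n _ => ch_int _]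
    have e2 : ∀ n ∈ s, ∫ ω, (c m * (starRingEnd ℂ) (d n)) * (ch m ω * (starRingEnd ℂ) (ch n ω)) ∂tm = if m = n then c m * (starRingEnd ℂ) (d n) else 0 := by
      intro n hn
      rw [integral_const_mul, ch_orth (hmem m hm).1 (hmem n hn).1]
      split_ifs <;> simp
    rw [Finset.sum_congr rfl e2, Finset.sum_ite_eq, if_pos hm]
  have hmk : ∀ (c : ℕ → ℂ) (R : (ℕ → ℝ) → ℂ), (∀ ω, R ω = ∑ n ∈ s, c n * ch n ω) → mk 1 R = ∑ n ∈ s, ‖c n‖ ^ 2 := by
    intro c R hR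
    have h1 := hE c c
    have e3 : ∀ ω, (∑ n ∈ s, c n * ch n ω) * (starRingEnd ℂ) (∑ n ∈ s, c n * ch n ω) = ((‖R ω‖ ^ ((2:ℝ) * 1) : ℝ) : ℂ) := by
      intro ω
      rw [← hR, Complex.mul_conj, Complex.normSq_eq_norm_sq]
      congr 1
      rw [mul_one, ← Real.rpow_natCast]
      norm_num
    simp_rw [e3] at h1
    rw [integral_complex_ofReal] at h1
    have e4 : ∑ n ∈ s, c n * (starRingEnd ℂ) (c n) = ((∑ n ∈ s, ‖c n‖ ^ 2 : ℝ) : ℂ) := by
      push_cast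
      refine Finset.sum_congr rfl fun n _ => ?_
      rw [Complex.mul_conj, Complex.normSq_eq_norm_sq]
      push_cast
      rfl
    rw [e4] at h1
    unfold mk
    exact_mod_cast h1
  -- the time side
  have hT1 : ((1 / T : ℝ) : ℂ) * (∫ t in (0:ℝ)..T, Q (fl t) * (starRingEnd ℂ) (Q' (fl t))) =
      ∑ m ∈ s, ∑ n ∈ s, (a m * (starRingEnd ℂ) (b n)) * (((1 / T : ℝ) : ℂ) * ∫ t in (0:ℝ)..T, tn m t * (starRingEnd ℂ) (tn n t)) := by
    have hc : ∀ m ∈ s, ∀ n ∈ s, Continuous fun t : ℝ => (a m * (starRingEnd ℂ) (b n)) * (tn m t * (starRingEnd ℂ) (tn n t)) := fun m hm n hn =>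
      continuous_const.mul ((tn_ct (hmem m hm).1).mul (Complex.continuous_conj.comp (tn_ct (hmem n hn).1)))
    have e1 : ∀ t : ℝ, Q (fl t) * (starRingEnd ℂ) (Q' (fl t)) = ∑ m ∈ s, ∑ n ∈ s, (a m * (starRingEnd ℂ) (b n)) * (tn m t * (starRingEnd ℂ) (tn n t)) := by
      intro t
      rw [ha, hb, map_sum, Finset.sum_mul_sum]
      refine Finset.sum_congr rfl fun m hm => Finset.sum_congr rfl fun n hn => ?_
      rw [map_mul, ch_fl (hmem m hm).1, ch_fl (hmem n hn).1]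
      ring
    simp_rw [e1]
    rw [intervalIntegral.integral_finsetSum fun m hm => (continuous_finsetSum _ fun n hn => hc m hm n hn).intervalIntegrable _ _, Finset.mul_sum]
    refine Finset.sum_congr rfl fun m hm => ?_
    rw [intervalIntegral.integral_finsetSum fun n hn => (hc m hm n hn).intervalIntegrable _ _, Finset.mul_sum]
    refine Finset.sum_congr rfl fun n hn => ?_
    rw [intervalIntegral.integral_const_mul]
    ring
  have hE1 : ∫ ω, Q ω * (starRingEnd ℂ) (Q' ω) ∂tm = ∑ m ∈ s, ∑ n ∈ s, (a m * (starRingEnd ℂ) (b n)) * (if m = n then 1 else 0) := by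
    have := hE a b
    simp_rw [← ha, ← hb] at this
    rw [this]
    refine Finset.sum_congr rfl fun m hm => ?_
    simp only [mul_ite, mul_one, mul_zero]
    rw [Finset.sum_ite_eq, if_pos hm]
  have hdiag : ∀ n ∈ s, ((1 / T : ℝ) : ℂ) * ∫ t in (0:ℝ)..T, tn n t * (starRingEnd ℂ) (tn n t) = 1 := by
    intro n hn
    have e1 : ∀ t : ℝ, tn n t * (starRingEnd ℂ) (tn n t) = 1 := by
      intro t
      rw [Complex.mul_conj, Complex.normSq_eq_norm_sq, tn_nm (hmem n hn).1]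
      simp
    simp_rw [e1]
    rw [intervalIntegral.integral_const, sub_zero, Complex.real_smul, mul_one, ← Complex.ofReal_mul, one_div_mul_cancel hT.ne', Complex.ofReal_one]
  rw [hT1, hE1, ← Finset.sum_sub_distrib]
  have hterm : ∀ m ∈ s, ∀ n ∈ s, ‖(a m * (starRingEnd ℂ) (b n)) * (((1 / T : ℝ) : ℂ) * ∫ t in (0:ℝ)..T, tn m t * (starRingEnd ℂ) (tn n t)) -
      (a m * (starRingEnd ℂ) (b n)) * (if m = n then 1 else 0)‖ ≤ (‖a m‖ * ‖b n‖) * (2 * Real.exp l / T) := by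
    intro m hm n hn
    rw [← mul_sub, norm_mul, norm_mul, Complex.norm_conj]
    refine mul_le_mul_of_nonneg_left ?_ (by positivity)
    split_ifs with hmn
    · rw [← hmn, hdiag m hm, sub_self, norm_zero]
      positivity
    · rw [sub_zero]
      exact tn_off (hmem m hm).1 (hmem n hn).1 hmn (hmem m hm).2 (hmem n hn).2 hT
  have hsum : ‖∑ m ∈ s, ((∑ n ∈ s, (a m * (starRingEnd ℂ) (b n)) * (((1 / T : ℝ) : ℂ) * ∫ t in (0:ℝ)..T, tn m t * (starRingEnd ℂ) (tn n t))) -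
      ∑ n ∈ s, (a m * (starRingEnd ℂ) (b n)) * (if m = n then 1 else 0))‖ ≤ (∑ m ∈ s, ‖a m‖) * (∑ n ∈ s, ‖b n‖) * (2 * Real.exp l / T) := by
    rw [Finset.sum_mul_sum, Finset.sum_mul]
    refine (norm_sum_le _ _).trans (Finset.sum_le_sum fun m hm => ?_)
    rw [← Finset.sum_sub_distrib, Finset.sum_mul]
    exact (norm_sum_le _ _).trans (Finset.sum_le_sum fun n hn => hterm m hm n hn)
  refine hsum.trans ?_
  have hcard : (s.card : ℝ) ≤ Real.exp l := by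
    rw [hs, Nat.card_Icc]
    have := Nat.floor_le (Real.exp_pos l).le
    push_cast [Nat.add_sub_cancel]
    exact this
  have hcs : ∀ c : ℕ → ℂ, ∑ n ∈ s, ‖c n‖ ≤ √(Real.exp l) * √(∑ n ∈ s, ‖c n‖ ^ 2) := by
    intro c
    rw [← Real.sqrt_mul (Real.exp_pos l).le]
    refine Real.le_sqrt_of_sq_le ?_
    have h1 := sq_sum_le_card_mul_sum_sq (s := s) (f := fun n => ‖c n‖)
    have h2 : 0 ≤ ∑ n ∈ s, ‖c n‖ ^ 2 := Finset.sum_nonneg fun n _ => by positivity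
    exact h1.trans (mul_le_mul_of_nonneg_right hcard h2)
  rw [hmk a Q ha, hmk b Q' hb]
  have h1 := mul_le_mul (hcs a) (hcs b) (Finset.sum_nonneg fun n _ => norm_nonneg _) (by positivity)
  have h2 : √(Real.exp l) * √(∑ n ∈ s, ‖a n‖ ^ 2) * (√(Real.exp l) * √(∑ n ∈ s, ‖b n‖ ^ 2)) = Real.exp l * (√(∑ n ∈ s, ‖a n‖ ^ 2) * √(∑ n ∈ s, ‖b n‖ ^ 2)) := by
    calc _ = (√(Real.exp l) * √(Real.exp l)) * (√(∑ n ∈ s, ‖a n‖ ^ 2) * √(∑ n ∈ s, ‖b n‖ ^ 2)) := by ring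
      _ = _ := by rw [Real.mul_self_sqrt (Real.exp_pos l).le]
  rw [h2] at h1
  have h3 := mul_le_mul_of_nonneg_right h1 (show 0 ≤ 2 * Real.exp l / T by positivity)
  refine h3.trans (le_of_eq ?_)
  have : Real.exp (2 * l) = Real.exp l * Real.exp l := by rw [← Real.exp_add]; ring_nf
  rw [this]
  ring

end Pool.Agent.H470
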