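import Pool.Agent.H470.Wa9

set_option autoImplicit false

/-! The large primes. -/

namespace Pool.Agent.H470

open MeasureTheory Filter Topology ProbabilityTheory Set
open scoped ENNReal
open Pool.Agent.TH806 (ec ec_norm ec_cont uu integrable_uu)

lemma ch_l2 {s : Finset ℕ} (hs : ∀ n ∈ s, n ≠ 0) (c : ℕ → ℂ) : ∫ ω, ‖∑ n ∈ s, c n * ch n ω‖ ^ 2 ∂tm = ∑ n ∈ s, ‖c n‖ ^ 2 := by
  have h1 : ∫ ω, (∑ n ∈ s, c n * ch n ω) * (starRingEnd ℂ) (∑ n ∈ s, c n * ch n ω) ∂tm = ∑ n ∈ s, c n * (starRingEnd ℂ) (c n) := by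
    have e1 : ∀ ω, (∑ n ∈ s, c n * ch n ω) * (starRingEnd ℂ) (∑ n ∈ s, c n * ch n ω) =
        ∑ m ∈ s, ∑ n ∈ s, (c m * (starRingEnd ℂ) (c n)) * (ch m ω * (starRingEnd ℂ) (ch n ω)) := by
      intro ω
      rw [map_sum, Finset.sum_mul_sum]
      refine Finset.sum_congr rfl fun m _ => Finset.sum_congr rfl fun n _ => ?_
      rw [map_mul]
      ring
    simp_rw [e1]
    rw [integral_finsetSum _ fun m _ => integrable_finsetSum _ fun n _ => ch_int _]
    refine Finset.sum_congr rfl fun m hm => ?_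
    rw [integral_finsetSum _ fun n _ => ch_int _]
    have e2 : ∀ n ∈ s, ∫ ω, (c m * (starRingEnd ℂ) (c n)) * (ch m ω * (starRingEnd ℂ) (ch n ω)) ∂tm = if m = n then c m * (starRingEnd ℂ) (c n) else 0 := by
      intro n hn
      rw [integral_const_mul, ch_orth (hs m hm) (hs n hn)]
      split_ifs <;> simp
    rw [Finset.sum_congr rfl e2, Finset.sum_ite_eq, if_pos hm]
  have e3 : ∀ ω, (∑ n ∈ s, c n * ch n ω) * (starRingEnd ℂ) (∑ n ∈ s, c n * ch n ω) = ((‖∑ n ∈ s, c n * ch n ω‖ ^ 2 : ℝ) : ℂ) := by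
    intro ω
    rw [Complex.mul_conj, Complex.normSq_eq_norm_sq]
  simp_rw [e3] at h1
  rw [integral_complex_ofReal] at h1
  have e4 : ∑ n ∈ s, c n * (starRingEnd ℂ) (c n) = ((∑ n ∈ s, ‖c n‖ ^ 2 : ℝ) : ℂ) := by
    push_cast
    refine Finset.sum_congr rfl fun n _ => ?_
    rw [Complex.mul_conj, Complex.normSq_eq_norm_sq]
    push_cast
    rfl
  rw [e4] at h1
  exact_mod_cast h1

/-- the large primes -/
noncomputable def JJ' (x L : ℝ) : Finset ℕ := pr (PX x) \ pr (PL L)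

lemma JJ'_two {x L : ℝ} : ∀ p ∈ JJ' x L, 2 ≤ p := fun _ hp => pr_two (Finset.sdiff_subset hp)

lemma JJ'_prime {x L : ℝ} : ∀ p ∈ JJ' x L, p.Prime := fun _ hp => pr_prime (Finset.sdiff_subset hp)

lemma exp_two_gt : (7:ℝ) < Real.exp 2 := by
  have h1 : Real.exp 2 = Real.exp 1 ^ 2 := by rw [← Real.exp_nat_mul]; norm_num
  have h2 : 2.7182818283 < Real.exp 1 := Real.exp_one_gt_d9
  rw [h1]
  nlinarith

theorem sig_J : ∃ C : ℝ, 0 < C ∧ ∀ x : ℝ, 0 < x → x ≤ 1 / 2 → ∀ L : ℝ, 1 / x ≤ L → PL L ≤ PX x →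
    ∑ p ∈ JJ' x L, (p:ℝ) ^ (-(1 + 2 * x)) ≤ C * Real.exp (-(x * L)) := by
  obtain ⟨C1, hC1, h1⟩ := S_loc
  obtain ⟨C2, hC2, h2⟩ := S_real
  refine ⟨C1 + C2 + 1, by positivity, fun x hx hx2 L hL hP => ?_⟩
  have hsub : pr (PL L) ⊆ pr (PX x) := pr_mono hP
  -- pointwise
  have h3 : ∀ p ∈ JJ' x L, (p:ℝ) ^ (-(1 + 2 * x)) ≤ (p:ℝ) ^ (-(1 + x)) * Real.exp (-(x * L)) := by
    intro p hp
    have hpp := JJ'_prime p hp
    have hp0 : (0:ℝ) < p := by exact_mod_cast hpp.pos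
    have h4 : PL L < p := by
      by_contra hcon
      rw [not_lt] at hcon
      refine (Finset.mem_sdiff.mp hp).2 ?_
      unfold pr
      rw [Finset.mem_filter, Finset.mem_Icc]
      exact ⟨⟨hpp.one_le, hcon⟩, hpp⟩
    have h5 : L ≤ Real.log p := by
      rw [Real.le_log_iff_exp_le hp0]
      have h6 := Nat.lt_floor_add_one (Real.exp L)
      have h7 : ((PL L : ℕ) : ℝ) + 1 ≤ p := by exact_mod_cast h4
      unfold PL at h7
      linarith
    have e1 : (p:ℝ) ^ (-(1 + 2 * x)) = (p:ℝ) ^ (-(1 + x)) * (p:ℝ) ^ (-x) := by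
      rw [← Real.rpow_add hp0]
      congr 1
      ring
    rw [e1]
    refine mul_le_mul_of_nonneg_left ?_ (by positivity)
    rw [Real.rpow_def_of_pos hp0, Real.exp_le_exp]
    nlinarith
  refine (Finset.sum_le_sum h3).trans ?_
  rw [← Finset.sum_mul]
  refine mul_le_mul_of_nonneg_right ?_ (Real.exp_pos _).le
  have h4 : ∑ p ∈ JJ' x L, (p:ℝ) ^ (-(1 + x)) + ∑ p ∈ pr (PL L), (p:ℝ) ^ (-(1 + x)) = ∑ p ∈ pr (PX x), (p:ℝ) ^ (-(1 + x)) := Finset.sum_sdiff hsub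
  have h5 := h2 (x / 2) (by positivity) (by linarith) (pr (PX x)) fun p hp => pr_prime hp
  have e2 : 2 * (x / 2) = x := by ring
  rw [e2] at h5
  obtain ⟨N, hN⟩ : ∃ N : ℕ, N = ⌊Real.exp (1 / x)⌋₊ := ⟨_, rfl⟩
  have hx2' : 2 ≤ 1 / x := by rw [le_div_iff₀ hx]; linarith
  have hexp : (7:ℝ) < Real.exp (1 / x) := exp_two_gt.trans_le (Real.exp_le_exp.mpr hx2')
  have hN3 : 3 ≤ N := by
    rw [hN]
    exact Nat.le_floor (by push_cast; linarith)
  have hNu : (N:ℝ) ≤ Real.exp (1 / x) := by rw [hN]; exact Nat.floor_le (Real.exp_pos _).le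
  have hN0 : (0:ℝ) < N := by exact_mod_cast (by omega : 0 < N)
  have hlu : Real.log N ≤ 1 / x := by
    rw [Real.log_le_iff_le_exp hN0]
    exact hNu
  have hll : (1 / x) / 2 ≤ Real.log N := by
    have h6 : Real.exp (1 / x) / 2 ≤ N := by
      have := Nat.lt_floor_add_one (Real.exp (1 / x))
      rw [← hN] at this
      linarith
    have h7 := Real.log_le_log (by positivity) h6
    rw [Real.log_div (Real.exp_pos _).ne' (by norm_num), Real.log_exp] at h7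
    have := Real.log_two_lt_d9
    linarith
  have h6 := h1 N hN3 (x / 2) (by positivity) 0 (by
    have e0 : ‖2 + ((0:ℝ):ℂ) * Complex.I‖ = 2 := by simp
    rw [e0]
    have : x * Real.log N ≤ 1 := by
      rw [le_div_iff₀ hx] at hlu
      linarith
    linarith)
  have e3 : ∑ p ∈ pr N, wv (x / 2) 0 p = ((∑ p ∈ pr N, (p:ℝ) ^ (-(1 + x)) : ℝ) : ℂ) := by
    push_cast
    refine Finset.sum_congr rfl fun p hp => ?_
    unfold wv
    have hp0 : (0:ℝ) ≤ p := by positivity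
    rw [Complex.ofReal_cpow hp0]
    push_cast
    congr 1
    ring
  rw [e3, ← Complex.ofReal_sub, Complex.norm_real, Real.norm_eq_abs] at h6
  have h7 := (abs_le.mp h6).1
  have h8 : ∑ p ∈ pr N, (p:ℝ) ^ (-(1 + x)) ≤ ∑ p ∈ pr (PL L), (p:ℝ) ^ (-(1 + x)) := by
    refine Finset.sum_le_sum_of_subset_of_nonneg (pr_mono ?_) fun p _ _ => by positivity
    rw [hN]
    exact Nat.floor_le_floor (Real.exp_le_exp.mpr hL)
  have h9 : Real.log (1 / x) - 1 ≤ Real.log (Real.log N) := by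
    have h10 := Real.log_le_log (by positivity) hll
    rw [Real.log_div (by positivity) (by norm_num)] at h10
    have := Real.log_two_lt_d9
    linarith
  have h10 : Real.log (1 / x) = -Real.log x := by rw [one_div, Real.log_inv]
  linarith

lemma XJ_l2 : ∃ C : ℝ, 0 < C ∧ ∀ x : ℝ, 0 < x → x ≤ 1 / 2 → ∀ L : ℝ, 1 / x ≤ L → PL L ≤ PX x → ∀ y : ℝ,
    ∫ ω, ‖Xs (JJ' x L) (sp x y) ω‖ ^ 2 ∂tm ≤ C * Real.exp (-(x * L)) := by
  obtain ⟨C, hC, h⟩ := sig_J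
  refine ⟨2 * C + 32 * C ^ 2, by positivity, fun x hx hx2 L hL hP y => ?_⟩
  have hs := h x hx hx2 L hL hP
  obtain ⟨s, hsd⟩ : ∃ s : ℝ, s = ∑ p ∈ JJ' x L, (p:ℝ) ^ (-(1 + 2 * x)) := ⟨_, rfl⟩
  have hs0 : 0 ≤ s := by rw [hsd]; positivity
  rw [← hsd] at hs
  have hsq : ∀ p ∈ JJ' x L, ‖(p:ℂ) ^ (-sp x y)‖ ^ 2 = (p:ℝ) ^ (-(1 + 2 * x)) := by
    intro p hp
    have hp0 : (0:ℝ) < p := by exact_mod_cast (JJ'_prime p hp).pos
    rw [pw_norm (JJ'_two p hp), sp_re, ← Real.rpow_natCast, ← Real.rpow_mul hp0.le]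
    congr 1
    push_cast
    ring
  have h1 : ∀ ω, ‖Xs (JJ' x L) (sp x y) ω‖ ^ 2 ≤ 2 * ‖∑ p ∈ JJ' x L, (p:ℂ) ^ (-sp x y) * ch p ω‖ ^ 2 + 2 * (4 * s) ^ 2 := by
    intro ω
    have h2 : ‖Xs (JJ' x L) (sp x y) ω - ∑ p ∈ JJ' x L, (p:ℂ) ^ (-sp x y) * ch p ω‖ ≤ 4 * s := by
      unfold Xs
      rw [← Finset.sum_sub_distrib, hsd, Finset.mul_sum]
      refine (norm_sum_le _ _).trans (Finset.sum_le_sum fun p hp => ?_)
      have h3 : ‖(p:ℂ) ^ (-sp x y) * ec (ω p)‖ ≤ 3 / 4 := by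
        rw [norm_mul, ec_norm, mul_one]
        refine le_trans ?_ (half_le (JJ'_two p hp))
        rw [pw_norm (JJ'_two p hp), sp_re]
        exact Real.rpow_le_rpow_of_exponent_le (by exact_mod_cast (by have := JJ'_two p hp; omega : 1 ≤ p)) (by linarith)
      have h4 := el_tr h3 1
      simp only [Finset.Icc_self, Finset.sum_singleton, pow_one, Nat.cast_one, div_one] at h4
      rw [ch_prime (JJ'_prime p hp)]
      refine h4.trans (le_of_eq ?_)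
      rw [norm_mul, ec_norm, mul_one, hsq p hp]
    obtain ⟨a, ha⟩ : ∃ a, a = ‖∑ p ∈ JJ' x L, (p:ℂ) ^ (-sp x y) * ch p ω‖ := ⟨_, rfl⟩
    have h3 : ‖Xs (JJ' x L) (sp x y) ω‖ ≤ a + 4 * s := by
      have := norm_sub_norm_le (Xs (JJ' x L) (sp x y) ω) (∑ p ∈ JJ' x L, (p:ℂ) ^ (-sp x y) * ch p ω)
      rw [ha]
      linarith
    rw [← ha]
    have h4 := pow_le_pow_left₀ (norm_nonneg _) h3 2
    nlinarith [sq_nonneg (a - 4 * s)]
  have hcc : CC fun ω => ∑ p ∈ JJ' x L, (p:ℂ) ^ (-sp x y) * ch p ω :=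
    CC.sum _ fun p _ => (CC.const _).mul ⟨ch_cont p, 1, fun ω => (ch_norm p ω).le⟩
  refine (integral_mono ((Xs_cc JJ'_two hx.le y).norm.pow 2).int (((RB.const 2).mul (hcc.norm.pow 2)).add (RB.const _)).int h1).trans ?_
  rw [integral_add ((RB.const 2).mul (hcc.norm.pow 2)).int (RB.const _).int, integral_const_mul,
    ch_l2 (fun n hn => by have := JJ'_two n hn; omega), Finset.sum_congr rfl hsq, ← hsd, integral_const]
  simp only [probReal_univ, one_smul]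
  have hexp : Real.exp (-(x * L)) ≤ 1 := by
    rw [← Real.exp_zero, Real.exp_le_exp]
    have : 0 < L := lt_of_lt_of_le (by positivity) hL
    simp only [Left.neg_nonpos_iff]
    positivity
  have he0 := Real.exp_pos (-(x * L))
  have h5 : s ^ 2 ≤ C ^ 2 * Real.exp (-(x * L)) := by
    have h6 := pow_le_pow_left₀ hs0 hs 2
    rw [mul_pow] at h6
    refine h6.trans (mul_le_mul_of_nonneg_left ?_ (by positivity))
    nlinarith
  nlinarith

lemma blk_e2 (C0 : ℝ) {lam : ℝ} (hl : 0 ≤ lam) : ∃ C : ℝ, 0 < C ∧ ∀ I : Finset ℕ, (∀ p ∈ I, 2 ≤ p) → ∀ x : ℝ, 0 ≤ x → ∑ p ∈ I, (p:ℝ) ^ (-(1 + 2 * x)) ≤ C0 → ∀ y : ℝ,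
    ∫ ω, Real.exp (lam * ‖Xs I (sp x y) ω‖) ∂tm ≤ C := by
  refine ⟨2 * Real.exp ((2 * lam) ^ 2 / 4 * C0 + CN (2 * lam / 2) * KS), by positivity, fun I hI x hx hC y => ?_⟩
  have hX := Xs_cc hI hx y
  have key : ∀ u : ℂ, ‖u‖ ≤ 2 * lam → ∫ ω, Real.exp (u * Xs I (sp x y) ω).re ∂tm ≤ Real.exp ((2 * lam) ^ 2 / 4 * C0 + CN (2 * lam / 2) * KS) := by
    intro u hu
    have h1 := exI_le hI hx (n := 1) (fun _ => u) (fun _ => y) (A := 2 * lam) (by simpa using hu)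
    unfold exI at h1
    simp only [Fin.sum_univ_one] at h1
    refine h1.trans (Real.exp_le_exp.mpr ?_)
    have h2 : ∑ p ∈ I, ‖u * zv x (fun _ : Fin 1 => y) p 0‖ ^ 2 ≤ (2 * lam) ^ 2 * C0 := by
      refine le_trans ?_ (mul_le_mul_of_nonneg_left hC (by positivity))
      rw [Finset.mul_sum]
      refine Finset.sum_le_sum fun p hp => ?_
      rw [norm_mul, mul_pow]
      have hp0 : (0:ℝ) < p := by exact_mod_cast (by have := hI p hp; omega : 0 < p)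
      have e1 : ‖zv x (fun _ : Fin 1 => y) p 0‖ ^ 2 = (p:ℝ) ^ (-(1 + 2 * x)) := by
        unfold zv
        rw [pw_norm (hI p hp), sp_re, ← Real.rpow_natCast, ← Real.rpow_mul hp0.le]
        congr 1
        push_cast
        ring
      rw [e1]
      exact mul_le_mul_of_nonneg_right (pow_le_pow_left₀ (norm_nonneg _) hu 2) (by positivity)
    linarith
  have hint : ∀ u : ℂ, Integrable (fun ω => Real.exp (u * Xs I (sp x y) ω).re) tm := fun u =>
    ((((CC.const u).mul hX).re).comp Real.continuous_exp).int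
  have hnl : ‖((2 * lam : ℝ) : ℂ)‖ ≤ 2 * lam := by rw [Complex.norm_real, Real.norm_of_nonneg (by positivity)]
  have k1 := key ((2 * lam : ℝ) : ℂ) hnl
  have k2 := key (-((2 * lam : ℝ) : ℂ)) (by rw [norm_neg]; exact hnl)
  have k3 := key (-((2 * lam : ℝ) : ℂ) * Complex.I) (by rw [norm_mul, Complex.norm_I, mul_one, norm_neg]; exact hnl)
  have k4 := key (((2 * lam : ℝ) : ℂ) * Complex.I) (by rw [norm_mul, Complex.norm_I, mul_one]; exact hnl)
  have h3 : ∀ ω, Real.exp (lam * ‖Xs I (sp x y) ω‖) ≤ (Real.exp (((2 * lam : ℝ) : ℂ) * Xs I (sp x y) ω).re + Real.exp (-((2 * lam : ℝ) : ℂ) * Xs I (sp x y) ω).re +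
      Real.exp (-((2 * lam : ℝ) : ℂ) * Complex.I * Xs I (sp x y) ω).re + Real.exp (((2 * lam : ℝ) : ℂ) * Complex.I * Xs I (sp x y) ω).re) / 2 := by
    intro ω
    refine (exp_abs4 hl _).trans (le_of_eq ?_)
    have a1 : ∀ (t : ℝ) (w : ℂ), ((t:ℂ) * w).re = t * w.re := fun t w => by simp
    have a2 : (((2 * lam : ℝ) : ℂ) * Xs I (sp x y) ω).re = 2 * lam * (Xs I (sp x y) ω).re := a1 _ _
    have a3 : (-((2 * lam : ℝ) : ℂ) * Xs I (sp x y) ω).re = -(2 * lam) * (Xs I (sp x y) ω).re := by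
      rw [← Complex.ofReal_neg]
      exact a1 _ _
    have a4 : (-((2 * lam : ℝ) : ℂ) * Complex.I * Xs I (sp x y) ω).re = 2 * lam * (Xs I (sp x y) ω).im := by
      rw [← Complex.ofReal_neg, mul_assoc, a1]
      simp
    have a5 : (((2 * lam : ℝ) : ℂ) * Complex.I * Xs I (sp x y) ω).re = -(2 * lam) * (Xs I (sp x y) ω).im := by
      rw [mul_assoc, a1]
      simp
    rw [a2, a3, a4, a5]
  have h4 := integral_mono ((hX.norm.comp (g := fun t => Real.exp (lam * t)) (by fun_prop)).int) (((((hint _).add (hint _)).add (hint _)).add (hint _)).div_const 2) h3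
  refine h4.trans ?_
  rw [integral_div]
  have e5 := integral_add (((hint ((2 * lam : ℝ) : ℂ)).add (hint (-((2 * lam : ℝ) : ℂ)))).add (hint (-((2 * lam : ℝ) : ℂ) * Complex.I))) (hint (((2 * lam : ℝ) : ℂ) * Complex.I))
  have e6 := integral_add ((hint ((2 * lam : ℝ) : ℂ)).add (hint (-((2 * lam : ℝ) : ℂ)))) (hint (-((2 * lam : ℝ) : ℂ) * Complex.I))
  have e7 := integral_add (hint ((2 * lam : ℝ) : ℂ)) (hint (-((2 * lam : ℝ) : ℂ)))
  simp only [Pi.add_apply] at e5 e6 e7 ⊢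
  rw [e5, e6, e7]
  linarith

/-- the large primes contribute little -/
theorem rest_e {c : ℝ} (hc : 0 ≤ c) : ∃ C : ℝ, 0 < C ∧ ∀ x : ℝ, 0 < x → x ≤ 1 / 2 → ∀ L : ℝ, 1 / x ≤ L → PL L ≤ PX x → ∀ y y' : ℝ,
    (∫ ω, ‖Xs (JJ' x L) (sp x y) ω‖ * Real.exp (c * ‖Xs (JJ' x L) (sp x y) ω‖ + c * ‖Xs (JJ' x L) (sp x y') ω‖) ∂tm ≤ C * Real.exp (-(x * L / 2))) ∧
    ∫ ω, Real.exp (c * ‖Xs (JJ' x L) (sp x y) ω‖) ∂tm ≤ C := by
  obtain ⟨C1, hC1, h1⟩ := XJ_l2
  obtain ⟨C2, hC2, h2⟩ := sig_J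
  obtain ⟨C3, hC3, h3⟩ := blk_e2 C2 (lam := 4 * c) (by positivity)
  obtain ⟨C4, hC4, h4⟩ := blk_e2 C2 hc
  refine ⟨C1 + C3 + C4, by positivity, fun x hx hx2 L hL hP y y' => ?_⟩
  have hL0 : 0 < L := lt_of_lt_of_le (by positivity) hL
  have hs : ∑ p ∈ JJ' x L, (p:ℝ) ^ (-(1 + 2 * x)) ≤ C2 := by
    refine (h2 x hx hx2 L hL hP).trans ?_
    have : Real.exp (-(x * L)) ≤ 1 := by
      rw [← Real.exp_zero, Real.exp_le_exp]
      simp only [Left.neg_nonpos_iff]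
      positivity
    nlinarith
  constructor
  · obtain ⟨t, ht⟩ : ∃ t : ℝ, t = Real.exp (x * L / 2) := ⟨_, rfl⟩
    have ht0 : 0 < t := by rw [ht]; exact Real.exp_pos _
    have hX := (Xs_cc (JJ'_two (x := x) (L := L)) hx.le y).norm
    have hX' := (Xs_cc (JJ'_two (x := x) (L := L)) hx.le y').norm
    have hE : ∀ (y : ℝ) (c : ℝ), RB fun ω => Real.exp (c * ‖Xs (JJ' x L) (sp x y) ω‖) := fun y c =>
      ((Xs_cc (JJ'_two (x := x) (L := L)) hx.le y).norm).comp (g := fun t => Real.exp (c * t)) (by fun_prop)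
    have h5 : ∀ ω, ‖Xs (JJ' x L) (sp x y) ω‖ * Real.exp (c * ‖Xs (JJ' x L) (sp x y) ω‖ + c * ‖Xs (JJ' x L) (sp x y') ω‖) ≤
        t * ‖Xs (JJ' x L) (sp x y) ω‖ ^ 2 + t⁻¹ * ((Real.exp (4 * c * ‖Xs (JJ' x L) (sp x y) ω‖) + Real.exp (4 * c * ‖Xs (JJ' x L) (sp x y') ω‖)) / 2) := by
      intro ω
      obtain ⟨u, hu⟩ : ∃ u, u = ‖Xs (JJ' x L) (sp x y) ω‖ := ⟨_, rfl⟩
      obtain ⟨v, hv⟩ : ∃ v, v = ‖Xs (JJ' x L) (sp x y') ω‖ := ⟨_, rfl⟩
      rw [← hu, ← hv]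
      obtain ⟨g, hg⟩ : ∃ g, g = Real.exp (c * u + c * v) := ⟨_, rfl⟩
      have h6 : g ^ 2 ≤ (Real.exp (4 * c * u) + Real.exp (4 * c * v)) / 2 := by
        have e1 : g ^ 2 = Real.exp (2 * c * u) * Real.exp (2 * c * v) := by
          rw [hg, ← Real.exp_nat_mul, ← Real.exp_add]
          congr 1
          push_cast
          ring
        have e2 : Real.exp (4 * c * u) = Real.exp (2 * c * u) ^ 2 := by
          rw [← Real.exp_nat_mul]
          congr 1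
          push_cast
          ring
        have e3 : Real.exp (4 * c * v) = Real.exp (2 * c * v) ^ 2 := by
          rw [← Real.exp_nat_mul]
          congr 1
          push_cast
          ring
        rw [e1, e2, e3]
        nlinarith [sq_nonneg (Real.exp (2 * c * u) - Real.exp (2 * c * v))]
      rw [← hg]
      have h7 : u * g ≤ t * u ^ 2 + t⁻¹ * g ^ 2 := by
        have h8 : 0 ≤ t * (u - t⁻¹ * g) ^ 2 := by positivity
        have h9 : t * (u - t⁻¹ * g) ^ 2 = t * u ^ 2 - 2 * (u * g) + t⁻¹ * g ^ 2 := by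
          field_simp
          ring
        have h10 : 0 ≤ t * u ^ 2 + t⁻¹ * g ^ 2 := by positivity
        linarith
      refine h7.trans (add_le_add_right (mul_le_mul_of_nonneg_left h6 (by positivity)) _)
    have hrb : RB fun ω => ‖Xs (JJ' x L) (sp x y) ω‖ * Real.exp (c * ‖Xs (JJ' x L) (sp x y) ω‖ + c * ‖Xs (JJ' x L) (sp x y') ω‖) := by
      simp only [Real.exp_add]
      exact hX.mul ((hE y c).mul (hE y' c))
    have hrb2 : RB fun ω => (Real.exp (4 * c * ‖Xs (JJ' x L) (sp x y) ω‖) + Real.exp (4 * c * ‖Xs (JJ' x L) (sp x y') ω‖)) / 2 := by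
      simp only [div_eq_mul_inv]
      exact ((hE y (4 * c)).add (hE y' (4 * c))).mul (RB.const _)
    refine (integral_mono hrb.int (((RB.const t).mul (hX.pow 2)).add ((RB.const t⁻¹).mul hrb2)).int h5).trans ?_
    rw [integral_add ((RB.const t).mul (hX.pow 2)).int ((RB.const t⁻¹).mul hrb2).int, integral_const_mul, integral_const_mul, integral_div,
      integral_add (hE y (4 * c)).int (hE y' (4 * c)).int]
    have h6 := h1 x hx hx2 L hL hP y
    have h7 := h3 (JJ' x L) JJ'_two x hx.le hs y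
    have h8 := h3 (JJ' x L) JJ'_two x hx.le hs y'
    have e4 : t * (C1 * Real.exp (-(x * L))) = C1 * Real.exp (-(x * L / 2)) := by
      have : Real.exp (x * L / 2) * Real.exp (-(x * L)) = Real.exp (-(x * L / 2)) := by
        rw [← Real.exp_add]
        congr 1
        ring
      rw [ht]
      linear_combination C1 * this
    have e5 : t⁻¹ = Real.exp (-(x * L / 2)) := by rw [ht, ← Real.exp_neg]
    have h9 := mul_le_mul_of_nonneg_left h6 ht0.le
    rw [e4] at h9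
    have h10 : t⁻¹ * (((∫ ω, Real.exp (4 * c * ‖Xs (JJ' x L) (sp x y) ω‖) ∂tm) + ∫ ω, Real.exp (4 * c * ‖Xs (JJ' x L) (sp x y') ω‖) ∂tm) / 2) ≤ t⁻¹ * C3 :=
      mul_le_mul_of_nonneg_left (by linarith) (by positivity)
    rw [e5] at h10 ⊢
    have h11 : 0 < Real.exp (-(x * L / 2)) := Real.exp_pos _
    nlinarith
  · have := h4 (JJ' x L) JJ'_two x hx.le hs y
    linarith

end Pool.Agent.H470
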