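import Pool.Agent.H470.Wa10

set_option autoImplicit false

/-! Ratios of mollifiers and Euler products; weights with the global exponents. -/

namespace Pool.Agent.H470

open MeasureTheory Filter Topology ProbabilityTheory Set
open scoped ENNReal
open Pool.Agent.TH806 (ec ec_norm ec_cont uu integrable_uu)

lemma norm_prod_sub {n : ℕ} {w : ℕ → ℂ} {e : ℕ → ℝ} (h : ∀ b, ‖w b - 1‖ ≤ e b) :
    ‖∏ b ∈ Finset.range n, w b - 1‖ ≤ ∏ b ∈ Finset.range n, (1 + e b) - 1 := by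
  induction n with
  | zero => simp
  | succ n ih =>
    rw [Finset.prod_range_succ, Finset.prod_range_succ]
    have e1 : (∏ b ∈ Finset.range n, w b) * w n - 1 = (∏ b ∈ Finset.range n, w b - 1) * w n + (w n - 1) := by ring
    have h1 : ‖w n‖ ≤ 1 + e n := by
      have := norm_sub_norm_le (w n) 1
      rw [norm_one] at this
      linarith [h n]
    rw [e1]
    refine (norm_add_le _ _).trans ?_
    rw [norm_mul]
    have h2 := mul_le_mul ih h1 (norm_nonneg _) ((norm_nonneg _).trans ih)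
    have h3 := h n
    nlinarith

/-- the product of the errors -/
noncomputable def Vb (C : ℝ) (Z q : ℕ) (x L y : ℝ) (ω : ℕ → ℝ) : ℝ := ∏ b ∈ Finset.range (NB L), (1 + sb C Z q x L y b ω)

lemma Vb_one {C : ℝ} (hC : 0 ≤ C) (Z q : ℕ) (x L y : ℝ) (ω : ℕ → ℝ) : 1 ≤ Vb C Z q x L y ω :=
  Finset.prod_induction _ (fun v : ℝ => 1 ≤ v) (fun a b ha hb => by nlinarith) le_rfl fun b _ => by
    have := sb_nonneg hC Z q x L y b ω
    linarith

lemma Vb_rb {C : ℝ} {Z q : ℕ} {x : ℝ} (hx : 0 ≤ x) (L y : ℝ) : RB (Vb C Z q x L y) := RB.prod _ fun b _ => (RB.const 1).add (sb_rb hx L y b)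

lemma Ey_near {C : ℝ} {Z q : ℕ} {x : ℝ} {L y z : ℝ} (ω : ℕ → ℝ)
    (h : ∀ b, ‖ta Z q x L z y b ω * Complex.exp (-((z:ℂ) * Xs (bk L b) (sp x y) ω)) - 1‖ ≤ sb C Z q x L y b ω) :
    ‖Ey Z q x L z y ω * Complex.exp (-((z:ℂ) * Xs (pr (PL L)) (sp x y) ω)) - 1‖ ≤ Vb C Z q x L y ω - 1 := by
  have h1 := norm_prod_sub (n := NB L) h
  unfold Vb
  refine le_trans (le_of_eq ?_) h1
  congr 2
  rw [Finset.prod_mul_distrib, ← Complex.exp_sum]
  unfold Ey
  rw [Xs_bk, Finset.mul_sum, Finset.sum_neg_distrib]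

theorem Tb_V (A : ℝ) {C : ℝ} (hC : 0 ≤ C) (Z r : ℕ) : ∃ C' : ℝ, 0 ≤ C' ∧ ∀ q : ℕ, 3 ≤ q → ∀ x : ℝ, 0 ≤ x → ∀ L y : ℝ,
    Tb A x L (fun ω => Vb C Z q x L y ω ^ r) (Real.exp (C' * uq q)) ∧ Tb A x L (fun ω => Vb C Z q x L y ω ^ r - 1) (Real.exp (C' * uq q) - 1) := by
  obtain ⟨C', hC', h⟩ := Tb_s A hC Z r
  refine ⟨C', hC', fun q hq x hx L y => ?_⟩
  have h1 : Tb A x L (fun ω => Vb C Z q x L y ω ^ r) (Real.exp (C' * uq q)) := by
    have h2 := h q hq x hx L y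
    have e1 : (fun ω => ∏ b ∈ Finset.range (NB L), (1 + sb C Z q x L y b ω) ^ r) = fun ω => Vb C Z q x L y ω ^ r := by
      funext ω
      unfold Vb
      rw [Finset.prod_pow]
    rw [e1] at h2
    exact h2
  refine ⟨h1, fun n α y' hα => ?_⟩
  have h2 := h1 n α y' hα
  have e2 : ∀ ω, exI (pr (PL L)) x α y' ω * (Vb C Z q x L y ω ^ r - 1) = exI (pr (PL L)) x α y' ω * Vb C Z q x L y ω ^ r - exI (pr (PL L)) x α y' ω := fun ω => by ring
  simp_rw [e2]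
  rw [integral_sub ((exI_cb PL_two hx α y').mul ((Vb_rb hx L y).pow r)).int (exI_cb PL_two hx α y').int]
  linarith

lemma exI_append (I : Finset ℕ) (x : ℝ) {n m : ℕ} (α : Fin n → ℂ) (y : Fin n → ℝ) (α' : Fin m → ℂ) (y' : Fin m → ℝ) (ω : ℕ → ℝ) :
    exI I x α y ω * exI I x α' y' ω = exI I x (Fin.append α α') (Fin.append y y') ω := by
  unfold exI
  rw [← Real.exp_add, ← Complex.add_re, Fin.sum_univ_add]
  simp only [Fin.append_left, Fin.append_right]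

/-- bounds with the right power of the distance to the line -/
def Xb (k A Y x L : ℝ) (f : (ℕ → ℝ) → ℝ) (K : ℝ) : Prop :=
  ∀ (n : ℕ) (α : Fin n → ℂ) (y : Fin n → ℝ), ∑ j, ‖α j‖ ≤ A → (∀ j, |y j| ≤ Y) → ‖∑ j, α j‖ = 2 * |k| →
    ∫ ω, exI (pr (PL L)) x α y ω * f ω ∂tm ≤ K * x ^ (-k ^ 2)

variable {k A Y x L : ℝ}

lemma Xb.mono (hx : 0 ≤ x) {f g : (ℕ → ℝ) → ℝ} (hf : RB f) (hg : RB g) (h : ∀ ω, f ω ≤ g ω) {K : ℝ} (hT : Xb k A Y x L g K) : Xb k A Y x L f K := by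
  intro n α y hα hy hk
  refine le_trans (integral_mono ((exI_cb PL_two hx α y).mul hf).int ((exI_cb PL_two hx α y).mul hg).int fun ω => ?_) (hT n α y hα hy hk)
  exact mul_le_mul_of_nonneg_left (h ω) (exI_pos _ _ _ _ _).le

lemma Xb.add (hx : 0 ≤ x) {f g : (ℕ → ℝ) → ℝ} (hf : RB f) (hg : RB g) {K K' : ℝ} (hT : Xb k A Y x L f K) (hT' : Xb k A Y x L g K') :
    Xb k A Y x L (fun ω => f ω + g ω) (K + K') := by
  intro n α y hα hy hk
  simp only [mul_add]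
  rw [integral_add ((exI_cb PL_two hx α y).mul hf).int ((exI_cb PL_two hx α y).mul hg).int, add_mul]
  exact add_le_add (hT n α y hα hy hk) (hT' n α y hα hy hk)

lemma Xb.smul {f : (ℕ → ℝ) → ℝ} {K c : ℝ} (hc : 0 ≤ c) (hT : Xb k A Y x L f K) : Xb k A Y x L (fun ω => c * f ω) (c * K) := by
  intro n α y hα hy hk
  have h1 := mul_le_mul_of_nonneg_left (hT n α y hα hy hk) hc
  rw [← integral_const_mul, ← mul_assoc] at h1
  refine le_trans (le_of_eq ?_) h1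
  congr 1
  funext ω
  ring

lemma Xb.cst (hx : 0 ≤ x) {f : (ℕ → ℝ) → ℝ} {K K' : ℝ} (hT : Xb k A Y x L f K) (h : K ≤ K') : Xb k A Y x L f K' := fun n α y hα hy hk =>
  (hT n α y hα hy hk).trans (mul_le_mul_of_nonneg_right h (by positivity))

lemma Xb.less {A' : ℝ} (hA : A' ≤ A) {f : (ℕ → ℝ) → ℝ} {K : ℝ} (hT : Xb k A Y x L f K) : Xb k A' Y x L f K := fun n α y hα hy hk =>
  hT n α y (hα.trans hA) hy hk

theorem Xb_of_Tb (k A Y : ℝ) : ∃ C : ℝ, 0 < C ∧ ∀ x : ℝ, 0 < x → x ≤ 1 → ∀ L : ℝ, PL L ≤ PX x → ∀ f : (ℕ → ℝ) → ℝ, ∀ K : ℝ, 0 ≤ K →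
    Tb A x L f K → Xb k A Y x L f (K * C) := by
  obtain ⟨C, hC, h⟩ := ex_up A
  refine ⟨C * (2 + 2 * |Y|) ^ (A ^ 2), by positivity, fun x hx hx1 L hP f K hK hT n α y hα hy hk => ?_⟩
  refine (hT n α y hα).trans ?_
  have h1 := h x hx hx1 (pr (PL L)) (pr_mono hP) n α y hα (2 + 2 * |Y|) (by have := abs_nonneg Y; linarith) (fun i j => by
    refine (norm_add_le _ _).trans ?_
    rw [norm_mul, Complex.norm_I, mul_one, Complex.norm_two, Complex.norm_real]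
    have h2 := norm_sub_le (y i) (y j)
    rw [Real.norm_eq_abs, Real.norm_eq_abs, Real.norm_eq_abs] at h2
    have h3 := hy i
    have h4 := hy j
    have h5 := le_abs_self Y
    rw [Real.norm_eq_abs]
    linarith)
  rw [hk] at h1
  have e1 : -((2 * |k|) ^ 2 / 4) = -k ^ 2 := by
    rw [mul_pow, sq_abs]
    ring
  rw [e1] at h1
  refine (mul_le_mul_of_nonneg_left h1 hK).trans (le_of_eq ?_)
  ring

lemma Xb.exI {A' : ℝ} {f : (ℕ → ℝ) → ℝ} {K : ℝ} (hT : Xb k (A + A') Y x L f K) {m : ℕ} (α' : Fin m → ℂ) (y' : Fin m → ℝ) (hα' : ∑ j, ‖α' j‖ ≤ A')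
    (hy' : ∀ j, |y' j| ≤ Y) (h0 : ∑ j, α' j = 0) : Xb k A Y x L (fun ω => exI (pr (PL L)) x α' y' ω * f ω) K := by
  intro n α y hα hy hk
  have h1 := hT (n + m) (Fin.append α α') (Fin.append y y') (by
    rw [Fin.sum_univ_add]
    simp only [Fin.append_left, Fin.append_right]
    linarith) (fun j => by
    refine Fin.addCases (fun i => ?_) (fun i => ?_) j
    · rw [Fin.append_left]; exact hy i
    · rw [Fin.append_right]; exact hy' i) (by
    rw [Fin.sum_univ_add]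
    simp only [Fin.append_left, Fin.append_right]
    rw [h0, add_zero]
    exact hk)
  refine le_trans (le_of_eq ?_) h1
  congr 1
  funext ω
  rw [← exI_append]
  ring

/-- linear forms in the increments -/
noncomputable def hX (x L : ℝ) {n : ℕ} (a : Fin n → ℂ) (y : Fin n → ℝ) (ω : ℕ → ℝ) : ℂ :=
  ∑ j, a j * (Xs (pr (PL L)) (sp x (y j)) ω - Xs (pr (PL L)) (sp x 0) ω)

lemma hX_cc (hx : 0 ≤ x) (L : ℝ) {n : ℕ} (a : Fin n → ℂ) (y : Fin n → ℝ) : CC (hX x L a y) :=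
  CC.sum _ fun j _ => (CC.const _).mul ((Xs_cc PL_two hx _).sub (Xs_cc PL_two hx _))

lemma hX_exI (x L : ℝ) {n : ℕ} (a : Fin n → ℂ) (y : Fin n → ℝ) (u : ℂ) (ω : ℕ → ℝ) :
    Real.exp (u * hX x L a y ω).re = exI (pr (PL L)) x (Fin.cons (-(u * ∑ j, a j)) (fun j => u * a j) : Fin (n + 1) → ℂ) (Fin.cons 0 y : Fin (n + 1) → ℝ) ω := by
  unfold exI hX
  rw [Fin.sum_univ_succ]
  simp only [Fin.cons_zero, Fin.cons_succ]
  congr 2
  rw [Finset.mul_sum, Finset.mul_sum, ← Finset.sum_neg_distrib, Finset.sum_mul, ← Finset.sum_add_distrib]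
  refine Finset.sum_congr rfl fun j _ => ?_
  ring

lemma Xb.hX (hx : 0 ≤ x) (hY : 0 ≤ Y) {f : (ℕ → ℝ) → ℝ} (hf : RB f) (hf0 : ∀ ω, 0 ≤ f ω) {K : ℝ} {lam : ℝ} (hl : 0 ≤ lam) {n : ℕ} (a : Fin n → ℂ) (y : Fin n → ℝ)
    (hy : ∀ j, |y j| ≤ Y) (hT : Xb k (A + 4 * lam * ∑ j, ‖a j‖) Y x L f K) :
    Xb k A Y x L (fun ω => Real.exp (lam * ‖hX x L a y ω‖) * f ω) (2 * K) := by
  have hcc := hX_cc hx L a y
  have key : ∀ u : ℂ, ‖u‖ ≤ 2 * lam → Xb k A Y x L (fun ω => Real.exp (u * Pool.Agent.H470.hX x L a y ω).re * f ω) K := by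
    intro u hu
    simp_rw [hX_exI]
    refine Xb.exI (A' := 4 * lam * ∑ j, ‖a j‖) hT _ _ ?_ ?_ ?_
    · rw [Fin.sum_univ_succ]
      simp only [Fin.cons_zero, Fin.cons_succ, norm_neg, norm_mul]
      rw [← Finset.mul_sum]
      have h1 : ‖∑ j, a j‖ ≤ ∑ j, ‖a j‖ := norm_sum_le _ _
      have h2 : 0 ≤ ∑ j, ‖a j‖ := Finset.sum_nonneg fun j _ => norm_nonneg _
      have h3 := mul_le_mul hu h1 (norm_nonneg _) (by positivity)
      have h4 := mul_le_mul_of_nonneg_right hu h2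
      linarith
    · intro j
      refine Fin.cases ?_ (fun i => ?_) j
      · simp only [Fin.cons_zero, abs_zero]; exact hY
      · simp only [Fin.cons_succ]; exact hy i
    · rw [Fin.sum_univ_succ]
      simp only [Fin.cons_zero, Fin.cons_succ]
      rw [← Finset.mul_sum]
      ring
  have hnl : ‖((2 * lam : ℝ) : ℂ)‖ ≤ 2 * lam := by rw [Complex.norm_real, Real.norm_of_nonneg (by positivity)]
  have k1 := key ((2 * lam : ℝ) : ℂ) hnl
  have k2 := key (-((2 * lam : ℝ) : ℂ)) (by rw [norm_neg]; exact hnl)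
  have k3 := key (-((2 * lam : ℝ) : ℂ) * Complex.I) (by rw [norm_mul, Complex.norm_I, mul_one, norm_neg]; exact hnl)
  have k4 := key (((2 * lam : ℝ) : ℂ) * Complex.I) (by rw [norm_mul, Complex.norm_I, mul_one]; exact hnl)
  have hrb : ∀ u : ℂ, RB (fun ω => Real.exp (u * Pool.Agent.H470.hX x L a y ω).re * f ω) := fun u => ((((CC.const u).mul hcc).re).comp Real.continuous_exp).mul hf
  have h5 := (((k1.add hx (hrb _) (hrb _) k2).add hx ((hrb _).add (hrb _)) (hrb _) k3).add hx (((hrb _).add (hrb _)).add (hrb _)) (hrb _) k4).smul (c := 1 / 2) (by norm_num)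
  refine Xb.mono hx ((hcc.norm.comp (g := fun t => Real.exp (lam * t)) (by fun_prop)).mul hf) ((RB.const (1 / 2)).mul ((((hrb _).add (hrb _)).add (hrb _)).add (hrb _))) (fun ω => ?_)
    (Xb.cst hx h5 (by linarith))
  have h6 := exp_abs4 hl (Pool.Agent.H470.hX x L a y ω)
  have a1 : ∀ (t : ℝ) (w : ℂ), ((t:ℂ) * w).re = t * w.re := fun t w => by simp
  obtain ⟨w, hw⟩ : ∃ w, w = Pool.Agent.H470.hX x L a y ω := ⟨_, rfl⟩
  rw [← hw] at h6 ⊢
  have a2 : (((2 * lam : ℝ) : ℂ) * w).re = 2 * lam * w.re := a1 _ _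
  have a3 : (-((2 * lam : ℝ) : ℂ) * w).re = -(2 * lam) * w.re := by
    rw [← Complex.ofReal_neg]
    exact a1 _ _
  have a4 : (-((2 * lam : ℝ) : ℂ) * Complex.I * w).re = 2 * lam * w.im := by
    rw [← Complex.ofReal_neg, mul_assoc, a1]
    simp
  have a5 : (((2 * lam : ℝ) : ℂ) * Complex.I * w).re = -(2 * lam) * w.im := by
    rw [mul_assoc, a1]
    simp
  rw [a2, a3, a4, a5]
  have h7 := mul_le_mul_of_nonneg_right h6 (hf0 ω)
  refine h7.trans (le_of_eq ?_)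
  ring

lemma Xb.nonneg_of (hx : 0 < x) {f : (ℕ → ℝ) → ℝ} (hf0 : ∀ ω, 0 ≤ f ω) {K : ℝ} (hA : 2 * |k| ≤ A) (hY : 0 ≤ Y) (hT : Xb k A Y x L f K) : 0 ≤ K := by
  have h1 := hT 1 (fun _ => ((2 * |k| : ℝ) : ℂ)) (fun _ => 0) (by
    rw [Fin.sum_univ_one, Complex.norm_real, Real.norm_of_nonneg (by positivity)]
    exact hA) (fun _ => by simpa using hY) (by
    rw [Fin.sum_univ_one, Complex.norm_real, Real.norm_of_nonneg (by positivity)])
  have h2 : 0 ≤ ∫ ω, Pool.Agent.H470.exI (pr (PL L)) x (fun _ : Fin 1 => ((2 * |k| : ℝ) : ℂ)) (fun _ => 0) ω * f ω ∂tm :=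
    integral_nonneg fun ω => mul_nonneg (exI_pos _ _ _ _ _).le (hf0 ω)
  by_contra hcon
  rw [not_le] at hcon
  have h3 : K * x ^ (-k ^ 2) < 0 := mul_neg_of_neg_of_pos hcon (by positivity)
  linarith

end Pool.Agent.H470
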