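import Pool.Agent.H470.Wa11

set_option autoImplicit false

/-! Moments of combinations of mollifiers. -/

namespace Pool.Agent.H470

open MeasureTheory Filter Topology ProbabilityTheory Set
open scoped ENNReal
open Pool.Agent.TH806 (ec ec_norm ec_cont uu integrable_uu)

lemma exI_two (I : Finset ℕ) (x : ℝ) (m : ℕ) (z y : ℝ) (ω : ℕ → ℝ) :
    ‖Fl I x y ω‖ ^ (2 * m) * Real.exp (2 * z * (Xs I (sp x 0) ω).re) = exI I x (Fin.cons ((2 * m : ℝ) : ℂ) (fun _ : Fin 1 => ((2 * z : ℝ) : ℂ)) : Fin 2 → ℂ) (Fin.cons y (fun _ : Fin 1 => 0) : Fin 2 → ℝ) ω := by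
  unfold Fl exI
  rw [Fin.sum_univ_two, Complex.norm_exp, ← Real.exp_nat_mul, ← Real.exp_add, Complex.add_re]
  have e1 : (Fin.cons ((2 * m : ℝ) : ℂ) (fun _ : Fin 1 => ((2 * z : ℝ) : ℂ)) : Fin 2 → ℂ) 1 = ((2 * z : ℝ) : ℂ) := rfl
  have e2 : (Fin.cons y (fun _ : Fin 1 => 0) : Fin 2 → ℝ) 1 = 0 := rfl
  simp only [Fin.cons_zero, e1, e2, Complex.re_ofReal_mul]
  congr 1
  push_cast
  ring

lemma two_sum (m : ℕ) (z : ℝ) : ∑ j, ‖(Fin.cons ((2 * m : ℝ) : ℂ) (fun _ : Fin 1 => ((2 * z : ℝ) : ℂ)) : Fin 2 → ℂ) j‖ = 2 * m + 2 * |z| := by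
  rw [Fin.sum_univ_two]
  have e1 : (Fin.cons ((2 * m : ℝ) : ℂ) (fun _ : Fin 1 => ((2 * z : ℝ) : ℂ)) : Fin 2 → ℂ) 1 = ((2 * z : ℝ) : ℂ) := rfl
  simp only [Fin.cons_zero, e1, Complex.norm_real, Real.norm_eq_abs, abs_mul, abs_two]
  rw [abs_of_nonneg (by positivity : (0:ℝ) ≤ m)]

lemma two_sum' (m : ℕ) (z : ℝ) : ‖∑ j, (Fin.cons ((2 * m : ℝ) : ℂ) (fun _ : Fin 1 => ((2 * z : ℝ) : ℂ)) : Fin 2 → ℂ) j‖ = 2 * |m + z| := by
  rw [Fin.sum_univ_two]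
  have e1 : (Fin.cons ((2 * m : ℝ) : ℂ) (fun _ : Fin 1 => ((2 * z : ℝ) : ℂ)) : Fin 2 → ℂ) 1 = ((2 * z : ℝ) : ℂ) := rfl
  simp only [Fin.cons_zero, e1]
  rw [← Complex.ofReal_add, Complex.norm_real, Real.norm_eq_abs, ← mul_add, abs_mul, abs_two]

/-- use of the class at two points -/
lemma Xb.use {k A Y x L : ℝ} {f : (ℕ → ℝ) → ℝ} {K : ℝ} (hT : Xb k A Y x L f K) {m : ℕ} {z : ℝ} (hk : m + z = k) (hA : 2 * m + 2 * |z| ≤ A) (hY : 0 ≤ Y) {y : ℝ} (hy : |y| ≤ Y) :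
    ∫ ω, ‖Fl (pr (PL L)) x y ω‖ ^ (2 * m) * Real.exp (2 * z * (Xs (pr (PL L)) (sp x 0) ω).re) * f ω ∂tm ≤ K * x ^ (-k ^ 2) := by
  simp_rw [exI_two]
  refine hT 2 _ _ (by rw [two_sum]; exact hA) (fun j => ?_) (by rw [two_sum', hk])
  refine Fin.cases ?_ (fun i => ?_) j
  · simp only [Fin.cons_zero]; exact hy
  · simp only [Fin.cons_succ, abs_zero]; exact hY

/-- the parameters -/
structure Pm where
  (k : ℝ) (Z m0 m1 : ℕ) (θ : ℝ)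
  (hk : 0 < k) (hZ : 1 ≤ Z) (h0 : 0 < θ) (h1 : θ < 1) (hθ : θ * m1 + (1 - θ) * m0 = k) (hz1 : |k - m1| ≤ Z) (hz0 : |k - m0| ≤ Z) (hkZ : k ≤ Z)
  (hm1 : k < m1) (hm0 : (m0:ℝ) < k) (hm : m0 < m1)

lemma Pm_ex {k : ℝ} (hk : 0 < k) : ∃ P : Pm, P.k = k := by
  obtain ⟨n, hn⟩ : ∃ n : ℕ, n = ⌈k⌉₊ := ⟨_, rfl⟩
  have h1 : k ≤ n := by rw [hn]; exact Nat.le_ceil k
  have h2 : (n:ℝ) < k + 1 := by rw [hn]; exact Nat.ceil_lt_add_one hk.le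
  have h3 : 1 ≤ n := by rw [hn]; exact Nat.one_le_iff_ne_zero.mpr (Nat.ceil_pos.mpr hk).ne'
  have e1 : ((n - 1 : ℕ) : ℝ) = (n:ℝ) - 1 := by rw [Nat.cast_sub h3, Nat.cast_one]
  refine ⟨⟨k, n + 2, n - 1, n + 1, (k - (n - 1)) / 2, hk, by omega, by linarith, by linarith, ?_, ?_, ?_, ?_, ?_, ?_, by omega⟩, rfl⟩
  · rw [e1]
    push_cast
    ring
  · rw [abs_le]
    push_cast
    constructor <;> linarith
  · rw [abs_le, e1]
    push_cast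
    constructor <;> linarith
  · push_cast
    linarith
  · push_cast
    linarith
  · rw [e1]
    linarith

/-- combinations of mollifiers -/
noncomputable def Sc (Z q : ℕ) (x L : ℝ) {n : ℕ} (c : Fin n → ℂ) (y : Fin n → ℝ) (ω : ℕ → ℝ) : ℂ := ∑ j, c j * Ey Z q x L 1 (y j) ω

lemma Sc_cc (Z q : ℕ) (x L : ℝ) {n : ℕ} (c : Fin n → ℂ) (y : Fin n → ℝ) : CC (Sc Z q x L c y) := CC.sum _ fun j _ => (CC.const _).mul (Ey_cc _ _ _ _ _ _)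

lemma Sc_sp (Z q : ℕ) {L : ℝ} (hL : 0 ≤ L) (x : ℝ) {n : ℕ} (c : Fin n → ℂ) (y : Fin n → ℝ) : Sp (32 * Z * (q:ℝ) ^ 2 * L) (Sc Z q x L c y) :=
  Sp.sum (by positivity) _ fun j _ => (Ey_sp Z q hL x 1 (y j)).smul (c j)

lemma sum_pow_le {n : ℕ} (hn : 1 ≤ n) (c E : Fin n → ℂ) (m : ℕ) : ‖∑ j, c j * E j‖ ^ (2 * m) ≤ (∑ j, ‖c j‖) ^ (2 * m) * ∑ j, ‖E j‖ ^ (2 * m) := by
  haveI : Nonempty (Fin n) := ⟨⟨0, hn⟩⟩
  obtain ⟨i, _, hi⟩ := Finset.exists_max_image Finset.univ (fun j => ‖E j‖) ⟨⟨0, hn⟩, Finset.mem_univ _⟩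
  have h1 : ‖∑ j, c j * E j‖ ≤ (∑ j, ‖c j‖) * ‖E i‖ := by
    refine (norm_sum_le _ _).trans ?_
    rw [Finset.sum_mul]
    refine Finset.sum_le_sum fun j hj => ?_
    rw [norm_mul]
    exact mul_le_mul_of_nonneg_left (hi j hj) (norm_nonneg _)
  refine (pow_le_pow_left₀ (norm_nonneg _) h1 _).trans ?_
  rw [mul_pow]
  refine mul_le_mul_of_nonneg_left ?_ (pow_nonneg (Finset.sum_nonneg fun j _ => norm_nonneg _) _)
  exact Finset.single_le_sum (f := fun j => ‖E j‖ ^ (2 * m)) (fun j _ => by positivity) (Finset.mem_univ i)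

/-- the bound for the mollifier by the Euler product -/
lemma Ey_le {C : ℝ} (hC : 0 ≤ C) {Z q : ℕ} {x : ℝ} {L y z : ℝ} (ω : ℕ → ℝ)
    (h : ∀ b, ‖ta Z q x L z y b ω * Complex.exp (-((z:ℂ) * Xs (bk L b) (sp x y) ω)) - 1‖ ≤ sb C Z q x L y b ω) :
    ‖Ey Z q x L z y ω‖ ≤ Real.exp (z * (Xs (pr (PL L)) (sp x y) ω).re) * Vb C Z q x L y ω := by
  have h1 := Ey_near ω h
  obtain ⟨X, hX⟩ : ∃ X, X = Xs (pr (PL L)) (sp x y) ω := ⟨_, rfl⟩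
  rw [← hX] at h1 ⊢
  have h2 : ‖Ey Z q x L z y ω * Complex.exp (-((z:ℂ) * X))‖ ≤ Vb C Z q x L y ω := by
    have := norm_sub_norm_le (Ey Z q x L z y ω * Complex.exp (-((z:ℂ) * X))) 1
    rw [norm_one] at this
    linarith
  rw [norm_mul, Complex.norm_exp, Complex.neg_re, Complex.re_ofReal_mul] at h2
  have h3 := mul_le_mul_of_nonneg_left h2 (Real.exp_pos (z * X.re)).le
  refine le_trans (le_of_eq ?_) h3
  have : Real.exp (z * X.re) * Real.exp (-(z * X.re)) = 1 := by rw [← Real.exp_add, add_neg_cancel, Real.exp_zero]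
  linear_combination (-‖Ey Z q x L z y ω‖) * this

theorem S_int {Z : ℕ} (hZ : 1 ≤ Z) : ∃ C : ℝ, 0 < C ∧ ∀ {k A Y : ℝ}, 0 ≤ Y → ∀ {m : ℕ} {z : ℝ}, m + z = k → 2 * m + 2 * |z| ≤ A → ∀ q : ℕ, 3 ≤ q → ∀ x : ℝ, 0 < x → ∀ L : ℝ,
    ∀ {n : ℕ}, 1 ≤ n → ∀ (c : Fin n → ℂ) (y : Fin n → ℝ), (∀ j, |y j| ≤ Y) → ∀ g : (ℕ → ℝ) → ℝ, RB g → (∀ ω, 0 ≤ g ω) → ∀ K : ℝ,
    (∀ j, Xb k A Y x L (fun ω => Vb C Z q x L (y j) ω ^ (2 * m) * rho Z q x L z ω * g ω) K) →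
    ∫ ω, ‖Sc Z q x L c y ω‖ ^ (2 * m) * Rs Z q x L z ω * g ω ∂tm ≤ (∑ j, ‖c j‖) ^ (2 * m) * (n * (K * x ^ (-k ^ 2))) := by
  obtain ⟨C, hC, h⟩ := ta_near Z hZ
  have hZ' : (1:ℝ) ≤ Z := by exact_mod_cast hZ
  refine ⟨C, hC, fun {k A Y} hY {m z} hmz hA q hq x hx L {n} hn c y hy g hg hg0 K hK => ?_⟩
  have hV := fun y => Vb_rb (C := C) (Z := Z) (q := q) hx.le L y
  have h1 : ∀ ω, ‖Sc Z q x L c y ω‖ ^ (2 * m) * Rs Z q x L z ω * g ω ≤ (∑ j, ‖c j‖) ^ (2 * m) *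
      ∑ j, ‖Fl (pr (PL L)) x (y j) ω‖ ^ (2 * m) * Real.exp (2 * z * (Xs (pr (PL L)) (sp x 0) ω).re) * (Vb C Z q x L (y j) ω ^ (2 * m) * rho Z q x L z ω * g ω) := by
    intro ω
    have h2 := sum_pow_le hn c (fun j => Ey Z q x L 1 (y j) ω) m
    have h3 : ∀ j ∈ Finset.univ, ‖Ey Z q x L 1 (y j) ω‖ ^ (2 * m) ≤ ‖Fl (pr (PL L)) x (y j) ω‖ ^ (2 * m) * Vb C Z q x L (y j) ω ^ (2 * m) := by
      intro j _
      have h4 := Ey_le hC.le ω (h q hq x hx.le L (y j) 1 (by rw [abs_one]; exact hZ') · ω)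
      rw [← mul_pow]
      refine pow_le_pow_left₀ (norm_nonneg _) (h4.trans (le_of_eq ?_)) _
      unfold Fl
      rw [Complex.norm_exp, one_mul]
    have h4 := h2.trans (mul_le_mul_of_nonneg_left (Finset.sum_le_sum h3) (pow_nonneg (Finset.sum_nonneg fun j _ => norm_nonneg _) _))
    have h5 : 0 ≤ Rs Z q x L z ω * g ω := mul_nonneg (Rs_nonneg _ _ _ _ _ _) (hg0 ω)
    have h6 := mul_le_mul_of_nonneg_right h4 h5
    rw [← mul_assoc] at h6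
    refine h6.trans (le_of_eq ?_)
    rw [Rs_rho, mul_assoc, Finset.sum_mul]
    congr 1
    refine Finset.sum_congr rfl fun j _ => ?_
    ring
  have hrb : ∀ j, RB fun ω => ‖Fl (pr (PL L)) x (y j) ω‖ ^ (2 * m) * Real.exp (2 * z * (Xs (pr (PL L)) (sp x 0) ω).re) * (Vb C Z q x L (y j) ω ^ (2 * m) * rho Z q x L z ω * g ω) := fun j =>
    (((Fl_cc PL_two hx.le (y j)).norm.pow _).mul ((Xs_cc PL_two hx.le 0).re.comp (g := fun t => Real.exp (2 * z * t)) (by fun_prop))).mul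
      ((((hV (y j)).pow _).mul (rho_rb Z q hx.le L z)).mul hg)
  refine (integral_mono ((((Sc_cc Z q x L c y).norm.pow _).mul (Rs_rb Z q x L z)).mul hg).int ((RB.const _).mul (RB.sum _ fun j _ => hrb j)).int h1).trans ?_
  rw [integral_const_mul, integral_finsetSum _ fun j _ => (hrb j).int]
  refine mul_le_mul_of_nonneg_left ?_ (pow_nonneg (Finset.sum_nonneg fun j _ => norm_nonneg _) _)
  have h2 : ∀ j ∈ Finset.univ, ∫ ω, ‖Fl (pr (PL L)) x (y j) ω‖ ^ (2 * m) * Real.exp (2 * z * (Xs (pr (PL L)) (sp x 0) ω).re) * (Vb C Z q x L (y j) ω ^ (2 * m) * rho Z q x L z ω * g ω) ∂tm ≤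
      K * x ^ (-k ^ 2) := fun j _ => (hK j).use hmz hA hY (hy j)
  refine (Finset.sum_le_sum h2).trans ?_
  rw [Finset.sum_const, Finset.card_univ, Fintype.card_fin, nsmul_eq_mul]

/-- second moments of the standard weights -/
theorem Tb_std (A : ℝ) {C : ℝ} (hC : 0 ≤ C) {Z : ℕ} (hZ : 1 ≤ Z) (m : ℕ) : ∃ K : ℝ, 0 < K ∧ ∃ q0 : ℕ, 3 ≤ q0 ∧ ∀ q : ℕ, q0 ≤ q → ∀ x : ℝ, 0 ≤ x → ∀ L y z : ℝ, |z| ≤ Z →
    Tb A x L (fun ω => (Vb C Z q x L y ω ^ (2 * m) * rho Z q x L z ω) ^ 2) K ∧ Tb A x L (fun ω => Vb C Z q x L y ω ^ (2 * m) * rho Z q x L z ω) K := by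
  obtain ⟨C', hC', h1⟩ := Tb_V A hC Z (8 * m)
  obtain ⟨K2', hK2', q0, hq0, h2⟩ := Tb_rho A hZ (r := 4) (by norm_num)
  obtain ⟨C3', hC3', h3⟩ := Tb_V A hC Z (4 * m)
  obtain ⟨K4', hK4', q1, hq1, h4⟩ := Tb_rho A hZ (r := 2) (by norm_num)
  refine ⟨Real.exp (C' * (2 + 4 * K2)) + K2' + (Real.exp (C3' * (2 + 4 * K2)) + K4'), by positivity, max q0 q1, le_max_of_le_left hq0, fun q hq x hx L y z hz => ?_⟩
  have hqa : q0 ≤ q := (le_max_left _ _).trans hq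
  have hqb : q1 ≤ q := (le_max_right _ _).trans hq
  have hV := Vb_rb (C := C) (Z := Z) (q := q) hx L y
  have hr := rho_rb Z q hx L z
  have g1 := Tb.le hx (h1 q (by omega) x hx L y).1 (Real.exp_le_exp.mpr (mul_le_mul_of_nonneg_left (uq_le q) hC'))
  have g2 := h2 q hqa x hx L z hz
  have g3 := Tb.le hx (h3 q (by omega) x hx L y).1 (Real.exp_le_exp.mpr (mul_le_mul_of_nonneg_left (uq_le q) hC3'))
  have g4 := h4 q hqb x hx L z hz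
  constructor
  · have h5 := Tb.am hx (f := fun ω => Vb C Z q x L y ω ^ (4 * m)) (g := fun ω => rho Z q x L z ω ^ 2) (hV.pow _) (hr.pow 2) (t := 1) one_pos
      (K := Real.exp (C' * (2 + 4 * K2))) (K' := K2')
      (by simp only [← pow_mul]; rw [show 4 * m * 2 = 8 * m by ring]; exact g1)
      (by simp only [← pow_mul]; exact g2)
    have e1 : (fun ω => (Vb C Z q x L y ω ^ (2 * m) * rho Z q x L z ω) ^ 2) = fun ω => Vb C Z q x L y ω ^ (4 * m) * rho Z q x L z ω ^ 2 := by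
      funext ω
      rw [mul_pow, ← pow_mul]
      congr 2
      ring
    rw [e1]
    refine Tb.le hx h5 ?_
    rw [inv_one, one_mul, one_mul]
    have : 0 < Real.exp (C3' * (2 + 4 * K2)) + K4' := by positivity
    linarith
  · have h5 := Tb.am hx (f := fun ω => Vb C Z q x L y ω ^ (2 * m)) (g := fun ω => rho Z q x L z ω) (hV.pow _) hr (t := 1) one_pos
      (K := Real.exp (C3' * (2 + 4 * K2))) (K' := K4')
      (by simp only [← pow_mul]; rw [show 2 * m * 2 = 4 * m by ring]; exact g3) g4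
    refine Tb.le hx h5 ?_
    rw [inv_one, one_mul, one_mul]
    have : 0 < Real.exp (C' * (2 + 4 * K2)) + K2' := by positivity
    linarith

/-- truncated logarithm over all blocks -/
noncomputable def PP (q : ℕ) (x L y : ℝ) (ω : ℕ → ℝ) : ℂ := ∑ b ∈ Finset.range (NB L), Pk q (bk L b) x y ω

lemma PP_cc (q : ℕ) (x L y : ℝ) : CC (PP q x L y) := CC.sum _ fun b _ => Pk_cc _ _ _ _

lemma PP_sp (q : ℕ) {L : ℝ} (hL : 0 ≤ L) (x y : ℝ) : Sp (q * L) (PP q x L y) := by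
  refine Sp.sum (by positivity) _ fun b _ => (Pk_sp q hL x y b).mono ?_
  have h1 : Real.exp (-(b:ℝ)) ≤ 1 := by
    rw [← Real.exp_zero, Real.exp_le_exp]
    simp
  have h2 : L * Real.exp (-(b:ℝ)) ≤ L := by nlinarith
  exact mul_le_mul_of_nonneg_left h2 (by positivity)

lemma PP_near (q : ℕ) {x : ℝ} (hx : 0 ≤ x) (L y : ℝ) (ω : ℕ → ℝ) : ‖Xs (pr (PL L)) (sp x y) ω - PP q x L y ω‖ ≤ dl q (pr (PL L)) := by
  rw [Xs_bk, ← dl_sum]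
  unfold PP
  rw [← Finset.sum_sub_distrib]
  exact (norm_sum_le _ _).trans (Finset.sum_le_sum fun b _ => Pk_near (fun p hp => bk_two hp) hx y q ω)

/-- linear forms in the truncated increments -/
noncomputable def hG (q : ℕ) (x L : ℝ) {n : ℕ} (a : Fin n → ℂ) (y : Fin n → ℝ) (ω : ℕ → ℝ) : ℂ := ∑ j, a j * (PP q x L (y j) ω - PP q x L 0 ω)

lemma hG_cc (q : ℕ) (x L : ℝ) {n : ℕ} (a : Fin n → ℂ) (y : Fin n → ℝ) : CC (hG q x L a y) :=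
  CC.sum _ fun j _ => (CC.const _).mul ((PP_cc _ _ _ _).sub (PP_cc _ _ _ _))

lemma hG_sp (q : ℕ) {L : ℝ} (hL : 0 ≤ L) (x : ℝ) {n : ℕ} (a : Fin n → ℂ) (y : Fin n → ℝ) : Sp (q * L) (hG q x L a y) :=
  Sp.sum (by positivity) _ fun j _ => ((PP_sp q hL x (y j)).sub (PP_sp q hL x 0)).smul (a j)

lemma hG_near (q : ℕ) {x : ℝ} (hx : 0 ≤ x) (L : ℝ) {n : ℕ} (a : Fin n → ℂ) (y : Fin n → ℝ) (ω : ℕ → ℝ) :
    ‖hX x L a y ω - hG q x L a y ω‖ ≤ (∑ j, ‖a j‖) * (2 * dl q (pr (PL L))) := by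
  unfold hX hG
  rw [← Finset.sum_sub_distrib, Finset.sum_mul]
  refine (norm_sum_le _ _).trans (Finset.sum_le_sum fun j _ => ?_)
  rw [← mul_sub, norm_mul]
  refine mul_le_mul_of_nonneg_left ?_ (norm_nonneg _)
  have e1 : Xs (pr (PL L)) (sp x (y j)) ω - Xs (pr (PL L)) (sp x 0) ω - (PP q x L (y j) ω - PP q x L 0 ω) =
      (Xs (pr (PL L)) (sp x (y j)) ω - PP q x L (y j) ω) - (Xs (pr (PL L)) (sp x 0) ω - PP q x L 0 ω) := by ring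
  rw [e1]
  refine (norm_sub_le _ _).trans ?_
  have h1 := PP_near q hx L (y j) ω
  have h2 := PP_near q hx L 0 ω
  linarith

end Pool.Agent.H470
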