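import Pool.Agent.H470.Wa12

set_option autoImplicit false

/-! Bounds for the time averages by the majorants. -/

namespace Pool.Agent.H470

open MeasureTheory Filter Topology ProbabilityTheory Set
open scoped ENNReal
open Pool.Agent.TH806 (ec ec_norm ec_cont uu integrable_uu)

/-- the majorant -/
noncomputable def MM (P : Pm) (q : ℕ) (x L μ : ℝ) (Q : (ℕ → ℝ) → ℂ) (g : (ℕ → ℝ) → ℝ) : ℝ :=
  μ ^ (-((1 - P.θ) / P.θ)) * (∫ ω, ‖Q ω‖ ^ (2 * P.m1) * Rs P.Z q x L (P.k - P.m1) ω * g ω ∂tm) +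
    μ * ∫ ω, ‖Q ω‖ ^ (2 * P.m0) * Rs P.Z q x L (P.k - P.m0) ω * g ω ∂tm

lemma At_Rs {Z : ℕ} (hZ : 1 ≤ Z) (q : ℕ) {L : ℝ} (hL : 0 ≤ L) (x z : ℝ) {lQ lB : ℝ} {Q B : (ℕ → ℝ) → ℂ} (hQ : Sp lQ Q) (hB : Sp lB B) (m : ℕ) {T : ℝ} (hT : 0 < T)
    (hl : Real.exp (2 * (m * lQ + 32 * Z * (q:ℝ) ^ 2 * L + lB)) ≤ T) :
    At T (fun ω => ‖Q ω‖ ^ (2 * m) * Rs Z q x L z ω * ‖B ω‖ ^ 2) ≤ 3 * ∫ ω, ‖Q ω‖ ^ (2 * m) * Rs Z q x L z ω * ‖B ω‖ ^ 2 ∂tm := by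
  have e1 : ∀ ω, ‖Q ω‖ ^ (2 * m) * Rs Z q x L z ω * ‖B ω‖ ^ 2 = ∑ a ∈ Finset.range (NB L + 1), ‖Q ω ^ m * Ra Z q x L z a ω * B ω‖ ^ 2 := by
    intro ω
    unfold Rs
    rw [Finset.mul_sum, Finset.sum_mul]
    refine Finset.sum_congr rfl fun a _ => ?_
    rw [norm_mul, norm_mul, norm_pow, mul_pow, mul_pow, ← pow_mul, mul_comm m 2]
  have hsp : ∀ a, Sp (m * lQ + 32 * Z * (q:ℝ) ^ 2 * L + lB) (fun ω => Q ω ^ m * Ra Z q x L z a ω * B ω) := fun a => ((hQ.pow m).mul (Ra_sp hZ q hL x z a)).mul hB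
  simp_rw [e1]
  rw [At_sum _ fun a _ => ((hsp a).cc.norm.pow 2).1, integral_finsetSum _ fun a _ => ((hsp a).cc.norm.pow 2).int, Finset.mul_sum]
  exact Finset.sum_le_sum fun a _ => At_sq (hsp a) hT hl

theorem TSB (P : Pm) {q : ℕ} (hq : 3 ≤ q) {L : ℝ} (hL : 0 ≤ L) (x : ℝ) {lQ lB : ℝ} (hlQ : 0 ≤ lQ) {Q B : (ℕ → ℝ) → ℂ} (hQ : Sp lQ Q) (hB : Sp lB B) {μ : ℝ} (hμ : 0 < μ) {T : ℝ} (hT : 0 < T)
    (hl : Real.exp (2 * (P.m1 * lQ + 32 * P.Z * (q:ℝ) ^ 2 * L + lB)) ≤ T) :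
    At T (fun ω => ‖Q ω‖ ^ (2 * P.k) * ‖B ω‖ ^ 2) ≤ 6 * MM P q x L μ Q (fun ω => ‖B ω‖ ^ 2) := by
  have hl0 : Real.exp (2 * (P.m0 * lQ + 32 * P.Z * (q:ℝ) ^ 2 * L + lB)) ≤ T := by
    refine le_trans (Real.exp_le_exp.mpr ?_) hl
    have h1 : (P.m0:ℝ) ≤ P.m1 := by exact_mod_cast P.hm.le
    have := mul_le_mul_of_nonneg_right h1 hlQ
    linarith
  have h1 := At_Rs P.hZ q hL x (P.k - P.m1) hQ hB P.m1 hT hl
  have h0 := At_Rs P.hZ q hL x (P.k - P.m0) hQ hB P.m0 hT hl0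
  have hc : ∀ (m : ℕ) (z : ℝ), RB (fun ω => ‖Q ω‖ ^ (2 * m) * Rs P.Z q x L z ω * ‖B ω‖ ^ 2) := fun m z =>
    ((hQ.cc.norm.pow _).mul (Rs_rb P.Z q x L z)).mul (hB.cc.norm.pow 2)
  obtain ⟨v, hv⟩ : ∃ v : ℝ, v = μ ^ (-((1 - P.θ) / P.θ)) := ⟨_, rfl⟩
  have hv0 : 0 < v := by rw [hv]; positivity
  have h2 : At T (fun ω => ‖Q ω‖ ^ (2 * P.k) * ‖B ω‖ ^ 2) ≤ At T (fun ω => 2 * (v * (‖Q ω‖ ^ (2 * P.m1) * Rs P.Z q x L (P.k - P.m1) ω * ‖B ω‖ ^ 2)) +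
      2 * (μ * (‖Q ω‖ ^ (2 * P.m0) * Rs P.Z q x L (P.k - P.m0) ω * ‖B ω‖ ^ 2))) := by
    refine At_mono hT ((hQ.cc.1.norm.rpow_const fun ω => Or.inr (by have := P.hk; positivity)).mul (hB.cc.1.norm.pow 2))
      (((RB.const 2).mul ((RB.const v).mul (hc _ _))).add ((RB.const 2).mul ((RB.const μ).mul (hc _ _)))).1 fun ω => ?_
    have h3 := mul_le_mul_of_nonneg_right (maj_pt P.hZ hq x L P.hk P.h0 P.h1 P.hθ P.hz1 P.hz0 hμ ω (Q ω)) (by positivity : 0 ≤ ‖B ω‖ ^ 2)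
    rw [← hv] at h3
    refine h3.trans (le_of_eq ?_)
    ring
  rw [At_add ((RB.const 2).mul ((RB.const v).mul (hc _ _))).1 ((RB.const 2).mul ((RB.const μ).mul (hc _ _))).1, At_smul, At_smul, At_smul, At_smul] at h2
  refine h2.trans ?_
  unfold MM
  rw [← hv]
  have h4 := mul_le_mul_of_nonneg_left h1 hv0.le
  have h5 := mul_le_mul_of_nonneg_left h0 hμ.le
  linarith

lemma abs_z (P : Pm) : 2 * (P.m1:ℝ) + 2 * |P.k - P.m1| ≤ 2 * P.m1 + 2 * P.Z ∧ 2 * (P.m0:ℝ) + 2 * |P.k - P.m0| ≤ 2 * P.m1 + 2 * P.Z := by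
  have h1 := P.hz1
  have h0 := P.hz0
  have h2 : (P.m0:ℝ) ≤ P.m1 := by exact_mod_cast P.hm.le
  constructor <;> linarith

/-- the majorant of a combination of mollifiers with a weight -/
theorem MM_S (P : Pm) : ∃ C : ℝ, 0 < C ∧ ∀ {Y : ℝ}, 0 ≤ Y → ∀ q : ℕ, 3 ≤ q → ∀ x : ℝ, 0 < x → ∀ L : ℝ,
    ∀ {n : ℕ}, 1 ≤ n → ∀ (c : Fin n → ℂ) (y : Fin n → ℝ), (∀ j, |y j| ≤ Y) → ∀ g : (ℕ → ℝ) → ℝ, RB g → (∀ ω, 0 ≤ g ω) → ∀ K : ℝ,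
    (∀ j, Xb P.k (2 * P.m1 + 2 * P.Z) Y x L (fun ω => Vb C P.Z q x L (y j) ω ^ (2 * P.m1) * rho P.Z q x L (P.k - P.m1) ω * g ω) K) →
    (∀ j, Xb P.k (2 * P.m1 + 2 * P.Z) Y x L (fun ω => Vb C P.Z q x L (y j) ω ^ (2 * P.m0) * rho P.Z q x L (P.k - P.m0) ω * g ω) K) →
    MM P q x L 1 (Sc P.Z q x L c y) g ≤ ((∑ j, ‖c j‖) ^ (2 * P.m1) + (∑ j, ‖c j‖) ^ (2 * P.m0)) * n * K * x ^ (-P.k ^ 2) := by
  obtain ⟨C, hC, h⟩ := S_int P.hZ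
  refine ⟨C, hC, fun {Y} hY q hq x hx L {n} hn c y hy g hg hg0 K h1 h0 => ?_⟩
  have a1 := h hY (by ring : ((P.m1:ℕ):ℝ) + (P.k - P.m1) = P.k) (abs_z P).1 q hq x hx L hn c y hy g hg hg0 K h1
  have a0 := h hY (by ring : ((P.m0:ℕ):ℝ) + (P.k - P.m0) = P.k) (abs_z P).2 q hq x hx L hn c y hy g hg hg0 K h0
  unfold MM
  rw [Real.one_rpow, one_mul, one_mul]
  refine (add_le_add a1 a0).trans (le_of_eq ?_)
  ring

theorem bad_S (P : Pm) {n : ℕ} (hn : 1 ≤ n) (c : Fin n → ℂ) (y : Fin n → ℝ) {e : ℝ} (he : 0 < e) : ∃ q0 : ℕ, 3 ≤ q0 ∧ ∀ q : ℕ, q0 ≤ q → ∀ x : ℝ, 0 < x → x ≤ 1 →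
    ∀ L : ℝ, PL L ≤ PX x → ∀ y' : ℝ, ∑ b ∈ Finset.range (NB L), MM P q x L 1 (Sc P.Z q x L c y) (fun ω => ‖hp q x L y' b ω‖ ^ 2) ≤ e * x ^ (-P.k ^ 2) := by
  obtain ⟨C, hC, hM⟩ := MM_S P
  obtain ⟨A, hA⟩ : ∃ A : ℝ, A = 2 * P.m1 + 2 * P.Z := ⟨_, rfl⟩
  obtain ⟨K1, hK1, q1, hq1, hs1⟩ := Tb_std A hC.le P.hZ P.m1
  obtain ⟨K0, hK0, q2, hq2, hs0⟩ := Tb_std A hC.le P.hZ P.m0
  obtain ⟨K3, hK3, hpe⟩ := Tb_pe A (r := 2) (by norm_num)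
  obtain ⟨Y, hY⟩ : ∃ Y : ℝ, Y = ∑ j, |y j| := ⟨_, rfl⟩
  have hY0 : 0 ≤ Y := by rw [hY]; exact Finset.sum_nonneg fun j _ => abs_nonneg _
  have hyY : ∀ j, |y j| ≤ Y := fun j => by rw [hY]; exact Finset.single_le_sum (f := fun j => |y j|) (fun j _ => abs_nonneg _) (Finset.mem_univ j)
  obtain ⟨D, hD, hXb⟩ := Xb_of_Tb P.k A Y
  obtain ⟨M, hM0⟩ : ∃ M : ℝ, M = ((∑ j, ‖c j‖) ^ (2 * P.m1) + (∑ j, ‖c j‖) ^ (2 * P.m0)) * n := ⟨_, rfl⟩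
  have hMn : 0 ≤ M := by rw [hM0]; positivity
  have hlim : Tendsto (fun q : ℕ => M * ((K1 + K0 + K3) * D) * uq q) atTop (𝓝 0) := by
    have := uq_lim.const_mul (M * ((K1 + K0 + K3) * D))
    simpa using this
  obtain ⟨q3, hq3⟩ := eventually_atTop.mp (hlim.eventually (gt_mem_nhds he))
  refine ⟨max (max q1 q2) q3, le_max_of_le_left (le_max_of_le_left hq1), fun q hq x hx hx1 L hP y' => ?_⟩
  have hqa : q1 ≤ q := (le_max_left _ _).trans ((le_max_left _ _).trans hq)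
  have hqb : q2 ≤ q := (le_max_right _ _).trans ((le_max_left _ _).trans hq)
  have hqc : q3 ≤ q := (le_max_right _ _).trans hq
  have hq3' : 3 ≤ q := by omega
  have hb : ∀ b ∈ Finset.range (NB L), MM P q x L 1 (Sc P.Z q x L c y) (fun ω => ‖hp q x L y' b ω‖ ^ 2) ≤
      (M * ((K1 + K0 + K3) * D) * x ^ (-P.k ^ 2)) * Real.exp (-((q * (b + 1) : ℕ) : ℝ)) := by
    intro b hb
    rw [Finset.mem_range] at hb
    obtain ⟨t, ht⟩ : ∃ t : ℝ, t = Real.exp (-((q * (b + 1) : ℕ) : ℝ)) := ⟨_, rfl⟩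
    have ht0 : 0 < t := by rw [ht]; exact Real.exp_pos _
    have hrb : RB fun ω => ‖hp q x L y' b ω‖ ^ 2 := (hp_cc q x L y' b).norm.pow 2
    have h5 := hpe q hq3' x hx.le L y' b hb
    have ht2 : t⁻¹ * (K3 * Real.exp (-(2 * ((q * (b + 1) : ℕ) : ℝ)))) = K3 * t := by
      have e1 : Real.exp (-(2 * ((q * (b + 1) : ℕ) : ℝ))) = t * t := by
        rw [ht, ← Real.exp_add]
        congr 1
        ring
      rw [e1]
      field_simp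
    have key : ∀ (m : ℕ) (z K : ℝ), 0 ≤ K → (∀ y, Tb A x L (fun ω => (Vb C P.Z q x L y ω ^ (2 * m) * rho P.Z q x L z ω) ^ 2) K) → K ≤ K1 + K0 → ∀ j,
        Xb P.k A Y x L (fun ω => Vb C P.Z q x L (y j) ω ^ (2 * m) * rho P.Z q x L z ω * ‖hp q x L y' b ω‖ ^ 2) ((K1 + K0 + K3) * t * D) := by
      intro m z K hK hT hKK j
      refine hXb x hx hx1 L hP _ _ (by positivity) ?_
      have h6 := Tb.am hx.le (((Vb_rb hx.le L (y j)).pow (2 * m)).mul (rho_rb P.Z q hx.le L z)) hrb ht0 (hT (y j)) h5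
      refine Tb.le hx.le h6 ?_
      rw [ht2]
      nlinarith
    have a1 := key P.m1 (P.k - P.m1) K1 hK1.le (fun y => (hs1 q hqa x hx.le L y _ P.hz1).1) (by linarith)
    have a0 := key P.m0 (P.k - P.m0) K0 hK0.le (fun y => (hs0 q hqb x hx.le L y _ P.hz0).1) (by linarith)
    rw [hA] at a1 a0
    have h6 := hM hY0 q hq3' x hx L hn c y hyY (fun ω => ‖hp q x L y' b ω‖ ^ 2) hrb (fun ω => by positivity) _ a1 a0
    rw [← hM0] at h6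
    refine h6.trans (le_of_eq ?_)
    rw [← ht]
    ring
  refine (Finset.sum_le_sum hb).trans ?_
  rw [← Finset.mul_sum]
  have h7 : ∑ b ∈ Finset.range (NB L), Real.exp (-((q * (b + 1) : ℕ) : ℝ)) ≤ uq q := by
    refine le_trans (Finset.sum_le_sum fun b _ => ?_) (ub_sum hq3' L)
    unfold ub
    have := dl_nonneg q (bk L b)
    linarith
  have h8 : 0 < x ^ (-P.k ^ 2) := by positivity
  have h9 := (hq3 q hqc).le
  calc (M * ((K1 + K0 + K3) * D) * x ^ (-P.k ^ 2)) * ∑ b ∈ Finset.range (NB L), Real.exp (-((q * (b + 1) : ℕ) : ℝ))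
      ≤ (M * ((K1 + K0 + K3) * D) * x ^ (-P.k ^ 2)) * uq q := by gcongr
    _ = (M * ((K1 + K0 + K3) * D) * uq q) * x ^ (-P.k ^ 2) := by ring
    _ ≤ _ := by gcongr

/-- the mollifier at the central point -/
theorem Ek_int (P : Pm) : ∃ C : ℝ, 0 < C ∧ ∀ {A Y : ℝ}, 2 * P.k ≤ A → 0 ≤ Y → ∀ q : ℕ, 3 ≤ q → ∀ x : ℝ, 0 < x → ∀ L : ℝ, ∀ g : (ℕ → ℝ) → ℝ, RB g → (∀ ω, 0 ≤ g ω) → ∀ K : ℝ,
    Xb P.k A Y x L (fun ω => Vb C P.Z q x L 0 ω ^ 2 * g ω) K →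
    ∫ ω, ‖Ey P.Z q x L P.k 0 ω‖ ^ 2 * g ω ∂tm ≤ K * x ^ (-P.k ^ 2) := by
  obtain ⟨C, hC, h⟩ := ta_near P.Z P.hZ
  refine ⟨C, hC, fun {A Y} hA hY q hq x hx L g hg hg0 K hK => ?_⟩
  have hk := P.hk
  have h1 := hK.use (m := 0) (z := P.k) (by simp) (by rw [abs_of_pos hk]; simpa using hA) hY (y := 0) (by simpa using hY)
  refine le_trans (integral_mono (((Ey_cc _ _ _ _ _ _).norm.pow 2).mul hg).int ?_ fun ω => ?_) h1
  · exact ((((Fl_cc PL_two hx.le 0).norm.pow _).mul ((Xs_cc PL_two hx.le 0).re.comp (g := fun t => Real.exp (2 * P.k * t)) (by fun_prop))).mul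
      (((Vb_rb hx.le L 0).pow 2).mul hg)).int
  · have h2 := Ey_le hC.le (y := 0) (z := P.k) ω (h q hq x hx.le L 0 P.k (by rw [abs_of_pos hk]; exact P.hkZ) · ω)
    have h3 := pow_le_pow_left₀ (norm_nonneg _) h2 2
    have h4 := mul_le_mul_of_nonneg_right h3 (hg0 ω)
    refine h4.trans (le_of_eq ?_)
    rw [mul_zero, pow_zero, one_mul, mul_pow, ← Real.exp_nat_mul]
    push_cast
    ring_nf

theorem bad_E (P : Pm) {e : ℝ} (he : 0 < e) : ∃ q0 : ℕ, 3 ≤ q0 ∧ ∀ q : ℕ, q0 ≤ q → ∀ x : ℝ, 0 < x → x ≤ 1 →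
    ∀ L : ℝ, PL L ≤ PX x → ∀ y' : ℝ, ∑ b ∈ Finset.range (NB L), ∫ ω, ‖Ey P.Z q x L P.k 0 ω‖ ^ 2 * ‖hp q x L y' b ω‖ ^ 2 ∂tm ≤ e * x ^ (-P.k ^ 2) := by
  obtain ⟨C, hC, hE⟩ := Ek_int P
  obtain ⟨A, hA⟩ : ∃ A : ℝ, A = 2 * P.k := ⟨_, rfl⟩
  obtain ⟨K1, hK1, hV⟩ := Tb_V A hC.le P.Z 4
  obtain ⟨K3, hK3, hpe⟩ := Tb_pe A (r := 2) (by norm_num)
  obtain ⟨D, hD, hXb⟩ := Xb_of_Tb P.k A 0
  obtain ⟨K4, hK4⟩ : ∃ K4 : ℝ, K4 = Real.exp (K1 * (2 + 4 * K2)) := ⟨_, rfl⟩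
  have hK40 : 0 < K4 := by rw [hK4]; exact Real.exp_pos _
  have hlim : Tendsto (fun q : ℕ => ((K4 + K3) * D) * uq q) atTop (𝓝 0) := by
    have := uq_lim.const_mul ((K4 + K3) * D)
    simpa using this
  obtain ⟨q3, hq3⟩ := eventually_atTop.mp (hlim.eventually (gt_mem_nhds he))
  refine ⟨max 3 q3, le_max_left _ _, fun q hq x hx hx1 L hP y' => ?_⟩
  have hq3' : 3 ≤ q := (le_max_left _ _).trans hq
  have hqc : q3 ≤ q := (le_max_right _ _).trans hq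
  have hb : ∀ b ∈ Finset.range (NB L), ∫ ω, ‖Ey P.Z q x L P.k 0 ω‖ ^ 2 * ‖hp q x L y' b ω‖ ^ 2 ∂tm ≤
      (((K4 + K3) * D) * x ^ (-P.k ^ 2)) * Real.exp (-((q * (b + 1) : ℕ) : ℝ)) := by
    intro b hb
    rw [Finset.mem_range] at hb
    obtain ⟨t, ht⟩ : ∃ t : ℝ, t = Real.exp (-((q * (b + 1) : ℕ) : ℝ)) := ⟨_, rfl⟩
    have ht0 : 0 < t := by rw [ht]; exact Real.exp_pos _
    have hrb : RB fun ω => ‖hp q x L y' b ω‖ ^ 2 := (hp_cc q x L y' b).norm.pow 2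
    have h5 := hpe q hq3' x hx.le L y' b hb
    have ht2 : t⁻¹ * (K3 * Real.exp (-(2 * ((q * (b + 1) : ℕ) : ℝ)))) = K3 * t := by
      have e1 : Real.exp (-(2 * ((q * (b + 1) : ℕ) : ℝ))) = t * t := by
        rw [ht, ← Real.exp_add]
        congr 1
        ring
      rw [e1]
      field_simp
    have h6 : Tb A x L (fun ω => (Vb C P.Z q x L 0 ω ^ 2) ^ 2) K4 := by
      have h7 := (hV q hq3' x hx.le L 0).1
      simp only [← pow_mul]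
      exact Tb.le hx.le h7 (by rw [hK4, Real.exp_le_exp]; exact mul_le_mul_of_nonneg_left (uq_le q) hK1)
    have h7 := Tb.am hx.le ((Vb_rb hx.le L 0).pow 2) hrb ht0 h6 h5
    rw [ht2] at h7
    have h8 := hXb x hx hx1 L hP _ _ (by positivity) (Tb.le hx.le h7 (by linarith : t * K4 + K3 * t ≤ (K4 + K3) * t))
    have h9 := hE (A := A) (Y := 0) (by rw [hA]) le_rfl q hq3' x hx L _ hrb (fun ω => by positivity) _ h8
    refine h9.trans (le_of_eq ?_)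
    rw [← ht]
    ring
  refine (Finset.sum_le_sum hb).trans ?_
  rw [← Finset.mul_sum]
  have h7 : ∑ b ∈ Finset.range (NB L), Real.exp (-((q * (b + 1) : ℕ) : ℝ)) ≤ uq q := by
    refine le_trans (Finset.sum_le_sum fun b _ => ?_) (ub_sum hq3' L)
    unfold ub
    have := dl_nonneg q (bk L b)
    linarith
  have h8 : 0 < x ^ (-P.k ^ 2) := by positivity
  have h9 := (hq3 q hqc).le
  calc (((K4 + K3) * D) * x ^ (-P.k ^ 2)) * ∑ b ∈ Finset.range (NB L), Real.exp (-((q * (b + 1) : ℕ) : ℝ))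
      ≤ (((K4 + K3) * D) * x ^ (-P.k ^ 2)) * uq q := by gcongr
    _ = (((K4 + K3) * D) * uq q) * x ^ (-P.k ^ 2) := by ring
    _ ≤ _ := by gcongr

/-- exponential moments of the increments under the mollifier -/
theorem Ek_exp (P : Pm) {n : ℕ} (a : Fin n → ℂ) (y : Fin n → ℝ) {lam : ℝ} (hl : 0 ≤ lam) : ∃ K : ℝ, 0 < K ∧ ∀ q : ℕ, 3 ≤ q → ∀ x : ℝ, 0 < x → x ≤ 1 →
    ∀ L : ℝ, PL L ≤ PX x → ∫ ω, ‖Ey P.Z q x L P.k 0 ω‖ ^ 2 * Real.exp (lam * ‖hG q x L a y ω‖) ∂tm ≤ K * x ^ (-P.k ^ 2) := by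
  obtain ⟨C, hC, hE⟩ := Ek_int P
  obtain ⟨A, hA⟩ : ∃ A : ℝ, A = 2 * P.k := ⟨_, rfl⟩
  obtain ⟨Y, hY⟩ : ∃ Y : ℝ, Y = ∑ j, |y j| := ⟨_, rfl⟩
  have hY0 : 0 ≤ Y := by rw [hY]; exact Finset.sum_nonneg fun j _ => abs_nonneg _
  have hyY : ∀ j, |y j| ≤ Y := fun j => by rw [hY]; exact Finset.single_le_sum (f := fun j => |y j|) (fun j _ => abs_nonneg _) (Finset.mem_univ j)
  obtain ⟨K1, hK1, hV⟩ := Tb_V (A + 4 * lam * ∑ j, ‖a j‖) hC.le P.Z 2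
  obtain ⟨D, hD, hXb⟩ := Xb_of_Tb P.k (A + 4 * lam * ∑ j, ‖a j‖) Y
  obtain ⟨E, hEd⟩ : ∃ E : ℝ, E = Real.exp (lam * ((∑ j, ‖a j‖) * (2 * (4 * K2)))) := ⟨_, rfl⟩
  have hE0 : 0 < E := by rw [hEd]; exact Real.exp_pos _
  refine ⟨E * (2 * (Real.exp (K1 * (2 + 4 * K2)) * D)), by positivity, fun q hq x hx hx1 L hP => ?_⟩
  have hrbG : RB fun ω => Real.exp (lam * ‖hG q x L a y ω‖) := (hG_cc q x L a y).norm.comp (g := fun t => Real.exp (lam * t)) (by fun_prop)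
  have hrbX : RB fun ω => Real.exp (lam * ‖hX x L a y ω‖) := (hX_cc hx.le L a y).norm.comp (g := fun t => Real.exp (lam * t)) (by fun_prop)
  have hVr : RB fun ω => Vb C P.Z q x L 0 ω ^ 2 := (Vb_rb hx.le L 0).pow 2
  refine hE (A := A) (Y := Y) (by rw [hA]) hY0 q hq x hx L _ hrbG (fun ω => (Real.exp_pos _).le) _ ?_
  have h1 := Tb.le hx.le (hV q hq x hx.le L 0).1 (Real.exp_le_exp.mpr (mul_le_mul_of_nonneg_left (uq_le q) hK1))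
  have h2 := hXb x hx hx1 L hP _ _ (by positivity) h1
  have h3 := (Xb.hX hx.le hY0 hVr (fun ω => by positivity) hl a y hyY h2).smul hE0.le
  refine Xb.mono hx.le (hVr.mul hrbG) ((RB.const E).mul (hrbX.mul hVr)) (fun ω => ?_) h3
  have h4 : Real.exp (lam * ‖hG q x L a y ω‖) ≤ E * Real.exp (lam * ‖hX x L a y ω‖) := by
    rw [hEd, ← Real.exp_add, Real.exp_le_exp, ← mul_add]
    refine mul_le_mul_of_nonneg_left ?_ hl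
    have h5 := hG_near q hx.le L a y ω
    have h6 := norm_sub_norm_le (hG q x L a y ω) (hX x L a y ω)
    rw [norm_sub_rev] at h6
    have h7 := dl_le' (I := pr (PL L)) PL_two hq
    have h8 : (∑ j, ‖a j‖) * (2 * dl q (pr (PL L))) ≤ (∑ j, ‖a j‖) * (2 * (4 * K2)) :=
      mul_le_mul_of_nonneg_left (by linarith) (Finset.sum_nonneg fun j _ => norm_nonneg _)
    linarith
  have h5 : 0 ≤ Vb C P.Z q x L 0 ω ^ 2 := by positivity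
  calc Vb C P.Z q x L 0 ω ^ 2 * Real.exp (lam * ‖hG q x L a y ω‖) ≤ Vb C P.Z q x L 0 ω ^ 2 * (E * Real.exp (lam * ‖hX x L a y ω‖)) := by gcongr
    _ = _ := by ring

/-- the weighted majorant of the tails -/
theorem MM_G (P : Pm) {n : ℕ} (hn : 1 ≤ n) (c : Fin n → ℂ) (y : Fin n → ℝ) {n' : ℕ} (a : Fin n' → ℂ) (y' : Fin n' → ℝ) : ∃ K : ℝ, 0 < K ∧ ∃ q0 : ℕ, 3 ≤ q0 ∧ ∀ q : ℕ, q0 ≤ q →
    ∀ x : ℝ, 0 < x → x ≤ 1 → ∀ L : ℝ, PL L ≤ PX x → MM P q x L 1 (Sc P.Z q x L c y) (fun ω => ‖hG q x L a y' ω‖ ^ 2) ≤ K * x ^ (-P.k ^ 2) := by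
  obtain ⟨C, hC, hM⟩ := MM_S P
  obtain ⟨A, hA⟩ : ∃ A : ℝ, A = 2 * P.m1 + 2 * P.Z := ⟨_, rfl⟩
  obtain ⟨K1, hK1, q1, hq1, hs1⟩ := Tb_std (A + 4 * 1 * ∑ j, ‖a j‖) hC.le P.hZ P.m1
  obtain ⟨K0, hK0, q2, hq2, hs0⟩ := Tb_std (A + 4 * 1 * ∑ j, ‖a j‖) hC.le P.hZ P.m0
  obtain ⟨Y, hY⟩ : ∃ Y : ℝ, Y = (∑ j, |y j|) + ∑ j, |y' j| := ⟨_, rfl⟩
  have hs1' : 0 ≤ ∑ j, |y j| := Finset.sum_nonneg fun j _ => abs_nonneg _
  have hs2' : 0 ≤ ∑ j, |y' j| := Finset.sum_nonneg fun j _ => abs_nonneg _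
  have hY0 : 0 ≤ Y := by rw [hY]; positivity
  have hyY : ∀ j, |y j| ≤ Y := fun j => by
    have := Finset.single_le_sum (f := fun j => |y j|) (fun j _ => abs_nonneg _) (Finset.mem_univ j)
    rw [hY]
    linarith
  have hyY' : ∀ j, |y' j| ≤ Y := fun j => by
    have := Finset.single_le_sum (f := fun j => |y' j|) (fun j _ => abs_nonneg _) (Finset.mem_univ j)
    rw [hY]
    linarith
  obtain ⟨D, hD, hXb⟩ := Xb_of_Tb P.k (A + 4 * 1 * ∑ j, ‖a j‖) Y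
  obtain ⟨M, hM0⟩ : ∃ M : ℝ, M = ((∑ j, ‖c j‖) ^ (2 * P.m1) + (∑ j, ‖c j‖) ^ (2 * P.m0)) * n := ⟨_, rfl⟩
  have hMn : 0 ≤ M := by rw [hM0]; positivity
  obtain ⟨E, hEd⟩ : ∃ E : ℝ, E = 2 * Real.exp ((∑ j, ‖a j‖) * (2 * (4 * K2))) := ⟨_, rfl⟩
  have hE0 : 0 < E := by rw [hEd]; positivity
  refine ⟨M * (E * (2 * ((K1 + K0) * D))) + 1, by positivity, max q1 q2, le_max_of_le_left hq1, fun q hq x hx hx1 L hP => ?_⟩
  have hqa : q1 ≤ q := (le_max_left _ _).trans hq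
  have hqb : q2 ≤ q := (le_max_right _ _).trans hq
  have hq3' : 3 ≤ q := by omega
  have hrbG : RB fun ω => ‖hG q x L a y' ω‖ ^ 2 := (hG_cc q x L a y').norm.pow 2
  have hrbX : RB fun ω => Real.exp (1 * ‖hX x L a y' ω‖) := (hX_cc hx.le L a y').norm.comp (g := fun t => Real.exp (1 * t)) (by fun_prop)
  have hGE : ∀ ω, ‖hG q x L a y' ω‖ ^ 2 ≤ E * Real.exp (1 * ‖hX x L a y' ω‖) := by
    intro ω
    have h1 : ‖hG q x L a y' ω‖ ^ 2 ≤ 2 * Real.exp ‖hG q x L a y' ω‖ := by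
      have := Real.quadratic_le_exp_of_nonneg (norm_nonneg (hG q x L a y' ω))
      have h0 := norm_nonneg (hG q x L a y' ω)
      nlinarith
    refine h1.trans ?_
    rw [hEd, mul_assoc, ← Real.exp_add, one_mul]
    refine mul_le_mul_of_nonneg_left (Real.exp_le_exp.mpr ?_) (by norm_num)
    have h5 := hG_near q hx.le L a y' ω
    have h6 := norm_sub_norm_le (hG q x L a y' ω) (hX x L a y' ω)
    rw [norm_sub_rev] at h6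
    have h7 := dl_le' (I := pr (PL L)) PL_two hq3'
    have h8 : (∑ j, ‖a j‖) * (2 * dl q (pr (PL L))) ≤ (∑ j, ‖a j‖) * (2 * (4 * K2)) :=
      mul_le_mul_of_nonneg_left (by linarith) (Finset.sum_nonneg fun j _ => norm_nonneg _)
    linarith
  have key : ∀ (m : ℕ) (z K : ℝ), 0 ≤ K → (∀ y, Tb (A + 4 * 1 * ∑ j, ‖a j‖) x L (fun ω => Vb C P.Z q x L y ω ^ (2 * m) * rho P.Z q x L z ω) K) → K ≤ K1 + K0 → ∀ j,
      Xb P.k A Y x L (fun ω => Vb C P.Z q x L (y j) ω ^ (2 * m) * rho P.Z q x L z ω * ‖hG q x L a y' ω‖ ^ 2) (E * (2 * ((K1 + K0) * D))) := by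
    intro m z K hK hT hKK j
    have hrv : RB fun ω => Vb C P.Z q x L (y j) ω ^ (2 * m) * rho P.Z q x L z ω := ((Vb_rb hx.le L (y j)).pow (2 * m)).mul (rho_rb P.Z q hx.le L z)
    have hrv0 : ∀ ω, 0 ≤ Vb C P.Z q x L (y j) ω ^ (2 * m) * rho P.Z q x L z ω := fun ω => by
      have h1 := Vb_one hC.le P.Z q x L (y j) ω
      have h2 := rho_nonneg P.Z q x L z ω
      positivity
    have h2 := hXb x hx hx1 L hP _ _ (by positivity) (Tb.le hx.le (hT (y j)) hKK)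
    have h3 := (Xb.hX hx.le hY0 hrv hrv0 zero_le_one a y' hyY' h2).smul hE0.le
    refine Xb.mono hx.le (hrv.mul hrbG) ((RB.const E).mul (hrbX.mul hrv)) (fun ω => ?_) h3
    have h4 := mul_le_mul_of_nonneg_left (hGE ω) (hrv0 ω)
    refine h4.trans (le_of_eq ?_)
    ring
  have a1 := key P.m1 (P.k - P.m1) K1 hK1.le (fun y => (hs1 q hqa x hx.le L y _ P.hz1).2) (by linarith)
  have a0 := key P.m0 (P.k - P.m0) K0 hK0.le (fun y => (hs0 q hqb x hx.le L y _ P.hz0).2) (by linarith)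
  rw [hA] at a1 a0
  have h6 := hM hY0 q hq3' x hx L hn c y hyY (fun ω => ‖hG q x L a y' ω‖ ^ 2) hrbG (fun ω => by positivity) _ a1 a0
  rw [← hM0] at h6
  refine h6.trans ?_
  have h8 : 0 < x ^ (-P.k ^ 2) := by positivity
  nlinarith

end Pool.Agent.H470
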