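import Pool.Agent.H470.Wa13

set_option autoImplicit false

/-! Approximation of the smooth sums: uniform bounds. -/

namespace Pool.Agent.H470

open MeasureTheory Filter Topology ProbabilityTheory Set
open scoped ENNReal
open Pool.Agent.TH806 (ec ec_norm ec_cont uu integrable_uu)

lemma arc_step {y h : ℝ} (h0 : 0 ≤ h) (h1 : h ≤ 1) : h * ((1 + |y|) ^ 2)⁻¹ ≤ 4 * (Real.arctan (y + h) - Real.arctan y) := by
  have e1 := integral_inv_one_add_sq (a := y) (b := y + h)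
  rw [← e1]
  have h2 : ∫ _ in y..(y + h), ((1 + |y|) ^ 2)⁻¹ / 4 ≤ ∫ u in y..(y + h), (1 + u ^ 2)⁻¹ := by
    refine intervalIntegral.integral_mono_on (by linarith) intervalIntegrable_const ?_ fun u hu => ?_
    · exact (Continuous.inv₀ (by fun_prop) fun u => by positivity).intervalIntegrable _ _
    · have h3 : 1 + u ^ 2 ≤ 4 * (1 + |y|) ^ 2 := by
        have h4 : |u| ≤ |y| + 1 := by
          have h5 : |u - y| ≤ 1 := by
            rw [abs_le]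
            constructor <;> linarith [hu.1, hu.2]
          have h6 := abs_sub_abs_le_abs_sub u y
          linarith
        have h7 : u ^ 2 ≤ (|y| + 1) ^ 2 := by
          rw [← sq_abs u]
          exact pow_le_pow_left₀ (abs_nonneg _) h4 2
        nlinarith [abs_nonneg y]
      have h8 := inv_anti₀ (by positivity : 0 < 1 + u ^ 2) h3
      rw [mul_inv] at h8
      linarith
  rw [intervalIntegral.integral_const, smul_eq_mul] at h2
  linarith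

/-- the Riemann sums are uniformly bounded -/
lemma wt_bd {φ : ℝ → ℝ} (h : Sm φ) (A : ℕ) : ∃ D : ℝ, 0 < D ∧ ∀ (Q : ℝ) (m : ℕ), 0 ≤ Q → 0 < m → 2 * Q / m ≤ 1 →
    ∑ j, ‖wt φ Q m j‖ * (1 + |nd Q m j|) ^ A ≤ D := by
  obtain ⟨C, hC, hd⟩ := ps_decay (A + 2) h
  refine ⟨C * (4 * Real.pi) + 1, by positivity, fun Q m hQ hm hQm => ?_⟩
  have hm0 : (0:ℝ) < m := by exact_mod_cast hm
  obtain ⟨s, hs⟩ : ∃ s : ℝ, s = 2 * Q / m := ⟨_, rfl⟩
  have hs0 : 0 ≤ s := by rw [hs]; positivity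
  have h1 : ∀ j ∈ Finset.univ, ‖wt φ Q m j‖ * (1 + |nd Q m j|) ^ A ≤ C * (4 * (Real.arctan (-Q + s * ((j:ℕ) + 1 : ℕ)) - Real.arctan (-Q + s * (j:ℕ)))) := by
    intro j _
    have h2 := hd (nd Q m j)
    have h3 := arc_step (y := nd Q m j) hs0 (by rw [hs]; exact hQm)
    have e1 : nd Q m j + s = -Q + s * ((j:ℕ) + 1 : ℕ) := by
      unfold nd
      rw [hs]
      push_cast
      ring
    have e2 : nd Q m j = -Q + s * (j:ℕ) := by
      unfold nd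
      rw [hs]
    rw [e1] at h3
    have h4 : ‖wt φ Q m j‖ ≤ s * ‖ps φ (nd Q m j)‖ := by
      unfold wt
      rw [norm_mul, norm_mul, ← hs]
      have h5 : ‖((1 / (2 * Real.pi) : ℝ) : ℂ)‖ ≤ 1 := two_pi_le.trans (by norm_num)
      have h6 : ‖((s : ℝ) : ℂ)‖ = s := by rw [Complex.norm_real, Real.norm_of_nonneg hs0]
      rw [h6]
      have h7 : 0 ≤ s * ‖ps φ (nd Q m j)‖ := by positivity
      nlinarith [norm_nonneg ((1 / (2 * Real.pi) : ℝ) : ℂ)]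
    have h5 : 0 < (1 + |nd Q m j|) := by positivity
    have h6 : ‖ps φ (nd Q m j)‖ * (1 + |nd Q m j|) ^ A ≤ C * ((1 + |nd Q m j|) ^ 2)⁻¹ := by
      rw [← div_eq_mul_inv, le_div_iff₀ (by positivity)]
      refine le_trans (le_of_eq ?_) h2
      ring
    have h7 : 0 ≤ Real.arctan (-Q + s * ((j:ℕ) + 1 : ℕ)) - Real.arctan (-Q + s * (j:ℕ)) := by
      rw [sub_nonneg]
      refine Real.arctan_strictMono.monotone ?_
      push_cast
      linarith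
    rw [← e2] at h7 ⊢
    calc ‖wt φ Q m j‖ * (1 + |nd Q m j|) ^ A ≤ s * ‖ps φ (nd Q m j)‖ * (1 + |nd Q m j|) ^ A := by gcongr
      _ = s * (‖ps φ (nd Q m j)‖ * (1 + |nd Q m j|) ^ A) := by ring
      _ ≤ s * (C * ((1 + |nd Q m j|) ^ 2)⁻¹) := by gcongr
      _ = C * (s * ((1 + |nd Q m j|) ^ 2)⁻¹) := by ring
      _ ≤ _ := by gcongr
  refine (Finset.sum_le_sum h1).trans ?_
  rw [← Finset.mul_sum, ← Finset.mul_sum]
  have h2 : ∑ j : Fin m, (Real.arctan (-Q + s * ((j:ℕ) + 1 : ℕ)) - Real.arctan (-Q + s * (j:ℕ))) =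
      Real.arctan (-Q + s * (m:ℕ)) - Real.arctan (-Q + s * (0:ℕ)) := by
    rw [Fin.sum_univ_eq_sum_range (fun j : ℕ => Real.arctan (-Q + s * (j + 1 : ℕ)) - Real.arctan (-Q + s * (j:ℕ))) m]
    exact Finset.sum_range_sub (fun j : ℕ => Real.arctan (-Q + s * (j:ℕ))) m
  rw [h2]
  have h5 : Real.arctan (-Q + s * (m:ℕ)) - Real.arctan (-Q + s * (0:ℕ)) ≤ Real.pi := by
    have gen : ∀ u v : ℝ, Real.arctan u - Real.arctan v ≤ Real.pi := fun u v => by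
      have h3 := Real.arctan_lt_pi_div_two u
      have h4 := Real.neg_pi_div_two_lt_arctan v
      linarith
    exact gen _ _
  have h6 := mul_le_mul_of_nonneg_left h5 hC
  linarith

lemma jensum {n : ℕ} (c E : Fin n → ℂ) {m : ℕ} (hm : 1 ≤ m) {D : ℝ} (hD : ∑ j, ‖c j‖ ≤ D) :
    ‖∑ j, c j * E j‖ ^ (2 * m) ≤ D ^ (2 * m - 1) * ∑ j, ‖c j‖ * ‖E j‖ ^ (2 * m) := by
  obtain ⟨s, hs⟩ : ∃ s : ℝ, s = ∑ j, ‖c j‖ := ⟨_, rfl⟩
  have hs0 : 0 ≤ s := by rw [hs]; exact Finset.sum_nonneg fun j _ => norm_nonneg _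
  rw [← hs] at hD
  have h1 : ‖∑ j, c j * E j‖ ≤ ∑ j, ‖c j‖ * ‖E j‖ := by
    refine (norm_sum_le _ _).trans (le_of_eq ?_)
    exact Finset.sum_congr rfl fun j _ => norm_mul _ _
  have hnn : 0 ≤ ∑ j, ‖c j‖ * ‖E j‖ ^ (2 * m) := Finset.sum_nonneg fun j _ => by positivity
  rcases eq_or_lt_of_le hs0 with h2 | h2
  · have h3 : ∀ j, ‖c j‖ = 0 := fun j => by
      have h4 := Finset.single_le_sum (f := fun j => ‖c j‖) (fun j _ => norm_nonneg _) (Finset.mem_univ j)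
      rw [← hs, ← h2] at h4
      exact le_antisymm h4 (norm_nonneg _)
    have h4 : ∑ j, ‖c j‖ * ‖E j‖ = 0 := Finset.sum_eq_zero fun j _ => by rw [h3 j, zero_mul]
    rw [h4] at h1
    have h5 : ‖∑ j, c j * E j‖ = 0 := le_antisymm h1 (norm_nonneg _)
    rw [h5, zero_pow (by omega)]
    exact mul_nonneg (pow_nonneg (hs0.trans hD) _) hnn
  · have h4 := Real.pow_arith_mean_le_arith_mean_pow Finset.univ (fun j => ‖c j‖ / s) (fun j => ‖E j‖) (fun j _ => by positivity)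
      (by rw [← Finset.sum_div, ← hs, div_self h2.ne']) (fun j _ => norm_nonneg _) (2 * m)
    have e1 : ∑ j, ‖c j‖ / s * ‖E j‖ = (∑ j, ‖c j‖ * ‖E j‖) / s := by
      rw [Finset.sum_div]
      exact Finset.sum_congr rfl fun j _ => by ring
    have e2 : ∑ j, ‖c j‖ / s * ‖E j‖ ^ (2 * m) = (∑ j, ‖c j‖ * ‖E j‖ ^ (2 * m)) / s := by
      rw [Finset.sum_div]
      exact Finset.sum_congr rfl fun j _ => by ring
    rw [e1, e2, div_pow, div_le_div_iff₀ (by positivity) h2] at h4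
    have e3 : s ^ (2 * m) = s * s ^ (2 * m - 1) := by
      rw [← pow_succ']
      congr 1
      omega
    have h5 : (∑ j, ‖c j‖ * ‖E j‖) ^ (2 * m) ≤ s ^ (2 * m - 1) * ∑ j, ‖c j‖ * ‖E j‖ ^ (2 * m) := by
      rw [e3] at h4
      have h6 : (∑ j, ‖c j‖ * ‖E j‖) ^ (2 * m) * s ≤ (s ^ (2 * m - 1) * ∑ j, ‖c j‖ * ‖E j‖ ^ (2 * m)) * s := by
        refine h4.trans (le_of_eq (by ring))
      exact le_of_mul_le_mul_right h6 h2
    refine (pow_le_pow_left₀ (norm_nonneg _) h1 _).trans (h5.trans ?_)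
    exact mul_le_mul_of_nonneg_right (pow_le_pow_left₀ hs0 hD _) hnn

lemma Il_cc {φ : ℝ → ℝ} (h : Sm φ) {B x : ℝ} (hx : 0 < x) (hB : ∀ u, B ≤ u → φ u = 0) {P : ℕ} (hP : Real.exp (B / x) ≤ P) : CC (Il φ x (pr P)) := by
  have e1 : Il φ x (pr P) = WS (fun n => φ (x * Real.log n)) P := funext fun ω => Il_WS h hx hB hP hP ω
  rw [e1]
  exact CC.sum _ fun n _ => (CC.const _).mul ⟨ch_cont n, 1, fun ω => (ch_norm n ω).le⟩

/-- moments of the difference -/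
theorem dl_int {φ : ℝ → ℝ} (h : Sm φ) {m : ℕ} (hm : 1 ≤ m) (z : ℝ) {A : ℝ} (hA : 2 * m + 2 * |z| ≤ A) : ∃ C : ℝ, 0 < C ∧ ∀ D : ℝ, ∀ x : ℝ, 0 < x → x ≤ 1 → ∀ L : ℝ, PL L ≤ PX x →
    CC (Il φ x (pr (PL L))) → ∀ f : (ℕ → ℝ) → ℝ, RB f → (∀ ω, 0 ≤ f ω) → ∀ K : ℝ, 0 ≤ K → Tb A x L f K →
    ∀ (n : ℕ) (c : Fin n → ℂ) (y : Fin n → ℝ), ∑ j, ‖c j‖ * (1 + |y j|) ^ ⌈A ^ 2⌉₊ ≤ D →
    ∫ ω, ‖Il φ x (pr (PL L)) ω - ∑ j, c j * Fl (pr (PL L)) x (y j) ω‖ ^ (2 * m) * (Real.exp (2 * z * (Xs (pr (PL L)) (sp x 0) ω).re) * f ω) ∂tm ≤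
      C * (1 + D ^ (2 * m)) * K * x ^ (-(m + z) ^ 2) := by
  obtain ⟨C0, hC0, h0⟩ := ex_up A
  obtain ⟨C1, hC1, h1⟩ := Il_bd h hm ⌈A ^ 2⌉₊
  refine ⟨2 ^ (2 * m) * ((C1 + 1) * (C0 * 2 ^ ⌈A ^ 2⌉₊)), by positivity, fun D x hx hx1 L hP hcc f hf hf0 K hK hT n c y hD => ?_⟩
  obtain ⟨A', hA'⟩ : ∃ A' : ℕ, A' = ⌈A ^ 2⌉₊ := ⟨_, rfl⟩
  rw [← hA'] at hD h1 ⊢
  obtain ⟨M, hM⟩ : ∃ M : ℝ, M = K * (C0 * 2 ^ A') * x ^ (-(m + z) ^ 2) := ⟨_, rfl⟩
  have hM0 : 0 ≤ M := by rw [hM]; positivity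
  have hcs : ∑ j, ‖c j‖ ≤ D := by
    refine le_trans (Finset.sum_le_sum fun j _ => ?_) hD
    have h3 : 1 ≤ (1 + |y j|) ^ A' := one_le_pow₀ (by have := abs_nonneg (y j); linarith)
    nlinarith [norm_nonneg (c j)]
  have hD0 : 0 ≤ D := (Finset.sum_nonneg fun j _ => norm_nonneg _).trans hcs
  have hg : RB fun ω => Real.exp (2 * z * (Xs (pr (PL L)) (sp x 0) ω).re) * f ω := ((Xs_cc PL_two hx.le 0).re.comp (g := fun t => Real.exp (2 * z * t)) (by fun_prop)).mul hf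
  have hg0 : ∀ ω, 0 ≤ Real.exp (2 * z * (Xs (pr (PL L)) (sp x 0) ω).re) * f ω := fun ω => mul_nonneg (Real.exp_pos _).le (hf0 ω)
  -- one point
  have key : ∀ y : ℝ, ∫ ω, ‖Fl (pr (PL L)) x y ω‖ ^ (2 * m) * (Real.exp (2 * z * (Xs (pr (PL L)) (sp x 0) ω).re) * f ω) ∂tm ≤ M * (1 + |y|) ^ A' := by
    intro y
    simp_rw [← mul_assoc, exI_two]
    refine (hT 2 _ _ (by rw [two_sum]; exact hA)).trans ?_
    have h4 := h0 x hx hx1 (pr (PL L)) (pr_mono hP) 2 (Fin.cons ((2 * m : ℝ) : ℂ) (fun _ : Fin 1 => ((2 * z : ℝ) : ℂ)) : Fin 2 → ℂ) (Fin.cons y (fun _ : Fin 1 => 0) : Fin 2 → ℝ)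
      (by rw [two_sum]; exact hA) (2 * (1 + |y|)) (by have := abs_nonneg y; linarith) (fun i j => by
        have h5 : ∀ i, |(Fin.cons y (fun _ : Fin 1 => 0) : Fin 2 → ℝ) i| ≤ |y| := fun i => by
          refine Fin.cases ?_ (fun i => ?_) i
          · simp only [Fin.cons_zero]; exact le_rfl
          · simp only [Fin.cons_succ, abs_zero]; exact abs_nonneg _
        refine (norm_add_le _ _).trans ?_
        rw [norm_mul, Complex.norm_I, mul_one, Complex.norm_two, Complex.norm_real]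
        have h2 := norm_sub_le ((Fin.cons y (fun _ : Fin 1 => 0) : Fin 2 → ℝ) i) ((Fin.cons y (fun _ : Fin 1 => 0) : Fin 2 → ℝ) j)
        rw [Real.norm_eq_abs, Real.norm_eq_abs, Real.norm_eq_abs] at h2
        rw [Real.norm_eq_abs]
        linarith [h5 i, h5 j])
    rw [two_sum'] at h4
    have e1 : -((2 * |(m:ℝ) + z|) ^ 2 / 4) = -(m + z) ^ 2 := by
      rw [mul_pow, sq_abs]
      ring
    rw [e1] at h4
    have h5 : (2 * (1 + |y|)) ^ (A ^ 2) ≤ 2 ^ A' * (1 + |y|) ^ A' := by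
      rw [← mul_pow, ← Real.rpow_natCast (2 * (1 + |y|)) A']
      refine Real.rpow_le_rpow_of_exponent_le (by have := abs_nonneg y; linarith) ?_
      rw [hA']
      exact Nat.le_ceil _
    have h6 : 0 < x ^ (-((m:ℝ) + z) ^ 2) := by positivity
    calc K * _ ≤ K * (C0 * (2 * (1 + |y|)) ^ (A ^ 2) * x ^ (-((m:ℝ) + z) ^ 2)) := by gcongr
      _ ≤ K * (C0 * (2 ^ A' * (1 + |y|) ^ A') * x ^ (-((m:ℝ) + z) ^ 2)) := by gcongr
      _ = _ := by rw [hM]; ring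
  have hIl := h1 (pr (PL L)) PL_two x hx.le _ hg hg0 M hM0 key
  have hsumcc : CC fun ω => ∑ j, c j * Fl (pr (PL L)) x (y j) ω := CC.sum _ fun j _ => (CC.const _).mul (Fl_cc PL_two hx.le (y j))
  have hFr : ∀ j, RB fun ω => ‖Fl (pr (PL L)) x (y j) ω‖ ^ (2 * m) * (Real.exp (2 * z * (Xs (pr (PL L)) (sp x 0) ω).re) * f ω) := fun j =>
    ((Fl_cc PL_two hx.le (y j)).norm.pow _).mul hg
  have hS : ∫ ω, ‖∑ j, c j * Fl (pr (PL L)) x (y j) ω‖ ^ (2 * m) * (Real.exp (2 * z * (Xs (pr (PL L)) (sp x 0) ω).re) * f ω) ∂tm ≤ D ^ (2 * m) * M := by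
    have h3 : ∀ ω, ‖∑ j, c j * Fl (pr (PL L)) x (y j) ω‖ ^ (2 * m) * (Real.exp (2 * z * (Xs (pr (PL L)) (sp x 0) ω).re) * f ω) ≤
        D ^ (2 * m - 1) * ∑ j, ‖c j‖ * (‖Fl (pr (PL L)) x (y j) ω‖ ^ (2 * m) * (Real.exp (2 * z * (Xs (pr (PL L)) (sp x 0) ω).re) * f ω)) := by
      intro ω
      have h4 := mul_le_mul_of_nonneg_right (jensum c (fun j => Fl (pr (PL L)) x (y j) ω) hm hcs) (hg0 ω)
      refine h4.trans (le_of_eq ?_)
      rw [mul_assoc, Finset.sum_mul]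
      congr 1
      exact Finset.sum_congr rfl fun j _ => by ring
    refine (integral_mono ((hsumcc.norm.pow _).mul hg).int ((RB.const _).mul (RB.sum _ fun j _ => (RB.const _).mul (hFr j))).int h3).trans ?_
    rw [integral_const_mul, integral_finsetSum _ fun j _ => ((RB.const _).mul (hFr j)).int]
    have h4 : ∀ j ∈ Finset.univ, ∫ ω, ‖c j‖ * (‖Fl (pr (PL L)) x (y j) ω‖ ^ (2 * m) * (Real.exp (2 * z * (Xs (pr (PL L)) (sp x 0) ω).re) * f ω)) ∂tm ≤ (‖c j‖ * (1 + |y j|) ^ A') * M := by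
      intro j _
      rw [integral_const_mul]
      have := mul_le_mul_of_nonneg_left (key (y j)) (norm_nonneg (c j))
      refine this.trans (le_of_eq (by ring))
    have h5 := Finset.sum_le_sum h4
    rw [← Finset.sum_mul] at h5
    have h6 := h5.trans (mul_le_mul_of_nonneg_right hD hM0)
    have h7 := mul_le_mul_of_nonneg_left h6 (pow_nonneg hD0 (2 * m - 1))
    refine h7.trans (le_of_eq ?_)
    have e3 : D ^ (2 * m) = D ^ (2 * m - 1) * D := by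
      rw [← pow_succ]
      congr 1
      omega
    rw [e3]
    ring
  have h8 : ∀ ω, ‖Il φ x (pr (PL L)) ω - ∑ j, c j * Fl (pr (PL L)) x (y j) ω‖ ^ (2 * m) * (Real.exp (2 * z * (Xs (pr (PL L)) (sp x 0) ω).re) * f ω) ≤
      2 ^ (2 * m) * (‖Il φ x (pr (PL L)) ω‖ ^ (2 * m) * (Real.exp (2 * z * (Xs (pr (PL L)) (sp x 0) ω).re) * f ω) +
        ‖∑ j, c j * Fl (pr (PL L)) x (y j) ω‖ ^ (2 * m) * (Real.exp (2 * z * (Xs (pr (PL L)) (sp x 0) ω).re) * f ω)) := by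
    intro ω
    have h9 := pow_le_pow_left₀ (norm_nonneg _) (norm_sub_le (Il φ x (pr (PL L)) ω) (∑ j, c j * Fl (pr (PL L)) x (y j) ω)) (2 * m)
    have h10 := add_pow_le (norm_nonneg (Il φ x (pr (PL L)) ω)) (norm_nonneg (∑ j, c j * Fl (pr (PL L)) x (y j) ω)) (2 * m)
    have h11 : (2:ℝ) ^ (2 * m - 1) ≤ 2 ^ (2 * m) := pow_le_pow_right₀ (by norm_num) (by omega)
    have h12 : 0 ≤ ‖Il φ x (pr (PL L)) ω‖ ^ (2 * m) + ‖∑ j, c j * Fl (pr (PL L)) x (y j) ω‖ ^ (2 * m) := by positivity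
    have h13 := mul_le_mul_of_nonneg_right (h9.trans (h10.trans (mul_le_mul_of_nonneg_right h11 h12))) (hg0 ω)
    refine h13.trans (le_of_eq (by ring))
  have hr1 : RB fun ω => ‖Il φ x (pr (PL L)) ω‖ ^ (2 * m) * (Real.exp (2 * z * (Xs (pr (PL L)) (sp x 0) ω).re) * f ω) := (hcc.norm.pow _).mul hg
  have hr2 : RB fun ω => ‖∑ j, c j * Fl (pr (PL L)) x (y j) ω‖ ^ (2 * m) * (Real.exp (2 * z * (Xs (pr (PL L)) (sp x 0) ω).re) * f ω) := (hsumcc.norm.pow _).mul hg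
  refine (integral_mono (((hcc.sub hsumcc).norm.pow _).mul hg).int ((RB.const _).mul (hr1.add hr2)).int h8).trans ?_
  rw [integral_const_mul, integral_add hr1.int hr2.int]
  have h9 : C1 * M + D ^ (2 * m) * M ≤ (C1 + 1) * (1 + D ^ (2 * m)) * M := by
    have : 0 ≤ D ^ (2 * m) := by positivity
    nlinarith [mul_nonneg this hM0, mul_nonneg (mul_nonneg hC1.le this) hM0]
  have h10 := mul_le_mul_of_nonneg_left ((add_le_add hIl hS).trans h9) (show (0:ℝ) ≤ 2 ^ (2 * m) by positivity)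
  refine h10.trans (le_of_eq ?_)
  rw [hM]
  ring

end Pool.Agent.H470
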