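import Pool.Agent.H470.Wa14

set_option autoImplicit false

/-! Approximation of the smooth sums by mollifiers. -/

namespace Pool.Agent.H470

open MeasureTheory Filter Topology ProbabilityTheory Set
open scoped ENNReal
open Pool.Agent.TH806 (ec ec_norm ec_cont uu integrable_uu)

lemma PL_le {q : ℕ} {x : ℝ} (hx : 0 < x) (hqx : q * x ≤ 1) : PL (q / x) ≤ PX x := by
  have h1 : Real.exp (q / x) ≤ PX x := by
    refine (Real.exp_le_exp.mpr ?_).trans (PX_exp hx)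
    rw [div_le_div_iff₀ hx (by positivity)]
    nlinarith
  have h2 : ((PL (q / x) : ℕ) : ℝ) ≤ Real.exp (q / x) := Nat.floor_le (Real.exp_pos _).le
  exact_mod_cast h2.trans h1

lemma Fp_sub (x y L : ℝ) (hP : PL L ≤ PX x) (ω : ℕ → ℝ) :
    Fp x y ω - Fl (pr (PL L)) x y ω = Fl (pr (PL L)) x y ω * (Complex.exp (Xs (JJ' x L) (sp x y) ω) - 1) := by
  unfold Fp Xp Fl JJ'
  rw [Xs_split (pr_mono hP), Complex.exp_add]
  ring

lemma exp_sub_le (w : ℂ) : ‖Complex.exp w - 1‖ ≤ ‖w‖ * Real.exp ‖w‖ := by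
  have h5 := Complex.norm_exp_sub_sum_le_norm_mul_exp w 1
  simpa using h5

lemma Fl_mass {k : ℝ} (hk : 0 < k) : ∃ C : ℝ, 0 < C ∧ ∀ x : ℝ, 0 < x → x ≤ 1 → ∀ I : Finset ℕ, I ⊆ pr (PX x) → ∀ y : ℝ,
    ∫ ω, ‖Fl I x y ω‖ ^ (2 * k) ∂tm ≤ C * x ^ (-k ^ 2) := by
  obtain ⟨C, hC, h⟩ := ex_up (2 * k)
  refine ⟨C * 2 ^ ((2 * k) ^ 2), by positivity, fun x hx hx1 I hI y => ?_⟩
  have h1 := h x hx hx1 I hI 1 (fun _ => ((2 * k : ℝ) : ℂ)) (fun _ => y) (by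
    rw [Fin.sum_univ_one, Complex.norm_real, Real.norm_of_nonneg (by positivity)]) 2 le_rfl (fun i j => by simp)
  rw [Fin.sum_univ_one, Complex.norm_real, Real.norm_of_nonneg (by positivity)] at h1
  have e1 : -((2 * k) ^ 2 / 4) = -k ^ 2 := by ring
  rw [e1] at h1
  refine le_trans (le_of_eq ?_) h1
  congr 1
  funext ω
  unfold Fl exI
  rw [Fin.sum_univ_one, Complex.norm_exp, ← Real.exp_mul, Complex.re_ofReal_mul]
  congr 1
  ring

lemma Fl_dep (I : Finset ℕ) (x y : ℝ) {ω ω' : ℕ → ℝ} (h : ∀ p ∈ I, ω p = ω' p) : Fl I x y ω = Fl I x y ω' := by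
  unfold Fl
  rw [Xs_dep I _ h]

lemma JJ'_disj (x L : ℝ) : Disjoint (pr (PL L)) (JJ' x L) := Finset.disjoint_sdiff

lemma XJ_cc {x : ℝ} (hx : 0 ≤ x) (L y : ℝ) : CC (Xs (JJ' x L) (sp x y)) := Xs_cc JJ'_two hx y

theorem FF {k : ℝ} (hk : 0 < k) {e : ℝ} (he : 0 < e) : ∃ q0 : ℕ, 3 ≤ q0 ∧ ∀ q : ℕ, q0 ≤ q → ∀ x : ℝ, 0 < x → x ≤ 1 / 2 → q * x ≤ 1 → ∀ y : ℝ,
    nr k x (fun ω => Fp x y ω - Fl (pr (PL (q / x))) x y ω) ≤ e := by
  obtain ⟨C1, hC1, h1⟩ := Fl_mass hk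
  obtain ⟨C2, hC2, h2⟩ := rest_e (c := 2 * k) (by positivity)
  have hkp := kp_pos hk
  obtain ⟨M, hM⟩ : ∃ M : ℝ, M = 2 ^ (k ^ 2) * C1 * C2 := ⟨_, rfl⟩
  have hM0 : 0 < M := by rw [hM]; positivity
  obtain ⟨e', he'⟩ : ∃ e' : ℝ, e' = e ^ (1 / kp k) := ⟨_, rfl⟩
  have he0 : 0 < e' := by rw [he']; positivity
  obtain ⟨δ, hδ⟩ : ∃ δ : ℝ, δ = (e' / (2 * M)) ^ (1 / (2 * k)) := ⟨_, rfl⟩
  have hδ0 : 0 < δ := by rw [hδ]; positivity
  have hδk : δ ^ (2 * k) = e' / (2 * M) := by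
    rw [hδ, ← Real.rpow_mul (by positivity), one_div_mul_cancel (by positivity), Real.rpow_one]
  have hlim : Tendsto (fun q : ℕ => M * (δ⁻¹ * Real.exp (-((q:ℝ) / 2)))) atTop (𝓝 0) := by
    have h3 : Tendsto (fun q : ℕ => Real.exp (-((q:ℝ) / 2))) atTop (𝓝 0) :=
      Real.tendsto_exp_neg_atTop_nhds_zero.comp (tendsto_natCast_atTop_atTop.atTop_div_const (by norm_num))
    have := (h3.const_mul δ⁻¹).const_mul M
    simpa using this
  obtain ⟨q0, hq0⟩ := eventually_atTop.mp (hlim.eventually (gt_mem_nhds (show 0 < e' / 2 by positivity)))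
  refine ⟨max 3 q0, le_max_left _ _, fun q hq x hx hx2 hqx y => ?_⟩
  have hq3 : 3 ≤ q := (le_max_left _ _).trans hq
  have hqq : q0 ≤ q := (le_max_right _ _).trans hq
  obtain ⟨L, hL⟩ : ∃ L : ℝ, L = q / x := ⟨_, rfl⟩
  rw [← hL]
  have hxL : x * L = q := by rw [hL]; field_simp
  have hL1 : 1 / x ≤ L := by
    rw [hL]
    exact div_le_div_of_nonneg_right (by exact_mod_cast (by omega : 1 ≤ q)) hx.le
  have hP : PL L ≤ PX x := by rw [hL]; exact PL_le hx hqx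
  have hJ := XJ_cc hx.le L y
  have hrF : RB fun ω => ‖Fl (pr (PL L)) x y ω‖ ^ (2 * k) := (Fl_cc PL_two hx.le y).norm.comp (g := fun t => t ^ (2 * k)) (Real.continuous_rpow_const (by positivity))
  have hrJ : RB fun ω => ‖Complex.exp (Xs (JJ' x L) (sp x y) ω) - 1‖ ^ (2 * k) :=
    (hJ.exp.sub (CC.const 1)).norm.comp (g := fun t => t ^ (2 * k)) (Real.continuous_rpow_const (by positivity))
  have e1 : mk k (fun ω => Fp x y ω - Fl (pr (PL L)) x y ω) = (∫ ω, ‖Fl (pr (PL L)) x y ω‖ ^ (2 * k) ∂tm) * ∫ ω, ‖Complex.exp (Xs (JJ' x L) (sp x y) ω) - 1‖ ^ (2 * k) ∂tm := by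
    unfold mk
    rw [← dep_int (JJ'_disj x L) hrF.1.measurable hrJ.1.measurable (fun ω ω' h' => by rw [Fl_dep _ _ _ h']) (fun ω ω' h' => by rw [Xs_dep _ _ h'])]
    congr 1
    funext ω
    show ‖Fp x y ω - Fl (pr (PL L)) x y ω‖ ^ (2 * k) = _
    rw [Fp_sub x y L hP, norm_mul, Real.mul_rpow (norm_nonneg _) (norm_nonneg _)]
  have h3 : ∫ ω, ‖Complex.exp (Xs (JJ' x L) (sp x y) ω) - 1‖ ^ (2 * k) ∂tm ≤ C2 * (δ ^ (2 * k) + δ⁻¹ * Real.exp (-((q:ℝ) / 2))) := by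
    have hr1 : RB fun ω => Real.exp (2 * k * ‖Xs (JJ' x L) (sp x y) ω‖) := hJ.norm.comp (g := fun t => Real.exp (2 * k * t)) (by fun_prop)
    have hr2 : RB fun ω => ‖Xs (JJ' x L) (sp x y) ω‖ * Real.exp (2 * k * ‖Xs (JJ' x L) (sp x y) ω‖ + 2 * k * ‖Xs (JJ' x L) (sp x y) ω‖) := by
      simp only [Real.exp_add]
      exact hJ.norm.mul (hr1.mul hr1)
    have h4 : ∀ ω, ‖Complex.exp (Xs (JJ' x L) (sp x y) ω) - 1‖ ^ (2 * k) ≤ δ ^ (2 * k) * Real.exp (2 * k * ‖Xs (JJ' x L) (sp x y) ω‖) +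
        δ⁻¹ * (‖Xs (JJ' x L) (sp x y) ω‖ * Real.exp (2 * k * ‖Xs (JJ' x L) (sp x y) ω‖ + 2 * k * ‖Xs (JJ' x L) (sp x y) ω‖)) := by
      intro ω
      obtain ⟨t, ht⟩ : ∃ t, t = ‖Xs (JJ' x L) (sp x y) ω‖ := ⟨_, rfl⟩
      have ht0 : 0 ≤ t := by rw [ht]; exact norm_nonneg _
      have h5 := Real.rpow_le_rpow (norm_nonneg _) (exp_sub_le (Xs (JJ' x L) (sp x y) ω)) (show 0 ≤ 2 * k by positivity)
      rw [← ht, Real.mul_rpow ht0 (Real.exp_pos _).le, ← Real.exp_mul] at h5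
      rw [← ht]
      refine h5.trans ?_
      have e2 : t * (2 * k) = 2 * k * t := by ring
      rw [e2]
      rcases le_or_gt t δ with h6 | h6
      · have h7 : t ^ (2 * k) ≤ δ ^ (2 * k) := Real.rpow_le_rpow ht0 h6 (by positivity)
        have h8 : 0 ≤ δ⁻¹ * (t * Real.exp (2 * k * t + 2 * k * t)) := by positivity
        have h9 := mul_le_mul_of_nonneg_right h7 (Real.exp_pos (2 * k * t)).le
        linarith
      · have h7 : t ^ (2 * k) ≤ Real.exp (2 * k * t) := by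
          have h8 : t ≤ Real.exp t := by have := Real.add_one_le_exp t; linarith
          have h9 := Real.rpow_le_rpow ht0 h8 (show 0 ≤ 2 * k by positivity)
          rw [← Real.exp_mul, e2] at h9
          exact h9
        have h8 : 1 ≤ δ⁻¹ * t := by
          rw [← div_eq_inv_mul, le_div_iff₀ hδ0]
          linarith
        have h9 : 0 ≤ δ ^ (2 * k) * Real.exp (2 * k * t) := by positivity
        have h10 : t ^ (2 * k) * Real.exp (2 * k * t) ≤ δ⁻¹ * t * (Real.exp (2 * k * t) * Real.exp (2 * k * t)) := by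
          have h11 : 0 < Real.exp (2 * k * t) := Real.exp_pos _
          have h12 := mul_le_mul_of_nonneg_right h7 h11.le
          have h13 : Real.exp (2 * k * t) * Real.exp (2 * k * t) ≤ δ⁻¹ * t * (Real.exp (2 * k * t) * Real.exp (2 * k * t)) := by
            have : 0 < Real.exp (2 * k * t) * Real.exp (2 * k * t) := by positivity
            nlinarith
          linarith
        rw [Real.exp_add]
        linarith
    refine (integral_mono hrJ.int (((RB.const _).mul hr1).add ((RB.const _).mul hr2)).int h4).trans ?_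
    rw [integral_add ((RB.const _).mul hr1).int ((RB.const _).mul hr2).int, integral_const_mul, integral_const_mul]
    obtain ⟨h5, h6⟩ := h2 x hx hx2 L hL1 hP y y
    rw [hxL] at h5
    have h7 := mul_le_mul_of_nonneg_left h6 (show 0 ≤ δ ^ (2 * k) by positivity)
    have h8 := mul_le_mul_of_nonneg_left h5 (show 0 ≤ δ⁻¹ by positivity)
    have e3 : -((q:ℝ) / 2) = -(↑q / 2) := rfl
    linarith
  have h4 := h1 x hx (by linarith) (pr (PL L)) (pr_mono hP) y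
  have hI0 : 0 ≤ ∫ ω, ‖Complex.exp (Xs (JJ' x L) (sp x y) ω) - 1‖ ^ (2 * k) ∂tm := integral_nonneg fun ω => by positivity
  have h5 : (2 * x) ^ (k ^ 2) * mk k (fun ω => Fp x y ω - Fl (pr (PL L)) x y ω) ≤ e' := by
    rw [e1]
    have h6 : (2 * x) ^ (k ^ 2) * (C1 * x ^ (-k ^ 2)) = 2 ^ (k ^ 2) * C1 := by
      rw [Real.mul_rpow (by norm_num) hx.le, Real.rpow_neg hx.le]
      have : x ^ (k ^ 2) ≠ 0 := by positivity
      field_simp
    have h7 := (hq0 q hqq).le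
    calc (2 * x) ^ (k ^ 2) * ((∫ ω, ‖Fl (pr (PL L)) x y ω‖ ^ (2 * k) ∂tm) * ∫ ω, ‖Complex.exp (Xs (JJ' x L) (sp x y) ω) - 1‖ ^ (2 * k) ∂tm)
        ≤ (2 * x) ^ (k ^ 2) * ((C1 * x ^ (-k ^ 2)) * (C2 * (δ ^ (2 * k) + δ⁻¹ * Real.exp (-((q:ℝ) / 2))))) := by gcongr
      _ = ((2 * x) ^ (k ^ 2) * (C1 * x ^ (-k ^ 2))) * (C2 * (δ ^ (2 * k) + δ⁻¹ * Real.exp (-((q:ℝ) / 2)))) := by ring
      _ = M * δ ^ (2 * k) + M * (δ⁻¹ * Real.exp (-((q:ℝ) / 2))) := by rw [h6, hM]; ring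
      _ ≤ M * (e' / (2 * M)) + e' / 2 := by rw [hδk]; linarith
      _ = e' := by field_simp; ring
  unfold nr
  have h6 := Real.rpow_le_rpow (mul_nonneg (by positivity) (mk_nonneg _ _)) h5 hkp.le
  refine h6.trans (le_of_eq ?_)
  rw [he', ← Real.rpow_mul he.le, one_div_mul_cancel hkp.ne', Real.rpow_one]

lemma young2 {D ρ w k ν : ℝ} {m r : ℕ} (hD : 0 ≤ D) (hρ : 0 ≤ ρ) (hk : 0 < k) (hm : k < m) (hr : (m + 1 - k) / (m - k) ≤ r) (hν : 0 < ν) :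
    D ^ (2 * m) * (Real.exp (2 * (k - m) * w) * ρ) ≤
      ν ^ (-((1 - 1 / (m + 1 - k)) / (1 / (m + 1 - k)))) * D ^ (2 * k) + ν * (D ^ (2 * (m + 1)) * (Real.exp (2 * (k - (m + 1 : ℕ)) * w) * (1 + ρ ^ r))) := by
  obtain ⟨s, hs⟩ : ∃ s : ℝ, s = m + 1 - k := ⟨_, rfl⟩
  have hs1 : 1 < s := by rw [hs]; linarith
  have hs0 : 0 < s := by linarith
  rw [← hs] at hr ⊢
  have hmk : (m:ℝ) - k = s - 1 := by rw [hs]; ring
  rw [hmk] at hr
  have hm1 : 1 ≤ m := by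
    by_contra hcon
    have : m = 0 := by omega
    rw [this] at hm
    simp at hm
    linarith
  have hnn : 0 ≤ ν ^ (-((1 - 1 / s) / (1 / s))) * D ^ (2 * k) + ν * (D ^ (2 * (m + 1)) * (Real.exp (2 * (k - (m + 1 : ℕ)) * w) * (1 + ρ ^ r))) := by positivity
  rcases eq_or_lt_of_le hD with hD0 | hD0
  · rw [← hD0, zero_pow (by omega), zero_mul]
    rw [← hD0] at hnn
    exact hnn
  rcases eq_or_lt_of_le hρ with hρ0 | hρ0
  · rw [← hρ0, mul_zero, mul_zero]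
    rw [← hρ0] at hnn
    exact hnn
  have hθ0 : 0 < 1 / s := by positivity
  have hθ1 : 1 / s < 1 := by rw [div_lt_one hs0]; exact hs1
  have h1 := amg hθ0 hθ1 (X := D ^ (2 * k)) (Y := D ^ (2 * (m + 1)) * (Real.exp (2 * (k - (m + 1 : ℕ)) * w) * ρ ^ (s / (s - 1)))) (by positivity) (by positivity) hν
  have e1 : (D ^ (2 * k)) ^ (1 / s) * (D ^ (2 * (m + 1)) * (Real.exp (2 * (k - (m + 1 : ℕ)) * w) * ρ ^ (s / (s - 1)))) ^ (1 - 1 / s) = D ^ (2 * m) * (Real.exp (2 * (k - m) * w) * ρ) := by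
    rw [Real.mul_rpow (by positivity) (by positivity), Real.mul_rpow (Real.exp_pos _).le (by positivity), ← Real.rpow_natCast D (2 * (m + 1)), ← Real.rpow_natCast D (2 * m),
      ← Real.rpow_mul hD, ← Real.rpow_mul hD, ← Real.rpow_mul hρ, ← Real.exp_mul]
    have e2 : s / (s - 1) * (1 - 1 / s) = 1 := by
      have : s - 1 ≠ 0 := by linarith
      field_simp
    have e3 : 2 * (k - ((m + 1 : ℕ) : ℝ)) * w * (1 - 1 / s) = 2 * (k - m) * w := by
      have : k - ((m + 1 : ℕ) : ℝ) = -s := by rw [hs]; push_cast; ring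
      have h2 : k - (m:ℝ) = 1 - s := by rw [hs]; ring
      rw [this, h2]
      field_simp
      ring
    rw [e2, e3, Real.rpow_one, ← mul_assoc, ← Real.rpow_add hD0]
    congr 2
    have : k = m + 1 - s := by rw [hs]; ring
    rw [this]
    push_cast
    field_simp
    ring
  rw [e1] at h1
  refine h1.trans ?_
  have h2 : ρ ^ (s / (s - 1)) ≤ 1 + ρ ^ r := by
    rcases le_or_gt ρ 1 with h3 | h3
    · have h5 : 0 ≤ s / (s - 1) := div_nonneg hs0.le (by linarith)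
      have h4 : ρ ^ (s / (s - 1)) ≤ 1 := Real.rpow_le_one hρ h3 h5
      have : 0 ≤ ρ ^ r := by positivity
      linarith
    · have h4 : ρ ^ (s / (s - 1)) ≤ ρ ^ (r:ℝ) := Real.rpow_le_rpow_of_exponent_le h3.le hr
      rw [Real.rpow_natCast] at h4
      linarith
  have h3 : D ^ (2 * (m + 1)) * (Real.exp (2 * (k - (m + 1 : ℕ)) * w) * ρ ^ (s / (s - 1))) ≤ D ^ (2 * (m + 1)) * (Real.exp (2 * (k - (m + 1 : ℕ)) * w) * (1 + ρ ^ r)) := by gcongr
  have h4 := mul_le_mul_of_nonneg_left h3 hν.le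
  linarith

end Pool.Agent.H470
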