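import Pool.Agent.H470.Wa15

set_option autoImplicit false

/-! The mollified sums approximate the smooth sums in the majorant norms. -/

namespace Pool.Agent.H470

open MeasureTheory Filter Topology ProbabilityTheory Set
open scoped ENNReal
open Pool.Agent.TH806 (ec ec_norm ec_cont uu integrable_uu)

lemma sub_one_pow_le {V : ℝ} (hV : 1 ≤ V) {r : ℕ} (hr : 1 ≤ r) : (V - 1) ^ r ≤ V ^ r - 1 := by
  have h := pow_add_pow_le (sub_nonneg.mpr hV) (zero_le_one) (by omega : r ≠ 0)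
  rw [one_pow, sub_add_cancel] at h
  linarith

lemma mk_of_nr {k x : ℝ} (hk : 0 < k) (hx : 0 < x) {f : (ℕ → ℝ) → ℂ} {e : ℝ} (he : 0 ≤ e) (h : nr k x f ≤ e) : mk k f ≤ e ^ (1 / kp k) * x ^ (-k ^ 2) := by
  have hkp := kp_pos hk
  have h0 : 0 ≤ (2 * x) ^ (k ^ 2) * mk k f := mul_nonneg (by positivity) (mk_nonneg _ _)
  have h1 : (2 * x) ^ (k ^ 2) * mk k f ≤ e ^ (1 / kp k) := by
    have h2 := Real.rpow_le_rpow (nr_nonneg hx.le f) h (show 0 ≤ 1 / kp k by positivity)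
    unfold nr at h2
    rw [← Real.rpow_mul h0, mul_one_div_cancel hkp.ne', Real.rpow_one] at h2
    exact h2
  have h2 : x ^ (k ^ 2) ≤ (2 * x) ^ (k ^ 2) := Real.rpow_le_rpow hx.le (by linarith) (by positivity)
  have h3 : x ^ (k ^ 2) * mk k f ≤ e ^ (1 / kp k) := (mul_le_mul_of_nonneg_right h2 (mk_nonneg _ _)).trans h1
  rw [Real.rpow_neg hx.le, ← div_eq_mul_inv, le_div_iff₀ (by positivity)]
  linarith

theorem dp_small {Z : ℕ} (hZ : 1 ≤ Z) {m : ℕ} (hm : 1 ≤ m) {k z : ℝ} (hk : m + z = k) (hz : |z| ≤ Z) {n : ℕ} (hn : 1 ≤ n) (c : Fin n → ℂ) (y : Fin n → ℝ) {e : ℝ} (he : 0 < e) :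
    ∃ q0 : ℕ, 3 ≤ q0 ∧ ∀ q : ℕ, q0 ≤ q → ∀ x : ℝ, 0 < x → x ≤ 1 → ∀ L : ℝ, PL L ≤ PX x →
    ∫ ω, ‖∑ j, c j * (Fl (pr (PL L)) x (y j) ω - Ey Z q x L 1 (y j) ω)‖ ^ (2 * m) * Rs Z q x L z ω ∂tm ≤ e * x ^ (-k ^ 2) := by
  obtain ⟨C, hC, hta⟩ := ta_near Z hZ
  obtain ⟨A, hA⟩ : ∃ A : ℝ, A = 2 * m + 2 * |z| := ⟨_, rfl⟩
  obtain ⟨Y, hY⟩ : ∃ Y : ℝ, Y = ∑ j, |y j| := ⟨_, rfl⟩
  have hY0 : 0 ≤ Y := by rw [hY]; positivity
  have hyY : ∀ j, |y j| ≤ Y := fun j => by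
    rw [hY]; exact Finset.single_le_sum (f := fun j => |y j|) (fun i _ => abs_nonneg _) (Finset.mem_univ j)
  obtain ⟨C1, hC1, hX⟩ := Xb_of_Tb k A Y
  obtain ⟨C2, hC2, hV⟩ := Tb_V A hC.le Z (4 * m)
  obtain ⟨K', hK', q1, hq1, hrho⟩ := Tb_rho A hZ (r := 2) (by norm_num)
  obtain ⟨S, hS⟩ : ∃ S : ℝ, S = (∑ j, ‖c j‖) ^ (2 * m) * n := ⟨_, rfl⟩
  have hS0 : 0 ≤ S := by rw [hS]; positivity
  obtain ⟨e1, he1⟩ : ∃ e1 : ℝ, e1 = e / ((S + 1) * C1) := ⟨_, rfl⟩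
  have he10 : 0 < e1 := by rw [he1]; positivity
  obtain ⟨t, ht⟩ : ∃ t : ℝ, t = 2 * K' / e1 := ⟨_, rfl⟩
  have ht0 : 0 < t := by rw [ht]; positivity
  have htK : t⁻¹ * K' = e1 / 2 := by rw [ht]; field_simp
  have hlim : Tendsto (fun q : ℕ => t * (Real.exp (C2 * uq q) - 1)) atTop (𝓝 0) := by
    have h1 : Tendsto (fun q : ℕ => Real.exp (C2 * uq q)) atTop (𝓝 (Real.exp (C2 * 0))) := (Real.continuous_exp.tendsto _).comp (uq_lim.const_mul C2)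
    have h2 := (h1.sub_const 1).const_mul t
    simpa using h2
  obtain ⟨q2, hq2⟩ := eventually_atTop.mp (hlim.eventually (gt_mem_nhds (show 0 < e1 / 2 by positivity)))
  refine ⟨max q1 q2, hq1.trans (le_max_left _ _), fun q hq x hx hx1 L hP => ?_⟩
  have hqq1 : q1 ≤ q := (le_max_left _ _).trans hq
  have hqq2 : q2 ≤ q := (le_max_right _ _).trans hq
  have hq3 : 3 ≤ q := hq1.trans hqq1
  have hZ1 : |(1:ℝ)| ≤ Z := by rw [abs_one]; exact_mod_cast hZ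
  have hcc : ∀ j, RB fun ω => (Vb C Z q x L (y j) ω - 1) ^ (2 * m) := fun j => by
    have := ((Vb_rb (C := C) (Z := Z) (q := q) hx.le L (y j)).add (RB.const (-1))).pow (2 * m)
    simpa [sub_eq_add_neg] using this
  have hT : ∀ j, Tb A x L (fun ω => (Vb C Z q x L (y j) ω - 1) ^ (2 * m) * rho Z q x L z ω) e1 := by
    intro j
    have h1 : Tb A x L (fun ω => ((Vb C Z q x L (y j) ω - 1) ^ (2 * m)) ^ 2) (Real.exp (C2 * uq q) - 1) := by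
      refine Tb.mono hx.le ((hcc j).pow 2) ?_ (fun ω => ?_) (hV q hq3 x hx.le L (y j)).2
      · have := ((Vb_rb (C := C) (Z := Z) (q := q) hx.le L (y j)).pow (4 * m)).add (RB.const (-1))
        simpa [sub_eq_add_neg] using this
      · rw [← pow_mul, show 2 * m * 2 = 4 * m by ring]
        exact sub_one_pow_le (Vb_one hC.le Z q x L (y j) ω) (by omega)
    have h2 := Tb.am hx.le (hcc j) (rho_rb Z q hx.le L z) ht0 h1 (hrho q hqq1 x hx.le L z hz)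
    refine h2.le hx.le ?_
    have := (hq2 q hqq2).le
    linarith
  have hj : ∀ j, ∫ ω, ‖Fl (pr (PL L)) x (y j) ω‖ ^ (2 * m) * Real.exp (2 * z * (Xs (pr (PL L)) (sp x 0) ω).re) * ((Vb C Z q x L (y j) ω - 1) ^ (2 * m) * rho Z q x L z ω) ∂tm ≤
      e1 * C1 * x ^ (-k ^ 2) := fun j =>
    (hX x hx hx1 L hP _ e1 he10.le (hT j)).use hk (by rw [hA]) hY0 (hyY j)
  have hR0 : RB fun ω => Real.exp (2 * z * (Xs (pr (PL L)) (sp x 0) ω).re) := (Xs_cc PL_two hx.le 0).re.comp (g := fun t => Real.exp (2 * z * t)) (by fun_prop)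
  have hRB : ∀ j, RB fun ω => ‖Fl (pr (PL L)) x (y j) ω‖ ^ (2 * m) * Real.exp (2 * z * (Xs (pr (PL L)) (sp x 0) ω).re) * ((Vb C Z q x L (y j) ω - 1) ^ (2 * m) * rho Z q x L z ω) := fun j =>
    (((Fl_cc PL_two hx.le (y j)).norm.pow (2 * m)).mul hR0).mul ((hcc j).mul (rho_rb Z q hx.le L z))
  have hpt : ∀ ω, ‖∑ j, c j * (Fl (pr (PL L)) x (y j) ω - Ey Z q x L 1 (y j) ω)‖ ^ (2 * m) * Rs Z q x L z ω ≤
      (∑ j, ‖c j‖) ^ (2 * m) * ∑ j, ‖Fl (pr (PL L)) x (y j) ω‖ ^ (2 * m) * Real.exp (2 * z * (Xs (pr (PL L)) (sp x 0) ω).re) * ((Vb C Z q x L (y j) ω - 1) ^ (2 * m) * rho Z q x L z ω) := by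
    intro ω
    have h1 := sum_pow_le hn c (fun j => Fl (pr (PL L)) x (y j) ω - Ey Z q x L 1 (y j) ω) m
    rw [Rs_rho]
    have hr0 := rho_nonneg Z q x L z ω
    have h2 := mul_le_mul_of_nonneg_right h1 (mul_nonneg (Real.exp_pos (2 * z * (Xs (pr (PL L)) (sp x 0) ω).re)).le hr0)
    refine h2.trans ?_
    rw [mul_assoc, Finset.sum_mul]
    refine mul_le_mul_of_nonneg_left (Finset.sum_le_sum fun j _ => ?_) (by positivity)
    have h3 := Ey_near (C := C) (Z := Z) (q := q) (x := x) (L := L) (y := y j) (z := 1) ω (fun b => hta q hq3 x hx.le L (y j) 1 hZ1 b ω)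
    have h4 : ‖Fl (pr (PL L)) x (y j) ω - Ey Z q x L 1 (y j) ω‖ ≤ ‖Fl (pr (PL L)) x (y j) ω‖ * (Vb C Z q x L (y j) ω - 1) := by
      have h5 : Fl (pr (PL L)) x (y j) ω - Ey Z q x L 1 (y j) ω = -(Fl (pr (PL L)) x (y j) ω * (Ey Z q x L 1 (y j) ω * Complex.exp (-(((1:ℝ):ℂ) * Xs (pr (PL L)) (sp x (y j)) ω)) - 1)) := by
        unfold Fl
        rw [Complex.ofReal_one, one_mul, mul_sub, mul_one]
        have h6 : Complex.exp (Xs (pr (PL L)) (sp x (y j)) ω) * (Ey Z q x L 1 (y j) ω * Complex.exp (-Xs (pr (PL L)) (sp x (y j)) ω)) = Ey Z q x L 1 (y j) ω := by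
          rw [mul_comm (Ey Z q x L 1 (y j) ω), ← mul_assoc, ← Complex.exp_add, add_neg_cancel, Complex.exp_zero, one_mul]
        rw [h6]
        ring
      rw [h5, norm_neg, norm_mul]
      exact mul_le_mul_of_nonneg_left h3 (norm_nonneg _)
    have h5 := pow_le_pow_left₀ (norm_nonneg _) h4 (2 * m)
    rw [mul_pow] at h5
    have h6 := mul_le_mul_of_nonneg_right h5 (mul_nonneg (Real.exp_pos (2 * z * (Xs (pr (PL L)) (sp x 0) ω).re)).le hr0)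
    refine h6.trans (le_of_eq ?_)
    ring
  have hRs : RB fun ω => ‖∑ j, c j * (Fl (pr (PL L)) x (y j) ω - Ey Z q x L 1 (y j) ω)‖ ^ (2 * m) * Rs Z q x L z ω :=
    ((CC.sum _ fun j _ => (CC.const _).mul ((Fl_cc PL_two hx.le _).sub (Ey_cc _ _ _ _ _ _))).norm.pow _).mul (Rs_rb _ _ _ _ _)
  refine (integral_mono hRs.int ((RB.const _).mul (RB.sum _ fun j _ => hRB j)).int hpt).trans ?_
  rw [integral_const_mul, integral_finset_sum _ fun j _ => (hRB j).int]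
  have h7 : ∑ j : Fin n, ∫ ω, ‖Fl (pr (PL L)) x (y j) ω‖ ^ (2 * m) * Real.exp (2 * z * (Xs (pr (PL L)) (sp x 0) ω).re) * ((Vb C Z q x L (y j) ω - 1) ^ (2 * m) * rho Z q x L z ω) ∂tm ≤
      n * (e1 * C1 * x ^ (-k ^ 2)) := by
    refine (Finset.sum_le_sum fun j _ => hj j).trans (le_of_eq ?_)
    rw [Finset.sum_const, Finset.card_univ, Fintype.card_fin, nsmul_eq_mul]
  have h8 := mul_le_mul_of_nonneg_left h7 (show 0 ≤ (∑ j, ‖c j‖) ^ (2 * m) by positivity)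
  refine h8.trans ?_
  have hxk : 0 < x ^ (-k ^ 2) := by positivity
  have h9 : S * (e1 * C1) ≤ e := by
    rw [he1]
    have : S * (e / ((S + 1) * C1) * C1) = e * (S / (S + 1)) := by field_simp
    rw [this]
    have h10 : S / (S + 1) ≤ 1 := (div_le_one (by linarith)).mpr (by linarith)
    nlinarith
  calc (∑ j, ‖c j‖) ^ (2 * m) * (n * (e1 * C1 * x ^ (-k ^ 2))) = S * (e1 * C1) * x ^ (-k ^ 2) := by rw [hS]; ring
    _ ≤ e * x ^ (-k ^ 2) := mul_le_mul_of_nonneg_right h9 hxk.le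

/-- The bound for the lower moment. -/
theorem U0_int (P : Pm) {φ : ℝ → ℝ} (h : Sm φ) (D : ℝ) : ∃ U : ℝ, 0 < U ∧ ∃ q0 : ℕ, 3 ≤ q0 ∧ ∀ q : ℕ, q0 ≤ q → ∀ x : ℝ, 0 < x → x ≤ 1 → ∀ L : ℝ, PL L ≤ PX x →
    CC (Il φ x (pr (PL L))) →
    ∀ (n : ℕ) (c : Fin n → ℂ) (y : Fin n → ℝ), ∑ j, ‖c j‖ * (1 + |y j|) ^ ⌈(2 * (P.m0:ℝ) + 2 * |P.k - P.m0|) ^ 2⌉₊ ≤ D →
    ∫ ω, ‖Il φ x (pr (PL L)) ω - ∑ j, c j * Fl (pr (PL L)) x (y j) ω‖ ^ (2 * P.m0) * Rs P.Z q x L (P.k - P.m0) ω ∂tm ≤ U * x ^ (-P.k ^ 2) ∧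
    ∫ ω, Rs P.Z q x L (P.k - P.m0) ω * (if P.m0 = 0 then 1 else 0) ∂tm ≤ U * x ^ (-P.k ^ 2) := by
  obtain ⟨A, hA⟩ : ∃ A : ℝ, A = 2 * (P.m0:ℝ) + 2 * |P.k - P.m0| := ⟨_, rfl⟩
  rw [← hA]
  obtain ⟨Cr, hCr, q1, hq1, hrho⟩ := Tb_rho A P.hZ (r := 1) le_rfl
  rcases Nat.eq_zero_or_pos P.m0 with h0 | h0
  · obtain ⟨C1, hC1, hX⟩ := Xb_of_Tb P.k A 0
    refine ⟨Cr * C1, by positivity, q1, hq1, fun q hq x hx hx1 L hP hc n c y hD => ?_⟩
    have h1 := hrho q hq x hx.le L (P.k - P.m0) P.hz0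
    simp only [pow_one] at h1
    have h2 := (hX x hx hx1 L hP _ Cr hCr.le h1).use (m := P.m0) (z := P.k - P.m0) (y := 0) (by ring) (by rw [hA]) le_rfl (by simp)
    have h3 : ∫ ω, Rs P.Z q x L (P.k - P.m0) ω ∂tm ≤ Cr * C1 * x ^ (-P.k ^ 2) := by
      refine le_trans (le_of_eq ?_) h2
      congr 1
      funext ω
      rw [Rs_rho, h0]
      simp
    constructor
    · refine le_trans (le_of_eq ?_) h3
      congr 1
      funext ω
      rw [h0]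
      simp
    · rw [if_pos h0]
      simpa using h3
  · obtain ⟨C4, hC4, h4⟩ := dl_int h (m := P.m0) h0 (P.k - P.m0) (A := A) (by rw [hA])
    obtain ⟨D', hD'⟩ : ∃ D' : ℝ, D' = |D| := ⟨_, rfl⟩
    refine ⟨C4 * (1 + D' ^ (2 * P.m0)) * Cr, by rw [hD']; positivity, q1, hq1, fun q hq x hx hx1 L hP hc n c y hD => ?_⟩
    have h1 := hrho q hq x hx.le L (P.k - P.m0) P.hz0
    simp only [pow_one] at h1
    have h2 := h4 D' x hx hx1 L hP hc _ (rho_rb P.Z q hx.le L (P.k - P.m0)) (rho_nonneg _ _ _ _ _) Cr hCr.le h1 n c y (hD.trans (by rw [hD']; exact le_abs_self D))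
    have e1 : -((P.m0:ℝ) + (P.k - P.m0)) ^ 2 = -P.k ^ 2 := by ring
    rw [e1] at h2
    constructor
    · refine le_trans (le_of_eq ?_) h2
      congr 1
      funext ω
      rw [Rs_rho]
    · rw [if_neg h0.ne']
      simp only [mul_zero, integral_zero]
      rw [hD']
      positivity

end Pool.Agent.H470
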