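import Pool.Agent.H470.Wa16

set_option autoImplicit false

/-! The approximation theorem for smooth sums. -/

namespace Pool.Agent.H470

open MeasureTheory Filter Topology ProbabilityTheory Set
open scoped ENNReal
open Pool.Agent.TH806 (ec ec_norm ec_cont uu integrable_uu)

lemma two_pow_add (a b : ℂ) (m : ℕ) : ‖a + b‖ ^ (2 * m) ≤ 2 ^ (2 * m) * (‖a‖ ^ (2 * m) + ‖b‖ ^ (2 * m)) := by
  have h1 : ‖a + b‖ ^ (2 * m) ≤ (‖a‖ + ‖b‖) ^ (2 * m) := pow_le_pow_left₀ (norm_nonneg _) (norm_add_le a b) _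
  have h2 := add_pow_le (norm_nonneg a) (norm_nonneg b) (2 * m)
  have h3 : (2:ℝ) ^ (2 * m - 1) ≤ 2 ^ (2 * m) := pow_le_pow_right₀ (by norm_num) (by omega)
  exact (h1.trans h2).trans (mul_le_mul_of_nonneg_right h3 (by positivity))

/-- The bound for the upper moment of the discretisation error. -/
theorem U1_int (P : Pm) {φ : ℝ → ℝ} (h : Sm φ) (D : ℝ) : ∃ U : ℝ, 0 < U ∧ ∃ q0 : ℕ, 3 ≤ q0 ∧ ∀ ν : ℝ, 0 < ν → ∀ q : ℕ, q0 ≤ q → ∀ x : ℝ, 0 < x → x ≤ 1 → ∀ L : ℝ, PL L ≤ PX x →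
    CC (Il φ x (pr (PL L))) →
    ∀ (n : ℕ) (c : Fin n → ℂ) (y : Fin n → ℝ), ∑ j, ‖c j‖ * (1 + |y j|) ^ ⌈(2 * ((P.m1 + 1 : ℕ):ℝ) + 2 * |P.k - (P.m1 + 1 : ℕ)|) ^ 2⌉₊ ≤ D →
    ∫ ω, ‖Il φ x (pr (PL L)) ω - ∑ j, c j * Fl (pr (PL L)) x (y j) ω‖ ^ (2 * P.m1) * Rs P.Z q x L (P.k - P.m1) ω ∂tm ≤
      ν ^ (-((1 - 1 / (P.m1 + 1 - P.k)) / (1 / (P.m1 + 1 - P.k)))) * mk P.k (fun ω => Il φ x (pr (PL L)) ω - ∑ j, c j * Fl (pr (PL L)) x (y j) ω) + ν * (U * x ^ (-P.k ^ 2)) := by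
  obtain ⟨A, hA⟩ : ∃ A : ℝ, A = 2 * ((P.m1 + 1 : ℕ):ℝ) + 2 * |P.k - (P.m1 + 1 : ℕ)| := ⟨_, rfl⟩
  rw [← hA]
  obtain ⟨r, hr⟩ : ∃ r : ℕ, r = ⌈((P.m1:ℝ) + 1 - P.k) / (P.m1 - P.k)⌉₊ + 1 := ⟨_, rfl⟩
  have hr1 : 1 ≤ r := by omega
  have hrr : ((P.m1:ℝ) + 1 - P.k) / (P.m1 - P.k) ≤ r := by
    rw [hr]
    push_cast
    linarith [Nat.le_ceil (((P.m1:ℝ) + 1 - P.k) / (P.m1 - P.k))]
  obtain ⟨Cr, hCr, q1, hq1, hrho⟩ := Tb_rho A P.hZ (r := r) hr1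
  obtain ⟨C4, hC4, h4⟩ := dl_int h (m := P.m1 + 1) (by omega) (P.k - (P.m1 + 1 : ℕ)) (A := A) (by rw [hA])
  obtain ⟨D', hD'⟩ : ∃ D' : ℝ, D' = |D| := ⟨_, rfl⟩
  have hD'0 : 0 ≤ D' := by rw [hD']; positivity
  refine ⟨C4 * (1 + D' ^ (2 * (P.m1 + 1))) * (1 + Cr), by positivity, q1, hq1, fun ν hν q hq x hx hx1 L hP hc n c y hD => ?_⟩
  have h1 := hrho q hq x hx.le L (P.k - P.m1) P.hz1
  have hrb := rho_rb P.Z q hx.le L (P.k - P.m1)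
  have h2 := h4 D' x hx hx1 L hP hc (fun ω => 1 + rho P.Z q x L (P.k - P.m1) ω ^ r) ((RB.const 1).add (hrb.pow r))
    (fun ω => by have := rho_nonneg P.Z q x L (P.k - P.m1) ω; positivity) (1 + Cr) (by positivity)
    (Tb.add hx.le (RB.const 1) (hrb.pow r) Tb.const h1) n c y (hD.trans (by rw [hD']; exact le_abs_self D))
  have e1 : -(((P.m1 + 1 : ℕ):ℝ) + (P.k - (P.m1 + 1 : ℕ))) ^ 2 = -P.k ^ 2 := by ring
  rw [e1] at h2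
  obtain ⟨Δ, hΔ⟩ : ∃ Δ : (ℕ → ℝ) → ℂ, Δ = fun ω => Il φ x (pr (PL L)) ω - ∑ j, c j * Fl (pr (PL L)) x (y j) ω := ⟨_, rfl⟩
  have hΔc : CC Δ := by
    rw [hΔ]
    exact hc.sub (CC.sum _ fun j _ => (CC.const _).mul (Fl_cc PL_two hx.le _))
  have hΔ' : ∀ ω, Il φ x (pr (PL L)) ω - ∑ j, c j * Fl (pr (PL L)) x (y j) ω = Δ ω := fun ω => by rw [hΔ]
  simp only [hΔ'] at h2 ⊢
  have hR0 : RB fun ω => Real.exp (2 * (P.k - (P.m1 + 1 : ℕ)) * (Xs (pr (PL L)) (sp x 0) ω).re) :=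
    (Xs_cc PL_two hx.le 0).re.comp (g := fun t => Real.exp (2 * (P.k - (P.m1 + 1 : ℕ)) * t)) (by fun_prop)
  have hi1 : RB fun ω => ‖Δ ω‖ ^ (2 * P.k) := hΔc.norm.comp (g := fun t => t ^ (2 * P.k)) (Real.continuous_rpow_const (by have := P.hk; positivity))
  have hi2 : RB fun ω => ‖Δ ω‖ ^ (2 * (P.m1 + 1)) * (Real.exp (2 * (P.k - (P.m1 + 1 : ℕ)) * (Xs (pr (PL L)) (sp x 0) ω).re) * (1 + rho P.Z q x L (P.k - P.m1) ω ^ r)) :=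
    (hΔc.norm.pow _).mul (hR0.mul ((RB.const 1).add (hrb.pow r)))
  have hi0 : RB fun ω => ‖Δ ω‖ ^ (2 * P.m1) * Rs P.Z q x L (P.k - P.m1) ω := (hΔc.norm.pow _).mul (Rs_rb _ _ _ _ _)
  have h3 : ∀ ω, ‖Δ ω‖ ^ (2 * P.m1) * Rs P.Z q x L (P.k - P.m1) ω ≤ ν ^ (-((1 - 1 / (P.m1 + 1 - P.k)) / (1 / (P.m1 + 1 - P.k)))) * ‖Δ ω‖ ^ (2 * P.k) +
      ν * (‖Δ ω‖ ^ (2 * (P.m1 + 1)) * (Real.exp (2 * (P.k - (P.m1 + 1 : ℕ)) * (Xs (pr (PL L)) (sp x 0) ω).re) * (1 + rho P.Z q x L (P.k - P.m1) ω ^ r))) := by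
    intro ω
    rw [Rs_rho]
    exact young2 (norm_nonneg _) (rho_nonneg _ _ _ _ _ _) P.hk P.hm1 hrr hν
  refine (integral_mono hi0.int (((RB.const _).mul hi1).add ((RB.const _).mul hi2)).int h3).trans ?_
  rw [integral_add ((RB.const _).mul hi1).int ((RB.const _).mul hi2).int, integral_const_mul, integral_const_mul]
  have h5 : ∫ ω, ‖Δ ω‖ ^ (2 * P.k) ∂tm = mk P.k (fun ω => Δ ω) := rfl
  rw [h5]
  have h6 := mul_le_mul_of_nonneg_left h2 hν.le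
  linarith

lemma Ig_Il (φ : ℝ → ℝ) (x : ℝ) (ω : ℕ → ℝ) : Il φ x (pr (PX x)) ω = Ig φ x ω := by
  unfold Il Ig
  rw [← integral_const_mul]
  congr 1
  funext y
  rw [mul_assoc]
  rfl

lemma PL_big {B : ℝ} {q : ℕ} {x : ℝ} (hx : 0 < x) (hx2 : x ≤ 1 / 2) (hq : |B| + 1 ≤ q) : Real.exp (B / x) ≤ PL (q / x) := by
  have h1 : Real.exp (|B| / x) * Real.exp (1 / x) ≤ Real.exp (q / x) := by
    rw [← Real.exp_add, Real.exp_le_exp, ← add_div]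
    exact div_le_div_of_nonneg_right hq hx.le
  have h2 : (2:ℝ) ≤ Real.exp (1 / x) := by
    have h3 : (2:ℝ) ≤ 1 / x := by rw [le_div_iff₀ hx]; linarith
    have := Real.add_one_le_exp (1 / x)
    linarith
  have h3 : 1 ≤ Real.exp (|B| / x) := Real.one_le_exp (by positivity)
  have h4 : Real.exp (B / x) ≤ Real.exp (|B| / x) := Real.exp_le_exp.mpr (div_le_div_of_nonneg_right (le_abs_self B) hx.le)
  have h5 : Real.exp (q / x) - 1 < PL (q / x) := by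
    unfold PL
    linarith [Nat.lt_floor_add_one (Real.exp (q / x))]
  nlinarith

theorem A1 (P : Pm) {φ : ℝ → ℝ} (h : Sm φ) {B : ℝ} (hB : ∀ u, B ≤ u → φ u = 0) {e : ℝ} (he : 0 < e) :
    ∃ (n : ℕ) (c : Fin n → ℂ) (y : Fin n → ℝ) (μ : ℝ), 1 ≤ n ∧ 0 < μ ∧ ∃ q0 : ℕ, 3 ≤ q0 ∧ ∀ q : ℕ, q0 ≤ q → ∀ x : ℝ, 0 < x → x ≤ 1 / 2 → q * x ≤ 1 →
      CC (Il φ x (pr (PL (q / x)))) ∧
      MM P q x (q / x) μ (fun ω => Il φ x (pr (PL (q / x))) ω - Sc P.Z q x (q / x) c y ω) (fun _ => 1) ≤ e * x ^ (-P.k ^ 2) ∧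
      nr P.k x (fun ω => Ig φ x ω - ∑ j, c j * Fp x (y j) ω) ≤ e ∧
      ∀ ω, Il φ x (pr (PL (q / x))) ω = Ig φ x ω := by
  obtain ⟨N0, hN0⟩ : ∃ N0 : ℕ, N0 = ⌈(2 * (P.m0:ℝ) + 2 * |P.k - P.m0|) ^ 2⌉₊ := ⟨_, rfl⟩
  obtain ⟨N1, hN1⟩ : ∃ N1 : ℕ, N1 = ⌈(2 * ((P.m1 + 1 : ℕ):ℝ) + 2 * |P.k - (P.m1 + 1 : ℕ)|) ^ 2⌉₊ := ⟨_, rfl⟩
  obtain ⟨D, hD, hwt⟩ := wt_bd h (max N0 N1)
  obtain ⟨U0, hU0, q1, hq1, hu0⟩ := U0_int P h D
  obtain ⟨U1, hU1, q2, hq2, hu1⟩ := U1_int P h D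
  rw [← hN0] at hu0
  rw [← hN1] at hu1
  obtain ⟨G, hG⟩ : ∃ G : ℝ, G = 2 ^ (2 * P.m1) := ⟨_, rfl⟩
  have hG1 : 1 ≤ G := by rw [hG]; exact one_le_pow₀ (by norm_num)
  have hG0 : 0 < G := by linarith
  obtain ⟨μ, hμ⟩ : ∃ μ : ℝ, μ = e / (4 * G * (U0 + 1)) := ⟨_, rfl⟩
  have hμ0 : 0 < μ := by rw [hμ]; positivity
  have hμe : G * μ * (U0 + 1) = e / 4 := by rw [hμ]; field_simp
  obtain ⟨M, hM⟩ : ∃ M : ℝ, M = G * μ ^ (-((1 - P.θ) / P.θ)) := ⟨_, rfl⟩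
  have hM0 : 0 < M := by rw [hM]; positivity
  obtain ⟨ν, hν⟩ : ∃ ν : ℝ, ν = e / (4 * M * U1) := ⟨_, rfl⟩
  have hν0 : 0 < ν := by rw [hν]; positivity
  have hνe : M * (ν * U1) = e / 4 := by rw [hν]; field_simp
  obtain ⟨R, hR⟩ : ∃ R : ℝ, R = ν ^ (-((1 - 1 / (P.m1 + 1 - P.k)) / (1 / (P.m1 + 1 - P.k)))) := ⟨_, rfl⟩
  have hR0 : 0 < R := by rw [hR]; positivity
  have hkp := kp_pos P.hk
  obtain ⟨e3, he3⟩ : ∃ e3 : ℝ, e3 = e / (8 * M * R) := ⟨_, rfl⟩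
  have he30 : 0 < e3 := by rw [he3]; positivity
  have he3e : M * (R * e3) = e / 8 := by rw [he3]; field_simp
  obtain ⟨e4, he4⟩ : ∃ e4 : ℝ, e4 = e3 ^ (kp P.k) := ⟨_, rfl⟩
  have he40 : 0 < e4 := by rw [he4]; positivity
  have he4e : e4 ^ (1 / kp P.k) = e3 := by rw [he4, ← Real.rpow_mul he30.le, mul_one_div_cancel hkp.ne', Real.rpow_one]
  obtain ⟨Q0, hQ0, hQ⟩ := app P.hk h (e := min e (e4 / 2)) (by positivity)
  obtain ⟨m0, hm0, happ⟩ := hQ Q0 le_rfl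
  obtain ⟨n, hn⟩ : ∃ n : ℕ, n = max m0 (⌈2 * Q0⌉₊ + 1) := ⟨_, rfl⟩
  have hn1 : 1 ≤ n := by rw [hn]; exact hm0.trans_le (le_max_left _ _)
  have hnQ : 2 * Q0 / n ≤ 1 := by
    have h1 : (0:ℝ) < n := by exact_mod_cast hn1
    rw [div_le_one h1]
    have h2 : ((⌈2 * Q0⌉₊ + 1 : ℕ) : ℝ) ≤ n := by rw [hn]; exact_mod_cast le_max_right _ _
    push_cast at h2
    linarith [Nat.le_ceil (2 * Q0)]
  have hwt' := hwt Q0 n hQ0 (by omega) hnQ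
  have happ' := happ n (by rw [hn]; exact le_max_left _ _)
  obtain ⟨c, hc⟩ : ∃ c : Fin n → ℂ, c = wt φ Q0 n := ⟨_, rfl⟩
  obtain ⟨y, hy⟩ : ∃ y : Fin n → ℝ, y = nd Q0 n := ⟨_, rfl⟩
  rw [← hc, ← hy] at hwt'
  simp only [← hc, ← hy] at happ'
  have hD0 : ∑ j, ‖c j‖ * (1 + |y j|) ^ N0 ≤ D := (Finset.sum_le_sum fun j _ => mul_le_mul_of_nonneg_left
    (pow_le_pow_right₀ (by linarith [abs_nonneg (y j)]) (le_max_left N0 N1)) (norm_nonneg _)).trans hwt'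
  have hD1 : ∑ j, ‖c j‖ * (1 + |y j|) ^ N1 ≤ D := (Finset.sum_le_sum fun j _ => mul_le_mul_of_nonneg_left
    (pow_le_pow_right₀ (by linarith [abs_nonneg (y j)]) (le_max_right N0 N1)) (norm_nonneg _)).trans hwt'
  obtain ⟨S, hS⟩ : ∃ S : ℝ, S = ∑ j, (‖c j‖ ^ (2 * P.k)) ^ kp P.k := ⟨_, rfl⟩
  have hS0 : 0 ≤ S := by rw [hS]; positivity
  obtain ⟨q3, hq3, hff⟩ := FF P.hk (e := e4 / (2 * (S + 1))) (by positivity)
  obtain ⟨q4, hq4, hdp1⟩ := dp_small P.hZ (m := P.m1) (k := P.k) (z := P.k - P.m1) (by have := P.hm; omega) (by ring) P.hz1 hn1 c y (e := e / (8 * M)) (by positivity)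
  have hdp0 : ∃ q0 : ℕ, 3 ≤ q0 ∧ ∀ q : ℕ, q0 ≤ q → ∀ x : ℝ, 0 < x → x ≤ 1 → ∀ L : ℝ, PL L ≤ PX x → 1 ≤ P.m0 →
      ∫ ω, ‖∑ j, c j * (Fl (pr (PL L)) x (y j) ω - Ey P.Z q x L 1 (y j) ω)‖ ^ (2 * P.m0) * Rs P.Z q x L (P.k - P.m0) ω ∂tm ≤ 1 * x ^ (-P.k ^ 2) := by
    rcases Nat.eq_zero_or_pos P.m0 with h0 | h0
    · exact ⟨3, le_rfl, fun q _ x _ _ L _ h1 => by omega⟩
    · obtain ⟨q5, hq5, h5⟩ := dp_small P.hZ (m := P.m0) (k := P.k) (z := P.k - P.m0) h0 (by ring) P.hz0 hn1 c y (e := 1) one_pos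
      exact ⟨q5, hq5, fun q hq x hx hx1 L hP _ => h5 q hq x hx hx1 L hP⟩
  obtain ⟨q5, hq5, hdp0⟩ := hdp0
  refine ⟨n, c, y, μ, hn1, hμ0, max (max q1 q2) (max (max q3 q4) (max q5 (⌈|B| + 1⌉₊))), hq1.trans ((le_max_left _ _).trans (le_max_left _ _)), fun q hq x hx hx2 hqx => ?_⟩
  have hqq1 : q1 ≤ q := ((le_max_left _ _).trans (le_max_left _ _)).trans hq
  have hqq2 : q2 ≤ q := ((le_max_right _ _).trans (le_max_left _ _)).trans hq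
  have hqq3 : q3 ≤ q := (((le_max_left _ _).trans (le_max_left _ _)).trans (le_max_right _ _)).trans hq
  have hqq4 : q4 ≤ q := (((le_max_right _ _).trans (le_max_left _ _)).trans (le_max_right _ _)).trans hq
  have hqq5 : q5 ≤ q := (((le_max_left _ _).trans (le_max_right _ _)).trans (le_max_right _ _)).trans hq
  have hqB : |B| + 1 ≤ q := (Nat.le_ceil _).trans (by exact_mod_cast (((le_max_right _ _).trans (le_max_right _ _)).trans (le_max_right _ _)).trans hq)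
  have hq33 : 3 ≤ q := hq1.trans hqq1
  have hPL := PL_big hx hx2 hqB
  have hPB : PL (q / x) ≤ PX x := PL_le hx hqx
  have hcc := Il_cc h hx hB hPL
  have hx1 : x ≤ 1 := by linarith
  have hBx : B * x ≤ 1 := by
    have h1 : B ≤ q := by linarith [le_abs_self B]
    exact (mul_le_mul_of_nonneg_right h1 hx.le).trans hqx
  have hIl : ∀ ω, Il φ x (pr (PL (q / x))) ω = Ig φ x ω := fun ω => by
    rw [Il_WS h hx hB hPL hPL ω, Ig_WS h hx hBx hB hPL ω]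
  refine ⟨hcc, ?_, (happ' x hx hx1).trans (min_le_left _ _), hIl⟩
  obtain ⟨L, hL⟩ : ∃ L : ℝ, L = q / x := ⟨_, rfl⟩
  rw [← hL] at hPL hPB hcc hIl ⊢
  obtain ⟨Δ, hΔ⟩ : ∃ Δ : (ℕ → ℝ) → ℂ, Δ = fun ω => Il φ x (pr (PL L)) ω - ∑ j, c j * Fl (pr (PL L)) x (y j) ω := ⟨_, rfl⟩
  obtain ⟨E, hE⟩ : ∃ E : (ℕ → ℝ) → ℂ, E = fun ω => ∑ j, c j * (Fl (pr (PL L)) x (y j) ω - Ey P.Z q x L 1 (y j) ω) := ⟨_, rfl⟩
  have hΔc : CC Δ := by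
    rw [hΔ]
    exact hcc.sub (CC.sum _ fun j _ => (CC.const _).mul (Fl_cc PL_two hx.le _))
  have hEc : CC E := by
    rw [hE]
    exact CC.sum _ fun j _ => (CC.const _).mul ((Fl_cc PL_two hx.le _).sub (Ey_cc _ _ _ _ _ _))
  have hsum : (fun ω => Il φ x (pr (PL L)) ω - Sc P.Z q x L c y ω) = fun ω => Δ ω + E ω := by
    funext ω
    rw [hΔ, hE]
    simp only [Sc, mul_sub, Finset.sum_sub_distrib]
    ring
  rw [hsum]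
  have hxk : 0 < x ^ (-P.k ^ 2) := by positivity
  -- the norm of Δ
  have hnrΔ : nr P.k x Δ ≤ e4 := by
    have e1 : Δ = fun ω => (Ig φ x ω - ∑ j, c j * Fp x (y j) ω) + ∑ j, c j * (Fp x (y j) ω - Fl (pr (PL L)) x (y j) ω) := by
      funext ω
      rw [hΔ]
      simp only [mul_sub, Finset.sum_sub_distrib]
      rw [hIl ω]
      ring
    have hg1 : Gd fun ω => Ig φ x ω - ∑ j, c j * Fp x (y j) ω := (Ig_gd h hx).sub (sum_gd hx c y)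
    have hgF : ∀ j, Gd fun ω => Fp x (y j) ω - Fl (pr (PL L)) x (y j) ω := fun j => (Fp_gd hx _).sub (Fl_cc PL_two hx.le _).gd
    have hg2 : Gd fun ω => ∑ j, c j * (Fp x (y j) ω - Fl (pr (PL L)) x (y j) ω) := Gd.sum _ fun j _ => (hgF j).const_mul _
    rw [e1]
    refine (nr_add P.hk hx.le hg1 hg2).trans ?_
    have h1 := (happ' x hx hx1).trans (min_le_right _ _)
    have h2 : nr P.k x (fun ω => ∑ j, c j * (Fp x (y j) ω - Fl (pr (PL L)) x (y j) ω)) ≤ ∑ j, nr P.k x (fun ω => c j * (Fp x (y j) ω - Fl (pr (PL L)) x (y j) ω)) :=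
      nr_sum P.hk hx.le _ fun j _ => (hgF j).const_mul _
    have h3 : ∑ j, nr P.k x (fun ω => c j * (Fp x (y j) ω - Fl (pr (PL L)) x (y j) ω)) ≤ S * (e4 / (2 * (S + 1))) := by
      have h33 : S * (e4 / (2 * (S + 1))) = ∑ j, (‖c j‖ ^ (2 * P.k)) ^ kp P.k * (e4 / (2 * (S + 1))) := by
        rw [← Finset.sum_mul, ← hS]
      rw [h33]
      refine Finset.sum_le_sum fun j _ => ?_
      rw [nr_mul _ hx.le]
      refine mul_le_mul_of_nonneg_left ?_ (by positivity)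
      rw [hL]
      exact hff q hqq3 x hx hx2 hqx (y j)
    have h4 : S * (e4 / (2 * (S + 1))) ≤ e4 / 2 := by
      have : S * (e4 / (2 * (S + 1))) = e4 / 2 * (S / (S + 1)) := by field_simp
      rw [this]
      have h5 : S / (S + 1) ≤ 1 := (div_le_one (by linarith)).mpr (by linarith)
      nlinarith
    refine (add_le_add h1 (h2.trans (h3.trans h4))).trans (le_of_eq ?_)
    ring
  have hmkΔ : mk P.k Δ ≤ e3 * x ^ (-P.k ^ 2) := by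
    have := mk_of_nr P.hk hx he40.le hnrΔ
    rwa [he4e] at this
  have hI1 : ∫ ω, ‖Δ ω‖ ^ (2 * P.m1) * Rs P.Z q x L (P.k - P.m1) ω ∂tm ≤ R * (e3 * x ^ (-P.k ^ 2)) + ν * (U1 * x ^ (-P.k ^ 2)) := by
    have h1 := hu1 ν hν0 q hqq2 x hx hx1 L hPB hcc n c y hD1
    rw [← hR] at h1
    rw [hΔ] at hmkΔ ⊢
    refine h1.trans ?_
    have h2 := mul_le_mul_of_nonneg_left hmkΔ hR0.le
    linarith
  have hJ1 : ∫ ω, ‖E ω‖ ^ (2 * P.m1) * Rs P.Z q x L (P.k - P.m1) ω ∂tm ≤ e / (8 * M) * x ^ (-P.k ^ 2) := by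
    rw [hE]
    exact hdp1 q hqq4 x hx hx1 L hPB
  have hi : ∀ {f : (ℕ → ℝ) → ℂ} (_ : CC f) (m : ℕ) (z : ℝ), RB fun ω => ‖f ω‖ ^ (2 * m) * Rs P.Z q x L z ω := fun hf m z => (hf.norm.pow _).mul (Rs_rb _ _ _ _ _)
  have hcomb : ∀ (m : ℕ) (z : ℝ), ∫ ω, ‖Δ ω + E ω‖ ^ (2 * m) * Rs P.Z q x L z ω * 1 ∂tm ≤ 2 ^ (2 * m) * ((∫ ω, ‖Δ ω‖ ^ (2 * m) * Rs P.Z q x L z ω ∂tm) + ∫ ω, ‖E ω‖ ^ (2 * m) * Rs P.Z q x L z ω ∂tm) := by
    intro m z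
    rw [← integral_add (hi hΔc m z).int (hi hEc m z).int, ← integral_const_mul]
    simp only [mul_one]
    refine integral_mono (hi (hΔc.add hEc) m z).int ((RB.const _).mul ((hi hΔc m z).add (hi hEc m z))).int fun ω => ?_
    have h1 := mul_le_mul_of_nonneg_right (two_pow_add (Δ ω) (E ω) m) (Rs_nonneg P.Z q x L z ω)
    refine h1.trans (le_of_eq ?_)
    ring
  have h0 : ∫ ω, ‖Δ ω + E ω‖ ^ (2 * P.m0) * Rs P.Z q x L (P.k - P.m0) ω * 1 ∂tm ≤ G * ((U0 + 1) * x ^ (-P.k ^ 2)) := by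
    obtain ⟨hu, hu'⟩ := hu0 q hqq1 x hx hx1 L hPB hcc n c y hD0
    rcases Nat.eq_zero_or_pos P.m0 with hz | hz
    · rw [if_pos hz] at hu'
      simp only [hz, Nat.mul_zero, pow_zero, one_mul] at hu' ⊢
      refine hu'.trans ?_
      have : U0 * x ^ (-P.k ^ 2) ≤ (U0 + 1) * x ^ (-P.k ^ 2) := mul_le_mul_of_nonneg_right (by linarith) hxk.le
      nlinarith [mul_pos (show 0 < U0 + 1 by linarith) hxk]
    · have h1 := hcomb P.m0 (P.k - P.m0)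
      have h2 := hdp0 q hqq5 x hx hx1 L hPB hz
      rw [hΔ, hE] at *
      refine h1.trans ?_
      have h3 : (2:ℝ) ^ (2 * P.m0) ≤ G := by
        rw [hG]
        exact pow_le_pow_right₀ (by norm_num) (by have := P.hm; omega)
      refine mul_le_mul h3 ?_ (add_nonneg (integral_nonneg fun ω => mul_nonneg (by positivity) (Rs_nonneg _ _ _ _ _ _)) (integral_nonneg fun ω => mul_nonneg (by positivity) (Rs_nonneg _ _ _ _ _ _))) hG0.le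
      rw [add_mul]
      exact add_le_add hu h2
  have h1 := hcomb P.m1 (P.k - P.m1)
  rw [← hG] at h1
  unfold MM
  have h2 : μ ^ (-((1 - P.θ) / P.θ)) * (∫ ω, ‖Δ ω + E ω‖ ^ (2 * P.m1) * Rs P.Z q x L (P.k - P.m1) ω * 1 ∂tm) ≤
      M * ((R * (e3 * x ^ (-P.k ^ 2)) + ν * (U1 * x ^ (-P.k ^ 2))) + e / (8 * M) * x ^ (-P.k ^ 2)) := by
    have h3 := mul_le_mul_of_nonneg_left (h1.trans (mul_le_mul_of_nonneg_left (add_le_add hI1 hJ1) hG0.le)) (show 0 ≤ μ ^ (-((1 - P.θ) / P.θ)) by positivity)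
    refine h3.trans (le_of_eq ?_)
    rw [hM]
    ring
  have h3 := mul_le_mul_of_nonneg_left h0 hμ0.le
  have e5 : M * ((R * (e3 * x ^ (-P.k ^ 2)) + ν * (U1 * x ^ (-P.k ^ 2))) + e / (8 * M) * x ^ (-P.k ^ 2)) = (M * (R * e3) + M * (ν * U1) + M * (e / (8 * M))) * x ^ (-P.k ^ 2) := by ring
  have e6 : M * (e / (8 * M)) = e / 8 := by field_simp
  rw [e5, he3e, hνe, e6] at h2
  have e7 : μ * (G * ((U0 + 1) * x ^ (-P.k ^ 2))) = (G * μ * (U0 + 1)) * x ^ (-P.k ^ 2) := by ring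
  rw [e7, hμe] at h3
  have : (e / 8 + e / 4 + e / 8) * x ^ (-P.k ^ 2) + e / 4 * x ^ (-P.k ^ 2) ≤ e * x ^ (-P.k ^ 2) := by nlinarith [mul_pos he hxk]
  linarith

end Pool.Agent.H470
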