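import Pool.Agent.H470.Wa17
import Mathlib.MeasureTheory.Measure.LevyConvergence

set_option autoImplicit false

/-! Continuity theorem for weighted averages, and the Taylor bound for the characteristic function. -/

namespace Pool.Agent.H470

open MeasureTheory Filter Topology ProbabilityTheory Set

variable {n : ℕ} {Ω : Type*} [MeasurableSpace Ω]

/-- real part of a linear form on vectors -/
noncomputable def lr (a z : Fin n → ℂ) : ℝ := (∑ j, a j * z j).re

lemma lr_cont (a : Fin n → ℂ) : Continuous (lr a) := by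
  unfold lr
  fun_prop

lemma inner_lr (z t : EuclideanSpace ℂ (Fin n)) : inner ℝ z t = lr (fun j => (starRingEnd ℂ) (t j)) (fun j => z j) := by
  unfold lr
  rw [PiLp.inner_apply, Complex.re_sum]
  refine Finset.sum_congr rfl fun j _ => ?_
  rw [Complex.inner]
  simp [Complex.mul_re]

theorem levy {p : ℝ → Ω → ℝ} {Y : ℝ → Ω → (Fin n → ℂ)} {ms : ℝ → Measure Ω}
    (hp : ∀ᶠ T : ℝ in atTop, Measurable (p T) ∧ ∀ t, 0 ≤ p T t) (hY : ∀ᶠ T : ℝ in atTop, Measurable (Y T))
    {c : ℝ} (hc : 0 < c) (hi : ∀ᶠ T : ℝ in atTop, Integrable (p T) (ms T))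
    {ρ : ProbabilityMeasure (Fin n → ℂ)}
    (hch : ∀ a : Fin n → ℂ, Tendsto (fun T : ℝ => ∫ t, (p T t : ℂ) * Complex.exp ((lr a (Y T t) : ℂ) * Complex.I) ∂(ms T)) atTop
        (𝓝 ((c : ℂ) * ∫ z, Complex.exp ((lr a z : ℂ) * Complex.I) ∂(ρ : Measure (Fin n → ℂ)))))
    (F : BoundedContinuousFunction (Fin n → ℂ) ℝ) :
    Tendsto (fun T : ℝ => ∫ t, p T t * F (Y T t) ∂(ms T)) atTop (𝓝 (c * ∫ z, F z ∂(ρ : Measure (Fin n → ℂ)))) := by
  classical
  obtain ⟨M, hMd⟩ : ∃ M : ℝ → ℝ, ∀ T, M T = ∫ t, p T t ∂(ms T) := ⟨_, fun _ => rfl⟩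
  have hm0 : Tendsto M atTop (𝓝 c) := by
    have h1 := hch 0
    have e1 : ∀ z : Fin n → ℂ, lr (0 : Fin n → ℂ) z = 0 := fun z => by simp [lr]
    simp only [e1, Complex.ofReal_zero, zero_mul, Complex.exp_zero, mul_one, integral_const, probReal_univ, one_smul] at h1
    have h2 := (Complex.continuous_re.tendsto _).comp h1
    rw [Complex.ofReal_re] at h2
    refine h2.congr fun T => ?_
    rw [hMd, Function.comp, integral_complex_ofReal, Complex.ofReal_re]
  have hmp : ∀ᶠ T in atTop, 0 < M T := hm0.eventually (lt_mem_nhds hc)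
  obtain ⟨q, hqd⟩ : ∃ q : ℝ → Ω → ℝ, ∀ T t, q T t = p T t / M T := ⟨_, fun _ _ => rfl⟩
  have hq1 : ∀ᶠ T : ℝ in atTop, Measurable (q T) ∧ (∀ t, 0 ≤ q T t) ∧ Integrable (q T) (ms T) ∧ ∫ t, q T t ∂(ms T) = 1 := by
    filter_upwards [hp, hmp, hi] with T h1 h2 h3
    have e : q T = fun t => p T t / M T := funext (hqd T)
    rw [e]
    refine ⟨h1.1.div_const _, fun t => div_nonneg (h1.2 t) h2.le, h3.div_const _, ?_⟩
    rw [integral_div, ← hMd, div_self h2.ne']
  obtain ⟨μ, hμ⟩ : ∃ μ : ℝ → ProbabilityMeasure (Fin n → ℂ), ∀ᶠ T : ℝ in atTop, (μ T : Measure (Fin n → ℂ)) = wc (q T) (Y T) (ms T) := by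
    have hex : ∀ T : ℝ, ∃ μT : ProbabilityMeasure (Fin n → ℂ), IsProbabilityMeasure (wc (q T) (Y T) (ms T)) →
        (μT : Measure (Fin n → ℂ)) = wc (q T) (Y T) (ms T) := by
      intro T
      by_cases h : IsProbabilityMeasure (wc (q T) (Y T) (ms T))
      · exact ⟨⟨wc (q T) (Y T) (ms T), h⟩, fun _ => rfl⟩
      · exact ⟨⟨Measure.dirac 0, inferInstance⟩, fun h1 => absurd h1 h⟩
    choose μ hμ using hex
    refine ⟨μ, ?_⟩
    filter_upwards [hq1, hY] with T h1 h2
    exact hμ T (wc_prob h1.2.1 h1.2.2.1 h2 h1.2.2.2)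
  -- transport to the Euclidean space
  have hme : Measurable (WithLp.toLp 2 : (Fin n → ℂ) → EuclideanSpace ℂ (Fin n)) := (PiLp.continuous_toLp 2 _).measurable
  obtain ⟨μE, hμE⟩ : ∃ μE : ProbabilityMeasure (Fin n → ℂ) → ProbabilityMeasure (EuclideanSpace ℂ (Fin n)),
      ∀ m, μE m = m.map hme.aemeasurable := ⟨_, fun _ => rfl⟩
  have hchar : ∀ (m : ProbabilityMeasure (Fin n → ℂ)) (t : EuclideanSpace ℂ (Fin n)), charFun (μE m : Measure (EuclideanSpace ℂ (Fin n))) t =
      ∫ z, Complex.exp ((lr (fun j => (starRingEnd ℂ) (t j)) z : ℂ) * Complex.I) ∂(m : Measure (Fin n → ℂ)) := by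
    intro m t
    rw [hμE, charFun_apply, ProbabilityMeasure.toMeasure_map, integral_map hme.aemeasurable (by
      refine Continuous.aestronglyMeasurable ?_
      fun_prop)]
    refine integral_congr_ae (Eventually.of_forall fun z => ?_)
    show Complex.exp ((inner ℝ (WithLp.toLp 2 z) t : ℂ) * Complex.I) = _
    rw [inner_lr]
  have hseq : Tendsto (fun T => μE (μ T)) atTop (𝓝 (μE ρ)) := by
    refine tendsto_of_seq_tendsto fun u hu => ?_
    refine ProbabilityMeasure.tendsto_of_tendsto_charFun fun t => ?_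
    rw [hchar]
    have hcc : (c : ℂ) ≠ 0 := by exact_mod_cast hc.ne'
    have g5 := (hch fun j => (starRingEnd ℂ) (t j)).div ((Complex.continuous_ofReal.tendsto _).comp hm0) hcc
    rw [mul_div_cancel_left₀ _ hcc] at g5
    refine (g5.comp hu).congr' ?_
    filter_upwards [hu.eventually hq1, hu.eventually hY, hu.eventually hμ] with i g2 g3 g4
    simp only [Function.comp, Pi.div_apply]
    rw [hchar]
    have hcg : Continuous fun z : Fin n → ℂ => Complex.exp ((lr (fun j => (starRingEnd ℂ) (t j)) z : ℂ) * Complex.I) := by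
      have := lr_cont (fun j => (starRingEnd ℂ) (t j))
      fun_prop
    rw [g4, wc_integral g2.1 g2.2.1 g3 hcg, ← integral_div]
    refine integral_congr_ae (Eventually.of_forall fun s => ?_)
    simp only
    rw [hqd, Complex.real_smul]
    push_cast
    ring
  have hof : Continuous (WithLp.ofLp : EuclideanSpace ℂ (Fin n) → (Fin n → ℂ)) := PiLp.continuous_ofLp 2 _
  have hF2 := (ProbabilityMeasure.tendsto_iff_forall_integral_tendsto.mp hseq) (F.compContinuous ⟨_, hof⟩)
  have hint : ∀ m : ProbabilityMeasure (Fin n → ℂ), ∫ z, (F.compContinuous ⟨_, hof⟩) z ∂(μE m : Measure (EuclideanSpace ℂ (Fin n))) = ∫ z, F z ∂(m : Measure (Fin n → ℂ)) := by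
    intro m
    rw [hμE, ProbabilityMeasure.toMeasure_map, integral_map hme.aemeasurable (F.compContinuous ⟨_, hof⟩).continuous.aestronglyMeasurable]
    rfl
  simp only [hint] at hF2
  have h2 := hF2.mul hm0
  rw [mul_comm] at h2
  refine h2.congr' ?_
  filter_upwards [hq1, hY, hμ, hmp] with T h3 h4 h5 h7
  rw [h5, wc_integral h3.1 h3.2.1 h4 F.continuous, ← integral_mul_const]
  refine integral_congr_ae (Eventually.of_forall fun t => ?_)
  show q T t • F (Y T t) * M T = p T t * F (Y T t)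
  rw [hqd, smul_eq_mul]
  field_simp

lemma tay_pos (m : ℕ) : ∀ u : ℝ, 0 ≤ u → ‖Complex.exp ((u:ℂ) * Complex.I) - ∑ j ∈ Finset.range m, ((u:ℂ) * Complex.I) ^ j / (j.factorial : ℂ)‖ ≤ u ^ m / (m.factorial : ℝ) := by
  induction m with
  | zero =>
    intro u hu
    simp [Complex.norm_exp_ofReal_mul_I]
  | succ m ih =>
    intro u hu
    obtain ⟨R, hR⟩ : ∃ R : ℕ → ℝ → ℂ, ∀ k u, R k u = Complex.exp ((u:ℂ) * Complex.I) - ∑ j ∈ Finset.range k, ((u:ℂ) * Complex.I) ^ j / (j.factorial : ℂ) := ⟨_, fun _ _ => rfl⟩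
    simp only [← hR] at ih ⊢
    have hcont : Continuous (R m) := by
      have : R m = fun u : ℝ => Complex.exp ((u:ℂ) * Complex.I) - ∑ j ∈ Finset.range m, ((u:ℂ) * Complex.I) ^ j / (j.factorial : ℂ) := funext (hR m)
      rw [this]
      fun_prop
    have hder : ∀ s : ℝ, HasDerivAt (R (m + 1)) (Complex.I * R m s) s := by
      intro s
      have e1 : R (m + 1) = fun u : ℝ => Complex.exp ((u:ℂ) * Complex.I) - ∑ j ∈ Finset.range (m + 1), ((u:ℂ) * Complex.I) ^ j / (j.factorial : ℂ) := funext (hR (m + 1))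
      rw [e1]
      have h1 : HasDerivAt (fun u : ℝ => (u:ℂ) * Complex.I) Complex.I s := by
        have := (Complex.ofRealCLM.hasDerivAt (x := s)).mul_const Complex.I
        simpa using this
      have h2 : HasDerivAt (fun u : ℝ => Complex.exp ((u:ℂ) * Complex.I)) (Complex.exp ((s:ℂ) * Complex.I) * Complex.I) s := h1.cexp
      have h3 : ∀ j ∈ Finset.range (m + 1), HasDerivAt (fun u : ℝ => ((u:ℂ) * Complex.I) ^ j / (j.factorial : ℂ)) ((j:ℂ) * ((s:ℂ) * Complex.I) ^ (j - 1) * Complex.I / (j.factorial : ℂ)) s := fun j _ =>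
        (h1.pow j).div_const _
      have h4 := h2.sub (HasDerivAt.fun_sum h3)
      refine h4.congr_deriv ?_
      rw [hR, Finset.sum_range_succ', mul_sub, Finset.mul_sum]
      simp only [Nat.cast_zero, zero_mul, zero_div, add_zero]
      congr 1
      · ring
      · refine Finset.sum_congr rfl fun j _ => ?_
        rw [Nat.add_sub_cancel, Nat.factorial_succ]
        have h5 : ((j:ℂ) + 1) ≠ 0 := by exact_mod_cast Nat.succ_ne_zero j
        have h6 : ((j.factorial : ℕ) : ℂ) ≠ 0 := by exact_mod_cast Nat.factorial_ne_zero j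
        push_cast
        field_simp
    have h0 : R (m + 1) 0 = 0 := by
      rw [hR, Finset.sum_range_succ']
      simp
    have h1 : R (m + 1) u = ∫ s in (0:ℝ)..u, Complex.I * R m s := by
      rw [intervalIntegral.integral_eq_sub_of_hasDerivAt (fun s _ => hder s) ((hcont.const_mul _).intervalIntegrable _ _), h0, sub_zero]
    rw [h1]
    have h2 : ‖∫ s in (0:ℝ)..u, Complex.I * R m s‖ ≤ ∫ s in (0:ℝ)..u, s ^ m / (m.factorial : ℝ) := by
      refine intervalIntegral.norm_integral_le_of_norm_le hu (Eventually.of_forall fun s hs => ?_) (by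
        refine Continuous.intervalIntegrable ?_ _ _
        fun_prop)
      rw [norm_mul, Complex.norm_I, one_mul]
      exact ih s hs.1.le
    refine h2.trans (le_of_eq ?_)
    rw [intervalIntegral.integral_div, integral_pow, Nat.factorial_succ]
    have h6 : ((m.factorial : ℕ) : ℝ) ≠ 0 := by exact_mod_cast Nat.factorial_ne_zero m
    push_cast
    field_simp
    simp

lemma tay_I (m : ℕ) (u : ℝ) : ‖Complex.exp ((u:ℂ) * Complex.I) - ∑ j ∈ Finset.range m, ((u:ℂ) * Complex.I) ^ j / (j.factorial : ℂ)‖ ≤ |u| ^ m / (m.factorial : ℝ) := by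
  rcases le_or_gt 0 u with hu | hu
  · rw [abs_of_nonneg hu]
    exact tay_pos m u hu
  · have h1 := tay_pos m (-u) (by linarith)
    rw [abs_of_neg hu]
    refine le_trans (le_of_eq ?_) h1
    rw [← Complex.norm_conj]
    congr 1
    rw [map_sub, map_sum, ← Complex.exp_conj]
    congr 1
    · congr 1
      simp
    · refine Finset.sum_congr rfl fun j _ => ?_
      simp

end Pool.Agent.H470
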