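import Pool.Agent.H470.Wa18

set_option autoImplicit false

/-! The weighted characteristic function on the torus. -/

namespace Pool.Agent.H470

open MeasureTheory Filter Topology ProbabilityTheory Set
open scoped ENNReal
open Pool.Agent.TH806 (ec ec_norm ec_cont uu integrable_uu)
open Pool.Agent.R313.CX (mu Cv)

lemma Fp_cut (k x L : ℝ) (hP : PL L ≤ PX x) (ω : ℕ → ℝ) :
    ‖Fp x 0 ω‖ ^ (2 * k) = Real.exp (2 * k * (Xs (pr (PL L)) (sp x 0) ω).re) * Real.exp (2 * k * (Xs (JJ' x L) (sp x 0) ω).re) := by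
  rw [Fp_norm_rpow, ← Real.exp_add]
  congr 1
  unfold Xp JJ'
  rw [Xs_split (pr_mono hP), Complex.add_re]
  ring

lemma eX_eq (k x L : ℝ) (ω : ℕ → ℝ) : Real.exp (2 * k * (Xs (pr (PL L)) (sp x 0) ω).re) = ‖Fl (pr (PL L)) x 0 ω‖ ^ (2 * k) := by
  unfold Fl
  rw [Complex.norm_exp, ← Real.exp_mul]
  congr 1
  ring

lemma FJ {k : ℝ} (hk : 0 < k) : ∃ C : ℝ, 0 < C ∧ ∀ q : ℕ, 1 ≤ q → ∀ x : ℝ, 0 < x → x ≤ 1 / 2 → q * x ≤ 1 → ∀ y : ℝ,
    ∫ ω, Real.exp (2 * k * (Xs (pr (PL (q / x))) (sp x 0) ω).re) * (‖Xs (JJ' x (q / x)) (sp x y) ω‖ * Real.exp (2 * k * ‖Xs (JJ' x (q / x)) (sp x y) ω‖ + 2 * k * ‖Xs (JJ' x (q / x)) (sp x 0) ω‖)) ∂tm ≤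
      C * x ^ (-k ^ 2) * Real.exp (-((q:ℝ) / 2)) := by
  obtain ⟨C1, hC1, h1⟩ := Fl_mass hk
  obtain ⟨C2, hC2, h2⟩ := rest_e (c := 2 * k) (by positivity)
  refine ⟨C1 * C2, by positivity, fun q hq x hx hx2 hqx y => ?_⟩
  obtain ⟨L, hL⟩ : ∃ L : ℝ, L = q / x := ⟨_, rfl⟩
  rw [← hL]
  have hxL : x * L = q := by rw [hL]; field_simp
  have hL1 : 1 / x ≤ L := by
    rw [hL]
    exact div_le_div_of_nonneg_right (by exact_mod_cast hq) hx.le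
  have hP : PL L ≤ PX x := by rw [hL]; exact PL_le hx hqx
  have hJ := XJ_cc hx.le L y
  have hJ0 := XJ_cc hx.le L 0
  have hrF : RB fun ω => Real.exp (2 * k * (Xs (pr (PL L)) (sp x 0) ω).re) := (Xs_cc PL_two hx.le 0).re.comp (g := fun t => Real.exp (2 * k * t)) (by fun_prop)
  have hrJ : RB fun ω => ‖Xs (JJ' x L) (sp x y) ω‖ * Real.exp (2 * k * ‖Xs (JJ' x L) (sp x y) ω‖ + 2 * k * ‖Xs (JJ' x L) (sp x 0) ω‖) :=
    hJ.norm.mul ((((RB.const (2 * k)).mul hJ.norm).add ((RB.const (2 * k)).mul hJ0.norm)).comp Real.continuous_exp)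
  rw [dep_int (JJ'_disj x L) hrF.1.measurable hrJ.1.measurable (fun ω ω' h' => by rw [Xs_dep _ _ h']) (fun ω ω' h' => by rw [Xs_dep _ _ h', Xs_dep _ _ h'])]
  have h3 := h1 x hx (by linarith) (pr (PL L)) (pr_mono hP) 0
  have h4 := (h2 x hx hx2 L hL1 hP y 0).1
  rw [hxL] at h4
  simp only [← eX_eq] at h3
  have h5 : 0 ≤ ∫ ω, ‖Xs (JJ' x L) (sp x y) ω‖ * Real.exp (2 * k * ‖Xs (JJ' x L) (sp x y) ω‖ + 2 * k * ‖Xs (JJ' x L) (sp x 0) ω‖) ∂tm := integral_nonneg fun ω => by positivity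
  calc _ ≤ (C1 * x ^ (-k ^ 2)) * (C2 * Real.exp (-((q:ℝ) / 2))) := mul_le_mul h3 h4 h5 (by positivity)
    _ = _ := by ring

lemma eq_lim : Tendsto (fun q : ℕ => Real.exp (-((q:ℝ) / 2))) atTop (𝓝 0) :=
  Real.tendsto_exp_neg_atTop_nhds_zero.comp (tendsto_natCast_atTop_atTop.atTop_div_const (by norm_num))

theorem Ek_F (P : Pm) {e : ℝ} (he : 0 < e) : ∃ q0 : ℕ, 3 ≤ q0 ∧ ∀ q : ℕ, q0 ≤ q → ∀ x : ℝ, 0 < x → x ≤ 1 / 2 → q * x ≤ 1 →
    ∫ ω, |‖Ey P.Z q x (q / x) P.k 0 ω‖ ^ 2 - ‖Fp x 0 ω‖ ^ (2 * P.k)| ∂tm ≤ e * x ^ (-P.k ^ 2) := by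
  have hk := P.hk
  have hkZ : |P.k| ≤ P.Z := by rw [abs_of_pos hk]; exact P.hkZ
  obtain ⟨C, hC, hta⟩ := ta_near P.Z P.hZ
  obtain ⟨C1, hC1, hX⟩ := Xb_of_Tb P.k (2 * P.k) 0
  obtain ⟨C2, hC2, hV⟩ := Tb_V (2 * P.k) hC.le P.Z 2
  obtain ⟨C3, hC3, h3⟩ := FJ hk
  have hlim : Tendsto (fun q : ℕ => (Real.exp (C2 * uq q) - 1) * C1 + 2 * P.k * (C3 * Real.exp (-((q:ℝ) / 2)))) atTop (𝓝 0) := by
    have h1 : Tendsto (fun q : ℕ => Real.exp (C2 * uq q)) atTop (𝓝 (Real.exp (C2 * 0))) := (Real.continuous_exp.tendsto _).comp (uq_lim.const_mul C2)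
    have h2 := ((h1.sub_const 1).mul_const C1).add ((eq_lim.const_mul C3).const_mul (2 * P.k))
    simpa using h2
  obtain ⟨q1, hq1⟩ := eventually_atTop.mp (hlim.eventually (gt_mem_nhds he))
  refine ⟨max 3 q1, le_max_left _ _, fun q hq x hx hx2 hqx => ?_⟩
  have hq3 : 3 ≤ q := (le_max_left _ _).trans hq
  have hqq : q1 ≤ q := (le_max_right _ _).trans hq
  have h3' := h3 q (by omega) x hx hx2 hqx 0
  obtain ⟨L, hL⟩ : ∃ L : ℝ, L = q / x := ⟨_, rfl⟩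
  have hP : PL L ≤ PX x := by rw [hL]; exact PL_le hx hqx
  rw [← hL] at h3' ⊢
  have hx1 : x ≤ 1 := by linarith
  have hVr := Vb_rb (C := C) (Z := P.Z) (q := q) hx.le L 0
  have hV2 : RB fun ω => Vb C P.Z q x L 0 ω ^ 2 - 1 := by
    have := (hVr.pow 2).add (RB.const (-1))
    simpa [sub_eq_add_neg] using this
  have hVK := (hV q hq3 x hx.le L 0).2
  have hK0 : 0 ≤ Real.exp (C2 * uq q) - 1 := by
    have := Real.add_one_le_exp (C2 * uq q)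
    have h2 : 0 ≤ C2 * uq q := mul_nonneg hC2 (uq_nonneg q)
    linarith
  have h4 := (hX x hx hx1 L hP _ _ hK0 hVK).use (m := 0) (z := P.k) (y := 0) (by push_cast; ring) (by
    rw [abs_of_pos hk]; push_cast; linarith) le_rfl (by simp)
  simp only [Nat.mul_zero, pow_zero, one_mul] at h4
  have hrF : RB fun ω => Real.exp (2 * P.k * (Xs (pr (PL L)) (sp x 0) ω).re) := (Xs_cc PL_two hx.le 0).re.comp (g := fun t => Real.exp (2 * P.k * t)) (by fun_prop)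
  have hJ0 := XJ_cc hx.le L 0
  have hrJ : RB fun ω => ‖Xs (JJ' x L) (sp x 0) ω‖ * Real.exp (2 * P.k * ‖Xs (JJ' x L) (sp x 0) ω‖ + 2 * P.k * ‖Xs (JJ' x L) (sp x 0) ω‖) :=
    hJ0.norm.mul ((((RB.const (2 * P.k)).mul hJ0.norm).add ((RB.const (2 * P.k)).mul hJ0.norm)).comp Real.continuous_exp)
  have hpt : ∀ ω, |‖Ey P.Z q x L P.k 0 ω‖ ^ 2 - ‖Fp x 0 ω‖ ^ (2 * P.k)| ≤
      Real.exp (2 * P.k * (Xs (pr (PL L)) (sp x 0) ω).re) * (Vb C P.Z q x L 0 ω ^ 2 - 1) +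
      2 * P.k * (Real.exp (2 * P.k * (Xs (pr (PL L)) (sp x 0) ω).re) * (‖Xs (JJ' x L) (sp x 0) ω‖ * Real.exp (2 * P.k * ‖Xs (JJ' x L) (sp x 0) ω‖ + 2 * P.k * ‖Xs (JJ' x L) (sp x 0) ω‖))) := by
    intro ω
    rw [Fp_cut P.k x L hP ω]
    obtain ⟨a, ha⟩ : ∃ a : ℝ, a = Real.exp (2 * P.k * (Xs (pr (PL L)) (sp x 0) ω).re) := ⟨_, rfl⟩
    have ha0 : 0 < a := by rw [ha]; exact Real.exp_pos _
    obtain ⟨w, hw⟩ : ∃ w : ℂ, w = Ey P.Z q x L P.k 0 ω * Complex.exp (-((P.k:ℂ) * Xs (pr (PL L)) (sp x 0) ω)) := ⟨_, rfl⟩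
    have hw1 : ‖w - 1‖ ≤ Vb C P.Z q x L 0 ω - 1 := by
      rw [hw]
      exact Ey_near ω (fun b => hta q hq3 x hx.le L 0 P.k hkZ b ω)
    have hE : ‖Ey P.Z q x L P.k 0 ω‖ ^ 2 = a * ‖w‖ ^ 2 := by
      rw [hw, norm_mul, mul_pow, Complex.norm_exp, ← Real.exp_nat_mul]
      have e1 : a * (‖Ey P.Z q x L P.k 0 ω‖ ^ 2 * Real.exp (((2:ℕ):ℝ) * (-((P.k:ℂ) * Xs (pr (PL L)) (sp x 0) ω)).re)) = ‖Ey P.Z q x L P.k 0 ω‖ ^ 2 * (a * Real.exp (((2:ℕ):ℝ) * (-((P.k:ℂ) * Xs (pr (PL L)) (sp x 0) ω)).re)) := by ring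
      rw [e1, ha, ← Real.exp_add]
      have e2 : 2 * P.k * (Xs (pr (PL L)) (sp x 0) ω).re + ((2:ℕ):ℝ) * (-((P.k:ℂ) * Xs (pr (PL L)) (sp x 0) ω)).re = 0 := by
        rw [Complex.neg_re, Complex.re_ofReal_mul]
        push_cast
        ring
      rw [e2, Real.exp_zero, mul_one]
    rw [← ha, hE]
    have hV1 := Vb_one hC.le P.Z q x L 0 ω
    have hw2 : |‖w‖ ^ 2 - 1| ≤ Vb C P.Z q x L 0 ω ^ 2 - 1 := by
      have h5 : |‖w‖ - 1| ≤ Vb C P.Z q x L 0 ω - 1 := by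
        have := abs_norm_sub_norm_le w 1
        rw [norm_one] at this
        exact this.trans hw1
      have h6 : ‖w‖ + 1 ≤ Vb C P.Z q x L 0 ω + 1 := by
        have := (abs_le.mp h5).2
        linarith
      have h7 : ‖w‖ ^ 2 - 1 = (‖w‖ - 1) * (‖w‖ + 1) := by ring
      rw [h7, abs_mul, abs_of_nonneg (show 0 ≤ ‖w‖ + 1 by positivity)]
      calc |‖w‖ - 1| * (‖w‖ + 1) ≤ (Vb C P.Z q x L 0 ω - 1) * (Vb C P.Z q x L 0 ω + 1) := mul_le_mul h5 h6 (by positivity) (by linarith)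
        _ = _ := by ring
    obtain ⟨v, hv⟩ : ∃ v : ℂ, v = Xs (JJ' x L) (sp x 0) ω := ⟨_, rfl⟩
    rw [← hv]
    have h8 : |1 - Real.exp (2 * P.k * v.re)| ≤ 2 * P.k * (‖v‖ * Real.exp (2 * P.k * ‖v‖ + 2 * P.k * ‖v‖)) := by
      have h9 := exp_sub_le ((2 * P.k * v.re : ℝ) : ℂ)
      rw [← Complex.ofReal_exp, Complex.norm_real, Real.norm_eq_abs] at h9
      have h10 : ‖((Real.exp (2 * P.k * v.re) : ℝ):ℂ) - 1‖ = |1 - Real.exp (2 * P.k * v.re)| := by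
        rw [← Complex.ofReal_one, ← Complex.ofReal_sub, Complex.norm_real, Real.norm_eq_abs, abs_sub_comm]
      rw [h10] at h9
      have h11 : |2 * P.k * v.re| ≤ 2 * P.k * ‖v‖ := by
        rw [abs_mul, abs_of_pos (by positivity : 0 < 2 * P.k)]
        exact mul_le_mul_of_nonneg_left (Complex.abs_re_le_norm v) (by positivity)
      refine h9.trans ?_
      have h12 : Real.exp |2 * P.k * v.re| ≤ Real.exp (2 * P.k * ‖v‖ + 2 * P.k * ‖v‖) := by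
        rw [Real.exp_le_exp]
        have : 0 ≤ 2 * P.k * ‖v‖ := by positivity
        linarith
      calc |2 * P.k * v.re| * Real.exp |2 * P.k * v.re| ≤ (2 * P.k * ‖v‖) * Real.exp (2 * P.k * ‖v‖ + 2 * P.k * ‖v‖) :=
            mul_le_mul h11 h12 (Real.exp_pos _).le (by positivity)
        _ = _ := by ring
    have e3 : a * ‖w‖ ^ 2 - a * Real.exp (2 * P.k * v.re) = a * (‖w‖ ^ 2 - 1) + a * (1 - Real.exp (2 * P.k * v.re)) := by ring
    rw [e3]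
    refine (abs_add_le _ _).trans ?_
    rw [abs_mul, abs_mul, abs_of_pos ha0]
    have h13 := mul_le_mul_of_nonneg_left hw2 ha0.le
    have h14 := mul_le_mul_of_nonneg_left h8 ha0.le
    calc a * |‖w‖ ^ 2 - 1| + a * |1 - Real.exp (2 * P.k * v.re)| ≤ a * (Vb C P.Z q x L 0 ω ^ 2 - 1) + a * (2 * P.k * (‖v‖ * Real.exp (2 * P.k * ‖v‖ + 2 * P.k * ‖v‖))) := add_le_add h13 h14
      _ = _ := by ring
  have hi0 : Integrable (fun ω => |‖Ey P.Z q x L P.k 0 ω‖ ^ 2 - ‖Fp x 0 ω‖ ^ (2 * P.k)|) tm := by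
    refine ((((Ey_cc P.Z q x L P.k 0).norm.pow 2).int).sub ?_).abs
    exact (Fp_gd hx 0).intp (by positivity)
  refine (integral_mono hi0 ((hrF.mul hV2).add ((RB.const (2 * P.k)).mul (hrF.mul hrJ))).int hpt).trans ?_
  rw [integral_add (hrF.mul hV2).int ((RB.const (2 * P.k)).mul (hrF.mul hrJ)).int, integral_const_mul]
  have h15 := mul_le_mul_of_nonneg_left h3' (show 0 ≤ 2 * P.k by positivity)
  refine (add_le_add h4 h15).trans ?_
  have h16 := mul_le_mul_of_nonneg_right (hq1 q hqq).le (show 0 ≤ x ^ (-P.k ^ 2) by positivity)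
  linarith

theorem Yx_G {k : ℝ} (hk : 0 < k) {n : ℕ} (a : Fin n → ℂ) (y : Fin n → ℝ) {e : ℝ} (he : 0 < e) : ∃ q0 : ℕ, 3 ≤ q0 ∧ ∀ q : ℕ, q0 ≤ q → ∀ x : ℝ, 0 < x → x ≤ 1 / 2 → q * x ≤ 1 →
    ∫ ω, ‖Fp x 0 ω‖ ^ (2 * k) * ‖hG q x (q / x) a y ω - ∑ j, a j * Yx y x ω j‖ ∂tm ≤ e * x ^ (-k ^ 2) := by
  obtain ⟨C1, hC1, h1⟩ := Fl_mass hk
  obtain ⟨C3, hC3, h3⟩ := FJ hk
  obtain ⟨A, hA⟩ : ∃ A : ℝ, A = ∑ j, ‖a j‖ := ⟨_, rfl⟩
  have hA0 : 0 ≤ A := by rw [hA]; positivity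
  have hlim : Tendsto (fun q : ℕ => A * (2 * (4 * K2 * (3 / 4) ^ (q - 3))) * C1 + A * (2 * (C3 * Real.exp (-((q:ℝ) / 2))))) atTop (𝓝 0) := by
    have h4 : Tendsto (fun q : ℕ => ((3:ℝ) / 4) ^ (q - 3)) atTop (𝓝 0) :=
      (tendsto_pow_atTop_nhds_zero_of_lt_one (by norm_num) (by norm_num)).comp (tendsto_sub_atTop_nat 3)
    have h2 := (((((h4.const_mul (4 * K2)).const_mul 2).const_mul A).mul_const C1)).add (((eq_lim.const_mul C3).const_mul 2).const_mul A)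
    simpa using h2
  obtain ⟨q1, hq1⟩ := eventually_atTop.mp (hlim.eventually (gt_mem_nhds he))
  refine ⟨max 3 q1, le_max_left _ _, fun q hq x hx hx2 hqx => ?_⟩
  have hq3 : 3 ≤ q := (le_max_left _ _).trans hq
  have hqq : q1 ≤ q := (le_max_right _ _).trans hq
  have h3' := h3 q (by omega) x hx hx2 hqx
  obtain ⟨L, hL⟩ : ∃ L : ℝ, L = q / x := ⟨_, rfl⟩
  have hP : PL L ≤ PX x := by rw [hL]; exact PL_le hx hqx
  rw [← hL] at h3' ⊢
  have hx1 : x ≤ 1 := by linarith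
  obtain ⟨d, hd⟩ : ∃ d : ℝ, d = 4 * K2 * (3 / 4) ^ (q - 3) := ⟨_, rfl⟩
  have hdl : dl q (pr (PL L)) ≤ d := by rw [hd]; exact dl_le PL_two hq3
  have hJc := fun y => XJ_cc (x := x) hx.le L y
  have hrF : RB fun ω => Real.exp (2 * k * (Xs (pr (PL L)) (sp x 0) ω).re) := (Xs_cc PL_two hx.le 0).re.comp (g := fun t => Real.exp (2 * k * t)) (by fun_prop)
  obtain ⟨g, hg⟩ : ∃ g : ℝ → (ℕ → ℝ) → ℝ, ∀ y ω, g y ω = Real.exp (2 * k * (Xs (pr (PL L)) (sp x 0) ω).re) * (‖Xs (JJ' x L) (sp x y) ω‖ * Real.exp (2 * k * ‖Xs (JJ' x L) (sp x y) ω‖ + 2 * k * ‖Xs (JJ' x L) (sp x 0) ω‖)) := ⟨_, fun _ _ => rfl⟩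
  have hgr : ∀ y, RB (g y) := fun y => by
    rw [show g y = _ from funext (hg y)]
    exact hrF.mul ((hJc y).norm.mul ((((RB.const (2 * k)).mul (hJc y).norm).add ((RB.const (2 * k)).mul (hJc 0).norm)).comp Real.continuous_exp))
  simp only [← hg] at h3'
  have hFi : Integrable (fun ω => ‖Fp x 0 ω‖ ^ (2 * k)) tm := (Fp_gd hx 0).intp (by positivity)
  have hpt : ∀ ω, ‖Fp x 0 ω‖ ^ (2 * k) * ‖hG q x L a y ω - ∑ j, a j * Yx y x ω j‖ ≤
      A * (2 * d) * ‖Fp x 0 ω‖ ^ (2 * k) + ∑ j, ‖a j‖ * (g (y j) ω + g 0 ω) := by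
    intro ω
    have hF0 : 0 ≤ ‖Fp x 0 ω‖ ^ (2 * k) := by positivity
    have h4 := hG_near q hx.le L a y ω
    have h5 : ‖hX x L a y ω - ∑ j, a j * Yx y x ω j‖ ≤ ∑ j, ‖a j‖ * (‖Xs (JJ' x L) (sp x (y j)) ω‖ + ‖Xs (JJ' x L) (sp x 0) ω‖) := by
      unfold hX
      rw [← Finset.sum_sub_distrib]
      refine (norm_sum_le _ _).trans (Finset.sum_le_sum fun j _ => ?_)
      rw [← mul_sub, norm_mul]
      refine mul_le_mul_of_nonneg_left ?_ (norm_nonneg _)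
      have e1 : Xs (pr (PL L)) (sp x (y j)) ω - Xs (pr (PL L)) (sp x 0) ω - Yx y x ω j = -Xs (JJ' x L) (sp x (y j)) ω + Xs (JJ' x L) (sp x 0) ω := by
        unfold Yx Xp JJ'
        rw [Xs_split (pr_mono hP), Xs_split (I := pr (PL L)) (J := pr (PX x)) (pr_mono hP) (sp x 0)]
        ring
      rw [e1]
      refine (norm_add_le _ _).trans ?_
      rw [norm_neg]
    have h6 : ∀ y', ‖Fp x 0 ω‖ ^ (2 * k) * ‖Xs (JJ' x L) (sp x y') ω‖ ≤ g y' ω := by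
      intro y'
      rw [hg, Fp_cut k x L hP ω, mul_assoc]
      refine mul_le_mul_of_nonneg_left ?_ (Real.exp_pos _).le
      rw [mul_comm]
      refine mul_le_mul_of_nonneg_left (Real.exp_le_exp.mpr ?_) (norm_nonneg _)
      have h7 : 2 * k * (Xs (JJ' x L) (sp x 0) ω).re ≤ 2 * k * ‖Xs (JJ' x L) (sp x 0) ω‖ := mul_le_mul_of_nonneg_left (Complex.re_le_norm _) (by positivity)
      have h8 : 0 ≤ 2 * k * ‖Xs (JJ' x L) (sp x y') ω‖ := by positivity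
      linarith
    have h7 : ‖hG q x L a y ω - ∑ j, a j * Yx y x ω j‖ ≤ A * (2 * d) + ∑ j, ‖a j‖ * (‖Xs (JJ' x L) (sp x (y j)) ω‖ + ‖Xs (JJ' x L) (sp x 0) ω‖) := by
      have e2 : hG q x L a y ω - ∑ j, a j * Yx y x ω j = -(hX x L a y ω - hG q x L a y ω) + (hX x L a y ω - ∑ j, a j * Yx y x ω j) := by ring
      rw [e2]
      refine (norm_add_le _ _).trans ?_
      rw [norm_neg]
      refine add_le_add (h4.trans ?_) h5
      rw [← hA]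
      exact mul_le_mul_of_nonneg_left (by linarith) hA0
    refine (mul_le_mul_of_nonneg_left h7 hF0).trans ?_
    rw [mul_add, Finset.mul_sum, mul_comm (‖Fp x 0 ω‖ ^ (2 * k)) (A * (2 * d))]
    refine add_le_add le_rfl (Finset.sum_le_sum fun j _ => ?_)
    have h8 := add_le_add (h6 (y j)) (h6 0)
    have h9 := mul_le_mul_of_nonneg_left h8 (norm_nonneg (a j))
    refine le_trans (le_of_eq ?_) h9
    ring
  have hsr : RB fun ω => ∑ j, ‖a j‖ * (g (y j) ω + g 0 ω) := RB.sum _ fun j _ => (RB.const _).mul ((hgr _).add (hgr _))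
  have hi0 : Integrable (fun ω => ‖Fp x 0 ω‖ ^ (2 * k) * ‖hG q x L a y ω - ∑ j, a j * Yx y x ω j‖) tm := by
    refine Integrable.mono' ((hFi.const_mul (A * (2 * d))).add hsr.int) ?_ (Eventually.of_forall fun ω => ?_)
    · have hm : Measurable fun ω => ∑ j, a j * Yx y x ω j := by
        have := (Yx_cont y hx).measurable
        fun_prop
      exact (((Fp_gd hx 0).1.norm.pow_const _).mul (((hG_cc q x L a y).1.measurable.sub hm).norm)).aestronglyMeasurable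
    · rw [Real.norm_of_nonneg (by positivity)]
      exact hpt ω
  refine (integral_mono hi0 ((hFi.const_mul _).add hsr.int) hpt).trans ?_
  rw [integral_add' (hFi.const_mul _) hsr.int, integral_const_mul, integral_finset_sum _ fun j _ => ((RB.const _).mul ((hgr _).add (hgr _))).int]
  have h10 : ∫ ω, ‖Fp x 0 ω‖ ^ (2 * k) ∂tm ≤ C1 * x ^ (-k ^ 2) := h1 x hx hx1 (pr (PX x)) (Finset.Subset.refl _) 0
  have h11 : ∀ j, ∫ ω, ‖a j‖ * (g (y j) ω + g 0 ω) ∂tm ≤ ‖a j‖ * (2 * (C3 * x ^ (-k ^ 2) * Real.exp (-((q:ℝ) / 2)))) := by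
    intro j
    rw [integral_const_mul, integral_add (hgr _).int (hgr _).int]
    refine mul_le_mul_of_nonneg_left ?_ (norm_nonneg _)
    have := h3' (y j)
    have := h3' 0
    linarith
  have hd0 : 0 ≤ d := by rw [hd]; have := K2_nonneg; positivity
  have h12 := mul_le_mul_of_nonneg_left h10 (show 0 ≤ A * (2 * d) by positivity)
  have h13 : ∑ j, ∫ ω, ‖a j‖ * (g (y j) ω + g 0 ω) ∂tm ≤ A * (2 * (C3 * x ^ (-k ^ 2) * Real.exp (-((q:ℝ) / 2)))) := by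
    rw [hA, Finset.sum_mul]
    exact Finset.sum_le_sum fun j _ => h11 j
  have h14 := mul_le_mul_of_nonneg_right (hq1 q hqq).le (show 0 ≤ x ^ (-k ^ 2) by positivity)
  rw [← hd] at h14
  linarith

lemma cexp_sub (u v : ℝ) : ‖Complex.exp ((u:ℂ) * Complex.I) - Complex.exp ((v:ℂ) * Complex.I)‖ ≤ |u - v| := by
  have e1 : Complex.exp ((u:ℂ) * Complex.I) - Complex.exp ((v:ℂ) * Complex.I) = Complex.exp ((v:ℂ) * Complex.I) * (Complex.exp (Complex.I * ((u - v : ℝ):ℂ)) - 1) := by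
    rw [mul_sub, ← Complex.exp_add, mul_one]
    congr 2
    push_cast
    ring
  rw [e1, norm_mul, Complex.norm_exp_ofReal_mul_I, one_mul]
  exact Real.norm_exp_I_mul_ofReal_sub_one_le

theorem ch_near (P : Pm) {n : ℕ} (a : Fin n → ℂ) (y : Fin n → ℝ) {e : ℝ} (he : 0 < e) : ∃ q0 : ℕ, 3 ≤ q0 ∧ ∀ q : ℕ, q0 ≤ q → ∀ x : ℝ, 0 < x → x ≤ 1 / 2 → q * x ≤ 1 →
    ‖(∫ ω, ((‖Ey P.Z q x (q / x) P.k 0 ω‖ ^ 2 : ℝ) : ℂ) * Complex.exp (((hG q x (q / x) a y ω).re : ℂ) * Complex.I) ∂tm) -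
      ∫ ω, ((‖Fp x 0 ω‖ ^ (2 * P.k) : ℝ) : ℂ) * Complex.exp ((lr a (Yx y x ω) : ℂ) * Complex.I) ∂tm‖ ≤ e * x ^ (-P.k ^ 2) := by
  have hk := P.hk
  obtain ⟨q1, hq1, h1⟩ := Ek_F P (e := e / 2) (by positivity)
  obtain ⟨q2, hq2, h2⟩ := Yx_G hk a y (e := e / 2) (by positivity)
  refine ⟨max q1 q2, hq1.trans (le_max_left _ _), fun q hq x hx hx2 hqx => ?_⟩
  have h1' := h1 q ((le_max_left _ _).trans hq) x hx hx2 hqx
  have h2' := h2 q ((le_max_right _ _).trans hq) x hx hx2 hqx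
  obtain ⟨L, hL⟩ : ∃ L : ℝ, L = q / x := ⟨_, rfl⟩
  rw [← hL] at h1' h2' ⊢
  have hYm : Measurable fun ω => ∑ j, a j * Yx y x ω j := by
    have := (Yx_cont y hx).measurable
    fun_prop
  have hEc := (Ey_cc P.Z q x L P.k 0).norm.pow 2
  have hFi : Integrable (fun ω => ‖Fp x 0 ω‖ ^ (2 * P.k)) tm := (Fp_gd hx 0).intp (by positivity)
  have hlm : Measurable fun ω => lr a (Yx y x ω) := (lr_cont a).measurable.comp (Yx_cont y hx).measurable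
  have hi1 : Integrable (fun ω => ((‖Ey P.Z q x L P.k 0 ω‖ ^ 2 : ℝ) : ℂ) * Complex.exp (((hG q x L a y ω).re : ℂ) * Complex.I)) tm := by
    refine Integrable.mono' hEc.int ?_ (Eventually.of_forall fun ω => ?_)
    · have := hEc.1.measurable
      have := (hG_cc q x L a y).1.measurable
      fun_prop
    · rw [norm_mul, Complex.norm_exp_ofReal_mul_I, mul_one, Complex.norm_real, Real.norm_of_nonneg (by positivity)]
  have hi2 : Integrable (fun ω => ((‖Fp x 0 ω‖ ^ (2 * P.k) : ℝ) : ℂ) * Complex.exp ((lr a (Yx y x ω) : ℂ) * Complex.I)) tm := by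
    refine Integrable.mono' hFi ?_ (Eventually.of_forall fun ω => ?_)
    · have := (Fp_gd hx 0).1
      fun_prop
    · rw [norm_mul, Complex.norm_exp_ofReal_mul_I, mul_one, Complex.norm_real, Real.norm_of_nonneg (by positivity)]
  have hi3 : Integrable (fun ω => |‖Ey P.Z q x L P.k 0 ω‖ ^ 2 - ‖Fp x 0 ω‖ ^ (2 * P.k)|) tm := (hEc.int.sub hFi).abs
  obtain ⟨B1, hB1⟩ := (hG_cc q x L a y).2
  obtain ⟨B2, hB20, hB2⟩ := Xp_bd hx
  have hi4 : Integrable (fun ω => ‖Fp x 0 ω‖ ^ (2 * P.k) * ‖hG q x L a y ω - ∑ j, a j * Yx y x ω j‖) tm := by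
    refine Integrable.mono' (hFi.const_mul (B1 + ∑ j, ‖a j‖ * (B2 + B2))) ?_ (Eventually.of_forall fun ω => ?_)
    · exact (((Fp_gd hx 0).1.norm.pow_const _).mul (((hG_cc q x L a y).1.measurable.sub hYm).norm)).aestronglyMeasurable
    · rw [Real.norm_of_nonneg (by positivity), mul_comm]
      refine mul_le_mul_of_nonneg_right ?_ (by positivity)
      refine (norm_sub_le _ _).trans (add_le_add (hB1 ω) ((norm_sum_le _ _).trans (Finset.sum_le_sum fun j _ => ?_)))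
      rw [norm_mul]
      refine mul_le_mul_of_nonneg_left ?_ (norm_nonneg _)
      exact (norm_sub_le _ _).trans (add_le_add (hB2 _ _) (hB2 _ _))
  rw [← integral_sub hi1 hi2]
  refine (norm_integral_le_integral_norm _).trans ?_
  have hpt : ∀ ω, ‖((‖Ey P.Z q x L P.k 0 ω‖ ^ 2 : ℝ) : ℂ) * Complex.exp (((hG q x L a y ω).re : ℂ) * Complex.I) - ((‖Fp x 0 ω‖ ^ (2 * P.k) : ℝ) : ℂ) * Complex.exp ((lr a (Yx y x ω) : ℂ) * Complex.I)‖ ≤
      |‖Ey P.Z q x L P.k 0 ω‖ ^ 2 - ‖Fp x 0 ω‖ ^ (2 * P.k)| + ‖Fp x 0 ω‖ ^ (2 * P.k) * ‖hG q x L a y ω - ∑ j, a j * Yx y x ω j‖ := by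
    intro ω
    have e1 : ((‖Ey P.Z q x L P.k 0 ω‖ ^ 2 : ℝ) : ℂ) * Complex.exp (((hG q x L a y ω).re : ℂ) * Complex.I) - ((‖Fp x 0 ω‖ ^ (2 * P.k) : ℝ) : ℂ) * Complex.exp ((lr a (Yx y x ω) : ℂ) * Complex.I) =
      ((‖Ey P.Z q x L P.k 0 ω‖ ^ 2 - ‖Fp x 0 ω‖ ^ (2 * P.k) : ℝ) : ℂ) * Complex.exp (((hG q x L a y ω).re : ℂ) * Complex.I) +
      ((‖Fp x 0 ω‖ ^ (2 * P.k) : ℝ) : ℂ) * (Complex.exp (((hG q x L a y ω).re : ℂ) * Complex.I) - Complex.exp ((lr a (Yx y x ω) : ℂ) * Complex.I)) := by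
      push_cast
      ring
    rw [e1]
    refine (norm_add_le _ _).trans ?_
    rw [norm_mul, norm_mul, Complex.norm_exp_ofReal_mul_I, mul_one, Complex.norm_real, Complex.norm_real, Real.norm_eq_abs, Real.norm_of_nonneg (show 0 ≤ ‖Fp x 0 ω‖ ^ (2 * P.k) by positivity)]
    refine add_le_add le_rfl (mul_le_mul_of_nonneg_left ((cexp_sub _ _).trans ?_) (by positivity))
    have e2 : (hG q x L a y ω).re - lr a (Yx y x ω) = (hG q x L a y ω - ∑ j, a j * Yx y x ω j).re := by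
      rw [Complex.sub_re]; rfl
    rw [e2]
    exact Complex.abs_re_le_norm _
  refine (integral_mono (hi1.sub hi2).norm (hi3.add hi4) hpt).trans ?_
  rw [integral_add' hi3 hi4]
  linarith

/-- The weighted characteristic function along the torus. -/
theorem w_ch {k : ℝ} {n : ℕ} (y : Fin n → ℝ) {ρ : ProbabilityMeasure (Fin n → ℂ)}
    (hρ : ∀ α β : Fin n → ℂ, ∫ z, Complex.exp (∑ j, (α j * z j + β j * (starRingEnd ℂ) (z j))) ∂(ρ : Measure (Fin n → ℂ)) =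
      Complex.exp (∑ j, (α j * mu k (y j) + β j * (starRingEnd ℂ) (mu k (y j))) + ∑ i, ∑ j, α i * β j * Cv (y i) (y j))) (a : Fin n → ℂ) :
    Tendsto (fun x : ℝ => (((2 * x) ^ (k ^ 2) : ℝ) : ℂ) * ∫ ω, ((‖Fp x 0 ω‖ ^ (2 * k) : ℝ) : ℂ) * Complex.exp ((lr a (Yx y x ω) : ℂ) * Complex.I) ∂tm) (𝓝[>] 0)
      (𝓝 ((aK k : ℂ) * ∫ z, Complex.exp ((lr a z : ℂ) * Complex.I) ∂(ρ : Measure (Fin n → ℂ)))) := by
  have h1 := w_lim k y (fun j => Complex.I / 2 * a j) (fun j => Complex.I / 2 * (starRingEnd ℂ) (a j))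
  have e1 : ∀ z : Fin n → ℂ, ∑ j, (Complex.I / 2 * a j * z j + Complex.I / 2 * (starRingEnd ℂ) (a j) * (starRingEnd ℂ) (z j)) = (lr a z : ℂ) * Complex.I := by
    intro z
    have h2 : (lr a z : ℂ) = ((∑ j, a j * z j) + (starRingEnd ℂ) (∑ j, a j * z j)) / 2 := by
      unfold lr
      rw [Complex.re_eq_add_conj]
    rw [h2, map_sum, ← Finset.sum_add_distrib, Finset.sum_div, Finset.sum_mul]
    refine Finset.sum_congr rfl fun j _ => ?_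
    rw [map_mul]
    ring
  have h3 := hρ (fun j => Complex.I / 2 * a j) (fun j => Complex.I / 2 * (starRingEnd ℂ) (a j))
  simp only [e1] at h1 h3
  rw [h3, ← (mass_lim k).1]
  refine h1.congr fun x => ?_
  rw [← integral_const_mul]
  congr 1
  funext ω
  unfold pt
  push_cast
  ring

end Pool.Agent.H470
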