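import Pool.Agent.H470.Wa1

set_option autoImplicit false

/-! Exponential moments of the random Euler product, uniformly in the shifts. -/

namespace Pool.Agent.H470

open MeasureTheory Filter Topology ProbabilityTheory Set
open Pool.Agent.TH806 (ec ec_norm ec_cont uu integrable_uu)

lemma el_mean' {z : ℂ} (h1 : ‖z‖ < 1) : ∫ x, el (z * ec x) ∂uu = 0 := by
  have hd : DiffContOnCl ℂ (fun v => el (z * v)) (Metric.ball 0 |(1:ℝ)|) := by
    refine DifferentiableOn.diffContOnCl fun v hv => ?_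
    have h2 := Metric.closure_ball_subset_closedBall hv
    rw [mem_closedBall_zero_iff, abs_one] at h2
    have h3 : ‖z * v‖ < 1 := by
      rw [norm_mul]
      nlinarith [norm_nonneg z, norm_nonneg v]
    exact ((el_analytic h3).comp v (by fun_prop)).differentiableWithinAt
  have h := hd.circleAverage
  rw [mul_zero, el_zero, Real.circleAverage_def] at h
  have hpi : (2 * Real.pi)⁻¹ ≠ 0 := by positivity
  have h2 : ∫ θ in (0:ℝ)..2 * Real.pi, el (z * circleMap 0 1 θ) = 0 := by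
    rcases smul_eq_zero.mp h with h3 | h3
    · exact absurd h3 hpi
    · exact h3
  rw [Pool.Agent.TH806.uu_int]
  have h3 := intervalIntegral.integral_comp_mul_left (a := 0) (b := 1) (fun θ => el (z * circleMap 0 1 θ)) (show 2 * Real.pi ≠ 0 by positivity)
  rw [mul_zero, mul_one, h2, smul_zero] at h3
  rw [← h3]
  refine intervalIntegral.integral_congr fun x _ => ?_
  simp only [circleMap, zero_add, Complex.ofReal_one, one_mul]
  rfl

/-- the two sided bound for the small primes -/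
theorem S_loc : ∃ C : ℝ, 0 ≤ C ∧ ∀ N : ℕ, 3 ≤ N → ∀ x : ℝ, 0 < x → ∀ u : ℝ, x * ‖2 + (u:ℂ) * Complex.I‖ * Real.log N ≤ 1 →
    ‖∑ p ∈ pr N, wv x u p - ((Real.log (Real.log N) : ℝ) : ℂ)‖ ≤ C := by
  obtain ⟨C1, h1⟩ := Pool.Agent.Helper256.KM.mertens_inv
  obtain ⟨C2, h2⟩ := Pool.Agent.Helper256.KM.mertens_log
  have hC1 : 0 ≤ C1 := (abs_nonneg _).trans (h1 3 le_rfl)
  have hC2 : 0 ≤ C2 := (abs_nonneg _).trans (h2 1 le_rfl)
  refine ⟨C1 + 2 * (1 + C2), by positivity, fun N hN x hx u hu => ?_⟩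
  have hl := log_N hN
  obtain ⟨v, hv⟩ : ∃ v : ℂ, v = (x:ℂ) * (2 + (u:ℂ) * Complex.I) := ⟨_, rfl⟩
  have hre : 0 ≤ v.re := by
    rw [hv]
    simp
    positivity
  have hn : ‖v‖ = x * ‖2 + (u:ℂ) * Complex.I‖ := by rw [hv, norm_mul, Complex.norm_real, Real.norm_of_nonneg hx.le]
  have hpt : ∀ p ∈ pr N, ‖wv x u p - ((1 / p : ℝ) : ℂ)‖ ≤ 2 * ‖v‖ * (Real.log p / p) := by
    intro p hp
    have hpp := pr_prime hp
    have hp0 : (0:ℝ) < p := by exact_mod_cast hpp.pos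
    have hpc : (p:ℂ) ≠ 0 := by exact_mod_cast hpp.ne_zero
    have hlp : 0 ≤ Real.log p := Real.log_nonneg (by exact_mod_cast hpp.one_le)
    have e1 : wv x u p = ((1 / p : ℝ) : ℂ) * Complex.exp (-(v * (Real.log p : ℝ))) := by
      unfold wv
      rw [← hv]
      have e2 : -(1 + v) = -1 + -v := by ring
      rw [e2, Complex.cpow_add _ _ hpc, Complex.cpow_neg_one, Complex.cpow_def_of_ne_zero hpc, Complex.ofReal_log hp0.le]
      push_cast
      rw [one_div]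
      congr 2
      ring
    have h5 : ‖Complex.exp (-(v * (Real.log p : ℝ))) - 1‖ ≤ 2 * (‖v‖ * Real.log p) := by
      have h6 := exp_sub_one_re (z := -(v * (Real.log p : ℝ))) (by
        rw [Complex.neg_re, Complex.re_mul_ofReal]
        have := mul_nonneg hre hlp
        linarith)
      rw [norm_neg, norm_mul, Complex.norm_real, Real.norm_of_nonneg hlp] at h6
      exact h6
    have e3 : wv x u p - ((1 / p : ℝ) : ℂ) = ((1 / p : ℝ) : ℂ) * (Complex.exp (-(v * (Real.log p : ℝ))) - 1) := by rw [e1]; ring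
    rw [e3, norm_mul, Complex.norm_real, Real.norm_of_nonneg (by positivity)]
    have h8 := mul_le_mul_of_nonneg_left h5 (show 0 ≤ 1 / (p:ℝ) by positivity)
    refine h8.trans (le_of_eq ?_)
    ring
  have h3 : ‖∑ p ∈ pr N, wv x u p - ∑ p ∈ pr N, ((1 / p : ℝ) : ℂ)‖ ≤ 2 * (1 + C2) := by
    rw [← Finset.sum_sub_distrib]
    refine (norm_sum_le _ _).trans ((Finset.sum_le_sum hpt).trans ?_)
    rw [← Finset.mul_sum]
    have h4 := (abs_le.mp (h2 N (by omega))).2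
    have h5 : ∑ p ∈ pr N, Real.log p / p ≤ Real.log N + C2 := by
      unfold pr
      linarith
    have h6 : ‖v‖ * Real.log N ≤ 1 := by rw [hn]; exact hu
    have h7 : ‖v‖ ≤ 1 := by nlinarith [norm_nonneg v]
    nlinarith [norm_nonneg v]
  have h4 : ‖∑ p ∈ pr N, ((1 / p : ℝ) : ℂ) - ((Real.log (Real.log N) : ℝ) : ℂ)‖ ≤ C1 := by
    rw [← Complex.ofReal_sum, ← Complex.ofReal_sub, Complex.norm_real]
    exact h1 N hN
  have h5 := norm_add_le (∑ p ∈ pr N, wv x u p - ∑ p ∈ pr N, ((1 / p : ℝ) : ℂ)) (∑ p ∈ pr N, ((1 / p : ℝ) : ℂ) - ((Real.log (Real.log N) : ℝ) : ℂ))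
  rw [sub_add_sub_cancel] at h5
  linarith

lemma wv_norm {x u : ℝ} {p : ℕ} (hp : p.Prime) : ‖wv x u p‖ = (p:ℝ) ^ (-(1 + 2 * x)) := by
  have h : ((x:ℂ) * (2 + (u:ℂ) * Complex.I)).re = 2 * x := by simp; ring
  unfold wv
  rw [npw hp, h]

/-- the sum over all primes -/
theorem S_all : ∃ C : ℝ, 0 ≤ C ∧ ∀ x : ℝ, 0 < x → x ≤ 1 → ∀ u : ℝ,
    ‖∑ p ∈ pr (PX x), wv x u p - ((Real.log (1 / x) : ℝ) : ℂ)‖ ≤ C + 2 * Real.log ‖2 + (u:ℂ) * Complex.I‖ := by
  obtain ⟨C1, hC1, h1⟩ := S_loc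
  obtain ⟨C2, hC2, h2⟩ := S_real
  refine ⟨2 * C1 + C2 + 4, by positivity, fun x hx hx1 u => ?_⟩
  obtain ⟨w, hw⟩ : ∃ w : ℝ, w = ‖2 + (u:ℂ) * Complex.I‖ := ⟨_, rfl⟩
  rw [← hw]
  have hw2 : 2 ≤ w := by
    rw [hw]
    have := Complex.abs_re_le_norm (2 + (u:ℂ) * Complex.I)
    simp at this
    linarith
  have hlw : 0 ≤ Real.log w := Real.log_nonneg (by linarith)
  have hlog2 : Real.log 2 ≤ 1 := by have := Real.log_two_lt_d9; linarith
  have hlog20 : 0 ≤ Real.log 2 := Real.log_nonneg (by norm_num)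
  have hS0 : ∀ I : Finset ℕ, (∀ p ∈ I, p.Prime) → ‖∑ p ∈ I, wv x u p‖ ≤ ∑ p ∈ I, (p:ℝ) ^ (-(1 + 2 * x)) := fun I hI =>
    (norm_sum_le _ _).trans (Finset.sum_le_sum fun p hp => (wv_norm (hI p hp)).le)
  by_cases hbig : 1 / (x * w) < 2
  · have h3 := hS0 (pr (PX x)) fun p hp => pr_prime hp
    have h4 := h2 x hx (by linarith) (pr (PX x)) fun p hp => pr_prime hp
    have h5 : Real.log (1 / x) ≤ Real.log w + 1 := by
      have h6 : 1 / x ≤ 2 * w := by
        rw [div_lt_iff₀ (by positivity)] at hbig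
        rw [div_le_iff₀ hx]
        nlinarith
      have h7 := Real.log_le_log (by positivity) h6
      rw [Real.log_mul (by norm_num) (by linarith)] at h7
      linarith
    have h6 : -Real.log (2 * x) ≤ Real.log (1 / x) := by
      rw [Real.log_mul (by norm_num) hx.ne', one_div, Real.log_inv]
      linarith
    have h7 : 0 ≤ Real.log (1 / x) := Real.log_nonneg (by rw [le_div_iff₀ hx]; linarith)
    have h8 := norm_sub_le (∑ p ∈ pr (PX x), wv x u p) ((Real.log (1 / x) : ℝ) : ℂ)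
    rw [Complex.norm_real, Real.norm_of_nonneg h7] at h8
    linarith
  · rw [not_lt] at hbig
    obtain ⟨N, hN3, hNt, hNl, hNu⟩ := cutN hbig
    have hxw : 0 < x * w := by positivity
    have hl := log_N hN3
    have h3 : x * ‖2 + (u:ℂ) * Complex.I‖ * Real.log N ≤ 1 := by
      rw [← hw]
      rw [le_div_iff₀ hxw] at hNu
      linarith
    have h4 := h1 N hN3 x hx u h3
    have hsub : pr N ⊆ pr (PX x) := by
      refine pr_mono ?_
      have h5 : (N:ℝ) ≤ PX x := by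
        refine hNt.trans ((Real.exp_le_exp.mpr ?_).trans (PX_exp hx))
        rw [div_le_div_iff₀ hxw (by positivity)]
        nlinarith
      exact_mod_cast h5
    have hx2w : x * 2 * Real.log N ≤ 1 := by
      rw [← hw] at h3
      refine le_trans ?_ h3
      gcongr
    have h5 : ‖∑ p ∈ pr (PX x) \ pr N, wv x u p‖ ≤ C2 + C1 + Real.log w := by
      refine (hS0 _ fun p hp => pr_prime (Finset.sdiff_subset hp)).trans ?_
      have h6 := h2 x hx (by linarith) (pr (PX x)) fun p hp => pr_prime hp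
      have h7 := h1 N hN3 x hx 0 (by
        have e0 : ‖2 + ((0:ℝ):ℂ) * Complex.I‖ = 2 := by simp
        rw [e0]
        exact hx2w)
      have e1 : ∑ p ∈ pr N, wv x 0 p = ((∑ p ∈ pr N, (p:ℝ) ^ (-(1 + 2 * x)) : ℝ) : ℂ) := by
        push_cast
        refine Finset.sum_congr rfl fun p hp => ?_
        unfold wv
        have hp0 : (0:ℝ) ≤ p := by positivity
        rw [Complex.ofReal_cpow hp0]
        push_cast
        congr 1
        ring
      rw [e1, ← Complex.ofReal_sub, Complex.norm_real, Real.norm_eq_abs] at h7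
      have h8 := (abs_le.mp h7).1
      have h9 : ∑ p ∈ pr (PX x) \ pr N, (p:ℝ) ^ (-(1 + 2 * x)) + ∑ p ∈ pr N, (p:ℝ) ^ (-(1 + 2 * x)) = ∑ p ∈ pr (PX x), (p:ℝ) ^ (-(1 + 2 * x)) :=
        Finset.sum_sdiff hsub
      have h10 : -Real.log (2 * x) - Real.log (Real.log N) ≤ Real.log w := by
        have h11 : 1 / (x * w) / 2 ≤ Real.log N := hNl
        have h12 : 1 ≤ 2 * x * Real.log N * w := by
          rw [div_div, div_le_iff₀ (by positivity)] at h11
          nlinarith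
        have h13 := Real.log_nonneg h12
        rw [Real.log_mul (by positivity) (by linarith), Real.log_mul (by positivity) (by positivity)] at h13
        linarith
      linarith
    have h6 : |Real.log (Real.log N) - Real.log (1 / x)| ≤ Real.log w + 1 := by
      have h7 : Real.log (Real.log N) ≤ Real.log (1 / x) := by
        refine Real.log_le_log (by linarith) (hNu.trans ?_)
        rw [div_le_div_iff₀ hxw hx]
        nlinarith
      have h8 : Real.log (1 / x) ≤ Real.log (Real.log N) + Real.log w + 1 := by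
        have h11 : 1 / (x * w) / 2 ≤ Real.log N := hNl
        have h12 : 1 / x ≤ 2 * (Real.log N * w) := by
          rw [div_div, div_le_iff₀ (by positivity)] at h11
          rw [div_le_iff₀ hx]
          nlinarith
        have h13 := Real.log_le_log (by positivity) h12
        rw [Real.log_mul (by norm_num) (by positivity), Real.log_mul (by linarith) (by linarith)] at h13
        linarith
      rw [abs_le]
      constructor <;> linarith
    have e2 : ∑ p ∈ pr (PX x), wv x u p - ((Real.log (1 / x) : ℝ) : ℂ) = ∑ p ∈ pr (PX x) \ pr N, wv x u p +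
        (∑ p ∈ pr N, wv x u p - ((Real.log (Real.log N) : ℝ) : ℂ)) + (((Real.log (Real.log N) - Real.log (1 / x) : ℝ)) : ℂ) := by
      rw [← Finset.sum_sdiff hsub (f := fun p => wv x u p)]
      push_cast
      ring
    rw [e2]
    refine (norm_add₃_le).trans ?_
    rw [Complex.norm_real, Real.norm_eq_abs]
    linarith

/-- exponentials of linear combinations -/
noncomputable def exI (I : Finset ℕ) (x : ℝ) {n : ℕ} (α : Fin n → ℂ) (y : Fin n → ℝ) (ω : ℕ → ℝ) : ℝ :=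
  Real.exp (∑ j, α j * Xs I (sp x (y j)) ω).re

lemma exI_pos (I : Finset ℕ) (x : ℝ) {n : ℕ} (α : Fin n → ℂ) (y : Fin n → ℝ) (ω : ℕ → ℝ) : 0 < exI I x α y ω := Real.exp_pos _

lemma sp_pos {x : ℝ} (hx : 0 ≤ x) (y : ℝ) : 0 < (sp x y).re := by rw [sp_re]; linarith

lemma exI_cont {I : Finset ℕ} (hI : ∀ p ∈ I, 2 ≤ p) {x : ℝ} (hx : 0 ≤ x) {n : ℕ} (α : Fin n → ℂ) (y : Fin n → ℝ) : Continuous (exI I x α y) := by
  unfold exI
  exact Real.continuous_exp.comp (Complex.continuous_re.comp (continuous_finsetSum _ fun j _ => continuous_const.mul (Xs_cont hI (sp_pos hx _))))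

lemma exI_bd {I : Finset ℕ} (hI : ∀ p ∈ I, 2 ≤ p) {x : ℝ} (hx : 0 ≤ x) {n : ℕ} (α : Fin n → ℂ) (y : Fin n → ℝ) : ∃ B : ℝ, ∀ ω, ‖exI I x α y ω‖ ≤ B := by
  obtain ⟨B, hB0, hB⟩ := Xs_bd hI (σ := 1 / 2) (by norm_num)
  refine ⟨Real.exp (∑ j, ‖α j‖ * B), fun ω => ?_⟩
  unfold exI
  rw [Real.norm_of_nonneg (Real.exp_pos _).le, Real.exp_le_exp]
  refine (Complex.re_le_norm _).trans ((norm_sum_le _ _).trans (Finset.sum_le_sum fun j _ => ?_))
  rw [norm_mul]
  exact mul_le_mul_of_nonneg_left (hB _ (by rw [sp_re]; linarith) _) (norm_nonneg _)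

lemma exI_int {I : Finset ℕ} (hI : ∀ p ∈ I, 2 ≤ p) {x : ℝ} (hx : 0 ≤ x) {n : ℕ} (α : Fin n → ℂ) (y : Fin n → ℝ) : Integrable (exI I x α y) tm := by
  obtain ⟨B, hB⟩ := exI_bd hI hx α y
  exact tm_int (exI_cont hI hx α y) hB

/-- the exponential moment in terms of the two point sums -/
lemma exI_le {I : Finset ℕ} (hI : ∀ p ∈ I, 2 ≤ p) {x : ℝ} (hx : 0 ≤ x) {n : ℕ} (α : Fin n → ℂ) (y : Fin n → ℝ) {A : ℝ} (hA : ∑ j, ‖α j‖ ≤ A) :
    ∫ ω, exI I x α y ω ∂tm ≤ Real.exp (1 / 4 * ∑ p ∈ I, ‖∑ j, α j * zv x y p j‖ ^ 2 + CN (A / 2) * KS) := by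
  have h1 := mgf_norm hI (s := fun j => sp x (y j)) (fun j => by rw [sp_re]; linarith) (α := fun j => α j / 2) (β := fun j => (starRingEnd ℂ) (α j / 2)) (A := A / 2)
    (by simp_rw [norm_div, Complex.norm_two]; rw [← Finset.sum_div]; linarith)
    (by simp_rw [Complex.norm_conj, norm_div, Complex.norm_two]; rw [← Finset.sum_div]; linarith)
  have e1 : ∀ ω, Complex.exp (∑ j, (α j / 2 * Xs I (sp x (y j)) ω + (starRingEnd ℂ) (α j / 2) * (starRingEnd ℂ) (Xs I (sp x (y j)) ω))) = ((exI I x α y ω : ℝ) : ℂ) := by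
    intro ω
    unfold exI
    rw [Complex.ofReal_exp]
    congr 1
    rw [Complex.re_sum, Complex.ofReal_sum]
    refine Finset.sum_congr rfl fun j _ => ?_
    rw [← map_mul, Complex.add_conj, div_mul_eq_mul_div]
    simp
    ring
  simp_rw [e1] at h1
  rw [integral_complex_ofReal, Complex.norm_real] at h1
  refine (le_abs_self _).trans (h1.trans (le_of_eq ?_))
  congr 2
  rw [Finset.mul_sum]
  refine Finset.sum_congr rfl fun p _ => ?_
  have e2 : (∑ j, α j / 2 * (p:ℂ) ^ (-sp x (y j))) = (∑ j, α j * zv x y p j) / 2 := by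
    rw [Finset.sum_div]
    refine Finset.sum_congr rfl fun j _ => ?_
    unfold zv
    ring
  have e3 : (∑ j, (starRingEnd ℂ) (α j / 2) * (starRingEnd ℂ) ((p:ℂ) ^ (-sp x (y j)))) = (starRingEnd ℂ) ((∑ j, α j * zv x y p j) / 2) := by
    rw [← e2, map_sum]
    refine Finset.sum_congr rfl fun j _ => ?_
    rw [map_mul]
  rw [e2, e3, Complex.mul_conj, Complex.ofReal_re, Complex.normSq_eq_norm_sq, norm_div, Complex.norm_two]
  ring

lemma zv_norm {x : ℝ} (hx : 0 ≤ x) {n : ℕ} (y : Fin n → ℝ) {p : ℕ} (hp : 2 ≤ p) (j : Fin n) : ‖zv x y p j‖ ≤ (p:ℝ) ^ (-(1 / 2) : ℝ) := by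
  unfold zv
  rw [pw_norm hp, sp_re]
  exact Real.rpow_le_rpow_of_exponent_le (by exact_mod_cast (by omega : 1 ≤ p)) (by linarith)

/-- the crude bound for a finite set of primes -/
lemma exI_blk {I : Finset ℕ} (hI : ∀ p ∈ I, 2 ≤ p) {x : ℝ} (hx : 0 ≤ x) {n : ℕ} (α : Fin n → ℂ) (y : Fin n → ℝ) {A : ℝ} (hA : ∑ j, ‖α j‖ ≤ A) :
    ∫ ω, exI I x α y ω ∂tm ≤ Real.exp (A ^ 2 / 4 * ∑ p ∈ I, (1:ℝ) / p + CN (A / 2) * KS) := by
  refine (exI_le hI hx α y hA).trans (Real.exp_le_exp.mpr (add_le_add_left ?_ _))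
  rw [Finset.mul_sum, Finset.mul_sum]
  refine Finset.sum_le_sum fun p hp => ?_
  have hp0 : (0:ℝ) < p := by exact_mod_cast (by have := hI p hp; omega : 0 < p)
  have h1 : ‖∑ j, α j * zv x y p j‖ ≤ A * (p:ℝ) ^ (-(1 / 2) : ℝ) := by
    have h4 : ∀ j ∈ Finset.univ, ‖α j * zv x y p j‖ ≤ ‖α j‖ * (p:ℝ) ^ (-(1 / 2) : ℝ) := by
      intro j _
      rw [norm_mul]
      exact mul_le_mul_of_nonneg_left (zv_norm hx y (hI p hp) j) (norm_nonneg _)
    refine (norm_sum_le _ _).trans ((Finset.sum_le_sum h4).trans ?_)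
    rw [← Finset.sum_mul]
    exact mul_le_mul_of_nonneg_right hA (by positivity)
  have h2 : ‖∑ j, α j * zv x y p j‖ ^ 2 ≤ (A * (p:ℝ) ^ (-(1 / 2) : ℝ)) ^ 2 := pow_le_pow_left₀ (norm_nonneg _) h1 2
  have h3 : (A * (p:ℝ) ^ (-(1 / 2) : ℝ)) ^ 2 = A ^ 2 * (1 / p) := by
    have h5 : ((p:ℝ) ^ (-(1 / 2) : ℝ)) ^ 2 = 1 / p := by
      rw [← Real.rpow_natCast, ← Real.rpow_mul hp0.le]
      norm_num
      rw [Real.rpow_neg_one]
    rw [mul_pow, h5]
  rw [h3] at h2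
  linarith

lemma Xs_mean {I : Finset ℕ} (hI : ∀ p ∈ I, 2 ≤ p) {s : ℂ} (hs : 0 < s.re) : ∫ ω, Xs I s ω ∂tm = 0 := by
  unfold Xs
  have hm : ∀ p ∈ I, Measurable fun x : ℝ => el ((p:ℂ) ^ (-s) * ec x) := fun p _ => el_meas.comp (measurable_const.mul ec_cont.measurable)
  have hc : ∀ p ∈ I, Integrable (fun ω : ℕ → ℝ => el ((p:ℂ) ^ (-s) * ec (ω p))) tm := by
    intro p hp
    have h1 := Xs_cont (I := {p}) (fun q hq => by rw [Finset.mem_singleton] at hq; rw [hq]; exact hI p hp) hs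
    obtain ⟨B, _, hB⟩ := Xs_bd (I := {p}) (fun q hq => by rw [Finset.mem_singleton] at hq; rw [hq]; exact hI p hp) hs
    have h2 := tm_int h1 (fun ω => hB s le_rfl ω)
    refine h2.congr (Filter.Eventually.of_forall fun ω => ?_)
    simp [Xs]
  rw [integral_finsetSum _ hc]
  refine Finset.sum_eq_zero fun p hp => ?_
  have h2 := prod_int {p} (g := fun _ x => el ((p:ℂ) ^ (-s) * ec x)) (fun _ => hm p hp)
  simp only [Finset.prod_singleton] at h2
  rw [h2]
  exact el_mean' (pw_lt (hI p hp) hs)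

lemma exI_low {I : Finset ℕ} (hI : ∀ p ∈ I, 2 ≤ p) {x : ℝ} (hx : 0 ≤ x) {n : ℕ} (α : Fin n → ℂ) (y : Fin n → ℝ) : 1 ≤ ∫ ω, exI I x α y ω ∂tm := by
  have hint : ∀ j, Integrable (fun ω => α j * Xs I (sp x (y j)) ω) tm := by
    intro j
    obtain ⟨B, _, hB⟩ := Xs_bd hI (sp_pos hx (y j))
    exact (tm_int (Xs_cont hI (sp_pos hx (y j))) (fun ω => hB _ le_rfl ω)).const_mul _
  have hg : Integrable (fun ω => ∑ j, α j * Xs I (sp x (y j)) ω) tm := integrable_finsetSum _ fun j _ => hint j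
  have h1 : ∫ ω, (∑ j, α j * Xs I (sp x (y j)) ω).re ∂tm = 0 := by
    have h2 : ∫ ω, (∑ j, α j * Xs I (sp x (y j)) ω) ∂tm = 0 := by
      rw [integral_finsetSum _ fun j _ => hint j]
      refine Finset.sum_eq_zero fun j _ => ?_
      rw [integral_const_mul, Xs_mean hI (sp_pos hx _), mul_zero]
    have h3 := Complex.reCLM.integral_comp_comm hg
    simp only [Complex.reCLM_apply] at h3
    rw [h3, h2]
    rfl
  have hg2 : Integrable (fun ω => (∑ j, α j * Xs I (sp x (y j)) ω).re) tm := hg.re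
  have h2 : ∫ ω, (1 + (∑ j, α j * Xs I (sp x (y j)) ω).re) ∂tm ≤ ∫ ω, exI I x α y ω ∂tm := by
    refine integral_mono ((integrable_const _).add hg2) (exI_int hI hx α y) fun ω => ?_
    unfold exI
    have := Real.add_one_le_exp (∑ j, α j * Xs I (sp x (y j)) ω).re
    simp only
    linarith
  rw [integral_add (integrable_const _) hg2, h1, integral_const] at h2
  simpa using h2

lemma exI_dep (I : Finset ℕ) (x : ℝ) {n : ℕ} (α : Fin n → ℂ) (y : Fin n → ℝ) : Dep I (exI I x α y) := by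
  intro ω ω' h
  unfold exI
  simp_rw [Xs_dep I _ h]

lemma exI_split {I J : Finset ℕ} (hIJ : I ⊆ J) (x : ℝ) {n : ℕ} (α : Fin n → ℂ) (y : Fin n → ℝ) (ω : ℕ → ℝ) :
    exI J x α y ω = exI I x α y ω * exI (J \ I) x α y ω := by
  unfold exI
  rw [← Real.exp_add, ← Complex.add_re, ← Finset.sum_add_distrib]
  congr 2
  refine Finset.sum_congr rfl fun j _ => ?_
  rw [Xs_split hIJ]
  ring

lemma exI_mono {I J : Finset ℕ} (hIJ : I ⊆ J) (hJ : ∀ p ∈ J, 2 ≤ p) {x : ℝ} (hx : 0 ≤ x) {n : ℕ} (α : Fin n → ℂ) (y : Fin n → ℝ) :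
    ∫ ω, exI I x α y ω ∂tm ≤ ∫ ω, exI J x α y ω ∂tm := by
  have hI : ∀ p ∈ I, 2 ≤ p := fun p hp => hJ p (hIJ hp)
  have hJI : ∀ p ∈ J \ I, 2 ≤ p := fun p hp => hJ p (Finset.sdiff_subset hp)
  simp_rw [exI_split hIJ]
  rw [dep_int Finset.disjoint_sdiff (exI_cont hI hx α y).measurable (exI_cont hJI hx α y).measurable (exI_dep _ _ _ _) (exI_dep _ _ _ _)]
  have h1 := exI_low hJI hx α y
  have h2 : 0 ≤ ∫ ω, exI I x α y ω ∂tm := integral_nonneg fun ω => (exI_pos _ _ _ _ _).le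
  nlinarith

/-- the global bound -/
theorem ex_up (A : ℝ) : ∃ C : ℝ, 0 < C ∧ ∀ x : ℝ, 0 < x → x ≤ 1 → ∀ I : Finset ℕ, I ⊆ pr (PX x) → ∀ (n : ℕ) (α : Fin n → ℂ) (y : Fin n → ℝ), ∑ j, ‖α j‖ ≤ A →
    ∀ V : ℝ, 2 ≤ V → (∀ i j, ‖2 + ((y i - y j : ℝ):ℂ) * Complex.I‖ ≤ V) →
    ∫ ω, exI I x α y ω ∂tm ≤ C * V ^ (A ^ 2) * x ^ (-(‖∑ j, α j‖ ^ 2 / 4)) := by
  obtain ⟨C1, hC1, h1⟩ := S_all
  refine ⟨Real.exp (A ^ 2 * C1 / 4 + CN (A / 2) * KS), Real.exp_pos _, fun x hx hx1 I hI n α y hA V hV hy => ?_⟩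
  have h2 : ∀ p ∈ pr (PX x), 2 ≤ p := fun p hp => pr_two hp
  refine (exI_mono hI h2 hx.le α y).trans ((exI_le h2 hx.le α y hA).trans ?_)
  have hA0 : 0 ≤ A := (Finset.sum_nonneg fun j _ => norm_nonneg _).trans hA
  have hlV : 0 ≤ Real.log V := Real.log_nonneg (by linarith)
  have e1 : ((∑ p ∈ pr (PX x), ‖∑ j, α j * zv x y p j‖ ^ 2 : ℝ) : ℂ) = ∑ i, ∑ j, (α i * (starRingEnd ℂ) (α j)) * ∑ p ∈ pr (PX x), wv x (y i - y j) p := by
    push_cast
    have e2 : ∀ p ∈ pr (PX x), ((‖∑ j, α j * zv x y p j‖ : ℝ) : ℂ) ^ 2 = ∑ i, ∑ j, (α i * (starRingEnd ℂ) (α j)) * wv x (y i - y j) p := by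
      intro p hp
      rw [← Complex.ofReal_pow, ← Complex.normSq_eq_norm_sq, ← Complex.mul_conj, map_sum, Finset.sum_mul_sum]
      refine Finset.sum_congr rfl fun i _ => Finset.sum_congr rfl fun j _ => ?_
      rw [← zv_mul (pr_two hp), map_mul]
      ring
    rw [Finset.sum_congr rfl e2, Finset.sum_comm]
    refine Finset.sum_congr rfl fun i _ => ?_
    rw [Finset.sum_comm]
    refine Finset.sum_congr rfl fun j _ => ?_
    rw [Finset.mul_sum]
  have e3 : ∑ i, ∑ j, (α i * (starRingEnd ℂ) (α j)) * ∑ p ∈ pr (PX x), wv x (y i - y j) p =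
      ((‖∑ j, α j‖ ^ 2 * Real.log (1 / x) : ℝ) : ℂ) + ∑ i, ∑ j, (α i * (starRingEnd ℂ) (α j)) * (∑ p ∈ pr (PX x), wv x (y i - y j) p - ((Real.log (1 / x) : ℝ) : ℂ)) := by
    push_cast
    rw [← Complex.ofReal_pow, ← Complex.normSq_eq_norm_sq, ← Complex.mul_conj, map_sum, Finset.sum_mul_sum, Finset.sum_mul, ← Finset.sum_add_distrib]
    refine Finset.sum_congr rfl fun i _ => ?_
    rw [Finset.sum_mul, ← Finset.sum_add_distrib]
    refine Finset.sum_congr rfl fun j _ => ?_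
    ring
  have h3 : ‖∑ i, ∑ j, (α i * (starRingEnd ℂ) (α j)) * (∑ p ∈ pr (PX x), wv x (y i - y j) p - ((Real.log (1 / x) : ℝ) : ℂ))‖ ≤ A ^ 2 * (C1 + 2 * Real.log V) := by
    have h4 : ∀ i ∈ Finset.univ, ‖∑ j, (α i * (starRingEnd ℂ) (α j)) * (∑ p ∈ pr (PX x), wv x (y i - y j) p - ((Real.log (1 / x) : ℝ) : ℂ))‖ ≤
        ‖α i‖ * (∑ j, ‖α j‖) * (C1 + 2 * Real.log V) := by
      intro i _
      rw [Finset.mul_sum, Finset.sum_mul]
      refine (norm_sum_le _ _).trans (Finset.sum_le_sum fun j _ => ?_)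
      rw [norm_mul, norm_mul, Complex.norm_conj]
      refine mul_le_mul_of_nonneg_left ?_ (by positivity)
      have h5 := h1 x hx hx1 (y i - y j)
      have h6 : Real.log ‖2 + ((y i - y j : ℝ):ℂ) * Complex.I‖ ≤ Real.log V := Real.log_le_log (two_norm_pos _) (hy i j)
      linarith
    refine (norm_sum_le _ _).trans ((Finset.sum_le_sum h4).trans ?_)
    rw [← Finset.sum_mul, ← Finset.sum_mul]
    have h5 : 0 ≤ ∑ j, ‖α j‖ := Finset.sum_nonneg fun j _ => norm_nonneg _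
    have h6 : (∑ j, ‖α j‖) * (∑ j, ‖α j‖) ≤ A ^ 2 := by nlinarith
    exact mul_le_mul_of_nonneg_right h6 (by positivity)
  have h4 : ∑ p ∈ pr (PX x), ‖∑ j, α j * zv x y p j‖ ^ 2 ≤ ‖∑ j, α j‖ ^ 2 * Real.log (1 / x) + A ^ 2 * (C1 + 2 * Real.log V) := by
    have h5 := congrArg Complex.re (e1.trans e3)
    rw [Complex.ofReal_re, Complex.add_re, Complex.ofReal_re] at h5
    have h6 := (Complex.re_le_norm _).trans h3
    linarith
  have e5 : V ^ (A ^ 2) = Real.exp (A ^ 2 * Real.log V) := by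
    rw [Real.rpow_def_of_pos (by linarith)]
    ring_nf
  have e6 : x ^ (-(‖∑ j, α j‖ ^ 2 / 4)) = Real.exp (‖∑ j, α j‖ ^ 2 / 4 * Real.log (1 / x)) := by
    rw [Real.rpow_def_of_pos hx, one_div, Real.log_inv]
    ring_nf
  rw [e5, e6, ← Real.exp_add, ← Real.exp_add, Real.exp_le_exp]
  nlinarith [mul_nonneg (sq_nonneg A) hlV]

end Pool.Agent.H470
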