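import Pool.Agent.H470.Wa19

set_option autoImplicit false

/-! The weighted characteristic function over an interval. -/

namespace Pool.Agent.H470

open MeasureTheory Filter Topology ProbabilityTheory Set
open scoped ENNReal
open Pool.Agent.TH806 (ec ec_norm ec_cont uu integrable_uu)

noncomputable def Ac (T : ℝ) (f : (ℕ → ℝ) → ℂ) : ℂ := ((1 / T : ℝ) : ℂ) * ∫ t in (0:ℝ)..T, f (fl t)

lemma Ac_ii {f : (ℕ → ℝ) → ℂ} (hf : Continuous f) (T : ℝ) : IntervalIntegrable (fun t => f (fl t)) volume 0 T := (hf.comp fl_cont).intervalIntegrable _ _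

lemma Ac_le {T : ℝ} (hT : 0 < T) {f : (ℕ → ℝ) → ℂ} {h : (ℕ → ℝ) → ℝ} (hh : Continuous h) (hfh : ∀ ω, ‖f ω‖ ≤ h ω) : ‖Ac T f‖ ≤ At T h := by
  unfold Ac At
  rw [norm_mul, Complex.norm_real, Real.norm_of_nonneg (by positivity)]
  refine mul_le_mul_of_nonneg_left ?_ (by positivity)
  exact intervalIntegral.norm_integral_le_of_norm_le hT.le (Eventually.of_forall fun t _ => hfh _) (At_ii hh T)

lemma Ac_sub {T : ℝ} {f g : (ℕ → ℝ) → ℂ} (hf : Continuous f) (hg : Continuous g) : Ac T (fun ω => f ω - g ω) = Ac T f - Ac T g := by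
  unfold Ac
  rw [intervalIntegral.integral_sub (Ac_ii hf T) (Ac_ii hg T), mul_sub]

lemma Ac_smul (T : ℝ) (c : ℂ) (f : (ℕ → ℝ) → ℂ) : Ac T (fun ω => c * f ω) = c * Ac T f := by
  unfold Ac
  rw [intervalIntegral.integral_const_mul]
  ring

lemma Ac_sum {T : ℝ} {ι : Type*} (s : Finset ι) {f : ι → (ℕ → ℝ) → ℂ} (hf : ∀ i ∈ s, Continuous (f i)) : Ac T (fun ω => ∑ i ∈ s, f i ω) = ∑ i ∈ s, Ac T (f i) := by
  unfold Ac
  rw [intervalIntegral.integral_finset_sum fun i hi => Ac_ii (hf i hi) T, Finset.mul_sum]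

lemma MV2 {l l' : ℝ} {Q Q' : (ℕ → ℝ) → ℂ} (h : Sp l Q) (h' : Sp l Q') {R : ℝ} (hR : mk 1 Q ≤ R) (hR' : mk 1 Q' ≤ R) (hl : l ≤ l') {T : ℝ} (hT : 0 < T) :
    ‖Ac T (fun ω => Q ω * (starRingEnd ℂ) (Q' ω)) - ∫ ω, Q ω * (starRingEnd ℂ) (Q' ω) ∂tm‖ ≤ 2 * Real.exp (2 * l') / T * R := by
  have h1 := MV h h' hT
  have hR0 : 0 ≤ R := (mk_nonneg _ _).trans hR
  have h2 : √(mk 1 Q) * √(mk 1 Q') ≤ R := by
    have h3 : √(mk 1 Q) * √(mk 1 Q') ≤ √R * √R := mul_le_mul (Real.sqrt_le_sqrt hR) (Real.sqrt_le_sqrt hR') (Real.sqrt_nonneg _) (Real.sqrt_nonneg _)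
    rwa [Real.mul_self_sqrt hR0] at h3
  have h3 : 2 * Real.exp (2 * l) / T ≤ 2 * Real.exp (2 * l') / T := by
    have : Real.exp (2 * l) ≤ Real.exp (2 * l') := Real.exp_le_exp.mpr (by linarith)
    exact div_le_div_of_nonneg_right (by linarith) hT.le
  exact h1.trans (mul_le_mul h3 h2 (by positivity) (by positivity))

lemma bin_id (E G : ℂ) (j : ℕ) : ((‖E‖ ^ 2 : ℝ) : ℂ) * (((G.re : ℂ) * Complex.I) ^ j / (j.factorial : ℂ)) =
    ∑ m ∈ Finset.range (j + 1), ((Complex.I / 2) ^ j * ((j.choose m : ℕ) : ℂ) / (j.factorial : ℂ)) * ((E * G ^ m) * (starRingEnd ℂ) (E * G ^ (j - m))) := by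
  have h1 : ((‖E‖ ^ 2 : ℝ) : ℂ) = E * (starRingEnd ℂ) E := by
    rw [Complex.mul_conj, Complex.normSq_eq_norm_sq]
  have h2 : (G.re : ℂ) * Complex.I = Complex.I / 2 * (G + (starRingEnd ℂ) G) := by
    rw [Complex.re_eq_add_conj]; ring
  rw [h1, h2, mul_pow, add_pow, Finset.mul_sum, Finset.sum_div, Finset.mul_sum]
  refine Finset.sum_congr rfl fun m _ => ?_
  rw [map_mul, map_pow]
  ring

theorem At_ch {lE lG : ℝ} {E G : (ℕ → ℝ) → ℂ} (hE : Sp lE E) (hG : Sp lG G) (hlE : 0 ≤ lE) (hlG : 0 ≤ lG) (M : ℕ) {R K : ℝ}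
    (hR : ∀ m, m ≤ 2 * M → mk 1 (fun ω => E ω * G ω ^ m) ≤ R) (hK : mk 1 (fun ω => E ω * G ω ^ M) ≤ K) {T : ℝ} (hT : 0 < T) (hl : Real.exp (2 * (lE + M * lG)) ≤ T) :
    ‖Ac T (fun ω => ((‖E ω‖ ^ 2 : ℝ) : ℂ) * Complex.exp (((G ω).re : ℂ) * Complex.I)) - ∫ ω, ((‖E ω‖ ^ 2 : ℝ) : ℂ) * Complex.exp (((G ω).re : ℂ) * Complex.I) ∂tm‖ ≤
      (2 * M) ^ 2 * (2 * Real.exp (2 * (lE + 2 * M * lG)) / T * R) + 4 * K / ((2 * M).factorial : ℝ) := by
  have hEc := hE.cont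
  have hGc := hG.cont
  have hR0 : 0 ≤ R := (mk_nonneg _ _).trans (hR 0 (Nat.zero_le _))
  obtain ⟨pl, hpl⟩ : ∃ pl : (ℕ → ℝ) → ℂ, ∀ ω, pl ω = ((‖E ω‖ ^ 2 : ℝ) : ℂ) * ∑ j ∈ Finset.range (2 * M), (((G ω).re : ℂ) * Complex.I) ^ j / (j.factorial : ℂ) := ⟨_, fun _ => rfl⟩
  obtain ⟨f, hf⟩ : ∃ f : (ℕ → ℝ) → ℂ, ∀ ω, f ω = ((‖E ω‖ ^ 2 : ℝ) : ℂ) * Complex.exp (((G ω).re : ℂ) * Complex.I) := ⟨_, fun _ => rfl⟩
  obtain ⟨r, hr⟩ : ∃ r : (ℕ → ℝ) → ℝ, ∀ ω, r ω = 1 / ((2 * M).factorial : ℝ) * ‖E ω * G ω ^ M‖ ^ 2 := ⟨_, fun _ => rfl⟩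
  simp only [← hf]
  have hfc : Continuous f := by rw [show f = _ from funext hf]; fun_prop
  have hplc : Continuous pl := by rw [show pl = _ from funext hpl]; fun_prop
  have hrc : Continuous r := by rw [show r = _ from funext hr]; fun_prop
  have hcG : CC G := hG.cc
  have hcE : CC E := hE.cc
  have hfCC : CC f := ⟨hfc, by
    obtain ⟨B, hB⟩ := (hcE.norm.pow 2).2
    refine ⟨B, fun ω => ?_⟩
    rw [hf, norm_mul, Complex.norm_exp_ofReal_mul_I, mul_one, Complex.norm_real]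
    exact hB ω⟩
  have hplCC : CC pl := by
    rw [show pl = _ from funext hpl]
    refine ((hcE.norm.pow 2).ofReal).mul (CC.sum _ fun j _ => ?_)
    have h1 := (((hcG.re.ofReal).mul (CC.const Complex.I)).pow j).mul (CC.const ((j.factorial : ℂ)⁻¹))
    simpa [div_eq_mul_inv] using h1
  have hfr : ∀ ω, ‖f ω - pl ω‖ ≤ r ω := by
    intro ω
    rw [hf, hpl, ← mul_sub, norm_mul, Complex.norm_real, Real.norm_of_nonneg (by positivity), hr]
    have h1 := tay_I (2 * M) (G ω).re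
    have h2 : |(G ω).re| ^ (2 * M) ≤ ‖G ω‖ ^ (2 * M) := pow_le_pow_left₀ (abs_nonneg _) (Complex.abs_re_le_norm _) _
    have h3 := h1.trans (div_le_div_of_nonneg_right h2 (by positivity))
    refine (mul_le_mul_of_nonneg_left h3 (by positivity)).trans (le_of_eq ?_)
    rw [norm_mul, norm_pow, mul_pow, ← pow_mul, Nat.mul_comm M 2]
    ring
  have hspM : Sp (lE + M * lG) (fun ω => E ω * G ω ^ M) := hE.mul (hG.pow M)
  have h1 : ‖Ac T f - Ac T pl‖ ≤ 3 * K / ((2 * M).factorial : ℝ) := by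
    rw [← Ac_sub hfc hplc]
    refine (Ac_le hT hrc hfr).trans ?_
    rw [show r = _ from funext hr, At_smul]
    have h2 := At_sq hspM hT hl
    rw [← mk_one_sq] at h2
    have h3 : (0:ℝ) < ((2 * M).factorial : ℝ) := by exact_mod_cast Nat.factorial_pos _
    rw [div_mul_eq_mul_div, one_mul]
    exact div_le_div_of_nonneg_right (h2.trans (by linarith)) h3.le
  have h2 : ‖(∫ ω, f ω ∂tm) - ∫ ω, pl ω ∂tm‖ ≤ K / ((2 * M).factorial : ℝ) := by
    rw [← integral_sub hfCC.int hplCC.int]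
    refine (norm_integral_le_integral_norm _).trans ?_
    have hri : Integrable r tm := by
      rw [show r = _ from funext hr]
      exact ((RB.const _).mul ((hspM.cc.norm).pow 2)).int
    refine (integral_mono (hfCC.sub hplCC).int.norm hri hfr).trans ?_
    rw [show r = _ from funext hr, integral_const_mul]
    rw [mk_one_sq] at hK
    rw [div_mul_eq_mul_div, one_mul]
    exact div_le_div_of_nonneg_right hK (by positivity)
  have h3 : ‖Ac T pl - ∫ ω, pl ω ∂tm‖ ≤ (2 * M) ^ 2 * (2 * Real.exp (2 * (lE + 2 * M * lG)) / T * R) := by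
    have e1 : ∀ ω, pl ω = ∑ j ∈ Finset.range (2 * M), ∑ m ∈ Finset.range (j + 1), ((Complex.I / 2) ^ j * ((j.choose m : ℕ) : ℂ) / (j.factorial : ℂ)) * ((E ω * G ω ^ m) * (starRingEnd ℂ) (E ω * G ω ^ (j - m))) := by
      intro ω
      rw [hpl, Finset.mul_sum]
      exact Finset.sum_congr rfl fun j _ => bin_id _ _ _
    have hcm : ∀ m m' : ℕ, CC fun ω => (E ω * G ω ^ m) * (starRingEnd ℂ) (E ω * G ω ^ m') := fun m m' => (hcE.mul (hcG.pow m)).mul (hcE.mul (hcG.pow m')).conj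
    have hcs : ∀ j ∈ Finset.range (2 * M), CC fun ω => ∑ m ∈ Finset.range (j + 1), ((Complex.I / 2) ^ j * ((j.choose m : ℕ) : ℂ) / (j.factorial : ℂ)) * ((E ω * G ω ^ m) * (starRingEnd ℂ) (E ω * G ω ^ (j - m))) := fun j _ =>
      CC.sum _ fun m _ => (CC.const _).mul (hcm m (j - m))
    rw [show pl = _ from funext e1, Ac_sum _ fun j hj => (hcs j hj).1, integral_finset_sum _ fun j hj => (hcs j hj).int, ← Finset.sum_sub_distrib]
    have h4 : ∀ j ∈ Finset.range (2 * M), ‖Ac T (fun ω => ∑ m ∈ Finset.range (j + 1), ((Complex.I / 2) ^ j * ((j.choose m : ℕ) : ℂ) / (j.factorial : ℂ)) * ((E ω * G ω ^ m) * (starRingEnd ℂ) (E ω * G ω ^ (j - m)))) -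
        ∫ ω, ∑ m ∈ Finset.range (j + 1), ((Complex.I / 2) ^ j * ((j.choose m : ℕ) : ℂ) / (j.factorial : ℂ)) * ((E ω * G ω ^ m) * (starRingEnd ℂ) (E ω * G ω ^ (j - m))) ∂tm‖ ≤
        (2 * M) * (2 * Real.exp (2 * (lE + 2 * M * lG)) / T * R) := by
      intro j hj
      have hj' : j < 2 * M := Finset.mem_range.mp hj
      rw [Ac_sum _ fun m _ => ((CC.const _).mul (hcm m (j - m))).1, integral_finset_sum _ fun m _ => ((CC.const _).mul (hcm m (j - m))).int, ← Finset.sum_sub_distrib]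
      have h5 : ∀ m ∈ Finset.range (j + 1), ‖Ac T (fun ω => ((Complex.I / 2) ^ j * ((j.choose m : ℕ) : ℂ) / (j.factorial : ℂ)) * ((E ω * G ω ^ m) * (starRingEnd ℂ) (E ω * G ω ^ (j - m)))) -
          ∫ ω, ((Complex.I / 2) ^ j * ((j.choose m : ℕ) : ℂ) / (j.factorial : ℂ)) * ((E ω * G ω ^ m) * (starRingEnd ℂ) (E ω * G ω ^ (j - m))) ∂tm‖ ≤ 2 * Real.exp (2 * (lE + 2 * M * lG)) / T * R := by
        intro m hm
        have hm' : m ≤ j := by have := Finset.mem_range.mp hm; omega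
        rw [Ac_smul, integral_const_mul, ← mul_sub, norm_mul]
        have h6 : ‖(Complex.I / 2) ^ j * ((j.choose m : ℕ) : ℂ) / (j.factorial : ℂ)‖ ≤ 1 := by
          rw [norm_div, norm_mul, norm_pow, norm_div, Complex.norm_I, Complex.norm_natCast, Complex.norm_natCast, Complex.norm_ofNat]
          have h7 : ((j.choose m : ℕ) : ℝ) ≤ 2 ^ j := by exact_mod_cast Nat.choose_le_two_pow j m
          have h8 : (1:ℝ) ≤ (j.factorial : ℝ) := by exact_mod_cast Nat.factorial_pos j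
          rw [div_le_one (by linarith)]
          refine le_trans ?_ h8
          rw [one_div, inv_pow, ← div_eq_inv_mul, div_le_one (by positivity)]
          exact h7
        have hcast : ∀ i : ℕ, i ≤ 2 * M → lE + i * lG ≤ lE + 2 * M * lG := fun i hi => by
          have : (i:ℝ) ≤ 2 * M := by exact_mod_cast hi
          have := mul_le_mul_of_nonneg_right this hlG
          linarith
        have hsp : ∀ i : ℕ, i ≤ 2 * M → Sp (lE + 2 * M * lG) (fun ω => E ω * G ω ^ i) := fun i hi => (hE.mul (hG.pow i)).mono (hcast i hi)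
        have h9 := MV2 (hsp m (by omega)) (hsp (j - m) (by omega)) (hR m (by omega)) (hR (j - m) (by omega)) le_rfl hT
        have h10 : 0 ≤ 2 * Real.exp (2 * (lE + 2 * M * lG)) / T * R := by positivity
        exact (mul_le_mul h6 h9 (norm_nonneg _) zero_le_one).trans (by rw [one_mul])
      refine (norm_sum_le _ _).trans ((Finset.sum_le_sum h5).trans ?_)
      rw [Finset.sum_const, Finset.card_range, nsmul_eq_mul]
      refine mul_le_mul_of_nonneg_right ?_ (by positivity)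
      exact_mod_cast hj'
    refine (norm_sum_le _ _).trans ((Finset.sum_le_sum h4).trans (le_of_eq ?_))
    rw [Finset.sum_const, Finset.card_range, nsmul_eq_mul]
    push_cast
    ring
  have e2 : Ac T f - ∫ ω, f ω ∂tm = (Ac T f - Ac T pl) + (Ac T pl - ∫ ω, pl ω ∂tm) - ((∫ ω, f ω ∂tm) - ∫ ω, pl ω ∂tm) := by ring
  rw [e2]
  refine (norm_sub_le _ _).trans ((add_le_add (norm_add_le _ _) le_rfl).trans ?_)
  have e3 : 4 * K / ((2 * M).factorial : ℝ) = 3 * K / ((2 * M).factorial : ℝ) + K / ((2 * M).factorial : ℝ) := by ring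
  linarith

/-- The characteristic function over `[0, T]` is close to the one of the torus. -/
theorem At_ch' (P : Pm) {n : ℕ} (a : Fin n → ℂ) (y : Fin n → ℝ) {e : ℝ} (he : 0 < e) : ∃ C : ℝ, 0 < C ∧ ∀ q : ℕ, 3 ≤ q → ∀ x : ℝ, 0 < x → x ≤ 1 → ∀ L : ℝ, 0 ≤ L → PL L ≤ PX x →
    ∀ T : ℝ, 0 < T → C * Real.exp (C * ((q:ℝ) ^ 2 * L)) ≤ T →
    ‖Ac T (fun ω => ((‖Ey P.Z q x L P.k 0 ω‖ ^ 2 : ℝ) : ℂ) * Complex.exp (((hG q x L a y ω).re : ℂ) * Complex.I)) -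
      ∫ ω, ((‖Ey P.Z q x L P.k 0 ω‖ ^ 2 : ℝ) : ℂ) * Complex.exp (((hG q x L a y ω).re : ℂ) * Complex.I) ∂tm‖ ≤ e * x ^ (-P.k ^ 2) := by
  obtain ⟨K, hK, h2⟩ := Ek_exp P a y (lam := 2) (by norm_num)
  obtain ⟨M, hM⟩ : ∃ M : ℕ, 4 * K * (1 / 4) ^ M < e / 2 := by
    have h1 : Tendsto (fun M : ℕ => 4 * K * (1 / 4 : ℝ) ^ M) atTop (𝓝 0) := by
      have := (tendsto_pow_atTop_nhds_zero_of_lt_one (r := (1 / 4 : ℝ)) (by norm_num) (by norm_num)).const_mul (4 * K)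
      simpa using this
    exact (h1.eventually (gt_mem_nhds (show 0 < e / 2 by positivity))).exists
  obtain ⟨R, hR⟩ : ∃ R : ℝ, R = ((4 * M).factorial : ℝ) * K := ⟨_, rfl⟩
  have hR0 : 0 < R := by
    rw [hR]
    have : (0:ℝ) < ((4 * M).factorial : ℝ) := by exact_mod_cast Nat.factorial_pos _
    positivity
  obtain ⟨C0, hC0⟩ : ∃ C0 : ℝ, C0 = (2 * M) ^ 2 * (2 * R) / (e / 2) := ⟨_, rfl⟩
  have hC00 : 0 ≤ C0 := by rw [hC0]; positivity
  obtain ⟨C, hC⟩ : ∃ C : ℝ, C = 1 + C0 + 2 * (32 * P.Z + 2 * M) := ⟨_, rfl⟩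
  have hC' : 0 ≤ 2 * (32 * (P.Z:ℝ) + 2 * M) := by positivity
  refine ⟨C, by rw [hC]; positivity, fun q hq x hx hx1 L hL hP T hT hCT => ?_⟩
  have hexp := h2 q hq x hx hx1 L hP
  obtain ⟨lE, hlE⟩ : ∃ lE : ℝ, lE = 32 * P.Z * (q:ℝ) ^ 2 * L := ⟨_, rfl⟩
  obtain ⟨lG, hlG⟩ : ∃ lG : ℝ, lG = q * L := ⟨_, rfl⟩
  have hlE0 : 0 ≤ lE := by rw [hlE]; positivity
  have hlG0 : 0 ≤ lG := by rw [hlG]; positivity
  have hE : Sp lE (Ey P.Z q x L P.k 0) := by rw [hlE]; exact Ey_sp P.Z q hL x P.k 0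
  have hG : Sp lG (hG q x L a y) := by rw [hlG]; exact hG_sp q hL x a y
  have hlen : 2 * (lE + 2 * M * lG) ≤ C * ((q:ℝ) ^ 2 * L) := by
    rw [hlE, hlG]
    have hq1 : (1:ℝ) ≤ q := by exact_mod_cast (by omega : 1 ≤ q)
    have h3 : (q:ℝ) * L ≤ (q:ℝ) ^ 2 * L := mul_le_mul_of_nonneg_right (by nlinarith) hL
    have h4 : 0 ≤ (q:ℝ) ^ 2 * L := by positivity
    have h5 : 2 * (32 * P.Z * (q:ℝ) ^ 2 * L + 2 * M * (q * L)) ≤ 2 * (32 * P.Z + 2 * M) * ((q:ℝ) ^ 2 * L) := by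
      have := mul_le_mul_of_nonneg_left h3 (show (0:ℝ) ≤ 2 * (2 * M) by positivity)
      nlinarith
    refine h5.trans (mul_le_mul_of_nonneg_right ?_ h4)
    rw [hC]
    linarith
  have hxk : 0 < x ^ (-P.k ^ 2) := by positivity
  have hmk : ∀ (m : ℕ) (lam : ℝ), 0 < lam → lam ≤ 2 → mk 1 (fun ω => Ey P.Z q x L P.k 0 ω * Pool.Agent.H470.hG q x L a y ω ^ m) ≤ ((2 * m).factorial : ℝ) * (lam⁻¹) ^ (2 * m) * (K * x ^ (-P.k ^ 2)) := by
    intro m lam hlam hlam2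
    have hEc := Ey_cc P.Z q x L P.k 0
    have hGc := hG_cc q x L a y
    rw [mk_one_sq]
    have hi2 : RB fun ω => ‖Ey P.Z q x L P.k 0 ω‖ ^ 2 * Real.exp (2 * ‖Pool.Agent.H470.hG q x L a y ω‖) :=
      (hEc.norm.pow 2).mul (((RB.const 2).mul hGc.norm).comp Real.continuous_exp)
    have h3 : ∀ ω, ‖Ey P.Z q x L P.k 0 ω * Pool.Agent.H470.hG q x L a y ω ^ m‖ ^ 2 ≤ ((2 * m).factorial : ℝ) * (lam⁻¹) ^ (2 * m) * (‖Ey P.Z q x L P.k 0 ω‖ ^ 2 * Real.exp (2 * ‖Pool.Agent.H470.hG q x L a y ω‖)) := by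
      intro ω
      obtain ⟨g, hg⟩ : ∃ g : ℝ, g = ‖Pool.Agent.H470.hG q x L a y ω‖ := ⟨_, rfl⟩
      have hg0 : 0 ≤ g := by rw [hg]; positivity
      rw [norm_mul, norm_pow, mul_pow, ← pow_mul, Nat.mul_comm m 2, ← hg]
      have h4 : g ^ (2 * m) ≤ ((2 * m).factorial : ℝ) * (lam⁻¹) ^ (2 * m) * Real.exp (2 * g) := by
        have h5 := Real.pow_div_factorial_le_exp (lam * g) (by positivity) (2 * m)
        have h6 : (0:ℝ) < ((2 * m).factorial : ℝ) := by exact_mod_cast Nat.factorial_pos _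
        rw [div_le_iff₀ h6, mul_pow] at h5
        have h7 : g ^ (2 * m) = (lam⁻¹) ^ (2 * m) * (lam ^ (2 * m) * g ^ (2 * m)) := by
          rw [← mul_assoc, ← mul_pow, inv_mul_cancel₀ hlam.ne', one_pow, one_mul]
        rw [h7]
        have h8 : Real.exp (lam * g) ≤ Real.exp (2 * g) := Real.exp_le_exp.mpr (mul_le_mul_of_nonneg_right hlam2 hg0)
        have h9 : lam ^ (2 * m) * g ^ (2 * m) ≤ Real.exp (2 * g) * ((2 * m).factorial : ℝ) := h5.trans (mul_le_mul_of_nonneg_right h8 h6.le)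
        refine (mul_le_mul_of_nonneg_left h9 (by positivity)).trans (le_of_eq ?_)
        ring
      have h10 := mul_le_mul_of_nonneg_left h4 (show 0 ≤ ‖Ey P.Z q x L P.k 0 ω‖ ^ 2 by positivity)
      refine h10.trans (le_of_eq ?_)
      ring
    refine (integral_mono ((hEc.mul (hGc.pow m)).norm.pow 2).int ((RB.const _).mul hi2).int h3).trans ?_
    rw [integral_const_mul]
    exact mul_le_mul_of_nonneg_left hexp (by positivity)
  have hRm : ∀ m, m ≤ 2 * M → mk 1 (fun ω => Ey P.Z q x L P.k 0 ω * Pool.Agent.H470.hG q x L a y ω ^ m) ≤ R * x ^ (-P.k ^ 2) := by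
    intro m hm
    have h3 := hmk m 1 one_pos (by norm_num)
    rw [inv_one, one_pow, mul_one] at h3
    refine h3.trans ?_
    have h4 : (((2 * m).factorial : ℕ) : ℝ) ≤ ((4 * M).factorial : ℕ) := by exact_mod_cast Nat.factorial_le (by omega)
    rw [hR]
    have h5 : 0 < K * x ^ (-P.k ^ 2) := by positivity
    calc ((2 * m).factorial : ℝ) * (K * x ^ (-P.k ^ 2)) ≤ ((4 * M).factorial : ℝ) * (K * x ^ (-P.k ^ 2)) := mul_le_mul_of_nonneg_right h4 h5.le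
      _ = _ := by ring
  have hKM := hmk M 2 (by norm_num) le_rfl
  have hlT : Real.exp (2 * (lE + M * lG)) ≤ T := by
    have h3 : Real.exp (2 * (lE + M * lG)) ≤ Real.exp (C * ((q:ℝ) ^ 2 * L)) := by
      rw [Real.exp_le_exp]
      have : (M:ℝ) * lG ≤ 2 * M * lG := by
        have : 0 ≤ (M:ℝ) * lG := by positivity
        linarith
      linarith
    have h4 : 1 ≤ C := by rw [hC]; linarith
    have h5 : 0 < Real.exp (C * ((q:ℝ) ^ 2 * L)) := Real.exp_pos _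
    nlinarith
  have h6 := At_ch hE hG hlE0 hlG0 M hRm hKM hT hlT
  refine h6.trans ?_
  have h7 : 4 * (((2 * M).factorial : ℝ) * ((2:ℝ)⁻¹) ^ (2 * M) * (K * x ^ (-P.k ^ 2))) / ((2 * M).factorial : ℝ) = 4 * K * (1 / 4) ^ M * x ^ (-P.k ^ 2) := by
    have h8 : (0:ℝ) < ((2 * M).factorial : ℝ) := by exact_mod_cast Nat.factorial_pos _
    have h9 : ((2:ℝ)⁻¹) ^ (2 * M) = (1 / 4) ^ M := by rw [pow_mul]; norm_num
    rw [h9]
    field_simp
  rw [h7]
  have h8 := mul_le_mul_of_nonneg_right hM.le hxk.le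
  have h9 : (2 * M) ^ 2 * (2 * Real.exp (2 * (lE + 2 * M * lG)) / T * (R * x ^ (-P.k ^ 2))) ≤ e / 2 * x ^ (-P.k ^ 2) := by
    have h10 : C0 * Real.exp (2 * (lE + 2 * M * lG)) ≤ T := by
      have h11 : Real.exp (2 * (lE + 2 * M * lG)) ≤ Real.exp (C * ((q:ℝ) ^ 2 * L)) := Real.exp_le_exp.mpr hlen
      have h12 : C0 ≤ C := by rw [hC]; linarith
      exact (mul_le_mul h12 h11 (Real.exp_pos _).le (by linarith)).trans hCT
    have h13 : C0 * Real.exp (2 * (lE + 2 * M * lG)) / T ≤ 1 := (div_le_one hT).mpr h10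
    have e1 : (2 * (M:ℝ)) ^ 2 * (2 * Real.exp (2 * (lE + 2 * M * lG)) / T * (R * x ^ (-P.k ^ 2))) = (e / 2 * x ^ (-P.k ^ 2)) * (C0 * Real.exp (2 * (lE + 2 * M * lG)) / T) := by
      rw [hC0]
      field_simp
    rw [e1]
    have h14 : 0 ≤ e / 2 * x ^ (-P.k ^ 2) := by positivity
    nlinarith
  linarith

end Pool.Agent.H470
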