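import Pool.Agent.H470.Wa20

set_option autoImplicit false

/-! Weak convergence of the weighted vectors over `[0, T]`. -/

namespace Pool.Agent.H470

open MeasureTheory Filter Topology ProbabilityTheory Set
open scoped ENNReal
open Pool.Agent.TH806 (ec ec_norm ec_cont uu integrable_uu)
open Pool.Agent.R313.CX (mu Cv)

structure Rg (x : ℝ → ℝ) (q : ℝ → ℕ) : Prop where
  hx : Tendsto x atTop (𝓝[>] 0)
  hq : Tendsto q atTop atTop
  hqx : ∀ᶠ T in atTop, q T * x T ≤ 1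
  hT : ∀ C : ℝ, ∀ᶠ T in atTop, C * Real.exp (C * ((q T:ℝ) ^ 3 / x T)) ≤ T

lemma Rg_ex {x : ℝ → ℝ} (hx : Tendsto x atTop (𝓝[>] 0)) (hxL : Tendsto (fun T => x T * Real.log T) atTop atTop) : ∃ q, Rg x q := by
  refine ⟨fun T => ⌊min (1 / x T) ((x T * Real.log T) ^ (1 / 4 : ℝ))⌋₊, hx, ?_, ?_, ?_⟩
  · have h1 : Tendsto (fun T => min (1 / x T) ((x T * Real.log T) ^ (1 / 4 : ℝ))) atTop atTop := by
      have ha : Tendsto (fun T => 1 / x T) atTop atTop := by
        simp only [one_div]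
        exact tendsto_inv_nhdsGT_zero.comp hx
      have hb : Tendsto (fun T => (x T * Real.log T) ^ (1 / 4 : ℝ)) atTop atTop := (tendsto_rpow_atTop (by norm_num)).comp hxL
      refine tendsto_atTop.mpr fun b => ?_
      filter_upwards [ha.eventually_ge_atTop b, hb.eventually_ge_atTop b] with T h1 h2
      exact le_min h1 h2
    exact tendsto_nat_floor_atTop.comp h1
  · filter_upwards [hx.eventually self_mem_nhdsWithin, hxL.eventually_ge_atTop 0] with T h1 h2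
    have hx0 : 0 < x T := h1
    have h3 : ((⌊min (1 / x T) ((x T * Real.log T) ^ (1 / 4 : ℝ))⌋₊ : ℕ) : ℝ) ≤ 1 / x T :=
      (Nat.floor_le (le_min (by positivity) (Real.rpow_nonneg h2 _))).trans (min_le_left _ _)
    calc _ ≤ 1 / x T * x T := mul_le_mul_of_nonneg_right h3 hx0.le
      _ = 1 := by field_simp
  · intro C
    obtain ⟨C', hC'⟩ : ∃ C' : ℝ, C' = |C| + 1 := ⟨_, rfl⟩
    have hC'0 : 0 < C' := by rw [hC']; positivity
    have hCC : C ≤ C' := by rw [hC']; linarith [le_abs_self C]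
    have hu : Tendsto (fun T => (x T * Real.log T) ^ (1 / 4 : ℝ)) atTop atTop := (tendsto_rpow_atTop (by norm_num)).comp hxL
    filter_upwards [hx.eventually self_mem_nhdsWithin, hu.eventually_ge_atTop (2 * C'), hxL.eventually_gt_atTop 0, eventually_gt_atTop 1, eventually_ge_atTop (C' ^ 2)] with T h1 h2 h3 h4 h5
    have hx0 : 0 < x T := h1
    obtain ⟨u, hu⟩ : ∃ u : ℝ, u = (x T * Real.log T) ^ (1 / 4 : ℝ) := ⟨_, rfl⟩
    rw [← hu] at h2 ⊢
    have hu0 : 0 < u := by linarith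
    have hu4 : u ^ 4 = x T * Real.log T := by
      rw [hu, ← Real.rpow_natCast, ← Real.rpow_mul h3.le]
      norm_num
    obtain ⟨q, hq⟩ : ∃ q : ℝ, q = ((⌊min (1 / x T) u⌋₊ : ℕ) : ℝ) := ⟨_, rfl⟩
    rw [← hq]
    have hq0 : 0 ≤ q := by rw [hq]; positivity
    have hqu : q ≤ u := by
      rw [hq]
      exact (Nat.floor_le (le_min (by positivity) hu0.le)).trans (min_le_right _ _)
    have hT0 : 0 < T := by linarith
    have hlog : 0 < Real.log T := Real.log_pos h4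
    have h6 : C' * (q ^ 3 / x T) ≤ Real.log T / 2 := by
      have h7 : q ^ 3 ≤ u ^ 3 := pow_le_pow_left₀ hq0 hqu 3
      have h8 : x T = u ^ 4 / Real.log T := by rw [hu4]; field_simp
      have h9 : u ^ 3 / x T = Real.log T / u := by rw [h8]; field_simp
      have h10 : q ^ 3 / x T ≤ Real.log T / u := by rw [← h9]; exact div_le_div_of_nonneg_right h7 hx0.le
      refine (mul_le_mul_of_nonneg_left h10 hC'0.le).trans ?_
      rw [mul_div_assoc', div_le_div_iff₀ hu0 (by norm_num)]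
      nlinarith
    have h7 : C' ≤ Real.exp (Real.log T / 2) := by
      have h8 : Real.exp (Real.log T / 2) ^ 2 = T := by
        rw [← Real.exp_nat_mul]
        push_cast
        rw [mul_div_cancel₀ _ (by norm_num : (2:ℝ) ≠ 0), Real.exp_log hT0]
      refine le_of_sq_le_sq ?_ (Real.exp_pos _).le
      rw [h8]
      exact h5
    have h8 : C * Real.exp (C * (q ^ 3 / x T)) ≤ C' * Real.exp (C' * (q ^ 3 / x T)) := by
      have h9 : 0 ≤ q ^ 3 / x T := by positivity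
      have h10 : Real.exp (C * (q ^ 3 / x T)) ≤ Real.exp (C' * (q ^ 3 / x T)) := Real.exp_le_exp.mpr (mul_le_mul_of_nonneg_right hCC h9)
      have h11 : 0 < Real.exp (C * (q ^ 3 / x T)) := Real.exp_pos _
      calc C * Real.exp (C * (q ^ 3 / x T)) ≤ C' * Real.exp (C * (q ^ 3 / x T)) := mul_le_mul_of_nonneg_right hCC h11.le
        _ ≤ _ := mul_le_mul_of_nonneg_left h10 hC'0.le
    refine h8.trans ?_
    calc C' * Real.exp (C' * (q ^ 3 / x T)) ≤ Real.exp (Real.log T / 2) * Real.exp (Real.log T / 2) :=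
          mul_le_mul h7 (Real.exp_le_exp.mpr h6) (Real.exp_pos _).le (Real.exp_pos _).le
      _ = T := by rw [← Real.exp_add, add_halves, Real.exp_log hT0]

lemma Rg.small {x : ℝ → ℝ} {q : ℝ → ℕ} (h : Rg x q) : ∀ᶠ T in atTop, 0 < x T ∧ x T ≤ 1 / 2 := by
  have h1 : Tendsto x atTop (𝓝 0) := h.hx.mono_right nhdsWithin_le_nhds
  filter_upwards [h.hx.eventually self_mem_nhdsWithin, h1.eventually (gt_mem_nhds (show (0:ℝ) < 1 / 2 by norm_num))] with T h2 h3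
  exact ⟨h2, h3.le⟩

theorem ch_T (P : Pm) {x : ℝ → ℝ} {q : ℝ → ℕ} (hR : Rg x q) {n : ℕ} (y : Fin n → ℝ) {ρ : ProbabilityMeasure (Fin n → ℂ)}
    (hρ : ∀ α β : Fin n → ℂ, ∫ z, Complex.exp (∑ j, (α j * z j + β j * (starRingEnd ℂ) (z j))) ∂(ρ : Measure (Fin n → ℂ)) =
      Complex.exp (∑ j, (α j * mu P.k (y j) + β j * (starRingEnd ℂ) (mu P.k (y j))) + ∑ i, ∑ j, α i * β j * Cv (y i) (y j))) (a : Fin n → ℂ) :
    Tendsto (fun T : ℝ => (((2 * x T) ^ (P.k ^ 2) : ℝ) : ℂ) * Ac T (fun ω => ((‖Ey P.Z (q T) (x T) (q T / x T) P.k 0 ω‖ ^ 2 : ℝ) : ℂ) * Complex.exp (((hG (q T) (x T) (q T / x T) a y ω).re : ℂ) * Complex.I))) atTop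
      (𝓝 ((aK P.k : ℂ) * ∫ z, Complex.exp ((lr a z : ℂ) * Complex.I) ∂(ρ : Measure (Fin n → ℂ)))) := by
  have h1 := (w_ch y hρ a).comp hR.hx
  have hdiff : Tendsto (fun T : ℝ => (((2 * x T) ^ (P.k ^ 2) : ℝ) : ℂ) * Ac T (fun ω => ((‖Ey P.Z (q T) (x T) (q T / x T) P.k 0 ω‖ ^ 2 : ℝ) : ℂ) * Complex.exp (((hG (q T) (x T) (q T / x T) a y ω).re : ℂ) * Complex.I)) -
      (((2 * x T) ^ (P.k ^ 2) : ℝ) : ℂ) * ∫ ω, ((‖Fp (x T) 0 ω‖ ^ (2 * P.k) : ℝ) : ℂ) * Complex.exp ((lr a (Yx y (x T) ω) : ℂ) * Complex.I) ∂tm) atTop (𝓝 0) := by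
    rw [Metric.tendsto_nhds]
    intro ε hε
    obtain ⟨e, he⟩ : ∃ e : ℝ, e = ε / (4 * 2 ^ (P.k ^ 2)) := ⟨_, rfl⟩
    have he0 : 0 < e := by rw [he]; positivity
    obtain ⟨q0, hq0, h2⟩ := ch_near P a y he0
    obtain ⟨C, hC, h3⟩ := At_ch' P a y he0
    filter_upwards [hR.small, hR.hq.eventually_ge_atTop q0, hR.hqx, hR.hT C, eventually_gt_atTop 0] with T h4 h5 h6 h7 h8
    obtain ⟨hx0, hx2⟩ := h4
    have h9 := h2 (q T) h5 (x T) hx0 hx2 h6
    have hL : 0 ≤ q T / x T := by positivity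
    have e3 : (q T : ℝ) ^ 3 / x T = (q T : ℝ) ^ 2 * (q T / x T) := by ring
    rw [e3] at h7
    have h10 := h3 (q T) (hq0.trans h5) (x T) hx0 (by linarith) (q T / x T) hL (PL_le hx0 h6) T h8 h7
    rw [dist_zero_right, ← mul_sub, norm_mul, Complex.norm_real, Real.norm_of_nonneg (by positivity)]
    have h11 : ‖Ac T (fun ω => ((‖Ey P.Z (q T) (x T) (q T / x T) P.k 0 ω‖ ^ 2 : ℝ) : ℂ) * Complex.exp (((hG (q T) (x T) (q T / x T) a y ω).re : ℂ) * Complex.I)) -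
        ∫ ω, ((‖Fp (x T) 0 ω‖ ^ (2 * P.k) : ℝ) : ℂ) * Complex.exp ((lr a (Yx y (x T) ω) : ℂ) * Complex.I) ∂tm‖ ≤ 2 * e * (x T) ^ (-P.k ^ 2) := by
      have h12 := norm_add_le_of_le h10 h9
      rw [sub_add_sub_cancel] at h12
      refine h12.trans (le_of_eq ?_)
      ring
    have h12 : (2 * x T) ^ (P.k ^ 2) * (2 * e * (x T) ^ (-P.k ^ 2)) = ε / 2 := by
      rw [Real.mul_rpow (by norm_num) hx0.le, Real.rpow_neg hx0.le, he]
      have h13 : (x T) ^ (P.k ^ 2) ≠ 0 := by positivity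
      have h14 : (2:ℝ) ^ (P.k ^ 2) ≠ 0 := by positivity
      field_simp
      norm_num
    have h13 := mul_le_mul_of_nonneg_left h11 (show 0 ≤ (2 * x T) ^ (P.k ^ 2) by positivity)
    linarith
  have h2 := hdiff.add h1
  rw [zero_add] at h2
  refine h2.congr fun T => ?_
  simp only [Function.comp]
  ring

noncomputable def Gv (q : ℕ) (x L : ℝ) {n : ℕ} (y : Fin n → ℝ) (ω : ℕ → ℝ) : Fin n → ℂ := fun j => PP q x L (y j) ω - PP q x L 0 ω

lemma Gv_cont (q : ℕ) (x L : ℝ) {n : ℕ} (y : Fin n → ℝ) : Continuous (Gv q x L y) := by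
  refine continuous_pi fun j => ?_
  exact (PP_cc q x L (y j)).1.sub (PP_cc q x L 0).1

lemma lr_Gv (q : ℕ) (x L : ℝ) {n : ℕ} (a : Fin n → ℂ) (y : Fin n → ℝ) (ω : ℕ → ℝ) : lr a (Gv q x L y ω) = (hG q x L a y ω).re := rfl

/-- the normalised measure on `[0, T]` -/
noncomputable def mT (T : ℝ) : Measure ℝ := ENNReal.ofReal (1 / T) • volume.restrict (Ioc 0 T)

lemma mT_int {E : Type*} [NormedAddCommGroup E] [NormedSpace ℝ E] {T : ℝ} (hT : 0 < T) (f : ℝ → E) : ∫ t, f t ∂(mT T) = (1 / T) • ∫ t in (0:ℝ)..T, f t := by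
  unfold mT
  rw [integral_smul_measure, ENNReal.toReal_ofReal (by positivity), intervalIntegral.integral_of_le hT.le]

lemma mT_at {T : ℝ} (hT : 0 < T) (f : (ℕ → ℝ) → ℝ) : ∫ t, f (fl t) ∂(mT T) = At T f := by
  rw [mT_int hT]
  rfl

lemma mT_ac {T : ℝ} (hT : 0 < T) (f : (ℕ → ℝ) → ℂ) : ∫ t, f (fl t) ∂(mT T) = Ac T f := by
  rw [mT_int hT, Complex.real_smul]
  rfl

lemma mT_fin (T : ℝ) : IsFiniteMeasure (mT T) := by
  unfold mT
  exact Measure.smul_finite _ ENNReal.ofReal_ne_top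

theorem wk_T (P : Pm) {x : ℝ → ℝ} {q : ℝ → ℕ} (hR : Rg x q) {n : ℕ} (y : Fin n → ℝ) {ρ : ProbabilityMeasure (Fin n → ℂ)}
    (hρ : ∀ α β : Fin n → ℂ, ∫ z, Complex.exp (∑ j, (α j * z j + β j * (starRingEnd ℂ) (z j))) ∂(ρ : Measure (Fin n → ℂ)) =
      Complex.exp (∑ j, (α j * mu P.k (y j) + β j * (starRingEnd ℂ) (mu P.k (y j))) + ∑ i, ∑ j, α i * β j * Cv (y i) (y j)))
    (F : BoundedContinuousFunction (Fin n → ℂ) ℝ) :
    Tendsto (fun T : ℝ => (2 * x T) ^ (P.k ^ 2) * At T (fun ω => ‖Ey P.Z (q T) (x T) (q T / x T) P.k 0 ω‖ ^ 2 * F (Gv (q T) (x T) (q T / x T) y ω))) atTop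
      (𝓝 (aK P.k * ∫ z, F z ∂(ρ : Measure (Fin n → ℂ)))) := by
  obtain ⟨-, haK, -⟩ := mass_lim P.k
  have hcE : ∀ T, CC (Ey P.Z (q T) (x T) (q T / x T) P.k 0) := fun T => Ey_cc _ _ _ _ _ _
  have hkey := levy (p := fun T t => (2 * x T) ^ (P.k ^ 2) * ‖Ey P.Z (q T) (x T) (q T / x T) P.k 0 (fl t)‖ ^ 2)
    (Y := fun T t => Gv (q T) (x T) (q T / x T) y (fl t)) (ms := mT) (c := aK P.k) (ρ := ρ) ?_ ?_ haK ?_ ?_ F
  · refine hkey.congr' ?_
    filter_upwards [eventually_gt_atTop 0] with T hT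
    have h1 := mT_at hT (fun ω => (2 * x T) ^ (P.k ^ 2) * (‖Ey P.Z (q T) (x T) (q T / x T) P.k 0 ω‖ ^ 2 * F (Gv (q T) (x T) (q T / x T) y ω)))
    rw [At_smul] at h1
    rw [← h1]
    refine integral_congr_ae (Eventually.of_forall fun t => ?_)
    simp only
    ring
  · filter_upwards [hR.small] with T hT
    refine ⟨?_, fun t => ?_⟩
    · exact (((((hcE T).1.norm.pow 2).comp fl_cont)).const_mul _).measurable
    · have := hT.1
      positivity
  · exact Eventually.of_forall fun T => ((Gv_cont _ _ _ _).comp fl_cont).measurable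
  · refine Eventually.of_forall fun T => ?_
    have := mT_fin T
    obtain ⟨B, hB⟩ := (((RB.const ((2 * x T) ^ (P.k ^ 2))).mul ((hcE T).norm.pow 2))).2
    refine Integrable.of_bound (((((hcE T).1.norm.pow 2).comp fl_cont)).const_mul _).aestronglyMeasurable B (Eventually.of_forall fun t => ?_)
    exact hB (fl t)
  · intro a
    refine (ch_T P hR y hρ a).congr' ?_
    filter_upwards [eventually_gt_atTop 0] with T hT
    rw [← mT_ac hT, ← integral_const_mul]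
    refine integral_congr_ae (Eventually.of_forall fun t => ?_)
    simp only [lr_Gv]
    push_cast
    ring

end Pool.Agent.H470
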