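import Pool.Agent.H470.Wa21

set_option autoImplicit false

/-! Comparison of the mollified sums with the weighted vectors. -/

namespace Pool.Agent.H470

open MeasureTheory Filter Topology ProbabilityTheory Set
open scoped ENNReal
open Pool.Agent.TH806 (ec ec_norm ec_cont uu integrable_uu)
open Pool.Agent.R313.CX (mu Cv)

noncomputable def et (q : ℕ) : ℝ := Real.exp (Real.exp (-(q:ℝ)) / 4) - 1

lemma et_lim : Tendsto et atTop (𝓝 0) := by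
  have h1 : Tendsto (fun q : ℕ => Real.exp (-(q:ℝ))) atTop (𝓝 0) := Real.tendsto_exp_neg_atTop_nhds_zero.comp tendsto_natCast_atTop_atTop
  have h2 := ((Real.continuous_exp.tendsto _).comp (h1.div_const 4)).sub_const 1
  rw [zero_div, Real.exp_zero, sub_self] at h2
  exact h2

lemma et_nonneg (q : ℕ) : 0 ≤ et q := by
  unfold et
  have := Real.add_one_le_exp (Real.exp (-(q:ℝ)) / 4)
  have h2 := Real.exp_pos (-(q:ℝ))
  linarith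

lemma g1 {Z : ℕ} (hZ : 1 ≤ Z) {q : ℕ} (hq : 3 ≤ q) (x L y z : ℝ) (hz : |z| ≤ Z) (ω : ℕ → ℝ) (hgood : ∀ b, b < NB L → ‖Pk q (bk L b) x y ω‖ ≤ ((q * (b + 1) : ℕ) : ℝ)) :
    ‖Ey Z q x L z y ω * Complex.exp (-((z:ℂ) * PP q x L y ω)) - 1‖ ≤ et q := by
  obtain ⟨w, hw⟩ : ∃ w : ℕ → ℂ, ∀ b, w b = if b < NB L then ta Z q x L z y b ω * Complex.exp (-((z:ℂ) * Pk q (bk L b) x y ω)) else 1 := ⟨_, fun _ => rfl⟩
  have hprod : Ey Z q x L z y ω * Complex.exp (-((z:ℂ) * PP q x L y ω)) = ∏ b ∈ Finset.range (NB L), w b := by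
    unfold Ey PP
    rw [Finset.mul_sum, ← Finset.sum_neg_distrib, Complex.exp_sum, ← Finset.prod_mul_distrib]
    refine Finset.prod_congr rfl fun b hb => ?_
    rw [hw, if_pos (Finset.mem_range.mp hb)]
  rw [hprod]
  have hwb : ∀ b, ‖w b - 1‖ ≤ Real.exp (-(q:ℝ)) * Real.exp (-((q * (b + 1) : ℕ) : ℝ)) := by
    intro b
    rw [hw]
    split_ifs with hb
    · have h1 := te_near (8 * Z * (q * (b + 1))) ((z:ℂ) * Pk q (bk L b) x y ω)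
      unfold ta
      refine h1.trans ?_
      rw [← Real.exp_add, Real.exp_le_exp, norm_mul, Complex.norm_real, Real.norm_eq_abs]
      have h2 : |z| * ‖Pk q (bk L b) x y ω‖ ≤ Z * ((q * (b + 1) : ℕ) : ℝ) := mul_le_mul hz (hgood b hb) (norm_nonneg _) (by positivity)
      have hq1 : (1:ℝ) ≤ q := by exact_mod_cast (by omega : 1 ≤ q)
      have hZ1 : (1:ℝ) ≤ Z := by exact_mod_cast hZ
      have hb0 : (0:ℝ) ≤ b := Nat.cast_nonneg b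
      have h3 : ((8 * Z * (q * (b + 1)) : ℕ) : ℝ) = 8 * (Z * ((q * (b + 1) : ℕ) : ℝ)) := by push_cast; ring
      rw [h3]
      obtain ⟨u, hu⟩ : ∃ u : ℝ, u = ((q * (b + 1) : ℕ) : ℝ) := ⟨_, rfl⟩
      rw [← hu] at h2 ⊢
      have h5 : (q:ℝ) ≤ u := by
        rw [hu]
        push_cast
        nlinarith
      have h6 : u ≤ Z * u := by
        have : 0 ≤ u := by linarith
        nlinarith
      linarith
    · rw [sub_self, norm_zero]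
      positivity
  refine (norm_prod_sub hwb).trans ?_
  unfold et
  have h7 : ∏ b ∈ Finset.range (NB L), (1 + Real.exp (-(q:ℝ)) * Real.exp (-((q * (b + 1) : ℕ) : ℝ))) ≤ Real.exp (Real.exp (-(q:ℝ)) / 4) := by
    have h8 : ∏ b ∈ Finset.range (NB L), (1 + Real.exp (-(q:ℝ)) * Real.exp (-((q * (b + 1) : ℕ) : ℝ))) ≤ ∏ b ∈ Finset.range (NB L), Real.exp (Real.exp (-(q:ℝ)) * Real.exp (-((q * (b + 1) : ℕ) : ℝ))) := by
      refine Finset.prod_le_prod (fun b _ => by positivity) fun b _ => ?_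
      have := Real.add_one_le_exp (Real.exp (-(q:ℝ)) * Real.exp (-((q * (b + 1) : ℕ) : ℝ)))
      linarith
    refine h8.trans ?_
    rw [← Real.exp_sum, Real.exp_le_exp, ← Finset.mul_sum]
    have h9 := eb_sum hq (NB L)
    have h10 := mul_le_mul_of_nonneg_left h9 (Real.exp_pos (-(q:ℝ))).le
    linarith
  linarith

lemma modl {k : ℝ} (hk : 0 < k) {V : ℝ} (hV : 0 ≤ V) {ε : ℝ} (hε : 0 < ε) : ∃ δ : ℝ, 0 < δ ∧ ∀ w v : ℂ, ‖v‖ ≤ V → ‖w - v‖ ≤ δ → |‖w‖ ^ (2 * k) - ‖v‖ ^ (2 * k)| ≤ ε := by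
  have hc : Continuous fun s : ℝ => s ^ (2 * k) := Real.continuous_rpow_const (by positivity)
  have hu := (isCompact_Icc (a := (0:ℝ)) (b := V + 1)).uniformContinuousOn_of_continuous hc.continuousOn
  rw [Metric.uniformContinuousOn_iff_le] at hu
  obtain ⟨δ, hδ, h⟩ := hu ε hε
  refine ⟨min δ 1, by positivity, fun w v hv hwv => ?_⟩
  have h1 : |‖w‖ - ‖v‖| ≤ min δ 1 := (abs_norm_sub_norm_le w v).trans hwv
  have h2 : ‖w‖ ≤ V + 1 := by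
    have := (abs_le.mp (h1.trans (min_le_right _ _))).2
    linarith
  have h3 := h ‖w‖ ⟨norm_nonneg _, h2⟩ ‖v‖ ⟨norm_nonneg _, by linarith⟩ (by rw [Real.dist_eq]; exact h1.trans (min_le_left _ _))
  rwa [Real.dist_eq] at h3

noncomputable def Hf (k : ℝ) {n : ℕ} (c : Fin n → ℂ) (z : Fin n → ℂ) : ℝ := ‖∑ j, c j * Complex.exp (z j)‖ ^ (2 * k)

lemma Hf_cont {k : ℝ} (hk : 0 < k) {n : ℕ} (c : Fin n → ℂ) : Continuous (Hf k c) := by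
  unfold Hf
  have h1 : Continuous fun z : Fin n → ℂ => ‖∑ j, c j * Complex.exp (z j)‖ := by fun_prop
  exact (Real.continuous_rpow_const (by positivity : (0:ℝ) ≤ 2 * k)).comp h1

lemma Hf_le {k : ℝ} (hk : 0 < k) {n : ℕ} (c : Fin n → ℂ) {z : Fin n → ℂ} {R : ℝ} (hz : ‖z‖ ≤ R) : ‖∑ j, c j * Complex.exp (z j)‖ ≤ (∑ j, ‖c j‖) * Real.exp R ∧ Hf k c z ≤ ((∑ j, ‖c j‖) * Real.exp R) ^ (2 * k) := by
  have h1 : ‖∑ j, c j * Complex.exp (z j)‖ ≤ (∑ j, ‖c j‖) * Real.exp R := by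
    rw [Finset.sum_mul]
    refine (norm_sum_le _ _).trans (Finset.sum_le_sum fun j _ => ?_)
    rw [norm_mul, Complex.norm_exp]
    exact mul_le_mul_of_nonneg_left (Real.exp_le_exp.mpr ((Complex.re_le_norm _).trans ((norm_le_pi_norm z j).trans hz))) (norm_nonneg _)
  exact ⟨h1, Real.rpow_le_rpow (norm_nonneg _) h1 (by positivity)⟩

theorem g2 (P : Pm) {n : ℕ} (c : Fin n → ℂ) (y : Fin n → ℝ) (R : ℝ) {ε : ℝ} (hε : 0 < ε) : ∃ q0 : ℕ, 3 ≤ q0 ∧ ∀ q : ℕ, q0 ≤ q → ∀ x L : ℝ, ∀ ω : ℕ → ℝ,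
    (∀ i, ∀ b, b < NB L → ‖Pk q (bk L b) x ((Fin.cons 0 y : Fin (n + 1) → ℝ) i) ω‖ ≤ ((q * (b + 1) : ℕ) : ℝ)) → ‖Gv q x L y ω‖ ≤ R →
    |‖Sc P.Z q x L c y ω‖ ^ (2 * P.k) - ‖Ey P.Z q x L P.k 0 ω‖ ^ 2 * Hf P.k c (Gv q x L y ω)| ≤ ε * ‖Ey P.Z q x L P.k 0 ω‖ ^ 2 := by
  have hk := P.hk
  have hkZ : |P.k| ≤ P.Z := by rw [abs_of_pos hk]; exact P.hkZ
  have hZ1 : |(1:ℝ)| ≤ P.Z := by rw [abs_one]; exact_mod_cast P.hZ
  obtain ⟨V, hV⟩ : ∃ V : ℝ, V = (∑ j, ‖c j‖) * Real.exp R := ⟨_, rfl⟩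
  have hV0 : 0 ≤ V := by rw [hV]; positivity
  obtain ⟨δ, hδ, hmod⟩ := modl hk hV0 (ε := ε / 8) (by positivity)
  have hl1 : Tendsto (fun q => V * et q) atTop (𝓝 0) := by simpa using et_lim.const_mul V
  have hl2 : Tendsto (fun q => 3 * et q * V ^ (2 * P.k)) atTop (𝓝 0) := by simpa using (et_lim.const_mul 3).mul_const (V ^ (2 * P.k))
  obtain ⟨q1, hq1⟩ := eventually_atTop.mp (((hl1.eventually (gt_mem_nhds hδ)).and (hl2.eventually (gt_mem_nhds (show 0 < ε / 8 by positivity)))).and (et_lim.eventually (gt_mem_nhds (show (0:ℝ) < 1 / 2 by norm_num))))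
  refine ⟨max 3 q1, le_max_left _ _, fun q hq x L ω hgood hG => ?_⟩
  have hq3 : 3 ≤ q := (le_max_left _ _).trans hq
  obtain ⟨⟨h1, h2⟩, h3⟩ := hq1 q ((le_max_right _ _).trans hq)
  have het := et_nonneg q
  obtain ⟨D, hD⟩ : ∃ D : Fin n → ℂ, ∀ j, D j = Ey P.Z q x L 1 (y j) ω * Complex.exp (-(((1:ℝ):ℂ) * PP q x L (y j) ω)) - 1 := ⟨_, fun _ => rfl⟩
  have hDn : ∀ j, ‖D j‖ ≤ et q := fun j => by
    rw [hD]
    exact g1 P.hZ hq3 x L (y j) 1 hZ1 ω (fun b hb => by simpa using hgood j.succ b hb)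
  obtain ⟨D', hD'⟩ : ∃ D' : ℂ, D' = Ey P.Z q x L P.k 0 ω * Complex.exp (-((P.k:ℂ) * PP q x L 0 ω)) - 1 := ⟨_, rfl⟩
  have hD'n : ‖D'‖ ≤ et q := by
    rw [hD']
    exact g1 P.hZ hq3 x L 0 P.k hkZ ω (fun b hb => by simpa using hgood 0 b hb)
  obtain ⟨w, hw⟩ : ∃ w : ℂ, w = ∑ j, c j * (Complex.exp (Gv q x L y ω j) * (1 + D j)) := ⟨_, rfl⟩
  obtain ⟨v, hv⟩ : ∃ v : ℂ, v = ∑ j, c j * Complex.exp (Gv q x L y ω j) := ⟨_, rfl⟩
  have hS : Sc P.Z q x L c y ω = Complex.exp (PP q x L 0 ω) * w := by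
    unfold Sc
    rw [hw, Finset.mul_sum]
    refine Finset.sum_congr rfl fun j _ => ?_
    have e1 : Ey P.Z q x L 1 (y j) ω = Complex.exp (PP q x L (y j) ω) * (1 + D j) := by
      rw [hD, Complex.ofReal_one, one_mul, add_sub_cancel, mul_comm, mul_assoc, ← Complex.exp_add, neg_add_cancel, Complex.exp_zero, mul_one]
    rw [e1]
    have e2 : Complex.exp (PP q x L (y j) ω) = Complex.exp (PP q x L 0 ω) * Complex.exp (Gv q x L y ω j) := by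
      rw [← Complex.exp_add]
      congr 1
      unfold Gv
      ring
    rw [e2]
    ring
  obtain ⟨A, hA⟩ : ∃ A : ℝ, A = Real.exp (2 * P.k * (PP q x L 0 ω).re) := ⟨_, rfl⟩
  have hA0 : 0 < A := by rw [hA]; exact Real.exp_pos _
  have hS2 : ‖Sc P.Z q x L c y ω‖ ^ (2 * P.k) = A * ‖w‖ ^ (2 * P.k) := by
    rw [hS, norm_mul, Real.mul_rpow (norm_nonneg _) (norm_nonneg _), Complex.norm_exp, ← Real.exp_mul, hA]
    congr 2
    ring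
  have hE : ‖Ey P.Z q x L P.k 0 ω‖ ^ 2 = A * ‖1 + D'‖ ^ 2 := by
    have e1 : Ey P.Z q x L P.k 0 ω = Complex.exp ((P.k:ℂ) * PP q x L 0 ω) * (1 + D') := by
      rw [hD', add_sub_cancel, mul_comm, mul_assoc, ← Complex.exp_add, neg_add_cancel, Complex.exp_zero, mul_one]
    rw [e1, norm_mul, mul_pow, Complex.norm_exp, ← Real.exp_nat_mul, hA, Complex.re_ofReal_mul]
    congr 2
    push_cast
    ring
  have hvV : ‖v‖ ≤ V := by rw [hv, hV]; exact (Hf_le hk c hG).1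
  have hwv : ‖w - v‖ ≤ V * et q := by
    rw [hw, hv, ← Finset.sum_sub_distrib, hV, Finset.sum_mul, Finset.sum_mul]
    refine (norm_sum_le _ _).trans (Finset.sum_le_sum fun j _ => ?_)
    have e1 : c j * (Complex.exp (Gv q x L y ω j) * (1 + D j)) - c j * Complex.exp (Gv q x L y ω j) = c j * Complex.exp (Gv q x L y ω j) * D j := by ring
    rw [e1, norm_mul, norm_mul, Complex.norm_exp]
    have h4 : Real.exp (Gv q x L y ω j).re ≤ Real.exp R := Real.exp_le_exp.mpr ((Complex.re_le_norm _).trans ((norm_le_pi_norm _ j).trans hG))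
    exact mul_le_mul (mul_le_mul_of_nonneg_left h4 (norm_nonneg _)) (hDn j) (norm_nonneg _) (by positivity)
  have h5 := hmod w v hvV (hwv.trans h1.le)
  have h6 : |1 - ‖1 + D'‖ ^ 2| ≤ 3 * et q := by
    have h7 : |1 - ‖1 + D'‖| ≤ et q := by
      have := abs_norm_sub_norm_le (1:ℂ) (1 + D')
      rw [norm_one] at this
      refine this.trans ?_
      have e1 : (1:ℂ) - (1 + D') = -D' := by ring
      rw [e1, norm_neg]
      exact hD'n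
    have h8 : ‖1 + D'‖ ≤ 3 / 2 := by
      have := (abs_le.mp h7).1
      linarith
    have e2 : 1 - ‖1 + D'‖ ^ 2 = (1 - ‖1 + D'‖) * (1 + ‖1 + D'‖) := by ring
    rw [e2, abs_mul, abs_of_nonneg (show 0 ≤ 1 + ‖1 + D'‖ by positivity)]
    have h9 : 1 + ‖1 + D'‖ ≤ 3 := by linarith
    calc |1 - ‖1 + D'‖| * (1 + ‖1 + D'‖) ≤ et q * 3 := mul_le_mul h7 h9 (by positivity) het
      _ = _ := by ring
  have h7 : 1 / 4 ≤ ‖1 + D'‖ ^ 2 := by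
    have h8 : 1 / 2 ≤ ‖1 + D'‖ := by
      have h9 := norm_sub_norm_le (1:ℂ) (-D')
      rw [norm_one, norm_neg, sub_neg_eq_add] at h9
      linarith
    nlinarith
  have hHv : Hf P.k c (Gv q x L y ω) = ‖v‖ ^ (2 * P.k) := by rw [hv]; rfl
  rw [hS2, hE, hHv]
  have hv2 : ‖v‖ ^ (2 * P.k) ≤ V ^ (2 * P.k) := Real.rpow_le_rpow (norm_nonneg _) hvV (by positivity)
  have hv0 : 0 ≤ ‖v‖ ^ (2 * P.k) := by positivity
  have e3 : A * ‖w‖ ^ (2 * P.k) - A * ‖1 + D'‖ ^ 2 * ‖v‖ ^ (2 * P.k) = A * ((‖w‖ ^ (2 * P.k) - ‖v‖ ^ (2 * P.k)) + (1 - ‖1 + D'‖ ^ 2) * ‖v‖ ^ (2 * P.k)) := by ring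
  rw [e3, abs_mul, abs_of_pos hA0]
  have h8 : |(1 - ‖1 + D'‖ ^ 2) * ‖v‖ ^ (2 * P.k)| ≤ ε / 8 := by
    rw [abs_mul, abs_of_nonneg hv0]
    exact (mul_le_mul h6 hv2 hv0 (by positivity)).trans h2.le
  have h9 : |(‖w‖ ^ (2 * P.k) - ‖v‖ ^ (2 * P.k)) + (1 - ‖1 + D'‖ ^ 2) * ‖v‖ ^ (2 * P.k)| ≤ ε / 4 := by
    refine (abs_add_le _ _).trans ?_
    linarith
  have h10 := mul_le_mul_of_nonneg_left h9 hA0.le
  have h11 : A * (ε / 4) ≤ ε * (A * ‖1 + D'‖ ^ 2) := by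
    have : ε * A * (1 / 4) ≤ ε * A * ‖1 + D'‖ ^ 2 := mul_le_mul_of_nonneg_left h7 (by positivity)
    linarith
  exact h10.trans h11

noncomputable def Bs (q : ℕ) (x L : ℝ) {n : ℕ} (y : Fin n → ℝ) (ω : ℕ → ℝ) : ℝ :=
  ∑ i, ∑ b ∈ Finset.range (NB L), ‖hp q x L ((Fin.cons 0 y : Fin (n + 1) → ℝ) i) b ω‖ ^ 2

lemma Bs_nonneg (q : ℕ) (x L : ℝ) {n : ℕ} (y : Fin n → ℝ) (ω : ℕ → ℝ) : 0 ≤ Bs q x L y ω := by unfold Bs; positivity

lemma Bs_bad {q : ℕ} (hq : 1 ≤ q) (x L : ℝ) {n : ℕ} (y : Fin n → ℝ) (ω : ℕ → ℝ)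
    (h : ¬ ∀ i, ∀ b, b < NB L → ‖Pk q (bk L b) x ((Fin.cons 0 y : Fin (n + 1) → ℝ) i) ω‖ ≤ ((q * (b + 1) : ℕ) : ℝ)) : 1 ≤ Bs q x L y ω := by
  push Not at h
  obtain ⟨i, b, hb, hP⟩ := h
  have h0 : 0 < q * (b + 1) := by positivity
  have h1 : 1 ≤ ‖hp q x L ((Fin.cons 0 y : Fin (n + 1) → ℝ) i) b ω‖ ^ 2 := by
    unfold hp
    rw [norm_pow, norm_div, Complex.norm_natCast]
    have h2 : 1 ≤ ‖Pk q (bk L b) x ((Fin.cons 0 y : Fin (n + 1) → ℝ) i) ω‖ / ((q * (b + 1) : ℕ) : ℝ) := by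
      rw [one_le_div (by exact_mod_cast h0)]
      exact hP.le
    exact one_le_pow₀ (one_le_pow₀ h2)
  obtain ⟨F, hF⟩ : ∃ F : Fin (n + 1) → ℕ → ℝ, ∀ i b, F i b = ‖hp q x L ((Fin.cons 0 y : Fin (n + 1) → ℝ) i) b ω‖ ^ 2 := ⟨_, fun _ _ => rfl⟩
  have hF0 : ∀ i b, 0 ≤ F i b := fun i b => by rw [hF]; positivity
  have hBF : Bs q x L y ω = ∑ i, ∑ b ∈ Finset.range (NB L), F i b := by
    unfold Bs
    simp only [hF]
  rw [← hF] at h1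
  rw [hBF]
  have h3 : F i b ≤ ∑ b ∈ Finset.range (NB L), F i b := Finset.single_le_sum (fun b _ => hF0 i b) (Finset.mem_range.mpr hb)
  have h4 : ∑ b ∈ Finset.range (NB L), F i b ≤ ∑ i, ∑ b ∈ Finset.range (NB L), F i b :=
    Finset.single_le_sum (fun i _ => Finset.sum_nonneg fun b _ => hF0 i b) (Finset.mem_univ i)
  linarith

theorem star (P : Pm) {n : ℕ} (c : Fin n → ℂ) (y : Fin n → ℝ) (R : ℝ) {ε : ℝ} (hε : 0 < ε) : ∃ q0 : ℕ, 3 ≤ q0 ∧ ∀ q : ℕ, q0 ≤ q → ∀ x L : ℝ, ∀ ω : ℕ → ℝ,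
    ∀ ψ : (Fin n → ℂ) → ℝ, (∀ z, 0 ≤ ψ z ∧ ψ z ≤ 1) → (∀ z, R ≤ ‖z‖ → ψ z = 0) →
    |‖Sc P.Z q x L c y ω‖ ^ (2 * P.k) * ψ (Gv q x L y ω) - ‖Ey P.Z q x L P.k 0 ω‖ ^ 2 * (Hf P.k c (Gv q x L y ω) * ψ (Gv q x L y ω))| ≤
      ε * ‖Ey P.Z q x L P.k 0 ω‖ ^ 2 + (‖Sc P.Z q x L c y ω‖ ^ (2 * P.k) + ((∑ j, ‖c j‖) * Real.exp R) ^ (2 * P.k) * ‖Ey P.Z q x L P.k 0 ω‖ ^ 2) * Bs q x L y ω := by
  obtain ⟨q0, hq0, h⟩ := g2 P c y R hε
  refine ⟨q0, hq0, fun q hq x L ω ψ hψ hψ0 => ?_⟩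
  obtain ⟨s, hs⟩ : ∃ s : ℝ, s = ‖Sc P.Z q x L c y ω‖ ^ (2 * P.k) := ⟨_, rfl⟩
  obtain ⟨E, hE⟩ : ∃ E : ℝ, E = ‖Ey P.Z q x L P.k 0 ω‖ ^ 2 := ⟨_, rfl⟩
  obtain ⟨G, hG⟩ : ∃ G, G = Gv q x L y ω := ⟨_, rfl⟩
  obtain ⟨V, hV⟩ : ∃ V : ℝ, V = ((∑ j, ‖c j‖) * Real.exp R) ^ (2 * P.k) := ⟨_, rfl⟩
  have hs0 : 0 ≤ s := by rw [hs]; positivity
  have hE0 : 0 ≤ E := by rw [hE]; positivity
  have hV0 : 0 ≤ V := by rw [hV]; positivity
  have hB := Bs_nonneg q x L y ω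
  have hH0 : 0 ≤ Hf P.k c G := by unfold Hf; positivity
  have hrhs : 0 ≤ ε * E + (s + V * E) * Bs q x L y ω := by positivity
  have h' := h q hq x L ω
  rw [← hs, ← hE, ← hG] at *
  rw [← hV]
  obtain ⟨hp0, hp1⟩ := hψ G
  rcases le_or_gt R ‖G‖ with h1 | h1
  · rw [hψ0 G h1, mul_zero, mul_zero, mul_zero, sub_zero, abs_zero]
    exact hrhs
  · by_cases hg : ∀ i, ∀ b, b < NB L → ‖Pk q (bk L b) x ((Fin.cons 0 y : Fin (n + 1) → ℝ) i) ω‖ ≤ ((q * (b + 1) : ℕ) : ℝ)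
    · have h2 := h' hg h1.le
      have e1 : s * ψ G - E * (Hf P.k c G * ψ G) = (s - E * Hf P.k c G) * ψ G := by ring
      rw [e1, abs_mul, abs_of_nonneg hp0]
      have h3 : |s - E * Hf P.k c G| * ψ G ≤ ε * E * 1 := mul_le_mul h2 hp1 hp0 (by positivity)
      have h4 : 0 ≤ (s + V * E) * Bs q x L y ω := by positivity
      linarith
    · have h2 := Bs_bad (by omega : 1 ≤ q) x L y ω hg
      have hH := (Hf_le P.hk c (z := G) h1.le).2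
      rw [← hV] at hH
      have h3 : |s * ψ G - E * (Hf P.k c G * ψ G)| ≤ s + V * E := by
        have h4 : 0 ≤ s * ψ G := by positivity
        have h5 : s * ψ G ≤ s := mul_le_of_le_one_right hs0 hp1
        have h6 : 0 ≤ E * (Hf P.k c G * ψ G) := by positivity
        have h7 : E * (Hf P.k c G * ψ G) ≤ V * E := by
          have h8 : Hf P.k c G * ψ G ≤ V * 1 := mul_le_mul hH hp1 hp0 hV0
          have := mul_le_mul_of_nonneg_left h8 hE0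
          linarith
        rw [abs_le]
        constructor <;> linarith
      have h4 : s + V * E ≤ (s + V * E) * Bs q x L y ω := le_mul_of_one_le_right (by positivity) h2
      have h5 : 0 ≤ ε * E := by positivity
      linarith

end Pool.Agent.H470
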