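import Pool.Agent.H470.Wa22

set_option autoImplicit false

/-! The moments of the mollified sums over `[0, T]`. -/

namespace Pool.Agent.H470

open MeasureTheory Filter Topology ProbabilityTheory Set
open scoped ENNReal
open Pool.Agent.TH806 (ec ec_norm ec_cont uu integrable_uu)
open Pool.Agent.R313.CX (mu Cv)

lemma Ek_mass (P : Pm) : ∃ K : ℝ, 0 < K ∧ ∀ q : ℕ, 3 ≤ q → ∀ x : ℝ, 0 < x → x ≤ 1 →
    ∀ L : ℝ, PL L ≤ PX x → ∫ ω, ‖Ey P.Z q x L P.k 0 ω‖ ^ 2 ∂tm ≤ K * x ^ (-P.k ^ 2) := by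
  obtain ⟨K, hK, h⟩ := Ek_exp P (n := 0) (fun i => i.elim0) (fun i => i.elim0) (lam := 0) le_rfl
  refine ⟨K, hK, fun q hq x hx hx1 L hP => ?_⟩
  have := h q hq x hx hx1 L hP
  simpa using this

lemma Sk_cont (P : Pm) (q : ℕ) (x L : ℝ) {n : ℕ} (c : Fin n → ℂ) (y : Fin n → ℝ) : Continuous fun ω => ‖Sc P.Z q x L c y ω‖ ^ (2 * P.k) :=
  (Real.continuous_rpow_const (by have := P.hk; positivity : (0:ℝ) ≤ 2 * P.k)).comp (Sc_cc P.Z q x L c y).1.norm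

lemma len_T (P : Pm) : ∃ C : ℝ, 1 ≤ C ∧ ∀ (q : ℕ) (L : ℝ), 1 ≤ q → 0 ≤ L → ∀ T : ℝ, C * Real.exp (C * ((q:ℝ) ^ 2 * L)) ≤ T →
    Real.exp (2 * (P.m1 * (32 * P.Z * (q:ℝ) ^ 2 * L) + 32 * P.Z * (q:ℝ) ^ 2 * L + (q:ℝ) ^ 2 * L)) ≤ T ∧
    Real.exp (2 * (P.m1 * (32 * P.Z * (q:ℝ) ^ 2 * L) + 32 * P.Z * (q:ℝ) ^ 2 * L + q * L)) ≤ T ∧
    Real.exp (2 * (32 * P.Z * (q:ℝ) ^ 2 * L + (q:ℝ) ^ 2 * L)) ≤ T := by
  refine ⟨1 + 2 * (P.m1 * (32 * P.Z) + 32 * P.Z + 1), by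
    have : (0:ℝ) ≤ P.m1 * (32 * P.Z) := by positivity
    have : (0:ℝ) ≤ 32 * P.Z := by positivity
    linarith, fun q L hq hL T hT => ?_⟩
  obtain ⟨C, hC⟩ : ∃ C : ℝ, C = 1 + 2 * ((P.m1:ℝ) * (32 * P.Z) + 32 * P.Z + 1) := ⟨_, rfl⟩
  rw [← hC] at hT
  have hmz : (0:ℝ) ≤ P.m1 * (32 * P.Z) := by positivity
  have hz : (0:ℝ) ≤ 32 * P.Z := by positivity
  have hC1 : 1 ≤ C := by rw [hC]; linarith
  obtain ⟨u, hu⟩ : ∃ u : ℝ, u = (q:ℝ) ^ 2 * L := ⟨_, rfl⟩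
  have hu0 : 0 ≤ u := by rw [hu]; positivity
  have hqu : q * L ≤ u := by
    rw [hu]
    have : (1:ℝ) ≤ q := by exact_mod_cast hq
    exact mul_le_mul_of_nonneg_right (by nlinarith) hL
  rw [← hu] at hT
  have h1 : Real.exp (C * u) ≤ T := by
    have := Real.exp_pos (C * u)
    nlinarith
  have h2 : 2 * (P.m1 * (32 * P.Z * (q:ℝ) ^ 2 * L) + 32 * P.Z * (q:ℝ) ^ 2 * L + (q:ℝ) ^ 2 * L) ≤ C * u := by
    have : 2 * (P.m1 * (32 * P.Z * (q:ℝ) ^ 2 * L) + 32 * P.Z * (q:ℝ) ^ 2 * L + (q:ℝ) ^ 2 * L) = 2 * ((P.m1:ℝ) * (32 * P.Z) + 32 * P.Z + 1) * u := by rw [hu]; ring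
    rw [this, hC]
    nlinarith
  refine ⟨(Real.exp_le_exp.mpr h2).trans h1, (Real.exp_le_exp.mpr (le_trans ?_ h2)).trans h1, (Real.exp_le_exp.mpr (le_trans ?_ h2)).trans h1⟩
  · rw [hu] at hqu
    linarith
  · have : 0 ≤ (P.m1:ℝ) * (32 * P.Z * (q:ℝ) ^ 2 * L) := by positivity
    linarith

lemma At_dsum {T : ℝ} {ι : Type*} (s : Finset ι) (B : ℕ) {a : (ℕ → ℝ) → ℝ} {g : ι → ℕ → (ℕ → ℝ) → ℝ} (ha : Continuous a) (hg : ∀ i b, Continuous (g i b)) :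
    At T (fun ω => a ω * ∑ i ∈ s, ∑ b ∈ Finset.range B, g i b ω) = ∑ i ∈ s, ∑ b ∈ Finset.range B, At T (fun ω => a ω * g i b ω) := by
  have h1 : (fun ω => a ω * ∑ i ∈ s, ∑ b ∈ Finset.range B, g i b ω) = fun ω => ∑ i ∈ s, ∑ b ∈ Finset.range B, a ω * g i b ω := by
    funext ω
    rw [Finset.mul_sum]
    exact Finset.sum_congr rfl fun i _ => Finset.mul_sum _ _ _
  rw [h1, At_sum s (f := fun i ω => ∑ b ∈ Finset.range B, a ω * g i b ω) fun i _ => continuous_finset_sum _ fun b _ => ha.mul (hg i b)]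
  refine Finset.sum_congr rfl fun i _ => ?_
  rw [At_sum (Finset.range B) (f := fun b ω => a ω * g i b ω) fun b _ => ha.mul (hg i b)]

lemma At_lin3 (T a b : ℝ) {f g h : (ℕ → ℝ) → ℝ} (hf : Continuous f) (hg : Continuous g) (hh : Continuous h) :
    At T (fun ω => a * f ω + (g ω + b * h ω)) = a * At T f + (At T g + b * At T h) := by
  rw [At_add (f := fun ω => a * f ω) (g := fun ω => g ω + b * h ω) (hf.const_mul a) (hg.add (hh.const_mul b)), At_smul,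
    At_add (f := g) (g := fun ω => b * h ω) hg (hh.const_mul b), At_smul]

theorem S_near (P : Pm) {n : ℕ} (hn : 1 ≤ n) (c : Fin n → ℂ) (y : Fin n → ℝ) (R : ℝ) {e : ℝ} (he : 0 < e) : ∃ C : ℝ, 0 < C ∧ ∃ q0 : ℕ, 3 ≤ q0 ∧ ∀ q : ℕ, q0 ≤ q →
    ∀ x : ℝ, 0 < x → x ≤ 1 → ∀ L : ℝ, 0 ≤ L → PL L ≤ PX x → ∀ T : ℝ, 0 < T → C * Real.exp (C * ((q:ℝ) ^ 2 * L)) ≤ T →
    ∀ ψ : (Fin n → ℂ) → ℝ, Continuous ψ → (∀ z, 0 ≤ ψ z ∧ ψ z ≤ 1) → (∀ z, R ≤ ‖z‖ → ψ z = 0) →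
    |At T (fun ω => ‖Sc P.Z q x L c y ω‖ ^ (2 * P.k) * ψ (Gv q x L y ω)) - At T (fun ω => ‖Ey P.Z q x L P.k 0 ω‖ ^ 2 * (Hf P.k c (Gv q x L y ω) * ψ (Gv q x L y ω)))| ≤ e * x ^ (-P.k ^ 2) := by
  obtain ⟨K, hK, hmass⟩ := Ek_mass P
  obtain ⟨V, hV⟩ : ∃ V : ℝ, V = ((∑ j, ‖c j‖) * Real.exp R) ^ (2 * P.k) := ⟨_, rfl⟩
  have hV0 : 0 ≤ V := by rw [hV]; positivity
  obtain ⟨C, hC, hlen⟩ := len_T P
  obtain ⟨q1, hq1, hstar⟩ := star P c y R (ε := e / (9 * K)) (by positivity)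
  obtain ⟨q2, hq2, hbS⟩ := bad_S P hn c y (e := e / (18 * (n + 1))) (by positivity)
  obtain ⟨q3, hq3, hbE⟩ := bad_E P (e := e / (9 * (n + 1) * (V + 1))) (by positivity)
  refine ⟨C, by linarith, max q1 (max q2 q3), hq1.trans (le_max_left _ _), fun q hq x hx hx1 L hL hP T hT hCT ψ hψc hψ hψ0 => ?_⟩
  have hqq1 : q1 ≤ q := (le_max_left _ _).trans hq
  have hqq2 : q2 ≤ q := ((le_max_left _ _).trans (le_max_right _ _)).trans hq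
  have hqq3 : q3 ≤ q := ((le_max_right _ _).trans (le_max_right _ _)).trans hq
  have hq3' : 3 ≤ q := hq1.trans hqq1
  obtain ⟨hl1, -, hl2⟩ := hlen q L (by omega) hL T hCT
  have hSc := Sk_cont P q x L c y
  have hEc : Continuous fun ω => ‖Ey P.Z q x L P.k 0 ω‖ ^ 2 := (Ey_cc P.Z q x L P.k 0).1.norm.pow 2
  have hGc := Gv_cont q x L y
  have hHc := Hf_cont P.hk c
  have hhp : ∀ y' b, Continuous fun ω => ‖hp q x L y' b ω‖ ^ 2 := fun y' b => (hp_cc q x L y' b).1.norm.pow 2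
  have hf1 : Continuous fun ω => ‖Sc P.Z q x L c y ω‖ ^ (2 * P.k) * ψ (Gv q x L y ω) := hSc.mul (hψc.comp hGc)
  have hf2 : Continuous fun ω => ‖Ey P.Z q x L P.k 0 ω‖ ^ 2 * (Hf P.k c (Gv q x L y ω) * ψ (Gv q x L y ω)) := hEc.mul ((hHc.comp hGc).mul (hψc.comp hGc))
  -- bounds for the bad set
  have hSB : ∀ (y' : ℝ) b, At T (fun ω => ‖Sc P.Z q x L c y ω‖ ^ (2 * P.k) * ‖hp q x L y' b ω‖ ^ 2) ≤ 6 * MM P q x L 1 (Sc P.Z q x L c y) (fun ω => ‖hp q x L y' b ω‖ ^ 2) := fun y' b =>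
    TSB P hq3' hL x (by positivity) (Sc_sp P.Z q hL x c y) (hp_sp' q hL x y' b) one_pos hT hl1
  have hEB : ∀ (y' : ℝ) b, At T (fun ω => ‖Ey P.Z q x L P.k 0 ω‖ ^ 2 * ‖hp q x L y' b ω‖ ^ 2) ≤ 3 * ∫ ω, ‖Ey P.Z q x L P.k 0 ω‖ ^ 2 * ‖hp q x L y' b ω‖ ^ 2 ∂tm := by
    intro y' b
    have h1 := At_sq ((Ey_sp P.Z q hL x P.k 0).mul (hp_sp' q hL x y' b)) hT hl2
    simp only [norm_mul, mul_pow] at h1
    exact h1
  have hEm : At T (fun ω => ‖Ey P.Z q x L P.k 0 ω‖ ^ 2) ≤ 3 * (K * x ^ (-P.k ^ 2)) := by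
    have hl3 : Real.exp (2 * (32 * P.Z * (q:ℝ) ^ 2 * L)) ≤ T := (Real.exp_le_exp.mpr (by
      have : 0 ≤ (q:ℝ) ^ 2 * L := by positivity
      linarith)).trans hl2
    have h1 := At_sq (Ey_sp P.Z q hL x P.k 0) hT hl3
    have h2 := hmass q hq3' x hx hx1 L hP
    linarith
  have hBsum : ∀ ω, Bs q x L y ω = ∑ i, ∑ b ∈ Finset.range (NB L), ‖hp q x L ((Fin.cons 0 y : Fin (n + 1) → ℝ) i) b ω‖ ^ 2 := fun ω => rfl
  have hSBs : At T (fun ω => ‖Sc P.Z q x L c y ω‖ ^ (2 * P.k) * Bs q x L y ω) ≤ e / 3 * x ^ (-P.k ^ 2) := by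
    simp only [hBsum]
    rw [At_dsum Finset.univ (NB L) (g := fun i b ω => ‖hp q x L ((Fin.cons 0 y : Fin (n + 1) → ℝ) i) b ω‖ ^ 2) hSc fun i b => hhp _ b]
    have h1 : ∀ i : Fin (n + 1), ∑ b ∈ Finset.range (NB L), At T (fun ω => ‖Sc P.Z q x L c y ω‖ ^ (2 * P.k) * ‖hp q x L ((Fin.cons 0 y : Fin (n + 1) → ℝ) i) b ω‖ ^ 2) ≤ 6 * (e / (18 * (n + 1)) * x ^ (-P.k ^ 2)) := by
      intro i
      refine (Finset.sum_le_sum fun b _ => hSB _ b).trans ?_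
      rw [← Finset.mul_sum]
      exact mul_le_mul_of_nonneg_left (hbS q hqq2 x hx hx1 L hP _) (by norm_num)
    refine (Finset.sum_le_sum fun i _ => h1 i).trans (le_of_eq ?_)
    rw [Finset.sum_const, Finset.card_univ, Fintype.card_fin, nsmul_eq_mul]
    push_cast
    field_simp
    norm_num
  have hEBs : At T (fun ω => ‖Ey P.Z q x L P.k 0 ω‖ ^ 2 * Bs q x L y ω) ≤ e / (3 * (V + 1)) * x ^ (-P.k ^ 2) := by
    simp only [hBsum]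
    rw [At_dsum Finset.univ (NB L) (g := fun i b ω => ‖hp q x L ((Fin.cons 0 y : Fin (n + 1) → ℝ) i) b ω‖ ^ 2) hEc fun i b => hhp _ b]
    have h1 : ∀ i : Fin (n + 1), ∑ b ∈ Finset.range (NB L), At T (fun ω => ‖Ey P.Z q x L P.k 0 ω‖ ^ 2 * ‖hp q x L ((Fin.cons 0 y : Fin (n + 1) → ℝ) i) b ω‖ ^ 2) ≤ 3 * (e / (9 * (n + 1) * (V + 1)) * x ^ (-P.k ^ 2)) := by
      intro i
      refine (Finset.sum_le_sum fun b _ => hEB _ b).trans ?_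
      rw [← Finset.mul_sum]
      exact mul_le_mul_of_nonneg_left (hbE q hqq3 x hx hx1 L hP _) (by norm_num)
    refine (Finset.sum_le_sum fun i _ => h1 i).trans (le_of_eq ?_)
    rw [Finset.sum_const, Finset.card_univ, Fintype.card_fin, nsmul_eq_mul]
    push_cast
    field_simp
    norm_num
  have hBc : Continuous fun ω => Bs q x L y ω := by
    unfold Bs
    exact continuous_finset_sum _ fun i _ => continuous_finset_sum _ fun b _ => hhp _ b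
  have hneg : At T (fun ω => ‖Sc P.Z q x L c y ω‖ ^ (2 * P.k) * ψ (Gv q x L y ω)) - At T (fun ω => ‖Ey P.Z q x L P.k 0 ω‖ ^ 2 * (Hf P.k c (Gv q x L y ω) * ψ (Gv q x L y ω))) =
      At T (fun ω => ‖Sc P.Z q x L c y ω‖ ^ (2 * P.k) * ψ (Gv q x L y ω) + (-1) * (‖Ey P.Z q x L P.k 0 ω‖ ^ 2 * (Hf P.k c (Gv q x L y ω) * ψ (Gv q x L y ω)))) := by
    rw [At_add hf1 (hf2.const_mul (-1)), At_smul]
    ring
  have habs : |At T (fun ω => ‖Sc P.Z q x L c y ω‖ ^ (2 * P.k) * ψ (Gv q x L y ω) + (-1) * (‖Ey P.Z q x L P.k 0 ω‖ ^ 2 * (Hf P.k c (Gv q x L y ω) * ψ (Gv q x L y ω))))| ≤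
      At T (fun ω => e / (9 * K) * ‖Ey P.Z q x L P.k 0 ω‖ ^ 2 + (‖Sc P.Z q x L c y ω‖ ^ (2 * P.k) * Bs q x L y ω + V * (‖Ey P.Z q x L P.k 0 ω‖ ^ 2 * Bs q x L y ω))) := by
    unfold At
    rw [abs_mul, abs_of_pos (by positivity : 0 < 1 / T)]
    refine mul_le_mul_of_nonneg_left ?_ (by positivity)
    rw [← Real.norm_eq_abs]
    refine intervalIntegral.norm_integral_le_of_norm_le hT.le (Eventually.of_forall fun t _ => ?_) ?_
    · have h1 := hstar q hqq1 x L (fl t) ψ hψ hψ0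
      rw [← hV] at h1
      rw [Real.norm_eq_abs]
      beta_reduce
      rw [neg_one_mul, ← sub_eq_add_neg]
      refine h1.trans (le_of_eq ?_)
      ring
    · exact At_ii ((hEc.const_mul _).add ((hSc.mul hBc).add ((hEc.mul hBc).const_mul V))) T
  rw [hneg]
  refine habs.trans ?_
  rw [At_lin3 T _ V (f := fun ω => ‖Ey P.Z q x L P.k 0 ω‖ ^ 2) (g := fun ω => ‖Sc P.Z q x L c y ω‖ ^ (2 * P.k) * Bs q x L y ω) (h := fun ω => ‖Ey P.Z q x L P.k 0 ω‖ ^ 2 * Bs q x L y ω) hEc (hSc.mul hBc) (hEc.mul hBc)]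
  have h1 : e / (9 * K) * At T (fun ω => ‖Ey P.Z q x L P.k 0 ω‖ ^ 2) ≤ e / 3 * x ^ (-P.k ^ 2) := by
    refine (mul_le_mul_of_nonneg_left hEm (by positivity)).trans (le_of_eq ?_)
    field_simp
    norm_num
  have h2 : V * At T (fun ω => ‖Ey P.Z q x L P.k 0 ω‖ ^ 2 * Bs q x L y ω) ≤ e / 3 * x ^ (-P.k ^ 2) := by
    refine (mul_le_mul_of_nonneg_left hEBs hV0).trans ?_
    have h3 : V * (e / (3 * (V + 1)) * x ^ (-P.k ^ 2)) = e / 3 * x ^ (-P.k ^ 2) * (V / (V + 1)) := by field_simp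
    rw [h3]
    have h4 : V / (V + 1) ≤ 1 := (div_le_one (by linarith)).mpr (by linarith)
    have h5 : 0 ≤ e / 3 * x ^ (-P.k ^ 2) := by positivity
    nlinarith
  linarith

theorem tail_S (P : Pm) {n : ℕ} (hn : 1 ≤ n) (c : Fin n → ℂ) (y : Fin n → ℝ) : ∃ K : ℝ, 0 < K ∧ ∃ C : ℝ, 0 < C ∧ ∃ q0 : ℕ, 3 ≤ q0 ∧ ∀ q : ℕ, q0 ≤ q →
    ∀ x : ℝ, 0 < x → x ≤ 1 → ∀ L : ℝ, 0 ≤ L → PL L ≤ PX x → ∀ T : ℝ, 0 < T → C * Real.exp (C * ((q:ℝ) ^ 2 * L)) ≤ T →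
    At T (fun ω => ‖Sc P.Z q x L c y ω‖ ^ (2 * P.k) * ∑ j, ‖Gv q x L y ω j‖ ^ 2) ≤ K * x ^ (-P.k ^ 2) := by
  obtain ⟨C, hC, hlen⟩ := len_T P
  choose K hK q0 hq0 h using fun j : Fin n => MM_G P hn c y (fun _ : Fin 1 => (1:ℂ)) (fun _ => y j)
  have hKs : 0 ≤ ∑ j, 6 * K j := Finset.sum_nonneg fun j _ => mul_nonneg (by norm_num) (hK j).le
  refine ⟨1 + ∑ j, 6 * K j, by linarith, C, by linarith, max 3 (Finset.univ.sup q0), le_max_left _ _, fun q hq x hx hx1 L hL hP T hT hCT => ?_⟩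
  have hq3 : 3 ≤ q := (le_max_left _ _).trans hq
  have hqj : ∀ j, q0 j ≤ q := fun j => (Finset.le_sup (f := q0) (Finset.mem_univ j)).trans ((le_max_right _ _).trans hq)
  obtain ⟨-, hl1, -⟩ := hlen q L (by omega) hL T hCT
  have hSc := Sk_cont P q x L c y
  have hGe : ∀ j ω, Gv q x L y ω j = hG q x L (fun _ : Fin 1 => (1:ℂ)) (fun _ => y j) ω := by
    intro j ω
    unfold Gv hG
    rw [Fin.sum_univ_one, one_mul]
  have hGc : ∀ j, Continuous fun ω => ‖Gv q x L y ω j‖ ^ 2 := fun j => ((continuous_apply j).comp (Gv_cont q x L y)).norm.pow 2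
  have e1 : (fun ω => ‖Sc P.Z q x L c y ω‖ ^ (2 * P.k) * ∑ j, ‖Gv q x L y ω j‖ ^ 2) = fun ω => ∑ j, ‖Sc P.Z q x L c y ω‖ ^ (2 * P.k) * ‖Gv q x L y ω j‖ ^ 2 := by
    funext ω
    exact Finset.mul_sum _ _ _
  rw [e1, At_sum Finset.univ (f := fun j ω => ‖Sc P.Z q x L c y ω‖ ^ (2 * P.k) * ‖Gv q x L y ω j‖ ^ 2) fun j _ => hSc.mul (hGc j)]
  have h1 : ∀ j, At T (fun ω => ‖Sc P.Z q x L c y ω‖ ^ (2 * P.k) * ‖Gv q x L y ω j‖ ^ 2) ≤ 6 * K j * x ^ (-P.k ^ 2) := by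
    intro j
    simp only [hGe]
    have h2 := TSB P hq3 hL x (by positivity) (Sc_sp P.Z q hL x c y) (hG_sp q hL x (fun _ : Fin 1 => (1:ℂ)) (fun _ => y j)) one_pos hT hl1
    have h3 := h j q (hqj j) x hx hx1 L hP
    linarith
  refine (Finset.sum_le_sum fun j _ => h1 j).trans ?_
  rw [← Finset.sum_mul]
  refine mul_le_mul_of_nonneg_right ?_ (by positivity)
  linarith

noncomputable def pR (R : ℝ) {n : ℕ} (z : Fin n → ℂ) : ℝ := max 0 (min 1 (2 - ‖z‖ / R))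

lemma pR_cont (R : ℝ) (n : ℕ) : Continuous (pR R : (Fin n → ℂ) → ℝ) := by
  unfold pR
  fun_prop

lemma pR_01 (R : ℝ) {n : ℕ} (z : Fin n → ℂ) : 0 ≤ pR R z ∧ pR R z ≤ 1 := by
  unfold pR
  exact ⟨le_max_left _ _, max_le zero_le_one (min_le_left _ _)⟩

lemma pR_zero {R : ℝ} (hR : 0 < R) {n : ℕ} (z : Fin n → ℂ) (h : 2 * R ≤ ‖z‖) : pR R z = 0 := by
  unfold pR
  have h1 : 2 ≤ ‖z‖ / R := by rw [le_div_iff₀ hR]; exact h
  rw [max_eq_left]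
  exact (min_le_right _ _).trans (by linarith)

lemma pR_one {R : ℝ} (hR : 0 < R) {n : ℕ} (z : Fin n → ℂ) (h : ‖z‖ ≤ R) : pR R z = 1 := by
  unfold pR
  have h1 : ‖z‖ / R ≤ 1 := by rw [div_le_one hR]; exact h
  rw [min_eq_left (by linarith), max_eq_right zero_le_one]

lemma pR_tail {R : ℝ} (hR : 0 < R) {n : ℕ} (z : Fin n → ℂ) : 1 - pR R z ≤ (R ^ 2)⁻¹ * ∑ j, ‖z j‖ ^ 2 := by
  rcases le_or_gt ‖z‖ R with h | h
  · rw [pR_one hR z h, sub_self]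
    positivity
  · have h1 : ∃ j, R < ‖z j‖ := by
      by_contra hcon
      push Not at hcon
      have := (pi_norm_le_iff_of_nonneg hR.le).mpr hcon
      linarith
    obtain ⟨j, hj⟩ := h1
    have h2 : R ^ 2 ≤ ∑ j, ‖z j‖ ^ 2 := (pow_le_pow_left₀ hR.le hj.le 2).trans (Finset.single_le_sum (f := fun j => ‖z j‖ ^ 2) (fun _ _ => by positivity) (Finset.mem_univ j))
    have h3 : 1 ≤ (R ^ 2)⁻¹ * ∑ j, ‖z j‖ ^ 2 := by
      rw [← div_eq_inv_mul, one_le_div (by positivity)]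
      exact h2
    have := (pR_01 R z).1
    linarith

theorem S_T (P : Pm) {x : ℝ → ℝ} {q : ℝ → ℕ} (hR : Rg x q) {n : ℕ} (hn : 1 ≤ n) (c : Fin n → ℂ) (y : Fin n → ℝ) {ρ : ProbabilityMeasure (Fin n → ℂ)}
    (hexp : ∀ s : ℝ, Integrable (fun z => Real.exp (s * ‖z‖)) (ρ : Measure (Fin n → ℂ)))
    (hρ : ∀ α β : Fin n → ℂ, ∫ z, Complex.exp (∑ j, (α j * z j + β j * (starRingEnd ℂ) (z j))) ∂(ρ : Measure (Fin n → ℂ)) =
      Complex.exp (∑ j, (α j * mu P.k (y j) + β j * (starRingEnd ℂ) (mu P.k (y j))) + ∑ i, ∑ j, α i * β j * Cv (y i) (y j))) :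
    Tendsto (fun T : ℝ => (2 * x T) ^ (P.k ^ 2) * At T (fun ω => ‖Sc P.Z (q T) (x T) (q T / x T) c y ω‖ ^ (2 * P.k))) atTop
      (𝓝 (aK P.k * ∫ z, Hf P.k c z ∂(ρ : Measure (Fin n → ℂ)))) := by
  have hk := P.hk
  obtain ⟨-, haK, -⟩ := mass_lim P.k
  obtain ⟨K, hK, C1, hC1, q1, hq1, htail⟩ := tail_S P hn c y
  have hHc := Hf_cont hk c
  have hH0 : ∀ z, 0 ≤ Hf P.k c z := fun z => by unfold Hf; positivity
  have hHi : Integrable (Hf P.k c) (ρ : Measure (Fin n → ℂ)) := by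
    refine ((hexp (2 * P.k)).const_mul ((∑ j, ‖c j‖) ^ (2 * P.k))).mono' hHc.aestronglyMeasurable (Eventually.of_forall fun z => ?_)
    rw [Real.norm_of_nonneg (hH0 z)]
    refine (Hf_le hk c (z := z) le_rfl).2.trans (le_of_eq ?_)
    rw [Real.mul_rpow (by positivity) (Real.exp_pos _).le, ← Real.exp_mul]
    congr 2
    ring
  have hlimR : Tendsto (fun R : ℕ => ∫ z, Hf P.k c z * pR (R + 1) z ∂(ρ : Measure (Fin n → ℂ))) atTop (𝓝 (∫ z, Hf P.k c z ∂(ρ : Measure (Fin n → ℂ)))) := by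
    refine tendsto_integral_of_dominated_convergence (Hf P.k c) (fun R => (hHc.mul (pR_cont _ _)).aestronglyMeasurable) hHi (fun R => Eventually.of_forall fun z => ?_) (Eventually.of_forall fun z => ?_)
    · rw [norm_mul, Real.norm_of_nonneg (hH0 z), Real.norm_of_nonneg (pR_01 _ z).1]
      exact mul_le_of_le_one_right (hH0 z) (pR_01 _ z).2
    · refine tendsto_const_nhds.congr' ?_
      obtain ⟨m, hm⟩ := exists_nat_ge ‖z‖
      filter_upwards [eventually_ge_atTop m] with R hR'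
      have h1 : (m:ℝ) ≤ R := by exact_mod_cast hR'
      rw [pR_one (by positivity) z (by linarith), mul_one]
  rw [Metric.tendsto_nhds]
  intro ε hε
  obtain ⟨W2, hW2⟩ : ∃ W2 : ℝ, W2 = 2 ^ (P.k ^ 2) := ⟨_, rfl⟩
  have hW20 : 0 < W2 := by rw [hW2]; positivity
  have hlim2 : Tendsto (fun R : ℕ => W2 * K * (((R:ℝ) + 1) ^ 2)⁻¹) atTop (𝓝 0) := by
    have h1 : Tendsto (fun R : ℕ => ((R:ℝ) + 1) ^ 2) atTop atTop :=
      (tendsto_pow_atTop (by norm_num)).comp (tendsto_atTop_add_const_right _ _ tendsto_natCast_atTop_atTop)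
    simpa using h1.inv_tendsto_atTop.const_mul (W2 * K)
  obtain ⟨R0, hR1, hR2⟩ := (((Metric.tendsto_nhds.mp hlimR) (ε / (4 * aK P.k)) (by positivity)).and (hlim2.eventually (gt_mem_nhds (show 0 < ε / 4 by positivity)))).exists
  obtain ⟨R, hRd⟩ : ∃ R : ℝ, R = (R0:ℝ) + 1 := ⟨_, rfl⟩
  rw [← hRd] at hR1 hR2
  have hR0 : 0 < R := by rw [hRd]; positivity
  obtain ⟨C2, hC2, q2, hq2, hnear⟩ := S_near P hn c y (2 * R) (e := ε / (4 * W2)) (by positivity)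
  obtain ⟨F, hF⟩ : ∃ F : BoundedContinuousFunction (Fin n → ℂ) ℝ, ∀ z, F z = Hf P.k c z * pR R z :=
    ⟨BoundedContinuousFunction.ofNormedAddCommGroup (fun z => Hf P.k c z * pR R z) (hHc.mul (pR_cont _ _)) (((∑ j, ‖c j‖) * Real.exp (2 * R)) ^ (2 * P.k)) (fun z => by
      rw [norm_mul, Real.norm_of_nonneg (hH0 z), Real.norm_of_nonneg (pR_01 R z).1]
      rcases le_or_gt ‖z‖ (2 * R) with h | h
      · exact (mul_le_of_le_one_right (hH0 z) (pR_01 R z).2).trans (Hf_le hk c h).2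
      · rw [pR_zero hR0 z h.le, mul_zero]
        positivity), fun z => rfl⟩
  have hwk := wk_T P hR y hρ F
  simp only [hF] at hwk
  filter_upwards [hR.small, hR.hq.eventually_ge_atTop (max q1 q2), hR.hqx, hR.hT C1, hR.hT C2, eventually_gt_atTop 0, (Metric.tendsto_nhds.mp hwk) (ε / 4) (by positivity)] with T h1 h2 h3 h4 h5 h6 h7
  obtain ⟨hx0, hx2⟩ := h1
  have e3 : (q T : ℝ) ^ 3 / x T = (q T : ℝ) ^ 2 * (q T / x T) := by ring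
  rw [e3] at h4 h5
  have hL0 : 0 ≤ q T / x T := by positivity
  have hP := PL_le hx0 h3
  have ht := htail (q T) ((le_max_left _ _).trans h2) (x T) hx0 (by linarith) _ hL0 hP T h6 h4
  have hnr := hnear (q T) ((le_max_right _ _).trans h2) (x T) hx0 (by linarith) _ hL0 hP T h6 h5 (pR R) (pR_cont R n) (pR_01 R) (pR_zero hR0)
  obtain ⟨L, hL⟩ : ∃ L : ℝ, L = q T / x T := ⟨_, rfl⟩
  rw [← hL] at ht hnr h7 ⊢
  have hSc := Sk_cont P (q T) (x T) L c y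
  have hGc := Gv_cont (q T) (x T) L y
  obtain ⟨W, hW⟩ : ∃ W : ℝ, W = (2 * x T) ^ (P.k ^ 2) := ⟨_, rfl⟩
  have hW0 : 0 ≤ W := by rw [hW]; positivity
  have hWx : W * (x T) ^ (-P.k ^ 2) = W2 := by
    rw [hW, hW2, Real.mul_rpow (by norm_num) hx0.le, Real.rpow_neg hx0.le]
    have : (x T) ^ (P.k ^ 2) ≠ 0 := by positivity
    field_simp
  rw [← hW] at h7 ⊢
  -- the tail
  have hsplit : At T (fun ω => ‖Sc P.Z (q T) (x T) L c y ω‖ ^ (2 * P.k)) = At T (fun ω => ‖Sc P.Z (q T) (x T) L c y ω‖ ^ (2 * P.k) * pR R (Gv (q T) (x T) L y ω)) +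
      At T (fun ω => ‖Sc P.Z (q T) (x T) L c y ω‖ ^ (2 * P.k) * (1 - pR R (Gv (q T) (x T) L y ω))) := by
    rw [← At_add (f := fun ω => ‖Sc P.Z (q T) (x T) L c y ω‖ ^ (2 * P.k) * pR R (Gv (q T) (x T) L y ω))
      (g := fun ω => ‖Sc P.Z (q T) (x T) L c y ω‖ ^ (2 * P.k) * (1 - pR R (Gv (q T) (x T) L y ω)))
      (hSc.mul ((pR_cont R n).comp hGc)) (hSc.mul (continuous_const.sub ((pR_cont R n).comp hGc)))]
    congr 1
    funext ω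
    ring
  have htl : At T (fun ω => ‖Sc P.Z (q T) (x T) L c y ω‖ ^ (2 * P.k) * (1 - pR R (Gv (q T) (x T) L y ω))) ≤ (R ^ 2)⁻¹ * (K * (x T) ^ (-P.k ^ 2)) := by
    have hGs : Continuous fun ω => ∑ j, ‖Gv (q T) (x T) L y ω j‖ ^ 2 := continuous_finset_sum _ fun j _ => ((continuous_apply j).comp hGc).norm.pow 2
    refine (At_mono h6 (g := fun ω => (R ^ 2)⁻¹ * (‖Sc P.Z (q T) (x T) L c y ω‖ ^ (2 * P.k) * ∑ j, ‖Gv (q T) (x T) L y ω j‖ ^ 2)) (hSc.mul (continuous_const.sub ((pR_cont R n).comp hGc))) ((hSc.mul hGs).const_mul (R ^ 2)⁻¹) fun ω => ?_).trans ?_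
    · have h8 := mul_le_mul_of_nonneg_left (pR_tail hR0 (Gv (q T) (x T) L y ω)) (show 0 ≤ ‖Sc P.Z (q T) (x T) L c y ω‖ ^ (2 * P.k) by positivity)
      refine h8.trans (le_of_eq ?_)
      ring
    · rw [At_smul]
      exact mul_le_mul_of_nonneg_left ht (by positivity)
  have htl0 : 0 ≤ At T (fun ω => ‖Sc P.Z (q T) (x T) L c y ω‖ ^ (2 * P.k) * (1 - pR R (Gv (q T) (x T) L y ω))) :=
    At_nonneg h6 fun ω => mul_nonneg (by positivity) (by have := (pR_01 R (Gv (q T) (x T) L y ω)).2; linarith)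
  have hA : W * At T (fun ω => ‖Sc P.Z (q T) (x T) L c y ω‖ ^ (2 * P.k) * (1 - pR R (Gv (q T) (x T) L y ω))) < ε / 4 := by
    refine (mul_le_mul_of_nonneg_left htl hW0).trans_lt ?_
    have : W * ((R ^ 2)⁻¹ * (K * (x T) ^ (-P.k ^ 2))) = (W * (x T) ^ (-P.k ^ 2)) * K * (R ^ 2)⁻¹ := by ring
    rw [this, hWx]
    exact hR2
  have hA0 : 0 ≤ W * At T (fun ω => ‖Sc P.Z (q T) (x T) L c y ω‖ ^ (2 * P.k) * (1 - pR R (Gv (q T) (x T) L y ω))) := mul_nonneg hW0 htl0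
  have hB : |W * At T (fun ω => ‖Sc P.Z (q T) (x T) L c y ω‖ ^ (2 * P.k) * pR R (Gv (q T) (x T) L y ω)) - W * At T (fun ω => ‖Ey P.Z (q T) (x T) L P.k 0 ω‖ ^ 2 * (Hf P.k c (Gv (q T) (x T) L y ω) * pR R (Gv (q T) (x T) L y ω)))| ≤ ε / 4 := by
    rw [← mul_sub, abs_mul, abs_of_nonneg hW0]
    refine (mul_le_mul_of_nonneg_left hnr hW0).trans (le_of_eq ?_)
    have : W * (ε / (4 * W2) * (x T) ^ (-P.k ^ 2)) = (W * (x T) ^ (-P.k ^ 2)) * (ε / (4 * W2)) := by ring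
    rw [this, hWx]
    field_simp
  have hC : |aK P.k * (∫ z, Hf P.k c z * pR R z ∂(ρ : Measure (Fin n → ℂ))) - aK P.k * ∫ z, Hf P.k c z ∂(ρ : Measure (Fin n → ℂ))| < ε / 4 := by
    rw [← mul_sub, abs_mul, abs_of_pos haK]
    rw [Real.dist_eq] at hR1
    have h8 := mul_lt_mul_of_pos_left hR1 haK
    refine h8.trans_eq ?_
    field_simp
  rw [Real.dist_eq] at h7 ⊢
  rw [hsplit, mul_add]
  rw [abs_le] at hB
  rw [abs_lt] at h7 hC ⊢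
  constructor <;> linarith [h7.1, h7.2, hC.1, hC.2, hB.1, hB.2]

end Pool.Agent.H470
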