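import Pool.Agent.H470.Wa23

set_option autoImplicit false

/-! The moments of the smooth sums over `[0, T]`. -/

namespace Pool.Agent.H470

open MeasureTheory Filter Topology ProbabilityTheory Set
open scoped ENNReal
open Pool.Agent.TH806 (ec ec_norm ec_cont uu integrable_uu)
open Pool.Agent.R313.CX (mu Cv)

noncomputable def nt (k x T : ℝ) (f : (ℕ → ℝ) → ℂ) : ℝ := ((2 * x) ^ (k ^ 2) * At T (fun ω => ‖f ω‖ ^ (2 * k))) ^ kp k

lemma Ak_nonneg (k : ℝ) {T : ℝ} (hT : 0 < T) (f : (ℕ → ℝ) → ℂ) : 0 ≤ At T (fun ω => ‖f ω‖ ^ (2 * k)) := At_nonneg hT fun ω => by positivity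

lemma Ak_int {k : ℝ} (hk : 0 < k) (T : ℝ) {f : (ℕ → ℝ) → ℂ} (hf : CC f) : Integrable (fun t => ‖f (fl t)‖ ^ (2 * k)) (mT T) := by
  have := mT_fin T
  obtain ⟨B, hB⟩ := hf.2
  refine Integrable.of_bound (((Real.continuous_rpow_const (by positivity : (0:ℝ) ≤ 2 * k)).comp ((hf.1.comp fl_cont).norm))).aestronglyMeasurable (B ^ (2 * k)) (Eventually.of_forall fun t => ?_)
  show ‖‖f (fl t)‖ ^ (2 * k)‖ ≤ _
  rw [Real.norm_of_nonneg (by positivity)]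
  exact Real.rpow_le_rpow (norm_nonneg _) (hB _) (by positivity)

lemma Ak_eq {k : ℝ} (hk : 0 < k) {T : ℝ} (hT : 0 < T) {f : (ℕ → ℝ) → ℂ} (hf : CC f) :
    eLpNorm' (fun t => f (fl t)) (2 * k) (mT T) = ENNReal.ofReal (At T (fun ω => ‖f ω‖ ^ (2 * k)) ^ (1 / (2 * k))) := by
  rw [← mT_at hT, eLpNorm'_eq_lintegral_enorm, ← ENNReal.ofReal_rpow_of_nonneg (integral_nonneg fun t => by positivity) (by positivity),
    ofReal_integral_eq_lintegral_ofReal (Ak_int hk T hf) (Eventually.of_forall fun t => by positivity)]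
  congr 1
  refine lintegral_congr fun t => ?_
  rw [← ofReal_norm, ENNReal.ofReal_rpow_of_nonneg (norm_nonneg _) (by positivity)]

lemma Ak_cont {k : ℝ} (hk : 0 < k) {f : (ℕ → ℝ) → ℂ} (hf : CC f) : Continuous fun ω => ‖f ω‖ ^ (2 * k) :=
  (Real.continuous_rpow_const (by positivity : (0:ℝ) ≤ 2 * k)).comp hf.1.norm

lemma Ak_add {k : ℝ} (hk : 0 < k) {T : ℝ} (hT : 0 < T) {f g : (ℕ → ℝ) → ℂ} (hf : CC f) (hg : CC g) :
    At T (fun ω => ‖f ω + g ω‖ ^ (2 * k)) ^ kp k ≤ At T (fun ω => ‖f ω‖ ^ (2 * k)) ^ kp k + At T (fun ω => ‖g ω‖ ^ (2 * k)) ^ kp k := by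
  rcases le_total (2 * k) 1 with h | h
  · have e1 : kp k = 1 := by
      unfold kp
      refine min_eq_left ?_
      rw [le_div_iff₀ (by positivity)]
      linarith
    rw [e1, Real.rpow_one, Real.rpow_one, Real.rpow_one, ← At_add (Ak_cont hk hf) (Ak_cont hk hg)]
    refine At_mono hT (Ak_cont hk (hf.add hg)) ((Ak_cont hk hf).add (Ak_cont hk hg)) fun ω => ?_
    exact (Real.rpow_le_rpow (norm_nonneg _) (norm_add_le _ _) (by positivity)).trans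
      (Real.rpow_add_le_add_rpow (norm_nonneg _) (norm_nonneg _) (by positivity) h)
  · have e1 : kp k = 1 / (2 * k) := by
      unfold kp
      refine min_eq_right ?_
      rw [div_le_one (by positivity)]
      exact h
    rw [e1]
    have h1 := eLpNorm'_add_le (μ := mT T) (f := fun t => f (fl t)) (g := fun t => g (fl t)) (hf.1.comp fl_cont).aestronglyMeasurable (hg.1.comp fl_cont).aestronglyMeasurable h
    have e2 : (fun t => f (fl t)) + (fun t => g (fl t)) = fun t => (fun ω => f ω + g ω) (fl t) := rfl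
    have h2 := Ak_nonneg k hT f
    have h3 := Ak_nonneg k hT g
    rw [e2, Ak_eq hk hT (hf.add hg), Ak_eq hk hT hf, Ak_eq hk hT hg, ← ENNReal.ofReal_add (by positivity) (by positivity)] at h1
    exact (ENNReal.ofReal_le_ofReal_iff (by positivity)).mp h1

lemma nt_nonneg {k x T : ℝ} (hx : 0 ≤ x) (hT : 0 < T) (f : (ℕ → ℝ) → ℂ) : 0 ≤ nt k x T f := by
  unfold nt
  have := Ak_nonneg k hT f
  positivity

lemma nt_eq {k x T : ℝ} (hx : 0 ≤ x) (hT : 0 < T) (f : (ℕ → ℝ) → ℂ) : nt k x T f = ((2 * x) ^ (k ^ 2)) ^ kp k * At T (fun ω => ‖f ω‖ ^ (2 * k)) ^ kp k := by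
  unfold nt
  rw [Real.mul_rpow (by positivity) (Ak_nonneg k hT f)]

lemma nt_add {k x T : ℝ} (hk : 0 < k) (hx : 0 ≤ x) (hT : 0 < T) {f g : (ℕ → ℝ) → ℂ} (hf : CC f) (hg : CC g) :
    nt k x T (fun ω => f ω + g ω) ≤ nt k x T f + nt k x T g := by
  rw [nt_eq hx hT, nt_eq hx hT, nt_eq hx hT, ← mul_add]
  exact mul_le_mul_of_nonneg_left (Ak_add hk hT hf hg) (by positivity)

lemma nt_neg {k x T : ℝ} (f : (ℕ → ℝ) → ℂ) : nt k x T (fun ω => -f ω) = nt k x T f := by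
  unfold nt
  simp_rw [norm_neg]

lemma nt_sub {k x T : ℝ} (hk : 0 < k) (hx : 0 ≤ x) (hT : 0 < T) {f g : (ℕ → ℝ) → ℂ} (hf : CC f) (hg : CC g) :
    |nt k x T f - nt k x T g| ≤ nt k x T (fun ω => f ω - g ω) := by
  have h1 := nt_add (f := fun ω => f ω - g ω) (g := g) hk hx hT (hf.sub hg) hg
  have h2 := nt_add (f := fun ω => g ω - f ω) (g := f) hk hx hT (hg.sub hf) hf
  simp only [sub_add_cancel] at h1 h2
  have h3 : nt k x T (fun ω => g ω - f ω) = nt k x T (fun ω => f ω - g ω) := by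
    rw [← nt_neg (fun ω => f ω - g ω)]
    simp only [neg_sub]
  rw [h3] at h2
  rw [abs_le]
  constructor <;> linarith

lemma nt_le {k x T : ℝ} (hk : 0 < k) (hx : 0 < x) (hT : 0 < T) {f : (ℕ → ℝ) → ℂ} {e : ℝ} (h : At T (fun ω => ‖f ω‖ ^ (2 * k)) ≤ e * x ^ (-k ^ 2)) :
    nt k x T f ≤ (2 ^ (k ^ 2) * e) ^ kp k := by
  unfold nt
  have h1 : (2 * x) ^ (k ^ 2) * (e * x ^ (-k ^ 2)) = 2 ^ (k ^ 2) * e := by
    rw [Real.mul_rpow (by norm_num) hx.le, Real.rpow_neg hx.le]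
    have : x ^ (k ^ 2) ≠ 0 := by positivity
    field_simp
  refine Real.rpow_le_rpow (mul_nonneg (by positivity) (Ak_nonneg k hT f)) ?_ (kp_pos hk).le
  rw [← h1]
  exact mul_le_mul_of_nonneg_left h (by positivity)

lemma WS_sp (w : ℕ → ℝ) (N : ℕ) {l : ℝ} (hl : 0 ≤ l) (hN : Real.log N ≤ l) : Sp l (WS w N) := by
  unfold WS
  refine Sp.sum hl _ fun n hn => ?_
  rw [Finset.mem_Icc] at hn
  have h1 : Real.log n ≤ Real.log N := Real.log_le_log (by exact_mod_cast hn.1) (by exact_mod_cast hn.2)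
  exact ((Sp.chr (by omega)).mono (h1.trans hN)).smul _

lemma WS_cc (w : ℕ → ℝ) (N : ℕ) : CC (WS w N) := (WS_sp w N (l := |Real.log N|) (abs_nonneg _) (le_abs_self _)).cc

lemma PL_log' {L : ℝ} (hL : 0 ≤ L) : Real.log (PL L) ≤ L := by
  rcases Nat.eq_zero_or_pos (PL L) with h | h
  · rw [h]
    simpa using hL
  · rw [Real.log_le_iff_le_exp (by exact_mod_cast h)]
    exact Nat.floor_le (Real.exp_pos _).le

theorem smooth_T {k : ℝ} (hk : 0 < k) {φ : ℝ → ℝ} (h : Sm φ) {B : ℝ} (hB : ∀ u, B ≤ u → φ u = 0) {x : ℝ → ℝ} (hx : Tendsto x atTop (𝓝[>] 0))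
    (hxL : Tendsto (fun T => x T * Real.log T) atTop atTop) :
    Tendsto (fun T => nt k (x T) T (Ig φ (x T)) - nr k (x T) (Ig φ (x T))) atTop (𝓝 0) := by
  obtain ⟨P, hP⟩ := Pm_ex hk
  subst hP
  obtain ⟨q, hR⟩ := Rg_ex hx hxL
  have hkp := kp_pos hk
  rw [Metric.tendsto_nhds]
  intro ε hε
  obtain ⟨e, he⟩ : ∃ e : ℝ, e = min (ε / 5) ((ε / 5) ^ (1 / kp P.k) / (6 * 2 ^ (P.k ^ 2))) := ⟨_, rfl⟩
  have he0 : 0 < e := by rw [he]; positivity
  have hee : (2 ^ (P.k ^ 2) * (6 * e)) ^ kp P.k ≤ ε / 5 := by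
    have h1 : 2 ^ (P.k ^ 2) * (6 * e) ≤ (ε / 5) ^ (1 / kp P.k) := by
      have h2 : e ≤ (ε / 5) ^ (1 / kp P.k) / (6 * 2 ^ (P.k ^ 2)) := by rw [he]; exact min_le_right _ _
      rw [le_div_iff₀ (by positivity)] at h2
      linarith
    have h2 := Real.rpow_le_rpow (by positivity) h1 hkp.le
    rwa [← Real.rpow_mul (by positivity), one_div_mul_cancel hkp.ne', Real.rpow_one] at h2
  obtain ⟨n, c, y, μ, hn, hμ, q0, hq0, hA⟩ := A1 P h hB he0
  obtain ⟨ρ, hexp, hρ, hΦ⟩ := fld_lim hk y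
  obtain ⟨C, hC, hlen⟩ := len_T P
  -- the limits
  have hS := (S_T P hR hn c y hexp hρ).rpow_const (p := kp P.k) (Or.inr hkp.le)
  obtain ⟨v, hv⟩ : ∃ v : ℝ, v = (aK P.k * ∫ z, Hf P.k c z ∂(ρ : Measure (Fin n → ℂ))) ^ kp P.k := ⟨_, rfl⟩
  rw [← hv] at hS
  have hF := hΦ (fun w => ‖∑ j, c j * w j‖ ^ (2 * P.k)) (by
    have h1 : Continuous fun w : Fin n → ℂ => ‖∑ j, c j * w j‖ := by fun_prop
    exact (Real.continuous_rpow_const (by positivity : (0:ℝ) ≤ 2 * P.k)).comp h1) (fun u z => by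
    have h1 : ∑ j, c j * (u • z) j = u * ∑ j, c j * z j := by
      rw [Finset.mul_sum]
      refine Finset.sum_congr rfl fun j _ => ?_
      rw [Pi.smul_apply, smul_eq_mul]
      ring
    rw [h1, norm_mul, Real.mul_rpow (norm_nonneg _) (norm_nonneg _)])
  have hF2 := ((hF.rpow_const (p := kp P.k) (Or.inr hkp.le)).comp hx)
  have hF3 : Tendsto (fun T => nr P.k (x T) (fun ω => ∑ j, c j * Fp (x T) (y j) ω)) atTop (𝓝 v) := by
    rw [hv]
    exact hF2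
  have hS3 : Tendsto (fun T => nt P.k (x T) T (Sc P.Z (q T) (x T) (q T / x T) c y)) atTop (𝓝 v) := hS
  filter_upwards [hR.small, hR.hq.eventually_ge_atTop q0, hR.hqx, hR.hT C, eventually_gt_atTop 0,
    (Metric.tendsto_nhds.mp hF3) (ε / 5) (by positivity), (Metric.tendsto_nhds.mp hS3) (ε / 5) (by positivity), hR.hq.eventually_ge_atTop (⌈|B| + 1⌉₊)] with T h1 h2 h3 h4 h5 h6 h7 h8
  obtain ⟨hx0, hx2⟩ := h1
  have e3 : (q T : ℝ) ^ 3 / x T = (q T : ℝ) ^ 2 * (q T / x T) := by ring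
  rw [e3] at h4
  have hq1 : 1 ≤ q T := by omega
  have hL0 : 0 ≤ q T / x T := by positivity
  have hqB : |B| + 1 ≤ q T := (Nat.le_ceil _).trans (by exact_mod_cast h8)
  obtain ⟨hcc, hMM, hnr, hIl⟩ := hA (q T) h2 (x T) hx0 hx2 h3
  have hPL := PL_big hx0 hx2 hqB
  have hWS := Il_WS h hx0 hB hPL hPL
  obtain ⟨hl1, -, -⟩ := hlen (q T) (q T / x T) hq1 hL0 T h4
  have hIg : (fun ω => Ig φ (x T) ω) = Il φ (x T) (pr (PL (q T / x T))) := by funext ω; exact (hIl ω).symm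
  have hIg' : Ig φ (x T) = Il φ (x T) (pr (PL (q T / x T))) := hIg
  obtain ⟨L, hL⟩ : ∃ L : ℝ, L = q T / x T := ⟨_, rfl⟩
  simp only [← hL] at hcc hMM hIl hPL hWS hl1 hIg' h7 hL0 ⊢
  have hspI : Sp (32 * P.Z * (q T:ℝ) ^ 2 * L) (Il φ (x T) (pr (PL L))) := by
    rw [show Il φ (x T) (pr (PL L)) = WS (fun n => φ (x T * Real.log n)) (PL L) from funext hWS]
    refine WS_sp _ _ (by positivity) ((PL_log' hL0).trans ?_)
    have hq1' : (1:ℝ) ≤ q T := by exact_mod_cast hq1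
    have hZ1 : (1:ℝ) ≤ P.Z := by exact_mod_cast P.hZ
    have : (1:ℝ) ≤ 32 * P.Z * (q T:ℝ) ^ 2 := by nlinarith [mul_le_mul hZ1 (show (1:ℝ) ≤ (q T:ℝ)^2 by nlinarith) zero_le_one (by positivity)]
    nlinarith
  have hspS := Sc_sp P.Z (q T) hL0 (x T) c y
  have hts := TSB P (hq0.trans h2) hL0 (x T) (by positivity) (hspI.sub hspS) (Sp.const le_rfl (1:ℂ)) (lB := 0) hμ h5 ((Real.exp_le_exp.mpr (by
    have : 0 ≤ (q T:ℝ) ^ 2 * L := by positivity
    linarith)).trans hl1)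
  simp only [norm_one, one_pow, mul_one] at hts
  have hts2 : At T (fun ω => ‖Il φ (x T) (pr (PL L)) ω - Sc P.Z (q T) (x T) L c y ω‖ ^ (2 * P.k)) ≤ (6 * e) * (x T) ^ (-P.k ^ 2) := by
    refine hts.trans ?_
    linarith
  have h9 := (nt_le hk hx0 h5 hts2).trans hee
  have h10 := nt_sub hk hx0.le h5 hcc (Sc_cc P.Z (q T) (x T) L c y)
  have h11 := nr_sub hk hx0.le (Ig_gd h hx0) (sum_gd hx0 c y)
  have h12 : e ≤ ε / 5 := by rw [he]; exact min_le_left _ _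
  rw [Real.dist_eq] at h6 h7 ⊢
  rw [sub_zero, hIg']
  rw [hIg'] at h11
  have hnr' : nr P.k (x T) (fun ω => Il φ (x T) (pr (PL L)) ω - ∑ j, c j * Fp (x T) (y j) ω) ≤ e := by
    rw [← hIg']
    exact hnr
  have a1 := abs_le.mp (h10.trans h9)
  have a2 := abs_le.mp (h11.trans (hnr'.trans h12))
  rw [abs_lt] at h6 h7 ⊢
  constructor <;> linarith [a1.1, a1.2, a2.1, a2.2, h6.1, h6.2, h7.1, h7.2]

end Pool.Agent.H470
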