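import Pool.Agent.H470.Wa24

set_option autoImplicit false

/-! Local kernels for low exponents. -/

namespace Pool.Agent.H470

open MeasureTheory Filter Topology ProbabilityTheory Set
open scoped ENNReal
open Pool.Agent.TH806 (ec ec_norm ec_cont uu integrable_uu)

/-- complex version of independence -/
lemma dep_intc {I J : Finset ℕ} (hd : Disjoint I J) {A B : (ℕ → ℝ) → ℂ} (hA : Measurable A) (hB : Measurable B)
    (hAI : ∀ ω ω', (∀ p ∈ I, ω p = ω' p) → A ω = A ω') (hBJ : ∀ ω ω', (∀ p ∈ J, ω p = ω' p) → B ω = B ω') :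
    ∫ ω, A ω * B ω ∂tm = (∫ ω, A ω ∂tm) * ∫ ω, B ω ∂tm := by
  have h1 : iIndepFun (fun (i : ℕ) (ω : ℕ → ℝ) => ω i) tm := by
    unfold tm
    exact iIndepFun_infinitePi (X := fun _ x => x) (by fun_prop)
  have h2 := h1.indepFun_finset I J hd fun i => measurable_pi_apply i
  have h3 := h2.comp (hA.comp (ext0_meas I)) (hB.comp (ext0_meas J))
  have h4 := h3.integral_fun_mul_eq_mul_integral (hA.comp ((ext0_meas I).comp (by fun_prop))).aestronglyMeasurable (hB.comp ((ext0_meas J).comp (by fun_prop))).aestronglyMeasurable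
  have e0 : ∀ (K : Finset ℕ) (ω : ℕ → ℝ), ∀ p ∈ K, ext0 K (fun i : K => ω i) p = ω p := fun K ω p hp => by
    unfold ext0
    rw [dif_pos hp]
  have e1 : ∀ ω : ℕ → ℝ, A (ext0 I (fun i : I => ω i)) = A ω := fun ω => hAI _ _ (e0 I ω)
  have e2 : ∀ ω : ℕ → ℝ, B (ext0 J (fun i : J => ω i)) = B ω := fun ω => hBJ _ _ (e0 J ω)
  simp only [Function.comp_apply, e1, e2] at h4
  exact h4

theorem S_loc2 : ∃ C : ℝ, 0 ≤ C ∧ ∀ N : ℕ, 3 ≤ N → ∀ x : ℝ, 0 < x → ∀ u W : ℝ, 1 ≤ W → x * ‖2 + (u:ℂ) * Complex.I‖ * Real.log N ≤ W →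
    ‖∑ p ∈ pr N, wv x u p - ((Real.log (Real.log N) : ℝ) : ℂ)‖ ≤ C + 2 * Real.log W := by
  obtain ⟨C, hC, h⟩ := S_loc
  obtain ⟨C1, h1⟩ := Pool.Agent.Helper256.KM.mertens_inv
  have hC1 : 0 ≤ C1 := (abs_nonneg _).trans (h1 3 le_rfl)
  refine ⟨C + 2 * C1 + 2 * Real.log 2 + 2 * C1, by positivity, fun N hN x hx u W hW hu => ?_⟩
  have hl := log_N hN
  have hlW : 0 ≤ Real.log W := Real.log_nonneg hW
  have hl2 : 0 ≤ Real.log 2 := Real.log_nonneg (by norm_num)
  have hm := abs_le.mp (h1 N hN)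
  have hwv : ∀ p ∈ pr N, ‖wv x u p‖ ≤ 1 / p := by
    intro p hp
    have hpp := pr_prime hp
    have hp1 : (1:ℝ) ≤ p := by exact_mod_cast hpp.one_le
    rw [wv_norm hpp, one_div, ← Real.rpow_neg_one]
    exact Real.rpow_le_rpow_of_exponent_le hp1 (by linarith)
  obtain ⟨D, hD⟩ : ∃ D : ℝ, D = x * ‖2 + (u:ℂ) * Complex.I‖ := ⟨_, rfl⟩
  have hD0 : 0 < D := by rw [hD]; have := two_norm_pos u; positivity
  rw [← hD] at hu
  rcases le_or_gt (2 * D) 1 with h2 | h2
  · rcases le_or_gt (D * Real.log N) 1 with h3 | h3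
    · have := h N hN x hx u (by rw [← hD]; exact h3)
      linarith
    · obtain ⟨M, hM3, hMe, hMlo, hMup⟩ := cutN (t := 1 / D) (by rw [le_div_iff₀ hD0]; linarith)
      have hMl := log_N hM3
      have hMN : M ≤ N := by
        have h4 : Real.log M ≤ Real.log N := by
          refine hMup.trans ?_
          rw [div_le_iff₀ hD0]
          linarith
        have h5 : (0:ℝ) < N := by exact_mod_cast (by omega : 0 < N)
        have := (Real.log_le_log_iff (by exact_mod_cast (by omega : 0 < M)) h5).mp h4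
        exact_mod_cast this
      have h4 := h M hM3 x hx u (by
        rw [← hD]
        rw [le_div_iff₀ hD0] at hMup
        linarith)
      have hmM := abs_le.mp (h1 M hM3)
      have hsub := pr_mono hMN
      have h5 : ‖∑ p ∈ pr N \ pr M, wv x u p‖ ≤ Real.log (Real.log N) - Real.log (Real.log M) + 2 * C1 := by
        refine (norm_sum_le _ _).trans ((Finset.sum_le_sum fun p hp => hwv p (Finset.sdiff_subset hp)).trans ?_)
        have h6 := Finset.sum_sdiff (f := fun p : ℕ => (1:ℝ) / p) hsub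
        have e1 : ∑ p ∈ pr N, (1:ℝ) / p ≤ Real.log (Real.log N) + C1 := by
          have := hm.2
          unfold pr
          linarith
        have e2 : Real.log (Real.log M) - C1 ≤ ∑ p ∈ pr M, (1:ℝ) / p := by
          have := hmM.1
          unfold pr
          linarith
        linarith
      have h6 : Real.log (Real.log N) - Real.log (Real.log M) ≤ Real.log 2 + Real.log W := by
        rw [← Real.log_div (by linarith) (by linarith), ← Real.log_mul (by norm_num) (by linarith)]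
        refine Real.log_le_log (by positivity) ?_
        rw [div_le_iff₀ (by linarith)]
        rw [div_div, div_le_iff₀ (by positivity)] at hMlo
        have h7 : Real.log N ≤ W / D := by rw [le_div_iff₀ hD0]; linarith
        have h8 : W / D ≤ 2 * W * Real.log M := by
          rw [div_le_iff₀ hD0]
          nlinarith
        linarith
      have e3 : ∑ p ∈ pr N, wv x u p - ((Real.log (Real.log N) : ℝ) : ℂ) = ∑ p ∈ pr N \ pr M, wv x u p + (∑ p ∈ pr M, wv x u p - ((Real.log (Real.log M) : ℝ) : ℂ)) -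
          ((Real.log (Real.log N) - Real.log (Real.log M) : ℝ) : ℂ) := by
        rw [← Finset.sum_sdiff hsub]
        push_cast
        ring
      rw [e3]
      refine (norm_sub_le _ _).trans ((add_le_add (norm_add_le _ _) le_rfl).trans ?_)
      have h7 : 0 ≤ Real.log (Real.log N) - Real.log (Real.log M) := by
        rw [sub_nonneg]
        refine Real.log_le_log (by linarith) (Real.log_le_log (by exact_mod_cast (by omega : 0 < M)) (by exact_mod_cast hMN))
      rw [Complex.norm_real, Real.norm_of_nonneg h7]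
      linarith
  · have h3 : Real.log (Real.log N) ≤ Real.log 2 + Real.log W := by
      rw [← Real.log_mul (by norm_num) (by linarith)]
      refine Real.log_le_log (by linarith) ?_
      nlinarith
    have h4 : ‖∑ p ∈ pr N, wv x u p‖ ≤ Real.log (Real.log N) + C1 := by
      refine (norm_sum_le _ _).trans ((Finset.sum_le_sum hwv).trans ?_)
      have := hm.2
      unfold pr
      linarith
    have h5 : 0 ≤ Real.log (Real.log N) := Real.log_nonneg hl
    refine (norm_sub_le _ _).trans ?_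
    rw [Complex.norm_real, Real.norm_of_nonneg h5]
    linarith

theorem ex_loc (A : ℝ) : ∃ C : ℝ, 0 < C ∧ ∀ x : ℝ, 0 < x → ∀ N : ℕ, 3 ≤ N → ∀ (n : ℕ) (α : Fin n → ℂ) (y : Fin n → ℝ), ∑ j, ‖α j‖ ≤ A →
    ∀ W : ℝ, 1 ≤ W → (∀ i j, x * ‖2 + ((y i - y j : ℝ):ℂ) * Complex.I‖ * Real.log N ≤ W) →
    ∫ ω, exI (pr N) x α y ω ∂tm ≤ C * W ^ (A ^ 2) * (Real.log N) ^ (‖∑ j, α j‖ ^ 2 / 4) := by
  obtain ⟨C1, hC1, h1⟩ := S_loc2
  refine ⟨Real.exp (A ^ 2 * C1 / 4 + CN (A / 2) * KS), Real.exp_pos _, fun x hx N hN n α y hA W hW hy => ?_⟩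
  have h2 : ∀ p ∈ pr N, 2 ≤ p := fun p hp => pr_two hp
  refine (exI_le h2 hx.le α y hA).trans ?_
  have hA0 : 0 ≤ A := (Finset.sum_nonneg fun j _ => norm_nonneg _).trans hA
  have hl := log_N hN
  have hlW : 0 ≤ Real.log W := Real.log_nonneg hW
  obtain ⟨l, hl'⟩ : ∃ l : ℝ, l = Real.log (Real.log N) := ⟨_, rfl⟩
  have e1 : ((∑ p ∈ pr N, ‖∑ j, α j * zv x y p j‖ ^ 2 : ℝ) : ℂ) = ∑ i, ∑ j, (α i * (starRingEnd ℂ) (α j)) * ∑ p ∈ pr N, wv x (y i - y j) p := by
    push_cast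
    have e2 : ∀ p ∈ pr N, ((‖∑ j, α j * zv x y p j‖ : ℝ) : ℂ) ^ 2 = ∑ i, ∑ j, (α i * (starRingEnd ℂ) (α j)) * wv x (y i - y j) p := by
      intro p hp
      rw [← Complex.ofReal_pow, ← Complex.normSq_eq_norm_sq, ← Complex.mul_conj, map_sum, Finset.sum_mul_sum]
      refine Finset.sum_congr rfl fun i _ => Finset.sum_congr rfl fun j _ => ?_
      rw [← zv_mul (pr_two hp), map_mul]
      ring
    rw [Finset.sum_congr rfl e2, Finset.sum_comm]
    refine Finset.sum_congr rfl fun i _ => ?_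
    rw [Finset.sum_comm]
    refine Finset.sum_congr rfl fun j _ => ?_
    rw [Finset.mul_sum]
  have e3 : ∑ i, ∑ j, (α i * (starRingEnd ℂ) (α j)) * ∑ p ∈ pr N, wv x (y i - y j) p =
      ((‖∑ j, α j‖ ^ 2 * l : ℝ) : ℂ) + ∑ i, ∑ j, (α i * (starRingEnd ℂ) (α j)) * (∑ p ∈ pr N, wv x (y i - y j) p - ((l : ℝ) : ℂ)) := by
    push_cast
    rw [← Complex.ofReal_pow, ← Complex.normSq_eq_norm_sq, ← Complex.mul_conj, map_sum, Finset.sum_mul_sum, Finset.sum_mul, ← Finset.sum_add_distrib]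
    refine Finset.sum_congr rfl fun i _ => ?_
    rw [Finset.sum_mul, ← Finset.sum_add_distrib]
    refine Finset.sum_congr rfl fun j _ => ?_
    ring
  have h3 : ‖∑ i, ∑ j, (α i * (starRingEnd ℂ) (α j)) * (∑ p ∈ pr N, wv x (y i - y j) p - ((l : ℝ) : ℂ))‖ ≤ A ^ 2 * (C1 + 2 * Real.log W) := by
    have h4 : ∀ i ∈ Finset.univ, ‖∑ j, (α i * (starRingEnd ℂ) (α j)) * (∑ p ∈ pr N, wv x (y i - y j) p - ((l : ℝ) : ℂ))‖ ≤
        ‖α i‖ * (∑ j, ‖α j‖) * (C1 + 2 * Real.log W) := by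
      intro i _
      rw [Finset.mul_sum, Finset.sum_mul]
      refine (norm_sum_le _ _).trans (Finset.sum_le_sum fun j _ => ?_)
      rw [norm_mul, norm_mul, Complex.norm_conj]
      refine mul_le_mul_of_nonneg_left ?_ (by positivity)
      rw [hl']
      exact h1 N hN x hx (y i - y j) W hW (hy i j)
    refine (norm_sum_le _ _).trans ((Finset.sum_le_sum h4).trans ?_)
    rw [← Finset.sum_mul, ← Finset.sum_mul]
    have h5 : 0 ≤ ∑ j, ‖α j‖ := Finset.sum_nonneg fun j _ => norm_nonneg _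
    have h6 : (∑ j, ‖α j‖) * (∑ j, ‖α j‖) ≤ A ^ 2 := by nlinarith
    exact mul_le_mul_of_nonneg_right h6 (by positivity)
  have h4 : ∑ p ∈ pr N, ‖∑ j, α j * zv x y p j‖ ^ 2 ≤ ‖∑ j, α j‖ ^ 2 * l + A ^ 2 * (C1 + 2 * Real.log W) := by
    have h5 := congrArg Complex.re (e1.trans e3)
    rw [Complex.ofReal_re, Complex.add_re, Complex.ofReal_re] at h5
    have h6 := (Complex.re_le_norm _).trans h3
    linarith
  have e5 : W ^ (A ^ 2) = Real.exp (A ^ 2 * Real.log W) := by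
    rw [Real.rpow_def_of_pos (by linarith)]
    ring_nf
  have e6 : (Real.log N) ^ (‖∑ j, α j‖ ^ 2 / 4) = Real.exp (‖∑ j, α j‖ ^ 2 / 4 * l) := by
    rw [Real.rpow_def_of_pos (by linarith), hl']
    ring_nf
  rw [e5, e6, ← Real.exp_add, ← Real.exp_add, Real.exp_le_exp]
  nlinarith [mul_nonneg (sq_nonneg A) hlW]

/-- the two point function of the large primes -/
theorem EJ (r : ℕ) : ∃ C : ℝ, 0 < C ∧ ∀ x : ℝ, 0 < x → x ≤ 1 → ∀ N : ℕ, 3 ≤ N → N ≤ PX x → 1 / x ≤ (4 * Real.log N) ^ r → ∀ y z W : ℝ, 1 ≤ W →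
    x * ‖2 + ((y - z : ℝ):ℂ) * Complex.I‖ * Real.log N ≤ W →
    ‖∫ ω, Complex.exp (Xs (pr (PX x) \ pr N) (sp x y) ω) * (starRingEnd ℂ) (Complex.exp (Xs (pr (PX x) \ pr N) (sp x z) ω)) ∂tm‖ ≤
      C * W ^ (r + 2) * (x * ‖2 + ((y - z : ℝ):ℂ) * Complex.I‖ * Real.log N)⁻¹ := by
  obtain ⟨C1, hC1, h1⟩ := S_loc2
  obtain ⟨C2, hC2, h2⟩ := S_up 4
  obtain ⟨C3, hC3, h3⟩ := S_real
  refine ⟨Real.exp (C1 + C2 + C3 + CN 1 * KS), Real.exp_pos _, fun x hx hx1 N hN hNP hr y z W hW hs => ?_⟩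
  have hl := log_N hN
  obtain ⟨J, hJ⟩ : ∃ J : Finset ℕ, J = pr (PX x) \ pr N := ⟨_, rfl⟩
  have hJ2 : ∀ p ∈ J, 2 ≤ p := fun p hp => by rw [hJ] at hp; exact pr_two (Finset.mem_sdiff.mp hp).1
  have hJp : ∀ p ∈ J, p.Prime := fun p hp => by rw [hJ] at hp; exact pr_prime (Finset.mem_sdiff.mp hp).1
  have hre9 : ∀ u : ℝ, 9 / 20 ≤ (sp x u).re := fun u => by rw [sp_re]; linarith
  obtain ⟨u, hu⟩ : ∃ u : ℝ, u = y - z := ⟨_, rfl⟩
  obtain ⟨s, hsd⟩ : ∃ s : ℝ, s = x * ‖2 + (u:ℂ) * Complex.I‖ * Real.log N := ⟨_, rfl⟩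
  have hn0 := two_norm_pos u
  have hs0 : 0 < s := by rw [hsd]; positivity
  rw [← hu, ← hsd] at hs ⊢
  rw [← hJ]
  have hCN : 0 ≤ CN 1 * KS := mul_nonneg (CN_nonneg (by norm_num)) KS_nonneg
  have b2 := mgf_norm (n := 2) hJ2 (s := fun j => sp x ((![y, z] : Fin 2 → ℝ) j)) (fun j => hre9 _) (α := ![1, 0]) (β := ![0, 1]) (A := 1)
    (by simp [Fin.sum_univ_two]) (by simp [Fin.sum_univ_two])
  have e0 : ∀ ω, Complex.exp (∑ j : Fin 2, ((![1, 0] : Fin 2 → ℂ) j * Xs J ((fun j => sp x ((![y, z] : Fin 2 → ℝ) j)) j) ω +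
        (![0, 1] : Fin 2 → ℂ) j * (starRingEnd ℂ) (Xs J ((fun j => sp x ((![y, z] : Fin 2 → ℝ) j)) j) ω))) =
      Complex.exp (Xs J (sp x y) ω) * (starRingEnd ℂ) (Complex.exp (Xs J (sp x z) ω)) := by
    intro ω
    rw [← Complex.exp_conj, ← Complex.exp_add]
    congr 1
    simp [Fin.sum_univ_two]
  simp only [e0] at b2
  have e4 : ∀ p ∈ J, ((∑ j : Fin 2, (![1, 0] : Fin 2 → ℂ) j * (p:ℂ) ^ (-(fun j => sp x ((![y, z] : Fin 2 → ℝ) j)) j)) *
      ∑ j : Fin 2, (![0, 1] : Fin 2 → ℂ) j * (starRingEnd ℂ) ((p:ℂ) ^ (-(fun j => sp x ((![y, z] : Fin 2 → ℝ) j)) j))).re = (wv x u p).re := by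
    intro p hp
    have hyz : (p:ℂ) ^ (-sp x y) * (starRingEnd ℂ) ((p:ℂ) ^ (-sp x z)) = wv x (y - z) p := zv_mul (y := ![y, z]) (hJ2 p hp) 0 1
    simp only [Fin.sum_univ_two, Matrix.cons_val_zero, Matrix.cons_val_one, Matrix.cons_val_fin_one, one_mul, zero_mul, add_zero, zero_add]
    rw [hyz, hu]
  rw [Finset.sum_congr rfl e4] at b2
  refine b2.trans ?_
  have hlW : 0 ≤ Real.log W := Real.log_nonneg hW
  rcases le_or_gt (x * ‖2 + (u:ℂ) * Complex.I‖) 4 with h4 | h4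
  · have h5 : ∑ p ∈ J, (wv x u p).re ≤ -Real.log s + (C1 + C2) + 2 * Real.log W := by
      have h6 := h2 x hx hx1 u h4
      have h7 := h1 N hN x hx u W hW (by rw [← hsd]; exact hs)
      have h8 := Finset.sum_sdiff (f := fun p => (wv x u p).re) (pr_mono hNP)
      rw [← hJ] at h8
      have h9 : ∑ p ∈ pr (PX x), (wv x u p).re ≤ -Real.log (x * ‖2 + (u:ℂ) * Complex.I‖) + C2 := by
        rw [← Complex.re_sum]
        exact h6
      have h10 : Real.log (Real.log N) - (C1 + 2 * Real.log W) ≤ ∑ p ∈ pr N, (wv x u p).re := by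
        have h11 := (abs_le.mp ((Complex.abs_re_le_norm _).trans h7)).1
        rw [Complex.sub_re, Complex.ofReal_re, Complex.re_sum] at h11
        linarith
      have h12 : Real.log s = Real.log (x * ‖2 + (u:ℂ) * Complex.I‖) + Real.log (Real.log N) := by
        rw [hsd, Real.log_mul (by positivity) (by linarith)]
      linarith
    have h6 : Real.exp (∑ p ∈ J, (wv x u p).re + CN 1 * KS) ≤ Real.exp (C1 + C2 + C3 + CN 1 * KS) * W ^ 2 * s⁻¹ := by
      have e1 : W ^ 2 = Real.exp (2 * Real.log W) := by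
        rw [mul_comm, Real.exp_mul, Real.exp_log (by linarith)]
        norm_cast
      have e2 : s⁻¹ = Real.exp (-Real.log s) := by rw [Real.exp_neg, Real.exp_log hs0]
      rw [e1, e2, ← Real.exp_add, ← Real.exp_add, Real.exp_le_exp]
      linarith
    refine h6.trans ?_
    have h7 : W ^ 2 ≤ W ^ (r + 2) := pow_le_pow_right₀ hW (by omega)
    gcongr
  · have h5 : ∑ p ∈ J, (wv x u p).re ≤ Real.log (1 / x) + C3 := by
      have h6 := h3 x hx (by linarith) J hJp
      have h7 : ∑ p ∈ J, (wv x u p).re ≤ ∑ p ∈ J, (p:ℝ) ^ (-(1 + 2 * x)) := Finset.sum_le_sum fun p hp => by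
        rw [← wv_norm (u := u) (hJp p hp)]
        exact Complex.re_le_norm _
      have h8 : -Real.log (2 * x) ≤ Real.log (1 / x) := by
        rw [← Real.log_inv]
        refine Real.log_le_log (by positivity) ?_
        rw [one_div]
        exact inv_anti₀ hx (by linarith)
      linarith
    have h6 : Real.exp (∑ p ∈ J, (wv x u p).re + CN 1 * KS) ≤ Real.exp (C1 + C2 + C3 + CN 1 * KS) * (1 / x) := by
      have e2 : 1 / x = Real.exp (Real.log (1 / x)) := by rw [Real.exp_log (by positivity)]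
      rw [e2, ← Real.exp_add, Real.exp_le_exp]
      linarith
    refine h6.trans ?_
    have h7 : 4 * Real.log N ≤ s := by
      rw [hsd]
      exact mul_le_mul_of_nonneg_right h4.le (by linarith)
    have h8 : (4 * Real.log N) ^ r ≤ W ^ (r + 2) * s⁻¹ := by
      have h9 : (4 * Real.log N) ^ r ≤ s ^ r := pow_le_pow_left₀ (by linarith) h7 r
      refine h9.trans ?_
      rw [le_mul_inv_iff₀ hs0, ← pow_succ]
      exact (pow_le_pow_left₀ hs0.le hs _).trans (pow_le_pow_right₀ hW (by omega))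
    rw [mul_assoc]
    exact mul_le_mul_of_nonneg_left (hr.trans h8) (Real.exp_pos _).le

end Pool.Agent.H470
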