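import Pool.Agent.H470.Wa25

set_option autoImplicit false

/-! Weighted second moments of the pieces. -/

namespace Pool.Agent.H470

open MeasureTheory Filter Topology ProbabilityTheory Set
open scoped ENNReal
open Pool.Agent.TH806 (ec ec_norm ec_cont uu integrable_uu)

lemma PL_props {L : ℝ} (hL : 2 ≤ L) : 3 ≤ PL L ∧ L / 2 ≤ Real.log (PL L) ∧ Real.log (PL L) ≤ L := by
  have h3 : 3 ≤ PL L := by
    unfold PL
    refine Nat.le_floor ?_
    have h1 := Real.add_one_le_exp L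
    push_cast
    linarith
  have h0 : (0:ℝ) < PL L := by exact_mod_cast (by omega : 0 < PL L)
  refine ⟨h3, ?_, PL_log' (by linarith)⟩
  have h1 : Real.exp (L / 2) ≤ PL L := by
    have h2 : Real.exp L - 1 < PL L := by unfold PL; linarith [Nat.lt_floor_add_one (Real.exp L)]
    have h3 : Real.exp L = Real.exp (L / 2) * Real.exp (L / 2) := by
      rw [← Real.exp_add]
      congr 1
      ring
    have h4 : 2 ≤ Real.exp (L / 2) := by
      have := Real.add_one_le_exp (L / 2)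
      linarith
    nlinarith
  rw [Real.le_log_iff_exp_le h0]
  exact h1

lemma Rs_dep (Z q : ℕ) (x L z : ℝ) {ω ω' : ℕ → ℝ} (h : ∀ p ∈ pr (PL L), ω p = ω' p) : Rs Z q x L z ω = Rs Z q x L z ω' := by
  unfold Rs Ra
  refine Finset.sum_congr rfl fun a _ => ?_
  congr 2
  refine Finset.prod_congr rfl fun b _ => ?_
  exact fc_dep Z q x L z a b fun p hp => h p (bk_sub L b hp)

theorem kern {k : ℝ} (hk : 0 < k) (hk1 : k < 1) (r : ℕ) : ∃ C : ℝ, 0 < C ∧ ∃ q0 : ℕ, 3 ≤ q0 ∧ ∀ q : ℕ, q0 ≤ q → ∀ x : ℝ, 0 < x → x ≤ 1 → ∀ L : ℝ, 2 ≤ L → PL L ≤ PX x →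
    1 / x ≤ (4 * Real.log (PL L)) ^ r → ∀ y z W : ℝ, 1 ≤ W → x * (2 + |y| + |z|) * Real.log (PL L) ≤ W →
    ‖∫ ω, ((Rs 1 q x L (k - 1) ω : ℝ) : ℂ) * (Fp x y ω * (starRingEnd ℂ) (Fp x z ω)) ∂tm‖ ≤
      C * W ^ (r + 18) * (Real.log (PL L)) ^ (k ^ 2) * (x * ‖2 + ((y - z : ℝ):ℂ) * Complex.I‖ * Real.log (PL L))⁻¹ := by
  obtain ⟨Cr, hCr, q0, hq0, hrho⟩ := Tb_rho 4 (Z := 1) le_rfl (r := 1) le_rfl
  obtain ⟨C1, hC1, h1⟩ := ex_loc 4
  obtain ⟨C2, hC2, h2⟩ := EJ r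
  refine ⟨Cr * C1 * C2, by positivity, q0, hq0, fun q hq x hx hx1 L hL hP hr y z W hW hs => ?_⟩
  obtain ⟨hN3, hNlo, hNup⟩ := PL_props hL
  obtain ⟨N, hN⟩ : ∃ N : ℕ, N = PL L := ⟨_, rfl⟩
  have hsub : pr (PL L) ⊆ pr (PX x) := pr_mono hP
  have hlN : 0 < Real.log (PL L) := by linarith
  have hJ2 : ∀ p ∈ pr (PX x) \ pr (PL L), 2 ≤ p := fun p hp => pr_two (Finset.mem_sdiff.mp hp).1
  have hFp : ∀ y ω, Fp x y ω = Fl (pr (PL L)) x y ω * Complex.exp (Xs (pr (PX x) \ pr (PL L)) (sp x y) ω) := by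
    intro y ω
    unfold Fp Xp Fl
    rw [Xs_split hsub, Complex.exp_add]
  have hRc : CC fun ω => ((Rs 1 q x L (k - 1) ω : ℝ) : ℂ) := (Rs_rb 1 q x L (k - 1)).ofReal
  have hA : CC fun ω => ((Rs 1 q x L (k - 1) ω : ℝ) : ℂ) * (Fl (pr (PL L)) x y ω * (starRingEnd ℂ) (Fl (pr (PL L)) x z ω)) :=
    hRc.mul ((Fl_cc PL_two hx.le y).mul (Fl_cc PL_two hx.le z).conj)
  have hXc : ∀ y, CC (Xs (pr (PX x) \ pr (PL L)) (sp x y)) := fun y => Xs_cc hJ2 hx.le y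
  have hB : CC fun ω => Complex.exp (Xs (pr (PX x) \ pr (PL L)) (sp x y) ω) * (starRingEnd ℂ) (Complex.exp (Xs (pr (PX x) \ pr (PL L)) (sp x z) ω)) :=
    (hXc y).exp.mul (hXc z).exp.conj
  have e1 : ∀ ω, ((Rs 1 q x L (k - 1) ω : ℝ) : ℂ) * (Fp x y ω * (starRingEnd ℂ) (Fp x z ω)) =
      (((Rs 1 q x L (k - 1) ω : ℝ) : ℂ) * (Fl (pr (PL L)) x y ω * (starRingEnd ℂ) (Fl (pr (PL L)) x z ω))) *
      (Complex.exp (Xs (pr (PX x) \ pr (PL L)) (sp x y) ω) * (starRingEnd ℂ) (Complex.exp (Xs (pr (PX x) \ pr (PL L)) (sp x z) ω))) := by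
    intro ω
    rw [hFp, hFp, map_mul]
    ring
  simp_rw [e1]
  rw [dep_intc (Finset.disjoint_sdiff (s := pr (PL L)) (t := pr (PX x))) hA.1.measurable hB.1.measurable (fun ω ω' h => by
    rw [Rs_dep 1 q x L (k - 1) h, Fl_dep (pr (PL L)) x y h, Fl_dep (pr (PL L)) x z h]) (fun ω ω' h => by rw [Xs_dep _ _ h, Xs_dep _ _ h]), norm_mul]
  have hW2 : ∀ a b : ℝ, |a - b| ≤ |y| + |z| → x * ‖2 + ((a - b : ℝ):ℂ) * Complex.I‖ * Real.log (PL L) ≤ W := by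
    intro a b hab
    refine le_trans ?_ hs
    have h3 : ‖2 + ((a - b : ℝ):ℂ) * Complex.I‖ ≤ 2 + |y| + |z| := by
      refine (norm_add_le _ _).trans ?_
      rw [norm_mul, Complex.norm_I, mul_one, Complex.norm_real, Real.norm_eq_abs]
      simp only [Complex.norm_ofNat]
      linarith
    gcongr
  have hb2 := h2 x hx hx1 (PL L) hN3 hP hr y z W hW (hW2 y z (abs_sub y z))
  have hb1 : ‖∫ ω, ((Rs 1 q x L (k - 1) ω : ℝ) : ℂ) * (Fl (pr (PL L)) x y ω * (starRingEnd ℂ) (Fl (pr (PL L)) x z ω)) ∂tm‖ ≤ Cr * (C1 * W ^ 16 * (Real.log (PL L)) ^ (k ^ 2)) := by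
    refine (norm_integral_le_integral_norm _).trans ?_
    obtain ⟨α, hα⟩ : ∃ α : Fin 3 → ℂ, α = ![1, 1, ((2 * (k - 1) : ℝ) : ℂ)] := ⟨_, rfl⟩
    obtain ⟨v, hv⟩ : ∃ v : Fin 3 → ℝ, v = ![y, z, 0] := ⟨_, rfl⟩
    have hαs : ∑ j, ‖α j‖ ≤ 4 := by
      rw [hα]
      simp only [Fin.sum_univ_three, Matrix.cons_val_zero, Matrix.cons_val_one, Matrix.cons_val, norm_one, Complex.norm_real, Real.norm_eq_abs]
      rw [abs_of_nonpos (by linarith)]
      linarith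
    have hαn : ‖∑ j, α j‖ ^ 2 / 4 = k ^ 2 := by
      rw [hα]
      simp only [Fin.sum_univ_three, Matrix.cons_val_zero, Matrix.cons_val_one, Matrix.cons_val]
      have e2 : (1:ℂ) + 1 + ((2 * (k - 1) : ℝ) : ℂ) = ((2 * k : ℝ) : ℂ) := by push_cast; ring
      rw [e2, Complex.norm_real, Real.norm_eq_abs, sq_abs]
      ring
    have h3 := hrho q hq x hx.le L (k - 1) (by rw [abs_of_nonpos (by linarith)]; push_cast; linarith) 3 α v hαs
    have h4 := h1 x hx (PL L) hN3 3 α v hαs W hW (by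
      intro i j
      have hab : ∀ i j : Fin 3, |v i - v j| ≤ |y| + |z| := by
        have hy0 := abs_nonneg y
        have hz0 := abs_nonneg z
        have hyz := abs_sub y z
        have hzy := abs_sub z y
        rw [hv]
        intro i j
        fin_cases i <;> fin_cases j <;> simp <;> linarith
      exact hW2 _ _ (hab i j))
    rw [hαn] at h4
    have e3 : ∀ ω, ‖((Rs 1 q x L (k - 1) ω : ℝ) : ℂ) * (Fl (pr (PL L)) x y ω * (starRingEnd ℂ) (Fl (pr (PL L)) x z ω))‖ = exI (pr (PL L)) x α v ω * rho 1 q x L (k - 1) ω ^ 1 := by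
      intro ω
      rw [norm_mul, Complex.norm_real, Real.norm_of_nonneg (Rs_nonneg _ _ _ _ _ _), norm_mul, Complex.norm_conj, Rs_rho, pow_one]
      unfold Fl exI
      rw [Complex.norm_exp, Complex.norm_exp, hα, hv]
      simp only [Fin.sum_univ_three, Matrix.cons_val_zero, Matrix.cons_val_one, Matrix.cons_val, Complex.add_re, Complex.re_ofReal_mul, one_mul, Real.exp_add]
      ring
    simp_rw [e3]
    refine h3.trans (mul_le_mul_of_nonneg_left (h4.trans ?_) hCr.le)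
    have e4 : W ^ ((4:ℝ) ^ 2) = W ^ 16 := by
      rw [← Real.rpow_natCast]
      norm_num
    rw [e4]
  refine (mul_le_mul hb1 hb2 (norm_nonneg _) (by positivity)).trans (le_of_eq ?_)
  have e5 : W ^ (r + 18) = W ^ 16 * W ^ (r + 2) := by rw [← pow_add]; congr 1; omega
  rw [e5]
  ring

theorem quad_g {w : ℝ → ℂ} (hw : Measurable w) (hi : Integrable w)
    {x : ℝ} (hx : 0 < x) {h : (ℕ → ℝ) → ℝ} (hm : Measurable h)
    (h0 : ∀ ω, 0 ≤ h ω) {H : ℝ} (hH : ∀ ω, h ω ≤ H) {g : ℝ → ℝ} (hg : Measurable g) (hg0 : ∀ y, 0 ≤ g y) (hgi : Integrable g) {τ : ℝ} (hτ : 0 < τ)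
    (hk : ∀ y z : ℝ, ‖w y‖ * ‖w z‖ * ‖∫ ω, ((h ω : ℝ) : ℂ) * (Fp x y ω * (starRingEnd ℂ) (Fp x z ω)) ∂tm‖ ≤ g y * (1 + (y - z) ^ 2) ^ (-((1 + τ) / 2))) :
    ∫ ω, h ω * ‖Iw w x ω‖ ^ 2 ∂tm ≤ (∫ y, g y) * ∫ u : ℝ, (1 + u ^ 2) ^ (-((1 + τ) / 2)) := by
  have hbi := base_int (e := (1 + τ) / 2) (by linarith)
  have hc0 : 0 ≤ ∫ u : ℝ, (1 + u ^ 2) ^ (-((1 + τ) / 2)) := integral_nonneg fun u => by positivity
  have hg1 : 0 ≤ ∫ y, g y := integral_nonneg hg0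
  have hq := quadf hw hi hx hm h0 hH
  rw [← ENNReal.ofReal_le_ofReal_iff (by positivity)]
  refine hq.trans ?_
  have hle : ∀ z : ℝ × ℝ, ‖w z.1‖ₑ * ‖w z.2‖ₑ * ‖∫ ω, ((h ω : ℝ) : ℂ) * (Fp x z.1 ω * (starRingEnd ℂ) (Fp x z.2 ω)) ∂tm‖ₑ ≤
      (fun y => ENNReal.ofReal (g y)) z.1 * (fun u => ENNReal.ofReal ((1 + u ^ 2) ^ (-((1 + τ) / 2)))) (z.1 - z.2) := by
    intro z
    simp only
    rw [← ofReal_norm, ← ofReal_norm, ← ofReal_norm, ← ENNReal.ofReal_mul (norm_nonneg _), ← ENNReal.ofReal_mul (by positivity), ← ENNReal.ofReal_mul (hg0 _)]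
    exact ENNReal.ofReal_le_ofReal (hk z.1 z.2)
  refine (lintegral_mono hle).trans (le_of_eq ?_)
  rw [int2 (g := fun y => ENNReal.ofReal (g y)) (b := fun u => ENNReal.ofReal ((1 + u ^ 2) ^ (-((1 + τ) / 2)))) (by fun_prop) (by fun_prop),
    ← ofReal_integral_eq_lintegral_ofReal hbi (Eventually.of_forall fun u => by positivity),
    ← ofReal_integral_eq_lintegral_ofReal hgi (Eventually.of_forall hg0), ← ENNReal.ofReal_mul hg1]

lemma dd_dec2 (m : ℕ) : ∃ C : ℝ, 0 < C ∧ ∀ η : ℝ, 0 < η → η ≤ 1 → ∀ y : ℝ, ‖ps (dd (η / 2) η) y‖ * (1 + η * |y|) ^ (m + 1) ≤ C * η := by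
  obtain ⟨C, hC, h⟩ := dd_dec m
  refine ⟨2 ^ (m + 1) * Real.exp 1 + 2 ^ (2 * m + 1) * C + 1, by positivity, fun η hη hη1 y => ?_⟩
  have hy := abs_nonneg y
  rcases le_or_gt (η * |y|) 1 with h1 | h1
  · have h2 := dd_small (a := η / 2) (by positivity) (by linarith) hη1 y
    have h3 : (1 + η * |y|) ^ (m + 1) ≤ 2 ^ (m + 1) := pow_le_pow_left₀ (by positivity) (by linarith) _
    calc ‖ps (dd (η / 2) η) y‖ * (1 + η * |y|) ^ (m + 1) ≤ (Real.exp 1 * η) * 2 ^ (m + 1) := mul_le_mul h2 h3 (by positivity) (by positivity)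
      _ = 2 ^ (m + 1) * Real.exp 1 * η := by ring
      _ ≤ _ := mul_le_mul_of_nonneg_right (by have : 0 ≤ 2 ^ (2 * m + 1) * C := by positivity
                                              linarith) hη.le
  · have h2 := h (η / 2) η (by positivity) (by linarith) hη1 y
    have h3 : (1 + η * |y|) ^ (m + 1) ≤ (2 * (η * (1 + |y|))) ^ (m + 1) := pow_le_pow_left₀ (by positivity) (by nlinarith) _
    have h4 : (2 * (η * (1 + |y|))) ^ (m + 1) = 2 ^ (2 * m + 1) * η * ((1 + |y|) * (η / 2 * (1 + |y|)) ^ m) := by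
      rw [pow_succ, show 2 * (η * (1 + |y|)) = 4 * (η / 2 * (1 + |y|)) by ring, mul_pow, show (2:ℝ) ^ (2 * m + 1) = 4 ^ m * 2 by rw [pow_succ, pow_mul]; norm_num]
      ring
    calc ‖ps (dd (η / 2) η) y‖ * (1 + η * |y|) ^ (m + 1) ≤ ‖ps (dd (η / 2) η) y‖ * (2 * (η * (1 + |y|))) ^ (m + 1) := mul_le_mul_of_nonneg_left h3 (norm_nonneg _)
      _ = 2 ^ (2 * m + 1) * η * ((1 + |y|) * ((η / 2 * (1 + |y|)) ^ m * ‖ps (dd (η / 2) η) y‖)) := by rw [h4]; ring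
      _ ≤ 2 ^ (2 * m + 1) * η * C := mul_le_mul_of_nonneg_left h2 (by positivity)
      _ = 2 ^ (2 * m + 1) * C * η := by ring
      _ ≤ _ := mul_le_mul_of_nonneg_right (by have : 0 ≤ 2 ^ (m + 1) * Real.exp 1 := by positivity
                                              linarith) hη.le

end Pool.Agent.H470
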