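import Pool.Agent.H470.Wa26

set_option autoImplicit false

/-! The pieces over `[0, T]`. -/

namespace Pool.Agent.H470

open MeasureTheory Filter Topology ProbabilityTheory Set
open scoped ENNReal
open Pool.Agent.TH806 (ec ec_norm ec_cont uu integrable_uu)

theorem pc_two {k : ℝ} (hk : 0 < k) (hk1 : k < 1) : ∃ C : ℝ, 0 < C ∧ ∃ q : ℕ, 3 ≤ q ∧ ∀ x : ℝ, 0 < x → x ≤ 1 → ∀ η : ℝ, x ^ (1 - k / 2) ≤ η → 2 * x ≤ η → η ≤ 1 →
    ∫ ω, Rs 1 q x (η / x) (k - 1) ω * ‖Ig (dd (η / 2) η) x ω‖ ^ 2 ∂tm ≤ C * (η / x) ^ (k ^ 2) * η ^ (-(k ^ 2 / 2)) ∧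
    ∫ ω, Rs 1 q x (η / x) k ω ∂tm ≤ C * (η / x) ^ (k ^ 2) := by
  obtain ⟨r, hr⟩ : ∃ r : ℕ, r = ⌈2 / k⌉₊ := ⟨_, rfl⟩
  have hrk : 2 / k ≤ r := by rw [hr]; exact Nat.le_ceil _
  obtain ⟨C1, hC1, q1, hq1, hkern⟩ := kern hk hk1 r
  obtain ⟨Cr, hCr, q2, hq2, hrho⟩ := Tb_rho 4 (Z := 1) le_rfl (r := 1) le_rfl
  obtain ⟨C2, hC2, hex⟩ := ex_loc 4
  obtain ⟨D, hD, hdec⟩ := dd_dec2 (r + 20)
  obtain ⟨τ, hτ⟩ : ∃ τ : ℝ, τ = k ^ 2 / 2 := ⟨_, rfl⟩
  have hτ0 : 0 < τ := by rw [hτ]; positivity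
  have hτ1 : τ ≤ 1 := by rw [hτ]; nlinarith
  have hτ1' : τ < 1 := by rw [hτ]; nlinarith
  obtain ⟨c0, hc0⟩ : ∃ c0 : ℝ, c0 = ∫ u : ℝ, (1 + u ^ 2) ^ (-((1 + τ) / 2)) := ⟨_, rfl⟩
  have hc00 : 0 ≤ c0 := by rw [hc0]; exact integral_nonneg fun u => by positivity
  obtain ⟨G, hG⟩ : ∃ G : ℝ, G = C1 * 3 ^ (r + 18) * 2 * D ^ 2 := ⟨_, rfl⟩
  have hG0 : 0 < G := by rw [hG]; positivity
  refine ⟨G * Real.pi * c0 + Cr * (C2 * 2 ^ 16) + 1, by positivity, max q1 q2, hq1.trans (le_max_left _ _), fun x hx hx1 η hη hη2 hη1 => ?_⟩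
  obtain ⟨q, hq⟩ : ∃ q : ℕ, q = max q1 q2 := ⟨_, rfl⟩
  have hqq1 : q1 ≤ q := by rw [hq]; exact le_max_left _ _
  have hqq2 : q2 ≤ q := by rw [hq]; exact le_max_right _ _
  rw [← hq]
  have hη0 : 0 < η := by linarith
  obtain ⟨L, hL⟩ : ∃ L : ℝ, L = η / x := ⟨_, rfl⟩
  rw [← hL]
  have hL2 : 2 ≤ L := by rw [hL, le_div_iff₀ hx]; exact hη2
  have hLx : L ≤ 1 / x := by rw [hL]; exact div_le_div_of_nonneg_right hη1 hx.le
  have hxL : x * L = η := by rw [hL]; field_simp
  obtain ⟨hN3, hNlo, hNup⟩ := PL_props hL2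
  have hP : PL L ≤ PX x := by
    have h1 : Real.exp L ≤ PX x := by
      refine (Real.exp_le_exp.mpr ?_).trans (PX_exp hx)
      refine hLx.trans (one_div_le_one_div_of_le (by positivity) ?_)
      nlinarith
    have h2 : ((PL L : ℕ) : ℝ) ≤ Real.exp L := Nat.floor_le (Real.exp_pos _).le
    exact_mod_cast h2.trans h1
  obtain ⟨l, hl⟩ : ∃ l : ℝ, l = Real.log (PL L) := ⟨_, rfl⟩
  have hl0 : 0 < l := by rw [hl]; linarith
  have hxl : x * l ≤ η := by
    rw [← hxL, hl]
    exact mul_le_mul_of_nonneg_left hNup hx.le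
  have hxl2 : η / 2 ≤ x * l := by
    rw [← hxL, hl]
    have := mul_le_mul_of_nonneg_left hNlo hx.le
    linarith
  have hlk : l ^ (k ^ 2) ≤ L ^ (k ^ 2) := Real.rpow_le_rpow hl0.le (by rw [hl]; exact hNup) (by positivity)
  constructor
  · have hrl : 1 / x ≤ (4 * Real.log (PL L)) ^ r := by
      rw [← hl]
      have h1 : x ^ (-(k / 2)) ≤ 4 * l := by
        have h2 : x * l ≥ x ^ (1 - k / 2) / 2 := by linarith
        have h3 : x ^ (1 - k / 2) = x * x ^ (-(k / 2)) := by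
          rw [← Real.rpow_one_add' hx.le (by intro h; linarith)]
          congr 1
        rw [h3] at h2
        have h4 : x ^ (-(k / 2)) / 2 ≤ l := by
          by_contra hcon
          rw [not_le] at hcon
          have := mul_lt_mul_of_pos_left hcon hx
          linarith
        have : 0 < x ^ (-(k / 2)) := by positivity
        linarith
      have h2 : (x ^ (-(k / 2))) ^ r ≤ (4 * l) ^ r := pow_le_pow_left₀ (by positivity) h1 r
      refine le_trans ?_ h2
      rw [← Real.rpow_natCast, ← Real.rpow_mul hx.le, one_div, ← Real.rpow_neg_one]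
      refine Real.rpow_le_rpow_of_exponent_ge hx hx1 ?_
      rw [div_le_iff₀ hk] at hrk
      linarith
    obtain ⟨w, hw⟩ : ∃ w : ℝ → ℂ, w = dw (η / 2) η := ⟨_, rfl⟩
    have hwm : Measurable w := by rw [hw]; exact dw_meas (by positivity) hη0
    have hwi : Integrable w := by rw [hw]; exact dw_int (by positivity) hη0
    have hIg : ∀ ω, Ig (dd (η / 2) η) x ω = Iw w x ω := fun ω => by rw [hw, Ig_Iw]; rfl
    have hwd : ∀ y, ‖w y‖ * (1 + η * |y|) ^ (r + 21) ≤ D * η := by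
      intro y
      have h1 := hdec η hη0 hη1 y
      have h2 : ‖w y‖ ≤ ‖ps (dd (η / 2) η) y‖ := by
        rw [hw]
        refine (dw_norm _ _ _).trans ?_
        have := norm_nonneg (ps (dd (η / 2) η) y)
        linarith
      exact (mul_le_mul_of_nonneg_right h2 (by positivity)).trans h1
    obtain ⟨B, hB⟩ := (Rs_rb 1 q x L (k - 1)).2
    obtain ⟨g, hg⟩ : ∃ g : ℝ → ℝ, ∀ y, g y = G * l ^ (k ^ 2) * η ^ (1 - τ) * (1 + (η * y) ^ 2)⁻¹ := ⟨_, fun _ => rfl⟩
    have hgi0 : Integrable fun y : ℝ => (1 + (η * y) ^ 2)⁻¹ := integrable_inv_one_add_sq.comp_mul_left' hη0.ne'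
    have hgm : Measurable g := by rw [show g = _ from funext hg]; fun_prop
    have hgi : Integrable g := by rw [show g = _ from funext hg]; exact hgi0.const_mul _
    have hg0 : ∀ y, 0 ≤ g y := fun y => by rw [hg]; positivity
    have hgint : ∫ y, g y = G * l ^ (k ^ 2) * η ^ (-τ) * Real.pi := by
      simp_rw [hg]
      rw [integral_const_mul, Measure.integral_comp_mul_left (fun y : ℝ => (1 + y ^ 2)⁻¹) η, integral_univ_inv_one_add_sq, smul_eq_mul, abs_of_pos (by positivity)]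
      have : η ^ (1 - τ) = η * η ^ (-τ) := by
        rw [← Real.rpow_one_add' hη0.le (by intro h; linarith)]
        congr 1
      rw [this]
      field_simp
    have hmain := quad_g hwm hwi hx (h := Rs 1 q x L (k - 1)) (Rs_rb 1 q x L (k - 1)).1.measurable (Rs_nonneg _ _ _ _ _) (H := B)
      (fun ω => (le_abs_self _).trans (hB ω)) hgm hg0 hgi hτ0 (by
        intro y z
        obtain ⟨a, ha⟩ : ∃ a : ℝ, a = 1 + η * |y| := ⟨_, rfl⟩
        obtain ⟨b, hb⟩ : ∃ b : ℝ, b = 1 + η * |z| := ⟨_, rfl⟩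
        have hay : 0 ≤ η * |y| := by positivity
        have hbz : 0 ≤ η * |z| := by positivity
        have ha1 : 1 ≤ a := by rw [ha]; linarith
        have hb1 : 1 ≤ b := by rw [hb]; linarith
        have hab : 1 ≤ a * b := one_le_mul_of_one_le_of_one_le ha1 hb1
        have hab2 : 1 + η * |y| + η * |z| ≤ a * b := by rw [ha, hb]; nlinarith [mul_nonneg hay hbz]
        have hkr := hkern q hqq1 x hx hx1 L hL2 hP hrl y z (3 * (a * b)) (by linarith) (by
          rw [← hl]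
          have h1 : x * (2 + |y| + |z|) * l = (x * l) * (2 + |y| + |z|) := by ring
          rw [h1]
          have h2 : (x * l) * (2 + |y| + |z|) ≤ η * (2 + |y| + |z|) := mul_le_mul_of_nonneg_right hxl (by positivity)
          have h3 : η * (2 + |y| + |z|) ≤ 3 * (1 + η * |y| + η * |z|) := by nlinarith
          linarith)
        rw [← hl] at hkr
        obtain ⟨u, hu⟩ : ∃ u : ℝ, u = y - z := ⟨_, rfl⟩
        rw [← hu] at hkr ⊢
        have hn := two_add_norm u
        have hsi : (x * ‖2 + (u:ℂ) * Complex.I‖ * l)⁻¹ ≤ 2 * η ^ (-1 - τ) * (a * b) * (1 + u ^ 2) ^ (-((1 + τ) / 2)) := by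
          have hpu : 0 < 1 + u ^ 2 := by positivity
          have h1 : (x * ‖2 + (u:ℂ) * Complex.I‖ * l)⁻¹ ≤ (η / 2 * (1 + u ^ 2) ^ (1 / 2 : ℝ))⁻¹ := by
            refine inv_anti₀ (by positivity) ?_
            have e1 : x * ‖2 + (u:ℂ) * Complex.I‖ * l = (x * l) * ‖2 + (u:ℂ) * Complex.I‖ := by ring
            rw [e1]
            exact mul_le_mul hxl2 hn (by positivity) (by positivity)
          refine h1.trans ?_
          have h2 : (1 + u ^ 2) ^ (τ / 2) ≤ η ^ (-τ) * (a * b) := by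
            have h3 : (1 + u ^ 2) ≤ (η⁻¹ * (a * b)) ^ 2 := by
              have h4 : 1 + |u| ≤ η⁻¹ * (a * b) := by
                rw [← div_eq_inv_mul, le_div_iff₀ hη0]
                have h5 : |u| ≤ |y| + |z| := by rw [hu]; exact abs_sub y z
                nlinarith
              have h5 : (1 + |u|) ^ 2 ≤ (η⁻¹ * (a * b)) ^ 2 := pow_le_pow_left₀ (by positivity) h4 2
              have h6 : u ^ 2 = |u| ^ 2 := (sq_abs u).symm
              have := abs_nonneg u
              nlinarith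
            refine (Real.rpow_le_rpow hpu.le h3 (by positivity)).trans ?_
            rw [← Real.rpow_natCast, ← Real.rpow_mul (by positivity), Real.mul_rpow (by positivity) (by positivity), Real.inv_rpow hη0.le, ← Real.rpow_neg hη0.le]
            have e2 : ((2:ℕ):ℝ) * (τ / 2) = τ := by push_cast; ring
            rw [e2]
            refine mul_le_mul_of_nonneg_left ?_ (by positivity)
            calc (a * b) ^ τ ≤ (a * b) ^ (1:ℝ) := Real.rpow_le_rpow_of_exponent_le hab hτ1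
              _ = a * b := Real.rpow_one _
          have e3 : (η / 2 * (1 + u ^ 2) ^ (1 / 2 : ℝ))⁻¹ = 2 * η⁻¹ * ((1 + u ^ 2) ^ (τ / 2) * (1 + u ^ 2) ^ (-((1 + τ) / 2))) := by
            rw [mul_inv, ← Real.rpow_neg hpu.le, ← Real.rpow_add hpu]
            congr 1
            · field_simp
            · congr 1
              ring
          rw [e3]
          have e4 : η ^ (-1 - τ) = η⁻¹ * η ^ (-τ) := by
            rw [← Real.rpow_neg_one, ← Real.rpow_add hη0]
            congr 1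
          rw [e4]
          have h3 := mul_le_mul_of_nonneg_right h2 (show 0 ≤ (1 + u ^ 2) ^ (-((1 + τ) / 2)) by positivity)
          have h4 := mul_le_mul_of_nonneg_left h3 (show 0 ≤ 2 * η⁻¹ by positivity)
          refine h4.trans (le_of_eq ?_)
          ring
        have h5 : ‖w y‖ * ‖w z‖ * (a * b) ^ (r + 19) ≤ D ^ 2 * η ^ 2 * (1 + (η * y) ^ 2)⁻¹ := by
          have h6 := hwd y
          have h7 := hwd z
          rw [← ha] at h6
          rw [← hb] at h7
          have h8 : ‖w z‖ * b ^ (r + 19) ≤ D * η := by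
            refine le_trans (mul_le_mul_of_nonneg_left (pow_le_pow_right₀ hb1 (by omega)) (norm_nonneg _)) h7
          have h9 : ‖w y‖ * a ^ (r + 19) ≤ D * η * (1 + (η * y) ^ 2)⁻¹ := by
            rw [le_mul_inv_iff₀ (by positivity)]
            have h10 : 1 + (η * y) ^ 2 ≤ a ^ 2 := by
              have : (η * y) ^ 2 = (η * |y|) ^ 2 := by rw [mul_pow, mul_pow, sq_abs]
              rw [this, ha]
              nlinarith
            calc ‖w y‖ * a ^ (r + 19) * (1 + (η * y) ^ 2) ≤ ‖w y‖ * a ^ (r + 19) * a ^ 2 := mul_le_mul_of_nonneg_left h10 (by positivity)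
              _ = ‖w y‖ * a ^ (r + 21) := by rw [mul_assoc, ← pow_add]
              _ ≤ D * η := h6
          have h10 := mul_le_mul h9 h8 (by positivity) (by positivity)
          refine le_trans (le_of_eq ?_) (h10.trans (le_of_eq ?_))
          · rw [mul_pow]; ring
          · ring
        calc ‖w y‖ * ‖w z‖ * ‖∫ ω, ((Rs 1 q x L (k - 1) ω : ℝ) : ℂ) * (Fp x y ω * (starRingEnd ℂ) (Fp x z ω)) ∂tm‖
            ≤ ‖w y‖ * ‖w z‖ * (C1 * (3 * (a * b)) ^ (r + 18) * l ^ (k ^ 2) * (2 * η ^ (-1 - τ) * (a * b) * (1 + u ^ 2) ^ (-((1 + τ) / 2)))) := by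
              refine mul_le_mul_of_nonneg_left (hkr.trans ?_) (by positivity)
              exact mul_le_mul_of_nonneg_left hsi (by positivity)
          _ = C1 * 3 ^ (r + 18) * 2 * l ^ (k ^ 2) * η ^ (-1 - τ) * (‖w y‖ * ‖w z‖ * (a * b) ^ (r + 19)) * (1 + u ^ 2) ^ (-((1 + τ) / 2)) := by
              rw [mul_pow]
              ring
          _ ≤ C1 * 3 ^ (r + 18) * 2 * l ^ (k ^ 2) * η ^ (-1 - τ) * (D ^ 2 * η ^ 2 * (1 + (η * y) ^ 2)⁻¹) * (1 + u ^ 2) ^ (-((1 + τ) / 2)) := by gcongr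
          _ = g y * (1 + u ^ 2) ^ (-((1 + τ) / 2)) := by
              rw [hg, hG]
              have : η ^ (1 - τ) = η ^ (-1 - τ) * η ^ 2 := by
                rw [← Real.rpow_natCast, ← Real.rpow_add hη0]
                congr 1
                push_cast
                ring
              rw [this]
              ring)
    rw [hgint, ← hc0] at hmain
    have e5 : ∫ ω, Rs 1 q x L (k - 1) ω * ‖Ig (dd (η / 2) η) x ω‖ ^ 2 ∂tm = ∫ ω, Rs 1 q x L (k - 1) ω * ‖Iw w x ω‖ ^ 2 ∂tm := by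
      congr 1
      funext ω
      rw [hIg]
    rw [e5]
    refine hmain.trans ?_
    rw [← hτ]
    calc G * l ^ (k ^ 2) * η ^ (-τ) * Real.pi * c0 = (G * Real.pi * c0) * l ^ (k ^ 2) * η ^ (-τ) := by ring
      _ ≤ (G * Real.pi * c0 + Cr * (C2 * 2 ^ 16) + 1) * L ^ (k ^ 2) * η ^ (-τ) := by
        gcongr
        have : 0 ≤ Cr * (C2 * 2 ^ 16) := by positivity
        linarith
  · have h3 := hrho q hqq2 x hx.le L k (by rw [abs_of_pos hk]; push_cast; linarith) 1 (fun _ => ((2 * k : ℝ) : ℂ)) (fun _ => 0) (by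
      rw [Fin.sum_univ_one, Complex.norm_real, Real.norm_of_nonneg (by positivity)]; linarith)
    have h4 := hex x hx (PL L) hN3 1 (fun _ => ((2 * k : ℝ) : ℂ)) (fun _ => 0) (by
      rw [Fin.sum_univ_one, Complex.norm_real, Real.norm_of_nonneg (by positivity)]; linarith) 2 (by norm_num) (by
      intro i j
      rw [← hl]
      simp
      linarith)
    rw [Fin.sum_univ_one, Complex.norm_real, Real.norm_of_nonneg (by positivity), ← hl] at h4
    have e1 : ∀ ω, Rs 1 q x L k ω = exI (pr (PL L)) x (fun _ : Fin 1 => ((2 * k : ℝ) : ℂ)) (fun _ => 0) ω * rho 1 q x L k ω ^ 1 := by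
      intro ω
      rw [Rs_rho, pow_one]
      unfold exI
      rw [Fin.sum_univ_one, Complex.re_ofReal_mul]
    simp_rw [e1]
    refine h3.trans ?_
    have e2 : (2 * k) ^ 2 / 4 = k ^ 2 := by ring
    have e3 : (2:ℝ) ^ ((4:ℝ) ^ 2) = 2 ^ 16 := by
      rw [← Real.rpow_natCast]
      norm_num
    rw [e2, e3] at h4
    calc Cr * ∫ ω, exI (pr (PL L)) x (fun _ : Fin 1 => ((2 * k : ℝ) : ℂ)) (fun _ => 0) ω ∂tm ≤ Cr * (C2 * 2 ^ 16 * l ^ (k ^ 2)) := mul_le_mul_of_nonneg_left h4 hCr.le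
      _ = (Cr * (C2 * 2 ^ 16)) * l ^ (k ^ 2) := by ring
      _ ≤ (G * Real.pi * c0 + Cr * (C2 * 2 ^ 16) + 1) * L ^ (k ^ 2) := by
        refine mul_le_mul ?_ hlk (by positivity) (by positivity)
        have : 0 ≤ G * Real.pi * c0 := by positivity
        linarith

end Pool.Agent.H470
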