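import Pool.Agent.H470.Wa27
import Pool.Agent.H470.To26

set_option autoImplicit false

/-! The narrow sums over `[0, T]`, exponents below one. -/

namespace Pool.Agent.H470

open MeasureTheory Filter Topology ProbabilityTheory Set
open scoped ENNReal
open Pool.Agent.TH806 (ec ec_norm ec_cont uu integrable_uu)

/-- the parameters for an exponent below one -/
noncomputable def P1 {k : ℝ} (hk : 0 < k) (hk1 : k < 1) : Pm where
  k := k
  Z := 1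
  m0 := 0
  m1 := 1
  θ := k
  hk := hk
  hZ := le_rfl
  h0 := hk
  h1 := hk1
  hθ := by push_cast; ring
  hz1 := by push_cast; rw [abs_le]; constructor <;> linarith
  hz0 := by push_cast; rw [abs_le]; constructor <;> linarith
  hkZ := by push_cast; linarith
  hm1 := by push_cast; linarith
  hm0 := by push_cast; linarith
  hm := by norm_num

lemma Ig_sp {φ : ℝ → ℝ} (h : Sm φ) {x : ℝ} (hx : 0 < x) (hx1 : x ≤ 1) (hB : ∀ u, 1 ≤ u → φ u = 0) : Sp (2 / x) (Ig φ x) := by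
  obtain ⟨X, hX⟩ : ∃ X : ℕ, X = ⌈Real.exp (1 / x)⌉₊ := ⟨_, rfl⟩
  have h1 : Real.exp (1 / x) ≤ X := by rw [hX]; exact Nat.le_ceil _
  have h2 : (X:ℝ) ≤ Real.exp (2 / x) := by
    have h3 : (X:ℝ) < Real.exp (1 / x) + 1 := by rw [hX]; exact Nat.ceil_lt_add_one (Real.exp_pos _).le
    have h4 : (1:ℝ) ≤ 1 / x := by rw [le_div_iff₀ hx]; linarith
    have h5 : (2:ℝ) ≤ Real.exp (1 / x) := by
      have := Real.add_one_le_exp (1 / x)
      linarith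
    have h6 : Real.exp (2 / x) = Real.exp (1 / x) * Real.exp (1 / x) := by
      rw [← Real.exp_add]
      congr 1
      ring
    rw [h6]
    nlinarith
  have h7 : (0:ℝ) < X := (Real.exp_pos _).trans_le h1
  have h8 : Real.log X ≤ 2 / x := by rw [Real.log_le_iff_le_exp h7]; exact h2
  have h9 : Ig φ x = WS (fun n => φ (x * Real.log n)) X := by
    funext ω
    exact Ig_WS h hx (by linarith) hB h1 ω
  rw [h9]
  exact WS_sp _ _ (by positivity) h8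

theorem pc_T {k : ℝ} (hk : 0 < k) (hk1 : k < 1) : ∃ C : ℝ, 0 < C ∧ ∃ C' : ℝ, 0 < C' ∧ ∀ x : ℝ, 0 < x → x ≤ 1 → ∀ η : ℝ, x ^ (1 - k / 2) ≤ η → 2 * x ≤ η → η ≤ 1 →
    ∀ T : ℝ, 0 < T → Real.exp (C' / x) ≤ T → At T (fun ω => ‖Ig (dd (η / 2) η) x ω‖ ^ (2 * k)) ≤ C * η ^ (k ^ 2 / 2) * x ^ (-k ^ 2) := by
  obtain ⟨C, hC, q, hq, hpc⟩ := pc_two hk hk1
  refine ⟨12 * C, by positivity, 4 + 64 * (q:ℝ) ^ 2, by positivity, fun x hx hx1 η h1 h2 h3 T hT hl => ?_⟩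
  obtain ⟨p1, p2⟩ := hpc x hx hx1 η h1 h2 h3
  have hη0 : 0 < η := by linarith
  have hSm : Sm (dd (η / 2) η) := dd_Sm (by positivity) hη0
  have hQ : Sp (2 / x) (Ig (dd (η / 2) η) x) := Ig_sp hSm hx hx1 fun u hu => dd_out (by positivity) (by linarith) h3 (Or.inr hu)
  have hB : Sp 0 (fun _ : ℕ → ℝ => (1:ℂ)) := Sp.const le_rfl 1
  have hL0 : 0 ≤ η / x := by positivity
  have hlen : Real.exp (2 * ((P1 hk hk1).m1 * (2 / x) + 32 * (P1 hk hk1).Z * (q:ℝ) ^ 2 * (η / x) + 0)) ≤ T := by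
    refine le_trans (Real.exp_le_exp.mpr ?_) hl
    have e1 : (((P1 hk hk1).m1 : ℕ) : ℝ) = 1 := by simp [P1]
    have e2 : (((P1 hk hk1).Z : ℕ) : ℝ) = 1 := by simp [P1]
    rw [e1, e2]
    have h4 : η / x ≤ 1 / x := div_le_div_of_nonneg_right h3 hx.le
    have h5 : 0 ≤ (q:ℝ) ^ 2 := by positivity
    have h6 : 32 * 1 * (q:ℝ) ^ 2 * (η / x) ≤ 32 * 1 * (q:ℝ) ^ 2 * (1 / x) := mul_le_mul_of_nonneg_left h4 (by positivity)
    have e3 : (4 + 64 * (q:ℝ) ^ 2) / x = 2 * (1 * (2 / x) + 32 * 1 * (q:ℝ) ^ 2 * (1 / x)) := by ring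
    rw [e3]
    linarith
  have h7 := TSB (P1 hk hk1) hq hL0 x (by positivity) hQ hB one_pos hT hlen
  have e4 : (P1 hk hk1).k = k := rfl
  have e5 : (fun ω => ‖Ig (dd (η / 2) η) x ω‖ ^ (2 * (P1 hk hk1).k) * ‖(1:ℂ)‖ ^ 2) = fun ω => ‖Ig (dd (η / 2) η) x ω‖ ^ (2 * k) := by
    funext ω
    rw [e4]
    simp
  rw [e5] at h7
  refine h7.trans ?_
  unfold MM
  have e6 : ∫ ω, ‖Ig (dd (η / 2) η) x ω‖ ^ (2 * (P1 hk hk1).m1) * Rs (P1 hk hk1).Z q x (η / x) ((P1 hk hk1).k - (P1 hk hk1).m1) ω * ‖(1:ℂ)‖ ^ 2 ∂tm =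
      ∫ ω, Rs 1 q x (η / x) (k - 1) ω * ‖Ig (dd (η / 2) η) x ω‖ ^ 2 ∂tm := by
    congr 1
    funext ω
    simp only [P1]
    simp
    ring
  have e7 : ∫ ω, ‖Ig (dd (η / 2) η) x ω‖ ^ (2 * (P1 hk hk1).m0) * Rs (P1 hk hk1).Z q x (η / x) ((P1 hk hk1).k - (P1 hk hk1).m0) ω * ‖(1:ℂ)‖ ^ 2 ∂tm =
      ∫ ω, Rs 1 q x (η / x) k ω ∂tm := by
    congr 1
    funext ω
    simp only [P1]
    simp
  rw [e6, e7, Real.one_rpow, one_mul, one_mul]
  have h8 : (η / x) ^ (k ^ 2) * η ^ (-(k ^ 2 / 2)) = η ^ (k ^ 2 / 2) * x ^ (-k ^ 2) := by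
    rw [Real.div_rpow hη0.le hx.le, Real.rpow_neg hx.le, div_eq_mul_inv]
    have : η ^ (k ^ 2 / 2) = η ^ (k ^ 2) * η ^ (-(k ^ 2 / 2)) := by
      rw [← Real.rpow_add hη0]
      congr 1
      ring
    rw [this]
    ring
  have h9 : (η / x) ^ (k ^ 2) ≤ (η / x) ^ (k ^ 2) * η ^ (-(k ^ 2 / 2)) :=
    le_mul_of_one_le_right (by positivity) (Real.one_le_rpow_of_pos_of_le_one_of_nonpos hη0 h3 (by
      have : 0 ≤ k ^ 2 / 2 := by positivity
      linarith))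
  have h10 : C * (η / x) ^ (k ^ 2) ≤ C * ((η / x) ^ (k ^ 2) * η ^ (-(k ^ 2 / 2))) := mul_le_mul_of_nonneg_left h9 hC.le
  have h11 : C * (η / x) ^ (k ^ 2) * η ^ (-(k ^ 2 / 2)) = C * ((η / x) ^ (k ^ 2) * η ^ (-(k ^ 2 / 2))) := by ring
  rw [h11] at p1
  calc 6 * (∫ ω, Rs 1 q x (η / x) (k - 1) ω * ‖Ig (dd (η / 2) η) x ω‖ ^ 2 ∂tm + ∫ ω, Rs 1 q x (η / x) k ω ∂tm)
      ≤ 6 * (C * ((η / x) ^ (k ^ 2) * η ^ (-(k ^ 2 / 2))) + C * ((η / x) ^ (k ^ 2) * η ^ (-(k ^ 2 / 2)))) := by linarith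
    _ = 12 * C * η ^ (k ^ 2 / 2) * x ^ (-k ^ 2) := by rw [h8]; ring

lemma At_two {k : ℝ} (hk : 0 < k) (hk1 : k < 1) {T : ℝ} (hT : 0 < T) {f : (ℕ → ℝ) → ℂ} (hf : CC f) {M : ℝ} (hM : 0 < M) (h : At T (fun ω => ‖f ω‖ ^ 2) ≤ M) :
    At T (fun ω => ‖f ω‖ ^ (2 * k)) ≤ 2 * M ^ k := by
  have hc2 : Continuous fun ω => ‖f ω‖ ^ 2 := hf.1.norm.pow 2
  have hpt : ∀ ω, ‖f ω‖ ^ (2 * k) ≤ M ^ (k - 1) * ‖f ω‖ ^ 2 + M ^ k := by
    intro ω
    have h1 := amg hk hk1 (X := ‖f ω‖ ^ 2) (Y := 1) (μ := M ^ k) (by positivity) zero_le_one (by positivity)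
    rw [Real.one_rpow, mul_one, mul_one, ← Real.rpow_mul hM.le, ← Real.rpow_natCast, ← Real.rpow_mul (norm_nonneg _)] at h1
    have e1 : k * -((1 - k) / k) = k - 1 := by field_simp; ring
    rw [e1] at h1
    push_cast at h1
    rwa [Real.rpow_two] at h1
  have h2 := At_mono hT (g := fun ω => M ^ (k - 1) * ‖f ω‖ ^ 2 + M ^ k) (Ak_cont hk hf) ((continuous_const.mul hc2).add continuous_const) hpt
  refine h2.trans ?_
  have h3 : At T (fun ω => M ^ (k - 1) * ‖f ω‖ ^ 2 + M ^ k) = M ^ (k - 1) * At T (fun ω => ‖f ω‖ ^ 2) + M ^ k := by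
    rw [At_add (f := fun ω => M ^ (k - 1) * ‖f ω‖ ^ 2) (g := fun _ => M ^ k) (continuous_const.mul hc2) continuous_const, At_smul]
    congr 1
    unfold At
    rw [intervalIntegral.integral_const]
    simp
    field_simp
  rw [h3]
  have h4 : M ^ (k - 1) * At T (fun ω => ‖f ω‖ ^ 2) ≤ M ^ (k - 1) * M := mul_le_mul_of_nonneg_left h (by positivity)
  have h5 : M ^ (k - 1) * M = M ^ k := by
    nth_rw 2 [← Real.rpow_one M]
    rw [← Real.rpow_add hM]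
    congr 1
    ring
  linarith

lemma nt_sum {k x T : ℝ} (hk : 0 < k) (hx : 0 ≤ x) (hT : 0 < T) {ι : Type*} (s : Finset ι) {f : ι → (ℕ → ℝ) → ℂ} (hf : ∀ i ∈ s, CC (f i)) :
    nt k x T (fun ω => ∑ i ∈ s, f i ω) ≤ ∑ i ∈ s, nt k x T (f i) := by
  classical
  induction s using Finset.induction_on with
  | empty =>
    simp only [Finset.sum_empty]
    unfold nt
    have : (fun _ : ℕ → ℝ => ‖(0:ℂ)‖ ^ (2 * k)) = fun _ => 0 := by
      funext ω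
      rw [norm_zero, Real.zero_rpow (by positivity)]
    rw [this]
    unfold At
    simp
    rw [Real.zero_rpow (kp_pos hk).ne']
  | insert a s ha ih =>
    rw [Finset.sum_insert ha]
    simp_rw [Finset.sum_insert ha]
    have h1 : CC (f a) := hf a (Finset.mem_insert_self _ _)
    have h2 : ∀ i ∈ s, CC (f i) := fun i hi => hf i (Finset.mem_insert_of_mem hi)
    refine (nt_add hk hx hT h1 (CC.sum s h2)).trans ?_
    have := ih h2
    linarith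

lemma WW_fl (w : ℕ → ℝ) (N : ℕ) (t : ℝ) : WW w N t = WS w N (fl t) := by
  unfold WW WS
  refine Finset.sum_congr rfl fun n hn => ?_
  rw [Finset.mem_Icc] at hn
  have hn0 : (n:ℂ) ≠ 0 := by exact_mod_cast (by omega : n ≠ 0)
  rw [ch_fl (by omega), mul_assoc]
  congr 1
  unfold tn
  rw [← Complex.cpow_add _ _ hn0]
  congr 1
  ring

end Pool.Agent.H470
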