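import Pool.Agent.H470.Wa28

set_option autoImplicit false

/-! The narrow sums over `[0, T]`. -/

namespace Pool.Agent.H470

open MeasureTheory Filter Topology ProbabilityTheory Set
open scoped ENNReal
open Pool.Agent.TH806 (ec ec_norm ec_cont uu integrable_uu)

lemma be_sq {N : ℕ} (hN : 3 ≤ N) {a : ℝ} (ha0 : 0 < a) (ha1 : a ≤ 1) : mk 1 (WS (fun n => be a (xN N * Real.log n)) N) ≤ 1 + a / xN N := by
  have hx := xN_pos hN
  obtain ⟨x, hxx⟩ : ∃ x : ℝ, x = xN N := ⟨_, rfl⟩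
  rw [← hxx] at hx ⊢
  have hexpx : Real.exp (1 / x) = N := by rw [hxx]; exact exp_xN hN
  rw [WS_sq]
  have h3 : ∑ n ∈ Finset.Icc 1 N, be a (x * Real.log n) ^ 2 / n ≤ ∑ n ∈ (Finset.Icc 1 N).filter (fun n : ℕ => Real.exp ((1 - a) / x) < n), (1:ℝ) / n := by
    rw [Finset.sum_filter]
    refine Finset.sum_le_sum fun n hn => ?_
    rw [Finset.mem_Icc] at hn
    have hn0 : (0:ℝ) < n := by exact_mod_cast (by omega : 0 < n)
    split_ifs with h
    · refine div_le_div_of_nonneg_right ?_ hn0.le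
      have := be_nonneg a (x * Real.log n)
      have := be_le a (x * Real.log n)
      nlinarith
    · have h4 : Real.log n ≤ (1 - a) / x := by
        rw [Real.log_le_iff_le_exp hn0]
        exact not_lt.mp h
      rw [le_div_iff₀ hx] at h4
      have h5 : be a (x * Real.log n) = 0 := by
        unfold be
        refine g0_zero (Or.inl ?_)
        rw [div_le_iff₀ ha0]
        linarith
      rw [h5]
      simp
  refine h3.trans ((harm (Real.one_le_exp (div_nonneg (by linarith) hx.le)) ?_).trans ?_)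
  · rw [← hexpx]
    refine Real.exp_le_exp.mpr (div_le_div_of_nonneg_right (by linarith) hx.le)
  · rw [Real.log_exp, ← hexpx, Real.log_exp]
    have e1 : 1 + 1 / x - (1 - a) / x = 1 + a / x := by
      field_simp
      ring
    exact e1.le

lemma Ig_dd {a η x : ℝ} (ha0 : 0 < a) (hη : 0 < η) (hx : 0 < x) (ω : ℕ → ℝ) : Ig (dd a η) x ω = Ig (fi a) x ω - Ig (fi η) x ω := by
  rw [Ig_Iw, Ig_Iw, Ig_Iw]
  unfold Iw
  rw [← integral_sub (wF_int ((ps_integrable (fi_Sm ha0)).const_mul _) hx ω) (wF_int ((ps_integrable (fi_Sm hη)).const_mul _) hx ω)]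
  refine integral_congr_ae (Eventually.of_forall fun y => ?_)
  show ((1 / (2 * Real.pi) : ℝ) : ℂ) * ps (dd a η) y * Fp x y ω = _
  have h5 : ps (dd a η) y = ps (fi a) y - ps (fi η) y := ps_sub (fi_Sm ha0) (fi_Sm hη) y
  rw [h5]
  ring

lemma Ig_tel {η x : ℝ} (hη : 0 < η) (hx : 0 < x) (J : ℕ) (ω : ℕ → ℝ) :
    Ig (fi (η / 2 ^ J)) x ω - Ig (fi η) x ω = ∑ j ∈ Finset.range J, Ig (dd (η / 2 ^ j / 2) (η / 2 ^ j)) x ω := by
  have h1 : ∀ j ∈ Finset.range J, Ig (dd (η / 2 ^ j / 2) (η / 2 ^ j)) x ω = Ig (fi (η / 2 ^ (j + 1))) x ω - Ig (fi (η / 2 ^ j)) x ω := by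
    intro j _
    have e1 : η / 2 ^ j / 2 = η / 2 ^ (j + 1) := by rw [div_div, pow_succ]
    rw [e1]
    exact Ig_dd (by positivity) (by positivity) hx ω
  rw [Finset.sum_congr rfl h1, Finset.sum_range_sub (fun j => Ig (fi (η / 2 ^ j)) x ω)]
  simp

lemma geo_part {κ : ℝ} (hκ : 0 < κ) {η : ℝ} (hη : 0 < η) (J : ℕ) :
    ∑ j ∈ Finset.range J, (η / 2 ^ j) ^ κ ≤ η ^ κ * (1 - (2:ℝ) ^ (-κ))⁻¹ := by
  have hr0 : 0 ≤ (2:ℝ) ^ (-κ) := by positivity
  have hr1 : (2:ℝ) ^ (-κ) < 1 := Real.rpow_lt_one_of_one_lt_of_neg (by norm_num) (by linarith)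
  have h1 : ∀ j : ℕ, (η / 2 ^ j) ^ κ = η ^ κ * ((2:ℝ) ^ (-κ)) ^ j := by
    intro j
    rw [Real.div_rpow hη.le (by positivity), div_eq_mul_inv]
    congr 1
    rw [← Real.rpow_natCast, ← Real.rpow_natCast, ← Real.rpow_mul (by norm_num), ← Real.rpow_mul (by norm_num), ← Real.rpow_neg (by norm_num)]
    congr 1
    ring
  simp_rw [h1]
  rw [← Finset.mul_sum]
  refine mul_le_mul_of_nonneg_left ?_ (by positivity)
  rw [← tsum_geometric_of_lt_one hr0 hr1]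
  exact (summable_geometric_of_lt_one hr0 hr1).sum_le_tsum _ fun _ _ => by positivity

theorem near_T_lo {k : ℝ} (hk : 0 < k) (hk1 : k < 1) {e : ℝ} (he : 0 < e) : ∃ η : ℝ, 0 < η ∧ η ≤ 1 / 2 ∧ ∃ C' : ℝ, 0 < C' ∧
    ∀ᶠ N : ℕ in atTop, ∀ T : ℝ, 0 < T → Real.exp (C' * Real.log N) ≤ T → nt k (xN N) T (WS (fun n => be η (xN N * Real.log n)) N) ≤ e := by
  obtain ⟨C, hC, C', hC', hpc⟩ := pc_T hk hk1
  have hkp := kp_pos hk
  obtain ⟨κ, hκ⟩ : ∃ κ : ℝ, κ = k ^ 2 / 2 * kp k := ⟨_, rfl⟩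
  have hκ0 : 0 < κ := by rw [hκ]; positivity
  obtain ⟨D, hD⟩ : ∃ D : ℝ, D = (2 ^ (k ^ 2) * C) ^ kp k := ⟨_, rfl⟩
  have hD0 : 0 < D := by rw [hD]; positivity
  obtain ⟨r, hr⟩ : ∃ r : ℝ, r = (2:ℝ) ^ (-κ) := ⟨_, rfl⟩
  have hr1 : r < 1 := by rw [hr]; exact Real.rpow_lt_one_of_one_lt_of_neg (by norm_num) (by linarith)
  obtain ⟨s, hs⟩ : ∃ s : ℝ, s = (e / 2 / (D * (1 - r)⁻¹)) ^ (1 / κ) := ⟨_, rfl⟩
  have h1r : 0 < (1 - r)⁻¹ := inv_pos.mpr (by linarith)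
  have hs0 : 0 < s := by rw [hs]; positivity
  have hsκ : s ^ κ = e / 2 / (D * (1 - r)⁻¹) := by
    rw [hs, ← Real.rpow_mul (by positivity), one_div_mul_cancel hκ0.ne', Real.rpow_one]
  refine ⟨min (1 / 2) s, lt_min (by norm_num) hs0, min_le_left _ _, C' + 2, by positivity, ?_⟩
  obtain ⟨η, hηd⟩ : ∃ η : ℝ, η = min (1 / 2) s := ⟨_, rfl⟩
  rw [← hηd]
  have hη : 0 < η := by rw [hηd]; exact lt_min (by norm_num) hs0
  have hη2 : η ≤ 1 / 2 := by rw [hηd]; exact min_le_left _ _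
  have hηs : η ≤ s := by rw [hηd]; exact min_le_right _ _
  have hηκ : D * (η ^ κ * (1 - r)⁻¹) ≤ e / 2 := by
    have h1 : η ^ κ ≤ e / 2 / (D * (1 - r)⁻¹) := by rw [← hsκ]; exact Real.rpow_le_rpow hη.le hηs hκ0.le
    rw [le_div_iff₀ (by positivity)] at h1
    calc D * (η ^ κ * (1 - r)⁻¹) = η ^ κ * (D * (1 - r)⁻¹) := by ring
      _ ≤ e / 2 := h1
  have hlim : Tendsto (fun x : ℝ => ((2 * x) ^ (k ^ 2) * (2 * (9 * x ^ (-(k / 2))) ^ k)) ^ kp k) (𝓝[>] 0) (𝓝 0) := by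
    have h1 : Tendsto (fun x : ℝ => (2 ^ (k ^ 2) * 2 * 9 ^ k * x ^ (k ^ 2 / 2)) ^ kp k) (𝓝 0) (𝓝 ((2 ^ (k ^ 2) * 2 * 9 ^ k * 0 ^ (k ^ 2 / 2)) ^ kp k)) := by
      have h2 : Tendsto (fun x : ℝ => x ^ (k ^ 2 / 2)) (𝓝 0) (𝓝 (0 ^ (k ^ 2 / 2))) := tendsto_id.rpow_const (Or.inr (by positivity))
      exact (h2.const_mul _).rpow_const (Or.inr hkp.le)
    rw [Real.zero_rpow (by positivity), mul_zero, Real.zero_rpow hkp.ne'] at h1
    refine (h1.mono_left nhdsWithin_le_nhds).congr' ?_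
    filter_upwards [self_mem_nhdsWithin] with x hx
    have hx0 : (0:ℝ) < x := hx
    congr 1
    rw [Real.mul_rpow (by norm_num) hx0.le, Real.mul_rpow (by norm_num) (by positivity), ← Real.rpow_mul hx0.le]
    have e1 : x ^ (k ^ 2 / 2) = x ^ (k ^ 2) * x ^ (-(k / 2) * k) := by
      rw [← Real.rpow_add hx0]
      congr 1
      ring
    rw [e1]
    ring
  have hbl : Tendsto (fun x : ℝ => x ^ (1 - k / 2)) (𝓝[>] 0) (𝓝 0) := by
    have h1 : Tendsto (fun x : ℝ => x ^ (1 - k / 2)) (𝓝 0) (𝓝 (0 ^ (1 - k / 2))) := tendsto_id.rpow_const (Or.inr (by linarith))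
    rw [Real.zero_rpow (by linarith)] at h1
    exact h1.mono_left nhdsWithin_le_nhds
  filter_upwards [xN_lim.eventually (hbl.eventually (gt_mem_nhds hη)), xN_lim.eventually (hlim.eventually (gt_mem_nhds (show 0 < e / 2 by positivity))), eventually_ge_atTop 3]
    with N h1 h2 hN T hT hlT
  have hx := xN_pos hN
  have hx1 := xN_le hN
  obtain ⟨x, hxx⟩ : ∃ x : ℝ, x = xN N := ⟨_, rfl⟩
  have hlN : Real.log N = 1 / x := by rw [hxx]; unfold xN; rw [one_div_one_div]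
  rw [← hxx] at h1 h2 hx hx1 ⊢
  obtain ⟨b, hb⟩ : ∃ b : ℝ, b = x ^ (1 - k / 2) := ⟨_, rfl⟩
  have hb0 : 0 < b := by rw [hb]; positivity
  have hxb : x ≤ b := by
    rw [hb]
    nth_rw 1 [← Real.rpow_one x]
    exact Real.rpow_le_rpow_of_exponent_ge hx hx1 (by linarith)
  rw [← hb] at h1
  obtain ⟨J, hJ1, hJ2⟩ := exists_nat_pow_near (show 1 ≤ η / b by rw [le_div_iff₀ hb0]; linarith) (show (1:ℝ) < 2 by norm_num)
  rw [le_div_iff₀ hb0] at hJ1
  rw [div_lt_iff₀ hb0] at hJ2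
  obtain ⟨a, ha⟩ : ∃ a : ℝ, a = η / 2 ^ J := ⟨_, rfl⟩
  have h2J : (0:ℝ) < 2 ^ J := by positivity
  have hba : b ≤ a := by rw [ha, le_div_iff₀ h2J]; linarith
  have hab : a ≤ 2 * b := by
    rw [ha, div_le_iff₀ h2J]
    rw [pow_succ] at hJ2
    linarith
  have ha0 : 0 < a := by linarith
  have ha1 : a ≤ 1 := by
    have h3 : a ≤ η := by rw [ha]; exact div_le_self hη.le (one_le_pow₀ (by norm_num))
    linarith
  have hex1 : Real.exp (C' / x) ≤ T := by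
    refine le_trans (Real.exp_le_exp.mpr ?_) hlT
    rw [hlN]
    have : 0 < 1 / x := by positivity
    calc C' / x = C' * (1 / x) := by ring
      _ ≤ (C' + 2) * (1 / x) := by nlinarith
  have hex2 : Real.exp (2 * Real.log N) ≤ T := by
    refine le_trans (Real.exp_le_exp.mpr ?_) hlT
    rw [hlN]
    have : 0 < 1 / x := by positivity
    nlinarith
  -- the remainder
  obtain ⟨f, hf⟩ : ∃ f : (ℕ → ℝ) → ℂ, f = WS (fun n => be a (x * Real.log n)) N := ⟨_, rfl⟩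
  have hfs : Sp (Real.log N) f := by
    rw [hf]
    exact WS_sp _ _ (by rw [hlN]; positivity) le_rfl
  have hm1 : At T (fun ω => ‖f ω‖ ^ 2) ≤ 9 * x ^ (-(k / 2)) := by
    refine (At_sq hfs hT hex2).trans ?_
    have h3 := be_sq hN ha0 ha1
    rw [← hxx, ← hf, mk_one_sq] at h3
    have e2 : b / x = x ^ (-(k / 2)) := by
      rw [hb, ← Real.rpow_sub_one hx.ne']
      congr 1
      ring
    have h4 : 1 ≤ x ^ (-(k / 2)) := Real.one_le_rpow_of_pos_of_le_one_of_nonpos hx hx1 (by linarith)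
    have h5 : a / x ≤ 2 * (b / x) := by
      rw [← mul_div_assoc]
      exact div_le_div_of_nonneg_right hab hx.le
    rw [e2] at h5
    linarith
  have hm2 := At_two hk hk1 hT hfs.cc (by positivity) hm1
  have n1 : nt k x T f ≤ e / 2 := by
    refine le_trans ?_ h2.le
    unfold nt
    refine Real.rpow_le_rpow (mul_nonneg (by positivity) (Ak_nonneg k hT f)) ?_ hkp.le
    exact mul_le_mul_of_nonneg_left hm2 (by positivity)
  have hpiece : ∀ j ∈ Finset.range J, CC (Ig (dd (η / 2 ^ j / 2) (η / 2 ^ j)) x) ∧ nt k x T (Ig (dd (η / 2 ^ j / 2) (η / 2 ^ j)) x) ≤ D * (η / 2 ^ j) ^ κ := by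
    intro j hj
    rw [Finset.mem_range] at hj
    obtain ⟨z, hz⟩ : ∃ z : ℝ, z = η / 2 ^ j := ⟨_, rfl⟩
    rw [← hz]
    have hz0 : 0 < z := by rw [hz]; positivity
    have hz1 : z ≤ 1 := by
      have h3 : z ≤ η := by rw [hz]; exact div_le_self hη.le (one_le_pow₀ (by norm_num))
      linarith
    have hz2 : 2 * b ≤ z := by
      rw [hz, le_div_iff₀ (by positivity)]
      have h3 : (2:ℝ) ^ (j + 1) ≤ 2 ^ J := pow_le_pow_right₀ (by norm_num) hj
      rw [pow_succ] at h3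
      calc 2 * b * 2 ^ j = 2 ^ j * 2 * b := by ring
        _ ≤ 2 ^ J * b := mul_le_mul_of_nonneg_right h3 hb0.le
        _ ≤ η := hJ1
    have hSm : Sm (dd (z / 2) z) := dd_Sm (by positivity) hz0
    refine ⟨(Ig_sp hSm hx hx1 fun u hu => dd_out (by positivity) (by linarith) hz1 (Or.inr hu)).cc, ?_⟩
    have h3 := hpc x hx hx1 z (by rw [← hb]; linarith) (by linarith) hz1 T hT hex1
    refine (nt_le hk hx hT h3).trans (le_of_eq ?_)
    rw [hD, hκ, ← mul_assoc, Real.mul_rpow (by positivity) (by positivity), ← Real.rpow_mul hz0.le]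
  have hre : WS (fun n => be η (x * Real.log n)) N = fun ω => f ω + ∑ j ∈ Finset.range J, Ig (dd (η / 2 ^ j / 2) (η / 2 ^ j)) x ω := by
    funext ω
    rw [← Ig_tel hη hx J ω, hf]
    have h3 := SS_sub hN ha0 ω
    have h4 := SS_sub hN hη ω
    rw [← hxx] at h3 h4
    rw [← h3, ← h4, ha]
    ring
  rw [hre]
  refine (nt_add hk hx.le hT hfs.cc (CC.sum _ fun j hj => (hpiece j hj).1)).trans ?_
  have h5 := (nt_sum hk hx.le hT (Finset.range J) fun j hj => (hpiece j hj).1).trans (Finset.sum_le_sum fun j hj => (hpiece j hj).2)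
  rw [← Finset.mul_sum] at h5
  have h6 := mul_le_mul_of_nonneg_left (geo_part hκ0 hη J) hD0.le
  rw [← hr] at h6
  linarith

end Pool.Agent.H470
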