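import Pool.Agent.H470.Wa2

set_option autoImplicit false

/-! Smooth sums as averages of finite Euler products. -/

namespace Pool.Agent.H470

open MeasureTheory Filter Topology ProbabilityTheory Set
open scoped ENNReal
open Pool.Agent.TH806 (ec ec_norm ec_cont uu integrable_uu)

/-- the finite Euler product -/
noncomputable def Fl (I : Finset ℕ) (x y : ℝ) (ω : ℕ → ℝ) : ℂ := Complex.exp (Xs I (sp x y) ω)

/-- averages of the finite Euler product -/
noncomputable def Il (φ : ℝ → ℝ) (x : ℝ) (I : Finset ℕ) (ω : ℕ → ℝ) : ℂ := ∫ y : ℝ, ((1 / (2 * Real.pi) : ℝ) : ℂ) * ps φ y * Fl I x y ω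

theorem Il_WS {φ : ℝ → ℝ} (h : Sm φ) {B x : ℝ} (hx : 0 < x) (hB : ∀ u, B ≤ u → φ u = 0) {P X : ℕ} (hPB : Real.exp (B / x) ≤ P)
    (hX : Real.exp (B / x) ≤ X) (ω : ℕ → ℝ) : Il φ x (pr P) ω = WS (fun n => φ (x * Real.log n)) X ω := by
  have hre : ∀ y, 0 < (sp x y).re := fun y => by rw [sp_re]; linarith
  have hsm : ∀ m : (P + 1).smoothNumbers, (m:ℕ) ≠ 0 := fun m => Nat.ne_zero_of_mem_smoothNumbers m.2
  obtain ⟨F, hF⟩ : ∃ F : (P + 1).smoothNumbers → ℝ → ℂ, ∀ m y, F m y = ((1 / (2 * Real.pi) : ℝ) : ℂ) * ps φ y * cch (sp x y) ω m := ⟨fun m y => _, fun _ _ => rfl⟩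
  have hnorm : ∀ m : (P + 1).smoothNumbers, ∀ y, ‖cch (sp x y) ω m‖ = ‖cch (sp x 0) ω m‖ := by
    intro m y
    rw [cch_apply (hsm m), cch_apply (hsm m), norm_mul, norm_mul, Complex.norm_natCast_cpow_of_pos (Nat.pos_of_ne_zero (hsm m)),
      Complex.norm_natCast_cpow_of_pos (Nat.pos_of_ne_zero (hsm m))]
    simp only [Complex.neg_re, sp_re]
  have hpi := (ps_integrable h).const_mul ((1 / (2 * Real.pi) : ℝ) : ℂ)
  have hcc : ∀ m : (P + 1).smoothNumbers, Continuous fun y => cch (sp x y) ω m := by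
    intro m
    have : (fun y => cch (sp x y) ω m) = fun y => ((m:ℕ):ℂ) ^ (-sp x y) * ch m ω := by
      funext y
      rw [cch_apply (hsm m)]
    rw [this]
    refine Continuous.mul ?_ continuous_const
    unfold sp
    exact Continuous.const_cpow (by fun_prop) (Or.inl (by exact_mod_cast hsm m))
  have hFi : ∀ m, Integrable (F m) := by
    intro m
    have e1 : F m = fun y => ((1 / (2 * Real.pi) : ℝ) : ℂ) * ps φ y * cch (sp x y) ω m := funext (hF m)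
    rw [e1]
    exact hpi.mul_bdd (c := ‖cch (sp x 0) ω m‖) (hcc m).aestronglyMeasurable (Eventually.of_forall fun y => (hnorm m y).le)
  have hFs : Summable fun m => ∫ y, ‖F m y‖ := by
    have e1 : ∀ m, ∫ y, ‖F m y‖ = (∫ y, ‖((1 / (2 * Real.pi) : ℝ) : ℂ) * ps φ y‖) * ‖cch (sp x 0) ω m‖ := by
      intro m
      rw [← integral_mul_const]
      refine integral_congr_ae (Eventually.of_forall fun y => ?_)
      show ‖F m y‖ = _
      rw [hF, norm_mul, hnorm]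
    simp_rw [e1]
    exact (euler (hre 0) P ω).1.mul_left _
  have hsum := hasSum_integral_of_summable_integral_norm hFi hFs
  have e2 : ∫ y, ∑' m, F m y = Il φ x (pr P) ω := by
    unfold Il
    refine integral_congr_ae (Eventually.of_forall fun y => ?_)
    show ∑' m, F m y = ((1 / (2 * Real.pi) : ℝ) : ℂ) * ps φ y * Fl (pr P) x y ω
    simp_rw [hF]
    rw [tsum_mul_left, (euler (hre y) P ω).2.tsum_eq]
    rfl
  obtain ⟨g, hg⟩ : ∃ g : ℕ → ℂ, ∀ n, g n = if n = 0 then 0 else (φ (x * Real.log n) : ℂ) * (n:ℂ) ^ (-(1 / 2) : ℂ) * ch n ω := ⟨fun n => _, fun _ => rfl⟩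
  have e3 : ∀ m : (P + 1).smoothNumbers, ∫ y, F m y = g m := by
    intro m
    have hm0 : ((m:ℕ):ℂ) ≠ 0 := by exact_mod_cast hsm m
    have h1 := ps_inv h (x * Real.log (m:ℕ))
    rw [hg, if_neg (hsm m), h1, ← integral_const_mul, mul_assoc, ← integral_mul_const]
    refine integral_congr_ae (Eventually.of_forall fun y => ?_)
    show F m y = _
    rw [hF, cch_apply (hsm m)]
    have e4 : ((m:ℕ):ℂ) ^ (-sp x y) = Complex.exp (-(((x * Real.log (m:ℕ) : ℝ) : ℂ) * (1 + (y:ℂ) * Complex.I))) * ((m:ℕ):ℂ) ^ (-(1 / 2) : ℂ) := by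
      unfold sp
      rw [Complex.cpow_def_of_ne_zero hm0, Complex.cpow_def_of_ne_zero hm0, ← Complex.exp_add]
      congr 1
      push_cast
      ring
    rw [e4]
    ring
  rw [e2] at hsum
  simp_rw [e3] at hsum
  have hsupp : Function.support g ⊆ (P + 1).smoothNumbers := by
    intro n hn
    rw [Function.mem_support, hg] at hn
    by_cases hn0 : n = 0
    · rw [if_pos hn0] at hn
      exact absurd rfl hn
    · rw [if_neg hn0] at hn
      have hφ : φ (x * Real.log n) ≠ 0 := by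
        intro hcon
        rw [hcon] at hn
        simp at hn
      have hlt : x * Real.log n < B := by
        by_contra hcon
        exact hφ (hB _ (not_lt.mp hcon))
      have hnpos : (0:ℝ) < n := by exact_mod_cast Nat.pos_of_ne_zero hn0
      have h2 : Real.log n < B / x := by
        rw [lt_div_iff₀ hx]
        linarith
      have h3 : (n:ℝ) < P := by
        rw [Real.log_lt_iff_lt_exp hnpos] at h2
        linarith
      have h4 : n < P := by exact_mod_cast h3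
      exact Nat.mem_smoothNumbers_of_lt (Nat.pos_of_ne_zero hn0) (by omega)
  have hsum2 : HasSum g (Il φ x (pr P) ω) := (hasSum_subtype_iff_of_support_subset hsupp).mp hsum
  have hfin : HasSum g (∑ n ∈ Finset.Icc 1 X, g n) := by
    refine hasSum_sum_of_ne_finset_zero fun n hn => ?_
    rw [hg]
    by_cases hn0 : n = 0
    · rw [if_pos hn0]
    · rw [if_neg hn0]
      have hnX : X < n := by
        by_contra hcon
        exact hn (Finset.mem_Icc.mpr ⟨Nat.pos_of_ne_zero hn0, not_lt.mp hcon⟩)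
      have hnX' : (X:ℝ) ≤ n := by exact_mod_cast hnX.le
      have hnpos : (0:ℝ) < n := by exact_mod_cast Nat.pos_of_ne_zero hn0
      have h2 : B / x ≤ Real.log n := by
        rw [Real.le_log_iff_exp_le hnpos]
        linarith
      rw [div_le_iff₀ hx] at h2
      rw [hB (x * Real.log n) (by linarith)]
      simp
  rw [hsum2.unique hfin]
  unfold WS
  refine Finset.sum_congr rfl fun n hn => ?_
  rw [hg, if_neg]
  rw [Finset.mem_Icc] at hn
  omega

/-- bounded continuous functions on the torus -/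
def RB (f : (ℕ → ℝ) → ℝ) : Prop := Continuous f ∧ ∃ B : ℝ, ∀ ω, |f ω| ≤ B

lemma RB.int {f : (ℕ → ℝ) → ℝ} (h : RB f) : Integrable f tm := by
  obtain ⟨h1, B, h2⟩ := h
  exact tm_int h1 h2

lemma RB.const (c : ℝ) : RB (fun _ => c) := ⟨continuous_const, |c|, fun _ => le_rfl⟩

lemma RB.add {f g : (ℕ → ℝ) → ℝ} (hf : RB f) (hg : RB g) : RB (fun ω => f ω + g ω) := by
  obtain ⟨h1, B, h2⟩ := hf
  obtain ⟨h3, B', h4⟩ := hg
  exact ⟨h1.add h3, B + B', fun ω => (abs_add_le _ _).trans (add_le_add (h2 ω) (h4 ω))⟩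

lemma RB.mul {f g : (ℕ → ℝ) → ℝ} (hf : RB f) (hg : RB g) : RB (fun ω => f ω * g ω) := by
  obtain ⟨h1, B, h2⟩ := hf
  obtain ⟨h3, B', h4⟩ := hg
  exact ⟨h1.mul h3, B * B', fun ω => by rw [abs_mul]; exact mul_le_mul (h2 ω) (h4 ω) (abs_nonneg _) ((abs_nonneg _).trans (h2 ω))⟩

lemma RB.pow {f : (ℕ → ℝ) → ℝ} (hf : RB f) (m : ℕ) : RB (fun ω => f ω ^ m) := by
  induction m with
  | zero => simpa using RB.const 1
  | succ m ih => simpa only [pow_succ] using ih.mul hf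

lemma RB.sum {α : Type*} (s : Finset α) {f : α → (ℕ → ℝ) → ℝ} (h : ∀ i ∈ s, RB (f i)) : RB (fun ω => ∑ i ∈ s, f i ω) := by
  classical
  induction s using Finset.induction_on with
  | empty => simpa using RB.const 0
  | insert a s ha ih =>
    simp only [Finset.sum_insert ha]
    exact (h a (Finset.mem_insert_self _ _)).add (ih fun i hi => h i (Finset.mem_insert_of_mem hi))

lemma RB.prod {α : Type*} (s : Finset α) {f : α → (ℕ → ℝ) → ℝ} (h : ∀ i ∈ s, RB (f i)) : RB (fun ω => ∏ i ∈ s, f i ω) := by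
  classical
  induction s using Finset.induction_on with
  | empty => simpa using RB.const 1
  | insert a s ha ih =>
    simp only [Finset.prod_insert ha]
    exact (h a (Finset.mem_insert_self _ _)).mul (ih fun i hi => h i (Finset.mem_insert_of_mem hi))

lemma RB.comp {f : (ℕ → ℝ) → ℝ} (hf : RB f) {g : ℝ → ℝ} (hg : Continuous g) : RB (fun ω => g (f ω)) := by
  obtain ⟨h1, B, h2⟩ := hf
  obtain ⟨D, hD⟩ := (isCompact_Icc (a := -B) (b := B)).exists_bound_of_continuousOn hg.continuousOn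
  exact ⟨hg.comp h1, D, fun ω => hD _ (abs_le.mp (h2 ω))⟩

/-- bounded continuous complex functions -/
def CC (f : (ℕ → ℝ) → ℂ) : Prop := Continuous f ∧ ∃ B : ℝ, ∀ ω, ‖f ω‖ ≤ B

lemma CC.int {f : (ℕ → ℝ) → ℂ} (h : CC f) : Integrable f tm := by
  obtain ⟨h1, B, h2⟩ := h
  exact tm_int h1 h2

lemma CC.gd {f : (ℕ → ℝ) → ℂ} (h : CC f) : Gd f := ⟨h.1.measurable, h.2⟩

lemma CC.const (c : ℂ) : CC (fun _ => c) := ⟨continuous_const, ‖c‖, fun _ => le_rfl⟩

lemma CC.add {f g : (ℕ → ℝ) → ℂ} (hf : CC f) (hg : CC g) : CC (fun ω => f ω + g ω) := by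
  obtain ⟨h1, B, h2⟩ := hf
  obtain ⟨h3, B', h4⟩ := hg
  exact ⟨h1.add h3, B + B', fun ω => (norm_add_le _ _).trans (add_le_add (h2 ω) (h4 ω))⟩

lemma CC.mul {f g : (ℕ → ℝ) → ℂ} (hf : CC f) (hg : CC g) : CC (fun ω => f ω * g ω) := by
  obtain ⟨h1, B, h2⟩ := hf
  obtain ⟨h3, B', h4⟩ := hg
  exact ⟨h1.mul h3, B * B', fun ω => by rw [norm_mul]; exact mul_le_mul (h2 ω) (h4 ω) (norm_nonneg _) ((norm_nonneg _).trans (h2 ω))⟩

lemma CC.sub {f g : (ℕ → ℝ) → ℂ} (hf : CC f) (hg : CC g) : CC (fun ω => f ω - g ω) := by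
  have := hf.add ((CC.const (-1)).mul hg)
  refine (funext fun ω => ?_ : (fun ω => f ω - g ω) = fun ω => f ω + -1 * g ω) ▸ this
  ring

lemma CC.sum {α : Type*} (s : Finset α) {f : α → (ℕ → ℝ) → ℂ} (h : ∀ i ∈ s, CC (f i)) : CC (fun ω => ∑ i ∈ s, f i ω) := by
  classical
  induction s using Finset.induction_on with
  | empty => simpa using CC.const 0
  | insert a s ha ih =>
    simp only [Finset.sum_insert ha]
    exact (h a (Finset.mem_insert_self _ _)).add (ih fun i hi => h i (Finset.mem_insert_of_mem hi))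

lemma CC.prod {α : Type*} (s : Finset α) {f : α → (ℕ → ℝ) → ℂ} (h : ∀ i ∈ s, CC (f i)) : CC (fun ω => ∏ i ∈ s, f i ω) := by
  classical
  induction s using Finset.induction_on with
  | empty => simpa using CC.const 1
  | insert a s ha ih =>
    simp only [Finset.prod_insert ha]
    exact (h a (Finset.mem_insert_self _ _)).mul (ih fun i hi => h i (Finset.mem_insert_of_mem hi))

lemma CC.pow {f : (ℕ → ℝ) → ℂ} (hf : CC f) (m : ℕ) : CC (fun ω => f ω ^ m) := by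
  induction m with
  | zero => simpa using CC.const 1
  | succ m ih => simpa only [pow_succ] using ih.mul hf

lemma CC.norm {f : (ℕ → ℝ) → ℂ} (hf : CC f) : RB (fun ω => ‖f ω‖) :=
  ⟨hf.1.norm, hf.2.choose, fun ω => by rw [abs_norm]; exact hf.2.choose_spec ω⟩

lemma CC.re {f : (ℕ → ℝ) → ℂ} (hf : CC f) : RB (fun ω => (f ω).re) :=
  ⟨Complex.continuous_re.comp hf.1, hf.2.choose, fun ω => (Complex.abs_re_le_norm _).trans (hf.2.choose_spec ω)⟩

lemma CC.conj {f : (ℕ → ℝ) → ℂ} (hf : CC f) : CC (fun ω => (starRingEnd ℂ) (f ω)) :=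
  ⟨Complex.continuous_conj.comp hf.1, hf.2.choose, fun ω => by rw [Complex.norm_conj]; exact hf.2.choose_spec ω⟩

lemma CC.exp {f : (ℕ → ℝ) → ℂ} (hf : CC f) : CC (fun ω => Complex.exp (f ω)) :=
  ⟨Complex.continuous_exp.comp hf.1, Real.exp hf.2.choose, fun ω => by
    rw [Complex.norm_exp, Real.exp_le_exp]
    exact (Complex.re_le_norm _).trans (hf.2.choose_spec ω)⟩

lemma RB.ofReal {f : (ℕ → ℝ) → ℝ} (hf : RB f) : CC (fun ω => ((f ω : ℝ) : ℂ)) :=
  ⟨Complex.continuous_ofReal.comp hf.1, hf.2.choose, fun ω => by rw [Complex.norm_real]; exact hf.2.choose_spec ω⟩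

lemma Sp.cc {l : ℝ} {Q : (ℕ → ℝ) → ℂ} (h : Sp l Q) : CC Q := ⟨h.cont, h.gd.2⟩

lemma Xs_cc {I : Finset ℕ} (hI : ∀ p ∈ I, 2 ≤ p) {x : ℝ} (hx : 0 ≤ x) (y : ℝ) : CC (Xs I (sp x y)) := by
  obtain ⟨B, _, hB⟩ := Xs_bd hI (sp_pos hx y)
  exact ⟨Xs_cont hI (sp_pos hx y), B, fun ω => hB _ le_rfl ω⟩

lemma Fl_cc {I : Finset ℕ} (hI : ∀ p ∈ I, 2 ≤ p) {x : ℝ} (hx : 0 ≤ x) (y : ℝ) : CC (Fl I x y) := (Xs_cc hI hx y).exp

lemma exI_cb {I : Finset ℕ} (hI : ∀ p ∈ I, 2 ≤ p) {x : ℝ} (hx : 0 ≤ x) {n : ℕ} (α : Fin n → ℂ) (y : Fin n → ℝ) : RB (exI I x α y) :=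
  ⟨exI_cont hI hx α y, exI_bd hI hx α y⟩

lemma sp_cont (x : ℝ) : Continuous (sp x) := by
  unfold sp
  fun_prop

lemma Fl_bdy {I : Finset ℕ} (hI : ∀ p ∈ I, 2 ≤ p) {x : ℝ} (hx : 0 ≤ x) : ∃ B : ℝ, 0 < B ∧ ∀ y ω, ‖Fl I x y ω‖ ≤ B := by
  obtain ⟨B, _, hB⟩ := Xs_bd hI (σ := 1 / 2) (by norm_num)
  refine ⟨Real.exp B, Real.exp_pos _, fun y ω => ?_⟩
  unfold Fl
  rw [Complex.norm_exp, Real.exp_le_exp]
  exact (Complex.re_le_norm _).trans (hB _ (by rw [sp_re]; linarith) _)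

lemma Fl_meas2 {I : Finset ℕ} (hI : ∀ p ∈ I, 2 ≤ p) (x : ℝ) : Measurable fun q : (ℕ → ℝ) × ℝ => Fl I x q.2 q.1 := by
  unfold Fl
  exact Complex.measurable_exp.comp (Xs_meas2 hI ((sp_cont x).measurable.comp measurable_snd) measurable_fst)

lemma Fl_contY {I : Finset ℕ} (hI : ∀ p ∈ I, 2 ≤ p) {x : ℝ} (hx : 0 ≤ x) (ω : ℕ → ℝ) : Continuous fun y => Fl I x y ω := by
  unfold Fl
  exact Complex.continuous_exp.comp (Xs_cont2 hI (sp_cont x) (fun a => sp_pos hx a) continuous_const)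

/-- moments of the averages -/
theorem Il_bd {φ : ℝ → ℝ} (h : Sm φ) {m : ℕ} (hm : 1 ≤ m) (A : ℕ) : ∃ C : ℝ, 0 < C ∧ ∀ (I : Finset ℕ), (∀ p ∈ I, 2 ≤ p) → ∀ x : ℝ, 0 ≤ x →
    ∀ g : (ℕ → ℝ) → ℝ, RB g → (∀ ω, 0 ≤ g ω) → ∀ M : ℝ, 0 ≤ M → (∀ y : ℝ, ∫ ω, ‖Fl I x y ω‖ ^ (2 * m) * g ω ∂tm ≤ M * (1 + |y|) ^ A) →
    ∫ ω, ‖Il φ x I ω‖ ^ (2 * m) * g ω ∂tm ≤ C * M := by
  obtain ⟨w, hw⟩ : ∃ w : ℝ → ℂ, w = fun y => ((1 / (2 * Real.pi) : ℝ) : ℂ) * ps φ y := ⟨_, rfl⟩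
  have hwc : Continuous w := by rw [hw]; exact continuous_const.mul (ps_cont h)
  have hwi : Integrable w := by rw [hw]; exact (ps_integrable h).const_mul _
  have hwA : Integrable fun y : ℝ => (1 + |y|) ^ A * ‖w y‖ := by
    have := (ps_wint h A).const_mul ‖((1 / (2 * Real.pi) : ℝ) : ℂ)‖
    refine this.congr (Eventually.of_forall fun y => ?_)
    simp only [hw, norm_mul]
    ring
  have hA0 : 0 ≤ ∫ y, ‖w y‖ := integral_nonneg fun y => norm_nonneg _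
  have hAA0 : 0 ≤ ∫ y, (1 + |y|) ^ A * ‖w y‖ := integral_nonneg fun y => by positivity
  refine ⟨(∫ y, ‖w y‖) ^ (2 * m - 1) * (∫ y, (1 + |y|) ^ A * ‖w y‖) + 1, by positivity, fun I hI x hx g hg hg0 M hM hb => ?_⟩
  have h1 : ∀ ω, ‖Il φ x I ω‖ₑ ^ (2 * m) ≤ (∫⁻ y, ‖w y‖ₑ) ^ (2 * m - 1) * ∫⁻ y, ‖w y‖ₑ * ‖Fl I x y ω‖ₑ ^ (2 * m) := by
    intro ω
    have h2 := jen volume (p := ((2 * m : ℕ) : ℝ)) (w := fun y => ‖w y‖ₑ) (f := fun y => ‖Fl I x y ω‖ₑ) (by exact_mod_cast (by omega : 1 ≤ 2 * m))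
      hwc.measurable.enorm.aemeasurable (Fl_contY hI hx ω).measurable.enorm.aemeasurable
    have e1 : ((2 * m : ℕ) : ℝ) - 1 = ((2 * m - 1 : ℕ) : ℝ) := by
      rw [Nat.cast_sub (by omega)]
      simp
    rw [e1] at h2
    simp only [ENNReal.rpow_natCast] at h2
    refine le_trans (pow_le_pow_left' ?_ _) h2
    unfold Il
    refine (enorm_integral_le_lintegral_enorm _).trans (le_of_eq (lintegral_congr fun y => ?_))
    rw [enorm_mul, hw]
  have hAe : ∫⁻ y, ‖w y‖ₑ = ENNReal.ofReal (∫ y, ‖w y‖) := by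
    rw [ofReal_integral_eq_lintegral_ofReal hwi.norm (Eventually.of_forall fun y => norm_nonneg _)]
    refine lintegral_congr fun y => ?_
    rw [ofReal_norm]
  have hnn : ∀ ω, 0 ≤ ‖Il φ x I ω‖ ^ (2 * m) * g ω := fun ω => mul_nonneg (by positivity) (hg0 ω)
  obtain ⟨BF, hBF0, hBF⟩ := Fl_bdy hI hx
  have hmF : ∀ y, RB fun ω => ‖Fl I x y ω‖ ^ (2 * m) * g ω := fun y => ((Fl_cc hI hx y).norm.pow _).mul hg
  have hAt : (∫⁻ y, ‖w y‖ₑ) ^ (2 * m - 1) ≠ ∞ := by rw [hAe]; exact ENNReal.pow_ne_top ENNReal.ofReal_ne_top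
  have hgm : Measurable fun ω => ENNReal.ofReal (g ω) := hg.1.measurable.ennreal_ofReal
  have h3 : ∫⁻ ω, ENNReal.ofReal (‖Il φ x I ω‖ ^ (2 * m) * g ω) ∂tm ≤ (∫⁻ y, ‖w y‖ₑ) ^ (2 * m - 1) * ∫⁻ y, ‖w y‖ₑ * ENNReal.ofReal (M * (1 + |y|) ^ A) := by
    have h4 : ∀ ω, ENNReal.ofReal (‖Il φ x I ω‖ ^ (2 * m) * g ω) ≤ (∫⁻ y, ‖w y‖ₑ) ^ (2 * m - 1) * ∫⁻ y, ‖w y‖ₑ * (‖Fl I x y ω‖ₑ ^ (2 * m) * ENNReal.ofReal (g ω)) := by
      intro ω
      rw [ENNReal.ofReal_mul (by positivity), ENNReal.ofReal_pow (norm_nonneg _), ofReal_norm]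
      have h5 := mul_le_mul_left (h1 ω) (ENNReal.ofReal (g ω))
      rw [mul_assoc, ← lintegral_mul_const' _ _ ENNReal.ofReal_ne_top] at h5
      refine h5.trans (le_of_eq ?_)
      congr 1
      refine lintegral_congr fun y => ?_
      ring
    refine (lintegral_mono h4).trans ?_
    rw [lintegral_const_mul' _ _ hAt]
    refine mul_le_mul_right ?_ _
    have hm2 : Measurable fun q : (ℕ → ℝ) × ℝ => ‖w q.2‖ₑ * (‖Fl I x q.2 q.1‖ₑ ^ (2 * m) * ENNReal.ofReal (g q.1)) :=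
      (hwc.measurable.comp (f := fun q : (ℕ → ℝ) × ℝ => q.2) measurable_snd).enorm.mul (((Fl_meas2 hI x).enorm.pow_const _).mul (hgm.comp measurable_fst))
    rw [lintegral_lintegral_swap (μ := tm) (ν := volume) (f := fun ω y => ‖w y‖ₑ * (‖Fl I x y ω‖ₑ ^ (2 * m) * ENNReal.ofReal (g ω))) hm2.aemeasurable]
    refine lintegral_mono fun y => ?_
    rw [lintegral_const_mul' _ _ enorm_ne_top]
    refine mul_le_mul_right ?_ _
    have e3 : ∫⁻ ω, ‖Fl I x y ω‖ₑ ^ (2 * m) * ENNReal.ofReal (g ω) ∂tm = ENNReal.ofReal (∫ ω, ‖Fl I x y ω‖ ^ (2 * m) * g ω ∂tm) := by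
      rw [ofReal_integral_eq_lintegral_ofReal (hmF y).int (Eventually.of_forall fun ω => mul_nonneg (by positivity) (hg0 ω))]
      refine lintegral_congr fun ω => ?_
      rw [ENNReal.ofReal_mul (by positivity), ENNReal.ofReal_pow (norm_nonneg _), ofReal_norm]
    rw [e3]
    exact ENNReal.ofReal_le_ofReal (hb y)
  have e4 : ∫⁻ y, ‖w y‖ₑ * ENNReal.ofReal (M * (1 + |y|) ^ A) = ENNReal.ofReal (M * ∫ y, (1 + |y|) ^ A * ‖w y‖) := by
    rw [← integral_const_mul, ofReal_integral_eq_lintegral_ofReal (hwA.const_mul M) (Eventually.of_forall fun y => by positivity)]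
    refine lintegral_congr fun y => ?_
    rw [← ofReal_norm, ← ENNReal.ofReal_mul (norm_nonneg _)]
    congr 1
    ring
  rw [e4, hAe, ← ENNReal.ofReal_pow hA0, ← ENNReal.ofReal_mul (by positivity)] at h3
  have h6 : (∫ ω, ‖Il φ x I ω‖ ^ (2 * m) * g ω ∂tm) ≤ (∫ y, ‖w y‖) ^ (2 * m - 1) * (M * ∫ y, (1 + |y|) ^ A * ‖w y‖) := by
    by_cases hint : Integrable (fun ω => ‖Il φ x I ω‖ ^ (2 * m) * g ω) tm
    · rw [← ofReal_integral_eq_lintegral_ofReal hint (Eventually.of_forall hnn)] at h3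
      exact (ENNReal.ofReal_le_ofReal_iff (by positivity)).mp h3
    · rw [integral_undef hint]
      positivity
  refine h6.trans ?_
  nlinarith

end Pool.Agent.H470
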