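import Pool.Agent.H470.Wa29

set_option autoImplicit false

/-! The limit of the norms of the partial sums over `[0, T]`. -/

namespace Pool.Agent.H470

open MeasureTheory Filter Topology ProbabilityTheory Set
open scoped ENNReal
open Pool.Agent.TH806 (ec ec_norm ec_cont uu integrable_uu)

lemma ms_nt (k x : ℝ) {T : ℝ} (hT : 0 < T) (w : ℕ → ℝ) (N : ℕ) :
    ms' (2 * k) x T (WW w N) = (2 * x) ^ (k ^ 2) * At T (fun ω => ‖WS w N ω‖ ^ (2 * k)) := by
  unfold ms' At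
  rw [integral_Icc_eq_integral_Ioc, ← intervalIntegral.integral_of_le hT.le]
  have e1 : 2 * k / 2 = k := by ring
  simp_rw [WW_fl]
  rw [e1]
  ring

lemma At_lim {k : ℝ} (hk : 0 < k) (w : ℕ → ℝ) (N : ℕ) : Tendsto (fun T : ℝ => At T (fun ω => ‖WS w N ω‖ ^ (2 * k))) atTop (𝓝 (mk k (WS w N))) := by
  have h := (WW_WS w N).pow (β := 2 * k) (by positivity)
  refine h.congr fun T => ?_
  unfold At
  simp_rw [WW_fl]

lemma nt_lim0 {k : ℝ} (hk : 0 < k) (x : ℝ) (w : ℕ → ℝ) (N : ℕ) : Tendsto (fun T : ℝ => nt k x T (WS w N)) atTop (𝓝 (nr k x (WS w N))) := by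
  unfold nt nr
  exact ((At_lim hk w N).const_mul _).rpow_const (Or.inr (kp_pos hk).le)

/-- high exponents -/
theorem near_hi' {k : ℝ} (hk : 1 ≤ k) {e : ℝ} (he : 0 < e) : ∃ e1 : ℝ, 0 < e1 ∧ ∀ η : ℝ, 0 < η → η ≤ 1 / 2 → (∀ᶠ x : ℝ in 𝓝[>] 0, nr k x (Ig (be η) x) ≤ e1) →
    ∀ᶠ N : ℕ in atTop, nr k (xN N) (WS (fun n => be η (xN N * Real.log n)) N) ≤ e := by
  have hk0 : 0 < k := by linarith
  obtain ⟨C, hC, htr⟩ := trf (p := 2 * k) (by linarith)
  have hkp := kp_pos hk0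
  obtain ⟨e1, he1⟩ : ∃ e1 : ℝ, e1 = (e ^ (1 / kp k) / (2 * C)) ^ kp k := ⟨_, rfl⟩
  have he10 : 0 < e1 := by rw [he1]; positivity
  refine ⟨e1, he10, fun η hη hη2 hbe => ?_⟩
  have hlim2 : Tendsto (fun x : ℝ => (2 * x) ^ (k ^ 2)) (𝓝[>] 0) (𝓝 0) := by
    have h2 : Tendsto (fun x : ℝ => (2 * x) ^ (k ^ 2)) (𝓝 0) (𝓝 ((2 * 0) ^ (k ^ 2))) :=
      Tendsto.rpow_const (tendsto_id.const_mul 2) (Or.inr (by positivity))
    rw [mul_zero, Real.zero_rpow (by positivity)] at h2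
    exact h2.mono_left nhdsWithin_le_nhds
  have hpos : 0 < e ^ (1 / kp k) / (2 * C) := by positivity
  have hsm : ∀ᶠ x : ℝ in 𝓝[>] 0, x < 1 / 2 := by
    filter_upwards [Ioo_mem_nhdsGT (show (0:ℝ) < 1 / 2 by norm_num)] with x hx
    exact hx.2
  filter_upwards [xN_lim.eventually hbe, xN_lim.eventually (hlim2.eventually (gt_mem_nhds hpos)), xN_lim.eventually hsm, eventually_ge_atTop 3] with N h1 h2 h3 hN
  have hx := xN_pos hN
  have e3 : Ig (be η) (xN N) = WS (fun n => be η (xN N * Real.log n)) (N ^ 2) := by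
    funext ω
    refine Ig_WS (be_Sm hη) (B := 1 + η) hx (by nlinarith) (fun u hu => be_zero hη hu) ?_ ω
    have h4 : Real.exp ((1 + η) / xN N) ≤ Real.exp (1 / xN N) ^ 2 := by
      rw [← Real.exp_nat_mul]
      refine Real.exp_le_exp.mpr ?_
      rw [div_le_iff₀ hx]
      push_cast
      field_simp
      linarith
    rw [exp_xN hN] at h4
    push_cast
    exact h4
  rw [e3] at h1
  have h5 := htr N (N ^ 2) (by omega) (Nat.le_self_pow (by norm_num) N) (fun n => be η (xN N * Real.log n)) (fun n => be_abs _ _)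
  have h6 : (2 * xN N) ^ (k ^ 2) * mk k (WS (fun n => be η (xN N * Real.log n)) (N ^ 2)) ≤ e ^ (1 / kp k) / (2 * C) := by
    have h7 := Real.rpow_le_rpow (nr_nonneg hx.le _) h1 (show 0 ≤ 1 / kp k by positivity)
    unfold nr at h7
    rw [← Real.rpow_mul (mul_nonneg (by positivity) (mk_nonneg _ _)), mul_one_div_cancel hkp.ne', Real.rpow_one, he1, ← Real.rpow_mul hpos.le, mul_one_div_cancel hkp.ne', Real.rpow_one] at h7
    exact h7
  have h8 : (2 * xN N) ^ (k ^ 2) * mk k (WS (fun n => be η (xN N * Real.log n)) N) ≤ e ^ (1 / kp k) := by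
    have h9 : mk k (WS (fun n => be η (xN N * Real.log n)) N) ≤ C * (mk k (WS (fun n => be η (xN N * Real.log n)) (N ^ 2)) + 1) := h5
    have h10 := mul_le_mul_of_nonneg_left h9 (show 0 ≤ (2 * xN N) ^ (k ^ 2) by positivity)
    refine h10.trans ?_
    have h11 : C * ((2 * xN N) ^ (k ^ 2) * mk k (WS (fun n => be η (xN N * Real.log n)) (N ^ 2)) + (2 * xN N) ^ (k ^ 2)) ≤ C * (e ^ (1 / kp k) / (2 * C) + e ^ (1 / kp k) / (2 * C)) :=
      mul_le_mul_of_nonneg_left (add_le_add h6 h2.le) hC.le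
    refine le_trans (le_of_eq (by ring)) (h11.trans (le_of_eq ?_))
    field_simp
    norm_num
  unfold nr
  refine (Real.rpow_le_rpow (mul_nonneg (by positivity) (mk_nonneg _ _)) h8 hkp.le).trans (le_of_eq ?_)
  rw [← Real.rpow_mul he.le, one_div_mul_cancel hkp.ne', Real.rpow_one]

lemma Ok.ge3 {N : ℝ → ℕ} (h : Ok N) : ∀ᶠ T in atTop, 3 ≤ N T := h.1.eventually_ge_atTop 3

lemma Ok.xN {N : ℝ → ℕ} (h : Ok N) : Tendsto (fun T => xN (N T)) atTop (𝓝[>] 0) := xN_lim.comp h.1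

lemma Ok.exp {N : ℝ → ℕ} (h : Ok N) (C : ℝ) (hC : 0 < C) : ∀ᶠ T in atTop, Real.exp (C * Real.log (N T)) ≤ T := by
  filter_upwards [h.2.eventually (gt_mem_nhds (show (0:ℝ) < 1 / C by positivity)), eventually_gt_atTop 1] with T h1 h2
  have h3 : 0 < Real.log T := Real.log_pos h2
  rw [div_lt_div_iff₀ h3 hC] at h1
  calc Real.exp (C * Real.log (N T)) ≤ Real.exp (Real.log T) := Real.exp_le_exp.mpr (by linarith)
    _ = T := Real.exp_log (by linarith)

theorem near_T_hi {k : ℝ} (hk : 1 ≤ k) {e : ℝ} (he : 0 < e) : ∃ e1 : ℝ, 0 < e1 ∧ ∀ η : ℝ, 0 < η → η ≤ 1 / 2 → (∀ᶠ x : ℝ in 𝓝[>] 0, nr k x (Ig (be η) x) ≤ e1) →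
    ∀ {N : ℝ → ℕ}, Ok N → ∀ᶠ T in atTop, nt k (xN (N T)) T (WS (fun n => be η (xN (N T) * Real.log n)) (N T)) ≤ e := by
  have hk0 : 0 < k := by linarith
  obtain ⟨C, hC, hcut⟩ := cut_bd (β := 2 * k) (by linarith)
  have hkp := kp_pos hk0
  obtain ⟨E, hE⟩ : ∃ E : ℝ, E = e ^ (1 / kp k) / (5 * C) := ⟨_, rfl⟩
  have hE0 : 0 < E := by rw [hE]; positivity
  refine ⟨E ^ kp k / 2, by positivity, fun η hη hη2 hbe {N} hN => ?_⟩
  have hhalf : Tendsto (fun T : ℝ => T / 2) atTop atTop := tendsto_id.atTop_div_const (by norm_num)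
  have htwo : Tendsto (fun T : ℝ => 2 * T) atTop atTop := tendsto_id.const_mul_atTop (by norm_num)
  have hs := smooth_T hk0 (be_Sm hη) (B := 2) (fun u hu => be_zero hη (by linarith)) (x := fun T => xN (N (T / 2))) (hN.xN.comp hhalf) (by
    have h1 := hN.delL.comp hhalf
    refine tendsto_atTop_mono' _ ?_ h1
    filter_upwards [(hN.log.comp hhalf).eventually_gt_atTop 0, eventually_gt_atTop 2] with T h2 h3
    show 1 / Real.log (N (T / 2)) * Real.log (T / 2) ≤ 1 / Real.log (N (T / 2)) * Real.log T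
    have h4 : 0 < Real.log (N (T / 2)) := h2
    exact mul_le_mul_of_nonneg_left (Real.log_le_log (by linarith) (by linarith)) (by positivity))
  have hs2 := (hs.comp htwo).eventually (gt_mem_nhds (show 0 < E ^ kp k / 2 by positivity))
  have hx0 := hN.xN
  have hδ2 : Tendsto (fun T : ℝ => (2 * xN (N T)) ^ (k ^ 2)) atTop (𝓝 0) := by
    have h1 : Tendsto (fun T : ℝ => (2 * xN (N T)) ^ (k ^ 2)) atTop (𝓝 ((2 * 0) ^ (k ^ 2))) :=
      ((hx0.mono_right nhdsWithin_le_nhds).const_mul 2).rpow_const (Or.inr (by positivity))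
    rwa [mul_zero, Real.zero_rpow (by positivity)] at h1
  have hsm : ∀ᶠ x : ℝ in 𝓝[>] 0, x < 1 / 2 := by
    filter_upwards [Ioo_mem_nhdsGT (show (0:ℝ) < 1 / 2 by norm_num)] with x hx
    exact hx.2
  filter_upwards [hcut hN, hs2, hδ2.eventually (gt_mem_nhds hE0), hx0.eventually hsm, hx0.eventually hbe, hN.ge3, eventually_gt_atTop 0] with T h1 h2 h3 h4 h5 h6 hT
  have hx := xN_pos h6
  have h7 := h1 (fun n => be η (xN (N T) * Real.log n)) fun n => be_abs _ _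
  have e1 : 1 / Real.log (N T) = xN (N T) := rfl
  have e2 : 2 * k / 2 = k := by ring
  rw [e1, e2, ms_nt k _ hT, ms_nt k _ (by linarith)] at h7
  have e3 : (2 * T) / 2 = T := by ring
  have h2' : nt k (xN (N (2 * T / 2))) (2 * T) (Ig (be η) (xN (N (2 * T / 2)))) - nr k (xN (N (2 * T / 2))) (Ig (be η) (xN (N (2 * T / 2)))) < E ^ kp k / 2 := h2
  rw [e3] at h2'
  have h8 : nt k (xN (N T)) (2 * T) (Ig (be η) (xN (N T))) ≤ E ^ kp k := by linarith
  have e4 : Ig (be η) (xN (N T)) = WS (fun n => be η (xN (N T) * Real.log n)) (N T ^ 2) := by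
    funext ω
    refine Ig_WS (be_Sm hη) (B := 2) hx (by linarith) (fun u hu => be_zero hη (by linarith)) ?_ ω
    have h9 : Real.exp (2 / xN (N T)) = (N T : ℝ) ^ 2 := by
      rw [← exp_xN h6, ← Real.exp_nat_mul]
      congr 1
      push_cast
      ring
    push_cast
    exact h9.le
  rw [e4] at h8
  unfold nt at h8
  have hA0 := mul_nonneg (show 0 ≤ (2 * xN (N T)) ^ (k ^ 2) by positivity) (Ak_nonneg k (show 0 < 2 * T by linarith) (WS (fun n => be η (xN (N T) * Real.log n)) (N T ^ 2)))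
  have h10 := (Real.rpow_le_rpow_iff hA0 hE0.le hkp).mp h8
  unfold nt
  have h11 : (2 * xN (N T)) ^ (k ^ 2) * At T (fun ω => ‖WS (fun n => be η (xN (N T) * Real.log n)) (N T) ω‖ ^ (2 * k)) ≤ e ^ (1 / kp k) := by
    refine h7.trans ?_
    have h12 : C * (4 * ((2 * xN (N T)) ^ (k ^ 2) * At (2 * T) (fun ω => ‖WS (fun n => be η (xN (N T) * Real.log n)) (N T ^ 2) ω‖ ^ (2 * k))) + (2 * xN (N T)) ^ (k ^ 2)) ≤ C * (4 * E + E) :=
      mul_le_mul_of_nonneg_left (by linarith) hC.le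
    refine h12.trans (le_of_eq ?_)
    rw [hE]
    field_simp
    norm_num
  refine (Real.rpow_le_rpow (mul_nonneg (by positivity) (Ak_nonneg k hT _)) h11 hkp.le).trans (le_of_eq ?_)
  rw [← Real.rpow_mul he.le, one_div_mul_cancel hkp.ne', Real.rpow_one]

theorem near_both {k : ℝ} (hk : 0 < k) {e : ℝ} (he : 0 < e) : ∃ η : ℝ, 0 < η ∧ η ≤ 1 / 2 ∧
    (∀ᶠ N : ℕ in atTop, nr k (xN N) (WS (fun n => be η (xN N * Real.log n)) N) ≤ e) ∧
    ∀ {N : ℝ → ℕ}, Ok N → ∀ᶠ T in atTop, nt k (xN (N T)) T (WS (fun n => be η (xN (N T) * Real.log n)) (N T)) ≤ e := by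
  rcases le_or_gt 1 k with h | h
  · obtain ⟨e1, he1, h1⟩ := near_hi' h he
    obtain ⟨e2, he2, h2⟩ := near_T_hi h he
    obtain ⟨η, hη, hη2, hbe⟩ := be_nr h (lt_min he1 he2)
    exact ⟨η, hη, hη2, h1 η hη hη2 (hbe.mono fun x hx => hx.trans (min_le_left _ _)), h2 η hη hη2 (hbe.mono fun x hx => hx.trans (min_le_right _ _))⟩
  · obtain ⟨η, hη, hη2, C', hC', hev⟩ := near_T_lo hk h he
    refine ⟨η, hη, hη2, ?_, fun {N} hN => ?_⟩
    · filter_upwards [hev] with N hN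
      refine le_of_tendsto (nt_lim0 hk (xN N) (fun n => be η (xN N * Real.log n)) N) ?_
      filter_upwards [eventually_gt_atTop 0, eventually_ge_atTop (Real.exp (C' * Real.log N))] with T hT hT2
      exact hN T hT hT2
    · filter_upwards [hN.1.eventually hev, hN.exp C' hC', eventually_gt_atTop 0] with T h1 h2 h3
      exact h1 T h3 h2

/-- the limit of the norms -/
theorem nt_SS {k : ℝ} (hk : 0 < k) : ∃ v : ℝ, 0 < v ∧ ∀ {N : ℝ → ℕ}, Ok N → Tendsto (fun T => nt k (xN (N T)) T (SS (N T))) atTop (𝓝 v) := by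
  obtain ⟨v, hv, hlim⟩ := nr_SS hk
  refine ⟨v, hv, fun {N} hN => ?_⟩
  have h0 : Tendsto (fun T => nt k (xN (N T)) T (SS (N T)) - nr k (xN (N T)) (SS (N T))) atTop (𝓝 0) := by
    rw [Metric.tendsto_nhds]
    intro e he
    obtain ⟨η, hη, hη2, hn1, hn2⟩ := near_both hk (show 0 < e / 4 by positivity)
    have hs := smooth_T hk (fi_Sm hη) (B := 1) (fun u hu => fi_zero hη (by linarith)) hN.xN hN.delL
    rw [Metric.tendsto_nhds] at hs
    filter_upwards [hs (e / 4) (by positivity), hN.1.eventually hn1, hn2 hN, hN.ge3, eventually_gt_atTop 0] with T h1 h2 h3 h4 hT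
    have hx := xN_pos h4
    rw [Real.dist_eq, sub_zero] at h1 ⊢
    have hcS : CC (SS (N T)) := WS_cc _ _
    have hcI : CC (Ig (fi η) (xN (N T))) := (Ig_sp (fi_Sm hη) hx (xN_le h4) fun u hu => fi_zero hη (by linarith)).cc
    have e1 : (fun ω => SS (N T) ω - Ig (fi η) (xN (N T)) ω) = WS (fun n => be η (xN (N T) * Real.log n)) (N T) := funext fun ω => SS_sub h4 hη ω
    have h5 := nt_sub hk hx.le hT hcS hcI
    have h6 := nr_sub hk hx.le (SS_gd (N T)) hcI.gd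
    rw [e1] at h5 h6
    have h7 := h5.trans h3
    have h8 := h6.trans h2
    rw [abs_le] at h7 h8
    rw [abs_lt] at h1 ⊢
    constructor <;> linarith [h7.1, h7.2, h8.1, h8.2, h1.1, h1.2]
  have h1 := h0.add (hlim.comp hN.1)
  rw [zero_add] at h1
  refine h1.congr fun T => ?_
  simp [Function.comp]

theorem At_SS {k : ℝ} (hk : 0 < k) : ∃ c : ℝ, 0 < c ∧ ∀ {N : ℝ → ℕ}, Ok N → Tendsto (fun T => At T (fun ω => ‖SS (N T) ω‖ ^ (2 * k)) / Real.log (N T) ^ (k ^ 2)) atTop (𝓝 c) := by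
  obtain ⟨v, hv, hlim⟩ := nt_SS hk
  have hkp := kp_pos hk
  refine ⟨v ^ (1 / kp k) / 2 ^ (k ^ 2), by positivity, fun {N} hN => ?_⟩
  have h1 := ((hlim hN).rpow_const (p := 1 / kp k) (Or.inr (by positivity))).div_const (2 ^ (k ^ 2))
  refine h1.congr' ?_
  filter_upwards [hN.ge3, eventually_gt_atTop 0] with T h2 hT
  have hx := xN_pos h2
  unfold nt
  rw [← Real.rpow_mul (mul_nonneg (by positivity) (Ak_nonneg k hT _)), mul_one_div_cancel hkp.ne', Real.rpow_one]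
  unfold xN
  have h3 : 0 < Real.log (N T) := by
    have := log_N h2
    linarith
  rw [mul_one_div, Real.div_rpow (by norm_num) h3.le]
  have h6 : (2 : ℝ) ^ (k ^ 2) ≠ 0 := (Real.rpow_pos_of_pos (by norm_num) _).ne'
  have h7 : Real.log (N T) ^ (k ^ 2) ≠ 0 := (Real.rpow_pos_of_pos h3 _).ne'
  field_simp

end Pool.Agent.H470
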