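import Pool.Agent.H470.Wa30

set_option autoImplicit false

/-! Uniform form of the limits. -/

namespace Pool.Agent.H470

open MeasureTheory Filter Topology ProbabilityTheory Set

lemma logfl_le {T : ℝ} (hT : 1 < Real.log T) : Real.log (⌊Real.log T⌋₊ : ℕ) ≤ Real.log (Real.log T) := by
  have h1 : 1 ≤ ⌊Real.log T⌋₊ := Nat.le_floor (by push_cast; exact hT.le)
  have h2 : (0:ℝ) < ((⌊Real.log T⌋₊ : ℕ) : ℝ) := by exact_mod_cast h1
  exact Real.log_le_log h2 (Nat.floor_le (by linarith))

/-- from all admissible functions to a uniform statement -/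
theorem unif {F : ℕ → ℝ → ℝ} {c : ℝ} (h : ∀ {N : ℝ → ℕ}, Ok N → Tendsto (fun T => F (N T) T) atTop (𝓝 c)) {ε : ℝ} (hε : 0 < ε) :
    ∃ A : ℕ, ∀ N : ℕ, A ≤ N → ∀ T : ℝ, (N:ℝ) ^ A ≤ T → |F N T - c| ≤ ε := by
  classical
  by_contra hcon
  push Not at hcon
  choose n hn t ht hF using hcon
  obtain ⟨N, hNd⟩ : ∃ N : ℝ → ℕ, ∀ T, N T = if hj : ∃ j, t j = T then n hj.choose else ⌊Real.log T⌋₊ := ⟨_, fun _ => rfl⟩
  have hkey : ∀ B : ℕ, ∀ᶠ T : ℝ in atTop, ∀ j, t j = T → B < j := by
    intro B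
    have h1 : ∀ᶠ T : ℝ in atTop, ∀ j ∈ Finset.range (B + 1), t j < T := by
      rw [Filter.eventually_all_finset]
      exact fun j _ => eventually_gt_atTop _
    filter_upwards [h1] with T hT j hj
    by_contra hc
    have := hT j (Finset.mem_range.mpr (by omega))
    linarith
  have hlog : Tendsto (fun T : ℝ => ⌊Real.log T⌋₊) atTop atTop := tendsto_nat_floor_atTop.comp Real.tendsto_log_atTop
  have hN : Ok N := by
    constructor
    · rw [tendsto_atTop]
      intro B
      filter_upwards [hkey B, hlog.eventually_ge_atTop B] with T h1 h2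
      rw [hNd]
      split_ifs with hj
      · have h3 := h1 _ hj.choose_spec
        have h4 := hn hj.choose
        omega
      · exact h2
    · have hll : Tendsto (fun T : ℝ => Real.log (Real.log T) / Real.log T) atTop (𝓝 0) :=
        Real.isLittleO_log_id_atTop.tendsto_div_nhds_zero.comp Real.tendsto_log_atTop
      rw [Metric.tendsto_nhds]
      intro δ hδ
      obtain ⟨B, hB⟩ := exists_nat_gt (1 / δ)
      have hB0 : (0:ℝ) < B := (show (0:ℝ) < 1 / δ by positivity).trans hB
      filter_upwards [hkey B, hll.eventually (gt_mem_nhds hδ), Real.tendsto_log_atTop.eventually_gt_atTop 1, eventually_gt_atTop 1] with T h1 h2 h3 h4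
      have hT0 : 0 < Real.log T := by linarith
      have hnn : 0 ≤ Real.log (N T) / Real.log T := div_nonneg (Real.log_natCast_nonneg _) hT0.le
      rw [Real.dist_eq, sub_zero, abs_of_nonneg hnn]
      rw [hNd]
      split_ifs with hj
      · obtain ⟨i, hi⟩ : ∃ i, i = hj.choose := ⟨_, rfl⟩
        have h5 := hj.choose_spec
        rw [← hi] at h5 ⊢
        have h6 := h1 i h5
        have h7 := ht i
        rw [h5] at h7
        have hi1 : 1 ≤ n i := le_trans (by omega) (hn i)
        have hni : (0:ℝ) < n i := by exact_mod_cast hi1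
        have h8 := Real.log_le_log (by positivity) h7
        rw [Real.log_pow] at h8
        have hiB : (B:ℝ) < i := by exact_mod_cast h6
        have hl0 : 0 ≤ Real.log (n i) := Real.log_natCast_nonneg _
        rw [div_lt_iff₀ hT0]
        have h9 : (B:ℝ) * Real.log (n i) ≤ Real.log T := (mul_le_mul_of_nonneg_right hiB.le hl0).trans h8
        have h10 : 1 < δ * B := by rwa [div_lt_iff₀ hδ, mul_comm] at hB
        rcases hl0.eq_or_lt with h11 | h11
        · rw [← h11]; positivity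
        · nlinarith
      · refine lt_of_le_of_lt ?_ h2
        exact div_le_div_of_nonneg_right (logfl_le h3) hT0.le
  have hlim := h hN
  rw [Metric.tendsto_nhds] at hlim
  obtain ⟨T0, hT0⟩ := Filter.eventually_atTop.mp (hlim ε hε)
  obtain ⟨j, hj⟩ := exists_nat_gt (max T0 1)
  have hj0 : T0 < j := (le_max_left _ _).trans_lt hj
  have hj1 : (1:ℝ) < j := (le_max_right _ _).trans_lt hj
  have hj1' : 1 < j := by exact_mod_cast hj1
  have htj : T0 ≤ t j := by
    have h1 := ht j
    have h2 : (j:ℝ) ≤ (n j : ℝ) ^ j := by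
      have h3 : j ≤ n j := hn j
      have h4 : n j ≤ n j ^ j := Nat.le_self_pow (by omega) _
      exact_mod_cast h3.trans h4
    linarith
  have h5 := hT0 (t j) htj
  have hex : ∃ i, t i = t j := ⟨j, rfl⟩
  rw [hNd, dif_pos hex, Real.dist_eq] at h5
  have h6 := hF hex.choose
  have h7 := hex.choose_spec
  rw [h7] at h6
  linarith

theorem At_unif {k : ℝ} (hk : 0 < k) : ∃ c : ℝ, 0 < c ∧ ∀ ε : ℝ, 0 < ε → ∃ A : ℕ, ∀ N : ℕ, A ≤ N → ∀ T : ℝ, (N:ℝ) ^ A ≤ T →
    |At T (fun ω => ‖SS N ω‖ ^ (2 * k)) / Real.log N ^ (k ^ 2) - c| ≤ ε := by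
  obtain ⟨c, hc, h⟩ := At_SS hk
  exact ⟨c, hc, fun ε hε => unif (F := fun N T => At T (fun ω => ‖SS N ω‖ ^ (2 * k)) / Real.log N ^ (k ^ 2)) (fun {N} hN => h hN) hε⟩

end Pool.Agent.H470
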