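import Pool.Agent.H470.Wa3

set_option autoImplicit false

/-! Blocks of primes and tilted expectations. -/

namespace Pool.Agent.H470

open MeasureTheory Filter Topology ProbabilityTheory Set
open scoped ENNReal
open Pool.Agent.TH806 (ec ec_norm ec_cont uu integrable_uu)

/-- the index of the block of a prime -/
noncomputable def bi (L : ℝ) (p : ℕ) : ℕ := ⌊Real.log (L / Real.log p)⌋₊

noncomputable def PL (L : ℝ) : ℕ := ⌊Real.exp L⌋₊

noncomputable def bk (L : ℝ) (a : ℕ) : Finset ℕ := (pr (PL L)).filter fun p => bi L p = a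

noncomputable def NB (L : ℝ) : ℕ := ⌊2 * L⌋₊ + 1

lemma PL_log {L : ℝ} {p : ℕ} (hp : p ∈ pr (PL L)) : 0 < Real.log p ∧ Real.log 2 ≤ Real.log p ∧ Real.log p ≤ L := by
  have h2 : (2:ℝ) ≤ p := by exact_mod_cast pr_two hp
  have h3 : (p:ℝ) ≤ Real.exp L := by
    have h4 : ((PL L : ℕ) : ℝ) ≤ Real.exp L := Nat.floor_le (Real.exp_pos L).le
    exact le_trans (by exact_mod_cast pr_le hp) h4
  refine ⟨Real.log_pos (by linarith), Real.log_le_log (by norm_num) h2, ?_⟩
  rw [Real.log_le_iff_le_exp (by linarith)]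
  exact h3

lemma bk_sub (L : ℝ) (a : ℕ) : bk L a ⊆ pr (PL L) := Finset.filter_subset _ _

lemma bk_two {L : ℝ} {a p : ℕ} (hp : p ∈ bk L a) : 2 ≤ p := pr_two (bk_sub L a hp)

lemma bk_log {L : ℝ} {a p : ℕ} (hp : p ∈ bk L a) : Real.log p ≤ L * Real.exp (-a) ∧ L * Real.exp (-(a + 1)) < Real.log p := by
  obtain ⟨h1, h2, h3⟩ := PL_log (bk_sub L a hp)
  have h4 : bi L p = a := (Finset.mem_filter.mp hp).2
  have hL : 0 < L := h1.trans_le h3
  have h5 : 0 ≤ Real.log (L / Real.log p) := Real.log_nonneg (by rw [le_div_iff₀ h1]; linarith)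
  have h6 : (a:ℝ) ≤ Real.log (L / Real.log p) := by
    rw [← h4]
    exact Nat.floor_le h5
  have h7 : Real.log (L / Real.log p) < a + 1 := by
    rw [← h4]
    exact Nat.lt_floor_add_one _
  have h8 : 0 < L / Real.log p := by positivity
  rw [Real.le_log_iff_exp_le h8, le_div_iff₀ h1] at h6
  rw [Real.log_lt_iff_lt_exp h8, div_lt_iff₀ h1] at h7
  constructor
  · rw [Real.exp_neg, ← div_eq_mul_inv, le_div_iff₀ (Real.exp_pos _)]
    linarith
  · rw [Real.exp_neg, ← div_eq_mul_inv, div_lt_iff₀ (Real.exp_pos _)]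
    linarith

lemma bi_lt {L : ℝ} {p : ℕ} (hp : p ∈ pr (PL L)) : bi L p < NB L := by
  obtain ⟨h1, h2, h3⟩ := PL_log hp
  have hL : 0 < L := h1.trans_le h3
  unfold bi NB
  rw [Nat.lt_succ_iff]
  refine Nat.floor_le_floor ?_
  have h4 := Real.log_le_sub_one_of_pos (show 0 < L / Real.log p by positivity)
  have h5 : L / Real.log p ≤ 2 * L := by
    rw [div_le_iff₀ h1]
    have := Real.log_two_gt_d9
    nlinarith
  linarith

lemma bk_disj (L : ℝ) {a b : ℕ} (h : a ≠ b) : Disjoint (bk L a) (bk L b) := by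
  rw [Finset.disjoint_left]
  intro p hp hq
  exact h ((Finset.mem_filter.mp hp).2.symm.trans (Finset.mem_filter.mp hq).2)

lemma bk_sum {M : Type*} [AddCommMonoid M] (L : ℝ) (f : ℕ → M) : ∑ a ∈ Finset.range (NB L), ∑ p ∈ bk L a, f p = ∑ p ∈ pr (PL L), f p :=
  Finset.sum_fiberwise_of_maps_to (fun _ hp => Finset.mem_range.mpr (bi_lt hp)) f

/-- the blocks are short -/
theorem bk_inv : ∃ C : ℝ, 0 < C ∧ ∀ (L : ℝ) (a : ℕ), ∑ p ∈ bk L a, (1:ℝ) / p ≤ C := by
  obtain ⟨C, hC⟩ := Pool.Agent.Helper256.KM.mertens_inv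
  have hC0 : 0 ≤ C := (abs_nonneg _).trans (hC 3 le_rfl)
  refine ⟨2 * C + 24, by positivity, fun L a => ?_⟩
  obtain ⟨u, hu⟩ : ∃ u : ℝ, u = L * Real.exp (-(a + 1)) := ⟨_, rfl⟩
  have hu2 : L * Real.exp (-a) = u * Real.exp 1 := by
    rw [hu, mul_assoc, ← Real.exp_add]
    congr 2
    ring
  obtain ⟨n, hn⟩ : ∃ n : ℕ, n = ⌊Real.exp (u * Real.exp 1)⌋₊ := ⟨_, rfl⟩
  obtain ⟨m, hm⟩ : ∃ m : ℕ, m = ⌊Real.exp u⌋₊ := ⟨_, rfl⟩
  have he : Real.exp 1 < 2.7182818286 := Real.exp_one_lt_d9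
  have he0 : 0 < Real.exp 1 := Real.exp_pos 1
  have hsub : bk L a ⊆ pr n := by
    intro p hp
    have h1 := (bk_log hp).1
    rw [hu2] at h1
    have hpp := pr_prime (bk_sub L a hp)
    have hp0 : (0:ℝ) < p := by exact_mod_cast hpp.pos
    rw [Real.log_le_iff_le_exp hp0] at h1
    unfold pr
    rw [Finset.mem_filter, Finset.mem_Icc, hn]
    exact ⟨⟨hpp.one_le, Nat.le_floor h1⟩, hpp⟩
  rcases lt_or_ge m 3 with hm3 | hm3
  · have h1 : Real.exp u < 3 := by
      have := Nat.lt_floor_add_one (Real.exp u)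
      rw [← hm] at this
      have h3 : (m:ℝ) + 1 ≤ 3 := by exact_mod_cast (by omega : m + 1 ≤ 3)
      linarith
    have h2 : u < 1.1 := by
      by_contra hcon
      rw [not_lt] at hcon
      have h3 := Real.exp_le_exp.mpr hcon
      have h4 : (3:ℝ) < Real.exp 1.1 := by
        have h5 : Real.exp 1.1 = Real.exp 1 * Real.exp 0.1 := by rw [← Real.exp_add]; norm_num
        have h6 := Real.add_one_le_exp (0.1:ℝ)
        have h7 : 2.7182818283 < Real.exp 1 := Real.exp_one_gt_d9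
        have h8 := Real.quadratic_le_exp_of_nonneg (show (0:ℝ) ≤ 0.1 by norm_num)
        rw [h5]
        nlinarith
      linarith
    have h3 : Real.exp (u * Real.exp 1) ≤ 21 := by
      have h4 : u * Real.exp 1 ≤ 3 := by nlinarith
      refine (Real.exp_le_exp.mpr h4).trans ?_
      have h5 : Real.exp 3 = Real.exp 1 ^ 3 := by rw [← Real.exp_nat_mul]; norm_num
      rw [h5]
      have h6 := pow_le_pow_left₀ he0.le he.le 3
      refine h6.trans (by norm_num)
    have hn21 : n ≤ 21 := by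
      have h4 : ((n:ℕ):ℝ) ≤ 21 := by
        rw [hn]
        exact (Nat.floor_le (Real.exp_pos _).le).trans h3
      exact_mod_cast h4
    have h4 : ∑ p ∈ bk L a, (1:ℝ) / p ≤ ∑ p ∈ pr n, 1 := by
      refine (Finset.sum_le_sum_of_subset_of_nonneg hsub fun p _ _ => by positivity).trans (Finset.sum_le_sum fun p hp => ?_)
      have : (1:ℝ) ≤ p := by exact_mod_cast (pr_prime hp).one_le
      rw [div_le_one (by linarith)]
      exact this
    refine h4.trans ?_
    rw [Finset.sum_const, nsmul_eq_mul, mul_one]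
    have h5 : ((pr n).card : ℝ) ≤ 21 := by
      have h6 : (pr n).card ≤ n := by
        unfold pr
        refine (Finset.card_filter_le _ _).trans ?_
        rw [Nat.card_Icc]
        omega
      exact_mod_cast h6.trans hn21
    linarith
  · have h1 : (3:ℝ) ≤ Real.exp u := by
      have h2 : (m:ℝ) ≤ Real.exp u := by rw [hm]; exact Nat.floor_le (Real.exp_pos u).le
      have h3 : (3:ℝ) ≤ m := by exact_mod_cast hm3
      linarith
    have hu1 : 1 ≤ u := by
      by_contra hcon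
      rw [not_le] at hcon
      have := Real.exp_lt_exp.mpr hcon
      linarith
    have hmn : pr m ⊆ pr n := by
      refine pr_mono ?_
      rw [hm, hn]
      refine Nat.floor_le_floor (Real.exp_le_exp.mpr ?_)
      nlinarith [Real.add_one_le_exp (1:ℝ)]
    have hsub2 : bk L a ⊆ pr n \ pr m := by
      intro p hp
      rw [Finset.mem_sdiff]
      refine ⟨hsub hp, fun hcon => ?_⟩
      have h2 := (bk_log hp).2
      rw [← hu] at h2
      have hp0 : (0:ℝ) < p := by exact_mod_cast (pr_prime (bk_sub L a hp)).pos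
      rw [Real.lt_log_iff_exp_lt hp0] at h2
      have h3 : (p:ℝ) ≤ m := by exact_mod_cast pr_le hcon
      have h4 : (m:ℝ) ≤ Real.exp u := by rw [hm]; exact Nat.floor_le (Real.exp_pos u).le
      linarith
    have hn3 : 3 ≤ n := by
      rw [hn]
      refine hm3.trans ?_
      rw [hm]
      refine Nat.floor_le_floor (Real.exp_le_exp.mpr ?_)
      nlinarith [Real.add_one_le_exp (1:ℝ)]
    have h2 := (abs_le.mp (hC n hn3)).2
    have h3 := (abs_le.mp (hC m hm3)).1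
    have h4 : ∑ p ∈ pr n \ pr m, (1:ℝ) / p + ∑ p ∈ pr m, (1:ℝ) / p = ∑ p ∈ pr n, (1:ℝ) / p := Finset.sum_sdiff hmn
    have h5 : ∑ p ∈ bk L a, (1:ℝ) / p ≤ ∑ p ∈ pr n \ pr m, (1:ℝ) / p := Finset.sum_le_sum_of_subset_of_nonneg hsub2 fun p _ _ => by positivity
    have hln : Real.log n ≤ u * Real.exp 1 := by
      have hn0 : (0:ℝ) < n := by exact_mod_cast (by omega : 0 < n)
      rw [Real.log_le_iff_le_exp hn0, hn]
      exact Nat.floor_le (Real.exp_pos _).le
    have hlm : u / 4 ≤ Real.log m := by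
      have hm0 : (0:ℝ) < m := by exact_mod_cast (by omega : 0 < m)
      have h6 : Real.exp u / 2 ≤ m := by
        have := Nat.lt_floor_add_one (Real.exp u)
        rw [← hm] at this
        linarith
      have h7 := Real.log_le_log (by positivity) h6
      rw [Real.log_div (Real.exp_pos u).ne' (by norm_num), Real.log_exp] at h7
      have := Real.log_two_lt_d9
      nlinarith
    have h6 : Real.log (Real.log n) ≤ Real.log (Real.log m) + 3 := by
      have hlm0 : 0 < Real.log m := by linarith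
      have hln0 : 0 < Real.log n := Real.log_pos (by exact_mod_cast (by omega : 1 < n))
      have h7 : Real.log n ≤ Real.log m * 11 := by nlinarith
      have h8 := Real.log_le_log hln0 h7
      rw [Real.log_mul hlm0.ne' (by norm_num)] at h8
      have h9 : Real.log 11 ≤ 3 := by
        rw [Real.log_le_iff_le_exp (by norm_num)]
        have h10 : Real.exp 3 = Real.exp 1 ^ 3 := by rw [← Real.exp_nat_mul]; norm_num
        rw [h10]
        have h11 : 2.7182818283 < Real.exp 1 := Real.exp_one_gt_d9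
        have h12 := pow_le_pow_left₀ (by norm_num) h11.le 3
        refine le_trans (by norm_num) h12
      linarith
    unfold pr at h4 h5
    linarith

lemma Dep.mono {I J : Finset ℕ} (h : I ⊆ J) {A : (ℕ → ℝ) → ℝ} (hA : Dep I A) : Dep J A := fun ω ω' hω => hA ω ω' fun p hp => hω p (h hp)

lemma Dep.prod {I : Finset ℕ} {α : Type*} (s : Finset α) {f : α → (ℕ → ℝ) → ℝ} (h : ∀ i ∈ s, Dep I (f i)) : Dep I (fun ω => ∏ i ∈ s, f i ω) :=
  fun ω ω' hω => Finset.prod_congr rfl fun i hi => h i hi ω ω' hω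

lemma Dep.mul {I : Finset ℕ} {f g : (ℕ → ℝ) → ℝ} (hf : Dep I f) (hg : Dep I g) : Dep I (fun ω => f ω * g ω) := by
  intro ω ω' hω
  simp only
  rw [hf ω ω' hω, hg ω ω' hω]

/-- independence over the blocks -/
lemma prod_dep (L : ℝ) {g : ℕ → (ℕ → ℝ) → ℝ} (hm : ∀ b, Measurable (g b)) (hd : ∀ b, Dep (bk L b) (g b)) (B : ℕ) :
    ∫ ω, ∏ b ∈ Finset.range B, g b ω ∂tm = ∏ b ∈ Finset.range B, ∫ ω, g b ω ∂tm := by
  classical
  induction B with
  | zero => simp
  | succ B ih =>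
    simp only [Finset.prod_range_succ]
    have hI : Dep ((Finset.range B).biUnion (bk L)) (fun ω => ∏ b ∈ Finset.range B, g b ω) :=
      Dep.prod _ fun b hb => (hd b).mono (Finset.subset_biUnion_of_mem (bk L) hb)
    have hdj : Disjoint ((Finset.range B).biUnion (bk L)) (bk L B) := by
      rw [Finset.disjoint_biUnion_left]
      intro b hb
      exact bk_disj L (by rw [Finset.mem_range] at hb; omega)
    rw [dep_int hdj (Finset.measurable_fun_prod _ fun b _ => hm b) (hm B) hI (hd B), ih]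

lemma Xs_bk (L x y : ℝ) (ω : ℕ → ℝ) : Xs (pr (PL L)) (sp x y) ω = ∑ b ∈ Finset.range (NB L), Xs (bk L b) (sp x y) ω := by
  unfold Xs
  exact (bk_sum L _).symm

lemma exI_bk (L x : ℝ) {n : ℕ} (α : Fin n → ℂ) (y : Fin n → ℝ) (ω : ℕ → ℝ) :
    exI (pr (PL L)) x α y ω = ∏ b ∈ Finset.range (NB L), exI (bk L b) x α y ω := by
  unfold exI
  rw [← Real.exp_sum, ← Complex.re_sum, Finset.sum_comm]
  congr 2
  refine Finset.sum_congr rfl fun j _ => ?_
  rw [Xs_bk, Finset.mul_sum]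

/-- products under the tilted measure -/
theorem tilt_prod (L : ℝ) {x : ℝ} (hx : 0 ≤ x) {n : ℕ} (α : Fin n → ℂ) (y : Fin n → ℝ) {g : ℕ → (ℕ → ℝ) → ℝ} (hg : ∀ b, RB (g b)) (hd : ∀ b, Dep (bk L b) (g b))
    (h0 : ∀ b ω, 0 ≤ g b ω) {K : ℕ → ℝ} (hK : ∀ b, ∫ ω, exI (bk L b) x α y ω * g b ω ∂tm ≤ K b * ∫ ω, exI (bk L b) x α y ω ∂tm) :
    ∫ ω, exI (pr (PL L)) x α y ω * ∏ b ∈ Finset.range (NB L), g b ω ∂tm ≤ (∏ b ∈ Finset.range (NB L), K b) * ∫ ω, exI (pr (PL L)) x α y ω ∂tm := by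
  have h2 : ∀ b, ∀ p ∈ bk L b, 2 ≤ p := fun b p hp => bk_two hp
  have hec := fun b => (exI_cont (h2 b) hx α y).measurable
  simp_rw [exI_bk, ← Finset.prod_mul_distrib]
  rw [prod_dep L (g := fun b ω => exI (bk L b) x α y ω * g b ω) (fun b => (hec b).mul (hg b).1.measurable) (fun b => (exI_dep _ _ _ _).mul (hd b)),
    prod_dep L hec (fun b => exI_dep _ _ _ _), ← Finset.prod_mul_distrib]
  exact Finset.prod_le_prod (fun b _ => integral_nonneg fun ω => mul_nonneg (exI_pos _ _ _ _ _).le (h0 b ω)) fun b _ => hK b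

/-- bounds uniform over the tilted measures -/
def Tb (A x L : ℝ) (f : (ℕ → ℝ) → ℝ) (K : ℝ) : Prop :=
  ∀ (n : ℕ) (α : Fin n → ℂ) (y : Fin n → ℝ), ∑ j, ‖α j‖ ≤ A → ∫ ω, exI (pr (PL L)) x α y ω * f ω ∂tm ≤ K * ∫ ω, exI (pr (PL L)) x α y ω ∂tm

lemma PL_two {L : ℝ} : ∀ p ∈ pr (PL L), 2 ≤ p := fun _ hp => pr_two hp

variable {A x L : ℝ}

lemma exI_ipos {I : Finset ℕ} (hI : ∀ p ∈ I, 2 ≤ p) (hx : 0 ≤ x) {n : ℕ} (α : Fin n → ℂ) (y : Fin n → ℝ) : 0 < ∫ ω, exI I x α y ω ∂tm :=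
  lt_of_lt_of_le one_pos (exI_low hI hx α y)

lemma Tb.mono (hx : 0 ≤ x) {f g : (ℕ → ℝ) → ℝ} (hf : RB f) (hg : RB g) (h : ∀ ω, f ω ≤ g ω) {K : ℝ} (hT : Tb A x L g K) : Tb A x L f K := by
  intro n α y hα
  refine le_trans (integral_mono ((exI_cb PL_two hx α y).mul hf).int ((exI_cb PL_two hx α y).mul hg).int fun ω => ?_) (hT n α y hα)
  exact mul_le_mul_of_nonneg_left (h ω) (exI_pos _ _ _ _ _).le

lemma Tb.le (hx : 0 ≤ x) {f : (ℕ → ℝ) → ℝ} {K K' : ℝ} (hT : Tb A x L f K) (h : K ≤ K') : Tb A x L f K' := fun n α y hα =>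
  (hT n α y hα).trans (mul_le_mul_of_nonneg_right h (exI_ipos PL_two hx α y).le)

lemma Tb.add (hx : 0 ≤ x) {f g : (ℕ → ℝ) → ℝ} (hf : RB f) (hg : RB g) {K K' : ℝ} (hT : Tb A x L f K) (hT' : Tb A x L g K') : Tb A x L (fun ω => f ω + g ω) (K + K') := by
  intro n α y hα
  simp only [mul_add]
  rw [integral_add ((exI_cb PL_two hx α y).mul hf).int ((exI_cb PL_two hx α y).mul hg).int, add_mul]
  exact add_le_add (hT n α y hα) (hT' n α y hα)

lemma Tb.smul {f : (ℕ → ℝ) → ℝ} {K c : ℝ} (hc : 0 ≤ c) (hT : Tb A x L f K) : Tb A x L (fun ω => c * f ω) (c * K) := by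
  intro n α y hα
  have h1 := mul_le_mul_of_nonneg_left (hT n α y hα) hc
  rw [← integral_const_mul, ← mul_assoc] at h1
  refine le_trans (le_of_eq ?_) h1
  congr 1
  funext ω
  ring

lemma Tb.const {c : ℝ} : Tb A x L (fun _ => c) c := by
  intro n α y _
  rw [integral_mul_const, mul_comm]

lemma Tb.sum (hx : 0 ≤ x) {ι : Type*} (s : Finset ι) {f : ι → (ℕ → ℝ) → ℝ} (hf : ∀ i ∈ s, RB (f i)) {K : ι → ℝ} (hT : ∀ i ∈ s, Tb A x L (f i) (K i)) :
    Tb A x L (fun ω => ∑ i ∈ s, f i ω) (∑ i ∈ s, K i) := by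
  classical
  induction s using Finset.induction_on with
  | empty => simpa using Tb.const (c := 0)
  | insert a s ha ih =>
    simp only [Finset.sum_insert ha]
    exact Tb.add hx (hf a (Finset.mem_insert_self _ _)) (RB.sum _ fun i hi => hf i (Finset.mem_insert_of_mem hi)) (hT a (Finset.mem_insert_self _ _))
      (ih (fun i hi => hf i (Finset.mem_insert_of_mem hi)) fun i hi => hT i (Finset.mem_insert_of_mem hi))

/-- the arithmetic-geometric mean in place of Cauchy's inequality -/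
lemma Tb.am (hx : 0 ≤ x) {f g : (ℕ → ℝ) → ℝ} (hf : RB f) (hg : RB g) {K K' t : ℝ} (ht : 0 < t) (hT : Tb A x L (fun ω => f ω ^ 2) K) (hT' : Tb A x L (fun ω => g ω ^ 2) K') :
    Tb A x L (fun ω => f ω * g ω) (t * K + t⁻¹ * K') := by
  refine Tb.mono hx (hf.mul hg) (((RB.const t).mul (hf.pow 2)).add ((RB.const t⁻¹).mul (hg.pow 2))) (fun ω => ?_)
    (Tb.add hx ((RB.const t).mul (hf.pow 2)) ((RB.const t⁻¹).mul (hg.pow 2)) (hT.smul ht.le) (hT'.smul (inv_pos.mpr ht).le))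
  have h1 : 0 ≤ t * (f ω - t⁻¹ * g ω) ^ 2 := by positivity
  have h2 : t * (f ω - t⁻¹ * g ω) ^ 2 = t * f ω ^ 2 - 2 * (f ω * g ω) + t⁻¹ * g ω ^ 2 := by
    field_simp
    ring
  have h3 : 0 ≤ t * f ω ^ 2 + t⁻¹ * g ω ^ 2 := by positivity
  linarith

end Pool.Agent.H470
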