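import Pool.Agent.H470.Wa4

set_option autoImplicit false

/-! Truncated logarithms and exponentials on the blocks. -/

namespace Pool.Agent.H470

open MeasureTheory Filter Topology ProbabilityTheory Set
open scoped ENNReal
open Pool.Agent.TH806 (ec ec_norm ec_cont uu integrable_uu)

/-- truncated logarithm -/
noncomputable def Pk (K : ℕ) (I : Finset ℕ) (x y : ℝ) (ω : ℕ → ℝ) : ℂ :=
  ∑ p ∈ I, ∑ m ∈ Finset.Icc 1 K, ((p:ℂ) ^ (-sp x y) * ec (ω p)) ^ m / m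

noncomputable def dl (K : ℕ) (I : Finset ℕ) : ℝ := 4 * ∑ p ∈ I, ((p:ℝ) ^ (-(1 / 2) : ℝ)) ^ (K + 1)

lemma el_tr {z : ℂ} (hz : ‖z‖ ≤ 3 / 4) (K : ℕ) : ‖el z - ∑ m ∈ Finset.Icc 1 K, z ^ m / m‖ ≤ 4 * ‖z‖ ^ (K + 1) := by
  have h1 : ‖-z‖ < 1 := by rw [norm_neg]; linarith
  have h2 := Complex.norm_log_sub_logTaylor_le K h1
  have e1 : el z - ∑ m ∈ Finset.Icc 1 K, z ^ m / m = -(Complex.log (1 + -z) - Complex.logTaylor (K + 1) (-z)) := by
    unfold el Complex.logTaylor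
    rw [← sub_eq_add_neg, neg_sub]
    have e2 : ∑ j ∈ Finset.range (K + 1), (-1:ℂ) ^ (j + 1) * (-z) ^ j / j = -∑ m ∈ Finset.Icc 1 K, z ^ m / m := by
      rw [Finset.sum_range_succ', ← Finset.sum_neg_distrib, Finset.range_eq_Ico, Finset.sum_Ico_add' (fun j : ℕ => (-1:ℂ) ^ (j + 1) * (-z) ^ j / (j:ℂ)) 0 K 1]
      have e3 : Finset.Ico (0 + 1) (K + 1) = Finset.Icc 1 K := by
        ext a
        simp only [Finset.mem_Ico, Finset.mem_Icc]
        omega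
      rw [e3]
      simp only [Nat.cast_zero, div_zero, add_zero]
      refine Finset.sum_congr rfl fun m _ => ?_
      have : (-1:ℂ) ^ (m + 1) * (-z) ^ m = -(z ^ m) := by
        rw [neg_pow z, pow_succ]
        have h3 : ((-1:ℂ) ^ m) * ((-1:ℂ) ^ m) = 1 := by rw [← mul_pow]; norm_num
        linear_combination (-(z ^ m)) * h3
      rw [this]
      ring
    rw [e2]
    ring
  rw [e1, norm_neg]
  refine h2.trans ?_
  rw [norm_neg]
  have h3 : (1 - ‖z‖)⁻¹ ≤ 4 := by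
    rw [inv_le_comm₀ (by linarith) (by norm_num)]
    linarith
  have h4 : (0:ℝ) ≤ K := by positivity
  rw [div_le_iff₀ (by positivity)]
  have h5 : 0 ≤ ‖z‖ ^ (K + 1) := by positivity
  have h6 := mul_le_mul_of_nonneg_left h3 h5
  nlinarith [mul_nonneg h5 h4]

lemma Pk_near {I : Finset ℕ} (hI : ∀ p ∈ I, 2 ≤ p) {x : ℝ} (hx : 0 ≤ x) (y : ℝ) (K : ℕ) (ω : ℕ → ℝ) :
    ‖Xs I (sp x y) ω - Pk K I x y ω‖ ≤ dl K I := by
  unfold Xs Pk dl
  rw [← Finset.sum_sub_distrib, Finset.mul_sum]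
  refine (norm_sum_le _ _).trans (Finset.sum_le_sum fun p hp => ?_)
  have h1 : ‖(p:ℂ) ^ (-sp x y) * ec (ω p)‖ ≤ (p:ℝ) ^ (-(1 / 2) : ℝ) := by
    rw [norm_mul, ec_norm, mul_one, pw_norm (hI p hp), sp_re]
    exact Real.rpow_le_rpow_of_exponent_le (by exact_mod_cast (by have := hI p hp; omega : 1 ≤ p)) (by linarith)
  have h2 := half_le (hI p hp)
  refine (el_tr (h1.trans h2) K).trans ?_
  exact mul_le_mul_of_nonneg_left (pow_le_pow_left₀ (norm_nonneg _) h1 _) (by norm_num)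

lemma dl_nonneg (K : ℕ) (I : Finset ℕ) : 0 ≤ dl K I := by unfold dl; positivity

lemma dl_le {I : Finset ℕ} (hI : ∀ p ∈ I, 2 ≤ p) {K : ℕ} (hK : 3 ≤ K) : dl K I ≤ 4 * K2 * (3 / 4) ^ (K - 3) := by
  unfold dl
  rw [mul_assoc]
  refine mul_le_mul_of_nonneg_left ?_ (by norm_num)
  have h1 : ∀ p ∈ I, ((p:ℝ) ^ (-(1 / 2) : ℝ)) ^ (K + 1) ≤ ((1:ℝ) / p) ^ 2 * (3 / 4) ^ (K - 3) := by
    intro p hp
    have hp0 : (0:ℝ) < p := by exact_mod_cast (by have := hI p hp; omega : 0 < p)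
    have e1 : K + 1 = 4 + (K - 3) := by omega
    rw [e1, pow_add]
    have e2 : ((p:ℝ) ^ (-(1 / 2) : ℝ)) ^ 4 = ((1:ℝ) / p) ^ 2 := by
      have e3 : ((1:ℝ) / p) ^ 2 = (p:ℝ) ^ (-2 : ℝ) := by
        rw [Real.rpow_neg hp0.le, one_div, inv_pow]
        norm_num
      rw [← Real.rpow_natCast, ← Real.rpow_mul hp0.le, e3]
      norm_num
    rw [e2]
    exact mul_le_mul_of_nonneg_left (pow_le_pow_left₀ (by positivity) (half_le (hI p hp)) _) (by positivity)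
  refine (Finset.sum_le_sum h1).trans ?_
  rw [← Finset.sum_mul]
  exact mul_le_mul_of_nonneg_right (K2_sum I) (by positivity)

lemma dl_le' {I : Finset ℕ} (hI : ∀ p ∈ I, 2 ≤ p) {K : ℕ} (hK : 3 ≤ K) : dl K I ≤ 4 * K2 := by
  refine (dl_le hI hK).trans ?_
  have h1 : ((3:ℝ) / 4) ^ (K - 3) ≤ 1 := pow_le_one₀ (by norm_num) (by norm_num)
  have := K2_nonneg
  nlinarith

lemma dl_sum (L : ℝ) (K : ℕ) : ∑ b ∈ Finset.range (NB L), dl K (bk L b) = dl K (pr (PL L)) := by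
  unfold dl
  rw [← Finset.mul_sum, bk_sum L (fun p => ((p:ℝ) ^ (-(1 / 2) : ℝ)) ^ (K + 1))]

/-- truncated exponential -/
noncomputable def te (n : ℕ) (w : ℂ) : ℂ := ∑ j ∈ Finset.range (n + 1), w ^ j / (j.factorial : ℂ)

lemma exp_tail (n : ℕ) {u : ℝ} (hu : 0 ≤ u) : Real.exp u - ∑ j ∈ Finset.range (n + 1), u ^ j / (j.factorial : ℝ) ≤ Real.exp (3 * u - n) := by
  have hs : ∀ v : ℝ, Summable fun m : ℕ => v ^ m / (m.factorial : ℝ) := fun v => Real.summable_pow_div_factorial v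
  have he : ∀ v : ℝ, Real.exp v = ∑' m : ℕ, v ^ m / (m.factorial : ℝ) := by
    intro v
    rw [Real.exp_eq_exp_ℝ, NormedSpace.exp_eq_tsum_div]
  have h1 : Real.exp u - ∑ j ∈ Finset.range (n + 1), u ^ j / (j.factorial : ℝ) = ∑' m : ℕ, u ^ (m + (n + 1)) / ((m + (n + 1)).factorial : ℝ) := by
    rw [he u, ← (hs u).sum_add_tsum_nat_add (n + 1)]
    ring
  have h2 : ∑' m : ℕ, (3 * u) ^ (m + (n + 1)) / ((m + (n + 1)).factorial : ℝ) ≤ Real.exp (3 * u) := by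
    rw [he (3 * u), ← (hs (3 * u)).sum_add_tsum_nat_add (n + 1)]
    have : 0 ≤ ∑ i ∈ Finset.range (n + 1), (3 * u) ^ i / (i.factorial : ℝ) := Finset.sum_nonneg fun i _ => by positivity
    linarith
  have h3 : Real.exp n * ∑' m : ℕ, u ^ (m + (n + 1)) / ((m + (n + 1)).factorial : ℝ) ≤ ∑' m : ℕ, (3 * u) ^ (m + (n + 1)) / ((m + (n + 1)).factorial : ℝ) := by
    rw [← tsum_mul_left]
    refine Summable.tsum_le_tsum (fun m => ?_) (((summable_nat_add_iff (n + 1)).mpr (hs u)).mul_left _) ((summable_nat_add_iff (n + 1)).mpr (hs (3 * u)))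
    rw [mul_div_assoc', mul_pow]
    refine div_le_div_of_nonneg_right (mul_le_mul_of_nonneg_right ?_ (by positivity)) (by positivity)
    have h4 : Real.exp n = Real.exp 1 ^ n := by rw [← Real.exp_nat_mul, mul_one]
    have h5 : Real.exp 1 ≤ 3 := by have := Real.exp_one_lt_d9; linarith
    rw [h4]
    exact (pow_le_pow_left₀ (Real.exp_pos 1).le h5 n).trans (pow_le_pow_right₀ (by norm_num) (by omega))
  rw [h1]
  have h6 : Real.exp (3 * u - n) = Real.exp (3 * u) / Real.exp n := Real.exp_sub _ _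
  rw [h6, le_div_iff₀ (Real.exp_pos _), mul_comm]
  exact h3.trans h2

lemma te_near (n : ℕ) (w : ℂ) : ‖te n w * Complex.exp (-w) - 1‖ ≤ Real.exp (4 * ‖w‖ - n) := by
  have e1 : te n w * Complex.exp (-w) - 1 = -(Complex.exp w - te n w) * Complex.exp (-w) := by
    have : Complex.exp w * Complex.exp (-w) = 1 := by rw [← Complex.exp_add]; simp
    linear_combination this
  have h1 := Complex.norm_exp_sub_sum_le_exp_norm_sub_sum w (n + 1)
  have h2 := exp_tail n (norm_nonneg w)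
  have h3 : ‖Complex.exp (-w)‖ ≤ Real.exp ‖w‖ := by
    rw [Complex.norm_exp, Real.exp_le_exp]
    refine (Complex.re_le_norm _).trans ?_
    rw [norm_neg]
  rw [e1, norm_mul, norm_neg]
  have h4 : ‖Complex.exp w - te n w‖ ≤ Real.exp (3 * ‖w‖ - n) := h1.trans h2
  refine (mul_le_mul h4 h3 (norm_nonneg _) (Real.exp_pos _).le).trans (le_of_eq ?_)
  rw [← Real.exp_add]
  congr 1
  ring

lemma exp_abs4 {lam : ℝ} (hl : 0 ≤ lam) (w : ℂ) : Real.exp (lam * ‖w‖) ≤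
    (Real.exp (2 * lam * w.re) + Real.exp (-(2 * lam) * w.re) + Real.exp (2 * lam * w.im) + Real.exp (-(2 * lam) * w.im)) / 2 := by
  have h1 : ‖w‖ ≤ |w.re| + |w.im| := Complex.norm_le_abs_re_add_abs_im w
  have h2 : Real.exp (lam * ‖w‖) ≤ Real.exp (lam * |w.re|) * Real.exp (lam * |w.im|) := by
    rw [← Real.exp_add, Real.exp_le_exp, ← mul_add]
    exact mul_le_mul_of_nonneg_left h1 hl
  have h3 : ∀ t : ℝ, Real.exp (lam * |t|) ^ 2 ≤ Real.exp (2 * lam * t) + Real.exp (-(2 * lam) * t) := by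
    intro t
    rw [← Real.exp_nat_mul]
    rcases abs_cases t with ⟨h, _⟩ | ⟨h, _⟩
    · rw [h]
      have e : ((2:ℕ):ℝ) * (lam * t) = 2 * lam * t := by push_cast; ring
      rw [e]
      linarith [Real.exp_pos (-(2 * lam) * t)]
    · rw [h]
      have e : ((2:ℕ):ℝ) * (lam * -t) = -(2 * lam) * t := by push_cast; ring
      rw [e]
      linarith [Real.exp_pos (2 * lam * t)]
  have h4 := h3 w.re
  have h5 := h3 w.im
  nlinarith [sq_nonneg (Real.exp (lam * |w.re|) - Real.exp (lam * |w.im|))]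

/-- exponential moments on a block -/
lemma blk_e (C0 : ℝ) {lam : ℝ} (hl : 0 ≤ lam) : ∃ C : ℝ, 0 < C ∧ ∀ I : Finset ℕ, (∀ p ∈ I, 2 ≤ p) → ∑ p ∈ I, (1:ℝ) / p ≤ C0 → ∀ x : ℝ, 0 ≤ x → ∀ y : ℝ,
    ∫ ω, Real.exp (lam * ‖Xs I (sp x y) ω‖) ∂tm ≤ C := by
  refine ⟨2 * Real.exp ((2 * lam) ^ 2 / 4 * C0 + CN (2 * lam / 2) * KS), by positivity, fun I hI hC x hx y => ?_⟩
  have hX := Xs_cc hI hx y
  have key : ∀ u : ℂ, ‖u‖ ≤ 2 * lam → ∫ ω, Real.exp (u * Xs I (sp x y) ω).re ∂tm ≤ Real.exp ((2 * lam) ^ 2 / 4 * C0 + CN (2 * lam / 2) * KS) := by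
    intro u hu
    have h1 := exI_blk hI hx (n := 1) (fun _ => u) (fun _ => y) (A := 2 * lam) (by simpa using hu)
    unfold exI at h1
    simp only [Fin.sum_univ_one] at h1
    refine h1.trans (Real.exp_le_exp.mpr ?_)
    have := mul_le_mul_of_nonneg_left hC (show 0 ≤ (2 * lam) ^ 2 / 4 by positivity)
    linarith
  have hint : ∀ u : ℂ, Integrable (fun ω => Real.exp (u * Xs I (sp x y) ω).re) tm := fun u =>
    ((((CC.const u).mul hX).re).comp Real.continuous_exp).int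
  have hnl : ‖((2 * lam : ℝ) : ℂ)‖ ≤ 2 * lam := by rw [Complex.norm_real, Real.norm_of_nonneg (by positivity)]
  have k1 := key ((2 * lam : ℝ) : ℂ) hnl
  have k2 := key (-((2 * lam : ℝ) : ℂ)) (by rw [norm_neg]; exact hnl)
  have k3 := key (-((2 * lam : ℝ) : ℂ) * Complex.I) (by rw [norm_mul, Complex.norm_I, mul_one, norm_neg]; exact hnl)
  have k4 := key (((2 * lam : ℝ) : ℂ) * Complex.I) (by rw [norm_mul, Complex.norm_I, mul_one]; exact hnl)
  have h3 : ∀ ω, Real.exp (lam * ‖Xs I (sp x y) ω‖) ≤ (Real.exp (((2 * lam : ℝ) : ℂ) * Xs I (sp x y) ω).re + Real.exp (-((2 * lam : ℝ) : ℂ) * Xs I (sp x y) ω).re +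
      Real.exp (-((2 * lam : ℝ) : ℂ) * Complex.I * Xs I (sp x y) ω).re + Real.exp (((2 * lam : ℝ) : ℂ) * Complex.I * Xs I (sp x y) ω).re) / 2 := by
    intro ω
    refine (exp_abs4 hl _).trans (le_of_eq ?_)
    have a1 : ∀ (t : ℝ) (w : ℂ), ((t:ℂ) * w).re = t * w.re := fun t w => by simp
    have a2 : (((2 * lam : ℝ) : ℂ) * Xs I (sp x y) ω).re = 2 * lam * (Xs I (sp x y) ω).re := a1 _ _
    have a3 : (-((2 * lam : ℝ) : ℂ) * Xs I (sp x y) ω).re = -(2 * lam) * (Xs I (sp x y) ω).re := by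
      rw [← Complex.ofReal_neg]
      exact a1 _ _
    have a4 : (-((2 * lam : ℝ) : ℂ) * Complex.I * Xs I (sp x y) ω).re = 2 * lam * (Xs I (sp x y) ω).im := by
      rw [← Complex.ofReal_neg, mul_assoc, a1]
      simp
    have a5 : (((2 * lam : ℝ) : ℂ) * Complex.I * Xs I (sp x y) ω).re = -(2 * lam) * (Xs I (sp x y) ω).im := by
      rw [mul_assoc, a1]
      simp
    rw [a2, a3, a4, a5]
  have h4 := integral_mono ((hX.norm.comp (g := fun t => Real.exp (lam * t)) (by fun_prop)).int) (((((hint _).add (hint _)).add (hint _)).add (hint _)).div_const 2) h3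
  refine h4.trans ?_
  rw [integral_div]
  have e5 := integral_add (((hint ((2 * lam : ℝ) : ℂ)).add (hint (-((2 * lam : ℝ) : ℂ)))).add (hint (-((2 * lam : ℝ) : ℂ) * Complex.I))) (hint (((2 * lam : ℝ) : ℂ) * Complex.I))
  have e6 := integral_add ((hint ((2 * lam : ℝ) : ℂ)).add (hint (-((2 * lam : ℝ) : ℂ)))) (hint (-((2 * lam : ℝ) : ℂ) * Complex.I))
  have e7 := integral_add (hint ((2 * lam : ℝ) : ℂ)) (hint (-((2 * lam : ℝ) : ℂ)))
  simp only [Pi.add_apply] at e5 e6 e7 ⊢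
  rw [e5, e6, e7]
  linarith

/-- exponentials under the tilted block measures -/
lemma blk_x (C0 A : ℝ) {lam : ℝ} (hl : 0 ≤ lam) : ∃ C : ℝ, 1 ≤ C ∧ ∀ I : Finset ℕ, (∀ p ∈ I, 2 ≤ p) → ∑ p ∈ I, (1:ℝ) / p ≤ C0 → ∀ x : ℝ, 0 ≤ x → ∀ y' : ℝ,
    ∀ (n : ℕ) (α : Fin n → ℂ) (y : Fin n → ℝ), ∑ j, ‖α j‖ ≤ A →
    ∫ ω, exI I x α y ω * Real.exp (lam * ‖Xs I (sp x y') ω‖) ∂tm ≤ C * ∫ ω, exI I x α y ω ∂tm := by
  obtain ⟨C1, hC1, h1⟩ := blk_e C0 (lam := 2 * lam) (by positivity)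
  refine ⟨max 1 (Real.exp ((2 * A) ^ 2 / 4 * C0 + CN (2 * A / 2) * KS) + C1), le_max_left _ _, fun I hI hC x hx y' n α y hα => ?_⟩
  have hX := Xs_cc hI hx y'
  have hv := exI_cb hI hx α y
  have hw : RB fun ω => Real.exp (lam * ‖Xs I (sp x y') ω‖) := hX.norm.comp (g := fun t => Real.exp (lam * t)) (by fun_prop)
  have h2 : ∫ ω, exI I x α y ω * Real.exp (lam * ‖Xs I (sp x y') ω‖) ∂tm ≤ ∫ ω, (exI I x α y ω ^ 2 + Real.exp (lam * ‖Xs I (sp x y') ω‖) ^ 2) ∂tm := by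
    refine integral_mono (hv.mul hw).int ((hv.pow 2).add (hw.pow 2)).int fun ω => ?_
    simp only
    nlinarith [sq_nonneg (exI I x α y ω - Real.exp (lam * ‖Xs I (sp x y') ω‖)), sq_nonneg (exI I x α y ω), sq_nonneg (Real.exp (lam * ‖Xs I (sp x y') ω‖))]
  rw [integral_add (hv.pow 2).int (hw.pow 2).int] at h2
  have h3 : ∫ ω, exI I x α y ω ^ 2 ∂tm ≤ Real.exp ((2 * A) ^ 2 / 4 * C0 + CN (2 * A / 2) * KS) := by
    have e1 : ∀ ω, exI I x α y ω ^ 2 = exI I x (fun j => 2 * α j) y ω := by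
      intro ω
      unfold exI
      rw [← Real.exp_nat_mul]
      congr 1
      simp_rw [mul_assoc]
      rw [← Finset.mul_sum]
      simp
    simp_rw [e1]
    refine (exI_blk hI hx (fun j => 2 * α j) y (A := 2 * A) ?_).trans (Real.exp_le_exp.mpr ?_)
    · simp_rw [norm_mul, Complex.norm_two]
      rw [← Finset.mul_sum]
      linarith
    · have := mul_le_mul_of_nonneg_left hC (show 0 ≤ (2 * A) ^ 2 / 4 by positivity)
      linarith
  have h4 : ∫ ω, Real.exp (lam * ‖Xs I (sp x y') ω‖) ^ 2 ∂tm ≤ C1 := by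
    refine le_trans (le_of_eq ?_) (h1 I hI hC x hx y')
    congr 1
    funext ω
    rw [← Real.exp_nat_mul]
    congr 1
    push_cast
    ring
  have h5 := exI_low hI hx α y
  have h6 : 0 < max 1 (Real.exp ((2 * A) ^ 2 / 4 * C0 + CN (2 * A / 2) * KS) + C1) := by positivity
  have h7 := le_max_right 1 (Real.exp ((2 * A) ^ 2 / 4 * C0 + CN (2 * A / 2) * KS) + C1)
  nlinarith

end Pool.Agent.H470
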