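import Pool.Agent.H470.Wa5

set_option autoImplicit false

/-! The mollifiers: products over the blocks of truncated exponentials. -/

namespace Pool.Agent.H470

open MeasureTheory Filter Topology ProbabilityTheory Set
open scoped ENNReal
open Pool.Agent.TH806 (ec ec_norm ec_cont uu integrable_uu)

/-- truncated exponential on a block -/
noncomputable def ta (Z q : ℕ) (x L z y : ℝ) (b : ℕ) (ω : ℕ → ℝ) : ℂ := te (8 * Z * (q * (b + 1))) ((z:ℂ) * Pk q (bk L b) x y ω)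

/-- high powers, large where the block sum is large -/
noncomputable def hp (q : ℕ) (x L y : ℝ) (b : ℕ) (ω : ℕ → ℝ) : ℂ := (Pk q (bk L b) x y ω / ((q * (b + 1) : ℕ) : ℂ)) ^ (q * (b + 1))

noncomputable def fc (Z q : ℕ) (x L z : ℝ) (a b : ℕ) (ω : ℕ → ℝ) : ℂ :=
  if a ≤ b then ta Z q x L z 0 b ω else if b + 1 = a then hp q x L 0 b ω else 1

noncomputable def Ra (Z q : ℕ) (x L z : ℝ) (a : ℕ) (ω : ℕ → ℝ) : ℂ := ∏ b ∈ Finset.range (NB L), fc Z q x L z a b ω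

noncomputable def Ey (Z q : ℕ) (x L z y : ℝ) (ω : ℕ → ℝ) : ℂ := ∏ b ∈ Finset.range (NB L), ta Z q x L z y b ω

lemma Ra_zero (Z q : ℕ) (x L z : ℝ) (ω : ℕ → ℝ) : Ra Z q x L z 0 ω = Ey Z q x L z 0 ω := by
  unfold Ra Ey fc
  exact Finset.prod_congr rfl fun b _ => by rw [if_pos (Nat.zero_le b)]

/-- the size of the errors -/
noncomputable def ub (q : ℕ) (L : ℝ) (b : ℕ) : ℝ := Real.exp (-((q * (b + 1) : ℕ) : ℝ)) + dl q (bk L b)

noncomputable def sb (C : ℝ) (Z q : ℕ) (x L y : ℝ) (b : ℕ) (ω : ℕ → ℝ) : ℝ := C * ub q L b * Real.exp (4 * Z * ‖Xs (bk L b) (sp x y) ω‖)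

lemma ub_pos (q : ℕ) (L : ℝ) (b : ℕ) : 0 < ub q L b := by
  unfold ub
  have := dl_nonneg q (bk L b)
  positivity

lemma ub_le {q : ℕ} (hq : 3 ≤ q) (L : ℝ) (b : ℕ) : ub q L b ≤ 1 + 4 * K2 := by
  unfold ub
  have h1 := dl_le' (fun p (hp : p ∈ bk L b) => bk_two hp) hq
  have h2 : Real.exp (-((q * (b + 1) : ℕ) : ℝ)) ≤ 1 := by
    rw [← Real.exp_zero, Real.exp_le_exp]
    simp only [Left.neg_nonpos_iff]
    positivity
  linarith

/-- total error -/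
noncomputable def uq (q : ℕ) : ℝ := 2 * Real.exp (-(q:ℝ)) + 4 * K2 * (3 / 4) ^ (q - 3)

lemma ub_sum {q : ℕ} (hq : 3 ≤ q) (L : ℝ) : ∑ b ∈ Finset.range (NB L), ub q L b ≤ uq q := by
  unfold ub uq
  rw [Finset.sum_add_distrib, dl_sum]
  have h1 := dl_le (I := pr (PL L)) PL_two hq
  have h2 : ∑ b ∈ Finset.range (NB L), Real.exp (-((q * (b + 1) : ℕ) : ℝ)) ≤ 2 * Real.exp (-(q:ℝ)) := by
    have h3 : ∀ b ∈ Finset.range (NB L), Real.exp (-((q * (b + 1) : ℕ) : ℝ)) = Real.exp (-(q:ℝ)) * Real.exp (-(q:ℝ)) ^ b := by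
      intro b _
      rw [← Real.exp_nat_mul, ← Real.exp_add]
      congr 1
      push_cast
      ring
    rw [Finset.sum_congr rfl h3, ← Finset.mul_sum]
    have h4 : Real.exp (-(q:ℝ)) ≤ 1 / 2 := by
      have h5 : (1:ℝ) ≤ q := by exact_mod_cast (by omega : 1 ≤ q)
      have h6 : Real.exp (-(q:ℝ)) ≤ Real.exp (-1) := Real.exp_le_exp.mpr (by linarith)
      have h7 : Real.exp (-1) ≤ 1 / 2 := by
        rw [Real.exp_neg, ← one_div]
        exact one_div_le_one_div_of_le (by norm_num) (by have := Real.exp_one_gt_d9; linarith)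
      linarith
    have h5 : ∑ b ∈ Finset.range (NB L), Real.exp (-(q:ℝ)) ^ b ≤ 2 := by
      have h6 : ∀ b ∈ Finset.range (NB L), Real.exp (-(q:ℝ)) ^ b ≤ (1 / 2) ^ b := fun b _ => pow_le_pow_left₀ (Real.exp_pos _).le h4 b
      refine (Finset.sum_le_sum h6).trans ?_
      have h7 := Summable.sum_le_tsum (Finset.range (NB L)) (fun i _ => by positivity) summable_geometric_two
      rw [tsum_geometric_two] at h7
      exact h7
    nlinarith [Real.exp_pos (-(q:ℝ))]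
  linarith

lemma uq_lim : Tendsto uq atTop (𝓝 0) := by
  unfold uq
  have h1 : Tendsto (fun q : ℕ => Real.exp (-(q:ℝ))) atTop (𝓝 0) := Real.tendsto_exp_neg_atTop_nhds_zero.comp tendsto_natCast_atTop_atTop
  have h2 : Tendsto (fun q : ℕ => ((3:ℝ) / 4) ^ (q - 3)) atTop (𝓝 0) :=
    (tendsto_pow_atTop_nhds_zero_of_lt_one (by norm_num) (by norm_num)).comp (tendsto_sub_atTop_nat 3)
  have h3 := (h1.const_mul 2).add (h2.const_mul (4 * K2))
  simpa using h3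

lemma uq_nonneg (q : ℕ) : 0 ≤ uq q := by
  unfold uq
  have := K2_nonneg
  positivity

lemma uq_le (q : ℕ) : uq q ≤ 2 + 4 * K2 := by
  unfold uq
  have h1 : Real.exp (-(q:ℝ)) ≤ 1 := by
    rw [← Real.exp_zero, Real.exp_le_exp]
    simp
  have h2 : ((3:ℝ) / 4) ^ (q - 3) ≤ 1 := pow_le_one₀ (by norm_num) (by norm_num)
  have := K2_nonneg
  nlinarith

/-- the ratio on a block -/
lemma ta_near (Z : ℕ) (hZ : 1 ≤ Z) : ∃ C : ℝ, 0 < C ∧ ∀ q : ℕ, 3 ≤ q → ∀ x : ℝ, 0 ≤ x → ∀ (L y z : ℝ), |z| ≤ Z → ∀ (b : ℕ) (ω : ℕ → ℝ),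
    ‖ta Z q x L z y b ω * Complex.exp (-((z:ℂ) * Xs (bk L b) (sp x y) ω)) - 1‖ ≤ sb C Z q x L y b ω := by
  have hK := K2_nonneg
  have hZ' : (1:ℝ) ≤ Z := by exact_mod_cast hZ
  refine ⟨Real.exp (5 * Z * (4 * K2)) * (1 + Z), by positivity, fun q hq x hx L y z hz b ω => ?_⟩
  obtain ⟨X, hX⟩ : ∃ X, X = Xs (bk L b) (sp x y) ω := ⟨_, rfl⟩
  obtain ⟨P, hP⟩ : ∃ P, P = Pk q (bk L b) x y ω := ⟨_, rfl⟩
  have h1 : ‖X - P‖ ≤ dl q (bk L b) := by
    rw [hX, hP]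
    exact Pk_near (fun p hp => bk_two hp) hx y q ω
  obtain ⟨d, hd⟩ : ∃ d, d = dl q (bk L b) := ⟨_, rfl⟩
  rw [← hd] at h1
  have hd0 : 0 ≤ d := by rw [hd]; exact dl_nonneg _ _
  have hdK : d ≤ 4 * K2 := by rw [hd]; exact dl_le' (fun p hp => bk_two hp) hq
  unfold ta sb ub
  rw [← hX, ← hP, ← hd]
  have hzn : ‖(z:ℂ)‖ ≤ Z := by rw [Complex.norm_real]; exact hz
  obtain ⟨v, hv⟩ : ∃ v : ℂ, v = (z:ℂ) * (P - X) := ⟨_, rfl⟩
  have hvn : ‖v‖ ≤ Z * d := by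
    rw [hv, norm_mul, norm_sub_rev]
    exact mul_le_mul hzn h1 (norm_nonneg _) (by positivity)
  obtain ⟨n, hn⟩ : ∃ n : ℕ, n = 8 * Z * (q * (b + 1)) := ⟨_, rfl⟩
  rw [← hn]
  have e1 : te n ((z:ℂ) * P) * Complex.exp (-((z:ℂ) * X)) - 1 = (te n ((z:ℂ) * P) * Complex.exp (-((z:ℂ) * P)) - 1) * Complex.exp v + (Complex.exp v - 1) := by
    have e2 : Complex.exp (-((z:ℂ) * X)) = Complex.exp (-((z:ℂ) * P)) * Complex.exp v := by
      rw [← Complex.exp_add, hv]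
      congr 1
      ring
    rw [e2]
    ring
  have h2 := te_near n ((z:ℂ) * P)
  have h3 : ‖Complex.exp v‖ ≤ Real.exp (Z * d) := by
    rw [Complex.norm_exp, Real.exp_le_exp]
    exact (Complex.re_le_norm _).trans hvn
  have h4 : ‖Complex.exp v - 1‖ ≤ Z * d * Real.exp (Z * d) := by
    have h5 := Complex.norm_exp_sub_sum_le_norm_mul_exp v 1
    simp only [Finset.range_one, Finset.sum_singleton, pow_zero, Nat.factorial_zero, Nat.cast_one, div_one, pow_one] at h5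
    exact h5.trans (mul_le_mul hvn (Real.exp_le_exp.mpr hvn) (Real.exp_pos _).le (by positivity))
  have h5 : ‖(z:ℂ) * P‖ ≤ Z * ‖X‖ + Z * d := by
    rw [norm_mul]
    have h6 : ‖P‖ ≤ ‖X‖ + d := by
      have := norm_sub_norm_le P X
      rw [norm_sub_rev] at this
      linarith
    refine (mul_le_mul hzn h6 (norm_nonneg _) (by positivity)).trans (le_of_eq (by ring))
  have h6 : Real.exp (4 * ‖(z:ℂ) * P‖ - n) ≤ Real.exp (4 * Z * ‖X‖) * Real.exp (-((q * (b + 1) : ℕ) : ℝ)) * Real.exp (4 * Z * d) := by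
    rw [← Real.exp_add, ← Real.exp_add, Real.exp_le_exp]
    have h7 : ((q * (b + 1) : ℕ) : ℝ) ≤ n := by
      rw [hn]
      exact_mod_cast (by nlinarith [Nat.zero_le (q * (b + 1))] : q * (b + 1) ≤ 8 * Z * (q * (b + 1)))
    linarith
  have hE : 1 ≤ Real.exp (4 * Z * ‖X‖) := by
    rw [← Real.exp_zero, Real.exp_le_exp]
    positivity
  rw [e1]
  refine (norm_add_le _ _).trans ?_
  rw [norm_mul]
  have h8 : ‖te n ((z:ℂ) * P) * Complex.exp (-((z:ℂ) * P)) - 1‖ * ‖Complex.exp v‖ ≤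
      Real.exp (5 * Z * (4 * K2)) * Real.exp (-((q * (b + 1) : ℕ) : ℝ)) * Real.exp (4 * Z * ‖X‖) := by
    refine (mul_le_mul (h2.trans h6) h3 (norm_nonneg _) (by positivity)).trans ?_
    have h9 : Real.exp (4 * Z * d) * Real.exp (Z * d) ≤ Real.exp (5 * Z * (4 * K2)) := by
      rw [← Real.exp_add, Real.exp_le_exp]
      nlinarith
    calc Real.exp (4 * Z * ‖X‖) * Real.exp (-((q * (b + 1) : ℕ) : ℝ)) * Real.exp (4 * Z * d) * Real.exp (Z * d)
        = (Real.exp (4 * Z * d) * Real.exp (Z * d)) * (Real.exp (-((q * (b + 1) : ℕ) : ℝ)) * Real.exp (4 * Z * ‖X‖)) := by ring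
      _ ≤ Real.exp (5 * Z * (4 * K2)) * (Real.exp (-((q * (b + 1) : ℕ) : ℝ)) * Real.exp (4 * Z * ‖X‖)) := by gcongr
      _ = _ := by ring
  have h9 : Z * d * Real.exp (Z * d) ≤ Real.exp (5 * Z * (4 * K2)) * (Z * d) * Real.exp (4 * Z * ‖X‖) := by
    have h10 : Real.exp (Z * d) ≤ Real.exp (5 * Z * (4 * K2)) := Real.exp_le_exp.mpr (by nlinarith)
    have h11 : 0 ≤ Z * d := by positivity
    calc Z * d * Real.exp (Z * d) ≤ Z * d * Real.exp (5 * Z * (4 * K2)) := by gcongr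
      _ = Real.exp (5 * Z * (4 * K2)) * (Z * d) * 1 := by ring
      _ ≤ _ := by gcongr
  have h10 : 0 < Real.exp (5 * Z * (4 * K2)) := Real.exp_pos _
  have h11 : 0 < Real.exp (-((q * (b + 1) : ℕ) : ℝ)) := Real.exp_pos _
  have h12 : 0 < Real.exp (4 * Z * ‖X‖) := Real.exp_pos _
  refine (add_le_add h8 (h4.trans h9)).trans ?_
  calc Real.exp (5 * Z * (4 * K2)) * Real.exp (-((q * (b + 1) : ℕ) : ℝ)) * Real.exp (4 * Z * ‖X‖) + Real.exp (5 * Z * (4 * K2)) * (Z * d) * Real.exp (4 * Z * ‖X‖)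
      = Real.exp (5 * Z * (4 * K2)) * (Real.exp (-((q * (b + 1) : ℕ) : ℝ)) + Z * d) * Real.exp (4 * Z * ‖X‖) := by ring
    _ ≤ Real.exp (5 * Z * (4 * K2)) * ((1 + Z) * (Real.exp (-((q * (b + 1) : ℕ) : ℝ)) + d)) * Real.exp (4 * Z * ‖X‖) := by
        gcongr
        nlinarith
    _ = _ := by ring

lemma pow_s {C u U E : ℝ} (hC : 0 ≤ C) (hu : 0 ≤ u) (huU : u ≤ U) (hE : 1 ≤ E) (r : ℕ) : (1 + C * u * E) ^ r ≤ 1 + u * ((2 + C + C * U) ^ r * E ^ r) := by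
  have hU : 0 ≤ U := hu.trans huU
  induction r with
  | zero => simp; exact hu
  | succ r ih =>
    obtain ⟨D, hD⟩ : ∃ D, D = (2 + C + C * U) ^ r * E ^ r := ⟨_, rfl⟩
    have hD1 : 1 ≤ D := by
      rw [hD]
      have h1 : 1 ≤ (2 + C + C * U) ^ r := one_le_pow₀ (by nlinarith [mul_nonneg hC hU])
      have h2 : 1 ≤ E ^ r := one_le_pow₀ hE
      nlinarith
    rw [← hD] at ih
    have e1 : (2 + C + C * U) ^ (r + 1) * E ^ (r + 1) = D * ((2 + C + C * U) * E) := by rw [hD]; ring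
    rw [e1, pow_succ]
    have h1 : 0 ≤ 1 + C * u * E := by positivity
    refine (mul_le_mul_of_nonneg_right ih h1).trans ?_
    have h2 : C * u * E ≤ u * (D * (C * E)) := by
      have h3 : 0 ≤ u * (C * E) := by positivity
      nlinarith
    have h3 : u * D * (C * u * E) ≤ u * D * (C * U * E) := by gcongr
    have h4 : u * D ≤ u * D * E := by
      have : 0 ≤ u * D := by positivity
      nlinarith
    nlinarith [mul_nonneg hu (mul_nonneg (by linarith : 0 ≤ D) (by linarith : 0 ≤ E))]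

lemma pe_bd {P : ℂ} {n : ℕ} (hn : 1 ≤ n) : ‖(P / (n:ℂ)) ^ n‖ ^ 2 ≤ Real.exp (2 * ‖P‖ - 2 * n) := by
  have hn0 : (0:ℝ) < n := by exact_mod_cast (by omega : 0 < n)
  have h1 : ‖P‖ / n ≤ Real.exp (‖P‖ / n - 1) := by
    have := Real.add_one_le_exp (‖P‖ / n - 1)
    linarith
  rw [norm_pow, norm_div, Complex.norm_natCast, ← pow_mul, mul_comm n 2]
  refine (pow_le_pow_left₀ (by positivity) h1 _).trans (le_of_eq ?_)
  rw [← Real.exp_nat_mul]
  congr 1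
  push_cast
  field_simp

end Pool.Agent.H470
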