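import Pool.Agent.H470.Wa6

set_option autoImplicit false

/-! Bounds for the mollifiers under the tilted measures. -/

namespace Pool.Agent.H470

open MeasureTheory Filter Topology ProbabilityTheory Set
open scoped ENNReal
open Pool.Agent.TH806 (ec ec_norm ec_cont uu integrable_uu)

lemma ec_cc (p : ℕ) : CC fun ω : ℕ → ℝ => ec (ω p) := ⟨ec_cont.comp (continuous_apply p), 1, fun ω => (ec_norm _).le⟩

lemma Pk_cc (K : ℕ) (I : Finset ℕ) (x y : ℝ) : CC (Pk K I x y) := by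
  unfold Pk
  refine CC.sum _ fun p _ => CC.sum _ fun m _ => ?_
  simp only [div_eq_mul_inv]
  exact (((CC.const _).mul (ec_cc p)).pow m).mul (CC.const _)

lemma Pk_dep (K : ℕ) (I : Finset ℕ) (x y : ℝ) {ω ω' : ℕ → ℝ} (h : ∀ p ∈ I, ω p = ω' p) : Pk K I x y ω = Pk K I x y ω' := by
  unfold Pk
  refine Finset.sum_congr rfl fun p hp => ?_
  rw [h p hp]

lemma te_cc (n : ℕ) {f : (ℕ → ℝ) → ℂ} (hf : CC f) : CC fun ω => te n (f ω) := by
  unfold te
  refine CC.sum _ fun j _ => ?_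
  simp only [div_eq_mul_inv]
  exact (hf.pow j).mul (CC.const _)

lemma ta_cc (Z q : ℕ) (x L z y : ℝ) (b : ℕ) : CC (ta Z q x L z y b) := te_cc _ ((CC.const _).mul (Pk_cc _ _ _ _))

lemma ta_dep (Z q : ℕ) (x L z y : ℝ) (b : ℕ) {ω ω' : ℕ → ℝ} (h : ∀ p ∈ bk L b, ω p = ω' p) : ta Z q x L z y b ω = ta Z q x L z y b ω' := by
  unfold ta
  rw [Pk_dep q (bk L b) x y h]

lemma hp_cc (q : ℕ) (x L y : ℝ) (b : ℕ) : CC (hp q x L y b) := by
  unfold hp
  simp only [div_eq_mul_inv]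
  exact ((Pk_cc _ _ _ _).mul (CC.const _)).pow _

lemma hp_dep (q : ℕ) (x L y : ℝ) (b : ℕ) {ω ω' : ℕ → ℝ} (h : ∀ p ∈ bk L b, ω p = ω' p) : hp q x L y b ω = hp q x L y b ω' := by
  unfold hp
  rw [Pk_dep q (bk L b) x y h]

lemma fc_cc (Z q : ℕ) (x L z : ℝ) (a b : ℕ) : CC (fc Z q x L z a b) := by
  by_cases h1 : a ≤ b
  · have : fc Z q x L z a b = ta Z q x L z 0 b := by funext ω; unfold fc; rw [if_pos h1]
    rw [this]
    exact ta_cc _ _ _ _ _ _ _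
  · by_cases h2 : b + 1 = a
    · have : fc Z q x L z a b = hp q x L 0 b := by funext ω; unfold fc; rw [if_neg h1, if_pos h2]
      rw [this]
      exact hp_cc _ _ _ _ _
    · have : fc Z q x L z a b = fun _ => 1 := by funext ω; unfold fc; rw [if_neg h1, if_neg h2]
      rw [this]
      exact CC.const 1

lemma fc_dep (Z q : ℕ) (x L z : ℝ) (a b : ℕ) {ω ω' : ℕ → ℝ} (h : ∀ p ∈ bk L b, ω p = ω' p) : fc Z q x L z a b ω = fc Z q x L z a b ω' := by
  unfold fc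
  rw [ta_dep Z q x L z 0 b h, hp_dep q x L 0 b h]

lemma Ra_cc (Z q : ℕ) (x L z : ℝ) (a : ℕ) : CC (Ra Z q x L z a) := CC.prod _ fun b _ => fc_cc _ _ _ _ _ _ _

lemma Ey_cc (Z q : ℕ) (x L z y : ℝ) : CC (Ey Z q x L z y) := CC.prod _ fun b _ => ta_cc _ _ _ _ _ _ _

lemma sb_rb {C : ℝ} {Z q : ℕ} {x : ℝ} (hx : 0 ≤ x) (L y : ℝ) (b : ℕ) : RB (sb C Z q x L y b) := by
  unfold sb
  exact (RB.const _).mul ((Xs_cc (fun p hp => bk_two hp) hx y).norm.comp (g := fun t => Real.exp (4 * Z * t)) (by fun_prop))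

lemma sb_dep (C : ℝ) (Z q : ℕ) (x L y : ℝ) (b : ℕ) : Dep (bk L b) (sb C Z q x L y b) := by
  intro ω ω' h
  unfold sb
  rw [Xs_dep _ _ h]

lemma sb_nonneg {C : ℝ} (hC : 0 ≤ C) (Z q : ℕ) (x L y : ℝ) (b : ℕ) (ω : ℕ → ℝ) : 0 ≤ sb C Z q x L y b ω := by
  unfold sb
  have := (ub_pos q L b).le
  positivity

/-- one block -/
lemma sb_blk (A : ℝ) {C : ℝ} (hC : 0 ≤ C) (Z r : ℕ) : ∃ C' : ℝ, 0 ≤ C' ∧ ∀ q : ℕ, 3 ≤ q → ∀ x : ℝ, 0 ≤ x → ∀ L y' : ℝ, ∀ b : ℕ,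
    ∀ (n : ℕ) (α : Fin n → ℂ) (y : Fin n → ℝ), ∑ j, ‖α j‖ ≤ A →
    ∫ ω, exI (bk L b) x α y ω * (1 + sb C Z q x L y' b ω) ^ r ∂tm ≤ Real.exp (C' * ub q L b) * ∫ ω, exI (bk L b) x α y ω ∂tm := by
  obtain ⟨C0, hC0, h0⟩ := bk_inv
  obtain ⟨C1, hC1, h1⟩ := blk_x C0 A (lam := 4 * Z * r) (by positivity)
  obtain ⟨U, hU⟩ : ∃ U : ℝ, U = 1 + 4 * K2 := ⟨_, rfl⟩
  have hU0 : 0 ≤ U := by rw [hU]; have := K2_nonneg; positivity
  refine ⟨(2 + C + C * U) ^ r * C1, by positivity, fun q hq x hx L y' b n α y hα => ?_⟩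
  have h2 : ∀ p ∈ bk L b, 2 ≤ p := fun p hp => bk_two hp
  have hv := exI_cb h2 hx α y
  have hE : RB fun ω => Real.exp (4 * Z * r * ‖Xs (bk L b) (sp x y') ω‖) := (Xs_cc h2 hx y').norm.comp (g := fun t => Real.exp (4 * Z * r * t)) (by fun_prop)
  have h3 : ∀ ω, exI (bk L b) x α y ω * (1 + sb C Z q x L y' b ω) ^ r ≤ exI (bk L b) x α y ω +
      ub q L b * (2 + C + C * U) ^ r * (exI (bk L b) x α y ω * Real.exp (4 * Z * r * ‖Xs (bk L b) (sp x y') ω‖)) := by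
    intro ω
    have h4 := pow_s hC (ub_pos q L b).le (U := U) (by rw [hU]; exact ub_le hq L b) (E := Real.exp (4 * Z * ‖Xs (bk L b) (sp x y') ω‖))
      (by rw [← Real.exp_zero, Real.exp_le_exp]; positivity) r
    have h5 := mul_le_mul_of_nonneg_left h4 (exI_pos (bk L b) x α y ω).le
    have e1 : Real.exp (4 * Z * ‖Xs (bk L b) (sp x y') ω‖) ^ r = Real.exp (4 * Z * r * ‖Xs (bk L b) (sp x y') ω‖) := by
      rw [← Real.exp_nat_mul]
      congr 1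
      ring
    rw [e1] at h5
    unfold sb
    refine h5.trans (le_of_eq (by ring))
  have h6 := integral_mono (hv.mul (((RB.const 1).add (sb_rb hx L y' b)).pow r)).int (hv.add ((RB.const (ub q L b * (2 + C + C * U) ^ r)).mul (hv.mul hE))).int h3
  refine h6.trans ?_
  rw [integral_add hv.int ((RB.const _).mul (hv.mul hE)).int, integral_const_mul]
  have h7 := h1 (bk L b) h2 (h0 L b) x hx y' n α y hα
  have h8 : 0 < ∫ ω, exI (bk L b) x α y ω ∂tm := exI_ipos h2 hx α y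
  have h9 := Real.add_one_le_exp ((2 + C + C * U) ^ r * C1 * ub q L b)
  have hub := (ub_pos q L b).le
  have hD : 0 ≤ ub q L b * (2 + C + C * U) ^ r := by positivity
  have h10 := mul_le_mul_of_nonneg_left h7 hD
  have h11 := mul_le_mul_of_nonneg_right h9 h8.le
  nlinarith

theorem Tb_s (A : ℝ) {C : ℝ} (hC : 0 ≤ C) (Z r : ℕ) : ∃ C' : ℝ, 0 ≤ C' ∧ ∀ q : ℕ, 3 ≤ q → ∀ x : ℝ, 0 ≤ x → ∀ L y : ℝ,
    Tb A x L (fun ω => ∏ b ∈ Finset.range (NB L), (1 + sb C Z q x L y b ω) ^ r) (Real.exp (C' * uq q)) := by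
  obtain ⟨C', hC', h1⟩ := sb_blk A hC Z r
  refine ⟨C', hC', fun q hq x hx L y n α y' hα => ?_⟩
  refine (tilt_prod L hx α y' (g := fun b ω => (1 + sb C Z q x L y b ω) ^ r) (fun b => ((RB.const 1).add (sb_rb hx L y b)).pow r)
    (fun b ω ω' h => by simp only; rw [sb_dep C Z q x L y b ω ω' h]) (fun b ω => by have := sb_nonneg hC Z q x L y b ω; positivity)
    (fun b => h1 q hq x hx L y b n α y' hα)).trans ?_
  refine mul_le_mul_of_nonneg_right ?_ (exI_ipos PL_two hx α y').le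
  rw [← Real.exp_sum, ← Finset.mul_sum, Real.exp_le_exp]
  exact mul_le_mul_of_nonneg_left (ub_sum hq L) hC'

lemma hp_le {q : ℕ} (hq : 3 ≤ q) {x : ℝ} (hx : 0 ≤ x) (L y : ℝ) (b : ℕ) (ω : ℕ → ℝ) :
    ‖hp q x L y b ω‖ ^ 2 ≤ Real.exp (8 * K2) * Real.exp (2 * ‖Xs (bk L b) (sp x y) ω‖) * Real.exp (-(2 * ((q * (b + 1) : ℕ) : ℝ))) := by
  unfold hp
  have h1 : 1 ≤ q * (b + 1) := by nlinarith [Nat.zero_le b]
  refine (pe_bd h1).trans ?_
  rw [← Real.exp_add, ← Real.exp_add, Real.exp_le_exp]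
  have h2 := Pk_near (fun p (hp : p ∈ bk L b) => bk_two hp) hx y q ω
  have h3 := dl_le' (fun p (hp : p ∈ bk L b) => bk_two hp) hq
  have h4 := norm_sub_norm_le (Pk q (bk L b) x y ω) (Xs (bk L b) (sp x y) ω)
  rw [norm_sub_rev] at h4
  linarith

theorem Tb_pe (A : ℝ) {r : ℕ} (hr : 1 ≤ r) : ∃ C : ℝ, 0 < C ∧ ∀ q : ℕ, 3 ≤ q → ∀ x : ℝ, 0 ≤ x → ∀ L y : ℝ, ∀ b : ℕ, b < NB L →
    Tb A x L (fun ω => (‖hp q x L y b ω‖ ^ 2) ^ r) (C * Real.exp (-(2 * ((q * (b + 1) : ℕ) : ℝ)))) := by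
  obtain ⟨C0, hC0, h0⟩ := bk_inv
  obtain ⟨C1, hC1, h1⟩ := blk_x C0 A (lam := 2 * r) (by positivity)
  refine ⟨Real.exp (8 * K2) ^ r * C1, by positivity, fun q hq x hx L y b hb n α y' hα => ?_⟩
  obtain ⟨K, hK⟩ : ∃ K : ℝ, K = Real.exp (8 * K2) ^ r * C1 * Real.exp (-(2 * ((q * (b + 1) : ℕ) : ℝ))) := ⟨_, rfl⟩
  have h2 : ∀ p ∈ bk L b, 2 ≤ p := fun p hp => bk_two hp
  have hrb : RB fun ω => (‖hp q x L y b ω‖ ^ 2) ^ r := ((hp_cc q x L y b).norm.pow 2).pow r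
  have hE : RB fun ω => Real.exp (2 * r * ‖Xs (bk L b) (sp x y) ω‖) := (Xs_cc h2 hx y).norm.comp (g := fun t => Real.exp (2 * r * t)) (by fun_prop)
  have key : ∫ ω, exI (bk L b) x α y' ω * (‖hp q x L y b ω‖ ^ 2) ^ r ∂tm ≤ K * ∫ ω, exI (bk L b) x α y' ω ∂tm := by
    have h3 : ∀ ω, exI (bk L b) x α y' ω * (‖hp q x L y b ω‖ ^ 2) ^ r ≤ Real.exp (8 * K2) ^ r * Real.exp (-(2 * ((q * (b + 1) : ℕ) : ℝ))) *
        (exI (bk L b) x α y' ω * Real.exp (2 * r * ‖Xs (bk L b) (sp x y) ω‖)) := by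
      intro ω
      have h4 := pow_le_pow_left₀ (by positivity) (hp_le hq hx L y b ω) r
      have h5 : (Real.exp (8 * K2) * Real.exp (2 * ‖Xs (bk L b) (sp x y) ω‖) * Real.exp (-(2 * ((q * (b + 1) : ℕ) : ℝ)))) ^ r ≤
          Real.exp (8 * K2) ^ r * Real.exp (-(2 * ((q * (b + 1) : ℕ) : ℝ))) * Real.exp (2 * r * ‖Xs (bk L b) (sp x y) ω‖) := by
        rw [mul_pow, mul_pow]
        have e1 : Real.exp (2 * ‖Xs (bk L b) (sp x y) ω‖) ^ r = Real.exp (2 * r * ‖Xs (bk L b) (sp x y) ω‖) := by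
          rw [← Real.exp_nat_mul]
          congr 1
          ring
        have e2 : Real.exp (-(2 * ((q * (b + 1) : ℕ) : ℝ))) ^ r ≤ Real.exp (-(2 * ((q * (b + 1) : ℕ) : ℝ))) := by
          have h6 : Real.exp (-(2 * ((q * (b + 1) : ℕ) : ℝ))) ≤ 1 := by
            rw [← Real.exp_zero, Real.exp_le_exp]
            simp only [Left.neg_nonpos_iff]
            positivity
          calc _ ≤ Real.exp (-(2 * ((q * (b + 1) : ℕ) : ℝ))) ^ 1 := pow_le_pow_of_le_one (Real.exp_pos _).le h6 hr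
            _ = _ := pow_one _
        rw [e1]
        calc _ ≤ Real.exp (8 * K2) ^ r * Real.exp (2 * r * ‖Xs (bk L b) (sp x y) ω‖) * Real.exp (-(2 * ((q * (b + 1) : ℕ) : ℝ))) := by gcongr
          _ = _ := by ring
      have h6 := mul_le_mul_of_nonneg_left (h4.trans h5) (exI_pos (bk L b) x α y' ω).le
      refine h6.trans (le_of_eq (by ring))
    refine (integral_mono ((exI_cb h2 hx α y').mul hrb).int ((RB.const _).mul ((exI_cb h2 hx α y').mul hE)).int h3).trans ?_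
    rw [integral_const_mul, hK]
    have h7 := h1 (bk L b) h2 (h0 L b) x hx y n α y' hα
    have h8 := mul_le_mul_of_nonneg_left h7 (show 0 ≤ Real.exp (8 * K2) ^ r * Real.exp (-(2 * ((q * (b + 1) : ℕ) : ℝ))) by positivity)
    refine h8.trans (le_of_eq (by ring))
  have h3 := tilt_prod L hx α y' (g := fun b' ω => if b' = b then (‖hp q x L y b ω‖ ^ 2) ^ r else 1) (K := fun b' => if b' = b then K else 1)
    (fun b' => by
      by_cases h : b' = b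
      · simp only [if_pos h]; exact hrb
      · simp only [if_neg h]; exact RB.const 1)
    (fun b' ω ω' h' => by
      by_cases h : b' = b
      · simp only [if_pos h]; rw [hp_dep q x L y b (by rw [← h]; exact h')]
      · simp only [if_neg h])
    (fun b' ω => by
      by_cases h : b' = b
      · simp only [if_pos h]; positivity
      · simp only [if_neg h]; exact zero_le_one)
    (fun b' => by
      by_cases h : b' = b
      · simp only [if_pos h]; rw [h]; exact key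
      · simp only [if_neg h, mul_one, one_mul]; exact le_rfl)
  simp only [Finset.prod_ite_eq', Finset.mem_range, if_pos hb] at h3
  rw [← hK]
  exact h3

end Pool.Agent.H470
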