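import Pool.Agent.H470.Wa7

set_option autoImplicit false

/-! The total mollified weight under the tilted measures. -/

namespace Pool.Agent.H470

open MeasureTheory Filter Topology ProbabilityTheory Set
open scoped ENNReal
open Pool.Agent.TH806 (ec ec_norm ec_cont uu integrable_uu)

/-- the factor of the block -/
noncomputable def rb (Z q : ℕ) (x L z : ℝ) (a b : ℕ) (ω : ℕ → ℝ) : ℝ := ‖fc Z q x L z a b ω‖ ^ 2 * Real.exp (-(2 * z) * (Xs (bk L b) (sp x 0) ω).re)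

noncomputable def rh (Z q : ℕ) (x L z : ℝ) (a : ℕ) (ω : ℕ → ℝ) : ℝ := ‖Ra Z q x L z a ω‖ ^ 2 * Real.exp (-(2 * z) * (Xs (pr (PL L)) (sp x 0) ω).re)

noncomputable def rho (Z q : ℕ) (x L z : ℝ) (ω : ℕ → ℝ) : ℝ := ∑ a ∈ Finset.range (NB L + 1), rh Z q x L z a ω

lemma rh_prod (Z q : ℕ) (x L z : ℝ) (a : ℕ) (ω : ℕ → ℝ) : rh Z q x L z a ω = ∏ b ∈ Finset.range (NB L), rb Z q x L z a b ω := by
  unfold rh rb Ra
  rw [Finset.prod_mul_distrib, norm_prod, Finset.prod_pow, ← Real.exp_sum, Xs_bk, Complex.re_sum, Finset.mul_sum]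

lemma rb_nonneg (Z q : ℕ) (x L z : ℝ) (a b : ℕ) (ω : ℕ → ℝ) : 0 ≤ rb Z q x L z a b ω := by unfold rb; positivity

lemma rh_nonneg (Z q : ℕ) (x L z : ℝ) (a : ℕ) (ω : ℕ → ℝ) : 0 ≤ rh Z q x L z a ω := by unfold rh; positivity

lemma rho_nonneg (Z q : ℕ) (x L z : ℝ) (ω : ℕ → ℝ) : 0 ≤ rho Z q x L z ω := Finset.sum_nonneg fun a _ => rh_nonneg _ _ _ _ _ _ _

lemma rb_rb (Z q : ℕ) {x : ℝ} (hx : 0 ≤ x) (L z : ℝ) (a b : ℕ) : RB (rb Z q x L z a b) := by
  unfold rb
  exact ((fc_cc Z q x L z a b).norm.pow 2).mul ((Xs_cc (fun p hp => bk_two hp) hx 0).re.comp (g := fun t => Real.exp (-(2 * z) * t)) (by fun_prop))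

lemma rh_rb (Z q : ℕ) {x : ℝ} (hx : 0 ≤ x) (L z : ℝ) (a : ℕ) : RB (rh Z q x L z a) := by
  unfold rh
  exact ((Ra_cc Z q x L z a).norm.pow 2).mul ((Xs_cc PL_two hx 0).re.comp (g := fun t => Real.exp (-(2 * z) * t)) (by fun_prop))

lemma rho_rb (Z q : ℕ) {x : ℝ} (hx : 0 ≤ x) (L z : ℝ) : RB (rho Z q x L z) := RB.sum _ fun a _ => rh_rb Z q hx L z a

lemma rb_dep (Z q : ℕ) (x L z : ℝ) (a b : ℕ) : Dep (bk L b) (rb Z q x L z a b) := by
  intro ω ω' h
  unfold rb
  rw [fc_dep Z q x L z a b h, Xs_dep _ _ h]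

/-- the three kinds of blocks -/
lemma rb_cases (Z : ℕ) (hZ : 1 ≤ Z) : ∃ C : ℝ, 0 < C ∧ ∀ q : ℕ, 3 ≤ q → ∀ x : ℝ, 0 ≤ x → ∀ (L z : ℝ), |z| ≤ Z → ∀ (a b : ℕ) (ω : ℕ → ℝ),
    (a ≤ b → rb Z q x L z a b ω ≤ (1 + sb C Z q x L 0 b ω) ^ 2) ∧
    (b + 1 = a → rb Z q x L z a b ω ≤ Real.exp (8 * K2) * Real.exp (-(2 * ((q * a : ℕ) : ℝ))) * Real.exp ((2 * Z + 2) * ‖Xs (bk L b) (sp x 0) ω‖)) ∧
    (b + 1 < a → rb Z q x L z a b ω ≤ Real.exp ((2 * Z + 2) * ‖Xs (bk L b) (sp x 0) ω‖)) := by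
  obtain ⟨C, hC, h⟩ := ta_near Z hZ
  have hZ' : (1:ℝ) ≤ Z := by exact_mod_cast hZ
  refine ⟨C, hC, fun q hq x hx L z hz a b ω => ⟨fun hab => ?_, fun hab => ?_, fun hab => ?_⟩⟩
  · have h1 := h q hq x hx L 0 z hz b ω
    have h2 : ‖ta Z q x L z 0 b ω * Complex.exp (-((z:ℂ) * Xs (bk L b) (sp x 0) ω))‖ ≤ 1 + sb C Z q x L 0 b ω := by
      have := norm_sub_norm_le (ta Z q x L z 0 b ω * Complex.exp (-((z:ℂ) * Xs (bk L b) (sp x 0) ω))) 1
      rw [norm_one] at this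
      linarith
    have h3 := pow_le_pow_left₀ (norm_nonneg _) h2 2
    refine le_trans (le_of_eq ?_) h3
    unfold rb fc
    rw [if_pos hab, norm_mul, mul_pow, Complex.norm_exp, ← Real.exp_nat_mul]
    congr 2
    rw [Complex.neg_re, Complex.re_ofReal_mul]
    push_cast
    ring
  · have h1 := hp_le hq hx L 0 b ω
    have h2 : Real.exp (-(2 * z) * (Xs (bk L b) (sp x 0) ω).re) ≤ Real.exp (2 * Z * ‖Xs (bk L b) (sp x 0) ω‖) := by
      rw [Real.exp_le_exp]
      have h3 := Complex.abs_re_le_norm (Xs (bk L b) (sp x 0) ω)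
      have h4 : |-(2 * z) * (Xs (bk L b) (sp x 0) ω).re| ≤ 2 * Z * ‖Xs (bk L b) (sp x 0) ω‖ := by
        rw [abs_mul, abs_neg, abs_mul, abs_two]
        exact mul_le_mul (by linarith) h3 (abs_nonneg _) (by positivity)
      exact (le_abs_self _).trans h4
    unfold rb fc
    rw [if_neg (by omega), if_pos hab, ← hab]
    refine (mul_le_mul h1 h2 (Real.exp_pos _).le (by positivity)).trans (le_of_eq ?_)
    have : Real.exp ((2 * Z + 2) * ‖Xs (bk L b) (sp x 0) ω‖) = Real.exp (2 * ‖Xs (bk L b) (sp x 0) ω‖) * Real.exp (2 * Z * ‖Xs (bk L b) (sp x 0) ω‖) := by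
      rw [← Real.exp_add]
      congr 1
      ring
    rw [this]
    ring
  · unfold rb fc
    rw [if_neg (by omega), if_neg (by omega), norm_one, one_pow, one_mul, Real.exp_le_exp]
    have h3 := Complex.abs_re_le_norm (Xs (bk L b) (sp x 0) ω)
    have h4 : |-(2 * z) * (Xs (bk L b) (sp x 0) ω).re| ≤ (2 * Z + 2) * ‖Xs (bk L b) (sp x 0) ω‖ := by
      rw [abs_mul, abs_neg, abs_mul, abs_two]
      exact mul_le_mul (by linarith) h3 (abs_nonneg _) (by positivity)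
    exact (le_abs_self _).trans h4

theorem Tb_R (A : ℝ) {Z : ℕ} (hZ : 1 ≤ Z) {r : ℕ} (hr : 1 ≤ r) : ∃ C : ℝ, 0 < C ∧ ∃ q0 : ℕ, 3 ≤ q0 ∧ ∀ q : ℕ, q0 ≤ q → ∀ x : ℝ, 0 ≤ x → ∀ L z : ℝ, |z| ≤ Z → ∀ a : ℕ, a ≤ NB L →
    Tb A x L (fun ω => rh Z q x L z a ω ^ r) (C * Real.exp (-((q:ℝ) * a))) := by
  obtain ⟨C, hC, h⟩ := rb_cases Z hZ
  obtain ⟨C0, hC0, h0⟩ := bk_inv
  obtain ⟨C1, hC1, h1⟩ := blk_x C0 A (lam := (2 * Z + 2) * r) (by positivity)
  obtain ⟨C2, hC2, h2⟩ := sb_blk A hC.le Z (2 * r)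
  obtain ⟨c3, hc3⟩ : ∃ c3 : ℝ, c3 = Real.log C1 + 8 * K2 * r := ⟨_, rfl⟩
  have hK := K2_nonneg
  have hc30 : 0 ≤ c3 := by rw [hc3]; have := Real.log_nonneg hC1; positivity
  refine ⟨Real.exp (C2 * (2 + 4 * K2)), Real.exp_pos _, max 3 ⌈c3⌉₊, le_max_left _ _, fun q hq x hx L z hz a ha n α y hα => ?_⟩
  have hq3 : 3 ≤ q := (le_max_left _ _).trans hq
  have hqc : c3 ≤ q := (Nat.le_ceil c3).trans (by exact_mod_cast (le_max_right _ _).trans hq)
  have hC1' : C1 ≤ Real.exp c3 := by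
    rw [hc3, Real.exp_add, Real.exp_log (by linarith)]
    have : 1 ≤ Real.exp (8 * K2 * r) := by rw [← Real.exp_zero, Real.exp_le_exp]; positivity
    nlinarith
  have hC1'' : Real.exp (8 * K2) ^ r * C1 = Real.exp c3 := by
    rw [hc3, Real.exp_add, Real.exp_log (by linarith), ← Real.exp_nat_mul]
    rw [mul_comm]
    congr 2
    ring
  -- the constants
  obtain ⟨K, hKdef⟩ : ∃ K : ℕ → ℝ, K = fun b => Real.exp (C2 * ub q L b + ((if b < a then c3 else 0) - (if b + 1 = a then 2 * (q:ℝ) * a else 0))) := ⟨_, rfl⟩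
  have hKb : ∀ b, ∫ ω, exI (bk L b) x α y ω * rb Z q x L z a b ω ^ r ∂tm ≤ K b * ∫ ω, exI (bk L b) x α y ω ∂tm := by
    intro b
    have hb2 : ∀ p ∈ bk L b, 2 ≤ p := fun p hp => bk_two hp
    have hv := exI_cb hb2 hx α y
    have hpos := exI_ipos hb2 hx α y
    have hE : RB fun ω => Real.exp ((2 * Z + 2) * r * ‖Xs (bk L b) (sp x 0) ω‖) := (Xs_cc hb2 hx 0).norm.comp (g := fun t => Real.exp ((2 * Z + 2) * r * t)) (by fun_prop)
    have hub := (ub_pos q L b).le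
    have h7 := h1 (bk L b) hb2 (h0 L b) x hx 0 n α y hα
    have hcmp := fun ω => h q hq3 x hx L z hz a b ω
    rcases lt_trichotomy (b + 1) a with hab | hab | hab
    · -- the lost blocks
      have e1 : K b = Real.exp (C2 * ub q L b) * Real.exp c3 := by
        rw [hKdef]
        simp only
        rw [if_pos (by omega), if_neg (by omega), sub_zero, Real.exp_add]
      have h3 : ∀ ω, exI (bk L b) x α y ω * rb Z q x L z a b ω ^ r ≤ exI (bk L b) x α y ω * Real.exp ((2 * Z + 2) * r * ‖Xs (bk L b) (sp x 0) ω‖) := by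
        intro ω
        refine mul_le_mul_of_nonneg_left ?_ (exI_pos _ _ _ _ _).le
        refine (pow_le_pow_left₀ (rb_nonneg _ _ _ _ _ _ _ _) ((hcmp ω).2.2 hab) r).trans (le_of_eq ?_)
        rw [← Real.exp_nat_mul]
        congr 1
        ring
      refine (integral_mono (hv.mul ((rb_rb Z q hx L z a b).pow r)).int (hv.mul hE).int h3).trans ?_
      rw [e1]
      have h8 : 1 ≤ Real.exp (C2 * ub q L b) := by rw [← Real.exp_zero, Real.exp_le_exp]; positivity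
      have h9 : C1 ≤ Real.exp (C2 * ub q L b) * Real.exp c3 := by nlinarith [Real.exp_pos c3]
      exact h7.trans (mul_le_mul_of_nonneg_right h9 hpos.le)
    · -- the bad block
      have e1 : K b = Real.exp (C2 * ub q L b) * (Real.exp c3 * Real.exp (-(2 * (q:ℝ) * a))) := by
        rw [hKdef]
        simp only
        rw [if_pos (by omega), if_pos hab, Real.exp_add, sub_eq_add_neg, Real.exp_add]
      have h3 : ∀ ω, exI (bk L b) x α y ω * rb Z q x L z a b ω ^ r ≤ (Real.exp (8 * K2) ^ r * Real.exp (-(2 * (q:ℝ) * a))) *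
          (exI (bk L b) x α y ω * Real.exp ((2 * Z + 2) * r * ‖Xs (bk L b) (sp x 0) ω‖)) := by
        intro ω
        have h4 := pow_le_pow_left₀ (rb_nonneg _ _ _ _ _ _ _ _) ((hcmp ω).2.1 hab) r
        have h5 : (Real.exp (8 * K2) * Real.exp (-(2 * ((q * a : ℕ) : ℝ))) * Real.exp ((2 * Z + 2) * ‖Xs (bk L b) (sp x 0) ω‖)) ^ r ≤
            Real.exp (8 * K2) ^ r * Real.exp (-(2 * (q:ℝ) * a)) * Real.exp ((2 * Z + 2) * r * ‖Xs (bk L b) (sp x 0) ω‖) := by
          rw [mul_pow, mul_pow]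
          have e1 : Real.exp ((2 * Z + 2) * ‖Xs (bk L b) (sp x 0) ω‖) ^ r = Real.exp ((2 * Z + 2) * r * ‖Xs (bk L b) (sp x 0) ω‖) := by
            rw [← Real.exp_nat_mul]
            congr 1
            ring
          have e3 : -(2 * ((q * a : ℕ) : ℝ)) = -(2 * (q:ℝ) * a) := by push_cast; ring
          have e2 : Real.exp (-(2 * ((q * a : ℕ) : ℝ))) ^ r ≤ Real.exp (-(2 * (q:ℝ) * a)) := by
            rw [e3]
            have h6 : Real.exp (-(2 * (q:ℝ) * a)) ≤ 1 := by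
              rw [← Real.exp_zero, Real.exp_le_exp]
              simp only [Left.neg_nonpos_iff]
              positivity
            calc _ ≤ Real.exp (-(2 * (q:ℝ) * a)) ^ 1 := pow_le_pow_of_le_one (Real.exp_pos _).le h6 hr
              _ = _ := pow_one _
          rw [e1]
          gcongr
        have h6 := mul_le_mul_of_nonneg_left (h4.trans h5) (exI_pos (bk L b) x α y ω).le
        refine h6.trans (le_of_eq (by ring))
      refine (integral_mono (hv.mul ((rb_rb Z q hx L z a b).pow r)).int ((RB.const _).mul (hv.mul hE)).int h3).trans ?_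
      rw [integral_const_mul, e1]
      have h8 : 1 ≤ Real.exp (C2 * ub q L b) := by rw [← Real.exp_zero, Real.exp_le_exp]; positivity
      have h9 := mul_le_mul_of_nonneg_left h7 (show 0 ≤ Real.exp (8 * K2) ^ r * Real.exp (-(2 * (q:ℝ) * a)) by positivity)
      refine h9.trans ?_
      have e4 : Real.exp (8 * K2) ^ r * Real.exp (-(2 * (q:ℝ) * a)) * (C1 * ∫ ω, exI (bk L b) x α y ω ∂tm) =
          (Real.exp c3 * Real.exp (-(2 * (q:ℝ) * a))) * ∫ ω, exI (bk L b) x α y ω ∂tm := by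
        rw [← hC1'']
        ring
      rw [e4]
      refine mul_le_mul_of_nonneg_right ?_ hpos.le
      have h10 : 0 < Real.exp c3 * Real.exp (-(2 * (q:ℝ) * a)) := by positivity
      nlinarith
    · -- the good blocks
      have hab' : a ≤ b := by omega
      have e1 : K b = Real.exp (C2 * ub q L b) := by
        rw [hKdef]
        simp only
        rw [if_neg (by omega), if_neg (by omega), sub_zero, add_zero]
      have h3 : ∀ ω, exI (bk L b) x α y ω * rb Z q x L z a b ω ^ r ≤ exI (bk L b) x α y ω * (1 + sb C Z q x L 0 b ω) ^ (2 * r) := by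
        intro ω
        refine mul_le_mul_of_nonneg_left ?_ (exI_pos _ _ _ _ _).le
        rw [pow_mul]
        exact pow_le_pow_left₀ (rb_nonneg _ _ _ _ _ _ _ _) ((hcmp ω).1 hab') r
      refine (integral_mono (hv.mul ((rb_rb Z q hx L z a b).pow r)).int (hv.mul (((RB.const 1).add (sb_rb hx L 0 b)).pow (2 * r))).int h3).trans ?_
      rw [e1]
      exact h2 q hq3 x hx L 0 b n α y hα
  have e5 : ∀ ω, rh Z q x L z a ω ^ r = ∏ b ∈ Finset.range (NB L), rb Z q x L z a b ω ^ r := by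
    intro ω
    rw [rh_prod, Finset.prod_pow]
  simp_rw [e5]
  refine (tilt_prod L hx α y (g := fun b ω => rb Z q x L z a b ω ^ r) (fun b => (rb_rb Z q hx L z a b).pow r)
    (fun b ω ω' h' => by simp only; rw [rb_dep Z q x L z a b ω ω' h']) (fun b ω => by have := rb_nonneg Z q x L z a b ω; positivity) hKb).trans ?_
  refine mul_le_mul_of_nonneg_right ?_ (exI_ipos PL_two hx α y).le
  rw [hKdef, ← Real.exp_sum, ← Real.exp_add, Real.exp_le_exp, Finset.sum_add_distrib, ← Finset.mul_sum, Finset.sum_sub_distrib]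
  have h8 := mul_le_mul_of_nonneg_left (ub_sum hq3 L) hC2
  have h9 := mul_le_mul_of_nonneg_left (uq_le q) hC2
  have h10 : ∑ b ∈ Finset.range (NB L), (if b < a then c3 else 0) = a * c3 := by
    rw [← Finset.sum_filter, Finset.sum_const, nsmul_eq_mul]
    congr 2
    have : (Finset.range (NB L)).filter (fun b => b < a) = Finset.range a := by
      ext b
      simp only [Finset.mem_filter, Finset.mem_range]
      omega
    rw [this, Finset.card_range]
  have h11 : ∑ b ∈ Finset.range (NB L), (if b + 1 = a then 2 * (q:ℝ) * a else 0) = 2 * (q:ℝ) * a := by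
    rcases Nat.eq_zero_or_pos a with h0 | h0
    · rw [h0]
      simp
    · have e6 : ∀ b ∈ Finset.range (NB L), (if b + 1 = a then 2 * (q:ℝ) * a else 0) = if b = a - 1 then 2 * (q:ℝ) * a else 0 := by
        intro b _
        have : (b + 1 = a) ↔ (b = a - 1) := by omega
        simp only [this]
      rw [Finset.sum_congr rfl e6, Finset.sum_ite_eq', if_pos (Finset.mem_range.mpr (by omega))]
  rw [h10, h11]
  have h12 : (a:ℝ) * c3 ≤ a * q := mul_le_mul_of_nonneg_left hqc (by positivity)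
  linarith

lemma pow_sum_le {n : ℕ} {f : ℕ → ℝ} (hf : ∀ a, 0 ≤ f a) (r : ℕ) : (∑ a ∈ Finset.range (n + 1), f a) ^ r ≤ ∑ a ∈ Finset.range (n + 1), (2:ℝ) ^ ((a + 1) * r) * f a ^ r := by
  obtain ⟨m, hm, hmax⟩ := Finset.exists_max_image (Finset.range (n + 1)) (fun a => (2:ℝ) ^ (a + 1) * f a) ⟨0, Finset.mem_range.mpr (by omega)⟩
  have h1 : ∑ a ∈ Finset.range (n + 1), f a ≤ (2:ℝ) ^ (m + 1) * f m := by
    have h2 : ∀ a ∈ Finset.range (n + 1), f a ≤ ((2:ℝ) ^ (m + 1) * f m) * ((1 / 2) * (1 / 2) ^ a) := by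
      intro a ha
      have h3 := hmax a ha
      have h4 : f a = ((2:ℝ) ^ (a + 1) * f a) * ((1 / 2) * (1 / 2) ^ a) := by
        rw [pow_succ]
        have : (2:ℝ) ^ a * (1 / 2) ^ a = 1 := by rw [← mul_pow]; norm_num
        linear_combination (-(f a)) * this
      rw [h4]
      exact mul_le_mul_of_nonneg_right h3 (by positivity)
    refine (Finset.sum_le_sum h2).trans ?_
    rw [← Finset.mul_sum, ← Finset.mul_sum]
    have h7 := Summable.sum_le_tsum (Finset.range (n + 1)) (fun i _ => by positivity) summable_geometric_two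
    rw [tsum_geometric_two] at h7
    have h8 : 0 ≤ (2:ℝ) ^ (m + 1) * f m := mul_nonneg (by positivity) (hf m)
    nlinarith
  refine (pow_le_pow_left₀ (Finset.sum_nonneg fun a _ => hf a) h1 r).trans ?_
  rw [mul_pow, ← pow_mul]
  exact Finset.single_le_sum (f := fun a => (2:ℝ) ^ ((a + 1) * r) * f a ^ r) (fun a _ => mul_nonneg (by positivity) (pow_nonneg (hf a) r)) hm

theorem Tb_rho (A : ℝ) {Z : ℕ} (hZ : 1 ≤ Z) {r : ℕ} (hr : 1 ≤ r) : ∃ C : ℝ, 0 < C ∧ ∃ q0 : ℕ, 3 ≤ q0 ∧ ∀ q : ℕ, q0 ≤ q → ∀ x : ℝ, 0 ≤ x → ∀ L z : ℝ, |z| ≤ Z →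
    Tb A x L (fun ω => rho Z q x L z ω ^ r) C := by
  obtain ⟨C, hC, q0, hq0, h⟩ := Tb_R A hZ hr
  refine ⟨C * 2 ^ r * 2, by positivity, max q0 (r + 1), le_max_of_le_left hq0, fun q hq x hx L z hz => ?_⟩
  have hqq : q0 ≤ q := (le_max_left _ _).trans hq
  have hqr : r + 1 ≤ q := (le_max_right _ _).trans hq
  have h1 : Tb A x L (fun ω => ∑ a ∈ Finset.range (NB L + 1), (2:ℝ) ^ ((a + 1) * r) * rh Z q x L z a ω ^ r)
      (∑ a ∈ Finset.range (NB L + 1), (2:ℝ) ^ ((a + 1) * r) * (C * Real.exp (-((q:ℝ) * a)))) := by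
    refine Tb.sum hx _ (fun a _ => (RB.const _).mul ((rh_rb Z q hx L z a).pow r)) fun a ha => ?_
    rw [Finset.mem_range] at ha
    exact (h q hqq x hx L z hz a (by omega)).smul (by positivity)
  have h2 : ∑ a ∈ Finset.range (NB L + 1), (2:ℝ) ^ ((a + 1) * r) * (C * Real.exp (-((q:ℝ) * a))) ≤ C * 2 ^ r * 2 := by
    have h3 : ∀ a ∈ Finset.range (NB L + 1), (2:ℝ) ^ ((a + 1) * r) * (C * Real.exp (-((q:ℝ) * a))) ≤ (C * 2 ^ r) * (1 / 2) ^ a := by
      intro a _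
      have e1 : (2:ℝ) ^ ((a + 1) * r) * (C * Real.exp (-((q:ℝ) * a))) = (C * 2 ^ r) * (2 ^ r * Real.exp (-(q:ℝ))) ^ a := by
        rw [mul_pow, ← Real.exp_nat_mul, ← pow_mul, add_mul, one_mul, pow_add]
        have : -((q:ℝ) * a) = a * -(q:ℝ) := by ring
        rw [this, mul_comm r a]
        ring
      rw [e1]
      refine mul_le_mul_of_nonneg_left (pow_le_pow_left₀ (by positivity) ?_ a) (by positivity)
      have h4 : Real.exp (-(q:ℝ)) ≤ (1 / 2) ^ q := by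
        have : Real.exp (-(q:ℝ)) = Real.exp (-1) ^ q := by rw [← Real.exp_nat_mul]; congr 1; ring
        rw [this]
        refine pow_le_pow_left₀ (Real.exp_pos _).le ?_ q
        rw [Real.exp_neg, ← one_div]
        exact one_div_le_one_div_of_le (by norm_num) (by have := Real.exp_one_gt_d9; linarith)
      have h5 : ((1:ℝ) / 2) ^ q ≤ (1 / 2) ^ (r + 1) := pow_le_pow_of_le_one (by norm_num) (by norm_num) hqr
      have h6 : (2:ℝ) ^ r * (1 / 2) ^ (r + 1) = 1 / 2 := by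
        rw [pow_succ, ← mul_assoc, ← mul_pow]
        norm_num
      calc (2:ℝ) ^ r * Real.exp (-(q:ℝ)) ≤ 2 ^ r * (1 / 2) ^ (r + 1) := by gcongr; exact h4.trans h5
        _ = 1 / 2 := h6
    refine (Finset.sum_le_sum h3).trans ?_
    rw [← Finset.mul_sum]
    have h7 := Summable.sum_le_tsum (Finset.range (NB L + 1)) (fun i _ => by positivity) summable_geometric_two
    rw [tsum_geometric_two] at h7
    exact mul_le_mul_of_nonneg_left h7 (by positivity)
  refine Tb.mono hx ((rho_rb Z q hx L z).pow r) (RB.sum _ fun a _ => (RB.const _).mul ((rh_rb Z q hx L z a).pow r)) (fun ω => ?_) (Tb.le hx h1 h2)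
  exact pow_sum_le (fun a => rh_nonneg _ _ _ _ _ _ _) r

end Pool.Agent.H470
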