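import Pool.Agent.H470.Wa8

set_option autoImplicit false

/-! Pointwise majorants by squares of short polynomials. -/

namespace Pool.Agent.H470

open MeasureTheory Filter Topology ProbabilityTheory Set
open scoped ENNReal
open Pool.Agent.TH806 (ec ec_norm ec_cont uu integrable_uu)

lemma ch_pp {p : ℕ} (hp : p.Prime) (m : ℕ) (ω : ℕ → ℝ) : ch (p ^ m) ω = ec (ω p) ^ m := by
  induction m with
  | zero => simp [ch_one]
  | succ m ih => rw [pow_succ, pow_succ, ch_mul (pow_ne_zero m hp.ne_zero) hp.ne_zero, ih, ch_prime hp]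

lemma Pk_sp (q : ℕ) {L : ℝ} (hL : 0 ≤ L) (x y : ℝ) (b : ℕ) : Sp (q * (L * Real.exp (-b))) (Pk q (bk L b) x y) := by
  have hl : 0 ≤ (q:ℝ) * (L * Real.exp (-b)) := by positivity
  unfold Pk
  refine Sp.sum hl _ fun p hp => Sp.sum hl _ fun m hm => ?_
  have hpp := pr_prime (bk_sub L b hp)
  rw [Finset.mem_Icc] at hm
  have h1 : Real.log ((p ^ m : ℕ) : ℝ) ≤ q * (L * Real.exp (-b)) := by
    push_cast
    rw [Real.log_pow]
    have h2 := (bk_log hp).1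
    have h3 : (m:ℝ) ≤ q := by exact_mod_cast hm.2
    have h4 : 0 ≤ Real.log p := Real.log_nonneg (by exact_mod_cast hpp.one_le)
    exact mul_le_mul h3 h2 h4 (by positivity)
  have h2 := ((Sp.chr (pow_ne_zero m hpp.ne_zero)).mono h1).smul (((p:ℂ) ^ (-sp x y)) ^ m / m)
  refine (funext fun ω => ?_ : (fun ω => ((p:ℂ) ^ (-sp x y) * ec (ω p)) ^ m / (m:ℂ)) = fun ω => ((p:ℂ) ^ (-sp x y)) ^ m / m * ch (p ^ m) ω) ▸ h2
  rw [ch_pp hpp, mul_pow]
  ring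

lemma te_sp (n : ℕ) {l : ℝ} (hl : 0 ≤ l) {Q : (ℕ → ℝ) → ℂ} (h : Sp l Q) : Sp (n * l) (fun ω => te n (Q ω)) := by
  unfold te
  refine Sp.sum (by positivity) _ fun j hj => ?_
  rw [Finset.mem_range] at hj
  have h1 : (j:ℝ) * l ≤ n * l := mul_le_mul_of_nonneg_right (by exact_mod_cast (by omega : j ≤ n)) hl
  have h2 := ((h.pow j).mono h1).smul (1 / (j.factorial : ℂ))
  refine (funext fun ω => ?_ : (fun ω => Q ω ^ j / (j.factorial : ℂ)) = fun ω => 1 / (j.factorial : ℂ) * Q ω ^ j) ▸ h2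
  ring

lemma wb_le (b : ℕ) : ((b:ℝ) + 1) * Real.exp (-b) ≤ (3 / 4) ^ b := by
  induction b with
  | zero => simp
  | succ b ih =>
    have e1 : Real.exp (-((b + 1 : ℕ) : ℝ)) = Real.exp (-b) * Real.exp (-1) := by
      rw [← Real.exp_add]
      congr 1
      push_cast
      ring
    have h2 : Real.exp (-1) ≤ 3 / 8 := by
      rw [Real.exp_neg, inv_le_comm₀ (Real.exp_pos _) (by norm_num)]
      have := Real.exp_one_gt_d9
      norm_num
      linarith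
    rw [e1, pow_succ]
    push_cast
    have h0 : (0:ℝ) ≤ b := by positivity
    have h3 : (b:ℝ) + 1 + 1 ≤ 2 * (b + 1) := by linarith
    have h4 : 0 < Real.exp (-(b:ℝ)) := Real.exp_pos _
    calc ((b:ℝ) + 1 + 1) * (Real.exp (-b) * Real.exp (-1)) ≤ (2 * (b + 1)) * (Real.exp (-b) * (3 / 8)) := by gcongr
      _ = (((b:ℝ) + 1) * Real.exp (-b)) * (3 / 4) := by ring
      _ ≤ _ := by gcongr

lemma geo_le (n : ℕ) : ∑ b ∈ Finset.range n, ((3:ℝ) / 4) ^ b ≤ 4 := by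
  have h1 := Summable.sum_le_tsum (Finset.range n) (fun i _ => by positivity) (summable_geometric_of_lt_one (r := (3:ℝ) / 4) (by norm_num) (by norm_num))
  rw [tsum_geometric_of_lt_one (by norm_num) (by norm_num)] at h1
  norm_num at h1
  exact h1

lemma ta_sp (Z q : ℕ) {L : ℝ} (hL : 0 ≤ L) (x z y : ℝ) (b : ℕ) : Sp (8 * Z * (q:ℝ) ^ 2 * L * (3 / 4) ^ b) (ta Z q x L z y b) := by
  have h1 := te_sp (8 * Z * (q * (b + 1))) (by positivity) ((Pk_sp q hL x y b).smul (z:ℂ))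
  refine Sp.mono ?_ h1
  push_cast
  have h2 := wb_le b
  have h3 := mul_le_mul_of_nonneg_left h2 (show 0 ≤ 8 * (Z:ℝ) * (q:ℝ) ^ 2 * L by positivity)
  refine le_trans (le_of_eq ?_) h3
  ring

lemma hp_sp (q : ℕ) {L : ℝ} (hL : 0 ≤ L) (x y : ℝ) (b : ℕ) : Sp ((q:ℝ) ^ 2 * L * (3 / 4) ^ b) (hp q x L y b) := by
  have h1 := ((Pk_sp q hL x y b).smul (1 / ((q * (b + 1) : ℕ) : ℂ))).pow (q * (b + 1))
  have e1 : hp q x L y b = fun ω => (1 / ((q * (b + 1) : ℕ) : ℂ) * Pk q (bk L b) x y ω) ^ (q * (b + 1)) := by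
    funext ω
    unfold hp
    congr 1
    ring
  rw [e1]
  refine Sp.mono ?_ h1
  push_cast
  have h2 := wb_le b
  have h3 := mul_le_mul_of_nonneg_left h2 (show 0 ≤ (q:ℝ) ^ 2 * L by positivity)
  refine le_trans (le_of_eq ?_) h3
  ring

lemma hp_sp' (q : ℕ) {L : ℝ} (hL : 0 ≤ L) (x y : ℝ) (b : ℕ) : Sp ((q:ℝ) ^ 2 * L) (hp q x L y b) := by
  refine (hp_sp q hL x y b).mono ?_
  have h1 : ((3:ℝ) / 4) ^ b ≤ 1 := pow_le_one₀ (by norm_num) (by norm_num)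
  have h2 : 0 ≤ (q:ℝ) ^ 2 * L := by positivity
  nlinarith

lemma Ra_sp {Z : ℕ} (hZ : 1 ≤ Z) (q : ℕ) {L : ℝ} (hL : 0 ≤ L) (x z : ℝ) (a : ℕ) : Sp (32 * Z * (q:ℝ) ^ 2 * L) (Ra Z q x L z a) := by
  have hZ' : (1:ℝ) ≤ Z := by exact_mod_cast hZ
  have h1 : ∀ b ∈ Finset.range (NB L), Sp (8 * Z * (q:ℝ) ^ 2 * L * (3 / 4) ^ b) (fc Z q x L z a b) := by
    intro b _
    by_cases hab : a ≤ b
    · have : fc Z q x L z a b = ta Z q x L z 0 b := by funext ω; unfold fc; rw [if_pos hab]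
      rw [this]
      exact ta_sp Z q hL x z 0 b
    · by_cases h2 : b + 1 = a
      · have : fc Z q x L z a b = hp q x L 0 b := by funext ω; unfold fc; rw [if_neg hab, if_pos h2]
        rw [this]
        refine (hp_sp q hL x 0 b).mono ?_
        have : 0 ≤ (q:ℝ) ^ 2 * L * (3 / 4) ^ b := by positivity
        nlinarith
      · have : fc Z q x L z a b = fun _ => 1 := by funext ω; unfold fc; rw [if_neg hab, if_neg h2]
        rw [this]
        exact Sp.const (by positivity) 1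
  refine Sp.mono ?_ (Sp.prod (Finset.range (NB L)) h1)
  rw [← Finset.mul_sum]
  have h3 := mul_le_mul_of_nonneg_left (geo_le (NB L)) (show 0 ≤ 8 * (Z:ℝ) * (q:ℝ) ^ 2 * L by positivity)
  linarith

lemma Ey_sp (Z q : ℕ) {L : ℝ} (hL : 0 ≤ L) (x z y : ℝ) : Sp (32 * Z * (q:ℝ) ^ 2 * L) (Ey Z q x L z y) := by
  refine Sp.mono ?_ (Sp.prod (Finset.range (NB L)) fun b _ => ta_sp Z q hL x z y b)
  rw [← Finset.mul_sum]
  have h3 := mul_le_mul_of_nonneg_left (geo_le (NB L)) (show 0 ≤ 8 * (Z:ℝ) * (q:ℝ) ^ 2 * L by positivity)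
  linarith

/-- the time average -/
noncomputable def At (T : ℝ) (f : (ℕ → ℝ) → ℝ) : ℝ := 1 / T * ∫ t in (0:ℝ)..T, f (fl t)

lemma At_ii {f : (ℕ → ℝ) → ℝ} (hf : Continuous f) (T : ℝ) : IntervalIntegrable (fun t => f (fl t)) volume 0 T := (hf.comp fl_cont).intervalIntegrable _ _

lemma At_mono {T : ℝ} (hT : 0 < T) {f g : (ℕ → ℝ) → ℝ} (hf : Continuous f) (hg : Continuous g) (h : ∀ ω, f ω ≤ g ω) : At T f ≤ At T g := by
  unfold At
  refine mul_le_mul_of_nonneg_left ?_ (by positivity)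
  exact intervalIntegral.integral_mono_on hT.le (At_ii hf T) (At_ii hg T) fun t _ => h _

lemma At_nonneg {T : ℝ} (hT : 0 < T) {f : (ℕ → ℝ) → ℝ} (h : ∀ ω, 0 ≤ f ω) : 0 ≤ At T f := by
  unfold At
  exact mul_nonneg (by positivity) (intervalIntegral.integral_nonneg hT.le fun t _ => h _)

lemma At_add {T : ℝ} {f g : (ℕ → ℝ) → ℝ} (hf : Continuous f) (hg : Continuous g) : At T (fun ω => f ω + g ω) = At T f + At T g := by
  unfold At
  rw [intervalIntegral.integral_add (At_ii hf T) (At_ii hg T)]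
  ring

lemma At_smul (T c : ℝ) (f : (ℕ → ℝ) → ℝ) : At T (fun ω => c * f ω) = c * At T f := by
  unfold At
  rw [intervalIntegral.integral_const_mul]
  ring

lemma At_sum {T : ℝ} {ι : Type*} (s : Finset ι) {f : ι → (ℕ → ℝ) → ℝ} (hf : ∀ i ∈ s, Continuous (f i)) : At T (fun ω => ∑ i ∈ s, f i ω) = ∑ i ∈ s, At T (f i) := by
  unfold At
  rw [intervalIntegral.integral_finsetSum fun i hi => At_ii (hf i hi) T, Finset.mul_sum]

lemma mk_one_sq {f : (ℕ → ℝ) → ℂ} : mk 1 f = ∫ ω, ‖f ω‖ ^ 2 ∂tm := by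
  unfold mk
  congr 1
  funext ω
  rw [mul_one, ← Real.rpow_natCast]
  norm_num

/-- squares of short polynomials -/
lemma At_sq {l : ℝ} {M : (ℕ → ℝ) → ℂ} (h : Sp l M) {T : ℝ} (hT : 0 < T) (hl : Real.exp (2 * l) ≤ T) : At T (fun ω => ‖M ω‖ ^ 2) ≤ 3 * ∫ ω, ‖M ω‖ ^ 2 ∂tm := by
  have h1 := MV h h hT
  have h2 : √(mk 1 M) * √(mk 1 M) = mk 1 M := Real.mul_self_sqrt (mk_nonneg 1 M)
  rw [h2] at h1
  have e1 : ((1 / T : ℝ) : ℂ) * (∫ t in (0:ℝ)..T, M (fl t) * (starRingEnd ℂ) (M (fl t))) = ((At T (fun ω => ‖M ω‖ ^ 2) : ℝ) : ℂ) := by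
    unfold At
    rw [Complex.ofReal_mul, ← intervalIntegral.integral_ofReal]
    congr 1
    refine intervalIntegral.integral_congr fun t _ => ?_
    simp only
    rw [Complex.mul_conj, Complex.normSq_eq_norm_sq]
  have e2 : ∫ ω, M ω * (starRingEnd ℂ) (M ω) ∂tm = ((∫ ω, ‖M ω‖ ^ 2 ∂tm : ℝ) : ℂ) := by
    rw [← integral_complex_ofReal]
    congr 1
    funext ω
    rw [Complex.mul_conj, Complex.normSq_eq_norm_sq]
  rw [e1, e2, ← Complex.ofReal_sub, Complex.norm_real, mk_one_sq] at h1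
  have h3 : 2 * Real.exp (2 * l) / T ≤ 2 := by
    rw [div_le_iff₀ hT]
    linarith
  have h4 : 0 ≤ ∫ ω, ‖M ω‖ ^ 2 ∂tm := integral_nonneg fun ω => by positivity
  have h5 := (le_abs_self _).trans h1
  nlinarith

lemma amg {θ : ℝ} (h0 : 0 < θ) (h1 : θ < 1) {X Y μ : ℝ} (hX : 0 ≤ X) (hY : 0 ≤ Y) (hμ : 0 < μ) :
    X ^ θ * Y ^ (1 - θ) ≤ μ ^ (-((1 - θ) / θ)) * X + μ * Y := by
  obtain ⟨v, hv⟩ : ∃ v : ℝ, v = μ ^ (-((1 - θ) / θ)) := ⟨_, rfl⟩
  have hv0 : 0 < v := by rw [hv]; positivity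
  have h2 := Real.geom_mean_le_arith_mean2_weighted h0.le (by linarith : 0 ≤ 1 - θ) (show 0 ≤ v * X by positivity) (show 0 ≤ μ * Y by positivity) (by ring)
  have e1 : (v * X) ^ θ * (μ * Y) ^ (1 - θ) = X ^ θ * Y ^ (1 - θ) := by
    rw [Real.mul_rpow hv0.le hX, Real.mul_rpow hμ.le hY, hv, ← Real.rpow_mul hμ.le]
    have e2 : -((1 - θ) / θ) * θ = -(1 - θ) := by field_simp
    rw [e2]
    have e3 : μ ^ (-(1 - θ)) * μ ^ (1 - θ) = 1 := by
      rw [← Real.rpow_add hμ]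
      simp
    linear_combination (X ^ θ * Y ^ (1 - θ)) * e3
  rw [e1] at h2
  have h3 : 0 ≤ v * X := by positivity
  have h4 : 0 ≤ μ * Y := by positivity
  rw [← hv]
  nlinarith

lemma prod_one_sub {n : ℕ} {e : ℕ → ℝ} (h0 : ∀ b, 0 ≤ e b) (h1 : ∀ b, e b ≤ 1) : 1 - ∑ b ∈ Finset.range n, e b ≤ ∏ b ∈ Finset.range n, (1 - e b) := by
  induction n with
  | zero => simp
  | succ n ih =>
    rw [Finset.sum_range_succ, Finset.prod_range_succ]
    have h2 : 0 ≤ ∏ b ∈ Finset.range n, (1 - e b) := Finset.prod_nonneg fun b _ => by linarith [h1 b]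
    have h3 : ∏ b ∈ Finset.range n, (1 - e b) ≤ 1 := Finset.prod_le_one (fun b _ => by linarith [h1 b]) fun b _ => by linarith [h0 b]
    nlinarith [h0 n, h1 n]

lemma eb_sum {q : ℕ} (hq : 3 ≤ q) (n : ℕ) : ∑ b ∈ Finset.range n, Real.exp (-((q * (b + 1) : ℕ) : ℝ)) ≤ 1 / 4 := by
  have h3 : ∀ b ∈ Finset.range n, Real.exp (-((q * (b + 1) : ℕ) : ℝ)) ≤ 1 / 8 * (1 / 2) ^ b := by
    intro b _
    have h1 : Real.exp (-((q * (b + 1) : ℕ) : ℝ)) ≤ Real.exp (-1) ^ (3 + b) := by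
      rw [← Real.exp_nat_mul, Real.exp_le_exp]
      have : ((3 + b : ℕ) : ℝ) ≤ ((q * (b + 1) : ℕ) : ℝ) := by
        exact_mod_cast (by nlinarith : 3 + b ≤ q * (b + 1))
      linarith
    have h2 : Real.exp (-1) ≤ 1 / 2 := by
      rw [Real.exp_neg, ← one_div]
      exact one_div_le_one_div_of_le (by norm_num) (by have := Real.exp_one_gt_d9; linarith)
    refine h1.trans ((pow_le_pow_left₀ (Real.exp_pos _).le h2 _).trans (le_of_eq ?_))
    rw [pow_add]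
    norm_num
  refine (Finset.sum_le_sum h3).trans ?_
  rw [← Finset.mul_sum]
  have h7 := Summable.sum_le_tsum (Finset.range n) (fun i _ => by positivity) summable_geometric_two
  rw [tsum_geometric_two] at h7
  linarith

/-- the block where the mollifier starts -/
lemma good_a (q : ℕ) (x L : ℝ) (ω : ℕ → ℝ) : ∃ a : ℕ, a ≤ NB L ∧ (∀ b, b < NB L → a ≤ b → ‖Pk q (bk L b) x 0 ω‖ ≤ ((q * (b + 1) : ℕ) : ℝ)) ∧
    ∀ b, b + 1 = a → ((q * (b + 1) : ℕ) : ℝ) < ‖Pk q (bk L b) x 0 ω‖ := by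
  classical
  have hex : ∃ a : ℕ, ∀ b, b < NB L → a ≤ b → ‖Pk q (bk L b) x 0 ω‖ ≤ ((q * (b + 1) : ℕ) : ℝ) := ⟨NB L, fun b h1 h2 => by omega⟩
  refine ⟨Nat.find hex, Nat.find_min' hex fun b h1 h2 => by omega, Nat.find_spec hex, fun b hb => ?_⟩
  by_contra hcon
  rw [not_lt] at hcon
  refine Nat.find_min hex (m := b) (by omega) fun b' h1 h2 => ?_
  rcases eq_or_lt_of_le h2 with h3 | h3
  · rw [← h3]
    exact hcon
  · exact Nat.find_spec hex b' h1 (by omega)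

lemma Ra_low {Z : ℕ} (hZ : 1 ≤ Z) {q : ℕ} (hq : 3 ≤ q) (x L : ℝ) (ω : ℕ → ℝ) : ∃ a : ℕ, a ≤ NB L ∧ ∃ P : ℝ, ∀ z : ℝ, |z| ≤ Z →
    Real.exp (2 * z * P) ≤ 2 * ‖Ra Z q x L z a ω‖ ^ 2 := by
  obtain ⟨a, ha, h1, h2⟩ := good_a q x L ω
  refine ⟨a, ha, ∑ b ∈ Finset.range (NB L), if a ≤ b then (Pk q (bk L b) x 0 ω).re else 0, fun z hz => ?_⟩
  have hZ' : (1:ℝ) ≤ Z := by exact_mod_cast hZ
  have h3 : ∀ b ∈ Finset.range (NB L), Real.exp (z * (if a ≤ b then (Pk q (bk L b) x 0 ω).re else 0)) * (1 - Real.exp (-((q * (b + 1) : ℕ) : ℝ))) ≤ ‖fc Z q x L z a b ω‖ := by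
    intro b hb
    rw [Finset.mem_range] at hb
    obtain ⟨P, hP⟩ : ∃ P, P = Pk q (bk L b) x 0 ω := ⟨_, rfl⟩
    have he0 := Real.exp_pos (-((q * (b + 1) : ℕ) : ℝ))
    unfold fc
    by_cases hab : a ≤ b
    · rw [if_pos hab, if_pos hab]
      unfold ta
      have h4 := h1 b hb hab
      rw [← hP] at h4 ⊢
      have h5 := te_near (8 * Z * (q * (b + 1))) ((z:ℂ) * P)
      have h6 : 4 * ‖(z:ℂ) * P‖ - ((8 * Z * (q * (b + 1)) : ℕ) : ℝ) ≤ -((q * (b + 1) : ℕ) : ℝ) := by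
        rw [norm_mul, Complex.norm_real, Real.norm_eq_abs]
        have h7 : |z| * ‖P‖ ≤ Z * ((q * (b + 1) : ℕ) : ℝ) := mul_le_mul hz h4 (norm_nonneg _) (by positivity)
        have h8 : (0:ℝ) ≤ ((q * (b + 1) : ℕ) : ℝ) := by positivity
        push_cast at h7 h8 ⊢
        nlinarith
      have h7 := h5.trans (Real.exp_le_exp.mpr h6)
      have h8 : 1 - Real.exp (-((q * (b + 1) : ℕ) : ℝ)) ≤ ‖te (8 * Z * (q * (b + 1))) ((z:ℂ) * P) * Complex.exp (-((z:ℂ) * P))‖ := by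
        have h9 := norm_sub_norm_le 1 (te (8 * Z * (q * (b + 1))) ((z:ℂ) * P) * Complex.exp (-((z:ℂ) * P)))
        rw [norm_one, norm_sub_rev] at h9
        linarith
      rw [norm_mul, Complex.norm_exp, Complex.neg_re, Complex.re_ofReal_mul, Real.exp_neg (z * P.re)] at h8
      have h9 := mul_le_mul_of_nonneg_left h8 (Real.exp_pos (z * P.re)).le
      refine h9.trans (le_of_eq ?_)
      field_simp
    · rw [if_neg hab, if_neg hab, mul_zero, Real.exp_zero, one_mul]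
      by_cases hab2 : b + 1 = a
      · rw [if_pos hab2]
        unfold hp
        have h4 := h2 b hab2
        rw [← hP] at h4 ⊢
        rw [norm_pow, norm_div, Complex.norm_natCast]
        have h5 : 0 < q * (b + 1) := by positivity
        have h6 : (0:ℝ) < ((q * (b + 1) : ℕ) : ℝ) := by exact_mod_cast h5
        have h7 : 1 ≤ ‖P‖ / ((q * (b + 1) : ℕ) : ℝ) := by
          rw [le_div_iff₀ h6]
          linarith
        have h8 : 1 ≤ (‖P‖ / ((q * (b + 1) : ℕ) : ℝ)) ^ (q * (b + 1)) := one_le_pow₀ h7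
        linarith
      · rw [if_neg hab2, norm_one]
        linarith
  have h4 : ∏ b ∈ Finset.range (NB L), (Real.exp (z * (if a ≤ b then (Pk q (bk L b) x 0 ω).re else 0)) * (1 - Real.exp (-((q * (b + 1) : ℕ) : ℝ)))) ≤ ‖Ra Z q x L z a ω‖ := by
    unfold Ra
    rw [norm_prod]
    refine Finset.prod_le_prod (fun b _ => mul_nonneg (Real.exp_pos _).le ?_) h3
    have : Real.exp (-((q * (b + 1) : ℕ) : ℝ)) ≤ 1 := by
      rw [← Real.exp_zero, Real.exp_le_exp]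
      simp only [Left.neg_nonpos_iff]
      positivity
    linarith
  rw [Finset.prod_mul_distrib, ← Real.exp_sum, ← Finset.mul_sum] at h4
  have h5 := prod_one_sub (n := NB L) (e := fun b => Real.exp (-((q * (b + 1) : ℕ) : ℝ))) (fun b => (Real.exp_pos _).le) (fun b => by
    rw [← Real.exp_zero, Real.exp_le_exp]
    simp only [Left.neg_nonpos_iff]
    positivity)
  have h6 := eb_sum hq (NB L)
  obtain ⟨S, hS⟩ : ∃ S, S = ∑ b ∈ Finset.range (NB L), (if a ≤ b then (Pk q (bk L b) x 0 ω).re else 0) := ⟨_, rfl⟩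
  rw [← hS] at h4 ⊢
  have h7 : Real.exp (z * S) * (3 / 4) ≤ ‖Ra Z q x L z a ω‖ := by
    refine le_trans (mul_le_mul_of_nonneg_left ?_ (Real.exp_pos _).le) h4
    linarith
  have h8 := pow_le_pow_left₀ (by positivity) h7 2
  have h9 : Real.exp (2 * z * S) = Real.exp (z * S) ^ 2 := by
    rw [← Real.exp_nat_mul]
    congr 1
    push_cast
    ring
  rw [h9]
  have h10 : (Real.exp (z * S) * (3 / 4)) ^ 2 = Real.exp (z * S) ^ 2 * (9 / 16) := by ring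
  rw [h10] at h8
  nlinarith [sq_nonneg (Real.exp (z * S))]

/-- the total majorant -/
noncomputable def Rs (Z q : ℕ) (x L z : ℝ) (ω : ℕ → ℝ) : ℝ := ∑ a ∈ Finset.range (NB L + 1), ‖Ra Z q x L z a ω‖ ^ 2

lemma Rs_nonneg (Z q : ℕ) (x L z : ℝ) (ω : ℕ → ℝ) : 0 ≤ Rs Z q x L z ω := Finset.sum_nonneg fun a _ => by positivity

lemma Rs_rb (Z q : ℕ) (x L z : ℝ) : RB (Rs Z q x L z) := RB.sum _ fun a _ => (Ra_cc Z q x L z a).norm.pow 2

lemma Rs_rho (Z q : ℕ) (x L z : ℝ) (ω : ℕ → ℝ) : Rs Z q x L z ω = Real.exp (2 * z * (Xs (pr (PL L)) (sp x 0) ω).re) * rho Z q x L z ω := by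
  unfold Rs rho rh
  rw [Finset.mul_sum]
  refine Finset.sum_congr rfl fun a _ => ?_
  have : Real.exp (2 * z * (Xs (pr (PL L)) (sp x 0) ω).re) * Real.exp (-(2 * z) * (Xs (pr (PL L)) (sp x 0) ω).re) = 1 := by
    rw [← Real.exp_add, ← Real.exp_zero]
    congr 1
    ring
  linear_combination (-(‖Ra Z q x L z a ω‖ ^ 2)) * this

theorem maj_pt {Z : ℕ} (hZ : 1 ≤ Z) {q : ℕ} (hq : 3 ≤ q) (x L : ℝ) {k : ℝ} (hk : 0 < k) {m0 m1 : ℕ} {θ : ℝ} (h0 : 0 < θ) (h1 : θ < 1)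
    (hθ : θ * m1 + (1 - θ) * m0 = k) (hz1 : |k - m1| ≤ Z) (hz0 : |k - m0| ≤ Z) {μ : ℝ} (hμ : 0 < μ) (ω : ℕ → ℝ) (Q : ℂ) :
    ‖Q‖ ^ (2 * k) ≤ 2 * (μ ^ (-((1 - θ) / θ)) * (‖Q‖ ^ (2 * m1) * Rs Z q x L (k - m1) ω) + μ * (‖Q‖ ^ (2 * m0) * Rs Z q x L (k - m0) ω)) := by
  obtain ⟨a, ha, P, hP⟩ := Ra_low hZ hq x L ω
  have hRs : ∀ z : ℝ, |z| ≤ Z → Real.exp (2 * z * P) ≤ 2 * Rs Z q x L z ω := by
    intro z hz
    refine (hP z hz).trans (mul_le_mul_of_nonneg_left ?_ (by norm_num))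
    unfold Rs
    exact Finset.single_le_sum (f := fun a => ‖Ra Z q x L z a ω‖ ^ 2) (fun a _ => by positivity) (Finset.mem_range.mpr (by omega))
  have h3 := hRs _ hz1
  have h4 := hRs _ hz0
  have hR1 := Rs_nonneg Z q x L (k - m1) ω
  have hR0 := Rs_nonneg Z q x L (k - m0) ω
  rcases eq_or_lt_of_le (norm_nonneg Q) with hQ | hQ
  · rw [← hQ, Real.zero_rpow (by positivity)]
    positivity
  · have h5 := amg h0 h1 (X := ‖Q‖ ^ (2 * m1) * Real.exp (2 * (k - m1) * P)) (Y := ‖Q‖ ^ (2 * m0) * Real.exp (2 * (k - m0) * P)) (by positivity) (by positivity) hμ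
    have e1 : (‖Q‖ ^ (2 * m1) * Real.exp (2 * (k - m1) * P)) ^ θ * (‖Q‖ ^ (2 * m0) * Real.exp (2 * (k - m0) * P)) ^ (1 - θ) = ‖Q‖ ^ (2 * k) := by
      rw [Real.mul_rpow (by positivity) (Real.exp_pos _).le, Real.mul_rpow (by positivity) (Real.exp_pos _).le, ← Real.exp_mul, ← Real.exp_mul,
        ← Real.rpow_natCast ‖Q‖ (2 * m1), ← Real.rpow_natCast ‖Q‖ (2 * m0), ← Real.rpow_mul hQ.le, ← Real.rpow_mul hQ.le]
      have e2 : Real.exp (2 * (k - m1) * P * θ) * Real.exp (2 * (k - m0) * P * (1 - θ)) = 1 := by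
        have e4 : 2 * (k - m1) * P * θ + 2 * (k - m0) * P * (1 - θ) = 0 := by linear_combination (-2 * P) * hθ
        rw [← Real.exp_add, e4, Real.exp_zero]
      have e3 : ‖Q‖ ^ (((2 * m1 : ℕ) : ℝ) * θ) * ‖Q‖ ^ (((2 * m0 : ℕ) : ℝ) * (1 - θ)) = ‖Q‖ ^ (2 * k) := by
        rw [← Real.rpow_add hQ]
        congr 1
        push_cast
        linear_combination 2 * hθ
      calc _ = (‖Q‖ ^ (((2 * m1 : ℕ) : ℝ) * θ) * ‖Q‖ ^ (((2 * m0 : ℕ) : ℝ) * (1 - θ))) * (Real.exp (2 * (k - m1) * P * θ) * Real.exp (2 * (k - m0) * P * (1 - θ))) := by ring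
        _ = _ := by rw [e2, e3, mul_one]
    rw [e1] at h5
    refine h5.trans ?_
    have h6 : 0 < μ ^ (-((1 - θ) / θ)) := by positivity
    have h7 : ‖Q‖ ^ (2 * m1) * Real.exp (2 * (k - m1) * P) ≤ ‖Q‖ ^ (2 * m1) * (2 * Rs Z q x L (k - m1) ω) := mul_le_mul_of_nonneg_left h3 (by positivity)
    have h8 : ‖Q‖ ^ (2 * m0) * Real.exp (2 * (k - m0) * P) ≤ ‖Q‖ ^ (2 * m0) * (2 * Rs Z q x L (k - m0) ω) := mul_le_mul_of_nonneg_left h4 (by positivity)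
    have h9 := mul_le_mul_of_nonneg_left h7 h6.le
    have h10 := mul_le_mul_of_nonneg_left h8 hμ.le
    linarith

end Pool.Agent.H470
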