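import Pool.Agent.H470.It

set_option autoImplicit false

/-!
# Moments of weighted partial sums are bounded by moments of zeta
-/

open Complex MeasureTheory Set Filter Topology

namespace Pool.Agent.H470

theorem le_zeta (p : ℝ) (hp : 1 < p) : ∃ C T₀ : ℝ, 0 < C ∧ ∀ T : ℝ, T₀ ≤ T → ∀ a b : ℝ, T ≤ a →
    b ≤ 2 * T → a + win T ≤ b → ∀ N : ℕ, 1 ≤ N → (N : ℝ) ≤ T →
    ∫ t in a..b, ‖AA N t‖ ^ p ≤ C * ∫ t in (a - win T)..(b + win T), ‖zz t‖ ^ p := by
  obtain ⟨C₂, hC₂, hmono⟩ := mono_p p hp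
  have hp0 : 0 ≤ p := by linarith
  refine ⟨C₂ * (1 + 2 ^ p) * (2 * 2 ^ p), max (4 * 10 ^ 4) (Real.exp 10), by positivity, ?_⟩
  intro T hT a b ha hb hab N hN1 hNT
  have hT4 : 4 * 10 ^ 4 ≤ T := (le_max_left _ _).trans hT
  have hT0 : 0 < T := by linarith
  have hL : 10 ≤ Real.log T := by
    rw [Real.le_log_iff_exp_le hT0]; exact (le_max_right _ _).trans hT
  set s := Real.sqrt T with hs
  have hs200 : 200 ≤ s := by
    rw [hs, show (200 : ℝ) = Real.sqrt (200 ^ 2) by rw [Real.sqrt_sq (by norm_num)]]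
    apply Real.sqrt_le_sqrt; linarith
  have hss : s * s = T := Real.mul_self_sqrt hT0.le
  have hL2 : 100 ≤ Real.log T ^ 2 := by nlinarith
  set W := win T with hW
  have hWs : 100 * s ≤ W := by
    rw [hW]; unfold win; rw [← hs]; nlinarith
  have hsL : 10 * (s * Real.log T) ≤ W := by
    rw [hW]; unfold win; rw [← hs]
    have : 0 ≤ s * Real.log T := by positivity
    calc 10 * (s * Real.log T) ≤ Real.log T * (s * Real.log T) := by gcongr
      _ = _ := by ring
  have hsL0 : 0 ≤ s * Real.log T := by positivity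
  set X := ⌊16 * T⌋₊ with hX
  have hX2 : (X : ℝ) ≤ 16 * T := Nat.floor_le (by linarith)
  have hX1 : 8 * T ≤ X := by
    have := (Nat.lt_floor_add_one (16 * T)).le
    linarith
  have hNX : N ≤ X := by
    have : (N : ℝ) ≤ X := by linarith
    exact_mod_cast this
  have hRs : s ≤ s ^ 2 := by nlinarith
  have hsT : s ≤ T := by nlinarith
  have hab' : a ≤ b := by linarith
  have hm := hmono T s (by linarith) hRs (by linarith) hsT N X hN1 hNX hX2 (by nlinarith) a b hab'
  set w2 := 2 * s * Real.log T + 2 with hw2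
  have hw2W : w2 ≤ W := by rw [hw2]; linarith
  have hw20 : 0 ≤ w2 := by rw [hw2]; linarith
  set a' := a - w2 with ha'
  set b' := b + w2 with hb'
  have hwT : w2 ≤ T / 4 := by
    -- `win T ≤ b - a ≤ T`
    have h1 : W ≤ T := by linarith
    rw [hw2]; linarith
  have hsX : Real.sqrt X ≤ 4 * s := by
    calc Real.sqrt X ≤ Real.sqrt (16 * T) := Real.sqrt_le_sqrt hX2
      _ = 4 * s := by
        rw [Real.sqrt_mul (by norm_num), show (16 : ℝ) = 4 ^ 2 by norm_num,
          Real.sqrt_sq (by norm_num)]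
  have hlow := low_p hp.le (hN1.trans hNX) (a := a') (b := b') (by linarith)
  set Ψ := ∫ t in a'..b', ‖AA X t‖ ^ p with hΨ
  set Z := ∫ t in a'..b', ‖zz t‖ ^ p with hZ
  have hZ0 : 0 ≤ Z := by
    apply intervalIntegral.integral_nonneg (by linarith)
    intro t _; positivity
  have hΨ0 : 0 ≤ Ψ := by
    apply intervalIntegral.integral_nonneg (by linarith)
    intro t _; positivity
  have hzc : Continuous fun t => ‖zz t‖ ^ p := normp_cont zz_cont hp0
  have hA : Ψ ≤ 2 ^ p * (Z + (25 / s) ^ p * (b' - a')) := by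
    calc Ψ ≤ ∫ t in a'..b', 2 ^ p * (‖zz t‖ ^ p + (25 / s) ^ p) := by
          apply intervalIntegral.integral_mono_on (by linarith)
            ((normp_cont (AA_cont X) hp0).intervalIntegrable _ _)
            ((continuous_const.mul (hzc.add continuous_const)).intervalIntegrable _ _)
          intro t ht
          refine le_trans ?_ (add_rpow2 (norm_nonneg _) (by positivity) hp0)
          apply Real.rpow_le_rpow (norm_nonneg _) _ hp0
          have h1 := zA (T := T) (u := t) (by linarith) hX1 hX2 (by linarith [ht.1])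
            (by linarith [ht.2])
          calc ‖AA X t‖ = ‖zz t - (zz t - AA X t)‖ := by congr 1; ring
            _ ≤ _ := (norm_sub_le _ _).trans (add_le_add le_rfl h1)
      _ = _ := by
          rw [intervalIntegral.integral_const_mul, intervalIntegral.integral_add
            (hzc.intervalIntegrable _ _) (continuous_const.intervalIntegrable _ _),
            intervalIntegral.integral_const, smul_eq_mul, mul_comm (b' - a')]
  have hB : Ψ ≤ 2 * 2 ^ p * Z := by
    have h1 : 2 ^ p * ((25 / s) ^ p * (b' - a')) ≤ 1 / 2 * Ψ := by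
      have h2 : (2 : ℝ) ^ p * (25 / s) ^ p * 2 ^ p = (100 / s) ^ p := by
        rw [← Real.mul_rpow (by norm_num) (by positivity), ← Real.mul_rpow (by positivity)
          (by norm_num)]
        congr 1; ring
      have h3 : (100 / s) ^ p ≤ 1 / 2 := by
        have h4 : 100 / s ≤ 1 / 2 := by
          rw [div_le_div_iff₀ (by linarith) (by norm_num)]; linarith
        calc (100 / s) ^ p ≤ (100 / s) ^ (1 : ℝ) :=
              Real.rpow_le_rpow_of_exponent_ge (by positivity) (by linarith) hp.le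
          _ ≤ 1 / 2 := by rw [Real.rpow_one]; exact h4
      calc 2 ^ p * ((25 / s) ^ p * (b' - a')) ≤ 2 ^ p * ((25 / s) ^ p * (2 ^ p * Ψ)) := by
            gcongr
        _ = (2 : ℝ) ^ p * (25 / s) ^ p * 2 ^ p * Ψ := by ring
        _ ≤ 1 / 2 * Ψ := by rw [h2]; gcongr
    nlinarith
  have hfin : Z ≤ ∫ t in (a - W)..(b + W), ‖zz t‖ ^ p :=
    int_mono_set hzc (fun t => Real.rpow_nonneg (norm_nonneg _) _) (by linarith) (by linarith)
      (by linarith)
  have h2p : (0 : ℝ) ≤ 2 ^ p := by positivity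
  calc ∫ t in a..b, ‖AA N t‖ ^ p ≤ C₂ * (Ψ + (b - a)) := hm
    _ ≤ C₂ * (Ψ + 2 ^ p * Ψ) := by
        have : b - a ≤ 2 ^ p * Ψ := by linarith
        gcongr
    _ = C₂ * (1 + 2 ^ p) * Ψ := by ring
    _ ≤ C₂ * (1 + 2 ^ p) * (2 * 2 ^ p * Z) := by gcongr
    _ ≤ C₂ * (1 + 2 ^ p) * (2 * 2 ^ p * ∫ t in (a - W)..(b + W), ‖zz t‖ ^ p) := by gcongr
    _ = _ := by ring

/-- total variation of the weights on `[1, N]` -/
noncomputable def TV (w : ℕ → ℂ) (N : ℕ) : ℝ := ‖w N‖ + ∑ n ∈ Finset.Ico 1 N, ‖w (n + 1) - w n‖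

/-- weighted partial sums of zeta on the critical line -/
noncomputable def AW (w : ℕ → ℂ) (N : ℕ) (t : ℝ) : ℂ :=
  ∑ n ∈ Finset.Icc 1 N, w n * (n : ℂ) ^ (-(1 / 2 + I * (t : ℂ)))

theorem AA_succ (N : ℕ) (t : ℝ) :
    AA (N + 1) t = AA N t + ((N + 1 : ℕ) : ℂ) ^ (-(1 / 2 + I * (t : ℂ))) := by
  unfold AA
  rw [Finset.sum_Icc_succ_top (by omega)]

theorem abel (w : ℕ → ℂ) (N : ℕ) (hN : 1 ≤ N) (t : ℝ) :
    AW w N t = w N * AA N t - ∑ n ∈ Finset.Ico 1 N, (w (n + 1) - w n) * AA n t := by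
  induction N, hN using Nat.le_induction with
  | base =>
    unfold AW AA
    simp
  | succ N hN ih =>
    have h1 : AW w (N + 1) t = AW w N t +
        w (N + 1) * ((N + 1 : ℕ) : ℂ) ^ (-(1 / 2 + I * (t : ℂ))) := by
      unfold AW
      rw [Finset.sum_Icc_succ_top (by omega)]
    rw [h1, ih, AA_succ, Finset.sum_Ico_succ_top hN]
    ring

theorem AW_cont (w : ℕ → ℂ) (N : ℕ) : Continuous (AW w N) := by
  have : AW w N = fun t => ∑ n ∈ Finset.Icc 1 N, w n *
    (((1 / Real.sqrt n : ℝ) : ℂ) * cexp (((-(Real.log n * t) : ℝ) : ℂ) * I)) := by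
    funext t
    unfold AW
    exact Finset.sum_congr rfl fun n hn => by rw [term_eq (Finset.mem_Icc.1 hn).1 t]
  rw [this]
  fun_prop

theorem weight_p {p : ℝ} (hp : 1 < p) {M a b : ℝ} (hab : a ≤ b) (w : ℕ → ℂ) {N : ℕ}
    (hN : 1 ≤ N) (hM : ∀ m : ℕ, 1 ≤ m → m ≤ N → ∫ t in a..b, ‖AA m t‖ ^ p ≤ M) :
    ∫ t in a..b, ‖AW w N t‖ ^ p ≤ TV w N ^ p * M := by
  have hp0 : 0 ≤ p := by linarith
  set ω : ℕ → ℝ := fun n => if n < N then ‖w (n + 1) - w n‖ else ‖w N‖ with hω
  have hω0 : ∀ n, 0 ≤ ω n := fun n => by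
    simp only [hω]; split_ifs <;> exact norm_nonneg _
  have hIcc : Finset.Icc 1 N = insert N (Finset.Ico 1 N) := by
    ext n; simp only [Finset.mem_Icc, Finset.mem_insert, Finset.mem_Ico]; omega
  have hsplit : ∀ x : ℕ → ℝ, ∑ n ∈ Finset.Icc 1 N, ω n * x n =
      ‖w N‖ * x N + ∑ n ∈ Finset.Ico 1 N, ‖w (n + 1) - w n‖ * x n := by
    intro x
    rw [hIcc, Finset.sum_insert (by simp)]
    congr 1
    · simp [hω]
    · refine Finset.sum_congr rfl fun n hn => ?_
      simp only [hω]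
      rw [if_pos (Finset.mem_Ico.1 hn).2]
  have hTV : ∑ n ∈ Finset.Icc 1 N, ω n = TV w N := by
    have := hsplit (fun _ => 1)
    simpa [TV] using this
  have hTV0 : 0 ≤ TV w N := by unfold TV; positivity
  have hpt : ∀ t, ‖AW w N t‖ ^ p ≤ TV w N ^ (p - 1) *
      ∑ n ∈ Finset.Icc 1 N, ω n * ‖AA n t‖ ^ p := by
    intro t
    have h1 : ‖AW w N t‖ ≤ ∑ n ∈ Finset.Icc 1 N, ω n * ‖AA n t‖ := by
      rw [hsplit, abel w N hN]
      refine (norm_sub_le _ _).trans (add_le_add (norm_mul_le _ _) ?_)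
      refine (norm_sum_le _ _).trans (Finset.sum_le_sum fun n _ => norm_mul_le _ _)
    have h2 := jensen_w (Finset.Icc 1 N) hp ω (fun n => ‖AA n t‖) hω0 fun _ => norm_nonneg _
    rw [hTV] at h2
    exact (Real.rpow_le_rpow (norm_nonneg _) h1 hp0).trans h2
  have hci : ∀ n : ℕ, Continuous fun t => ω n * ‖AA n t‖ ^ p := fun n =>
    continuous_const.mul (normp_cont (AA_cont n) hp0)
  calc ∫ t in a..b, ‖AW w N t‖ ^ p
      ≤ ∫ t in a..b, TV w N ^ (p - 1) * ∑ n ∈ Finset.Icc 1 N, ω n * ‖AA n t‖ ^ p :=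
        intervalIntegral.integral_mono_on hab
          ((normp_cont (AW_cont w N) hp0).intervalIntegrable _ _)
          ((continuous_const.mul (continuous_finsetSum _ fun n _ => hci n)).intervalIntegrable _ _)
          fun t _ => hpt t
    _ = TV w N ^ (p - 1) * ∑ n ∈ Finset.Icc 1 N, ω n * ∫ t in a..b, ‖AA n t‖ ^ p := by
        rw [intervalIntegral.integral_const_mul, intervalIntegral.integral_finsetSum
          fun n _ => (hci n).intervalIntegrable _ _]
        congr 1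
        exact Finset.sum_congr rfl fun n _ => intervalIntegral.integral_const_mul _ _
    _ ≤ TV w N ^ (p - 1) * ∑ n ∈ Finset.Icc 1 N, ω n * M := by
        apply mul_le_mul_of_nonneg_left _ (Real.rpow_nonneg hTV0 _)
        refine Finset.sum_le_sum fun n hn => mul_le_mul_of_nonneg_left ?_ (hω0 n)
        exact hM n (Finset.mem_Icc.1 hn).1 (Finset.mem_Icc.1 hn).2
    _ = TV w N ^ p * M := by
        rw [← Finset.sum_mul, hTV, ← mul_assoc]
        congr 1
        rcases hTV0.eq_or_lt with h | h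
        · rw [← h, mul_zero, Real.zero_rpow (by linarith)]
        · rw [← Real.rpow_add_one h.ne', sub_add_cancel]

end Pool.Agent.H470
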