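import Pool.Agent.H470.Ya9

set_option autoImplicit false

/-! A mean value theorem for Dirichlet polynomials of length almost `T`. -/

open Complex MeasureTheory Set Filter Topology

namespace Pool.Agent.H470

/-- off-diagonal integrals -/
lemma tn_off2 {m n : ℕ} (hm : m ≠ 0) (hn : n ≠ 0) (h : m ≠ n) {X : ℝ} (hmX : (m:ℝ) ≤ X) (hnX : (n:ℝ) ≤ X) {T : ℝ} (hT : 0 < T) :
    ‖((1 / T : ℝ) : ℂ) * ∫ t in (0:ℝ)..T, tn m t * (starRingEnd ℂ) (tn n t)‖ ≤ 2 * X / T * (1 / |(m:ℝ) - n|) := by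
  have hm0 : (0:ℝ) < m := by exact_mod_cast Nat.pos_of_ne_zero hm
  have hn0 : (0:ℝ) < n := by exact_mod_cast Nat.pos_of_ne_zero hn
  have hX : 0 < X := by linarith
  obtain ⟨θ, hθ⟩ : ∃ θ : ℝ, θ = Real.log n - Real.log m := ⟨_, rfl⟩
  have e1 : ∀ t : ℝ, tn m t * (starRingEnd ℂ) (tn n t) = Complex.exp (((θ : ℂ) * Complex.I) * t) := by
    intro t
    rw [tn_eq hm, tn_eq hn, ← Complex.exp_conj, ← Complex.exp_add, hθ]
    congr 1
    rw [map_mul, Complex.conj_ofReal, Complex.conj_I]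
    push_cast
    ring
  have hmn : 0 < |(m:ℝ) - n| := abs_pos.2 (sub_ne_zero.2 (by exact_mod_cast h))
  have hl : |(m:ℝ) - n| / X ≤ |θ| := by
    have key : ∀ a b : ℕ, a ≠ 0 → a < b → (b:ℝ) ≤ X → ((b:ℝ) - a) / X ≤ Real.log b - Real.log a := by
      intro a b ha hab hb
      have ha0 : (0:ℝ) < a := by exact_mod_cast Nat.pos_of_ne_zero ha
      have hab' : (a:ℝ) + 1 ≤ b := by exact_mod_cast hab
      have hb0 : (0:ℝ) < b := by linarith
      have h1 : 1 - (b / a : ℝ)⁻¹ ≤ Real.log (b / a) := Real.one_sub_inv_le_log_of_pos (by positivity)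
      rw [Real.log_div hb0.ne' ha0.ne'] at h1
      have h3 : ((b:ℝ) - a) / X ≤ 1 - (b / a : ℝ)⁻¹ := by
        rw [inv_div]
        have h4 : 1 - (a:ℝ) / b = ((b:ℝ) - a) / b := by field_simp
        rw [h4]
        exact div_le_div_of_nonneg_left (by linarith) hb0 hb
      linarith
    rcases lt_or_gt_of_ne h with h' | h'
    · have := key m n hm h' hnX
      rw [hθ, abs_sub_comm (m:ℝ), abs_of_pos (show (0:ℝ) < (n:ℝ) - m from by
        have : (m:ℝ) < n := by exact_mod_cast h'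
        linarith)]
      exact this.trans (le_abs_self _)
    · have := key n m hn h' hmX
      rw [hθ, abs_sub_comm (Real.log n), abs_of_pos (show (0:ℝ) < (m:ℝ) - n from by
        have : (n:ℝ) < m := by exact_mod_cast h'
        linarith)]
      exact this.trans (le_abs_self _)
  have hθ0 : 0 < |θ| := (div_pos hmn hX).trans_le hl
  have hθc : (θ : ℂ) * Complex.I ≠ 0 := mul_ne_zero (by exact_mod_cast abs_pos.mp hθ0) Complex.I_ne_zero
  simp_rw [e1]
  rw [integral_exp_mul_complex hθc, norm_mul, norm_div, norm_mul, Complex.norm_I, mul_one, Complex.norm_real, Complex.norm_real,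
    Real.norm_of_nonneg (by positivity), Real.norm_eq_abs]
  have h2 : ‖Complex.exp ((θ : ℂ) * Complex.I * (T:ℂ)) - Complex.exp ((θ : ℂ) * Complex.I * ((0:ℝ):ℂ))‖ ≤ 2 := by
    refine (norm_sub_le _ _).trans ?_
    have e2 : ∀ t : ℝ, ‖Complex.exp ((θ : ℂ) * Complex.I * (t:ℂ))‖ = 1 := by
      intro t
      have : (θ : ℂ) * Complex.I * (t:ℂ) = ((θ * t : ℝ) : ℂ) * Complex.I := by push_cast; ring
      rw [this, Complex.norm_exp_ofReal_mul_I]
    rw [e2, e2]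
    norm_num
  have h3 : 1 / |θ| ≤ X * (1 / |(m:ℝ) - n|) := by
    rw [mul_one_div, div_le_div_iff₀ hθ0 hmn]
    rw [div_le_iff₀ hX] at hl
    linarith
  calc 1 / T * (_ / |θ|) ≤ 1 / T * (2 / |θ|) := by gcongr
    _ = 2 * (1 / |θ|) / T := by ring
    _ ≤ 2 * (X * (1 / |(m:ℝ) - n|)) / T := by gcongr
    _ = _ := by ring

/-- the sum of the reciprocals of the distances -/
lemma dist_sum {K : ℕ} (hK : 1 ≤ K) {m : ℕ} (hm : m ∈ Finset.Icc 1 K) :
    ∑ n ∈ (Finset.Icc 1 K).filter (fun n => m ≠ n), 1 / |(m:ℝ) - n| ≤ 2 * (1 + Real.log K) := by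
  classical
  rw [Finset.mem_Icc] at hm
  have hh : ∑ i ∈ Finset.Icc 1 K, (1:ℝ) / i ≤ 1 + Real.log K := by
    have e1 : ((harmonic K : ℚ) : ℝ) = ∑ n ∈ Finset.Icc 1 K, (1:ℝ) / n := by
      rw [harmonic_eq_sum_Icc]
      push_cast
      simp
    rw [← e1]
    exact harmonic_le_one_add_log K
  have hsplit : (Finset.Icc 1 K).filter (fun n => m ≠ n) = (Finset.Icc 1 K).filter (fun n => n < m) ∪ (Finset.Icc 1 K).filter (fun n => m < n) := by
    ext n
    simp only [Finset.mem_filter, Finset.mem_union, Finset.mem_Icc]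
    constructor
    · rintro ⟨h1, h2⟩
      rcases lt_or_gt_of_ne h2 with h | h
      · exact Or.inr ⟨h1, h⟩
      · exact Or.inl ⟨h1, h⟩
    · rintro (⟨h1, h2⟩ | ⟨h1, h2⟩)
      · exact ⟨h1, by omega⟩
      · exact ⟨h1, by omega⟩
  have hdisj : Disjoint ((Finset.Icc 1 K).filter (fun n => n < m)) ((Finset.Icc 1 K).filter (fun n => m < n)) := by
    rw [Finset.disjoint_filter]
    intro n _ h1 h2
    omega
  rw [hsplit, Finset.sum_union hdisj]
  have h1 : ∑ n ∈ (Finset.Icc 1 K).filter (fun n => n < m), 1 / |(m:ℝ) - n| ≤ ∑ i ∈ Finset.Icc 1 K, (1:ℝ) / i := by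
    refine (le_of_eq ?_).trans (Finset.sum_le_sum_of_subset_of_nonneg (s := ((Finset.Icc 1 K).filter (fun n => n < m)).image (fun n => m - n)) ?_ ?_)
    · rw [Finset.sum_image]
      · refine Finset.sum_congr rfl fun n hn => ?_
        rw [Finset.mem_filter, Finset.mem_Icc] at hn
        have h2 : (n:ℝ) < m := by exact_mod_cast hn.2
        rw [abs_of_pos (by linarith), Nat.cast_sub hn.2.le]
      · intro a ha b hb hab
        simp only [Finset.coe_filter, Finset.mem_Icc, Set.mem_setOf_eq] at ha hb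
        simp only at hab
        omega
    · intro i hi
      rw [Finset.mem_image] at hi
      obtain ⟨n, hn, rfl⟩ := hi
      rw [Finset.mem_filter, Finset.mem_Icc] at hn
      rw [Finset.mem_Icc]
      omega
    · intro i _ _
      positivity
  have h2 : ∑ n ∈ (Finset.Icc 1 K).filter (fun n => m < n), 1 / |(m:ℝ) - n| ≤ ∑ i ∈ Finset.Icc 1 K, (1:ℝ) / i := by
    refine (le_of_eq ?_).trans (Finset.sum_le_sum_of_subset_of_nonneg (s := ((Finset.Icc 1 K).filter (fun n => m < n)).image (fun n => n - m)) ?_ ?_)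
    · rw [Finset.sum_image]
      · refine Finset.sum_congr rfl fun n hn => ?_
        rw [Finset.mem_filter, Finset.mem_Icc] at hn
        have h2 : (m:ℝ) < n := by exact_mod_cast hn.2
        rw [abs_sub_comm, abs_of_pos (by linarith), Nat.cast_sub hn.2.le]
      · intro a ha b hb hab
        simp only [Finset.coe_filter, Finset.mem_Icc, Set.mem_setOf_eq] at ha hb
        simp only at hab
        omega
    · intro i hi
      rw [Finset.mem_image] at hi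
      obtain ⟨n, hn, rfl⟩ := hi
      rw [Finset.mem_filter, Finset.mem_Icc] at hn
      rw [Finset.mem_Icc]
      omega
    · intro i _ _
      positivity
  linarith

/-- the mean value theorem, error of relative size `X log X / T` -/
theorem MVX {l : ℝ} (hl : 0 ≤ l) {Q : (ℕ → ℝ) → ℂ} (h : Sp l Q) {T : ℝ} (hT : 0 < T) :
    |At T (fun ω => ‖Q ω‖ ^ 2) - mk 1 Q| ≤ 4 * Real.exp l * (1 + l) / T * mk 1 Q := by
  classical
  obtain ⟨a, ha⟩ := h.nf
  obtain ⟨K, hK⟩ : ∃ K : ℕ, K = ⌊Real.exp l⌋₊ := ⟨_, rfl⟩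
  have hK1 : 1 ≤ K := by rw [hK]; exact Nat.le_floor (by push_cast; exact Real.one_le_exp hl)
  have hKr : (K:ℝ) ≤ Real.exp l := by rw [hK]; exact Nat.floor_le (Real.exp_pos l).le
  have hlK : Real.log K ≤ l := by
    have hK0 : (0:ℝ) < K := by exact_mod_cast hK1
    rw [Real.log_le_iff_le_exp hK0]
    exact hKr
  rw [← hK] at ha
  obtain ⟨s, hs⟩ : ∃ s : Finset ℕ, s = Finset.Icc 1 K := ⟨_, rfl⟩
  rw [← hs] at ha
  have hmem : ∀ n ∈ s, n ≠ 0 ∧ (n:ℝ) ≤ Real.exp l := by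
    intro n hn
    rw [hs, Finset.mem_Icc] at hn
    refine ⟨by omega, ?_⟩
    have : (n:ℝ) ≤ K := by exact_mod_cast hn.2
    linarith
  -- the torus side
  have hE : ∫ ω, (∑ n ∈ s, a n * ch n ω) * (starRingEnd ℂ) (∑ n ∈ s, a n * ch n ω) ∂tm = ∑ n ∈ s, a n * (starRingEnd ℂ) (a n) := by
    have e1 : ∀ ω, (∑ n ∈ s, a n * ch n ω) * (starRingEnd ℂ) (∑ n ∈ s, a n * ch n ω) =
        ∑ m ∈ s, ∑ n ∈ s, (a m * (starRingEnd ℂ) (a n)) * (ch m ω * (starRingEnd ℂ) (ch n ω)) := by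
      intro ω
      rw [map_sum, Finset.sum_mul_sum]
      refine Finset.sum_congr rfl fun m _ => Finset.sum_congr rfl fun n _ => ?_
      rw [map_mul]
      ring
    simp_rw [e1]
    rw [integral_finsetSum _ fun m _ => integrable_finsetSum _ fun n _ => ch_int _]
    refine Finset.sum_congr rfl fun m hm => ?_
    rw [integral_finsetSum _ fun n _ => ch_int _]
    have e2 : ∀ n ∈ s, ∫ ω, (a m * (starRingEnd ℂ) (a n)) * (ch m ω * (starRingEnd ℂ) (ch n ω)) ∂tm = if m = n then a m * (starRingEnd ℂ) (a n) else 0 := by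
      intro n hn
      rw [integral_const_mul, ch_orth (hmem m hm).1 (hmem n hn).1]
      split_ifs <;> simp
    rw [Finset.sum_congr rfl e2, Finset.sum_ite_eq, if_pos hm]
  have hcj : ∑ n ∈ s, a n * (starRingEnd ℂ) (a n) = ((∑ n ∈ s, ‖a n‖ ^ 2 : ℝ) : ℂ) := by
    push_cast
    refine Finset.sum_congr rfl fun n _ => ?_
    rw [Complex.mul_conj, Complex.normSq_eq_norm_sq]
    push_cast
    rfl
  have hmk : mk 1 Q = ∑ n ∈ s, ‖a n‖ ^ 2 := by
    have e3 : ∀ ω, (∑ n ∈ s, a n * ch n ω) * (starRingEnd ℂ) (∑ n ∈ s, a n * ch n ω) = ((‖Q ω‖ ^ ((2:ℝ) * 1) : ℝ) : ℂ) := by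
      intro ω
      rw [← ha, Complex.mul_conj, Complex.normSq_eq_norm_sq]
      congr 1
      rw [mul_one, ← Real.rpow_natCast]
      norm_num
    have h1 := hE
    simp_rw [e3] at h1
    rw [integral_complex_ofReal, hcj] at h1
    unfold mk
    exact_mod_cast h1
  -- the time side
  have hdiag : ∀ n ∈ s, ((1 / T : ℝ) : ℂ) * ∫ t in (0:ℝ)..T, tn n t * (starRingEnd ℂ) (tn n t) = 1 := by
    intro n hn
    have e1 : ∀ t : ℝ, tn n t * (starRingEnd ℂ) (tn n t) = 1 := by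
      intro t
      rw [Complex.mul_conj, Complex.normSq_eq_norm_sq, tn_nm (hmem n hn).1]
      simp
    simp_rw [e1]
    rw [intervalIntegral.integral_const, sub_zero, Complex.real_smul, mul_one, ← Complex.ofReal_mul, one_div_mul_cancel hT.ne', Complex.ofReal_one]
  have hT1 : ((At T (fun ω => ‖Q ω‖ ^ 2) : ℝ) : ℂ) =
      ∑ m ∈ s, ∑ n ∈ s, (a m * (starRingEnd ℂ) (a n)) * (((1 / T : ℝ) : ℂ) * ∫ t in (0:ℝ)..T, tn m t * (starRingEnd ℂ) (tn n t)) := by
    have hc : ∀ m ∈ s, ∀ n ∈ s, Continuous fun t : ℝ => (a m * (starRingEnd ℂ) (a n)) * (tn m t * (starRingEnd ℂ) (tn n t)) := fun m hm n hn =>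
      continuous_const.mul ((tn_ct (hmem m hm).1).mul (Complex.continuous_conj.comp (tn_ct (hmem n hn).1)))
    have e1 : ∀ t : ℝ, ((‖Q (fl t)‖ ^ 2 : ℝ) : ℂ) = ∑ m ∈ s, ∑ n ∈ s, (a m * (starRingEnd ℂ) (a n)) * (tn m t * (starRingEnd ℂ) (tn n t)) := by
      intro t
      have e0 : ((‖Q (fl t)‖ ^ 2 : ℝ) : ℂ) = Q (fl t) * (starRingEnd ℂ) (Q (fl t)) := by
        rw [Complex.mul_conj, Complex.normSq_eq_norm_sq]
      rw [e0, ha, map_sum, Finset.sum_mul_sum]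
      refine Finset.sum_congr rfl fun m hm => Finset.sum_congr rfl fun n hn => ?_
      rw [map_mul, ch_fl (hmem m hm).1, ch_fl (hmem n hn).1]
      ring
    unfold At
    rw [Complex.ofReal_mul, ← intervalIntegral.integral_ofReal]
    simp_rw [e1]
    rw [intervalIntegral.integral_finsetSum fun m hm => (continuous_finsetSum _ fun n hn => hc m hm n hn).intervalIntegrable _ _, Finset.mul_sum]
    refine Finset.sum_congr rfl fun m hm => ?_
    rw [intervalIntegral.integral_finsetSum fun n hn => (hc m hm n hn).intervalIntegrable _ _, Finset.mul_sum]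
    refine Finset.sum_congr rfl fun n hn => ?_
    rw [intervalIntegral.integral_const_mul]
    ring
  have hE1 : ((mk 1 Q : ℝ) : ℂ) = ∑ m ∈ s, ∑ n ∈ s, (a m * (starRingEnd ℂ) (a n)) * (if m = n then 1 else 0) := by
    rw [hmk, ← hcj]
    refine Finset.sum_congr rfl fun m hm => ?_
    simp only [mul_ite, mul_one, mul_zero]
    rw [Finset.sum_ite_eq, if_pos hm]
  have hrw : |At T (fun ω => ‖Q ω‖ ^ 2) - mk 1 Q| = ‖((At T (fun ω => ‖Q ω‖ ^ 2) : ℝ) : ℂ) - ((mk 1 Q : ℝ) : ℂ)‖ := by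
    rw [← Complex.ofReal_sub, Complex.norm_real, Real.norm_eq_abs]
  rw [hrw, hT1, hE1, ← Finset.sum_sub_distrib]
  obtain ⟨X, hX⟩ : ∃ X : ℝ, X = Real.exp l := ⟨_, rfl⟩
  have hX0 : 0 < X := by rw [hX]; exact Real.exp_pos l
  rw [← hX] at hmem ⊢
  have hterm : ∀ m ∈ s, ∀ n ∈ s, ‖(a m * (starRingEnd ℂ) (a n)) * (((1 / T : ℝ) : ℂ) * ∫ t in (0:ℝ)..T, tn m t * (starRingEnd ℂ) (tn n t)) -
      (a m * (starRingEnd ℂ) (a n)) * (if m = n then 1 else 0)‖ ≤
      2 * X / T * ((‖a m‖ ^ 2 + ‖a n‖ ^ 2) / 2 * (if m ≠ n then 1 / |(m:ℝ) - n| else 0)) := by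
    intro m hm n hn
    rw [← mul_sub, norm_mul, norm_mul, Complex.norm_conj]
    by_cases hmn : m = n
    · rw [← hmn, if_pos rfl, hdiag m hm, sub_self, norm_zero]
      simp
    · rw [if_neg hmn, sub_zero, if_pos hmn]
      have h1 := tn_off2 (hmem m hm).1 (hmem n hn).1 hmn (hmem m hm).2 (hmem n hn).2 hT
      have h2 : ‖a m‖ * ‖a n‖ ≤ (‖a m‖ ^ 2 + ‖a n‖ ^ 2) / 2 := by nlinarith [sq_nonneg (‖a m‖ - ‖a n‖)]
      refine (mul_le_mul h2 h1 (norm_nonneg _) (by positivity)).trans (le_of_eq ?_)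
      ring
  have hd : ∀ m ∈ s, ∑ n ∈ s, (if m ≠ n then 1 / |(m:ℝ) - n| else 0) ≤ 2 * (1 + l) := by
    intro m hm
    rw [← Finset.sum_filter, hs]
    refine (dist_sum hK1 (by rwa [hs] at hm)).trans ?_
    linarith
  have hsum : ‖∑ m ∈ s, ((∑ n ∈ s, (a m * (starRingEnd ℂ) (a n)) * (((1 / T : ℝ) : ℂ) * ∫ t in (0:ℝ)..T, tn m t * (starRingEnd ℂ) (tn n t))) -
      ∑ n ∈ s, (a m * (starRingEnd ℂ) (a n)) * (if m = n then 1 else 0))‖ ≤
      ∑ m ∈ s, ∑ n ∈ s, 2 * X / T * ((‖a m‖ ^ 2 + ‖a n‖ ^ 2) / 2 * (if m ≠ n then 1 / |(m:ℝ) - n| else 0)) := by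
    refine (norm_sum_le _ _).trans (Finset.sum_le_sum fun m hm => ?_)
    rw [← Finset.sum_sub_distrib]
    exact (norm_sum_le _ _).trans (Finset.sum_le_sum fun n hn => hterm m hm n hn)
  refine hsum.trans ?_
  have hsym : ∑ m ∈ s, ∑ n ∈ s, ‖a n‖ ^ 2 * (if m ≠ n then 1 / |(m:ℝ) - n| else 0) =
      ∑ m ∈ s, ∑ n ∈ s, ‖a m‖ ^ 2 * (if m ≠ n then 1 / |(m:ℝ) - n| else 0) := by
    rw [Finset.sum_comm]
    refine Finset.sum_congr rfl fun m _ => Finset.sum_congr rfl fun n _ => ?_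
    congr 1
    by_cases hmn : m = n
    · simp [hmn]
    · rw [if_pos hmn, if_pos (Ne.symm hmn), abs_sub_comm]
  have hB : ∑ m ∈ s, ∑ n ∈ s, ‖a m‖ ^ 2 * (if m ≠ n then 1 / |(m:ℝ) - n| else 0) ≤ 2 * (1 + l) * ∑ m ∈ s, ‖a m‖ ^ 2 := by
    rw [Finset.mul_sum]
    refine Finset.sum_le_sum fun m hm => ?_
    rw [← Finset.mul_sum, mul_comm (2 * (1 + l))]
    exact mul_le_mul_of_nonneg_left (hd m hm) (by positivity)
  have hfin : ∑ m ∈ s, ∑ n ∈ s, 2 * X / T * ((‖a m‖ ^ 2 + ‖a n‖ ^ 2) / 2 * (if m ≠ n then 1 / |(m:ℝ) - n| else 0)) =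
      2 * X / T * (1 / 2 * (∑ m ∈ s, ∑ n ∈ s, ‖a m‖ ^ 2 * (if m ≠ n then 1 / |(m:ℝ) - n| else 0)) +
        1 / 2 * ∑ m ∈ s, ∑ n ∈ s, ‖a n‖ ^ 2 * (if m ≠ n then 1 / |(m:ℝ) - n| else 0)) := by
    rw [Finset.mul_sum, Finset.mul_sum, ← Finset.sum_add_distrib, Finset.mul_sum]
    refine Finset.sum_congr rfl fun m _ => ?_
    rw [Finset.mul_sum, Finset.mul_sum, ← Finset.sum_add_distrib, Finset.mul_sum]
    refine Finset.sum_congr rfl fun n _ => ?_
    ring
  rw [hfin, hsym, hmk]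
  have h5 := mul_le_mul_of_nonneg_left hB (show 0 ≤ 2 * X / T by positivity)
  refine le_trans (le_of_eq (by ring)) (h5.trans (le_of_eq (by ring)))

end Pool.Agent.H470
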