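import Pool.Agent.H470.Ya10

set_option autoImplicit false

/-! The moments of the remainder of zeta, general ranges; moments of even order. -/

open Complex MeasureTheory Set Filter Topology

namespace Pool.Agent.H470

/-- admissible ranges -/
structure RgOk (RR : ℕ → ℝ → ℝ → Prop) : Prop where
  mono : ∀ {A A' : ℕ} {Y Y' T T' : ℝ}, RR A Y T → A' ≤ A → 0 ≤ Y' → Y' ≤ Y → 1 ≤ Y → 4 ≤ Real.log T → T ≤ T' → T' ≤ 3 * T → RR A' Y' T'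
  two : ∀ {A : ℕ} {Y T : ℝ}, 2 ≤ A → 1 ≤ Y → 4 ≤ Real.log T → RR A Y T → Y ^ 2 ≤ T

lemma pair2 {RR : ℕ → ℝ → ℝ → Prop} (hR : RgOk RR) {A : ℕ} (hA : 2 ≤ A) {T : ℝ} (hL : 4 ≤ Real.log T) (hT : 1 ≤ T) {N : ℕ} (hN : 1 ≤ N)
    (hNT : (N:ℝ) * Real.log T ^ 4 ≤ T) (hY : RR A (T / N) T) : (N:ℝ) ≤ T ∧ 1 ≤ T / N ∧ Real.sqrt T ≤ N := by
  have hN0 : (0:ℝ) < N := by exact_mod_cast hN
  have hNT1 : (N:ℝ) ≤ T := by
    refine le_trans ?_ hNT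
    have h1 : (1:ℝ) ≤ Real.log T ^ 4 := one_le_pow₀ (by linarith)
    exact le_mul_of_one_le_right hN0.le h1
  have hY1 : 1 ≤ T / N := by rwa [le_div_iff₀ hN0, one_mul]
  exact ⟨hNT1, hY1, sq_cond hT hN hNT1 le_rfl (hR.two hA hY1 hL hY)⟩

/-- the difference of the norms of the remainder and of the short sum is small, large exponents -/
theorem diff_gen {RR : ℕ → ℝ → ℝ → Prop} (hR : RgOk RR) {p κ : ℝ} (hp : 1 < p)
    (hnear0 : ∀ e : ℝ, 0 < e → ∃ η : ℝ, 0 < η ∧ η ≤ 1 / 2 ∧ ∃ A : ℕ, ∀ M : ℕ, A ≤ M → ∀ T : ℝ, RR A M T →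
      ∫ t in (0:ℝ)..T, ‖WW (fun n => be η (xN M * Real.log n)) M t‖ ^ p ≤ e * T * Real.log M ^ (p ^ 2 / 4)) (hκ : 0 < κ) :
    ∃ A : ℕ, ∀ T : ℝ, (A:ℝ) ≤ T → ∀ N : ℕ, 1 ≤ N → (N:ℝ) * Real.log T ^ 4 ≤ T → RR A (T / N) T →
      ∫ t in T..(2 * T), |‖zz t - AA N t‖ - ‖AA ⌊T / DN N⌋₊ t‖| ^ p ≤ κ * (T * Real.log (T / N) ^ (p ^ 2 / 4)) := by
  have hp0 : 0 < p := by linarith
  obtain ⟨q, hq⟩ : ∃ q : ℝ, q = p ^ 2 / 4 := ⟨_, rfl⟩
  have hq0 : 0 < q := by rw [hq]; positivity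
  obtain ⟨C, T₁, hC, hdiff⟩ := rem_diff p hp
  obtain ⟨T₂, hgeom⟩ := geom
  obtain ⟨η, hη, hη2, A₁, hnear⟩ := hnear0 (κ / (6 * C)) (by positivity)
  simp only [← hq] at hnear ⊢
  have hll : Tendsto (fun T : ℝ => Real.log (Real.log T)) atTop atTop := Real.tendsto_log_atTop.comp Real.tendsto_log_atTop
  have hev : ∀ᶠ T : ℝ in atTop, (A₁ : ℝ) ≤ Real.log T ∧ 2 * Real.log 6 / η ≤ Real.log (Real.log T) ∧
      4 * C / κ ≤ Real.log (Real.log T) ^ q ∧ 1 ≤ Real.log (Real.log T) ∧ T₁ ≤ T ∧ T₂ ≤ T ∧ 1 ≤ T ∧ 4 ≤ Real.log T := by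
    filter_upwards [Real.tendsto_log_atTop.eventually_ge_atTop (A₁ : ℝ),
      hll.eventually_ge_atTop (2 * Real.log 6 / η),
      ((tendsto_rpow_atTop hq0).comp hll).eventually_ge_atTop (4 * C / κ), hll.eventually_ge_atTop 1,
      eventually_ge_atTop T₁, eventually_ge_atTop T₂, eventually_ge_atTop 1, Real.tendsto_log_atTop.eventually_ge_atTop 4] with T a1 a3 a5 a6 a7 a8 a9 a10
    exact ⟨a1, a3, a5, a6, a7, a8, a9, a10⟩
  obtain ⟨T₃, hT₃⟩ := eventually_atTop.1 hev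
  obtain ⟨A₃, hA₃⟩ := exists_nat_ge T₃
  refine ⟨A₁ + A₃ + 2, ?_⟩
  intro T hTA N hN hNT hYA
  have hT3 : T₃ ≤ T := by
    refine hA₃.trans (le_trans ?_ hTA)
    exact_mod_cast (by omega : A₃ ≤ A₁ + A₃ + 2)
  obtain ⟨a1, a3, a5, a6, a7, a8, a9, a10⟩ := hT₃ T hT3
  have hTp : 0 < T := by linarith
  have hN0 : (0:ℝ) < N := by exact_mod_cast hN
  obtain ⟨hNT1, hY1, hsN⟩ := pair2 hR (by omega) a10 a9 hN hNT hYA
  obtain ⟨g1, g2, g3, g4⟩ := hgeom T a8 N hsN hNT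
  have hdd := hdiff T a7 N hsN hNT
  obtain ⟨d1, d2, d3⟩ := DN_bd hN
  have hfl := Nat.lt_floor_add_one (T / DN N)
  set M0 := ⌊T / DN N⌋₊ with hM0
  have hM0r : (4:ℝ) ≤ M0 := by exact_mod_cast g3
  obtain ⟨M1, hM1⟩ : ∃ M1 : ℕ, M1 = 2 * M0 + 4 := ⟨_, rfl⟩
  have hM1r : (M1:ℝ) = 2 * M0 + 4 := by rw [hM1]; push_cast; ring
  obtain ⟨Y, hY⟩ : ∃ Y : ℝ, Y = T / N := ⟨_, rfl⟩
  rw [← hY] at g1 g2 hY1 hYA ⊢
  have hM1Y : (M1:ℝ) ≤ Y := by linarith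
  obtain ⟨L, hL⟩ : ∃ L : ℝ, L = Real.log Y := ⟨_, rfl⟩
  rw [← hL]
  have hl0 : Real.log (Real.log T) ≤ Real.log M0 := Real.log_le_log (by linarith) g4
  have hl1 : Real.log M0 ≤ Real.log M1 := Real.log_le_log (by linarith) (by linarith)
  have hl2 : Real.log M1 ≤ L := by rw [hL]; exact Real.log_le_log (by linarith) hM1Y
  have hL1 : 1 ≤ L := by linarith
  have hL0 : 0 < L := by linarith
  have hLq : 0 < L ^ q := by positivity
  have hpw : RR A₁ M1 (3 * T) := hR.mono hYA (by omega) (Nat.cast_nonneg _) hM1Y hY1 a10 (by linarith) le_rfl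
  obtain ⟨w, hw⟩ : ∃ w : ℕ → ℝ, w = fun n : ℕ => be η (xN M1 * Real.log n) := ⟨_, rfl⟩
  have hM13 : 3 ≤ M1 := by omega
  have hx1 := xN_pos hM13
  have hlM1 : 0 < Real.log M1 := by linarith
  have hw1 : ∀ n, M0 < n → n ≤ M1 → w n = 1 := by
    intro n hn1 hn2
    have hn1r : (M0:ℝ) ≤ n := by exact_mod_cast hn1.le
    have hn2r : (n:ℝ) ≤ M1 := by exact_mod_cast hn2
    have b1 : Real.log n ≤ Real.log M1 := Real.log_le_log (by linarith) hn2r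
    have b2 : Real.log M0 ≤ Real.log n := Real.log_le_log (by linarith) hn1r
    have b3 : Real.log M1 ≤ Real.log 6 + Real.log M0 := by
      rw [← Real.log_mul (by norm_num) (by linarith)]
      exact Real.log_le_log (by linarith) (by linarith)
    have b4 : Real.log 6 ≤ η / 2 * Real.log M1 := by
      have : 2 * Real.log 6 / η ≤ Real.log M1 := by linarith
      rw [div_le_iff₀ hη] at this
      linarith
    have b5 : xN M1 * Real.log n = Real.log n / Real.log M1 := by unfold xN; ring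
    rw [hw]
    show be η (xN M1 * Real.log n) = 1
    rw [b5]
    refine be_top hη (div_nonneg (Real.log_natCast_nonneg _) hlM1.le) ?_ ?_
    · rw [le_div_iff₀ hlM1]; linarith
    · rw [div_le_iff₀ hlM1]; linarith
  have hcond1 : 2 * T / DN N ≤ M1 := by
    rw [hM1r, mul_div_assoc]; linarith
  have hcond2 : (M1 : ℝ) ≤ 4 * Real.sqrt T := by
    have e1 : Real.sqrt T * Real.sqrt T = T := Real.mul_self_sqrt hTp.le
    have e2 : Y ≤ Real.sqrt T := by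
      rw [hY, div_le_iff₀ hN0]
      nlinarith [Real.sqrt_nonneg T]
    linarith [Real.sqrt_nonneg T]
  have hD := hdd M1 hcond1 hcond2 M0 (by omega) le_rfl w (fun n => by rw [hw]; exact be_abs _ _) hw1
  have hM1A : A₁ ≤ M1 := by
    have : (A₁:ℝ) ≤ M1 := by linarith
    exact_mod_cast this
  have hnr := hnear M1 hM1A (3 * T) hpw
  rw [← hw] at hnr
  refine hD.trans ?_
  have e2 : Real.log M1 ^ q ≤ L ^ q := Real.rpow_le_rpow hlM1.le hl2 hq0.le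
  have e3 : ∫ t in (0:ℝ)..(3 * T), ‖WW w M1 t‖ ^ p ≤ κ / (6 * C) * (3 * T) * L ^ q :=
    hnr.trans (mul_le_mul_of_nonneg_left e2 (by positivity))
  have e4 : 4 * C / κ ≤ L ^ q := a5.trans (Real.rpow_le_rpow (by linarith) (by linarith) hq0.le)
  rw [div_le_iff₀ hκ] at e4
  have e5 : C * (κ / (6 * C) * (3 * T) * L ^ q + T) = κ / 2 * (T * L ^ q) + C * T := by
    field_simp
    ring
  have e6 : C * T ≤ κ / 4 * (T * L ^ q) := by nlinarith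
  have e7 := mul_le_mul_of_nonneg_left (add_le_add e3 (le_refl T)) hC.le
  have e8 : 0 < κ * (T * L ^ q) := by positivity
  linarith

theorem long_gen {RR : ℕ → ℝ → ℝ → Prop} (hR : RgOk RR) {p : ℝ} (hp0 : 0 < p) {c : ℝ} (hc : 0 < c)
    (hsum : ∀ ε : ℝ, 0 < ε → ∃ A : ℕ, ∀ M : ℕ, A ≤ M → ∀ T : ℝ, RR A M T →
      |1 / T * (∫ t in (0:ℝ)..T, ‖AA M t‖ ^ p) / Real.log M ^ (p ^ 2 / 4) - c| ≤ ε)
    (hdiff0 : ∀ κ : ℝ, 0 < κ → ∃ A : ℕ, ∀ T : ℝ, (A:ℝ) ≤ T → ∀ N : ℕ, 1 ≤ N → (N:ℝ) * Real.log T ^ 4 ≤ T → RR A (T / N) T →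
      ∫ t in T..(2 * T), |‖zz t - AA N t‖ - ‖AA ⌊T / DN N⌋₊ t‖| ^ p ≤ κ * (T * Real.log (T / N) ^ (p ^ 2 / 4))) {ε : ℝ} (hε : 0 < ε) :
    ∃ A : ℕ, ∀ T : ℝ, (A:ℝ) ≤ T → ∀ N : ℕ, 1 ≤ N → (N:ℝ) * Real.log T ^ 4 ≤ T → RR A (T / N) T →
      |1 / T * (∫ t in T..(2 * T), ‖zz t - AA N t‖ ^ p) / Real.log (T / N) ^ (p ^ 2 / 4) - c| ≤ ε := by
  obtain ⟨q, hq⟩ : ∃ q : ℝ, q = p ^ 2 / 4 := ⟨_, rfl⟩
  have hq0 : 0 < q := by rw [hq]; positivity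
  obtain ⟨v, hv⟩ : ∃ v : ℝ, v = ep p := ⟨_, rfl⟩
  have hv0 : 0 < v := by rw [hv]; exact ep_pos hp0
  obtain ⟨T₂, hgeom⟩ := geom
  have hcp : 0 < c ^ v := by positivity
  obtain ⟨δ₁, hδ₁, hc1⟩ := cont_at (q := 1 / v) hcp hε
  have hcc : (c ^ v) ^ (1 / v) = c := by rw [← Real.rpow_mul hc.le, mul_one_div_cancel hv0.ne', Real.rpow_one]
  rw [hcc] at hc1
  obtain ⟨δ₂, hδ₂, hc2⟩ := cont_at (q := v) hc (show 0 < δ₁ / 2 by positivity)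
  obtain ⟨δ₃, hδ₃, hc3⟩ := cont_at (q := q) one_pos (show 0 < δ₂ / (2 * c) by positivity)
  obtain ⟨κ, hκ⟩ : ∃ κ : ℝ, κ = (δ₁ / 2) ^ (1 / v) := ⟨_, rfl⟩
  have hκ0 : 0 < κ := by rw [hκ]; positivity
  obtain ⟨A₁, hdiff⟩ := hdiff0 (κ / 2) (by positivity)
  obtain ⟨A₂, hs⟩ := hsum (δ₂ / 12) (by positivity)
  simp only [← hq] at hs hdiff ⊢
  have hll : Tendsto (fun T : ℝ => Real.log (Real.log T)) atTop atTop := Real.tendsto_log_atTop.comp Real.tendsto_log_atTop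
  have hev : ∀ᶠ T : ℝ in atTop, (A₂ : ℝ) ≤ Real.log T ∧
      2 * Real.log 20 / δ₃ ≤ Real.log (Real.log T) ∧ 1 ≤ Real.log (Real.log T) ∧ T₂ ≤ T ∧ 1 ≤ T ∧ 4 ≤ Real.log T := by
    filter_upwards [Real.tendsto_log_atTop.eventually_ge_atTop (A₂ : ℝ), hll.eventually_ge_atTop (2 * Real.log 20 / δ₃),
      hll.eventually_ge_atTop 1, eventually_ge_atTop T₂, eventually_ge_atTop 1, Real.tendsto_log_atTop.eventually_ge_atTop 4] with T a2 a4 a6 a8 a9 a10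
    exact ⟨a2, a4, a6, a8, a9, a10⟩
  obtain ⟨T₃, hT₃⟩ := eventually_atTop.1 hev
  obtain ⟨A₃, hA₃⟩ := exists_nat_ge T₃
  refine ⟨A₁ + A₂ + A₃ + 2, ?_⟩
  intro T hTA N hN hNT hYA
  have hT3 : T₃ ≤ T := by
    refine hA₃.trans (le_trans ?_ hTA)
    exact_mod_cast (by omega : A₃ ≤ A₁ + A₂ + A₃ + 2)
  have hT1 : (A₁:ℝ) ≤ T := by
    refine le_trans ?_ hTA
    exact_mod_cast (by omega : A₁ ≤ A₁ + A₂ + A₃ + 2)
  obtain ⟨a2, a4, a6, a8, a9, a10⟩ := hT₃ T hT3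
  have hTp : 0 < T := by linarith
  have hN0 : (0:ℝ) < N := by exact_mod_cast hN
  obtain ⟨hNT1, hY1, hsN⟩ := pair2 hR (by omega) a10 a9 hN hNT hYA
  obtain ⟨g1, g2, g3, g4⟩ := hgeom T a8 N hsN hNT
  have hD := hdiff T hT1 N hN hNT (hR.mono hYA (by omega) (by linarith) le_rfl hY1 a10 le_rfl (by linarith))
  set M0 := ⌊T / DN N⌋₊ with hM0
  have hM0r : (4:ℝ) ≤ M0 := by exact_mod_cast g3
  obtain ⟨Y, hY⟩ : ∃ Y : ℝ, Y = T / N := ⟨_, rfl⟩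
  rw [← hY] at g1 g2 hY1 hYA hD ⊢
  obtain ⟨L, hL⟩ : ∃ L : ℝ, L = Real.log Y := ⟨_, rfl⟩
  rw [← hL] at hD ⊢
  have hl0 : Real.log (Real.log T) ≤ Real.log M0 := Real.log_le_log (by linarith) g4
  have hl2 : Real.log M0 ≤ L := by rw [hL]; exact Real.log_le_log (by linarith) (by linarith)
  have hl3 : L ≤ Real.log 20 + Real.log M0 := by
    rw [hL, ← Real.log_mul (by norm_num) (by linarith)]
    exact Real.log_le_log (by linarith) g1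
  have hL1 : 1 ≤ L := by linarith
  have hL0 : 0 < L := by linarith
  have hLq : 0 < L ^ q := by positivity
  have hlM0 : 0 < Real.log M0 := by linarith
  have hM0Y : (M0:ℝ) ≤ Y := by linarith
  have hpw : ∀ T' : ℝ, T ≤ T' → T' ≤ 3 * T → RR A₂ M0 T' := fun T' h1 h2 =>
    hR.mono hYA (by omega) (Nat.cast_nonneg _) hM0Y hY1 a10 h1 h2
  have hM0A : A₂ ≤ M0 := by
    have : (A₂:ℝ) ≤ M0 := by linarith
    exact_mod_cast this
  have hF : Continuous fun t => ‖zz t - AA N t‖ := (zz_cont.sub (AA_cont N)).norm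
  have hG : Continuous fun t => ‖AA M0 t‖ := (AA_cont M0).norm
  have hH : Continuous fun t => |‖zz t - AA N t‖ - ‖AA M0 t‖| := (hF.sub hG).abs
  have hab : T ≤ 2 * T := by linarith
  have hcmp := LN_cmp hp0 hab hF hG hH (fun t => norm_nonneg _) (fun t => norm_nonneg _) (fun t => le_rfl)
  obtain ⟨s, hs1⟩ : ∃ s : ℝ, s = (T * L ^ q) ^ v := ⟨_, rfl⟩
  have hTL : 0 < T * L ^ q := by positivity
  have hs0 : 0 < s := by rw [hs1]; positivity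
  have hHb : LN p T (2 * T) (fun t => |‖zz t - AA N t‖ - ‖AA M0 t‖|) < δ₁ / 2 * s := by
    have e1 : ∫ t in T..(2 * T), |‖zz t - AA N t‖ - ‖AA M0 t‖| ^ p < κ * (T * L ^ q) := by
      refine lt_of_le_of_lt hD ?_
      have e8 : 0 < κ * (T * L ^ q) := by positivity
      linarith
    have e9 := Real.rpow_lt_rpow (LN_int_nonneg hab fun t => abs_nonneg _) e1 hv0
    rw [Real.mul_rpow hκ0.le hTL.le, ← hs1, hκ, ← Real.rpow_mul (by positivity), one_div_mul_cancel hv0.ne', Real.rpow_one] at e9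
    unfold LN
    rw [← hv]
    exact e9
  -- the short sum
  have hI : (∫ t in (0:ℝ)..(2 * T), ‖AA M0 t‖ ^ p) = (∫ t in (0:ℝ)..T, ‖AA M0 t‖ ^ p) + ∫ t in T..(2 * T), ‖AA M0 t‖ ^ p := by
    have hcG : Continuous fun t => ‖AA M0 t‖ ^ p := normp_cont (AA_cont M0) hp0.le
    rw [intervalIntegral.integral_add_adjacent_intervals (hcG.intervalIntegrable _ _) (hcG.intervalIntegrable _ _)]
  have hm2 := hs M0 hM0A (2 * T) (hpw _ (by linarith) (by linarith))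
  have hm1 := hs M0 hM0A T (hpw _ le_rfl (by linarith))
  obtain ⟨I, hIe⟩ : ∃ I : ℝ, I = ∫ t in T..(2 * T), ‖AA M0 t‖ ^ p := ⟨_, rfl⟩
  rw [hI, ← hIe] at hm2
  obtain ⟨z, hz⟩ : ∃ z : ℝ, z = 1 / T * I / Real.log M0 ^ q := ⟨_, rfl⟩
  have hzc : |z - c| ≤ δ₂ / 4 := by
    have e1 : z = 2 * (1 / (2 * T) * ((∫ t in (0:ℝ)..T, ‖AA M0 t‖ ^ p) + I) / Real.log M0 ^ q) - 1 / T * (∫ t in (0:ℝ)..T, ‖AA M0 t‖ ^ p) / Real.log M0 ^ q := by
      rw [hz]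
      have : 0 < Real.log M0 ^ q := by positivity
      field_simp
      ring
    rw [abs_le] at hm1 hm2 ⊢
    rw [e1]
    constructor <;> linarith [hm1.1, hm1.2, hm2.1, hm2.2]
  obtain ⟨r, hr⟩ : ∃ r : ℝ, r = Real.log M0 / L := ⟨_, rfl⟩
  have hr0 : 0 ≤ r := by rw [hr]; positivity
  have hr1 : r ≤ 1 := by rw [hr, div_le_iff₀ hL0]; linarith
  have hr3 : |r - 1| < δ₃ := by
    rw [abs_sub_comm, abs_of_nonneg (by linarith), hr]
    have e1 : 1 - Real.log M0 / L = (L - Real.log M0) / L := by field_simp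
    rw [e1, div_lt_iff₀ hL0]
    have e2 : 2 * Real.log 20 / δ₃ ≤ L := by linarith
    rw [div_le_iff₀ hδ₃] at e2
    have e3 : 0 < Real.log 20 := Real.log_pos (by norm_num)
    linarith
  have hrq := hc3 r hr3
  rw [Real.one_rpow] at hrq
  have hrq0 : 0 ≤ r ^ q := Real.rpow_nonneg hr0 _
  have hrq1 : r ^ q ≤ 1 := Real.rpow_le_one hr0 hr1 hq0.le
  obtain ⟨y, hy⟩ : ∃ y : ℝ, y = I / (T * L ^ q) := ⟨_, rfl⟩
  have hyz : y = z * r ^ q := by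
    rw [hy, hz, hr, Real.div_rpow hlM0.le hL0.le]
    have : 0 < Real.log M0 ^ q := by positivity
    field_simp
  have hyc : |y - c| < δ₂ := by
    have e1 : y - c = (z - c) * r ^ q + c * (r ^ q - 1) := by rw [hyz]; ring
    rw [e1]
    refine lt_of_le_of_lt (abs_add_le _ _) ?_
    rw [abs_mul, abs_mul, abs_of_nonneg hrq0, abs_of_pos hc]
    have e2 : |z - c| * r ^ q ≤ δ₂ / 4 * 1 := mul_le_mul hzc hrq1 hrq0 (by positivity)
    have e3 : c * |r ^ q - 1| ≤ c * (δ₂ / (2 * c)) := mul_le_mul_of_nonneg_left hrq.le hc.le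
    have e4 : c * (δ₂ / (2 * c)) = δ₂ / 2 := by field_simp
    linarith
  have hyr := hc2 y hyc
  have hI0 : 0 ≤ I := by rw [hIe]; exact LN_int_nonneg hab fun t => norm_nonneg _
  have hy2 : y ^ v = LN p T (2 * T) (fun t => ‖AA M0 t‖) / s := by
    rw [hy, Real.div_rpow hI0 hTL.le, hs1, hIe, hv]
    rfl
  rw [hy2] at hyr
  obtain ⟨x, hx⟩ : ∃ x : ℝ, x = LN p T (2 * T) (fun t => ‖zz t - AA N t‖) / s := ⟨_, rfl⟩
  have hxd : |x - c ^ v| < δ₁ := by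
    have e1 : |x - LN p T (2 * T) (fun t => ‖AA M0 t‖) / s| < δ₁ / 2 := by
      rw [hx, ← sub_div, abs_div, abs_of_pos hs0, div_lt_iff₀ hs0]
      exact lt_of_le_of_lt hcmp hHb
    have e2 : x - c ^ v = (x - LN p T (2 * T) (fun t => ‖AA M0 t‖) / s) + (LN p T (2 * T) (fun t => ‖AA M0 t‖) / s - c ^ v) := by ring
    rw [e2]
    refine lt_of_le_of_lt (abs_add_le _ _) ?_
    linarith
  have hfin := hc1 x hxd
  have hxp : x ^ (1 / v) = 1 / T * (∫ t in T..(2 * T), ‖zz t - AA N t‖ ^ p) / L ^ q := by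
    rw [hx, Real.div_rpow (LN_nonneg hab fun t => norm_nonneg _) hs0.le, hv, LN_rpow hp0 hab fun t => norm_nonneg _, hs1, hv,
      ← Real.rpow_mul hTL.le, mul_one_div_cancel (ep_pos hp0).ne', Real.rpow_one]
    field_simp
  rw [hxp] at hfin
  exact hfin.le


/-- moments of even order over `[0, T]` and over the torus -/
lemma transfer (k : ℕ) (w : ℕ → ℝ) {M : ℕ} (hM : 1 ≤ M) {T : ℝ} (hT : 0 < T) :
    |1 / T * (∫ t in (0:ℝ)..T, ‖WW w M t‖ ^ (2 * (k:ℝ))) - mk k (WS w M)| ≤ 4 * (M:ℝ) ^ k * (1 + k * Real.log M) / T * mk k (WS w M) := by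
  have hM0 : (0:ℝ) < M := by exact_mod_cast hM
  have hlM : 0 ≤ Real.log M := Real.log_natCast_nonneg M
  have hsp : Sp (k * Real.log M) (fun ω => WS w M ω ^ k) := (WS_sp w M hlM le_rfl).pow k
  have h1 := MVX (by positivity) hsp hT
  have e0 : ∀ ω, ‖WS w M ω ^ k‖ ^ 2 = ‖WS w M ω‖ ^ (2 * (k:ℝ)) := by
    intro ω
    rw [norm_pow, ← pow_mul, ← Real.rpow_natCast]
    congr 1
    push_cast
    ring
  have e1 : At T (fun ω => ‖WS w M ω ^ k‖ ^ 2) = 1 / T * ∫ t in (0:ℝ)..T, ‖WW w M t‖ ^ (2 * (k:ℝ)) := by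
    rw [← At_WW]
    congr 1
    funext ω
    exact e0 ω
  have e2 : mk 1 (fun ω => WS w M ω ^ k) = mk k (WS w M) := by
    rw [mk_one_sq]
    unfold mk
    congr 1
    funext ω
    exact e0 ω
  have e3 : Real.exp (k * Real.log M) = (M:ℝ) ^ k := by
    rw [Real.exp_nat_mul, Real.exp_log hM0]
  rw [e1, e2, e3] at h1
  exact h1

/-- the range of the lengths for the moment of order `2k` -/
def Rk (k : ℕ) (A : ℕ) (Y T : ℝ) : Prop := (A:ℝ) ≤ T ∧ Y ^ k * Real.log T ^ 2 ≤ T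

lemma Rk_ok {k : ℕ} (hk : 2 ≤ k) : RgOk (Rk k) where
  mono := by
    rintro A A' Y Y' T T' ⟨h1, h2⟩ hA hY0 hY hY1 hL hT1 hT2
    have hTp : 0 < T := by
      by_contra hcon
      have h3 : 0 ≤ Y ^ k * Real.log T ^ 2 := by positivity
      have h4 : T = 0 := by linarith
      rw [h4, Real.log_zero] at hL
      linarith
    refine ⟨?_, ?_⟩
    · have : (A':ℝ) ≤ A := by exact_mod_cast hA
      linarith
    · obtain ⟨r, hr⟩ : ∃ r : ℝ, r = T' / T := ⟨_, rfl⟩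
      have hr1 : 1 ≤ r := by rw [hr, le_div_iff₀ hTp]; linarith
      have hr3 : r ≤ 3 := by rw [hr, div_le_iff₀ hTp]; linarith
      have hT' : T' = r * T := by rw [hr]; field_simp
      have hl : Real.log T' = Real.log r + Real.log T := by
        rw [hT', Real.log_mul (by linarith) hTp.ne']
      have hlr : Real.log r ≤ r - 1 := by
        have := Real.log_le_sub_one_of_pos (show 0 < r by linarith)
        exact this
      have hlr0 : 0 ≤ Real.log r := Real.log_nonneg hr1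
      have h5 : Real.log T' ^ 2 ≤ r * Real.log T ^ 2 := by
        have h6 : Real.log T' ≤ (1 + (r - 1) / 4) * Real.log T := by
          rw [hl]
          nlinarith
        have h7 : Real.log T' ^ 2 ≤ ((1 + (r - 1) / 4) * Real.log T) ^ 2 := pow_le_pow_left₀ (by rw [hl]; linarith) h6 2
        have h8 : (1 + (r - 1) / 4) ^ 2 ≤ r := by nlinarith
        calc Real.log T' ^ 2 ≤ (1 + (r - 1) / 4) ^ 2 * Real.log T ^ 2 := by rw [← mul_pow]; exact h7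
          _ ≤ r * Real.log T ^ 2 := mul_le_mul_of_nonneg_right h8 (by positivity)
      calc Y' ^ k * Real.log T' ^ 2 ≤ Y ^ k * (r * Real.log T ^ 2) :=
            mul_le_mul (pow_le_pow_left₀ hY0 hY k) h5 (by positivity) (by positivity)
        _ = r * (Y ^ k * Real.log T ^ 2) := by ring
        _ ≤ r * T := mul_le_mul_of_nonneg_left h2 (by linarith)
        _ = T' := hT'.symm
  two := by
    rintro A Y T hA hY hL ⟨h1, h2⟩
    have h3 : Y ^ 2 ≤ Y ^ k := pow_le_pow_right₀ hY hk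
    have h4 : (1:ℝ) ≤ Real.log T ^ 2 := one_le_pow₀ (by linarith)
    have h5 : Y ^ k * 1 ≤ Y ^ k * Real.log T ^ 2 := mul_le_mul_of_nonneg_left h4 (by positivity)
    linarith

/-- in the range the two moments are close -/
lemma close_k (k : ℕ) {δ : ℝ} (hδ : 0 < δ) : ∃ A : ℕ, ∀ (w : ℕ → ℝ) (M : ℕ), 1 ≤ M → ∀ T : ℝ, Rk k A M T →
    0 < T ∧ |1 / T * (∫ t in (0:ℝ)..T, ‖WW w M t‖ ^ (2 * (k:ℝ))) - mk k (WS w M)| ≤ δ * mk k (WS w M) := by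
  have hev : ∀ᶠ T : ℝ in atTop, 8 / δ ≤ Real.log T ∧ 1 ≤ Real.log T ∧ 0 < T := by
    filter_upwards [Real.tendsto_log_atTop.eventually_ge_atTop (8 / δ), Real.tendsto_log_atTop.eventually_ge_atTop 1, eventually_gt_atTop 0] with T a1 a2 a3
    exact ⟨a1, a2, a3⟩
  obtain ⟨T₀, hT₀⟩ := eventually_atTop.1 hev
  obtain ⟨A, hA⟩ := exists_nat_ge T₀
  refine ⟨A, fun w M hM T hT => ?_⟩
  obtain ⟨a1, a2, a3⟩ := hT₀ T (hA.trans hT.1)
  refine ⟨a3, (transfer k w hM a3).trans ?_⟩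
  have hM1 : (1:ℝ) ≤ M := by exact_mod_cast hM
  have hM0 : (0:ℝ) < M := by linarith
  refine mul_le_mul_of_nonneg_right ?_ (mk_nonneg _ _)
  have hl0 : 0 < Real.log T := by linarith
  have h2 : (M:ℝ) ^ k ≤ T / Real.log T ^ 2 := by rw [le_div_iff₀ (by positivity)]; exact hT.2
  have h3 : k * Real.log M ≤ Real.log T := by
    rw [← Real.log_pow]
    refine Real.log_le_log (by positivity) (h2.trans ?_)
    exact div_le_self a3.le (one_le_pow₀ a2)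
  rw [div_le_iff₀ hδ] at a1
  rw [div_le_iff₀ a3]
  calc 4 * (M:ℝ) ^ k * (1 + k * Real.log M) ≤ 4 * (T / Real.log T ^ 2) * (2 * Real.log T) := by
        refine mul_le_mul (mul_le_mul_of_nonneg_left h2 (by norm_num)) (by linarith) ?_ (by positivity)
        have : 0 ≤ (k:ℝ) * Real.log M := mul_nonneg (Nat.cast_nonneg _) (Real.log_natCast_nonneg M)
        linarith
    _ = 8 / Real.log T * T := by field_simp; ring
    _ ≤ δ * T := by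
        refine mul_le_mul_of_nonneg_right ?_ a3.le
        rw [div_le_iff₀ hl0]
        linarith

/-- the moment over the torus -/
lemma torus_k {p c : ℝ} (hp : 0 < p) (hsum : ∀ ε : ℝ, 0 < ε → ∃ A : ℕ, ∀ M : ℕ, A ≤ M → ∀ T : ℝ, (M:ℝ) ^ A ≤ T →
      |1 / T * (∫ t in (0:ℝ)..T, ‖AA M t‖ ^ p) / Real.log M ^ (p ^ 2 / 4) - c| ≤ ε) {ε : ℝ} (hε : 0 < ε) :
    ∃ A : ℕ, ∀ M : ℕ, A ≤ M → |mk (p / 2) (SS M) / Real.log M ^ (p ^ 2 / 4) - c| ≤ ε := by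
  obtain ⟨A, hA⟩ := hsum ε hε
  refine ⟨A, fun M hM => ?_⟩
  have h1 := (((At_lim (k := p / 2) (by positivity) (fun _ => 1) M).div_const (Real.log M ^ (p ^ 2 / 4))).sub_const c).abs
  refine le_of_tendsto h1 ?_
  filter_upwards [eventually_ge_atTop ((M:ℝ) ^ A)] with T hT
  have h2 := hA M hM T hT
  rw [At_WW]
  have e3 : 2 * (p / 2) = p := by ring
  rw [e3]
  simp_rw [WW_one]
  exact h2

theorem sum_k {k : ℕ} (hk : 1 ≤ k) {c : ℝ} (hc : 0 < c)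
    (hsum : ∀ ε : ℝ, 0 < ε → ∃ A : ℕ, ∀ M : ℕ, A ≤ M → ∀ T : ℝ, (M:ℝ) ^ A ≤ T →
      |1 / T * (∫ t in (0:ℝ)..T, ‖AA M t‖ ^ (2 * (k:ℝ))) / Real.log M ^ ((2 * (k:ℝ)) ^ 2 / 4) - c| ≤ ε) {ε : ℝ} (hε : 0 < ε) :
    ∃ A : ℕ, ∀ M : ℕ, A ≤ M → ∀ T : ℝ, Rk k A M T →
      |1 / T * (∫ t in (0:ℝ)..T, ‖AA M t‖ ^ (2 * (k:ℝ))) / Real.log M ^ ((2 * (k:ℝ)) ^ 2 / 4) - c| ≤ ε := by
  have hk0 : (0:ℝ) < k := by exact_mod_cast hk
  obtain ⟨A₁, h1⟩ := torus_k (by positivity) hsum (show 0 < ε / 2 by positivity)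
  obtain ⟨A₂, h2⟩ := close_k k (show 0 < ε / (2 * (c + ε)) by positivity)
  refine ⟨A₁ + A₂ + 3, fun M hM T hT => ?_⟩
  have e1 : 2 * (k:ℝ) / 2 = k := by ring
  have h3 := h1 M (by omega)
  rw [e1] at h3
  obtain ⟨hT0, h4⟩ := h2 (fun _ => 1) M (by omega) T ⟨by
    refine le_trans ?_ hT.1
    exact_mod_cast (by omega : A₂ ≤ A₁ + A₂ + 3), hT.2⟩
  simp_rw [WW_one] at h4
  have e2 : WS (fun _ => 1) M = SS M := rfl
  rw [e2] at h4
  have hlM : 1 ≤ Real.log M := log_N (by omega)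
  have hΛ : 0 < Real.log M ^ ((2 * (k:ℝ)) ^ 2 / 4) := Real.rpow_pos_of_pos (by linarith) _
  obtain ⟨Λ, hΛe⟩ : ∃ Λ : ℝ, Λ = Real.log M ^ ((2 * (k:ℝ)) ^ 2 / 4) := ⟨_, rfl⟩
  rw [← hΛe] at h3 hΛ ⊢
  obtain ⟨E, hE⟩ : ∃ E : ℝ, E = 1 / T * (∫ t in (0:ℝ)..T, ‖AA M t‖ ^ (2 * (k:ℝ))) := ⟨_, rfl⟩
  obtain ⟨m, hm⟩ : ∃ m : ℝ, m = mk k (SS M) := ⟨_, rfl⟩
  rw [← hE, ← hm] at h4
  rw [← hm] at h3
  rw [← hE]
  have h5 : m / Λ ≤ c + ε := by
    have := (abs_le.1 h3).2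
    linarith
  have h6 : |E / Λ - m / Λ| ≤ ε / 2 := by
    rw [← sub_div, abs_div, abs_of_pos hΛ]
    calc |E - m| / Λ ≤ ε / (2 * (c + ε)) * m / Λ := div_le_div_of_nonneg_right h4 hΛ.le
      _ = ε / (2 * (c + ε)) * (m / Λ) := by ring
      _ ≤ ε / (2 * (c + ε)) * (c + ε) := mul_le_mul_of_nonneg_left h5 (by positivity)
      _ = ε / 2 := by field_simp
  have h7 : E / Λ - c = (E / Λ - m / Λ) + (m / Λ - c) := by ring
  rw [h7]
  refine (abs_add_le _ _).trans ?_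
  linarith

theorem near_k {k : ℕ} (hk : 1 ≤ k) {e : ℝ} (he : 0 < e) : ∃ η : ℝ, 0 < η ∧ η ≤ 1 / 2 ∧ ∃ A : ℕ, ∀ M : ℕ, A ≤ M → ∀ T : ℝ, Rk k A M T →
    ∫ t in (0:ℝ)..T, ‖WW (fun n => be η (xN M * Real.log n)) M t‖ ^ (2 * (k:ℝ)) ≤ e * T * Real.log M ^ ((2 * (k:ℝ)) ^ 2 / 4) := by
  have hk0 : (0:ℝ) < k := by exact_mod_cast hk
  have hkp := kp_pos hk0
  obtain ⟨η, hη, hη2, h1, -⟩ := near_both hk0 (show 0 < (e / 2) ^ kp k by positivity)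
  obtain ⟨A₁, hA₁⟩ := eventually_atTop.1 h1
  obtain ⟨A₂, h2⟩ := close_k k one_pos
  refine ⟨η, hη, hη2, A₁ + A₂ + 3, fun M hM T hT => ?_⟩
  have h3 := hA₁ M (by omega)
  obtain ⟨hT0, h4⟩ := h2 (fun n : ℕ => be η (xN M * Real.log n)) M (by omega) T ⟨by
    refine le_trans ?_ hT.1
    exact_mod_cast (by omega : A₂ ≤ A₁ + A₂ + 3), hT.2⟩
  have hM3 : 3 ≤ M := by omega
  have hx := xN_pos hM3
  unfold nr at h3
  obtain ⟨m, hm⟩ : ∃ m : ℝ, m = mk k (WS (fun n : ℕ => be η (xN M * Real.log n)) M) := ⟨_, rfl⟩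
  have hm0 : 0 ≤ m := by rw [hm]; exact mk_nonneg _ _
  rw [← hm] at h3 h4
  have h5 := (Real.rpow_le_rpow_iff (mul_nonneg (by positivity) hm0) (by positivity) hkp).mp h3
  have hL : 1 ≤ Real.log M := log_N hM3
  have hL0 : 0 < Real.log M := by linarith
  have e4 : (2 * (k:ℝ)) ^ 2 / 4 = (k:ℝ) ^ 2 := by ring
  rw [e4]
  have h6 : 1 / Real.log M ^ ((k:ℝ) ^ 2) ≤ (2 * xN M) ^ ((k:ℝ) ^ 2) := by
    unfold xN
    rw [one_div, ← Real.inv_rpow hL0.le]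
    apply Real.rpow_le_rpow (by positivity) _ (by positivity)
    rw [mul_one_div, inv_eq_one_div]
    exact div_le_div_of_nonneg_right (by norm_num) hL0.le
  have hq : 0 < Real.log M ^ ((k:ℝ) ^ 2) := Real.rpow_pos_of_pos hL0 _
  have h7 : m ≤ e / 2 * Real.log M ^ ((k:ℝ) ^ 2) := by
    have h8 : 1 / Real.log M ^ ((k:ℝ) ^ 2) * m ≤ e / 2 := (mul_le_mul_of_nonneg_right h6 hm0).trans h5
    rwa [one_div_mul_eq_div, div_le_iff₀ hq] at h8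
  have h9 := (abs_le.1 h4).2
  obtain ⟨I, hI⟩ : ∃ I : ℝ, I = ∫ t in (0:ℝ)..T, ‖WW (fun n => be η (xN M * Real.log n)) M t‖ ^ (2 * (k:ℝ)) := ⟨_, rfl⟩
  rw [← hI] at h9 ⊢
  have h10 : 1 / T * I ≤ 2 * m := by linarith
  rw [one_div_mul_eq_div, div_le_iff₀ hT0] at h10
  have h11 : 2 * m * T ≤ 2 * (e / 2 * Real.log M ^ ((k:ℝ) ^ 2)) * T := mul_le_mul_of_nonneg_right (by linarith) hT0.le
  linarith

/-- moments of even order of the remainder, long range -/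
theorem long_k {k : ℕ} (hk : 2 ≤ k) {c : ℝ} (hc : 0 < c)
    (hsum : ∀ ε : ℝ, 0 < ε → ∃ A : ℕ, ∀ M : ℕ, A ≤ M → ∀ T : ℝ, (M:ℝ) ^ A ≤ T →
      |1 / T * (∫ t in (0:ℝ)..T, ‖AA M t‖ ^ (2 * (k:ℝ))) / Real.log M ^ ((2 * (k:ℝ)) ^ 2 / 4) - c| ≤ ε) {ε : ℝ} (hε : 0 < ε) :
    ∃ A : ℕ, ∀ T : ℝ, (A:ℝ) ≤ T → ∀ N : ℕ, 1 ≤ N → (N:ℝ) * Real.log T ^ 4 ≤ T → (T / N) ^ k * Real.log T ^ 2 ≤ T →
      |1 / T * (∫ t in T..(2 * T), ‖zz t - AA N t‖ ^ (2 * (k:ℝ))) / Real.log (T / N) ^ ((2 * (k:ℝ)) ^ 2 / 4) - c| ≤ ε := by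
  have hk2 : (2:ℝ) ≤ k := by exact_mod_cast hk
  obtain ⟨A, hA⟩ := long_gen (Rk_ok hk) (p := 2 * (k:ℝ)) (by linarith) hc (fun ε hε => sum_k (by omega) hc hsum hε)
    (fun κ hκ => diff_gen (Rk_ok hk) (by linarith) (fun e he => near_k (by omega) he) hκ) hε
  exact ⟨A, fun T hT N hN h1 h2 => hA T hT N hN h1 ⟨hT, h2⟩⟩

end Pool.Agent.H470
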