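import Pool.Agent.H470.Ya11
import Pool.Graph.R_pool_sql_team_seeded_3997aac3.Results.MP_fa2474_nt.OrderForEveryPolynomial

set_option autoImplicit false

/-! Comparison of zeta with its long partial sums in the mean, all real orders. -/

open Complex MeasureTheory Set Filter Topology

namespace Pool.Agent.H470

/-- zeta to the right of one -/
lemma zeta_one_big : ∀ᶠ T : ℝ in atTop, Real.log T / 2 ≤ ‖riemannZeta (1 + 1 / (Real.log T : ℂ))‖ := by
  have h1 : Tendsto (fun T : ℝ => (1 + 1 / (Real.log T : ℂ))) atTop (𝓝[≠] 1) := by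
    rw [tendsto_nhdsWithin_iff]
    constructor
    · have h2 : Tendsto (fun T : ℝ => (1 / Real.log T : ℝ)) atTop (𝓝 0) := by
        simp_rw [one_div]
        exact tendsto_inv_atTop_zero.comp Real.tendsto_log_atTop
      have h3 : Tendsto (fun T : ℝ => (1 : ℂ) + ((1 / Real.log T : ℝ) : ℂ)) atTop (𝓝 (1 + ((0:ℝ) : ℂ))) :=
        tendsto_const_nhds.add ((Complex.continuous_ofReal.tendsto 0).comp h2)
      rw [Complex.ofReal_zero, add_zero] at h3
      refine h3.congr fun T => ?_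
      push_cast
      rfl
    · filter_upwards [Real.tendsto_log_atTop.eventually_gt_atTop 0] with T hT
      have : (Real.log T : ℂ) ≠ 0 := by exact_mod_cast hT.ne'
      show (1 + 1 / (Real.log T : ℂ)) ≠ 1
      intro h
      have h2 : 1 / (Real.log T : ℂ) = 0 := by linear_combination h
      rw [one_div, inv_eq_zero] at h2
      exact this h2
  have h2 := (riemannZeta_residue_one.comp h1).norm
  rw [norm_one] at h2
  filter_upwards [h2.eventually (lt_mem_nhds (show (1:ℝ) / 2 < 1 by norm_num)), Real.tendsto_log_atTop.eventually_gt_atTop 0] with T h3 hT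
  have h4 : ((fun s : ℂ => (s - 1) * riemannZeta s) ∘ fun T : ℝ => (1 + 1 / (Real.log T : ℂ))) T = ((1 / Real.log T : ℝ) : ℂ) * riemannZeta (1 + 1 / (Real.log T : ℂ)) := by
    simp only [Function.comp]
    push_cast
    ring
  rw [h4, norm_mul, Complex.norm_real, Real.norm_of_nonneg (by positivity)] at h3
  have h5 : 1 / 2 < ‖riemannZeta (1 + 1 / (Real.log T : ℂ))‖ / Real.log T := by
    refine h3.trans_le (le_of_eq ?_)
    ring
  rw [lt_div_iff₀ hT] at h5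
  linarith

/-- the lower bound for the moments of zeta, all real orders -/
theorem lowall {p : ℝ} (hp : 0 < p) : ∃ c : ℝ, 0 < c ∧ ∃ T₀ : ℝ, ∀ T : ℝ, T₀ ≤ T →
    c * (T * Real.log T ^ (p ^ 2 / 4)) ≤ ∫ t in T..(2 * T), ‖zz t‖ ^ p := by
  obtain ⟨θ, c, C, T₀, hθ, hc, h⟩ := Pool.Agent.Results.MP_fa2474_nt.OrderForEveryPolynomial.result 1 (p / 2)
  obtain ⟨T₁, hT₁⟩ := eventually_atTop.1 (zeta_one_big.and ((Real.tendsto_log_atTop.eventually_ge_atTop 1).and (eventually_ge_atTop 1)))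
  refine ⟨c * (1 / 2) ^ (p ^ 2 / 4), by positivity, max T₀ T₁, ?_⟩
  intro T hT
  obtain ⟨hz, hl, hT1⟩ := hT₁ T ((le_max_right _ _).trans hT)
  have hTp : 0 < T := by linarith
  have h1 := (h T ((le_max_left _ _).trans hT) (fun _ => p / 2) (fun _ => 0) (by
    rw [Fin.sum_univ_one, abs_of_pos (by positivity)]) (fun j => by simp; linarith)).1
  have e1 : ∀ t : ℝ, Pool.Agent.Results.MP_fa2474_nt.OrderForEveryPolynomial.Z (fun _ : Fin 1 => p / 2) (fun _ => 0) t = ‖zz t‖ ^ p := by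
    intro t
    unfold Pool.Agent.Results.MP_fa2474_nt.OrderForEveryPolynomial.Z zz
    rw [Fin.prod_univ_one]
    have e2 : 2 * (p / 2) = p := by ring
    rw [e2, add_zero, mul_comm (t : ℂ)]
  have e3 : Pool.Agent.Results.MP_fa2474_nt.OrderForEveryPolynomial.order T (fun _ : Fin 1 => p / 2) (fun _ => 0) =
      ‖riemannZeta (1 + 1 / (Real.log T : ℂ))‖ ^ (p / 2 * (p / 2)) := by
    unfold Pool.Agent.Results.MP_fa2474_nt.OrderForEveryPolynomial.order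
    rw [Fin.prod_univ_one, Fin.prod_univ_one]
    simp
  simp_rw [e1] at h1
  rw [e3] at h1
  have hcZ : Continuous fun t => ‖zz t‖ ^ p := normp_cont zz_cont hp.le
  rw [← ofReal_integral_eq_lintegral_ofReal (hcZ.continuousOn.integrableOn_compact isCompact_Icc)
    (Eventually.of_forall fun t => Real.rpow_nonneg (norm_nonneg _) _), integral_Icc_eq_integral_Ioc,
    ← intervalIntegral.integral_of_le (by linarith)] at h1
  have h2 := (ENNReal.ofReal_le_ofReal_iff (LN_int_nonneg (by linarith) fun t => norm_nonneg _)).1 h1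
  refine le_trans ?_ h2
  rw [mul_assoc]
  refine mul_le_mul_of_nonneg_left ?_ hc.le
  have e4 : p / 2 * (p / 2) = p ^ 2 / 4 := by ring
  rw [e4, mul_left_comm]
  refine mul_le_mul_of_nonneg_left ?_ hTp.le
  rw [← Real.mul_rpow (by norm_num) (by linarith)]
  refine Real.rpow_le_rpow (by positivity) ?_ (by positivity)
  linarith

/-- small remainder, ratio of the moments close to one -/
lemma ratio_of {p : ℝ} (hp0 : 0 < p) {ε : ℝ} (hε : 0 < ε) : ∃ κ : ℝ, 0 < κ ∧ ∀ T : ℝ, 0 < T → ∀ N : ℕ,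
    0 < ∫ t in T..(2 * T), ‖zz t‖ ^ p →
    ∫ t in T..(2 * T), ‖zz t - AA N t‖ ^ p ≤ κ * ∫ t in T..(2 * T), ‖zz t‖ ^ p →
      |(∫ t in T..(2 * T), ‖AA N t‖ ^ p) / (∫ t in T..(2 * T), ‖zz t‖ ^ p) - 1| ≤ ε := by
  obtain ⟨v, hv⟩ : ∃ v : ℝ, v = ep p := ⟨_, rfl⟩
  have hv0 : 0 < v := by rw [hv]; exact ep_pos hp0
  obtain ⟨δ, hδ, hcont⟩ := cont_at (q := 1 / v) one_pos hε
  rw [Real.one_rpow] at hcont
  refine ⟨(δ / 2) ^ (1 / v), by positivity, ?_⟩
  intro T hTp N hpos h1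
  have hab : T ≤ 2 * T := by linarith
  obtain ⟨Z, hZ⟩ : ∃ Z : ℝ, Z = ∫ t in T..(2 * T), ‖zz t‖ ^ p := ⟨_, rfl⟩
  rw [← hZ] at hpos h1 ⊢
  have hF : Continuous fun t => ‖AA N t‖ := (AA_cont N).norm
  have hG : Continuous fun t => ‖zz t‖ := zz_cont.norm
  have hH : Continuous fun t => ‖zz t - AA N t‖ := (zz_cont.sub (AA_cont N)).norm
  have hcm := LN_cmp hp0 hab hF hG hH (fun t => norm_nonneg _) (fun t => norm_nonneg _) (fun t => by
    rw [norm_sub_rev (zz t)]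
    exact abs_norm_sub_norm_le _ _)
  obtain ⟨s, hs⟩ : ∃ s : ℝ, s = Z ^ v := ⟨_, rfl⟩
  have hs0 : 0 < s := by rw [hs]; positivity
  have hGs : LN p T (2 * T) (fun t => ‖zz t‖) = s := by
    rw [hs, hZ, hv]
    rfl
  have hHs : LN p T (2 * T) (fun t => ‖zz t - AA N t‖) ≤ δ / 2 * s := by
    have h3 := Real.rpow_le_rpow (LN_int_nonneg hab fun t => norm_nonneg _) h1 hv0.le
    rw [Real.mul_rpow (by positivity) hpos.le, ← Real.rpow_mul (by positivity), one_div_mul_cancel hv0.ne', Real.rpow_one, ← hs] at h3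
    unfold LN
    rw [← hv]
    exact h3
  rw [hGs] at hcm
  obtain ⟨x, hx⟩ : ∃ x : ℝ, x = LN p T (2 * T) (fun t => ‖AA N t‖) / s := ⟨_, rfl⟩
  have hxd : |x - 1| < δ := by
    have e1 : x - 1 = (LN p T (2 * T) (fun t => ‖AA N t‖) - s) / s := by rw [hx]; field_simp
    rw [e1, abs_div, abs_of_pos hs0, div_lt_iff₀ hs0]
    have : 0 < δ * s := by positivity
    linarith
  have hfin := hcont x hxd
  have hxp : x ^ (1 / v) = (∫ t in T..(2 * T), ‖AA N t‖ ^ p) / Z := by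
    rw [hx, Real.div_rpow (LN_nonneg hab fun t => norm_nonneg _) hs0.le, hv, LN_rpow hp0 hab fun t => norm_nonneg _, hs, hv,
      ← Real.rpow_mul hpos.le, mul_one_div_cancel (ep_pos hp0).ne', Real.rpow_one]
  rw [hxp] at hfin
  exact hfin.le

/-- the logarithm of `T / N` is small -/
lemma logY_small {κ : ℝ} (hκ : 0 < κ) : ∃ A : ℕ, ∀ T : ℝ, 1 ≤ T → ∀ N : ℕ, 1 ≤ N → (N:ℝ) ≤ T → (T / N) ^ A ≤ T →
    0 ≤ Real.log (T / N) ∧ Real.log (T / N) ≤ κ * Real.log T := by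
  obtain ⟨A, hA⟩ := exists_nat_gt (1 / κ)
  refine ⟨A, fun T hT N hN hNT h => ?_⟩
  have hN0 : (0:ℝ) < N := by exact_mod_cast hN
  have hY1 : 1 ≤ T / N := by rwa [le_div_iff₀ hN0, one_mul]
  have hlY : 0 ≤ Real.log (T / N) := Real.log_nonneg hY1
  refine ⟨hlY, ?_⟩
  have h2 := Real.log_le_log (by positivity) h
  rw [Real.log_pow] at h2
  have h4 : 1 ≤ κ * A := by
    rw [div_lt_iff₀ hκ] at hA
    linarith
  calc Real.log (T / N) ≤ (κ * A) * Real.log (T / N) := le_mul_of_one_le_left hlY h4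
    _ = κ * (A * Real.log (T / N)) := by ring
    _ ≤ κ * Real.log T := mul_le_mul_of_nonneg_left h2 hκ.le

theorem cmp_hi {p : ℝ} (hp : 1 < p) {ε : ℝ} (hε : 0 < ε) : ∃ A : ℕ, ∀ T : ℝ, (A:ℝ) ≤ T → ∀ N : ℕ, 1 ≤ N → (N:ℝ) ≤ T → (T / N) ^ A ≤ T →
    ∫ t in T..(2 * T), ‖zz t - AA N t‖ ^ p ≤ ε * ∫ t in T..(2 * T), ‖zz t‖ ^ p := by
  have hp0 : 0 < p := by linarith
  obtain ⟨q, hq⟩ : ∃ q : ℝ, q = p ^ 2 / 4 := ⟨_, rfl⟩
  have hq0 : 0 < q := by rw [hq]; positivity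
  obtain ⟨C, hC, A₁, hA₁, hcmp⟩ := cmpz hp
  simp only [← hq] at hcmp
  obtain ⟨κ, hκ⟩ : ∃ κ : ℝ, κ = (ε / C) ^ (1 / q) := ⟨_, rfl⟩
  have hκ0 : 0 < κ := by rw [hκ]; positivity
  have hκq : C * κ ^ q = ε := by
    rw [hκ, ← Real.rpow_mul (by positivity), one_div_mul_cancel hq0.ne', Real.rpow_one]
    field_simp
  obtain ⟨A₂, hA₂⟩ := logY_small (show 0 < κ / 2 by positivity)
  have hll : Tendsto (fun T : ℝ => Real.log (Real.log T) / Real.log T) atTop (𝓝 0) :=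
    Real.isLittleO_log_id_atTop.tendsto_div_nhds_zero.comp Real.tendsto_log_atTop
  have hev : ∀ᶠ T : ℝ in atTop, Real.log (Real.log T) / Real.log T < κ / 2 ∧ 1 ≤ T ∧ 1 ≤ Real.log T := by
    filter_upwards [hll.eventually (gt_mem_nhds (show 0 < κ / 2 by positivity)), eventually_ge_atTop 1,
      Real.tendsto_log_atTop.eventually_ge_atTop 1] with T a1 a2 a3
    exact ⟨a1, a2, a3⟩
  obtain ⟨T₃, hT₃⟩ := eventually_atTop.1 hev
  obtain ⟨A₃, hA₃⟩ := exists_nat_ge T₃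
  refine ⟨A₁ + A₂ + A₃, ?_⟩
  intro T hTA N hN hNT hYA
  obtain ⟨a1, a2, a3⟩ := hT₃ T (hA₃.trans (le_trans (by exact_mod_cast (by omega : A₃ ≤ A₁ + A₂ + A₃)) hTA))
  have hT1 : (A₁:ℝ) ≤ T := le_trans (by exact_mod_cast (by omega : A₁ ≤ A₁ + A₂ + A₃)) hTA
  have hN0 : (0:ℝ) < N := by exact_mod_cast hN
  have hY1 : 1 ≤ T / N := by rwa [le_div_iff₀ hN0, one_mul]
  have hlT : 0 < Real.log T := by linarith
  have hll0 : 0 ≤ Real.log (Real.log T) := Real.log_nonneg a3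
  obtain ⟨hpos, hc1⟩ := hcmp T hT1 N hN hNT ((pow_le_pow_right₀ hY1 (by omega)).trans hYA)
  obtain ⟨hlY, hlY2⟩ := hA₂ T a2 N hN hNT ((pow_le_pow_right₀ hY1 (by omega)).trans hYA)
  have hll2 : Real.log (Real.log T) ≤ κ / 2 * Real.log T := by
    rw [div_lt_iff₀ hlT] at a1
    exact a1.le
  have hΛ : (Real.log (T / N) + Real.log (Real.log T)) ^ q ≤ κ ^ q * Real.log T ^ q := by
    rw [← Real.mul_rpow hκ0.le hlT.le]
    exact Real.rpow_le_rpow (by linarith) (by linarith) hq0.le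
  have hlTq : 0 < Real.log T ^ q := by positivity
  obtain ⟨Z, hZ⟩ : ∃ Z : ℝ, Z = ∫ t in T..(2 * T), ‖zz t‖ ^ p := ⟨_, rfl⟩
  rw [← hZ] at hpos hc1 ⊢
  have h2 : Real.log T ^ q * (∫ t in T..(2 * T), ‖zz t - AA N t‖ ^ p) ≤ Real.log T ^ q * (ε * Z) := by
    refine hc1.trans ?_
    rw [← hκq]
    calc C * (Real.log (T / N) + Real.log (Real.log T)) ^ q * Z ≤ C * (κ ^ q * Real.log T ^ q) * Z :=
          mul_le_mul_of_nonneg_right (mul_le_mul_of_nonneg_left hΛ hC.le) hpos.le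
      _ = _ := by ring
  exact le_of_mul_le_mul_left h2 hlTq

theorem cmp_lo {p : ℝ} (hp0 : 0 < p) (hp2 : p ≤ 2) {ε : ℝ} (hε : 0 < ε) : ∃ A : ℕ, ∀ T : ℝ, (A:ℝ) ≤ T → ∀ N : ℕ, 1 ≤ N → (N:ℝ) ≤ T → (T / N) ^ A ≤ T →
    ∫ t in T..(2 * T), ‖zz t - AA N t‖ ^ p ≤ ε * ∫ t in T..(2 * T), ‖zz t‖ ^ p := by
  obtain ⟨q, hq⟩ : ∃ q : ℝ, q = p ^ 2 / 4 := ⟨_, rfl⟩
  have hq0 : 0 < q := by rw [hq]; positivity
  obtain ⟨c₀, hc₀, T₁, hlow⟩ := lowall hp0
  obtain ⟨c, hc, hsum⟩ := sums_unif hp0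
  obtain ⟨A₁, hlong⟩ := long_asymp hp0 hc hsum one_pos
  obtain ⟨C₂, hC₂, T₂, hup2⟩ := up2 (p := 2) (by norm_num)
  simp only [← hq] at hlow hlong
  have e22 : (2:ℝ) ^ 2 / 4 = 1 := by norm_num
  rw [e22] at hup2
  simp only [Real.rpow_one] at hup2
  obtain ⟨κ, hκ⟩ : ∃ κ : ℝ, κ = (ε * c₀ / (c + 1)) ^ (1 / q) := ⟨_, rfl⟩
  have hκ0 : 0 < κ := by rw [hκ]; positivity
  have hκq : (c + 1) * κ ^ q = ε * c₀ := by
    rw [hκ, ← Real.rpow_mul (by positivity), one_div_mul_cancel hq0.ne', Real.rpow_one]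
    field_simp
  obtain ⟨A₂, hA₂⟩ := logY_small hκ0
  have hbig : ∀ᶠ T : ℝ in atTop, 1 + C₂ * Real.log (Real.log T) ≤ ε * c₀ * Real.log T ^ q := by
    have h1 := ((isLittleO_log_rpow_atTop hq0).comp_tendsto Real.tendsto_log_atTop).bound (show 0 < ε * c₀ / (2 * C₂) by positivity)
    have h2 := ((tendsto_rpow_atTop hq0).comp Real.tendsto_log_atTop).eventually_ge_atTop (2 / (ε * c₀))
    filter_upwards [h1, h2, Real.tendsto_log_atTop.eventually_ge_atTop 1] with T h3 h4 h5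
    simp only [Function.comp] at h3 h4
    have h6 : 0 ≤ Real.log (Real.log T) := Real.log_nonneg h5
    rw [Real.norm_of_nonneg h6, Real.norm_of_nonneg (by positivity)] at h3
    rw [div_le_iff₀ (by positivity)] at h4
    have h7 := mul_le_mul_of_nonneg_left h3 hC₂.le
    have h8 : C₂ * (ε * c₀ / (2 * C₂) * Real.log T ^ q) = ε * c₀ / 2 * Real.log T ^ q := by field_simp
    rw [h8] at h7
    linarith
  have hev : ∀ᶠ T : ℝ in atTop, T₁ ≤ T ∧ T₂ ≤ T ∧ 1 ≤ T ∧ 2 ≤ Real.log T ∧ 1 + C₂ * Real.log (Real.log T) ≤ ε * c₀ * Real.log T ^ q := by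
    filter_upwards [eventually_ge_atTop T₁, eventually_ge_atTop T₂, eventually_ge_atTop 1,
      Real.tendsto_log_atTop.eventually_ge_atTop 2, hbig] with T a1 a2 a3 a4 a5
    exact ⟨a1, a2, a3, a4, a5⟩
  obtain ⟨T₃, hT₃⟩ := eventually_atTop.1 hev
  obtain ⟨A₃, hA₃⟩ := exists_nat_ge T₃
  refine ⟨A₁ + A₂ + A₃, ?_⟩
  intro T hTA N hN hNT hYA
  obtain ⟨a1, a2, a3, a4, a5⟩ := hT₃ T (hA₃.trans (le_trans (by exact_mod_cast (by omega : A₃ ≤ A₁ + A₂ + A₃)) hTA))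
  have hT1 : (A₁:ℝ) ≤ T := le_trans (by exact_mod_cast (by omega : A₁ ≤ A₁ + A₂ + A₃)) hTA
  have hTp : 0 < T := by linarith
  have hN0 : (0:ℝ) < N := by exact_mod_cast hN
  have hY1 : 1 ≤ T / N := by rwa [le_div_iff₀ hN0, one_mul]
  have hlT : 0 < Real.log T := by linarith
  have hlTq : 0 < Real.log T ^ q := by positivity
  have hlo := hlow T a1
  have hfin : ∫ t in T..(2 * T), ‖zz t - AA N t‖ ^ p ≤ ε * (c₀ * (T * Real.log T ^ q)) := by
    rcases le_or_gt ((N:ℝ) * Real.log T ^ 4) T with h | h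
    · have h1 := (abs_le.1 (hlong T hT1 N hN h ((pow_le_pow_right₀ hY1 (by omega)).trans hYA))).2
      obtain ⟨hlY, hlY2⟩ := hA₂ T a3 N hN hNT ((pow_le_pow_right₀ hY1 (by omega)).trans hYA)
      have h16 : 2 ≤ T / N := by
        rw [le_div_iff₀ hN0]
        have h4 : (2:ℝ) ^ 4 ≤ Real.log T ^ 4 := pow_le_pow_left₀ (by norm_num) a4 4
        nlinarith
      have hlYp : 0 < Real.log (T / N) := Real.log_pos (by linarith)
      have hlYq : 0 < Real.log (T / N) ^ q := by positivity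
      have h2 : 1 / T * (∫ t in T..(2 * T), ‖zz t - AA N t‖ ^ p) / Real.log (T / N) ^ q ≤ c + 1 := by linarith
      rw [div_le_iff₀ hlYq, one_div_mul_eq_div, div_le_iff₀ hTp] at h2
      have h3 : Real.log (T / N) ^ q ≤ κ ^ q * Real.log T ^ q := by
        rw [← Real.mul_rpow hκ0.le hlT.le]
        exact Real.rpow_le_rpow hlY hlY2 hq0.le
      calc ∫ t in T..(2 * T), ‖zz t - AA N t‖ ^ p ≤ (c + 1) * Real.log (T / N) ^ q * T := h2
        _ ≤ (c + 1) * (κ ^ q * Real.log T ^ q) * T :=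
            mul_le_mul_of_nonneg_right (mul_le_mul_of_nonneg_left h3 (by positivity)) hTp.le
        _ = ((c + 1) * κ ^ q) * (T * Real.log T ^ q) := by ring
        _ = ε * (c₀ * (T * Real.log T ^ q)) := by rw [hκq]; ring
    · have h1 := hup2 T a2 N hNT h
      have hF : Continuous fun t => ‖zz t - AA N t‖ := (zz_cont.sub (AA_cont N)).norm
      have hc' : ∀ r : ℝ, 0 ≤ r → Continuous fun t => ‖zz t - AA N t‖ ^ r := fun r hr => hF.rpow_const fun _ => Or.inr hr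
      have hpt : ∀ x : ℝ, 0 ≤ x → x ^ p ≤ 1 + x ^ (2:ℝ) := by
        intro x hx
        rcases le_total x 1 with h | h
        · have := Real.rpow_le_one hx h hp0.le
          have := Real.rpow_nonneg hx 2
          linarith
        · have := Real.rpow_le_rpow_of_exponent_le h hp2
          linarith
      have hI : ∫ t in T..(2 * T), ‖zz t - AA N t‖ ^ p ≤ ∫ t in T..(2 * T), (1 + ‖zz t - AA N t‖ ^ (2:ℝ)) :=
        intervalIntegral.integral_mono_on (by linarith) ((hc' p hp0.le).intervalIntegrable _ _)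
          ((continuous_const.add (hc' 2 (by norm_num))).intervalIntegrable _ _) fun t _ => hpt _ (norm_nonneg _)
      rw [intervalIntegral.integral_add (continuous_const.intervalIntegrable _ _) ((hc' 2 (by norm_num)).intervalIntegrable _ _),
        intervalIntegral.integral_const, smul_eq_mul, mul_one] at hI
      have h5 := mul_le_mul_of_nonneg_left a5 hTp.le
      calc ∫ t in T..(2 * T), ‖zz t - AA N t‖ ^ p ≤ T * (1 + C₂ * Real.log (Real.log T)) := by linarith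
        _ ≤ T * (ε * c₀ * Real.log T ^ q) := h5
        _ = ε * (c₀ * (T * Real.log T ^ q)) := by ring
  exact hfin.trans (mul_le_mul_of_nonneg_left hlo hε.le)

/-- zeta and its partial sums of length `T ^ (1 - o(1))`, all real orders -/
theorem cmp_all {p : ℝ} (hp : 0 < p) {ε : ℝ} (hε : 0 < ε) : ∃ A : ℕ, ∀ T : ℝ, (A:ℝ) ≤ T → ∀ N : ℕ, 1 ≤ N → (N:ℝ) ≤ T → (T / N) ^ A ≤ T →
    ∫ t in T..(2 * T), ‖zz t - AA N t‖ ^ p ≤ ε * (∫ t in T..(2 * T), ‖zz t‖ ^ p) ∧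
    |(∫ t in T..(2 * T), ‖AA N t‖ ^ p) / (∫ t in T..(2 * T), ‖zz t‖ ^ p) - 1| ≤ ε := by
  obtain ⟨κ, hκ, hrat⟩ := ratio_of hp hε
  obtain ⟨c₀, hc₀, T₁, hlow⟩ := lowall hp
  have hmain : ∃ A : ℕ, ∀ T : ℝ, (A:ℝ) ≤ T → ∀ N : ℕ, 1 ≤ N → (N:ℝ) ≤ T → (T / N) ^ A ≤ T →
      ∫ t in T..(2 * T), ‖zz t - AA N t‖ ^ p ≤ min ε κ * ∫ t in T..(2 * T), ‖zz t‖ ^ p := by
    rcases le_or_gt p 1 with h | h
    · exact cmp_lo hp (by linarith) (lt_min hε hκ)
    · exact cmp_hi h (lt_min hε hκ)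
  obtain ⟨A, hA⟩ := hmain
  obtain ⟨T₃, hT₃⟩ := eventually_atTop.1 ((eventually_ge_atTop T₁).and ((eventually_ge_atTop (1:ℝ)).and (Real.tendsto_log_atTop.eventually_ge_atTop 1)))
  obtain ⟨A₃, hA₃⟩ := exists_nat_ge T₃
  refine ⟨A + A₃, fun T hT N hN hNT hY => ?_⟩
  obtain ⟨a1, a2, a3⟩ := hT₃ T (hA₃.trans (le_trans (by exact_mod_cast (by omega : A₃ ≤ A + A₃)) hT))
  have hTp : 0 < T := by linarith
  have hN0 : (0:ℝ) < N := by exact_mod_cast hN
  have hY1 : 1 ≤ T / N := by rwa [le_div_iff₀ hN0, one_mul]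
  have h1 := hA T (le_trans (by exact_mod_cast (by omega : A ≤ A + A₃)) hT) N hN hNT ((pow_le_pow_right₀ hY1 (by omega)).trans hY)
  have hlT : 0 < Real.log T := by linarith
  have hpos : 0 < ∫ t in T..(2 * T), ‖zz t‖ ^ p := lt_of_lt_of_le (by positivity) (hlow T a1)
  exact ⟨h1.trans (mul_le_mul_of_nonneg_right (min_le_left _ _) hpos.le),
    hrat T hTp N hpos (h1.trans (mul_le_mul_of_nonneg_right (min_le_right _ _) hpos.le))⟩

end Pool.Agent.H470
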