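import Pool.Agent.H470.Ya1
import Pool.Graph.R_seed8.W184.MV

set_option autoImplicit false

/-! Discrete mean squares of partial sums of zeta. -/

open Complex MeasureTheory Set Filter Topology

namespace Pool.Agent.H470

open Pool.Agent.W184 (DS DS_norm_sq log_gap harm_le off_row)

lemma tele (F : ℤ → ℝ) (K : ℕ) : ∑ k ∈ Finset.Icc (1 - (K : ℤ)) K, (F k - F (k - 1)) = F K - F (-K) := by
  induction K with
  | zero =>
    simp
  | succ K ih =>
    have h1 : Finset.Icc (1 - ((K + 1 : ℕ) : ℤ)) ((K + 1 : ℕ) : ℤ) =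
        insert ((K : ℤ) + 1) (insert (-(K : ℤ)) (Finset.Icc (1 - (K : ℤ)) K)) := by
      ext k
      simp only [Finset.mem_Icc, Finset.mem_insert]
      push_cast
      omega
    rw [h1, Finset.sum_insert, Finset.sum_insert, ih]
    · push_cast
      rw [show (-(K:ℤ) - 1) = -((K:ℤ) + 1) by ring, show ((K:ℤ) + 1 - 1) = K by ring]
      ring
    · simp only [Finset.mem_Icc, not_and, not_le]; omega
    · simp only [Finset.mem_insert, Finset.mem_Icc, not_or, not_and, not_le]; omega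

lemma sum_cos (h x t : ℝ) (K : ℕ) :
    |∑ k ∈ Finset.Icc (1 - (K : ℤ)) K, Real.cos ((t + h * ((k : ℝ) - 1 / 2)) * x)| * |Real.sin (h * x / 2)| ≤ 1 := by
  have h1 : (2 * Real.sin (h * x / 2)) * ∑ k ∈ Finset.Icc (1 - (K : ℤ)) K, Real.cos ((t + h * ((k : ℝ) - 1 / 2)) * x) =
      Real.sin ((t + h * ((K : ℤ) : ℝ)) * x) - Real.sin ((t + h * ((-K : ℤ) : ℝ)) * x) := by
    rw [← tele (fun k => Real.sin ((t + h * (k : ℝ)) * x)) K, Finset.mul_sum]
    refine Finset.sum_congr rfl fun k _ => ?_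
    rw [Real.sin_sub_sin]
    push_cast
    rw [show ((t + h * (k:ℝ)) * x - (t + h * ((k:ℝ) - 1)) * x) / 2 = h * x / 2 by ring,
      show ((t + h * (k:ℝ)) * x + (t + h * ((k:ℝ) - 1)) * x) / 2 = (t + h * ((k : ℝ) - 1 / 2)) * x by ring]
  have h2 := congrArg (fun z : ℝ => |z|) h1
  simp only [abs_mul, abs_two] at h2
  have h3 : |Real.sin ((t + h * ((K : ℤ) : ℝ)) * x) - Real.sin ((t + h * ((-K : ℤ) : ℝ)) * x)| ≤ 2 := by
    have a1 := Real.abs_sin_le_one ((t + h * ((K : ℤ) : ℝ)) * x)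
    have a2 := Real.abs_sin_le_one ((t + h * ((-K : ℤ) : ℝ)) * x)
    have a3 := abs_sub (Real.sin ((t + h * ((K : ℤ) : ℝ)) * x)) (Real.sin ((t + h * ((-K : ℤ) : ℝ)) * x))
    linarith
  rw [← h2] at h3
  linarith

lemma sum_cos' {h x : ℝ} (hh : 0 < h) (hx : x ≠ 0) (hhx : h * |x| ≤ 3) (t : ℝ) (K : ℕ) :
    |∑ k ∈ Finset.Icc (1 - (K : ℤ)) K, Real.cos ((t + h * ((k : ℝ) - 1 / 2)) * x)| ≤ 4 / (h * |x|) := by
  have hx0 : 0 < |x| := abs_pos.2 hx
  have h1 := sum_cos h x t K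
  have h2 : |Real.sin (h * x / 2)| = Real.sin (h * |x| / 2) := by
    rcases le_or_gt 0 x with hx1 | hx1
    · rw [abs_of_nonneg hx1, abs_of_nonneg]
      apply Real.sin_nonneg_of_nonneg_of_le_pi (by positivity)
      rw [abs_of_nonneg hx1] at hhx
      linarith [Real.pi_gt_three]
    · rw [abs_of_neg hx1] at hhx ⊢
      rw [show h * x / 2 = -(h * -x / 2) by ring, Real.sin_neg, abs_neg, abs_of_nonneg]
      apply Real.sin_nonneg_of_nonneg_of_le_pi
      · have : 0 < -x := by linarith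
        positivity
      · linarith [Real.pi_gt_three]
  have h3 : h * |x| / 4 ≤ Real.sin (h * |x| / 2) := by
    have h4 := Real.mul_le_sin (x := h * |x| / 2) (by positivity) (by linarith [Real.pi_gt_three])
    refine le_trans ?_ h4
    have hpi : Real.pi ≤ 4 := Real.pi_le_four
    have : (1:ℝ) / 2 ≤ 2 / Real.pi := by
      rw [div_le_div_iff₀ (by norm_num) Real.pi_pos]; linarith
    calc h * |x| / 4 = 1 / 2 * (h * |x| / 2) := by ring
      _ ≤ _ := mul_le_mul_of_nonneg_right this (by positivity)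
  rw [h2] at h1
  rw [le_div_iff₀ (by positivity)]
  have h5 : |∑ k ∈ Finset.Icc (1 - (K : ℤ)) K, Real.cos ((t + h * ((k : ℝ) - 1 / 2)) * x)| * (h * |x| / 4) ≤ 1 :=
    (mul_le_mul_of_nonneg_left h3 (abs_nonneg _)).trans h1
  linarith

lemma AA_sq (M : ℕ) (s : ℝ) : ‖AA M s‖ ^ 2 = ∑ m ∈ Finset.Icc 1 M, ∑ n ∈ Finset.Icc 1 M,
    ((m : ℝ) ^ (-(1 / 2) : ℝ)) * ((n : ℝ) ^ (-(1 / 2) : ℝ)) * Real.cos (s * (Real.log m - Real.log n)) := by
  have h := DS_norm_sq (fun _ => 1) M (1 / 2) s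
  have e : DS (fun _ => 1) M (((1 / 2 : ℝ) : ℂ) + s * Complex.I) = AA M s := by
    unfold DS AA
    refine Finset.sum_congr rfl fun n _ => ?_
    rw [Complex.ofReal_one, one_mul]
    congr 1
    push_cast
    ring
  rw [e] at h
  rw [h]
  refine Finset.sum_congr rfl fun m _ => Finset.sum_congr rfl fun n _ => ?_
  rw [one_mul, one_mul]

/-- discrete mean square -/
theorem dms {T : ℝ} (hL : 4 ≤ Real.log T) {M : ℕ} (hM1 : 1 ≤ M) (hM : (M : ℝ) ≤ T) (K : ℕ) (t : ℝ) :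
    ∑ k ∈ Finset.Icc (1 - (K : ℤ)) K, ‖AA M (t + hT T * ((k : ℝ) - 1 / 2))‖ ^ 2 ≤
      (1 + Real.log M) * (2 * K + 24 * Real.log T * M) := by
  have hL0 : 0 < Real.log T := by linarith
  set h := hT T with hh
  have hh0 : 0 < h := by rw [hh]; unfold hT; positivity
  have hhL : h * Real.log T = 1 / 2 := by rw [hh]; unfold hT; field_simp
  have hM0 : (0 : ℝ) < M := by exact_mod_cast hM1
  set S := Finset.Icc (1 - (K : ℤ)) K with hS
  have hcard : (S.card : ℝ) = 2 * K := by rw [hS]; exact card_Icc K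
  simp_rw [AA_sq]
  rw [Finset.sum_comm]
  have e1 : ∀ m ∈ Finset.Icc 1 M, ∑ k ∈ S, ∑ n ∈ Finset.Icc 1 M, ((m : ℝ) ^ (-(1 / 2) : ℝ)) * ((n : ℝ) ^ (-(1 / 2) : ℝ)) *
      Real.cos ((t + h * ((k : ℝ) - 1 / 2)) * (Real.log m - Real.log n)) =
      ∑ n ∈ Finset.Icc 1 M, ((m : ℝ) ^ (-(1 / 2) : ℝ)) * ((n : ℝ) ^ (-(1 / 2) : ℝ)) *
      ∑ k ∈ S, Real.cos ((t + h * ((k : ℝ) - 1 / 2)) * (Real.log m - Real.log n)) := by
    intro m _
    rw [Finset.sum_comm]
    refine Finset.sum_congr rfl fun n _ => ?_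
    rw [Finset.mul_sum]
  rw [Finset.sum_congr rfl e1]
  have hr : ∀ n : ℕ, 1 ≤ n → ((n : ℝ) ^ (-(1 / 2) : ℝ)) * ((n : ℝ) ^ (-(1 / 2) : ℝ)) = 1 / n := by
    intro n hn
    have hn0 : (0:ℝ) < n := by exact_mod_cast hn
    rw [← Real.rpow_add hn0]
    norm_num
    rw [Real.rpow_neg_one]
  have hmn : ∀ m n : ℕ, 1 ≤ m → 1 ≤ n → ((m : ℝ) ^ (-(1 / 2) : ℝ)) * ((n : ℝ) ^ (-(1 / 2) : ℝ)) ≤ (1 / 2) * (1 / m + 1 / n) := by
    intro m n hm hn
    have h1 := hr m hm
    have h2 := hr n hn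
    nlinarith [sq_nonneg ((m : ℝ) ^ (-(1 / 2) : ℝ) - (n : ℝ) ^ (-(1 / 2) : ℝ))]
  have key : ∀ m n : ℕ, 1 ≤ m → m < n → n ≤ M → ∀ x : ℝ, |x| = Real.log n - Real.log m →
      ((m : ℝ) ^ (-(1 / 2) : ℝ)) * ((n : ℝ) ^ (-(1 / 2) : ℝ)) * ∑ k ∈ S, Real.cos ((t + h * ((k : ℝ) - 1 / 2)) * x) ≤
      (4 * Real.log T) * (((1:ℝ) / m + 1 / n) * (n / (n - m))) := by
    intro m n hm hmn' hn x hx
    have hm0 : (0:ℝ) < m := by exact_mod_cast hm
    have hn0 : (0:ℝ) < n := by exact_mod_cast (by omega : 0 < n)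
    have hd : (0:ℝ) < n - m := by
      have : (m:ℝ) < n := by exact_mod_cast hmn'
      linarith
    have hg := log_gap hm hmn'
    have hgp : 0 < ((n:ℝ) - m) / n := by positivity
    have hx0 : 0 < |x| := by rw [hx]; linarith
    have hlogn : Real.log n ≤ Real.log T := Real.log_le_log hn0 (by
      have : (n:ℝ) ≤ M := by exact_mod_cast hn
      linarith)
    have hlogm : 0 ≤ Real.log m := Real.log_natCast_nonneg m
    have h1 := sum_cos' hh0 (abs_pos.1 hx0) (by rw [hx]; nlinarith) t K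
    have h2 : 4 / (h * |x|) ≤ (8 * Real.log T) * (n / (n - m)) := by
      rw [div_le_iff₀ (by positivity), hx]
      calc (4:ℝ) = 8 * (h * Real.log T) * ((n / (n - m)) * (((n:ℝ) - m) / n)) := by
            rw [hhL]; field_simp; ring
        _ = 8 * Real.log T * (n / (n - m)) * (h * (((n:ℝ) - m) / n)) := by ring
        _ ≤ _ := by
            apply mul_le_mul_of_nonneg_left _ (by positivity)
            exact mul_le_mul_of_nonneg_left hg hh0.le
    have hp0 : 0 ≤ ((m : ℝ) ^ (-(1 / 2) : ℝ)) * ((n : ℝ) ^ (-(1 / 2) : ℝ)) := by positivity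
    have hdn : 0 ≤ (n:ℝ) / (n - m) := by positivity
    calc ((m : ℝ) ^ (-(1 / 2) : ℝ)) * ((n : ℝ) ^ (-(1 / 2) : ℝ)) * ∑ k ∈ S, Real.cos ((t + h * ((k : ℝ) - 1 / 2)) * x)
        ≤ ((m : ℝ) ^ (-(1 / 2) : ℝ)) * ((n : ℝ) ^ (-(1 / 2) : ℝ)) * ((8 * Real.log T) * (n / (n - m))) :=
          mul_le_mul_of_nonneg_left ((le_abs_self _).trans (h1.trans h2)) hp0
      _ ≤ ((1 / 2) * (1 / m + 1 / n)) * ((8 * Real.log T) * (n / (n - m))) :=
          mul_le_mul_of_nonneg_right (hmn m n hm (by omega)) (by positivity)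
      _ = _ := by ring
  have hterm : ∀ m ∈ Finset.Icc 1 M, ∀ n ∈ Finset.Icc 1 M,
      ((m : ℝ) ^ (-(1 / 2) : ℝ)) * ((n : ℝ) ^ (-(1 / 2) : ℝ)) *
        ∑ k ∈ S, Real.cos ((t + h * ((k : ℝ) - 1 / 2)) * (Real.log m - Real.log n)) ≤
      (4 * Real.log T) * (if m < n then ((1:ℝ) / m + 1 / n) * (n / (n - m)) else 0) +
      (4 * Real.log T) * (if n < m then ((1:ℝ) / n + 1 / m) * (m / (m - n)) else 0) +
      (if n = m then (1 / (n:ℝ)) * (2 * K) else 0) := by
    intro m hm n hn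
    rw [Finset.mem_Icc] at hm hn
    rcases lt_trichotomy m n with hlt | heq | hgt
    · rw [if_pos hlt, if_neg (by omega), if_neg (by omega), mul_zero, add_zero, add_zero]
      refine key m n hm.1 hlt hn.2 _ ?_
      have hg := log_gap hm.1 hlt
      have hm0 : (0:ℝ) < m := by exact_mod_cast hm.1
      have hn0 : (0:ℝ) < n := by exact_mod_cast hn.1
      have hd : (0:ℝ) < n - m := by
        have : (m:ℝ) < n := by exact_mod_cast hlt
        linarith
      have hgp : 0 < ((n:ℝ) - m) / n := by positivity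
      rw [abs_sub_comm, abs_of_pos (by linarith)]
    · subst heq
      rw [if_neg (lt_irrefl _), if_pos rfl, hr m hm.1]
      simp only [sub_self, mul_zero, Real.cos_zero, Finset.sum_const, nsmul_eq_mul, mul_one, hcard, zero_add, if_neg (lt_irrefl _)]
      exact le_rfl
    · rw [if_neg (by omega), if_pos hgt, if_neg (by omega), mul_zero, zero_add, add_zero]
      have h3 := key n m hn.1 hgt hm.2 (Real.log m - Real.log n) (by
        have hg := log_gap hn.1 hgt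
        have hm0 : (0:ℝ) < m := by exact_mod_cast hm.1
        have hn0 : (0:ℝ) < n := by exact_mod_cast hn.1
        have hd : (0:ℝ) < m - n := by
          have : (n:ℝ) < m := by exact_mod_cast hgt
          linarith
        have hgp : 0 < ((m:ℝ) - n) / m := by positivity
        rw [abs_of_pos (by linarith)])
      rw [mul_comm ((m : ℝ) ^ (-(1 / 2) : ℝ))]
      exact h3
  refine (Finset.sum_le_sum fun m hm => Finset.sum_le_sum fun n hn => hterm m hm n hn).trans ?_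
  simp_rw [Finset.sum_add_distrib, ← Finset.mul_sum]
  have r1 : ∑ m ∈ Finset.Icc 1 M, ∑ n ∈ Finset.Icc 1 M,
      (if m < n then ((1:ℝ) / m + 1 / n) * (n / (n - m)) else 0) ≤ 3 * M * (1 + Real.log M) := by
    rw [Finset.sum_comm]
    calc ∑ n ∈ Finset.Icc 1 M, ∑ m ∈ Finset.Icc 1 M, (if m < n then ((1:ℝ) / m + 1 / n) * (n / (n - m)) else 0) ≤
        ∑ n ∈ Finset.Icc 1 M, 3 * (1 + Real.log M) := by
          refine Finset.sum_le_sum fun n hn => ?_
          rw [← Finset.sum_filter]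
          exact off_row hn
      _ = 3 * M * (1 + Real.log M) := by
          rw [Finset.sum_const, Nat.card_Icc, nsmul_eq_mul]
          simp
          ring
  have r2 : ∑ m ∈ Finset.Icc 1 M, ∑ n ∈ Finset.Icc 1 M,
      (if n < m then ((1:ℝ) / n + 1 / m) * (m / (m - n)) else 0) ≤ 3 * M * (1 + Real.log M) := by
    calc ∑ m ∈ Finset.Icc 1 M, ∑ n ∈ Finset.Icc 1 M, (if n < m then ((1:ℝ) / n + 1 / m) * (m / (m - n)) else 0) ≤
        ∑ m ∈ Finset.Icc 1 M, 3 * (1 + Real.log M) := by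
          refine Finset.sum_le_sum fun m hm => ?_
          rw [← Finset.sum_filter]
          exact off_row hm
      _ = 3 * M * (1 + Real.log M) := by
          rw [Finset.sum_const, Nat.card_Icc, nsmul_eq_mul]
          simp
          ring
  have r3 : ∑ m ∈ Finset.Icc 1 M, ∑ n ∈ Finset.Icc 1 M, (if n = m then (1 / (n:ℝ)) * (2 * K) else 0) ≤
      (1 + Real.log M) * (2 * K) := by
    have e2 : ∀ m ∈ Finset.Icc 1 M, ∑ n ∈ Finset.Icc 1 M, (if n = m then (1 / (n:ℝ)) * (2 * K) else 0) = (1 / (m:ℝ)) * (2 * K) := by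
      intro m hm
      rw [Finset.sum_ite_eq' (Finset.Icc 1 M) m (fun n => (1 / (n:ℝ)) * (2 * K)), if_pos hm]
    rw [Finset.sum_congr rfl e2, ← Finset.sum_mul]
    exact mul_le_mul_of_nonneg_right (harm_le M) (by positivity)
  have h4 : 0 ≤ 4 * Real.log T := by linarith
  have h5 := mul_le_mul_of_nonneg_left r1 h4
  have h6 := mul_le_mul_of_nonneg_left r2 h4
  calc _ ≤ (4 * Real.log T) * (3 * M * (1 + Real.log M)) + (4 * Real.log T) * (3 * M * (1 + Real.log M)) +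
        (1 + Real.log M) * (2 * K) := add_le_add (add_le_add h5 h6) r3
    _ = _ := by ring

end Pool.Agent.H470
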