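import Pool.Agent.H470.Ya2
import Pool.Agent.H470.It

set_option autoImplicit false

/-! The approximate functional equation with sharp cutoffs and a bounded error. -/

open Complex MeasureTheory Set Filter Topology

namespace Pool.Agent.H470

/-- first powers, from the discrete mean square -/
lemma sum_AA {T : ℝ} (hL : 4 ≤ Real.log T) {M : ℕ} (hM1 : 1 ≤ M) (hM : (M : ℝ) ≤ T) {K : ℕ} {Q : ℝ}
    (hQ : 0 ≤ Q) (hQ2 : (K : ℝ) * M ≤ Q ^ 2) (t : ℝ) :
    ∑ k ∈ Finset.Icc (1 - (K : ℤ)) K, ‖AA M (t + hT T * ((k : ℝ) - 1 / 2))‖ ≤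
      2 * Real.log T * (2 * K + 7 * Q) := by
  have h := dms hL hM1 hM K t
  set S := Finset.Icc (1 - (K : ℤ)) K with hS
  have hcard : (S.card : ℝ) = 2 * K := by rw [hS]; exact card_Icc K
  have hcs := sq_sum_le_card_mul_sum_sq (s := S) (f := fun k : ℤ => ‖AA M (t + hT T * ((k : ℝ) - 1 / 2))‖)
  rw [hcard] at hcs
  set X := ∑ k ∈ S, ‖AA M (t + hT T * ((k : ℝ) - 1 / 2))‖ with hX
  have hX0 : 0 ≤ X := Finset.sum_nonneg fun _ _ => norm_nonneg _
  have hM0 : (0:ℝ) < M := by exact_mod_cast hM1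
  have hlogM : Real.log M ≤ Real.log T := Real.log_le_log hM0 hM
  have hlogM0 : 0 ≤ Real.log M := Real.log_natCast_nonneg M
  have hK0 : (0:ℝ) ≤ K := Nat.cast_nonneg K
  set L := Real.log T with hLd
  have h1 : X ^ 2 ≤ (2 * L * (2 * K + 7 * Q)) ^ 2 := by
    have hKM : 0 ≤ (K:ℝ) * M := by positivity
    calc X ^ 2 ≤ 2 * K * ((1 + Real.log M) * (2 * K + 24 * L * M)) :=
          hcs.trans (mul_le_mul_of_nonneg_left h (by positivity))
      _ ≤ 2 * K * ((2 * L) * (2 * K + 24 * L * M)) := by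
          apply mul_le_mul_of_nonneg_left _ (by positivity)
          apply mul_le_mul_of_nonneg_right (by linarith)
          positivity
      _ = 8 * L * K ^ 2 + 96 * L ^ 2 * (K * M) := by ring
      _ ≤ 8 * L * K ^ 2 + 96 * L ^ 2 * Q ^ 2 := by
          have := mul_le_mul_of_nonneg_left hQ2 (by positivity : 0 ≤ 96 * L ^ 2)
          linarith
      _ ≤ (2 * L * (2 * K + 7 * Q)) ^ 2 := by
          have h2 : (2 * L * (2 * K + 7 * Q)) ^ 2 = 16 * L ^ 2 * K ^ 2 + 196 * L ^ 2 * Q ^ 2 + 112 * L ^ 2 * (K * Q) := by ring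
          rw [h2]
          have h3 : 8 * L * (K:ℝ) ^ 2 ≤ 16 * L ^ 2 * K ^ 2 := by
            have : 8 * L ≤ 16 * L ^ 2 := by nlinarith
            exact mul_le_mul_of_nonneg_right this (by positivity)
          have h4 : 0 ≤ 112 * L ^ 2 * (K * Q) := by positivity
          have h5 : 0 ≤ 100 * L ^ 2 * Q ^ 2 := by positivity
          linarith
  exact (pow_le_pow_iff_left₀ hX0 (by positivity) (by norm_num)).1 h1

/-- pointwise bound by two partial sums of length at most `√T` and a square of a logarithm -/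
lemma crude : ∃ C T₀ : ℝ, 0 < C ∧ ∀ T : ℝ, T₀ ≤ T → ∀ N : ℕ, Real.sqrt T ≤ N → (N : ℝ) ≤ 2 * Real.sqrt T →
    ∀ s : ℝ, 3 * T / 4 ≤ s → s ≤ 3 * T →
    ‖zz s‖ ≤ ‖AA N s‖ + ‖AA ⌊s / (2 * Real.pi * (N + 1 / 2))⌋₊ s‖ + C * Real.log T ^ 2 := by
  obtain ⟨C₀, hC₀, hafe⟩ := afe2
  have hev : ∀ᶠ T : ℝ in atTop, 5 ≤ Real.log T ∧ 10 ^ 8 ≤ T ∧ 8 * Real.log T ^ 2 ≤ T ^ (1 / 4 : ℝ) := by
    have e1 : ∀ᶠ T : ℝ in atTop, 5 ≤ Real.log T := Real.tendsto_log_atTop.eventually_ge_atTop 5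
    have h := (isLittleO_log_rpow_rpow_atTop (s := 1 / 4) 2 (by norm_num)).bound
      (show (0 : ℝ) < 1 / 8 by norm_num)
    filter_upwards [h, e1, eventually_ge_atTop ((10:ℝ) ^ 8)] with T hT hL hT0
    have hTp : 0 < T := by linarith
    have h2 : Real.log T ^ (2 : ℝ) = Real.log T ^ 2 := by
      rw [← Real.rpow_natCast]; norm_num
    rw [h2, Real.norm_of_nonneg (by positivity), Real.norm_of_nonneg (by positivity)] at hT
    exact ⟨hL, hT0, by linarith⟩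
  obtain ⟨T₀, hT₀⟩ := eventually_atTop.1 hev
  refine ⟨C₀ + 3000, T₀, by linarith, ?_⟩
  intro T hTT N hN1 hN2 s hs1 hs2
  obtain ⟨hL5, hT8, hlog⟩ := hT₀ T hTT
  have hTp : 0 < T := by linarith
  set g := T ^ (1 / 4 : ℝ) with hg
  set q := Real.sqrt T with hq
  have hq0 : 0 < q := Real.sqrt_pos.2 hTp
  have hqq : q ^ 2 = T := Real.sq_sqrt hTp.le
  have hgg : g ^ 2 = q := by
    rw [hg, hq, Real.sqrt_eq_rpow, ← Real.rpow_natCast, ← Real.rpow_mul hTp.le]; norm_num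
  have hg0 : 0 < g := by positivity
  have hg1 : 100 ≤ g := by
    have h4 : (100:ℝ) ^ 4 ≤ g ^ 4 := by
      have : g ^ 4 = T := by rw [← hqq, ← hgg]; ring
      rw [this]; norm_num at hT8 ⊢; linarith
    exact (pow_le_pow_iff_left₀ (by norm_num) hg0.le (by norm_num)).1 h4
  set R := 2 * g with hR
  have hL0 : 0 < Real.log T := by linarith
  have hR2 : R ^ 2 = 4 * q := by rw [hR, mul_pow, hgg]; norm_num
  have c1 : Real.sqrt T ≤ R ^ 2 := by rw [hR2]; linarith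
  have c2 : 1 ≤ R := by linarith
  have c3 : R * Real.log T ^ 2 ≤ q := by
    rw [hR, ← hgg]
    calc 2 * g * Real.log T ^ 2 = g * (2 * Real.log T ^ 2) := by ring
      _ ≤ g * g := by
        apply mul_le_mul_of_nonneg_left _ hg0.le
        have : 0 ≤ Real.log T ^ 2 := by positivity
        linarith
      _ = g ^ 2 := by ring
  have hq4 : 10000 ≤ q := by rw [← hgg]; nlinarith
  have c4 : 2 * R * Real.log T + 1 ≤ T / 4 := by
    have h1 : R * Real.log T ≤ q := by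
      refine le_trans ?_ c3
      apply mul_le_mul_of_nonneg_left _ (by linarith)
      nlinarith
    have h2 : 10000 * q ≤ T := by rw [← hqq, sq]; exact mul_le_mul_of_nonneg_right hq4 hq0.le
    linarith
  have hmain := hafe T R hL5 c1 c2 c3 c4 N hN1 (by rw [hR2]; linarith) s hs1 hs2
  set m := ⌊s / (2 * Real.pi * (N + 1 / 2))⌋₊ with hm
  set K := KT T R with hK
  have hKb : (K : ℝ) ≤ 9 * g * Real.log T ^ 2 := by
    have h1 := (Nat.ceil_lt_add_one (by positivity : 0 ≤ 4 * R * Real.log T ^ 2)).le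
    have h2 : (K : ℝ) ≤ 4 * R * Real.log T ^ 2 + 1 := h1
    have h3 : (1:ℝ) ≤ g * Real.log T ^ 2 := by
      have : (1:ℝ) ≤ Real.log T ^ 2 := by nlinarith
      nlinarith
    rw [hR] at h2
    linarith
  obtain ⟨k1, k2, k3, k4, k5, k6⟩ := par (R := R) (by linarith : 4 ≤ Real.log T) c2
  have hwin : ∀ k ∈ Finset.Icc (1 - (K : ℤ)) K, |hT T * ((k : ℝ) - 1 / 2)| ≤ T / 4 := by
    intro k hk
    rw [abs_mul, abs_of_pos k1]
    exact (mul_le_mul_of_nonneg_left (half_abs hk) k1.le).trans (k6.trans c4)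
  have hsum : ∑ k ∈ Finset.Icc (1 - (K : ℤ)) K, ‖zz (s + hT T * ((k : ℝ) - 1 / 2))‖ ≤ (2 * K) * (9 * q) := by
    calc _ ≤ ∑ k ∈ Finset.Icc (1 - (K : ℤ)) K, 9 * q := by
          refine Finset.sum_le_sum fun k hk => ?_
          have h1 := abs_le.1 (hwin k hk)
          exact zz_bd (by linarith) (by linarith) (by linarith)
      _ = (2 * K) * (9 * q) := by rw [Finset.sum_const, nsmul_eq_mul, card_Icc]
  have herr : 8 * R / T * ∑ k ∈ Finset.Icc (1 - (K : ℤ)) K, ‖zz (s + hT T * ((k : ℝ) - 1 / 2))‖ ≤ 3000 * Real.log T ^ 2 := by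
    calc _ ≤ 8 * R / T * ((2 * (9 * g * Real.log T ^ 2)) * (9 * q)) := by
          apply mul_le_mul_of_nonneg_left (hsum.trans _) (by positivity)
          apply mul_le_mul_of_nonneg_right _ (by positivity)
          linarith
      _ = 2592 * (g ^ 2 * q / T) * Real.log T ^ 2 := by rw [hR]; ring
      _ = 2592 * Real.log T ^ 2 := by
          rw [hgg, ← sq, hqq, div_self hTp.ne', mul_one]
      _ ≤ _ := by
          apply mul_le_mul_of_nonneg_right (by norm_num) (by positivity)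
  have hC : C₀ ≤ C₀ * Real.log T ^ 2 := by
    have : (1:ℝ) ≤ Real.log T ^ 2 := by nlinarith
    nlinarith
  have hn : ‖chi s * (starRingEnd ℂ) (AA m s)‖ = ‖AA m s‖ := by
    rw [norm_mul, chi_norm, one_mul, RCLike.norm_conj]
  calc ‖zz s‖ = ‖(zz s - AA N s - chi s * (starRingEnd ℂ) (AA m s)) + AA N s + chi s * (starRingEnd ℂ) (AA m s)‖ := by
        congr 1; ring
    _ ≤ ‖zz s - AA N s - chi s * (starRingEnd ℂ) (AA m s)‖ + ‖AA N s‖ + ‖chi s * (starRingEnd ℂ) (AA m s)‖ :=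
        (norm_add_le _ _).trans (add_le_add (norm_add_le _ _) le_rfl)
    _ ≤ _ := by rw [hn]; linarith

/-- the approximate functional equation -/
theorem afe3 : ∃ C T₀ : ℝ, 0 < C ∧ ∀ T : ℝ, T₀ ≤ T → ∀ N : ℕ, Real.sqrt T ≤ N → (N : ℝ) * Real.log T ^ 4 ≤ T →
    ∀ t : ℝ, 9 * T / 10 ≤ t → t ≤ 21 * T / 10 →
    ‖zz t - AA N t - chi t * (starRingEnd ℂ) (AA ⌊t / (2 * Real.pi * (N + 1 / 2))⌋₊ t)‖ ≤ C := by
  obtain ⟨C₀, hC₀, hafe⟩ := afe2
  obtain ⟨C₁, T₁, hC₁, hcr⟩ := crude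
  refine ⟨C₀ + 16 * (120 + 11 * C₁) + 8 * 500, max T₁ (max (Real.exp 5) (10 ^ 8)), by positivity, ?_⟩
  intro T hTT N hN1 hN2 t ht1 ht2
  have hT1 : T₁ ≤ T := (le_max_left _ _).trans hTT
  have hTe : Real.exp 5 ≤ T := (le_max_left _ _).trans ((le_max_right _ _).trans hTT)
  have hT8 : (10:ℝ) ^ 8 ≤ T := (le_max_right _ _).trans ((le_max_right _ _).trans hTT)
  have hTp : 0 < T := by linarith
  have hL5 : 5 ≤ Real.log T := by rwa [Real.le_log_iff_exp_le hTp]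
  have hL : 4 ≤ Real.log T := by linarith
  set L := Real.log T with hLd
  set q := Real.sqrt T with hq
  have hq0 : 0 < q := Real.sqrt_pos.2 hTp
  have hqq : q ^ 2 = T := Real.sq_sqrt hTp.le
  have hq4 : 10 ^ 4 ≤ q := by
    rw [hq, show ((10:ℝ) ^ 4) = Real.sqrt ((10 ^ 4) ^ 2) by rw [Real.sqrt_sq (by norm_num)]]
    apply Real.sqrt_le_sqrt; norm_num at hT8 ⊢; linarith
  set R := Real.sqrt N with hR
  have hN0 : (0:ℝ) ≤ N := Nat.cast_nonneg N
  have hR2 : R ^ 2 = N := Real.sq_sqrt hN0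
  have c1 : Real.sqrt T ≤ R ^ 2 := by rw [hR2]; exact hN1
  have c2 : 1 ≤ R := by
    rw [hR, Real.one_le_sqrt]; linarith
  have c3 : R * L ^ 2 ≤ q := by
    have h1 : (R * L ^ 2) ^ 2 ≤ q ^ 2 := by
      rw [mul_pow, hR2, hqq]
      calc (N:ℝ) * (L ^ 2) ^ 2 = N * L ^ 4 := by ring
        _ ≤ T := hN2
    exact (pow_le_pow_iff_left₀ (by positivity) hq0.le (by norm_num)).1 h1
  have hRL : R * L ≤ q / 5 := by
    have : 5 * (R * L) ≤ R * L ^ 2 := by nlinarith [mul_le_mul_of_nonneg_left hL5 (by positivity : 0 ≤ R * L)]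
    linarith
  have hqT : 10 ^ 4 * q ≤ T := by rw [← hqq, sq]; exact mul_le_mul_of_nonneg_right hq4 hq0.le
  have c4' : 2 * R * L + 1 ≤ T / 20 := by linarith
  have c4 : 2 * R * L + 1 ≤ T / 4 := by linarith
  have hmain := hafe T R hL5 c1 c2 c3 c4 N hN1 hR2.ge t (by linarith) (by linarith)
  refine hmain.trans ?_
  obtain ⟨k1, k2, k3, k4, k5, k6⟩ := par (R := R) hL c2
  set h := hT T with hh
  set K := KT T R with hK
  set S := Finset.Icc (1 - (K : ℤ)) K with hS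
  have hK0 : (0:ℝ) ≤ K := Nat.cast_nonneg K
  have hL2 : (25:ℝ) ≤ L ^ 2 := by nlinarith
  have hKb : (K : ℝ) ≤ 5 * R * L ^ 2 := by
    have h1 := (Nat.ceil_lt_add_one (by positivity : 0 ≤ 4 * R * L ^ 2)).le
    have h2 : (K : ℝ) ≤ 4 * R * L ^ 2 + 1 := h1
    have h3 : (1:ℝ) ≤ R * L ^ 2 := by nlinarith
    linarith
  have hw : ∀ k ∈ S, |h * ((k : ℝ) - 1 / 2)| ≤ 2 * R * L + 1 := by
    intro k hk
    rw [abs_mul, abs_of_pos k1]
    exact (mul_le_mul_of_nonneg_left (half_abs hk) k1.le).trans k6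
  -- the short sums
  set N1 := ⌈q⌉₊ with hN1d
  have hN1a : q ≤ N1 := Nat.le_ceil _
  have hN1b : (N1 : ℝ) ≤ q + 1 := (Nat.ceil_lt_add_one hq0.le).le
  set D := 2 * Real.pi * ((N1 : ℝ) + 1 / 2) with hD
  have hpi := Real.pi_gt_three
  have hpi4 := Real.pi_lt_d2
  have hD6 : 6 * q ≤ D := by
    rw [hD]
    calc 6 * q ≤ 2 * Real.pi * q := mul_le_mul_of_nonneg_right (by linarith) hq0.le
      _ ≤ _ := mul_le_mul_of_nonneg_left (by linarith) (by positivity)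
  have hD7 : D ≤ 7 * q := by
    rw [hD]
    calc 2 * Real.pi * ((N1 : ℝ) + 1 / 2) ≤ 2 * 3.15 * (q + 2) :=
          mul_le_mul (by linarith) (by linarith) (by positivity) (by norm_num)
      _ ≤ _ := by linarith
  have hD0 : 0 < D := by linarith
  have hcr' : ∀ k ∈ S, ‖zz (t + h * ((k : ℝ) - 1 / 2))‖ ≤ ‖AA N1 (t + h * ((k : ℝ) - 1 / 2))‖ +
      ‖AA ⌊(t + h * ((k : ℝ) - 1 / 2)) / D⌋₊ (t + h * ((k : ℝ) - 1 / 2))‖ + C₁ * L ^ 2 := by
    intro k hk
    have h1 := abs_le.1 (hw k hk)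
    exact hcr T hT1 N1 hN1a (by linarith) _ (by linarith) (by linarith)
  set a := ⌊(t - (2 * R * L + 1)) / D⌋₊ with ha
  have hfl : ∀ k ∈ S, ⌊(t + h * ((k : ℝ) - 1 / 2)) / D⌋₊ = a ∨ ⌊(t + h * ((k : ℝ) - 1 / 2)) / D⌋₊ = a + 1 := by
    intro k hk
    have h1 := abs_le.1 (hw k hk)
    have h2 : a ≤ ⌊(t + h * ((k : ℝ) - 1 / 2)) / D⌋₊ := Nat.floor_le_floor (by
      apply div_le_div_of_nonneg_right _ hD0.le; linarith)
    have h3 : ⌊(t + h * ((k : ℝ) - 1 / 2)) / D⌋₊ ≤ a + 1 := by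
      have h4 : (t + h * ((k : ℝ) - 1 / 2)) / D ≤ (t - (2 * R * L + 1)) / D + 1 := by
        rw [div_add_one hD0.ne']
        apply div_le_div_of_nonneg_right _ hD0.le
        linarith
      calc _ ≤ ⌊(t - (2 * R * L + 1)) / D + 1⌋₊ := Nat.floor_le_floor h4
        _ = a + 1 := by
          rw [Nat.floor_add_one]
          apply div_nonneg _ hD0.le
          linarith
    omega
  have ha1 : 1 ≤ a := by
    rw [ha, Nat.one_le_floor_iff, le_div_iff₀ hD0]; linarith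
  have ha2 : (a : ℝ) + 1 ≤ q := by
    have h1 : (a : ℝ) ≤ (t - (2 * R * L + 1)) / D := Nat.floor_le (by
      apply div_nonneg _ hD0.le; linarith)
    have h2 : (t - (2 * R * L + 1)) / D ≤ q / 2 := by
      rw [div_le_iff₀ hD0]
      have h3 : q / 2 * (6 * q) ≤ q / 2 * D := mul_le_mul_of_nonneg_left hD6 (by linarith)
      have h4 : q / 2 * (6 * q) = 3 * T := by rw [← hqq]; ring
      have h5 : 0 ≤ R * L := by positivity
      linarith
    linarith
  -- the bound of the sums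
  set Q := 4 * L * Real.sqrt (R * q) with hQ
  have hRq0 : 0 ≤ R * q := by positivity
  have hss : Real.sqrt (R * q) ^ 2 = R * q := Real.sq_sqrt hRq0
  have hQ0 : 0 ≤ Q := by positivity
  have hQ2 : ∀ M : ℕ, (M : ℝ) ≤ 2 * q → (K : ℝ) * M ≤ Q ^ 2 := by
    intro M hM
    rw [hQ, mul_pow, mul_pow, hss]
    calc (K : ℝ) * M ≤ (5 * R * L ^ 2) * (2 * q) := mul_le_mul hKb hM (Nat.cast_nonneg M) (by positivity)
      _ ≤ 4 ^ 2 * L ^ 2 * (R * q) := by
        have : 0 ≤ R * q * L ^ 2 := by positivity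
        linarith
  have hqT' : 2 * q ≤ T := by linarith
  have hS1 : ∀ M : ℕ, 1 ≤ M → (M : ℝ) ≤ 2 * q → ∑ k ∈ S, ‖AA M (t + h * ((k : ℝ) - 1 / 2))‖ ≤ 2 * L * (2 * K + 7 * Q) :=
    fun M hM1 hM2 => sum_AA hL hM1 (by linarith) hQ0 (hQ2 M hM2) t
  have hS2 : ∑ k ∈ S, ‖AA ⌊(t + h * ((k : ℝ) - 1 / 2)) / D⌋₊ (t + h * ((k : ℝ) - 1 / 2))‖ ≤ 2 * (2 * L * (2 * K + 7 * Q)) := by
    calc _ ≤ ∑ k ∈ S, (‖AA a (t + h * ((k : ℝ) - 1 / 2))‖ + ‖AA (a + 1) (t + h * ((k : ℝ) - 1 / 2))‖) := by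
          refine Finset.sum_le_sum fun k hk => ?_
          rcases hfl k hk with h1 | h1 <;> rw [h1] <;> linarith [norm_nonneg (AA a (t + h * ((k : ℝ) - 1 / 2))), norm_nonneg (AA (a + 1) (t + h * ((k : ℝ) - 1 / 2)))]
      _ ≤ _ := by
          rw [Finset.sum_add_distrib]
          have b1 := hS1 a ha1 (by linarith)
          have b2 := hS1 (a + 1) (by omega) (by push_cast; linarith)
          linarith
  have hS3 : ∑ k ∈ S, ‖zz (t + h * ((k : ℝ) - 1 / 2))‖ ≤ 3 * (2 * L * (2 * K + 7 * Q)) + (2 * K) * (C₁ * L ^ 2) := by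
    refine (Finset.sum_le_sum hcr').trans ?_
    rw [Finset.sum_add_distrib, Finset.sum_add_distrib, Finset.sum_const, nsmul_eq_mul, hS, card_Icc]
    have b1 := hS1 N1 (by
      have : (1:ℝ) ≤ N1 := by linarith
      exact_mod_cast this) (by linarith)
    rw [hS] at b1 hS2
    linarith
  -- the end
  have f1 : R * L ^ 2 * (R * L ^ 2) ≤ T := by
    calc R * L ^ 2 * (R * L ^ 2) ≤ q * q := mul_le_mul c3 c3 (by positivity) hq0.le
      _ = T := by rw [← hqq]; ring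
  have f2 : R * L ^ 2 * Real.sqrt (R * q) ≤ T := by
    have hsq : Real.sqrt (R * q) ≤ q := by
      rw [Real.sqrt_le_iff]
      have hRq : R ≤ q := by nlinarith
      refine ⟨hq0.le, ?_⟩
      rw [sq]
      exact mul_le_mul_of_nonneg_right hRq hq0.le
    calc R * L ^ 2 * Real.sqrt (R * q) ≤ q * q := mul_le_mul c3 hsq (Real.sqrt_nonneg _) hq0.le
      _ = T := by rw [← hqq]; ring
  have hKR : 8 * R / T * (3 * (2 * L * (2 * K + 7 * Q)) + (2 * K) * (C₁ * L ^ 2)) ≤ 16 * (120 + 11 * C₁) + 8 * 500 := by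
    have g1 : 3 * (2 * L * (2 * K + 7 * Q)) + (2 * K) * (C₁ * L ^ 2) ≤
        (12 + 10 * C₁) * (R * L ^ 4) + 168 * (L ^ 2 * Real.sqrt (R * q)) := by
      have g2 : 12 * L * K ≤ 12 * (R * L ^ 4) := by
        calc 12 * L * (K:ℝ) ≤ 12 * L * (5 * R * L ^ 2) := mul_le_mul_of_nonneg_left hKb (by positivity)
          _ = 12 * (R * L ^ 3) * 5 := by ring
          _ ≤ 12 * (R * L ^ 3) * L := mul_le_mul_of_nonneg_left hL5 (by positivity)
          _ = 12 * (R * L ^ 4) := by ring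
      have g3 : (2 * K) * (C₁ * L ^ 2) ≤ 10 * C₁ * (R * L ^ 4) := by
        calc (2 * (K:ℝ)) * (C₁ * L ^ 2) ≤ (2 * (5 * R * L ^ 2)) * (C₁ * L ^ 2) :=
              mul_le_mul_of_nonneg_right (by linarith) (by positivity)
          _ = _ := by ring
      rw [hQ]
      linarith
    have hRT : 0 ≤ 8 * R / T := by positivity
    calc _ ≤ 8 * R / T * ((12 + 10 * C₁) * (R * L ^ 4) + 168 * (L ^ 2 * Real.sqrt (R * q))) :=
          mul_le_mul_of_nonneg_left g1 hRT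
      _ = (96 + 80 * C₁) * (R * L ^ 2 * (R * L ^ 2) / T) + 1344 * (R * L ^ 2 * Real.sqrt (R * q) / T) := by ring
      _ ≤ (96 + 80 * C₁) * 1 + 1344 * 1 := by
          apply add_le_add
          · exact mul_le_mul_of_nonneg_left ((div_le_one hTp).2 f1) (by positivity)
          · exact mul_le_mul_of_nonneg_left ((div_le_one hTp).2 f2) (by norm_num)
      _ ≤ _ := by linarith
  have h8 : 8 * R / T * ∑ k ∈ S, ‖zz (t + h * ((k : ℝ) - 1 / 2))‖ ≤ 8 * R / T * (3 * (2 * L * (2 * K + 7 * Q)) + (2 * K) * (C₁ * L ^ 2)) :=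
    mul_le_mul_of_nonneg_left hS3 (by positivity)
  linarith

end Pool.Agent.H470
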