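import Pool.Agent.H470.Ya3
import Pool.Agent.H470.Wp

set_option autoImplicit false

/-! Sums whose length varies with the height; the remainder of zeta after a partial sum. -/

open Complex MeasureTheory Set Filter Topology

namespace Pool.Agent.H470

lemma WW_one (N : ℕ) (t : ℝ) : WW (fun _ => 1) N t = AA N t := by
  unfold WW AA
  simp

/-- the integral of a function bounded by a sum of variable length -/
theorem varlen (p : ℝ) (hp : 1 < p) : ∃ C : ℝ, 0 < C ∧ ∀ T R : ℝ, 4 ≤ Real.log T →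
    Real.sqrt T ≤ R ^ 2 → 1 ≤ R → R ≤ T → ∀ M : ℕ, (M : ℝ) ≤ 16 * T → (M : ℝ) ≤ R ^ 2 →
    ∀ D a b : ℝ, 0 < D → 2 * R * Real.log T + 2 ≤ D → D ≤ a → a ≤ b → ⌊b / D⌋₊ ≤ M →
    ∀ w : ℕ → ℝ, (∀ n, |w n| ≤ 1) → ∀ F : ℝ → ℝ, Continuous F → ∀ c : ℝ,
    (∀ t ∈ Icc a b, F t ≤ c + ‖WW w ⌊t / D⌋₊ t‖ ^ p) →
    ∫ t in a..b, F t ≤ c * (b - a) + C * ((∫ t in (a - 2 * D)..(b + 2 * D), ‖WW w M t‖ ^ p) + (b - a + 2 * D)) := by
  obtain ⟨C, hC, hm⟩ := mono_w p hp
  have hp0 : 0 ≤ p := by linarith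
  refine ⟨3 * C, by positivity, ?_⟩
  intro T R hL hRT hR hRT1 M hM16 hMR D a b hD hwD hDa hab hbM w hw F hF c hFc
  have ha : 0 ≤ a := by linarith
  have hb : 0 ≤ b := by linarith
  set m0 := ⌊a / D⌋₊ with hm0
  set m1 := ⌊b / D⌋₊ + 1 with hm1
  have hm01 : 1 ≤ m0 := by
    rw [hm0, Nat.one_le_floor_iff, one_le_div hD]; exact hDa
  have hcm : ∀ m : ℕ, Continuous fun t => ‖WW w m t‖ ^ p := fun m => normp_cont (WW_cont w m) hp0
  have hc0 : ∀ (m : ℕ) t, 0 ≤ ‖WW w m t‖ ^ p := fun m t => Real.rpow_nonneg (norm_nonneg _) _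
  set J : ℝ → ℝ := fun t => ∑ m ∈ Finset.Ico m0 m1,
    (Set.Ico (D * (m : ℝ)) (D * (m : ℝ) + D)).indicator (fun t => ‖WW w m t‖ ^ p) t with hJ
  have hind : ∀ m : ℕ, IntervalIntegrable ((Set.Ico (D * (m : ℝ)) (D * (m : ℝ) + D)).indicator
      fun t => ‖WW w m t‖ ^ p) volume a b ∧
      ∫ t in a..b, (Set.Ico (D * (m : ℝ)) (D * (m : ℝ) + D)).indicator (fun t => ‖WW w m t‖ ^ p) t ≤
      ∫ t in (D * (m : ℝ))..(D * (m : ℝ) + D), ‖WW w m t‖ ^ p := by
    intro m
    constructor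
    · rw [intervalIntegrable_iff_integrableOn_Ioc_of_le hab]
      exact (((hcm m).intervalIntegrable a b).1).indicator measurableSet_Ico
    · rw [intervalIntegral.integral_of_le hab, setIntegral_indicator measurableSet_Ico,
        intervalIntegral.integral_of_le (by linarith), ← integral_Ico_eq_integral_Ioc]
      apply setIntegral_mono_set
      · exact ((hcm m).integrableOn_Icc).mono_set Ico_subset_Icc_self
      · exact Eventually.of_forall fun t => Real.rpow_nonneg (norm_nonneg _) _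
      · exact inter_subset_right.eventuallyLE
  have hpt : ∀ t ∈ Icc a b, F t ≤ c + J t := by
    intro t ht
    refine (hFc t ht).trans ?_
    have ht0 : 0 ≤ t := by linarith [ht.1]
    have hmem : ⌊t / D⌋₊ ∈ Finset.Ico m0 m1 := by
      rw [Finset.mem_Ico]
      have e1 : m0 ≤ ⌊t / D⌋₊ := Nat.floor_le_floor (div_le_div_of_nonneg_right ht.1 hD.le)
      have e2 : ⌊t / D⌋₊ ≤ ⌊b / D⌋₊ :=
        Nat.floor_le_floor (div_le_div_of_nonneg_right ht.2 hD.le)
      omega
    have e3 : t ∈ Set.Ico (D * ((⌊t / D⌋₊ : ℕ) : ℝ)) (D * ((⌊t / D⌋₊ : ℕ) : ℝ) + D) := by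
      constructor
      · have := Nat.floor_le (div_nonneg ht0 hD.le)
        rw [le_div_iff₀ hD] at this
        linarith
      · have := Nat.lt_floor_add_one (t / D)
        rw [div_lt_iff₀ hD] at this
        linarith
    have e4 : ‖WW w ⌊t / D⌋₊ t‖ ^ p = (Set.Ico (D * ((⌊t / D⌋₊ : ℕ) : ℝ))
        (D * ((⌊t / D⌋₊ : ℕ) : ℝ) + D)).indicator (fun t => ‖WW w ⌊t / D⌋₊ t‖ ^ p) t := by
      rw [Set.indicator_of_mem e3]
    have e5 : ‖WW w ⌊t / D⌋₊ t‖ ^ p ≤ J t := by
      rw [e4]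
      simp only [hJ]
      exact Finset.single_le_sum (f := fun m : ℕ => (Set.Ico (D * (m : ℝ))
        (D * (m : ℝ) + D)).indicator (fun t => ‖WW w m t‖ ^ p) t)
        (fun m _ => Set.indicator_nonneg (fun _ _ => Real.rpow_nonneg (norm_nonneg _) _) _) hmem
    linarith
  have hJi : IntervalIntegrable J volume a b := by
    have : J = ∑ m ∈ Finset.Ico m0 m1, (Set.Ico (D * (m : ℝ)) (D * (m : ℝ) + D)).indicator
        (fun t => ‖WW w m t‖ ^ p) := by
      funext t; simp only [hJ, Finset.sum_apply]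
    rw [this]
    exact IntervalIntegrable.sum _ fun m _ => (hind m).1
  have hJint : ∫ t in a..b, J t ≤ ∑ m ∈ Finset.Ico m0 m1,
      ∫ t in (D * (m : ℝ))..(D * (m : ℝ) + D), ‖WW w m t‖ ^ p := by
    simp only [hJ]
    rw [intervalIntegral.integral_finsetSum fun m _ => (hind m).1]
    exact Finset.sum_le_sum fun m _ => (hind m).2
  have hmain : ∫ t in a..b, F t ≤ c * (b - a) + ∫ t in a..b, J t := by
    calc ∫ t in a..b, F t ≤ ∫ t in a..b, (c + J t) :=
          intervalIntegral.integral_mono_on hab (hF.intervalIntegrable _ _)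
            (intervalIntegrable_const.add hJi) hpt
      _ = _ := by
          rw [intervalIntegral.integral_add intervalIntegrable_const hJi,
            intervalIntegral.integral_const, smul_eq_mul]
          ring
  have h1 : ∀ m ∈ Finset.Ico m0 m1,
      ∫ t in (D * (m : ℝ))..(D * (m : ℝ) + D), ‖WW w m t‖ ^ p ≤
      C * ((∫ t in (D * (m : ℝ) - D)..(D * (m : ℝ) + 2 * D), ‖WW w M t‖ ^ p) + D) := by
    intro m hmm
    rw [Finset.mem_Ico] at hmm
    have hmN : m ≤ M := by omega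
    have hmr : (m : ℝ) ≤ M := by exact_mod_cast hmN
    refine (hm T R hL hRT hR hRT1 m M (by omega) hmN hM16 (by linarith) w hw _ _
      (by linarith)).trans ?_
    apply mul_le_mul_of_nonneg_left _ hC.le
    rw [add_sub_cancel_left]
    have hw0 : 0 ≤ 2 * R * Real.log T + 2 := by positivity
    have := int_mono_set (hcm M) (hc0 M) (a := D * (m : ℝ) - (2 * R * Real.log T + 2))
      (b := D * (m : ℝ) + D + (2 * R * Real.log T + 2)) (c := D * (m : ℝ) - D)
      (d := D * (m : ℝ) + 2 * D) (by linarith) (by linarith) (by linarith)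
    linarith
  have h2 := blocks_sum (hcm M) (hc0 M) hD ha hab
  rw [← hm0] at h2
  have h3 : ((m1 - m0 : ℕ) : ℝ) * D ≤ b - a + 2 * D := by
    have hle : m0 ≤ ⌊b / D⌋₊ + 1 := by
      have : m0 ≤ ⌊b / D⌋₊ := Nat.floor_le_floor (div_le_div_of_nonneg_right hab hD.le)
      omega
    rw [hm1, Nat.cast_sub hle]
    have e1 := (Nat.lt_floor_add_one (a / D)).le
    rw [div_le_iff₀ hD] at e1
    have e2 := Nat.floor_le (div_nonneg hb hD.le)
    rw [le_div_iff₀ hD] at e2
    rw [hm0]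
    push_cast
    nlinarith
  have h4 : 0 ≤ b - a + 2 * D := by linarith
  have h5 : ∫ t in a..b, J t ≤ 3 * C * ((∫ t in (a - 2 * D)..(b + 2 * D), ‖WW w M t‖ ^ p) + (b - a + 2 * D)) := by
    refine hJint.trans ((Finset.sum_le_sum h1).trans ?_)
    rw [← Finset.mul_sum, Finset.sum_add_distrib, Finset.sum_const, Nat.card_Ico, nsmul_eq_mul]
    calc C * (∑ m ∈ Finset.Ico m0 m1,
          (∫ t in (D * (m : ℝ) - D)..(D * (m : ℝ) + 2 * D), ‖WW w M t‖ ^ p) +
          ((m1 - m0 : ℕ) : ℝ) * D)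
        ≤ C * (3 * (∫ t in (a - 2 * D)..(b + 2 * D), ‖WW w M t‖ ^ p) + (b - a + 2 * D)) :=
          mul_le_mul_of_nonneg_left (add_le_add h2 h3) hC.le
      _ ≤ 3 * C * ((∫ t in (a - 2 * D)..(b + 2 * D), ‖WW w M t‖ ^ p) + (b - a + 2 * D)) := by
          nlinarith [mul_nonneg hC.le h4]
  linarith

end Pool.Agent.H470
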