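import Pool.Agent.H470.Ya4

set_option autoImplicit false

/-! The remainder of zeta after a long partial sum, compared with a short partial sum. -/

open Complex MeasureTheory Set Filter Topology

namespace Pool.Agent.H470

/-- the length of the blocks -/
noncomputable def DN (N : ℕ) : ℝ := 2 * Real.pi * (N + 1 / 2)

lemma WW_succ (w : ℕ → ℝ) (N : ℕ) (t : ℝ) :
    WW w (N + 1) t = WW w N t + (w (N + 1) : ℂ) * ((N + 1 : ℕ) : ℂ) ^ (-(1 / 2 + I * (t : ℂ))) := by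
  unfold WW
  rw [Finset.sum_Icc_succ_top (by omega)]

lemma AA_sub {w : ℕ → ℝ} {M0 M1 : ℕ} (hw : ∀ n, M0 < n → n ≤ M1 → w n = 1) (t : ℝ) {m : ℕ} (hm : M0 ≤ m) :
    m ≤ M1 → AA m t - AA M0 t = WW w m t - WW w M0 t := by
  induction m, hm using Nat.le_induction with
  | base => intro _; simp
  | succ m hm ih =>
    intro h
    have h1 := ih (by omega)
    have h2 : AA (m + 1) t = AA m t + ((m + 1 : ℕ) : ℂ) ^ (-(1 / 2 + I * (t : ℂ))) := by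
      unfold AA
      rw [Finset.sum_Icc_succ_top (by omega)]
    rw [h2, WW_succ, hw (m + 1) (by omega) h, Complex.ofReal_one, one_mul]
    linear_combination h1

/-- the parameters -/
lemma setup : ∃ T₀ : ℝ, ∀ T : ℝ, T₀ ≤ T → ∀ N : ℕ, Real.sqrt T ≤ N → (N : ℝ) * Real.log T ^ 4 ≤ T →
    10 ^ 8 ≤ T ∧ 4 ≤ Real.log T ∧ Real.sqrt T ≤ (2 * T ^ (1 / 4 : ℝ)) ^ 2 ∧ 1 ≤ 2 * T ^ (1 / 4 : ℝ) ∧ 2 * T ^ (1 / 4 : ℝ) ≤ T ∧
    (2 * T ^ (1 / 4 : ℝ)) ^ 2 = 4 * Real.sqrt T ∧ 2 * (2 * T ^ (1 / 4 : ℝ)) * Real.log T + 2 ≤ DN N ∧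
    6 * Real.sqrt T ≤ DN N ∧ DN N ≤ T / 100 ∧ 10 ^ 4 * Real.sqrt T ≤ T := by
  have hev : ∀ᶠ T : ℝ in atTop, 10 ≤ Real.log T ∧ 10 ^ 8 ≤ T ∧ 8 * Real.log T ^ 2 ≤ T ^ (1 / 4 : ℝ) := by
    have e1 : ∀ᶠ T : ℝ in atTop, 10 ≤ Real.log T := Real.tendsto_log_atTop.eventually_ge_atTop 10
    have h := (isLittleO_log_rpow_rpow_atTop (s := 1 / 4) 2 (by norm_num)).bound
      (show (0 : ℝ) < 1 / 8 by norm_num)
    filter_upwards [h, e1, eventually_ge_atTop ((10:ℝ) ^ 8)] with T hT hL hT0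
    have hTp : 0 < T := by linarith
    have h2 : Real.log T ^ (2 : ℝ) = Real.log T ^ 2 := by
      rw [← Real.rpow_natCast]; norm_num
    rw [h2, Real.norm_of_nonneg (by positivity), Real.norm_of_nonneg (by positivity)] at hT
    exact ⟨hL, hT0, by linarith⟩
  obtain ⟨T₀, hT₀⟩ := eventually_atTop.1 hev
  refine ⟨T₀, ?_⟩
  intro T hTT N hN1 hN2
  obtain ⟨hL5, hT8, hlog⟩ := hT₀ T hTT
  have hTp : 0 < T := by linarith
  set g := T ^ (1 / 4 : ℝ) with hg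
  set q := Real.sqrt T with hq
  have hq0 : 0 < q := Real.sqrt_pos.2 hTp
  have hqq : q ^ 2 = T := Real.sq_sqrt hTp.le
  have hgg : g ^ 2 = q := by
    rw [hg, hq, Real.sqrt_eq_rpow, ← Real.rpow_natCast, ← Real.rpow_mul hTp.le]; norm_num
  have hg0 : 0 < g := by positivity
  have hg1 : 100 ≤ g := by
    have h4 : (100:ℝ) ^ 4 ≤ g ^ 4 := by
      have : g ^ 4 = T := by rw [← hqq, ← hgg]; ring
      rw [this]; norm_num at hT8 ⊢; linarith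
    exact (pow_le_pow_iff_left₀ (by norm_num) hg0.le (by norm_num)).1 h4
  have hq4 : 10 ^ 4 ≤ q := by rw [← hgg]; nlinarith
  have hqT : 10 ^ 4 * q ≤ T := by rw [← hqq, sq]; exact mul_le_mul_of_nonneg_right hq4 hq0.le
  have hR2 : (2 * g) ^ 2 = 4 * q := by rw [mul_pow, hgg]; norm_num
  have hgq : 100 * g ≤ q := by rw [← hgg, sq]; exact mul_le_mul_of_nonneg_right hg1 hg0.le
  have hpi := Real.pi_gt_three
  have hpi4 := Real.pi_lt_d2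
  have hD6 : 6 * q ≤ DN N := by
    unfold DN
    calc 6 * q ≤ 2 * Real.pi * q := mul_le_mul_of_nonneg_right (by linarith) hq0.le
      _ ≤ _ := mul_le_mul_of_nonneg_left (by linarith) (by positivity)
  have hNT : (N : ℝ) * 10 ^ 4 ≤ T := by
    refine le_trans ?_ hN2
    apply mul_le_mul_of_nonneg_left _ (Nat.cast_nonneg N)
    exact pow_le_pow_left₀ (by norm_num) hL5 4
  have hD7 : DN N ≤ T / 100 := by
    unfold DN
    calc 2 * Real.pi * ((N : ℝ) + 1 / 2) ≤ 2 * 3.15 * (N + 1 / 2) :=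
          mul_le_mul_of_nonneg_right (by linarith) (by positivity)
      _ ≤ _ := by linarith
  have hRL : 2 * (2 * g) * Real.log T + 2 ≤ DN N := by
    refine le_trans ?_ hD6
    have h1 : 8 * Real.log T ≤ g := by
      refine le_trans ?_ hlog
      nlinarith
    have h2 : 4 * g * Real.log T ≤ q := by
      rw [← hgg, sq]
      have := mul_le_mul_of_nonneg_left h1 hg0.le
      nlinarith
    linarith
  exact ⟨hT8, by linarith, by rw [hR2]; linarith, by linarith, by linarith, hR2, hRL, hD6, hD7, hqT⟩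

theorem rem_upper (p : ℝ) (hp : 1 < p) : ∃ C T₀ : ℝ, 0 < C ∧ ∀ T : ℝ, T₀ ≤ T → ∀ N : ℕ, Real.sqrt T ≤ N →
    (N : ℝ) * Real.log T ^ 4 ≤ T → ∀ M : ℕ, (21 * T / 10) / DN N ≤ M → (M : ℝ) ≤ 4 * Real.sqrt T →
    ∫ t in (19 * T / 20)..(41 * T / 20), ‖zz t - AA N t‖ ^ p ≤ C * ((∫ t in (0:ℝ)..(3 * T), ‖AA M t‖ ^ p) + T) := by
  obtain ⟨C₀, T₁, hC₀, hafe⟩ := afe3
  obtain ⟨C₁, hC₁, hvl⟩ := varlen p hp
  obtain ⟨T₂, hset⟩ := setup
  have hp0 : 0 ≤ p := by linarith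
  refine ⟨2 ^ p * (2 * C₀ ^ p + 2 * C₁), max T₁ T₂, by positivity, ?_⟩
  intro T hTT N hN1 hN2 M hM1 hM2
  obtain ⟨hT8, hL, c1, c2, c3, hR2, hRL, hD6, hD7, hqT⟩ := hset T ((le_max_right _ _).trans hTT) N hN1 hN2
  have hTp : 0 < T := by linarith
  set D := DN N with hD
  have hq0 : 0 < Real.sqrt T := Real.sqrt_pos.2 hTp
  have hD0 : 0 < D := by linarith
  have hpt : ∀ t ∈ Icc (19 * T / 20) (41 * T / 20), (2 ^ p)⁻¹ * ‖zz t - AA N t‖ ^ p ≤ C₀ ^ p + ‖WW (fun _ => 1) ⌊t / D⌋₊ t‖ ^ p := by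
    intro t ht
    have h1 := hafe T ((le_max_left _ _).trans hTT) N hN1 hN2 t (by linarith [ht.1]) (by linarith [ht.2])
    have h2 : ‖zz t - AA N t‖ ≤ C₀ + ‖AA ⌊t / D⌋₊ t‖ := by
      have h3 : ‖chi t * (starRingEnd ℂ) (AA ⌊t / D⌋₊ t)‖ = ‖AA ⌊t / D⌋₊ t‖ := by
        rw [norm_mul, chi_norm, one_mul, RCLike.norm_conj]
      calc ‖zz t - AA N t‖ = ‖(zz t - AA N t - chi t * (starRingEnd ℂ) (AA ⌊t / D⌋₊ t)) + chi t * (starRingEnd ℂ) (AA ⌊t / D⌋₊ t)‖ := by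
            congr 1; ring
        _ ≤ _ := norm_add_le _ _
        _ ≤ _ := by rw [h3]; exact add_le_add h1 le_rfl
    rw [inv_mul_le_iff₀ (by positivity), WW_one]
    exact (Real.rpow_le_rpow (norm_nonneg _) h2 hp0).trans (add_rpow2 hC₀.le (norm_nonneg _) hp0)
  have hbM : ⌊(41 * T / 20) / D⌋₊ ≤ M := by
    apply Nat.floor_le_of_le
    refine le_trans ?_ hM1
    apply div_le_div_of_nonneg_right _ hD0.le
    linarith
  have h5 := hvl T (2 * T ^ (1 / 4 : ℝ)) hL c1 c2 c3 M (by linarith) (by rw [hR2]; exact hM2) D (19 * T / 20) (41 * T / 20)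
    hD0 hRL (by linarith) (by linarith) hbM (fun _ => 1) (fun _ => by norm_num) (fun t => (2 ^ p)⁻¹ * ‖zz t - AA N t‖ ^ p)
    (continuous_const.mul (normp_cont (zz_cont.sub (AA_cont N)) hp0)) (C₀ ^ p) hpt
  rw [intervalIntegral.integral_const_mul, inv_mul_le_iff₀ (by positivity)] at h5
  refine h5.trans ?_
  rw [mul_assoc]
  apply mul_le_mul_of_nonneg_left _ (by positivity)
  have hc : Continuous fun t => ‖AA M t‖ ^ p := normp_cont (AA_cont M) hp0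
  have h6 : ∫ t in (19 * T / 20 - 2 * D)..(41 * T / 20 + 2 * D), ‖WW (fun _ => 1) M t‖ ^ p ≤ ∫ t in (0:ℝ)..(3 * T), ‖AA M t‖ ^ p := by
    simp_rw [WW_one]
    exact int_mono_set hc (fun t => Real.rpow_nonneg (norm_nonneg _) _) (by linarith) (by linarith) (by linarith)
  have h7 : 0 ≤ ∫ t in (0:ℝ)..(3 * T), ‖AA M t‖ ^ p :=
    intervalIntegral.integral_nonneg (by linarith) fun t _ => Real.rpow_nonneg (norm_nonneg _) _
  have h8 : 0 < C₀ ^ p := by positivity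
  set X := ∫ t in (0:ℝ)..(3 * T), ‖AA M t‖ ^ p with hX
  have h9 : C₀ ^ p * (41 * T / 20 - 19 * T / 20) ≤ 2 * C₀ ^ p * (X + T) := by nlinarith
  have h10 : C₁ * ((∫ t in (19 * T / 20 - 2 * D)..(41 * T / 20 + 2 * D), ‖WW (fun _ => 1) M t‖ ^ p) + (41 * T / 20 - 19 * T / 20 + 2 * D)) ≤
      2 * C₁ * (X + T) := by
    have : (∫ t in (19 * T / 20 - 2 * D)..(41 * T / 20 + 2 * D), ‖WW (fun _ => 1) M t‖ ^ p) + (41 * T / 20 - 19 * T / 20 + 2 * D) ≤ 2 * (X + T) := by linarith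
    have := mul_le_mul_of_nonneg_left this hC₁.le
    linarith
  linarith

theorem rem_diff (p : ℝ) (hp : 1 < p) : ∃ C T₀ : ℝ, 0 < C ∧ ∀ T : ℝ, T₀ ≤ T → ∀ N : ℕ, Real.sqrt T ≤ N →
    (N : ℝ) * Real.log T ^ 4 ≤ T → ∀ M1 : ℕ, 2 * T / DN N ≤ M1 → (M1 : ℝ) ≤ 4 * Real.sqrt T →
    ∀ M0 : ℕ, 1 ≤ M0 → M0 ≤ ⌊T / DN N⌋₊ → ∀ w : ℕ → ℝ, (∀ n, |w n| ≤ 1) → (∀ n, M0 < n → n ≤ M1 → w n = 1) →
    ∫ t in T..(2 * T), |‖zz t - AA N t‖ - ‖AA M0 t‖| ^ p ≤ C * ((∫ t in (0:ℝ)..(3 * T), ‖WW w M1 t‖ ^ p) + T) := by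
  obtain ⟨C₀, T₁, hC₀, hafe⟩ := afe3
  obtain ⟨C₁, hC₁, hvl⟩ := varlen p hp
  obtain ⟨C₂, hC₂, hmw⟩ := mono_w p hp
  obtain ⟨T₂, hset⟩ := setup
  have hp0 : 0 ≤ p := by linarith
  refine ⟨4 ^ p * (C₀ ^ p + 2 * C₁) + 4 ^ p * C₂, max T₁ T₂, by positivity, ?_⟩
  intro T hTT N hN1 hN2 M1 hM1 hM2 M0 hM0 hM0T w hw hw1
  obtain ⟨hT8, hL, c1, c2, c3, hR2, hRL, hD6, hD7, hqT⟩ := hset T ((le_max_right _ _).trans hTT) N hN1 hN2
  have hTp : 0 < T := by linarith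
  set D := DN N with hD
  have hq0 : 0 < Real.sqrt T := Real.sqrt_pos.2 hTp
  have hD0 : 0 < D := by linarith
  have hbM : ⌊(2 * T) / D⌋₊ ≤ M1 := Nat.floor_le_of_le hM1
  have hM01 : M0 ≤ M1 := by
    have : ⌊T / D⌋₊ ≤ ⌊(2 * T) / D⌋₊ := Nat.floor_le_floor (div_le_div_of_nonneg_right (by linarith) hD0.le)
    omega
  have hpt : ∀ t ∈ Icc T (2 * T), (4 ^ p)⁻¹ * |‖zz t - AA N t‖ - ‖AA M0 t‖| ^ p - ‖WW w M0 t‖ ^ p ≤ C₀ ^ p + ‖WW w ⌊t / D⌋₊ t‖ ^ p := by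
    intro t ht
    have h1 := hafe T ((le_max_left _ _).trans hTT) N hN1 hN2 t (by linarith [ht.1]) (by linarith [ht.2])
    have e1 : M0 ≤ ⌊t / D⌋₊ := hM0T.trans (Nat.floor_le_floor (div_le_div_of_nonneg_right ht.1 hD0.le))
    have e2 : ⌊t / D⌋₊ ≤ M1 := le_trans (Nat.floor_le_floor (div_le_div_of_nonneg_right ht.2 hD0.le)) hbM
    have e3 := AA_sub hw1 t e1 e2
    have h2 : |‖zz t - AA N t‖ - ‖AA M0 t‖| ≤ C₀ + ‖WW w ⌊t / D⌋₊ t‖ + ‖WW w M0 t‖ + 0 := by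
      have h3 : ∀ m : ℕ, ‖chi t * (starRingEnd ℂ) (AA m t)‖ = ‖AA m t‖ := fun m => by
        rw [norm_mul, chi_norm, one_mul, RCLike.norm_conj]
      rw [← h3 M0]
      refine (abs_norm_sub_norm_le _ _).trans ?_
      have h4 : zz t - AA N t - chi t * (starRingEnd ℂ) (AA M0 t) =
          (zz t - AA N t - chi t * (starRingEnd ℂ) (AA ⌊t / D⌋₊ t)) +
          chi t * (starRingEnd ℂ) (AA ⌊t / D⌋₊ t - AA M0 t) := by
        rw [map_sub]; ring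
      rw [h4]
      refine (norm_add_le _ _).trans ?_
      rw [norm_mul, chi_norm, one_mul, RCLike.norm_conj, e3]
      have h5 := norm_sub_le (WW w ⌊t / D⌋₊ t) (WW w M0 t)
      have h6 : ‖zz t - AA N t - chi t * (starRingEnd ℂ) (AA ⌊t / D⌋₊ t)‖ ≤ C₀ := h1
      linarith
    have h7 := (Real.rpow_le_rpow (abs_nonneg _) h2 hp0).trans (pow4 hC₀.le (norm_nonneg _) (norm_nonneg _) le_rfl hp0)
    have h8 : (0:ℝ) ^ p = 0 := Real.zero_rpow (by linarith)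
    rw [h8, add_zero] at h7
    have h9 : (4 ^ p)⁻¹ * |‖zz t - AA N t‖ - ‖AA M0 t‖| ^ p ≤ C₀ ^ p + ‖WW w ⌊t / D⌋₊ t‖ ^ p + ‖WW w M0 t‖ ^ p := by
      rw [inv_mul_le_iff₀ (by positivity)]; exact h7
    linarith
  have hcF : Continuous fun t => |‖zz t - AA N t‖ - ‖AA M0 t‖| ^ p :=
    (((zz_cont.sub (AA_cont N)).norm.sub (AA_cont M0).norm).abs).rpow_const fun _ => Or.inr hp0
  have hcW : ∀ m : ℕ, Continuous fun t => ‖WW w m t‖ ^ p := fun m => normp_cont (WW_cont w m) hp0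
  have h5 := hvl T (2 * T ^ (1 / 4 : ℝ)) hL c1 c2 c3 M1 (by linarith) (by rw [hR2]; exact hM2) D T (2 * T)
    hD0 hRL (by linarith) (by linarith) hbM w hw (fun t => (4 ^ p)⁻¹ * |‖zz t - AA N t‖ - ‖AA M0 t‖| ^ p - ‖WW w M0 t‖ ^ p)
    ((continuous_const.mul hcF).sub (hcW M0)) (C₀ ^ p) hpt
  have hcF2 : Continuous fun t => (4 ^ p)⁻¹ * |‖zz t - AA N t‖ - ‖AA M0 t‖| ^ p := continuous_const.mul hcF
  rw [intervalIntegral.integral_sub (hcF2.intervalIntegrable _ _) ((hcW M0).intervalIntegrable _ _),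
    intervalIntegral.integral_const_mul] at h5
  have h6 := hmw T (2 * T ^ (1 / 4 : ℝ)) hL c1 c2 c3 M0 M1 hM0 hM01 (by linarith) (by
    rw [hR2]; exact (by exact_mod_cast hM01 : (M0:ℝ) ≤ M1).trans hM2) w hw T (2 * T) (by linarith)
  set X := ∫ t in (0:ℝ)..(3 * T), ‖WW w M1 t‖ ^ p with hX
  have hX0 : 0 ≤ X :=
    intervalIntegral.integral_nonneg (by linarith) fun t _ => Real.rpow_nonneg (norm_nonneg _) _
  have h7 : ∫ t in (T - 2 * D)..(2 * T + 2 * D), ‖WW w M1 t‖ ^ p ≤ X :=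
    int_mono_set (hcW M1) (fun t => Real.rpow_nonneg (norm_nonneg _) _) (by linarith) (by linarith) (by linarith)
  have hw0 : 0 ≤ 2 * (2 * T ^ (1 / 4 : ℝ)) * Real.log T + 2 := by
    have : 0 ≤ 2 * (2 * T ^ (1 / 4 : ℝ)) * Real.log T := by
      apply mul_nonneg (by linarith) (by linarith)
    linarith
  have h8 : ∫ t in (T - (2 * (2 * T ^ (1 / 4 : ℝ)) * Real.log T + 2))..(2 * T + (2 * (2 * T ^ (1 / 4 : ℝ)) * Real.log T + 2)), ‖WW w M1 t‖ ^ p ≤ X :=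
    int_mono_set (hcW M1) (fun t => Real.rpow_nonneg (norm_nonneg _) _) (by linarith) (by linarith) (by linarith)
  have h9 : (4 ^ p)⁻¹ * ∫ t in T..(2 * T), |‖zz t - AA N t‖ - ‖AA M0 t‖| ^ p ≤
      C₀ ^ p * (2 * T - T) + C₁ * (X + (2 * T - T + 2 * D)) + C₂ * (X + (2 * T - T)) := by
    have a1 := mul_le_mul_of_nonneg_left (add_le_add_left h7 (2 * T - T + 2 * D)) hC₁.le
    have a2 := mul_le_mul_of_nonneg_left (add_le_add_left h8 (2 * T - T)) hC₂.le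
    linarith
  rw [inv_mul_le_iff₀ (by positivity)] at h9
  refine h9.trans ?_
  have h10 : 0 ≤ C₀ ^ p := by positivity
  have h11 : C₀ ^ p * (2 * T - T) + C₁ * (X + (2 * T - T + 2 * D)) + C₂ * (X + (2 * T - T)) ≤ (C₀ ^ p + 2 * C₁ + C₂) * (X + T) := by
    have b1 : C₀ ^ p * (2 * T - T) ≤ C₀ ^ p * (X + T) := mul_le_mul_of_nonneg_left (by linarith) h10
    have b2 : C₁ * (X + (2 * T - T + 2 * D)) ≤ C₁ * (2 * (X + T)) := mul_le_mul_of_nonneg_left (by linarith) hC₁.le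
    have b3 : C₂ * (X + (2 * T - T)) ≤ C₂ * (X + T) := mul_le_mul_of_nonneg_left (by linarith) hC₂.le
    linarith
  calc 4 ^ p * (C₀ ^ p * (2 * T - T) + C₁ * (X + (2 * T - T + 2 * D)) + C₂ * (X + (2 * T - T)))
      ≤ 4 ^ p * ((C₀ ^ p + 2 * C₁ + C₂) * (X + T)) := mul_le_mul_of_nonneg_left h11 (by positivity)
    _ = _ := by ring

end Pool.Agent.H470
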