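import Pool.Agent.H470.Ya5
import Pool.Agent.H470.Wa31

set_option autoImplicit false

/-! Norms over intervals, and uniform statements on short partial sums. -/

open Complex MeasureTheory Set Filter Topology

namespace Pool.Agent.H470

/-- the exponent of the norm -/
noncomputable def ep (p : ℝ) : ℝ := min 1 (1 / p)

lemma ep_pos {p : ℝ} (hp : 0 < p) : 0 < ep p := lt_min one_pos (by positivity)

/-- the norm over an interval of a nonnegative function -/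
noncomputable def LN (p a b : ℝ) (f : ℝ → ℝ) : ℝ := (∫ t in a..b, f t ^ p) ^ ep p

lemma LN_int_nonneg {p a b : ℝ} (hab : a ≤ b) {f : ℝ → ℝ} (h0 : ∀ t, 0 ≤ f t) : 0 ≤ ∫ t in a..b, f t ^ p :=
  intervalIntegral.integral_nonneg hab fun t _ => Real.rpow_nonneg (h0 t) _

lemma LN_nonneg {p a b : ℝ} (hab : a ≤ b) {f : ℝ → ℝ} (h0 : ∀ t, 0 ≤ f t) : 0 ≤ LN p a b f :=
  Real.rpow_nonneg (LN_int_nonneg hab h0) _

lemma LN_rpow {p a b : ℝ} (hp : 0 < p) (hab : a ≤ b) {f : ℝ → ℝ} (h0 : ∀ t, 0 ≤ f t) : LN p a b f ^ (1 / ep p) = ∫ t in a..b, f t ^ p := by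
  unfold LN
  rw [← Real.rpow_mul (LN_int_nonneg hab h0), mul_one_div_cancel (ep_pos hp).ne', Real.rpow_one]

lemma LN_eq {p a b : ℝ} (hp : 0 < p) (hab : a ≤ b) {f : ℝ → ℝ} (hf : Continuous f) (h0 : ∀ t, 0 ≤ f t) :
    eLpNorm' f p (volume.restrict (Ioc a b)) = ENNReal.ofReal ((∫ t in a..b, f t ^ p) ^ (1 / p)) := by
  have hc : Continuous fun t : ℝ => f t ^ p := hf.rpow_const fun _ => Or.inr hp.le
  rw [eLpNorm'_eq_lintegral_enorm, ← ENNReal.ofReal_rpow_of_nonneg (LN_int_nonneg hab h0) (by positivity),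
    intervalIntegral.integral_of_le hab,
    ofReal_integral_eq_lintegral_ofReal ((hc.intervalIntegrable a b).1) (Eventually.of_forall fun t => Real.rpow_nonneg (h0 t) _)]
  congr 1
  refine lintegral_congr fun t => ?_
  rw [← ofReal_norm, ENNReal.ofReal_rpow_of_nonneg (norm_nonneg _) hp.le, Real.norm_of_nonneg (h0 t)]

lemma LN_mono {p a b : ℝ} (hp : 0 < p) (hab : a ≤ b) {f g : ℝ → ℝ} (hf : Continuous f) (hg : Continuous g) (f0 : ∀ t, 0 ≤ f t)
    (hle : ∀ t, f t ≤ g t) : LN p a b f ≤ LN p a b g := by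
  unfold LN
  refine Real.rpow_le_rpow (LN_int_nonneg hab f0) ?_ (ep_pos hp).le
  have hc : ∀ {f : ℝ → ℝ}, Continuous f → Continuous fun t : ℝ => f t ^ p := fun hf => hf.rpow_const fun _ => Or.inr hp.le
  exact intervalIntegral.integral_mono_on hab ((hc hf).intervalIntegrable _ _) ((hc hg).intervalIntegrable _ _)
    fun t _ => Real.rpow_le_rpow (f0 t) (hle t) hp.le

lemma LN_add {p a b : ℝ} (hp : 0 < p) (hab : a ≤ b) {f g : ℝ → ℝ} (hf : Continuous f) (hg : Continuous g) (f0 : ∀ t, 0 ≤ f t)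
    (g0 : ∀ t, 0 ≤ g t) : LN p a b (fun t => f t + g t) ≤ LN p a b f + LN p a b g := by
  unfold LN
  rcases le_total p 1 with h | h
  · have e1 : ep p = 1 := by
      unfold ep
      refine min_eq_left ?_
      rw [le_div_iff₀ hp]
      linarith
    have hc : ∀ {f : ℝ → ℝ}, Continuous f → Continuous fun t : ℝ => f t ^ p := fun hf => hf.rpow_const fun _ => Or.inr hp.le
    rw [e1, Real.rpow_one, Real.rpow_one, Real.rpow_one, ← intervalIntegral.integral_add ((hc hf).intervalIntegrable _ _) ((hc hg).intervalIntegrable _ _)]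
    exact intervalIntegral.integral_mono_on hab ((hc (hf.add hg)).intervalIntegrable _ _) (((hc hf).add (hc hg)).intervalIntegrable _ _)
      fun t _ => Real.rpow_add_le_add_rpow (f0 t) (g0 t) hp.le h
  · have e1 : ep p = 1 / p := by
      unfold ep
      refine min_eq_right ?_
      rw [div_le_one hp]
      exact h
    rw [e1]
    have h1 := eLpNorm'_add_le (μ := volume.restrict (Ioc a b)) (f := f) (g := g) hf.aestronglyMeasurable hg.aestronglyMeasurable h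
    have e2 : f + g = fun t => f t + g t := rfl
    have k1 := LN_int_nonneg (p := p) hab f0
    have k2 := LN_int_nonneg (p := p) hab g0
    rw [e2, LN_eq hp hab (f := fun t => f t + g t) (hf.add hg) fun t => add_nonneg (f0 t) (g0 t), LN_eq hp hab hf f0, LN_eq hp hab hg g0,
      ← ENNReal.ofReal_add (by positivity) (by positivity)] at h1
    exact (ENNReal.ofReal_le_ofReal_iff (by positivity)).mp h1

lemma LN_le {p a b : ℝ} (hp : 0 < p) (hab : a ≤ b) {f g h : ℝ → ℝ} (hf : Continuous f) (hg : Continuous g) (hh : Continuous h)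
    (f0 : ∀ t, 0 ≤ f t) (g0 : ∀ t, 0 ≤ g t) (h0 : ∀ t, 0 ≤ h t) (hle : ∀ t, f t ≤ g t + h t) : LN p a b f ≤ LN p a b g + LN p a b h :=
  (LN_mono hp hab hf (hg.add hh) f0 hle).trans (LN_add hp hab hg hh g0 h0)

lemma LN_cmp {p a b : ℝ} (hp : 0 < p) (hab : a ≤ b) {f g h : ℝ → ℝ} (hf : Continuous f) (hg : Continuous g) (hh : Continuous h)
    (f0 : ∀ t, 0 ≤ f t) (g0 : ∀ t, 0 ≤ g t) (hle : ∀ t, |f t - g t| ≤ h t) : |LN p a b f - LN p a b g| ≤ LN p a b h := by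
  have h0 : ∀ t, 0 ≤ h t := fun t => (abs_nonneg _).trans (hle t)
  have h1 := LN_le hp hab hf hg hh f0 g0 h0 fun t => by linarith [(abs_le.1 (hle t)).2]
  have h2 := LN_le hp hab hg hf hh g0 f0 h0 fun t => by linarith [(abs_le.1 (hle t)).1]
  rw [abs_le]
  constructor <;> linarith

/-- the mean value of a short partial sum -/
lemma At_WW (k : ℝ) (w : ℕ → ℝ) (M : ℕ) (T : ℝ) : At T (fun ω => ‖WS w M ω‖ ^ (2 * k)) = 1 / T * ∫ t in (0:ℝ)..T, ‖WW w M t‖ ^ (2 * k) := by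
  unfold At
  simp_rw [WW_fl]

theorem sums_unif {p : ℝ} (hp : 0 < p) : ∃ c : ℝ, 0 < c ∧ ∀ ε : ℝ, 0 < ε → ∃ A : ℕ, ∀ M : ℕ, A ≤ M → ∀ T : ℝ, (M:ℝ) ^ A ≤ T →
    |1 / T * (∫ t in (0:ℝ)..T, ‖AA M t‖ ^ p) / Real.log M ^ (p ^ 2 / 4) - c| ≤ ε := by
  obtain ⟨c, hc, h⟩ := At_unif (k := p / 2) (by positivity)
  refine ⟨c, hc, fun ε hε => ?_⟩
  obtain ⟨A, hA⟩ := h ε hε
  refine ⟨A, fun N hN T hT => ?_⟩
  have h1 := hA N hN T hT
  have e3 : 2 * (p / 2) = p := by ring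
  have e1 : At T (fun ω => ‖SS N ω‖ ^ (2 * (p / 2))) = 1 / T * ∫ t in (0:ℝ)..T, ‖AA N t‖ ^ p := by
    have h2 := At_WW (p / 2) (fun _ => 1) N T
    rw [e3] at h2 ⊢
    simp_rw [WW_one] at h2
    exact h2
  rw [e1] at h1
  have e4 : (p / 2) ^ 2 = p ^ 2 / 4 := by ring
  rwa [e4] at h1

theorem near_unif {p e : ℝ} (hp : 0 < p) (he : 0 < e) : ∃ η : ℝ, 0 < η ∧ η ≤ 1 / 2 ∧ ∃ A : ℕ, ∀ M : ℕ, A ≤ M → ∀ T : ℝ, (M:ℝ) ^ A ≤ T →
    ∫ t in (0:ℝ)..T, ‖WW (fun n => be η (xN M * Real.log n)) M t‖ ^ p ≤ e * T * Real.log M ^ (p ^ 2 / 4) := by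
  classical
  have hk : 0 < p / 2 := by positivity
  have hkp := kp_pos hk
  obtain ⟨η, hη, hη2, -, h⟩ := near_both hk (show 0 < e ^ kp (p / 2) by positivity)
  obtain ⟨A, hA⟩ := unif (F := fun M T => if nt (p / 2) (xN M) T (WS (fun n => be η (xN M * Real.log n)) M) ≤ e ^ kp (p / 2) then (0:ℝ) else 1) (c := 0) (fun {N} hN => by
    refine tendsto_const_nhds.congr' ?_
    filter_upwards [h hN] with T hT
    rw [if_pos hT]) (show (0:ℝ) < 1 / 2 by norm_num)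
  refine ⟨η, hη, hη2, max A 3, fun M hM T hT => ?_⟩
  have hM3 : 3 ≤ M := (le_max_right _ _).trans hM
  have hM1 : (1:ℝ) ≤ M := by exact_mod_cast (by omega : 1 ≤ M)
  have hT2 : (M:ℝ) ^ A ≤ T := le_trans (pow_le_pow_right₀ hM1 (le_max_left _ _)) hT
  have hTp : 0 < T := lt_of_lt_of_le (by positivity) hT2
  have h1 := hA M ((le_max_left _ _).trans hM) T hT2
  have h2 : nt (p / 2) (xN M) T (WS (fun n => be η (xN M * Real.log n)) M) ≤ e ^ kp (p / 2) := by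
    by_contra hcon
    simp only [if_neg hcon] at h1
    norm_num at h1
  have hx := xN_pos hM3
  unfold nt at h2
  have hA0 := mul_nonneg (show 0 ≤ (2 * xN M) ^ ((p / 2) ^ 2) by positivity) (Ak_nonneg (p / 2) hTp (WS (fun n => be η (xN M * Real.log n)) M))
  have h3 := (Real.rpow_le_rpow_iff hA0 he.le hkp).mp h2
  rw [At_WW] at h3
  have e3 : 2 * (p / 2) = p := by ring
  have e4 : (p / 2) ^ 2 = p ^ 2 / 4 := by ring
  rw [e3, e4] at h3
  have hL : 1 ≤ Real.log M := log_N hM3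
  have hL0 : 0 < Real.log M := by linarith
  set X := ∫ t in (0:ℝ)..T, ‖WW (fun n => be η (xN M * Real.log n)) M t‖ ^ p with hX
  have hX0 : 0 ≤ X := intervalIntegral.integral_nonneg hTp.le fun t _ => Real.rpow_nonneg (norm_nonneg _) _
  have h4 : 1 / Real.log M ^ (p ^ 2 / 4) ≤ (2 * xN M) ^ (p ^ 2 / 4) := by
    unfold xN
    rw [one_div, ← Real.inv_rpow hL0.le]
    apply Real.rpow_le_rpow (by positivity) _ (by positivity)
    rw [mul_one_div, inv_eq_one_div]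
    exact div_le_div_of_nonneg_right (by norm_num) hL0.le
  have h5 : 1 / Real.log M ^ (p ^ 2 / 4) * (1 / T * X) ≤ e :=
    (mul_le_mul_of_nonneg_right h4 (by positivity)).trans h3
  have hq : 0 < Real.log M ^ (p ^ 2 / 4) := by positivity
  rw [one_div_mul_eq_div, div_le_iff₀ hq, one_div_mul_eq_div, div_le_iff₀ hTp] at h5
  linarith

/-- mean squares of short sums -/
lemma WW_sq (w : ℕ → ℝ) {M : ℕ} (hM : 1 ≤ M) {T : ℝ} (hT : 0 < T) (h : (M:ℝ) ^ 2 ≤ T) :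
    ∫ t in (0:ℝ)..T, ‖WW w M t‖ ^ (2:ℝ) ≤ 3 * T * ∑ n ∈ Finset.Icc 1 M, w n ^ 2 / n := by
  have hM0 : (0:ℝ) < M := by exact_mod_cast hM
  have h1 : Real.exp (2 * Real.log M) ≤ T := by
    rw [show (2:ℝ) * Real.log M = ((2:ℕ):ℝ) * Real.log M by norm_num, Real.exp_nat_mul, Real.exp_log hM0]
    exact h
  have h2 := At_sq (WS_sp w M (Real.log_natCast_nonneg M) le_rfl) hT h1
  rw [← mk_one_sq, WS_sq] at h2
  have h3 := At_WW 1 w M T
  have e1 : At T (fun ω => ‖WS w M ω‖ ^ (2 * (1:ℝ))) = At T (fun ω => ‖WS w M ω‖ ^ 2) := by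
    congr 1
    funext ω
    rw [mul_one, Real.rpow_two]
  rw [e1] at h3
  rw [h3, mul_one, one_div_mul_eq_div, div_le_iff₀ hT] at h2
  linarith

lemma be_top {η : ℝ} (hη : 0 < η) {x : ℝ} (h0 : 0 ≤ x) (h1 : 1 - η / 2 ≤ x) (h2 : x ≤ 1) : be η x = 1 := by
  have h := fi_add_be hη h0 h2
  rw [fi_zero hη h1] at h
  linarith

end Pool.Agent.H470
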