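import Pool.Agent.H470.Ya6

set_option autoImplicit false

/-! Asymptotics of the moments of the remainder of zeta after a long partial sum. -/

open Complex MeasureTheory Set Filter Topology

namespace Pool.Agent.H470

lemma DN_bd {N : ℕ} (hN : 1 ≤ N) : 6 * (N : ℝ) ≤ DN N ∧ DN N ≤ 10 * N ∧ 0 < DN N := by
  have hN1 : (1:ℝ) ≤ N := by exact_mod_cast hN
  have hpi := Real.pi_gt_three
  have hpi4 := Real.pi_lt_d2
  unfold DN
  refine ⟨by nlinarith, by nlinarith, by positivity⟩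

/-- the comparison of the length of the short sum with `T / N` -/
lemma geom : ∃ T₀ : ℝ, ∀ T : ℝ, T₀ ≤ T → ∀ N : ℕ, Real.sqrt T ≤ N → (N : ℝ) * Real.log T ^ 4 ≤ T →
    T / N ≤ 20 * (⌊T / DN N⌋₊ : ℕ) ∧ 6 * ((⌊T / DN N⌋₊ : ℕ) : ℝ) ≤ T / N ∧ 4 ≤ ⌊T / DN N⌋₊ ∧ Real.log T ≤ (⌊T / DN N⌋₊ : ℕ) := by
  obtain ⟨T₀, hset⟩ := setup
  refine ⟨T₀, fun T hT N hN1 hN2 => ?_⟩
  obtain ⟨hT8, hL, c1, c2, c3, hR2, hRL, hD6, hD7, hqT⟩ := hset T hT N hN1 hN2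
  have hTp : 0 < T := by linarith
  have hq0 : 0 < Real.sqrt T := Real.sqrt_pos.2 hTp
  have hN0 : (0:ℝ) < N := by linarith
  have hNn : 1 ≤ N := by exact_mod_cast (Nat.cast_pos.1 hN0)
  obtain ⟨d1, d2, d3⟩ := DN_bd hNn
  have h1 : 100 ≤ T / DN N := by rw [le_div_iff₀ d3]; linarith
  have h2 := Nat.lt_floor_add_one (T / DN N)
  have h3 := Nat.floor_le (show 0 ≤ T / DN N by positivity)
  have h4 : T / N ≤ 10 * (T / DN N) := by
    rw [← mul_div_assoc, div_le_div_iff₀ hN0 d3]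
    nlinarith
  have h5 : 6 * (T / DN N) ≤ T / N := by
    rw [← mul_div_assoc, div_le_div_iff₀ d3 hN0]
    nlinarith
  refine ⟨by linarith, by linarith, ?_, ?_⟩
  · have : (4:ℝ) ≤ (⌊T / DN N⌋₊ : ℕ) := by linarith
    exact_mod_cast this
  · have h6 : Real.log T ^ 4 ≤ T / N := by rw [le_div_iff₀ hN0]; linarith
    have h7 : 20 * Real.log T ≤ Real.log T ^ 4 := by
      have : (4:ℝ) ^ 3 ≤ Real.log T ^ 3 := pow_le_pow_left₀ (by norm_num) hL 3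
      nlinarith
    linarith

lemma cont_at {q x₀ ε : ℝ} (hx : 0 < x₀) (hε : 0 < ε) : ∃ δ : ℝ, 0 < δ ∧ ∀ x : ℝ, |x - x₀| < δ → |x ^ q - x₀ ^ q| < ε := by
  have h : ContinuousAt (fun x : ℝ => x ^ q) x₀ := Real.continuousAt_rpow_const _ _ (Or.inl hx.ne')
  rw [Metric.continuousAt_iff] at h
  obtain ⟨δ, hδ, h⟩ := h ε hε
  refine ⟨δ, hδ, fun x hx => ?_⟩
  have := @h x (by rwa [Real.dist_eq])
  rwa [Real.dist_eq] at this

lemma sq_cond {T : ℝ} (hT : 1 ≤ T) {N A : ℕ} (hN : 1 ≤ N) (hNT : (N:ℝ) ≤ T) (hA : 2 ≤ A) (h : (T / N) ^ A ≤ T) : Real.sqrt T ≤ N := by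
  have hN0 : (0:ℝ) < N := by exact_mod_cast hN
  have h1 : 1 ≤ T / N := by rwa [le_div_iff₀ hN0, one_mul]
  have h2 : (T / N) ^ 2 ≤ T := (pow_le_pow_right₀ h1 hA).trans h
  rw [div_pow, div_le_iff₀ (by positivity)] at h2
  rw [Real.sqrt_le_left hN0.le]
  have h3 : T * T ≤ T * (N:ℝ) ^ 2 := by nlinarith
  exact le_of_mul_le_mul_left h3 (by linarith)

/-- the set-up for a pair `T`, `N` -/
lemma pair {A : ℕ} (hA : 2 ≤ A) {T : ℝ} (hL : 1 ≤ Real.log T) (hT : 1 ≤ T) {N : ℕ} (hN : 1 ≤ N) (hNT : (N:ℝ) * Real.log T ^ 4 ≤ T)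
    (hY : (T / N) ^ A ≤ T) : (N:ℝ) ≤ T ∧ 1 ≤ T / N ∧ Real.sqrt T ≤ N := by
  have hN0 : (0:ℝ) < N := by exact_mod_cast hN
  have hNT1 : (N:ℝ) ≤ T := by
    refine le_trans ?_ hNT
    have h1 : (1:ℝ) ≤ Real.log T ^ 4 := one_le_pow₀ hL
    exact le_mul_of_one_le_right hN0.le h1
  refine ⟨hNT1, by rwa [le_div_iff₀ hN0, one_mul], sq_cond hT hN hNT1 hA hY⟩

/-- the difference of the norms of the remainder and of the short sum is small, large exponents -/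
theorem diff_hi {p κ : ℝ} (hp : 1 < p) (hκ : 0 < κ) :
    ∃ A : ℕ, ∀ T : ℝ, (A:ℝ) ≤ T → ∀ N : ℕ, 1 ≤ N → (N:ℝ) * Real.log T ^ 4 ≤ T → (T / N) ^ A ≤ T →
      ∫ t in T..(2 * T), |‖zz t - AA N t‖ - ‖AA ⌊T / DN N⌋₊ t‖| ^ p ≤ κ * (T * Real.log (T / N) ^ (p ^ 2 / 4)) := by
  have hp0 : 0 < p := by linarith
  obtain ⟨q, hq⟩ : ∃ q : ℝ, q = p ^ 2 / 4 := ⟨_, rfl⟩
  have hq0 : 0 < q := by rw [hq]; positivity
  obtain ⟨C, T₁, hC, hdiff⟩ := rem_diff p hp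
  obtain ⟨T₂, hgeom⟩ := geom
  obtain ⟨η, hη, hη2, A₁, hnear⟩ := near_unif hp0 (show 0 < κ / (6 * C) by positivity)
  simp only [← hq] at hnear ⊢
  have hll : Tendsto (fun T : ℝ => Real.log (Real.log T)) atTop atTop := Real.tendsto_log_atTop.comp Real.tendsto_log_atTop
  have hev : ∀ᶠ T : ℝ in atTop, (A₁ : ℝ) ≤ Real.log T ∧ 2 * Real.log 6 / η ≤ Real.log (Real.log T) ∧
      4 * C / κ ≤ Real.log (Real.log T) ^ q ∧ 1 ≤ Real.log (Real.log T) ∧ T₁ ≤ T ∧ T₂ ≤ T ∧ 1 ≤ T ∧ 1 ≤ Real.log T := by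
    filter_upwards [Real.tendsto_log_atTop.eventually_ge_atTop (A₁ : ℝ),
      hll.eventually_ge_atTop (2 * Real.log 6 / η),
      ((tendsto_rpow_atTop hq0).comp hll).eventually_ge_atTop (4 * C / κ), hll.eventually_ge_atTop 1,
      eventually_ge_atTop T₁, eventually_ge_atTop T₂, eventually_ge_atTop 1, Real.tendsto_log_atTop.eventually_ge_atTop 1] with T a1 a3 a5 a6 a7 a8 a9 a10
    exact ⟨a1, a3, a5, a6, a7, a8, a9, a10⟩
  obtain ⟨T₃, hT₃⟩ := eventually_atTop.1 hev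
  obtain ⟨A₃, hA₃⟩ := exists_nat_ge T₃
  refine ⟨A₁ + A₃ + 2, ?_⟩
  intro T hTA N hN hNT hYA
  have hT3 : T₃ ≤ T := by
    refine hA₃.trans (le_trans ?_ hTA)
    exact_mod_cast (by omega : A₃ ≤ A₁ + A₃ + 2)
  obtain ⟨a1, a3, a5, a6, a7, a8, a9, a10⟩ := hT₃ T hT3
  have hTp : 0 < T := by linarith
  have hN0 : (0:ℝ) < N := by exact_mod_cast hN
  obtain ⟨hNT1, hY1, hsN⟩ := pair (by omega) a10 a9 hN hNT hYA
  obtain ⟨g1, g2, g3, g4⟩ := hgeom T a8 N hsN hNT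
  have hdd := hdiff T a7 N hsN hNT
  obtain ⟨d1, d2, d3⟩ := DN_bd hN
  have hfl := Nat.lt_floor_add_one (T / DN N)
  set M0 := ⌊T / DN N⌋₊ with hM0
  have hM0r : (4:ℝ) ≤ M0 := by exact_mod_cast g3
  obtain ⟨M1, hM1⟩ : ∃ M1 : ℕ, M1 = 2 * M0 + 4 := ⟨_, rfl⟩
  have hM1r : (M1:ℝ) = 2 * M0 + 4 := by rw [hM1]; push_cast; ring
  obtain ⟨Y, hY⟩ : ∃ Y : ℝ, Y = T / N := ⟨_, rfl⟩
  rw [← hY] at g1 g2 hY1 hYA ⊢
  have hM1Y : (M1:ℝ) ≤ Y := by linarith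
  obtain ⟨L, hL⟩ : ∃ L : ℝ, L = Real.log Y := ⟨_, rfl⟩
  rw [← hL]
  have hl0 : Real.log (Real.log T) ≤ Real.log M0 := Real.log_le_log (by linarith) g4
  have hl1 : Real.log M0 ≤ Real.log M1 := Real.log_le_log (by linarith) (by linarith)
  have hl2 : Real.log M1 ≤ L := by rw [hL]; exact Real.log_le_log (by linarith) hM1Y
  have hL1 : 1 ≤ L := by linarith
  have hL0 : 0 < L := by linarith
  have hLq : 0 < L ^ q := by positivity
  have hpw : (M1:ℝ) ^ A₁ ≤ T := by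
    calc (M1:ℝ) ^ A₁ ≤ Y ^ A₁ := pow_le_pow_left₀ (Nat.cast_nonneg _) hM1Y A₁
      _ ≤ Y ^ (A₁ + A₃ + 2) := pow_le_pow_right₀ hY1 (by omega)
      _ ≤ T := hYA
  obtain ⟨w, hw⟩ : ∃ w : ℕ → ℝ, w = fun n : ℕ => be η (xN M1 * Real.log n) := ⟨_, rfl⟩
  have hM13 : 3 ≤ M1 := by omega
  have hx1 := xN_pos hM13
  have hlM1 : 0 < Real.log M1 := by linarith
  have hw1 : ∀ n, M0 < n → n ≤ M1 → w n = 1 := by
    intro n hn1 hn2
    have hn1r : (M0:ℝ) ≤ n := by exact_mod_cast hn1.le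
    have hn2r : (n:ℝ) ≤ M1 := by exact_mod_cast hn2
    have b1 : Real.log n ≤ Real.log M1 := Real.log_le_log (by linarith) hn2r
    have b2 : Real.log M0 ≤ Real.log n := Real.log_le_log (by linarith) hn1r
    have b3 : Real.log M1 ≤ Real.log 6 + Real.log M0 := by
      rw [← Real.log_mul (by norm_num) (by linarith)]
      exact Real.log_le_log (by linarith) (by linarith)
    have b4 : Real.log 6 ≤ η / 2 * Real.log M1 := by
      have : 2 * Real.log 6 / η ≤ Real.log M1 := by linarith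
      rw [div_le_iff₀ hη] at this
      linarith
    have b5 : xN M1 * Real.log n = Real.log n / Real.log M1 := by unfold xN; ring
    rw [hw]
    show be η (xN M1 * Real.log n) = 1
    rw [b5]
    refine be_top hη (div_nonneg (Real.log_natCast_nonneg _) hlM1.le) ?_ ?_
    · rw [le_div_iff₀ hlM1]; linarith
    · rw [div_le_iff₀ hlM1]; linarith
  have hcond1 : 2 * T / DN N ≤ M1 := by
    rw [hM1r, mul_div_assoc]; linarith
  have hcond2 : (M1 : ℝ) ≤ 4 * Real.sqrt T := by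
    have e1 : Real.sqrt T * Real.sqrt T = T := Real.mul_self_sqrt hTp.le
    have e2 : Y ≤ Real.sqrt T := by
      rw [hY, div_le_iff₀ hN0]
      nlinarith [Real.sqrt_nonneg T]
    linarith [Real.sqrt_nonneg T]
  have hD := hdd M1 hcond1 hcond2 M0 (by omega) le_rfl w (fun n => by rw [hw]; exact be_abs _ _) hw1
  have hM1A : A₁ ≤ M1 := by
    have : (A₁:ℝ) ≤ M1 := by linarith
    exact_mod_cast this
  have hnr := hnear M1 hM1A (3 * T) (hpw.trans (by linarith))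
  rw [← hw] at hnr
  refine hD.trans ?_
  have e2 : Real.log M1 ^ q ≤ L ^ q := Real.rpow_le_rpow hlM1.le hl2 hq0.le
  have e3 : ∫ t in (0:ℝ)..(3 * T), ‖WW w M1 t‖ ^ p ≤ κ / (6 * C) * (3 * T) * L ^ q :=
    hnr.trans (mul_le_mul_of_nonneg_left e2 (by positivity))
  have e4 : 4 * C / κ ≤ L ^ q := a5.trans (Real.rpow_le_rpow (by linarith) (by linarith) hq0.le)
  rw [div_le_iff₀ hκ] at e4
  have e5 : C * (κ / (6 * C) * (3 * T) * L ^ q + T) = κ / 2 * (T * L ^ q) + C * T := by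
    field_simp
    ring
  have e6 : C * T ≤ κ / 4 * (T * L ^ q) := by nlinarith
  have e7 := mul_le_mul_of_nonneg_left (add_le_add e3 (le_refl T)) hC.le
  have e8 : 0 < κ * (T * L ^ q) := by positivity
  linarith

/-- the same, small exponents -/
theorem diff_lo {p κ : ℝ} (hp : 0 < p) (hp2 : p ≤ 2) (hκ : 0 < κ) :
    ∃ A : ℕ, ∀ T : ℝ, (A:ℝ) ≤ T → ∀ N : ℕ, 1 ≤ N → (N:ℝ) * Real.log T ^ 4 ≤ T → (T / N) ^ A ≤ T →
      ∫ t in T..(2 * T), |‖zz t - AA N t‖ - ‖AA ⌊T / DN N⌋₊ t‖| ^ p ≤ κ * (T * Real.log (T / N) ^ (p ^ 2 / 4)) := by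
  obtain ⟨q, hq⟩ : ∃ q : ℝ, q = p ^ 2 / 4 := ⟨_, rfl⟩
  have hq0 : 0 < q := by rw [hq]; positivity
  obtain ⟨C, T₁, hC, hdiff⟩ := rem_diff 2 (by norm_num)
  obtain ⟨T₂, hgeom⟩ := geom
  simp only [← hq]
  have hll : Tendsto (fun T : ℝ => Real.log (Real.log T)) atTop atTop := Real.tendsto_log_atTop.comp Real.tendsto_log_atTop
  have hev : ∀ᶠ T : ℝ in atTop, (19 * C + 1) / κ ≤ Real.log (Real.log T) ^ q ∧ 1 ≤ Real.log (Real.log T) ∧ T₁ ≤ T ∧ T₂ ≤ T ∧ 1 ≤ T ∧ 1 ≤ Real.log T := by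
    filter_upwards [((tendsto_rpow_atTop hq0).comp hll).eventually_ge_atTop ((19 * C + 1) / κ), hll.eventually_ge_atTop 1,
      eventually_ge_atTop T₁, eventually_ge_atTop T₂, eventually_ge_atTop 1, Real.tendsto_log_atTop.eventually_ge_atTop 1] with T a5 a6 a7 a8 a9 a10
    exact ⟨a5, a6, a7, a8, a9, a10⟩
  obtain ⟨T₃, hT₃⟩ := eventually_atTop.1 hev
  obtain ⟨A₃, hA₃⟩ := exists_nat_ge T₃
  refine ⟨A₃ + 2, ?_⟩
  intro T hTA N hN hNT hYA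
  have hT3 : T₃ ≤ T := by
    refine hA₃.trans (le_trans ?_ hTA)
    exact_mod_cast (by omega : A₃ ≤ A₃ + 2)
  obtain ⟨a5, a6, a7, a8, a9, a10⟩ := hT₃ T hT3
  have hTp : 0 < T := by linarith
  have hN0 : (0:ℝ) < N := by exact_mod_cast hN
  obtain ⟨hNT1, hY1, hsN⟩ := pair (by omega) a10 a9 hN hNT hYA
  obtain ⟨g1, g2, g3, g4⟩ := hgeom T a8 N hsN hNT
  have hdd := hdiff T a7 N hsN hNT
  obtain ⟨d1, d2, d3⟩ := DN_bd hN
  have hfl := Nat.lt_floor_add_one (T / DN N)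
  set M0 := ⌊T / DN N⌋₊ with hM0
  have hM0r : (4:ℝ) ≤ M0 := by exact_mod_cast g3
  obtain ⟨M1, hM1⟩ : ∃ M1 : ℕ, M1 = 2 * M0 + 4 := ⟨_, rfl⟩
  have hM1r : (M1:ℝ) = 2 * M0 + 4 := by rw [hM1]; push_cast; ring
  obtain ⟨Y, hY⟩ : ∃ Y : ℝ, Y = T / N := ⟨_, rfl⟩
  rw [← hY] at g1 g2 hY1 hYA ⊢
  have hM1Y : (M1:ℝ) ≤ Y := by linarith
  obtain ⟨L, hL⟩ : ∃ L : ℝ, L = Real.log Y := ⟨_, rfl⟩
  rw [← hL]
  have hl0 : Real.log (Real.log T) ≤ Real.log M0 := Real.log_le_log (by linarith) g4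
  have hl2 : Real.log M0 ≤ L := by rw [hL]; exact Real.log_le_log (by linarith) (by linarith)
  have hL1 : 1 ≤ L := by linarith
  have hL0 : 0 < L := by linarith
  have hLq : 0 < L ^ q := by positivity
  have hY2 : Y ^ 2 ≤ T := (pow_le_pow_right₀ hY1 (by omega)).trans hYA
  obtain ⟨w, hw⟩ : ∃ w : ℕ → ℝ, w = fun n : ℕ => if M0 < n then 1 else 0 := ⟨_, rfl⟩
  have hcond1 : 2 * T / DN N ≤ M1 := by
    rw [hM1r, mul_div_assoc]; linarith
  have hcond2 : (M1 : ℝ) ≤ 4 * Real.sqrt T := by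
    have e1 : Real.sqrt T * Real.sqrt T = T := Real.mul_self_sqrt hTp.le
    have e2 : Y ≤ Real.sqrt T := by
      rw [hY, div_le_iff₀ hN0]
      nlinarith [Real.sqrt_nonneg T]
    linarith [Real.sqrt_nonneg T]
  have hD := hdd M1 hcond1 hcond2 M0 (by omega) le_rfl w (fun n => by
    rw [hw]
    show |if M0 < n then (1:ℝ) else 0| ≤ 1
    split_ifs <;> simp) (fun n h1 _ => by
    rw [hw]
    show (if M0 < n then (1:ℝ) else 0) = 1
    rw [if_pos h1])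
  have hsq := WW_sq w (show 1 ≤ M1 by omega) (show 0 < 3 * T by linarith) (by
    have : (M1:ℝ) ^ 2 ≤ Y ^ 2 := pow_le_pow_left₀ (Nat.cast_nonneg _) hM1Y 2
    linarith)
  have hsum : ∑ n ∈ Finset.Icc 1 M1, w n ^ 2 / n ≤ 2 := by
    have e1 : ∀ n ∈ Finset.Icc 1 M1, w n ^ 2 / n ≤ if M0 < n then 1 / (M0:ℝ) else 0 := by
      intro n hn
      rw [hw]
      show (if M0 < n then (1:ℝ) else 0) ^ 2 / n ≤ _
      split_ifs with h
      · have : (M0:ℝ) ≤ n := by exact_mod_cast h.le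
        rw [one_pow]
        exact one_div_le_one_div_of_le (by linarith) this
      · simp
    refine (Finset.sum_le_sum e1).trans ?_
    rw [← Finset.sum_filter, Finset.sum_const, nsmul_eq_mul]
    have e2 : (Finset.Icc 1 M1).filter (fun n => M0 < n) ⊆ Finset.Ioc M0 M1 := by
      intro n hn
      rw [Finset.mem_filter, Finset.mem_Icc] at hn
      rw [Finset.mem_Ioc]
      exact ⟨hn.2, hn.1.2⟩
    have e3 : ((((Finset.Icc 1 M1).filter (fun n => M0 < n)).card : ℕ) : ℝ) ≤ M0 + 4 := by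
      have e4 := Finset.card_le_card e2
      rw [Nat.card_Ioc] at e4
      have e5 : ((Finset.Icc 1 M1).filter (fun n => M0 < n)).card ≤ M0 + 4 := by omega
      exact_mod_cast e5
    rw [mul_one_div, div_le_iff₀ (by linarith)]
    linarith
  have hI2 : ∫ t in T..(2 * T), |‖zz t - AA N t‖ - ‖AA M0 t‖| ^ (2:ℝ) ≤ 19 * C * T := by
    refine hD.trans ?_
    have e1 : ∫ t in (0:ℝ)..(3 * T), ‖WW w M1 t‖ ^ (2:ℝ) ≤ 18 * T := by
      refine hsq.trans ?_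
      have := mul_le_mul_of_nonneg_left hsum (show 0 ≤ 3 * (3 * T) by linarith)
      linarith
    have := mul_le_mul_of_nonneg_left (add_le_add e1 (le_refl T)) hC.le
    linarith
  have hF : Continuous fun t => |‖zz t - AA N t‖ - ‖AA M0 t‖| := ((zz_cont.sub (AA_cont N)).norm.sub (AA_cont M0).norm).abs
  have hab : T ≤ 2 * T := by linarith
  have hc : ∀ r : ℝ, 0 ≤ r → Continuous fun t => |‖zz t - AA N t‖ - ‖AA M0 t‖| ^ r := fun r hr => hF.rpow_const fun _ => Or.inr hr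
  have hpt : ∀ x : ℝ, 0 ≤ x → x ^ p ≤ 1 + x ^ (2:ℝ) := by
    intro x hx
    rcases le_total x 1 with h | h
    · have := Real.rpow_le_one hx h hp.le
      have := Real.rpow_nonneg hx 2
      linarith
    · have := Real.rpow_le_rpow_of_exponent_le h hp2
      linarith
  have hI : ∫ t in T..(2 * T), |‖zz t - AA N t‖ - ‖AA M0 t‖| ^ p ≤ ∫ t in T..(2 * T), (1 + |‖zz t - AA N t‖ - ‖AA M0 t‖| ^ (2:ℝ)) :=
    intervalIntegral.integral_mono_on hab ((hc p hp.le).intervalIntegrable _ _) ((continuous_const.add (hc 2 (by norm_num))).intervalIntegrable _ _)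
      fun t _ => hpt _ (abs_nonneg _)
  rw [intervalIntegral.integral_add (continuous_const.intervalIntegrable _ _) ((hc 2 (by norm_num)).intervalIntegrable _ _),
    intervalIntegral.integral_const, smul_eq_mul, mul_one] at hI
  have e4 : (19 * C + 1) / κ ≤ L ^ q := a5.trans (Real.rpow_le_rpow (by linarith) (by linarith) hq0.le)
  rw [div_le_iff₀ hκ] at e4
  nlinarith

theorem diff_all {p κ : ℝ} (hp : 0 < p) (hκ : 0 < κ) :
    ∃ A : ℕ, ∀ T : ℝ, (A:ℝ) ≤ T → ∀ N : ℕ, 1 ≤ N → (N:ℝ) * Real.log T ^ 4 ≤ T → (T / N) ^ A ≤ T →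
      ∫ t in T..(2 * T), |‖zz t - AA N t‖ - ‖AA ⌊T / DN N⌋₊ t‖| ^ p ≤ κ * (T * Real.log (T / N) ^ (p ^ 2 / 4)) := by
  rcases le_or_gt p 1 with h | h
  · exact diff_lo hp (by linarith) hκ
  · exact diff_hi h hκ

theorem long_asymp {p : ℝ} (hp0 : 0 < p) {c : ℝ} (hc : 0 < c)
    (hsum : ∀ ε : ℝ, 0 < ε → ∃ A : ℕ, ∀ M : ℕ, A ≤ M → ∀ T : ℝ, (M:ℝ) ^ A ≤ T →
      |1 / T * (∫ t in (0:ℝ)..T, ‖AA M t‖ ^ p) / Real.log M ^ (p ^ 2 / 4) - c| ≤ ε) {ε : ℝ} (hε : 0 < ε) :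
    ∃ A : ℕ, ∀ T : ℝ, (A:ℝ) ≤ T → ∀ N : ℕ, 1 ≤ N → (N:ℝ) * Real.log T ^ 4 ≤ T → (T / N) ^ A ≤ T →
      |1 / T * (∫ t in T..(2 * T), ‖zz t - AA N t‖ ^ p) / Real.log (T / N) ^ (p ^ 2 / 4) - c| ≤ ε := by
  obtain ⟨q, hq⟩ : ∃ q : ℝ, q = p ^ 2 / 4 := ⟨_, rfl⟩
  have hq0 : 0 < q := by rw [hq]; positivity
  obtain ⟨v, hv⟩ : ∃ v : ℝ, v = ep p := ⟨_, rfl⟩
  have hv0 : 0 < v := by rw [hv]; exact ep_pos hp0
  obtain ⟨T₂, hgeom⟩ := geom
  have hcp : 0 < c ^ v := by positivity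
  obtain ⟨δ₁, hδ₁, hc1⟩ := cont_at (q := 1 / v) hcp hε
  have hcc : (c ^ v) ^ (1 / v) = c := by rw [← Real.rpow_mul hc.le, mul_one_div_cancel hv0.ne', Real.rpow_one]
  rw [hcc] at hc1
  obtain ⟨δ₂, hδ₂, hc2⟩ := cont_at (q := v) hc (show 0 < δ₁ / 2 by positivity)
  obtain ⟨δ₃, hδ₃, hc3⟩ := cont_at (q := q) one_pos (show 0 < δ₂ / (2 * c) by positivity)
  obtain ⟨κ, hκ⟩ : ∃ κ : ℝ, κ = (δ₁ / 2) ^ (1 / v) := ⟨_, rfl⟩
  have hκ0 : 0 < κ := by rw [hκ]; positivity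
  obtain ⟨A₁, hdiff⟩ := diff_all hp0 (show 0 < κ / 2 by positivity)
  obtain ⟨A₂, hs⟩ := hsum (δ₂ / 12) (by positivity)
  simp only [← hq] at hs hdiff ⊢
  have hll : Tendsto (fun T : ℝ => Real.log (Real.log T)) atTop atTop := Real.tendsto_log_atTop.comp Real.tendsto_log_atTop
  have hev : ∀ᶠ T : ℝ in atTop, (A₂ : ℝ) ≤ Real.log T ∧
      2 * Real.log 20 / δ₃ ≤ Real.log (Real.log T) ∧ 1 ≤ Real.log (Real.log T) ∧ T₂ ≤ T ∧ 1 ≤ T ∧ 1 ≤ Real.log T := by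
    filter_upwards [Real.tendsto_log_atTop.eventually_ge_atTop (A₂ : ℝ), hll.eventually_ge_atTop (2 * Real.log 20 / δ₃),
      hll.eventually_ge_atTop 1, eventually_ge_atTop T₂, eventually_ge_atTop 1, Real.tendsto_log_atTop.eventually_ge_atTop 1] with T a2 a4 a6 a8 a9 a10
    exact ⟨a2, a4, a6, a8, a9, a10⟩
  obtain ⟨T₃, hT₃⟩ := eventually_atTop.1 hev
  obtain ⟨A₃, hA₃⟩ := exists_nat_ge T₃
  refine ⟨A₁ + A₂ + A₃ + 2, ?_⟩
  intro T hTA N hN hNT hYA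
  have hT3 : T₃ ≤ T := by
    refine hA₃.trans (le_trans ?_ hTA)
    exact_mod_cast (by omega : A₃ ≤ A₁ + A₂ + A₃ + 2)
  have hT1 : (A₁:ℝ) ≤ T := by
    refine le_trans ?_ hTA
    exact_mod_cast (by omega : A₁ ≤ A₁ + A₂ + A₃ + 2)
  obtain ⟨a2, a4, a6, a8, a9, a10⟩ := hT₃ T hT3
  have hTp : 0 < T := by linarith
  have hN0 : (0:ℝ) < N := by exact_mod_cast hN
  obtain ⟨hNT1, hY1, hsN⟩ := pair (by omega) a10 a9 hN hNT hYA
  obtain ⟨g1, g2, g3, g4⟩ := hgeom T a8 N hsN hNT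
  have hD := hdiff T hT1 N hN hNT ((pow_le_pow_right₀ hY1 (by omega)).trans hYA)
  set M0 := ⌊T / DN N⌋₊ with hM0
  have hM0r : (4:ℝ) ≤ M0 := by exact_mod_cast g3
  obtain ⟨Y, hY⟩ : ∃ Y : ℝ, Y = T / N := ⟨_, rfl⟩
  rw [← hY] at g1 g2 hY1 hYA hD ⊢
  obtain ⟨L, hL⟩ : ∃ L : ℝ, L = Real.log Y := ⟨_, rfl⟩
  rw [← hL] at hD ⊢
  have hl0 : Real.log (Real.log T) ≤ Real.log M0 := Real.log_le_log (by linarith) g4
  have hl2 : Real.log M0 ≤ L := by rw [hL]; exact Real.log_le_log (by linarith) (by linarith)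
  have hl3 : L ≤ Real.log 20 + Real.log M0 := by
    rw [hL, ← Real.log_mul (by norm_num) (by linarith)]
    exact Real.log_le_log (by linarith) g1
  have hL1 : 1 ≤ L := by linarith
  have hL0 : 0 < L := by linarith
  have hLq : 0 < L ^ q := by positivity
  have hlM0 : 0 < Real.log M0 := by linarith
  have hM0Y : (M0:ℝ) ≤ Y := by linarith
  have hpw : (M0:ℝ) ^ A₂ ≤ T := by
    calc (M0:ℝ) ^ A₂ ≤ Y ^ A₂ := pow_le_pow_left₀ (Nat.cast_nonneg _) hM0Y A₂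
      _ ≤ Y ^ (A₁ + A₂ + A₃ + 2) := pow_le_pow_right₀ hY1 (by omega)
      _ ≤ T := hYA
  have hM0A : A₂ ≤ M0 := by
    have : (A₂:ℝ) ≤ M0 := by linarith
    exact_mod_cast this
  have hF : Continuous fun t => ‖zz t - AA N t‖ := (zz_cont.sub (AA_cont N)).norm
  have hG : Continuous fun t => ‖AA M0 t‖ := (AA_cont M0).norm
  have hH : Continuous fun t => |‖zz t - AA N t‖ - ‖AA M0 t‖| := (hF.sub hG).abs
  have hab : T ≤ 2 * T := by linarith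
  have hcmp := LN_cmp hp0 hab hF hG hH (fun t => norm_nonneg _) (fun t => norm_nonneg _) (fun t => le_rfl)
  obtain ⟨s, hs1⟩ : ∃ s : ℝ, s = (T * L ^ q) ^ v := ⟨_, rfl⟩
  have hTL : 0 < T * L ^ q := by positivity
  have hs0 : 0 < s := by rw [hs1]; positivity
  have hHb : LN p T (2 * T) (fun t => |‖zz t - AA N t‖ - ‖AA M0 t‖|) < δ₁ / 2 * s := by
    have e1 : ∫ t in T..(2 * T), |‖zz t - AA N t‖ - ‖AA M0 t‖| ^ p < κ * (T * L ^ q) := by
      refine lt_of_le_of_lt hD ?_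
      have e8 : 0 < κ * (T * L ^ q) := by positivity
      linarith
    have e9 := Real.rpow_lt_rpow (LN_int_nonneg hab fun t => abs_nonneg _) e1 hv0
    rw [Real.mul_rpow hκ0.le hTL.le, ← hs1, hκ, ← Real.rpow_mul (by positivity), one_div_mul_cancel hv0.ne', Real.rpow_one] at e9
    unfold LN
    rw [← hv]
    exact e9
  -- the short sum
  have hI : (∫ t in (0:ℝ)..(2 * T), ‖AA M0 t‖ ^ p) = (∫ t in (0:ℝ)..T, ‖AA M0 t‖ ^ p) + ∫ t in T..(2 * T), ‖AA M0 t‖ ^ p := by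
    have hcG : Continuous fun t => ‖AA M0 t‖ ^ p := normp_cont (AA_cont M0) hp0.le
    rw [intervalIntegral.integral_add_adjacent_intervals (hcG.intervalIntegrable _ _) (hcG.intervalIntegrable _ _)]
  have hm2 := hs M0 hM0A (2 * T) (hpw.trans (by linarith))
  have hm1 := hs M0 hM0A T hpw
  obtain ⟨I, hIe⟩ : ∃ I : ℝ, I = ∫ t in T..(2 * T), ‖AA M0 t‖ ^ p := ⟨_, rfl⟩
  rw [hI, ← hIe] at hm2
  obtain ⟨z, hz⟩ : ∃ z : ℝ, z = 1 / T * I / Real.log M0 ^ q := ⟨_, rfl⟩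
  have hzc : |z - c| ≤ δ₂ / 4 := by
    have e1 : z = 2 * (1 / (2 * T) * ((∫ t in (0:ℝ)..T, ‖AA M0 t‖ ^ p) + I) / Real.log M0 ^ q) - 1 / T * (∫ t in (0:ℝ)..T, ‖AA M0 t‖ ^ p) / Real.log M0 ^ q := by
      rw [hz]
      have : 0 < Real.log M0 ^ q := by positivity
      field_simp
      ring
    rw [abs_le] at hm1 hm2 ⊢
    rw [e1]
    constructor <;> linarith [hm1.1, hm1.2, hm2.1, hm2.2]
  obtain ⟨r, hr⟩ : ∃ r : ℝ, r = Real.log M0 / L := ⟨_, rfl⟩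
  have hr0 : 0 ≤ r := by rw [hr]; positivity
  have hr1 : r ≤ 1 := by rw [hr, div_le_iff₀ hL0]; linarith
  have hr3 : |r - 1| < δ₃ := by
    rw [abs_sub_comm, abs_of_nonneg (by linarith), hr]
    have e1 : 1 - Real.log M0 / L = (L - Real.log M0) / L := by field_simp
    rw [e1, div_lt_iff₀ hL0]
    have e2 : 2 * Real.log 20 / δ₃ ≤ L := by linarith
    rw [div_le_iff₀ hδ₃] at e2
    have e3 : 0 < Real.log 20 := Real.log_pos (by norm_num)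
    linarith
  have hrq := hc3 r hr3
  rw [Real.one_rpow] at hrq
  have hrq0 : 0 ≤ r ^ q := Real.rpow_nonneg hr0 _
  have hrq1 : r ^ q ≤ 1 := Real.rpow_le_one hr0 hr1 hq0.le
  obtain ⟨y, hy⟩ : ∃ y : ℝ, y = I / (T * L ^ q) := ⟨_, rfl⟩
  have hyz : y = z * r ^ q := by
    rw [hy, hz, hr, Real.div_rpow hlM0.le hL0.le]
    have : 0 < Real.log M0 ^ q := by positivity
    field_simp
  have hyc : |y - c| < δ₂ := by
    have e1 : y - c = (z - c) * r ^ q + c * (r ^ q - 1) := by rw [hyz]; ring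
    rw [e1]
    refine lt_of_le_of_lt (abs_add_le _ _) ?_
    rw [abs_mul, abs_mul, abs_of_nonneg hrq0, abs_of_pos hc]
    have e2 : |z - c| * r ^ q ≤ δ₂ / 4 * 1 := mul_le_mul hzc hrq1 hrq0 (by positivity)
    have e3 : c * |r ^ q - 1| ≤ c * (δ₂ / (2 * c)) := mul_le_mul_of_nonneg_left hrq.le hc.le
    have e4 : c * (δ₂ / (2 * c)) = δ₂ / 2 := by field_simp
    linarith
  have hyr := hc2 y hyc
  have hI0 : 0 ≤ I := by rw [hIe]; exact LN_int_nonneg hab fun t => norm_nonneg _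
  have hy2 : y ^ v = LN p T (2 * T) (fun t => ‖AA M0 t‖) / s := by
    rw [hy, Real.div_rpow hI0 hTL.le, hs1, hIe, hv]
    rfl
  rw [hy2] at hyr
  obtain ⟨x, hx⟩ : ∃ x : ℝ, x = LN p T (2 * T) (fun t => ‖zz t - AA N t‖) / s := ⟨_, rfl⟩
  have hxd : |x - c ^ v| < δ₁ := by
    have e1 : |x - LN p T (2 * T) (fun t => ‖AA M0 t‖) / s| < δ₁ / 2 := by
      rw [hx, ← sub_div, abs_div, abs_of_pos hs0, div_lt_iff₀ hs0]
      exact lt_of_le_of_lt hcmp hHb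
    have e2 : x - c ^ v = (x - LN p T (2 * T) (fun t => ‖AA M0 t‖) / s) + (LN p T (2 * T) (fun t => ‖AA M0 t‖) / s - c ^ v) := by ring
    rw [e2]
    refine lt_of_le_of_lt (abs_add_le _ _) ?_
    linarith
  have hfin := hc1 x hxd
  have hxp : x ^ (1 / v) = 1 / T * (∫ t in T..(2 * T), ‖zz t - AA N t‖ ^ p) / L ^ q := by
    rw [hx, Real.div_rpow (LN_nonneg hab fun t => norm_nonneg _) hs0.le, hv, LN_rpow hp0 hab fun t => norm_nonneg _, hs1, hv,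
      ← Real.rpow_mul hTL.le, mul_one_div_cancel (ep_pos hp0).ne', Real.rpow_one]
    field_simp
  rw [hxp] at hfin
  exact hfin.le

end Pool.Agent.H470
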