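import Pool.Agent.H470.Ya7
import Pool.Agent.H470.Wt

set_option autoImplicit false

/-! Comparison of zeta with its long partial sums in the mean. -/

open Complex MeasureTheory Set Filter Topology

namespace Pool.Agent.H470

theorem up {p : ℝ} (hp : 1 < p) : ∃ C : ℝ, 0 < C ∧ ∃ A : ℕ, 2 ≤ A ∧ ∀ T : ℝ, (A:ℝ) ≤ T → ∀ N : ℕ, 1 ≤ N →
    (N:ℝ) * Real.log T ^ 4 ≤ T → (T / N) ^ A ≤ T →
      ∫ t in (19 * T / 20)..(41 * T / 20), ‖zz t - AA N t‖ ^ p ≤ C * (T * Real.log (T / N) ^ (p ^ 2 / 4)) := by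
  have hp0 : 0 < p := by linarith
  obtain ⟨q, hq⟩ : ∃ q : ℝ, q = p ^ 2 / 4 := ⟨_, rfl⟩
  have hq0 : 0 < q := by rw [hq]; positivity
  obtain ⟨C, T₁, hC, hup⟩ := rem_upper p hp
  obtain ⟨T₂, hgeom⟩ := geom
  obtain ⟨c, hc, hs0⟩ := sums_unif hp0
  obtain ⟨A₂, hs⟩ := hs0 1 one_pos
  simp only [← hq] at hs ⊢
  have hll : Tendsto (fun T : ℝ => Real.log (Real.log T)) atTop atTop := Real.tendsto_log_atTop.comp Real.tendsto_log_atTop
  have hev : ∀ᶠ T : ℝ in atTop, (A₂ : ℝ) ≤ Real.log T ∧ 1 ≤ Real.log (Real.log T) ∧ T₁ ≤ T ∧ T₂ ≤ T ∧ 1 ≤ T ∧ 1 ≤ Real.log T := by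
    filter_upwards [Real.tendsto_log_atTop.eventually_ge_atTop (A₂ : ℝ),
      hll.eventually_ge_atTop 1, eventually_ge_atTop T₁, eventually_ge_atTop T₂, eventually_ge_atTop 1,
      Real.tendsto_log_atTop.eventually_ge_atTop 1] with T a2 a6 a7 a8 a9 a10
    exact ⟨a2, a6, a7, a8, a9, a10⟩
  obtain ⟨T₃, hT₃⟩ := eventually_atTop.1 hev
  obtain ⟨A₃, hA₃⟩ := exists_nat_ge T₃
  refine ⟨C * (3 * (c + 1) + 1), by positivity, A₂ + A₃ + 2, by omega, ?_⟩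
  intro T hTA N hN hNT hYA
  have hT3 : T₃ ≤ T := by
    refine hA₃.trans (le_trans ?_ hTA)
    exact_mod_cast (by omega : A₃ ≤ A₂ + A₃ + 2)
  obtain ⟨a2, a6, a7, a8, a9, a10⟩ := hT₃ T hT3
  have hTp : 0 < T := by linarith
  have hN0 : (0:ℝ) < N := by exact_mod_cast hN
  obtain ⟨hNT1, hY1, hsN⟩ := pair (by omega) a10 a9 hN hNT hYA
  obtain ⟨g1, g2, g3, g4⟩ := hgeom T a8 N hsN hNT
  obtain ⟨d1, d2, d3⟩ := DN_bd hN
  obtain ⟨M, hM⟩ : ∃ M : ℕ, M = ⌊(21 * T / 10) / DN N⌋₊ + 1 := ⟨_, rfl⟩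
  have hM1 : (21 * T / 10) / DN N ≤ M := by
    rw [hM]; push_cast; exact (Nat.lt_floor_add_one _).le
  have hM2 : (M:ℝ) ≤ (21 * T / 10) / DN N + 1 := by
    rw [hM]; push_cast
    exact add_le_add (Nat.floor_le (by positivity)) le_rfl
  have hM3 : ⌊T / DN N⌋₊ ≤ M := by
    rw [hM]
    exact le_trans (Nat.floor_le_floor (div_le_div_of_nonneg_right (by linarith) d3.le)) (Nat.le_succ _)
  have hM3r : ((⌊T / DN N⌋₊ : ℕ) : ℝ) ≤ M := by exact_mod_cast hM3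
  have hTD : 1 ≤ T / DN N := by
    have h1 := Nat.floor_le (show 0 ≤ T / DN N by positivity)
    linarith
  have hDY : 6 * (T / DN N) ≤ T / N := by
    rw [← mul_div_assoc, div_le_div_iff₀ d3 hN0]
    nlinarith
  have e0 : (21 * T / 10) / DN N = 21 / 10 * (T / DN N) := by ring
  rw [e0] at hM2
  obtain ⟨Y, hY⟩ : ∃ Y : ℝ, Y = T / N := ⟨_, rfl⟩
  rw [← hY] at g1 g2 hY1 hYA hDY ⊢
  have hMY : (M:ℝ) ≤ Y := by linarith
  have hM4 : (M : ℝ) ≤ 4 * Real.sqrt T := by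
    have e1 : Real.sqrt T * Real.sqrt T = T := Real.mul_self_sqrt hTp.le
    have e2 : Y ≤ Real.sqrt T := by
      rw [hY, div_le_iff₀ hN0]
      nlinarith [Real.sqrt_nonneg T]
    linarith [Real.sqrt_nonneg T]
  have h1 := hup T a7 N hsN hNT M hM1 hM4
  have hMA : A₂ ≤ M := by
    have : (A₂:ℝ) ≤ M := by linarith
    exact_mod_cast this
  have hpw : (M:ℝ) ^ A₂ ≤ 3 * T := by
    calc (M:ℝ) ^ A₂ ≤ Y ^ A₂ := pow_le_pow_left₀ (Nat.cast_nonneg _) hMY A₂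
      _ ≤ Y ^ (A₂ + A₃ + 2) := pow_le_pow_right₀ hY1 (by omega)
      _ ≤ T := hYA
      _ ≤ 3 * T := by linarith
  have h2 := (abs_le.1 (hs M hMA (3 * T) hpw)).2
  obtain ⟨L, hL⟩ : ∃ L : ℝ, L = Real.log Y := ⟨_, rfl⟩
  rw [← hL]
  have hl0 : Real.log (Real.log T) ≤ Real.log M := Real.log_le_log (by linarith) (by linarith)
  have hl2 : Real.log M ≤ L := by rw [hL]; exact Real.log_le_log (by linarith) (by linarith)
  have hL1 : 1 ≤ L := by linarith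
  have hL0 : 0 < L := by linarith
  have hLq : 1 ≤ L ^ q := Real.one_le_rpow hL1 hq0.le
  have hlM : 0 < Real.log M := by linarith
  have hlMq : 0 < Real.log M ^ q := by positivity
  have h3 : 1 / (3 * T) * (∫ t in (0:ℝ)..(3 * T), ‖AA M t‖ ^ p) / Real.log M ^ q ≤ c + 1 := by linarith
  rw [div_le_iff₀ hlMq, one_div_mul_eq_div, div_le_iff₀ (by positivity)] at h3
  have h4 : Real.log M ^ q ≤ L ^ q := Real.rpow_le_rpow hlM.le hl2 hq0.le
  have h5 : ∫ t in (0:ℝ)..(3 * T), ‖AA M t‖ ^ p ≤ (c + 1) * L ^ q * (3 * T) := by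
    refine h3.trans ?_
    exact mul_le_mul_of_nonneg_right (mul_le_mul_of_nonneg_left h4 (by positivity)) (by positivity)
  refine h1.trans ?_
  rw [mul_assoc]
  apply mul_le_mul_of_nonneg_left _ hC.le
  have h6 : T ≤ T * L ^ q := le_mul_of_one_le_right hTp.le hLq
  calc (∫ t in (0:ℝ)..(3 * T), ‖AA M t‖ ^ p) + T ≤ (c + 1) * L ^ q * (3 * T) + T * L ^ q := add_le_add h5 h6
    _ = _ := by ring

/-- partial sums between `T / log ^ 4 T` and `T` -/
theorem up2 {p : ℝ} (hp : 1 < p) : ∃ C : ℝ, 0 < C ∧ ∃ T₀ : ℝ, ∀ T : ℝ, T₀ ≤ T → ∀ N : ℕ, (N:ℝ) ≤ T →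
    T < (N:ℝ) * Real.log T ^ 4 →
      ∫ t in T..(2 * T), ‖zz t - AA N t‖ ^ p ≤ C * (T * Real.log (Real.log T) ^ (p ^ 2 / 4)) := by
  have hp0 : 0 < p := by linarith
  obtain ⟨q, hq⟩ : ∃ q : ℝ, q = p ^ 2 / 4 := ⟨_, rfl⟩
  have hq0 : 0 < q := by rw [hq]; positivity
  obtain ⟨C₁, hC₁, A, hA2, hup⟩ := up hp
  obtain ⟨C₂, hC₂, hmw⟩ := mono_w p hp
  simp only [← hq] at hup ⊢
  have hll : Tendsto (fun T : ℝ => Real.log (Real.log T)) atTop atTop := Real.tendsto_log_atTop.comp Real.tendsto_log_atTop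
  have hlo : ∀ᶠ T : ℝ in atTop, Real.log T ^ (5 * A) ≤ T ∧ 10 ^ 3 * Real.log T ^ 4 ≤ T ∧ 10 ^ 4 * Real.log T ^ 2 ≤ T := by
    have h := fun n : ℕ => (isLittleO_log_rpow_rpow_atTop (s := 1) n one_pos).bound (show (0:ℝ) < 1 / 10 ^ 4 by norm_num)
    filter_upwards [h (5 * A), h 4, h 2, Real.tendsto_log_atTop.eventually_ge_atTop 0, eventually_ge_atTop 0] with T h1 h2 h3 h4 h5
    rw [Real.rpow_natCast, Real.rpow_one, Real.norm_of_nonneg (by positivity), Real.norm_of_nonneg h5] at h1 h2 h3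
    have hh : (0:ℝ) ≤ Real.log T ^ 4 := by positivity
    have hh2 : (0:ℝ) ≤ Real.log T ^ 2 := by positivity
    refine ⟨?_, ?_, ?_⟩ <;> linarith
  have hev : ∀ᶠ T : ℝ in atTop, 1 ≤ Real.log (Real.log T) ∧ (A:ℝ) ≤ T ∧ 10 ^ 8 ≤ T ∧ 4 ≤ Real.log T := by
    filter_upwards [hll.eventually_ge_atTop 1, eventually_ge_atTop (A:ℝ), eventually_ge_atTop (10 ^ 8),
      Real.tendsto_log_atTop.eventually_ge_atTop 4] with T a6 a7 a9 a10
    exact ⟨a6, a7, a9, a10⟩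
  obtain ⟨T₃, hT₃⟩ := eventually_atTop.1 (hev.and hlo)
  refine ⟨2 ^ p * (C₁ * 5 ^ q + C₂ * (2 ^ p * (C₁ * 5 ^ q + 2) + 1)), by positivity, T₃, ?_⟩
  intro T hT N hNT hNl
  obtain ⟨⟨a1, a2, a3, a4⟩, b1, b2, b3⟩ := hT₃ T hT
  have hTp : 0 < T := by linarith
  have hl0 : 0 < Real.log T := by linarith
  have hl4 : 0 < Real.log T ^ 4 := by positivity
  obtain ⟨N0, hN0⟩ : ∃ N0 : ℕ, N0 = ⌊T / Real.log T ^ 4⌋₊ := ⟨_, rfl⟩
  have hz1 : 10 ^ 3 ≤ T / Real.log T ^ 4 := by rw [le_div_iff₀ hl4]; exact b2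
  have hz2 : (N0:ℝ) ≤ T / Real.log T ^ 4 := by rw [hN0]; exact Nat.floor_le (by positivity)
  have hz3 : T / Real.log T ^ 4 < N0 + 1 := by rw [hN0]; exact Nat.lt_floor_add_one _
  have hz4 : (10:ℝ) ^ 2 ≤ N0 := by linarith
  have hN01 : 1 ≤ N0 := by
    have : (1:ℝ) ≤ N0 := by linarith
    exact_mod_cast this
  have hN0p : (0:ℝ) < N0 := by linarith
  have hN0l : (N0:ℝ) * Real.log T ^ 4 ≤ T := by rwa [le_div_iff₀ hl4] at hz2
  have hN0N : N0 ≤ N := by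
    have h1 : T / Real.log T ^ 4 < N := by rw [div_lt_iff₀ hl4]; exact hNl
    have : (N0:ℝ) < N := lt_of_le_of_lt hz2 h1
    exact_mod_cast this.le
  have hYl : T / N0 ≤ Real.log T ^ 5 := by
    rw [div_le_iff₀ hN0p]
    have h1 : T ≤ (N0 + 1) * Real.log T ^ 4 := by rw [div_lt_iff₀ hl4] at hz3; exact hz3.le
    have h2 : ((N0:ℝ) + 1) * Real.log T ^ 4 ≤ 2 * N0 * Real.log T ^ 4 := mul_le_mul_of_nonneg_right (by linarith) hl4.le
    have h3 : 2 * N0 * Real.log T ^ 4 ≤ Real.log T ^ 5 * N0 := by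
      have : 2 * Real.log T ^ 4 ≤ Real.log T ^ 5 := by
        rw [pow_succ (Real.log T) 4, mul_comm 2]
        exact mul_le_mul_of_nonneg_left (by linarith) hl4.le
      nlinarith
    linarith
  have hY1 : 1 ≤ T / N0 := by
    rw [le_div_iff₀ hN0p, one_mul]
    have h1 : (1:ℝ) ≤ Real.log T ^ 4 := one_le_pow₀ (by linarith)
    nlinarith
  have hYA : (T / N0) ^ A ≤ T := by
    refine le_trans (pow_le_pow_left₀ (by positivity) hYl A) ?_
    rw [← pow_mul]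
    exact b1
  have hu := hup T a2 N0 hN01 hN0l hYA
  have hlY : Real.log (T / N0) ≤ 5 * Real.log (Real.log T) := by
    have := Real.log_le_log (by linarith) hYl
    rwa [Real.log_pow] at this
  have hlY0 : 0 ≤ Real.log (T / N0) := Real.log_nonneg hY1
  obtain ⟨Λ, hΛ⟩ : ∃ Λ : ℝ, Λ = Real.log (Real.log T) ^ q := ⟨_, rfl⟩
  have hΛ1 : 1 ≤ Λ := by rw [hΛ]; exact Real.one_le_rpow a1 hq0.le
  have hu2 : ∫ t in (19 * T / 20)..(41 * T / 20), ‖zz t - AA N0 t‖ ^ p ≤ C₁ * 5 ^ q * (T * Λ) := by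
    refine hu.trans ?_
    have h1 : Real.log (T / N0) ^ q ≤ 5 ^ q * Λ := by
      rw [hΛ, ← Real.mul_rpow (by norm_num) (by linarith)]
      exact Real.rpow_le_rpow hlY0 hlY hq0.le
    calc C₁ * (T * Real.log (T / N0) ^ q) ≤ C₁ * (T * (5 ^ q * Λ)) :=
          mul_le_mul_of_nonneg_left (mul_le_mul_of_nonneg_left h1 hTp.le) hC₁.le
      _ = _ := by ring
  rw [← hΛ]
  -- the weights
  obtain ⟨w, hw⟩ : ∃ w : ℕ → ℝ, w = fun n : ℕ => if N0 < n then 1 else 0 := ⟨_, rfl⟩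
  have hw0 : ∀ t, WW w N0 t = 0 := by
    intro t
    unfold WW
    refine Finset.sum_eq_zero fun n hn => ?_
    rw [Finset.mem_Icc] at hn
    have : w n = 0 := by
      rw [hw]
      show (if N0 < n then (1:ℝ) else 0) = 0
      rw [if_neg (by omega)]
    rw [this]
    simp
  have hwm : ∀ m : ℕ, N0 ≤ m → ∀ t, WW w m t = AA m t - AA N0 t := by
    intro m hm t
    have h1 := AA_sub (w := w) (M0 := N0) (M1 := m) (fun n h1 _ => by
      rw [hw]
      show (if N0 < n then (1:ℝ) else 0) = 1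
      rw [if_pos h1]) t hm le_rfl
    rw [h1, hw0, sub_zero]
  have hwa : ∀ n, |w n| ≤ 1 := fun n => by
    rw [hw]
    show |if N0 < n then (1:ℝ) else 0| ≤ 1
    split_ifs <;> simp
  obtain ⟨X, hX⟩ : ∃ X : ℕ, X = ⌊16 * T⌋₊ := ⟨_, rfl⟩
  have hX1 : (X:ℝ) ≤ 16 * T := by rw [hX]; exact Nat.floor_le (by linarith)
  have hX2 : 8 * T ≤ X := by
    have := Nat.lt_floor_add_one (16 * T)
    rw [← hX] at this
    linarith
  have hNX : N ≤ X := by
    have : (N:ℝ) ≤ X := by linarith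
    exact_mod_cast this
  have hsT : Real.sqrt T * Real.sqrt T = T := Real.mul_self_sqrt hTp.le
  have hs1 : 10 ^ 4 ≤ Real.sqrt T := by
    rw [show (10:ℝ) ^ 4 = Real.sqrt ((10 ^ 4) ^ 2) by rw [Real.sqrt_sq (by norm_num)]]
    exact Real.sqrt_le_sqrt (by norm_num; linarith)
  have hs2 : Real.sqrt T ^ 2 = T := by rw [sq, hsT]
  have hs3 : Real.sqrt T ≤ T := by nlinarith
  have hs4 : 100 * Real.log T ≤ Real.sqrt T := by
    apply Real.le_sqrt_of_sq_le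
    nlinarith
  have hδ : 2 * Real.sqrt T * Real.log T + 2 ≤ T / 20 := by
    have h1 : 100 * (Real.sqrt T * Real.log T) ≤ T := by
      calc 100 * (Real.sqrt T * Real.log T) = Real.sqrt T * (100 * Real.log T) := by ring
        _ ≤ Real.sqrt T * Real.sqrt T := mul_le_mul_of_nonneg_left hs4 (by linarith)
        _ = T := hsT
    linarith
  have hδ0 : 0 ≤ 2 * Real.sqrt T * Real.log T + 2 := by
    have : 0 ≤ Real.sqrt T * Real.log T := mul_nonneg (by linarith) (by linarith)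
    linarith
  have hm := hmw T (Real.sqrt T) a4 (by rw [hs2]; exact hs3) (by linarith) hs3 N X (hN01.trans hN0N) hNX hX1 (by rw [hs2]; exact hNT)
    w hwa T (2 * T) (by linarith)
  have hcZ : Continuous fun t => ‖zz t - AA N0 t‖ ^ p := normp_cont (zz_cont.sub (AA_cont N0)) hp0.le
  have hcW : ∀ m : ℕ, Continuous fun t => ‖WW w m t‖ ^ p := fun m => normp_cont (WW_cont w m) hp0.le
  have hE : ∫ t in (T - (2 * Real.sqrt T * Real.log T + 2))..(2 * T + (2 * Real.sqrt T * Real.log T + 2)), ‖WW w X t‖ ^ p ≤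
      2 ^ p * (C₁ * 5 ^ q * (T * Λ) + 2 * T) := by
    have h1 : ∫ t in (T - (2 * Real.sqrt T * Real.log T + 2))..(2 * T + (2 * Real.sqrt T * Real.log T + 2)), ‖WW w X t‖ ^ p ≤
        ∫ t in (19 * T / 20)..(41 * T / 20), ‖WW w X t‖ ^ p :=
      int_mono_set (hcW X) (fun t => Real.rpow_nonneg (norm_nonneg _) _) (by linarith) (by linarith) (by linarith)
    have h2 : ∫ t in (19 * T / 20)..(41 * T / 20), ‖WW w X t‖ ^ p ≤ ∫ t in (19 * T / 20)..(41 * T / 20), 2 ^ p * (‖zz t - AA N0 t‖ ^ p + 1) := by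
      refine intervalIntegral.integral_mono_on (by linarith) ((hcW X).intervalIntegrable _ _)
        ((continuous_const.mul (hcZ.add continuous_const)).intervalIntegrable _ _) fun t ht => ?_
      have h3 := zA (T := T) (u := t) (X := X) (by linarith) hX2 hX1 (by linarith [ht.1]) (by linarith [ht.2])
      have h4 : 25 / Real.sqrt T ≤ 1 := by rw [div_le_one (by linarith)]; linarith
      have h5 : ‖WW w X t‖ ≤ ‖zz t - AA N0 t‖ + 1 := by
        rw [hwm X (hN0N.trans hNX) t]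
        have h6 : AA X t - AA N0 t = (zz t - AA N0 t) - (zz t - AA X t) := by ring
        rw [h6]
        refine (norm_sub_le _ _).trans ?_
        linarith
      have h7 := (Real.rpow_le_rpow (norm_nonneg _) h5 hp0.le).trans (add_rpow2 (norm_nonneg _) zero_le_one hp0.le)
      rwa [Real.one_rpow] at h7
    have h8 : ∫ t in (19 * T / 20)..(41 * T / 20), 2 ^ p * (‖zz t - AA N0 t‖ ^ p + 1) =
        2 ^ p * ((∫ t in (19 * T / 20)..(41 * T / 20), ‖zz t - AA N0 t‖ ^ p) + (41 * T / 20 - 19 * T / 20)) := by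
      rw [intervalIntegral.integral_const_mul, intervalIntegral.integral_add (hcZ.intervalIntegrable _ _) (continuous_const.intervalIntegrable _ _),
        intervalIntegral.integral_const, smul_eq_mul, mul_one]
    refine h1.trans (h2.trans (h8.le.trans ?_))
    exact mul_le_mul_of_nonneg_left (by linarith) (by positivity)
  have hN : ∫ t in T..(2 * T), ‖WW w N t‖ ^ p ≤ C₂ * (2 ^ p * (C₁ * 5 ^ q * (T * Λ) + 2 * T) + T) := by
    refine hm.trans (mul_le_mul_of_nonneg_left ?_ hC₂.le)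
    linarith
  have hfin : ∫ t in T..(2 * T), ‖zz t - AA N t‖ ^ p ≤ ∫ t in T..(2 * T), 2 ^ p * (‖zz t - AA N0 t‖ ^ p + ‖WW w N t‖ ^ p) := by
    refine intervalIntegral.integral_mono_on (by linarith) ((normp_cont (zz_cont.sub (AA_cont N)) hp0.le).intervalIntegrable _ _)
      ((continuous_const.mul (hcZ.add (hcW N))).intervalIntegrable _ _) fun t ht => ?_
    have h5 : ‖zz t - AA N t‖ ≤ ‖zz t - AA N0 t‖ + ‖WW w N t‖ := by
      rw [hwm N hN0N t]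
      have h6 : zz t - AA N t = (zz t - AA N0 t) - (AA N t - AA N0 t) := by ring
      rw [h6]
      exact norm_sub_le _ _
    exact (Real.rpow_le_rpow (norm_nonneg _) h5 hp0.le).trans (add_rpow2 (norm_nonneg _) (norm_nonneg _) hp0.le)
  rw [intervalIntegral.integral_const_mul, intervalIntegral.integral_add (hcZ.intervalIntegrable _ _) ((hcW N).intervalIntegrable _ _)] at hfin
  have hZ : ∫ t in T..(2 * T), ‖zz t - AA N0 t‖ ^ p ≤ C₁ * 5 ^ q * (T * Λ) :=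
    (int_mono_set hcZ (fun t => Real.rpow_nonneg (norm_nonneg _) _) (by linarith) (by linarith) (by linarith)).trans hu2
  have hTΛ : T ≤ T * Λ := le_mul_of_one_le_right hTp.le hΛ1
  have h2p : (0:ℝ) < 2 ^ p := by positivity
  refine hfin.trans ?_
  rw [mul_assoc]
  apply mul_le_mul_of_nonneg_left _ h2p.le
  refine (add_le_add hZ hN).trans ?_
  have k1 : 2 ^ p * (C₁ * 5 ^ q * (T * Λ) + 2 * T) ≤ 2 ^ p * (C₁ * 5 ^ q * (T * Λ) + 2 * (T * Λ)) :=
    mul_le_mul_of_nonneg_left (by linarith) h2p.le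
  have k2 : C₂ * (2 ^ p * (C₁ * 5 ^ q * (T * Λ) + 2 * T) + T) ≤ C₂ * (2 ^ p * (C₁ * 5 ^ q * (T * Λ) + 2 * (T * Λ)) + T * Λ) :=
    mul_le_mul_of_nonneg_left (by linarith) hC₂.le
  calc C₁ * 5 ^ q * (T * Λ) + C₂ * (2 ^ p * (C₁ * 5 ^ q * (T * Λ) + 2 * T) + T)
      ≤ C₁ * 5 ^ q * (T * Λ) + C₂ * (2 ^ p * (C₁ * 5 ^ q * (T * Λ) + 2 * (T * Λ)) + T * Λ) := by linarith
    _ = _ := by ring

end Pool.Agent.H470
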