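import Pool.Agent.H470.Ya8

set_option autoImplicit false

/-! Lower bound for the moments of zeta and the comparison with long partial sums. -/

open Complex MeasureTheory Set Filter Topology

namespace Pool.Agent.H470

theorem low {p : ℝ} (hp : 1 < p) : ∃ c : ℝ, 0 < c ∧ ∃ T₀ : ℝ, ∀ T : ℝ, T₀ ≤ T →
    c * (T * Real.log T ^ (p ^ 2 / 4)) ≤ ∫ t in T..(2 * T), ‖zz t‖ ^ p := by
  have hp0 : 0 < p := by linarith
  obtain ⟨q, hq⟩ : ∃ q : ℝ, q = p ^ 2 / 4 := ⟨_, rfl⟩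
  have hq0 : 0 < q := by rw [hq]; positivity
  obtain ⟨C₁, T₁, hC₁, hle⟩ := le_zeta p hp
  obtain ⟨c, hc, hs0⟩ := sums_unif hp0
  obtain ⟨A, hs⟩ := hs0 (c / 10) (by positivity)
  simp only [← hq] at hs ⊢
  obtain ⟨m, hm⟩ : ∃ m : ℝ, m = (A:ℝ) + 1 := ⟨_, rfl⟩
  have hm1 : 1 ≤ m := by rw [hm]; linarith [show (0:ℝ) ≤ A from Nat.cast_nonneg A]
  have hm0 : 0 < m := by linarith
  have hev : ∀ᶠ T : ℝ in atTop, T₁ ≤ T ∧ 2 * m * Real.log 2 ≤ Real.log T ∧ (A:ℝ) + 2 ≤ T ^ (1 / m) ∧ win T ≤ T / 10 ∧ 1 ≤ T := by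
    have h := (isLittleO_log_rpow_rpow_atTop (s := 1 / 2) 2 (by norm_num)).bound (show (0:ℝ) < 1 / 10 by norm_num)
    filter_upwards [h, eventually_ge_atTop T₁, Real.tendsto_log_atTop.eventually_ge_atTop (2 * m * Real.log 2),
      (tendsto_rpow_atTop (show 0 < 1 / m by positivity)).eventually_ge_atTop ((A:ℝ) + 2), eventually_ge_atTop 1] with T h1 h2 h3 h4 h5
    refine ⟨h2, h3, h4, ?_, h5⟩
    have hTp : 0 < T := by linarith
    have e2 : Real.log T ^ (2:ℝ) = Real.log T ^ 2 := Real.rpow_two _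
    rw [e2, Real.norm_of_nonneg (by positivity), Real.norm_of_nonneg (by positivity), ← Real.sqrt_eq_rpow] at h1
    unfold win
    have h6 : Real.sqrt T * Real.sqrt T = T := Real.mul_self_sqrt hTp.le
    have h7 := mul_le_mul_of_nonneg_left h1 (Real.sqrt_nonneg T)
    calc Real.sqrt T * Real.log T ^ 2 ≤ Real.sqrt T * (1 / 10 * Real.sqrt T) := h7
      _ = 1 / 10 * (Real.sqrt T * Real.sqrt T) := by ring
      _ = T / 10 := by rw [h6]; ring
  obtain ⟨T₀, hT₀⟩ := eventually_atTop.1 hev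
  refine ⟨c / 2 * (1 / (2 * m)) ^ q / C₁, by positivity, T₀, ?_⟩
  intro T hT
  obtain ⟨a1, a2, a3, a4, a5⟩ := hT₀ T hT
  have hTp : 0 < T := by linarith
  have hw0 : 0 ≤ win T := by unfold win; positivity
  obtain ⟨N, hN⟩ : ∃ N : ℕ, N = ⌊T ^ (1 / m)⌋₊ := ⟨_, rfl⟩
  have hN1 : (N:ℝ) ≤ T ^ (1 / m) := by rw [hN]; exact Nat.floor_le (by positivity)
  have hN2 : T ^ (1 / m) < N + 1 := by rw [hN]; exact Nat.lt_floor_add_one _
  have hNA : A + 1 ≤ N := by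
    have h1 : (A:ℝ) + 1 < N + 0 := by linarith
    have h2 : ((A + 1 : ℕ) : ℝ) < (N : ℝ) := by push_cast; linarith
    exact_mod_cast h2.le
  have hN0 : (1:ℝ) ≤ N := by exact_mod_cast (by omega : 1 ≤ N)
  have hNpow : (N:ℝ) ^ A ≤ T := by
    calc (N:ℝ) ^ A ≤ (N:ℝ) ^ (A + 1) := pow_le_pow_right₀ hN0 (by omega)
      _ ≤ (T ^ (1 / m)) ^ (A + 1) := pow_le_pow_left₀ (by linarith) hN1 _
      _ = T := by
        rw [← Real.rpow_natCast, ← Real.rpow_mul hTp.le]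
        push_cast
        rw [← hm, one_div_mul_cancel hm0.ne', Real.rpow_one]
  have hNT : (N:ℝ) ≤ T := by
    refine hN1.trans ?_
    calc T ^ (1 / m) ≤ T ^ (1:ℝ) := Real.rpow_le_rpow_of_exponent_le a5 (by rw [div_le_one hm0]; exact hm1)
      _ = T := Real.rpow_one T
  have h1 := hle T a1 (T + win T) (2 * T - win T) (by linarith) (by linarith) (by linarith) N (by omega) hNT
  have e1 : T + win T - win T = T := by ring
  have e2 : 2 * T - win T + win T = 2 * T := by ring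
  rw [e1, e2] at h1
  have hcG : Continuous fun t => ‖AA N t‖ ^ p := normp_cont (AA_cont N) hp0.le
  have hI : (∫ t in (0:ℝ)..(2 * T - win T), ‖AA N t‖ ^ p) = (∫ t in (0:ℝ)..(T + win T), ‖AA N t‖ ^ p) + ∫ t in (T + win T)..(2 * T - win T), ‖AA N t‖ ^ p := by
    rw [intervalIntegral.integral_add_adjacent_intervals (hcG.intervalIntegrable _ _) (hcG.intervalIntegrable _ _)]
  have hb := (abs_le.1 (hs N (by omega) (2 * T - win T) (by linarith))).1
  have ha := (abs_le.1 (hs N (by omega) (T + win T) (by linarith))).2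
  have hlN : Real.log T / (2 * m) ≤ Real.log N := by
    have h2 : T ^ (1 / m) ≤ 2 * N := by linarith
    have h3 := Real.log_le_log (by positivity) h2
    rw [Real.log_rpow hTp, Real.log_mul (by norm_num) (by linarith)] at h3
    have h4 : Real.log 2 ≤ Real.log T / (2 * m) := by
      rw [le_div_iff₀ (by positivity)]; linarith
    have h5 : 1 / m * Real.log T = Real.log T / (2 * m) + Real.log T / (2 * m) := by field_simp; ring
    linarith
  have hlT : 0 < Real.log T := lt_of_lt_of_le (mul_pos (by linarith) (Real.log_pos (by norm_num))) a2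
  have hlN0 : 0 < Real.log N := lt_of_lt_of_le (by positivity) hlN
  have hlNq : 0 < Real.log N ^ q := by positivity
  obtain ⟨Λ, hΛ⟩ : ∃ Λ : ℝ, Λ = Real.log N ^ q := ⟨_, rfl⟩
  rw [← hΛ] at ha hb hlNq
  have hb2 : (c - c / 10) * Λ * (2 * T - win T) ≤ ∫ t in (0:ℝ)..(2 * T - win T), ‖AA N t‖ ^ p := by
    have h2 : c - c / 10 ≤ 1 / (2 * T - win T) * (∫ t in (0:ℝ)..(2 * T - win T), ‖AA N t‖ ^ p) / Λ := by linarith
    rw [le_div_iff₀ hlNq, one_div_mul_eq_div, le_div_iff₀ (by linarith)] at h2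
    exact h2
  have ha2 : ∫ t in (0:ℝ)..(T + win T), ‖AA N t‖ ^ p ≤ (c + c / 10) * Λ * (T + win T) := by
    have h2 : 1 / (T + win T) * (∫ t in (0:ℝ)..(T + win T), ‖AA N t‖ ^ p) / Λ ≤ c + c / 10 := by linarith
    rw [div_le_iff₀ hlNq, one_div_mul_eq_div, div_le_iff₀ (by linarith)] at h2
    exact h2
  have h3 : c / 2 * (T * Λ) ≤ ∫ t in (T + win T)..(2 * T - win T), ‖AA N t‖ ^ p := by
    have h4 : (c - c / 10) * Λ * (19 * T / 10) ≤ (c - c / 10) * Λ * (2 * T - win T) :=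
      mul_le_mul_of_nonneg_left (by linarith) (mul_nonneg (by linarith) hlNq.le)
    have h5 : (c + c / 10) * Λ * (T + win T) ≤ (c + c / 10) * Λ * (11 * T / 10) :=
      mul_le_mul_of_nonneg_left (by linarith) (mul_nonneg (by linarith) hlNq.le)
    have h6 : (c - c / 10) * Λ * (19 * T / 10) - (c + c / 10) * Λ * (11 * T / 10) = c / 2 * (T * Λ) := by ring
    linarith
  have h7 : (1 / (2 * m)) ^ q * Real.log T ^ q ≤ Λ := by
    rw [hΛ, ← Real.mul_rpow (by positivity) hlT.le]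
    refine Real.rpow_le_rpow (by positivity) ?_ hq0.le
    rw [one_div_mul_eq_div]
    exact hlN
  have h8 : c / 2 * (T * Λ) ≤ C₁ * ∫ t in T..(2 * T), ‖zz t‖ ^ p := h3.trans h1
  have h9 : c / 2 * (T * ((1 / (2 * m)) ^ q * Real.log T ^ q)) ≤ c / 2 * (T * Λ) :=
    mul_le_mul_of_nonneg_left (mul_le_mul_of_nonneg_left h7 hTp.le) (by positivity)
  have h10 : c / 2 * (1 / (2 * m)) ^ q / C₁ * (T * Real.log T ^ q) = (c / 2 * (T * ((1 / (2 * m)) ^ q * Real.log T ^ q))) / C₁ := by ring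
  rw [h10, div_le_iff₀ hC₁]
  linarith

theorem cmpz {p : ℝ} (hp : 1 < p) : ∃ C : ℝ, 0 < C ∧ ∃ A : ℕ, 2 ≤ A ∧ ∀ T : ℝ, (A:ℝ) ≤ T → ∀ N : ℕ, 1 ≤ N → (N:ℝ) ≤ T →
    (T / N) ^ A ≤ T →
      (0 < ∫ t in T..(2 * T), ‖zz t‖ ^ p) ∧
      Real.log T ^ (p ^ 2 / 4) * (∫ t in T..(2 * T), ‖zz t - AA N t‖ ^ p) ≤
        C * (Real.log (T / N) + Real.log (Real.log T)) ^ (p ^ 2 / 4) * ∫ t in T..(2 * T), ‖zz t‖ ^ p := by
  have hp0 : 0 < p := by linarith
  obtain ⟨q, hq⟩ : ∃ q : ℝ, q = p ^ 2 / 4 := ⟨_, rfl⟩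
  have hq0 : 0 < q := by rw [hq]; positivity
  obtain ⟨c, hc, T₁, hlow⟩ := low hp
  obtain ⟨C₁, hC₁, A₁, hA₁, hup⟩ := up hp
  obtain ⟨C₂, hC₂, T₂, hup2⟩ := up2 hp
  simp only [← hq] at hlow hup hup2 ⊢
  have hll : Tendsto (fun T : ℝ => Real.log (Real.log T)) atTop atTop := Real.tendsto_log_atTop.comp Real.tendsto_log_atTop
  have hev : ∀ᶠ T : ℝ in atTop, T₁ ≤ T ∧ T₂ ≤ T ∧ 1 ≤ T ∧ 1 ≤ Real.log T ∧ 1 ≤ Real.log (Real.log T) := by
    filter_upwards [eventually_ge_atTop T₁, eventually_ge_atTop T₂, eventually_ge_atTop 1,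
      Real.tendsto_log_atTop.eventually_ge_atTop 1, hll.eventually_ge_atTop 1] with T a1 a2 a3 a4 a5
    exact ⟨a1, a2, a3, a4, a5⟩
  obtain ⟨T₃, hT₃⟩ := eventually_atTop.1 hev
  obtain ⟨A₃, hA₃⟩ := exists_nat_ge T₃
  refine ⟨(C₁ + C₂) / c, by positivity, A₁ + A₃, by omega, ?_⟩
  intro T hTA N hN hNT hYA
  have hT3 : T₃ ≤ T := by
    refine hA₃.trans (le_trans ?_ hTA)
    exact_mod_cast (by omega : A₃ ≤ A₁ + A₃)
  have hT1 : (A₁:ℝ) ≤ T := by
    refine le_trans ?_ hTA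
    exact_mod_cast (by omega : A₁ ≤ A₁ + A₃)
  obtain ⟨a1, a2, a3, a4, a5⟩ := hT₃ T hT3
  have hTp : 0 < T := by linarith
  have hN0 : (0:ℝ) < N := by exact_mod_cast hN
  have hY1 : 1 ≤ T / N := by rwa [le_div_iff₀ hN0, one_mul]
  have hlY : 0 ≤ Real.log (T / N) := Real.log_nonneg hY1
  obtain ⟨Λ, hΛ⟩ : ∃ Λ : ℝ, Λ = (Real.log (T / N) + Real.log (Real.log T)) ^ q := ⟨_, rfl⟩
  have hΛ0 : 0 < Λ := by
    rw [hΛ]
    have : 0 < Real.log (T / N) + Real.log (Real.log T) := by linarith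
    positivity
  have hlo := hlow T a1
  have hlT : 0 < Real.log T := by linarith
  have hlTq : 0 < Real.log T ^ q := by positivity
  have hpos : 0 < ∫ t in T..(2 * T), ‖zz t‖ ^ p := lt_of_lt_of_le (by positivity) hlo
  refine ⟨hpos, ?_⟩
  rw [← hΛ]
  have hmain : ∫ t in T..(2 * T), ‖zz t - AA N t‖ ^ p ≤ (C₁ + C₂) * (T * Λ) := by
    have hTΛ : 0 < T * Λ := by positivity
    rcases le_or_gt ((N:ℝ) * Real.log T ^ 4) T with h | h
    · have h1 := hup T hT1 N hN h ((pow_le_pow_right₀ hY1 (by omega)).trans hYA)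
      have h2 : ∫ t in T..(2 * T), ‖zz t - AA N t‖ ^ p ≤ ∫ t in (19 * T / 20)..(41 * T / 20), ‖zz t - AA N t‖ ^ p :=
        int_mono_set (normp_cont (zz_cont.sub (AA_cont N)) hp0.le) (fun t => Real.rpow_nonneg (norm_nonneg _) _) (by linarith) (by linarith) (by linarith)
      have h3 : Real.log (T / N) ^ q ≤ Λ := by
        rw [hΛ]
        exact Real.rpow_le_rpow hlY (by linarith) hq0.le
      refine h2.trans (h1.trans ?_)
      refine (mul_le_mul_of_nonneg_left (mul_le_mul_of_nonneg_left h3 hTp.le) hC₁.le).trans ?_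
      exact mul_le_mul_of_nonneg_right (by linarith) hTΛ.le
    · have h1 := hup2 T a2 N hNT h
      have h3 : Real.log (Real.log T) ^ q ≤ Λ := by
        rw [hΛ]
        exact Real.rpow_le_rpow (by linarith) (by linarith) hq0.le
      refine h1.trans ?_
      refine (mul_le_mul_of_nonneg_left (mul_le_mul_of_nonneg_left h3 hTp.le) hC₂.le).trans ?_
      exact mul_le_mul_of_nonneg_right (by linarith) hTΛ.le
  calc Real.log T ^ q * (∫ t in T..(2 * T), ‖zz t - AA N t‖ ^ p) ≤ Real.log T ^ q * ((C₁ + C₂) * (T * Λ)) :=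
        mul_le_mul_of_nonneg_left hmain hlTq.le
    _ = (C₁ + C₂) / c * Λ * (c * (T * Real.log T ^ q)) := by field_simp
    _ ≤ (C₁ + C₂) / c * Λ * ∫ t in T..(2 * T), ‖zz t‖ ^ p := mul_le_mul_of_nonneg_left hlo (by positivity)

theorem cmpe {p : ℝ} (hp : 1 < p) {ε : ℝ} (hε : 0 < ε) : ∃ A : ℕ, ∀ T : ℝ, (A:ℝ) ≤ T → ∀ N : ℕ, 1 ≤ N → (N:ℝ) ≤ T →
    (T / N) ^ A ≤ T →
      |(∫ t in T..(2 * T), ‖AA N t‖ ^ p) / (∫ t in T..(2 * T), ‖zz t‖ ^ p) - 1| ≤ ε := by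
  have hp0 : 0 < p := by linarith
  obtain ⟨q, hq⟩ : ∃ q : ℝ, q = p ^ 2 / 4 := ⟨_, rfl⟩
  have hq0 : 0 < q := by rw [hq]; positivity
  obtain ⟨v, hv⟩ : ∃ v : ℝ, v = ep p := ⟨_, rfl⟩
  have hv0 : 0 < v := by rw [hv]; exact ep_pos hp0
  obtain ⟨C, hC, A₁, hA₁, hcmp⟩ := cmpz hp
  simp only [← hq] at hcmp
  obtain ⟨δ, hδ, hcont⟩ := cont_at (q := 1 / v) one_pos hε
  rw [Real.one_rpow] at hcont
  -- the smallness needed
  obtain ⟨κ, hκ⟩ : ∃ κ : ℝ, κ = ((δ / 2) ^ (1 / v) / C) ^ (1 / q) := ⟨_, rfl⟩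
  have hκ0 : 0 < κ := by rw [hκ]; positivity
  have hκq : C * κ ^ q = (δ / 2) ^ (1 / v) := by
    rw [hκ, ← Real.rpow_mul (by positivity), one_div_mul_cancel hq0.ne', Real.rpow_one]
    field_simp
  obtain ⟨A₂, hA₂⟩ := exists_nat_gt (2 / κ)
  have hll : Tendsto (fun T : ℝ => Real.log (Real.log T) / Real.log T) atTop (𝓝 0) :=
    Real.isLittleO_log_id_atTop.tendsto_div_nhds_zero.comp Real.tendsto_log_atTop
  have hev : ∀ᶠ T : ℝ in atTop, Real.log (Real.log T) / Real.log T < κ / 2 ∧ 1 ≤ T ∧ 1 ≤ Real.log T := by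
    filter_upwards [hll.eventually (gt_mem_nhds (show 0 < κ / 2 by positivity)), eventually_ge_atTop 1,
      Real.tendsto_log_atTop.eventually_ge_atTop 1] with T a1 a2 a3
    exact ⟨a1, a2, a3⟩
  obtain ⟨T₃, hT₃⟩ := eventually_atTop.1 hev
  obtain ⟨A₃, hA₃⟩ := exists_nat_ge T₃
  refine ⟨A₁ + A₂ + A₃, ?_⟩
  intro T hTA N hN hNT hYA
  have hT3 : T₃ ≤ T := by
    refine hA₃.trans (le_trans ?_ hTA)
    exact_mod_cast (by omega : A₃ ≤ A₁ + A₂ + A₃)
  have hT1 : (A₁:ℝ) ≤ T := by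
    refine le_trans ?_ hTA
    exact_mod_cast (by omega : A₁ ≤ A₁ + A₂ + A₃)
  obtain ⟨a1, a2, a3⟩ := hT₃ T hT3
  have hTp : 0 < T := by linarith
  have hN0 : (0:ℝ) < N := by exact_mod_cast hN
  have hY1 : 1 ≤ T / N := by rwa [le_div_iff₀ hN0, one_mul]
  have hlY : 0 ≤ Real.log (T / N) := Real.log_nonneg hY1
  have hlT : 0 < Real.log T := by linarith
  have hll0 : 0 ≤ Real.log (Real.log T) := Real.log_nonneg a3
  obtain ⟨hpos, hc1⟩ := hcmp T hT1 N hN hNT ((pow_le_pow_right₀ hY1 (by omega)).trans hYA)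
  have hlY2 : Real.log (T / N) ≤ κ / 2 * Real.log T := by
    have h1 : (T / N) ^ A₂ ≤ T := (pow_le_pow_right₀ hY1 (by omega)).trans hYA
    have h2 := Real.log_le_log (by positivity) h1
    rw [Real.log_pow] at h2
    have h3 : 0 < (A₂:ℝ) := lt_trans (by positivity) hA₂
    have h4 : 1 ≤ κ / 2 * A₂ := by
      rw [div_lt_iff₀ hκ0] at hA₂
      linarith
    calc Real.log (T / N) ≤ (κ / 2 * A₂) * Real.log (T / N) := le_mul_of_one_le_left hlY h4
      _ = κ / 2 * (A₂ * Real.log (T / N)) := by ring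
      _ ≤ κ / 2 * Real.log T := mul_le_mul_of_nonneg_left h2 (by positivity)
  have hll2 : Real.log (Real.log T) ≤ κ / 2 * Real.log T := by
    rw [div_lt_iff₀ hlT] at a1
    exact a1.le
  have hsum : Real.log (T / N) + Real.log (Real.log T) ≤ κ * Real.log T := by linarith
  have hΛ : (Real.log (T / N) + Real.log (Real.log T)) ^ q ≤ κ ^ q * Real.log T ^ q := by
    rw [← Real.mul_rpow hκ0.le hlT.le]
    exact Real.rpow_le_rpow (by linarith) hsum hq0.le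
  have hlTq : 0 < Real.log T ^ q := by positivity
  have hab : T ≤ 2 * T := by linarith
  obtain ⟨Z, hZ⟩ : ∃ Z : ℝ, Z = ∫ t in T..(2 * T), ‖zz t‖ ^ p := ⟨_, rfl⟩
  rw [← hZ] at hpos hc1 ⊢
  have h1 : ∫ t in T..(2 * T), ‖zz t - AA N t‖ ^ p ≤ (δ / 2) ^ (1 / v) * Z := by
    have h2 : Real.log T ^ q * (∫ t in T..(2 * T), ‖zz t - AA N t‖ ^ p) ≤ Real.log T ^ q * ((δ / 2) ^ (1 / v) * Z) := by
      refine hc1.trans ?_
      rw [← hκq]
      calc C * (Real.log (T / N) + Real.log (Real.log T)) ^ q * Z ≤ C * (κ ^ q * Real.log T ^ q) * Z :=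
            mul_le_mul_of_nonneg_right (mul_le_mul_of_nonneg_left hΛ hC.le) hpos.le
        _ = _ := by ring
    exact le_of_mul_le_mul_left h2 hlTq
  have hF : Continuous fun t => ‖AA N t‖ := (AA_cont N).norm
  have hG : Continuous fun t => ‖zz t‖ := zz_cont.norm
  have hH : Continuous fun t => ‖zz t - AA N t‖ := (zz_cont.sub (AA_cont N)).norm
  have hcm := LN_cmp hp0 hab hF hG hH (fun t => norm_nonneg _) (fun t => norm_nonneg _) (fun t => by
    rw [norm_sub_rev (zz t)]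
    exact abs_norm_sub_norm_le _ _)
  obtain ⟨s, hs⟩ : ∃ s : ℝ, s = Z ^ v := ⟨_, rfl⟩
  have hs0 : 0 < s := by rw [hs]; positivity
  have hGs : LN p T (2 * T) (fun t => ‖zz t‖) = s := by
    rw [hs, hZ, hv]
    rfl
  have hHs : LN p T (2 * T) (fun t => ‖zz t - AA N t‖) ≤ δ / 2 * s := by
    have h3 := Real.rpow_le_rpow (LN_int_nonneg hab fun t => norm_nonneg _) h1 hv0.le
    rw [Real.mul_rpow (by positivity) hpos.le, ← Real.rpow_mul (by positivity), one_div_mul_cancel hv0.ne', Real.rpow_one, ← hs] at h3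
    unfold LN
    rw [← hv]
    exact h3
  rw [hGs] at hcm
  obtain ⟨x, hx⟩ : ∃ x : ℝ, x = LN p T (2 * T) (fun t => ‖AA N t‖) / s := ⟨_, rfl⟩
  have hxd : |x - 1| < δ := by
    have e1 : x - 1 = (LN p T (2 * T) (fun t => ‖AA N t‖) - s) / s := by rw [hx]; field_simp
    rw [e1, abs_div, abs_of_pos hs0, div_lt_iff₀ hs0]
    have : 0 < δ * s := by positivity
    linarith
  have hfin := hcont x hxd
  have hxp : x ^ (1 / v) = (∫ t in T..(2 * T), ‖AA N t‖ ^ p) / Z := by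
    rw [hx, Real.div_rpow (LN_nonneg hab fun t => norm_nonneg _) hs0.le, hv, LN_rpow hp0 hab fun t => norm_nonneg _, hs, hv,
      ← Real.rpow_mul hpos.le, mul_one_div_cancel (ep_pos hp0).ne', Real.rpow_one]
  rw [hxp] at hfin
  exact hfin.le

end Pool.Agent.H470
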