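import Mathlib

set_option autoImplicit false

/-! A sampling formula for Dirichlet polynomials, with rapidly decreasing coefficients. -/

open Complex MeasureTheory Set Filter Topology
open scoped SchwartzMap FourierTransform ContDiff Real

namespace Pool.Agent.H470

/-- a bump function: one on `[-1/4, 1/4]`, zero outside of `(-3/8, 3/8)` -/
noncomputable def bp : ContDiffBump (0 : ℝ) := ⟨1 / 4, 3 / 8, by norm_num, by norm_num⟩

noncomputable def bC (v : ℝ) : ℂ := ((bp v : ℝ) : ℂ)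

lemma bC_smooth : ContDiff ℝ ∞ bC := Complex.ofRealCLM.contDiff.comp bp.contDiff

lemma bC_supp : HasCompactSupport bC := bp.hasCompactSupport.comp_left (g := fun x : ℝ => (x : ℂ)) Complex.ofReal_zero

noncomputable def bS : 𝓢(ℝ, ℂ) := bC_supp.toSchwartzMap bC_smooth

lemma bS_apply (v : ℝ) : bS v = bC v := rfl

/-- the modulated bump function -/
noncomputable def mC (u v : ℝ) : ℂ := bC v * cexp (((-(2 * π * u * v) : ℝ) : ℂ) * I)

lemma mC_smooth (u : ℝ) : ContDiff ℝ ∞ (mC u) := by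
  unfold mC
  refine bC_smooth.mul ?_
  refine Complex.contDiff_exp.comp (ContDiff.mul ?_ contDiff_const)
  exact Complex.ofRealCLM.contDiff.comp (contDiff_const.mul contDiff_id).neg

lemma mC_supp (u : ℝ) : HasCompactSupport (mC u) := bC_supp.mul_right

noncomputable def mS (u : ℝ) : 𝓢(ℝ, ℂ) := (mC_supp u).toSchwartzMap (mC_smooth u)

lemma mS_apply (u v : ℝ) : mS u v = mC u v := rfl

noncomputable def qS : 𝓢(ℝ, ℂ) := 𝓕 bS

/-- the Fourier transform of the bump function -/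
noncomputable def qq (y : ℝ) : ℂ := qS y

lemma four_mS (u y : ℝ) : 𝓕 (mS u) y = qq (y + u) := by
  unfold qq qS
  rw [SchwartzMap.fourier_coe, SchwartzMap.fourier_coe, Real.fourier_real_eq_integral_exp_smul, Real.fourier_real_eq_integral_exp_smul]
  congr 1
  ext v
  rw [mS_apply, bS_apply, smul_eq_mul, smul_eq_mul]
  unfold mC
  rw [mul_left_comm, ← mul_assoc, mul_comm (bC v), mul_assoc, mul_comm (bC v), ← mul_assoc, ← Complex.exp_add]
  congr 2
  push_cast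
  ring

lemma bC_one {v : ℝ} (h : |v| ≤ 1 / 4) : bC v = 1 := by
  unfold bC
  rw [bp.one_of_mem_closedBall, Complex.ofReal_one]
  rw [Metric.mem_closedBall, Real.dist_eq, sub_zero]
  exact h

lemma bC_zero {v : ℝ} (h : 3 / 8 ≤ |v|) : bC v = 0 := by
  unfold bC
  rw [bp.zero_of_le_dist, Complex.ofReal_zero]
  rw [Real.dist_eq, sub_zero]
  exact h

lemma sum_four (f : 𝓢(ℝ, ℂ)) : Summable fun n : ℤ => ‖f (n : ℝ)‖ := by
  have hO : (f : ℝ → ℂ) =O[cocompact ℝ] (fun x : ℝ => |x| ^ (-2 : ℝ)) := f.isBigO_cocompact_rpow (-2)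
  exact (summable_of_isBigO (Real.summable_abs_int_rpow one_lt_two) (hO.comp_tendsto Int.tendsto_coe_cofinite)).norm

lemma samp0 {u v : ℝ} (h0 : 0 ≤ v) (h1 : v ≤ 1 / 4) :
    HasSum (fun n : ℤ => qq (n + u) * cexp (((2 * π * n * v : ℝ) : ℂ) * I)) (cexp (((-(2 * π * u * v) : ℝ) : ℂ) * I)) := by
  have hP := SchwartzMap.tsum_eq_tsum_fourier (mS u) v
  have h2 : ∑' n : ℤ, mS u (v + n) = cexp (((-(2 * π * u * v) : ℝ) : ℂ) * I) := by
    rw [tsum_eq_single (0 : ℤ)]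
    · rw [Int.cast_zero, add_zero, mS_apply]
      unfold mC
      rw [bC_one (by rw [abs_of_nonneg h0]; exact h1), one_mul]
    · intro n hn
      rw [mS_apply]
      unfold mC
      rw [bC_zero, zero_mul]
      rcases lt_or_gt_of_ne hn with h | h
      · have : (n : ℝ) ≤ -1 := by exact_mod_cast (by omega : n ≤ -1)
        rw [abs_of_nonpos (by linarith)]
        linarith
      · have : (1 : ℝ) ≤ n := by exact_mod_cast (by omega : 1 ≤ n)
        rw [abs_of_nonneg (by linarith)]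
        linarith
  have h3 : ∀ n : ℤ, 𝓕 (mS u) n * fourier n (v : UnitAddCircle) = qq (n + u) * cexp (((2 * π * n * v : ℝ) : ℂ) * I) := by
    intro n
    rw [four_mS, fourier_coe_apply]
    congr 2
    push_cast
    ring
  rw [h2] at hP
  simp_rw [h3] at hP
  rw [hP]
  apply Summable.hasSum
  have hs : Summable fun n : ℤ => ‖𝓕 (mS u) (n : ℝ)‖ := sum_four (𝓕 (mS u))
  refine Summable.of_norm ?_
  refine hs.congr fun n => ?_
  rw [norm_mul, four_mS, Complex.norm_exp_ofReal_mul_I, mul_one]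

/-- the coefficients of the sampling formula -/
noncomputable def cj (u : ℝ) (n : ℤ) : ℂ := qq (n + u) - qq n

lemma samp1 {u v : ℝ} (h0 : 0 ≤ v) (h1 : v ≤ 1 / 4) :
    HasSum (fun n : ℤ => cj u n * cexp (((2 * π * n * v : ℝ) : ℂ) * I)) (cexp (((-(2 * π * u * v) : ℝ) : ℂ) * I) - 1) := by
  have h2 := (samp0 (u := u) h0 h1).sub (samp0 (u := 0) h0 h1)
  have e1 : cexp (((-(2 * π * 0 * v) : ℝ) : ℂ) * I) = 1 := by simp
  rw [e1] at h2
  refine h2.congr_fun ?_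
  intro n
  unfold cj
  rw [add_zero, sub_mul]

/-- decay of the coefficients -/
lemma cj_bd (m : ℕ) : ∃ C : ℝ, 0 < C ∧ ∀ u : ℝ, |u| ≤ 1 → ∀ n : ℤ, ‖cj u n‖ * (1 + |(n : ℝ)|) ^ m ≤ C * |u| := by
  obtain ⟨C0, h0, H0⟩ := (SchwartzMap.derivCLM ℝ ℂ qS).decay 0 0
  obtain ⟨Cm, hm, Hm⟩ := (SchwartzMap.derivCLM ℝ ℂ qS).decay m 0
  have hd : ∀ y : ℝ, (1 + |y|) ^ m * ‖deriv qq y‖ ≤ 2 ^ m * (C0 + Cm) := by
    intro y
    have a0 := H0 y
    have am := Hm y
    rw [norm_iteratedFDeriv_zero, SchwartzMap.derivCLM_apply, Real.norm_eq_abs] at a0 am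
    rw [pow_zero, one_mul] at a0
    change ‖deriv qq y‖ ≤ C0 at a0
    change |y| ^ m * ‖deriv qq y‖ ≤ Cm at am
    have h1 : (1 + |y|) ^ m ≤ 2 ^ m * (1 + |y| ^ m) := by
      rcases le_total |y| 1 with h | h
      · calc (1 + |y|) ^ m ≤ 2 ^ m := pow_le_pow_left₀ (by positivity) (by linarith) m
          _ ≤ 2 ^ m * (1 + |y| ^ m) := le_mul_of_one_le_right (by positivity) (by linarith [pow_nonneg (abs_nonneg y) m])
      · calc (1 + |y|) ^ m ≤ (2 * |y|) ^ m := pow_le_pow_left₀ (by positivity) (by linarith) m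
          _ = 2 ^ m * |y| ^ m := mul_pow _ _ _
          _ ≤ 2 ^ m * (1 + |y| ^ m) := mul_le_mul_of_nonneg_left (by linarith) (by positivity)
    calc (1 + |y|) ^ m * ‖deriv qq y‖ ≤ 2 ^ m * (1 + |y| ^ m) * ‖deriv qq y‖ := mul_le_mul_of_nonneg_right h1 (norm_nonneg _)
      _ = 2 ^ m * (‖deriv qq y‖ + |y| ^ m * ‖deriv qq y‖) := by ring
      _ ≤ 2 ^ m * (C0 + Cm) := mul_le_mul_of_nonneg_left (by linarith) (by positivity)
  refine ⟨2 ^ m * (2 ^ m * (C0 + Cm)), by positivity, ?_⟩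
  intro u hu n
  have hdiff : ∀ y ∈ Icc ((n : ℝ) - 1) (n + 1), DifferentiableAt ℝ qq y := fun y _ => qS.differentiableAt
  have hb : ∀ y ∈ Icc ((n : ℝ) - 1) (n + 1), ‖deriv qq y‖ ≤ 2 ^ m * (2 ^ m * (C0 + Cm)) / (1 + |(n : ℝ)|) ^ m := by
    intro y hy
    rw [le_div_iff₀ (by positivity)]
    have h1 : 1 + |(n : ℝ)| ≤ 2 * (1 + |y|) := by
      have : |(n : ℝ)| ≤ |y| + 1 := by
        have := abs_sub_abs_le_abs_sub (n : ℝ) y
        have h3 : |(n : ℝ) - y| ≤ 1 := abs_le.2 ⟨by linarith [hy.2], by linarith [hy.1]⟩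
        linarith
      have := abs_nonneg y
      linarith
    calc ‖deriv qq y‖ * (1 + |(n : ℝ)|) ^ m ≤ ‖deriv qq y‖ * (2 * (1 + |y|)) ^ m :=
          mul_le_mul_of_nonneg_left (pow_le_pow_left₀ (by positivity) h1 m) (norm_nonneg _)
      _ = 2 ^ m * ((1 + |y|) ^ m * ‖deriv qq y‖) := by rw [mul_pow]; ring
      _ ≤ 2 ^ m * (2 ^ m * (C0 + Cm)) := mul_le_mul_of_nonneg_left (hd y) (by positivity)
  obtain ⟨hu1, hu2⟩ := abs_le.1 hu
  have h2 := (convex_Icc ((n : ℝ) - 1) (n + 1)).norm_image_sub_le_of_norm_deriv_le hdiff hb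
    (x := (n : ℝ)) (y := n + u) ⟨by linarith, by linarith⟩ ⟨by linarith, by linarith⟩
  have h3 : ‖cj u n‖ ≤ 2 ^ m * (2 ^ m * (C0 + Cm)) / (1 + |(n : ℝ)|) ^ m * |u| := by
    unfold cj
    refine h2.trans_eq ?_
    rw [add_sub_cancel_left, Real.norm_eq_abs]
  calc ‖cj u n‖ * (1 + |(n : ℝ)|) ^ m ≤ 2 ^ m * (2 ^ m * (C0 + Cm)) / (1 + |(n : ℝ)|) ^ m * |u| * (1 + |(n : ℝ)|) ^ m :=
        mul_le_mul_of_nonneg_right h3 (by positivity)
    _ = 2 ^ m * (2 ^ m * (C0 + Cm)) * |u| := by field_simp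

end Pool.Agent.H470
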