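import Pool.Agent.H470.Ya12
import Pool.Agent.H470.Za1

set_option autoImplicit false

/-! Continuity in the mean of partial sums of zeta, all orders. -/

open Complex MeasureTheory Set Filter Topology

namespace Pool.Agent.H470

lemma AA_samp {M : ℕ} (hM : 3 ≤ M) (x t : ℝ) :
    HasSum (fun n : ℤ => cj (x * Real.log M) n * AA M (t - n / Real.log M)) (AA M (t + x) - AA M t) := by
  have hL : 1 ≤ Real.log M := log_N hM
  have hL0 : 0 < Real.log M := by linarith
  have h : ∀ k ∈ Finset.Icc 1 M, HasSum (fun n : ℤ => cj (x * Real.log M) n * (k : ℂ) ^ (-(1 / 2 + I * ((t - n / Real.log M : ℝ) : ℂ))))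
      ((k : ℂ) ^ (-(1 / 2 + I * ((t + x : ℝ) : ℂ))) - (k : ℂ) ^ (-(1 / 2 + I * (t : ℂ)))) := by
    intro k hk
    rw [Finset.mem_Icc] at hk
    have hk0 : (k : ℂ) ≠ 0 := by exact_mod_cast (by omega : k ≠ 0)
    have hkM : Real.log k ≤ Real.log M := Real.log_le_log (by exact_mod_cast (by omega : 0 < k)) (by exact_mod_cast hk.2)
    have hk1 : 0 ≤ Real.log k := Real.log_natCast_nonneg k
    have hv1 : Real.log k / (2 * Real.pi * Real.log M) ≤ 1 / 4 := by
      rw [div_le_iff₀ (by positivity)]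
      have := Real.pi_gt_three
      nlinarith
    have h1 := (samp1 (u := x * Real.log M) (v := Real.log k / (2 * Real.pi * Real.log M)) (by positivity) hv1).mul_left ((k : ℂ) ^ (-(1 / 2 + I * (t : ℂ))))
    have hlc : Complex.log (k : ℂ) = ((Real.log k : ℝ) : ℂ) := by
      rw [Complex.natCast_log]
    have e2 : (k : ℂ) ^ (-(1 / 2 + I * (t : ℂ))) * (cexp (((-(2 * Real.pi * (x * Real.log M) * (Real.log k / (2 * Real.pi * Real.log M))) : ℝ) : ℂ) * I) - 1) =
        (k : ℂ) ^ (-(1 / 2 + I * ((t + x : ℝ) : ℂ))) - (k : ℂ) ^ (-(1 / 2 + I * (t : ℂ))) := by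
      rw [mul_sub, mul_one, Complex.cpow_def_of_ne_zero hk0, Complex.cpow_def_of_ne_zero hk0, ← Complex.exp_add, hlc]
      congr 2
      have : 2 * Real.pi * (x * Real.log M) * (Real.log k / (2 * Real.pi * Real.log M)) = x * Real.log k := by
        field_simp
      rw [this]
      push_cast
      ring
    rw [e2] at h1
    refine h1.congr_fun ?_
    intro n
    rw [mul_left_comm]
    congr 1
    rw [Complex.cpow_def_of_ne_zero hk0, Complex.cpow_def_of_ne_zero hk0, ← Complex.exp_add, hlc]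
    congr 1
    have : 2 * Real.pi * n * (Real.log k / (2 * Real.pi * Real.log M)) = n / Real.log M * Real.log k := by
      field_simp
    rw [this]
    push_cast
    ring
  have h2 := hasSum_sum h
  unfold AA
  rw [← Finset.sum_sub_distrib]
  refine h2.congr_fun ?_
  intro n
  rw [Finset.mul_sum]

/-- the weights -/
noncomputable def gw (n : ℤ) : ℝ := ((1 + |(n : ℝ)|) ^ 2)⁻¹

lemma gw_pos (n : ℤ) : 0 < gw n := by unfold gw; positivity

lemma gw_sum : Summable gw := by
  have h1 : Summable (fun n : ℤ => 1 / (n : ℝ) ^ 2) := Real.summable_one_div_int_pow.mpr one_lt_two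
  have h2 : Summable (fun n : ℤ => if n = 0 then (1 : ℝ) else 0) := (hasSum_ite_eq 0 1).summable
  refine Summable.of_nonneg_of_le (fun n => (gw_pos n).le) (fun n => ?_) (h1.add h2)
  unfold gw
  by_cases hn : n = 0
  · subst hn
    simp
  · have hn' : (0 : ℝ) < |(n : ℝ)| := abs_pos.2 (by exact_mod_cast hn)
    rw [if_neg hn, add_zero, one_div, ← sq_abs (n : ℝ)]
    exact inv_anti₀ (by positivity) (pow_le_pow_left₀ (by positivity) (by linarith) 2)

theorem shift_bd {p : ℝ} (hp : 0 < p) : ∃ C : ℝ, 0 < C ∧ ∀ M : ℕ, 3 ≤ M → ∀ T : ℝ, (M : ℝ) ≤ T → ∀ x : ℝ, |x| * Real.log M ≤ 1 →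
    ∫ t in T..(2 * T), ‖AA M (t + x) - AA M t‖ ^ p ≤ C * (|x| * Real.log M) ^ p * ((∫ t in (0:ℝ)..(3 * T), ‖AA M t‖ ^ p) + T) := by
  obtain ⟨s, hs⟩ := exists_nat_ge ((2 + p) / p)
  rw [div_le_iff₀ hp] at hs
  obtain ⟨C1, hC1, hcj⟩ := cj_bd (s + 2)
  set S := ∑' n : ℤ, gw n with hS
  have hS0 : 0 < S := gw_sum.tsum_pos (fun n => (gw_pos n).le) 0 (gw_pos 0)
  refine ⟨(C1 * S) ^ p * (S * 2 ^ p + S), by positivity, ?_⟩
  intro M hM T hMT x hx
  have hL : 1 ≤ Real.log M := log_N hM
  have hL0 : 0 < Real.log M := by linarith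
  have hM3 : (3 : ℝ) ≤ M := by exact_mod_cast hM
  have hT : 3 ≤ T := by linarith
  set u := x * Real.log M with hu
  have hua : |u| = |x| * Real.log M := by rw [hu, abs_mul, abs_of_pos hL0]
  have hu1 : |u| ≤ 1 := by rw [hua]; exact hx
  -- the weights
  set w : ℤ → ℝ := fun n => (1 + |(n : ℝ)|) ^ (-(s * p) : ℝ) with hw
  have hr : ∀ n : ℤ, (1 : ℝ) ≤ 1 + |(n : ℝ)| := fun n => by linarith [abs_nonneg (n : ℝ)]
  have hw0 : ∀ n, 0 < w n := fun n => Real.rpow_pos_of_pos (by linarith [hr n]) _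
  have hwg : ∀ n, w n ≤ gw n * (1 + |(n : ℝ)|) ^ (-p) := by
    intro n
    have h1 : gw n * (1 + |(n : ℝ)|) ^ (-p) = (1 + |(n : ℝ)|) ^ (-(2 + p)) := by
      unfold gw
      rw [neg_add, Real.rpow_add (by linarith [hr n]), Real.rpow_neg (by linarith [hr n]) 2]
      norm_num
    rw [h1]
    exact Real.rpow_le_rpow_of_exponent_le (hr n) (by linarith)
  have hwg2 : ∀ n, w n ≤ gw n := fun n => (hwg n).trans (by
    have : (1 + |(n : ℝ)|) ^ (-p) ≤ 1 := Real.rpow_le_one_of_one_le_of_nonpos (hr n) (by linarith)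
    calc gw n * (1 + |(n : ℝ)|) ^ (-p) ≤ gw n * 1 := mul_le_mul_of_nonneg_left this (gw_pos n).le
      _ = gw n := mul_one _)
  set B := (2 * Real.sqrt M) ^ p with hB
  have hB0 : 0 ≤ B := Real.rpow_nonneg (by positivity) _
  have hAB : ∀ t, ‖AA M t‖ ^ p ≤ B := fun t => Real.rpow_le_rpow (norm_nonneg _) (AA_bd M t) hp.le
  have hcont : ∀ n : ℤ, Continuous fun t : ℝ => w n * ‖AA M (t - n / Real.log M)‖ ^ p := fun n =>
    continuous_const.mul ((normp_cont (AA_cont M) hp.le).comp (continuous_id.sub continuous_const))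
  have hbd : ∀ (n : ℤ) (t : ℝ), ‖w n * ‖AA M (t - n / Real.log M)‖ ^ p‖ ≤ gw n * B := by
    intro n t
    rw [Real.norm_of_nonneg (mul_nonneg (hw0 n).le (Real.rpow_nonneg (norm_nonneg _) _))]
    exact mul_le_mul (hwg2 n) (hAB _) (Real.rpow_nonneg (norm_nonneg _) _) (gw_pos n).le
  have hgB : Summable fun n => gw n * B := gw_sum.mul_right B
  set W : ℝ → ℝ := fun t => ∑' n : ℤ, w n * ‖AA M (t - n / Real.log M)‖ ^ p with hW
  have hWs : ∀ t, Summable fun n : ℤ => w n * ‖AA M (t - n / Real.log M)‖ ^ p := fun t => Summable.of_norm_bounded hgB fun n => hbd n t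
  have hWc : Continuous W := continuous_tsum hcont hgB hbd
  have hW0 : ∀ t, 0 ≤ W t := fun t => tsum_nonneg fun n => mul_nonneg (hw0 n).le (Real.rpow_nonneg (norm_nonneg _) _)
  -- pointwise bound
  have hpt : ∀ t, ‖AA M (t + x) - AA M t‖ ^ p ≤ (C1 * |u| * S) ^ p * W t := by
    intro t
    have hsm := AA_samp hM x t
    have h1 : ∀ n : ℤ, ‖cj u n * AA M (t - n / Real.log M)‖ ≤ C1 * |u| * (W t) ^ (1 / p) * gw n := by
      intro n
      have a1 := hcj u hu1 n
      have a2 : w n * ‖AA M (t - n / Real.log M)‖ ^ p ≤ W t :=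
        (hWs t).le_tsum n fun j _ => mul_nonneg (hw0 j).le (Real.rpow_nonneg (norm_nonneg _) _)
      have hrp : (0 : ℝ) < 1 + |(n : ℝ)| := by linarith [hr n]
      have a3 : ((1 + |(n : ℝ)|) ^ s)⁻¹ * ‖AA M (t - n / Real.log M)‖ ≤ (W t) ^ (1 / p) := by
        have e1 : ((1 + |(n : ℝ)|) ^ s)⁻¹ * ‖AA M (t - n / Real.log M)‖ = (w n * ‖AA M (t - n / Real.log M)‖ ^ p) ^ (1 / p) := by
          rw [Real.mul_rpow (hw0 n).le (Real.rpow_nonneg (norm_nonneg _) _), ← Real.rpow_mul (norm_nonneg _),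
            mul_one_div_cancel hp.ne', Real.rpow_one, hw]
          show _ = ((1 + |(n : ℝ)|) ^ (-(s * p) : ℝ)) ^ (1 / p) * _
          rw [← Real.rpow_mul hrp.le]
          have : -((s : ℝ) * p) * (1 / p) = -(s : ℝ) := by field_simp
          rw [this, Real.rpow_neg hrp.le, Real.rpow_natCast]
        rw [e1]
        exact Real.rpow_le_rpow (mul_nonneg (hw0 n).le (Real.rpow_nonneg (norm_nonneg _) _)) a2 (by positivity)
      rw [norm_mul]
      have a4 : ‖cj u n‖ ≤ C1 * |u| * (gw n * ((1 + |(n : ℝ)|) ^ s)⁻¹) := by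
        unfold gw
        rw [← mul_inv, ← pow_add, ← div_eq_mul_inv, le_div_iff₀ (by positivity), add_comm 2 s]
        exact a1
      calc ‖cj u n‖ * ‖AA M (t - n / Real.log M)‖ ≤ C1 * |u| * (gw n * ((1 + |(n : ℝ)|) ^ s)⁻¹) * ‖AA M (t - n / Real.log M)‖ :=
            mul_le_mul_of_nonneg_right a4 (norm_nonneg _)
        _ = C1 * |u| * gw n * (((1 + |(n : ℝ)|) ^ s)⁻¹ * ‖AA M (t - n / Real.log M)‖) := by ring
        _ ≤ C1 * |u| * gw n * (W t) ^ (1 / p) := mul_le_mul_of_nonneg_left a3 (mul_nonneg (mul_nonneg hC1.le (abs_nonneg _)) (gw_pos n).le)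
        _ = C1 * |u| * (W t) ^ (1 / p) * gw n := by ring
    have h2 : ‖AA M (t + x) - AA M t‖ ≤ C1 * |u| * (W t) ^ (1 / p) * S := by
      rw [← hsm.tsum_eq]
      have hg : Summable fun n : ℤ => C1 * |u| * (W t) ^ (1 / p) * gw n := gw_sum.mul_left _
      have h3 : Summable fun n : ℤ => ‖cj u n * AA M (t - n / Real.log M)‖ := Summable.of_nonneg_of_le (fun n => norm_nonneg _) h1 hg
      refine (norm_tsum_le_tsum_norm h3).trans ?_
      rw [hS, ← tsum_mul_left]
      exact h3.tsum_le_tsum h1 hg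
    have h3 : C1 * |u| * (W t) ^ (1 / p) * S = C1 * |u| * S * (W t) ^ (1 / p) := by ring
    rw [h3] at h2
    refine (Real.rpow_le_rpow (norm_nonneg _) h2 hp.le).trans_eq ?_
    rw [Real.mul_rpow (mul_nonneg (mul_nonneg hC1.le (abs_nonneg _)) hS0.le) (Real.rpow_nonneg (hW0 t) _), ← Real.rpow_mul (hW0 t), one_div_mul_cancel hp.ne', Real.rpow_one]
  -- the integral of W
  set X := ∫ t in (0:ℝ)..(3 * T), ‖AA M t‖ ^ p with hX
  have hX0 : 0 ≤ X := intervalIntegral.integral_nonneg (by linarith) fun t _ => Real.rpow_nonneg (norm_nonneg _) _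
  have hterm : ∀ n : ℤ, ∫ t in T..(2 * T), w n * ‖AA M (t - n / Real.log M)‖ ^ p ≤ gw n * (X + 2 ^ p * T) := by
    intro n
    rw [intervalIntegral.integral_const_mul]
    rcases le_or_gt |(n : ℝ) / Real.log M| T with h | h
    · have h1 : ∫ t in T..(2 * T), ‖AA M (t - n / Real.log M)‖ ^ p ≤ X := by
        rw [intervalIntegral.integral_comp_sub_right (fun t => ‖AA M t‖ ^ p)]
        obtain ⟨h2, h3⟩ := abs_le.1 h
        exact int_mono_set (normp_cont (AA_cont M) hp.le) (fun t => Real.rpow_nonneg (norm_nonneg _) _) (by linarith) (by linarith) (by linarith)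
      calc w n * ∫ t in T..(2 * T), ‖AA M (t - n / Real.log M)‖ ^ p ≤ gw n * X :=
            mul_le_mul (hwg2 n) h1 (intervalIntegral.integral_nonneg (by linarith) fun t _ => Real.rpow_nonneg (norm_nonneg _) _) (gw_pos n).le
        _ ≤ gw n * (X + 2 ^ p * T) := mul_le_mul_of_nonneg_left (by linarith [show (0:ℝ) ≤ 2 ^ p * T by positivity]) (gw_pos n).le
    · have h1 : ∫ t in T..(2 * T), ‖AA M (t - n / Real.log M)‖ ^ p ≤ (2 * T) ^ p * T := by
        have h2 : ∫ t in T..(2 * T), ‖AA M (t - n / Real.log M)‖ ^ p ≤ ∫ t in T..(2 * T), (2 * T) ^ p := by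
          refine intervalIntegral.integral_mono_on (by linarith)
            (((normp_cont (AA_cont M) hp.le).comp (continuous_id.sub continuous_const)).intervalIntegrable _ _) intervalIntegrable_const fun t _ => ?_
          refine (hAB _).trans (Real.rpow_le_rpow (by positivity) ?_ hp.le)
          have : Real.sqrt M ≤ T := by
            rw [Real.sqrt_le_left (by linarith)]
            nlinarith
          linarith
        rw [intervalIntegral.integral_const, smul_eq_mul] at h2
        refine h2.trans_eq (by ring)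
      have h2 : (1 + |(n : ℝ)|) ^ (-p) ≤ T ^ (-p) := by
        refine Real.rpow_le_rpow_of_nonpos (by linarith) ?_ (by linarith)
        rw [abs_div, abs_of_pos hL0, lt_div_iff₀ hL0] at h
        nlinarith
      calc w n * ∫ t in T..(2 * T), ‖AA M (t - n / Real.log M)‖ ^ p ≤ (gw n * T ^ (-p)) * ((2 * T) ^ p * T) :=
            mul_le_mul ((hwg n).trans (mul_le_mul_of_nonneg_left h2 (gw_pos n).le)) h1
              (intervalIntegral.integral_nonneg (by linarith) fun t _ => Real.rpow_nonneg (norm_nonneg _) _) (by have := gw_pos n; positivity)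
        _ = gw n * (2 ^ p * T) := by
            rw [Real.mul_rpow (by norm_num) (by linarith), Real.rpow_neg (by linarith)]
            have : T ^ p ≠ 0 := (Real.rpow_pos_of_pos (by linarith) p).ne'
            field_simp
        _ ≤ gw n * (X + 2 ^ p * T) := mul_le_mul_of_nonneg_left (by linarith) (gw_pos n).le
  have hint : ∫ t in T..(2 * T), W t ≤ S * (X + 2 ^ p * T) := by
    have h1 : HasSum (fun n : ℤ => ∫ t in T..(2 * T), w n * ‖AA M (t - n / Real.log M)‖ ^ p) (∫ t in T..(2 * T), W t) := by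
      refine intervalIntegral.hasSum_integral_of_dominated_convergence (fun n _ => gw n * B)
        (fun n => (hcont n).aestronglyMeasurable) (fun n => Eventually.of_forall fun t _ => hbd n t)
        (Eventually.of_forall fun t _ => hgB) intervalIntegrable_const (Eventually.of_forall fun t _ => (hWs t).hasSum)
    rw [← h1.tsum_eq, hS, ← tsum_mul_right]
    exact h1.summable.tsum_le_tsum hterm (gw_sum.mul_right _)
  have hfin : ∫ t in T..(2 * T), ‖AA M (t + x) - AA M t‖ ^ p ≤ ∫ t in T..(2 * T), (C1 * |u| * S) ^ p * W t := by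
    refine intervalIntegral.integral_mono_on (by linarith) ?_ ((continuous_const.mul hWc).intervalIntegrable _ _) fun t _ => hpt t
    exact (normp_cont (((AA_cont M).comp (continuous_id.add continuous_const)).sub (AA_cont M)) hp.le).intervalIntegrable _ _
  rw [intervalIntegral.integral_const_mul] at hfin
  refine hfin.trans ((mul_le_mul_of_nonneg_left hint (Real.rpow_nonneg (mul_nonneg (mul_nonneg hC1.le (abs_nonneg _)) hS0.le) _)).trans ?_)
  have e1 : (C1 * |u| * S) ^ p = (C1 * S) ^ p * (|x| * Real.log M) ^ p := by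
    rw [← hua, ← Real.mul_rpow (by positivity) (abs_nonneg _)]
    congr 1
    ring
  rw [e1]
  have h5 : S * (X + 2 ^ p * T) ≤ (S * 2 ^ p + S) * (X + T) := by
    have : 0 ≤ S * 2 ^ p * X + S * T := by positivity
    nlinarith
  calc (C1 * S) ^ p * (|x| * Real.log M) ^ p * (S * (X + 2 ^ p * T)) ≤ (C1 * S) ^ p * (|x| * Real.log M) ^ p * ((S * 2 ^ p + S) * (X + T)) :=
        mul_le_mul_of_nonneg_left h5 (by positivity)
    _ = (C1 * S) ^ p * (S * 2 ^ p + S) * (|x| * Real.log M) ^ p * (X + T) := by ring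

end Pool.Agent.H470
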