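import Pool.Agent.H470.Za2

set_option autoImplicit false

/-! Positively homogeneous functions, means over circles, and the phase of Hardy's function. -/

open Complex MeasureTheory Set Filter Topology

namespace Pool.Agent.H470

/-- positively homogeneous functions of degree `p` -/
def PH (p : ℝ) (Φ : ℂ → ℝ) : Prop := ∀ (r : ℝ) (z : ℂ), 0 ≤ r → Φ ((r : ℂ) • z) = r ^ p * Φ z

lemma ph_bd {Φ : (ℂ) → ℝ} (hc : Continuous Φ) {p : ℝ} (hp : 0 < p) (hom : PH p Φ) : ∃ M : ℝ, 0 ≤ M ∧ ∀ z, |Φ z| ≤ M * ‖z‖ ^ p := by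
  obtain ⟨M, hM⟩ := (isCompact_closedBall (0 : ℂ) 1).exists_bound_of_continuousOn hc.continuousOn
  have hM0 : 0 ≤ M := (norm_nonneg _).trans (hM 0 (by simp))
  refine ⟨M, hM0, fun z => ?_⟩
  by_cases hz : z = 0
  · rw [hz]
    have h0 := hom 0 0 le_rfl
    rw [smul_zero, Real.zero_rpow hp.ne', zero_mul] at h0
    rw [h0, abs_zero]
    positivity
  · have hz0 : 0 < ‖z‖ := norm_pos_iff.mpr hz
    obtain ⟨w, hw⟩ : ∃ w : ℂ, w = (((‖z‖⁻¹ : ℝ)) : ℂ) • z := ⟨_, rfl⟩
    have hw1 : ‖w‖ = 1 := by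
      rw [hw, norm_smul, Complex.norm_real, norm_inv, norm_norm, inv_mul_cancel₀ hz0.ne']
    have hzw : z = ((‖z‖ : ℝ) : ℂ) • w := by
      rw [hw, smul_smul, ← Complex.ofReal_mul, mul_inv_cancel₀ hz0.ne', Complex.ofReal_one, one_smul]
    have h1 := hM w (by rw [mem_closedBall_zero_iff, hw1])
    have h2 := hom ‖z‖ w (norm_nonneg _)
    rw [← hzw] at h2
    rw [h2, abs_mul, abs_of_nonneg (by positivity), mul_comm]
    exact mul_le_mul_of_nonneg_right h1 (by positivity)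

lemma ph_mod {Φ : (ℂ) → ℝ} (hc : Continuous Φ) {p : ℝ} (hp : 0 < p) (hom : PH p Φ) {e : ℝ} (he : 0 < e) :
    ∃ C : ℝ, 0 ≤ C ∧ ∀ z w, |Φ z - Φ w| ≤ e * ‖w‖ ^ p + C * ‖z - w‖ ^ p := by
  obtain ⟨M, hM0, hM⟩ := ph_bd hc hp hom
  have huc := (isCompact_closedBall (0 : ℂ) 2).uniformContinuousOn_of_continuous hc.continuousOn
  rw [Metric.uniformContinuousOn_iff] at huc
  obtain ⟨d', hd', huc⟩ := huc e he
  obtain ⟨d, hd⟩ : ∃ d : ℝ, d = min (d' / 2) 1 := ⟨_, rfl⟩
  have hd0 : 0 < d := by rw [hd]; positivity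
  have hd1 : d ≤ 1 := by rw [hd]; exact min_le_right _ _
  have hdd : d < d' := by rw [hd]; exact (min_le_left _ _).trans_lt (by linarith)
  refine ⟨2 * M * (1 + 1 / d) ^ p, by positivity, fun z w => ?_⟩
  rcases le_or_gt ‖z - w‖ (d * ‖w‖) with h | h
  · by_cases hw : w = 0
    · rw [hw, norm_zero, mul_zero, sub_zero] at h
      have hz : z = 0 := norm_le_zero_iff.mp h
      rw [hw, hz, sub_self, abs_zero]
      positivity
    · have hw0 : 0 < ‖w‖ := norm_pos_iff.mpr hw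
      obtain ⟨z', hz'⟩ : ∃ v : ℂ, v = (((‖w‖⁻¹ : ℝ)) : ℂ) • z := ⟨_, rfl⟩
      obtain ⟨w', hw'⟩ : ∃ v : ℂ, v = (((‖w‖⁻¹ : ℝ)) : ℂ) • w := ⟨_, rfl⟩
      have ez : z = ((‖w‖ : ℝ) : ℂ) • z' := by
        rw [hz', smul_smul, ← Complex.ofReal_mul, mul_inv_cancel₀ hw0.ne', Complex.ofReal_one, one_smul]
      have ew : w = ((‖w‖ : ℝ) : ℂ) • w' := by
        rw [hw', smul_smul, ← Complex.ofReal_mul, mul_inv_cancel₀ hw0.ne', Complex.ofReal_one, one_smul]
      have nw : ‖w'‖ = 1 := by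
        rw [hw', norm_smul, Complex.norm_real, norm_inv, norm_norm, inv_mul_cancel₀ hw0.ne']
      have nd : ‖z' - w'‖ ≤ d := by
        rw [hz', hw', ← smul_sub, norm_smul, Complex.norm_real, norm_inv, norm_norm, inv_mul_le_iff₀ hw0, mul_comm]
        exact h
      have nz : ‖z'‖ ≤ 2 := by
        have h3 : ‖z'‖ ≤ ‖z' - w'‖ + ‖w'‖ := by
          have := norm_add_le (z' - w') w'
          rwa [sub_add_cancel] at this
        linarith
      have h3 := huc z' (by rwa [mem_closedBall_zero_iff]) w' (by rw [mem_closedBall_zero_iff, nw]; norm_num) (by rw [dist_eq_norm]; linarith)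
      rw [Real.dist_eq] at h3
      have h4 := hom ‖w‖ z' (norm_nonneg _)
      have h5 := hom ‖w‖ w' (norm_nonneg _)
      rw [← ez] at h4
      rw [← ew] at h5
      rw [h4, h5, ← mul_sub, abs_mul, abs_of_nonneg (show 0 ≤ ‖w‖ ^ p by positivity)]
      have h6 : ‖w‖ ^ p * |Φ z' - Φ w'| ≤ ‖w‖ ^ p * e := mul_le_mul_of_nonneg_left h3.le (by positivity)
      have h7 : 0 ≤ 2 * M * (1 + 1 / d) ^ p * ‖z - w‖ ^ p := by positivity
      linarith
  · have h1 : ‖w‖ ≤ (1 + 1 / d) * ‖z - w‖ := by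
      have h2 : ‖w‖ ≤ 1 / d * ‖z - w‖ := by
        rw [div_mul_eq_mul_div, one_mul, le_div_iff₀ hd0, mul_comm]
        exact h.le
      nlinarith [norm_nonneg (z - w)]
    have h2 : ‖z‖ ≤ (1 + 1 / d) * ‖z - w‖ := by
      have h3 : ‖z‖ ≤ ‖z - w‖ + ‖w‖ := by
        have := norm_add_le (z - w) w
        rwa [sub_add_cancel] at this
      have h4 : ‖w‖ ≤ 1 / d * ‖z - w‖ := by
        rw [div_mul_eq_mul_div, one_mul, le_div_iff₀ hd0, mul_comm]
        exact h.le
      linarith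
    have h3 : ∀ v : ℂ, ‖v‖ ≤ (1 + 1 / d) * ‖z - w‖ → |Φ v| ≤ M * (1 + 1 / d) ^ p * ‖z - w‖ ^ p := by
      intro v hv
      refine (hM v).trans ?_
      have h4 := Real.rpow_le_rpow (norm_nonneg _) hv hp.le
      rw [Real.mul_rpow (by positivity) (norm_nonneg _)] at h4
      have h5 := mul_le_mul_of_nonneg_left h4 hM0
      linarith
    have h4 := abs_sub (Φ z) (Φ w)
    have h5 : 0 ≤ e * ‖w‖ ^ p := by positivity
    have h6 := h3 z h2
    have h7 := h3 w h1
    linarith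


/-- the mean over the unit circle -/
noncomputable def cm (Φ : ℂ → ℝ) : ℝ := (1 / (2 * Real.pi)) * ∫ y in (0:ℝ)..(2 * Real.pi), Φ (cexp ((y : ℂ) * I))

lemma cm_avg {p : ℝ} {Φ : ℂ → ℝ} (hom : PH p Φ) {L : ℝ} (hL : 0 < L) (z : ℂ) :
    ∫ x in (0:ℝ)..(4 * Real.pi / L), Φ (z * cexp (((x * (L / 2) : ℝ) : ℂ) * I)) = 4 * Real.pi / L * (‖z‖ ^ p * cm Φ) := by
  have hpi := Real.pi_pos
  have h1 : ∀ y : ℝ, Φ (z * cexp ((y : ℂ) * I)) = ‖z‖ ^ p * Φ (cexp (((z.arg + y : ℝ) : ℂ) * I)) := by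
    intro y
    have h2 := hom ‖z‖ (cexp (((z.arg + y : ℝ) : ℂ) * I)) (norm_nonneg _)
    rw [← h2, smul_eq_mul]
    congr 1
    conv_lhs => rw [← Complex.norm_mul_exp_arg_mul_I z]
    rw [mul_assoc, ← Complex.exp_add]
    congr 2
    push_cast
    ring
  have h2 := intervalIntegral.integral_comp_mul_right (a := 0) (b := 4 * Real.pi / L) (fun y : ℝ => Φ (z * cexp ((y : ℂ) * I))) (c := L / 2) (by positivity)
  rw [h2, zero_mul]
  have e1 : 4 * Real.pi / L * (L / 2) = 2 * Real.pi := by field_simp; ring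
  rw [e1]
  simp_rw [h1]
  rw [intervalIntegral.integral_const_mul]
  have h3 : ∫ y in (0:ℝ)..(2 * Real.pi), Φ (cexp (((z.arg + y : ℝ) : ℂ) * I)) = ∫ y in (0:ℝ)..(2 * Real.pi), Φ (cexp ((y : ℂ) * I)) := by
    rw [intervalIntegral.integral_comp_add_left (fun y : ℝ => Φ (cexp ((y : ℂ) * I))) z.arg, add_zero]
    have hper : Function.Periodic (fun y : ℝ => Φ (cexp ((y : ℂ) * I))) (2 * Real.pi) := by
      intro y
      show Φ (cexp (((y + 2 * Real.pi : ℝ) : ℂ) * I)) = Φ (cexp ((y : ℂ) * I))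
      congr 1
      push_cast
      rw [add_mul, Complex.exp_add, Complex.exp_two_pi_mul_I, mul_one]
    have := hper.intervalIntegral_add_eq z.arg 0
    rw [zero_add] at this
    exact this
  rw [h3, smul_eq_mul]
  unfold cm
  generalize (∫ y in (0:ℝ)..(2 * Real.pi), Φ (cexp ((y : ℂ) * I))) = J
  field_simp
  ring

/-- the phases of Hardy's function -/
structure Ph (w : ℝ → ℂ) : Prop where
  cont : Continuous w
  norm : ∀ t, ‖w t‖ = 1
  sq : ∀ t, 1 ≤ t → chi t * w t ^ 2 = 1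

lemma exp_lip (a b : ℝ) : ‖cexp ((a : ℂ) * I) - cexp ((b : ℂ) * I)‖ ≤ |a - b| := by
  have h1 : cexp ((a : ℂ) * I) - cexp ((b : ℂ) * I) = cexp ((b : ℂ) * I) * (cexp (I * ((a - b : ℝ) : ℂ)) - 1) := by
    rw [mul_sub, ← Complex.exp_add, mul_one]
    congr 2
    push_cast
    ring
  rw [h1, norm_mul, Complex.norm_exp_ofReal_mul_I, one_mul]
  exact Real.norm_exp_I_mul_ofReal_sub_one_le

lemma ph_lin {w : ℝ → ℂ} (h : Ph w) {t u : ℝ} (ht : 200 ≤ t) (hu0 : 0 ≤ u) (hu : u ≤ 1) :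
    ‖w (t + u) - w t * cexp (((u * (Real.log (t / (2 * Real.pi)) / 2) : ℝ) : ℂ) * I)‖ ≤ 30 * u / t := by
  set L := Real.log (t / (2 * Real.pi)) with hL
  have hnn : ∀ s, w s * (starRingEnd ℂ) (w s) = 1 := fun s => by
    rw [Complex.mul_conj, Complex.normSq_eq_norm_sq, h.norm s]; norm_num
  have hchi : ∀ s, 1 ≤ s → chi s = (starRingEnd ℂ) (w s) ^ 2 := by
    intro s hs
    have h1 := h.sq s hs
    calc chi s = chi s * (w s * (starRingEnd ℂ) (w s)) ^ 2 := by rw [hnn, one_pow, mul_one]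
      _ = (chi s * w s ^ 2) * (starRingEnd ℂ) (w s) ^ 2 := by ring
      _ = (starRingEnd ℂ) (w s) ^ 2 := by rw [h1, one_mul]
  set r : ℝ → ℂ := fun s => w (t + s) * (starRingEnd ℂ) (w t) * cexp (((-(s * (L / 2)) : ℝ) : ℂ) * I) with hr
  have hrc : Continuous r := by
    rw [hr]
    refine ((h.cont.comp (continuous_const.add continuous_id)).mul continuous_const).mul ?_
    refine Complex.continuous_exp.comp (Continuous.mul ?_ continuous_const)
    exact Complex.continuous_ofReal.comp ((continuous_id.mul continuous_const).neg)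
  have hr1 : ∀ s, ‖r s‖ = 1 := by
    intro s
    rw [hr]
    show ‖w (t + s) * (starRingEnd ℂ) (w t) * cexp (((-(s * (L / 2)) : ℝ) : ℂ) * I)‖ = 1
    rw [norm_mul, norm_mul, h.norm, RCLike.norm_conj, h.norm, Complex.norm_exp_ofReal_mul_I]
    norm_num
  have hr0 : r 0 = 1 := by
    rw [hr]
    show w (t + 0) * (starRingEnd ℂ) (w t) * cexp (((-(0 * (L / 2)) : ℝ) : ℂ) * I) = 1
    rw [add_zero, hnn]
    simp
  have hsq : ∀ s, 0 ≤ s → s ≤ 1 → ‖r s ^ 2 - 1‖ ≤ 30 * s / t := by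
    intro s hs0 hs1
    have h1 := chi_lin (t := t) (u := s) ht (by rw [abs_of_nonneg hs0]; linarith)
    rw [hchi t (by linarith), hchi (t + s) (by linarith), ← hL] at h1
    have h2 : ‖r s ^ 2 - 1‖ = ‖(starRingEnd ℂ) (w (t + s)) ^ 2 - (starRingEnd ℂ) (w t) ^ 2 * cexp (((-(s * L) : ℝ) : ℂ) * I)‖ := by
      have h3 : (starRingEnd ℂ) (w (t + s)) ^ 2 - (starRingEnd ℂ) (w t) ^ 2 * cexp (((-(s * L) : ℝ) : ℂ) * I) =
          -((starRingEnd ℂ) (w (t + s)) ^ 2 * (r s ^ 2 - 1)) := by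
        have e1 : cexp (((-(s * L) : ℝ) : ℂ) * I) = cexp (((-(s * (L / 2)) : ℝ) : ℂ) * I) ^ 2 := by
          rw [← Complex.exp_nat_mul]
          congr 1
          push_cast
          ring
        rw [e1, hr]
        show _ = -((starRingEnd ℂ) (w (t + s)) ^ 2 * ((w (t + s) * (starRingEnd ℂ) (w t) * cexp (((-(s * (L / 2)) : ℝ) : ℂ) * I)) ^ 2 - 1))
        have := hnn (t + s)
        linear_combination (-(starRingEnd ℂ) (w t) ^ 2 * cexp (((-(s * (L / 2)) : ℝ) : ℂ) * I) ^ 2 * (w (t + s) * (starRingEnd ℂ) (w (t + s)) + 1)) * (-1) * this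
      rw [h3, norm_neg, norm_mul, norm_pow, RCLike.norm_conj, h.norm, one_pow, one_mul]
    rw [h2]
    refine h1.trans ?_
    rw [abs_of_nonneg hs0]
    apply div_le_div_of_nonneg_right _ (by linarith)
    nlinarith
  have hre : 0 < (r u).re := by
    by_contra hneg
    push Not at hneg
    have h1 : (0:ℝ) ∈ Icc ((r u).re) ((r 0).re) := ⟨hneg, by rw [hr0]; norm_num⟩
    obtain ⟨s, hs, hs2⟩ := intermediate_value_Icc' hu0 ((Complex.continuous_re.comp hrc).continuousOn) h1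
    have hs2' : (r s).re = 0 := hs2
    have h3 := hsq s hs.1 (hs.2.trans hu)
    have h4 : r s ^ 2 = -1 := by
      have h5 := hr1 s
      have h6 : Complex.normSq (r s) = 1 := by rw [Complex.normSq_eq_norm_sq, h5]; norm_num
      rw [Complex.normSq_apply, hs2'] at h6
      apply Complex.ext
      · simp [sq, hs2']
        linarith
      · simp [sq, hs2']
    rw [h4] at h3
    have h5 : ‖(-1 : ℂ) - 1‖ = 2 := by
      rw [show (-1 : ℂ) - 1 = -2 by norm_num, norm_neg]; norm_num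
    rw [h5] at h3
    have h6 : 30 * s / t ≤ 1 := by
      rw [div_le_one (by linarith)]
      have := hs.1
      have := hs.2
      nlinarith
    linarith
  have h1 : ‖w (t + u) - w t * cexp (((u * (L / 2) : ℝ) : ℂ) * I)‖ = ‖r u - 1‖ := by
    have h2 : w (t + u) - w t * cexp (((u * (L / 2) : ℝ) : ℂ) * I) = (w t * cexp (((u * (L / 2) : ℝ) : ℂ) * I)) * (r u - 1) := by
      have e1 : cexp (((u * (L / 2) : ℝ) : ℂ) * I) * cexp (((-(u * (L / 2)) : ℝ) : ℂ) * I) = 1 := by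
        rw [← Complex.exp_add, ← Complex.exp_zero]
        congr 1
        push_cast
        ring
      rw [hr]
      show _ = (w t * cexp (((u * (L / 2) : ℝ) : ℂ) * I)) * (w (t + u) * (starRingEnd ℂ) (w t) * cexp (((-(u * (L / 2)) : ℝ) : ℂ) * I) - 1)
      have := hnn t
      linear_combination (-(w (t + u)) * (w t * (starRingEnd ℂ) (w t))) * e1 - w (t + u) * this
    rw [h2, norm_mul, norm_mul, h.norm, Complex.norm_exp_ofReal_mul_I, one_mul, one_mul]
  rw [h1]
  have h2 : ‖r u - 1‖ * ‖r u + 1‖ = ‖r u ^ 2 - 1‖ := by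
    rw [← norm_mul]
    congr 1
    ring
  have h3 : 1 ≤ ‖r u + 1‖ := by
    have := Complex.re_le_norm (r u + 1)
    rw [Complex.add_re, Complex.one_re] at this
    linarith
  calc ‖r u - 1‖ ≤ ‖r u - 1‖ * ‖r u + 1‖ := le_mul_of_one_le_right (norm_nonneg _) h3
    _ = ‖r u ^ 2 - 1‖ := h2
    _ ≤ 30 * u / t := hsq u hu0 hu

lemma ph_lin2 {w : ℝ → ℂ} (h : Ph w) {T t u : ℝ} (hT : 200 ≤ T) (ht1 : T ≤ t) (ht2 : t ≤ 2 * T) (hu0 : 0 ≤ u) (hu : u ≤ 1) :
    ‖w (t + u) - w t * cexp (((u * (Real.log T / 2) : ℝ) : ℂ) * I)‖ ≤ 2 * u := by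
  have hpi := Real.pi_gt_three
  have hpi2 := Real.pi_lt_d2
  have h1 := ph_lin h (t := t) (by linarith) hu0 hu
  have h2 := exp_lip (u * (Real.log (t / (2 * Real.pi)) / 2)) (u * (Real.log T / 2))
  have h3 : |u * (Real.log (t / (2 * Real.pi)) / 2) - u * (Real.log T / 2)| ≤ u := by
    have h4 : |Real.log (t / (2 * Real.pi)) - Real.log T| ≤ 2 := by
      rw [Real.log_div (by linarith) (by positivity)]
      have e1 : Real.log T ≤ Real.log t := Real.log_le_log (by linarith) ht1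
      have e2 : Real.log t ≤ Real.log T + 1 := by
        have := Real.log_le_log (by linarith) ht2
        rw [Real.log_mul (by norm_num) (by linarith)] at this
        have := Real.log_two_lt_d9
        linarith
      have e3 : Real.log (2 * Real.pi) ≤ 2 := by
        rw [Real.log_le_iff_le_exp (by positivity)]
        have h5 := Real.exp_one_gt_d9
        have h6 : Real.exp 2 = Real.exp 1 * Real.exp 1 := by rw [← Real.exp_add]; norm_num
        rw [h6]
        nlinarith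
      have e4 : 1 ≤ Real.log (2 * Real.pi) := by
        rw [Real.le_log_iff_exp_le (by positivity)]
        have h5 := Real.exp_one_lt_d9
        linarith
      rw [abs_le]
      constructor <;> linarith
    rw [← mul_sub, abs_mul, abs_of_nonneg hu0, ← sub_div, abs_div, abs_two]
    calc u * (|Real.log (t / (2 * Real.pi)) - Real.log T| / 2) ≤ u * (2 / 2) :=
          mul_le_mul_of_nonneg_left (div_le_div_of_nonneg_right h4 (by norm_num)) hu0
      _ = u := by ring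
  have h4 : 30 * u / t ≤ u := by
    rw [div_le_iff₀ (by linarith)]
    nlinarith
  have h5 : w (t + u) - w t * cexp (((u * (Real.log T / 2) : ℝ) : ℂ) * I) =
      (w (t + u) - w t * cexp (((u * (Real.log (t / (2 * Real.pi)) / 2) : ℝ) : ℂ) * I)) +
      w t * (cexp (((u * (Real.log (t / (2 * Real.pi)) / 2) : ℝ) : ℂ) * I) - cexp (((u * (Real.log T / 2) : ℝ) : ℂ) * I)) := by ring
  rw [h5]
  refine (norm_add_le _ _).trans ?_
  rw [norm_mul, h.norm, one_mul]
  linarith [h2.trans h3]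

end Pool.Agent.H470
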