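import Pool.Agent.H470.Za3

set_option autoImplicit false

/-! The phase of Hardy's function is independent of short partial sums, in the mean of all orders. -/

open Complex MeasureTheory Set Filter Topology

namespace Pool.Agent.H470

lemma pow2 {a b p : ℝ} (ha : 0 ≤ a) (hb : 0 ≤ b) (hp : 0 ≤ p) : (a + b) ^ p ≤ 2 ^ p * (a ^ p + b ^ p) := by
  rcases le_total a b with h | h
  · calc (a + b) ^ p ≤ (2 * b) ^ p := Real.rpow_le_rpow (by positivity) (by linarith) hp
      _ = 2 ^ p * b ^ p := Real.mul_rpow (by norm_num) hb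
      _ ≤ 2 ^ p * (a ^ p + b ^ p) := mul_le_mul_of_nonneg_left (by linarith [Real.rpow_nonneg ha p]) (by positivity)
  · calc (a + b) ^ p ≤ (2 * a) ^ p := Real.rpow_le_rpow (by positivity) (by linarith) hp
      _ = 2 ^ p * a ^ p := Real.mul_rpow (by norm_num) ha
      _ ≤ 2 ^ p * (a ^ p + b ^ p) := mul_le_mul_of_nonneg_left (by linarith [Real.rpow_nonneg hb p]) (by positivity)

/-- comparison of a function with its shifts -/
lemma shift_int {f : ℝ → ℝ} (hf : Continuous f) {B : ℝ} (hB : ∀ t, |f t| ≤ B) (T : ℝ) {x : ℝ} (hx : 0 ≤ x) :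
    |(∫ t in T..(2 * T), f t) - ∫ t in T..(2 * T), f (t + x)| ≤ 2 * B * x := by
  rw [intervalIntegral.integral_comp_add_right (fun t => f t) x]
  have hi : ∀ a b : ℝ, IntervalIntegrable f volume a b := fun a b => hf.intervalIntegrable a b
  have h1 := intervalIntegral.integral_add_adjacent_intervals (hi T (2 * T)) (hi (2 * T) (2 * T + x))
  have h2 := intervalIntegral.integral_add_adjacent_intervals (hi T (T + x)) (hi (T + x) (2 * T + x))
  have h3 := intervalIntegral.norm_integral_le_of_norm_le_const (a := 2 * T) (b := 2 * T + x) (f := f) (C := B) fun t _ => by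
    rw [Real.norm_eq_abs]; exact hB t
  have h4 := intervalIntegral.norm_integral_le_of_norm_le_const (a := T) (b := T + x) (f := f) (C := B) fun t _ => by
    rw [Real.norm_eq_abs]; exact hB t
  rw [Real.norm_eq_abs, add_sub_cancel_left, abs_of_nonneg hx] at h3 h4
  have h5 := abs_le.1 h3
  have h6 := abs_le.1 h4
  rw [abs_le]
  constructor <;> linarith [h5.1, h5.2, h6.1, h6.2]

/-- the averaged comparison, for one length -/
lemma avg_one {p : ℝ} (hp : 0 < p) {Φ : ℂ → ℝ} (hc : Continuous Φ) (hom : PH p Φ) {M0 : ℝ} (hMb : ∀ z, |Φ z| ≤ M0 * ‖z‖ ^ p) (hM0 : 0 ≤ M0)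
    {e1 C : ℝ} (_he1 : 0 ≤ e1) (hC : 0 ≤ C) (hmod : ∀ z w, |Φ z - Φ w| ≤ e1 * ‖w‖ ^ p + C * ‖z - w‖ ^ p)
    {w : ℝ → ℂ} (hw : Ph w) {M : ℕ} {T : ℝ} (hT : 200 ≤ T) {a : ℝ} (ha0 : 0 < a) (ha1 : a ≤ 1) (haL : a = 4 * Real.pi / Real.log T)
    {S : ℝ} (hS : ∀ x : ℝ, 0 ≤ x → x ≤ a → ∫ t in T..(2 * T), ‖AA M (t + x) - AA M t‖ ^ p ≤ S) :
    |(∫ t in T..(2 * T), Φ (w t * AA M t)) - cm Φ * ∫ t in T..(2 * T), ‖AA M t‖ ^ p| ≤
      2 * (M0 * (2 * Real.sqrt M) ^ p) * a + ((e1 + C * (2 ^ p * (2 * a) ^ p)) * (∫ t in T..(2 * T), ‖AA M t‖ ^ p) + C * (2 ^ p * S)) := by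
  have hTp : 0 < T := by linarith
  have hL : 0 < Real.log T := Real.log_pos (by linarith)
  set D := AA M with hD
  have hDc : Continuous D := AA_cont M
  set Y := ∫ t in T..(2 * T), ‖D t‖ ^ p with hY
  have hYc : Continuous fun t => ‖D t‖ ^ p := normp_cont hDc hp.le
  set E := 2 * (M0 * (2 * Real.sqrt M) ^ p) * a + ((e1 + C * (2 ^ p * (2 * a) ^ p)) * Y + C * (2 ^ p * S)) with hE
  set J := ∫ t in T..(2 * T), Φ (w t * D t) with hJ
  set H : ℝ → ℝ → ℝ := fun x t => Φ (w t * D t * cexp (((x * (Real.log T / 2) : ℝ) : ℂ) * I)) with hH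
  have hHc : Continuous (Function.uncurry H) := by
    rw [hH]
    refine hc.comp ?_
    refine Continuous.mul ?_ ?_
    · exact (hw.cont.comp continuous_snd).mul (hDc.comp continuous_snd)
    · refine Complex.continuous_exp.comp (Continuous.mul ?_ continuous_const)
      exact Complex.continuous_ofReal.comp (continuous_fst.mul continuous_const)
  have hfc : Continuous fun t => Φ (w t * D t) := hc.comp (hw.cont.mul hDc)
  have hfB : ∀ t, |Φ (w t * D t)| ≤ M0 * (2 * Real.sqrt M) ^ p := by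
    intro t
    refine (hMb _).trans (mul_le_mul_of_nonneg_left ?_ hM0)
    rw [norm_mul, hw.norm, one_mul]
    exact Real.rpow_le_rpow (norm_nonneg _) (AA_bd M t) hp.le
  have key : ∀ x ∈ uIoc (0:ℝ) a, ‖J - ∫ t in T..(2 * T), H x t‖ ≤ E := by
    intro x hx
    rw [uIoc_of_le ha0.le] at hx
    have hx0 : 0 ≤ x := hx.1.le
    have h1 := shift_int hfc hfB T hx0
    have h2 : |(∫ t in T..(2 * T), Φ (w (t + x) * D (t + x))) - ∫ t in T..(2 * T), H x t| ≤
        (e1 + C * (2 ^ p * (2 * a) ^ p)) * Y + C * (2 ^ p * S) := by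
      have hc1 : Continuous fun t => Φ (w (t + x) * D (t + x)) := hfc.comp (continuous_id.add continuous_const)
      have hc2 : Continuous fun t => H x t := hHc.comp (continuous_const.prodMk continuous_id)
      have hc3 : Continuous fun t => ‖D (t + x) - D t‖ ^ p := normp_cont ((hDc.comp (continuous_id.add continuous_const)).sub hDc) hp.le
      rw [← intervalIntegral.integral_sub (hc1.intervalIntegrable _ _) (hc2.intervalIntegrable _ _)]
      have h3 : ∀ t ∈ Icc T (2 * T), |Φ (w (t + x) * D (t + x)) - H x t| ≤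
          (e1 + C * (2 ^ p * (2 * a) ^ p)) * ‖D t‖ ^ p + C * 2 ^ p * ‖D (t + x) - D t‖ ^ p := by
        intro t ht
        have h4 := hmod (w (t + x) * D (t + x)) (w t * D t * cexp (((x * (Real.log T / 2) : ℝ) : ℂ) * I))
        have h5 : ‖w t * D t * cexp (((x * (Real.log T / 2) : ℝ) : ℂ) * I)‖ = ‖D t‖ := by
          rw [norm_mul, norm_mul, hw.norm, Complex.norm_exp_ofReal_mul_I, one_mul, mul_one]
        rw [h5] at h4
        have h6 : ‖w (t + x) * D (t + x) - w t * D t * cexp (((x * (Real.log T / 2) : ℝ) : ℂ) * I)‖ ≤ ‖D (t + x) - D t‖ + 2 * a * ‖D t‖ := by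
          have e1 : w (t + x) * D (t + x) - w t * D t * cexp (((x * (Real.log T / 2) : ℝ) : ℂ) * I) =
              w (t + x) * (D (t + x) - D t) + (w (t + x) - w t * cexp (((x * (Real.log T / 2) : ℝ) : ℂ) * I)) * D t := by ring
          rw [e1]
          refine (norm_add_le _ _).trans ?_
          rw [norm_mul, norm_mul, hw.norm, one_mul]
          have h7 := ph_lin2 hw hT ht.1 ht.2 hx0 (hx.2.trans ha1)
          have h8 : ‖w (t + x) - w t * cexp (((x * (Real.log T / 2) : ℝ) : ℂ) * I)‖ ≤ 2 * a := h7.trans (by linarith [hx.2])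
          have := mul_le_mul_of_nonneg_right h8 (norm_nonneg (D t))
          linarith
        have h7 : ‖w (t + x) * D (t + x) - w t * D t * cexp (((x * (Real.log T / 2) : ℝ) : ℂ) * I)‖ ^ p ≤
            2 ^ p * (‖D (t + x) - D t‖ ^ p + (2 * a) ^ p * ‖D t‖ ^ p) := by
          refine (Real.rpow_le_rpow (norm_nonneg _) h6 hp.le).trans ((pow2 (norm_nonneg _) (by positivity) hp.le).trans_eq ?_)
          rw [Real.mul_rpow (by positivity) (norm_nonneg _)]
        have h8 := mul_le_mul_of_nonneg_left h7 hC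
        calc |Φ (w (t + x) * D (t + x)) - H x t| ≤ e1 * ‖D t‖ ^ p + C * ‖w (t + x) * D (t + x) - w t * D t * cexp (((x * (Real.log T / 2) : ℝ) : ℂ) * I)‖ ^ p := h4
          _ ≤ e1 * ‖D t‖ ^ p + C * (2 ^ p * (‖D (t + x) - D t‖ ^ p + (2 * a) ^ p * ‖D t‖ ^ p)) := by linarith
          _ = (e1 + C * (2 ^ p * (2 * a) ^ p)) * ‖D t‖ ^ p + C * 2 ^ p * ‖D (t + x) - D t‖ ^ p := by ring
      have h9 : |∫ t in T..(2 * T), (Φ (w (t + x) * D (t + x)) - H x t)| ≤ ∫ t in T..(2 * T), |Φ (w (t + x) * D (t + x)) - H x t| :=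
        intervalIntegral.abs_integral_le_integral_abs (by linarith)
      refine h9.trans ?_
      have h10 : ∫ t in T..(2 * T), |Φ (w (t + x) * D (t + x)) - H x t| ≤
          ∫ t in T..(2 * T), ((e1 + C * (2 ^ p * (2 * a) ^ p)) * ‖D t‖ ^ p + C * 2 ^ p * ‖D (t + x) - D t‖ ^ p) :=
        intervalIntegral.integral_mono_on (by linarith) ((hc1.sub hc2).abs.intervalIntegrable _ _)
          (((continuous_const.mul hYc).add (continuous_const.mul hc3)).intervalIntegrable _ _) h3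
      refine h10.trans ?_
      have i1 : IntervalIntegrable (fun t => (e1 + C * (2 ^ p * (2 * a) ^ p)) * ‖D t‖ ^ p) volume T (2 * T) := (continuous_const.mul hYc).intervalIntegrable _ _
      have i2 : IntervalIntegrable (fun t => C * 2 ^ p * ‖D (t + x) - D t‖ ^ p) volume T (2 * T) := (continuous_const.mul hc3).intervalIntegrable _ _
      rw [intervalIntegral.integral_add i1 i2, intervalIntegral.integral_const_mul, intervalIntegral.integral_const_mul]
      have h11 := mul_le_mul_of_nonneg_left (hS x hx0 hx.2) (show 0 ≤ C * 2 ^ p by positivity)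
      linarith
    have h3 : 2 * (M0 * (2 * Real.sqrt M) ^ p) * x ≤ 2 * (M0 * (2 * Real.sqrt M) ^ p) * a := mul_le_mul_of_nonneg_left hx.2 (by positivity)
    rw [Real.norm_eq_abs]
    have h4 := abs_sub_le J (∫ t in T..(2 * T), Φ (w (t + x) * D (t + x))) (∫ t in T..(2 * T), H x t)
    rw [hE]
    linarith
  have hHx : Continuous fun x => ∫ t in T..(2 * T), H x t := intervalIntegral.continuous_parametric_intervalIntegral_of_continuous' hHc _ _
  have h1 := intervalIntegral.norm_integral_le_of_norm_le_const key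
  rw [intervalIntegral.integral_sub intervalIntegrable_const (hHx.intervalIntegrable _ _), intervalIntegral.integral_const, sub_zero,
    smul_eq_mul, abs_of_pos ha0, Real.norm_eq_abs] at h1
  have h2 : ∫ x in (0:ℝ)..a, ∫ t in T..(2 * T), H x t = a * (cm Φ * Y) := by
    rw [intervalIntegral_intervalIntegral_swap]
    · have h3 : ∀ t, ∫ x in (0:ℝ)..a, H x t = a * (‖D t‖ ^ p * cm Φ) := by
        intro t
        rw [haL]
        have := cm_avg hom hL (w t * D t)
        rw [norm_mul, hw.norm, one_mul] at this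
        exact this
      simp_rw [h3]
      rw [intervalIntegral.integral_const_mul, intervalIntegral.integral_mul_const]
      ring
    · exact (hHc.continuousOn.integrableOn_compact (isCompact_uIcc.prod isCompact_uIcc)).mono_set
        (Set.prod_mono uIoc_subset_uIcc uIoc_subset_uIcc)
  rw [h2, ← mul_sub, abs_mul, abs_of_pos ha0, mul_comm E a] at h1
  exact le_of_mul_le_mul_left h1 ha0

theorem avg_th {p : ℝ} (hp : 0 < p) {Φ : ℂ → ℝ} (hc : Continuous Φ) (hom : PH p Φ) {e : ℝ} (he : 0 < e) :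
    ∃ A : ℕ, ∀ {w : ℝ → ℂ}, Ph w → ∀ M : ℕ, A ≤ M → ∀ T : ℝ, (M:ℝ) ^ A ≤ T →
      |(∫ t in T..(2 * T), Φ (w t * AA M t)) - cm Φ * ∫ t in T..(2 * T), ‖AA M t‖ ^ p| ≤ e * (T * Real.log M ^ (p ^ 2 / 4)) := by
  obtain ⟨M0, hM0, hMb⟩ := ph_bd hc hp hom
  obtain ⟨c, hc0, hsum⟩ := sums_unif hp
  obtain ⟨A1, hA1⟩ := hsum 1 one_pos
  set K3 := 3 * (c + 1) with hK3
  have hK3p : 0 < K3 := by positivity
  set e1 := e / (8 * K3) with he1
  have he1p : 0 < e1 := by positivity
  obtain ⟨C, hC0, hmod⟩ := ph_mod hc hp hom he1p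
  obtain ⟨C2, hC2, hsh⟩ := shift_bd hp
  set G := C * (2 ^ p * 2 ^ p) * K3 + C * (2 ^ p * C2) * (K3 + 1) with hG
  have hG0 : 0 ≤ G := by positivity
  set δ := min 1 ((e / (8 * (G + 1))) ^ (1 / p)) with hδ
  have hδ0 : 0 < δ := lt_min one_pos (Real.rpow_pos_of_pos (by positivity) _)
  have hδ1 : δ ≤ 1 := min_le_left _ _
  have hδp : G * δ ^ p ≤ e / 8 := by
    have h1 : δ ^ p ≤ e / (8 * (G + 1)) := by
      refine (Real.rpow_le_rpow hδ0.le (min_le_right _ _) hp.le).trans_eq ?_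
      rw [← Real.rpow_mul (by positivity), one_div_mul_cancel hp.ne', Real.rpow_one]
    calc G * δ ^ p ≤ (G + 1) * (e / (8 * (G + 1))) := mul_le_mul (by linarith) h1 (by positivity) (by positivity)
      _ = e / 8 := by field_simp
  obtain ⟨A2, hA2⟩ := exists_nat_ge (4 * Real.pi / δ)
  obtain ⟨A3, hA3⟩ := exists_nat_ge (p / 2 + 1)
  obtain ⟨A4, hA4⟩ := exists_nat_ge (8 * (2 * M0 * 2 ^ p) / e)
  refine ⟨max (max A1 A2) (max (max A3 A4) 200), ?_⟩
  set A := max (max A1 A2) (max (max A3 A4) 200) with hAdef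
  intro w hw M hM T hT
  have b1 : A1 ≤ A := (le_max_left _ _).trans (le_max_left _ _)
  have b2 : A2 ≤ A := (le_max_right _ _).trans (le_max_left _ _)
  have b3 : A3 ≤ A := ((le_max_left _ _).trans (le_max_left _ _)).trans (le_max_right _ _)
  have b4 : A4 ≤ A := ((le_max_right _ _).trans (le_max_left _ _)).trans (le_max_right _ _)
  have b5 : 200 ≤ A := (le_max_right _ _).trans (le_max_right _ _)
  have hM3 : 3 ≤ M := by omega
  have hMr : (200 : ℝ) ≤ M := by exact_mod_cast b5.trans hM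
  have hM1 : (1 : ℝ) ≤ M := by linarith
  have hMT : (M : ℝ) ≤ T := (le_self_pow₀ hM1 (by omega)).trans hT
  have hTp : 0 < T := by linarith
  have hlam : 1 ≤ Real.log M := log_N hM3
  have hlam0 : 0 < Real.log M := by linarith
  have hL : (A:ℝ) * Real.log M ≤ Real.log T := by
    have := Real.log_le_log (by positivity) hT
    rwa [Real.log_pow] at this
  have hAr : (200:ℝ) ≤ A := by exact_mod_cast b5
  have hLp : 0 < Real.log T := by nlinarith
  set a := 4 * Real.pi / Real.log T with ha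
  have ha0 : 0 < a := div_pos (mul_pos (by norm_num) Real.pi_pos) hLp
  have hal : a * Real.log M ≤ δ := by
    have h1 : 4 * Real.pi ≤ δ * A := by
      have h2 : 4 * Real.pi / δ ≤ A := hA2.trans (by exact_mod_cast b2)
      rw [div_le_iff₀ hδ0] at h2
      linarith
    rw [ha, div_mul_eq_mul_div, div_le_iff₀ hLp]
    calc 4 * Real.pi * Real.log M ≤ δ * A * Real.log M := mul_le_mul_of_nonneg_right h1 hlam0.le
      _ = δ * (A * Real.log M) := by ring
      _ ≤ δ * Real.log T := mul_le_mul_of_nonneg_left hL hδ0.le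
  have haδ : a ≤ δ := by nlinarith
  set q := p ^ 2 / 4 with hq
  have hq0 : 0 ≤ q := by positivity
  have hlq : 1 ≤ Real.log M ^ q := Real.one_le_rpow hlam hq0
  set V := T * Real.log M ^ q with hV
  have hVT : T ≤ V := le_mul_of_one_le_right hTp.le hlq
  -- the moments
  have hX : ∫ t in (0:ℝ)..(3 * T), ‖AA M t‖ ^ p ≤ K3 * V := by
    have h1 := hA1 M (b1.trans hM) (3 * T) ((pow_le_pow_right₀ hM1 b1).trans (hT.trans (by linarith)))
    have h2 := (abs_le.1 h1).2
    have h3 : 1 / (3 * T) * (∫ t in (0:ℝ)..(3 * T), ‖AA M t‖ ^ p) / Real.log M ^ q ≤ c + 1 := by linarith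
    rw [div_le_iff₀ (by positivity), one_div, inv_mul_le_iff₀ (by positivity)] at h3
    calc _ ≤ _ := h3
      _ = K3 * V := by rw [hK3, hV]; ring
  have hX0 : 0 ≤ ∫ t in (0:ℝ)..(3 * T), ‖AA M t‖ ^ p :=
    intervalIntegral.integral_nonneg (by linarith) fun t _ => Real.rpow_nonneg (norm_nonneg _) _
  have hY : ∫ t in T..(2 * T), ‖AA M t‖ ^ p ≤ K3 * V :=
    (int_mono_set (normp_cont (AA_cont M) hp.le) (fun t => Real.rpow_nonneg (norm_nonneg _) _) (by linarith) (by linarith) (by linarith)).trans hX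
  have hY0 : 0 ≤ ∫ t in T..(2 * T), ‖AA M t‖ ^ p :=
    intervalIntegral.integral_nonneg (by linarith) fun t _ => Real.rpow_nonneg (norm_nonneg _) _
  have hS : ∀ x : ℝ, 0 ≤ x → x ≤ a → ∫ t in T..(2 * T), ‖AA M (t + x) - AA M t‖ ^ p ≤ C2 * δ ^ p * ((K3 + 1) * V) := by
    intro x hx0 hxa
    have h0 : |x| * Real.log M ≤ δ := by
      rw [abs_of_nonneg hx0]
      exact (mul_le_mul_of_nonneg_right hxa hlam0.le).trans hal
    refine (hsh M hM3 T hMT x (h0.trans hδ1)).trans ?_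
    have h1 : (|x| * Real.log M) ^ p ≤ δ ^ p := Real.rpow_le_rpow (by positivity) h0 hp.le
    refine mul_le_mul (mul_le_mul_of_nonneg_left h1 hC2.le) ?_ (by linarith) (by positivity)
    linarith
  have hmain := avg_one hp hc hom hMb hM0 he1p.le hC0 hmod hw (M := M) (T := T) (by linarith) ha0 (haδ.trans hδ1) rfl hS
  refine hmain.trans ?_
  have hV0 : 0 < V := by linarith
  -- first error
  have E1 : 2 * (M0 * (2 * Real.sqrt M) ^ p) * a ≤ e / 8 * V := by
    have h1 : (2 * Real.sqrt M) ^ p = 2 ^ p * (M:ℝ) ^ (p / 2) := by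
      rw [Real.mul_rpow (by norm_num) (Real.sqrt_nonneg _), Real.sqrt_eq_rpow, ← Real.rpow_mul (by linarith)]
      congr 2
      ring
    have h2 : (M:ℝ) ^ (p / 2) * M ≤ T := by
      have h3 : (M:ℝ) ^ (p / 2) * M = (M:ℝ) ^ (p / 2 + 1) := by
        rw [Real.rpow_add (by linarith), Real.rpow_one]
      rw [h3]
      refine le_trans ?_ hT
      rw [← Real.rpow_natCast]
      exact Real.rpow_le_rpow_of_exponent_le hM1 (hA3.trans (by exact_mod_cast b3))
    have h4 : 8 * (2 * M0 * 2 ^ p) ≤ e * M := by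
      have h5 : 8 * (2 * M0 * 2 ^ p) / e ≤ M := hA4.trans (by exact_mod_cast b4.trans hM)
      rwa [div_le_iff₀ he, mul_comm (M:ℝ)] at h5
    have hMp : 0 < (M:ℝ) ^ (p / 2) := Real.rpow_pos_of_pos (by linarith) _
    rw [h1]
    calc 2 * (M0 * (2 ^ p * (M:ℝ) ^ (p / 2))) * a ≤ 2 * (M0 * (2 ^ p * (M:ℝ) ^ (p / 2))) * 1 :=
          mul_le_mul_of_nonneg_left (haδ.trans hδ1) (by positivity)
      _ = 1 / 8 * (8 * (2 * M0 * 2 ^ p)) * (M:ℝ) ^ (p / 2) := by ring
      _ ≤ 1 / 8 * (e * M) * (M:ℝ) ^ (p / 2) := mul_le_mul_of_nonneg_right (mul_le_mul_of_nonneg_left h4 (by norm_num)) hMp.le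
      _ = e / 8 * ((M:ℝ) ^ (p / 2) * M) := by ring
      _ ≤ e / 8 * V := mul_le_mul_of_nonneg_left (h2.trans hVT) (by positivity)
  have E2 : e1 * ∫ t in T..(2 * T), ‖AA M t‖ ^ p ≤ e / 8 * V := by
    calc _ ≤ e1 * (K3 * V) := mul_le_mul_of_nonneg_left hY he1p.le
      _ = e / 8 * V := by rw [he1]; field_simp
  have E3 : C * (2 ^ p * (2 * a) ^ p) * (∫ t in T..(2 * T), ‖AA M t‖ ^ p) + C * (2 ^ p * (C2 * δ ^ p * ((K3 + 1) * V))) ≤ e / 8 * V := by
    have h1 : (2 * a) ^ p ≤ 2 ^ p * δ ^ p := by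
      rw [← Real.mul_rpow (by norm_num) hδ0.le]
      exact Real.rpow_le_rpow (by positivity) (by linarith) hp.le
    have h2 : C * (2 ^ p * (2 * a) ^ p) ≤ C * (2 ^ p * (2 ^ p * δ ^ p)) :=
      mul_le_mul_of_nonneg_left (mul_le_mul_of_nonneg_left h1 (by positivity)) hC0
    have h3 : C * (2 ^ p * (2 * a) ^ p) * (∫ t in T..(2 * T), ‖AA M t‖ ^ p) ≤ C * (2 ^ p * (2 ^ p * δ ^ p)) * (K3 * V) :=
      mul_le_mul h2 hY hY0 (by positivity)
    have h4 : C * (2 ^ p * (2 ^ p * δ ^ p)) * (K3 * V) + C * (2 ^ p * (C2 * δ ^ p * ((K3 + 1) * V))) = G * δ ^ p * V := by rw [hG]; ring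
    have h5 : G * δ ^ p * V ≤ e / 8 * V := mul_le_mul_of_nonneg_right hδp hV0.le
    linarith
  rw [add_mul]
  have h9 := mul_pos he hV0
  generalize (∫ t in T..(2 * T), ‖AA M t‖ ^ p) = Y at *
  linarith

end Pool.Agent.H470
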