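import Pool.Agent.H470.Za4

set_option autoImplicit false

/-! Zeta minus its long partial sums, with phases. -/

open Complex MeasureTheory Set Filter Topology
open Pool.Agent.W188.QS Pool.Agent.W188.GP

namespace Pool.Agent.H470

lemma chi_cont : Continuous chi := by
  unfold chi
  refine Complex.continuous_conj.comp ?_
  unfold XX
  have hcp : Continuous cp := by
    unfold cp
    exact continuous_const.add (Complex.continuous_ofReal.mul continuous_const)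
  have h1 : Continuous fun t => (2 * (Real.pi : ℂ)) ^ (-(cp t)) := by
    refine continuous_iff_continuousAt.2 fun t => ?_
    refine ContinuousAt.comp (f := fun t => -(cp t)) (g := fun z : ℂ => (2 * (Real.pi : ℂ)) ^ z) ?_ hcp.neg.continuousAt
    exact continuousAt_const_cpow (by
      have : (Real.pi : ℂ) ≠ 0 := by exact_mod_cast Real.pi_ne_zero
      simp [this])
  have h2 : Continuous fun t => Complex.Gamma (cp t) := by
    refine continuous_iff_continuousAt.2 fun t => ?_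
    refine ContinuousAt.comp (f := cp) (g := Complex.Gamma) ?_ hcp.continuousAt
    refine (Complex.differentiableAt_Gamma _ fun m hm => ?_).continuousAt
    have := congrArg Complex.re hm
    unfold cp at this
    simp at this
    have h3 : (0:ℝ) ≤ m := Nat.cast_nonneg m
    linarith
  have h3 : Continuous fun t => Complex.cos ((Real.pi : ℂ) * cp t / 2) :=
    Complex.continuous_cos.comp ((continuous_const.mul hcp).div_const 2)
  exact ((continuous_const.mul h1).mul h2).mul h3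

noncomputable def gxx (N M : ℕ) (t : ℝ) : ℝ := ‖zz t - AA N t - chi t * (starRingEnd ℂ) (AA M t)‖

lemma gxx_cont (N M : ℕ) : Continuous (gxx N M) :=
  ((zz_cont.sub (AA_cont N)).sub (chi_cont.mul (Complex.continuous_conj.comp (AA_cont M)))).norm

theorem crem_diff (p : ℝ) (hp : 1 < p) : ∃ C T₀ : ℝ, 0 < C ∧ ∀ T : ℝ, T₀ ≤ T → ∀ N : ℕ, Real.sqrt T ≤ N →
    (N : ℝ) * Real.log T ^ 4 ≤ T → ∀ M1 : ℕ, 2 * T / DN N ≤ M1 → (M1 : ℝ) ≤ 4 * Real.sqrt T →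
    ∀ M0 : ℕ, 1 ≤ M0 → M0 ≤ ⌊T / DN N⌋₊ → ∀ w : ℕ → ℝ, (∀ n, |w n| ≤ 1) → (∀ n, M0 < n → n ≤ M1 → w n = 1) →
    ∫ t in T..(2 * T), |gxx N M0 t| ^ p ≤ C * ((∫ t in (0:ℝ)..(3 * T), ‖WW w M1 t‖ ^ p) + T) := by
  obtain ⟨C₀, T₁, hC₀, hafe⟩ := afe3
  obtain ⟨C₁, hC₁, hvl⟩ := varlen p hp
  obtain ⟨C₂, hC₂, hmw⟩ := mono_w p hp
  obtain ⟨T₂, hset⟩ := setup
  have hp0 : 0 ≤ p := by linarith
  refine ⟨4 ^ p * (C₀ ^ p + 2 * C₁) + 4 ^ p * C₂, max T₁ T₂, by positivity, ?_⟩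
  intro T hTT N hN1 hN2 M1 hM1 hM2 M0 hM0 hM0T w hw hw1
  obtain ⟨hT8, hL, c1, c2, c3, hR2, hRL, hD6, hD7, hqT⟩ := hset T ((le_max_right _ _).trans hTT) N hN1 hN2
  have hTp : 0 < T := by linarith
  set D := DN N with hD
  have hq0 : 0 < Real.sqrt T := Real.sqrt_pos.2 hTp
  have hD0 : 0 < D := by linarith
  have hbM : ⌊(2 * T) / D⌋₊ ≤ M1 := Nat.floor_le_of_le hM1
  have hM01 : M0 ≤ M1 := by
    have : ⌊T / D⌋₊ ≤ ⌊(2 * T) / D⌋₊ := Nat.floor_le_floor (div_le_div_of_nonneg_right (by linarith) hD0.le)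
    omega
  have hpt : ∀ t ∈ Icc T (2 * T), (4 ^ p)⁻¹ * |gxx N M0 t| ^ p - ‖WW w M0 t‖ ^ p ≤ C₀ ^ p + ‖WW w ⌊t / D⌋₊ t‖ ^ p := by
    intro t ht
    have h1 := hafe T ((le_max_left _ _).trans hTT) N hN1 hN2 t (by linarith [ht.1]) (by linarith [ht.2])
    have e1 : M0 ≤ ⌊t / D⌋₊ := hM0T.trans (Nat.floor_le_floor (div_le_div_of_nonneg_right ht.1 hD0.le))
    have e2 : ⌊t / D⌋₊ ≤ M1 := le_trans (Nat.floor_le_floor (div_le_div_of_nonneg_right ht.2 hD0.le)) hbM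
    have e3 := AA_sub hw1 t e1 e2
    have h2 : |gxx N M0 t| ≤ C₀ + ‖WW w ⌊t / D⌋₊ t‖ + ‖WW w M0 t‖ + 0 := by
      unfold gxx
      rw [abs_of_nonneg (norm_nonneg _)]
      have h4 : zz t - AA N t - chi t * (starRingEnd ℂ) (AA M0 t) =
          (zz t - AA N t - chi t * (starRingEnd ℂ) (AA ⌊t / D⌋₊ t)) +
          chi t * (starRingEnd ℂ) (AA ⌊t / D⌋₊ t - AA M0 t) := by
        rw [map_sub]; ring
      rw [h4]
      refine (norm_add_le _ _).trans ?_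
      rw [norm_mul, chi_norm, one_mul, RCLike.norm_conj, e3]
      have h5 := norm_sub_le (WW w ⌊t / D⌋₊ t) (WW w M0 t)
      have h6 : ‖zz t - AA N t - chi t * (starRingEnd ℂ) (AA ⌊t / D⌋₊ t)‖ ≤ C₀ := h1
      linarith
    have h7 := (Real.rpow_le_rpow (abs_nonneg _) h2 hp0).trans (pow4 hC₀.le (norm_nonneg _) (norm_nonneg _) le_rfl hp0)
    have h8 : (0:ℝ) ^ p = 0 := Real.zero_rpow (by linarith)
    rw [h8, add_zero] at h7
    have h9 : (4 ^ p)⁻¹ * |gxx N M0 t| ^ p ≤ C₀ ^ p + ‖WW w ⌊t / D⌋₊ t‖ ^ p + ‖WW w M0 t‖ ^ p := by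
      rw [inv_mul_le_iff₀ (by positivity)]; exact h7
    linarith
  have hcF : Continuous fun t => |gxx N M0 t| ^ p :=
    ((gxx_cont N M0).abs).rpow_const fun _ => Or.inr hp0
  have hcW : ∀ m : ℕ, Continuous fun t => ‖WW w m t‖ ^ p := fun m => normp_cont (WW_cont w m) hp0
  have h5 := hvl T (2 * T ^ (1 / 4 : ℝ)) hL c1 c2 c3 M1 (by linarith) (by rw [hR2]; exact hM2) D T (2 * T)
    hD0 hRL (by linarith) (by linarith) hbM w hw (fun t => (4 ^ p)⁻¹ * |gxx N M0 t| ^ p - ‖WW w M0 t‖ ^ p)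
    ((continuous_const.mul hcF).sub (hcW M0)) (C₀ ^ p) hpt
  have hcF2 : Continuous fun t => (4 ^ p)⁻¹ * |gxx N M0 t| ^ p := continuous_const.mul hcF
  rw [intervalIntegral.integral_sub (hcF2.intervalIntegrable _ _) ((hcW M0).intervalIntegrable _ _),
    intervalIntegral.integral_const_mul] at h5
  have h6 := hmw T (2 * T ^ (1 / 4 : ℝ)) hL c1 c2 c3 M0 M1 hM0 hM01 (by linarith) (by
    rw [hR2]; exact (by exact_mod_cast hM01 : (M0:ℝ) ≤ M1).trans hM2) w hw T (2 * T) (by linarith)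
  set X := ∫ t in (0:ℝ)..(3 * T), ‖WW w M1 t‖ ^ p with hX
  have hX0 : 0 ≤ X :=
    intervalIntegral.integral_nonneg (by linarith) fun t _ => Real.rpow_nonneg (norm_nonneg _) _
  have h7 : ∫ t in (T - 2 * D)..(2 * T + 2 * D), ‖WW w M1 t‖ ^ p ≤ X :=
    int_mono_set (hcW M1) (fun t => Real.rpow_nonneg (norm_nonneg _) _) (by linarith) (by linarith) (by linarith)
  have hw0 : 0 ≤ 2 * (2 * T ^ (1 / 4 : ℝ)) * Real.log T + 2 := by
    have : 0 ≤ 2 * (2 * T ^ (1 / 4 : ℝ)) * Real.log T := by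
      apply mul_nonneg (by linarith) (by linarith)
    linarith
  have h8 : ∫ t in (T - (2 * (2 * T ^ (1 / 4 : ℝ)) * Real.log T + 2))..(2 * T + (2 * (2 * T ^ (1 / 4 : ℝ)) * Real.log T + 2)), ‖WW w M1 t‖ ^ p ≤ X :=
    int_mono_set (hcW M1) (fun t => Real.rpow_nonneg (norm_nonneg _) _) (by linarith) (by linarith) (by linarith)
  have h9 : (4 ^ p)⁻¹ * ∫ t in T..(2 * T), |gxx N M0 t| ^ p ≤
      C₀ ^ p * (2 * T - T) + C₁ * (X + (2 * T - T + 2 * D)) + C₂ * (X + (2 * T - T)) := by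
    have a1 := mul_le_mul_of_nonneg_left (add_le_add_left h7 (2 * T - T + 2 * D)) hC₁.le
    have a2 := mul_le_mul_of_nonneg_left (add_le_add_left h8 (2 * T - T)) hC₂.le
    linarith
  rw [inv_mul_le_iff₀ (by positivity)] at h9
  refine h9.trans ?_
  have h10 : 0 ≤ C₀ ^ p := by positivity
  have h11 : C₀ ^ p * (2 * T - T) + C₁ * (X + (2 * T - T + 2 * D)) + C₂ * (X + (2 * T - T)) ≤ (C₀ ^ p + 2 * C₁ + C₂) * (X + T) := by
    have b1 : C₀ ^ p * (2 * T - T) ≤ C₀ ^ p * (X + T) := mul_le_mul_of_nonneg_left (by linarith) h10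
    have b2 : C₁ * (X + (2 * T - T + 2 * D)) ≤ C₁ * (2 * (X + T)) := mul_le_mul_of_nonneg_left (by linarith) hC₁.le
    have b3 : C₂ * (X + (2 * T - T)) ≤ C₂ * (X + T) := mul_le_mul_of_nonneg_left (by linarith) hC₂.le
    linarith
  calc 4 ^ p * (C₀ ^ p * (2 * T - T) + C₁ * (X + (2 * T - T + 2 * D)) + C₂ * (X + (2 * T - T)))
      ≤ 4 ^ p * ((C₀ ^ p + 2 * C₁ + C₂) * (X + T)) := mul_le_mul_of_nonneg_left h11 (by positivity)
    _ = _ := by ring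

theorem cdiff_hi {p κ : ℝ} (hp : 1 < p) (hκ : 0 < κ) :
    ∃ A : ℕ, ∀ T : ℝ, (A:ℝ) ≤ T → ∀ N : ℕ, 1 ≤ N → (N:ℝ) * Real.log T ^ 4 ≤ T → (T / N) ^ A ≤ T →
      ∫ t in T..(2 * T), |gxx N ⌊T / DN N⌋₊ t| ^ p ≤ κ * (T * Real.log (T / N) ^ (p ^ 2 / 4)) := by
  have hp0 : 0 < p := by linarith
  obtain ⟨q, hq⟩ : ∃ q : ℝ, q = p ^ 2 / 4 := ⟨_, rfl⟩
  have hq0 : 0 < q := by rw [hq]; positivity
  obtain ⟨C, T₁, hC, hdiff⟩ := crem_diff p hp
  obtain ⟨T₂, hgeom⟩ := geom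
  obtain ⟨η, hη, hη2, A₁, hnear⟩ := near_unif hp0 (show 0 < κ / (6 * C) by positivity)
  simp only [← hq] at hnear ⊢
  have hll : Tendsto (fun T : ℝ => Real.log (Real.log T)) atTop atTop := Real.tendsto_log_atTop.comp Real.tendsto_log_atTop
  have hev : ∀ᶠ T : ℝ in atTop, (A₁ : ℝ) ≤ Real.log T ∧ 2 * Real.log 6 / η ≤ Real.log (Real.log T) ∧
      4 * C / κ ≤ Real.log (Real.log T) ^ q ∧ 1 ≤ Real.log (Real.log T) ∧ T₁ ≤ T ∧ T₂ ≤ T ∧ 1 ≤ T ∧ 1 ≤ Real.log T := by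
    filter_upwards [Real.tendsto_log_atTop.eventually_ge_atTop (A₁ : ℝ),
      hll.eventually_ge_atTop (2 * Real.log 6 / η),
      ((tendsto_rpow_atTop hq0).comp hll).eventually_ge_atTop (4 * C / κ), hll.eventually_ge_atTop 1,
      eventually_ge_atTop T₁, eventually_ge_atTop T₂, eventually_ge_atTop 1, Real.tendsto_log_atTop.eventually_ge_atTop 1] with T a1 a3 a5 a6 a7 a8 a9 a10
    exact ⟨a1, a3, a5, a6, a7, a8, a9, a10⟩
  obtain ⟨T₃, hT₃⟩ := eventually_atTop.1 hev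
  obtain ⟨A₃, hA₃⟩ := exists_nat_ge T₃
  refine ⟨A₁ + A₃ + 2, ?_⟩
  intro T hTA N hN hNT hYA
  have hT3 : T₃ ≤ T := by
    refine hA₃.trans (le_trans ?_ hTA)
    exact_mod_cast (by omega : A₃ ≤ A₁ + A₃ + 2)
  obtain ⟨a1, a3, a5, a6, a7, a8, a9, a10⟩ := hT₃ T hT3
  have hTp : 0 < T := by linarith
  have hN0 : (0:ℝ) < N := by exact_mod_cast hN
  obtain ⟨hNT1, hY1, hsN⟩ := pair (by omega) a10 a9 hN hNT hYA
  obtain ⟨g1, g2, g3, g4⟩ := hgeom T a8 N hsN hNT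
  have hdd := hdiff T a7 N hsN hNT
  obtain ⟨d1, d2, d3⟩ := DN_bd hN
  have hfl := Nat.lt_floor_add_one (T / DN N)
  set M0 := ⌊T / DN N⌋₊ with hM0
  have hM0r : (4:ℝ) ≤ M0 := by exact_mod_cast g3
  obtain ⟨M1, hM1⟩ : ∃ M1 : ℕ, M1 = 2 * M0 + 4 := ⟨_, rfl⟩
  have hM1r : (M1:ℝ) = 2 * M0 + 4 := by rw [hM1]; push_cast; ring
  obtain ⟨Y, hY⟩ : ∃ Y : ℝ, Y = T / N := ⟨_, rfl⟩
  rw [← hY] at g1 g2 hY1 hYA ⊢
  have hM1Y : (M1:ℝ) ≤ Y := by linarith
  obtain ⟨L, hL⟩ : ∃ L : ℝ, L = Real.log Y := ⟨_, rfl⟩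
  rw [← hL]
  have hl0 : Real.log (Real.log T) ≤ Real.log M0 := Real.log_le_log (by linarith) g4
  have hl1 : Real.log M0 ≤ Real.log M1 := Real.log_le_log (by linarith) (by linarith)
  have hl2 : Real.log M1 ≤ L := by rw [hL]; exact Real.log_le_log (by linarith) hM1Y
  have hL1 : 1 ≤ L := by linarith
  have hL0 : 0 < L := by linarith
  have hLq : 0 < L ^ q := by positivity
  have hpw : (M1:ℝ) ^ A₁ ≤ T := by
    calc (M1:ℝ) ^ A₁ ≤ Y ^ A₁ := pow_le_pow_left₀ (Nat.cast_nonneg _) hM1Y A₁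
      _ ≤ Y ^ (A₁ + A₃ + 2) := pow_le_pow_right₀ hY1 (by omega)
      _ ≤ T := hYA
  obtain ⟨w, hw⟩ : ∃ w : ℕ → ℝ, w = fun n : ℕ => be η (xN M1 * Real.log n) := ⟨_, rfl⟩
  have hM13 : 3 ≤ M1 := by omega
  have hx1 := xN_pos hM13
  have hlM1 : 0 < Real.log M1 := by linarith
  have hw1 : ∀ n, M0 < n → n ≤ M1 → w n = 1 := by
    intro n hn1 hn2
    have hn1r : (M0:ℝ) ≤ n := by exact_mod_cast hn1.le
    have hn2r : (n:ℝ) ≤ M1 := by exact_mod_cast hn2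
    have b1 : Real.log n ≤ Real.log M1 := Real.log_le_log (by linarith) hn2r
    have b2 : Real.log M0 ≤ Real.log n := Real.log_le_log (by linarith) hn1r
    have b3 : Real.log M1 ≤ Real.log 6 + Real.log M0 := by
      rw [← Real.log_mul (by norm_num) (by linarith)]
      exact Real.log_le_log (by linarith) (by linarith)
    have b4 : Real.log 6 ≤ η / 2 * Real.log M1 := by
      have : 2 * Real.log 6 / η ≤ Real.log M1 := by linarith
      rw [div_le_iff₀ hη] at this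
      linarith
    have b5 : xN M1 * Real.log n = Real.log n / Real.log M1 := by unfold xN; ring
    rw [hw]
    show be η (xN M1 * Real.log n) = 1
    rw [b5]
    refine be_top hη (div_nonneg (Real.log_natCast_nonneg _) hlM1.le) ?_ ?_
    · rw [le_div_iff₀ hlM1]; linarith
    · rw [div_le_iff₀ hlM1]; linarith
  have hcond1 : 2 * T / DN N ≤ M1 := by
    rw [hM1r, mul_div_assoc]; linarith
  have hcond2 : (M1 : ℝ) ≤ 4 * Real.sqrt T := by
    have e1 : Real.sqrt T * Real.sqrt T = T := Real.mul_self_sqrt hTp.le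
    have e2 : Y ≤ Real.sqrt T := by
      rw [hY, div_le_iff₀ hN0]
      nlinarith [Real.sqrt_nonneg T]
    linarith [Real.sqrt_nonneg T]
  have hD := hdd M1 hcond1 hcond2 M0 (by omega) le_rfl w (fun n => by rw [hw]; exact be_abs _ _) hw1
  have hM1A : A₁ ≤ M1 := by
    have : (A₁:ℝ) ≤ M1 := by linarith
    exact_mod_cast this
  have hnr := hnear M1 hM1A (3 * T) (hpw.trans (by linarith))
  rw [← hw] at hnr
  refine hD.trans ?_
  have e2 : Real.log M1 ^ q ≤ L ^ q := Real.rpow_le_rpow hlM1.le hl2 hq0.le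
  have e3 : ∫ t in (0:ℝ)..(3 * T), ‖WW w M1 t‖ ^ p ≤ κ / (6 * C) * (3 * T) * L ^ q :=
    hnr.trans (mul_le_mul_of_nonneg_left e2 (by positivity))
  have e4 : 4 * C / κ ≤ L ^ q := a5.trans (Real.rpow_le_rpow (by linarith) (by linarith) hq0.le)
  rw [div_le_iff₀ hκ] at e4
  have e5 : C * (κ / (6 * C) * (3 * T) * L ^ q + T) = κ / 2 * (T * L ^ q) + C * T := by
    field_simp
    ring
  have e6 : C * T ≤ κ / 4 * (T * L ^ q) := by nlinarith
  have e7 := mul_le_mul_of_nonneg_left (add_le_add e3 (le_refl T)) hC.le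
  have e8 : 0 < κ * (T * L ^ q) := by positivity
  linarith

/-- the same, small exponents -/
theorem cdiff_lo {p κ : ℝ} (hp : 0 < p) (hp2 : p ≤ 2) (hκ : 0 < κ) :
    ∃ A : ℕ, ∀ T : ℝ, (A:ℝ) ≤ T → ∀ N : ℕ, 1 ≤ N → (N:ℝ) * Real.log T ^ 4 ≤ T → (T / N) ^ A ≤ T →
      ∫ t in T..(2 * T), |gxx N ⌊T / DN N⌋₊ t| ^ p ≤ κ * (T * Real.log (T / N) ^ (p ^ 2 / 4)) := by
  obtain ⟨q, hq⟩ : ∃ q : ℝ, q = p ^ 2 / 4 := ⟨_, rfl⟩
  have hq0 : 0 < q := by rw [hq]; positivity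
  obtain ⟨C, T₁, hC, hdiff⟩ := crem_diff 2 (by norm_num)
  obtain ⟨T₂, hgeom⟩ := geom
  simp only [← hq]
  have hll : Tendsto (fun T : ℝ => Real.log (Real.log T)) atTop atTop := Real.tendsto_log_atTop.comp Real.tendsto_log_atTop
  have hev : ∀ᶠ T : ℝ in atTop, (19 * C + 1) / κ ≤ Real.log (Real.log T) ^ q ∧ 1 ≤ Real.log (Real.log T) ∧ T₁ ≤ T ∧ T₂ ≤ T ∧ 1 ≤ T ∧ 1 ≤ Real.log T := by
    filter_upwards [((tendsto_rpow_atTop hq0).comp hll).eventually_ge_atTop ((19 * C + 1) / κ), hll.eventually_ge_atTop 1,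
      eventually_ge_atTop T₁, eventually_ge_atTop T₂, eventually_ge_atTop 1, Real.tendsto_log_atTop.eventually_ge_atTop 1] with T a5 a6 a7 a8 a9 a10
    exact ⟨a5, a6, a7, a8, a9, a10⟩
  obtain ⟨T₃, hT₃⟩ := eventually_atTop.1 hev
  obtain ⟨A₃, hA₃⟩ := exists_nat_ge T₃
  refine ⟨A₃ + 2, ?_⟩
  intro T hTA N hN hNT hYA
  have hT3 : T₃ ≤ T := by
    refine hA₃.trans (le_trans ?_ hTA)
    exact_mod_cast (by omega : A₃ ≤ A₃ + 2)
  obtain ⟨a5, a6, a7, a8, a9, a10⟩ := hT₃ T hT3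
  have hTp : 0 < T := by linarith
  have hN0 : (0:ℝ) < N := by exact_mod_cast hN
  obtain ⟨hNT1, hY1, hsN⟩ := pair (by omega) a10 a9 hN hNT hYA
  obtain ⟨g1, g2, g3, g4⟩ := hgeom T a8 N hsN hNT
  have hdd := hdiff T a7 N hsN hNT
  obtain ⟨d1, d2, d3⟩ := DN_bd hN
  have hfl := Nat.lt_floor_add_one (T / DN N)
  set M0 := ⌊T / DN N⌋₊ with hM0
  have hM0r : (4:ℝ) ≤ M0 := by exact_mod_cast g3
  obtain ⟨M1, hM1⟩ : ∃ M1 : ℕ, M1 = 2 * M0 + 4 := ⟨_, rfl⟩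
  have hM1r : (M1:ℝ) = 2 * M0 + 4 := by rw [hM1]; push_cast; ring
  obtain ⟨Y, hY⟩ : ∃ Y : ℝ, Y = T / N := ⟨_, rfl⟩
  rw [← hY] at g1 g2 hY1 hYA ⊢
  have hM1Y : (M1:ℝ) ≤ Y := by linarith
  obtain ⟨L, hL⟩ : ∃ L : ℝ, L = Real.log Y := ⟨_, rfl⟩
  rw [← hL]
  have hl0 : Real.log (Real.log T) ≤ Real.log M0 := Real.log_le_log (by linarith) g4
  have hl2 : Real.log M0 ≤ L := by rw [hL]; exact Real.log_le_log (by linarith) (by linarith)
  have hL1 : 1 ≤ L := by linarith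
  have hL0 : 0 < L := by linarith
  have hLq : 0 < L ^ q := by positivity
  have hY2 : Y ^ 2 ≤ T := (pow_le_pow_right₀ hY1 (by omega)).trans hYA
  obtain ⟨w, hw⟩ : ∃ w : ℕ → ℝ, w = fun n : ℕ => if M0 < n then 1 else 0 := ⟨_, rfl⟩
  have hcond1 : 2 * T / DN N ≤ M1 := by
    rw [hM1r, mul_div_assoc]; linarith
  have hcond2 : (M1 : ℝ) ≤ 4 * Real.sqrt T := by
    have e1 : Real.sqrt T * Real.sqrt T = T := Real.mul_self_sqrt hTp.le
    have e2 : Y ≤ Real.sqrt T := by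
      rw [hY, div_le_iff₀ hN0]
      nlinarith [Real.sqrt_nonneg T]
    linarith [Real.sqrt_nonneg T]
  have hD := hdd M1 hcond1 hcond2 M0 (by omega) le_rfl w (fun n => by
    rw [hw]
    show |if M0 < n then (1:ℝ) else 0| ≤ 1
    split_ifs <;> simp) (fun n h1 _ => by
    rw [hw]
    show (if M0 < n then (1:ℝ) else 0) = 1
    rw [if_pos h1])
  have hsq := WW_sq w (show 1 ≤ M1 by omega) (show 0 < 3 * T by linarith) (by
    have : (M1:ℝ) ^ 2 ≤ Y ^ 2 := pow_le_pow_left₀ (Nat.cast_nonneg _) hM1Y 2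
    linarith)
  have hsum : ∑ n ∈ Finset.Icc 1 M1, w n ^ 2 / n ≤ 2 := by
    have e1 : ∀ n ∈ Finset.Icc 1 M1, w n ^ 2 / n ≤ if M0 < n then 1 / (M0:ℝ) else 0 := by
      intro n hn
      rw [hw]
      show (if M0 < n then (1:ℝ) else 0) ^ 2 / n ≤ _
      split_ifs with h
      · have : (M0:ℝ) ≤ n := by exact_mod_cast h.le
        rw [one_pow]
        exact one_div_le_one_div_of_le (by linarith) this
      · simp
    refine (Finset.sum_le_sum e1).trans ?_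
    rw [← Finset.sum_filter, Finset.sum_const, nsmul_eq_mul]
    have e2 : (Finset.Icc 1 M1).filter (fun n => M0 < n) ⊆ Finset.Ioc M0 M1 := by
      intro n hn
      rw [Finset.mem_filter, Finset.mem_Icc] at hn
      rw [Finset.mem_Ioc]
      exact ⟨hn.2, hn.1.2⟩
    have e3 : ((((Finset.Icc 1 M1).filter (fun n => M0 < n)).card : ℕ) : ℝ) ≤ M0 + 4 := by
      have e4 := Finset.card_le_card e2
      rw [Nat.card_Ioc] at e4
      have e5 : ((Finset.Icc 1 M1).filter (fun n => M0 < n)).card ≤ M0 + 4 := by omega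
      exact_mod_cast e5
    rw [mul_one_div, div_le_iff₀ (by linarith)]
    linarith
  have hI2 : ∫ t in T..(2 * T), |gxx N M0 t| ^ (2:ℝ) ≤ 19 * C * T := by
    refine hD.trans ?_
    have e1 : ∫ t in (0:ℝ)..(3 * T), ‖WW w M1 t‖ ^ (2:ℝ) ≤ 18 * T := by
      refine hsq.trans ?_
      have := mul_le_mul_of_nonneg_left hsum (show 0 ≤ 3 * (3 * T) by linarith)
      linarith
    have := mul_le_mul_of_nonneg_left (add_le_add e1 (le_refl T)) hC.le
    linarith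
  have hF : Continuous fun t => |gxx N M0 t| := (gxx_cont N M0).abs
  have hab : T ≤ 2 * T := by linarith
  have hc : ∀ r : ℝ, 0 ≤ r → Continuous fun t => |gxx N M0 t| ^ r := fun r hr => hF.rpow_const fun _ => Or.inr hr
  have hpt : ∀ x : ℝ, 0 ≤ x → x ^ p ≤ 1 + x ^ (2:ℝ) := by
    intro x hx
    rcases le_total x 1 with h | h
    · have := Real.rpow_le_one hx h hp.le
      have := Real.rpow_nonneg hx 2
      linarith
    · have := Real.rpow_le_rpow_of_exponent_le h hp2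
      linarith
  have hI : ∫ t in T..(2 * T), |gxx N M0 t| ^ p ≤ ∫ t in T..(2 * T), (1 + |gxx N M0 t| ^ (2:ℝ)) :=
    intervalIntegral.integral_mono_on hab ((hc p hp.le).intervalIntegrable _ _) ((continuous_const.add (hc 2 (by norm_num))).intervalIntegrable _ _)
      fun t _ => hpt _ (abs_nonneg _)
  rw [intervalIntegral.integral_add (continuous_const.intervalIntegrable _ _) ((hc 2 (by norm_num)).intervalIntegrable _ _),
    intervalIntegral.integral_const, smul_eq_mul, mul_one] at hI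
  have e4 : (19 * C + 1) / κ ≤ L ^ q := a5.trans (Real.rpow_le_rpow (by linarith) (by linarith) hq0.le)
  rw [div_le_iff₀ hκ] at e4
  nlinarith

theorem cdiff_all {p κ : ℝ} (hp : 0 < p) (hκ : 0 < κ) :
    ∃ A : ℕ, ∀ T : ℝ, (A:ℝ) ≤ T → ∀ N : ℕ, 1 ≤ N → (N:ℝ) * Real.log T ^ 4 ≤ T → (T / N) ^ A ≤ T →
      ∫ t in T..(2 * T), |gxx N ⌊T / DN N⌋₊ t| ^ p ≤ κ * (T * Real.log (T / N) ^ (p ^ 2 / 4)) := by
  rcases le_or_gt p 1 with h | h
  · exact cdiff_lo hp (by linarith) hκ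
  · exact cdiff_hi h hκ

end Pool.Agent.H470
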