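import Pool.Agent.H470.Za5

set_option autoImplicit false

/-! Positively homogeneous functionals of short Riemann-Siegel sums and of zeta minus its long partial sums. -/

open Complex MeasureTheory Set Filter Topology

namespace Pool.Agent.H470

lemma cm_conj (Φ : ℂ → ℝ) : cm (fun z => Φ ((starRingEnd ℂ) z)) = cm Φ := by
  unfold cm
  congr 1
  have h1 : ∀ y : ℝ, Φ ((starRingEnd ℂ) (cexp ((y : ℂ) * I))) = (fun y : ℝ => Φ (cexp ((y : ℂ) * I))) (2 * Real.pi - y) := by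
    intro y
    show _ = Φ (cexp (((2 * Real.pi - y : ℝ) : ℂ) * I))
    congr 1
    rw [← Complex.exp_conj, map_mul, Complex.conj_I, Complex.conj_ofReal]
    push_cast
    rw [sub_mul, Complex.exp_sub, Complex.exp_two_pi_mul_I, mul_neg, Complex.exp_neg, one_div]
  simp_rw [h1]
  rw [intervalIntegral.integral_comp_sub_left (fun y : ℝ => Φ (cexp ((y : ℂ) * I))) (2 * Real.pi), sub_self, sub_zero]

lemma cm_neg (Φ : ℂ → ℝ) : cm (fun z => Φ (-z)) = cm Φ := by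
  unfold cm
  congr 1
  have h1 : ∀ y : ℝ, Φ (-(cexp ((y : ℂ) * I))) = (fun y : ℝ => Φ (cexp ((y : ℂ) * I))) (y + Real.pi) := by
    intro y
    show _ = Φ (cexp (((y + Real.pi : ℝ) : ℂ) * I))
    congr 1
    push_cast
    rw [add_mul, Complex.exp_add, Complex.exp_pi_mul_I, mul_neg, mul_one]
  simp_rw [h1]
  rw [intervalIntegral.integral_comp_add_right (fun y : ℝ => Φ (cexp ((y : ℂ) * I))) Real.pi, zero_add]
  have hper : Function.Periodic (fun y : ℝ => Φ (cexp ((y : ℂ) * I))) (2 * Real.pi) := by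
    intro y
    show Φ (cexp (((y + 2 * Real.pi : ℝ) : ℂ) * I)) = Φ (cexp ((y : ℂ) * I))
    congr 1
    push_cast
    rw [add_mul, Complex.exp_add, Complex.exp_two_pi_mul_I, mul_one]
  have := hper.intervalIntegral_add_eq Real.pi 0
  rw [zero_add] at this
  rw [← this, add_comm]

lemma PH.conj {p : ℝ} {Φ : ℂ → ℝ} (h : PH p Φ) : PH p (fun z => Φ ((starRingEnd ℂ) z)) := by
  intro r z hr
  show Φ ((starRingEnd ℂ) ((r : ℂ) • z)) = _
  rw [smul_eq_mul, map_mul, Complex.conj_ofReal]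
  exact h r _ hr

lemma norm_PH (p : ℝ) : PH p (fun z => ‖z‖ ^ p) := by
  intro r z hr
  show ‖(r : ℂ) • z‖ ^ p = _
  rw [norm_smul, Complex.norm_real, Real.norm_of_nonneg hr, Real.mul_rpow hr (norm_nonneg _)]

/-- short sums -/
theorem short_signed {p : ℝ} (hp : 0 < p) {c : ℝ} (_hc : 0 < c)
    (hsum : ∀ ε : ℝ, 0 < ε → ∃ A : ℕ, ∀ M : ℕ, A ≤ M → ∀ T : ℝ, (M:ℝ) ^ A ≤ T →
      |1 / T * (∫ t in (0:ℝ)..T, ‖AA M t‖ ^ p) / Real.log M ^ (p ^ 2 / 4) - c| ≤ ε)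
    {w : ℝ → ℂ} (hw : Ph w) {Φ : ℂ → ℝ} (hΦ : Continuous Φ) (hom : PH p Φ) {ε : ℝ} (hε : 0 < ε) :
    ∃ A : ℕ, ∀ M : ℕ, A ≤ M → ∀ T : ℝ, (M:ℝ) ^ A ≤ T →
      |1 / T * (∫ t in T..(2 * T), Φ (w t * AA M t)) / Real.log M ^ (p ^ 2 / 4) - c * cm Φ| ≤ ε := by
  obtain ⟨A1, h1⟩ := avg_th hp hΦ hom (show 0 < ε / 2 by positivity)
  obtain ⟨A2, h2⟩ := hsum (ε / (6 * (|cm Φ| + 1))) (by positivity)
  refine ⟨max (max A1 A2) 3, ?_⟩
  intro M hM T hT
  have b1 : A1 ≤ max (max A1 A2) 3 := (le_max_left _ _).trans (le_max_left _ _)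
  have b2 : A2 ≤ max (max A1 A2) 3 := (le_max_right _ _).trans (le_max_left _ _)
  have b3 : 3 ≤ max (max A1 A2) 3 := le_max_right _ _
  have hM3 : 3 ≤ M := b3.trans hM
  have hMr : (3 : ℝ) ≤ M := by exact_mod_cast hM3
  have hM1 : (1 : ℝ) ≤ M := by linarith
  have hTp : 0 < T := lt_of_lt_of_le (pow_pos (by linarith) _) hT
  have hlam : 1 ≤ Real.log M := log_N hM3
  have g1 := h1 hw M (b1.trans hM) T ((pow_le_pow_right₀ hM1 b1).trans hT)
  have g2 := h2 M (b2.trans hM) T ((pow_le_pow_right₀ hM1 b2).trans hT)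
  have g3 := h2 M (b2.trans hM) (2 * T) ((pow_le_pow_right₀ hM1 b2).trans (hT.trans (by linarith)))
  obtain ⟨X, hX⟩ : ∃ X : ℝ, X = Real.log M ^ (p ^ 2 / 4) := ⟨_, rfl⟩
  have hX0 : 0 < X := by rw [hX]; exact Real.rpow_pos_of_pos (by linarith) _
  rw [← hX] at g1 g2 g3 ⊢
  have hYc : Continuous fun t => ‖AA M t‖ ^ p := normp_cont (AA_cont M) hp.le
  have hadd := intervalIntegral.integral_add_adjacent_intervals (hYc.intervalIntegrable 0 T) (hYc.intervalIntegrable (μ := volume) T (2 * T))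
  obtain ⟨J, hJ⟩ : ∃ J : ℝ, J = ∫ t in T..(2 * T), Φ (w t * AA M t) := ⟨_, rfl⟩
  obtain ⟨Y, hY⟩ : ∃ Y : ℝ, Y = ∫ t in T..(2 * T), ‖AA M t‖ ^ p := ⟨_, rfl⟩
  obtain ⟨Y0, hY0⟩ : ∃ Y0 : ℝ, Y0 = ∫ t in (0:ℝ)..T, ‖AA M t‖ ^ p := ⟨_, rfl⟩
  rw [← hY, ← hY0] at hadd
  rw [← hadd] at g3
  rw [← hY0] at g2
  rw [← hJ, ← hY] at g1
  rw [← hJ]
  -- the mean of Y
  have k1 : |1 / T * Y / X - c| ≤ ε / (2 * (|cm Φ| + 1)) := by
    have e1 : 1 / T * Y / X - c = 2 * (1 / (2 * T) * (Y0 + Y) / X - c) - (1 / T * Y0 / X - c) := by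
      field_simp
      ring
    rw [e1]
    have e2 := abs_sub (2 * (1 / (2 * T) * (Y0 + Y) / X - c)) (1 / T * Y0 / X - c)
    rw [abs_mul, abs_two] at e2
    have e3 : ε / (2 * (|cm Φ| + 1)) = 3 * (ε / (6 * (|cm Φ| + 1))) := by field_simp; norm_num
    rw [e3]
    linarith
  have k2 : |1 / T * J / X - cm Φ * (1 / T * Y / X)| ≤ ε / 2 := by
    have e1 : 1 / T * J / X - cm Φ * (1 / T * Y / X) = (J - cm Φ * Y) / (T * X) := by field_simp
    rw [e1, abs_div, abs_of_pos (show 0 < T * X by positivity), div_le_iff₀ (by positivity)]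
    exact g1
  have k3 : |cm Φ * (1 / T * Y / X) - c * cm Φ| ≤ ε / 2 := by
    have e1 : cm Φ * (1 / T * Y / X) - c * cm Φ = cm Φ * (1 / T * Y / X - c) := by ring
    rw [e1, abs_mul]
    calc |cm Φ| * |1 / T * Y / X - c| ≤ (|cm Φ| + 1) * (ε / (2 * (|cm Φ| + 1))) :=
          mul_le_mul (by linarith) k1 (abs_nonneg _) (by positivity)
      _ = ε / 2 := by field_simp
  have k4 := abs_sub_le (1 / T * J / X) (cm Φ * (1 / T * Y / X)) (c * cm Φ)
  linarith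

/-- zeta minus long sums: reduction to the moduli -/
theorem long_red {p : ℝ} (hp : 0 < p)
    {w : ℝ → ℂ} (hw : Ph w) {Φ : ℂ → ℝ} (hΦ : Continuous Φ) (hom : PH p Φ) {ε : ℝ} (hε : 0 < ε) :
    ∃ A : ℕ, ∀ T : ℝ, (A:ℝ) ≤ T → ∀ N : ℕ, 1 ≤ N → (N:ℝ) * Real.log T ^ 4 ≤ T → (T / N) ^ A ≤ T →
      |(∫ t in T..(2 * T), Φ (w t * (zz t - AA N t))) - cm Φ * ∫ t in T..(2 * T), ‖AA ⌊T / DN N⌋₊ t‖ ^ p| ≤
        ε * (T * Real.log (T / N) ^ (p ^ 2 / 4)) := by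
  obtain ⟨c, hc0, hsum⟩ := sums_unif hp
  obtain ⟨A1, hA1⟩ := hsum 1 one_pos
  set K3 := 2 * (c + 1) with hK3
  have hK3p : 0 < K3 := by positivity
  set e1 := ε / (3 * K3) with he1
  have he1p : 0 < e1 := by positivity
  obtain ⟨C, hC0, hmod⟩ := ph_mod hΦ hp hom he1p
  obtain ⟨A2, hA2⟩ := cdiff_all hp (show 0 < ε / (3 * (C + 1)) by positivity)
  obtain ⟨A3, hA3⟩ := avg_th hp (hΦ.comp Complex.continuous_conj) hom.conj (show 0 < ε / 3 by positivity)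
  obtain ⟨T₂, hgeom⟩ := geom
  have hll : Tendsto (fun T : ℝ => Real.log (Real.log T)) atTop atTop := Real.tendsto_log_atTop.comp Real.tendsto_log_atTop
  obtain ⟨T₃, hT₃⟩ := eventually_atTop.1 ((Real.tendsto_log_atTop.eventually_ge_atTop ((A1 + A3 : ℕ) : ℝ)).and ((hll.eventually_ge_atTop 1).and
    ((eventually_ge_atTop T₂).and ((eventually_ge_atTop (1:ℝ)).and (Real.tendsto_log_atTop.eventually_ge_atTop 1)))))
  obtain ⟨A4, hA4⟩ := exists_nat_ge T₃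
  refine ⟨A1 + A2 + A3 + A4 + 2, ?_⟩
  intro T hTA N hN hNT hYA
  have hT3 : T₃ ≤ T := by
    refine hA4.trans (le_trans ?_ hTA)
    exact_mod_cast (by omega : A4 ≤ A1 + A2 + A3 + A4 + 2)
  obtain ⟨a1, a2, a3, a4, a5⟩ := hT₃ T hT3
  have hTp : 0 < T := by linarith
  have hN0 : (0:ℝ) < N := by exact_mod_cast hN
  obtain ⟨hNT1, hY1, hsN⟩ := pair (by omega) a5 a4 hN hNT hYA
  obtain ⟨g1, g2, g3, g4⟩ := hgeom T a3 N hsN hNT
  have hdd := hA2 T (le_trans (by exact_mod_cast (by omega : A2 ≤ A1 + A2 + A3 + A4 + 2)) hTA) N hN hNT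
    ((pow_le_pow_right₀ hY1 (by omega)).trans hYA)
  set M0 := ⌊T / DN N⌋₊ with hM0
  have hM0r : (4:ℝ) ≤ M0 := by exact_mod_cast g3
  have hM0Y : (M0:ℝ) ≤ T / N := by linarith
  have hM0A : A1 + A3 ≤ M0 := by
    have : ((A1 + A3 : ℕ) : ℝ) ≤ M0 := a1.trans g4
    exact_mod_cast this
  have hpw : ∀ B : ℕ, B ≤ A1 + A2 + A3 + A4 + 2 → (M0:ℝ) ^ B ≤ T := fun B hB =>
    (pow_le_pow_left₀ (Nat.cast_nonneg _) hM0Y B).trans ((pow_le_pow_right₀ hY1 hB).trans hYA)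
  obtain ⟨q, hq⟩ : ∃ q : ℝ, q = p ^ 2 / 4 := ⟨_, rfl⟩
  have hq0 : 0 ≤ q := by rw [hq]; positivity
  have hlM0 : 1 ≤ Real.log M0 := le_trans a2 (Real.log_le_log (by linarith) g4)
  have hlq : Real.log M0 ^ q ≤ Real.log (T / N) ^ q :=
    Real.rpow_le_rpow (by linarith) (Real.log_le_log (by linarith) hM0Y) hq0
  have hV0 : 0 < Real.log M0 ^ q := Real.rpow_pos_of_pos (by linarith) _
  set V := T * Real.log (T / N) ^ q with hV
  have hVM : T * Real.log M0 ^ q ≤ V := mul_le_mul_of_nonneg_left hlq hTp.le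
  have hVp : 0 < V := lt_of_lt_of_le (by positivity) hVM
  -- moments of the dual sum
  have hYc : Continuous fun t => ‖AA M0 t‖ ^ p := normp_cont (AA_cont M0) hp.le
  have hY : ∫ t in T..(2 * T), ‖AA M0 t‖ ^ p ≤ K3 * V := by
    have h1 := hA1 M0 (by omega) (2 * T) ((hpw A1 (by omega)).trans (by linarith))
    rw [← hq] at h1
    have h2 := (abs_le.1 h1).2
    have h3 : 1 / (2 * T) * (∫ t in (0:ℝ)..(2 * T), ‖AA M0 t‖ ^ p) / Real.log M0 ^ q ≤ c + 1 := by linarith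
    rw [div_le_iff₀ hV0, one_div, inv_mul_le_iff₀ (by positivity)] at h3
    calc _ ≤ ∫ t in (0:ℝ)..(2 * T), ‖AA M0 t‖ ^ p :=
          int_mono_set hYc (fun t => Real.rpow_nonneg (norm_nonneg _) _) (by linarith) (by linarith) (by linarith)
      _ ≤ _ := h3
      _ = K3 * (T * Real.log M0 ^ q) := by rw [hK3]; ring
      _ ≤ K3 * V := mul_le_mul_of_nonneg_left hVM hK3p.le
  have h3 := hA3 hw M0 (by omega) T (hpw A3 (by omega))
  rw [← hq] at h3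
  rw [← hq] at hdd
  have ecm : cm (Φ ∘ (starRingEnd ℂ)) = cm Φ := cm_conj Φ
  rw [ecm] at h3
  -- the comparison
  have hc1 : Continuous fun t => Φ (w t * (zz t - AA N t)) := hΦ.comp (hw.cont.mul (zz_cont.sub (AA_cont N)))
  have hc2 : Continuous fun t => (Φ ∘ (starRingEnd ℂ)) (w t * AA M0 t) := (hΦ.comp Complex.continuous_conj).comp (hw.cont.mul (AA_cont M0))
  have hc3 : Continuous fun t => |gxx N M0 t| ^ p := (gxx_cont N M0).abs.rpow_const fun _ => Or.inr hp.le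
  have hcmp : |(∫ t in T..(2 * T), Φ (w t * (zz t - AA N t))) - ∫ t in T..(2 * T), (Φ ∘ (starRingEnd ℂ)) (w t * AA M0 t)| ≤
      e1 * (∫ t in T..(2 * T), ‖AA M0 t‖ ^ p) + C * ∫ t in T..(2 * T), |gxx N M0 t| ^ p := by
    rw [← intervalIntegral.integral_sub (hc1.intervalIntegrable _ _) (hc2.intervalIntegrable _ _)]
    refine (intervalIntegral.abs_integral_le_integral_abs (by linarith)).trans ?_
    have i1 : IntervalIntegrable (fun t => e1 * ‖AA M0 t‖ ^ p) volume T (2 * T) := (continuous_const.mul hYc).intervalIntegrable _ _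
    have i2 : IntervalIntegrable (fun t => C * |gxx N M0 t| ^ p) volume T (2 * T) := (continuous_const.mul hc3).intervalIntegrable _ _
    rw [← intervalIntegral.integral_const_mul, ← intervalIntegral.integral_const_mul, ← intervalIntegral.integral_add i1 i2]
    refine intervalIntegral.integral_mono_on (by linarith) ((hc1.sub hc2).abs.intervalIntegrable _ _) (i1.add i2) fun t ht => ?_
    have h5 := hmod (w t * (zz t - AA N t)) ((starRingEnd ℂ) (w t * AA M0 t))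
    have h6 : ‖(starRingEnd ℂ) (w t * AA M0 t)‖ = ‖AA M0 t‖ := by rw [RCLike.norm_conj, norm_mul, hw.norm, one_mul]
    have h7 : ‖w t * (zz t - AA N t) - (starRingEnd ℂ) (w t * AA M0 t)‖ = |gxx N M0 t| := by
      unfold gxx
      rw [abs_of_nonneg (norm_nonneg _)]
      have hnn : w t * (starRingEnd ℂ) (w t) = 1 := by
        rw [Complex.mul_conj, Complex.normSq_eq_norm_sq, hw.norm t]; norm_num
      have hs := hw.sq t (by linarith [ht.1])
      have e2 : w t * (zz t - AA N t) - (starRingEnd ℂ) (w t * AA M0 t) = w t * (zz t - AA N t - chi t * (starRingEnd ℂ) (AA M0 t)) := by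
        rw [map_mul]
        linear_combination (starRingEnd ℂ) (AA M0 t) * (starRingEnd ℂ) (w t) * hs - chi t * w t * (starRingEnd ℂ) (AA M0 t) * hnn
      rw [e2, norm_mul, hw.norm, one_mul]
    rw [h6, h7] at h5
    exact h5
  have h8 : e1 * (∫ t in T..(2 * T), ‖AA M0 t‖ ^ p) ≤ ε / 3 * V := by
    calc _ ≤ e1 * (K3 * V) := mul_le_mul_of_nonneg_left hY he1p.le
      _ = ε / 3 * V := by rw [he1]; field_simp
  have h9 : C * (∫ t in T..(2 * T), |gxx N M0 t| ^ p) ≤ ε / 3 * V := by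
    have hn : 0 ≤ ε / (3 * (C + 1)) * V := by positivity
    calc _ ≤ C * (ε / (3 * (C + 1)) * V) := mul_le_mul_of_nonneg_left hdd hC0
      _ ≤ (C + 1) * (ε / (3 * (C + 1)) * V) := mul_le_mul_of_nonneg_right (by linarith) hn
      _ = ε / 3 * V := by field_simp
  have h10 : ε / 3 * (T * Real.log M0 ^ q) ≤ ε / 3 * V := mul_le_mul_of_nonneg_left hVM (by positivity)
  have h11 := abs_sub_le (∫ t in T..(2 * T), Φ (w t * (zz t - AA N t))) (∫ t in T..(2 * T), (Φ ∘ (starRingEnd ℂ)) (w t * AA M0 t))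
    (cm Φ * ∫ t in T..(2 * T), ‖AA M0 t‖ ^ p)
  have h12 : ε / 3 * V + ε / 3 * V + ε / 3 * V = ε * V := by ring
  rw [← hq]
  linarith

lemma cm_norm (p : ℝ) : cm (fun z => ‖z‖ ^ p) = 1 := by
  unfold cm
  have : ∀ y : ℝ, ‖cexp ((y : ℂ) * I)‖ ^ p = 1 := fun y => by rw [Complex.norm_exp_ofReal_mul_I, Real.one_rpow]
  simp_rw [this]
  rw [intervalIntegral.integral_const, smul_eq_mul, mul_one, sub_zero]
  have := Real.pi_pos
  field_simp

/-- zeta minus long sums -/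
theorem long_signed {p : ℝ} (hp : 0 < p) {c : ℝ} (hc : 0 < c)
    (hsum : ∀ ε : ℝ, 0 < ε → ∃ A : ℕ, ∀ M : ℕ, A ≤ M → ∀ T : ℝ, (M:ℝ) ^ A ≤ T →
      |1 / T * (∫ t in (0:ℝ)..T, ‖AA M t‖ ^ p) / Real.log M ^ (p ^ 2 / 4) - c| ≤ ε)
    {w : ℝ → ℂ} (hw : Ph w) {Φ : ℂ → ℝ} (hΦ : Continuous Φ) (hom : PH p Φ) {ε : ℝ} (hε : 0 < ε) :
    ∃ A : ℕ, ∀ T : ℝ, (A:ℝ) ≤ T → ∀ N : ℕ, 1 ≤ N → (N:ℝ) * Real.log T ^ 4 ≤ T → (T / N) ^ A ≤ T →
      |1 / T * (∫ t in T..(2 * T), Φ (w t * (zz t - AA N t))) / Real.log (T / N) ^ (p ^ 2 / 4) - c * cm Φ| ≤ ε := by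
  obtain ⟨A1, h1⟩ := long_red hp hw hΦ hom (show 0 < ε / 3 by positivity)
  obtain ⟨A2, h2⟩ := long_red hp hw (continuous_norm.rpow_const fun _ => Or.inr hp.le) (norm_PH p) (show 0 < ε / (3 * (|cm Φ| + 1)) by positivity)
  obtain ⟨A3, h3⟩ := long_asymp hp hc hsum (show 0 < ε / (3 * (|cm Φ| + 1)) by positivity)
  have hll : Tendsto (fun T : ℝ => Real.log (Real.log T)) atTop atTop := Real.tendsto_log_atTop.comp Real.tendsto_log_atTop
  obtain ⟨T₂, hgeom⟩ := geom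
  obtain ⟨T₃, hT₃⟩ := eventually_atTop.1 ((hll.eventually_ge_atTop 1).and
    ((eventually_ge_atTop T₂).and ((eventually_ge_atTop (1:ℝ)).and (Real.tendsto_log_atTop.eventually_ge_atTop 1))))
  obtain ⟨A4, hA4⟩ := exists_nat_ge T₃
  refine ⟨A1 + A2 + A3 + A4 + 2, ?_⟩
  intro T hTA N hN hNT hYA
  have hT3 : T₃ ≤ T := by
    refine hA4.trans (le_trans ?_ hTA)
    exact_mod_cast (by omega : A4 ≤ A1 + A2 + A3 + A4 + 2)
  obtain ⟨a2, a3, a4, a5⟩ := hT₃ T hT3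
  have hTp : 0 < T := by linarith
  obtain ⟨hNT1, hY1, hsN⟩ := pair (by omega) a5 a4 hN hNT hYA
  obtain ⟨g1, g2, g3, g4⟩ := hgeom T a3 N hsN hNT
  have hle : ∀ B : ℕ, B ≤ A1 + A2 + A3 + A4 + 2 → (B:ℝ) ≤ T ∧ (T / N) ^ B ≤ T := fun B hB =>
    ⟨le_trans (by exact_mod_cast hB) hTA, (pow_le_pow_right₀ hY1 hB).trans hYA⟩
  have k1 := h1 T (hle A1 (by omega)).1 N hN hNT (hle A1 (by omega)).2
  have k2 := h2 T (hle A2 (by omega)).1 N hN hNT (hle A2 (by omega)).2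
  have k3 := h3 T (hle A3 (by omega)).1 N hN hNT (hle A3 (by omega)).2
  rw [cm_norm, one_mul] at k2
  have e0 : ∀ t, ‖w t * (zz t - AA N t)‖ ^ p = ‖zz t - AA N t‖ ^ p := fun t => by rw [norm_mul, hw.norm, one_mul]
  simp_rw [e0] at k2
  have hLp : 1 ≤ Real.log (T / N) := by
    refine le_trans a2 (Real.log_le_log (by linarith) ?_)
    have : ((⌊T / DN N⌋₊ : ℕ) : ℝ) ≤ T / N := by
      have : (0:ℝ) ≤ ((⌊T / DN N⌋₊ : ℕ) : ℝ) := Nat.cast_nonneg _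
      linarith
    linarith
  obtain ⟨X, hX⟩ : ∃ X : ℝ, X = Real.log (T / N) ^ (p ^ 2 / 4) := ⟨_, rfl⟩
  have hX0 : 0 < X := by rw [hX]; exact Real.rpow_pos_of_pos (by linarith) _
  rw [← hX] at k1 k2 k3 ⊢
  obtain ⟨J, hJ⟩ : ∃ J : ℝ, J = ∫ t in T..(2 * T), Φ (w t * (zz t - AA N t)) := ⟨_, rfl⟩
  obtain ⟨Y, hY⟩ : ∃ Y : ℝ, Y = ∫ t in T..(2 * T), ‖AA ⌊T / DN N⌋₊ t‖ ^ p := ⟨_, rfl⟩
  obtain ⟨W, hW⟩ : ∃ W : ℝ, W = ∫ t in T..(2 * T), ‖zz t - AA N t‖ ^ p := ⟨_, rfl⟩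
  rw [← hJ, ← hY] at k1
  rw [← hW, ← hY] at k2
  rw [← hW] at k3
  rw [← hJ]
  have hTX : 0 < T * X := by positivity
  have hcm : 0 < |cm Φ| + 1 := by positivity
  have m1 : |1 / T * J / X - cm Φ * (1 / T * Y / X)| ≤ ε / 3 := by
    have e1 : 1 / T * J / X - cm Φ * (1 / T * Y / X) = (J - cm Φ * Y) / (T * X) := by field_simp
    rw [e1, abs_div, abs_of_pos hTX, div_le_iff₀ hTX]
    exact k1
  have m2 : |1 / T * W / X - 1 / T * Y / X| ≤ ε / (3 * (|cm Φ| + 1)) := by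
    have e1 : 1 / T * W / X - 1 / T * Y / X = (W - Y) / (T * X) := by field_simp
    rw [e1, abs_div, abs_of_pos hTX, div_le_iff₀ hTX]
    exact k2
  have m3 : |cm Φ * (1 / T * Y / X) - c * cm Φ| ≤ 2 * (ε / 3) := by
    have e1 : cm Φ * (1 / T * Y / X) - c * cm Φ = cm Φ * ((1 / T * W / X - c) - (1 / T * W / X - 1 / T * Y / X)) := by ring
    rw [e1, abs_mul]
    have e2 := abs_sub (1 / T * W / X - c) (1 / T * W / X - 1 / T * Y / X)
    calc |cm Φ| * |(1 / T * W / X - c) - (1 / T * W / X - 1 / T * Y / X)| ≤ (|cm Φ| + 1) * (2 * (ε / (3 * (|cm Φ| + 1)))) :=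
          mul_le_mul (by linarith) (by linarith) (abs_nonneg _) hcm.le
      _ = 2 * (ε / 3) := by field_simp
  have m4 := abs_sub_le (1 / T * J / X) (cm Φ * (1 / T * Y / X)) (c * cm Φ)
  linarith

/-- zeta against its long partial sums -/
theorem cmp_signed {p : ℝ} (hp : 0 < p) {w : ℝ → ℂ} (hw : Ph w) {Φ : ℂ → ℝ} (hΦ : Continuous Φ) (hom : PH p Φ) {ε : ℝ} (hε : 0 < ε) :
    ∃ A : ℕ, ∀ T : ℝ, (A:ℝ) ≤ T → ∀ N : ℕ, 1 ≤ N → (N:ℝ) ≤ T → (T / N) ^ A ≤ T →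
      |(∫ t in T..(2 * T), Φ (w t * zz t)) - ∫ t in T..(2 * T), Φ (w t * AA N t)| ≤ ε * ∫ t in T..(2 * T), ‖zz t‖ ^ p := by
  obtain ⟨e1, he1⟩ : ∃ e1 : ℝ, e1 = ε / (4 * 2 ^ p) := ⟨_, rfl⟩
  have he1p : 0 < e1 := by rw [he1]; positivity
  obtain ⟨C, hC0, hmod⟩ := ph_mod hΦ hp hom he1p
  obtain ⟨A, hA⟩ := cmp_all hp (show 0 < min 1 (ε / (4 * (C + 1))) by positivity)
  refine ⟨max A 1, ?_⟩
  intro T hT N hN hNT hY
  have hT1 : (1:ℝ) ≤ T := le_trans (by exact_mod_cast le_max_right A 1) hT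
  have hTp : 0 < T := by linarith
  have hN0 : (0:ℝ) < N := by exact_mod_cast hN
  have hY1 : 1 ≤ T / N := by rw [le_div_iff₀ hN0, one_mul]; exact hNT
  obtain ⟨h1, h2⟩ := hA T (le_trans (by exact_mod_cast le_max_left A 1) hT) N hN hNT ((pow_le_pow_right₀ hY1 (le_max_left A 1)).trans hY)
  have hc1 : Continuous fun t => Φ (w t * zz t) := hΦ.comp (hw.cont.mul zz_cont)
  have hc2 : Continuous fun t => Φ (w t * AA N t) := hΦ.comp (hw.cont.mul (AA_cont N))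
  have hc3 : Continuous fun t => ‖zz t - AA N t‖ ^ p := normp_cont (zz_cont.sub (AA_cont N)) hp.le
  have hc4 : Continuous fun t => ‖AA N t‖ ^ p := normp_cont (AA_cont N) hp.le
  have hZ0 : 0 ≤ ∫ t in T..(2 * T), ‖zz t‖ ^ p := intervalIntegral.integral_nonneg (by linarith) fun t _ => Real.rpow_nonneg (norm_nonneg _) _
  have hcmp : |(∫ t in T..(2 * T), Φ (w t * zz t)) - ∫ t in T..(2 * T), Φ (w t * AA N t)| ≤
      e1 * (∫ t in T..(2 * T), ‖AA N t‖ ^ p) + C * ∫ t in T..(2 * T), ‖zz t - AA N t‖ ^ p := by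
    rw [← intervalIntegral.integral_sub (hc1.intervalIntegrable _ _) (hc2.intervalIntegrable _ _)]
    refine (intervalIntegral.abs_integral_le_integral_abs (by linarith)).trans ?_
    have i1 : IntervalIntegrable (fun t => e1 * ‖AA N t‖ ^ p) volume T (2 * T) := (continuous_const.mul hc4).intervalIntegrable _ _
    have i2 : IntervalIntegrable (fun t => C * ‖zz t - AA N t‖ ^ p) volume T (2 * T) := (continuous_const.mul hc3).intervalIntegrable _ _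
    rw [← intervalIntegral.integral_const_mul, ← intervalIntegral.integral_const_mul, ← intervalIntegral.integral_add i1 i2]
    refine intervalIntegral.integral_mono_on (by linarith) ((hc1.sub hc2).abs.intervalIntegrable _ _) (i1.add i2) fun t _ => ?_
    have h5 := hmod (w t * zz t) (w t * AA N t)
    rw [← mul_sub, norm_mul, norm_mul, hw.norm, one_mul, one_mul] at h5
    exact h5
  -- the moments of the partial sum
  have hAle : ∫ t in T..(2 * T), ‖AA N t‖ ^ p ≤ 2 ^ p * (2 * ∫ t in T..(2 * T), ‖zz t‖ ^ p) := by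
    have i3 : IntervalIntegrable (fun t => ‖zz t‖ ^ p) volume T (2 * T) := (normp_cont zz_cont hp.le).intervalIntegrable _ _
    have i4 : IntervalIntegrable (fun t => ‖zz t - AA N t‖ ^ p) volume T (2 * T) := hc3.intervalIntegrable _ _
    have h3 : ∫ t in T..(2 * T), ‖AA N t‖ ^ p ≤ ∫ t in T..(2 * T), 2 ^ p * (‖zz t‖ ^ p + ‖zz t - AA N t‖ ^ p) := by
      refine intervalIntegral.integral_mono_on (by linarith) (hc4.intervalIntegrable _ _) ((i3.add i4).const_mul _) fun t _ => ?_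
      refine le_trans ?_ (pow2 (norm_nonneg _) (norm_nonneg _) hp.le)
      refine Real.rpow_le_rpow (norm_nonneg _) ?_ hp.le
      have := norm_sub_le (zz t) (zz t - AA N t)
      rwa [sub_sub_cancel] at this
    rw [intervalIntegral.integral_const_mul, intervalIntegral.integral_add i3 i4] at h3
    refine h3.trans (mul_le_mul_of_nonneg_left ?_ (by positivity))
    have h4 : ∫ t in T..(2 * T), ‖zz t - AA N t‖ ^ p ≤ 1 * ∫ t in T..(2 * T), ‖zz t‖ ^ p :=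
      h1.trans (mul_le_mul_of_nonneg_right (min_le_left _ _) hZ0)
    linarith
  have h7 : C * (∫ t in T..(2 * T), ‖zz t - AA N t‖ ^ p) ≤ ε / 4 * ∫ t in T..(2 * T), ‖zz t‖ ^ p := by
    have h8 : ∫ t in T..(2 * T), ‖zz t - AA N t‖ ^ p ≤ ε / (4 * (C + 1)) * ∫ t in T..(2 * T), ‖zz t‖ ^ p :=
      h1.trans (mul_le_mul_of_nonneg_right (min_le_right _ _) hZ0)
    calc _ ≤ (C + 1) * (ε / (4 * (C + 1)) * ∫ t in T..(2 * T), ‖zz t‖ ^ p) := by
          refine mul_le_mul (by linarith) h8 (intervalIntegral.integral_nonneg (by linarith) fun t _ => Real.rpow_nonneg (norm_nonneg _) _) (by positivity)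
      _ = ε / 4 * ∫ t in T..(2 * T), ‖zz t‖ ^ p := by field_simp
  have h8 := mul_le_mul_of_nonneg_left hAle he1p.le
  have h9 : e1 * (2 ^ p * (2 * ∫ t in T..(2 * T), ‖zz t‖ ^ p)) = ε / 2 * ∫ t in T..(2 * T), ‖zz t‖ ^ p := by
    rw [he1]; field_simp; ring
  have h10 := mul_nonneg hε.le hZ0
  linarith

end Pool.Agent.H470
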