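import Pool.Agent.H470.Za5

set_option autoImplicit false

/-! The phase of Hardy's function. -/

open Complex MeasureTheory Set Filter Topology
open Pool.Agent.W188.QS Pool.Agent.W188.GP

namespace Pool.Agent.H470

/-- `e^{i theta(t)} = pi^{-it/2} Γ(1/4 + it/2) / |Γ(1/4 + it/2)|` -/
noncomputable def hph (t : ℝ) : ℂ :=
  (Real.pi : ℂ) ^ (-(I * (t : ℂ) / 2)) * (Complex.Gamma (1 / 4 + I * (t : ℂ) / 2) / (‖Complex.Gamma (1 / 4 + I * (t : ℂ) / 2)‖ : ℂ))

lemma qre (t : ℝ) : (1 / 4 + I * (t : ℂ) / 2 : ℂ).re = 1 / 4 := by simp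

lemma G_ne (t : ℝ) : Complex.Gamma (1 / 4 + I * (t : ℂ) / 2) ≠ 0 :=
  Complex.Gamma_ne_zero_of_re_pos (by rw [qre]; norm_num)

lemma pi_ne : (Real.pi : ℂ) ≠ 0 := by exact_mod_cast Real.pi_ne_zero

lemma hph_cont : Continuous hph := by
  have hq : Continuous fun t : ℝ => (1 / 4 + I * (t : ℂ) / 2 : ℂ) :=
    continuous_const.add ((continuous_const.mul Complex.continuous_ofReal).div_const 2)
  have hG : Continuous fun t : ℝ => Complex.Gamma (1 / 4 + I * (t : ℂ) / 2) := by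
    refine continuous_iff_continuousAt.2 fun t => ?_
    refine ContinuousAt.comp (f := fun t : ℝ => (1 / 4 + I * (t : ℂ) / 2 : ℂ)) (g := Complex.Gamma) ?_ hq.continuousAt
    refine (Complex.differentiableAt_Gamma _ fun m hm => ?_).continuousAt
    have h1 := congrArg Complex.re hm
    rw [qre, Complex.neg_re, Complex.natCast_re] at h1
    have h3 : (0:ℝ) ≤ m := Nat.cast_nonneg m
    linarith
  have hp : Continuous fun t : ℝ => (Real.pi : ℂ) ^ (-(I * (t : ℂ) / 2)) := by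
    have h1 : Continuous fun t : ℝ => (-(I * (t : ℂ) / 2) : ℂ) := ((continuous_const.mul Complex.continuous_ofReal).div_const 2).neg
    refine continuous_iff_continuousAt.2 fun t => ?_
    exact ContinuousAt.comp (f := fun t : ℝ => (-(I * (t : ℂ) / 2) : ℂ)) (g := fun z : ℂ => (Real.pi : ℂ) ^ z)
      (continuousAt_const_cpow pi_ne) h1.continuousAt
  unfold hph
  refine hp.mul (hG.div (Complex.continuous_ofReal.comp hG.norm) fun t => ?_)
  exact_mod_cast (norm_pos_iff.2 (G_ne t)).ne'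

lemma hph_norm (t : ℝ) : ‖hph t‖ = 1 := by
  unfold hph
  have h1 : ‖(Real.pi : ℂ) ^ (-(I * (t : ℂ) / 2))‖ = 1 := by
    rw [Complex.norm_cpow_eq_rpow_re_of_pos Real.pi_pos]
    have : (-(I * (t : ℂ) / 2) : ℂ).re = 0 := by simp
    rw [this, Real.rpow_zero]
  have h2 : 0 < ‖Complex.Gamma (1 / 4 + I * (t : ℂ) / 2)‖ := norm_pos_iff.2 (G_ne t)
  rw [norm_mul, h1, one_mul, norm_div, Complex.norm_real, norm_norm, div_self h2.ne']

lemma Gr_eq (t : ℝ) : Complex.Gammaℝ (1 / 2 + I * (t : ℂ)) =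
    (((Real.pi ^ (-(1 / 4) : ℝ) * ‖Complex.Gamma (1 / 4 + I * (t : ℂ) / 2)‖ : ℝ)) : ℂ) * hph t := by
  have h2 : 0 < ‖Complex.Gamma (1 / 4 + I * (t : ℂ) / 2)‖ := norm_pos_iff.2 (G_ne t)
  have h3 : ((‖Complex.Gamma (1 / 4 + I * (t : ℂ) / 2)‖ : ℝ) : ℂ) ≠ 0 := by exact_mod_cast h2.ne'
  rw [Complex.Gammaℝ_def]
  unfold hph
  have e1 : (1 / 2 + I * (t : ℂ)) / 2 = 1 / 4 + I * (t : ℂ) / 2 := by ring
  have e2 : -(1 / 2 + I * (t : ℂ)) / 2 = ((-(1 / 4) : ℝ) : ℂ) + (-(I * (t : ℂ) / 2)) := by push_cast; ring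
  rw [e1, e2, Complex.cpow_add _ _ pi_ne, ← Complex.ofReal_cpow Real.pi_pos.le, Complex.ofReal_mul]
  generalize Complex.Gamma (1 / 4 + I * (t : ℂ) / 2) = G at *
  have h4 : G = (‖G‖ : ℂ) * (G / (‖G‖ : ℂ)) := by rw [mul_div_cancel₀ _ h3]
  conv_lhs => rw [h4]
  ring

lemma cp_re (t : ℝ) : (cp t).re = 1 / 2 := by unfold cp; simp

lemma cp_ne (t : ℝ) (n : ℕ) : cp t ≠ -(n : ℂ) := by
  intro h
  have h1 := congrArg Complex.re h
  rw [cp_re, Complex.neg_re, Complex.natCast_re] at h1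
  have h3 : (0:ℝ) ≤ n := Nat.cast_nonneg n
  linarith

lemma XX_eq (t : ℝ) : XX (cp t) = hph t ^ 2 := by
  have h1 := Complex.inv_Gammaℝ_one_sub (s := cp t) (cp_ne t)
  have hc1 : 1 - cp t = (starRingEnd ℂ) (cp t) := by
    unfold cp
    rw [map_add, map_mul, Complex.conj_I, Complex.conj_ofReal, map_div₀, map_one, map_ofNat]
    ring
  have hre : 0 < (cp t).re := by rw [cp_re]; norm_num
  have hg : Complex.Gammaℝ (cp t) ≠ 0 := Complex.Gammaℝ_ne_zero_of_re_pos hre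
  have hconj : Complex.Gammaℝ ((starRingEnd ℂ) (cp t)) = (starRingEnd ℂ) (Complex.Gammaℝ (cp t)) := by
    rw [Complex.Gammaℝ_def, Complex.Gammaℝ_def, map_mul, ← Complex.Gamma_conj, map_div₀, map_ofNat]
    congr 1
    rw [Complex.cpow_def_of_ne_zero pi_ne, Complex.cpow_def_of_ne_zero pi_ne, ← Complex.exp_conj, map_mul, map_div₀, map_neg, map_ofNat,
      ← Complex.ofReal_log Real.pi_pos.le, Complex.conj_ofReal]
  rw [hc1, hconj] at h1
  have h2 : XX (cp t) = Complex.Gammaℂ (cp t) * Complex.cos (Real.pi * cp t / 2) := by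
    unfold XX
    rw [Complex.Gammaℂ_def]
  have h3 : XX (cp t) = Complex.Gammaℝ (cp t) * ((starRingEnd ℂ) (Complex.Gammaℝ (cp t)))⁻¹ := by
    rw [h1, h2]
    field_simp
  have h4 : Complex.Gammaℝ (cp t) = (((Real.pi ^ (-(1 / 4) : ℝ) * ‖Complex.Gamma (1 / 4 + I * (t : ℂ) / 2)‖ : ℝ)) : ℂ) * hph t := by
    rw [← Gr_eq, cp_eq]
  have h5 : (((Real.pi ^ (-(1 / 4) : ℝ) * ‖Complex.Gamma (1 / 4 + I * (t : ℂ) / 2)‖ : ℝ)) : ℂ) ≠ 0 := by
    have h2 : 0 < ‖Complex.Gamma (1 / 4 + I * (t : ℂ) / 2)‖ := norm_pos_iff.2 (G_ne t)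
    have := Real.pi_pos
    exact_mod_cast (show 0 < Real.pi ^ (-(1 / 4) : ℝ) * ‖Complex.Gamma (1 / 4 + I * (t : ℂ) / 2)‖ by positivity).ne'
  have hnn : hph t * (starRingEnd ℂ) (hph t) = 1 := by
    rw [Complex.mul_conj, Complex.normSq_eq_norm_sq, hph_norm t]; norm_num
  have hn0 : (starRingEnd ℂ) (hph t) ≠ 0 := fun h => by rw [h, mul_zero] at hnn; exact zero_ne_one hnn
  rw [h3, h4, map_mul, Complex.conj_ofReal, mul_inv]
  generalize ((Real.pi ^ (-(1 / 4) : ℝ) * ‖Complex.Gamma (1 / 4 + I * (t : ℂ) / 2)‖ : ℝ) : ℂ) = r at *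
  generalize hph t = z at *
  generalize (starRingEnd ℂ) z = z' at *
  have h6 : r * r⁻¹ = 1 := mul_inv_cancel₀ h5
  have h7 : z'⁻¹ = z := by
    rw [inv_eq_iff_eq_inv]
    exact (inv_eq_of_mul_eq_one_right hnn).symm
  rw [h7]
  linear_combination z ^ 2 * h6

lemma hph_ph : Ph hph where
  cont := hph_cont
  norm := hph_norm
  sq := by
    intro t _
    have hnn : hph t * (starRingEnd ℂ) (hph t) = 1 := by
      rw [Complex.mul_conj, Complex.normSq_eq_norm_sq, hph_norm t]; norm_num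
    unfold chi
    rw [XX_eq, map_pow, ← mul_pow, mul_comm, hnn, one_pow]

/-- Hardy's function is real -/
lemma hph_real (t : ℝ) : (((hph t * zz t).re : ℝ) : ℂ) = hph t * zz t := by
  have hs1 : cp t ≠ 1 := by
    intro h
    have := congrArg Complex.re h
    rw [cp_re, Complex.one_re] at this
    norm_num at this
  have h1 := riemannZeta_one_sub (s := cp t) (cp_ne t) hs1
  have hc1 : 1 - cp t = (starRingEnd ℂ) (cp t) := by
    unfold cp
    rw [map_add, map_mul, Complex.conj_I, Complex.conj_ofReal, map_div₀, map_one, map_ofNat]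
    ring
  rw [hc1, riemannZeta_conj] at h1
  have h2 : (starRingEnd ℂ) (riemannZeta (cp t)) = XX (cp t) * riemannZeta (cp t) := h1
  have hz : zz t = riemannZeta (cp t) := by unfold zz; rw [cp_eq]
  have hnn : hph t * (starRingEnd ℂ) (hph t) = 1 := by
    rw [Complex.mul_conj, Complex.normSq_eq_norm_sq, hph_norm t]; norm_num
  have h3 : (starRingEnd ℂ) (hph t * zz t) = hph t * zz t := by
    rw [map_mul, hz, h2, XX_eq]
    linear_combination (hph t * riemannZeta (cp t)) * hnn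
  exact Complex.conj_eq_iff_re.1 h3

end Pool.Agent.H470
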