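import Pool.Agent.H470.Ya12

set_option autoImplicit false

/-! The asymptotic formula for a moment of zeta is one for its partial sums of length `T^(1-o(1))`. -/

open Complex MeasureTheory Set Filter Topology

namespace Pool.Agent.H470

lemma rat_log (q : ℝ) : Tendsto (fun T : ℝ => (Real.log T / Real.log (2 * T)) ^ q) atTop (𝓝 1) := by
  have h1 : Tendsto (fun T : ℝ => Real.log T / Real.log (2 * T)) atTop (𝓝 1) := by
    have h2 : Tendsto (fun T : ℝ => 1 - Real.log 2 * (Real.log (2 * T))⁻¹) atTop (𝓝 (1 - Real.log 2 * 0)) := by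
      refine tendsto_const_nhds.sub (tendsto_const_nhds.mul ?_)
      exact (Real.tendsto_log_atTop.comp (tendsto_id.const_mul_atTop (by norm_num : (0:ℝ) < 2))).inv_tendsto_atTop
    rw [mul_zero, sub_zero] at h2
    refine h2.congr' ?_
    filter_upwards [eventually_ge_atTop (2:ℝ)] with T hT
    have hl : 0 < Real.log (2 * T) := Real.log_pos (by linarith)
    have e : Real.log (2 * T) = Real.log 2 + Real.log T := Real.log_mul (by norm_num) (by linarith)
    rw [eq_div_iff hl.ne', sub_mul, one_mul, mul_assoc, inv_mul_cancel₀ hl.ne', mul_one, e]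
    ring
  have h3 := h1.rpow_const (p := q) (Or.inl one_ne_zero)
  rwa [Real.one_rpow] at h3

lemma contr {h : ℝ → ℝ} {T1 δ B : ℝ} (hT1 : 0 < T1) (hδ : 0 < δ) (hrec : ∀ T, T1 ≤ T → |h (2 * T)| ≤ |h T| / 2 + δ / 4)
    (hB : ∀ T, T1 ≤ T → T ≤ 2 * T1 → |h T| ≤ B) (n : ℕ) :
    ∀ T, 2 ^ n * T1 ≤ T → T ≤ 2 ^ (n + 1) * T1 → |h T| ≤ B / 2 ^ n + δ / 2 := by
  induction n with
  | zero =>
    intro T h1 h2
    rw [pow_zero, one_mul] at h1
    rw [zero_add, pow_one] at h2
    rw [pow_zero, div_one]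
    linarith [hB T h1 h2]
  | succ n ih =>
    intro T h1 h2
    have e1 : (2:ℝ) ^ (n + 1) * T1 = 2 * (2 ^ n * T1) := by ring
    have e2 : (2:ℝ) ^ (n + 1 + 1) * T1 = 2 * (2 ^ (n + 1) * T1) := by ring
    rw [e1] at h1
    rw [e2] at h2
    have h3 := ih (T / 2) (by linarith) (by linarith)
    have h4 : T1 ≤ T / 2 := by
      have : T1 ≤ 2 ^ n * T1 := le_mul_of_one_le_left hT1.le (one_le_pow₀ (by norm_num))
      linarith
    have h5 := hrec (T / 2) h4
    rw [mul_div_cancel₀ _ (two_ne_zero)] at h5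
    have e3 : B / 2 ^ (n + 1) = B / 2 ^ n / 2 := by rw [pow_succ, div_div]
    rw [e3]
    linarith

lemma dyad {V : ℝ → ℝ} (hmono : ∀ a b, 0 ≤ a → a ≤ b → V a ≤ V b) (h0 : ∀ x, 0 ≤ x → 0 ≤ V x) {q c : ℝ} (hq : 0 ≤ q)
    (hlim : Tendsto (fun T => (V (2 * T) - V T) / (T * Real.log T ^ q)) atTop (𝓝 c)) :
    Tendsto (fun T => V T / (T * Real.log T ^ q)) atTop (𝓝 c) := by
  have he : Tendsto (fun T => (Real.log T / Real.log (2 * T)) ^ q * ((V (2 * T) - V T) / (T * Real.log T ^ q) + c) / 2 - c) atTop (𝓝 (1 * (c + c) / 2 - c)) :=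
    (((rat_log q).mul (hlim.add_const c)).div_const 2).sub_const c
  have e0 : 1 * (c + c) / 2 - c = 0 := by ring
  rw [e0] at he
  rw [Metric.tendsto_atTop]
  intro δ hδ
  obtain ⟨T0, hT0⟩ := (Metric.tendsto_atTop.1 he) (δ / 8) (by positivity)
  set T1 := max T0 3 with hT1
  have hT13 : 3 ≤ T1 := le_max_right _ _
  have hT1p : 0 < T1 := by linarith
  have hlp : ∀ T, T1 ≤ T → 1 ≤ Real.log T := fun T hT => by
    rw [Real.le_log_iff_exp_le (by linarith)]
    have := Real.exp_one_lt_d9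
    linarith
  set h : ℝ → ℝ := fun T => V T / (T * Real.log T ^ q) - c with hh
  have hrec : ∀ T, T1 ≤ T → |h (2 * T)| ≤ |h T| / 2 + (δ / 2) / 4 := by
    intro T hT
    have hTp : 0 < T := by linarith
    have hl := hlp T hT
    have hl2 := hlp (2 * T) (by linarith)
    have hlq : 0 < Real.log T ^ q := Real.rpow_pos_of_pos (by linarith) _
    have hlq2 : 0 < Real.log (2 * T) ^ q := Real.rpow_pos_of_pos (by linarith) _
    have h1 := hT0 T ((le_max_left _ _).trans hT)
    rw [Real.dist_eq, sub_zero] at h1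
    have hr : (Real.log T / Real.log (2 * T)) ^ q = Real.log T ^ q / Real.log (2 * T) ^ q := Real.div_rpow (by linarith) (by linarith) _
    have hr1 : (Real.log T / Real.log (2 * T)) ^ q ≤ 1 := by
      refine Real.rpow_le_one (by positivity) ?_ hq
      rw [div_le_one (by linarith)]
      exact Real.log_le_log hTp (by linarith)
    have hr0 : 0 ≤ (Real.log T / Real.log (2 * T)) ^ q := by positivity
    have e1 : h (2 * T) = (Real.log T / Real.log (2 * T)) ^ q * h T / 2 +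
        ((Real.log T / Real.log (2 * T)) ^ q * ((V (2 * T) - V T) / (T * Real.log T ^ q) + c) / 2 - c) := by
      rw [hh]
      show V (2 * T) / (2 * T * Real.log (2 * T) ^ q) - c = (Real.log T / Real.log (2 * T)) ^ q * (V T / (T * Real.log T ^ q) - c) / 2 + _
      rw [hr]
      field_simp
      ring
    rw [e1]
    refine (abs_add_le _ _).trans ?_
    have h2 : |(Real.log T / Real.log (2 * T)) ^ q * h T / 2| ≤ |h T| / 2 := by
      rw [abs_div, abs_mul, abs_of_nonneg hr0, abs_two]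
      exact div_le_div_of_nonneg_right (mul_le_of_le_one_left (abs_nonneg _) hr1) (by norm_num)
    linarith
  have hB : ∀ T, T1 ≤ T → T ≤ 2 * T1 → |h T| ≤ V (2 * T1) / T1 + |c| := by
    intro T h1 h2
    have hTp : 0 < T := by linarith
    have hl := hlp T h1
    have hlq : 1 ≤ Real.log T ^ q := Real.one_le_rpow hl hq
    rw [hh]
    refine (abs_sub _ _).trans ?_
    refine add_le_add ?_ le_rfl
    rw [abs_of_nonneg (div_nonneg (h0 T hTp.le) (by positivity))]
    have h3 : T1 ≤ T * Real.log T ^ q := h1.trans (le_mul_of_one_le_right hTp.le hlq)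
    exact div_le_div₀ (h0 _ (by linarith)) (hmono T (2 * T1) hTp.le h2) hT1p h3
  obtain ⟨m, hm⟩ := exists_nat_ge ((V (2 * T1) / T1 + |c|) / (δ / 4))
  have hB0 : 0 ≤ V (2 * T1) / T1 + |c| := add_nonneg (div_nonneg (h0 _ (by linarith)) hT1p.le) (abs_nonneg _)
  refine ⟨2 ^ m * T1, ?_⟩
  intro T hT
  rw [Real.dist_eq]
  -- the dyadic block of T
  have hTT1 : T1 ≤ T := (le_mul_of_one_le_left hT1p.le (one_le_pow₀ (by norm_num))).trans hT
  obtain ⟨n, hn1, hn2⟩ : ∃ n : ℕ, 2 ^ n * T1 ≤ T ∧ T < 2 ^ (n + 1) * T1 := by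
    obtain ⟨n, hn1, hn2⟩ := exists_nat_pow_near (x := T / T1) (y := (2:ℝ)) (by rw [le_div_iff₀ hT1p, one_mul]; exact hTT1) (by norm_num)
    refine ⟨n, ?_, ?_⟩
    · rwa [le_div_iff₀ hT1p] at hn1
    · rwa [div_lt_iff₀ hT1p] at hn2
  have hmn : m ≤ n := by
    by_contra hcon
    push Not at hcon
    have h1 : (2:ℝ) ^ (n + 1) ≤ 2 ^ m := pow_le_pow_right₀ (by norm_num) hcon
    have h2 := mul_le_mul_of_nonneg_right h1 hT1p.le
    linarith
  have h1 := contr hT1p (show 0 < δ / 2 by positivity) hrec hB n T hn1 hn2.le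
  have h2 : (V (2 * T1) / T1 + |c|) / 2 ^ n ≤ δ / 4 := by
    rw [div_le_iff₀ (by positivity)]
    rw [div_le_iff₀ (by positivity)] at hm
    have h3 : (m:ℝ) ≤ 2 ^ n := by
      have h4 : (m:ℝ) ≤ n := by exact_mod_cast hmn
      have h5 : (n:ℝ) < 2 ^ n := by exact_mod_cast Nat.lt_two_pow_self
      linarith
    calc V (2 * T1) / T1 + |c| ≤ m * (δ / 4) := hm
      _ ≤ 2 ^ n * (δ / 4) := mul_le_mul_of_nonneg_right h3 (by positivity)
      _ = δ / 4 * 2 ^ n := by ring
  show |h T| < δ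
  linarith

lemma dyad' {V : ℝ → ℝ} {q c : ℝ} (hlim : Tendsto (fun T => V T / (T * Real.log T ^ q)) atTop (𝓝 c)) :
    Tendsto (fun T => (V (2 * T) - V T) / (T * Real.log T ^ q)) atTop (𝓝 c) := by
  have h2T : Tendsto (fun T : ℝ => 2 * T) atTop atTop := tendsto_id.const_mul_atTop (by norm_num)
  have h1 : Tendsto (fun T => 2 * (V (2 * T) / (2 * T * Real.log (2 * T) ^ q)) * ((Real.log T / Real.log (2 * T)) ^ q)⁻¹ - V T / (T * Real.log T ^ q)) atTop (𝓝 (2 * c * (1:ℝ)⁻¹ - c)) :=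
    (((hlim.comp h2T).const_mul 2).mul ((rat_log q).inv₀ one_ne_zero)).sub hlim
  have e0 : 2 * c * (1:ℝ)⁻¹ - c = c := by rw [inv_one]; ring
  rw [e0] at h1
  refine h1.congr' ?_
  filter_upwards [eventually_ge_atTop (3:ℝ)] with T hT
  have hTp : 0 < T := by linarith
  have hl : 0 < Real.log T := Real.log_pos (by linarith)
  have hl2 : 0 < Real.log (2 * T) := Real.log_pos (by linarith)
  have hlq : 0 < Real.log T ^ q := Real.rpow_pos_of_pos hl _
  have hlq2 : 0 < Real.log (2 * T) ^ q := Real.rpow_pos_of_pos hl2 _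
  rw [Real.div_rpow hl.le hl2.le]
  field_simp

/-- The asymptotic formula for the moment of order `p` of zeta is equivalent to the one for its partial sums of length `T^(1-o(1))`. -/
theorem iff_all {p : ℝ} (hp : 0 < p) {N : ℝ → ℕ} (hN : ∀ᶠ T in atTop, 1 ≤ N T ∧ (N T : ℝ) ≤ T)
    (hlog : Tendsto (fun T : ℝ => Real.log (N T) / Real.log T) atTop (𝓝 1)) (c : ℝ) :
    Tendsto (fun T : ℝ => (∫ t in (0:ℝ)..T, ‖zz t‖ ^ p) / (T * Real.log T ^ (p ^ 2 / 4))) atTop (𝓝 c) ↔
    Tendsto (fun T : ℝ => (∫ t in T..(2 * T), ‖AA (N T) t‖ ^ p) / (T * Real.log T ^ (p ^ 2 / 4))) atTop (𝓝 c) := by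
  have hzc : Continuous fun t => ‖zz t‖ ^ p := normp_cont zz_cont hp.le
  have hV : ∀ T : ℝ, (∫ t in (0:ℝ)..(2 * T), ‖zz t‖ ^ p) - ∫ t in (0:ℝ)..T, ‖zz t‖ ^ p = ∫ t in T..(2 * T), ‖zz t‖ ^ p := fun T =>
    intervalIntegral.integral_interval_sub_left (hzc.intervalIntegrable _ _) (hzc.intervalIntegrable _ _)
  have hA : Tendsto (fun T : ℝ => (∫ t in (0:ℝ)..T, ‖zz t‖ ^ p) / (T * Real.log T ^ (p ^ 2 / 4))) atTop (𝓝 c) ↔
      Tendsto (fun T : ℝ => (∫ t in T..(2 * T), ‖zz t‖ ^ p) / (T * Real.log T ^ (p ^ 2 / 4))) atTop (𝓝 c) := by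
    constructor
    · intro h
      have := dyad' (V := fun T => ∫ t in (0:ℝ)..T, ‖zz t‖ ^ p) h
      simpa only [hV] using this
    · intro h
      refine dyad (V := fun T => ∫ t in (0:ℝ)..T, ‖zz t‖ ^ p) ?_ ?_ (by positivity) (by simpa only [hV] using h)
      · intro a b ha hab
        exact int_mono_set hzc (fun t => Real.rpow_nonneg (norm_nonneg _) _) le_rfl ha hab
      · intro x hx
        exact intervalIntegral.integral_nonneg hx fun t _ => Real.rpow_nonneg (norm_nonneg _) _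
  rw [hA]
  -- the ratio tends to one
  have hrat : Tendsto (fun T : ℝ => (∫ t in T..(2 * T), ‖AA (N T) t‖ ^ p) / (∫ t in T..(2 * T), ‖zz t‖ ^ p)) atTop (𝓝 1) := by
    rw [Metric.tendsto_atTop]
    intro ε hε
    obtain ⟨A, hA⟩ := cmp_all hp (show 0 < ε / 2 by positivity)
    have h1 : ∀ᶠ T : ℝ in atTop, 1 - 1 / ((A:ℝ) + 1) < Real.log (N T) / Real.log T :=
      hlog.eventually (lt_mem_nhds (by
        have : 0 < 1 / ((A:ℝ) + 1) := by positivity
        linarith))
    obtain ⟨T0, hT0⟩ := eventually_atTop.1 (h1.and (hN.and ((eventually_ge_atTop (A:ℝ)).and ((eventually_ge_atTop (1:ℝ)).and (Real.tendsto_log_atTop.eventually_gt_atTop 0)))))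
    refine ⟨T0, fun T hT => ?_⟩
    obtain ⟨b1, ⟨b2, b3⟩, b4, b5, b6⟩ := hT0 T hT
    have hTp : 0 < T := by linarith
    have hNp : (0:ℝ) < N T := by exact_mod_cast b2
    have h2 : (T / N T) ^ A ≤ T := by
      have h3 : Real.log ((T / N T) ^ A) ≤ Real.log T := by
        rw [Real.log_pow, Real.log_div hTp.ne' hNp.ne']
        rw [lt_div_iff₀ b6] at b1
        have h4 : Real.log T - Real.log (N T) ≤ Real.log T / (A + 1) := by
          have : (1 - 1 / ((A:ℝ) + 1)) * Real.log T = Real.log T - Real.log T / (A + 1) := by ring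
          linarith
        have h5 : (A:ℝ) * (Real.log T / (A + 1)) ≤ Real.log T := by
          rw [mul_div_assoc', div_le_iff₀ (by positivity)]
          nlinarith
        exact (mul_le_mul_of_nonneg_left h4 (Nat.cast_nonneg A)).trans h5
      exact (Real.log_le_log_iff (by positivity) hTp).1 h3
    have h6 := (hA T b4 (N T) b2 b3 h2).2
    rw [Real.dist_eq]
    linarith
  obtain ⟨c₀, hc₀, T₁, hlow⟩ := lowall hp
  have hne : ∀ᶠ T : ℝ in atTop, (∫ t in T..(2 * T), ‖zz t‖ ^ p) ≠ 0 := by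
    filter_upwards [eventually_ge_atTop T₁, eventually_ge_atTop (3:ℝ)] with T h1 h2
    have h3 := hlow T h1
    have hl : 0 < Real.log T := Real.log_pos (by linarith)
    have : 0 < c₀ * (T * Real.log T ^ (p ^ 2 / 4)) := by
      have := Real.rpow_pos_of_pos hl (p ^ 2 / 4)
      have hTp : 0 < T := by linarith
      positivity
    linarith
  constructor
  · intro h
    have h1 := hrat.mul h
    rw [one_mul] at h1
    refine h1.congr' ?_
    filter_upwards [hne] with T h2
    field_simp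
  · intro h
    have h1 := (hrat.inv₀ one_ne_zero).mul h
    rw [inv_one, one_mul] at h1
    have hne2 : ∀ᶠ T : ℝ in atTop, (∫ t in T..(2 * T), ‖AA (N T) t‖ ^ p) ≠ 0 := by
      have h3 := hrat.eventually (lt_mem_nhds (show (1:ℝ) / 2 < 1 by norm_num))
      filter_upwards [h3] with T h4 h5
      rw [h5, zero_div] at h4
      linarith
    refine h1.congr' ?_
    filter_upwards [hne, hne2] with T h2 h3
    rw [inv_div]
    field_simp

end Pool.Agent.H470
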