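import Pool.Agent.H470.Lp

set_option autoImplicit false

/-!
# Moments of zeta and moments of partial sums: the basic inequality
-/

open Complex MeasureTheory Set Filter Topology

namespace Pool.Agent.H470

theorem E_Lp {p : ℝ} (hp : 1 < p) {h κ : ℝ} {K : ℕ} (hh : 0 < h) (hκ : 0 ≤ κ) {f : ℝ → ℂ}
    (hf : Continuous f) {a b : ℝ} (hab : a ≤ b) :
    ∫ t in a..b, (κ * ∑ k ∈ Finset.Icc (1 - (K : ℤ)) K, ‖f (t + h * ((k : ℝ) - 1 / 2))‖) ^ p ≤
      (κ * (2 * K)) ^ p * ∫ t in (a - h * K)..(b + h * K), ‖f t‖ ^ p := by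
  have hp0 : 0 ≤ p := by linarith
  set S := Finset.Icc (1 - (K : ℤ)) K with hS
  have hc : Continuous fun t => ‖f t‖ ^ p := normp_cont hf hp0
  have hck : ∀ k : ℤ, Continuous fun t => ‖f (t + h * ((k : ℝ) - 1 / 2))‖ ^ p := fun k =>
    hc.comp (continuous_id.add continuous_const)
  have hpt : ∀ t, (κ * ∑ k ∈ S, ‖f (t + h * ((k : ℝ) - 1 / 2))‖) ^ p ≤
      (κ * (2 * K)) ^ (p - 1) * ∑ k ∈ S, κ * ‖f (t + h * ((k : ℝ) - 1 / 2))‖ ^ p := by
    intro t
    have := jensen_w S hp (fun _ => κ) (fun k : ℤ => ‖f (t + h * ((k : ℝ) - 1 / 2))‖)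
      (fun _ => hκ) (fun _ => norm_nonneg _)
    rw [Finset.mul_sum]
    refine this.trans (le_of_eq ?_)
    rw [Finset.sum_const, nsmul_eq_mul, hS, card_Icc, mul_comm κ]
  have hΦ : ∀ k ∈ S, ∫ t in a..b, κ * ‖f (t + h * ((k : ℝ) - 1 / 2))‖ ^ p ≤
      κ * ∫ t in (a - h * K)..(b + h * K), ‖f t‖ ^ p := by
    intro k hk
    rw [intervalIntegral.integral_const_mul]
    apply mul_le_mul_of_nonneg_left _ hκ
    rw [intervalIntegral.integral_comp_add_right (fun t => ‖f t‖ ^ p)]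
    have h1 : |h * ((k : ℝ) - 1 / 2)| ≤ h * K := by
      rw [abs_mul, abs_of_pos hh]
      exact mul_le_mul_of_nonneg_left (half_abs hk) hh.le
    have h2 := abs_le.1 h1
    exact int_mono_set hc (fun t => Real.rpow_nonneg (norm_nonneg _) _) (by linarith)
      (by linarith) (by linarith)
  have hcl : Continuous fun t => (κ * ∑ k ∈ S, ‖f (t + h * ((k : ℝ) - 1 / 2))‖) ^ p := by
    apply Continuous.rpow_const _ fun _ => Or.inr hp0
    exact continuous_const.mul (continuous_finsetSum _ fun k _ =>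
      (hf.comp (continuous_id.add continuous_const)).norm)
  have hcr : Continuous fun t => (κ * (2 * K)) ^ (p - 1) *
      ∑ k ∈ S, κ * ‖f (t + h * ((k : ℝ) - 1 / 2))‖ ^ p :=
    continuous_const.mul (continuous_finsetSum _ fun k _ => continuous_const.mul (hck k))
  have hx : 0 ≤ κ * (2 * K) := by positivity
  set Φ := ∫ t in (a - h * K)..(b + h * K), ‖f t‖ ^ p with hΦd
  calc ∫ t in a..b, (κ * ∑ k ∈ S, ‖f (t + h * ((k : ℝ) - 1 / 2))‖) ^ p
      ≤ ∫ t in a..b, (κ * (2 * K)) ^ (p - 1) *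
          ∑ k ∈ S, κ * ‖f (t + h * ((k : ℝ) - 1 / 2))‖ ^ p :=
        intervalIntegral.integral_mono_on hab (hcl.intervalIntegrable _ _)
          (hcr.intervalIntegrable _ _) fun t _ => hpt t
    _ = (κ * (2 * K)) ^ (p - 1) * ∑ k ∈ S, ∫ t in a..b,
          κ * ‖f (t + h * ((k : ℝ) - 1 / 2))‖ ^ p := by
        rw [intervalIntegral.integral_const_mul, intervalIntegral.integral_finsetSum]
        intro k _
        exact (continuous_const.mul (hck k)).intervalIntegrable _ _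
    _ ≤ (κ * (2 * K)) ^ (p - 1) * ∑ k ∈ S, κ * Φ :=
        mul_le_mul_of_nonneg_left (Finset.sum_le_sum hΦ) (Real.rpow_nonneg hx _)
    _ = (κ * (2 * K)) ^ (p - 1) * (κ * (2 * K)) * Φ := by
        rw [Finset.sum_const, nsmul_eq_mul, hS, card_Icc]; ring
    _ = (κ * (2 * K)) ^ p * Φ := by
        congr 1
        rcases hx.eq_or_lt with h0 | h0
        · rw [← h0, mul_zero, Real.zero_rpow (by linarith)]
        · rw [← Real.rpow_add_one h0.ne', sub_add_cancel]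

/-- sums over blocks of length `D` -/
theorem blocks_sum {g : ℝ → ℝ} (hg : Continuous g) (h0 : ∀ t, 0 ≤ g t) {D a b : ℝ} (hD : 0 < D)
    (ha : 0 ≤ a) (hab : a ≤ b) :
    ∑ m ∈ Finset.Ico ⌊a / D⌋₊ (⌊b / D⌋₊ + 1), ∫ t in (D * (m : ℝ) - D)..(D * (m : ℝ) + 2 * D), g t ≤
      3 * ∫ t in (a - 2 * D)..(b + 2 * D), g t := by
  set m0 := ⌊a / D⌋₊ with hm0
  set m1 := ⌊b / D⌋₊ + 1 with hm1
  have hb : 0 ≤ b := ha.trans hab
  have hle : m0 ≤ m1 := by
    have : m0 ≤ ⌊b / D⌋₊ := Nat.floor_le_floor (div_le_div_of_nonneg_right hab hD.le)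
    omega
  have h1 : a - D ≤ D * (m0 : ℝ) := by
    have := (Nat.lt_floor_add_one (a / D)).le
    rw [div_le_iff₀ hD] at this
    rw [hm0]; linarith
  have h2 : D * (m1 : ℝ) ≤ b + D := by
    have := Nat.floor_le (div_nonneg hb hD.le)
    rw [le_div_iff₀ hD] at this
    rw [hm1]; push_cast; linarith
  have h01 : D * (m0 : ℝ) ≤ D * (m1 : ℝ) := by
    apply mul_le_mul_of_nonneg_left _ hD.le
    exact_mod_cast hle
  have hii : ∀ x y, IntervalIntegrable g volume x y := fun x y => hg.intervalIntegrable x y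
  have key : ∀ c : ℝ, ∑ m ∈ Finset.Ico m0 m1, ∫ t in (D * (m : ℝ) + c)..(D * (m : ℝ) + c + D), g t =
      ∫ t in (D * (m0 : ℝ) + c)..(D * (m1 : ℝ) + c), g t := by
    intro c
    have := intervalIntegral.sum_integral_adjacent_intervals_Ico (f := g) (μ := volume)
      (a := fun m : ℕ => D * (m : ℝ) + c) hle (fun k _ => hii _ _)
    rw [← this]
    refine Finset.sum_congr rfl fun m _ => ?_
    congr 1
    push_cast
    ring
  have hsplit : ∀ m : ℕ, ∫ t in (D * (m : ℝ) - D)..(D * (m : ℝ) + 2 * D), g t =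
      (∫ t in (D * (m : ℝ) + (-D))..(D * (m : ℝ) + (-D) + D), g t) +
      (∫ t in (D * (m : ℝ) + 0)..(D * (m : ℝ) + 0 + D), g t) +
      (∫ t in (D * (m : ℝ) + D)..(D * (m : ℝ) + D + D), g t) := by
    intro m
    rw [show D * (m : ℝ) + (-D) + D = D * (m : ℝ) + 0 by ring,
      intervalIntegral.integral_add_adjacent_intervals (hii _ _) (hii _ _),
      show D * (m : ℝ) + 0 + D = D * (m : ℝ) + D by ring,
      intervalIntegral.integral_add_adjacent_intervals (hii _ _) (hii _ _)]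
    congr 1; ring
  simp_rw [hsplit]
  rw [Finset.sum_add_distrib, Finset.sum_add_distrib, key, key, key]
  have k1 : ∫ t in (D * (m0 : ℝ) + (-D))..(D * (m1 : ℝ) + (-D)), g t ≤
      ∫ t in (a - 2 * D)..(b + 2 * D), g t :=
    int_mono_set hg h0 (by linarith) (by linarith) (by linarith)
  have k2 : ∫ t in (D * (m0 : ℝ) + 0)..(D * (m1 : ℝ) + 0), g t ≤
      ∫ t in (a - 2 * D)..(b + 2 * D), g t :=
    int_mono_set hg h0 (by linarith) (by linarith) (by linarith)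
  have k3 : ∫ t in (D * (m0 : ℝ) + D)..(D * (m1 : ℝ) + D), g t ≤
      ∫ t in (a - 2 * D)..(b + 2 * D), g t :=
    int_mono_set hg h0 (by linarith) (by linarith) (by linarith)
  linarith

theorem blocks_p (p : ℝ) (hp : 1 < p) : ∃ C : ℝ, 0 < C ∧ ∀ T R : ℝ, 4 ≤ Real.log T →
    Real.sqrt T ≤ R ^ 2 → 1 ≤ R → R ≤ T → ∀ N : ℕ, (N : ℝ) ≤ 16 * T → (N : ℝ) ≤ R ^ 2 →
    ∀ D a b : ℝ, 0 < D → 2 * R * Real.log T + 2 ≤ D → D ≤ a → a ≤ b → ⌊b / D⌋₊ ≤ N →
    ∑ m ∈ Finset.Ico ⌊a / D⌋₊ (⌊b / D⌋₊ + 1), ∫ t in (D * (m : ℝ))..(D * (m : ℝ) + D),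
      ‖AA m t‖ ^ p ≤ C * ((∫ t in (a - 2 * D)..(b + 2 * D), ‖AA N t‖ ^ p) + (b - a + 2 * D)) := by
  obtain ⟨C, hC, hm⟩ := mono_p p hp
  have hp0 : 0 ≤ p := by linarith
  refine ⟨3 * C, by positivity, ?_⟩
  intro T R hL hRT hR hRT1 N hN16 hNR D a b hD hwD hDa hab hbN
  have ha : 0 ≤ a := by linarith
  have hb : 0 ≤ b := by linarith
  set m0 := ⌊a / D⌋₊ with hm0
  have hm01 : 1 ≤ m0 := by
    rw [hm0, Nat.one_le_floor_iff, one_le_div hD]; exact hDa
  have hc : Continuous fun t => ‖AA N t‖ ^ p := normp_cont (AA_cont N) hp0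
  have hc0 : ∀ t, 0 ≤ ‖AA N t‖ ^ p := fun t => Real.rpow_nonneg (norm_nonneg _) _
  have h1 : ∀ m ∈ Finset.Ico m0 (⌊b / D⌋₊ + 1),
      ∫ t in (D * (m : ℝ))..(D * (m : ℝ) + D), ‖AA m t‖ ^ p ≤
      C * ((∫ t in (D * (m : ℝ) - D)..(D * (m : ℝ) + 2 * D), ‖AA N t‖ ^ p) + D) := by
    intro m hmm
    rw [Finset.mem_Ico] at hmm
    have hmN : m ≤ N := by omega
    have hmr : (m : ℝ) ≤ N := by exact_mod_cast hmN
    refine (hm T R hL hRT hR hRT1 m N (by omega) hmN hN16 (by linarith) _ _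
      (by linarith)).trans ?_
    apply mul_le_mul_of_nonneg_left _ hC.le
    rw [add_sub_cancel_left]
    have hw0 : 0 ≤ 2 * R * Real.log T + 2 := by positivity
    have := int_mono_set hc hc0 (a := D * (m : ℝ) - (2 * R * Real.log T + 2))
      (b := D * (m : ℝ) + D + (2 * R * Real.log T + 2)) (c := D * (m : ℝ) - D)
      (d := D * (m : ℝ) + 2 * D) (by linarith) (by linarith) (by linarith)
    linarith
  refine (Finset.sum_le_sum h1).trans ?_
  rw [← Finset.mul_sum, Finset.sum_add_distrib, Finset.sum_const, Nat.card_Ico, nsmul_eq_mul]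
  have h2 := blocks_sum hc hc0 hD ha hab
  rw [← hm0] at h2
  have h3 : ((⌊b / D⌋₊ + 1 - m0 : ℕ) : ℝ) * D ≤ b - a + 2 * D := by
    have hle : m0 ≤ ⌊b / D⌋₊ + 1 := by
      have : m0 ≤ ⌊b / D⌋₊ := Nat.floor_le_floor (div_le_div_of_nonneg_right hab hD.le)
      omega
    rw [Nat.cast_sub hle]
    have e1 := (Nat.lt_floor_add_one (a / D)).le
    rw [div_le_iff₀ hD] at e1
    have e2 := Nat.floor_le (div_nonneg hb hD.le)
    rw [le_div_iff₀ hD] at e2
    rw [hm0]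
    push_cast
    nlinarith
  have h4 : 0 ≤ b - a + 2 * D := by linarith
  calc C * (∑ m ∈ Finset.Ico m0 (⌊b / D⌋₊ + 1),
        (∫ t in (D * (m : ℝ) - D)..(D * (m : ℝ) + 2 * D), ‖AA N t‖ ^ p) +
        ((⌊b / D⌋₊ + 1 - m0 : ℕ) : ℝ) * D)
      ≤ C * (3 * (∫ t in (a - 2 * D)..(b + 2 * D), ‖AA N t‖ ^ p) + (b - a + 2 * D)) :=
        mul_le_mul_of_nonneg_left (add_le_add h2 h3) hC.le
    _ ≤ 3 * C * ((∫ t in (a - 2 * D)..(b + 2 * D), ‖AA N t‖ ^ p) + (b - a + 2 * D)) := by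
        nlinarith [mul_nonneg hC.le h4]

end Pool.Agent.H470
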